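import Pool.Agent.H255.BC.Defs


set_option autoImplicit false

open Filter Topology
open scoped InnerProductSpace

namespace Pool.Agent.H139.BC.AE

section real

variable {E : Type} [NormedAddCommGroup E] [InnerProductSpace ℝ E] [CompleteSpace E]
variable {G : Type} [Group G]

/-- modulus -/
def Mod (β : G → E → E) (ρ : G → ℝ) (k : E) : Prop :=
  ∀ a : ℝ, 0 < a → ∃ b : ℝ, 0 ≤ b ∧ ∀ g, ‖β g k - k‖ ^ 2 ≤ a + b * ρ g ^ 2

lemma minpt (C : Set E) (hne : C.Nonempty) (hcl : IsClosed C) (hcv : Convex ℝ C) :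
    ∃ m ∈ C, ∀ z ∈ C, ‖z - m‖ ^ 2 ≤ ‖z‖ ^ 2 - ‖m‖ ^ 2 := by
  obtain ⟨m, hm, hmin⟩ := exists_norm_eq_iInf_of_complete_convex hne hcl.isComplete hcv 0
  refine ⟨m, hm, fun z hz => ?_⟩
  have h := (norm_eq_iInf_iff_real_inner_le_zero hcv hm).1 hmin z hz
  have h1 : 0 ≤ ⟪m, z - m⟫_ℝ := by
    rw [zero_sub, inner_neg_left] at h
    linarith
  have h2 : ‖z‖ ^ 2 = ‖z - m‖ ^ 2 + 2 * ⟪z - m, m⟫_ℝ + ‖m‖ ^ 2 := by
    have := norm_add_sq_real (z - m) m
    simpa using this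
  rw [real_inner_comm] at h1
  linarith

lemma closure_hull_le (S : Set E) (k : E) (c : ℝ) (h : ∀ z ∈ S, ⟪k, z⟫_ℝ ≤ c) :
    ∀ z ∈ closure (convexHull ℝ S), ⟪k, z⟫_ℝ ≤ c := by
  have hcl : IsClosed {z : E | ⟪k, z⟫_ℝ ≤ c} :=
    isClosed_le (continuous_const.inner continuous_id) continuous_const
  have hcv : Convex ℝ {z : E | ⟪k, z⟫_ℝ ≤ c} := by
    intro z hz w hw a b ha hb hab
    simp only [Set.mem_setOf_eq] at *
    rw [inner_add_right, inner_smul_right, inner_smul_right]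
    have : a * ⟪k, z⟫_ℝ + b * ⟪k, w⟫_ℝ ≤ a * c + b * c :=
      add_le_add (mul_le_mul_of_nonneg_left hz ha) (mul_le_mul_of_nonneg_left hw hb)
    calc _ ≤ a * c + b * c := this
      _ = c := by rw [← add_mul, hab, one_mul]
  intro z hz
  exact closure_minimal (convexHull_min h hcv) hcl hz

lemma closure_hull_norm (S : Set E) (c : ℝ) (h : ∀ z ∈ S, ‖z‖ ≤ c) :
    ∀ z ∈ closure (convexHull ℝ S), ‖z‖ ≤ c := by
  have hcl : IsClosed (Metric.closedBall (0 : E) c) := Metric.isClosed_closedBall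
  have hcv : Convex ℝ (Metric.closedBall (0 : E) c) := convex_closedBall _ _
  intro z hz
  have := closure_minimal (convexHull_min (t := Metric.closedBall (0 : E) c)
    (fun z hz => by simpa using h z hz) hcv) hcl hz
  simpa using this

lemma lemA (β : G → E ≃ₗᵢ[ℝ] E) (hmul : ∀ g h v, β (g * h) v = β g (β h v))
    (ρ : G → ℝ) (h0 : ∀ g, 0 ≤ ρ g) (h1 : ρ 1 = 0) (hsub : ∀ g h, ρ (g * h) ≤ ρ g + ρ h)
    (hinv : ∀ g, ρ g⁻¹ = ρ g) (y : E) :
    ∃ m : E, m ∈ closure (convexHull ℝ (Set.range fun g => β g y)) ∧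
      Mod (fun g => β g) ρ m ∧ ∀ k : E, Mod (fun g => β g) ρ k → ⟪k, m⟫_ℝ = ⟪k, y⟫_ℝ := by
  have hone : ∀ v, β 1 v = v := by
    intro v
    have := hmul 1 1 v
    rw [one_mul] at this
    exact ((β 1).injective this).symm
  have hadj : ∀ g v w, ⟪β g v, w⟫_ℝ = ⟪v, β g⁻¹ w⟫_ℝ := by
    intro g v w
    have : w = β g (β g⁻¹ w) := by rw [← hmul, mul_inv_cancel, hone]
    conv_lhs => rw [this]
    exact (β g).inner_map_map _ _
  set S : ℝ → Set E := fun ε => {z | ∃ g, ρ g ≤ ε ∧ z = β g y} with hS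
  set C : ℝ → Set E := fun ε => closure (convexHull ℝ (S ε)) with hC
  have hne : ∀ ε, 0 ≤ ε → (C ε).Nonempty := by
    intro ε hε
    refine ⟨β 1 y, subset_closure (subset_convexHull ℝ _ ⟨1, by rw [h1]; exact hε, rfl⟩)⟩
  have hmono : ∀ ε ε', ε ≤ ε' → C ε ⊆ C ε' := by
    intro ε ε' h
    apply closure_mono
    apply convexHull_mono
    rintro z ⟨g, hg, rfl⟩
    exact ⟨g, hg.trans h, rfl⟩
  have hcl : ∀ ε, IsClosed (C ε) := fun ε => isClosed_closure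
  have hcv : ∀ ε, Convex ℝ (C ε) := fun ε => (convex_convexHull ℝ _).closure
  have hact : ∀ ε ε' g, ρ g ≤ ε → ∀ z ∈ C ε', β g z ∈ C (ε + ε') := by
    intro ε ε' g hg z hz
    have hsubset : C ε' ⊆ (β g) ⁻¹' (C (ε + ε')) := by
      apply closure_minimal
      · apply convexHull_min
        · rintro _ ⟨h, hh, rfl⟩
          refine subset_closure (subset_convexHull ℝ _ ⟨g * h, ?_, (hmul g h y).symm⟩)
          exact (hsub g h).trans (add_le_add hg hh)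
        · exact (hcv _).linear_preimage (β g).toLinearEquiv.toLinearMap
      · exact (hcl _).preimage (β g).continuous
    exact hsubset hz
  choose! m hm hmin using fun ε (hε : (0 : ℝ) ≤ ε) => minpt (C ε) (hne ε hε) (hcl ε) (hcv ε)
  have hnormC : ∀ ε, ∀ z ∈ C ε, ‖z‖ ≤ ‖y‖ := by
    intro ε z hz
    refine closure_hull_norm _ _ ?_ z hz
    rintro _ ⟨g, _, rfl⟩
    simp
  -- the sequence
  set e : ℕ → ℝ := fun n => 1 / ((n : ℝ) + 1) with he
  have hepos : ∀ n, 0 < e n := fun n => by simp only [he]; positivity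
  have heanti : Antitone e := by
    intro a b hab
    simp only [he]
    apply one_div_le_one_div_of_le (by positivity)
    have : (a : ℝ) ≤ b := by exact_mod_cast hab
    linarith
  have helim : Tendsto e atTop (𝓝 0) := tendsto_one_div_add_atTop_nhds_zero_nat
  have hdiff : ∀ n n', n ≤ n' → ‖m (e n') - m (e n)‖ ^ 2 ≤ ‖m (e n')‖ ^ 2 - ‖m (e n)‖ ^ 2 := by
    intro n n' h
    exact hmin (e n) (hepos n).le _ (hmono _ _ (heanti h) (hm (e n') (hepos n').le))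
  have hmonoN : Monotone fun n => ‖m (e n)‖ ^ 2 := by
    intro n n' h
    have := hdiff n n' h
    have h2 := sq_nonneg ‖m (e n') - m (e n)‖
    show ‖m (e n)‖ ^ 2 ≤ ‖m (e n')‖ ^ 2
    linarith
  have hbdd : BddAbove (Set.range fun n => ‖m (e n)‖ ^ 2) := by
    refine ⟨‖y‖ ^ 2, ?_⟩
    rintro _ ⟨n, rfl⟩
    exact pow_le_pow_left₀ (norm_nonneg _) (hnormC _ _ (hm (e n) (hepos n).le)) 2
  have htend := tendsto_atTop_ciSup hmonoN hbdd
  have hcauchy : CauchySeq fun n => m (e n) := by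
    rw [Metric.cauchySeq_iff']
    intro ε hε
    have hc := (Metric.cauchySeq_iff'.1 htend.cauchySeq) (ε ^ 2) (by positivity)
    obtain ⟨N, hN⟩ := hc
    refine ⟨N, fun n hn => ?_⟩
    have h3 := hN n hn
    rw [Real.dist_eq] at h3
    have h4 := hdiff N n hn
    have h5 : ‖m (e n) - m (e N)‖ ^ 2 < ε ^ 2 := lt_of_le_of_lt (h4.trans (le_abs_self _)) h3
    rw [dist_eq_norm]
    exact lt_of_pow_lt_pow_left₀ 2 hε.le h5
  obtain ⟨m0, hm0⟩ := cauchySeq_tendsto_of_complete hcauchy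
  have hmem : ∀ ε, 0 < ε → m0 ∈ C ε := by
    intro ε hε
    apply (hcl ε).mem_of_tendsto hm0
    filter_upwards [helim.eventually (ge_mem_nhds hε)] with n hn
    exact hmono _ _ hn (hm (e n) (hepos n).le)
  have hnorm0 : Tendsto (fun n => ‖m0‖ ^ 2 - ‖m (e n)‖ ^ 2) atTop (𝓝 0) := by
    have := (hm0.norm.pow 2).const_sub (‖m0‖ ^ 2)
    simpa using this
  refine ⟨m0, ?_, ?_, ?_⟩
  · have := hmem 1 one_pos
    refine closure_mono (convexHull_mono ?_) this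
    rintro _ ⟨g, _, rfl⟩
    exact ⟨g, rfl⟩
  · intro a ha
    obtain ⟨n, hn⟩ := (hnorm0.eventually (gt_mem_nhds (show (0:ℝ) < a / 4 by positivity))).exists
    set ε := e n / 2 with hε
    have hεpos : 0 < ε := by have := hepos n; positivity
    refine ⟨4 * ‖m0‖ ^ 2 / ε ^ 2, by positivity, fun g => ?_⟩
    by_cases hg : ρ g ≤ ε
    · have h2 : β g m0 ∈ C (e n) := by
        have := hact ε ε g hg m0 (hmem ε hεpos)
        rwa [hε, add_halves] at this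
      have h3 := hmin (e n) (hepos n).le _ h2
      have h4 := hmin (e n) (hepos n).le _ (hmem (e n) (hepos n))
      rw [LinearIsometryEquiv.norm_map] at h3
      have h5 : ‖β g m0 - m0‖ ^ 2 ≤ 2 * ‖β g m0 - m (e n)‖ ^ 2 + 2 * ‖m0 - m (e n)‖ ^ 2 := by
        have h6 : ‖β g m0 - m0‖ ≤ ‖β g m0 - m (e n)‖ + ‖m0 - m (e n)‖ := by
          have : β g m0 - m0 = (β g m0 - m (e n)) - (m0 - m (e n)) := by abel
          rw [this]
          exact norm_sub_le _ _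
        have h7 := pow_le_pow_left₀ (norm_nonneg _) h6 2
        nlinarith [sq_nonneg (‖β g m0 - m (e n)‖ - ‖m0 - m (e n)‖)]
      have h8 : 0 ≤ 4 * ‖m0‖ ^ 2 / ε ^ 2 * ρ g ^ 2 := by positivity
      simp only
      linarith
    · push_neg at hg
      have h2 : ‖β g m0 - m0‖ ≤ 2 * ‖m0‖ := by
        have := norm_sub_le (β g m0) m0
        rw [LinearIsometryEquiv.norm_map] at this
        linarith
      have h3 : ‖β g m0 - m0‖ ^ 2 ≤ (2 * ‖m0‖) ^ 2 := pow_le_pow_left₀ (norm_nonneg _) h2 2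
      have h4 : (2 * ‖m0‖) ^ 2 ≤ 4 * ‖m0‖ ^ 2 / ε ^ 2 * ρ g ^ 2 := by
        rw [div_mul_eq_mul_div, le_div_iff₀ (by positivity)]
        have : ε ^ 2 ≤ ρ g ^ 2 := pow_le_pow_left₀ hεpos.le hg.le 2
        nlinarith [sq_nonneg ‖m0‖]
      simp only
      linarith
  · intro k hk
    -- for every δ > 0, |⟪k, m0⟫ - ⟪k, y⟫| ≤ δ
    have key : ∀ δ : ℝ, 0 < δ → |⟪k, m0⟫_ℝ - ⟪k, y⟫_ℝ| ≤ δ := by
      intro δ hδ
      -- choose a and ε with ‖β g k - k‖ * ‖y‖ ≤ δ when ρ g ≤ ε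
      obtain ⟨b, hb, hbg⟩ := hk ((δ / (‖y‖ + 1)) ^ 2 / 2) (by positivity)
      obtain ⟨ε, hε, hε2⟩ : ∃ ε : ℝ, 0 < ε ∧ b * ε ^ 2 ≤ (δ / (‖y‖ + 1)) ^ 2 / 2 := by
        have hc : Tendsto (fun ε : ℝ => b * ε ^ 2) (𝓝[>] 0) (𝓝 0) := by
          have : Tendsto (fun ε : ℝ => b * ε ^ 2) (𝓝 0) (𝓝 (b * 0 ^ 2)) := by
            apply Continuous.tendsto; fun_prop
          simpa using this.mono_left nhdsWithin_le_nhds
        have h2 := (hc.eventually (ge_mem_nhds (show (0:ℝ) < (δ / (‖y‖ + 1)) ^ 2 / 2 by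
          positivity))).and self_mem_nhdsWithin
        obtain ⟨ε, h3, h4⟩ := h2.exists
        exact ⟨ε, h4, h3⟩
      have hsmall : ∀ g, ρ g ≤ ε → ‖β g k - k‖ ≤ δ / (‖y‖ + 1) := by
        intro g hg
        have h3 := hbg g
        have h4 : ρ g ^ 2 ≤ ε ^ 2 := pow_le_pow_left₀ (h0 g) hg 2
        have h5 : b * ρ g ^ 2 ≤ b * ε ^ 2 := mul_le_mul_of_nonneg_left h4 hb
        have h6 : ‖β g k - k‖ ^ 2 ≤ (δ / (‖y‖ + 1)) ^ 2 := by
          simp only at h3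
          linarith
        exact (pow_le_pow_iff_left₀ (norm_nonneg _) (by positivity) two_ne_zero).1 h6
      have hgen : ∀ g, ρ g ≤ ε → |⟪k, β g y⟫_ℝ - ⟪k, y⟫_ℝ| ≤ δ := by
        intro g hg
        have h3 : ⟪k, β g y⟫_ℝ - ⟪k, y⟫_ℝ = ⟪β g⁻¹ k - k, y⟫_ℝ := by
          rw [inner_sub_left, hadj, inv_inv]
        rw [h3]
        calc |⟪β g⁻¹ k - k, y⟫_ℝ| ≤ ‖β g⁻¹ k - k‖ * ‖y‖ := abs_real_inner_le_norm _ _
          _ ≤ δ / (‖y‖ + 1) * ‖y‖ := by
            apply mul_le_mul_of_nonneg_right _ (norm_nonneg _)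
            exact hsmall _ (by rw [hinv]; exact hg)
          _ ≤ δ := by
            rw [div_mul_eq_mul_div, div_le_iff₀ (by positivity)]
            nlinarith [norm_nonneg y]
      have hm' := hmem ε hε
      have hup := closure_hull_le (S ε) k (⟪k, y⟫_ℝ + δ) (by
        rintro _ ⟨g, hg, rfl⟩
        have := (abs_le.1 (hgen g hg)).2
        linarith) m0 hm'
      have hlo := closure_hull_le (S ε) (-k) (-⟪k, y⟫_ℝ + δ) (by
        rintro _ ⟨g, hg, rfl⟩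
        have := (abs_le.1 (hgen g hg)).1
        rw [inner_neg_left]
        linarith) m0 hm'
      rw [inner_neg_left] at hlo
      rw [abs_le]
      constructor <;> linarith
    have h9 : |⟪k, m0⟫_ℝ - ⟪k, y⟫_ℝ| ≤ 0 := le_of_forall_pos_le_add (by
      intro δ hδ
      simpa using key δ hδ)
    have h10 := abs_nonpos_iff.1 h9
    linarith

end real

end Pool.Agent.H139.BC.AE



open Filter Topology
open scoped InnerProductSpace

namespace Pool.Agent.H139.BC.AE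

open Pool.Agent.H255.BC

section cx

variable {H : Type} [NormedAddCommGroup H] [InnerProductSpace ℂ H] [CompleteSpace H]
variable {G : Type} [Group G]

section basic

variable (α : G →* (H →L[ℂ] H)) (hα : ∀ g : G, star (α g) = α g⁻¹)
include hα

lemma adj_eq (g : G) (v w : H) : ⟪α g v, w⟫_ℂ = ⟪v, α g⁻¹ w⟫_ℂ := by
  rw [← hα, ContinuousLinearMap.star_eq_adjoint, ContinuousLinearMap.adjoint_inner_right]

lemma norm_eq (g : G) (v : H) : ‖α g v‖ = ‖v‖ := by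
  have h : ⟪α g v, α g v⟫_ℂ = ⟪v, v⟫_ℂ := by
    rw [adj_eq α hα, ← mul_apply_eq_comp, ← map_mul, inv_mul_cancel, map_one,
      one_apply_eq_self]
  rw [inner_self_eq_norm_sq_to_K, inner_self_eq_norm_sq_to_K] at h
  have h2 : ‖α g v‖ ^ 2 = ‖v‖ ^ 2 := by exact_mod_cast h
  exact (pow_left_inj₀ (norm_nonneg _) (norm_nonneg _) two_ne_zero).1 h2

end basic

lemma sub_sq_le (a b : H) : ‖a + b‖ ^ 2 ≤ 2 * ‖a‖ ^ 2 + 2 * ‖b‖ ^ 2 := by
  have h7 := pow_le_pow_left₀ (norm_nonneg _) (norm_add_le a b) 2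
  nlinarith [sq_nonneg (‖a‖ - ‖b‖)]

/-- the subspace `𝒦` -/
def KS (α : G →* (H →L[ℂ] H)) (ξ : H) : Submodule ℂ H where
  carrier := KA α ξ
  zero_mem' := by
    intro a ha
    refine ⟨0, le_rfl, fun g => ?_⟩
    simp [ha.le]
  add_mem' := by
    intro v w hv hw a ha
    obtain ⟨b, hb, h1⟩ := hv (a / 4) (by positivity)
    obtain ⟨b', hb', h2⟩ := hw (a / 4) (by positivity)
    refine ⟨2 * b + 2 * b', by positivity, fun g => ?_⟩
    have h3 : α g (v + w) - (v + w) = (α g v - v) + (α g w - w) := by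
      rw [map_add]; abel
    rw [h3]
    have h4 := sub_sq_le (α g v - v) (α g w - w)
    have h5 := h1 g
    have h6 := h2 g
    nlinarith
  smul_mem' := by
    intro c v hv a ha
    obtain ⟨b, hb, h1⟩ := hv (a / (‖c‖ ^ 2 + 1)) (by positivity)
    refine ⟨‖c‖ ^ 2 * b, by positivity, fun g => ?_⟩
    have h3 : α g (c • v) - c • v = c • (α g v - v) := by
      rw [map_smul, smul_sub]
    rw [h3, norm_smul, mul_pow]
    have h4 := h1 g
    have h5 : ‖c‖ ^ 2 * ‖α g v - v‖ ^ 2 ≤ ‖c‖ ^ 2 * (a / (‖c‖ ^ 2 + 1) + b * ‖α g ξ - ξ‖ ^ 2) :=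
      mul_le_mul_of_nonneg_left h4 (by positivity)
    have h6 : ‖c‖ ^ 2 * (a / (‖c‖ ^ 2 + 1)) ≤ a := by
      rw [mul_div_assoc', div_le_iff₀ (by positivity)]
      nlinarith [sq_nonneg ‖c‖]
    nlinarith

lemma mem_KS {α : G →* (H →L[ℂ] H)} {ξ v : H} : v ∈ KS α ξ ↔ v ∈ KA α ξ := Iff.rfl

lemma self_mem (α : G →* (H →L[ℂ] H)) (ξ : H) : ξ ∈ KS α ξ := by
  intro a ha
  exact ⟨1, zero_le_one, fun g => by linarith⟩

lemma closed_KS (α : G →* (H →L[ℂ] H)) (hα : ∀ g : G, star (α g) = α g⁻¹) (ξ : H) :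
    IsClosed (KS α ξ : Set H) := by
  rw [← isSeqClosed_iff_isClosed]
  intro v w hv hw a ha
  have h1 : Tendsto (fun n => 8 * ‖w - v n‖ ^ 2) atTop (𝓝 0) := by
    have : Tendsto (fun n => ‖w - v n‖) atTop (𝓝 0) := by
      have := (hw.const_sub w).norm
      simpa using this
    simpa using (this.pow 2).const_mul 8
  obtain ⟨n, hn⟩ := (h1.eventually (gt_mem_nhds (show (0:ℝ) < a / 2 by positivity))).exists
  obtain ⟨b, hb, h2⟩ := hv n (a / 4) (by positivity)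
  refine ⟨2 * b, by positivity, fun g => ?_⟩
  have h3 : α g w - w = (α g (w - v n) - (w - v n)) + (α g (v n) - v n) := by
    rw [map_sub]; abel
  rw [h3]
  have h4 := sub_sq_le (α g (w - v n) - (w - v n)) (α g (v n) - v n)
  have h5 : ‖α g (w - v n) - (w - v n)‖ ≤ 2 * ‖w - v n‖ := by
    have := norm_sub_le (α g (w - v n)) (w - v n)
    rw [norm_eq α hα] at this
    linarith
  have h6 := pow_le_pow_left₀ (norm_nonneg _) h5 2
  have h7 := h2 g
  nlinarith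

/-- the real isometry -/
noncomputable def eR (α : G →* (H →L[ℂ] H)) (hα : ∀ g : G, star (α g) = α g⁻¹) (g : G) :
    letI : InnerProductSpace ℝ H := InnerProductSpace.rclikeToReal ℂ H
    H ≃ₗᵢ[ℝ] H :=
  letI : InnerProductSpace ℝ H := InnerProductSpace.rclikeToReal ℂ H
  { toFun := fun v => α g v
    invFun := fun v => α g⁻¹ v
    map_add' := fun v w => map_add _ _ _
    map_smul' := fun r v => by
      show α g (((r : ℂ)) • v) = ((r : ℂ)) • α g v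
      exact map_smul _ _ _
    left_inv := fun v => by
      show α g⁻¹ (α g v) = v
      rw [← mul_apply_eq_comp, ← map_mul, inv_mul_cancel, map_one,
        one_apply_eq_self]
    right_inv := fun v => by
      show α g (α g⁻¹ v) = v
      rw [← mul_apply_eq_comp, ← map_mul, mul_inv_cancel, map_one,
        one_apply_eq_self]
    norm_map' := fun v => norm_eq α hα g v }

lemma lemB (α : G →* (H →L[ℂ] H)) (hα : ∀ g : G, star (α g) = α g⁻¹) (ξ : H)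
    [(KS α ξ).HasOrthogonalProjection]
    (y1 y2 x1 x2 : H) (c : ℝ)
    (h : ∀ g, (⟪y1, α g x1⟫_ℂ).re + (⟪y2, α g x2⟫_ℂ).re ≤ c) :
    ∀ g, (⟪(KS α ξ).starProjection y1, α g x1⟫_ℂ).re +
      (⟪(KS α ξ).starProjection y2, α g x2⟫_ℂ).re ≤ c := by
  letI : InnerProductSpace ℝ H := InnerProductSpace.rclikeToReal ℂ H
  have hri : ∀ v w : H, ⟪v, w⟫_ℝ = (⟪v, w⟫_ℂ).re := fun v w => rfl
  set β : G → (PiLp 2 (fun _ : Fin 2 => H)) ≃ₗᵢ[ℝ] (PiLp 2 (fun _ : Fin 2 => H)) :=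
    fun g => LinearIsometryEquiv.piLpCongrRight 2 (fun _ => eR α hα g) with hβ
  have hβi : ∀ g v i, (β g v) i = α g (v i) := fun g v i => rfl
  set y : PiLp 2 (fun _ : Fin 2 => H) := WithLp.toLp 2 ![y1, y2] with hy
  have hinner : ∀ v w : PiLp 2 (fun _ : Fin 2 => H), ⟪v, w⟫_ℝ =
      (⟪v 0, w 0⟫_ℂ).re + (⟪v 1, w 1⟫_ℂ).re := by
    intro v w
    rw [PiLp.inner_apply, Fin.sum_univ_two]
    rfl
  have hnorm : ∀ v : PiLp 2 (fun _ : Fin 2 => H), ‖v‖ ^ 2 = ‖v 0‖ ^ 2 + ‖v 1‖ ^ 2 := by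
    intro v
    rw [PiLp.norm_sq_eq_of_L2, Fin.sum_univ_two]
  set ρ : G → ℝ := fun g => ‖α g ξ - ξ‖ with hρ
  have hone : ∀ v, α 1 v = v := fun v => by rw [map_one]; rfl
  have hmulα : ∀ g h v, α (g * h) v = α g (α h v) := fun g h v => by rw [map_mul]; rfl
  obtain ⟨m, hm1, hm2, hm3⟩ := lemA β (fun g h v => by
      ext i; rw [hβi, hβi, hβi, hmulα]) ρ (fun g => norm_nonneg _)
    (by simp [hρ, hone]) (fun g h => by
      simp only [hρ]
      have h1 : α (g * h) ξ - ξ = α g (α h ξ - ξ) + (α g ξ - ξ) := by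
        rw [hmulα, map_sub]; abel
      rw [h1]
      refine (norm_add_le _ _).trans ?_
      rw [norm_eq α hα]
      linarith) (fun g => by
      simp only [hρ]
      have h1 : α g⁻¹ ξ - ξ = - α g⁻¹ (α g ξ - ξ) := by
        rw [map_sub, ← hmulα, inv_mul_cancel, hone]; abel
      rw [h1, norm_neg, norm_eq α hα]) y
  have hmK : ∀ i, m i ∈ KS α ξ := by
    intro i a ha
    obtain ⟨b, hb, hbg⟩ := hm2 a ha
    refine ⟨b, hb, fun g => ?_⟩
    have h1 := hbg g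
    simp only at h1
    rw [hnorm] at h1
    have h2 : ∀ i, ((β g) m - m) i = α g (m i) - m i := fun i => rfl
    rw [h2, h2] at h1
    fin_cases i
    · have := sq_nonneg ‖α g (m 1) - m 1‖
      show ‖α g (m 0) - m 0‖ ^ 2 ≤ _
      linarith
    · have := sq_nonneg ‖α g (m 0) - m 0‖
      show ‖α g (m 1) - m 1‖ ^ 2 ≤ _
      linarith
  have hmod : ∀ k1 k2 : H, k1 ∈ KS α ξ → k2 ∈ KS α ξ →
      Mod (fun g => β g) ρ (WithLp.toLp 2 ![k1, k2]) := by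
    intro k1 k2 hk1 hk2 a ha
    obtain ⟨b, hb, h1⟩ := hk1 (a / 2) (by positivity)
    obtain ⟨b', hb', h2⟩ := hk2 (a / 2) (by positivity)
    refine ⟨b + b', by positivity, fun g => ?_⟩
    simp only
    rw [hnorm]
    have h3 : (β g (WithLp.toLp 2 ![k1, k2]) - WithLp.toLp 2 ![k1, k2]) 0 = α g k1 - k1 := rfl
    have h4 : (β g (WithLp.toLp 2 ![k1, k2]) - WithLp.toLp 2 ![k1, k2]) 1 = α g k2 - k2 := rfl
    rw [h3, h4]
    have h5 := h1 g
    have h6 := h2 g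
    simp only [hρ]
    nlinarith
  have horth0 : ∀ k ∈ KS α ξ, (⟪k, m 0⟫_ℂ).re = (⟪k, y1⟫_ℂ).re := by
    intro k hk
    have h1 := hm3 _ (hmod k 0 hk (Submodule.zero_mem _))
    rw [hinner, hinner] at h1
    simpa [hy] using h1
  have horth1 : ∀ k ∈ KS α ξ, (⟪k, m 1⟫_ℂ).re = (⟪k, y2⟫_ℂ).re := by
    intro k hk
    have h1 := hm3 _ (hmod 0 k (Submodule.zero_mem _) hk)
    rw [hinner, hinner] at h1
    simpa [hy] using h1
  have hfull : ∀ v w : H, (∀ k ∈ KS α ξ, (⟪k, v⟫_ℂ).re = (⟪k, w⟫_ℂ).re) →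
      ∀ k ∈ KS α ξ, ⟪w - v, k⟫_ℂ = 0 := by
    intro v w hvw k hk
    have h1 := hvw k hk
    have h2 := hvw (Complex.I • k) (Submodule.smul_mem _ _ hk)
    rw [inner_smul_left, inner_smul_left] at h2
    simp only [Complex.conj_I, Complex.mul_re, Complex.neg_re, Complex.neg_im, Complex.I_re,
      Complex.I_im] at h2
    have h3 : ⟪k, w - v⟫_ℂ = 0 := by
      rw [inner_sub_right]
      apply Complex.ext
      · simp only [Complex.sub_re, Complex.zero_re]; linarith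
      · simp only [Complex.sub_im, Complex.zero_im]; linarith
    rw [← inner_conj_symm, h3, map_zero]
  have hP0 : (KS α ξ).starProjection y1 = m 0 :=
    Submodule.eq_starProjection_of_mem_of_inner_eq_zero (hmK 0) (hfull _ _ horth0)
  have hP1 : (KS α ξ).starProjection y2 = m 1 :=
    Submodule.eq_starProjection_of_mem_of_inner_eq_zero (hmK 1) (hfull _ _ horth1)
  intro g
  rw [hP0, hP1]
  have h1 := closure_hull_le (Set.range fun g => β g y)
    (WithLp.toLp 2 ![α g x1, α g x2]) c (by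
      rintro _ ⟨g', rfl⟩
      rw [hinner]
      have h2 := h (g'⁻¹ * g)
      have h3 : ∀ v w : H, (⟪α g v, α g' w⟫_ℂ).re = (⟪w, α (g'⁻¹ * g) v⟫_ℂ).re := by
        intro v w
        rw [← inner_conj_symm, Complex.conj_re, adj_eq α hα, ← hmulα]
      show (⟪α g x1, α g' y1⟫_ℂ).re + (⟪α g x2, α g' y2⟫_ℂ).re ≤ c
      rw [h3, h3]
      exact h2) m hm1
  rw [hinner] at h1
  have h4 : ∀ v w : H, (⟪v, w⟫_ℂ).re = (⟪w, v⟫_ℂ).re := by
    intro v w
    rw [← inner_conj_symm, Complex.conj_re]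
  rw [h4 (m 0), h4 (m 1)]
  exact h1

end cx

end Pool.Agent.H139.BC.AE



open Filter Topology
open scoped InnerProductSpace

namespace Pool.Agent.H139.BC.AE

open Pool.Agent.H255.BC

section abs

variable {V : Type} [NormedAddCommGroup V] [InnerProductSpace ℂ V] [CompleteSpace V]

omit [CompleteSpace V] in
lemma re_comm (v w : V) : (⟪v, w⟫_ℂ).re = (⟪w, v⟫_ℂ).re := by
  rw [← inner_conj_symm, Complex.conj_re]

omit [CompleteSpace V] in
lemma re_self (v : V) : (⟪v, v⟫_ℂ).re = ‖v‖ ^ 2 := by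
  rw [inner_self_eq_norm_sq_to_K]
  norm_cast

lemma exists_ulim (U : Ultrafilter ℕ) (f : ℕ → ℂ) (C : ℝ) (hf : ∀ k, ‖f k‖ ≤ C) :
    ∃ z : ℂ, ‖z‖ ≤ C ∧ Tendsto f U (𝓝 z) := by
  have hc : IsCompact (Metric.closedBall (0:ℂ) C) := isCompact_closedBall _ _
  obtain ⟨z, hz, hle⟩ := hc.ultrafilter_le_nhds (U.map f) (by
    rw [Ultrafilter.coe_map, Filter.le_principal_iff, Filter.mem_map]
    exact Filter.Eventually.of_forall (fun k => by simpa using hf k))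
  exact ⟨z, by simpa using hz, hle⟩

/-- weak limits of contractions along an ultrafilter -/
lemma exists_wlim (U : Ultrafilter ℕ) (S : ℕ → V →L[ℂ] V) (hS : ∀ k v, ‖S k v‖ ≤ ‖v‖) :
    ∃ T : V →L[ℂ] V, ∀ v w, Tendsto (fun k => ⟪v, S k w⟫_ℂ) U (𝓝 ⟪v, T w⟫_ℂ) := by
  have h1 : ∀ v w : V, ∃ z : ℂ, ‖z‖ ≤ ‖v‖ * ‖w‖ ∧ Tendsto (fun k => ⟪S k v, w⟫_ℂ) U (𝓝 z) := by
    intro v w
    apply exists_ulim
    intro k
    exact (norm_inner_le_norm _ _).trans (mul_le_mul_of_nonneg_right (hS k v) (norm_nonneg _))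
  choose L hL hLt using h1
  have huniq : ∀ v w z, Tendsto (fun k => ⟪S k v, w⟫_ℂ) U (𝓝 z) → z = L v w :=
    fun v w z h => tendsto_nhds_unique h (hLt v w)
  let B : V →L⋆[ℂ] V →L[ℂ] ℂ := LinearMap.mkContinuous₂
    { toFun := fun v =>
        { toFun := fun w => L v w
          map_add' := fun w w' => (huniq _ _ _ (by
            simpa only [inner_add_right] using (hLt v w).add (hLt v w'))).symm
          map_smul' := fun c w => (huniq _ _ _ (by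
            simpa only [inner_smul_right, smul_eq_mul, RingHom.id_apply] using
              (hLt v w).const_mul c)).symm }
      map_add' := fun v v' => by
        ext w
        show L (v + v') w = L v w + L v' w
        exact (huniq _ _ _ (by
            simpa only [map_add, inner_add_left] using (hLt v w).add (hLt v' w))).symm
      map_smul' := fun c v => by
        ext w
        show L (c • v) w = (starRingEnd ℂ) c * L v w
        exact (huniq _ _ _ (by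
            simpa only [map_smul, inner_smul_left] using
              (hLt v w).const_mul ((starRingEnd ℂ) c))).symm } 1 (by
      intro v w
      rw [one_mul]
      exact hL v w)
  refine ⟨InnerProductSpace.continuousLinearMapOfBilin B, fun v w => ?_⟩
  have h2 : ⟪InnerProductSpace.continuousLinearMapOfBilin B w, v⟫_ℂ = L w v :=
    InnerProductSpace.continuousLinearMapOfBilin_apply B w v
  have h3 := (Complex.continuous_conj.tendsto _).comp (hLt w v)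
  rw [← h2] at h3
  have h4 : (starRingEnd ℂ) ⟪InnerProductSpace.continuousLinearMapOfBilin B w, v⟫_ℂ =
    ⟪v, InnerProductSpace.continuousLinearMapOfBilin B w⟫_ℂ := inner_conj_symm _ _
  rw [h4] at h3
  refine h3.congr (fun k => ?_)
  exact inner_conj_symm _ _

/-- the resolvent of a contraction as a limit of convex combinations -/
lemma exists_R (T : V →L[ℂ] V) (hT : ‖T‖ ≤ 1) (ρ : ℝ) (h0 : 0 ≤ ρ) (h1 : ρ < 1) :
    ∃ R : V →L[ℂ] V, R = ((1 - ρ : ℝ) : ℂ) • 1 + (ρ : ℂ) • (T * R) ∧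
      ∀ Y : ℕ → V →L[ℂ] V, Y 0 = 1 →
        (∀ n, Y (n + 1) = ((1 - ρ : ℝ) : ℂ) • 1 + (ρ : ℂ) • (T * Y n)) →
        Tendsto Y atTop (𝓝 R) := by
  have hn : ‖(ρ : ℂ) • T‖ < 1 := by
    rw [norm_smul, Complex.norm_real, Real.norm_eq_abs, abs_of_nonneg h0]
    nlinarith [norm_nonneg T]
  set u := Units.oneSub ((ρ : ℂ) • T) hn with hu
  have hu1 : (u : V →L[ℂ] V) = 1 - (ρ : ℂ) • T := rfl
  have hR : (((1 - ρ : ℝ) : ℂ) • ((u⁻¹ : (V →L[ℂ] V)ˣ) : V →L[ℂ] V)) =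
      ((1 - ρ : ℝ) : ℂ) • 1 + (ρ : ℂ) •
        (T * (((1 - ρ : ℝ) : ℂ) • ((u⁻¹ : (V →L[ℂ] V)ˣ) : V →L[ℂ] V))) := by
    have h2 : (u : V →L[ℂ] V) * ((u⁻¹ : (V →L[ℂ] V)ˣ) : V →L[ℂ] V) = 1 := Units.mul_inv u
    rw [hu1, sub_mul, one_mul] at h2
    have h3 : ((u⁻¹ : (V →L[ℂ] V)ˣ) : V →L[ℂ] V) =
      1 + ((ρ : ℂ) • T) * ((u⁻¹ : (V →L[ℂ] V)ˣ) : V →L[ℂ] V) := by
      rw [← h2]; abel
    conv_lhs => rw [h3]
    rw [smul_add, mul_smul_comm, smul_mul_assoc, smul_comm]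
  set R := ((1 - ρ : ℝ) : ℂ) • ((u⁻¹ : (V →L[ℂ] V)ˣ) : V →L[ℂ] V) with hRdef
  refine ⟨R, hR, ?_⟩
  intro Y hY0 hY
  have hdiff : ∀ n, ‖Y n - R‖ ≤ ρ ^ n * ‖1 - R‖ := by
    intro n
    induction n with
    | zero => simp [hY0]
    | succ n ih =>
      have h4 : Y (n + 1) - R = (ρ : ℂ) • (T * (Y n - R)) := by
        rw [hY n, mul_sub, smul_sub]
        conv_lhs => rw [hR]
        abel
      rw [h4, norm_smul, Complex.norm_real, Real.norm_eq_abs, abs_of_nonneg h0]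
      have h5 : ‖T * (Y n - R)‖ ≤ 1 * ‖Y n - R‖ :=
        (norm_mul_le _ _).trans (mul_le_mul_of_nonneg_right hT (norm_nonneg _))
      calc ρ * ‖T * (Y n - R)‖ ≤ ρ * (ρ ^ n * ‖1 - R‖) := by
            apply mul_le_mul_of_nonneg_left _ h0
            linarith
        _ = ρ ^ (n + 1) * ‖1 - R‖ := by ring
  rw [tendsto_iff_norm_sub_tendsto_zero]
  refine squeeze_zero (fun n => norm_nonneg _) hdiff ?_
  have := (tendsto_pow_atTop_nhds_zero_of_lt_one h0 h1).mul_const ‖1 - R‖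
  simpa using this

/-- inequalities for the resolvent of a nonnegative selfadjoint operator -/
lemma res1 (D : V →L[ℂ] V) (hsa : ∀ v w, ⟪D v, w⟫_ℂ = ⟪v, D w⟫_ℂ) (hpos : ∀ v, 0 ≤ (⟪D v, v⟫_ℂ).re)
    (κ : ℝ) (hκ : 0 ≤ κ) (v z : V) (h : v = z + (κ : ℂ) • D z) :
    ‖v - z‖ ^ 2 ≤ (⟪v - z, v⟫_ℂ).re ∧ (⟪v - z, v⟫_ℂ).re ≤ κ * (⟪D v, v⟫_ℂ).re ∧
      κ * (⟪D z, z⟫_ℂ).re ≤ ‖v‖ ^ 2 / 4 := by
  have h1 : v - z = (κ : ℂ) • D z := by rw [h]; abel
  have hDz : (⟪v - z, z⟫_ℂ).re = κ * (⟪D z, z⟫_ℂ).re := by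
    rw [h1, inner_smul_left, Complex.conj_ofReal, Complex.re_ofReal_mul]
  have h2 : (⟪v - z, v⟫_ℂ).re = ‖v - z‖ ^ 2 + κ * (⟪D z, z⟫_ℂ).re := by
    rw [← hDz, ← re_self (v - z), ← Complex.add_re, ← inner_add_right, sub_add_cancel]
  refine ⟨?_, ?_, ?_⟩
  · rw [h2]
    have := mul_nonneg hκ (hpos z)
    linarith
  · have h3 : ‖v - z‖ ^ 2 = κ ^ 2 * ‖D z‖ ^ 2 := by
      rw [h1, norm_smul, Complex.norm_real, Real.norm_eq_abs, mul_pow, sq_abs]
    have h4 : (⟪D v, v⟫_ℂ).re = (⟪D z, z⟫_ℂ).re + 2 * κ * ‖D z‖ ^ 2 +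
        κ ^ 2 * (⟪D (D z), D z⟫_ℂ).re := by
      have h5 : D v = D z + (κ : ℂ) • D (D z) := by rw [h, map_add, map_smul]
      rw [h5]
      conv_lhs => rw [h]
      rw [inner_add_left, inner_add_right, inner_add_right, inner_smul_left, inner_smul_left,
        inner_smul_right, inner_smul_right, Complex.conj_ofReal, hsa (D z) z]
      simp only [Complex.add_re, Complex.re_ofReal_mul]
      rw [re_self]
      ring
    rw [h2, h3, h4]
    have h6 := hpos (D z)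
    have h7 : 0 ≤ κ ^ 3 * (⟪D (D z), D z⟫_ℂ).re := by positivity
    have h8 : 0 ≤ κ ^ 2 * ‖D z‖ ^ 2 := by positivity
    nlinarith
  · rw [← hDz, inner_sub_left, Complex.sub_re, re_self]
    have h3 : (⟪v, z⟫_ℂ).re ≤ ‖v‖ * ‖z‖ :=
      (Complex.re_le_norm _).trans (norm_inner_le_norm _ _)
    nlinarith [sq_nonneg (‖v‖ / 2 - ‖z‖)]

end abs

end Pool.Agent.H139.BC.AE



open Filter Topology
open scoped InnerProductSpace

namespace Pool.Agent.H139.BC.AE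

open Pool.Agent.H255.BC

section main

variable {H : Type} [NormedAddCommGroup H] [InnerProductSpace ℂ H] [CompleteSpace H]
variable {G : Type} [Group G]

/-- the compression of `α g` to `𝒦` -/
noncomputable def A (α : G →* (H →L[ℂ] H)) (ξ : H) [(KS α ξ).HasOrthogonalProjection] (g : G) :
    KS α ξ →L[ℂ] KS α ξ :=
  (KS α ξ).orthogonalProjectionOnto ∘L (α g) ∘L (KS α ξ).subtypeL

variable (α : G →* (H →L[ℂ] H)) (hα : ∀ g : G, star (α g) = α g⁻¹) (ξ : H)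
  [(KS α ξ).HasOrthogonalProjection]

lemma A_inner (g : G) (y x : KS α ξ) : ⟪y, A α ξ g x⟫_ℂ = ⟪(y : H), α g (x : H)⟫_ℂ := by
  show ⟪y, (KS α ξ).orthogonalProjectionOnto (α g (x : H))⟫_ℂ = _
  rw [Submodule.inner_orthogonalProjectionOnto_eq_of_mem_left]

lemma A_inner' (g : G) (y x : KS α ξ) : ⟪A α ξ g y, x⟫_ℂ = ⟪α g (y : H), (x : H)⟫_ℂ := by
  rw [← inner_conj_symm, A_inner, inner_conj_symm]

/-- the order relation -/
def W (Y : KS α ξ →L[ℂ] KS α ξ) : Prop := ∀ (x1 x2 y1 y2 : KS α ξ) (c : ℝ),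
  (∀ g, (⟪y1, A α ξ g x1⟫_ℂ).re + (⟪y2, A α ξ g x2⟫_ℂ).re ≤ c) →
    (⟪y1, Y x1⟫_ℂ).re + (⟪y2, Y x2⟫_ℂ).re ≤ c

lemma A_one (x : KS α ξ) : A α ξ 1 x = x := by
  show (KS α ξ).orthogonalProjectionOnto (α 1 (x : H)) = _
  rw [map_one, one_apply_eq_self]
  simp

lemma W_one : W α ξ 1 := by
  intro x1 x2 y1 y2 c h
  have := h 1
  rwa [A_one, A_one] at this

include hα

lemma A_adj (g : G) (y x : KS α ξ) : ⟪y, A α ξ g x⟫_ℂ = ⟪A α ξ g⁻¹ y, x⟫_ℂ := by
  rw [A_inner, A_inner', adj_eq α hα, inv_inv]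

lemma A_norm (g : G) (x : KS α ξ) : ‖A α ξ g x‖ ≤ ‖x‖ := by
  show ‖(KS α ξ).orthogonalProjectionOnto (α g (x : H))‖ ≤ _
  refine ((KS α ξ).norm_orthogonalProjectionOnto_apply_le _).trans ?_
  rw [norm_eq α hα]
  rfl

lemma W_mul (Y : KS α ξ →L[ℂ] KS α ξ) (hY : W α ξ Y) (w : G) (x1 x2 y1 y2 : KS α ξ) (c : ℝ)
    (h : ∀ g, (⟪y1, A α ξ g x1⟫_ℂ).re + (⟪y2, A α ξ g x2⟫_ℂ).re ≤ c) :
    (⟪y1, A α ξ w (Y x1)⟫_ℂ).re + (⟪y2, A α ξ w (Y x2)⟫_ℂ).re ≤ c := by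
  rw [A_adj α hα, A_adj α hα]
  apply hY
  intro g
  have h1 := lemB α hα ξ (α w⁻¹ (y1 : H)) (α w⁻¹ (y2 : H)) (x1 : H) (x2 : H) c (by
    intro g
    have h2 := h (w * g)
    rw [A_inner, A_inner] at h2
    have h3 : ∀ v w' : H, ⟪α w⁻¹ v, α g w'⟫_ℂ = ⟪v, α (w * g) w'⟫_ℂ := by
      intro v w'
      rw [adj_eq α hα, inv_inv, map_mul]
      rfl
    rw [h3, h3]
    exact h2) g
  rw [A_inner, A_inner]
  exact h1

omit hα in
lemma W_conv (Y Z : KS α ξ →L[ℂ] KS α ξ) (hY : W α ξ Y) (hZ : W α ξ Z) (ρ : ℝ) (h0 : 0 ≤ ρ)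
    (h1 : ρ ≤ 1) : W α ξ (((1 - ρ : ℝ) : ℂ) • Y + (ρ : ℂ) • Z) := by
  intro x1 x2 y1 y2 c h
  have hY' := hY x1 x2 y1 y2 c h
  have hZ' := hZ x1 x2 y1 y2 c h
  simp only [ContinuousLinearMap.add_apply, ContinuousLinearMap.smul_apply, inner_add_right,
    inner_smul_right, Complex.add_re, Complex.re_ofReal_mul]
  have h2 := mul_le_mul_of_nonneg_left hY' (sub_nonneg.2 h1)
  have h3 := mul_le_mul_of_nonneg_left hZ' h0
  nlinarith

omit hα in
lemma W_lim (Y : ℕ → KS α ξ →L[ℂ] KS α ξ) (R : KS α ξ →L[ℂ] KS α ξ) (hY : ∀ n, W α ξ (Y n))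
    (hlim : Tendsto Y atTop (𝓝 R)) : W α ξ R := by
  intro x1 x2 y1 y2 c h
  have h1 : ∀ x y : KS α ξ, Tendsto (fun n => (⟪y, Y n x⟫_ℂ).re) atTop (𝓝 (⟪y, R x⟫_ℂ).re) := by
    intro x y
    have h2 : Tendsto (fun n => Y n x) atTop (𝓝 (R x)) :=
      ((ContinuousLinearMap.apply ℂ _ x).continuous.tendsto R).comp hlim
    exact (Complex.continuous_re.tendsto _).comp (tendsto_const_nhds.inner h2)
  exact le_of_tendsto ((h1 x1 y1).add (h1 x2 y2)) (Eventually.of_forall fun n =>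
    hY n x1 x2 y1 y2 c h)

/-- the averages -/
noncomputable def Tk {p : ℕ} (u : Fin p → ℕ → G) (k : ℕ) : KS α ξ →L[ℂ] KS α ξ :=
  (((2 * p : ℝ)⁻¹ : ℝ) : ℂ) • ∑ i, (A α ξ (u i k) + A α ξ (u i k)⁻¹)

omit hα in
lemma Tk_apply {p : ℕ} (u : Fin p → ℕ → G) (k : ℕ) (v : KS α ξ) :
    Tk α ξ u k v = (((2 * p : ℝ)⁻¹ : ℝ) : ℂ) • ∑ i, (A α ξ (u i k) v + A α ξ (u i k)⁻¹ v) := by
  simp [Tk, ContinuousLinearMap.sum_apply]

lemma Tk_norm {p : ℕ} (hp : 0 < p) (u : Fin p → ℕ → G) (k : ℕ) (v : KS α ξ) :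
    ‖Tk α ξ u k v‖ ≤ ‖v‖ := by
  have hp' : (0:ℝ) < p := by exact_mod_cast hp
  rw [Tk_apply, norm_smul, Complex.norm_real, Real.norm_eq_abs, abs_of_pos (by positivity)]
  have h1 : ‖∑ i, (A α ξ (u i k) v + A α ξ (u i k)⁻¹ v)‖ ≤ ∑ _i : Fin p, (2 * ‖v‖) := by
    refine (norm_sum_le _ _).trans (Finset.sum_le_sum fun i _ => ?_)
    refine (norm_add_le _ _).trans ?_
    have := A_norm α hα ξ (u i k) v
    have := A_norm α hα ξ (u i k)⁻¹ v
    linarith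
  rw [Finset.sum_const, Finset.card_univ, Fintype.card_fin, nsmul_eq_mul] at h1
  rw [inv_mul_le_iff₀ (by positivity)]
  linarith

lemma Tk_sa {p : ℕ} (u : Fin p → ℕ → G) (k : ℕ) (v w : KS α ξ) :
    ⟪Tk α ξ u k v, w⟫_ℂ = ⟪v, Tk α ξ u k w⟫_ℂ := by
  rw [Tk_apply, Tk_apply, inner_smul_left, inner_smul_right, Complex.conj_ofReal, sum_inner,
    inner_sum]
  congr 1
  apply Finset.sum_congr rfl
  intro i _
  rw [inner_add_left, inner_add_right, A_adj α hα ξ (u i k) v w, A_adj α hα ξ (u i k)⁻¹ v w,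
    inv_inv, add_comm]

lemma W_Tk {p : ℕ} (hp : 0 < p) (u : Fin p → ℕ → G) (k : ℕ) (Y : KS α ξ →L[ℂ] KS α ξ)
    (hY : W α ξ Y) (x1 x2 y1 y2 : KS α ξ) (c : ℝ)
    (h : ∀ g, (⟪y1, A α ξ g x1⟫_ℂ).re + (⟪y2, A α ξ g x2⟫_ℂ).re ≤ c) :
    (⟪y1, Tk α ξ u k (Y x1)⟫_ℂ).re + (⟪y2, Tk α ξ u k (Y x2)⟫_ℂ).re ≤ c := by
  have hp' : (0:ℝ) < p := by exact_mod_cast hp
  rw [Tk_apply, Tk_apply, inner_smul_right, inner_smul_right, Complex.re_ofReal_mul,
    Complex.re_ofReal_mul, inner_sum, inner_sum, Complex.re_sum, Complex.re_sum, ← mul_add,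
    ← Finset.sum_add_distrib]
  rw [inv_mul_le_iff₀ (by positivity)]
  have h1 : ∀ i : Fin p, (⟪y1, A α ξ (u i k) (Y x1) + A α ξ (u i k)⁻¹ (Y x1)⟫_ℂ).re +
      (⟪y2, A α ξ (u i k) (Y x2) + A α ξ (u i k)⁻¹ (Y x2)⟫_ℂ).re ≤ 2 * c := by
    intro i
    have h2 := W_mul α hα ξ Y hY (u i k) x1 x2 y1 y2 c h
    have h3 := W_mul α hα ξ Y hY (u i k)⁻¹ x1 x2 y1 y2 c h
    rw [inner_add_right, inner_add_right, Complex.add_re, Complex.add_re]
    linarith
  refine (Finset.sum_le_sum fun i _ => h1 i).trans ?_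
  rw [Finset.sum_const, Finset.card_univ, Fintype.card_fin, nsmul_eq_mul]
  linarith

lemma sum_sq {p : ℕ} (hp : 0 < p) (u : Fin p → ℕ → G) (k : ℕ) (v : KS α ξ) :
    ∑ i, ‖α (u i k) (v : H) - v‖ ^ 2 = 2 * p * (‖v‖ ^ 2 - (⟪v, Tk α ξ u k v⟫_ℂ).re) := by
  have hp' : (0:ℝ) < p := by exact_mod_cast hp
  have h1 : ∀ i : Fin p, ‖α (u i k) (v : H) - v‖ ^ 2 =
      2 * ‖v‖ ^ 2 - (⟪v, A α ξ (u i k) v + A α ξ (u i k)⁻¹ v⟫_ℂ).re := by
    intro i
    rw [inner_add_right, Complex.add_re, A_adj α hα ξ (u i k)⁻¹ v v, inv_inv,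
      re_comm (A α ξ (u i k) v) v, A_inner]
    have h2 : ‖α (u i k) (v : H) - v‖ ^ 2 = ‖α (u i k) (v : H)‖ ^ 2 -
        2 * (⟪α (u i k) (v : H), (v : H)⟫_ℂ).re + ‖(v : H)‖ ^ 2 :=
      @norm_sub_sq ℂ H _ _ _ _ _
    rw [h2, norm_eq α hα, re_comm]
    have h3 : ‖v‖ = ‖(v : H)‖ := rfl
    rw [h3]
    ring
  rw [Finset.sum_congr rfl fun i _ => h1 i, Finset.sum_sub_distrib, Tk_apply, inner_smul_right,
    Complex.re_ofReal_mul, inner_sum, Complex.re_sum, Finset.sum_const, Finset.card_univ,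
    Fintype.card_fin, nsmul_eq_mul]
  field_simp

end main

end Pool.Agent.H139.BC.AE

namespace Pool.Agent.H255.BC.T_AE

open Pool.Agent.W662.CB Pool.Agent.H255.BC Pool.Agent.H139.BC.AE

theorem AE_thm : S_AE := by
  intro G _ H _ _ _ α hα ξ η hη a ha
  haveI hcs : CompleteSpace (KS α ξ) := (closed_KS α hα ξ).completeSpace_coe
  obtain ⟨b, hb, hmod⟩ := hη a ha
  refine ⟨b, hb, ?_⟩
  intro p u s x hs hx hev
  rcases Nat.eq_zero_or_pos p with hp | hp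
  · subst hp
    refine ⟨η, hη, le_rfl, ?_, ?_⟩
    · rw [sub_self, norm_zero]
      have : 0 ≤ b * (x * s) := by positivity
      nlinarith
    · intro δ hδ
      apply Frequently.of_forall
      intro k
      simp only [Finset.univ_eq_empty, Finset.sum_empty]
      positivity
  have hp' : (0:ℝ) < p := by exact_mod_cast hp
  set U : Ultrafilter ℕ := Filter.hyperfilter ℕ with hU
  have hUle : (U : Filter ℕ) ≤ atTop := Nat.hyperfilter_le_atTop
  obtain ⟨T, hT⟩ := exists_wlim U (Tk α ξ u) (Tk_norm α hα ξ hp u)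
  have hTsa : ∀ v w, ⟪T v, w⟫_ℂ = ⟪v, T w⟫_ℂ := by
    intro v w
    have h1 := hT v w
    have h2 := (Complex.continuous_conj.tendsto _).comp (hT w v)
    have h3 : Tendsto (fun k => ⟪v, Tk α ξ u k w⟫_ℂ) U (𝓝 ((starRingEnd ℂ) ⟪w, T v⟫_ℂ)) := by
      refine h2.congr fun k => ?_
      show (starRingEnd ℂ) ⟪w, Tk α ξ u k v⟫_ℂ = _
      rw [inner_conj_symm, Tk_sa α hα]
    rw [inner_conj_symm] at h3
    exact tendsto_nhds_unique h3 h1
  have hTn : ∀ v, ‖T v‖ ≤ ‖v‖ := by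
    intro v
    have h1 := (hT (T v) v).norm
    have h2 : ‖⟪T v, T v⟫_ℂ‖ ≤ ‖T v‖ * ‖v‖ := by
      refine le_of_tendsto h1 (Eventually.of_forall fun k => ?_)
      exact (norm_inner_le_norm _ _).trans (mul_le_mul_of_nonneg_left
        (Tk_norm α hα ξ hp u k v) (norm_nonneg _))
    rw [inner_self_eq_norm_sq_to_K] at h2
    have h3 : ‖T v‖ ^ 2 ≤ ‖T v‖ * ‖v‖ := by
      have h4 : ‖((‖T v‖ : ℂ)) ^ 2‖ = ‖T v‖ ^ 2 := by
        rw [norm_pow, Complex.norm_real, Real.norm_eq_abs, abs_of_nonneg (norm_nonneg _)]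
      calc ‖T v‖ ^ 2 = ‖((‖T v‖ : ℂ)) ^ 2‖ := h4.symm
        _ ≤ _ := h2
    rcases (norm_nonneg (T v)).eq_or_lt with h5 | h5
    · rw [← h5]; exact norm_nonneg _
    · rw [sq] at h3
      exact le_of_mul_le_mul_left h3 h5
  have hTn1 : ‖T‖ ≤ 1 := T.opNorm_le_bound zero_le_one (fun v => by rw [one_mul]; exact hTn v)
  -- D = 1 - T
  set D : KS α ξ →L[ℂ] KS α ξ := 1 - T with hD
  have hDa : ∀ v, D v = v - T v := fun v => rfl
  have hDsa : ∀ v w, ⟪D v, w⟫_ℂ = ⟪v, D w⟫_ℂ := by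
    intro v w
    rw [hDa, hDa, inner_sub_left, inner_sub_right, hTsa]
  have hDre : ∀ v, (⟪D v, v⟫_ℂ).re = ‖v‖ ^ 2 - (⟪v, T v⟫_ℂ).re := by
    intro v
    rw [hDa, inner_sub_left, Complex.sub_re, re_self, hTsa]
  have hDpos : ∀ v, 0 ≤ (⟪D v, v⟫_ℂ).re := by
    intro v
    rw [hDre]
    have h1 : (⟪v, T v⟫_ℂ).re ≤ ‖v‖ * ‖T v‖ := (Complex.re_le_norm _).trans (norm_inner_le_norm _ _)
    have h2 := mul_le_mul_of_nonneg_left (hTn v) (norm_nonneg v)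
    nlinarith
  have hlimD : ∀ v : KS α ξ, Tendsto (fun k => ∑ i, ‖α (u i k) (v : H) - v‖ ^ 2) U
      (𝓝 (2 * p * (⟪D v, v⟫_ℂ).re)) := by
    intro v
    rw [hDre]
    have h1 : Tendsto (fun k => 2 * (p : ℝ) * (‖v‖ ^ 2 - (⟪v, Tk α ξ u k v⟫_ℂ).re)) U
        (𝓝 (2 * p * (‖v‖ ^ 2 - (⟪v, T v⟫_ℂ).re))) :=
      (((Complex.continuous_re.tendsto _).comp (hT v v)).const_sub _).const_mul _
    refine h1.congr fun k => ?_
    rw [sum_sq α hα ξ hp u k v]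
  -- the resolvent
  set κ : ℝ := p * x with hκ
  have hκpos : 0 < κ := by positivity
  set ρ : ℝ := κ / (1 + κ) with hρ
  have hρ0 : 0 ≤ ρ := by positivity
  have hρ1 : ρ < 1 := by
    rw [hρ, div_lt_one (by positivity)]
    linarith
  obtain ⟨R, hR, hRlim⟩ := exists_R T hTn1 ρ hρ0 hρ1
  have hWT : ∀ Y, W α ξ Y → W α ξ (T * Y) := by
    intro Y hY x1 x2 y1 y2 c h
    have h1 : ∀ x y : KS α ξ, Tendsto (fun k => (⟪y, Tk α ξ u k x⟫_ℂ).re) U
        (𝓝 (⟪y, T x⟫_ℂ).re) := fun x y => (Complex.continuous_re.tendsto _).comp (hT y x)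
    exact le_of_tendsto ((h1 (Y x1) y1).add (h1 (Y x2) y2)) (Eventually.of_forall fun k =>
      W_Tk α hα ξ hp u k Y hY x1 x2 y1 y2 c h)
  have hWR : W α ξ R := by
    let Y : ℕ → KS α ξ →L[ℂ] KS α ξ := fun n =>
      Nat.rec 1 (fun _ Z => ((1 - ρ : ℝ) : ℂ) • 1 + (ρ : ℂ) • (T * Z)) n
    refine W_lim α ξ Y R ?_ (hRlim Y rfl (fun n => rfl))
    intro n
    induction n with
    | zero => exact W_one α ξ
    | succ n ih => exact W_conv α ξ _ _ (W_one α ξ) (hWT _ ih) ρ hρ0 hρ1.le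
  have hRa : ∀ v, R v = ((1 - ρ : ℝ) : ℂ) • v + (ρ : ℂ) • T (R v) := by
    intro v
    conv_lhs => rw [hR]
    rfl
  have hRn : ∀ v, ‖R v‖ ≤ ‖v‖ := by
    intro v
    have h1 : ‖R v‖ ≤ (1 - ρ) * ‖v‖ + ρ * ‖R v‖ := by
      conv_lhs => rw [hRa v]
      refine (norm_add_le _ _).trans ?_
      rw [norm_smul, norm_smul, Complex.norm_real, Complex.norm_real, Real.norm_eq_abs,
        Real.norm_eq_abs, abs_of_nonneg hρ0, abs_of_nonneg (by linarith)]
      have := mul_le_mul_of_nonneg_left (hTn (R v)) hρ0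
      linarith
    nlinarith [norm_nonneg v, norm_nonneg (R v)]
  have hres : ∀ v, v = R v + (κ : ℂ) • D (R v) := by
    intro v
    have h1 := hRa v
    have h2 : (1 + κ) * (1 - ρ) = 1 := by
      rw [hρ]; field_simp; ring
    have h3 : (1 + κ) * ρ = κ := by
      rw [hρ]; field_simp
    have h4 : ((1 + κ : ℝ) : ℂ) • R v = v + (κ : ℂ) • T (R v) := by
      conv_lhs => rw [h1]
      rw [smul_add, smul_smul, smul_smul, ← Complex.ofReal_mul, ← Complex.ofReal_mul, h2, h3,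
        Complex.ofReal_one, one_smul]
    rw [hDa, smul_sub]
    have h5 : ((1 + κ : ℝ) : ℂ) • R v = R v + (κ : ℂ) • R v := by
      rw [Complex.ofReal_add, Complex.ofReal_one, add_smul, one_smul]
    rw [h5] at h4
    have h6 : R v + ((κ : ℂ) • R v - (κ : ℂ) • T (R v)) =
      (R v + (κ : ℂ) • R v) - (κ : ℂ) • T (R v) := by abel
    rw [h6, h4]
    abel
  -- the vectors
  set e : KS α ξ := ⟨η, hη⟩ with he
  set x0 : KS α ξ := ⟨ξ, self_mem α ξ⟩ with hx0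
  obtain ⟨r1, r2, r3⟩ := res1 D hDsa hDpos κ hκpos.le e (R e) (hres e)
  obtain ⟨q1, q2, q3⟩ := res1 D hDsa hDpos κ hκpos.le x0 (R x0) (hres x0)
  refine ⟨((R e : KS α ξ) : H), (R e).2, hRn e, ?_, ?_⟩
  · -- the distance
    have hsx : 2 * p * (⟪D x0, x0⟫_ℂ).re ≤ s := by
      apply le_of_forall_pos_le_add
      intro δ hδ
      exact le_of_tendsto (hlimD x0) ((hev δ hδ).filter_mono hUle)
    have h1 := hWR e x0 (((-2 : ℝ) : ℂ) • e) (((2 * b : ℝ) : ℂ) • x0)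
      (a + 2 * b * ‖x0‖ ^ 2 - 2 * ‖e‖ ^ 2) (by
        intro g
        have h2 := hmod g
        rw [inner_smul_left, inner_smul_left, Complex.conj_ofReal, Complex.conj_ofReal,
          Complex.re_ofReal_mul, Complex.re_ofReal_mul, A_inner, A_inner]
        have h3 : ∀ v : H, ‖α g v - v‖ ^ 2 = 2 * ‖v‖ ^ 2 - 2 * (⟪v, α g v⟫_ℂ).re := by
          intro v
          have h4 : ‖α g v - v‖ ^ 2 = ‖α g v‖ ^ 2 -
            2 * (⟪α g v, v⟫_ℂ).re + ‖v‖ ^ 2 := @norm_sub_sq ℂ H _ _ _ _ _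
          rw [h4, norm_eq α hα, re_comm]
          ring
        rw [h3, h3] at h2
        have h5 : ‖x0‖ = ‖ξ‖ := rfl
        have h6 : ‖e‖ = ‖η‖ := rfl
        rw [h5, h6]
        show -2 * (⟪η, α g η⟫_ℂ).re + 2 * b * (⟪ξ, α g ξ⟫_ℂ).re ≤ _
        linarith)
    rw [inner_smul_left, inner_smul_left, Complex.conj_ofReal, Complex.conj_ofReal,
      Complex.re_ofReal_mul, Complex.re_ofReal_mul] at h1
    rw [inner_sub_left, Complex.sub_re, re_self, re_comm (R e) e] at r1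
    have q2' := q2
    rw [inner_sub_left, Complex.sub_re, re_self, re_comm (R x0) x0] at q2'
    have h7 : ‖η - ((R e : KS α ξ) : H)‖ = ‖e - R e‖ := rfl
    rw [h7]
    have h8 : κ * (⟪D x0, x0⟫_ℂ).re ≤ x * s / 2 := by
      rw [hκ]
      have : x * (2 * p * (⟪D x0, x0⟫_ℂ).re) ≤ x * s := mul_le_mul_of_nonneg_left hsx hx.le
      nlinarith
    have h9 : b * (‖x0‖ ^ 2 - (⟪x0, R x0⟫_ℂ).re) ≤ b * (x * s / 2) :=
      mul_le_mul_of_nonneg_left (q2'.trans h8) hb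
    have h10 : 0 ≤ b * (x * s) := by positivity
    nlinarith
  · intro δ hδ
    have h1 := hlimD (R e)
    have h2 : 2 * p * (⟪D (R e), R e⟫_ℂ).re < ‖η‖ ^ 2 / (2 * x) + δ := by
      have h3 : ‖e‖ = ‖η‖ := rfl
      rw [h3] at r3
      have h4 : 2 * p * (⟪D (R e), R e⟫_ℂ).re ≤ ‖η‖ ^ 2 / (2 * x) := by
        rw [le_div_iff₀ (by positivity)]
        rw [hκ] at r3
        nlinarith
      linarith
    have h3 : ∀ᶠ k in (U : Filter ℕ), ∑ i, ‖α (u i k) ((R e : KS α ξ) : H) - (R e : KS α ξ)‖ ^ 2 ≤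
        ‖η‖ ^ 2 / (2 * x) + δ := (h1.eventually (ge_mem_nhds h2))
    exact h3.frequently.filter_mono hUle

end Pool.Agent.H255.BC.T_AE
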