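import Pool.Agent.H255.BC.Defs

set_option autoImplicit false

open MeasureTheory Filter Topology Complex
open scoped InnerProductSpace ENNReal FourierTransform

namespace Pool.Agent.H255.BC.T_D1

open Pool.Agent.W662.CB Pool.Agent.H255.BC

theorem D1_thm (h1 : S_inv) (h2 : S_conj) (h3 : S_scal) (h4 : S_fix) : S_D1 := by
  intro H _ _ _ M ξ U hξ hcyc hsep hmod hIII b hb
  obtain ⟨J, hJ⟩ := h2 H M ξ U hmod hcyc
  obtain ⟨hs1, hs2⟩ := h3 H M ξ U J hξ hmod hcyc hJ hIII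
  exact h4 H M ξ U J hξ hmod hcyc hsep hJ hIII hs1 hs2 b hb
    (h1 H M ξ U J hξ hmod hJ hs1 b hb)

end Pool.Agent.H255.BC.T_D1
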