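import Pool.Agent.H255.BC.Defs

set_option autoImplicit false

open MeasureTheory Filter Topology Complex
open scoped InnerProductSpace ENNReal FourierTransform

namespace Pool.Agent.H685.BC.KK

open Pool.Agent.W662.CB Pool.Agent.H255.BC

variable {H : Type} [NormedAddCommGroup H] [InnerProductSpace ℂ H] [CompleteSpace H]

theorem norm_J {M : VonNeumannAlgebra H} {ξ : H} {U : ℝ → H →L[ℂ] H} {J : H → H}
    (hJ : IsConj M ξ U J) (v : H) : ‖J v‖ = ‖v‖ := by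
  have h := hJ.inner v v
  rw [inner_self_eq_norm_sq_to_K, inner_self_eq_norm_sq_to_K] at h
  have h2 : ‖J v‖ ^ 2 = ‖v‖ ^ 2 := by exact_mod_cast h
  exact (sq_eq_sq₀ (norm_nonneg _) (norm_nonneg _)).1 h2

theorem J_zero {M : VonNeumannAlgebra H} {ξ : H} {U : ℝ → H →L[ℂ] H} {J : H → H}
    (hJ : IsConj M ξ U J) : J 0 = 0 := by
  have := hJ.smul 0 0
  simpa using this

theorem J_sub {M : VonNeumannAlgebra H} {ξ : H} {U : ℝ → H →L[ℂ] H} {J : H → H}
    (hJ : IsConj M ξ U J) (v w : H) : J (v - w) = J v - J w := by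
  have h1 := hJ.add v ((-1 : ℂ) • w)
  rw [hJ.smul] at h1
  simp only [map_neg, map_one, neg_smul, one_smul] at h1
  rw [← sub_eq_add_neg, ← sub_eq_add_neg] at h1
  exact h1

theorem norm_iso {u : H →L[ℂ] H} (hu : star u * u = 1) (v : H) : ‖u v‖ = ‖v‖ := by
  have h : ⟪u v, u v⟫_ℂ = ⟪v, v⟫_ℂ := by
    rw [← ContinuousLinearMap.adjoint_inner_right, ← ContinuousLinearMap.star_eq_adjoint,
      ← ContinuousLinearMap.mul_apply, hu, ContinuousLinearMap.one_apply]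
  rw [inner_self_eq_norm_sq_to_K, inner_self_eq_norm_sq_to_K] at h
  have h2 : ‖u v‖ ^ 2 = ‖v‖ ^ 2 := by exact_mod_cast h
  exact (sq_eq_sq₀ (norm_nonneg _) (norm_nonneg _)).1 h2

theorem alf_add {M : VonNeumannAlgebra H} {ξ : H} {U : ℝ → H →L[ℂ] H} {J : H → H}
    (hJ : IsConj M ξ U J) (u : H →L[ℂ] H) (v w : H) : alf J u (v + w) = alf J u v + alf J u w := by
  unfold alf
  rw [hJ.add, map_add, hJ.add, map_add]

theorem alf_sub {M : VonNeumannAlgebra H} {ξ : H} {U : ℝ → H →L[ℂ] H} {J : H → H}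
    (hJ : IsConj M ξ U J) (u : H →L[ℂ] H) (v w : H) : alf J u (v - w) = alf J u v - alf J u w := by
  unfold alf
  rw [J_sub hJ, map_sub, J_sub hJ, map_sub]

theorem alf_smul {M : VonNeumannAlgebra H} {ξ : H} {U : ℝ → H →L[ℂ] H} {J : H → H}
    (hJ : IsConj M ξ U J) (u : H →L[ℂ] H) (c : ℂ) (v : H) : alf J u (c • v) = c • alf J u v := by
  unfold alf
  rw [hJ.smul, map_smul, hJ.smul, map_smul]
  simp

theorem alf_norm {M : VonNeumannAlgebra H} {ξ : H} {U : ℝ → H →L[ℂ] H} {J : H → H}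
    (hJ : IsConj M ξ U J) {u : H →L[ℂ] H} (hu : star u * u = 1) (v : H) :
    ‖alf J u v‖ = ‖v‖ := by
  unfold alf
  rw [norm_iso hu, norm_J hJ, norm_iso hu, norm_J hJ]

theorem sq_add_le (x y : ℝ) : (x + y) ^ 2 ≤ 2 * x ^ 2 + 2 * y ^ 2 := by
  nlinarith [sq_nonneg (x - y)]

theorem mem_add {M N : VonNeumannAlgebra H} {ξ : H} {U : ℝ → H →L[ℂ] H} {J : H → H}
    (hJ : IsConj M ξ U J) {v w : H} (hv : v ∈ KK N ξ J) (hw : w ∈ KK N ξ J) :
    v + w ∈ KK N ξ J := by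
  intro a ha
  obtain ⟨b1, hb1, h1⟩ := hv (a / 4) (by positivity)
  obtain ⟨b2, hb2, h2⟩ := hw (a / 4) (by positivity)
  refine ⟨2 * (b1 + b2), by positivity, fun u hu => ?_⟩
  have e : alf J u (v + w) - (v + w) = (alf J u v - v) + (alf J u w - w) := by
    rw [alf_add hJ]; abel
  rw [e]
  have h3 : ‖(alf J u v - v) + (alf J u w - w)‖ ^ 2 ≤
      (‖alf J u v - v‖ + ‖alf J u w - w‖) ^ 2 :=
    pow_le_pow_left₀ (norm_nonneg _) (norm_add_le _ _) 2
  have h4 := sq_add_le ‖alf J u v - v‖ ‖alf J u w - w‖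
  have h5 := h1 u hu
  have h6 := h2 u hu
  nlinarith

theorem mem_smul {M N : VonNeumannAlgebra H} {ξ : H} {U : ℝ → H →L[ℂ] H} {J : H → H}
    (hJ : IsConj M ξ U J) (c : ℂ) {v : H} (hv : v ∈ KK N ξ J) : c • v ∈ KK N ξ J := by
  intro a ha
  obtain ⟨b1, hb1, h1⟩ := hv (a / (‖c‖ ^ 2 + 1)) (by positivity)
  refine ⟨‖c‖ ^ 2 * b1, by positivity, fun u hu => ?_⟩
  have e : alf J u (c • v) - c • v = c • (alf J u v - v) := by
    rw [alf_smul hJ, smul_sub]
  rw [e, norm_smul, mul_pow]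
  have h5 := h1 u hu
  have h6 : ‖c‖ ^ 2 * (a / (‖c‖ ^ 2 + 1)) ≤ a := by
    rw [mul_div_assoc', div_le_iff₀ (by positivity)]
    nlinarith [sq_nonneg ‖c‖]
  have h7 := mul_le_mul_of_nonneg_left h5 (sq_nonneg ‖c‖)
  nlinarith

theorem mem_zero {M N : VonNeumannAlgebra H} {ξ : H} {U : ℝ → H →L[ℂ] H} {J : H → H}
    (hJ : IsConj M ξ U J) : (0 : H) ∈ KK N ξ J := by
  intro a ha
  refine ⟨0, le_rfl, fun u hu => ?_⟩
  have e : alf J u 0 = 0 := by
    unfold alf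
    rw [J_zero hJ, map_zero, J_zero hJ, map_zero]
  rw [e]
  simp [ha.le]

theorem closed {M N : VonNeumannAlgebra H} {ξ : H} {U : ℝ → H →L[ℂ] H} {J : H → H}
    (hJ : IsConj M ξ U J) : IsClosed (KK N ξ J) := by
  rw [← closure_subset_iff_isClosed]
  intro η hη a ha
  obtain ⟨η', hη', hd⟩ := Metric.mem_closure_iff.1 hη (Real.sqrt (a / 16)) (by positivity)
  obtain ⟨b1, hb1, h1⟩ := hη' (a / 4) (by positivity)
  refine ⟨2 * b1, by positivity, fun u hu => ?_⟩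
  have e : alf J u η - η = (alf J u η' - η') + (alf J u (η - η') - (η - η')) := by
    rw [alf_sub hJ]; abel
  have h2 : ‖alf J u (η - η') - (η - η')‖ ≤ 2 * ‖η - η'‖ := by
    refine (norm_sub_le _ _).trans ?_
    rw [alf_norm hJ hu.2.1]; linarith
  have h3 : ‖alf J u η - η‖ ≤ ‖alf J u η' - η'‖ + 2 * ‖η - η'‖ := by
    rw [e]
    exact (norm_add_le _ _).trans (by linarith)
  have h4 : ‖alf J u η - η‖ ^ 2 ≤ (‖alf J u η' - η'‖ + 2 * ‖η - η'‖) ^ 2 :=
    pow_le_pow_left₀ (norm_nonneg _) h3 2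
  have h5 := sq_add_le ‖alf J u η' - η'‖ (2 * ‖η - η'‖)
  have h6 : ‖η - η'‖ ^ 2 ≤ a / 16 := by
    rw [dist_eq_norm] at hd
    have := pow_le_pow_left₀ (norm_nonneg _) hd.le 2
    rwa [Real.sq_sqrt (by positivity)] at this
  have h7 := h1 u hu
  nlinarith

theorem mem_xi {N : VonNeumannAlgebra H} {ξ : H} {J : H → H} : ξ ∈ KK N ξ J := by
  intro a ha
  exact ⟨1, zero_le_one, fun u hu => by linarith⟩

theorem U_norm {M : VonNeumannAlgebra H} {ξ : H} {U : ℝ → H →L[ℂ] H} (hU : IsModular M ξ U)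
    (t : ℝ) (v : H) : ‖U t v‖ = ‖v‖ := by
  apply norm_iso
  rw [hU.star_eq, ← hU.add, neg_add_cancel, hU.zero]

theorem alf_sgm {M : VonNeumannAlgebra H} {ξ : H} {U : ℝ → H →L[ℂ] H} {J : H → H}
    (hU : IsModular M ξ U) (hJ : IsConj M ξ U J) (u : H →L[ℂ] H) (t : ℝ) (v : H) :
    U t (alf J (sgm U (-t) u) v) = alf J u (U t v) := by
  have hc : ∀ (s r : ℝ) (w : H), U s (U r w) = U (s + r) w := fun s r w => by
    rw [hU.add]; rfl
  have h0 : ∀ w : H, U 0 w = w := fun w => by rw [hU.zero]; rfl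
  unfold alf sgm
  simp only [hU.star_eq, neg_neg, ContinuousLinearMap.mul_apply]
  rw [hJ.modular, hc t, add_neg_cancel, h0, hc t, add_neg_cancel, h0, hJ.modular t v]

theorem uni_sgm {M N : VonNeumannAlgebra H} {ξ : H} {U : ℝ → H →L[ℂ] H}
    (hU : IsModular M ξ U) (hN : ∀ (t : ℝ) (x : H →L[ℂ] H), x ∈ N → sgm U t x ∈ N)
    {u : H →L[ℂ] H} (hu : IsUni N u) (t : ℝ) : IsUni N (sgm U t u) := by
  have h1 : star (U t) * U t = 1 := by
    rw [hU.star_eq, ← hU.add, neg_add_cancel, hU.zero]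
  have h2 : U t * star (U t) = 1 := by
    rw [hU.star_eq, ← hU.add, add_neg_cancel, hU.zero]
  refine ⟨hN t u hu.1, ?_, ?_⟩
  · unfold sgm
    rw [star_mul, star_mul, star_star]
    calc U t * (star u * star (U t)) * (U t * u * star (U t))
        = U t * star u * (star (U t) * U t) * u * star (U t) := by noncomm_ring
      _ = U t * (star u * u) * star (U t) := by rw [h1]; noncomm_ring
      _ = 1 := by rw [hu.2.1, mul_one, h2]
  · unfold sgm
    rw [star_mul, star_mul, star_star]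
    calc U t * u * star (U t) * (U t * (star u * star (U t)))
        = U t * u * (star (U t) * U t) * star u * star (U t) := by noncomm_ring
      _ = U t * (u * star u) * star (U t) := by rw [h1]; noncomm_ring
      _ = 1 := by rw [hu.2.2, mul_one, h2]

theorem mem_U {M N : VonNeumannAlgebra H} {ξ : H} {U : ℝ → H →L[ℂ] H} {J : H → H}
    (hU : IsModular M ξ U) (hJ : IsConj M ξ U J)
    (hN : ∀ (t : ℝ) (x : H →L[ℂ] H), x ∈ N → sgm U t x ∈ N) (t : ℝ) {v : H}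
    (hv : v ∈ KK N ξ J) : U t v ∈ KK N ξ J := by
  intro a ha
  obtain ⟨b, hb, h⟩ := hv a ha
  refine ⟨b, hb, fun u hu => ?_⟩
  have h1 := h (sgm U (-t) u) (uni_sgm hU hN hu (-t))
  have e : ∀ w : H, ‖alf J (sgm U (-t) u) w - w‖ = ‖alf J u (U t w) - U t w‖ := by
    intro w
    rw [← U_norm hU t (alf J (sgm U (-t) u) w - w), map_sub, alf_sgm hU hJ]
  rw [e, e, hU.fix] at h1
  exact h1

theorem mem_J {M N : VonNeumannAlgebra H} {ξ : H} {U : ℝ → H →L[ℂ] H} {J : H → H}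
    (hNM : ∀ x : H →L[ℂ] H, x ∈ N → x ∈ M) (hJ : IsConj M ξ U J) {v : H}
    (hv : v ∈ KK N ξ J) : J v ∈ KK N ξ J := by
  intro a ha
  obtain ⟨b, hb, h⟩ := hv a ha
  refine ⟨b, hb, fun u hu => ?_⟩
  have e : alf J u (J v) - J v = J (alf J u v - v) := by
    rw [J_sub hJ]
    congr 1
    exact hJ.comm u u (hNM u hu.1) (hNM u hu.1) (J v)
  rw [e, norm_J hJ]
  exact h u hu

theorem KK_thm : S_KK := by
  intro H _ _ _ M N ξ U J hNM hU hJ hN
  refine ⟨{ carrier := KK N ξ J, add_mem' := mem_add hJ, zero_mem' := mem_zero hJ,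
            smul_mem' := fun c v hv => mem_smul hJ c hv }, rfl, closed hJ, mem_xi,
    fun t v hv => mem_U hU hJ hN t hv, fun v hv => mem_J hNM hJ hv⟩

end Pool.Agent.H685.BC.KK
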