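import Pool.Agent.H255.BC.Defs

set_option autoImplicit false

open MeasureTheory Filter Topology Complex
open scoped InnerProductSpace ENNReal FourierTransform

namespace Pool.Agent.H255.BC.T_Q

open Pool.Agent.W662.CB Pool.Agent.H255.BC

/-- the right action `v a` -/
noncomputable def RR {H : Type} [NormedAddCommGroup H] [InnerProductSpace ℂ H] [CompleteSpace H]
    (J : H → H) (a : H →L[ℂ] H) (v : H) : H := J (star a (J v))

section basics

variable {H : Type} [NormedAddCommGroup H] [InnerProductSpace ℂ H] [CompleteSpace H]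
variable {M : VonNeumannAlgebra H} {ξ : H} {U : ℝ → H →L[ℂ] H} {J : H → H}
variable (hJ : IsConj M ξ U J)
include hJ

lemma J_norm (v : H) : ‖J v‖ = ‖v‖ := by
  have h := hJ.inner v v
  rw [inner_self_eq_norm_sq_to_K, inner_self_eq_norm_sq_to_K] at h
  have h2 : ‖J v‖ ^ 2 = ‖v‖ ^ 2 := by exact_mod_cast h
  exact (sq_eq_sq₀ (norm_nonneg _) (norm_nonneg _)).1 h2

lemma J_sub (v w : H) : J (v - w) = J v - J w := by
  have h := hJ.add (v - w) w
  rw [sub_add_cancel] at h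
  rw [h, add_sub_cancel_right]

lemma J_real (r : ℝ) (v : H) : J ((r : ℂ) • v) = (r : ℂ) • J v := by
  rw [hJ.smul, Complex.conj_ofReal]

lemma J_cont : Continuous J := by
  have h : LipschitzWith 1 J := LipschitzWith.of_dist_le_mul fun x y => by
    rw [dist_eq_norm, dist_eq_norm, ← J_sub hJ, J_norm hJ]
    simp
  exact h.continuous

lemma RR_sub (a : H →L[ℂ] H) (v w : H) : RR J a (v - w) = RR J a v - RR J a w := by
  unfold RR
  rw [J_sub hJ, map_sub, J_sub hJ]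

lemma RR_add (a : H →L[ℂ] H) (v w : H) : RR J a (v + w) = RR J a v + RR J a w := by
  unfold RR
  rw [hJ.add, map_add, hJ.add]

lemma RR_smul (a : H →L[ℂ] H) (c : ℂ) (v : H) : RR J a (c • v) = c • RR J a v := by
  unfold RR
  rw [hJ.smul, map_smul, hJ.smul, Complex.conj_conj]

lemma RR_mul (a b : H →L[ℂ] H) (v : H) : RR J (a * b) v = RR J b (RR J a v) := by
  unfold RR
  rw [hJ.inv, star_mul]
  rfl

lemma RR_one (v : H) : RR J 1 v = v := by
  unfold RR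
  rw [star_one]
  exact hJ.inv v

lemma RR_comm {x a : H →L[ℂ] H} (hx : x ∈ M) (ha : a ∈ M) (v : H) :
    x (RR J a v) = RR J a (x v) := hJ.comm x (star a) hx (star_mem ha) v

lemma RR_norm_le {a : H →L[ℂ] H} (ha : ‖a‖ ≤ 1) (v : H) : ‖RR J a v‖ ≤ ‖v‖ := by
  unfold RR
  rw [J_norm hJ]
  calc ‖star a (J v)‖ ≤ ‖star a‖ * ‖J v‖ := (star a).le_opNorm _
    _ ≤ 1 * ‖v‖ := by
        rw [norm_star, J_norm hJ]
        gcongr
    _ = ‖v‖ := one_mul _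

lemma RR_xi (a : H →L[ℂ] H) : RR J a ξ = J (star a ξ) := by
  unfold RR
  rw [hJ.fix]

end basics

section isometries

variable {H : Type} [NormedAddCommGroup H] [InnerProductSpace ℂ H] [CompleteSpace H]

lemma iso_apply {v : H →L[ℂ] H} (h : star v * v = 1) (x : H) : star v (v x) = x := by
  have := congrArg (fun T : H →L[ℂ] H => T x) h
  exact this

lemma iso_norm {v : H →L[ℂ] H} (h : star v * v = 1) (x : H) : ‖v x‖ = ‖x‖ := by
  have h1 : ⟪v x, v x⟫_ℂ = ⟪x, x⟫_ℂ := by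
    rw [← ContinuousLinearMap.adjoint_inner_left]
    change ⟪(star v) (v x), x⟫_ℂ = _
    rw [iso_apply h]
  rw [inner_self_eq_norm_sq_to_K, inner_self_eq_norm_sq_to_K] at h1
  have h2 : ‖v x‖ ^ 2 = ‖x‖ ^ 2 := by exact_mod_cast h1
  exact (sq_eq_sq₀ (norm_nonneg _) (norm_nonneg _)).1 h2

lemma iso_le {v : H →L[ℂ] H} (h : star v * v = 1) : ‖v‖ ≤ 1 :=
  ContinuousLinearMap.opNorm_le_bound _ zero_le_one fun x => by rw [iso_norm h, one_mul]

lemma star_le {v : H →L[ℂ] H} (h : ‖v‖ ≤ 1) : ‖star v‖ ≤ 1 := by rwa [norm_star]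

lemma contr {a : H →L[ℂ] H} (h : ‖a‖ ≤ 1) (x : H) : ‖a x‖ ≤ ‖x‖ := by
  calc ‖a x‖ ≤ ‖a‖ * ‖x‖ := a.le_opNorm x
    _ ≤ 1 * ‖x‖ := by gcongr
    _ = ‖x‖ := one_mul _

end isometries

section main

variable {H : Type} [NormedAddCommGroup H] [InnerProductSpace ℂ H] [CompleteSpace H]
variable {M N : VonNeumannAlgebra H} {ξ : H} {U : ℝ → H →L[ℂ] H} {J : H → H}

/-- `Q_v ζ = v^* ζ v` -/
noncomputable def Qv (J : H → H) (v : H →L[ℂ] H) (ζ : H) : H := star v (J (star v (J ζ)))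

lemma Qv_eq (v : H →L[ℂ] H) (ζ : H) : Qv J v ζ = star v (RR J v ζ) := rfl

lemma Qv_norm (hJ : IsConj M ξ U J) {v : H →L[ℂ] H} (h : star v * v = 1) (ζ : H) :
    ‖Qv J v ζ‖ ≤ ‖ζ‖ := by
  rw [Qv_eq]
  exact (contr (star_le (iso_le h)) _).trans (RR_norm_le hJ (iso_le h) ζ)

lemma Qv_lin (hJ : IsConj M ξ U J) (v : H →L[ℂ] H) (ζ ζ' : H) (c : ℂ) :
    Qv J v (ζ + c • ζ') = Qv J v ζ + c • Qv J v ζ' := by
  rw [Qv_eq, Qv_eq, Qv_eq, RR_add hJ, RR_smul hJ, map_add, map_smul]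

/-- (1) -/
lemma scal_comm (hNM : ∀ x : H →L[ℂ] H, x ∈ N → x ∈ M) (hJ : IsConj M ξ U J) {t ε ε' : ℝ}
    {v v' : H →L[ℂ] H} (hv : IsScal N ξ J t ε v) (hv' : IsScal N ξ J t ε' v') :
    ‖cm J (v' * star v) ξ‖ ≤ ε + ε' := by
  obtain ⟨hvN, hvi, hvs⟩ := hv
  obtain ⟨hvN', hvi', hvs'⟩ := hv'
  rw [← RR_xi hJ] at hvs hvs'
  have hvM := hNM v hvN
  have hvM' := hNM v' hvN'
  have h1 : ‖star v ξ - ((Real.sqrt t : ℝ) : ℂ) • RR J (star v) ξ‖ ≤ ε := by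
    have e : star v ξ - ((Real.sqrt t : ℝ) : ℂ) • RR J (star v) ξ =
        J (RR J v ξ - ((Real.sqrt t : ℝ) : ℂ) • v ξ) := by
      rw [J_sub hJ, J_real hJ]
      unfold RR
      rw [hJ.inv, hJ.fix, star_star]
    rw [e, J_norm hJ]
    exact hvs
  have e1 : cm J (v' * star v) ξ =
      v' (star v ξ - ((Real.sqrt t : ℝ) : ℂ) • RR J (star v) ξ) -
        RR J (star v) (RR J v' ξ - ((Real.sqrt t : ℝ) : ℂ) • v' ξ) := by
    have e2 : cm J (v' * star v) ξ = v' (star v ξ) - RR J (v' * star v) ξ := rfl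
    rw [e2, RR_mul hJ, map_sub, map_smul, RR_sub hJ, RR_smul hJ,
      RR_comm hJ hvM' (star_mem hvM)]
    abel
  rw [e1]
  refine (norm_sub_le _ _).trans (add_le_add ?_ ?_)
  · exact (contr (iso_le hvi') _).trans h1
  · exact (RR_norm_le hJ (star_le (iso_le hvi)) _).trans hvs'

/-- (2) -/
lemma Q_diff (hNM : ∀ x : H →L[ℂ] H, x ∈ N → x ∈ M) (hJ : IsConj M ξ U J)
    {v v' : H →L[ℂ] H} (hv : v ∈ N) (hvi : star v * v = 1) (hv' : v' ∈ N)
    (hvi' : star v' * v' = 1) (ζ : H) :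
    ‖Qv J v ζ - Qv J v' ζ‖ ≤ ‖cm J (v' * star v) ζ‖ := by
  have hvM := hNM v hv
  have hvM' := hNM v' hv'
  have e : Qv J v ζ - Qv J v' ζ = star v' (RR J v (cm J (v' * star v) ζ)) := by
    have e2 : cm J (v' * star v) ζ = v' (star v ζ) - RR J (v' * star v) ζ := rfl
    rw [e2, RR_sub hJ, map_sub, ← RR_comm hJ hvM' hvM, ← RR_comm hJ (star_mem hvM) hvM,
      iso_apply hvi', RR_mul hJ, ← RR_mul hJ (star v) v, hvi, RR_one hJ]
    rfl
  rw [e]
  exact (contr (star_le (iso_le hvi')) _).trans (RR_norm_le hJ (iso_le hvi) _)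

/-- the key estimate -/
lemma key (hmod : S_mod) (hNM : ∀ x : H →L[ℂ] H, x ∈ N → x ∈ M) (hJ : IsConj M ξ U J)
    {ζ : H} (hζ : ζ ∈ KK N ξ J) {a : ℝ} (ha : 0 < a) : ∃ b : ℝ, 0 ≤ b ∧
    ∀ (t ε ε' : ℝ) (v v' : H →L[ℂ] H), IsScal N ξ J t ε v → IsScal N ξ J t ε' v' →
      ‖Qv J v ζ - Qv J v' ζ‖ ^ 2 ≤ a + b * (ε + ε') ^ 2 := by
  obtain ⟨b, hb, h⟩ := hmod H M N ξ U J hNM hJ ζ hζ 1 a one_pos ha
  refine ⟨b, hb, fun t ε ε' v v' hv hv' => ?_⟩
  have h1 := Q_diff hNM hJ hv.1 hv.2.1 hv'.1 hv'.2.1 ζ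
  have hz : v' * star v ∈ N := mul_mem hv'.1 (star_mem hv.1)
  have hz1 : ‖v' * star v‖ ≤ 1 := by
    calc ‖v' * star v‖ ≤ ‖v'‖ * ‖star v‖ := norm_mul_le _ _
      _ ≤ 1 * 1 := by
          gcongr
          · exact iso_le hv'.2.1
          · exact star_le (iso_le hv.2.1)
      _ = 1 := one_mul _
  have h2 := h _ hz hz1
  have h3 := scal_comm hNM hJ hv hv'
  calc ‖Qv J v ζ - Qv J v' ζ‖ ^ 2 ≤ ‖cm J (v' * star v) ζ‖ ^ 2 := by gcongr
    _ ≤ a + b * ‖cm J (v' * star v) ξ‖ ^ 2 := h2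
    _ ≤ a + b * (ε + ε') ^ 2 := by gcongr

lemma tends (hmod : S_mod) (hNM : ∀ x : H →L[ℂ] H, x ∈ N → x ∈ M) (hJ : IsConj M ξ U J)
    {ζ : H} (hζ : ζ ∈ KK N ξ J) {t : ℝ} {v v' : ℕ → H →L[ℂ] H}
    (hv : ∀ k : ℕ, IsScal N ξ J t (1 / ((k : ℝ) + 1)) (v k))
    (hv' : ∀ k : ℕ, IsScal N ξ J t (1 / ((k : ℝ) + 1)) (v' k)) :
    ∀ δ : ℝ, 0 < δ → ∃ K : ℕ, ∀ k l : ℕ, K ≤ k → K ≤ l →
      ‖Qv J (v k) ζ - Qv J (v' l) ζ‖ < δ := by
  intro δ hδ
  obtain ⟨b, hb, h⟩ := key hmod hNM hJ hζ (a := δ ^ 2 / 2) (by positivity)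
  have hlim : Tendsto (fun k : ℕ => b * (1 / ((k : ℝ) + 1) + 1 / ((k : ℝ) + 1)) ^ 2) atTop
      (𝓝 (b * (0 + 0) ^ 2)) :=
    ((tendsto_one_div_add_atTop_nhds_zero_nat.add
      tendsto_one_div_add_atTop_nhds_zero_nat).pow 2).const_mul b
  rw [add_zero, zero_pow two_ne_zero, mul_zero] at hlim
  obtain ⟨K, hK⟩ := (hlim.eventually (gt_mem_nhds (show (0 : ℝ) < δ ^ 2 / 2 by positivity))).exists
  refine ⟨K, fun k l hk hl => ?_⟩
  have h1 := h t _ _ _ _ (hv k) (hv' l)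
  have h2 : b * (1 / ((k : ℝ) + 1) + 1 / ((l : ℝ) + 1)) ^ 2 ≤
      b * (1 / ((K : ℝ) + 1) + 1 / ((K : ℝ) + 1)) ^ 2 := by
    gcongr
  have h3 : ‖Qv J (v k) ζ - Qv J (v' l) ζ‖ ^ 2 < δ ^ 2 := by linarith
  exact lt_of_pow_lt_pow_left₀ 2 hδ.le h3

lemma exists_lim (hmod : S_mod) (hNM : ∀ x : H →L[ℂ] H, x ∈ N → x ∈ M) (hJ : IsConj M ξ U J)
    {ζ : H} (hζ : ζ ∈ KK N ξ J) {t : ℝ} {v : ℕ → H →L[ℂ] H}
    (hv : ∀ k : ℕ, IsScal N ξ J t (1 / ((k : ℝ) + 1)) (v k)) :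
    ∃ l : H, Tendsto (fun k => Qv J (v k) ζ) atTop (𝓝 l) := by
  apply cauchySeq_tendsto_of_complete
  rw [Metric.cauchySeq_iff]
  intro δ hδ
  obtain ⟨K, hK⟩ := tends hmod hNM hJ hζ hv hv δ hδ
  refine ⟨K, fun k hk l hl => ?_⟩
  rw [dist_eq_norm]
  exact hK k l hk hl

/-- (3) -/
lemma alf_Qv (hNM : ∀ x : H →L[ℂ] H, x ∈ N → x ∈ M) (hJ : IsConj M ξ U J)
    {v u : H →L[ℂ] H} (hv : v ∈ N) (hu : u ∈ N) (ζ : H) :
    alf J u (Qv J v ζ) = Qv J (v * star u) ζ := by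
  have e1 : alf J u (Qv J v ζ) = u (RR J (star u) (star v (RR J v ζ))) := by
    unfold alf RR Qv
    rw [star_star]
  rw [e1, ← RR_comm hJ (star_mem (hNM v hv)) (star_mem (hNM u hu)), ← RR_mul hJ, Qv_eq, star_mul,
    star_star]
  rfl

lemma scal_mul (hNM : ∀ x : H →L[ℂ] H, x ∈ N → x ∈ M) (hJ : IsConj M ξ U J) {t ε : ℝ}
    (ht0 : 0 < t) (ht1 : t < 1)
    {v u : H →L[ℂ] H} (hv : IsScal N ξ J t ε v) (hu : IsUni N u) :
    IsScal N ξ J t (ε + ‖alf J u ξ - ξ‖) (v * star u) := by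
  obtain ⟨hvN, hvi, hvs⟩ := hv
  obtain ⟨huN, hu1, hu2⟩ := hu
  have hvM := hNM v hvN
  have huM := hNM u huN
  refine ⟨mul_mem hvN (star_mem huN), ?_, ?_⟩
  · rw [star_mul, star_star, mul_assoc, ← mul_assoc (star v), hvi, one_mul, hu2]
  · rw [← RR_xi hJ] at hvs ⊢
    have e1 : RR J (v * star u) ξ - ((Real.sqrt t : ℝ) : ℂ) • (v * star u) ξ =
        RR J (star u) (RR J v ξ - ((Real.sqrt t : ℝ) : ℂ) • v ξ) +
          ((Real.sqrt t : ℝ) : ℂ) • v (RR J (star u) ξ - star u ξ) := by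
      rw [RR_mul hJ, RR_sub hJ, RR_smul hJ, map_sub, smul_sub, RR_comm hJ hvM (star_mem huM)]
      have : (v * star u) ξ = v (star u ξ) := rfl
      rw [this]
      abel
    have hu1' : ‖star u‖ ≤ 1 := star_le (iso_le hu1)
    have e2 : alf J u ξ - ξ = u (RR J (star u) ξ - star u ξ) := by
      have h1 : u (star u ξ) = ξ := by
        have := congrArg (fun T : H →L[ℂ] H => T ξ) hu2
        exact this
      rw [map_sub, h1]
      unfold alf RR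
      rw [star_star]
    rw [e1]
    refine (norm_add_le _ _).trans (add_le_add ?_ ?_)
    · exact (RR_norm_le hJ hu1' _).trans hvs
    · rw [e2, iso_norm hu1, norm_smul, iso_norm hvi]
      have h2 : ‖((Real.sqrt t : ℝ) : ℂ)‖ ≤ 1 := by
        rw [Complex.norm_real, Real.norm_of_nonneg (Real.sqrt_nonneg t)]
        exact Real.sqrt_le_one.2 ht1.le
      calc ‖((Real.sqrt t : ℝ) : ℂ)‖ * ‖RR J (star u) ξ - star u ξ‖
          ≤ 1 * ‖RR J (star u) ξ - star u ξ‖ := by gcongr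
        _ = _ := one_mul _

lemma lim_mem (hmod : S_mod) (hNM : ∀ x : H →L[ℂ] H, x ∈ N → x ∈ M) (hJ : IsConj M ξ U J)
    {ζ : H} (hζ : ζ ∈ KK N ξ J) {t : ℝ} (ht0 : 0 < t) (ht1 : t < 1) {v : ℕ → H →L[ℂ] H}
    (hv : ∀ k : ℕ, IsScal N ξ J t (1 / ((k : ℝ) + 1)) (v k)) {l : H}
    (hl : Tendsto (fun k => Qv J (v k) ζ) atTop (𝓝 l)) : l ∈ KK N ξ J := by
  intro a ha
  obtain ⟨b, hb, h⟩ := key hmod hNM hJ hζ ha
  refine ⟨b, hb, fun u hu => ?_⟩
  have h1 : ∀ k : ℕ, ‖alf J u (Qv J (v k) ζ) - Qv J (v k) ζ‖ ^ 2 ≤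
      a + b * ((1 / ((k : ℝ) + 1) + ‖alf J u ξ - ξ‖) + 1 / ((k : ℝ) + 1)) ^ 2 := by
    intro k
    rw [alf_Qv hNM hJ (hv k).1 hu.1]
    exact h t _ _ _ _ (scal_mul hNM hJ ht0 ht1 (hv k) hu) (hv k)
  have hcont : Continuous (alf J u) :=
    u.continuous.comp ((J_cont hJ).comp (u.continuous.comp (J_cont hJ)))
  have h2 : Tendsto (fun k => ‖alf J u (Qv J (v k) ζ) - Qv J (v k) ζ‖ ^ 2) atTop
      (𝓝 (‖alf J u l - l‖ ^ 2)) :=
    (((hcont.tendsto l).comp hl).sub hl).norm.pow 2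
  have h3 : Tendsto (fun k : ℕ => a + b * ((1 / ((k : ℝ) + 1) + ‖alf J u ξ - ξ‖) +
      1 / ((k : ℝ) + 1)) ^ 2) atTop (𝓝 (a + b * ((0 + ‖alf J u ξ - ξ‖) + 0) ^ 2)) :=
    ((((tendsto_one_div_add_atTop_nhds_zero_nat.add_const _).add
      tendsto_one_div_add_atTop_nhds_zero_nat).pow 2).const_mul b).const_add a
  rw [zero_add, add_zero] at h3
  exact le_of_tendsto_of_tendsto' h2 h3 h1

/-- (4) -/
lemma sgm_scal (hmodular : IsModular M ξ U) (hJ : IsConj M ξ U J)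
    (hinv : ∀ (t : ℝ) (x : H →L[ℂ] H), x ∈ N → sgm U t x ∈ N) {t ε : ℝ} {v : H →L[ℂ] H}
    (s : ℝ) (hv : IsScal N ξ J t ε v) : IsScal N ξ J t ε (sgm U s v) := by
  obtain ⟨hvN, hvi, hvs⟩ := hv
  have hU1 : star (U s) * U s = 1 := by
    rw [hmodular.star_eq, ← hmodular.add, neg_add_cancel, hmodular.zero]
  have hU2 : U s * star (U s) = 1 := by
    rw [hmodular.star_eq, ← hmodular.add, add_neg_cancel, hmodular.zero]
  have hfix : star (U s) ξ = ξ := by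
    rw [hmodular.star_eq]
    exact hmodular.fix _
  have hst : star (sgm U s v) = U s * star v * star (U s) := by
    unfold sgm
    rw [star_mul, star_mul, star_star, mul_assoc]
  refine ⟨hinv s v hvN, ?_, ?_⟩
  · rw [hst]
    unfold sgm
    calc U s * star v * star (U s) * (U s * v * star (U s))
        = U s * star v * (star (U s) * U s) * v * star (U s) := by noncomm_ring
      _ = U s * (star v * v) * star (U s) := by rw [hU1]; noncomm_ring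
      _ = 1 := by rw [hvi, mul_one, hU2]
  · have e1 : star (sgm U s v) ξ = U s (star v ξ) := by
      rw [hst]
      change U s (star v (star (U s) ξ)) = _
      rw [hfix]
    have e2 : sgm U s v ξ = U s (v ξ) := by
      change U s (v (star (U s) ξ)) = _
      rw [hfix]
    rw [e1, e2, hJ.modular, ← map_smul, ← map_sub, iso_norm hU1]
    exact hvs

lemma Qv_U (hmodular : IsModular M ξ U) (hJ : IsConj M ξ U J) (s : ℝ) (v : H →L[ℂ] H) (ζ : H) :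
    Qv J v (U s ζ) = U s (Qv J (sgm U (-s) v) ζ) := by
  have hst : star (sgm U (-s) v) = U (-s) * star v * U s := by
    unfold sgm
    rw [star_mul, star_mul, star_star, mul_assoc, hmodular.star_eq, neg_neg]
  have hc : ∀ x : H, U s (U (-s) x) = x := by
    intro x
    have : (U s * U (-s)) x = x := by
      rw [← hmodular.add, add_neg_cancel, hmodular.zero]
      rfl
    exact this
  unfold Qv
  rw [hst, hJ.modular]
  have e1 : ∀ x : H, (U (-s) * star v * U s) x = U (-s) (star v (U s x)) := fun x => rfl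
  rw [e1, e1, hJ.modular, hc, hc]

end main

theorem Q_thm (h : S_mod) : S_Q := by
  intro H _ _ _ M N ξ U J hNM hmodular hJ hinv t v ht0 ht1 hv
  refine ⟨fun ζ => limUnder atTop (fun k => Qv J (v k) ζ), fun ζ hζ => ?_⟩
  obtain ⟨l, hl⟩ := exists_lim h hNM hJ hζ hv
  have hQ : limUnder atTop (fun k => Qv J (v k) ζ) = l := hl.limUnder_eq
  simp only [hQ]
  refine ⟨lim_mem h hNM hJ hζ ht0 ht1 hv hl, ?_, hl, ?_, ?_⟩
  · exact le_of_tendsto hl.norm (Eventually.of_forall fun k => Qv_norm hJ (hv k).2.1 ζ)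
  · intro ζ' hζ' c
    obtain ⟨l', hl'⟩ := exists_lim h hNM hJ hζ' hv
    have hQ' : limUnder atTop (fun k => Qv J (v k) ζ') = l' := hl'.limUnder_eq
    rw [hQ']
    refine Tendsto.limUnder_eq ?_
    refine (hl.add (hl'.const_smul c)).congr fun k => ?_
    rw [Qv_lin hJ]
  · intro s
    refine Tendsto.limUnder_eq ?_
    have h1 : Tendsto (fun k => Qv J (sgm U (-s) (v k)) ζ) atTop (𝓝 l) := by
      have h2 : Tendsto (fun k => Qv J (sgm U (-s) (v k)) ζ - Qv J (v k) ζ) atTop (𝓝 0) := by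
        rw [Metric.tendsto_atTop]
        intro δ hδ
        obtain ⟨K, hK⟩ := tends h hNM hJ hζ
          (fun k => sgm_scal hmodular hJ hinv (-s) (hv k)) hv δ hδ
        refine ⟨K, fun k hk => ?_⟩
        rw [dist_eq_norm, sub_zero]
        exact hK k k hk hk
      have h3 := h2.add hl
      rw [zero_add] at h3
      refine h3.congr fun k => ?_
      rw [sub_add_cancel]
    refine (((U s).continuous.tendsto l).comp h1).congr fun k => ?_
    exact (Qv_U hmodular hJ s (v k) ζ).symm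

end Pool.Agent.H255.BC.T_Q
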