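import Pool.Agent.H255.BC.P_KK

set_option autoImplicit false

open MeasureTheory Filter Topology Complex
open scoped InnerProductSpace ENNReal FourierTransform

namespace Pool.Agent.H685.BC.Bic

open Pool.Agent.W662.CB Pool.Agent.H255.BC Pool.Agent.H685.BC.KK

variable {H : Type} [NormedAddCommGroup H] [InnerProductSpace ℂ H] [CompleteSpace H]

theorem vst_star (ξ : H) (x : H →L[ℂ] H) : vst ξ (star x) = starRingEnd ℂ (vst ξ x) := by
  unfold vst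
  rw [ContinuousLinearMap.star_eq_adjoint, ContinuousLinearMap.adjoint_inner_right,
    inner_conj_symm]

theorem commNorm_star (M : VonNeumannAlgebra H) (ξ : H) (a : H →L[ℂ] H) :
    commNorm M ξ (star a) = commNorm M ξ a := by
  have key : ∀ c : H →L[ℂ] H, {r : ℝ | ∃ x : H →L[ℂ] H, x ∈ M ∧ ‖x‖ ≤ 1 ∧
      r = ‖vst ξ (x * c) - vst ξ (c * x)‖} ⊆ {r : ℝ | ∃ x : H →L[ℂ] H, x ∈ M ∧ ‖x‖ ≤ 1 ∧
      r = ‖vst ξ (x * star c) - vst ξ (star c * x)‖} := by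
    rintro c r ⟨x, hx, hx1, rfl⟩
    refine ⟨star x, star_mem hx, by rwa [norm_star], ?_⟩
    rw [← star_mul, ← star_mul, vst_star, vst_star, ← map_sub, Complex.norm_conj, norm_sub_rev]
  unfold commNorm
  congr 1
  apply Set.Subset.antisymm
  · have := key (star a)
    rwa [star_star] at this
  · exact key a

theorem star_rel {N M : VonNeumannAlgebra H} {ξ : H} {b : H →L[ℂ] H}
    (hb : b ∈ relBicentralizer N M ξ) : star b ∈ relBicentralizer N M ξ := by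
  refine ⟨star_mem hb.1, ?_⟩
  rintro a haN ⟨C, hC⟩ hcomm v
  have h := hb.2 (fun n => star (a n)) (fun n => star_mem (haN n))
    ⟨C, fun n => by rw [norm_star]; exact hC n⟩
    (by simpa only [commNorm_star] using hcomm) v
  have e1 : ∀ n, a n * star b - star b * a n = - star (star (a n) * b - b * star (a n)) := by
    intro n
    rw [star_sub, star_mul, star_mul, star_star]
    abel
  have e2 : ∀ n, star (a n * star b - star b * a n) = - (star (a n) * b - b * star (a n)) := by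
    intro n
    rw [e1, star_neg, star_star]
  constructor
  · have := h.2.neg
    rw [neg_zero] at this
    refine this.congr fun n => ?_
    rw [e1]; rfl
  · have := h.1.neg
    rw [neg_zero] at this
    refine this.congr fun n => ?_
    rw [e2]; rfl

/-- `R(u) v = J u^* J v` -/
theorem R_alf {M : VonNeumannAlgebra H} {ξ : H} {U : ℝ → H →L[ℂ] H} {J : H → H}
    (hJ : IsConj M ξ U J) {u : H →L[ℂ] H} (hu : u ∈ M) (hu1 : star u * u = 1) (v : H) :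
    J (star u (J (alf J u v))) = u v := by
  have h1 : alf J u v = J (u (J (u v))) := by
    unfold alf
    exact hJ.comm u u hu hu v
  rw [h1, hJ.inv]
  have h2 : star u (u (J (u v))) = J (u v) := by
    have : (star u * u) (J (u v)) = J (u v) := by rw [hu1]; rfl
    exact this
  rw [h2, hJ.inv]

theorem R_norm {M : VonNeumannAlgebra H} {ξ : H} {U : ℝ → H →L[ℂ] H} {J : H → H}
    (hJ : IsConj M ξ U J) {u : H →L[ℂ] H} (hu2 : u * star u = 1) (v : H) :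
    ‖J (star u (J v))‖ = ‖v‖ := by
  rw [norm_J hJ, norm_iso (by rwa [star_star]), norm_J hJ]

theorem R_sub {M : VonNeumannAlgebra H} {ξ : H} {U : ℝ → H →L[ℂ] H} {J : H → H}
    (hJ : IsConj M ξ U J) (u : H →L[ℂ] H) (v w : H) :
    J (star u (J (v - w))) = J (star u (J v)) - J (star u (J w)) := by
  rw [J_sub hJ, map_sub, J_sub hJ]

theorem norm_alf_sub {M : VonNeumannAlgebra H} {ξ : H} {U : ℝ → H →L[ℂ] H} {J : H → H}
    (hJ : IsConj M ξ U J) {u : H →L[ℂ] H} (hu : u ∈ M) (hu1 : star u * u = 1)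
    (hu2 : u * star u = 1) (v : H) :
    ‖alf J u v - v‖ = ‖u v - J (star u (J v))‖ := by
  rw [← R_norm hJ hu2 (alf J u v - v), R_sub hJ, R_alf hJ hu hu1]

theorem commNorm_le (hA5 : S_A5) {M : VonNeumannAlgebra H} {ξ : H} {U : ℝ → H →L[ℂ] H}
    {J : H → H} (hξ : ‖ξ‖ = 1) (hJ : IsConj M ξ U J) {u : H →L[ℂ] H} (hu : u ∈ M)
    (hu1 : star u * u = 1) (hu2 : u * star u = 1) :
    commNorm M ξ u ≤ 2 * ‖alf J u ξ - ξ‖ := by
  refine (hA5 H M ξ hξ).2.2.2 u _ (by positivity) fun x hx hx1 => ?_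
  have e1 : vst ξ (x * u) = ⟪ξ, x (u ξ)⟫_ℂ := rfl
  have e2 : vst ξ (u * x) = ⟪star u ξ, x ξ⟫_ℂ := by
    unfold vst
    rw [ContinuousLinearMap.star_eq_adjoint, ContinuousLinearMap.adjoint_inner_left]
    rfl
  have e3 : ⟪ξ, x (J (star u (J ξ)))⟫_ℂ = ⟪J (u (J ξ)), x ξ⟫_ℂ := by
    rw [hJ.comm x (star u) hx (star_mem hu) ξ]
    calc ⟪ξ, J (star u (J (x ξ)))⟫_ℂ = ⟪J ξ, J (star u (J (x ξ)))⟫_ℂ := by rw [hJ.fix]
      _ = ⟪star u (J (x ξ)), ξ⟫_ℂ := hJ.inner _ _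
      _ = ⟪J (x ξ), u ξ⟫_ℂ := by
        rw [ContinuousLinearMap.star_eq_adjoint, ContinuousLinearMap.adjoint_inner_left]
      _ = ⟪J (x ξ), J (J (u ξ))⟫_ℂ := by rw [hJ.inv]
      _ = ⟪J (u ξ), x ξ⟫_ℂ := hJ.inner _ _
      _ = ⟪J (u (J ξ)), x ξ⟫_ℂ := by rw [hJ.fix]
  have e4 : vst ξ (x * u) - vst ξ (u * x) =
      ⟪ξ, x (u ξ - J (star u (J ξ)))⟫_ℂ + ⟪J (u (J ξ)) - star u ξ, x ξ⟫_ℂ := by
    rw [e1, e2, map_sub, inner_sub_right, inner_sub_left, e3]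
    ring
  have hD : ‖u ξ - J (star u (J ξ))‖ = ‖alf J u ξ - ξ‖ := (norm_alf_sub hJ hu hu1 hu2 ξ).symm
  have hD2 : ‖J (u (J ξ)) - star u ξ‖ = ‖alf J u ξ - ξ‖ := by
    rw [← hD, ← norm_J hJ (J (u (J ξ)) - star u ξ), J_sub hJ, hJ.inv, hJ.fix]
  have hxi : ∀ v : H, ‖x v‖ ≤ ‖v‖ := fun v => by
    have := x.le_opNorm v
    nlinarith [norm_nonneg v]
  rw [e4]
  calc ‖⟪ξ, x (u ξ - J (star u (J ξ)))⟫_ℂ + ⟪J (u (J ξ)) - star u ξ, x ξ⟫_ℂ‖
      ≤ ‖⟪ξ, x (u ξ - J (star u (J ξ)))⟫_ℂ‖ + ‖⟪J (u (J ξ)) - star u ξ, x ξ⟫_ℂ‖ :=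
        norm_add_le _ _
    _ ≤ ‖ξ‖ * ‖x (u ξ - J (star u (J ξ)))‖ + ‖J (u (J ξ)) - star u ξ‖ * ‖x ξ‖ :=
        add_le_add (norm_inner_le_norm _ _) (norm_inner_le_norm _ _)
    _ ≤ 2 * ‖alf J u ξ - ξ‖ := by
        have h1 := hxi (u ξ - J (star u (J ξ)))
        have h2 := hxi ξ
        rw [hD] at h1
        rw [hξ] at h2 ⊢
        rw [hD2]
        nlinarith [norm_nonneg (alf J u ξ - ξ)]

theorem mem_KK (hA5 : S_A5) (hA7 : S_A7) {M N : VonNeumannAlgebra H} {ξ : H}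
    {U : ℝ → H →L[ℂ] H} {J : H → H} (hNM : ∀ x : H →L[ℂ] H, x ∈ N → x ∈ M) (hξ : ‖ξ‖ = 1)
    (hJ : IsConj M ξ U J) {b : H →L[ℂ] H} (hb : b ∈ relBicentralizer N M ξ) :
    b ξ ∈ KK N ξ J := by
  intro a ha
  obtain ⟨A, hA, h⟩ := hA7 H M N ξ hξ hNM b hb 1 (a / 2) one_pos (by positivity)
  refine ⟨8 * A + 2 * ‖b‖ ^ 2, by positivity, fun u hu => ?_⟩
  have huM := hNM u hu.1
  have hu1 := hu.2.1
  have hu2 := hu.2.2
  have hun : ‖u‖ ≤ 1 := u.opNorm_le_bound zero_le_one fun v => by rw [norm_iso hu1, one_mul]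
  have h1 := h u hu.1 hun
  have h2 := commNorm_le hA5 hξ hJ huM hu1 hu2
  have h0 : 0 ≤ commNorm M ξ u := (hA5 H M ξ hξ).1 u
  have h3 : commNorm M ξ u ^ 2 ≤ 4 * ‖alf J u ξ - ξ‖ ^ 2 := by
    have := pow_le_pow_left₀ h0 h2 2
    nlinarith
  have e : u (b ξ) - J (star u (J (b ξ))) = (u * b - b * u) ξ +
      b (u ξ - J (star u (J ξ))) := by
    have : J (star u (J (b ξ))) = b (J (star u (J ξ))) :=
      (hJ.comm b (star u) hb.1 (star_mem huM) ξ).symm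
    rw [this, map_sub]
    show u (b ξ) - b (J (star u (J ξ))) = (u (b ξ) - b (u ξ)) + (b (u ξ) - b (J (star u (J ξ))))
    abel
  have h4 : ‖alf J u (b ξ) - b ξ‖ ≤ ‖(u * b - b * u) ξ‖ + ‖b‖ * ‖alf J u ξ - ξ‖ := by
    rw [norm_alf_sub hJ huM hu1 hu2 (b ξ), e, norm_alf_sub hJ huM hu1 hu2 ξ]
    exact (norm_add_le _ _).trans (add_le_add le_rfl (b.le_opNorm _))
  have h5 := pow_le_pow_left₀ (norm_nonneg _) h4 2
  have h6 := sq_add_le ‖(u * b - b * u) ξ‖ (‖b‖ * ‖alf J u ξ - ξ‖)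
  have h7 := mul_le_mul_of_nonneg_left h3 hA
  nlinarith

theorem bic_thm (hA5 : S_A5) (hA7 : S_A7) : S_bic := by
  intro H _ _ _ M N ξ U J hNM hξ hJ b hb
  exact ⟨star_rel hb, mem_KK hA5 hA7 hNM hξ hJ hb, mem_KK hA5 hA7 hNM hξ hJ (star_rel hb)⟩

end Pool.Agent.H685.BC.Bic
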