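import Pool.Agent.H255.BC.Defs

set_option autoImplicit false

open MeasureTheory Filter Topology Complex
open scoped InnerProductSpace ENNReal FourierTransform

namespace Pool.Agent.H255.BC.T_comm

open Pool.Agent.W662.CB Pool.Agent.H255.BC

variable {H : Type} [NormedAddCommGroup H] [InnerProductSpace ℂ H] [CompleteSpace H]

/-- the adjoint analytic family -/
lemma isAn_star {M : VonNeumannAlgebra H} {U : ℝ → H →L[ℂ] H} {F : ℂ → H →L[ℂ] H}
    (hF : IsAn M U F) : IsAn M U (fun z => star (F (starRingEnd ℂ z))) where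
  mem z := star_mem (hF.mem _)
  diff v := hF.diff' v
  diff' v := by
    have := hF.diff v
    simpa using this
  ext t := by
    have h1 : star (F (starRingEnd ℂ (t : ℂ))) = star (F t) := by rw [Complex.conj_ofReal]
    rw [h1, hF.ext t]
    simp [sgm, mul_assoc]
  bdd R := by
    obtain ⟨C, hC⟩ := hF.bdd R
    refine ⟨C, fun z hz => ?_⟩
    rw [norm_star]
    apply hC
    simpa using hz

lemma inner_star_left (T : H →L[ℂ] H) (v w : H) : ⟪star T v, w⟫_ℂ = ⟪v, T w⟫_ℂ :=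
  ContinuousLinearMap.adjoint_inner_left T w v

lemma inner_star_right (T : H →L[ℂ] H) (v w : H) : ⟪v, star T w⟫_ℂ = ⟪T v, w⟫_ℂ :=
  ContinuousLinearMap.adjoint_inner_right T v w

/-- multiplication by `e^{κ/2}` -/
noncomputable def eh (h : ℝ → ℂ) : ℝ → ℂ := fun κ => cexp (I * (-(I / 2)) * κ) * h κ

lemma tst_eh {h : ℝ → ℂ} (hh : Tst h) : Tst (eh h) := by
  refine ⟨?_, ?_⟩
  · refine ContDiff.mul ?_ hh.1
    apply ContDiff.cexp
    refine contDiff_const.mul ?_
    exact Complex.ofRealCLM.contDiff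
  · exact hh.2.mul_left

lemma tst_conj {h : ℝ → ℂ} (hh : Tst h) : Tst (fun κ => starRingEnd ℂ (h κ)) := by
  refine ⟨?_, ?_⟩
  · exact (Complex.conjCLE.contDiff).comp hh.1
  · exact hh.2.comp_left (g := starRingEnd ℂ) (by simp)

lemma eh_conj (h : ℝ → ℂ) :
    (fun κ => starRingEnd ℂ (eh h κ)) = eh (fun κ => starRingEnd ℂ (h κ)) := by
  funext κ
  simp only [eh, map_mul]
  congr 1
  have e : I * (-(I / 2)) * (κ : ℂ) = ((κ / 2 : ℝ) : ℂ) := by
    push_cast
    linear_combination (-(κ : ℂ) / 2) * Complex.I_mul_I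
  rw [e, ← Complex.exp_conj, Complex.conj_ofReal]

lemma dense_inner_eq {M : VonNeumannAlgebra H} {ξ : H} (hc : IsCyclic M ξ)
    {f g : H → ℂ} (hf : Continuous f) (hg : Continuous g)
    (h : ∀ e : H →L[ℂ] H, e ∈ M → f (e ξ) = g (e ξ)) : ∀ w, f w = g w := by
  intro w
  have := Continuous.ext_on hc hf hg (by
    rintro _ ⟨x, hx, rfl⟩
    exact h x hx)
  rw [this]

lemma dense_inner_eq' {M : VonNeumannAlgebra H} {ξ : H} (hc : IsCyclic M ξ)
    {f g : H → H} (hf : Continuous f) (hg : Continuous g)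
    (h : ∀ e : H →L[ℂ] H, e ∈ M → f (e ξ) = g (e ξ)) : ∀ w, f w = g w := by
  intro w
  have := Continuous.ext_on hc hf hg (by
    rintro _ ⟨x, hx, rfl⟩
    exact h x hx)
  rw [this]

theorem comm_thm (h1 : S_psi) (h2 : S_psi_one) (h3 : S_phi) : S_comm := by
  intro H _ _ _ M ξ U J hm hc hJ
  -- (1)
  have s1 : ∀ T : H →L[ℂ] H, (∀ y : H →L[ℂ] H, y ∈ M → ∀ v : H,
      T (J (y (J v))) = J (y (J (T v)))) → ∀ m : H →L[ℂ] H, m ∈ M →
      ⟪star T ξ, J (m ξ)⟫_ℂ = ⟪J (T ξ), star m ξ⟫_ℂ := by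
    intro T hT m hm'
    rw [inner_star_left, inner_star_right]
    have e1 : T (J (m ξ)) = J (m (J (T ξ))) := by
      have := hT m hm' ξ
      rwa [hJ.fix] at this
    rw [e1]
    conv_lhs => rw [← hJ.fix]
    rw [hJ.inner, hJ.fix]
  have s2 : ∀ y : H →L[ℂ] H, y ∈ M.commutant → ∀ m : H →L[ℂ] H, m ∈ M →
      ⟪star y ξ, m ξ⟫_ℂ = ⟪J (y ξ), J (star m ξ)⟫_ℂ := by
    intro y hy m hm'
    rw [inner_star_left, hJ.inner, inner_star_left]
    rw [VonNeumannAlgebra.mem_commutant_iff] at hy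
    have := hy m hm'
    have e : m (y ξ) = y (m ξ) := by
      have := congrArg (fun A : H →L[ℂ] H => A ξ) this
      simpa using this
    rw [e]
  -- (3)
  have s3 : ∀ h : ℝ → ℂ, Tst h → ∀ e : H →L[ℂ] H, e ∈ M → ∃ F : H →L[ℂ] H, F ∈ M ∧
      F ξ = psi U h (e ξ) ∧ J (star F ξ) = psi U (eh h) (e ξ) := by
    intro h hh e he
    obtain ⟨F, hF, hF1, -⟩ := h3 H M ξ U hm h hh e he
    refine ⟨F 0, hF.mem 0, ?_, ?_⟩
    · rw [hF1 0]
      congr 1
      funext κ
      simp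
    · have := hJ.an _ (isAn_star hF)
      simp only [map_zero, star_star] at this
      rw [this]
      have e2 : (starRingEnd ℂ) (I / 2) = -(I / 2) := by
        rw [map_div₀, Complex.conj_I, map_ofNat, neg_div]
      rw [e2, hF1]
      rfl
  have sA : ∀ T : H →L[ℂ] H, (∀ y : H →L[ℂ] H, y ∈ M → ∀ v : H,
      T (J (y (J v))) = J (y (J (T v)))) → ∀ h : ℝ → ℂ, Tst h →
      psi U (eh h) (star T ξ) = psi U h (J (T ξ)) := by
    intro T hT h hh
    have hh' := tst_conj hh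
    obtain ⟨⟨P1, hP1⟩, hadj1, -, -⟩ := h1 H M ξ U hm _ hh'
    obtain ⟨⟨P2, hP2⟩, hadj2, -, -⟩ := h1 H M ξ U hm _ (tst_eh hh')
    have key : ∀ w : H, ⟪star T ξ, psi U (eh fun κ => starRingEnd ℂ (h κ)) w⟫_ℂ =
        ⟪J (T ξ), psi U (fun κ => starRingEnd ℂ (h κ)) w⟫_ℂ := by
      apply dense_inner_eq hc
      · have : (fun w => ⟪star T ξ, psi U (eh fun κ => starRingEnd ℂ (h κ)) w⟫_ℂ) =
            fun w => ⟪star T ξ, P2 w⟫_ℂ := by
          funext w; rw [hP2]
        rw [this]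
        exact continuous_const.inner P2.continuous
      · have : (fun w => ⟪J (T ξ), psi U (fun κ => starRingEnd ℂ (h κ)) w⟫_ℂ) =
            fun w => ⟪J (T ξ), P1 w⟫_ℂ := by
          funext w; rw [hP1]
        rw [this]
        exact continuous_const.inner P1.continuous
      · intro e he
        obtain ⟨F, hF, hF1, hF2⟩ := s3 _ hh' e he
        rw [← hF1, ← hF2, s1 T hT (star F) (star_mem hF), star_star]
    apply ext_inner_right ℂ
    intro w
    have k := key w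
    rw [hadj1, hadj2] at k
    have c1 : (fun κ => starRingEnd ℂ ((eh fun κ => starRingEnd ℂ (h κ)) κ)) = eh h := by
      rw [eh_conj]; simp
    rw [c1] at k
    simpa using k
  have sB : ∀ y : H →L[ℂ] H, y ∈ M.commutant → ∀ h : ℝ → ℂ, Tst h →
      psi U h (star y ξ) = psi U (eh h) (J (y ξ)) := by
    intro y hy h hh
    have hh' := tst_conj hh
    obtain ⟨⟨P1, hP1⟩, hadj1, -, -⟩ := h1 H M ξ U hm _ hh'
    obtain ⟨⟨P2, hP2⟩, hadj2, -, -⟩ := h1 H M ξ U hm _ (tst_eh hh')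
    have key : ∀ w : H, ⟪star y ξ, psi U (fun κ => starRingEnd ℂ (h κ)) w⟫_ℂ =
        ⟪J (y ξ), psi U (eh fun κ => starRingEnd ℂ (h κ)) w⟫_ℂ := by
      apply dense_inner_eq hc
      · have : (fun w => ⟪star y ξ, psi U (fun κ => starRingEnd ℂ (h κ)) w⟫_ℂ) =
            fun w => ⟪star y ξ, P1 w⟫_ℂ := by
          funext w; rw [hP1]
        rw [this]
        exact continuous_const.inner P1.continuous
      · have : (fun w => ⟪J (y ξ), psi U (eh fun κ => starRingEnd ℂ (h κ)) w⟫_ℂ) =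
            fun w => ⟪J (y ξ), P2 w⟫_ℂ := by
          funext w; rw [hP2]
        rw [this]
        exact continuous_const.inner P2.continuous
      · intro e he
        obtain ⟨F, hF, hF1, hF2⟩ := s3 _ hh' e he
        rw [← hF1, ← hF2, s2 y hy F hF]
    apply ext_inner_right ℂ
    intro w
    have k := key w
    rw [hadj1, hadj2] at k
    have c1 : (fun κ => starRingEnd ℂ ((eh fun κ => starRingEnd ℂ (h κ)) κ)) = eh h := by
      rw [eh_conj]; simp
    rw [c1] at k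
    simpa using k
  -- (4)
  have s4 : ∀ T : H →L[ℂ] H, (∀ y : H →L[ℂ] H, y ∈ M → ∀ v : H,
      T (J (y (J v))) = J (y (J (T v)))) → ∀ y : H →L[ℂ] H, y ∈ M.commutant →
      ⟪star y ξ, star T ξ⟫_ℂ = ⟪T ξ, y ξ⟫_ℂ := by
    intro T hT y hy
    obtain ⟨h, hh, hlim⟩ := h2 H M ξ U hm
    have e : ∀ n, ⟪psi U (h n) (star y ξ), star T ξ⟫_ℂ = ⟪psi U (h n) (J (y ξ)), J (T ξ)⟫_ℂ := by
      intro n
      have hh' := tst_conj (hh n)
      obtain ⟨-, hadj1, -, -⟩ := h1 H M ξ U hm _ hh'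
      obtain ⟨-, hadj2, -, -⟩ := h1 H M ξ U hm _ (tst_eh hh')
      have c1 : (fun κ => starRingEnd ℂ ((eh fun κ => starRingEnd ℂ (h n κ)) κ)) = eh (h n) := by
        rw [eh_conj]; simp
      have c2 : (fun κ => starRingEnd ℂ (starRingEnd ℂ (h n κ))) = h n := by
        funext κ; simp
      rw [sB y hy (h n) (hh n)]
      have a1 := hadj2 (J (y ξ)) (star T ξ)
      rw [c1] at a1
      rw [← a1, sA T hT _ hh']
      have a2 := hadj1 (J (y ξ)) (J (T ξ))
      rw [c2] at a2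
      exact a2
    have l1 : Tendsto (fun n => ⟪psi U (h n) (star y ξ), star T ξ⟫_ℂ) atTop
        (𝓝 ⟪star y ξ, star T ξ⟫_ℂ) := (hlim _).inner tendsto_const_nhds
    have l2 : Tendsto (fun n => ⟪psi U (h n) (J (y ξ)), J (T ξ)⟫_ℂ) atTop
        (𝓝 ⟪J (y ξ), J (T ξ)⟫_ℂ) := (hlim _).inner tendsto_const_nhds
    have l3 : (fun n => ⟪psi U (h n) (star y ξ), star T ξ⟫_ℂ) =
        fun n => ⟪psi U (h n) (J (y ξ)), J (T ξ)⟫_ℂ := funext e
    rw [l3] at l1
    rw [tendsto_nhds_unique l1 l2, hJ.inner]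
  -- (5)
  intro T hT
  rw [← VonNeumannAlgebra.commutant_commutant M, VonNeumannAlgebra.mem_commutant_iff]
  intro y hy
  have hy' := hy
  rw [VonNeumannAlgebra.mem_commutant_iff] at hy'
  have hyv : ∀ m : H →L[ℂ] H, m ∈ M → ∀ v : H, m (y v) = y (m v) := by
    intro m hm' v
    have := congrArg (fun A : H →L[ℂ] H => A v) (hy' m hm')
    simpa using this
  have main : ∀ m₁ m₂ : H →L[ℂ] H, m₁ ∈ M → m₂ ∈ M →
      ⟪(y * T - T * y) (m₂ ξ), m₁ ξ⟫_ℂ = 0 := by
    intro m₁ m₂ hm₁ hm₂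
    have hT' : ∀ x : H →L[ℂ] H, x ∈ M → ∀ v : H,
        (star m₁ * T * m₂) (J (x (J v))) = J (x (J ((star m₁ * T * m₂) v))) := by
      intro x hx v
      have ap : ∀ v, (star m₁ * T * m₂) v = star m₁ (T (m₂ v)) := fun v => rfl
      rw [ap, ap, hJ.comm m₂ x hm₂ hx, hT x hx, hJ.comm (star m₁) x (star_mem hm₁) hx]
    have k := s4 _ hT' (star y) (star_mem hy)
    have ap : ∀ v, (star m₁ * T * m₂) v = star m₁ (T (m₂ v)) := fun v => rfl
    rw [star_star, inner_star_right, inner_star_right, ap, ap, hyv m₂ hm₂,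
      ← hyv (star m₁) (star_mem hm₁), inner_star_left, inner_star_left] at k
    have ap2 : (y * T - T * y) (m₂ ξ) = y (T (m₂ ξ)) - T (y (m₂ ξ)) := rfl
    rw [ap2, inner_sub_left, k, sub_self]
  have main2 : ∀ m₂ : H →L[ℂ] H, m₂ ∈ M → (y * T - T * y) (m₂ ξ) = 0 := by
    intro m₂ hm₂
    apply ext_inner_right ℂ
    intro w
    rw [inner_zero_left]
    exact dense_inner_eq (f := fun w => ⟪(y * T - T * y) (m₂ ξ), w⟫_ℂ) (g := fun _ => 0) hc
      (continuous_const.inner continuous_id) continuous_const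
      (fun e he => main e m₂ he hm₂) w
  have main3 : ∀ w : H, (y * T - T * y) w = 0 :=
    dense_inner_eq' hc (y * T - T * y).continuous continuous_const main2
  have main4 : y * T - T * y = 0 := by
    ext w
    exact main3 w
  exact sub_eq_zero.mp main4

end Pool.Agent.H255.BC.T_comm
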