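import Pool.Agent.H255.BC.Defs

set_option autoImplicit false

open MeasureTheory Filter Topology Complex
open scoped InnerProductSpace ENNReal FourierTransform

namespace Pool.Agent.H255.BC.T_fix

open Pool.Agent.W662.CB Pool.Agent.H255.BC

variable {H : Type} [NormedAddCommGroup H] [InnerProductSpace ℂ H] [CompleteSpace H]
  {M : VonNeumannAlgebra H} {ξ : H} {U : ℝ → H →L[ℂ] H} {J : H → H}

lemma J_norm (hJ : IsConj M ξ U J) (v : H) : ‖J v‖ = ‖v‖ := by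
  have h := hJ.inner v v
  rw [inner_self_eq_norm_sq_to_K, inner_self_eq_norm_sq_to_K] at h
  have h2 : ‖J v‖ ^ 2 = ‖v‖ ^ 2 := by exact_mod_cast h
  exact (pow_left_inj₀ (norm_nonneg _) (norm_nonneg _) two_ne_zero).1 h2

lemma J_neg (hJ : IsConj M ξ U J) (v : H) : J (-v) = - J v := by
  have := hJ.smul (-1) v
  simpa using this

lemma J_sub (hJ : IsConj M ξ U J) (v w : H) : J (v - w) = J v - J w := by
  rw [sub_eq_add_neg, hJ.add, J_neg hJ, ← sub_eq_add_neg]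

lemma J_rsmul (hJ : IsConj M ξ U J) (s : ℝ) (v : H) : J ((s : ℂ) • v) = (s : ℂ) • J v := by
  rw [hJ.smul, Complex.conj_ofReal]

lemma norm_of_iso {v : H →L[ℂ] H} (hv : star v * v = 1) (x : H) : ‖v x‖ = ‖x‖ := by
  have h1 : ⟪v x, v x⟫_ℂ = ⟪x, x⟫_ℂ := by
    have : star v (v x) = x := by
      have := congrArg (fun T : H →L[ℂ] H => T x) hv
      simpa using this
    calc ⟪v x, v x⟫_ℂ = ⟪star v (v x), x⟫_ℂ := by
          rw [ContinuousLinearMap.star_eq_adjoint, ContinuousLinearMap.adjoint_inner_left]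
      _ = _ := by rw [this]
  rw [inner_self_eq_norm_sq_to_K, inner_self_eq_norm_sq_to_K] at h1
  have h2 : ‖v x‖ ^ 2 = ‖x‖ ^ 2 := by exact_mod_cast h1
  exact (pow_left_inj₀ (norm_nonneg _) (norm_nonneg _) two_ne_zero).1 h2

lemma opnorm_of_iso {v : H →L[ℂ] H} (hv : star v * v = 1) : ‖v‖ ≤ 1 :=
  v.opNorm_le_bound zero_le_one fun x => by rw [norm_of_iso hv, one_mul]

lemma norm_star_of_iso {v : H →L[ℂ] H} (hv : star v * v = 1) (x : H) : ‖star v x‖ ≤ ‖x‖ := by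
  have h1 : ‖star v‖ ≤ 1 := by rw [norm_star]; exact opnorm_of_iso hv
  calc ‖star v x‖ ≤ ‖star v‖ * ‖x‖ := (star v).le_opNorm x
    _ ≤ 1 * ‖x‖ := by gcongr
    _ = ‖x‖ := one_mul _

/-- composition of scaling isometries -/
lemma comp_scal (hJ : IsConj M ξ U J) {v₁ v₂ v : H →L[ℂ] H} {s₁ s₂ s ε : ℝ}
    (h1 : v₁ ∈ M) (h2 : v₂ ∈ M) (hv : v ∈ M)
    (i1 : star v₁ * v₁ = 1) (i2 : star v₂ * v₂ = 1) (i : star v * v = 1)
    (hs2 : 0 ≤ s₂) (hs : s₂ * s = s₁)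
    (e1 : ‖J (star v₁ ξ) - (s₁ : ℂ) • v₁ ξ‖ ≤ ε)
    (e2 : ‖J (star v₂ ξ) - (s₂ : ℂ) • v₂ ξ‖ ≤ ε)
    (e : ‖J (star v ξ) - (s : ℂ) • v ξ‖ ≤ ε) :
    ‖J (star (v₂ * v * star v₁) ξ) - (v₂ * v * star v₁) ξ‖ ≤ (2 + s₂) * ε := by
  obtain ⟨d1, hd1⟩ : ∃ d, d = J (star v₁ ξ) - (s₁ : ℂ) • v₁ ξ := ⟨_, rfl⟩
  obtain ⟨d2, hd2⟩ : ∃ d, d = J (star v₂ ξ) - (s₂ : ℂ) • v₂ ξ := ⟨_, rfl⟩
  obtain ⟨d, hd⟩ : ∃ d, d = J (star v ξ) - (s : ℂ) • v ξ := ⟨_, rfl⟩
  rw [← hd1] at e1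
  rw [← hd2] at e2
  rw [← hd] at e
  have a2 : star v₂ ξ = (s₂ : ℂ) • J (v₂ ξ) + J d2 := by
    have : J (star v₂ ξ) = (s₂ : ℂ) • v₂ ξ + d2 := by rw [hd2]; abel
    rw [← hJ.inv (star v₂ ξ), this, hJ.add, J_rsmul hJ]
  have a : star v ξ = (s : ℂ) • J (v ξ) + J d := by
    have : J (star v ξ) = (s : ℂ) • v ξ + d := by rw [hd]; abel
    rw [← hJ.inv (star v ξ), this, hJ.add, J_rsmul hJ]
  have a1 : (s₁ : ℂ) • J (v₁ ξ) = star v₁ ξ - J d1 := by
    have : J (star v₁ ξ) = (s₁ : ℂ) • v₁ ξ + d1 := by rw [hd1]; abel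
    have h3 : star v₁ ξ = (s₁ : ℂ) • J (v₁ ξ) + J d1 := by
      rw [← hJ.inv (star v₁ ξ), this, hJ.add, J_rsmul hJ]
    rw [h3]; abel
  have c2 : J (v₁ (star v (J (v₂ ξ)))) = v₂ (J (v₁ (star v ξ))) := by
    have := hJ.comm v₂ (v₁ * star v) h2 (mul_mem h1 (star_mem hv)) ξ
    rw [hJ.fix] at this
    simpa using this.symm
  have c : J (v₁ (J (v ξ))) = v (J (v₁ ξ)) := by
    have := hJ.comm v v₁ hv h1 ξ
    rw [hJ.fix] at this
    exact this.symm
  have key : J (star (v₂ * v * star v₁) ξ) - (v₂ * v * star v₁) ξ =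
      -(v₂ (v (J d1))) + (s₂ : ℂ) • v₂ (J (v₁ (J d))) + J (v₁ (star v (J d2))) := by
    have e0 : star (v₂ * v * star v₁) ξ = v₁ (star v (star v₂ ξ)) := by
      simp [star_mul, mul_assoc]
    rw [e0, a2, map_add, map_add, hJ.add, map_smul, map_smul, J_rsmul hJ, c2, a, map_add,
      hJ.add, map_smul, J_rsmul hJ, c, map_add, map_smul, smul_add, smul_smul]
    have : ((s₂ : ℂ) * (s : ℂ)) = (s₁ : ℂ) := by exact_mod_cast hs
    rw [this, ← map_smul, ← map_smul, a1]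
    simp only [map_sub, mul_apply_eq_comp]
    abel
  rw [key]
  have n1 : ‖-(v₂ (v (J d1)))‖ ≤ ε := by
    rw [norm_neg, norm_of_iso i2, norm_of_iso i, J_norm hJ]; exact e1
  have n2 : ‖(s₂ : ℂ) • v₂ (J (v₁ (J d)))‖ ≤ s₂ * ε := by
    rw [norm_smul, norm_of_iso i2, J_norm hJ, norm_of_iso i1, J_norm hJ, Complex.norm_real,
      Real.norm_of_nonneg hs2]
    gcongr
  have n3 : ‖J (v₁ (star v (J d2)))‖ ≤ ε := by
    rw [J_norm hJ, norm_of_iso i1]
    exact (norm_star_of_iso i _).trans (by rw [J_norm hJ]; exact e2)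
  calc _ ≤ ‖-(v₂ (v (J d1))) + (s₂ : ℂ) • v₂ (J (v₁ (J d)))‖ + ‖J (v₁ (star v (J d2)))‖ :=
        norm_add_le _ _
    _ ≤ (‖-(v₂ (v (J d1)))‖ + ‖(s₂ : ℂ) • v₂ (J (v₁ (J d)))‖) + ‖J (v₁ (star v (J d2)))‖ := by
        gcongr; exact norm_add_le _ _
    _ ≤ (ε + s₂ * ε) + ε := by gcongr
    _ = _ := by ring

lemma star_defect (hJ : IsConj M ξ U J) (w : H →L[ℂ] H) :
    ‖J (star (star w) ξ) - star w ξ‖ = ‖J (star w ξ) - w ξ‖ := by
  rw [star_star, ← J_norm hJ, J_sub hJ, hJ.inv, ← norm_neg, neg_sub]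

lemma commNorm_nonneg (w : H →L[ℂ] H) : 0 ≤ commNorm M ξ w := by
  apply Real.sSup_nonneg
  rintro r ⟨x, -, -, rfl⟩
  exact norm_nonneg _

lemma commNorm_le (hξ : ‖ξ‖ = 1) (hJ : IsConj M ξ U J) {w : H →L[ℂ] H} (hw : w ∈ M) :
    commNorm M ξ w ≤ 2 * ‖J (star w ξ) - w ξ‖ := by
  apply csSup_le
  · exact ⟨_, 0, zero_mem _, by simp, rfl⟩
  rintro r ⟨x, hx, hx1, rfl⟩
  have h1 : ⟪ξ, x (J (star w ξ))⟫_ℂ = ⟪J (w ξ), x ξ⟫_ℂ := by
    have c := hJ.comm x (star w) hx (star_mem hw) ξ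
    rw [hJ.fix] at c
    rw [c]
    calc ⟪ξ, J (star w (J (x ξ)))⟫_ℂ = ⟪J ξ, J (star w (J (x ξ)))⟫_ℂ := by rw [hJ.fix]
      _ = ⟪star w (J (x ξ)), ξ⟫_ℂ := hJ.inner _ _
      _ = ⟪J (x ξ), w ξ⟫_ℂ := by
          rw [ContinuousLinearMap.star_eq_adjoint, ContinuousLinearMap.adjoint_inner_left]
      _ = ⟪J (x ξ), J (J (w ξ))⟫_ℂ := by rw [hJ.inv]
      _ = _ := hJ.inner _ _
  have h2 : ⟪ξ, w (x ξ)⟫_ℂ = ⟪star w ξ, x ξ⟫_ℂ := by
    rw [ContinuousLinearMap.star_eq_adjoint, ContinuousLinearMap.adjoint_inner_left]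
  have h3 : vst ξ (x * w) - vst ξ (w * x) =
      -⟪ξ, x (J (star w ξ) - w ξ)⟫_ℂ + ⟪J (w ξ) - star w ξ, x ξ⟫_ℂ := by
    simp only [vst, mul_apply_eq_comp, map_sub, inner_sub_right, inner_sub_left]
    rw [h1, h2]; ring
  have h4 : ‖J (w ξ) - star w ξ‖ = ‖J (star w ξ) - w ξ‖ := by
    have := star_defect hJ w
    rwa [star_star] at this
  have b1 : ‖⟪ξ, x (J (star w ξ) - w ξ)⟫_ℂ‖ ≤ ‖J (star w ξ) - w ξ‖ := by
    calc _ ≤ ‖ξ‖ * ‖x (J (star w ξ) - w ξ)‖ := norm_inner_le_norm _ _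
      _ ≤ 1 * (1 * ‖J (star w ξ) - w ξ‖) := by
          rw [hξ]; gcongr
          exact (x.le_opNorm _).trans (by gcongr)
      _ = _ := by ring
  have b2 : ‖⟪J (w ξ) - star w ξ, x ξ⟫_ℂ‖ ≤ ‖J (star w ξ) - w ξ‖ := by
    calc _ ≤ ‖J (w ξ) - star w ξ‖ * ‖x ξ‖ := norm_inner_le_norm _ _
      _ ≤ ‖J (star w ξ) - w ξ‖ * (1 * 1) := by
          rw [h4]; gcongr
          exact (x.le_opNorm _).trans (by rw [hξ]; gcongr)
      _ = _ := by ring
  rw [h3]
  calc _ ≤ ‖-⟪ξ, x (J (star w ξ) - w ξ)⟫_ℂ‖ + ‖⟪J (w ξ) - star w ξ, x ξ⟫_ℂ‖ := norm_add_le _ _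
    _ ≤ _ := by rw [norm_neg]; linarith

/-- projections which commute with the modular group are fixed by `J` -/
lemma J_proj (hJ : IsConj M ξ U J) (hU : IsModular M ξ U) {p : H →L[ℂ] H} (hp : p ∈ M)
    (hs : star p = p) (hc : ∀ t, U t * p = p * U t) : J (p ξ) = p ξ := by
  have hF : IsAn M U (fun _ => p) := by
    refine ⟨fun _ => hp, fun v => differentiable_const _, fun v => differentiable_const _, ?_,
      fun R => ⟨‖p‖, fun _ _ => le_rfl⟩⟩
    intro t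
    show p = U t * p * star (U t)
    rw [hc, mul_assoc, hU.star_eq, ← hU.add, add_neg_cancel, hU.zero, mul_one]
  have := hJ.an _ hF
  simpa [hs] using this

/-- an operator commutes with the orthogonal projection onto a subspace that reduces it -/
lemma comm_proj (K : Submodule ℂ H) [K.HasOrthogonalProjection] (a : H →L[ℂ] H)
    (h1 : ∀ v ∈ K, a v ∈ K) (h2 : ∀ v ∈ K, star a v ∈ K) :
    a * K.starProjection = K.starProjection * a := by
  have hs : star K.starProjection = K.starProjection :=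
    (isStarProjection_starProjection (U := K)).isSelfAdjoint.star_eq
  have e1 : ∀ c : H →L[ℂ] H, (∀ v ∈ K, c v ∈ K) →
      K.starProjection * c * K.starProjection = c * K.starProjection := by
    intro c hc
    ext v
    simp only [mul_apply_eq_comp]
    exact Submodule.starProjection_eq_self_iff.2 (hc _ (Submodule.starProjection_apply_mem K v))
  have f1 := e1 a h1
  have f2 := congrArg star (e1 (star a) h2)
  simp only [star_mul, star_star, hs] at f2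
  rw [← mul_assoc] at f2
  rw [← f1, f2]

/-- a spectral projection: the closure of the range of `f(b)` -/
lemma spec_proj (hξ : ‖ξ‖ = 1) {b : H →L[ℂ] H} (hb : b ∈ M) (hsa : IsSelfAdjoint b)
    (hU : IsModular M ξ U) (hc : ∀ t, U t * b = b * U t) (f : ℝ → ℝ) (hf : Continuous f) (x₀ : ℝ)
    (hx : x₀ ∈ spectrum ℝ b) (hfx : f x₀ ≠ 0) :
    ∃ p : H →L[ℂ] H, p ∈ M ∧ p * p = p ∧ star p = p ∧ p ≠ 0 ∧ (∀ t, U t * p = p * U t) ∧
      b * p = p * b ∧
      ∀ h : ℝ → ℝ, Continuous h → (∀ x, 0 ≤ f x * h x * f x) → ∀ v, p v = v →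
        0 ≤ (⟪v, cfc h b v⟫_ℂ).re := by
  have : Nontrivial H := ⟨⟨ξ, 0, fun h => by rw [h, norm_zero] at hξ; exact zero_ne_one hξ⟩⟩
  obtain ⟨g, hg⟩ : ∃ g, g = cfc f b := ⟨_, rfl⟩
  have hgs : IsSelfAdjoint g := by rw [hg]; exact cfc_predicate f b
  have hgcomm : ∀ y : H →L[ℂ] H, b * y = y * b → g * y = y * g := by
    intro y hy
    rw [hg]
    exact (Commute.cfc_real (show Commute b y from hy) f).eq
  let R : Submodule ℂ H := LinearMap.range (g : H →ₗ[ℂ] H)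
  let K : Submodule ℂ H := R.topologicalClosure
  have hKcl : IsClosed (K : Set H) := R.isClosed_topologicalClosure
  have : CompleteSpace K := hKcl.completeSpace_coe
  have hRK : ∀ w, g w ∈ K := fun w => R.le_topologicalClosure ⟨w, rfl⟩
  have hinv : ∀ y : H →L[ℂ] H, b * y = y * b → ∀ v ∈ K, y v ∈ K := by
    intro y hy v hv
    have hv' : v ∈ closure (R : Set H) := hv
    have : y v ∈ closure (R : Set H) := by
      refine map_mem_closure y.continuous hv' ?_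
      rintro _ ⟨w, rfl⟩
      refine ⟨y w, ?_⟩
      have := congrArg (fun T : H →L[ℂ] H => T w) (hgcomm y hy)
      simpa using this
    exact this
  have hpK : ∀ y : H →L[ℂ] H, b * y = y * b → b * star y = star y * b →
      y * K.starProjection = K.starProjection * y := fun y h1 h2 =>
    comm_proj K y (hinv y h1) (hinv _ h2)
  have hproj := isStarProjection_starProjection (U := K)
  refine ⟨K.starProjection, ?_, hproj.isIdempotentElem, hproj.isSelfAdjoint.star_eq, ?_, ?_, ?_, ?_⟩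
  · rw [← VonNeumannAlgebra.commutant_commutant M, VonNeumannAlgebra.mem_commutant_iff]
    intro y hy
    have hy2 := star_mem hy
    rw [VonNeumannAlgebra.mem_commutant_iff] at hy hy2
    exact hpK y (hy b hb) (hy2 b hb)
  · intro h0
    have hg0 : g = 0 := by
      ext w
      have := Submodule.starProjection_eq_self_iff.2 (hRK w)
      rw [h0] at this
      simpa using this.symm
    have hsp : f x₀ ∈ spectrum ℝ g := by
      rw [hg, cfc_map_spectrum f b hsa hf.continuousOn]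
      exact ⟨x₀, hx, rfl⟩
    rw [hg0, spectrum.zero_eq] at hsp
    exact hfx hsp
  · intro t
    refine hpK _ (hc t).symm ?_
    rw [hU.star_eq]; exact (hc (-t)).symm
  · exact hpK b rfl (by rw [hsa.star_eq])
  · intro h hh hpos v hv
    have hv' : v ∈ closure (R : Set H) := by
      have : v ∈ K := Submodule.starProjection_eq_self_iff.1 hv
      exact this
    have hcl : IsClosed {v : H | 0 ≤ (⟪v, cfc h b v⟫_ℂ).re} := by
      apply isClosed_le continuous_const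
      exact Complex.continuous_re.comp (continuous_id.inner (cfc h b).continuous)
    refine closure_minimal ?_ hcl hv'
    rintro _ ⟨w, rfl⟩
    have e1 : g * cfc h b * g = cfc (fun x => f x * h x * f x) b := by
      rw [hg, ← cfc_mul f h b hf.continuousOn hh.continuousOn,
        ← cfc_mul _ f b (by fun_prop) hf.continuousOn]
    have e2 : 0 ≤ g * cfc h b * g := by
      rw [e1]; exact cfc_nonneg fun x _ => hpos x
    rw [ContinuousLinearMap.nonneg_iff_isPositive] at e2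
    have e3 := e2.re_inner_nonneg_right w
    have e4 : ⟪w, (g * cfc h b * g) w⟫_ℂ = ⟪g w, cfc h b (g w)⟫_ℂ := by
      simp only [mul_apply_eq_comp]
      rw [← ContinuousLinearMap.adjoint_inner_left, ← ContinuousLinearMap.star_eq_adjoint,
        hgs.star_eq]
    rw [e4] at e3
    exact e3

/-- isometries of scale `t`; isometries onto a projection of the centralizer -/
def HypS (M : VonNeumannAlgebra H) (ξ : H) (J : H → H) : Prop :=
  (∀ t ε : ℝ, 0 < t → t < 1 → 0 < ε → ∃ v, IsScal M ξ J t ε v) ∧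
  (∀ p : H →L[ℂ] H, p ∈ M → p * p = p → star p = p → p ≠ 0 → J (p ξ) = p ξ →
    ∀ ε : ℝ, 0 < ε → ∃ v, IsScal M ξ J (‖p ξ‖ ^ 2) ε v ∧ v * star v = p)

lemma exists_w (hξ : ‖ξ‖ = 1) (hJ : IsConj M ξ U J) (hS : HypS M ξ J) (hsep : IsSeparating M ξ)
    {p q : H →L[ℂ] H} (hp : p ∈ M) (pp : p * p = p) (ps : star p = p) (p0 : p ≠ 0)
    (pJ : J (p ξ) = p ξ) (hq : q ∈ M) (qq : q * q = q) (qs : star q = q) (q0 : q ≠ 0)
    (qJ : J (q ξ) = q ξ) (hpq : ‖p ξ‖ ≤ ‖q ξ‖) {ε : ℝ} (hε : 0 < ε) :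
    ∃ w : H →L[ℂ] H, w ∈ M ∧ star w * w = p ∧ q * w = w ∧ ‖w‖ ≤ 1 ∧
      ‖J (star w ξ) - w ξ‖ ≤ 3 * ε := by
  obtain ⟨v₁, ⟨m1, i1, e1⟩, r1⟩ := hS.2 p hp pp ps p0 pJ ε hε
  obtain ⟨v₂, ⟨m2, i2, e2⟩, r2⟩ := hS.2 q hq qq qs q0 qJ ε hε
  rw [Real.sqrt_sq (norm_nonneg _)] at e1 e2
  have hs1 : 0 < ‖p ξ‖ := by
    rw [norm_pos_iff]
    exact fun h => p0 (hsep p hp h)
  have hs2 : 0 < ‖q ξ‖ := hs1.trans_le hpq
  have hs2' : ‖q ξ‖ ≤ 1 := by
    rw [← r2, mul_apply_eq_comp, norm_of_iso i2, ← hξ]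
    exact norm_star_of_iso i2 ξ
  have hsc : ∃ v : H →L[ℂ] H, v ∈ M ∧ star v * v = 1 ∧
      ‖J (star v ξ) - ((‖p ξ‖ / ‖q ξ‖ : ℝ) : ℂ) • v ξ‖ ≤ ε := by
    rcases hpq.lt_or_eq with h | h
    · have h0 : 0 < ‖p ξ‖ / ‖q ξ‖ := by positivity
      have h1 : ‖p ξ‖ / ‖q ξ‖ < 1 := (div_lt_one hs2).2 h
      obtain ⟨v, mv, iv, ev⟩ := hS.1 ((‖p ξ‖ / ‖q ξ‖) ^ 2) ε (by positivity)
        (by nlinarith) hε
      rw [Real.sqrt_sq h0.le] at ev
      exact ⟨v, mv, iv, ev⟩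
    · refine ⟨1, one_mem _, by simp, ?_⟩
      rw [h, div_self hs2.ne']
      simp [hJ.fix, hε.le]
  obtain ⟨v, mv, iv, ev⟩ := hsc
  have ww : star (v₂ * v * star v₁) * (v₂ * v * star v₁) = p := by
    calc star (v₂ * v * star v₁) * (v₂ * v * star v₁)
        = v₁ * (star v * (star v₂ * v₂) * v) * star v₁ := by
          simp only [star_mul, star_star, mul_assoc]
      _ = p := by rw [i2, mul_one, iv, mul_one, r1]
  refine ⟨v₂ * v * star v₁, mul_mem (mul_mem m2 mv) (star_mem m1), ww, ?_, ?_, ?_⟩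
  · calc q * (v₂ * v * star v₁) = v₂ * (star v₂ * v₂) * v * star v₁ := by
          rw [← r2]; simp only [mul_assoc]
      _ = _ := by rw [i2, mul_one]
  · have a1 := opnorm_of_iso i1
    have a2 := opnorm_of_iso i2
    have a := opnorm_of_iso iv
    calc ‖v₂ * v * star v₁‖ ≤ ‖v₂‖ * ‖v‖ * ‖star v₁‖ :=
          (norm_mul_le _ _).trans (by gcongr; exact norm_mul_le _ _)
      _ ≤ 1 * 1 * 1 := by rw [norm_star]; gcongr
      _ = 1 := by norm_num
  · have hss : ‖q ξ‖ * (‖p ξ‖ / ‖q ξ‖) = ‖p ξ‖ := by field_simp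
    refine (comp_scal hJ m1 m2 mv i1 i2 iv hs2.le hss e1 e2 ev).trans ?_
    gcongr
    linarith

/-- the key estimate -/
lemma key_w (hξ : ‖ξ‖ = 1) (hJ : IsConj M ξ U J) (hS : HypS M ξ J) (hsep : IsSeparating M ξ)
    {b : H →L[ℂ] H} (hseq : ∀ w : ℕ → H →L[ℂ] H, (∀ n, w n ∈ M) → (∀ n, ‖w n‖ ≤ 1) →
      Tendsto (fun n => ‖J (star (w n) ξ) - w n ξ‖) atTop (𝓝 0) →
      Tendsto (fun n => (w n * b - b * w n) ξ) atTop (𝓝 0))
    {p q : H →L[ℂ] H} (hp : p ∈ M) (pp : p * p = p) (ps : star p = p) (p0 : p ≠ 0)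
    (pJ : J (p ξ) = p ξ) (pb : b * p = p * b) (hq : q ∈ M) (qq : q * q = q) (qs : star q = q)
    (q0 : q ≠ 0) (qJ : J (q ξ) = q ξ) (hpq : ‖p ξ‖ ≤ ‖q ξ‖) {d : ℝ} (hd : 0 < d) :
    ∃ v : H, q v = v ∧ ‖v‖ = ‖p ξ‖ ∧ |(⟪p ξ, b (p ξ)⟫_ℂ).re - (⟪v, b v⟫_ℂ).re| < d := by
  have hw := fun n : ℕ => exists_w hξ hJ hS hsep hp pp ps p0 pJ hq qq qs q0 qJ hpq
    (show (0 : ℝ) < 1 / ((n : ℝ) + 1) by positivity)
  choose w w1 w2 w3 w4 w5 using hw
  have hlim : Tendsto (fun n => ‖J (star (w n) ξ) - w n ξ‖) atTop (𝓝 0) := by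
    refine squeeze_zero (fun n => norm_nonneg _) w5 ?_
    have := (tendsto_one_div_add_atTop_nhds_zero_nat (𝕜 := ℝ)).const_mul 3
    simpa using this
  have h1 := hseq w w1 w4 hlim
  rw [tendsto_zero_iff_norm_tendsto_zero] at h1
  obtain ⟨n, hn⟩ := ((tendsto_order.1 h1).2 d hd).exists
  refine ⟨w n ξ, ?_, ?_, ?_⟩
  · rw [← mul_apply_eq_comp, w3]
  · have e1 : ⟪w n ξ, w n ξ⟫_ℂ = ⟪p ξ, p ξ⟫_ℂ := by
      calc ⟪w n ξ, w n ξ⟫_ℂ = ⟪star (w n) (w n ξ), ξ⟫_ℂ := by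
            rw [ContinuousLinearMap.star_eq_adjoint, ContinuousLinearMap.adjoint_inner_left]
        _ = ⟪p ξ, ξ⟫_ℂ := by rw [← mul_apply_eq_comp, w2]
        _ = ⟪star p (p ξ), ξ⟫_ℂ := by rw [ps, ← mul_apply_eq_comp, pp]
        _ = _ := by
            rw [ContinuousLinearMap.star_eq_adjoint, ContinuousLinearMap.adjoint_inner_left]
    rw [inner_self_eq_norm_sq_to_K, inner_self_eq_norm_sq_to_K] at e1
    have h2 : ‖w n ξ‖ ^ 2 = ‖p ξ‖ ^ 2 := by exact_mod_cast e1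
    exact (pow_left_inj₀ (norm_nonneg _) (norm_nonneg _) two_ne_zero).1 h2
  · have e2 : ⟪w n ξ, (w n * b - b * w n) ξ⟫_ℂ = ⟪p ξ, b (p ξ)⟫_ℂ - ⟪w n ξ, b (w n ξ)⟫_ℂ := by
      have : ⟪w n ξ, w n (b ξ)⟫_ℂ = ⟪p ξ, b (p ξ)⟫_ℂ := by
        calc ⟪w n ξ, w n (b ξ)⟫_ℂ = ⟪star (w n) (w n ξ), b ξ⟫_ℂ := by
              rw [ContinuousLinearMap.star_eq_adjoint, ContinuousLinearMap.adjoint_inner_left]
          _ = ⟪p ξ, b ξ⟫_ℂ := by rw [← mul_apply_eq_comp, w2]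
          _ = ⟪star p (p ξ), b ξ⟫_ℂ := by rw [ps, ← mul_apply_eq_comp, pp]
          _ = ⟪p ξ, p (b ξ)⟫_ℂ := by
              rw [ContinuousLinearMap.star_eq_adjoint, ContinuousLinearMap.adjoint_inner_left]
          _ = _ := by rw [← mul_apply_eq_comp p b, ← pb, mul_apply_eq_comp]
      rw [sub_apply, mul_apply_eq_comp, mul_apply_eq_comp, inner_sub_right, this]
    rw [← Complex.sub_re, ← e2]
    calc |(⟪w n ξ, (w n * b - b * w n) ξ⟫_ℂ).re| ≤ ‖⟪w n ξ, (w n * b - b * w n) ξ⟫_ℂ‖ :=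
          Complex.abs_re_le_norm _
      _ ≤ ‖w n ξ‖ * ‖(w n * b - b * w n) ξ‖ := norm_inner_le_norm _ _
      _ ≤ 1 * ‖(w n * b - b * w n) ξ‖ := by
          gcongr
          calc ‖w n ξ‖ ≤ ‖w n‖ * ‖ξ‖ := (w n).le_opNorm ξ
            _ ≤ 1 * 1 := by rw [hξ]; gcongr; exact w4 n
            _ = 1 := one_mul 1
      _ < d := by rw [one_mul]; exact hn

/-- the selfadjoint case -/
lemma main_sa (hξ : ‖ξ‖ = 1) (hU : IsModular M ξ U) (hJ : IsConj M ξ U J) (hS : HypS M ξ J)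
    (hsep : IsSeparating M ξ) {b : H →L[ℂ] H} (hb : b ∈ M) (hsa : IsSelfAdjoint b)
    (hc : ∀ t, U t * b = b * U t)
    (hseq : ∀ w : ℕ → H →L[ℂ] H, (∀ n, w n ∈ M) → (∀ n, ‖w n‖ ≤ 1) →
      Tendsto (fun n => ‖J (star (w n) ξ) - w n ξ‖) atTop (𝓝 0) →
      Tendsto (fun n => (w n * b - b * w n) ξ) atTop (𝓝 0)) :
    ∃ c : ℂ, b = c • (1 : H →L[ℂ] H) := by
  have : Nontrivial H := ⟨⟨ξ, 0, fun h => by rw [h, norm_zero] at hξ; exact zero_ne_one hξ⟩⟩
  by_contra hcon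
  have hex : ∃ x₁ ∈ spectrum ℝ b, ∃ x₂ ∈ spectrum ℝ b, x₂ < x₁ := by
    by_contra hno
    push Not at hno
    obtain ⟨x, hx⟩ := ContinuousFunctionalCalculus.spectrum_nonempty (R := ℝ) b hsa
    apply hcon
    refine ⟨(x : ℂ), ?_⟩
    have hsub : spectrum ℝ b ⊆ {x} := fun y hy =>
      le_antisymm (hno x hx y hy) (hno y hy x hx) ▸ rfl
    have := CFC.eq_algebraMap_of_spectrum_subset_singleton b x hsub hsa
    rw [this]
    ext v
    simp [Algebra.algebraMap_eq_smul_one]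
  obtain ⟨x₁, hx₁, x₂, hx₂, hlt⟩ := hex
  obtain ⟨c₁, hc₁⟩ : ∃ c, c = (2 * x₁ + x₂) / 3 := ⟨_, rfl⟩
  obtain ⟨c₂, hc₂⟩ : ∃ c, c = (x₁ + 2 * x₂) / 3 := ⟨_, rfl⟩
  have hcc : c₂ < c₁ := by rw [hc₁, hc₂]; linarith
  obtain ⟨p, hp, pp, ps, p0, pU, pb, pos⟩ := spec_proj hξ hb hsa hU hc
    (fun x => max (x - c₁) 0) (by fun_prop) x₁ hx₁ (by
      have : 0 < x₁ - c₁ := by rw [hc₁]; linarith
      show max (x₁ - c₁) 0 ≠ 0
      rw [max_eq_left this.le]; exact this.ne')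
  obtain ⟨q, hq, qq, qs, q0, qU, qb, qos⟩ := spec_proj hξ hb hsa hU hc
    (fun x => max (c₂ - x) 0) (by fun_prop) x₂ hx₂ (by
      have : 0 < c₂ - x₂ := by rw [hc₂]; linarith
      show max (c₂ - x₂) 0 ≠ 0
      rw [max_eq_left this.le]; exact this.ne')
  have pJ := J_proj hJ hU hp ps pU
  have qJ := J_proj hJ hU hq qs qU
  have pos' : ∀ v, p v = v → c₁ * ‖v‖ ^ 2 ≤ (⟪v, b v⟫_ℂ).re := by
    intro v hv
    have := pos (fun x => x - c₁) (by fun_prop) (fun x => by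
      rcases le_total (x - c₁) 0 with h | h
      · simp [max_eq_right h]
      · simp only [max_eq_left h]; positivity) v hv
    rw [cfc_sub (fun x => x) (fun _ => c₁) b, cfc_id' ℝ b, cfc_const c₁ b, sub_apply,
      inner_sub_right, Complex.sub_re] at this
    have e : (⟪v, (algebraMap ℝ (H →L[ℂ] H) c₁) v⟫_ℂ).re = c₁ * ‖v‖ ^ 2 := by
      have : (algebraMap ℝ (H →L[ℂ] H) c₁) v = (c₁ : ℂ) • v := by
        simp [Algebra.algebraMap_eq_smul_one]
      rw [this, inner_smul_right, inner_self_eq_norm_sq_to_K]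
      norm_cast
      rw [Complex.re_ofReal_mul]
      rfl
    rw [e] at this
    linarith
  have qos' : ∀ v, q v = v → (⟪v, b v⟫_ℂ).re ≤ c₂ * ‖v‖ ^ 2 := by
    intro v hv
    have := qos (fun x => c₂ - x) (by fun_prop) (fun x => by
      rcases le_total (c₂ - x) 0 with h | h
      · simp [max_eq_right h]
      · simp only [max_eq_left h]; positivity) v hv
    rw [cfc_sub (fun _ => c₂) (fun x => x) b, cfc_id' ℝ b, cfc_const c₂ b, sub_apply,
      inner_sub_right, Complex.sub_re] at this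
    have e : (⟪v, (algebraMap ℝ (H →L[ℂ] H) c₂) v⟫_ℂ).re = c₂ * ‖v‖ ^ 2 := by
      have : (algebraMap ℝ (H →L[ℂ] H) c₂) v = (c₂ : ℂ) • v := by
        simp [Algebra.algebraMap_eq_smul_one]
      rw [this, inner_smul_right, inner_self_eq_norm_sq_to_K]
      norm_cast
      rw [Complex.re_ofReal_mul]
      rfl
    rw [e] at this
    linarith
  have hpξ : p (p ξ) = p ξ := by rw [← mul_apply_eq_comp, pp]
  have hqξ : q (q ξ) = q ξ := by rw [← mul_apply_eq_comp, qq]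
  rcases le_total ‖p ξ‖ ‖q ξ‖ with hle | hle
  · have hpos : 0 < ‖p ξ‖ := by
      rw [norm_pos_iff]
      exact fun h => p0 (hsep p hp h)
    have hd : 0 < (c₁ - c₂) * ‖p ξ‖ ^ 2 := mul_pos (by linarith) (by positivity)
    obtain ⟨v, hv, hvn, hvd⟩ := key_w hξ hJ hS hsep hseq hp pp ps p0 pJ pb hq qq qs q0 qJ hle hd
    have a1 := pos' _ hpξ
    have a2 := qos' v hv
    rw [hvn] at a2
    have := (abs_lt.1 hvd).2
    linarith
  · have hpos : 0 < ‖q ξ‖ := by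
      rw [norm_pos_iff]
      exact fun h => q0 (hsep q hq h)
    have hd : 0 < (c₁ - c₂) * ‖q ξ‖ ^ 2 := mul_pos (by linarith) (by positivity)
    obtain ⟨v, hv, hvn, hvd⟩ := key_w hξ hJ hS hsep hseq hq qq qs q0 qJ qb hp pp ps p0 pJ hle hd
    have a1 := qos' _ hqξ
    have a2 := pos' v hv
    rw [hvn] at a2
    have := (abs_lt.1 hvd).1
    linarith

theorem fix_thm : S_fix := by
  intro H _ _ _ M ξ U J hξ hU hcyc hsep hJ hIII hS1 hS2 b hb hfix
  have hbM := hb.1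
  have hcU : ∀ t, U t * b = b * U t := by
    intro t
    have h1 : sgm U t b = b := by
      have hm := hU.mem t b hbM
      have h0 : (sgm U t b - b) ξ = 0 := by
        have : star (U t) ξ = ξ := by rw [hU.star_eq, hU.fix]
        rw [sub_apply]
        simp only [sgm, mul_apply_eq_comp]
        rw [this, hfix, sub_self]
      exact sub_eq_zero.1 (hsep _ (sub_mem hm hbM) h0)
    have h2 : star (U t) * U t = 1 := by
      rw [hU.star_eq, ← hU.add, neg_add_cancel, hU.zero]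
    calc U t * b = U t * b * (star (U t) * U t) := by rw [h2, mul_one]
      _ = sgm U t b * U t := by simp only [sgm, mul_assoc]
      _ = b * U t := by rw [h1]
  have hcU' : ∀ t, U t * star b = star b * U t := by
    intro t
    have := congrArg star (hcU (-t))
    rw [star_mul, star_mul, hU.star_eq, neg_neg] at this
    exact this.symm
  -- the two limits
  have hlim : ∀ w : ℕ → H →L[ℂ] H, (∀ n, w n ∈ M) → (∀ n, ‖w n‖ ≤ 1) →
      Tendsto (fun n => ‖J (star (w n) ξ) - w n ξ‖) atTop (𝓝 0) →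
      Tendsto (fun n => (w n * b - b * w n) ξ) atTop (𝓝 0) ∧
      Tendsto (fun n => (w n * star b - star b * w n) ξ) atTop (𝓝 0) := by
    intro w w1 w2 w3
    have w3' : Tendsto (fun n => 2 * ‖J (star (w n) ξ) - w n ξ‖) atTop (𝓝 0) := by
      simpa using w3.const_mul 2
    constructor
    · refine (hb.2 w w1 ⟨1, w2⟩ ?_ ξ).1
      exact squeeze_zero (fun n => commNorm_nonneg _) (fun n => commNorm_le hξ hJ (w1 n)) w3'
    · have h := (hb.2 (fun n => star (w n)) (fun n => star_mem (w1 n))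
        ⟨1, fun n => by rw [norm_star]; exact w2 n⟩ ?_ ξ).2
      · have h' := h.neg
        rw [neg_zero] at h'
        refine h'.congr fun n => ?_
        rw [star_sub, star_mul, star_mul, star_star]
        simp only [sub_apply, neg_sub]
      · refine squeeze_zero (fun n => commNorm_nonneg _)
          (fun n => (commNorm_le hξ hJ (star_mem (w1 n))).trans ?_) w3'
        rw [star_defect hJ]
  have hS : HypS M ξ J := ⟨hS1, hS2⟩
  -- real part
  obtain ⟨c, hc⟩ := main_sa hξ hU hJ hS hsep (b := b + star b) (add_mem hbM (star_mem hbM))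
    (by rw [IsSelfAdjoint, star_add, star_star, add_comm])
    (fun t => by rw [mul_add, add_mul, hcU, hcU'])
    (fun w w1 w2 w3 => by
      obtain ⟨l1, l2⟩ := hlim w w1 w2 w3
      have := l1.add l2
      rw [add_zero] at this
      refine this.congr fun n => ?_
      rw [← add_apply]
      congr 1
      noncomm_ring)
  have hI : ∀ x : H →L[ℂ] H, x ∈ M → (I : ℂ) • x ∈ M := fun x hx =>
    M.toStarSubalgebra.smul_mem (x := x) hx I
  obtain ⟨c', hc'⟩ := main_sa hξ hU hJ hS hsep (b := (I : ℂ) • (b - star b))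
    (hI _ (sub_mem hbM (star_mem hbM)))
    (by
      rw [IsSelfAdjoint, star_smul, star_sub, star_star]
      simp only [Complex.star_def, Complex.conj_I, neg_smul]
      rw [← smul_neg, neg_sub])
    (fun t => by rw [mul_smul_comm, smul_mul_assoc, mul_sub, sub_mul, hcU, hcU'])
    (fun w w1 w2 w3 => by
      obtain ⟨l1, l2⟩ := hlim w w1 w2 w3
      have := (l1.sub l2).const_smul (I : ℂ)
      rw [sub_zero, smul_zero] at this
      refine this.congr fun n => ?_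
      rw [← sub_apply, ← smul_apply]
      congr 1
      rw [mul_smul_comm, smul_mul_assoc, ← smul_sub]
      congr 1
      noncomm_ring)
  refine ⟨(c - I * c') / 2, ?_⟩
  have e1 : b - star b = (-(I * c')) • (1 : H →L[ℂ] H) := by
    have : (-I : ℂ) • ((I : ℂ) • (b - star b)) = b - star b := by
      rw [smul_smul]; simp
    rw [← this, hc', smul_smul, neg_mul]
  have e2 : (2 : ℂ) • b = (b + star b) + (b - star b) := by
    rw [two_smul]; abel
  have e3 : b = (2 : ℂ)⁻¹ • ((2 : ℂ) • b) := by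
    rw [smul_smul]; norm_num
  rw [e3, e2, hc, e1, ← add_smul, smul_smul]
  congr 1
  ring

end Pool.Agent.H255.BC.T_fix

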