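import Pool.Agent.H255.BC.Defs

set_option autoImplicit false

open MeasureTheory Filter Topology Complex
open scoped InnerProductSpace ENNReal FourierTransform

namespace Pool.Agent.H255.BC.T_inv

open Pool.Agent.W662.CB Pool.Agent.H255.BC

section aux

variable {H : Type} [NormedAddCommGroup H] [InnerProductSpace ℂ H] [CompleteSpace H]

/-- the adjoint family is analytic -/
theorem isAn_star {M : VonNeumannAlgebra H} {U : ℝ → H →L[ℂ] H} {F : ℂ → H →L[ℂ] H}
    (hF : IsAn M U F) : IsAn M U (fun z => star (F (starRingEnd ℂ z))) where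
  mem z := star_mem (hF.mem _)
  diff v := hF.diff' v
  diff' v := by
    have := hF.diff v
    simpa using this
  ext t := by
    have h0 : (starRingEnd ℂ) (0 : ℂ) = 0 := by simp
    have h1 : (starRingEnd ℂ) (t : ℂ) = (t : ℂ) := Complex.conj_ofReal t
    simp only [h0, h1]
    rw [hF.ext t]
    simp only [sgm, star_mul, star_star, mul_assoc]
  bdd R := by
    obtain ⟨C, hC⟩ := hF.bdd R
    refine ⟨C, fun z hz => ?_⟩
    rw [norm_star]
    apply hC
    simpa using hz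

/-- the integral of a function with values in a closed subspace -/
theorem integral_mem_closed {K : Submodule ℂ H} (hK : IsClosed (K : Set H)) {f : ℝ → H}
    (hf : ∀ s, f s ∈ K) : ∫ s, f s ∈ K := by
  by_cases hi : Integrable f volume
  · have : CompleteSpace K := hK.completeSpace_coe
    have h2 : (∫ s, f s) ∈ Kᗮᗮ := by
      rw [Submodule.mem_orthogonal]
      intro w hw
      rw [← integral_inner hi w]
      have : ∀ s, ⟪w, f s⟫_ℂ = 0 := fun s => by
        have := (Submodule.mem_orthogonal K w).1 hw (f s) (hf s)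
        rw [← inner_conj_symm, this]; simp
      simp [this]
    rwa [Submodule.orthogonal_orthogonal] at h2
  · rw [integral_undef hi]; exact K.zero_mem

theorem psi_mem_closed {K : Submodule ℂ H} (hK : IsClosed (K : Set H)) {U : ℝ → H →L[ℂ] H}
    (hU : ∀ (t : ℝ) (v : H), v ∈ K → U t v ∈ K) (g : ℝ → ℂ) {v : H} (hv : v ∈ K) :
    psi U g v ∈ K := by
  unfold psi
  exact integral_mem_closed hK fun s => K.smul_mem _ (hU _ _ hv)

end aux

/-- products of a test function with an exponential -/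
theorem tst_exp (h : ℝ → ℂ) (hh : Tst h) (z : ℂ) : Tst (fun κ : ℝ => cexp (I * z * κ) * h κ) := by
  refine ⟨?_, ?_⟩
  · refine ContDiff.mul ?_ hh.1
    refine ContDiff.cexp ?_
    exact contDiff_const.mul Complex.ofRealCLM.contDiff
  · exact hh.2.mul_left

theorem tst_refl (h : ℝ → ℂ) (hh : Tst h) : Tst (fun κ : ℝ => starRingEnd ℂ (h (-κ))) := by
  refine ⟨?_, ?_⟩
  · have h1 : ContDiff ℝ (⊤ : ℕ∞) (fun κ : ℝ => h (-κ)) := hh.1.comp contDiff_neg
    exact Complex.conjCLE.contDiff.comp h1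
  · have h1 : HasCompactSupport (fun κ : ℝ => h (-κ)) := by
      have := hh.2.comp_homeomorph (Homeomorph.neg ℝ)
      exact this
    exact h1.comp_left (g := fun z : ℂ => starRingEnd ℂ z) (by simp)

theorem claimA (h2 : S_psi_sum) (h5 : S_phi) (h6 : S_q) (h7 : S_KK) (h8 : S_bic) (h9 : S_main)
    (h10 : S_low) (H : Type) [NormedAddCommGroup H] [InnerProductSpace ℂ H] [CompleteSpace H]
    (M : VonNeumannAlgebra H) (ξ : H) (U : ℝ → H →L[ℂ] H) (J : H → H)
    (hξ : ‖ξ‖ = 1) (hM : IsModular M ξ U) (hJ : IsConj M ξ U J)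
    (hsc : ∀ t ε : ℝ, 0 < t → t < 1 → 0 < ε → ∃ v, IsScal M ξ J t ε v)
    (b : H →L[ℂ] H) (hb : b ∈ relBicentralizer M M ξ) (h : ℝ → ℂ) (hh : Tst h)
    (hc : ∃ c : ℝ, 0 < c ∧ ∀ κ, κ < c → h κ = 0) : psi U h (b ξ) = 0 := by
  obtain ⟨κ₁, hκ₁, hh0⟩ := hc
  have hid : ∀ x : H →L[ℂ] H, x ∈ M → x ∈ M := fun x hx => hx
  obtain ⟨R, hR⟩ := hh.2.isCompact.isBounded.subset_closedBall (0 : ℝ)
  set κ₂ : ℝ := max (κ₁ + 1) R with hκ₂
  have h12 : κ₁ < κ₂ := lt_of_lt_of_le (by linarith) (le_max_left _ _)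
  have hh1 : ∀ κ, κ₂ < κ → h κ = 0 := by
    intro κ hκ
    by_contra hne
    have : κ ∈ tsupport h := subset_tsupport _ hne
    have := hR this
    rw [Metric.mem_closedBall, dist_zero_right, Real.norm_eq_abs] at this
    have h3 : R ≤ κ₂ := le_max_right _ _
    have h4 : κ ≤ |κ| := le_abs_self _
    linarith
  obtain ⟨F, hF, hFξ, hFξ'⟩ := h5 H M ξ U hM h hh b hb.1
  set n := F 0 with hn
  have hnM : n ∈ M := hF.mem 0
  have e1 : n ξ = psi U h (b ξ) := by
    rw [hn, hFξ 0]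
    congr 1
    funext κ
    simp
  have e2 : J (star n ξ) = psi U (fun κ => cexp (I * (-(I / 2)) * κ) * h κ) (b ξ) := by
    have h3 := hJ.an _ (isAn_star hF)
    simp only [map_zero, star_star] at h3
    rw [hn, h3]
    have h4 : (starRingEnd ℂ) (I / 2) = -(I / 2) := by
      rw [map_div₀, Complex.conj_I]
      have : (starRingEnd ℂ) (2 : ℂ) = 2 := Complex.conj_ofNat 2
      rw [this]; ring
    rw [h4, hFξ]
  obtain ⟨τ, c, q, hτ, hq, hqs⟩ := h6 κ₁ κ₂ hκ₁ h12
  have hqn : Summable (fun k : ℤ => ‖q k‖) := by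
    refine Summable.of_nonneg_of_le (fun k => norm_nonneg _) (fun k => ?_) hq.summable
    have : 0 ≤ |(k : ℝ)| * ‖q k‖ := by positivity
    nlinarith
  have hsum : HasSum (fun k : ℤ => q k • U ((k : ℝ) * τ) (n ξ)) (J (star n ξ)) := by
    rw [e1, e2]
    refine h2 H M ξ U hM h (fun κ => cexp (I * (-(I / 2)) * κ) * h κ) hh (tst_exp h hh _) τ q hqn
      ?_ (b ξ)
    intro κ
    by_cases h3 : κ₁ ≤ κ ∧ κ ≤ κ₂
    · rw [(hqs κ h3.1 h3.2).tsum_eq]
      congr 1
      rw [Complex.ofReal_exp]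
      congr 1
      push_cast
      linear_combination (-(κ : ℂ) / 2) * Complex.I_mul_I
    · have : h κ = 0 := by
        by_cases h4 : κ₁ ≤ κ
        · exact hh1 κ (lt_of_not_ge fun h5 => h3 ⟨h4, h5⟩)
        · exact hh0 κ (lt_of_not_ge h4)
      rw [this]; simp
  -- `n^* ξ` lies in `𝒦`
  obtain ⟨-, -, hbs⟩ := h8 H M M ξ U J hid hξ hJ b hb
  obtain ⟨K, hK, hKc, -, hKU, -⟩ := h7 H M M ξ U J hid hM hJ hM.mem
  have hmem : star n ξ ∈ KK M ξ J := by
    have h3 : star b ξ ∈ K := by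
      have : star b ξ ∈ (K : Set H) := by rw [hK]; exact hbs
      exact this
    have h4 : star n ξ ∈ K := by
      rw [hn, hFξ' 0]
      exact psi_mem_closed hKc hKU _ h3
    rw [← hK]; exact h4
  have i1 := h9 H M M ξ U J hid hM hJ hM.mem hsc τ c q hq n hnM hsum (star n ξ) hmem
  have i2 := h10 H M M ξ U J hid hM hJ hM.mem τ c q hq n hnM hsum
  have i3 : ‖star n ξ‖ * ‖star n ξ‖ ≤ ‖n ξ‖ * ‖star n ξ‖ := by
    have : ‖⟪star n ξ, star n ξ⟫_ℂ‖ = ‖star n ξ‖ * ‖star n ξ‖ := by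
      rw [← inner_self_re_eq_norm, inner_self_eq_norm_mul_norm]
    rwa [this] at i1
  rw [← e1]
  by_contra hne
  have p1 : 0 < ‖n ξ‖ := norm_pos_iff.2 hne
  have p2 : ‖n ξ‖ < c * ‖n ξ‖ := by nlinarith [hq.one]
  have p3 : ‖n ξ‖ < ‖star n ξ‖ := lt_of_lt_of_le p2 i2
  nlinarith

theorem inv_thm (h1 : S_psi) (h2 : S_psi_sum) (h3 : S_psi_one) (h4 : S_psi_inv) (h5 : S_phi) (h6 : S_q) (h7 : S_KK) (h8 : S_bic) (h9 : S_main) (h10 : S_low) : S_inv := by
  intro H _ _ _ M ξ U J hξ hM hJ hsc b hb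
  have hid : ∀ x : H →L[ℂ] H, x ∈ M → x ∈ M := fun x hx => hx
  obtain ⟨hb', -, -⟩ := h8 H M M ξ U J hid hξ hJ b hb
  refine h4 H M ξ U hM (b ξ) ?_ ?_
  · intro h hh hc
    exact claimA h2 h5 h6 h7 h8 h9 h10 H M ξ U J hξ hM hJ hsc b hb h hh hc
  · intro h hh hc
    obtain ⟨c, hc0, hc1⟩ := hc
    obtain ⟨F, hF, hFξ, hFξ'⟩ := h5 H M ξ U hM h hh b hb.1
    have e1 : F 0 ξ = psi U h (b ξ) := by
      rw [hFξ 0]
      congr 1
      funext κ
      simp
    have e2 : J (F 0 ξ) = 0 := by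
      rw [hJ.an F hF, hFξ']
      refine claimA h2 h5 h6 h7 h8 h9 h10 H M ξ U J hξ hM hJ hsc (star b) hb' _ ?_ ?_
      · exact tst_refl (fun κ : ℝ => cexp (I * (I / 2) * κ) * h κ) (tst_exp h hh (I / 2))
      · refine ⟨c, hc0, fun κ hκ => ?_⟩
        rw [hc1 (-κ) (by linarith)]
        simp
    have e3 : J 0 = 0 := by
      have := hJ.smul 0 0
      simpa using this
    rw [← e1, ← hJ.inv (F 0 ξ), e2, e3]

end Pool.Agent.H255.BC.T_inv
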