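import Pool.Agent.H255.BC.Defs

set_option autoImplicit false

open MeasureTheory Filter Topology Complex
open scoped InnerProductSpace ENNReal FourierTransform

namespace Pool.Agent.H255.BC.T_low

open Pool.Agent.W662.CB Pool.Agent.H255.BC

theorem low_thm (h : S_split) : S_low := by
  intro H _ _ _ M N ξ U J hNM hU hJ hN τ c q hq n hn hsum
  obtain ⟨C, hC, hs⟩ := h H M N ξ U J hNM hU hJ hN τ c q hq
  have hc : 0 < c := lt_trans one_pos hq.one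
  have hJn : ∀ v, ‖J v‖ = ‖v‖ := by
    intro v
    have h1 := hJ.inner v v
    rw [inner_self_eq_norm_sq_to_K, inner_self_eq_norm_sq_to_K] at h1
    have h2 : ‖J v‖ ^ 2 = ‖v‖ ^ 2 := by exact_mod_cast h1
    exact (pow_left_inj₀ (norm_nonneg _) (norm_nonneg _) two_ne_zero).1 h2
  have key : ∀ r : ℕ, 2 ≤ r →
      ‖n ξ‖ ^ 2 ≤ Real.sqrt (C / r) * ‖n ξ‖ ^ 2 + c⁻¹ * (‖star n ξ‖ * ‖n ξ‖) := by
    intro r hr
    obtain ⟨θ, t, P, e, h1, h2, h3, h4, h5, h6⟩ := hs r hr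
    obtain ⟨m, m1, m2, m3, m4, m5⟩ := h6 n hn
    have h7 := m5 hsum
    have hr0 : (0 : ℝ) < r := by
      have : 0 < r := by omega
      exact_mod_cast this
    set w : Fin r → H := fun i => m i ξ - ((Real.sqrt (t i) : ℝ) : ℂ) • J (star (m i) ξ) with hw
    have e1 : ⟪n ξ, n ξ⟫_ℂ = ∑ i, ⟪w i, n ξ⟫_ℂ +
        ∑ i, ⟪((Real.sqrt (t i) : ℝ) : ℂ) • J (star (m i) ξ), n ξ⟫_ℂ := by
      have h8 : n ξ = ∑ i, m i ξ := by
        rw [← m2]
        simp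
      rw [← Finset.sum_add_distrib]
      generalize n ξ = y at h8 ⊢
      conv_lhs => rw [h8]
      rw [sum_inner]
      refine Finset.sum_congr rfl fun i _ => ?_
      rw [← inner_add_left, hw]
      simp only [sub_add_cancel]
      rw [← h8]
    have e2 : ‖n ξ‖ ^ 2 ≤ ∑ i, ‖w i‖ * ‖n ξ‖ +
        ∑ i, ‖⟪((Real.sqrt (t i) : ℝ) : ℂ) • J (star (m i) ξ), n ξ⟫_ℂ‖ := by
      have h8 : ‖⟪n ξ, n ξ⟫_ℂ‖ = ‖n ξ‖ ^ 2 := by
        rw [inner_self_eq_norm_sq_to_K]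
        simp
      rw [← h8, e1]
      refine (norm_add_le _ _).trans (add_le_add ?_ (norm_sum_le _ _))
      exact (norm_sum_le _ _).trans (Finset.sum_le_sum fun i _ => norm_inner_le_norm _ _)
    have e3 : ∑ i, ‖w i‖ * ‖n ξ‖ ≤ Real.sqrt (C / r) * ‖n ξ‖ ^ 2 := by
      rw [← Finset.sum_mul]
      have h8 : (∑ i, ‖w i‖) ^ 2 ≤ (Real.sqrt (C / r) * ‖n ξ‖) ^ 2 := by
        refine sq_sum_le_card_mul_sum_sq.trans ?_
        rw [Finset.card_univ, Fintype.card_fin, mul_pow, Real.sq_sqrt (by positivity)]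
        calc (r : ℝ) * ∑ i, ‖w i‖ ^ 2 ≤ r * (C * ‖n ξ‖ ^ 2 / (r : ℝ) ^ 2) :=
              mul_le_mul_of_nonneg_left h7 hr0.le
          _ = C / r * ‖n ξ‖ ^ 2 := by field_simp
      have h9 : ∑ i, ‖w i‖ ≤ Real.sqrt (C / r) * ‖n ξ‖ :=
        le_of_sq_le_sq h8 (by positivity)
      calc (∑ i, ‖w i‖) * ‖n ξ‖ ≤ (Real.sqrt (C / r) * ‖n ξ‖) * ‖n ξ‖ :=
            mul_le_mul_of_nonneg_right h9 (norm_nonneg _)
        _ = _ := by ring
    have e4 : ∑ i, ‖⟪((Real.sqrt (t i) : ℝ) : ℂ) • J (star (m i) ξ), n ξ⟫_ℂ‖ ≤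
        c⁻¹ * (‖star n ξ‖ * ‖n ξ‖) := by
      have h8 : ∀ i, ‖⟪((Real.sqrt (t i) : ℝ) : ℂ) • J (star (m i) ξ), n ξ⟫_ℂ‖ ≤
          c⁻¹ * (‖P i (J (star n ξ))‖ * ‖P i (n ξ)‖) := by
        intro i
        obtain ⟨t0, t1, t2⟩ := h1 i
        rw [m4 i, inner_smul_left, ContinuousLinearMap.star_eq_adjoint,
          ContinuousLinearMap.adjoint_inner_left, norm_mul, Complex.conj_ofReal,
          Complex.norm_real, Real.norm_eq_abs, abs_of_nonneg (Real.sqrt_nonneg _)]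
        have h9 : Real.sqrt (t i) ≤ c⁻¹ := by
          rw [inv_eq_one_div, le_div_iff₀ hc]
          exact t2
        exact mul_le_mul h9 (norm_inner_le_norm _ _) (norm_nonneg _) (by positivity)
      refine (Finset.sum_le_sum fun i _ => h8 i).trans ?_
      rw [← Finset.mul_sum]
      refine mul_le_mul_of_nonneg_left ?_ (by positivity)
      refine (Real.sum_mul_le_sqrt_mul_sqrt _ _ _).trans ?_
      rw [h4, h4, Real.sqrt_sq (norm_nonneg _), Real.sqrt_sq (norm_nonneg _), hJn]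
    exact e2.trans (add_le_add e3 e4)
  have hlim : Tendsto (fun r : ℕ => Real.sqrt (C / r) * ‖n ξ‖ ^ 2 +
      c⁻¹ * (‖star n ξ‖ * ‖n ξ‖)) atTop (𝓝 (0 * ‖n ξ‖ ^ 2 + c⁻¹ * (‖star n ξ‖ * ‖n ξ‖))) := by
    refine Tendsto.add (Tendsto.mul ?_ tendsto_const_nhds) tendsto_const_nhds
    have h1 := (tendsto_const_div_atTop_nhds_zero_nat C).sqrt
    rwa [Real.sqrt_zero] at h1
  have h1 : ‖n ξ‖ ^ 2 ≤ 0 * ‖n ξ‖ ^ 2 + c⁻¹ * (‖star n ξ‖ * ‖n ξ‖) := by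
    refine ge_of_tendsto hlim ?_
    filter_upwards [eventually_ge_atTop 2] with r hr using key r hr
  rw [zero_mul, zero_add] at h1
  rcases (norm_nonneg (n ξ)).eq_or_lt with h2 | h2
  · rw [← h2, mul_zero]
    exact norm_nonneg _
  · have h3 : c * ‖n ξ‖ ^ 2 ≤ ‖star n ξ‖ * ‖n ξ‖ := by
      have h4 := mul_le_mul_of_nonneg_left h1 hc.le
      rwa [← mul_assoc, mul_inv_cancel₀ hc.ne', one_mul] at h4
    have h5 : (c * ‖n ξ‖) * ‖n ξ‖ ≤ ‖star n ξ‖ * ‖n ξ‖ := by nlinarith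
    exact le_of_mul_le_mul_right h5 h2

end Pool.Agent.H255.BC.T_low
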