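import Pool.Agent.H255.BC.Defs

set_option autoImplicit false

open MeasureTheory Filter Topology Complex
open scoped InnerProductSpace ENNReal FourierTransform

namespace Pool.Agent.H255.BC.T_main

open Pool.Agent.W662.CB Pool.Agent.H255.BC

section basics

variable {H : Type} [NormedAddCommGroup H] [InnerProductSpace ℂ H] [CompleteSpace H]
  {M : VonNeumannAlgebra H} {ξ : H} {U : ℝ → H →L[ℂ] H} {J : H → H}

theorem J_neg (hJ : IsConj M ξ U J) (v : H) : J (-v) = -J v := by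
  have h := hJ.smul (-1) v
  simpa using h

theorem J_sub (hJ : IsConj M ξ U J) (v w : H) : J (v - w) = J v - J w := by
  rw [sub_eq_add_neg, hJ.add, J_neg hJ, sub_eq_add_neg]

theorem J_norm (hJ : IsConj M ξ U J) (v : H) : ‖J v‖ = ‖v‖ := by
  have h := hJ.inner v v
  rw [inner_self_eq_norm_sq_to_K, inner_self_eq_norm_sq_to_K] at h
  have h2 : ‖J v‖ ^ 2 = ‖v‖ ^ 2 := by exact_mod_cast h
  exact (sq_eq_sq₀ (norm_nonneg _) (norm_nonneg _)).1 h2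

theorem inner_J (hJ : IsConj M ξ U J) (v w : H) : ⟪v, J w⟫_ℂ = ⟪w, J v⟫_ℂ := by
  rw [← hJ.inner (J v) w, hJ.inv]

theorem inner_J' (hJ : IsConj M ξ U J) (v w : H) : ⟪J v, w⟫_ℂ = ⟪J w, v⟫_ℂ := by
  rw [← hJ.inner v (J w), hJ.inv]

/-- `J a J` -/
noncomputable def Rm (hJ : IsConj M ξ U J) (a : H →L[ℂ] H) : H →L[ℂ] H :=
  LinearMap.mkContinuous
    { toFun := fun v => J (a (J v))
      map_add' := fun v w => by rw [hJ.add, map_add, hJ.add]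
      map_smul' := fun c v => by
        rw [hJ.smul, map_smul, hJ.smul]; simp } ‖a‖ (by
      intro v
      show ‖J (a (J v))‖ ≤ ‖a‖ * ‖v‖
      rw [J_norm hJ]
      calc ‖a (J v)‖ ≤ ‖a‖ * ‖J v‖ := a.le_opNorm _
        _ = ‖a‖ * ‖v‖ := by rw [J_norm hJ])

theorem Rm_apply (hJ : IsConj M ξ U J) (a : H →L[ℂ] H) (v : H) : Rm hJ a v = J (a (J v)) := rfl

theorem Rm_norm (hJ : IsConj M ξ U J) (a : H →L[ℂ] H) (v : H) : ‖Rm hJ a v‖ ≤ ‖a‖ * ‖v‖ := by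
  rw [Rm_apply, J_norm hJ]
  calc ‖a (J v)‖ ≤ ‖a‖ * ‖J v‖ := a.le_opNorm _
    _ = ‖a‖ * ‖v‖ := by rw [J_norm hJ]

theorem Rm_mul (hJ : IsConj M ξ U J) (a b : H →L[ℂ] H) : Rm hJ (a * b) = Rm hJ a * Rm hJ b := by
  ext v
  show J (a (b (J v))) = J (a (J (J (b (J v)))))
  rw [hJ.inv]

theorem Rm_one (hJ : IsConj M ξ U J) : Rm hJ 1 = 1 := by
  ext v
  show J (J v) = v
  rw [hJ.inv]

theorem Rm_star (hJ : IsConj M ξ U J) (a : H →L[ℂ] H) : star (Rm hJ a) = Rm hJ (star a) := by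
  rw [ContinuousLinearMap.star_eq_adjoint, ContinuousLinearMap.star_eq_adjoint]
  symm
  rw [ContinuousLinearMap.eq_adjoint_iff]
  intro v w
  rw [Rm_apply, Rm_apply, inner_J' hJ, inner_J hJ, ContinuousLinearMap.adjoint_inner_right]

theorem Rm_comm (hJ : IsConj M ξ U J) {x y : H →L[ℂ] H} (hx : x ∈ M) (hy : y ∈ M) :
    x * Rm hJ y = Rm hJ y * x := by
  ext v
  exact hJ.comm x y hx hy v

theorem cm_eq (hJ : IsConj M ξ U J) (z : H →L[ℂ] H) (v : H) :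
    cm J z v = z v - Rm hJ (star z) v := rfl

end basics

section group

variable {H : Type} [NormedAddCommGroup H] [InnerProductSpace ℂ H] [CompleteSpace H]

/-- the unitary group of `N` -/
def GU (N : VonNeumannAlgebra H) : Type := {u : H →L[ℂ] H // IsUni N u}

theorem uni_mul {N : VonNeumannAlgebra H} {u v : H →L[ℂ] H} (hu : IsUni N u) (hv : IsUni N v) :
    IsUni N (u * v) := by
  refine ⟨mul_mem hu.1 hv.1, ?_, ?_⟩
  · rw [star_mul]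
    calc star v * star u * (u * v) = star v * (star u * u) * v := by noncomm_ring
      _ = 1 := by rw [hu.2.1, mul_one, hv.2.1]
  · rw [star_mul]
    calc u * v * (star v * star u) = u * (v * star v) * star u := by noncomm_ring
      _ = 1 := by rw [hv.2.2, mul_one, hu.2.2]

theorem uni_star {N : VonNeumannAlgebra H} {u : H →L[ℂ] H} (hu : IsUni N u) :
    IsUni N (star u) :=
  ⟨star_mem hu.1, by rw [star_star]; exact hu.2.2, by rw [star_star]; exact hu.2.1⟩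

theorem uni_one {N : VonNeumannAlgebra H} : IsUni N (1 : H →L[ℂ] H) :=
  ⟨one_mem _, by simp, by simp⟩

noncomputable instance (N : VonNeumannAlgebra H) : Group (GU N) where
  mul u v := ⟨u.1 * v.1, uni_mul u.2 v.2⟩
  one := ⟨1, uni_one⟩
  inv u := ⟨star u.1, uni_star u.2⟩
  mul_assoc u v w := Subtype.ext (mul_assoc u.1 v.1 w.1)
  one_mul u := Subtype.ext (one_mul u.1)
  mul_one u := Subtype.ext (mul_one u.1)
  inv_mul_cancel u := Subtype.ext u.2.2.1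

theorem GU_mul (N : VonNeumannAlgebra H) (u v : GU N) : (u * v).1 = u.1 * v.1 := rfl

theorem GU_one (N : VonNeumannAlgebra H) : (1 : GU N).1 = 1 := rfl

theorem GU_inv (N : VonNeumannAlgebra H) (u : GU N) : (u⁻¹).1 = star u.1 := rfl

variable {M N : VonNeumannAlgebra H} {ξ : H} {U : ℝ → H →L[ℂ] H} {J : H → H}

/-- the representation `u ↦ u J u J` -/
noncomputable def al (hNM : ∀ x : H →L[ℂ] H, x ∈ N → x ∈ M) (hJ : IsConj M ξ U J) :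
    GU N →* (H →L[ℂ] H) where
  toFun u := u.1 * Rm hJ u.1
  map_one' := by rw [GU_one, Rm_one, mul_one]
  map_mul' u v := by
    rw [GU_mul, Rm_mul]
    calc u.1 * v.1 * (Rm hJ u.1 * Rm hJ v.1) = u.1 * (v.1 * Rm hJ u.1) * Rm hJ v.1 := by
          noncomm_ring
      _ = u.1 * (Rm hJ u.1 * v.1) * Rm hJ v.1 := by
          rw [Rm_comm hJ (hNM _ v.2.1) (hNM _ u.2.1)]
      _ = _ := by noncomm_ring

theorem al_apply (hNM : ∀ x : H →L[ℂ] H, x ∈ N → x ∈ M) (hJ : IsConj M ξ U J) (u : GU N) (v : H) :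
    al hNM hJ u v = alf J u.1 v := rfl

theorem al_star (hNM : ∀ x : H →L[ℂ] H, x ∈ N → x ∈ M) (hJ : IsConj M ξ U J) (u : GU N) :
    star (al hNM hJ u) = al hNM hJ u⁻¹ := by
  show star (u.1 * Rm hJ u.1) = star u.1 * Rm hJ (star u.1)
  rw [star_mul, Rm_star, Rm_comm hJ (star_mem (hNM _ u.2.1)) (star_mem (hNM _ u.2.1))]

theorem al_KA (hNM : ∀ x : H →L[ℂ] H, x ∈ N → x ∈ M) (hJ : IsConj M ξ U J) (η : H) :
    η ∈ KA (al hNM hJ) ξ ↔ η ∈ KK N ξ J := by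
  constructor
  · intro h a ha
    obtain ⟨b, hb, h2⟩ := h a ha
    exact ⟨b, hb, fun u hu => h2 ⟨u, hu⟩⟩
  · intro h a ha
    obtain ⟨b, hb, h2⟩ := h a ha
    exact ⟨b, hb, fun u => h2 u.1 u.2⟩

theorem iso_norm {v : H →L[ℂ] H} (hv : star v * v = 1) (x : H) : ‖v x‖ = ‖x‖ := by
  have h : ⟪v x, v x⟫_ℂ = ⟪x, x⟫_ℂ := by
    rw [← ContinuousLinearMap.adjoint_inner_right, ← ContinuousLinearMap.star_eq_adjoint]
    show ⟪x, (star v * v) x⟫_ℂ = _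
    rw [hv]
    rfl
  rw [inner_self_eq_norm_sq_to_K, inner_self_eq_norm_sq_to_K] at h
  have h2 : ‖v x‖ ^ 2 = ‖x‖ ^ 2 := by exact_mod_cast h
  exact (sq_eq_sq₀ (norm_nonneg _) (norm_nonneg _)).1 h2

theorem iso_opNorm {v : H →L[ℂ] H} (hv : star v * v = 1) : ‖v‖ ≤ 1 :=
  v.opNorm_le_bound zero_le_one fun x => by rw [iso_norm hv, one_mul]

theorem iso_star {v : H →L[ℂ] H} (hv : star v * v = 1) (x : H) : ‖star v x‖ ≤ ‖x‖ := by
  calc ‖star v x‖ ≤ ‖star v‖ * ‖x‖ := (star v).le_opNorm x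
    _ ≤ 1 * ‖x‖ := by
      gcongr
      rw [norm_star]
      exact iso_opNorm hv
    _ = ‖x‖ := one_mul _

theorem cm_xi (hNM : ∀ x : H →L[ℂ] H, x ∈ N → x ∈ M) (hJ : IsConj M ξ U J) {t ε : ℝ}
    {v m : H →L[ℂ] H} (hv : IsScal N ξ J t ε v) (hm : m ∈ N) :
    ‖cm J (v * m) ξ‖ ≤ ‖m ξ - ((Real.sqrt t : ℝ) : ℂ) • J (star m ξ)‖ + ‖m‖ * ε := by
  obtain ⟨hvN, hv1, hv2⟩ := hv
  set w : H := J (star v ξ) - ((Real.sqrt t : ℝ) : ℂ) • v ξ with hw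
  have e1 : star v ξ = J (((Real.sqrt t : ℝ) : ℂ) • v ξ + w) := by
    rw [hw, add_sub_cancel, hJ.inv]
  have e2 : cm J (v * m) ξ =
      v (m ξ - ((Real.sqrt t : ℝ) : ℂ) • J (star m ξ)) - Rm hJ (star m) w := by
    rw [cm_eq hJ]
    have e3 : Rm hJ (star (v * m)) ξ =
        ((Real.sqrt t : ℝ) : ℂ) • v (J (star m ξ)) + Rm hJ (star m) w := by
      have e4 : Rm hJ (star (v * m)) ξ = Rm hJ (star m) (((Real.sqrt t : ℝ) : ℂ) • v ξ + w) := by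
        rw [Rm_apply, Rm_apply, ← e1, hJ.fix, star_mul]
        rfl
      rw [e4, map_add, map_smul]
      congr 2
      have e5 : (Rm hJ (star m) * v) ξ = (v * Rm hJ (star m)) ξ := by
        rw [Rm_comm hJ (hNM _ hvN) (star_mem (hNM _ hm))]
      have e6 : (Rm hJ (star m) * v) ξ = Rm hJ (star m) (v ξ) := rfl
      have e7 : (v * Rm hJ (star m)) ξ = v (J (star m (J ξ))) := rfl
      rw [← e6, e5, e7, hJ.fix]
    have e8 : v (m ξ - ((Real.sqrt t : ℝ) : ℂ) • J (star m ξ)) =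
        v (m ξ) - ((Real.sqrt t : ℝ) : ℂ) • v (J (star m ξ)) := by rw [map_sub, map_smul]
    have e9 : (v * m) ξ = v (m ξ) := rfl
    rw [e3, e8, e9, sub_sub]
  rw [e2]
  calc _ ≤ ‖v (m ξ - ((Real.sqrt t : ℝ) : ℂ) • J (star m ξ))‖ + ‖Rm hJ (star m) w‖ :=
        norm_sub_le _ _
    _ ≤ ‖m ξ - ((Real.sqrt t : ℝ) : ℂ) • J (star m ξ)‖ + ‖m‖ * ε := by
        rw [iso_norm hv1]
        gcongr
        calc ‖Rm hJ (star m) w‖ ≤ ‖star m‖ * ‖w‖ := Rm_norm hJ _ _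
          _ ≤ ‖m‖ * ε := by rw [norm_star]; gcongr

theorem cm_eta (hNM : ∀ x : H →L[ℂ] H, x ∈ N → x ∈ M) (hJ : IsConj M ξ U J)
    {v m : H →L[ℂ] H} (hvN : v ∈ N) (hv1 : star v * v = 1) (hm : m ∈ N) (ζ : H) :
    ‖m ζ - Rm hJ (star m) (star v (J (star v (J ζ))))‖ ≤ ‖cm J (v * m) ζ‖ := by
  have e1 : star v (cm J (v * m) ζ) = m ζ - Rm hJ (star m) (star v (J (star v (J ζ)))) := by
    rw [cm_eq hJ, map_sub]
    congr 1
    · have : star v ((v * m) ζ) = (star v * v) (m ζ) := rfl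
      rw [this, hv1]
      rfl
    · have e5 : (star v * Rm hJ (star m)) (J (star v (J ζ))) =
          (Rm hJ (star m) * star v) (J (star v (J ζ))) := by
        rw [Rm_comm hJ (star_mem (hNM _ hvN)) (star_mem (hNM _ hm))]
      have e6 : star v (Rm hJ (star (v * m)) ζ) =
          (star v * Rm hJ (star m)) (J (star v (J ζ))) := by
        show star v (J (star (v * m) (J ζ))) = star v (J (star m (J (J (star v (J ζ))))))
        rw [hJ.inv, star_mul]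
        rfl
      rw [e6, e5]
      rfl
  rw [← e1]
  exact iso_star hv1 _

theorem inner_Rm (hJ : IsConj M ξ U J) (m : H →L[ℂ] H) (w : H) :
    ⟪ξ, Rm hJ (star m) w⟫_ℂ = ⟪J (m ξ), w⟫_ℂ := by
  rw [← Rm_star, ContinuousLinearMap.star_eq_adjoint, ContinuousLinearMap.adjoint_inner_right,
    Rm_apply, hJ.fix]

end group

/-- the quantitative form -/
theorem main_eps (h1 : S_AE) (h2 : S_cay) (h4 : S_KK) (h5 : S_Q) (h6 : S_split) (h7 : S_pair)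
    (H : Type) [NormedAddCommGroup H] [InnerProductSpace ℂ H] [CompleteSpace H]
    (M N : VonNeumannAlgebra H) (ξ : H) (U : ℝ → H →L[ℂ] H) (J : H → H)
    (hNM : ∀ x : H →L[ℂ] H, x ∈ N → x ∈ M) (hU : IsModular M ξ U) (hJ : IsConj M ξ U J)
    (hinv : ∀ (t : ℝ) (x : H →L[ℂ] H), x ∈ N → sgm U t x ∈ N)
    (hsc : ∀ t ε : ℝ, 0 < t → t < 1 → 0 < ε → ∃ v, IsScal N ξ J t ε v)
    (τ c : ℝ) (q : ℤ → ℂ) (hq : IsQ q c) (n : H →L[ℂ] H) (hn : n ∈ N)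
    (hs : HasSum (fun k : ℤ => q k • U ((k : ℝ) * τ) (n ξ)) (J (star n ξ)))
    (η : H) (hη : η ∈ KK N ξ J) (ε : ℝ) (hε : 0 < ε) :
    ‖⟪star n ξ, η⟫_ℂ‖ ≤ ‖n ξ‖ * ‖η‖ + ε * (‖ξ‖ + ‖star n ξ‖) := by
  -- constants
  set κ : ℝ := ‖n‖ + 1 with hκ
  have κpos : 0 < κ := by positivity
  obtain ⟨C, hC, hsplit⟩ := h6 H M N ξ U J hNM hU hJ hinv τ c q hq
  obtain ⟨K, hK, -, -, hKU, -⟩ := h4 H M N ξ U J hNM hU hJ hinv
  obtain ⟨b, hb, hAE⟩ := h1 (GU N) H (al hNM hJ) (al_star hNM hJ) ξ η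
    ((al_KA hNM hJ η).2 hη) (ε ^ 2 / 2) (by positivity)
  -- the choice of `y`: `κ² ‖η‖² / y ≤ ε²`
  obtain ⟨y, hy0, hy⟩ : ∃ y : ℝ, 0 < y ∧ κ ^ 2 * ‖η‖ ^ 2 / y ≤ ε ^ 2 := by
    refine ⟨κ ^ 2 * ‖η‖ ^ 2 / ε ^ 2 + 1, by positivity, ?_⟩
    rw [div_le_iff₀ (by positivity), mul_add, mul_div_cancel₀ _ (by positivity)]
    nlinarith [sq_nonneg ε]
  -- the choice of `r`
  set D : ℝ := 4 * C * ‖n ξ‖ ^ 2 / κ ^ 2 with hD
  have hD0 : 0 ≤ D := by positivity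
  obtain ⟨r, hr2, hr⟩ : ∃ r : ℕ, 2 ≤ r ∧ b * (y * D) / (r : ℝ) ≤ ε ^ 2 / 2 := by
    obtain ⟨r, hr⟩ := exists_nat_ge (b * (y * D) / (ε ^ 2 / 2))
    refine ⟨r + 2, by omega, ?_⟩
    have hpos : (0 : ℝ) < ((r + 2 : ℕ) : ℝ) := by positivity
    rw [div_le_iff₀ hpos]
    rw [div_le_iff₀ (by positivity)] at hr
    push_cast
    nlinarith [sq_nonneg ε]
  have hrpos : (0 : ℝ) < r := by
    have : (2 : ℝ) ≤ r := by exact_mod_cast hr2
    linarith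
  obtain ⟨θ, t, P, e, ht, -, hPe, hPsum, -, hm'⟩ := hsplit r hr2
  obtain ⟨m, hmN, hmsum, hmξ, -, hmC⟩ := hm' n hn
  have hmC := hmC hs
  -- isometries
  have hv : ∀ i : Fin r, ∃ v : ℕ → H →L[ℂ] H, ∀ k : ℕ,
      IsScal N ξ J (t i) (1 / ((k : ℝ) + 1)) (v k) := by
    intro i
    choose v hv using fun k : ℕ => hsc (t i) (1 / ((k : ℝ) + 1)) (ht i).1 (ht i).2.1
      (by positivity)
    exact ⟨v, hv⟩
  choose v hv using hv
  have hQ := fun i => h5 H M N ξ U J hNM hU hJ hinv (t i) (v i) (ht i).1 (ht i).2.1 (hv i)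
  choose Q hQ using hQ
  -- Cayley transform
  have hz : ∀ (i : Fin r) (k : ℕ), v i k * m i ∈ N ∧ ‖v i k * m i‖ ≤ κ := by
    intro i k
    refine ⟨mul_mem (hv i k).1 (hmN i).1, ?_⟩
    calc ‖v i k * m i‖ ≤ ‖v i k‖ * ‖m i‖ := norm_mul_le _ _
      _ ≤ 1 * ‖n‖ := by
        gcongr
        · exact iso_opNorm (hv i k).2.1
        · exact (hmN i).2
      _ ≤ κ := by rw [one_mul, hκ]; linarith
  choose u hu hu1 hu2 using fun (i : Fin r) (k : ℕ) =>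
    h2 H M N ξ U J hNM hJ (v i k * m i) κ (hz i k).1 κpos (hz i k).2
  let uu : Fin (r * 2) → ℕ → GU N := fun l k =>
    ⟨u (finProdFinEquiv.symm l).1 k (finProdFinEquiv.symm l).2, hu _ _ _⟩
  have hsumuu : ∀ (k : ℕ) (ζ : H), ∑ l, ‖al hNM hJ (uu l k) ζ - ζ‖ ^ 2 =
      ∑ i, ∑ j, ‖alf J (u i k j) ζ - ζ‖ ^ 2 := by
    intro k ζ
    rw [← Fintype.sum_prod_type' (f := fun (i : Fin r) (j : Fin 2) =>
      ‖alf J (u i k j) ζ - ζ‖ ^ 2)]
    exact Fintype.sum_equiv finProdFinEquiv.symm _ _ fun l => rfl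
  -- the invariance of `ξ`
  set d : Fin r → ℝ := fun i => ‖m i ξ - ((Real.sqrt (t i) : ℝ) : ℂ) • J (star (m i) ξ)‖ with hd
  have hlim1 : Tendsto (fun k : ℕ => ∑ i, (d i + ‖m i‖ * (1 / ((k : ℝ) + 1))) ^ 2) atTop
      (𝓝 (∑ i, (d i + ‖m i‖ * 0) ^ 2)) := by
    refine tendsto_finsetSum _ fun i _ => ?_
    exact ((tendsto_one_div_add_atTop_nhds_zero_nat.const_mul _).const_add _).pow 2
  have hAE1 : ∀ δ : ℝ, 0 < δ → ∀ᶠ k in atTop,
      ∑ l, ‖al hNM hJ (uu l k) ξ - ξ‖ ^ 2 ≤ D / (r : ℝ) ^ 2 + δ := by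
    intro δ hδ
    have hev : ∀ᶠ k : ℕ in atTop, ∑ i, (d i + ‖m i‖ * (1 / ((k : ℝ) + 1))) ^ 2 <
        ∑ i, (d i + ‖m i‖ * 0) ^ 2 + κ ^ 2 * δ / 4 :=
      hlim1.eventually_lt_const (by have : 0 < κ ^ 2 * δ / 4 := by positivity
                                    linarith)
    filter_upwards [hev] with k hk
    rw [hsumuu]
    have h8 : κ ^ 2 * ∑ i, ∑ j, ‖alf J (u i k j) ξ - ξ‖ ^ 2 ≤
        4 * ∑ i, (d i + ‖m i‖ * (1 / ((k : ℝ) + 1))) ^ 2 := by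
      rw [Finset.mul_sum, Finset.mul_sum]
      refine Finset.sum_le_sum fun i _ => ?_
      refine (hu2 i k ξ hJ.fix).trans ?_
      gcongr
      exact cm_xi hNM hJ (hv i k) (hmN i).1
    have h9 : ∑ i, (d i + ‖m i‖ * 0) ^ 2 ≤ C * ‖n ξ‖ ^ 2 / (r : ℝ) ^ 2 := by
      refine le_trans (le_of_eq ?_) hmC
      refine Finset.sum_congr rfl fun i _ => ?_
      rw [mul_zero, add_zero]
    have h10 : D / (r : ℝ) ^ 2 = 4 * (C * ‖n ξ‖ ^ 2 / (r : ℝ) ^ 2) / κ ^ 2 := by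
      rw [hD]; ring
    rw [h10, ← sub_nonneg]
    have h11 : 0 ≤ κ ^ 2 * (4 * (C * ‖n ξ‖ ^ 2 / (r : ℝ) ^ 2) / κ ^ 2 + δ -
        ∑ i, ∑ j, ‖alf J (u i k j) ξ - ξ‖ ^ 2) := by
      have h12 : κ ^ 2 * (4 * (C * ‖n ξ‖ ^ 2 / (r : ℝ) ^ 2) / κ ^ 2 + δ -
        ∑ i, ∑ j, ‖alf J (u i k j) ξ - ξ‖ ^ 2) = 4 * (C * ‖n ξ‖ ^ 2 / (r : ℝ) ^ 2) + κ ^ 2 * δ -
        κ ^ 2 * ∑ i, ∑ j, ‖alf J (u i k j) ξ - ξ‖ ^ 2 := by
        field_simp
      rw [h12]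
      linarith
    exact (mul_nonneg_iff_of_pos_left (by positivity)).1 h11
  -- the random walk argument, `x = r y`
  obtain ⟨η', hη', hnorm, hdist, hfreq⟩ := hAE (r * 2) uu (D / (r : ℝ) ^ 2) (r * y)
    (by positivity) (by positivity) hAE1
  have hη'K : η' ∈ KK N ξ J := (al_KA hNM hJ η').1 hη'
  have hdist2 : ‖η - η'‖ ≤ ε := by
    have h13 : ‖η - η'‖ ^ 2 ≤ ε ^ 2 := by
      refine hdist.trans ?_
      have h14 : b * (r * y * (D / (r : ℝ) ^ 2)) = b * (y * D) / (r : ℝ) := by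
        field_simp
      rw [h14]
      linarith
    exact (sq_le_sq₀ (norm_nonneg _) hε.le).1 h13
  -- the limit
  have hlim2 : Tendsto (fun k : ℕ => ∑ i, ‖m i η' - Rm hJ (star (m i))
      (star (v i k) (J (star (v i k) (J η'))))‖ ^ 2) atTop
      (𝓝 (∑ i, ‖m i η' - Rm hJ (star (m i)) (Q i η')‖ ^ 2)) := by
    refine tendsto_finsetSum _ fun i _ => ?_
    have h15 := (hQ i η' hη'K).2.2.1
    exact ((((Rm hJ (star (m i))).continuous.tendsto _).comp h15).const_sub (m i η')).norm.pow 2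
  have hbound : ∑ i, ‖m i η' - Rm hJ (star (m i)) (Q i η')‖ ^ 2 ≤
      κ ^ 2 * ‖η‖ ^ 2 / (r * y) := by
    refine le_of_forall_pos_le_add fun δ hδ => ?_
    refine le_of_tendsto_of_frequently hlim2 ?_
    refine (hfreq (δ / (2 * κ ^ 2)) (by positivity)).mono fun k hk => ?_
    rw [hsumuu] at hk
    calc ∑ i, ‖m i η' - Rm hJ (star (m i)) (star (v i k) (J (star (v i k) (J η'))))‖ ^ 2
        ≤ ∑ i, ‖cm J (v i k * m i) η'‖ ^ 2 := by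
          refine Finset.sum_le_sum fun i _ => ?_
          gcongr
          exact cm_eta hNM hJ (hv i k).1 (hv i k).2.1 (hmN i).1 η'
      _ ≤ ∑ i, 2 * κ ^ 2 * ∑ j, ‖alf J (u i k j) η' - η'‖ ^ 2 :=
          Finset.sum_le_sum fun i _ => hu1 i k η'
      _ = 2 * κ ^ 2 * ∑ i, ∑ j, ‖alf J (u i k j) η' - η'‖ ^ 2 := by rw [Finset.mul_sum]
      _ ≤ 2 * κ ^ 2 * (‖η‖ ^ 2 / (2 * (r * y)) + δ / (2 * κ ^ 2)) := by gcongr
      _ = κ ^ 2 * ‖η‖ ^ 2 / (r * y) + δ := by field_simp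
  -- Cauchy-Schwarz
  have herr : ‖n η' - ∑ i, Rm hJ (star (m i)) (Q i η')‖ ≤ ε := by
    have h16 : n η' - ∑ i, Rm hJ (star (m i)) (Q i η') =
        ∑ i, (m i η' - Rm hJ (star (m i)) (Q i η')) := by
      rw [Finset.sum_sub_distrib, ← hmsum, sum_apply]
    rw [h16]
    have h17 : (∑ i, ‖m i η' - Rm hJ (star (m i)) (Q i η')‖) ^ 2 ≤
        (r : ℝ) * ∑ i, ‖m i η' - Rm hJ (star (m i)) (Q i η')‖ ^ 2 := by
      have := sq_sum_le_card_mul_sum_sq (s := (Finset.univ : Finset (Fin r)))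
        (f := fun i => ‖m i η' - Rm hJ (star (m i)) (Q i η')‖)
      simpa using this
    have h18 : (∑ i, ‖m i η' - Rm hJ (star (m i)) (Q i η')‖) ^ 2 ≤ ε ^ 2 := by
      refine h17.trans ?_
      calc (r : ℝ) * ∑ i, ‖m i η' - Rm hJ (star (m i)) (Q i η')‖ ^ 2
          ≤ (r : ℝ) * (κ ^ 2 * ‖η‖ ^ 2 / (r * y)) := by gcongr
        _ = κ ^ 2 * ‖η‖ ^ 2 / y := by field_simp
        _ ≤ ε ^ 2 := hy
    have h19 : (∑ i, ‖m i η' - Rm hJ (star (m i)) (Q i η')‖) ≤ ε :=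
      (sq_le_sq₀ (by positivity) hε.le).1 h18
    exact (norm_sum_le _ _).trans h19
  -- the pairing
  have hpair : ‖∑ i, ⟪J (star (P i) (P i (n ξ))), Q i η'⟫_ℂ‖ ≤ ‖n ξ‖ * ‖η'‖ := by
    have hmem : ∀ w : H, w ∈ K ↔ w ∈ KK N ξ J := by
      intro w
      rw [← hK]
      exact Iff.rfl
    refine h7 H M ξ U J hU hJ τ r P e hPe hPsum K Q hKU ?_ ?_ ?_ (n ξ) η' ((hmem _).2 hη'K)
    · intro i w hw
      exact (hQ i w ((hmem _).1 hw)).2.1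
    · intro i w hw w' hw' c'
      exact (hQ i w ((hmem _).1 hw)).2.2.2.1 w' ((hmem _).1 hw') c'
    · intro i s w hw
      exact (hQ i w ((hmem _).1 hw)).2.2.2.2 s
  have hpair2 : ⟪ξ, ∑ i, Rm hJ (star (m i)) (Q i η')⟫_ℂ =
      ∑ i, ⟪J (star (P i) (P i (n ξ))), Q i η'⟫_ℂ := by
    rw [inner_sum]
    refine Finset.sum_congr rfl fun i _ => ?_
    rw [inner_Rm hJ, hmξ]
  -- conclusion
  have hfin : ⟪star n ξ, η⟫_ℂ = ∑ i, ⟪J (star (P i) (P i (n ξ))), Q i η'⟫_ℂ +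
      ⟪ξ, n η' - ∑ i, Rm hJ (star (m i)) (Q i η')⟫_ℂ + ⟪star n ξ, η - η'⟫_ℂ := by
    rw [← hpair2, ← inner_add_right, add_sub_cancel, inner_sub_right,
      ContinuousLinearMap.star_eq_adjoint, ContinuousLinearMap.adjoint_inner_left n η' ξ]
    ring
  rw [hfin]
  calc _ ≤ ‖∑ i, ⟪J (star (P i) (P i (n ξ))), Q i η'⟫_ℂ‖ +
        ‖⟪ξ, n η' - ∑ i, Rm hJ (star (m i)) (Q i η')⟫_ℂ‖ + ‖⟪star n ξ, η - η'⟫_ℂ‖ :=
        norm_add₃_le
    _ ≤ ‖n ξ‖ * ‖η‖ + ‖ξ‖ * ε + ‖star n ξ‖ * ε := by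
        have i1 := norm_inner_le_norm (𝕜 := ℂ) ξ (n η' - ∑ i, Rm hJ (star (m i)) (Q i η'))
        have i2 := norm_inner_le_norm (𝕜 := ℂ) (star n ξ) (η - η')
        have i3 : ‖n ξ‖ * ‖η'‖ ≤ ‖n ξ‖ * ‖η‖ := by gcongr
        have i4 : ‖ξ‖ * ‖n η' - ∑ i, Rm hJ (star (m i)) (Q i η')‖ ≤ ‖ξ‖ * ε := by gcongr
        have i5 : ‖star n ξ‖ * ‖η - η'‖ ≤ ‖star n ξ‖ * ε := by gcongr
        linarith
    _ = _ := by ring

theorem main_thm (h1 : S_AE) (h2 : S_cay) (h3 : S_mod) (h4 : S_KK) (h5 : S_Q) (h6 : S_split) (h7 : S_pair) : S_main := by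
  intro H _ _ _ M N ξ U J hNM hU hJ hinv hsc τ c q hq n hn hs η hη
  refine le_of_forall_pos_le_add fun δ hδ => ?_
  have hpos : 0 < ‖ξ‖ + ‖star n ξ‖ + 1 := by positivity
  have h := main_eps h1 h2 h4 h5 h6 h7 H M N ξ U J hNM hU hJ hinv hsc τ c q hq n hn hs η hη
    (δ / (‖ξ‖ + ‖star n ξ‖ + 1)) (by positivity)
  refine h.trans ?_
  gcongr
  rw [div_mul_eq_mul_div, div_le_iff₀ hpos]
  nlinarith

end Pool.Agent.H255.BC.T_main
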