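import Pool.Agent.H255.BC.Defs

set_option autoImplicit false

open MeasureTheory Filter Topology Complex
open scoped InnerProductSpace ENNReal FourierTransform

namespace Pool.Agent.H255.BC.T_mod

open Pool.Agent.W662.CB Pool.Agent.H255.BC

theorem mod_thm (h : S_cay) : S_mod := by
  intro H _ _ _ M N ξ U J hNM hJ η hη L a hL ha
  obtain ⟨b, hb0, hb⟩ := hη (a / (4 * L ^ 2)) (by positivity)
  refine ⟨8 * b, by positivity, ?_⟩
  intro z hz hzL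
  obtain ⟨u, hu, hu1, hu2⟩ := h H M N ξ U J hNM hJ z L hz hL hzL
  have e1 := hu1 η
  have e2 := hu2 ξ hJ.fix
  have e3 : ∑ j, ‖alf J (u j) η - η‖ ^ 2 ≤
      ∑ j : Fin 2, (a / (4 * L ^ 2) + b * ‖alf J (u j) ξ - ξ‖ ^ 2) :=
    Finset.sum_le_sum fun j _ => hb (u j) (hu j)
  rw [Finset.sum_add_distrib, ← Finset.mul_sum] at e3
  simp only [Finset.sum_const, Finset.card_univ, Fintype.card_fin, nsmul_eq_mul] at e3
  have hL2 : 0 < 2 * L ^ 2 := by positivity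
  calc ‖cm J z η‖ ^ 2 ≤ 2 * L ^ 2 * ∑ j, ‖alf J (u j) η - η‖ ^ 2 := e1
    _ ≤ 2 * L ^ 2 * (((2 : ℕ) : ℝ) * (a / (4 * L ^ 2)) + b * ∑ j, ‖alf J (u j) ξ - ξ‖ ^ 2) :=
        mul_le_mul_of_nonneg_left e3 hL2.le
    _ = a + 2 * b * (L ^ 2 * ∑ j, ‖alf J (u j) ξ - ξ‖ ^ 2) := by
        push_cast
        field_simp
        ring
    _ ≤ a + 2 * b * (4 * ‖cm J z ξ‖ ^ 2) := by gcongr
    _ = a + 8 * b * ‖cm J z ξ‖ ^ 2 := by ring

end Pool.Agent.H255.BC.T_mod
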