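import Pool.Agent.H255.BC.Defs

set_option autoImplicit false

open MeasureTheory Filter Topology Complex
open scoped InnerProductSpace ENNReal FourierTransform

namespace Pool.Agent.H255.BC.T_pair

open Pool.Agent.W662.CB Pool.Agent.H255.BC

variable {H : Type} [NormedAddCommGroup H] [InnerProductSpace ℂ H] [CompleteSpace H]

theorem J_zero {J : H → H} (hs : ∀ (c : ℂ) (v : H), J (c • v) = (starRingEnd ℂ c) • J v) :
    J 0 = 0 := by
  have h := hs 0 0
  rw [zero_smul, map_zero, zero_smul] at h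
  exact h

theorem J_sum {J : H → H} (ha : ∀ v w : H, J (v + w) = J v + J w)
    (hs : ∀ (c : ℂ) (v : H), J (c • v) = (starRingEnd ℂ c) • J v) {ι : Type} (s : Finset ι)
    (f : ι → H) : J (∑ i ∈ s, f i) = ∑ i ∈ s, J (f i) := by
  classical
  induction s using Finset.induction_on with
  | empty => rw [Finset.sum_empty, Finset.sum_empty, J_zero hs]
  | insert a s ha' ih => rw [Finset.sum_insert ha', Finset.sum_insert ha', ha, ih]

theorem J_norm {J : H → H} (hi : ∀ v w : H, ⟪J v, J w⟫_ℂ = ⟪w, v⟫_ℂ) (v : H) : ‖J v‖ = ‖v‖ := by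
  have h := hi v v
  rw [inner_self_eq_norm_sq_to_K, inner_self_eq_norm_sq_to_K] at h
  have h2 : ‖J v‖ ^ 2 = ‖v‖ ^ 2 := by exact_mod_cast h
  exact (pow_left_inj₀ (norm_nonneg _) (norm_nonneg _) two_ne_zero).1 h2

theorem pair_thm : S_pair := by
  intro H _ _ _ M ξ U J hU hJ τ r P e hP hP2 K Q hKU hQn hQl hQU y v hv
  obtain ⟨Pt, hPt⟩ : ∃ Pt : Fin r → H →L[ℂ] H,
      ∀ i, Pt i = ∑ k ∈ Finset.range r, (starRingEnd ℂ (e i k)) • U ((k : ℝ) * τ) :=
    ⟨_, fun _ => rfl⟩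
  have hJP : ∀ i w, J (P i (J w)) = Pt i w := by
    intro i w
    rw [hP, hPt, ContinuousLinearMap.sum_apply, ContinuousLinearMap.sum_apply,
      J_sum hJ.add hJ.smul]
    refine Finset.sum_congr rfl fun k _ => ?_
    rw [ContinuousLinearMap.smul_apply, ContinuousLinearMap.smul_apply, hJ.smul, hJ.modular,
      hJ.inv]
  have hPtn : ∀ i w, ‖Pt i w‖ = ‖P i (J w)‖ := by
    intro i w
    rw [← hJP, J_norm hJ.inner]
  have hadj : ∀ i w x, ⟪J (star (P i) w), x⟫_ℂ = ⟪J w, Pt i x⟫_ℂ := by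
    intro i w x
    rw [← hJP, hJ.inner]
    have h1 := hJ.inner (star (P i) w) (J x)
    rw [hJ.inv] at h1
    rw [h1, ContinuousLinearMap.star_eq_adjoint, ContinuousLinearMap.adjoint_inner_right]
  have hQ0 : ∀ i, Q i 0 = 0 := by
    intro i
    have h := hQl i 0 K.zero_mem 0 K.zero_mem 1
    rw [smul_zero, add_zero, one_smul] at h
    exact left_eq_add.1 h
  have hsum : ∀ i (n : ℕ), Q i (∑ k ∈ Finset.range n,
      (starRingEnd ℂ (e i k)) • U ((k : ℝ) * τ) v) =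
      ∑ k ∈ Finset.range n, (starRingEnd ℂ (e i k)) • U ((k : ℝ) * τ) (Q i v) := by
    intro i n
    induction n with
    | zero => rw [Finset.sum_range_zero, Finset.sum_range_zero, hQ0]
    | succ n ih =>
      rw [Finset.sum_range_succ, Finset.sum_range_succ, hQl i _ ?_ _ (hKU _ _ hv), ih,
        hQU i _ _ hv]
      exact K.sum_mem fun k _ => K.smul_mem _ (hKU _ _ hv)
  have hcomm : ∀ i, Pt i (Q i v) = Q i (Pt i v) := by
    intro i
    have h := hsum i r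
    rw [hPt, ContinuousLinearMap.sum_apply, ContinuousLinearMap.sum_apply]
    simp only [ContinuousLinearMap.smul_apply]
    exact h.symm
  have hPtK : ∀ i, Pt i v ∈ K := by
    intro i
    rw [hPt, ContinuousLinearMap.sum_apply]
    exact K.sum_mem fun k _ => K.smul_mem _ (hKU _ _ hv)
  have hterm : ∀ i, ‖⟪J (star (P i) (P i y)), Q i v⟫_ℂ‖ ≤ ‖P i y‖ * ‖P i (J v)‖ := by
    intro i
    rw [hadj, hcomm]
    refine (norm_inner_le_norm _ _).trans ?_
    rw [J_norm hJ.inner, ← hPtn]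
    exact mul_le_mul_of_nonneg_left (hQn i _ (hPtK i)) (norm_nonneg _)
  calc ‖∑ i, ⟪J (star (P i) (P i y)), Q i v⟫_ℂ‖ ≤ ∑ i, ‖⟪J (star (P i) (P i y)), Q i v⟫_ℂ‖ :=
        norm_sum_le _ _
    _ ≤ ∑ i, ‖P i y‖ * ‖P i (J v)‖ := Finset.sum_le_sum fun i _ => hterm i
    _ ≤ Real.sqrt (∑ i, ‖P i y‖ ^ 2) * Real.sqrt (∑ i, ‖P i (J v)‖ ^ 2) :=
        Real.sum_mul_le_sqrt_mul_sqrt _ _ _
    _ = ‖y‖ * ‖v‖ := by
        rw [hP2, hP2, J_norm hJ.inner, Real.sqrt_sq (norm_nonneg _), Real.sqrt_sq (norm_nonneg _)]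

end Pool.Agent.H255.BC.T_pair
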