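import Pool.Agent.H255.BC.Defs

set_option autoImplicit false

open MeasureTheory Filter Topology Complex
open scoped InnerProductSpace ENNReal FourierTransform

namespace Pool.Agent.H255.BC.T_phi

open Pool.Agent.W662.CB Pool.Agent.H255.BC

noncomputable section

/-- the entire extension of the Fourier transform -/
def Hh (h : ℝ → ℂ) (w : ℂ) : ℂ := ∫ κ : ℝ, cexp (-(2 * Real.pi * I * w * κ)) * h κ

lemma tst_mul {h : ℝ → ℂ} (hh : Tst h) (c : ℂ) : Tst (fun κ : ℝ => c * κ * h κ) := by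
  refine ⟨?_, ?_⟩
  · exact (contDiff_const.mul Complex.ofRealCLM.contDiff).mul hh.1
  · exact HasCompactSupport.mul_left hh.2

lemma tst_deriv {h : ℝ → ℂ} (hh : Tst h) : Tst (deriv h) := by
  refine ⟨?_, hh.2.deriv⟩
  have := hh.1
  have h2 : ContDiff ℝ ((⊤ : ℕ∞) : WithTop ℕ∞) h := this
  exact ContDiff.deriv' (by simpa using h2)

lemma integrable_cs {h f : ℝ → ℂ} (hh : Tst h) (hf : Continuous f) :
    Integrable (fun κ => f κ * h κ) :=
  (hf.mul hh.1.continuous).integrable_of_hasCompactSupport (HasCompactSupport.mul_left hh.2)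

lemma norm_exp_le (w : ℂ) (κ : ℝ) :
    ‖cexp (-(2 * Real.pi * I * w * κ))‖ = Real.exp (2 * Real.pi * w.im * κ) := by
  rw [Complex.norm_exp]
  congr 1
  simp

lemma hasDerivAt_Hh {h : ℝ → ℂ} (hh : Tst h) (w : ℂ) :
    HasDerivAt (Hh h) (Hh (fun κ : ℝ => -(2 * Real.pi * I) * κ * h κ) w) w := by
  unfold Hh
  have hb : ∀ κ : ℝ, ∀ x ∈ Metric.ball w 1,
      ‖cexp (-(2 * Real.pi * I * x * κ)) * (-(2 * Real.pi * I) * κ * h κ)‖ ≤
        Real.exp (2 * Real.pi * ((|w.im| + 1) * |κ|)) * (2 * Real.pi * |κ|) * ‖h κ‖ := by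
    intro κ x hx
    rw [norm_mul, norm_exp_le, norm_mul, norm_mul]
    have h1 : ‖-(2 * (Real.pi : ℂ) * I)‖ = 2 * Real.pi := by
      simp [abs_of_pos Real.pi_pos]
    rw [h1, Complex.norm_real, Real.norm_eq_abs, mul_assoc (Real.exp _) (2 * Real.pi * |κ|)]
    refine mul_le_mul_of_nonneg_right ?_ (by positivity)
    apply Real.exp_le_exp.mpr
    have h2 : |x.im| ≤ |w.im| + 1 := by
      have h3 : |(x - w).im| ≤ ‖x - w‖ := Complex.abs_im_le_norm _
      have h4 : ‖x - w‖ < 1 := by simpa [dist_eq_norm] using hx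
      have h5 : |x.im| ≤ |(x - w).im| + |w.im| := by
        have : x.im = (x - w).im + w.im := by simp
        rw [this]
        exact (abs_add_le _ _).trans (by simp)
      linarith
    have h6 : x.im * κ ≤ (|w.im| + 1) * |κ| := by
      calc x.im * κ ≤ |x.im * κ| := le_abs_self _
        _ = |x.im| * |κ| := abs_mul _ _
        _ ≤ _ := mul_le_mul_of_nonneg_right h2 (abs_nonneg _)
    have h7 : 0 < 2 * Real.pi := by positivity
    nlinarith
  have key := hasDerivAt_integral_of_dominated_loc_of_deriv_le (𝕜 := ℂ)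
    (μ := (volume : Measure ℝ)) (F := fun (x : ℂ) (κ : ℝ) => cexp (-(2 * Real.pi * I * x * κ)) * h κ)
    (F' := fun (x : ℂ) (κ : ℝ) => cexp (-(2 * Real.pi * I * x * κ)) * (-(2 * Real.pi * I) * κ * h κ))
    (x₀ := w) (s := Metric.ball w 1)
    (bound := fun κ => Real.exp (2 * Real.pi * ((|w.im| + 1) * |κ|)) * (2 * Real.pi * |κ|) * ‖h κ‖)
    (Metric.ball_mem_nhds w one_pos) ?_ ?_ ?_ ?_ ?_ ?_
  · exact key.2
  · refine Eventually.of_forall fun x => ?_
    exact (integrable_cs hh (by fun_prop)).aestronglyMeasurable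
  · exact integrable_cs hh (by fun_prop)
  · exact (integrable_cs (tst_mul hh _) (by fun_prop)).aestronglyMeasurable
  · exact Eventually.of_forall hb
  · have hc : Continuous (fun κ : ℝ =>
        Real.exp (2 * Real.pi * ((|w.im| + 1) * |κ|)) * (2 * Real.pi * |κ|) * ‖h κ‖) := by
      have := hh.1.continuous
      fun_prop
    exact hc.integrable_of_hasCompactSupport (HasCompactSupport.mul_left hh.2.norm)
  · refine Eventually.of_forall fun κ x _ => ?_
    have h1 : HasDerivAt (fun x : ℂ => -(2 * Real.pi * I * x * κ)) (-(2 * Real.pi * I * κ)) x := by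
      have := ((hasDerivAt_id x).const_mul (2 * (Real.pi : ℂ) * I)).mul_const (κ : ℂ)
      have h3 := this.fun_neg
      simp only [id_eq, mul_one] at h3
      exact h3
    have h2 := (h1.cexp).mul_const (h κ)
    refine h2.congr_deriv ?_
    ring

lemma ibp {h : ℝ → ℂ} (hh : Tst h) (w : ℂ) :
    (2 * Real.pi * I * w) * Hh h w = Hh (deriv h) w := by
  unfold Hh
  have hd : ∀ κ : ℝ, HasDerivAt (fun κ : ℝ => cexp (-(2 * Real.pi * I * w * κ)))
      (cexp (-(2 * Real.pi * I * w * κ)) * (-(2 * Real.pi * I * w))) κ := by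
    intro κ
    have h1 : HasDerivAt (fun κ : ℝ => -(2 * Real.pi * I * w * (κ : ℂ))) (-(2 * Real.pi * I * w)) κ := by
      have := (Complex.ofRealCLM.hasDerivAt (x := κ)).const_mul (2 * (Real.pi : ℂ) * I * w)
      have h3 := this.fun_neg
      simp only [Complex.ofRealCLM_apply, Complex.ofReal_one, mul_one] at h3
      exact h3
    exact h1.cexp
  have hd2 : ∀ κ : ℝ, HasDerivAt h (deriv h κ) κ := fun κ =>
    ((hh.1.differentiable (by simp)) κ).hasDerivAt
  have := integral_mul_deriv_eq_deriv_mul_of_integrable (u := fun κ : ℝ => cexp (-(2 * Real.pi * I * w * κ)))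
    (v := h) (u' := fun κ : ℝ => cexp (-(2 * Real.pi * I * w * κ)) * (-(2 * Real.pi * I * w)))
    (v' := deriv h) (fun x _ => hd x) (fun x _ => hd2 x) (integrable_cs (tst_deriv hh) (by fun_prop))
    (integrable_cs hh (by fun_prop)) (integrable_cs hh (by fun_prop))
  rw [this, ← integral_const_mul, ← integral_neg]
  congr 1
  ext κ
  ring

lemma bound0 {h : ℝ → ℂ} (hh : Tst h) (R : ℝ) : ∃ C : ℝ, ∀ w : ℂ, |w.im| ≤ R → ‖Hh h w‖ ≤ C := by
  refine ⟨∫ κ : ℝ, Real.exp (2 * Real.pi * (R * |κ|)) * ‖h κ‖, fun w hw => ?_⟩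
  unfold Hh
  refine (norm_integral_le_integral_norm _).trans ?_
  refine integral_mono_of_nonneg (Eventually.of_forall fun κ => norm_nonneg _) ?_
    (Eventually.of_forall fun κ => ?_)
  · have hc : Continuous (fun κ : ℝ => Real.exp (2 * Real.pi * (R * |κ|)) * ‖h κ‖) := by
      have := hh.1.continuous
      fun_prop
    exact hc.integrable_of_hasCompactSupport (HasCompactSupport.mul_left hh.2.norm)
  · simp only [norm_mul, norm_exp_le]
    refine mul_le_mul_of_nonneg_right ?_ (norm_nonneg _)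
    apply Real.exp_le_exp.mpr
    have h6 : w.im * κ ≤ R * |κ| := by
      calc w.im * κ ≤ |w.im * κ| := le_abs_self _
        _ = |w.im| * |κ| := abs_mul _ _
        _ ≤ _ := mul_le_mul_of_nonneg_right hw (abs_nonneg _)
    have h7 : 0 < 2 * Real.pi := by positivity
    nlinarith

lemma bound2 {h : ℝ → ℂ} (hh : Tst h) (R : ℝ) :
    ∃ C : ℝ, 0 ≤ C ∧ ∀ w : ℂ, |w.im| ≤ R → ‖Hh h w‖ * (1 + ‖w‖ ^ 2) ≤ C := by
  obtain ⟨C0, h0⟩ := bound0 hh R
  obtain ⟨C2, h2⟩ := bound0 (tst_deriv (tst_deriv hh)) R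
  refine ⟨|C0| + |C2|, by positivity, fun w hw => ?_⟩
  have e : Hh (deriv (deriv h)) w = (2 * Real.pi * I * w) ^ 2 * Hh h w := by
    rw [← ibp (tst_deriv hh), ← ibp hh]; ring
  have h3 : ‖(2 * Real.pi * I * w) ^ 2 * Hh h w‖ ≤ C2 := by rw [← e]; exact h2 w hw
  rw [norm_mul, norm_pow, norm_mul, norm_mul, norm_mul] at h3
  simp only [Complex.norm_I, Complex.norm_real, Real.norm_eq_abs, abs_of_pos Real.pi_pos,
    Complex.norm_ofNat, mul_one] at h3
  have h4 := h0 w hw
  have h5 : 1 ≤ 2 * Real.pi := by linarith [Real.pi_gt_three]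
  have h6 : ‖w‖ ^ 2 ≤ (2 * Real.pi * ‖w‖) ^ 2 := by
    have : ‖w‖ ≤ 2 * Real.pi * ‖w‖ := by nlinarith [norm_nonneg w]
    gcongr
  have h7 : ‖Hh h w‖ * ‖w‖ ^ 2 ≤ C2 := by
    calc ‖Hh h w‖ * ‖w‖ ^ 2 ≤ ‖Hh h w‖ * (2 * Real.pi * ‖w‖) ^ 2 := by gcongr
      _ ≤ C2 := by rw [mul_comm]; exact h3
  have := le_abs_self C0
  have := le_abs_self C2
  nlinarith

/-- decay along the real direction -/
lemma decay {h : ℝ → ℂ} (hh : Tst h) (R : ℝ) :
    ∃ C : ℝ, 0 ≤ C ∧ ∀ z : ℂ, |z.im| ≤ R → ∀ s : ℝ,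
      ‖Hh h ((s : ℂ) - z / (2 * Real.pi))‖ ≤ C * (1 + (s - z.re / (2 * Real.pi)) ^ 2)⁻¹ := by
  obtain ⟨C, hC, hb⟩ := bound2 hh |R|
  refine ⟨C, hC, fun z hz s => ?_⟩
  set w : ℂ := (s : ℂ) - z / (2 * Real.pi) with hw
  have hre : w.re = s - z.re / (2 * Real.pi) := by
    rw [hw]
    have : (2 * (Real.pi : ℂ)) = ((2 * Real.pi : ℝ) : ℂ) := by push_cast; ring
    rw [this, Complex.sub_re, Complex.div_ofReal_re, Complex.ofReal_re]
  have him : w.im = - (z.im / (2 * Real.pi)) := by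
    rw [hw]
    have : (2 * (Real.pi : ℂ)) = ((2 * Real.pi : ℝ) : ℂ) := by push_cast; ring
    rw [this, Complex.sub_im, Complex.div_ofReal_im, Complex.ofReal_im]
    ring
  have h5 : 1 ≤ 2 * Real.pi := by linarith [Real.pi_gt_three]
  have h6 : |w.im| ≤ |R| := by
    rw [him, abs_neg, abs_div, abs_of_pos (by positivity : (0:ℝ) < 2 * Real.pi)]
    calc |z.im| / (2 * Real.pi) ≤ |z.im| := div_le_self (abs_nonneg _) h5
      _ ≤ R := hz
      _ ≤ |R| := le_abs_self R
  have h7 := hb w h6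
  have h8 : (s - z.re / (2 * Real.pi)) ^ 2 ≤ ‖w‖ ^ 2 := by
    rw [← hre, ← Complex.normSq_eq_norm_sq, Complex.normSq_apply]
    nlinarith [mul_self_nonneg w.im]
  rw [← div_eq_mul_inv, le_div_iff₀ (by positivity)]
  refine le_trans ?_ h7
  gcongr

lemma fourier_eq (h : ℝ → ℂ) (z : ℂ) (s : ℝ) :
    𝓕 (fun κ : ℝ => cexp (I * z * κ) * h κ) s = Hh h ((s : ℂ) - z / (2 * Real.pi)) := by
  rw [Real.fourier_eq']
  unfold Hh
  congr 1
  ext κ
  rw [smul_eq_mul, ← mul_assoc, ← Complex.exp_add]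
  congr 2
  have : (Real.pi : ℂ) ≠ 0 := by exact_mod_cast Real.pi_ne_zero
  simp
  field_simp
  ring

lemma Hh_conj (h : ℝ → ℂ) (w : ℂ) :
    starRingEnd ℂ (Hh h w) = Hh (fun κ => starRingEnd ℂ (h (-κ))) (starRingEnd ℂ w) := by
  unfold Hh
  rw [← integral_conj, ← integral_neg_eq_self]
  congr 1
  ext κ
  rw [map_mul, ← Complex.exp_conj]
  congr 2
  simp [Complex.conj_ofNat]

variable {H : Type} [NormedAddCommGroup H] [InnerProductSpace ℂ H] [CompleteSpace H]
  {M : VonNeumannAlgebra H} {ξ : H} {U : ℝ → H →L[ℂ] H}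

lemma norm_U (hU : IsModular M ξ U) (t : ℝ) (v : H) : ‖U t v‖ = ‖v‖ := by
  have h1 : star (U t) * U t = 1 := by
    rw [hU.star_eq, ← hU.add, neg_add_cancel, hU.zero]
  have h2 : ⟪U t v, U t v⟫_ℂ = ⟪v, v⟫_ℂ := by
    rw [← ContinuousLinearMap.adjoint_inner_right, ← ContinuousLinearMap.star_eq_adjoint]
    have : star (U t) (U t v) = (star (U t) * U t) v := rfl
    rw [this, h1]; rfl
  rw [inner_self_eq_norm_sq_to_K, inner_self_eq_norm_sq_to_K] at h2
  have h3 : ‖U t v‖ ^ 2 = ‖v‖ ^ 2 := by exact_mod_cast h2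
  exact (pow_left_inj₀ (norm_nonneg _) (norm_nonneg _) two_ne_zero).mp h3

lemma cont_U (hU : IsModular M ξ U) {f : ℝ → H} (hf : Continuous f) {g : ℝ → ℝ}
    (hg : Continuous g) : Continuous (fun s => U (g s) (f s)) := by
  rw [continuous_iff_continuousAt]
  intro s₀
  have h1 : Tendsto (fun s => U (g s) (f s₀)) (𝓝 s₀) (𝓝 (U (g s₀) (f s₀))) :=
    ((hU.cont (f s₀)).comp hg).tendsto s₀
  have h2 : Tendsto (fun s => U (g s) (f s - f s₀)) (𝓝 s₀) (𝓝 0) := by
    rw [tendsto_zero_iff_norm_tendsto_zero]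
    simp only [norm_U hU]
    have := (hf.tendsto s₀).sub (tendsto_const_nhds (x := f s₀))
    simpa using this.norm
  have h3 := h1.add h2
  simp only [add_zero] at h3
  refine h3.congr fun s => ?_
  rw [← map_add]; congr 1; abel

lemma sgm_apply (hU : IsModular M ξ U) (t : ℝ) (b : H →L[ℂ] H) (v : H) :
    sgm U t b v = U t (b (U (-t) v)) := by
  simp [sgm, hU.star_eq]

lemma sgm_star (t : ℝ) (b : H →L[ℂ] H) : star (sgm U t b) = sgm U t (star b) := by
  simp [sgm, mul_assoc]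

lemma norm_sgm (hU : IsModular M ξ U) (t : ℝ) (b : H →L[ℂ] H) (v : H) :
    ‖sgm U t b v‖ ≤ ‖b‖ * ‖v‖ := by
  rw [sgm_apply hU, norm_U hU]
  refine (b.le_opNorm _).trans ?_
  rw [norm_U hU]

lemma cont_sgm (hU : IsModular M ξ U) (b : H →L[ℂ] H) (v : H) :
    Continuous (fun s : ℝ => sgm U (2 * Real.pi * s) b v) := by
  simp only [sgm_apply hU]
  exact cont_U hU (b.continuous.comp ((hU.cont v).comp (by fun_prop))) (by fun_prop)

lemma cont_Hh {h : ℝ → ℂ} (hh : Tst h) : Continuous (Hh h) :=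
  continuous_iff_continuousAt.mpr fun w => (hasDerivAt_Hh hh w).continuousAt

lemma integrable_Hh {h : ℝ → ℂ} (hh : Tst h) (z : ℂ) :
    Integrable (fun s : ℝ => Hh h ((s : ℂ) - z / (2 * Real.pi))) := by
  obtain ⟨C, hC, hb⟩ := decay hh |z.im|
  have h1 : Integrable (fun s : ℝ => C * (1 + (s - z.re / (2 * Real.pi)) ^ 2)⁻¹) :=
    (integrable_inv_one_add_sq.comp_sub_right _).const_mul C
  refine h1.mono' ?_ (Eventually.of_forall fun s => hb z le_rfl s)
  exact ((cont_Hh hh).comp (by fun_prop)).aestronglyMeasurable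

lemma integrable_int (hU : IsModular M ξ U) {h : ℝ → ℂ} (hh : Tst h) (b : H →L[ℂ] H) (z : ℂ)
    (v : H) : Integrable (fun s : ℝ => Hh h ((s : ℂ) - z / (2 * Real.pi)) •
      sgm U (2 * Real.pi * s) b v) := by
  refine ((integrable_Hh hh z).norm.mul_const (‖b‖ * ‖v‖)).mono' ?_
    (Eventually.of_forall fun s => ?_)
  · have h1 : Continuous (fun s : ℝ => Hh h ((s : ℂ) - z / (2 * Real.pi))) :=
      (cont_Hh hh).comp (by fun_prop)
    exact (h1.smul (cont_sgm hU b v)).aestronglyMeasurable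
  · rw [norm_smul]
    exact mul_le_mul_of_nonneg_left (norm_sgm hU _ _ _) (norm_nonneg _)

/-- the operator -/
def op (hU : IsModular M ξ U) {h : ℝ → ℂ} (hh : Tst h) (b : H →L[ℂ] H) (z : ℂ) : H →L[ℂ] H :=
  LinearMap.mkContinuous
    { toFun := fun v => ∫ s : ℝ, Hh h ((s : ℂ) - z / (2 * Real.pi)) • sgm U (2 * Real.pi * s) b v
      map_add' := fun v w => by
        rw [← integral_add (integrable_int hU hh b z v) (integrable_int hU hh b z w)]
        congr 1; ext s
        rw [map_add, smul_add]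
      map_smul' := fun c v => by
        rw [RingHom.id_apply, ← integral_smul]
        congr 1; ext s
        rw [map_smul, smul_comm] }
    ((∫ s : ℝ, ‖Hh h ((s : ℂ) - z / (2 * Real.pi))‖) * ‖b‖) (fun v => by
      refine (norm_integral_le_integral_norm _).trans ?_
      rw [mul_assoc, ← integral_mul_const]
      refine integral_mono_of_nonneg (Eventually.of_forall fun κ => norm_nonneg _)
        ((integrable_Hh hh z).norm.mul_const _) (Eventually.of_forall fun s => ?_)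
      simp only [norm_smul]
      exact mul_le_mul_of_nonneg_left (norm_sgm hU _ _ _) (norm_nonneg _))

lemma op_apply (hU : IsModular M ξ U) {h : ℝ → ℂ} (hh : Tst h) (b : H →L[ℂ] H) (z : ℂ) (v : H) :
    op hU hh b z v =
      ∫ s : ℝ, Hh h ((s : ℂ) - z / (2 * Real.pi)) • sgm U (2 * Real.pi * s) b v := rfl

lemma op_norm (hU : IsModular M ξ U) {h : ℝ → ℂ} (hh : Tst h) (b : H →L[ℂ] H) (z : ℂ) :
    ‖op hU hh b z‖ ≤ (∫ s : ℝ, ‖Hh h ((s : ℂ) - z / (2 * Real.pi))‖) * ‖b‖ :=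
  LinearMap.mkContinuous_norm_le _ (by positivity) _

lemma op_bdd (hU : IsModular M ξ U) {h : ℝ → ℂ} (hh : Tst h) (b : H →L[ℂ] H) (R : ℝ) :
    ∃ C : ℝ, ∀ z : ℂ, |z.im| ≤ R → ‖op hU hh b z‖ ≤ C := by
  obtain ⟨C, hC, hb⟩ := decay hh R
  refine ⟨(C * ∫ s : ℝ, (1 + s ^ 2)⁻¹) * ‖b‖, fun z hz => (op_norm hU hh b z).trans ?_⟩
  refine mul_le_mul_of_nonneg_right ?_ (norm_nonneg _)
  have h1 : Integrable (fun s : ℝ => C * (1 + (s - z.re / (2 * Real.pi)) ^ 2)⁻¹) :=
    (integrable_inv_one_add_sq.comp_sub_right _).const_mul C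
  calc ∫ s : ℝ, ‖Hh h ((s : ℂ) - z / (2 * Real.pi))‖
      ≤ ∫ s : ℝ, C * (1 + (s - z.re / (2 * Real.pi)) ^ 2)⁻¹ :=
        integral_mono_of_nonneg (Eventually.of_forall fun _ => norm_nonneg _) h1
          (Eventually.of_forall fun s => hb z hz s)
    _ = C * ∫ s : ℝ, (1 + s ^ 2)⁻¹ := by
        rw [integral_const_mul, integral_sub_right_eq_self (fun s : ℝ => (1 + s ^ 2)⁻¹)]

lemma tst_conj {h : ℝ → ℂ} (hh : Tst h) : Tst (fun κ => starRingEnd ℂ (h (-κ))) := by
  refine ⟨?_, ?_⟩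
  · exact Complex.conjCLE.contDiff.comp (hh.1.comp contDiff_neg)
  · have h1 : HasCompactSupport (fun κ : ℝ => h (-κ)) :=
      hh.2.comp_homeomorph (Homeomorph.neg ℝ)
    exact h1.comp_left (map_zero _)

lemma op_star (hU : IsModular M ξ U) {h : ℝ → ℂ} (hh : Tst h) (b : H →L[ℂ] H) (z : ℂ) :
    star (op hU hh b z) = op hU (tst_conj hh) (star b) (starRingEnd ℂ z) := by
  ext v
  refine ext_inner_left ℂ fun w => ?_
  rw [ContinuousLinearMap.star_eq_adjoint, ContinuousLinearMap.adjoint_inner_right, op_apply,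
    op_apply, ← integral_inner (integrable_int hU (tst_conj hh) (star b) _ v), ← inner_conj_symm,
    ← integral_inner (integrable_int hU hh b _ w), ← integral_conj]
  congr 1
  ext s
  rw [inner_conj_symm, inner_smul_left, inner_smul_right]
  congr 1
  · rw [Hh_conj]
    congr 1
    simp [Complex.conj_ofNat]
  · rw [← sgm_star, ContinuousLinearMap.star_eq_adjoint, ContinuousLinearMap.adjoint_inner_right]

lemma op_diff (hU : IsModular M ξ U) {h : ℝ → ℂ} (hh : Tst h) (b : H →L[ℂ] H) (v : H) :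
    Differentiable ℂ (fun z : ℂ => op hU hh b z v) := by
  intro z₀
  have hh' := tst_mul hh (-(2 * Real.pi * I))
  obtain ⟨C, hC, hb⟩ := decay hh' (|z₀.im| + 1)
  simp only [op_apply]
  have hpi : (0 : ℝ) < 2 * Real.pi := by positivity
  have h1pi : 1 ≤ 2 * Real.pi := by linarith [Real.pi_gt_three]
  set K : ℝ := 2 + 2 * (|z₀.re| + 1) ^ 2 with hK
  have hle : ∀ z ∈ Metric.ball z₀ 1, ∀ s : ℝ,
      (1 + (s - z.re / (2 * Real.pi)) ^ 2)⁻¹ ≤ K * (1 + s ^ 2)⁻¹ := by
    intro z hz s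
    have h4 : ‖z - z₀‖ < 1 := by simpa [dist_eq_norm] using hz
    have h5 : |z.re| ≤ |z₀.re| + 1 := by
      have h3 : |(z - z₀).re| ≤ ‖z - z₀‖ := Complex.abs_re_le_norm _
      have h5 : |z.re| ≤ |(z - z₀).re| + |z₀.re| := by
        have : z.re = (z - z₀).re + z₀.re := by simp
        rw [this]
        exact (abs_add_le _ _).trans (by simp)
      linarith
    set a : ℝ := z.re / (2 * Real.pi) with ha
    have h6 : |a| ≤ |z₀.re| + 1 := by
      rw [ha, abs_div, abs_of_pos hpi]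
      exact (div_le_self (abs_nonneg _) h1pi).trans h5
    have h7 : a ^ 2 ≤ (|z₀.re| + 1) ^ 2 := by
      rw [← sq_abs a]
      gcongr
    rw [inv_le_iff_one_le_mul₀ (by positivity), mul_assoc, mul_comm, mul_assoc,
      inv_mul_eq_div, one_le_div (by positivity)]
    have h8 : s ^ 2 ≤ 2 * (s - a) ^ 2 + 2 * a ^ 2 := by nlinarith [sq_nonneg (s - 2 * a)]
    have h9 : 0 ≤ (s - a) ^ 2 := sq_nonneg _
    have h10 : 0 ≤ (|z₀.re| + 1) ^ 2 := sq_nonneg _
    rw [hK]
    nlinarith [mul_nonneg h9 h10]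
  have key := hasDerivAt_integral_of_dominated_loc_of_deriv_le (𝕜 := ℂ)
    (μ := (volume : Measure ℝ))
    (F := fun (z : ℂ) (s : ℝ) => Hh h ((s : ℂ) - z / (2 * Real.pi)) •
      sgm U (2 * Real.pi * s) b v)
    (F' := fun (z : ℂ) (s : ℝ) =>
      (Hh (fun κ : ℝ => -(2 * Real.pi * I) * κ * h κ) ((s : ℂ) - z / (2 * Real.pi)) *
        (-(1 / (2 * Real.pi)))) • sgm U (2 * Real.pi * s) b v)
    (x₀ := z₀) (s := Metric.ball z₀ 1)
    (bound := fun s => C * (K * (1 + s ^ 2)⁻¹) * (‖b‖ * ‖v‖))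
    (Metric.ball_mem_nhds z₀ one_pos) ?_ ?_ ?_ ?_ ?_ ?_
  · exact key.2.differentiableAt
  · refine Eventually.of_forall fun z => ?_
    exact (integrable_int hU hh b z v).aestronglyMeasurable
  · exact integrable_int hU hh b z₀ v
  · have h1 : Continuous (fun s : ℝ => Hh (fun κ : ℝ => -(2 * Real.pi * I) * κ * h κ)
        ((s : ℂ) - z₀ / (2 * Real.pi))) := (cont_Hh hh').comp (by fun_prop)
    exact ((h1.mul continuous_const).smul (cont_sgm hU b v)).aestronglyMeasurable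
  · refine Eventually.of_forall fun s z hz => ?_
    rw [norm_smul, norm_mul]
    have h1 : ‖-(1 / (2 * (Real.pi : ℂ)))‖ ≤ 1 := by
      rw [norm_neg, norm_div, norm_one, norm_mul, Complex.norm_ofNat, Complex.norm_real,
        Real.norm_eq_abs, abs_of_pos Real.pi_pos]
      exact (div_le_one hpi).mpr h1pi
    have h2 : |z.im| ≤ |z₀.im| + 1 := by
      have h3 : |(z - z₀).im| ≤ ‖z - z₀‖ := Complex.abs_im_le_norm _
      have h4 : ‖z - z₀‖ < 1 := by simpa [dist_eq_norm] using hz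
      have h5 : |z.im| ≤ |(z - z₀).im| + |z₀.im| := by
        have : z.im = (z - z₀).im + z₀.im := by simp
        rw [this]
        exact (abs_add_le _ _).trans (by simp)
      linarith
    have h3 := hb z h2 s
    have h4 := hle z hz s
    refine mul_le_mul ?_ (norm_sgm hU _ _ _) (norm_nonneg _) (by positivity)
    calc _ ≤ (C * (1 + (s - z.re / (2 * Real.pi)) ^ 2)⁻¹) * 1 :=
          mul_le_mul h3 h1 (norm_nonneg _) (by positivity)
      _ ≤ C * (K * (1 + s ^ 2)⁻¹) := by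
          rw [mul_one]; exact mul_le_mul_of_nonneg_left h4 hC
  · exact ((integrable_inv_one_add_sq.const_mul K).const_mul C).mul_const _
  · refine Eventually.of_forall fun s z _ => ?_
    have h1 : HasDerivAt (fun z : ℂ => (s : ℂ) - z / (2 * Real.pi)) (-(1 / (2 * Real.pi))) z := by
      have := ((hasDerivAt_id z).div_const (2 * (Real.pi : ℂ))).const_sub (s : ℂ)
      simpa using this
    exact ((hasDerivAt_Hh hh _).comp z h1).smul_const _

lemma op_ext (hU : IsModular M ξ U) {h : ℝ → ℂ} (hh : Tst h) (b : H →L[ℂ] H) (t : ℝ) :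
    op hU hh b t = sgm U t (op hU hh b 0) := by
  ext v
  rw [sgm_apply hU, op_apply, op_apply, ← ContinuousLinearMap.integral_comp_comm _
    (integrable_int hU hh b 0 _)]
  symm
  rw [← integral_sub_right_eq_self (μ := (volume : Measure ℝ)) (g := t / (2 * Real.pi))]
  congr 1
  ext s
  have hpi : (Real.pi : ℂ) ≠ 0 := by exact_mod_cast Real.pi_ne_zero
  have h1 : (((s - t / (2 * Real.pi) : ℝ) : ℂ)) - 0 / (2 * Real.pi) =
      (s : ℂ) - (t : ℂ) / (2 * Real.pi) := by push_cast; ring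
  rw [h1, map_smul]
  congr 1
  rw [sgm_apply hU, sgm_apply hU]
  have h2 : 2 * Real.pi * s = t + 2 * Real.pi * (s - t / (2 * Real.pi)) := by
    field_simp; ring
  have h3 : ∀ (a c : ℝ) (w : H), U (a + c) w = U a (U c w) := fun a c w => by
    rw [hU.add]; rfl
  have h4 : -(2 * Real.pi * s) = -(2 * Real.pi * (s - t / (2 * Real.pi))) + -t := by
    field_simp; ring
  rw [h4, h3 _ (-t), ← h3 t, ← h2]

lemma op_mem (hU : IsModular M ξ U) {h : ℝ → ℂ} (hh : Tst h) (b : H →L[ℂ] H) (hb : b ∈ M)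
    (z : ℂ) : op hU hh b z ∈ M := by
  have key : ∀ T : H →L[ℂ] H, T ∈ M.commutant.commutant → T ∈ M := fun T hT => by
    rw [M.commutant_commutant] at hT; exact hT
  apply key
  rw [VonNeumannAlgebra.mem_commutant_iff]
  intro y hy
  rw [VonNeumannAlgebra.mem_commutant_iff] at hy
  ext v
  change y (op hU hh b z v) = op hU hh b z (y v)
  rw [op_apply, op_apply, ← ContinuousLinearMap.integral_comp_comm _ (integrable_int hU hh b z _)]
  congr 1
  ext s
  rw [map_smul]
  congr 1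
  have := hy _ (hU.mem (2 * Real.pi * s) b hb)
  have h2 := congrArg (fun T : H →L[ℂ] H => T v) this
  exact h2.symm

theorem phi_thm (h1 : S_psi) : S_phi := by
  intro H _ _ _ M ξ U hU h hh b hb
  have hfix : ∀ (t : ℝ) (b : H →L[ℂ] H), sgm U t b ξ = U t (b ξ) := fun t b => by
    rw [sgm_apply hU, hU.fix]
  refine ⟨fun z => op hU hh b z, ⟨?_, ?_, ?_, ?_, ?_⟩, ?_, ?_⟩
  · exact fun z => op_mem hU hh b hb z
  · exact fun v => op_diff hU hh b v
  · intro v
    simp only [op_star, Complex.conj_conj]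
    exact op_diff hU (tst_conj hh) (star b) v
  · intro t
    exact op_ext hU hh b t
  · exact fun R => op_bdd hU hh b R
  · intro z
    rw [op_apply]
    unfold psi
    congr 1
    ext s
    rw [fourier_eq, hfix]
  · intro z
    rw [op_star, op_apply]
    unfold psi
    congr 1
    ext s
    rw [hfix]
    congr 1
    have e : (fun κ : ℝ => starRingEnd ℂ (cexp (I * z * ((-κ : ℝ) : ℂ)) * h (-κ))) =
        (fun κ : ℝ => cexp (I * (starRingEnd ℂ z) * κ) * (starRingEnd ℂ (h (-κ)))) := by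
      ext κ
      rw [map_mul, ← Complex.exp_conj]
      congr 2
      simp
    rw [e, fourier_eq]

end

end Pool.Agent.H255.BC.T_phi

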