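import Pool.Agent.H255.BC.Defs

set_option autoImplicit false

open MeasureTheory Filter Topology Complex
open scoped InnerProductSpace ENNReal FourierTransform

namespace Pool.Agent.H255.BC.T_ps

open Pool.Agent.W662.CB Pool.Agent.H255.BC

section basics

variable {H : Type} [NormedAddCommGroup H] [InnerProductSpace ℂ H] [CompleteSpace H]
  {M : VonNeumannAlgebra H} {ξ : H} {U : ℝ → H →L[ℂ] H} {J : H → H}

theorem J_norm (hJ : IsConj M ξ U J) (v : H) : ‖J v‖ = ‖v‖ := by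
  have h := hJ.inner v v
  rw [inner_self_eq_norm_sq_to_K, inner_self_eq_norm_sq_to_K] at h
  have h2 : ‖J v‖ ^ 2 = ‖v‖ ^ 2 := by exact_mod_cast h
  exact (pow_left_inj₀ (norm_nonneg _) (norm_nonneg _) two_ne_zero).1 h2

theorem J_zero (hJ : IsConj M ξ U J) : J 0 = 0 := by
  rw [← norm_eq_zero, J_norm hJ, norm_zero]

theorem J_neg (hJ : IsConj M ξ U J) (v : H) : J (-v) = -J v := by
  have h := hJ.add v (-v)
  rw [add_neg_cancel, J_zero hJ] at h
  exact (neg_eq_of_add_eq_zero_right h.symm).symm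

theorem J_sub (hJ : IsConj M ξ U J) (v w : H) : J (v - w) = J v - J w := by
  rw [sub_eq_add_neg, hJ.add, J_neg hJ, sub_eq_add_neg]

theorem J_isom (hJ : IsConj M ξ U J) : Isometry J := by
  refine Isometry.of_dist_eq fun v w => ?_
  rw [dist_eq_norm, dist_eq_norm, ← J_sub hJ, J_norm hJ]

theorem J_cont (hJ : IsConj M ξ U J) : Continuous J := (J_isom hJ).continuous

theorem J_sum (hJ : IsConj M ξ U J) {ι : Type} (s : Finset ι) (f : ι → H) :
    J (∑ i ∈ s, f i) = ∑ i ∈ s, J (f i) := by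
  classical
  induction s using Finset.induction_on with
  | empty => simp [J_zero hJ]
  | insert a s ha ih => rw [Finset.sum_insert ha, Finset.sum_insert ha, hJ.add, ih]

/-- `⟪J v, w⟫ = ⟪J w, v⟫` -/
theorem J_swap (hJ : IsConj M ξ U J) (v w : H) : ⟪J v, w⟫_ℂ = ⟪J w, v⟫_ℂ := by
  have h := hJ.inner v (J w)
  rwa [hJ.inv] at h

theorem one_mem' : (1 : H →L[ℂ] H) ∈ M := one_mem M

/-- two entire functions which agree on the real line are equal -/
theorem ident {E : Type} [NormedAddCommGroup E] [NormedSpace ℂ E] [CompleteSpace E] {f g : ℂ → E}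
    (hf : Differentiable ℂ f) (hg : Differentiable ℂ g) (h : ∀ t : ℝ, f t = g t) : f = g := by
  have hfa : AnalyticOnNhd ℂ f Set.univ := fun z _ => hf.analyticAt z
  have hga : AnalyticOnNhd ℂ g Set.univ := fun z _ => hg.analyticAt z
  refine hfa.eq_of_frequently_eq hga (z₀ := 0) ?_
  have h2 : ∃ᶠ t : ℝ in 𝓝[≠] (0 : ℝ), True := by
    rw [frequently_true_iff_neBot]
    infer_instance
  have h3 : Tendsto (fun t : ℝ => (t : ℂ)) (𝓝[≠] (0 : ℝ)) (𝓝[≠] (0 : ℂ)) := by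
    rw [tendsto_nhdsWithin_iff]
    refine ⟨?_, ?_⟩
    · have : Tendsto (fun t : ℝ => (t : ℂ)) (𝓝 (0 : ℝ)) (𝓝 ((0 : ℝ) : ℂ)) :=
        Complex.continuous_ofReal.tendsto 0
      rw [Complex.ofReal_zero] at this
      exact this.mono_left nhdsWithin_le_nhds
    · filter_upwards [self_mem_nhdsWithin] with t ht
      simpa using ht
  exact h3.frequently (h2.mono fun t _ => h t)

theorem sgm_add (hU : IsModular M ξ U) (s t : ℝ) (x : H →L[ℂ] H) :
    sgm U (s + t) x = sgm U s (sgm U t x) := by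
  unfold sgm
  rw [hU.add, star_mul]
  simp only [mul_assoc]

theorem sgm_star (x : H →L[ℂ] H) (t : ℝ) : star (sgm U t x) = sgm U t (star x) := by
  unfold sgm
  rw [star_mul, star_mul, star_star, mul_assoc]

theorem U_fix_star (hU : IsModular M ξ U) (t : ℝ) : star (U t) ξ = ξ := by
  rw [hU.star_eq, hU.fix]

theorem sgm_fix (hU : IsModular M ξ U) (t : ℝ) (x : H →L[ℂ] H) : sgm U t x ξ = U t (x ξ) := by
  unfold sgm
  rw [mul_apply_eq_comp, mul_apply_eq_comp, U_fix_star hU]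

theorem U_inner (hU : IsModular M ξ U) (t : ℝ) (v w : H) : ⟪U t v, U t w⟫_ℂ = ⟪v, w⟫_ℂ := by
  rw [← ContinuousLinearMap.adjoint_inner_right, ← ContinuousLinearMap.star_eq_adjoint, hU.star_eq,
    ← mul_apply_eq_comp, ← hU.add, neg_add_cancel, hU.zero]
  rfl

/-- covariance of the analytic extension -/
theorem cov (hU : IsModular M ξ U) {F : ℂ → H →L[ℂ] H} (hF : IsAn M U F) (t : ℝ) (z : ℂ) :
    F (t + z) = sgm U t (F z) := by
  ext v
  have h1 : Differentiable ℂ (fun z : ℂ => F (t + z) v) :=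
    (hF.diff v).comp ((differentiable_const _).add differentiable_id)
  have h2 : Differentiable ℂ (fun z : ℂ => sgm U t (F z) v) := by
    unfold sgm
    simp only [mul_apply_eq_comp]
    exact (U t).differentiable.comp (hF.diff _)
  have h3 := ident h1 h2 (fun s => by
    show F ((t : ℂ) + (s : ℂ)) v = sgm U t (F s) v
    rw [← Complex.ofReal_add, hF.ext, hF.ext s, sgm_add hU])
  exact congrFun h3 z

omit [CompleteSpace H] in
/-- the pairing of an antiholomorphic and a holomorphic function -/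
theorem diff_inner {G K : ℂ → H} (hG : Differentiable ℂ G) (hK : Differentiable ℂ K) :
    Differentiable ℂ fun z => ⟪G (starRingEnd ℂ z), K z⟫_ℂ := by
  intro z
  have h1 := (hG (starRingEnd ℂ z)).hasDerivAt
  have h2 := (hK z).hasDerivAt
  rw [hasDerivAt_iff_tendsto_slope_zero] at h1 h2
  have hc : Tendsto (starRingEnd ℂ) (𝓝[≠] (0 : ℂ)) (𝓝[≠] (0 : ℂ)) := by
    rw [tendsto_nhdsWithin_iff]
    refine ⟨?_, ?_⟩
    · have := Complex.continuous_conj.tendsto (0 : ℂ)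
      rw [map_zero] at this
      exact this.mono_left nhdsWithin_le_nhds
    · filter_upwards [self_mem_nhdsWithin] with t ht
      simpa using ht
  have h3 := h1.comp hc
  have h4 : Tendsto (fun h : ℂ => K (z + h)) (𝓝[≠] (0 : ℂ)) (𝓝 (K z)) := by
    have : Tendsto (fun h : ℂ => K (z + h)) (𝓝 (0 : ℂ)) (𝓝 (K (z + 0))) :=
      ((hK.continuous.comp (continuous_const.add continuous_id)).tendsto 0)
    rw [add_zero] at this
    exact this.mono_left nhdsWithin_le_nhds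
  have h5 := (h3.inner (𝕜 := ℂ) h4).add
    ((tendsto_const_nhds (x := G (starRingEnd ℂ z))).inner (𝕜 := ℂ) h2)
  refine HasDerivAt.differentiableAt (f' := ⟪deriv G (starRingEnd ℂ z), K z⟫_ℂ +
    ⟪G (starRingEnd ℂ z), deriv K z⟫_ℂ) ?_
  rw [hasDerivAt_iff_tendsto_slope_zero]
  refine h5.congr fun h => ?_
  simp only [Function.comp_apply]
  rw [inner_smul_left, inner_smul_right, smul_eq_mul, map_inv₀, Complex.conj_conj, ← mul_add,
    map_add, inner_sub_left, inner_sub_right]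
  congr 1
  ring

/-- positivity for analytic elements -/
theorem pos_an (hU : IsModular M ξ U) (hJ : IsConj M ξ U J) {F : ℂ → H →L[ℂ] H} (hF : IsAn M U F) :
    ⟪ξ, F 0 (J (F 0 ξ))⟫_ℂ = ((‖star (F (I / 4)) ξ‖ ^ 2 : ℝ) : ℂ) := by
  set G : ℂ → H := fun z => star (F (starRingEnd ℂ z)) ξ with hG
  have hGd : Differentiable ℂ G := hF.diff' ξ
  have hGt : ∀ (t : ℝ) (z : ℂ), G (t + z) = U t (G z) := by
    intro t z
    rw [hG]
    show star (F (starRingEnd ℂ (t + z))) ξ = U t (star (F (starRingEnd ℂ z)) ξ)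
    rw [map_add, Complex.conj_ofReal, cov hU hF, sgm_star, sgm_fix hU]
  set g : ℂ → ℂ := fun z => ⟪G (starRingEnd ℂ z), G (z - I / 2)⟫_ℂ with hg
  have hgd : Differentiable ℂ g :=
    diff_inner hGd (hGd.comp (differentiable_id.sub_const _))
  have hgc : g = fun _ => g 0 := by
    refine ident hgd (differentiable_const _) fun t => ?_
    rw [hg]
    show ⟪G (starRingEnd ℂ (t : ℂ)), G (t - I / 2)⟫_ℂ = ⟪G (starRingEnd ℂ (0 : ℂ)), G (0 - I / 2)⟫_ℂ
    rw [Complex.conj_ofReal, map_zero]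
    have h1 := hGt t 0
    have h2 := hGt t (0 - I / 2)
    rw [add_zero] at h1
    have e : (t : ℂ) + (0 - I / 2) = t - I / 2 := by ring
    rw [e] at h2
    rw [h1, h2, U_inner hU]
  have h1 : g (I / 4) = g 0 := congrFun hgc (I / 4)
  have e0 : g 0 = ⟪ξ, F 0 (J (F 0 ξ))⟫_ℂ := by
    rw [hg, hG]
    simp only [map_zero, zero_sub, map_neg, map_div₀, Complex.conj_I, map_ofNat]
    rw [neg_div, neg_neg, hJ.an F hF, ContinuousLinearMap.star_eq_adjoint,
      ContinuousLinearMap.adjoint_inner_left]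
  have e1 : g (I / 4) = ((‖star (F (I / 4)) ξ‖ ^ 2 : ℝ) : ℂ) := by
    rw [hg, hG]
    have e2 : (starRingEnd ℂ) ((starRingEnd ℂ) (I / 4)) = I / 4 := by simp
    have e3 : (starRingEnd ℂ) (I / 4 - I / 2) = I / 4 := by
      simp only [map_sub, map_div₀, Complex.conj_I, map_ofNat]
      ring
    simp only []
    rw [e2, e3, inner_self_eq_norm_sq_to_K]
    push_cast
    rfl
  rw [← e0, ← h1, e1]

/-- nonnegative real complex numbers -/
def NN : Set ℂ := {z : ℂ | 0 ≤ z.re ∧ z.im = 0}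

theorem NN_closed : IsClosed NN :=
  (isClosed_le continuous_const Complex.continuous_re).inter
    (isClosed_eq Complex.continuous_im continuous_const)

theorem NN_ofReal {r : ℝ} (hr : 0 ≤ r) : (r : ℂ) ∈ NN := ⟨by simpa using hr, by simp⟩

theorem NN_add {z w : ℂ} (hz : z ∈ NN) (hw : w ∈ NN) : z + w ∈ NN :=
  ⟨by rw [Complex.add_re]; exact add_nonneg hz.1 hw.1, by rw [Complex.add_im, hz.2, hw.2, add_zero]⟩

theorem NN_sum {ι : Type} (s : Finset ι) (f : ι → ℂ) (h : ∀ i ∈ s, f i ∈ NN) : ∑ i ∈ s, f i ∈ NN := by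
  classical
  induction s using Finset.induction_on with
  | empty => exact ⟨by simp, by simp⟩
  | insert a s ha ih =>
    rw [Finset.sum_insert ha]
    exact NN_add (h a (Finset.mem_insert_self _ _)) (ih fun i hi => h i (Finset.mem_insert_of_mem hi))

/-- positivity -/
theorem pos_gen (hA8a : S_A8a) (hU : IsModular M ξ U) (hJ : IsConj M ξ U J) {c : H →L[ℂ] H} (hc : c ∈ M) :
    ⟪ξ, c (J (c ξ))⟫_ℂ ∈ NN := by
  obtain ⟨F, hF, hlim⟩ := hA8a H M ξ U hU c hc
  obtain ⟨C, hC⟩ := banach_steinhaus (g := fun n => F n 0) (fun v => by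
    obtain ⟨C, hC⟩ := (Metric.isBounded_range_of_tendsto _ (hlim v)).exists_norm_le
    exact ⟨C, fun n => hC _ ⟨n, rfl⟩⟩)
  have h1 : Tendsto (fun n => F n 0 (J (F n 0 ξ))) atTop (𝓝 (c (J (c ξ)))) := by
    have h2 : Tendsto (fun n => J (F n 0 ξ)) atTop (𝓝 (J (c ξ))) :=
      ((J_cont hJ).tendsto _).comp (hlim ξ)
    have h3 : Tendsto (fun n => F n 0 (J (F n 0 ξ) - J (c ξ))) atTop (𝓝 0) := by
      refine squeeze_zero_norm (fun n => ((F n 0).le_opNorm _).trans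
        (mul_le_mul_of_nonneg_right (hC n) (norm_nonneg _))) ?_
      have h4 := (h2.sub_const (J (c ξ))).norm.const_mul C
      rwa [sub_self, norm_zero, mul_zero] at h4
    have h5 := h3.add (hlim (J (c ξ)))
    rw [zero_add] at h5
    refine h5.congr fun n => ?_
    rw [map_sub, sub_add_cancel]
  have h2 : Tendsto (fun n => ⟪ξ, F n 0 (J (F n 0 ξ))⟫_ℂ) atTop (𝓝 ⟪ξ, c (J (c ξ))⟫_ℂ) :=
    tendsto_const_nhds.inner h1
  refine NN_closed.mem_of_tendsto h2 (Eventually.of_forall fun n => ?_)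
  rw [pos_an hU hJ (hF n)]
  exact NN_ofReal (sq_nonneg _)

theorem adj_l (a : H →L[ℂ] H) (v w : H) : ⟪a v, w⟫_ℂ = ⟪v, star a w⟫_ℂ := by
  rw [ContinuousLinearMap.star_eq_adjoint, ContinuousLinearMap.adjoint_inner_right]

/-- positivity of the pairing of two generators of the cone -/
theorem pos_pair (hA8a : S_A8a) (hU : IsModular M ξ U) (hJ : IsConj M ξ U J) {a b : H →L[ℂ] H}
    (ha : a ∈ M) (hb : b ∈ M) : ⟪b (J (b (J ξ))), a (J (a (J ξ)))⟫_ℂ ∈ NN := by
  have hc : star b * a ∈ M := mul_mem (star_mem hb) ha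
  have h1 := pos_gen hA8a hU hJ hc
  have h2 : ⟪b (J (b (J ξ))), a (J (a (J ξ)))⟫_ℂ = ⟪ξ, (star b * a) (J ((star b * a) ξ))⟫_ℂ := by
    rw [hJ.fix, adj_l, ← mul_apply_eq_comp, J_swap hJ, ← hJ.inv (J ((star b * a) (J (a ξ))))]
    have h3 := hJ.comm (star b) (star b * a) (star_mem hb) hc (J (J (a ξ)))
    rw [hJ.inv] at h3
    have h4 : ⟪J (J (J ((star b * a) (J (a ξ))))), b ξ⟫_ℂ =
        ⟪star b (J ((star b * a) (J (a ξ)))), ξ⟫_ℂ := by
      rw [hJ.inv, adj_l (star b), star_star]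
    rw [h4]
    have h5 := hJ.comm (star b) (star b * a) (star_mem hb) hc (a ξ)
    rw [h5, J_swap hJ, hJ.fix, mul_apply_eq_comp (star b) a ξ]
  rw [h2]
  exact h1

theorem smul_mem' (c : ℂ) {a : H →L[ℂ] H} (ha : a ∈ M) : c • a ∈ M :=
  M.toStarSubalgebra.smul_mem ha c

/-- the algebraic cone -/
def C0 (M : VonNeumannAlgebra H) (ξ : H) (J : H → H) : Set H :=
  {ζ : H | ∃ (k : ℕ) (a : Fin k → H →L[ℂ] H), (∀ i, a i ∈ M) ∧
    ζ = ∑ i, (a i) (J ((a i) (J ξ)))}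

theorem cone_eq (M : VonNeumannAlgebra H) (ξ : H) (J : H → H) : cone M ξ J = closure (C0 M ξ J) := rfl

theorem C0_zero : (0 : H) ∈ C0 M ξ J := ⟨0, fun _ => 1, fun i => i.elim0, by simp⟩

theorem C0_gen {a : H →L[ℂ] H} (ha : a ∈ M) : a (J (a (J ξ))) ∈ C0 M ξ J :=
  ⟨1, fun _ => a, fun _ => ha, by simp⟩

theorem C0_add {v w : H} (hv : v ∈ C0 M ξ J) (hw : w ∈ C0 M ξ J) : v + w ∈ C0 M ξ J := by
  obtain ⟨k, a, ha, rfl⟩ := hv
  obtain ⟨l, b, hb, rfl⟩ := hw
  refine ⟨k + l, Fin.append a b, ?_, ?_⟩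
  · intro i
    refine Fin.addCases (fun i => ?_) (fun i => ?_) i
    · rw [Fin.append_left]; exact ha i
    · rw [Fin.append_right]; exact hb i
  · rw [Fin.sum_univ_add]
    congr 1
    · exact Finset.sum_congr rfl fun i _ => by rw [Fin.append_left]
    · exact Finset.sum_congr rfl fun i _ => by rw [Fin.append_right]

theorem C0_smul (hJ : IsConj M ξ U J) {v : H} (hv : v ∈ C0 M ξ J) {r : ℝ} (hr : 0 ≤ r) :
    r • v ∈ C0 M ξ J := by
  obtain ⟨k, a, ha, rfl⟩ := hv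
  refine ⟨k, fun i => ((Real.sqrt r : ℝ) : ℂ) • a i, fun i => smul_mem' _ (ha i), ?_⟩
  rw [Finset.smul_sum]
  refine Finset.sum_congr rfl fun i _ => ?_
  rw [smul_apply, smul_apply, hJ.smul, Complex.conj_ofReal,
    map_smul, smul_smul, ← Complex.ofReal_mul, Real.mul_self_sqrt hr, Complex.coe_smul]

theorem alf_gen (hJ : IsConj M ξ U J) {a b : H →L[ℂ] H} (ha : a ∈ M) (hb : b ∈ M) :
    a (J (a (J (b (J (b (J ξ))))))) = (a * b) (J ((a * b) (J ξ))) := by
  rw [hJ.fix]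
  have h1 : J (b (J (b ξ))) = b (J (b ξ)) := by
    have := hJ.comm b b hb hb ξ
    rw [hJ.fix] at this
    exact this.symm
  rw [h1]
  have h2 := hJ.comm a b ha hb (b ξ)
  -- a (J (b (J (b ξ)))) = J (b (J (a (b ξ))))
  have h3 : a (b (J (b ξ))) = a (J (b (J (b ξ)))) := by rw [h1]
  rw [h3, h2, hJ.inv]
  rfl

theorem C0_alf (hJ : IsConj M ξ U J) {v : H} (hv : v ∈ C0 M ξ J) {a : H →L[ℂ] H} (ha : a ∈ M) :
    a (J (a (J v))) ∈ C0 M ξ J := by
  obtain ⟨k, b, hb, rfl⟩ := hv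
  refine ⟨k, fun i => a * b i, fun i => mul_mem ha (hb i), ?_⟩
  rw [J_sum hJ, map_sum, J_sum hJ, map_sum]
  exact Finset.sum_congr rfl fun i _ => alf_gen hJ ha (hb i)

theorem C0_J (hJ : IsConj M ξ U J) {v : H} (hv : v ∈ C0 M ξ J) : J v = v := by
  obtain ⟨k, b, hb, rfl⟩ := hv
  rw [J_sum hJ]
  refine Finset.sum_congr rfl fun i _ => ?_
  have h := hJ.comm (b i) (b i) (hb i) (hb i) ξ
  rw [hJ.fix] at h ⊢
  exact h.symm

theorem C0_pair (hA8a : S_A8a) (hU : IsModular M ξ U) (hJ : IsConj M ξ U J) {v w : H}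
    (hv : v ∈ C0 M ξ J) (hw : w ∈ C0 M ξ J) : ⟪v, w⟫_ℂ ∈ NN := by
  obtain ⟨k, b, hb, rfl⟩ := hv
  obtain ⟨l, a, ha, rfl⟩ := hw
  rw [sum_inner]
  refine NN_sum _ _ fun i _ => ?_
  rw [inner_sum]
  exact NN_sum _ _ fun j _ => pos_pair hA8a hU hJ (ha j) (hb i)

theorem cone_pair (hA8a : S_A8a) (hU : IsModular M ξ U) (hJ : IsConj M ξ U J) {v w : H}
    (hv : v ∈ cone M ξ J) (hw : w ∈ cone M ξ J) : ⟪v, w⟫_ℂ ∈ NN := by
  have h1 : ∀ v ∈ C0 M ξ J, ∀ w ∈ cone M ξ J, ⟪v, w⟫_ℂ ∈ NN := by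
    intro v hv w hw
    have hcl : IsClosed {w : H | ⟪v, w⟫_ℂ ∈ NN} :=
      NN_closed.preimage (continuous_const.inner continuous_id)
    exact closure_minimal (fun w hw => C0_pair hA8a hU hJ hv hw) hcl hw
  have hcl : IsClosed {v : H | ⟪v, w⟫_ℂ ∈ NN} :=
    NN_closed.preimage (continuous_id.inner continuous_const)
  exact closure_minimal (fun v hv => h1 v hv w hw) hcl hv

theorem cone_convex (hJ : IsConj M ξ U J) : Convex ℝ (cone M ξ J) := by
  rw [cone_eq]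
  refine Convex.closure ?_
  intro v hv w hw a b ha hb _
  exact C0_add (C0_smul hJ hv ha) (C0_smul hJ hw hb)

theorem cone_zero : (0 : H) ∈ cone M ξ J := subset_closure C0_zero

theorem cone_smul (hJ : IsConj M ξ U J) {v : H} (hv : v ∈ cone M ξ J) {r : ℝ} (hr : 0 ≤ r) :
    r • v ∈ cone M ξ J := by
  rw [cone_eq] at hv ⊢
  exact map_mem_closure (f := fun v : H => r • v) (continuous_const_smul r) hv
    (fun v hv => C0_smul hJ hv hr)

theorem cone_alf (hJ : IsConj M ξ U J) {v : H} (hv : v ∈ cone M ξ J) {a : H →L[ℂ] H} (ha : a ∈ M) :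
    a (J (a (J v))) ∈ cone M ξ J := by
  rw [cone_eq] at hv ⊢
  refine map_mem_closure (f := fun v : H => a (J (a (J v)))) ?_ hv (fun v hv => C0_alf hJ hv ha)
  exact a.continuous.comp ((J_cont hJ).comp (a.continuous.comp (J_cont hJ)))

theorem cone_J (hJ : IsConj M ξ U J) {v : H} (hv : v ∈ cone M ξ J) : J v = v := by
  have hcl : IsClosed {v : H | J v = v} := isClosed_eq (J_cont hJ) continuous_id
  exact closure_minimal (fun v hv => C0_J hJ hv) hcl hv

theorem cone_xi (hJ : IsConj M ξ U J) : ξ ∈ cone M ξ J := by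
  refine subset_closure ?_
  have h := C0_gen (M := M) (ξ := ξ) (J := J) (a := 1) (one_mem M)
  have e : (1 : H →L[ℂ] H) (J ((1 : H →L[ℂ] H) (J ξ))) = ξ := by
    rw [hJ.fix]
    exact hJ.fix
  rwa [e] at h

theorem quad_zero {A B : ℝ} (h : ∀ t : ℝ, 0 ≤ t * (2 * A) + t ^ 2 * B) : A = 0 := by
  by_contra hA
  have hB : 0 < |B| + 1 := by positivity
  have h1 := h (-A / (|B| + 1))
  have h2 : -A / (|B| + 1) * (2 * A) + (-A / (|B| + 1)) ^ 2 * B =
      (A ^ 2 / (|B| + 1)) * (-2 + B / (|B| + 1)) := by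
    field_simp
  rw [h2] at h1
  have h3 : B / (|B| + 1) < 1 := by
    rw [div_lt_one hB]
    linarith [le_abs_self B]
  have h4 : 0 < A ^ 2 / (|B| + 1) := by positivity
  nlinarith

/-- the nearest point of the cone -/
theorem moreau (hJ : IsConj M ξ U J) {η : H} (hη : J η = η) :
    ∃ p : H, p ∈ cone M ξ J ∧ (∀ w ∈ cone M ξ J, 0 ≤ (⟪p - η, w⟫_ℂ).re) ∧
      (∀ c : H →L[ℂ] H, c ∈ M → ⟪p - η, c p⟫_ℂ = 0) := by
  let _ : InnerProductSpace ℝ H := InnerProductSpace.rclikeToReal ℂ H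
  obtain ⟨p, hp, hmin⟩ := exists_norm_eq_iInf_of_complete_convex (K := cone M ξ J) ⟨0, cone_zero⟩
    (isClosed_closure.isComplete) (cone_convex hJ) η
  rw [norm_eq_iInf_iff_real_inner_le_zero (cone_convex hJ) hp] at hmin
  have h1 : ∀ w ∈ cone M ξ J, (⟪p - η, p⟫_ℂ).re ≤ (⟪p - η, w⟫_ℂ).re := by
    intro w hw
    have h2 := hmin w hw
    rw [real_inner_eq_re_inner ℂ] at h2
    have h3 : ⟪η - p, w - p⟫_ℂ = ⟪p - η, p⟫_ℂ - ⟪p - η, w⟫_ℂ := by
      rw [← neg_sub p η, inner_neg_left, inner_sub_right]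
      ring
    rw [h3, map_sub] at h2
    have h4 : (⟪p - η, p⟫_ℂ).re - (⟪p - η, w⟫_ℂ).re ≤ 0 := h2
    linarith
  have h0 : (⟪p - η, p⟫_ℂ).re = 0 := by
    have h2 := h1 0 cone_zero
    have h3 := h1 ((2 : ℝ) • p) (cone_smul hJ hp (by norm_num))
    rw [inner_zero_right, Complex.zero_re] at h2
    have h4 : ⟪p - η, (2 : ℝ) • p⟫_ℂ = (2 : ℂ) * ⟪p - η, p⟫_ℂ := by
      rw [← Complex.coe_smul, inner_smul_right, Complex.ofReal_ofNat]
    rw [h4] at h3
    have h5 : ((2 : ℂ) * ⟪p - η, p⟫_ℂ).re = 2 * (⟪p - η, p⟫_ℂ).re := by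
      simp
    rw [h5] at h3
    linarith
  have hJp := cone_J hJ hp
  have hJq : J (p - η) = p - η := by rw [J_sub hJ, hJp, hη]
  have hkey : ∀ c : H →L[ℂ] H, c ∈ M → (⟪p - η, c p⟫_ℂ).re = 0 := by
    intro c hc
    apply quad_zero (B := (⟪p - η, c (J (c p))⟫_ℂ).re)
    intro t
    have hm : (1 : H →L[ℂ] H) + ((t : ℝ) : ℂ) • c ∈ M := add_mem (one_mem M) (smul_mem' _ hc)
    have h2 := h1 _ (cone_alf hJ hp hm)
    rw [h0] at h2
    have h3 : ((1 : H →L[ℂ] H) + ((t : ℝ) : ℂ) • c) (J (((1 : H →L[ℂ] H) + ((t : ℝ) : ℂ) • c) (J p))) =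
        p + (t : ℂ) • c p + (t : ℂ) • J (c p) + ((t ^ 2 : ℝ) : ℂ) • c (J (c p)) := by
      rw [hJp]
      have e1 : ((1 : H →L[ℂ] H) + ((t : ℝ) : ℂ) • c) p = p + (t : ℂ) • c p := rfl
      rw [e1, hJ.add, hJ.smul, hJp, Complex.conj_ofReal]
      have e2 : ∀ v : H, ((1 : H →L[ℂ] H) + ((t : ℝ) : ℂ) • c) v = v + (t : ℂ) • c v := fun v => rfl
      rw [e2, map_add, map_smul, smul_add, smul_smul]
      push_cast
      rw [sq]
      abel
    rw [h3, inner_add_right, inner_add_right, inner_add_right, inner_smul_right, inner_smul_right,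
      inner_smul_right] at h2
    have h4 : ⟪p - η, J (c p)⟫_ℂ = (starRingEnd ℂ) ⟪p - η, c p⟫_ℂ := by
      have := hJ.inner (p - η) (c p)
      rw [hJq] at this
      rw [this, inner_conj_symm]
    rw [h4] at h2
    simp only [Complex.add_re, Complex.mul_re, Complex.ofReal_re, Complex.ofReal_im, zero_mul, sub_zero,
      Complex.conj_re] at h2
    linarith
  refine ⟨p, hp, fun w hw => h0 ▸ h1 w hw, fun c hc => ?_⟩
  have h2 := hkey c hc
  have h3 := hkey (I • c) (smul_mem' _ hc)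
  rw [smul_apply, inner_smul_right] at h3
  have h4 : (I * ⟪p - η, c p⟫_ℂ).re = -(⟪p - η, c p⟫_ℂ).im := by simp
  rw [h4] at h3
  exact Complex.ext h2 (by rw [Complex.zero_im]; linarith)

omit [CompleteSpace H] in
theorem expand (a b c d : H) : (⟪a - b, c - d⟫_ℂ).re =
    (⟪a, c⟫_ℂ).re - (⟪a, d⟫_ℂ).re - (⟪b, c⟫_ℂ).re + (⟪b, d⟫_ℂ).re := by
  rw [inner_sub_left, inner_sub_right, inner_sub_right]
  simp only [Complex.sub_re]
  ring

end basics

theorem ps_thm (hA8a : S_A8a) (h5 : S_comm) : S_ps := by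
  intro H _ _ _ M ξ U J hU hcyc hJ ζ ε hζ hε
  have hξ : ξ ∈ cone M ξ J := cone_xi hJ
  have hη : J (ζ - ξ) = ζ - ξ := by rw [J_sub hJ, cone_J hJ hζ, hJ.fix]
  obtain ⟨p, hp, hq, hqc⟩ := moreau hJ hη
  have hJp := cone_J hJ hp
  set η : H := ζ - ξ with hηd
  set q : H := p - η with hqd
  have hJq : J q = q := by rw [hqd, J_sub hJ, hJp, hη]
  -- the subspace
  let E0 : Submodule ℂ H :=
    { carrier := {v | ∃ c : H →L[ℂ] H, c ∈ M ∧ v = J (c p)}
      add_mem' := by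
        rintro v w ⟨c, hc, rfl⟩ ⟨d, hd, rfl⟩
        exact ⟨c + d, add_mem hc hd, by rw [← hJ.add]; rfl⟩
      zero_mem' := ⟨0, zero_mem M, by rw [zero_apply, J_zero hJ]⟩
      smul_mem' := by
        rintro r v ⟨c, hc, rfl⟩
        refine ⟨(starRingEnd ℂ r) • c, smul_mem' _ hc, ?_⟩
        rw [smul_apply, hJ.smul, Complex.conj_conj] }
  have hE0 : ∀ v : H, v ∈ E0 ↔ ∃ c : H →L[ℂ] H, c ∈ M ∧ v = J (c p) := fun v => Iff.rfl
  set E : Submodule ℂ H := E0.topologicalClosure with hE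
  have hEcl : IsClosed (E : Set H) := E0.isClosed_topologicalClosure
  have : CompleteSpace E := hEcl.completeSpace_coe
  set e : H →L[ℂ] H := E.starProjection with he
  -- invariance
  have hinv : ∀ y : H →L[ℂ] H, y ∈ M → ∀ v : H, v ∈ E → J (y (J v)) ∈ E := by
    intro y hy v hv
    have hv' : v ∈ closure (E0 : Set H) := hv
    have h1 : Continuous (fun v : H => J (y (J v))) := (J_cont hJ).comp (y.continuous.comp (J_cont hJ))
    refine map_mem_closure (f := fun v : H => J (y (J v))) h1 hv' ?_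
    rintro v ⟨c, hc, rfl⟩
    refine ⟨y * c, mul_mem hy hc, ?_⟩
    show J (y (J (J (c p)))) = J ((y * c) p)
    rw [hJ.inv]
    rfl
  have hadj : ∀ (y : H →L[ℂ] H) (v w : H), ⟪J (y (J v)), w⟫_ℂ = ⟪v, J (star y (J w))⟫_ℂ := by
    intro y v w
    calc ⟪J (y (J v)), w⟫_ℂ = ⟪J w, y (J v)⟫_ℂ := J_swap hJ _ _
      _ = ⟪star y (J w), J v⟫_ℂ := by rw [adj_l, star_star]
      _ = ⟪J (J (star y (J w))), J v⟫_ℂ := by rw [hJ.inv]
      _ = ⟪v, J (star y (J w))⟫_ℂ := hJ.inner _ _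
  have heM : e ∈ M := by
    refine h5 H M ξ U J hU hcyc hJ e fun y hy v => ?_
    refine Submodule.eq_starProjection_of_mem_orthogonal ?_ ?_
    · exact hinv y hy _ (Submodule.starProjection_apply_mem _ _)
    · have h1 : J (y (J v)) - J (y (J (e v))) = J (y (J (v - e v))) := by
        rw [J_sub hJ, map_sub, J_sub hJ]
      rw [h1, Submodule.mem_orthogonal']
      intro u hu
      rw [hadj]
      exact Submodule.starProjection_inner_eq_zero _ _ (hinv _ (star_mem hy) u hu)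
  have hep : e p = p := by
    rw [he, Submodule.starProjection_eq_self_iff]
    refine subset_closure ?_
    exact ⟨1, one_mem M, by rw [one_apply_eq_self, hJp]⟩
  have heq : e q = 0 := by
    rw [he, Submodule.starProjection_apply_eq_zero_iff, Submodule.mem_orthogonal']
    intro u hu
    have hcl : IsClosed {u : H | ⟪q, u⟫_ℂ = 0} := isClosed_eq (continuous_const.inner continuous_id)
      continuous_const
    refine closure_minimal (s := (E0 : Set H)) ?_ hcl hu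
    rintro u ⟨c, hc, rfl⟩
    show ⟪q, J (c p)⟫_ℂ = 0
    have h1 := hJ.inner q (c p)
    rw [hJq] at h1
    rw [h1, ← inner_conj_symm, hqc c hc, map_zero]
  set x : H →L[ℂ] H := (2 : ℂ) • e - 1 with hx
  have hxM : x ∈ M := sub_mem (smul_mem' _ heM) (one_mem M)
  have hxn : ‖x‖ ≤ 1 := by
    refine ContinuousLinearMap.opNorm_le_bound _ zero_le_one fun v => ?_
    have h1 : x v = E.reflection v := by
      rw [Submodule.reflection_apply, hx, two_smul ℂ e, two_smul]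
      rfl
    rw [h1, LinearIsometryEquiv.norm_map, one_mul]
  have hestar : star e = e := isSelfAdjoint_starProjection E
  have hxs : star x = x := by
    rw [hx, star_sub, star_smul, hestar, star_one]
    simp
  have hxη : x η = p + q := by
    have h1 : η = p - q := by rw [hqd]; abel
    have h2 : x η = (2 : ℂ) • e η - η := rfl
    rw [h2, h1, map_sub, hep, heq, sub_zero, two_smul]
    abel
  have h1 := hε x hxM hxn
  have h2 : (⟪ζ, x ζ⟫_ℂ - ⟪ξ, x ξ⟫_ℂ).re = (⟪ζ + ξ, x η⟫_ℂ).re := by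
    have h3 : ⟪ζ, x ξ⟫_ℂ = (starRingEnd ℂ) ⟪ξ, x ζ⟫_ℂ := by
      rw [inner_conj_symm, adj_l, hxs]
    rw [hηd, map_sub, inner_add_left, inner_sub_right, inner_sub_right, h3]
    simp only [Complex.add_re, Complex.sub_re, Complex.conj_re]
    ring
  have h3 : (⟪ζ + ξ, x η⟫_ℂ).re ≤ ε := by
    rw [← h2]
    exact (Complex.re_le_norm _).trans h1
  rw [hxη] at h3
  have h4 := hq ζ hζ
  have h5' := hq ξ hξ
  have h6 := (cone_pair hA8a hU hJ hξ hp).1
  have h7 : (⟪ζ, q⟫_ℂ).re = (⟪q, ζ⟫_ℂ).re := by rw [← inner_conj_symm, Complex.conj_re]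
  have h8 : (⟪ξ, q⟫_ℂ).re = (⟪q, ξ⟫_ℂ).re := by rw [← inner_conj_symm, Complex.conj_re]
  have h9 : (⟪ζ + ξ, p + q⟫_ℂ).re = (⟪ζ, p⟫_ℂ).re + (⟪ζ, q⟫_ℂ).re + (⟪ξ, p⟫_ℂ).re + (⟪ξ, q⟫_ℂ).re := by
    rw [inner_add_left, inner_add_right, inner_add_right]
    simp only [Complex.add_re]
    ring
  have h10 : ‖η‖ ^ 2 = (⟪ζ, p⟫_ℂ).re - (⟪ζ, q⟫_ℂ).re - (⟪ξ, p⟫_ℂ).re + (⟪ξ, q⟫_ℂ).re := by
    have h11 : ⟪η, η⟫_ℂ = ((‖η‖ ^ 2 : ℝ) : ℂ) := by
      rw [inner_self_eq_norm_sq_to_K]; push_cast; rfl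
    have h12 : ‖η‖ ^ 2 = (⟪η, η⟫_ℂ).re := by rw [h11, Complex.ofReal_re]
    have h13 : ⟪η, η⟫_ℂ = ⟪ζ - ξ, p - q⟫_ℂ := by
      have h14 : p - q = η := by rw [hqd]; abel
      rw [h14]
    rw [h12, h13]
    exact expand ζ ξ p q
  rw [h10]
  rw [h9] at h3
  rw [h7] at h3 ⊢
  linarith

end Pool.Agent.H255.BC.T_ps
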