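import Pool.Agent.H255.BC.Defs

set_option autoImplicit false

open MeasureTheory Filter Topology Complex
open scoped InnerProductSpace ENNReal FourierTransform

namespace Pool.Agent.H255.BC.T_psi

open Pool.Agent.W662.CB Pool.Agent.H255.BC

theorem ft_eq (h : ℝ → ℂ) (s : ℝ) :
    𝓕 h s = ∫ κ : ℝ, cexp (-(2 * Real.pi * I * s * κ)) * h κ := by
  rw [Real.fourier_real_eq_integral_exp_smul]
  congr 1
  funext κ
  rw [smul_eq_mul]
  congr 2
  push_cast
  ring

theorem ft_conj (h : ℝ → ℂ) (s : ℝ) :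
    𝓕 (fun κ => starRingEnd ℂ (h κ)) s = starRingEnd ℂ (𝓕 h (-s)) := by
  rw [ft_eq, ft_eq, ← integral_conj]
  congr 1
  funext κ
  rw [map_mul, ← Complex.exp_conj]
  congr 2
  simp only [map_neg, map_mul, Complex.conj_ofReal, Complex.conj_I, map_ofNat, Complex.ofReal_neg]
  ring

theorem ft_shift (h : ℝ → ℂ) (t s : ℝ) :
    𝓕 (fun κ : ℝ => cexp (I * t * κ) * h κ) s = 𝓕 h (s - t / (2 * Real.pi)) := by
  rw [ft_eq, ft_eq]
  congr 1
  funext κ
  rw [← mul_assoc, ← Complex.exp_add]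
  congr 2
  have hpi : (Real.pi : ℂ) ≠ 0 := by exact_mod_cast Real.pi_ne_zero
  push_cast
  field_simp
  ring

theorem ft_cont (h : ℝ → ℂ) (hh : Tst h) : Continuous (𝓕 h) := by
  have h1 : 𝓕 h = (𝓕 (hh.2.toSchwartzMap hh.1) : SchwartzMap ℝ ℂ) := by
    rw [SchwartzMap.fourier_coe]
    rfl
  rw [h1]
  exact SchwartzMap.continuous _

theorem ft_int (h : ℝ → ℂ) (hh : Tst h) : Integrable (𝓕 h) := by
  have h1 : 𝓕 h = (𝓕 (hh.2.toSchwartzMap hh.1) : SchwartzMap ℝ ℂ) := by
    rw [SchwartzMap.fourier_coe]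
    rfl
  rw [h1]
  exact SchwartzMap.integrable _

variable {H : Type} [NormedAddCommGroup H] [InnerProductSpace ℂ H] [CompleteSpace H]
  {M : VonNeumannAlgebra H} {ξ : H} {U : ℝ → H →L[ℂ] H}

theorem U_inner (hU : IsModular M ξ U) (t : ℝ) (v w : H) : ⟪v, U t w⟫_ℂ = ⟪U (-t) v, w⟫_ℂ := by
  rw [← hU.star_eq, ContinuousLinearMap.star_eq_adjoint, ContinuousLinearMap.adjoint_inner_left]

theorem U_add (hU : IsModular M ξ U) (s t : ℝ) (v : H) : U s (U t v) = U (s + t) v := by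
  rw [hU.add]
  rfl

theorem U_norm (hU : IsModular M ξ U) (t : ℝ) (v : H) : ‖U t v‖ = ‖v‖ := by
  have h1 : ⟪U t v, U t v⟫_ℂ = ⟪v, v⟫_ℂ := by
    rw [U_inner hU, U_add hU, neg_add_cancel, hU.zero]
    rfl
  rw [inner_self_eq_norm_sq_to_K, inner_self_eq_norm_sq_to_K] at h1
  have h2 : ‖U t v‖ ^ 2 = ‖v‖ ^ 2 := by exact_mod_cast h1
  exact (pow_left_inj₀ (norm_nonneg _) (norm_nonneg _) two_ne_zero).1 h2

theorem psi_cont (hU : IsModular M ξ U) (h : ℝ → ℂ) (hh : Tst h) (v : H) :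
    Continuous fun s : ℝ => (𝓕 h s) • U (2 * Real.pi * s) v :=
  (ft_cont h hh).smul ((hU.cont v).comp (continuous_const.mul continuous_id))

theorem psi_int (hU : IsModular M ξ U) (h : ℝ → ℂ) (hh : Tst h) (v : H) :
    Integrable fun s : ℝ => (𝓕 h s) • U (2 * Real.pi * s) v := by
  refine ((ft_int h hh).norm.mul_const ‖v‖).mono' (psi_cont hU h hh v).aestronglyMeasurable
    (Eventually.of_forall fun s => ?_)
  rw [norm_smul, U_norm hU]

/-- the bound of `psi` -/
theorem psi_norm (hU : IsModular M ξ U) (h : ℝ → ℂ) (v : H) :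
    ‖psi U h v‖ ≤ (∫ s, ‖𝓕 h s‖) * ‖v‖ := by
  unfold psi
  refine (norm_integral_le_integral_norm _).trans (le_of_eq ?_)
  rw [← integral_mul_const]
  congr 1
  funext s
  rw [norm_smul, U_norm hU]

/-- the operator -/
noncomputable def psiL (hU : IsModular M ξ U) (h : ℝ → ℂ) (hh : Tst h) : H →L[ℂ] H :=
  LinearMap.mkContinuous
    { toFun := fun v => psi U h v
      map_add' := fun v w => by
        unfold psi
        rw [← integral_add (psi_int hU h hh v) (psi_int hU h hh w)]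
        congr 1
        funext s
        rw [map_add, smul_add]
      map_smul' := fun c v => by
        unfold psi
        rw [RingHom.id_apply, ← integral_smul]
        congr 1
        funext s
        rw [map_smul, smul_comm] } (∫ s, ‖𝓕 h s‖) (fun v => psi_norm hU h v)

theorem psiL_apply (hU : IsModular M ξ U) (h : ℝ → ℂ) (hh : Tst h) (v : H) :
    psiL hU h hh v = psi U h v := rfl

theorem tst_conj {h : ℝ → ℂ} (hh : Tst h) : Tst (fun κ => starRingEnd ℂ (h κ)) := by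
  constructor
  · exact (Complex.conjCLE.contDiff.of_le le_top).comp hh.1
  · exact hh.2.comp_left (map_zero _)

theorem psi_adj (hU : IsModular M ξ U) (h : ℝ → ℂ) (hh : Tst h) (v w : H) :
    ⟪v, psi U h w⟫_ℂ = ⟪psi U (fun κ => starRingEnd ℂ (h κ)) v, w⟫_ℂ := by
  have h1 : ⟪v, psi U h w⟫_ℂ = ∫ s : ℝ, 𝓕 h s * ⟪v, U (2 * Real.pi * s) w⟫_ℂ := by
    unfold psi
    rw [← integral_inner (psi_int hU h hh w)]
    congr 1
    funext s
    rw [inner_smul_right]
  have h2 : ⟪w, psi U (fun κ => starRingEnd ℂ (h κ)) v⟫_ℂ =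
      ∫ s : ℝ, starRingEnd ℂ (𝓕 h (-s)) * ⟪w, U (2 * Real.pi * s) v⟫_ℂ := by
    unfold psi
    rw [← integral_inner (psi_int hU _ (tst_conj hh) v)]
    congr 1
    funext s
    rw [inner_smul_right, ft_conj]
  rw [← inner_conj_symm (psi U (fun κ => starRingEnd ℂ (h κ)) v) w, h2, ← integral_conj, h1,
    ← integral_neg_eq_self (fun s : ℝ => 𝓕 h s * ⟪v, U (2 * Real.pi * s) w⟫_ℂ)]
  congr 1
  funext s
  rw [map_mul, Complex.conj_conj, inner_conj_symm]
  congr 1
  rw [U_inner hU]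
  congr 3
  ring

theorem psi_comm (hU : IsModular M ξ U) (h : ℝ → ℂ) (hh : Tst h) (t : ℝ) (v : H) :
    U t (psi U h v) = psi U h (U t v) := by
  unfold psi
  rw [← ContinuousLinearMap.integral_comp_comm _ (psi_int hU h hh v)]
  congr 1
  funext s
  rw [map_smul, U_add hU, U_add hU, add_comm]

theorem psi_shift (hU : IsModular M ξ U) (h : ℝ → ℂ) (hh : Tst h) (t : ℝ) (v : H) :
    U t (psi U h v) = psi U (fun κ : ℝ => cexp (I * t * κ) * h κ) v := by
  have h1 : U t (psi U h v) = ∫ s : ℝ, (𝓕 h s) • U (2 * Real.pi * s + t) v := by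
    unfold psi
    rw [← ContinuousLinearMap.integral_comp_comm _ (psi_int hU h hh v)]
    congr 1
    funext s
    rw [map_smul, U_add hU, add_comm]
  rw [h1, ← integral_sub_right_eq_self (fun s : ℝ => (𝓕 h s) • U (2 * Real.pi * s + t) v)
    (t / (2 * Real.pi))]
  unfold psi
  congr 1
  funext s
  rw [ft_shift]
  congr 3
  field_simp
  ring

theorem psi_thm : S_psi := by
  intro H _ _ _ M ξ U hU h hh
  exact ⟨⟨psiL hU h hh, fun v => psiL_apply hU h hh v⟩, psi_adj hU h hh, psi_comm hU h hh,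
    psi_shift hU h hh⟩

end Pool.Agent.H255.BC.T_psi
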