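import Pool.Agent.H255.BC.Defs

set_option autoImplicit false

open MeasureTheory Filter Topology Complex
open scoped InnerProductSpace ENNReal FourierTransform SchwartzMap ContDiff

namespace Pool.Agent.H255.BC.T_psiinv

open Pool.Agent.W662.CB Pool.Agent.H255.BC

variable {H : Type} [NormedAddCommGroup H] [InnerProductSpace ℂ H] [CompleteSpace H]

/-- the Schwartz function of a test function -/
noncomputable def sch {h : ℝ → ℂ} (hh : Tst h) : 𝓢(ℝ, ℂ) := hh.2.toSchwartzMap hh.1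

lemma sch_coe {h : ℝ → ℂ} (hh : Tst h) : (sch hh : ℝ → ℂ) = h := rfl

lemma four_sch {h : ℝ → ℂ} (hh : Tst h) : ((𝓕 (sch hh) : 𝓢(ℝ, ℂ)) : ℝ → ℂ) = 𝓕 h := by
  rw [SchwartzMap.fourier_coe, sch_coe]

lemma int_four {h : ℝ → ℂ} (hh : Tst h) : Integrable (𝓕 h) := by
  rw [← four_sch hh]
  exact (𝓕 (sch hh) : 𝓢(ℝ, ℂ)).integrable

lemma four_cont {h : ℝ → ℂ} (hh : Tst h) : Continuous (𝓕 h) := by
  rw [← four_sch hh]
  exact (𝓕 (sch hh) : 𝓢(ℝ, ℂ)).continuous

lemma int_tst {h : ℝ → ℂ} (hh : Tst h) : Integrable h :=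
  hh.1.continuous.integrable_of_hasCompactSupport hh.2

lemma four_decay {h : ℝ → ℂ} (hh : Tst h) :
    ∃ C : ℝ, 0 ≤ C ∧ ∀ s : ℝ, ‖𝓕 h s‖ ≤ C * (1 + ‖s‖) ^ (-(2 : ℝ)) := by
  have h1 := SchwartzMap.one_add_le_sup_seminorm_apply (𝕜 := ℝ) (m := (2, 0)) (k := 2) (n := 0)
    le_rfl le_rfl (𝓕 (sch hh) : 𝓢(ℝ, ℂ))
  refine ⟨2 ^ 2 * (Finset.Iic ((2, 0) : ℕ × ℕ)).sup (fun m => SchwartzMap.seminorm ℝ m.1 m.2)
    (𝓕 (sch hh) : 𝓢(ℝ, ℂ)), by positivity, fun s => ?_⟩
  have h2 := h1 s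
  rw [norm_iteratedFDeriv_zero, four_sch hh] at h2
  have h3 : (0 : ℝ) < (1 + ‖s‖) ^ 2 := by positivity
  have h4 : (1 + ‖s‖) ^ (-(2 : ℝ)) = ((1 + ‖s‖) ^ 2)⁻¹ := by
    rw [Real.rpow_neg (by positivity)]
    norm_num
  rw [h4, ← div_eq_mul_inv, le_div_iff₀ h3, mul_comm]
  exact h2

lemma norm_U {M : VonNeumannAlgebra H} {ξ : H} {U : ℝ → H →L[ℂ] H} (hM : IsModular M ξ U)
    (t : ℝ) (v : H) : ‖U t v‖ = ‖v‖ := by
  have h1 : star (U t) * U t = 1 := by
    rw [hM.star_eq, ← hM.add, neg_add_cancel, hM.zero]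
  have h2 : ⟪U t v, U t v⟫_ℂ = ⟪v, v⟫_ℂ := by
    rw [← ContinuousLinearMap.adjoint_inner_right, ← ContinuousLinearMap.star_eq_adjoint]
    have : star (U t) (U t v) = (star (U t) * U t) v := rfl
    rw [this, h1]; rfl
  have h3 : ‖U t v‖ ^ 2 = ‖v‖ ^ 2 := by
    rw [inner_self_eq_norm_sq_to_K, inner_self_eq_norm_sq_to_K] at h2
    exact_mod_cast h2
  exact (pow_left_inj₀ (norm_nonneg _) (norm_nonneg _) two_ne_zero).1 h3

lemma psi_integrand_int {M : VonNeumannAlgebra H} {ξ : H} {U : ℝ → H →L[ℂ] H}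
    (hM : IsModular M ξ U) {F : ℝ → ℂ} (hF : Integrable F) (hc : Continuous F) (a : ℝ) (v : H) :
    Integrable (fun s : ℝ => F s • U (a * s) v) := by
  refine (hF.norm.mul_const ‖v‖).mono' ?_ ?_
  · exact (hc.smul ((hM.cont v).comp (continuous_const.mul continuous_id))).aestronglyMeasurable
  · refine Eventually.of_forall fun s => ?_
    rw [norm_smul, norm_U hM]

lemma tst_add {h₁ h₂ : ℝ → ℂ} (k₁ : Tst h₁) (k₂ : Tst h₂) : Tst (fun κ => h₁ κ + h₂ κ) :=
  ⟨k₁.1.add k₂.1, k₁.2.add k₂.2⟩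

lemma four_add {h₁ h₂ : ℝ → ℂ} (k₁ : Tst h₁) (k₂ : Tst h₂) (s : ℝ) :
    𝓕 (fun κ => h₁ κ + h₂ κ) s = 𝓕 h₁ s + 𝓕 h₂ s := by
  have e1 : sch (tst_add k₁ k₂) = sch k₁ + sch k₂ := by
    ext κ; rfl
  have e2 : (𝓕 (sch (tst_add k₁ k₂)) : 𝓢(ℝ, ℂ)) = 𝓕 (sch k₁) + 𝓕 (sch k₂) := by
    rw [e1, FourierTransform.fourier_add]
  have e3 := congrArg (fun f : 𝓢(ℝ, ℂ) => f s) e2
  simp only [add_apply] at e3
  rw [← four_sch (tst_add k₁ k₂), ← four_sch k₁, ← four_sch k₂]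
  exact e3

lemma psi_add {M : VonNeumannAlgebra H} {ξ : H} {U : ℝ → H →L[ℂ] H}
    (hM : IsModular M ξ U) {h₁ h₂ : ℝ → ℂ} (k₁ : Tst h₁) (k₂ : Tst h₂) (v : H) :
    psi U (fun κ => h₁ κ + h₂ κ) v = psi U h₁ v + psi U h₂ v := by
  unfold psi
  rw [← integral_add (psi_integrand_int hM (int_four k₁) (four_cont k₁) _ v)
    (psi_integrand_int hM (int_four k₂) (four_cont k₂) _ v)]
  refine integral_congr_ae (Eventually.of_forall fun s => ?_)
  simp only [four_add k₁ k₂, add_smul]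

lemma four_scale (h : ℝ → ℂ) {a : ℝ} (ha : 0 < a) (s : ℝ) :
    𝓕 (fun κ => h (a * κ)) s = ((a⁻¹ : ℝ) : ℂ) * 𝓕 h (a⁻¹ * s) := by
  rw [Real.fourier_real_eq_integral_exp_smul, Real.fourier_real_eq_integral_exp_smul]
  have := Measure.integral_comp_mul_left
    (fun u : ℝ => cexp (↑(-2 * Real.pi * u * (a⁻¹ * s)) * I) • h u) a
  rw [abs_of_pos (inv_pos.2 ha)] at this
  rw [Complex.real_smul] at this
  rw [← this]
  refine integral_congr_ae (Eventually.of_forall fun u => ?_)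
  simp only
  congr 4
  field_simp

omit [CompleteSpace H] in
lemma psi_scale {U : ℝ → H →L[ℂ] H} (h : ℝ → ℂ) {a : ℝ} (ha : 0 < a) (v : H) :
    psi U (fun κ => h (a * κ)) v = ∫ s : ℝ, (𝓕 h s) • U (2 * Real.pi * a * s) v := by
  unfold psi
  have := Measure.integral_comp_mul_left
    (fun u : ℝ => (𝓕 h u) • U (2 * Real.pi * a * u) v) a⁻¹
  rw [inv_inv, abs_of_pos ha] at this
  have h2 : ∫ s : ℝ, (𝓕 h s) • U (2 * Real.pi * a * s) v =
      ((a⁻¹ : ℝ)) • ∫ s : ℝ, (𝓕 h (a⁻¹ * s)) • U (2 * Real.pi * a * (a⁻¹ * s)) v := by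
    rw [this, smul_smul, inv_mul_cancel₀ ha.ne', one_smul]
  rw [h2, ← integral_smul]
  refine integral_congr_ae (Eventually.of_forall fun s => ?_)
  simp only [four_scale h ha]
  rw [mul_smul, show 2 * Real.pi * a * (a⁻¹ * s) = 2 * Real.pi * s by field_simp]
  rw [Complex.coe_smul]

lemma int_four_eq {h : ℝ → ℂ} (hh : Tst h) : ∫ s, 𝓕 h s = h 0 := by
  have h1 := congrFun (hh.1.continuous.fourierInv_fourier_eq (int_tst hh) (int_four hh)) 0
  rw [Real.fourierInv_eq'] at h1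
  rw [← h1]
  refine integral_congr_ae (Eventually.of_forall fun s => ?_)
  simp

lemma approx_one {M : VonNeumannAlgebra H} {ξ : H} {U : ℝ → H →L[ℂ] H}
    (hM : IsModular M ξ U) {h : ℝ → ℂ} (hh : Tst h) (v : H) :
    Tendsto (fun m : ℕ => psi U (fun κ => h (((m : ℝ) + 1)⁻¹ * κ)) v) atTop (𝓝 (h 0 • v)) := by
  have e : ∀ m : ℕ, psi U (fun κ => h (((m : ℝ) + 1)⁻¹ * κ)) v =
      ∫ s : ℝ, (𝓕 h s) • U (2 * Real.pi * ((m : ℝ) + 1)⁻¹ * s) v := fun m =>
    psi_scale h (by positivity) v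
  simp_rw [e]
  rw [← int_four_eq hh, ← integral_smul_const]
  refine tendsto_integral_of_dominated_convergence (fun s => ‖𝓕 h s‖ * ‖v‖) ?_ ?_ ?_ ?_
  · intro m
    exact (psi_integrand_int hM (int_four hh) (four_cont hh) _ v).aestronglyMeasurable
  · exact (int_four hh).norm.mul_const _
  · intro m
    refine Eventually.of_forall fun s => ?_
    rw [norm_smul, norm_U hM]
  · refine Eventually.of_forall fun s => ?_
    refine Tendsto.const_smul ?_ _
    have h1 : Tendsto (fun m : ℕ => 2 * Real.pi * ((m : ℝ) + 1)⁻¹ * s) atTop (𝓝 0) := by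
      have h2 : Tendsto (fun m : ℕ => ((m : ℝ) + 1)⁻¹) atTop (𝓝 0) := by
        simpa only [one_div] using tendsto_one_div_add_atTop_nhds_zero_nat (𝕜 := ℝ)
      have h3 := (h2.const_mul (2 * Real.pi)).mul_const s
      simpa using h3
    have h4 := ((hM.cont v).tendsto 0).comp h1
    rw [hM.zero] at h4
    exact h4

lemma trans_int {h : ℝ → ℂ} (hh : Tst h) {δ : ℕ → ℝ} (hδ : Tendsto δ atTop (𝓝 0)) :
    Tendsto (fun n => ∫ s : ℝ, ‖𝓕 h (s - δ n) - 𝓕 h s‖) atTop (𝓝 0) := by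
  obtain ⟨C, hC0, hC⟩ := four_decay hh
  have hint : Integrable (fun s : ℝ => 5 * C * (1 + ‖s‖) ^ (-(2 : ℝ))) := by
    refine Integrable.const_mul ?_ _
    exact integrable_one_add_norm (by simp)
  have h0 : (0 : ℝ) = ∫ s : ℝ, (0 : ℝ) := by simp
  rw [h0]
  refine tendsto_integral_filter_of_dominated_convergence
    (fun s : ℝ => 5 * C * (1 + ‖s‖) ^ (-(2 : ℝ))) ?_ ?_ hint ?_
  · refine Eventually.of_forall fun n => ?_
    exact ((((four_cont hh).comp (continuous_id.sub continuous_const)).sub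
      (four_cont hh)).norm).aestronglyMeasurable
  · have h1 : ∀ᶠ n in atTop, |δ n| ≤ 1 := by
      have := hδ.abs
      rw [abs_zero] at this
      exact this.eventually (eventually_le_nhds zero_lt_one)
    filter_upwards [h1] with n hn
    refine Eventually.of_forall fun s => ?_
    rw [norm_norm]
    have h2 : (1 + ‖s - δ n‖) ^ (-(2 : ℝ)) ≤ 4 * (1 + ‖s‖) ^ (-(2 : ℝ)) := by
      have e1 : ∀ x : ℝ, 0 ≤ x → (1 + x) ^ (-(2 : ℝ)) = ((1 + x) ^ 2)⁻¹ := by
        intro x hx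
        rw [Real.rpow_neg (by positivity)]
        norm_num
      rw [e1 _ (norm_nonneg _), e1 _ (norm_nonneg _)]
      rw [← div_eq_mul_inv, inv_eq_one_div, div_le_div_iff₀ (by positivity) (by positivity)]
      have h3 : ‖s‖ ≤ ‖s - δ n‖ + 1 := by
        have := norm_add_le (s - δ n) (δ n)
        rw [sub_add_cancel] at this
        have h4 : ‖δ n‖ ≤ 1 := by rwa [Real.norm_eq_abs]
        linarith
      have h5 : 1 + ‖s‖ ≤ 2 * (1 + ‖s - δ n‖) := by
        have := norm_nonneg (s - δ n)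
        linarith
      have h6 : 0 ≤ 1 + ‖s‖ := by positivity
      nlinarith
    calc ‖𝓕 h (s - δ n) - 𝓕 h s‖ ≤ ‖𝓕 h (s - δ n)‖ + ‖𝓕 h s‖ := norm_sub_le _ _
      _ ≤ C * (1 + ‖s - δ n‖) ^ (-(2 : ℝ)) + C * (1 + ‖s‖) ^ (-(2 : ℝ)) :=
        add_le_add (hC _) (hC _)
      _ ≤ C * (4 * (1 + ‖s‖) ^ (-(2 : ℝ))) + C * (1 + ‖s‖) ^ (-(2 : ℝ)) := by gcongr
      _ = 5 * C * (1 + ‖s‖) ^ (-(2 : ℝ)) := by ring
  · refine Eventually.of_forall fun s => ?_
    have h1 : Tendsto (fun n => s - δ n) atTop (𝓝 s) := by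
      simpa using (tendsto_const_nhds (x := s)).sub hδ
    have h2 := (((four_cont hh).tendsto s).comp h1).sub_const (𝓕 h s)
    simpa using h2.norm

lemma small_part {M : VonNeumannAlgebra H} {ξ : H} {U : ℝ → H →L[ℂ] H}
    (hM : IsModular M ξ U) {h : ℝ → ℂ} (hh : Tst h) (t : ℝ) (v : H) :
    Tendsto (fun n : ℕ => U t (psi U (fun κ => h (((n : ℝ) + 1) * κ)) v) -
      psi U (fun κ => h (((n : ℝ) + 1) * κ)) v) atTop (𝓝 0) := by
  have hδ : Tendsto (fun n : ℕ => t / (2 * Real.pi) * (1 / ((n : ℝ) + 1))) atTop (𝓝 0) := by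
    simpa using (tendsto_one_div_add_atTop_nhds_zero_nat (𝕜 := ℝ)).const_mul (t / (2 * Real.pi))
  have h1 := (trans_int hh hδ).mul_const ‖v‖
  rw [zero_mul] at h1
  refine squeeze_zero_norm (fun n => ?_) h1
  have hn : (0 : ℝ) < (n : ℝ) + 1 := by positivity
  have e : psi U (fun κ => h (((n : ℝ) + 1) * κ)) v =
      ∫ s : ℝ, (𝓕 h s) • U (2 * Real.pi * ((n : ℝ) + 1) * s) v := psi_scale h hn v
  set δ : ℝ := t / (2 * Real.pi) * (1 / ((n : ℝ) + 1)) with hδd
  have hi := psi_integrand_int hM (int_four hh) (four_cont hh) (2 * Real.pi * ((n : ℝ) + 1)) v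
  have e2 : U t (psi U (fun κ => h (((n : ℝ) + 1) * κ)) v) =
      ∫ s : ℝ, (𝓕 h (s - δ)) • U (2 * Real.pi * ((n : ℝ) + 1) * s) v := by
    rw [e, ← ContinuousLinearMap.integral_comp_comm _ hi]
    rw [← integral_sub_right_eq_self _ δ]
    refine integral_congr_ae (Eventually.of_forall fun s => ?_)
    simp only [map_smul]
    congr 1
    have : U t (U (2 * Real.pi * ((n : ℝ) + 1) * (s - δ)) v) =
        (U t * U (2 * Real.pi * ((n : ℝ) + 1) * (s - δ))) v := rfl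
    rw [this, ← hM.add]
    congr 2
    rw [hδd]
    field_simp
    ring
  have hi2 : Integrable (fun s : ℝ => (𝓕 h (s - δ)) • U (2 * Real.pi * ((n : ℝ) + 1) * s) v) :=
    psi_integrand_int hM ((int_four hh).comp_sub_right δ)
      ((four_cont hh).comp (continuous_id.sub continuous_const)) (2 * Real.pi * ((n : ℝ) + 1)) v
  rw [e2, e, ← integral_sub hi2 hi, ← integral_mul_const]
  refine (norm_integral_le_integral_norm _).trans (le_of_eq ?_)
  refine integral_congr_ae (Eventually.of_forall fun s => ?_)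
  simp only
  rw [← sub_smul, norm_smul, norm_U hM]

/-- test functions vanishing near `0` -/
lemma psi_zero {M : VonNeumannAlgebra H} {ξ : H} {U : ℝ → H →L[ℂ] H}
    (hM : IsModular M ξ U) {v : H}
    (hp : ∀ h : ℝ → ℂ, Tst h → (∃ c : ℝ, 0 < c ∧ ∀ κ, κ < c → h κ = 0) → psi U h v = 0)
    (hm : ∀ h : ℝ → ℂ, Tst h → (∃ c : ℝ, 0 < c ∧ ∀ κ, -c < κ → h κ = 0) → psi U h v = 0)
    {f : ℝ → ℂ} (hf : Tst f) {c : ℝ} (hc : 0 < c) (h0 : ∀ κ, |κ| < c → f κ = 0) :
    psi U f v = 0 := by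
  set θ : ℝ → ℂ := fun κ => ((Real.smoothTransition (κ / c) : ℝ) : ℂ) with hθ
  have hθs : ContDiff ℝ (⊤ : ℕ∞) θ := by
    refine Complex.ofRealCLM.contDiff.comp ?_
    exact Real.smoothTransition.contDiff.comp (contDiff_id.div_const c)
  have hθs' : ContDiff ℝ (⊤ : ℕ∞) (fun κ => θ (-κ)) := hθs.comp contDiff_neg
  have k1 : Tst (fun κ => θ κ * f κ) := ⟨hθs.mul hf.1, hf.2.mul_left⟩
  have k2 : Tst (fun κ => θ (-κ) * f κ) := ⟨hθs'.mul hf.1, hf.2.mul_left⟩
  have e : f = fun κ => θ κ * f κ + θ (-κ) * f κ := by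
    funext κ
    rcases lt_or_ge |κ| c with h | h
    · rw [h0 κ h]; simp
    · rcases le_abs.1 h with h' | h'
      · have e1 : θ κ = 1 := by
          simp only [hθ]
          rw [Real.smoothTransition.one_of_one_le (by rwa [le_div_iff₀ hc, one_mul])]
          simp
        have e2 : θ (-κ) = 0 := by
          simp only [hθ]
          rw [Real.smoothTransition.zero_of_nonpos]
          · simp
          · rw [neg_div]
            have : 0 ≤ κ / c := div_nonneg (by linarith) hc.le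
            linarith
        rw [e1, e2]; ring
      · have e1 : θ (-κ) = 1 := by
          simp only [hθ]
          rw [Real.smoothTransition.one_of_one_le (by rwa [le_div_iff₀ hc, one_mul])]
          simp
        have e2 : θ κ = 0 := by
          simp only [hθ]
          rw [Real.smoothTransition.zero_of_nonpos]
          · simp
          · have : 0 ≤ -κ := by linarith
            have h3 : 0 ≤ (-κ) / c := by positivity
            rw [neg_div] at h3
            linarith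
        rw [e1, e2]; ring
  have n1 : ∀ κ : ℝ, κ ≤ 0 → θ κ = 0 := by
    intro κ hκ
    simp only [hθ]
    rw [Real.smoothTransition.zero_of_nonpos (div_nonpos_of_nonpos_of_nonneg hκ hc.le)]
    simp
  have z1 : psi U (fun κ => θ κ * f κ) v = 0 := by
    refine hp _ k1 ⟨c, hc, fun κ hκ => ?_⟩
    rcases lt_or_ge |κ| c with h | h
    · simp only [h0 κ h, mul_zero]
    · rcases le_abs.1 h with h' | h'
      · linarith
      · simp only [n1 κ (by linarith), zero_mul]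
  have z2 : psi U (fun κ => θ (-κ) * f κ) v = 0 := by
    refine hm _ k2 ⟨c, hc, fun κ hκ => ?_⟩
    rcases lt_or_ge |κ| c with h | h
    · simp only [h0 κ h, mul_zero]
    · rcases le_abs.1 h with h' | h'
      · simp only [n1 (-κ) (by linarith), zero_mul]
      · linarith
  rw [e, psi_add hM k1 k2, z1, z2, add_zero]

theorem psi_inv_thm (h1 : S_psi) (_h2 : S_psi_one) : S_psi_inv := by
  intro H _ _ _ M ξ U hM v hp hm t
  have h4 := fun (h : ℝ → ℂ) (hh : Tst h) => (h1 H M ξ U hM h hh).2.2.2 t v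
  set B : ContDiffBump (0 : ℝ) := ⟨1, 2, one_pos, one_lt_two⟩ with hB
  set χ : ℝ → ℂ := fun κ => ((B κ : ℝ) : ℂ) with hχ
  have hχT : Tst χ := ⟨Complex.ofRealCLM.contDiff.comp B.contDiff,
    B.hasCompactSupport.comp_left (g := fun x : ℝ => (x : ℂ)) (by simp)⟩
  have hχ1 : ∀ κ : ℝ, |κ| ≤ 1 → χ κ = 1 := by
    intro κ hκ
    simp only [hχ]
    rw [B.one_of_mem_closedBall]
    · simp
    · rw [mem_closedBall_zero_iff, Real.norm_eq_abs]
      exact hκ
  have hsc : ∀ a : ℝ, 0 < a → Tst (fun κ => χ (a * κ)) := by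
    intro a ha
    refine ⟨hχT.1.comp (contDiff_const.mul contDiff_id), ?_⟩
    exact hχT.2.comp_homeomorph (Homeomorph.mulLeft₀ a ha.ne')
  have hE : ∀ h : ℝ → ℂ, Tst h → Tst (fun κ : ℝ => cexp (I * t * κ) * h κ) := by
    intro h hh
    refine ⟨?_, hh.2.mul_left⟩
    refine ContDiff.mul ?_ hh.1
    exact (contDiff_const.mul Complex.ofRealCLM.contDiff).cexp
  have key : ∀ m n : ℕ, U t (psi U (fun κ => χ (((m : ℝ) + 1)⁻¹ * κ)) v) -
      psi U (fun κ => χ (((m : ℝ) + 1)⁻¹ * κ)) v =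
      U t (psi U (fun κ => χ (((n : ℝ) + 1) * κ)) v) -
      psi U (fun κ => χ (((n : ℝ) + 1) * κ)) v := by
    intro m n
    have a1 : (0 : ℝ) < ((m : ℝ) + 1)⁻¹ := by positivity
    have a2 : (0 : ℝ) < (n : ℝ) + 1 := by positivity
    have t1 := hsc _ a1
    have t2 := hsc _ a2
    rw [h4 _ t1, h4 _ t2]
    have t3 : Tst (fun κ : ℝ => (cexp (I * t * κ) - 1) *
        (χ (((m : ℝ) + 1)⁻¹ * κ) - χ (((n : ℝ) + 1) * κ))) := by
      refine ⟨?_, (t1.2.sub t2.2).mul_left⟩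
      refine ContDiff.mul ?_ (t1.1.sub t2.1)
      exact (contDiff_const.mul Complex.ofRealCLM.contDiff).cexp.sub contDiff_const
    have z : psi U (fun κ : ℝ => (cexp (I * t * κ) - 1) *
        (χ (((m : ℝ) + 1)⁻¹ * κ) - χ (((n : ℝ) + 1) * κ))) v = 0 := by
      refine psi_zero hM hp hm t3 (c := ((n : ℝ) + 1)⁻¹) (by positivity) ?_
      intro κ hκ
      have b1 : |((m : ℝ) + 1)⁻¹ * κ| ≤ 1 := by
        rw [abs_mul, abs_of_pos a1]
        have : ((m : ℝ) + 1)⁻¹ ≤ 1 := inv_le_one_of_one_le₀ (by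
          have : (0 : ℝ) ≤ m := by positivity
          linarith)
        have : ((n : ℝ) + 1)⁻¹ ≤ 1 := inv_le_one_of_one_le₀ (by
          have : (0 : ℝ) ≤ n := by positivity
          linarith)
        nlinarith [abs_nonneg κ]
      have b2 : |((n : ℝ) + 1) * κ| ≤ 1 := by
        rw [abs_mul, abs_of_pos a2]
        have := mul_le_mul_of_nonneg_left hκ.le a2.le
        rwa [mul_inv_cancel₀ a2.ne'] at this
      rw [hχ1 _ b1, hχ1 _ b2]
      ring
    have s1 := psi_add hM (hE _ t1) t2 v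
    have s2 := psi_add hM t1 (hE _ t2) v
    have s3 := psi_add hM (tst_add t1 (hE _ t2)) t3 v
    rw [z, s2, add_zero] at s3
    have e : (fun κ : ℝ => cexp (I * t * κ) * χ (((m : ℝ) + 1)⁻¹ * κ) + χ (((n : ℝ) + 1) * κ)) =
        fun κ : ℝ => (χ (((m : ℝ) + 1)⁻¹ * κ) + cexp (I * t * κ) * χ (((n : ℝ) + 1) * κ)) +
        (cexp (I * t * κ) - 1) * (χ (((m : ℝ) + 1)⁻¹ * κ) - χ (((n : ℝ) + 1) * κ)) := by
      funext κ; ring
    rw [e, s3] at s1
    rw [sub_eq_sub_iff_add_eq_add, ← s1, add_comm]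
  have z1 : ∀ m : ℕ, U t (psi U (fun κ => χ (((m : ℝ) + 1)⁻¹ * κ)) v) -
      psi U (fun κ => χ (((m : ℝ) + 1)⁻¹ * κ)) v = 0 := by
    intro m
    have l1 := small_part hM hχT t v
    have l2 : Tendsto (fun n : ℕ => U t (psi U (fun κ => χ (((n : ℝ) + 1) * κ)) v) -
      psi U (fun κ => χ (((n : ℝ) + 1) * κ)) v) atTop
      (𝓝 (U t (psi U (fun κ => χ (((m : ℝ) + 1)⁻¹ * κ)) v) -
      psi U (fun κ => χ (((m : ℝ) + 1)⁻¹ * κ)) v)) := by
      refine tendsto_const_nhds.congr fun n => ?_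
      exact key m n
    exact tendsto_nhds_unique l2 l1
  have l3 := approx_one hM hχT v
  rw [hχ1 0 (by simp), one_smul] at l3
  have l4 := (((U t).continuous.tendsto v).comp l3).sub l3
  have l5 : Tendsto (fun m : ℕ => U t (psi U (fun κ => χ (((m : ℝ) + 1)⁻¹ * κ)) v) -
      psi U (fun κ => χ (((m : ℝ) + 1)⁻¹ * κ)) v) atTop (𝓝 0) := by
    simp_rw [z1]
    exact tendsto_const_nhds
  exact sub_eq_zero.1 (tendsto_nhds_unique l4 l5)

end Pool.Agent.H255.BC.T_psiinv
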