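import Pool.Agent.H255.BC.Defs

set_option autoImplicit false

open MeasureTheory Filter Topology Complex
open scoped InnerProductSpace ENNReal FourierTransform

namespace Pool.Agent.H255.BC.T_psione

open Pool.Agent.W662.CB Pool.Agent.H255.BC

theorem tst_four {h : ℝ → ℂ} (hh : Tst h) : Continuous (𝓕 h) ∧ Integrable (𝓕 h) := by
  obtain ⟨h1, h2⟩ := hh
  have e : ((𝓕 (h2.toSchwartzMap h1) : SchwartzMap ℝ ℂ) : ℝ → ℂ) = 𝓕 h :=
    SchwartzMap.fourier_coe _
  rw [← e]
  exact ⟨SchwartzMap.continuous _, SchwartzMap.integrable _⟩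

section

variable {H : Type} [NormedAddCommGroup H] [InnerProductSpace ℂ H] [CompleteSpace H]
  {M : VonNeumannAlgebra H} {ξ : H} {U : ℝ → H →L[ℂ] H}

theorem norm_U (hU : IsModular M ξ U) (t : ℝ) (v : H) : ‖U t v‖ = ‖v‖ := by
  have h1 : ⟪U t v, U t v⟫_ℂ = ⟪v, v⟫_ℂ := by
    rw [← ContinuousLinearMap.adjoint_inner_right, ← ContinuousLinearMap.star_eq_adjoint,
      hU.star_eq]
    have h2 : U (-t) (U t v) = v := by
      have h3 := hU.add (-t) t
      rw [neg_add_cancel, hU.zero] at h3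
      exact (congrArg (fun T : H →L[ℂ] H => T v) h3).symm
    rw [h2]
  rw [inner_self_eq_norm_sq_to_K, inner_self_eq_norm_sq_to_K] at h1
  have h3 : ‖U t v‖ ^ 2 = ‖v‖ ^ 2 := by exact_mod_cast h1
  exact (sq_eq_sq₀ (norm_nonneg (U t v)) (norm_nonneg v)).1 h3

end

theorem four_scale (χ : ℝ → ℂ) {N : ℝ} (hN : 0 < N) (s : ℝ) :
    𝓕 (fun κ => χ (κ / N)) s = N * 𝓕 χ (N * s) := by
  rw [Real.fourier_real_eq_integral_exp_smul, Real.fourier_real_eq_integral_exp_smul]
  have h1 := MeasureTheory.Measure.integral_comp_div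
    (fun y : ℝ => cexp (((-2 * Real.pi * y * (N * s) : ℝ) : ℂ) * I) • χ y) N
  rw [abs_of_pos hN, Complex.real_smul] at h1
  rw [← h1]
  congr 1
  funext x
  have e : -2 * Real.pi * (x / N) * (N * s) = -2 * Real.pi * x * s := by
    field_simp
  rw [e]

theorem psi_one_thm : S_psi_one := by
  intro H _ _ _ M ξ U hU
  let f : ContDiffBump (0 : ℝ) := ⟨1, 2, zero_lt_one, one_lt_two⟩
  let χ : ℝ → ℂ := fun x => ((f x : ℝ) : ℂ)
  have hχ : Tst χ := by
    refine ⟨?_, ?_⟩
    · exact Complex.ofRealCLM.contDiff.comp f.contDiff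
    · exact f.hasCompactSupport.comp_left (g := fun x : ℝ => (x : ℂ)) Complex.ofReal_zero
  obtain ⟨c1, i1⟩ := tst_four hχ
  have hχ0 : χ 0 = 1 := by
    simp only [χ]
    rw [f.one_of_mem_closedBall (Metric.mem_closedBall_self f.rIn_pos.le)]
    simp
  have hint : ∫ s, 𝓕 χ s = 1 := by
    have h1 := hχ.1.continuous.fourierInv_fourier_eq
      (hχ.1.continuous.integrable_of_hasCompactSupport hχ.2) i1
    have h2 := congrFun h1 0
    rw [hχ0, Real.fourierInv_eq'] at h2
    rw [← h2]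
    congr 1
    funext s
    simp
  have hN : ∀ n : ℕ, (0 : ℝ) < (n : ℝ) + 1 := fun n => by positivity
  refine ⟨fun n κ => χ (κ / ((n : ℝ) + 1)), fun n => ⟨?_, ?_⟩, fun v => ?_⟩
  · exact hχ.1.comp (contDiff_id.div_const _)
  · have h1 := hχ.2.comp_homeomorph (Homeomorph.mulRight₀ (((n : ℝ) + 1)⁻¹)
      (inv_ne_zero (hN n).ne'))
    have e : (χ ∘ (Homeomorph.mulRight₀ (((n : ℝ) + 1)⁻¹) (inv_ne_zero (hN n).ne'))) =
        fun κ => χ (κ / ((n : ℝ) + 1)) := by
      funext κ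
      simp only [Function.comp_apply, Homeomorph.coe_mulRight₀]
      rw [div_eq_mul_inv]
    rw [e] at h1
    exact h1
  · have h1 : ∀ n : ℕ, psi U (fun κ => χ (κ / ((n : ℝ) + 1))) v =
        ∫ s : ℝ, 𝓕 χ s • U (2 * Real.pi * (s / ((n : ℝ) + 1))) v := by
      intro n
      unfold psi
      have h2 := MeasureTheory.Measure.integral_comp_mul_left
        (fun y : ℝ => 𝓕 χ y • U (2 * Real.pi * (y / ((n : ℝ) + 1))) v) ((n : ℝ) + 1)
      have h3 : (∫ s : ℝ, 𝓕 (fun κ => χ (κ / ((n : ℝ) + 1))) s • U (2 * Real.pi * s) v) =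
          ((n : ℝ) + 1) • ∫ s : ℝ, (fun y : ℝ => 𝓕 χ y • U (2 * Real.pi * (y / ((n : ℝ) + 1))) v)
            (((n : ℝ) + 1) * s) := by
        rw [← integral_smul]
        congr 1
        funext s
        rw [four_scale χ (hN n)]
        simp only
        rw [mul_div_cancel_left₀ _ (hN n).ne', mul_smul]
        rfl
      rw [h3, h2, smul_smul, abs_of_pos (inv_pos.2 (hN n)), mul_inv_cancel₀ (hN n).ne', one_smul]
    simp only [h1]
    have h4 : v = ∫ s : ℝ, 𝓕 χ s • v := by
      rw [integral_smul_const, hint, one_smul]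
    conv =>
      arg 3
      rw [h4]
    refine tendsto_integral_of_dominated_convergence (fun s => ‖𝓕 χ s‖ * ‖v‖) (fun n => ?_)
      (i1.norm.mul_const _) (fun n => Eventually.of_forall fun s => ?_)
      (Eventually.of_forall fun s => ?_)
    · refine (c1.smul ((hU.cont v).comp ?_)).aestronglyMeasurable
      fun_prop
    · rw [norm_smul, norm_U hU]
    · refine Tendsto.const_smul ?_ _
      have h5 : Tendsto (fun n : ℕ => 2 * Real.pi * (s / ((n : ℝ) + 1))) atTop (𝓝 0) := by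
        have h6 : Tendsto (fun n : ℕ => s / ((n : ℝ) + 1)) atTop (𝓝 0) :=
          tendsto_const_nhds.div_atTop (tendsto_natCast_atTop_atTop.atTop_add tendsto_const_nhds)
        simpa using h6.const_mul (2 * Real.pi)
      have h7 := ((hU.cont v).tendsto 0).comp h5
      rw [hU.zero] at h7
      exact h7

end Pool.Agent.H255.BC.T_psione
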