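import Pool.Agent.H255.BC.Defs

set_option autoImplicit false

open MeasureTheory Filter Topology Complex
open scoped InnerProductSpace ENNReal FourierTransform

namespace Pool.Agent.H255.BC.T_psisum

open Pool.Agent.W662.CB Pool.Agent.H255.BC

theorem tst_four {h : ℝ → ℂ} (hh : Tst h) : Continuous (𝓕 h) ∧ Integrable (𝓕 h) := by
  obtain ⟨h1, h2⟩ := hh
  have e : ((𝓕 (h2.toSchwartzMap h1) : SchwartzMap ℝ ℂ) : ℝ → ℂ) = 𝓕 h :=
    SchwartzMap.fourier_coe _
  rw [← e]
  exact ⟨SchwartzMap.continuous _, SchwartzMap.integrable _⟩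

theorem tst_int {h : ℝ → ℂ} (hh : Tst h) : Continuous h ∧ Integrable h := by
  obtain ⟨h1, h2⟩ := hh
  exact ⟨h1.continuous, h1.continuous.integrable_of_hasCompactSupport h2⟩

section

variable {H : Type} [NormedAddCommGroup H] [InnerProductSpace ℂ H] [CompleteSpace H]
  {M : VonNeumannAlgebra H} {ξ : H} {U : ℝ → H →L[ℂ] H}

theorem norm_U (hU : IsModular M ξ U) (t : ℝ) (v : H) : ‖U t v‖ = ‖v‖ := by
  have h1 : ⟪U t v, U t v⟫_ℂ = ⟪v, v⟫_ℂ := by
    rw [← ContinuousLinearMap.adjoint_inner_right, ← ContinuousLinearMap.star_eq_adjoint,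
      hU.star_eq]
    have h2 : U (-t) (U t v) = v := by
      have h3 := hU.add (-t) t
      rw [neg_add_cancel, hU.zero] at h3
      exact (congrArg (fun T : H →L[ℂ] H => T v) h3).symm
    rw [h2]
  rw [inner_self_eq_norm_sq_to_K, inner_self_eq_norm_sq_to_K] at h1
  have h3 : ‖U t v‖ ^ 2 = ‖v‖ ^ 2 := by exact_mod_cast h1
  nlinarith [norm_nonneg (U t v), norm_nonneg v, sq_nonneg (‖U t v‖ - ‖v‖),
    (sq_eq_sq₀ (norm_nonneg (U t v)) (norm_nonneg v)).1 h3]

theorem U_U (hU : IsModular M ξ U) (s t : ℝ) (v : H) : U s (U t v) = U (s + t) v := by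
  rw [hU.add]
  rfl

theorem integrable_orb (hU : IsModular M ξ U) {g : ℝ → ℂ} (hg : Continuous g)
    (hgi : Integrable g) (v : H) : Integrable (fun s : ℝ => g s • U (2 * Real.pi * s) v) := by
  have h1 : Continuous (fun s : ℝ => U (2 * Real.pi * s) v) :=
    (hU.cont v).comp (by fun_prop)
  refine Integrable.mono' (hgi.norm.mul_const ‖v‖)
    (hg.smul h1).aestronglyMeasurable (Eventually.of_forall fun s => ?_)
  rw [norm_smul, norm_U hU]

/-- translation -/
theorem U_psi (hU : IsModular M ξ U) {h : ℝ → ℂ} (hh : Tst h) (t : ℝ) (v : H) :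
    U t (psi U h v) = ∫ s : ℝ, (𝓕 h (s - t / (2 * Real.pi))) • U (2 * Real.pi * s) v := by
  obtain ⟨h1, h2⟩ := tst_four hh
  unfold psi
  rw [← ContinuousLinearMap.integral_comp_comm _ (integrable_orb hU h1 h2 v)]
  rw [← integral_sub_right_eq_self (fun s : ℝ => (U t) (𝓕 h s • U (2 * Real.pi * s) v))
    (t / (2 * Real.pi))]
  congr 1
  funext s
  rw [map_smul, U_U hU]
  congr 3
  have hpi := Real.pi_ne_zero
  field_simp
  ring

end

theorem four_shift (h : ℝ → ℂ) (s c : ℝ) :
    𝓕 h (s - c / (2 * Real.pi)) =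
      ∫ x : ℝ, cexp (((-2 * Real.pi * x * s : ℝ) : ℂ) * I) * (cexp (I * (c * x)) * h x) := by
  rw [Real.fourier_real_eq_integral_exp_smul]
  congr 1
  funext x
  rw [smul_eq_mul, ← mul_assoc, ← Complex.exp_add]
  congr 2
  have hpi : (Real.pi : ℂ) ≠ 0 := by exact_mod_cast Real.pi_ne_zero
  push_cast
  field_simp
  ring

theorem psi_sum_thm (_h1 : S_psi) : S_psi_sum := by
  intro H _ _ _ M ξ U hU h h' hh hh' τ q hq hq' v
  obtain ⟨c1, i1⟩ := tst_four hh
  obtain ⟨c2, i2⟩ := tst_int hh
  -- the Fourier transform of `h'`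
  have key : ∀ s : ℝ, HasSum (fun k : ℤ => q k * 𝓕 h (s - ((k : ℝ) * τ) / (2 * Real.pi)))
      (𝓕 h' s) := by
    intro s
    let F : ℤ → ℝ → ℂ := fun k x =>
      q k * (cexp (((-2 * Real.pi * x * s : ℝ) : ℂ) * I) *
        (cexp (I * ((((k : ℝ) * τ : ℝ) : ℂ) * x)) * h x))
    have hnorm : ∀ k x, ‖F k x‖ = ‖q k‖ * ‖h x‖ := by
      intro k x
      simp only [F]
      rw [norm_mul, norm_mul, norm_mul, Complex.norm_exp_ofReal_mul_I, one_mul]
      have e : I * ((((k : ℝ) * τ : ℝ) : ℂ) * x) = (((k : ℝ) * τ * x : ℝ) : ℂ) * I := by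
        push_cast
        ring
      rw [e, Complex.norm_exp_ofReal_mul_I, one_mul]
    have hcont : ∀ k, Continuous (F k) := by
      intro k
      simp only [F]
      fun_prop
    have hint : ∀ k, Integrable (F k) := by
      intro k
      refine Integrable.mono' (i2.norm.const_mul ‖q k‖) (hcont k).aestronglyMeasurable
        (Eventually.of_forall fun x => ?_)
      rw [hnorm]
    have hsum : Summable fun k => ∫ x, ‖F k x‖ := by
      have e : (fun k => ∫ x, ‖F k x‖) = fun k => ‖q k‖ * ∫ x, ‖h x‖ := by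
        funext k
        simp only [hnorm]
        rw [integral_const_mul]
      rw [e]
      exact hq.mul_right _
    have h2 := hasSum_integral_of_summable_integral_norm hint hsum
    have h3 : (∫ x, ∑' k, F k x) = 𝓕 h' s := by
      rw [Real.fourier_real_eq_integral_exp_smul]
      congr 1
      funext x
      rw [hq' x, smul_eq_mul]
      simp only [F]
      rw [← tsum_mul_right, ← tsum_mul_left]
      congr 1
      funext k
      push_cast
      ring_nf
    have h4 : (fun k => ∫ x, F k x) =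
        fun k : ℤ => q k * 𝓕 h (s - ((k : ℝ) * τ) / (2 * Real.pi)) := by
      funext k
      simp only [F]
      rw [integral_const_mul, four_shift]
    rw [h3, h4] at h2
    exact h2
  -- the vector valued sum
  let G : ℤ → ℝ → H := fun k s =>
    (q k * 𝓕 h (s - ((k : ℝ) * τ) / (2 * Real.pi))) • U (2 * Real.pi * s) v
  have gcont : ∀ k : ℤ, Continuous
      (fun s : ℝ => q k * 𝓕 h (s - ((k : ℝ) * τ) / (2 * Real.pi))) := by
    intro k
    exact continuous_const.mul (c1.comp (by fun_prop))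
  have gi : ∀ k : ℤ, Integrable
      (fun s : ℝ => q k * 𝓕 h (s - ((k : ℝ) * τ) / (2 * Real.pi))) := by
    intro k
    exact (i1.comp_sub_right _).const_mul _
  have hGi : ∀ k, Integrable (G k) := fun k => integrable_orb hU (gcont k) (gi k) v
  have hGn : ∀ k s, ‖G k s‖ = ‖q k‖ * ‖𝓕 h (s - ((k : ℝ) * τ) / (2 * Real.pi))‖ * ‖v‖ := by
    intro k s
    simp only [G]
    rw [norm_smul, norm_U hU, norm_mul]
  have hGs : Summable fun k => ∫ s, ‖G k s‖ := by
    have e : (fun k => ∫ s, ‖G k s‖) = fun k => ‖q k‖ * ((∫ s, ‖𝓕 h s‖) * ‖v‖) := by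
      funext k
      simp only [hGn]
      rw [integral_mul_const, integral_const_mul,
        integral_sub_right_eq_self (fun s => ‖𝓕 h s‖)]
      ring
    rw [e]
    exact hq.mul_right _
  have h5 := hasSum_integral_of_summable_integral_norm hGi hGs
  have h6 : (∫ s, ∑' k, G k s) = psi U h' v := by
    unfold psi
    congr 1
    funext s
    exact ((key s).smul_const _).tsum_eq
  have h7 : (fun k => ∫ s, G k s) = fun k : ℤ => q k • U ((k : ℝ) * τ) (psi U h v) := by
    funext k
    simp only [G]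
    rw [U_psi hU hh, ← integral_smul]
    congr 1
    funext s
    rw [smul_smul]
  rw [h6, h7] at h5
  exact h5

end Pool.Agent.H255.BC.T_psisum
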