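import Pool.Agent.H255.BC.Defs

set_option autoImplicit false

open MeasureTheory Filter Topology Complex
open scoped InnerProductSpace ENNReal FourierTransform

namespace Pool.Agent.H255.BC.T_q

open Pool.Agent.W662.CB Pool.Agent.H255.BC

/-- the bump -/
noncomputable def chi (a b x : ℝ) : ℝ :=
  Real.smoothTransition ((x - a) / (b - a)) * Real.smoothTransition ((1 / 2 - x) / (1 / 4))

theorem chi_nonneg (a b x : ℝ) : 0 ≤ chi a b x :=
  mul_nonneg (Real.smoothTransition.nonneg _) (Real.smoothTransition.nonneg _)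

theorem chi_zero_left {a b x : ℝ} (hab : a < b) (hx : x ≤ a) : chi a b x = 0 := by
  unfold chi
  rw [Real.smoothTransition.zero_of_nonpos, zero_mul]
  exact div_nonpos_of_nonpos_of_nonneg (by linarith) (by linarith)

theorem chi_zero_right {a b x : ℝ} (hx : 1 / 2 ≤ x) : chi a b x = 0 := by
  unfold chi
  rw [Real.smoothTransition.zero_of_nonpos (x := (1 / 2 - x) / (1 / 4)), mul_zero]
  exact div_nonpos_of_nonpos_of_nonneg (by linarith) (by norm_num)

theorem chi_one {a b x : ℝ} (hab : a < b) (hx : b ≤ x) (hx' : x ≤ 1 / 4) : chi a b x = 1 := by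
  unfold chi
  rw [Real.smoothTransition.one_of_one_le, Real.smoothTransition.one_of_one_le, one_mul]
  · rw [le_div_iff₀ (by norm_num)]; linarith
  · rw [le_div_iff₀ (by linarith)]; linarith

theorem chi_smooth (a b : ℝ) {n : ℕ∞} : ContDiff ℝ n (chi a b) := by
  unfold chi
  apply ContDiff.mul
  · exact Real.smoothTransition.contDiff.comp (by fun_prop)
  · exact Real.smoothTransition.contDiff.comp (by fun_prop)

/-- the function to be periodized -/
noncomputable def Gr (a b l c x : ℝ) : ℝ := chi a b x * (Real.exp (l * x) - c)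

theorem Gr_smooth (a b l c : ℝ) {n : ℕ∞} : ContDiff ℝ n (Gr a b l c) := by
  unfold Gr
  apply ContDiff.mul (chi_smooth a b)
  fun_prop

theorem Gr_nonneg {a b l c : ℝ} (hab : a < b) (hl : 0 ≤ l) (hc : c ≤ Real.exp (l * a)) (x : ℝ) :
    0 ≤ Gr a b l c x := by
  unfold Gr
  rcases le_or_gt x a with h | h
  · rw [chi_zero_left hab h, zero_mul]
  · apply mul_nonneg (chi_nonneg _ _ _)
    have : Real.exp (l * a) ≤ Real.exp (l * x) := by
      apply Real.exp_le_exp.mpr
      exact mul_le_mul_of_nonneg_left h.le hl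
    linarith

theorem Gr_compact {a b l c : ℝ} (hab : a < b) :
    HasCompactSupport (fun x => (Gr a b l c x : ℂ)) := by
  apply HasCompactSupport.intro (isCompact_Icc (a := a) (b := 1 / 2))
  intro x hx
  simp only [Set.mem_Icc, not_and_or, not_le] at hx
  unfold Gr
  rcases hx with h | h
  · rw [chi_zero_left hab h.le]; simp
  · rw [chi_zero_right h.le]; simp

/-- main statement -/
theorem main {a b l c : ℝ} (ha : 0 < a) (hab : a < b) (hl : 0 ≤ l)
    (hc : c ≤ Real.exp (l * a)) (hc1 : 1 < c) :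
    ∃ q : ℤ → ℂ, IsQ q c ∧ ∀ x : ℝ, b ≤ x → x ≤ 1 / 4 →
      HasSum (fun k : ℤ => q k * cexp (I * ((k : ℝ) * (2 * Real.pi * x : ℝ)))) (Real.exp (l * x) : ℂ) := by
  have hsm : ContDiff ℝ ((⊤ : ℕ∞) : WithTop ℕ∞) (fun x => (Gr a b l c x : ℂ)) :=
    Complex.ofRealCLM.contDiff.comp (Gr_smooth a b l c)
  obtain ⟨S, hS⟩ : ∃ S : SchwartzMap ℝ ℂ, ∀ x, S x = (Gr a b l c x : ℂ) := by
    refine ⟨(Gr_compact (l := l) (c := c) hab).toSchwartzMap hsm, fun x => ?_⟩
    rfl
  -- decay
  obtain ⟨C0, hC0p, hC0⟩ := (𝓕 S).decay 0 0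
  obtain ⟨C3, hC3p, hC3⟩ := (𝓕 S).decay 3 0
  have hdec : ∀ k : ℤ, (1 + |(k : ℝ)|) * ‖(𝓕 S) (k : ℝ)‖ ≤
      (if k = 0 then C0 else 0) + 2 * C3 * (1 / (k : ℝ) ^ 2) := by
    intro k
    by_cases hk : k = 0
    · subst hk
      have := hC0 0
      simp only [pow_zero, one_mul, norm_iteratedFDeriv_zero] at this
      simp
      exact this
    · have h3 := hC3 (k : ℝ)
      rw [norm_iteratedFDeriv_zero, Real.norm_eq_abs] at h3
      have hk1 : 1 ≤ |(k : ℝ)| := by
        rw [← Int.cast_abs]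
        exact_mod_cast Int.one_le_abs hk
      have hk0 : 0 < |(k : ℝ)| := by linarith
      rw [if_neg hk, zero_add, ← sq_abs, mul_one_div, le_div_iff₀ (by positivity)]
      calc (1 + |(k : ℝ)|) * ‖(𝓕 S) (k : ℝ)‖ * |(k : ℝ)| ^ 2
          ≤ (|(k : ℝ)| + |(k : ℝ)|) * ‖(𝓕 S) (k : ℝ)‖ * |(k : ℝ)| ^ 2 := by
            gcongr
        _ = 2 * (|(k : ℝ)| ^ 3 * ‖(𝓕 S) (k : ℝ)‖) := by ring
        _ ≤ 2 * C3 := by linarith
  have hsumF : Summable (fun k : ℤ => (1 + |(k : ℝ)|) * ‖(𝓕 S) (k : ℝ)‖) := by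
    refine Summable.of_nonneg_of_le (fun k => by positivity) hdec ?_
    apply Summable.add
    · apply summable_of_hasFiniteSupport
      apply Set.Finite.subset (Set.finite_singleton (0 : ℤ))
      intro k hk
      by_contra h
      apply hk
      simp only [Set.mem_singleton_iff] at h
      simp [h]
    · exact (Real.summable_one_div_int_pow.mpr (by norm_num)).mul_left _
  have hsumF1 : Summable (fun k : ℤ => ‖(𝓕 S) (k : ℝ)‖) := by
    refine Summable.of_nonneg_of_le (fun k => norm_nonneg _) (fun k => ?_) hsumF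
    have : 0 ≤ |(k : ℝ)| * ‖(𝓕 S) (k : ℝ)‖ := by positivity
    nlinarith
  -- the periodization
  have hper : ∀ x : ℝ, HasSum (fun k : ℤ => (𝓕 S) (k : ℝ) * cexp (I * ((k : ℝ) * (2 * Real.pi * x : ℝ))))
      (∑' n : ℤ, Gr a b l c (x + n) : ℝ) := by
    intro x
    have h1 := S.tsum_eq_tsum_fourier x
    have h2 : ∀ k : ℤ, (𝓕 S) (k : ℝ) * cexp (I * ((k : ℝ) * (2 * Real.pi * x : ℝ))) =
        (𝓕 S) (k : ℝ) * fourier k (x : UnitAddCircle) := by
      intro k
      congr 1
      rw [fourier_coe_apply]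
      congr 1
      push_cast
      ring
    have hs : Summable (fun k : ℤ => (𝓕 S) (k : ℝ) * cexp (I * ((k : ℝ) * (2 * Real.pi * x : ℝ)))) := by
      apply Summable.of_norm
      refine hsumF1.congr (fun k => ?_)
      rw [norm_mul]
      have : ‖cexp (I * ((k : ℝ) * (2 * Real.pi * x : ℝ)))‖ = 1 := by
        rw [show I * (((k : ℝ) : ℂ) * ((2 * Real.pi * x : ℝ) : ℂ)) =
          (((k : ℝ) * (2 * Real.pi * x) : ℝ) : ℂ) * I by push_cast; ring]
        exact Complex.norm_exp_ofReal_mul_I _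
      rw [this, mul_one]
    have h3 : ((∑' n : ℤ, Gr a b l c (x + n) : ℝ) : ℂ) =
        ∑' k : ℤ, (𝓕 S) (k : ℝ) * cexp (I * ((k : ℝ) * (2 * Real.pi * x : ℝ))) := by
      rw [Complex.ofReal_tsum]
      calc ∑' n : ℤ, ((Gr a b l c (x + n) : ℝ) : ℂ) = ∑' n : ℤ, S (x + n) := by
            apply tsum_congr
            intro n
            rw [hS]
        _ = _ := by
            rw [h1]
            apply tsum_congr
            intro k
            rw [h2 k]
    rw [h3]
    exact hs.hasSum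
  have hdel : ∀ x : ℝ, HasSum (fun k : ℤ => (if k = 0 then (c : ℂ) else 0) *
      cexp (I * ((k : ℝ) * (2 * Real.pi * x : ℝ)))) (c : ℂ) := by
    intro x
    have := hasSum_single (f := fun k : ℤ => (if k = 0 then (c : ℂ) else 0) *
      cexp (I * ((k : ℝ) * (2 * Real.pi * x : ℝ)))) 0 (by
        intro k hk
        simp [hk])
    simpa using this
  set q : ℤ → ℂ := fun k => (𝓕 S) (k : ℝ) + (if k = 0 then (c : ℂ) else 0) with hq
  have hqsum : ∀ x : ℝ, HasSum (fun k : ℤ => q k * cexp (I * ((k : ℝ) * (2 * Real.pi * x : ℝ))))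
      ((∑' n : ℤ, Gr a b l c (x + n) : ℝ) + (c : ℂ)) := by
    intro x
    refine ((hper x).add (hdel x)).congr_fun ?_
    intro k
    simp only [hq]
    ring
  refine ⟨q, ⟨hc1, ?_, ?_⟩, ?_⟩
  · -- summable
    have hsd : Summable (fun k : ℤ => (1 + |(k : ℝ)|) * ‖(if k = 0 then (c : ℂ) else 0)‖) := by
      apply summable_of_hasFiniteSupport
      apply Set.Finite.subset (Set.finite_singleton (0 : ℤ))
      intro k hk
      by_contra h
      apply hk
      simp only [Set.mem_singleton_iff] at h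
      simp [h]
    refine Summable.of_nonneg_of_le (fun k => by positivity) (fun k => ?_) (hsumF.add hsd)
    rw [← mul_add]
    apply mul_le_mul_of_nonneg_left (norm_add_le _ _) (by positivity)
  · -- real
    intro θ
    refine ⟨(∑' n : ℤ, Gr a b l c (θ / (2 * Real.pi) + n)) + c, ?_, ?_⟩
    · have : 0 ≤ ∑' n : ℤ, Gr a b l c (θ / (2 * Real.pi) + n) :=
        tsum_nonneg (fun n => Gr_nonneg hab hl hc _)
      linarith
    · have h := hqsum (θ / (2 * Real.pi))
      have e : 2 * Real.pi * (θ / (2 * Real.pi)) = θ := by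
        field_simp
      rw [e] at h
      push_cast at h ⊢
      exact h
  · intro x hx1 hx2
    have h := hqsum x
    have hz : ∑' n : ℤ, Gr a b l c (x + n) = Real.exp (l * x) - c := by
      rw [tsum_eq_single (0 : ℤ)]
      · unfold Gr
        rw [Int.cast_zero, add_zero, chi_one hab hx1 hx2, one_mul]
      · intro n hn
        unfold Gr
        rcases lt_or_gt_of_ne hn with h' | h'
        · rw [chi_zero_left hab, zero_mul]
          have : (n : ℝ) ≤ -1 := by exact_mod_cast (by omega : n ≤ -1)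
          linarith
        · rw [chi_zero_right, zero_mul]
          have : (1 : ℝ) ≤ n := by exact_mod_cast (by omega : 1 ≤ n)
          linarith
    rw [hz] at h
    have e : (((Real.exp (l * x) - c : ℝ) : ℂ) + (c : ℂ)) = (Real.exp (l * x) : ℂ) := by
      push_cast; ring
    rw [e] at h
    exact h

theorem q_thm : S_q := by
  intro κ₁ κ₂ h1 h2
  have hk2 : 0 < κ₂ := by linarith
  obtain ⟨q, hq, hqs⟩ := main (a := κ₁ / (8 * κ₂)) (b := κ₁ / (4 * κ₂)) (l := 2 * κ₂)
    (c := Real.exp (κ₁ / 4)) (by positivity)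
    (by
      apply div_lt_div_of_pos_left h1 (by positivity) (by linarith))
    (by positivity)
    (by
      apply le_of_eq
      congr 1
      field_simp
      ring)
    (by
      rw [← Real.exp_zero]
      exact Real.exp_lt_exp.mpr (by positivity))
  refine ⟨Real.pi / (2 * κ₂), Real.exp (κ₁ / 4), q, by positivity, hq, ?_⟩
  intro κ hκ1 hκ2
  have h := hqs (κ / (4 * κ₂)) (by gcongr) (by
    rw [div_le_iff₀ (by positivity)]
    linarith)
  have e1 : 2 * κ₂ * (κ / (4 * κ₂)) = κ / 2 := by field_simp; ring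
  rw [e1] at h
  refine h.congr_fun ?_
  intro k
  congr 2
  push_cast
  have : (κ₂ : ℂ) ≠ 0 := by exact_mod_cast hk2.ne'
  field_simp
  ring

end Pool.Agent.H255.BC.T_q
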