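import Pool.Agent.H255.BC.Defs

set_option autoImplicit false

open MeasureTheory Filter Topology Complex
open scoped InnerProductSpace ENNReal FourierTransform

namespace Pool.Agent.H255.BC.T_scal

open Pool.Agent.W662.CB Pool.Agent.H255.BC

section

variable {H : Type} [NormedAddCommGroup H] [InnerProductSpace ℂ H] [CompleteSpace H]

theorem smul_mem' {M : VonNeumannAlgebra H} {x : H →L[ℂ] H} (hx : x ∈ M) (r : ℂ) : r • x ∈ M :=
  StarSubalgebra.smul_mem (S := M.toStarSubalgebra) hx r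

theorem inner_star (v : H →L[ℂ] H) (x y : H) : ⟪star v x, y⟫_ℂ = ⟪x, v y⟫_ℂ := by
  rw [ContinuousLinearMap.star_eq_adjoint, ContinuousLinearMap.adjoint_inner_left]

theorem inner_star' (v : H →L[ℂ] H) (x y : H) : ⟪x, star v y⟫_ℂ = ⟪v x, y⟫_ℂ := by
  rw [ContinuousLinearMap.star_eq_adjoint, ContinuousLinearMap.adjoint_inner_right]

theorem iso_inner {v : H →L[ℂ] H} (h : star v * v = 1) (x y : H) : ⟪v x, v y⟫_ℂ = ⟪x, y⟫_ℂ := by
  rw [← inner_star' v x (v y)]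
  have : star v (v y) = (star v * v) y := rfl
  rw [this, h]; rfl

theorem iso_norm {v : H →L[ℂ] H} (h : star v * v = 1) (x : H) : ‖v x‖ = ‖x‖ := by
  have h1 := iso_inner h x x
  rw [inner_self_eq_norm_sq_to_K, inner_self_eq_norm_sq_to_K] at h1
  have h2 : (‖v x‖ : ℝ) ^ 2 = ‖x‖ ^ 2 := by exact_mod_cast h1
  exact (sq_eq_sq₀ (norm_nonneg _) (norm_nonneg _)).1 h2

theorem iso_star_norm {v : H →L[ℂ] H} (h : star v * v = 1) (x : H) : ‖star v x‖ ≤ ‖x‖ := by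
  have h1 : ‖v‖ ≤ 1 := ContinuousLinearMap.opNorm_le_bound _ zero_le_one
    (fun y => by rw [iso_norm h y, one_mul])
  have h2 : ‖star v‖ ≤ 1 := by rw [norm_star]; exact h1
  calc ‖star v x‖ ≤ ‖star v‖ * ‖x‖ := (star v).le_opNorm x
    _ ≤ 1 * ‖x‖ := by gcongr
    _ = ‖x‖ := one_mul _

variable {M : VonNeumannAlgebra H} {ξ : H} {U : ℝ → H →L[ℂ] H} {J : H → H}

theorem J_norm (hJ : IsConj M ξ U J) (x : H) : ‖J x‖ = ‖x‖ := by
  have h1 := hJ.inner x x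
  rw [inner_self_eq_norm_sq_to_K, inner_self_eq_norm_sq_to_K] at h1
  have h2 : (‖J x‖ : ℝ) ^ 2 = ‖x‖ ^ 2 := by exact_mod_cast h1
  exact (sq_eq_sq₀ (norm_nonneg _) (norm_nonneg _)).1 h2

theorem J_smul (hJ : IsConj M ξ U J) (r : ℝ) (x : H) : J ((r : ℂ) • x) = (r : ℂ) • J x := by
  rw [hJ.smul, Complex.conj_ofReal]

theorem J_zero (hJ : IsConj M ξ U J) : J 0 = 0 := by
  have := J_norm hJ 0
  rw [norm_zero, norm_eq_zero] at this
  exact this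

theorem J_neg (hJ : IsConj M ξ U J) (x : H) : J (-x) = - J x := by
  have := hJ.add x (-x)
  rw [add_neg_cancel, J_zero hJ] at this
  exact (neg_eq_of_add_eq_zero_right this.symm).symm

theorem J_sub (hJ : IsConj M ξ U J) (x y : H) : J (x - y) = J x - J y := by
  rw [sub_eq_add_neg, hJ.add, J_neg hJ, sub_eq_add_neg]

theorem J_sum (hJ : IsConj M ξ U J) {ι : Type} (s : Finset ι) (f : ι → H) :
    J (∑ i ∈ s, f i) = ∑ i ∈ s, J (f i) := by
  classical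
  induction s using Finset.induction_on with
  | empty => simp [J_zero hJ]
  | insert a s ha ih => rw [Finset.sum_insert ha, Finset.sum_insert ha, hJ.add, ih]

/-- the finite sums -/
def cone0 (M : VonNeumannAlgebra H) (ξ : H) (J : H → H) : Set H :=
  {ζ : H | ∃ (k : ℕ) (a : Fin k → H →L[ℂ] H), (∀ i, a i ∈ M) ∧
    ζ = ∑ i, (a i) (J ((a i) (J ξ)))}

theorem cone0_sub : cone0 M ξ J ⊆ cone M ξ J := subset_closure

theorem alf_one (hJ : IsConj M ξ U J) {u a : H →L[ℂ] H} (hu : u ∈ M) (ha : a ∈ M) :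
    u (J (u (J (a (J (a (J ξ))))))) = (u * a) (J ((u * a) (J ξ))) := by
  have h1 := hJ.comm a u ha hu (J (a (J ξ)))
  rw [hJ.inv] at h1
  change u (J (u (J (a (J (a (J ξ))))))) = u (a (J (u (a (J ξ)))))
  rw [h1]

theorem cone0_alf (hJ : IsConj M ξ U J) {u : H →L[ℂ] H} (hu : u ∈ M) {ζ : H}
    (hζ : ζ ∈ cone0 M ξ J) : u (J (u (J ζ))) ∈ cone0 M ξ J := by
  obtain ⟨k, a, ha, rfl⟩ := hζ
  refine ⟨k, fun i => u * a i, fun i => mul_mem hu (ha i), ?_⟩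
  rw [J_sum hJ, map_sum, J_sum hJ, map_sum]
  exact Finset.sum_congr rfl fun i _ => alf_one hJ hu (ha i)

theorem smul_form (hJ : IsConj M ξ U J) (s : ℝ) (w : H →L[ℂ] H) :
    ((s : ℂ) • w) (J (((s : ℂ) • w) (J ξ))) = ((s ^ 2 : ℝ) : ℂ) • w (J (w (J ξ))) := by
  change (s : ℂ) • w (J ((s : ℂ) • w (J ξ))) = _
  rw [J_smul hJ, map_smul, smul_smul]
  congr 1
  push_cast; ring

/-- approximation -/
theorem approx (h6 : S_ps) (hm : IsModular M ξ U) (hc : IsCyclic M ξ) (hJ : IsConj M ξ U J)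
    (hξ : ‖ξ‖ = 1) (hT : IsTypeIII1 M) {ζ : H} (hζ : ζ ∈ cone0 M ξ J) (hn : ‖ζ‖ = 1)
    {ε : ℝ} (hε : 0 < ε) :
    ∃ u : H →L[ℂ] H, u ∈ M ∧ star u * u = 1 ∧ u * star u = 1 ∧
      ‖u (J (u (J ζ))) - ξ‖ ≤ ε := by
  obtain ⟨u, hu, hu1, hu2, hu3⟩ := hT.homog ζ ξ hn hξ (ε ^ 2) (by positivity)
  refine ⟨u, hu, hu1, hu2, ?_⟩
  have hmem : u (J (u (J ζ))) ∈ cone M ξ J := cone0_sub (cone0_alf hJ hu hζ)
  have key := h6 H M ξ U J hm hc hJ (u (J (u (J ζ)))) (ε ^ 2) hmem ?_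
  · exact (sq_le_sq₀ (norm_nonneg _) hε.le).1 key
  · intro x hx hx1
    have e1 : u (J (u (J ζ))) = J (u (J (u ζ))) := hJ.comm u u hu hu ζ
    have e2 : x (J (u (J (u ζ)))) = J (u (J (x (u ζ)))) := hJ.comm x u hx hu (u ζ)
    have e3 : ⟪u (J (u (J ζ))), x (u (J (u (J ζ))))⟫_ℂ = ⟪u ζ, x (u ζ)⟫_ℂ := by
      rw [e1, e2, hJ.inner, iso_inner hu1, hJ.inner]
    rw [e3]
    exact hu3 x hx hx1

theorem part1 (h6 : S_ps) (hξ : ‖ξ‖ = 1) (hm : IsModular M ξ U) (hc : IsCyclic M ξ)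
    (hJ : IsConj M ξ U J) (hT : IsTypeIII1 M) (t ε : ℝ) (ht0 : 0 < t) (ht1 : t < 1)
    (hε : 0 < ε) : ∃ v, IsScal M ξ J t ε v := by
  obtain ⟨p, hpM, hpp, hps, hp0, hp1⟩ := hT.nontriv
  obtain ⟨w₁, hw₁, hw₁1, hw₁2⟩ := hT.equiv p hpM hpp hps hp0
  obtain ⟨w₂, hw₂, hw₂1, hw₂2⟩ := hT.equiv (1 - p) (sub_mem (one_mem _) hpM)
    (by rw [sub_mul, mul_sub, mul_sub, hpp]; simp) (by rw [star_sub, star_one, hps])
    (by rw [sub_ne_zero]; exact fun h => hp1 h.symm)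
  -- orthogonality
  have hort : star w₁ * w₂ = 0 := by
    have h1 : star (star w₂ * w₁) * (star w₂ * w₁) = 0 := by
      rw [star_mul, star_star]
      calc star w₁ * w₂ * (star w₂ * w₁) = star w₁ * (w₂ * star w₂) * w₁ := by
            simp only [mul_assoc]
        _ = star w₁ * (1 - w₁ * star w₁) * w₁ := by rw [hw₂2, hw₁2]
        _ = (star w₁ * w₁) - (star w₁ * w₁) * (star w₁ * w₁) := by
            rw [mul_sub, sub_mul]; simp only [mul_assoc, mul_one]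
        _ = 0 := by rw [hw₁1]; simp
    have h2 : star w₂ * w₁ = 0 := CStarRing.star_mul_self_eq_zero_iff _ |>.1 h1
    have h3 := congrArg star h2
    rw [star_mul, star_star, star_zero] at h3
    exact h3
  set a : Fin 2 → H →L[ℂ] H := ![((Real.sqrt (Real.sqrt t) : ℝ) : ℂ) • w₁,
    ((Real.sqrt (Real.sqrt (1 - t)) : ℝ) : ℂ) • w₂] with ha
  set ζ : H := ((Real.sqrt t : ℝ) : ℂ) • w₁ (J (w₁ (J ξ))) +
    ((Real.sqrt (1 - t) : ℝ) : ℂ) • w₂ (J (w₂ (J ξ))) with hζdef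
  have hζ : ζ ∈ cone0 M ξ J := by
    refine ⟨2, a, ?_, ?_⟩
    · intro i
      fin_cases i
      · exact smul_mem' hw₁ _
      · exact smul_mem' hw₂ _
    · rw [Fin.sum_univ_two]
      change ζ = (((Real.sqrt (Real.sqrt t) : ℝ) : ℂ) • w₁)
          (J ((((Real.sqrt (Real.sqrt t) : ℝ) : ℂ) • w₁) (J ξ))) +
        (((Real.sqrt (Real.sqrt (1 - t)) : ℝ) : ℂ) • w₂)
          (J ((((Real.sqrt (Real.sqrt (1 - t)) : ℝ) : ℂ) • w₂) (J ξ)))
      rw [smul_form hJ, smul_form hJ, Real.sq_sqrt (Real.sqrt_nonneg _),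
        Real.sq_sqrt (Real.sqrt_nonneg _)]
  have hwn₁ : ‖w₁ (J (w₁ (J ξ)))‖ = 1 := by
    rw [iso_norm hw₁1, J_norm hJ, iso_norm hw₁1, J_norm hJ, hξ]
  have hwn₂ : ‖w₂ (J (w₂ (J ξ)))‖ = 1 := by
    rw [iso_norm hw₂1, J_norm hJ, iso_norm hw₂1, J_norm hJ, hξ]
  have hort' : ∀ x y : H, ⟪w₁ x, w₂ y⟫_ℂ = 0 := by
    intro x y
    rw [← inner_star']
    have : star w₁ (w₂ y) = (star w₁ * w₂) y := rfl
    rw [this, hort]
    simp
  have hn : ‖ζ‖ = 1 := by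
    have h1 : ⟪((Real.sqrt t : ℝ) : ℂ) • w₁ (J (w₁ (J ξ))),
        ((Real.sqrt (1 - t) : ℝ) : ℂ) • w₂ (J (w₂ (J ξ)))⟫_ℂ = 0 := by
      rw [inner_smul_left, inner_smul_right, hort', mul_zero, mul_zero]
    have h2 := norm_add_sq_eq_norm_sq_add_norm_sq_of_inner_eq_zero _ _ h1
    rw [← hζdef, norm_smul, norm_smul, hwn₁, hwn₂, Complex.norm_real, Complex.norm_real,
      Real.norm_of_nonneg (Real.sqrt_nonneg _), Real.norm_of_nonneg (Real.sqrt_nonneg _),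
      mul_one, mul_one, Real.mul_self_sqrt ht0.le, Real.mul_self_sqrt (by linarith)] at h2
    nlinarith [norm_nonneg ζ]
  obtain ⟨u, hu, hu1, hu2, hu3⟩ := approx h6 hm hc hJ hξ hT hζ hn hε
  have huv : star (u * w₁) * (u * w₁) = 1 := by
    rw [star_mul]
    calc star w₁ * star u * (u * w₁) = star w₁ * (star u * u) * w₁ := by simp only [mul_assoc]
      _ = 1 := by rw [hu1, mul_one, hw₁1]
  refine ⟨u * w₁, mul_mem hu hw₁, huv, ?_⟩
  -- the identity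
  have hid : J (star (u * w₁) (J (u (J (u (J ζ)))))) = ((Real.sqrt t : ℝ) : ℂ) • (u * w₁) ξ := by
    have e1 : u (J (u (J ζ))) = J (u (J (u ζ))) := hJ.comm u u hu hu ζ
    have e2 : star (u * w₁) (u (J (u ζ))) = star w₁ (J (u ζ)) := by
      rw [star_mul]
      change star w₁ ((star u * u) (J (u ζ))) = _
      rw [hu1]; rfl
    have e3 : J (star w₁ (J (u ζ))) = u (J (star w₁ (J ζ))) :=
      (hJ.comm u (star w₁) hu (star_mem hw₁) ζ).symm
    have e4 : J ζ = ((Real.sqrt t : ℝ) : ℂ) • w₁ (J (w₁ ξ)) +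
        ((Real.sqrt (1 - t) : ℝ) : ℂ) • w₂ (J (w₂ ξ)) := by
      rw [hζdef, hJ.add, J_smul hJ, J_smul hJ, hJ.comm w₁ w₁ hw₁ hw₁ ξ,
        hJ.comm w₂ w₂ hw₂ hw₂ ξ, hJ.inv, hJ.inv]
    have e5 : star w₁ (J ζ) = ((Real.sqrt t : ℝ) : ℂ) • J (w₁ ξ) := by
      rw [e4, map_add, map_smul, map_smul]
      have f1 : star w₁ (w₁ (J (w₁ ξ))) = (star w₁ * w₁) (J (w₁ ξ)) := rfl
      have f2 : star w₁ (w₂ (J (w₂ ξ))) = (star w₁ * w₂) (J (w₂ ξ)) := rfl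
      rw [f1, f2, hw₁1, hort]
      simp
    rw [e1, hJ.inv, e2, e3, e5, J_smul hJ, hJ.inv, map_smul]
    rfl
  rw [← hid]
  have e0 : J (star (u * w₁) ξ) = J (star (u * w₁) (J ξ)) := by rw [hJ.fix]
  rw [e0, ← J_sub hJ, ← map_sub, J_norm hJ, ← J_sub hJ]
  calc ‖star (u * w₁) (J (ξ - u (J (u (J ζ)))))‖ ≤ ‖J (ξ - u (J (u (J ζ))))‖ :=
        iso_star_norm huv _
    _ = ‖u (J (u (J ζ))) - ξ‖ := by rw [J_norm hJ, norm_sub_rev]
    _ ≤ ε := hu3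

theorem part2 (h6 : S_ps) (hξ : ‖ξ‖ = 1) (hm : IsModular M ξ U) (hc : IsCyclic M ξ)
    (hJ : IsConj M ξ U J) (hT : IsTypeIII1 M) (p : H →L[ℂ] H) (hpM : p ∈ M) (hpp : p * p = p)
    (hps : star p = p) (hp0 : p ≠ 0) (hpJ : J (p ξ) = p ξ) (ε : ℝ) (hε : 0 < ε) :
    ∃ v, IsScal M ξ J (‖p ξ‖ ^ 2) ε v ∧ v * star v = p := by
  obtain ⟨v₀, hv₀, hv₀1, hv₀2⟩ := hT.equiv p hpM hpp hps hp0
  -- `p ξ ≠ 0`
  have hs : p ξ ≠ 0 := by
    intro h0
    apply hp0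
    have hd : Dense {v : H | ∃ x : H →L[ℂ] H, x ∈ M ∧ J (x ξ) = v} := by
      intro y
      have hJc : Continuous J := by
        refine continuous_iff_continuousAt.2 fun x => ?_
        rw [Metric.continuousAt_iff]
        intro δ hδ
        refine ⟨δ, hδ, fun {z} hz => ?_⟩
        rw [dist_eq_norm, ← J_sub hJ, J_norm hJ, ← dist_eq_norm]
        exact hz
      have h1 := hc (J y)
      have h2 : J (J y) ∈ closure (J '' {v : H | ∃ x : H →L[ℂ] H, x ∈ M ∧ x ξ = v}) :=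
        image_closure_subset_closure_image hJc ⟨J y, h1, rfl⟩
      rw [hJ.inv] at h2
      refine closure_mono ?_ h2
      rintro _ ⟨_, ⟨x, hx, rfl⟩, rfl⟩
      exact ⟨x, hx, rfl⟩
    have he : (p : H → H) = (0 : H →L[ℂ] H) := by
      refine Continuous.ext_on hd p.continuous (0 : H →L[ℂ] H).continuous ?_
      rintro _ ⟨x, hx, rfl⟩
      have h1 := hJ.comm p x hpM hx ξ
      rw [hJ.fix, h0, J_zero hJ, map_zero, J_zero hJ] at h1
      simpa using h1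
    ext x
    exact congrFun he x
  set s : ℝ := ‖p ξ‖ with hsdef
  have hspos : 0 < s := norm_pos_iff.2 hs
  have hs1 : s ≤ 1 := by
    have h1 : ‖p ξ‖ = ‖star v₀ ξ‖ := by
      rw [← hv₀2]
      exact iso_norm hv₀1 _
    rw [hsdef, h1, ← hξ]
    exact iso_star_norm hv₀1 ξ
  have hvp : ∀ x : H, ‖star v₀ x‖ = ‖p x‖ := by
    intro x
    rw [← hv₀2]
    exact (iso_norm hv₀1 _).symm
  have hvpx : ∀ x : H, star v₀ (p x) = star v₀ x := by
    intro x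
    rw [← hv₀2]
    change (star v₀ * v₀) (star v₀ x) = _
    rw [hv₀1]; rfl
  -- `p (J (v₀^* (J ξ))) = J (v₀^* ξ)`
  have hkey : p (J (star v₀ (J ξ))) = J (star v₀ ξ) := by
    rw [hJ.comm p (star v₀) hpM (star_mem hv₀) ξ, hpJ, hvpx]
  set ζ : H := ((s⁻¹ : ℝ) : ℂ) • star v₀ (J (star v₀ (J ξ))) with hζdef
  have hζ : ζ ∈ cone0 M ξ J := by
    refine ⟨1, fun _ => ((Real.sqrt s⁻¹ : ℝ) : ℂ) • star v₀, fun _ => smul_mem' (star_mem hv₀) _, ?_⟩
    rw [Fin.sum_univ_one, smul_form hJ, Real.sq_sqrt (inv_nonneg.2 hspos.le)]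
  have hn : ‖ζ‖ = 1 := by
    rw [hζdef, norm_smul, hvp, hkey, J_norm hJ, hvp, Complex.norm_real,
      Real.norm_of_nonneg (inv_nonneg.2 hspos.le)]
    exact inv_mul_cancel₀ hspos.ne'
  obtain ⟨u, hu, hu1, hu2, hu3⟩ := approx h6 hm hc hJ hξ hT hζ hn hε
  have huv : star (v₀ * star u) * (v₀ * star u) = 1 := by
    rw [star_mul, star_star]
    calc u * star v₀ * (v₀ * star u) = u * (star v₀ * v₀) * star u := by simp only [mul_assoc]
      _ = 1 := by rw [hv₀1, mul_one, hu2]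
  refine ⟨v₀ * star u, ⟨mul_mem hv₀ (star_mem hu), huv, ?_⟩, ?_⟩
  · rw [Real.sqrt_sq hspos.le]
    have hid : J (star (v₀ * star u) ξ) = (s : ℂ) • (v₀ * star u) (u (J (u (J ζ)))) := by
      have e1 : (v₀ * star u) (u (J (u (J ζ)))) = v₀ (J (u (J ζ))) := by
        change v₀ ((star u * u) (J (u (J ζ)))) = _
        rw [hu1]; rfl
      have e2 : v₀ (J (u (J ζ))) = J (u (J (v₀ ζ))) := hJ.comm v₀ u hv₀ hu ζ
      have e3 : (s : ℂ) • v₀ ζ = J (star v₀ ξ) := by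
        rw [hζdef, map_smul, smul_smul, ← Complex.ofReal_mul, mul_inv_cancel₀ hspos.ne',
          Complex.ofReal_one, one_smul, ← hkey, ← hv₀2]
        rfl
      rw [e1, e2, ← J_smul hJ, ← map_smul, ← J_smul hJ, e3, hJ.inv, star_mul, star_star]
      rfl
    rw [hid, ← smul_sub, ← map_sub, norm_smul, iso_norm huv, Complex.norm_real,
      Real.norm_of_nonneg hspos.le]
    calc s * ‖u (J (u (J ζ))) - ξ‖ ≤ 1 * ‖u (J (u (J ζ))) - ξ‖ := by gcongr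
      _ ≤ ε := by rw [one_mul]; exact hu3
  · rw [star_mul, star_star]
    calc v₀ * star u * (u * star v₀) = v₀ * (star u * u) * star v₀ := by simp only [mul_assoc]
      _ = p := by rw [hu1, mul_one, hv₀2]

end

theorem scal_thm (h6 : S_ps) : S_scal := by
  intro H _ _ _ M ξ U J hξ hm hc hJ hT
  exact ⟨fun t ε ht0 ht1 hε => part1 h6 hξ hm hc hJ hT t ε ht0 ht1 hε,
    fun p hpM hpp hps hp0 hpJ ε hε => part2 h6 hξ hm hc hJ hT p hpM hpp hps hp0 hpJ ε hε⟩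

end Pool.Agent.H255.BC.T_scal
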