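import Pool.Agent.H255.BC.Defs

set_option autoImplicit false

open MeasureTheory Filter Topology Complex
open scoped InnerProductSpace ENNReal FourierTransform

namespace Pool.Agent.H255.BC.T_split

open Pool.Agent.W662.CB Pool.Agent.H255.BC

noncomputable section

/-! ### windows -/

/-- the window -/
def aa (r k : ℕ) : ℝ := (k : ℝ) * ((r : ℝ) - k)

/-- the sum of the squares -/
def AA (r : ℕ) : ℝ := (r : ℝ) * ((r : ℝ) ^ 4 - 1) / 30

theorem sum_poly (x : ℝ) (n : ℕ) : ∑ k ∈ Finset.range n, ((k : ℝ) * (x - k)) ^ 2 =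
    x ^ 2 * (n * (n - 1) * (2 * n - 1) / 6) - 2 * x * (n ^ 2 * (n - 1) ^ 2 / 4) +
      n * (n - 1) * (2 * n - 1) * (3 * n ^ 2 - 3 * n - 1) / 30 := by
  induction n with
  | zero => simp
  | succ n ih =>
    rw [Finset.sum_range_succ, ih]
    push_cast
    ring

theorem sum_aa_sq (r : ℕ) : ∑ k ∈ Finset.range r, aa r k ^ 2 = AA r := by
  unfold aa AA
  rw [sum_poly]
  ring

theorem sum_poly2 (x : ℝ) (n : ℕ) : ∑ k ∈ Finset.range n, (2 * (k : ℝ) + 1 - x) ^ 2 =
    n * (2 * n - 1) * (2 * n + 1) / 3 - 2 * x * n ^ 2 + n * x ^ 2 := by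
  induction n with
  | zero => simp
  | succ n ih =>
    rw [Finset.sum_range_succ, ih]
    push_cast
    ring

theorem sum_diff_sq (r : ℕ) :
    ∑ k ∈ Finset.range r, (aa r (k + 1) - aa r k) ^ 2 = (r : ℝ) * ((r : ℝ) ^ 2 - 1) / 3 := by
  have h : ∀ k : ℕ, (aa r (k + 1) - aa r k) ^ 2 = (2 * (k : ℝ) + 1 - r) ^ 2 := by
    intro k
    unfold aa
    push_cast
    ring
  rw [Finset.sum_congr rfl fun k _ => h k, sum_poly2]
  ring

theorem AA_pos {r : ℕ} (hr : 2 ≤ r) : 0 < AA r := by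
  unfold AA
  have h : (2 : ℝ) ≤ r := by exact_mod_cast hr
  have h4 : (2 : ℝ) ^ 4 ≤ (r : ℝ) ^ 4 := by gcongr
  have : 0 < (r : ℝ) ^ 4 - 1 := by linarith
  positivity

/-- the normalising constant -/
def rho (r : ℕ) : ℝ := Real.sqrt (1 / ((r : ℝ) * AA r))

theorem rho_sq {r : ℕ} (hr : 2 ≤ r) : rho r ^ 2 * ((r : ℝ) * AA r) = 1 := by
  have h := AA_pos hr
  have h2 : (0 : ℝ) < r := by exact_mod_cast (by omega : 0 < r)
  unfold rho
  rw [Real.sq_sqrt (by positivity)]
  field_simp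

theorem rho_nonneg (r : ℕ) : 0 ≤ rho r := Real.sqrt_nonneg _

/-! ### roots of unity -/

/-- the angles -/
def th (r i : ℕ) : ℝ := 2 * Real.pi * i / r

/-- the roots of unity `e^{-iθ}` -/
def om (r i : ℕ) : ℂ := cexp (-(I * th r i))

theorem star_om (r i : ℕ) : star (om r i) = cexp (I * th r i) := by
  unfold om
  rw [Complex.star_def, ← Complex.exp_conj]
  congr 1
  simp

theorem norm_om (r i : ℕ) : ‖om r i‖ = 1 := by
  unfold om
  rw [Complex.norm_exp]
  simp

theorem star_om_mul (r i : ℕ) : star (om r i) * om r i = 1 := by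
  rw [star_om]
  unfold om
  rw [← Complex.exp_add]
  simp

theorem ortho {r : ℕ} (hr : 2 ≤ r) {k l : ℕ} (hk : k < r) (hl : l < r) :
    ∑ i : Fin r, star (om r i ^ k) * om r i ^ l = if k = l then (r : ℂ) else 0 := by
  have hr0 : r ≠ 0 := by omega
  have hζ := Complex.isPrimitiveRoot_exp r hr0
  set ζ := cexp (2 * Real.pi * I / r) with hζd
  have hne : ζ ≠ 0 := Complex.exp_ne_zero _
  have h1 : ∀ i : ℕ, star (om r i) = ζ ^ i := by
    intro i
    rw [star_om, hζd, ← Complex.exp_nat_mul]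
    congr 1
    unfold th
    push_cast
    ring
  have h2 : ∀ i : ℕ, om r i = (ζ⁻¹) ^ i := by
    intro i
    have h3 := star_om_mul r i
    rw [h1] at h3
    rw [inv_pow]
    exact eq_inv_of_mul_eq_one_right h3
  have h4 : ∀ i : ℕ, star (om r i ^ k) * om r i ^ l = (ζ ^ k * (ζ⁻¹) ^ l) ^ i := by
    intro i
    rw [star_pow, h1, h2, mul_pow, ← pow_mul, ← pow_mul, ← pow_mul, ← pow_mul, mul_comm i k,
      mul_comm i l]
  rw [Finset.sum_congr rfl fun (i : Fin r) _ => h4 i,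
    Fin.sum_univ_eq_sum_range (fun i => (ζ ^ k * (ζ⁻¹) ^ l) ^ i) r]
  split_ifs with hkl
  · subst hkl
    rw [← mul_pow, mul_inv_cancel₀ hne, one_pow]
    simp
  · have hx : ζ ^ k * (ζ⁻¹) ^ l ≠ 1 := by
      intro h
      apply hkl
      apply hζ.pow_inj hk hl
      rw [inv_pow] at h
      exact eq_of_mul_inv_eq_one h
    rw [geom_sum_eq hx]
    have : (ζ ^ k * (ζ⁻¹) ^ l) ^ r = 1 := by
      rw [mul_pow, ← pow_mul, ← pow_mul, mul_comm k, mul_comm l, pow_mul, pow_mul, inv_pow,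
        hζ.pow_eq_one, inv_one, one_pow, one_pow, one_mul]
    rw [this, sub_self, zero_div]

section

variable {H : Type} [NormedAddCommGroup H] [InnerProductSpace ℂ H] [CompleteSpace H]

omit [CompleteSpace H] in
theorem inner_self' (x : H) : ((‖x‖ : ℝ) : ℂ) ^ 2 = ⟪x, x⟫_ℂ :=
  (inner_self_eq_norm_sq_to_K (𝕜 := ℂ) x).symm

theorem parseval {r : ℕ} (hr : 2 ≤ r) (w : ℕ → H) :
    ∑ i : Fin r, ‖∑ k ∈ Finset.range r, om r i ^ k • w k‖ ^ 2 =
      r * ∑ k ∈ Finset.range r, ‖w k‖ ^ 2 := by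
  have h1 : ∀ i : Fin r, ((‖∑ k ∈ Finset.range r, om r i ^ k • w k‖ ^ 2 : ℝ) : ℂ) =
      ∑ k ∈ Finset.range r, ∑ l ∈ Finset.range r,
        (star (om r i ^ k) * om r i ^ l) * ⟪w k, w l⟫_ℂ := by
    intro i
    push_cast
    rw [inner_self', sum_inner]
    refine Finset.sum_congr rfl fun k _ => ?_
    rw [inner_sum]
    refine Finset.sum_congr rfl fun l _ => ?_
    rw [inner_smul_left, inner_smul_right, Complex.star_def]
    ring
  have h2 : ((∑ i : Fin r, ‖∑ k ∈ Finset.range r, om r i ^ k • w k‖ ^ 2 : ℝ) : ℂ) =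
      ((r * ∑ k ∈ Finset.range r, ‖w k‖ ^ 2 : ℝ) : ℂ) := by
    push_cast
    have h1' : ∀ i : Fin r, ((‖∑ k ∈ Finset.range r, om r i ^ k • w k‖ : ℂ)) ^ 2 =
      ∑ k ∈ Finset.range r, ∑ l ∈ Finset.range r,
        (star (om r i ^ k) * om r i ^ l) * ⟪w k, w l⟫_ℂ := by
      intro i
      rw [← h1 i]
      push_cast
      rfl
    rw [Finset.sum_congr rfl fun i _ => h1' i, Finset.sum_comm, Finset.mul_sum]
    refine Finset.sum_congr rfl fun k hk => ?_
    rw [Finset.sum_comm]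
    have h3 : ∀ l ∈ Finset.range r, ∑ i : Fin r, star (om r i ^ k) * om r i ^ l * ⟪w k, w l⟫_ℂ =
        if k = l then (r : ℂ) * (‖w k‖ : ℂ) ^ 2 else 0 := by
      intro l hl
      rw [← Finset.sum_mul, ortho hr (Finset.mem_range.1 hk) (Finset.mem_range.1 hl)]
      split_ifs with h
      · subst h
        rw [inner_self']
      · rw [zero_mul]
    rw [Finset.sum_congr rfl h3, Finset.sum_ite_eq, if_pos hk]
  exact_mod_cast h2

/-! ### the operators -/

/-- the coefficients -/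
def ec (r i k : ℕ) : ℂ := ((rho r * aa r k : ℝ) : ℂ) * om r i ^ k

theorem sum_ec {E : Type} [AddCommGroup E] [Module ℂ E] {r : ℕ} (hr : 2 ≤ r)
    (X : ℕ → ℕ → E) (x : E) (hX : ∀ k, X k k = x) :
    ∑ i : Fin r, ∑ k ∈ Finset.range r, ∑ l ∈ Finset.range r,
      (star (ec r i k) * ec r i l) • X k l = x := by
  rw [Finset.sum_comm]
  have h1 : ∀ k ∈ Finset.range r, ∑ i : Fin r, ∑ l ∈ Finset.range r,
      (star (ec r i k) * ec r i l) • X k l = ((rho r ^ 2 * r * aa r k ^ 2 : ℝ) : ℂ) • x := by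
    intro k hk
    rw [Finset.sum_comm]
    have h2 : ∀ l ∈ Finset.range r, ∑ i : Fin r, (star (ec r i k) * ec r i l) • X k l =
        if k = l then ((rho r ^ 2 * r * aa r k ^ 2 : ℝ) : ℂ) • x else 0 := by
      intro l hl
      have h3 : ∀ i : Fin r, star (ec r i k) * ec r i l =
          (((rho r * aa r k : ℝ) : ℂ) * ((rho r * aa r l : ℝ) : ℂ)) *
            (star (om r i ^ k) * om r i ^ l) := by
        intro i
        unfold ec
        rw [star_mul', Complex.star_def, Complex.conj_ofReal]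
        ring
      rw [← Finset.sum_smul, Finset.sum_congr rfl fun i _ => h3 i, ← Finset.mul_sum,
        ortho hr (Finset.mem_range.1 hk) (Finset.mem_range.1 hl)]
      split_ifs with h
      · subst h
        rw [hX]
        congr 1
        push_cast
        ring
      · rw [mul_zero, zero_smul]
    rw [Finset.sum_congr rfl h2, Finset.sum_ite_eq, if_pos hk]
  rw [Finset.sum_congr rfl h1, ← Finset.sum_smul, ← Complex.ofReal_sum, ← Finset.mul_sum,
    sum_aa_sq, mul_assoc, rho_sq hr, Complex.ofReal_one, one_smul]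

variable {M : VonNeumannAlgebra H} {ξ : H} {U : ℝ → H →L[ℂ] H}

theorem U_add (hM : IsModular M ξ U) (s t : ℝ) (v : H) : U s (U t v) = U (s + t) v := by
  rw [hM.add]
  rfl

theorem U_norm (hM : IsModular M ξ U) (t : ℝ) (v : H) : ‖U t v‖ = ‖v‖ := by
  have h : ⟪U t v, U t v⟫_ℂ = ⟪v, v⟫_ℂ := by
    rw [← ContinuousLinearMap.adjoint_inner_right, ← ContinuousLinearMap.star_eq_adjoint,
      hM.star_eq, U_add hM, neg_add_cancel, hM.zero]
    rfl
  rw [inner_self_eq_norm_sq_to_K, inner_self_eq_norm_sq_to_K] at h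
  have h2 : ‖U t v‖ ^ 2 = ‖v‖ ^ 2 := by exact_mod_cast h
  exact (sq_eq_sq₀ (norm_nonneg _) (norm_nonneg _)).1 h2

theorem U_opnorm (hM : IsModular M ξ U) (t : ℝ) : ‖U t‖ ≤ 1 :=
  ContinuousLinearMap.opNorm_le_bound _ zero_le_one fun v => by rw [U_norm hM, one_mul]

variable (U) in
/-- the operators `P_i` -/
def PP (r i : ℕ) (τ : ℝ) : H →L[ℂ] H := ∑ k ∈ Finset.range r, ec r i k • U ((k : ℝ) * τ)

theorem PP_apply (r i : ℕ) (τ : ℝ) (v : H) :
    PP U r i τ v = ∑ k ∈ Finset.range r, ec r i k • U ((k : ℝ) * τ) v := by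
  unfold PP
  rw [_root_.sum_apply]
  rfl

theorem PP_norm (hM : IsModular M ξ U) {r : ℕ} (hr : 2 ≤ r) (τ : ℝ) (v : H) :
    ∑ i : Fin r, ‖PP U r i τ v‖ ^ 2 = ‖v‖ ^ 2 := by
  have h1 : ∀ i : Fin r, PP U r i τ v = ∑ k ∈ Finset.range r,
      om r i ^ k • (((rho r * aa r k : ℝ) : ℂ) • U ((k : ℝ) * τ) v) := by
    intro i
    rw [PP_apply]
    refine Finset.sum_congr rfl fun k _ => ?_
    rw [smul_smul, ec, mul_comm]
  rw [Finset.sum_congr rfl fun i _ => by rw [h1 i],
    parseval hr (fun k => ((rho r * aa r k : ℝ) : ℂ) • U ((k : ℝ) * τ) v)]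
  have h2 : ∀ k : ℕ, ‖((rho r * aa r k : ℝ) : ℂ) • U ((k : ℝ) * τ) v‖ ^ 2 =
      rho r ^ 2 * aa r k ^ 2 * ‖v‖ ^ 2 := by
    intro k
    rw [norm_smul, U_norm hM, mul_pow, Complex.norm_real, Real.norm_eq_abs, sq_abs, mul_pow]
  rw [Finset.sum_congr rfl fun k _ => h2 k, ← Finset.sum_mul, ← Finset.mul_sum, sum_aa_sq]
  have := rho_sq hr
  calc (r : ℝ) * (rho r ^ 2 * AA r * ‖v‖ ^ 2) = rho r ^ 2 * (r * AA r) * ‖v‖ ^ 2 := by ring
    _ = ‖v‖ ^ 2 := by rw [this, one_mul]

theorem PP_le (hM : IsModular M ξ U) {r : ℕ} (hr : 2 ≤ r) (i : Fin r) (τ : ℝ) (v : H) :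
    ‖PP U r i τ v‖ ≤ ‖v‖ := by
  have h := PP_norm hM hr τ v
  have h2 : ‖PP U r i τ v‖ ^ 2 ≤ ‖v‖ ^ 2 := by
    rw [← h]
    exact Finset.single_le_sum (f := fun i : Fin r => ‖PP U r i τ v‖ ^ 2)
      (fun _ _ => by positivity) (Finset.mem_univ i)
  exact (sq_le_sq₀ (norm_nonneg _) (norm_nonneg _)).1 h2

theorem starPP_le (hM : IsModular M ξ U) {r : ℕ} (hr : 2 ≤ r) (i : Fin r) (τ : ℝ) (v : H) :
    ‖star (PP U r i τ) v‖ ≤ ‖v‖ := by
  have h1 : ‖PP U r i τ‖ ≤ 1 :=
    ContinuousLinearMap.opNorm_le_bound _ zero_le_one fun v => by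
      rw [one_mul]
      exact PP_le hM hr i τ v
  have h2 := (star (PP U r i τ)).le_opNorm v
  rw [norm_star] at h2
  nlinarith [norm_nonneg v]

theorem PP_comm (hM : IsModular M ξ U) (r i : ℕ) (τ s : ℝ) (v : H) :
    PP U r i τ (U s v) = U s (PP U r i τ v) := by
  rw [PP_apply, PP_apply, map_sum]
  refine Finset.sum_congr rfl fun k _ => ?_
  rw [map_smul, U_add hM, U_add hM, add_comm]

theorem starPP_PP (hM : IsModular M ξ U) (r i : ℕ) (τ : ℝ) (v : H) :
    star (PP U r i τ) (PP U r i τ v) = ∑ k ∈ Finset.range r, ∑ l ∈ Finset.range r,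
      (star (ec r i k) * ec r i l) • U (((l : ℝ) - k) * τ) v := by
  have h1 : star (PP U r i τ) = ∑ k ∈ Finset.range r, star (ec r i k) • U (-((k : ℝ) * τ)) := by
    unfold PP
    rw [star_sum]
    refine Finset.sum_congr rfl fun k _ => ?_
    rw [star_smul, hM.star_eq]
  rw [h1, _root_.sum_apply]
  refine Finset.sum_congr rfl fun k _ => ?_
  rw [_root_.smul_apply, PP_apply, map_sum, Finset.smul_sum]
  refine Finset.sum_congr rfl fun l _ => ?_
  rw [map_smul, smul_smul, U_add hM]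
  congr 2
  ring

theorem PP_diff (hM : IsModular M ξ U) {r : ℕ} (hr : 2 ≤ r) (i : Fin r) (τ : ℝ) (v : H) :
    PP U r i τ (U τ v - cexp (I * th r i) • v) = -∑ k ∈ Finset.range r,
      om r i ^ k • (((rho r * (aa r (k + 1) - aa r k) : ℝ) : ℂ) • U (((k + 1 : ℕ) : ℝ) * τ) v) := by
  let f : ℕ → H := fun k =>
    (cexp (I * th r i) * ec r i k) • U ((k : ℝ) * τ) v
  have hf0 : f 0 = 0 := by
    change (cexp (I * th r i) * ec r i 0) • U (((0 : ℕ) : ℝ) * τ) v = 0
    have : ec r i 0 = 0 := by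
      unfold ec aa
      simp
    rw [this, mul_zero, zero_smul]
  have hfr : f r = 0 := by
    change (cexp (I * th r i) * ec r i r) • U ((r : ℝ) * τ) v = 0
    have : ec r i r = 0 := by
      unfold ec aa
      simp
    rw [this, mul_zero, zero_smul]
  have hs : ∑ k ∈ Finset.range r, f (k + 1) = ∑ k ∈ Finset.range r, f k := by
    have h1 := Finset.sum_range_succ f r
    have h2 := Finset.sum_range_succ' f r
    rw [hf0] at h2
    rw [hfr] at h1
    rw [add_zero] at h1 h2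
    rw [← h2, h1]
  have hP : PP U r i τ (cexp (I * th r i) • v) = ∑ k ∈ Finset.range r, f k := by
    rw [map_smul, PP_apply, Finset.smul_sum]
    refine Finset.sum_congr rfl fun k _ => ?_
    rw [smul_smul]
  rw [map_sub, hP, ← hs, PP_apply, ← Finset.sum_sub_distrib, ← Finset.sum_neg_distrib]
  refine Finset.sum_congr rfl fun k _ => ?_
  change ec r i k • U ((k : ℝ) * τ) (U τ v) -
    (cexp (I * th r i) * ec r i (k + 1)) • U (((k + 1 : ℕ) : ℝ) * τ) v = _
  have h3 : U ((k : ℝ) * τ) (U τ v) = U (((k + 1 : ℕ) : ℝ) * τ) v := by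
    rw [U_add hM]
    congr 2
    push_cast
    ring
  have h4 : cexp (I * th r i) * ec r i (k + 1) =
      ((rho r * aa r (k + 1) : ℝ) : ℂ) * om r i ^ k := by
    unfold ec
    rw [pow_succ, ← star_om]
    have := star_om_mul r i
    linear_combination ((rho r * aa r (k + 1) : ℝ) : ℂ) * om r i ^ k * this
  rw [h3, h4, ← sub_smul, smul_smul, ← neg_smul]
  congr 1
  unfold ec
  push_cast
  ring

theorem PP_diff_norm (hM : IsModular M ξ U) {r : ℕ} (hr : 2 ≤ r) (τ : ℝ) (v : H) :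
    ∑ i : Fin r, ‖PP U r i τ (U τ v - cexp (I * th r i) • v)‖ ^ 2 ≤
      10 * ‖v‖ ^ 2 / (r : ℝ) ^ 2 := by
  have h0 : ∀ i : Fin r, ‖PP U r i τ (U τ v - cexp (I * th r i) • v)‖ ^ 2 =
      ‖∑ k ∈ Finset.range r, om r i ^ k •
        (((rho r * (aa r (k + 1) - aa r k) : ℝ) : ℂ) • U (((k + 1 : ℕ) : ℝ) * τ) v)‖ ^ 2 := by
    intro i
    rw [PP_diff hM hr, norm_neg]
  rw [Finset.sum_congr rfl fun i _ => h0 i, parseval hr
    (fun k => ((rho r * (aa r (k + 1) - aa r k) : ℝ) : ℂ) • U (((k + 1 : ℕ) : ℝ) * τ) v)]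
  have h2 : ∀ k : ℕ, ‖((rho r * (aa r (k + 1) - aa r k) : ℝ) : ℂ) •
      U (((k + 1 : ℕ) : ℝ) * τ) v‖ ^ 2 = rho r ^ 2 * (aa r (k + 1) - aa r k) ^ 2 * ‖v‖ ^ 2 := by
    intro k
    rw [norm_smul, U_norm hM, mul_pow, Complex.norm_real, Real.norm_eq_abs, sq_abs, mul_pow]
  rw [Finset.sum_congr rfl fun k _ => h2 k, ← Finset.sum_mul, ← Finset.mul_sum, sum_diff_sq]
  have h3 := rho_sq hr
  have hA := AA_pos hr
  have hr2 : (2 : ℝ) ≤ r := by exact_mod_cast hr
  have hr0 : (0 : ℝ) < r := by linarith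
  rw [le_div_iff₀ (by positivity)]
  have h5 : (r : ℝ) * (rho r ^ 2 * ((r : ℝ) * ((r : ℝ) ^ 2 - 1) / 3)) * (r : ℝ) ^ 2 ≤ 10 := by
    have h6 : (r : ℝ) * (rho r ^ 2 * ((r : ℝ) * ((r : ℝ) ^ 2 - 1) / 3)) * (r : ℝ) ^ 2 * AA r ≤
        10 * AA r := by
      calc (r : ℝ) * (rho r ^ 2 * ((r : ℝ) * ((r : ℝ) ^ 2 - 1) / 3)) * (r : ℝ) ^ 2 * AA r
          = (rho r ^ 2 * (r * AA r)) * ((r : ℝ) * ((r : ℝ) ^ 2 - 1) / 3 * (r : ℝ) ^ 2) := by ring
        _ = (r : ℝ) * ((r : ℝ) ^ 2 - 1) / 3 * (r : ℝ) ^ 2 := by rw [h3, one_mul]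
        _ ≤ 10 * AA r := by
          unfold AA
          have h7 : 0 ≤ (r : ℝ) * ((r : ℝ) ^ 2 - 1) := by
            have : (1 : ℝ) ≤ (r : ℝ) ^ 2 := by nlinarith
            exact mul_nonneg hr0.le (by linarith)
          nlinarith
    exact le_of_mul_le_mul_right h6 hA
  calc (r : ℝ) * (rho r ^ 2 * ((r : ℝ) * ((r : ℝ) ^ 2 - 1) / 3) * ‖v‖ ^ 2) * (r : ℝ) ^ 2
      = ((r : ℝ) * (rho r ^ 2 * ((r : ℝ) * ((r : ℝ) ^ 2 - 1) / 3)) * (r : ℝ) ^ 2) * ‖v‖ ^ 2 := by
        ring
    _ ≤ 10 * ‖v‖ ^ 2 := mul_le_mul_of_nonneg_right h5 (by positivity)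

/-! ### powers -/

theorem pow_bound_nat (hM : IsModular M ξ U) (r i : ℕ) (τ θ : ℝ) (x : H) (k : ℕ) :
    ‖PP U r i τ (U ((k : ℝ) * τ) x - cexp (I * ((k : ℝ) * θ)) • x)‖ ≤
      k * ‖PP U r i τ (U τ x - cexp (I * θ) • x)‖ := by
  induction k with
  | zero =>
    simp [hM.zero]
  | succ k ih =>
    have h1 : U (((k + 1 : ℕ) : ℝ) * τ) x - cexp (I * (((k + 1 : ℕ) : ℝ) * θ)) • x =
        U ((k : ℝ) * τ) (U τ x - cexp (I * θ) • x) +
          cexp (I * θ) • (U ((k : ℝ) * τ) x - cexp (I * ((k : ℝ) * θ)) • x) := by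
      rw [map_sub, map_smul, U_add hM, smul_sub, smul_smul, ← Complex.exp_add]
      have h2 : (k : ℝ) * τ + τ = ((k + 1 : ℕ) : ℝ) * τ := by
        push_cast
        ring
      have h3 : I * (θ : ℂ) + I * (((k : ℝ) : ℂ) * (θ : ℂ)) =
          I * ((((k + 1 : ℕ) : ℝ) : ℂ) * (θ : ℂ)) := by
        push_cast
        ring
      rw [h2, h3]
      abel
    rw [h1, map_add, PP_comm hM, map_smul]
    refine (norm_add_le _ _).trans ?_
    rw [U_norm hM, norm_smul]
    have h4 : ‖cexp (I * θ)‖ = 1 := by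
      rw [Complex.norm_exp]
      simp
    rw [h4, one_mul]
    have h5 : ((k + 1 : ℕ) : ℝ) = (k : ℝ) + 1 := by
      push_cast
      ring
    rw [h5, add_mul, one_mul]
    linarith

theorem pow_bound (hM : IsModular M ξ U) (r i : ℕ) (τ θ : ℝ) (x : H) (k : ℤ) :
    ‖PP U r i τ (U ((k : ℝ) * τ) x - cexp (I * ((k : ℝ) * θ)) • x)‖ ≤
      |(k : ℝ)| * ‖PP U r i τ (U τ x - cexp (I * θ) • x)‖ := by
  obtain ⟨m, rfl | rfl⟩ := k.eq_nat_or_neg
  · have h := pow_bound_nat hM r i τ θ x m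
    simpa using h
  · have h := pow_bound_nat hM r i τ θ x m
    have h1 : U (((-(m : ℤ) : ℤ) : ℝ) * τ) x - cexp (I * (((-(m : ℤ) : ℤ) : ℝ) * θ)) • x =
        -(cexp (I * (((-(m : ℤ) : ℤ) : ℝ) * θ)) • U (((-(m : ℤ) : ℤ) : ℝ) * τ)
          (U ((m : ℝ) * τ) x - cexp (I * ((m : ℝ) * θ)) • x)) := by
      rw [map_sub, map_smul, U_add hM, smul_sub, smul_smul, ← Complex.exp_add]
      have h2 : ((-(m : ℤ) : ℤ) : ℝ) * τ + (m : ℝ) * τ = 0 := by
        push_cast
        ring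
      have h3 : I * ((((-(m : ℤ) : ℤ) : ℝ) : ℂ) * (θ : ℂ)) + I * (((m : ℝ) : ℂ) * (θ : ℂ)) = 0 := by
        push_cast
        ring
      rw [h2, h3, hM.zero, Complex.exp_zero, one_smul]
      simp only [one_apply_eq_self]
      abel
    rw [h1, map_neg, norm_neg, map_smul, norm_smul, PP_comm hM, U_norm hM]
    have h4 : ‖cexp (I * (((-(m : ℤ) : ℤ) : ℝ) * θ))‖ = 1 := by
      rw [Complex.norm_exp]
      simp
    rw [h4, one_mul]
    simpa using h

end

end

theorem split_thm : S_split := by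
  intro H _ _ _ M N ξ U J hNM hM hJ hN τ c q hq
  set Sq : ℝ := ∑' k : ℤ, (1 + |(k : ℝ)|) * ‖q k‖ with hSq
  have hSq0 : 0 ≤ Sq := tsum_nonneg fun k => by positivity
  refine ⟨10 * (1 + Sq) ^ 2, by positivity, fun r hr => ?_⟩
  have hr0 : (0 : ℝ) < r := by exact_mod_cast (by omega : 0 < r)
  choose y hy1 hy2 using fun i : Fin r => hq.real (th r i)
  have hc := hq.one
  have hy0 : ∀ i, 0 < y i := fun i => by linarith [hy1 i]
  have hsq : ∀ i, Real.sqrt ((y i ^ 2)⁻¹) = (y i)⁻¹ := by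
    intro i
    rw [← inv_pow]
    exact Real.sqrt_sq (inv_nonneg.2 (hy0 i).le)
  refine ⟨fun i => th r i, fun i => (y i ^ 2)⁻¹, fun i => PP U r i τ, fun i k => ec r i k,
    ?_, ?_, ?_, ?_, ?_, ?_⟩
  · intro i
    have h1 : 1 < y i := by linarith [hy1 i]
    refine ⟨by have := hy0 i; positivity, ?_, ?_⟩
    · exact inv_lt_one_of_one_lt₀ (by nlinarith)
    · rw [hsq, inv_mul_eq_div, div_le_one (hy0 i)]
      exact hy1 i
  · intro i
    rw [hsq, inv_inv]
    exact hy2 i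
  · intro i
    rfl
  · intro v
    exact PP_norm hM hr τ v
  · intro v
    refine (PP_diff_norm hM hr τ v).trans ?_
    gcongr
    nlinarith
  · intro n hn
    let m : Fin r → H →L[ℂ] H := fun i => ∑ k ∈ Finset.range r, ∑ l ∈ Finset.range r,
      (star (ec r i k) * ec r i l) • sgm U (((l : ℝ) - k) * τ) n
    have hsgn : ∀ t, ‖sgm U t n‖ ≤ ‖n‖ := by
      intro t
      unfold sgm
      calc ‖U t * n * star (U t)‖ ≤ ‖U t * n‖ * ‖star (U t)‖ := norm_mul_le _ _
        _ ≤ (‖U t‖ * ‖n‖) * ‖star (U t)‖ := by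
          gcongr
          exact norm_mul_le _ _
        _ ≤ (1 * ‖n‖) * 1 := by
          have h1 := U_opnorm hM t
          have h2 : ‖star (U t)‖ ≤ 1 := by rwa [norm_star]
          gcongr
        _ = ‖n‖ := by ring
    have hm1 : ∀ i, m i ξ = star (PP U r i τ) (PP U r i τ (n ξ)) := by
      intro i
      rw [starPP_PP hM]
      change (∑ k ∈ Finset.range r, ∑ l ∈ Finset.range r,
        (star (ec r i k) * ec r i l) • sgm U (((l : ℝ) - k) * τ) n) ξ = _
      rw [_root_.sum_apply]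
      refine Finset.sum_congr rfl fun k _ => ?_
      rw [_root_.sum_apply]
      refine Finset.sum_congr rfl fun l _ => ?_
      rw [_root_.smul_apply]
      congr 1
      unfold sgm
      rw [hM.star_eq]
      change U _ (n (U _ ξ)) = _
      rw [hM.fix]
    have hm2 : ∀ i, J (star (m i) ξ) = star (PP U r i τ) (PP U r i τ (J (star n ξ))) := by
      intro i
      rw [starPP_PP hM]
      have hst : star (m i) = ∑ k ∈ Finset.range r, ∑ l ∈ Finset.range r,
          (star (star (ec r i k) * ec r i l)) • star (sgm U (((l : ℝ) - k) * τ) n) := by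
        change star (∑ k ∈ Finset.range r, ∑ l ∈ Finset.range r,
          (star (ec r i k) * ec r i l) • sgm U (((l : ℝ) - k) * τ) n) = _
        rw [star_sum]
        refine Finset.sum_congr rfl fun k _ => ?_
        rw [star_sum]
        refine Finset.sum_congr rfl fun l _ => ?_
        rw [star_smul]
      rw [hst, _root_.sum_apply]
      let Jh : H →+ H := AddMonoidHom.mk' J hJ.add
      change Jh _ = _
      rw [map_sum]
      refine Finset.sum_congr rfl fun k _ => ?_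
      rw [_root_.sum_apply, map_sum]
      refine Finset.sum_congr rfl fun l _ => ?_
      rw [_root_.smul_apply]
      change J _ = _
      rw [hJ.smul, ← Complex.star_def, star_star]
      congr 1
      unfold sgm
      rw [star_mul, star_mul, star_star]
      change J (U _ (star n (star (U _) ξ))) = _
      rw [hM.star_eq, hM.fix, hJ.modular]
    refine ⟨m, ?_, ?_, hm1, hm2, ?_⟩
    · intro i
      constructor
      · change (∑ k ∈ Finset.range r, ∑ l ∈ Finset.range r,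
          (star (ec r i k) * ec r i l) • sgm U (((l : ℝ) - k) * τ) n) ∈ N
        refine sum_mem fun k _ => sum_mem fun l _ => ?_
        exact N.toStarSubalgebra.smul_mem (hN _ n hn) _
      · change ‖∑ k ∈ Finset.range r, ∑ l ∈ Finset.range r,
          (star (ec r i k) * ec r i l) • sgm U (((l : ℝ) - k) * τ) n‖ ≤ ‖n‖
        have hb : ∀ k ∈ Finset.range r, ‖ec r i k‖ = rho r * aa r k := by
          intro k hk
          have hk' : (k : ℝ) ≤ r := by exact_mod_cast (Finset.mem_range.1 hk).le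
          unfold ec
          rw [norm_mul, norm_pow, norm_om, one_pow, mul_one, Complex.norm_real, Real.norm_eq_abs,
            abs_of_nonneg]
          refine mul_nonneg (rho_nonneg r) ?_
          unfold aa
          exact mul_nonneg (Nat.cast_nonneg _) (by linarith)
        calc ‖∑ k ∈ Finset.range r, ∑ l ∈ Finset.range r,
              (star (ec r i k) * ec r i l) • sgm U (((l : ℝ) - k) * τ) n‖
            ≤ ∑ k ∈ Finset.range r, ∑ l ∈ Finset.range r,
              (rho r * aa r k) * (rho r * aa r l) * ‖n‖ := by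
              refine (norm_sum_le _ _).trans (Finset.sum_le_sum fun k hk => ?_)
              refine (norm_sum_le _ _).trans (Finset.sum_le_sum fun l hl => ?_)
              rw [norm_smul, norm_mul, norm_star, hb k hk, hb l hl]
              refine mul_le_mul_of_nonneg_left (hsgn _) ?_
              rw [← hb k hk, ← hb l hl]
              positivity
          _ = (rho r ^ 2 * (∑ k ∈ Finset.range r, aa r k) ^ 2) * ‖n‖ := by
              rw [sq (∑ k ∈ Finset.range r, aa r k), Finset.sum_mul_sum, Finset.mul_sum,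
                Finset.sum_mul]
              refine Finset.sum_congr rfl fun k _ => ?_
              rw [Finset.mul_sum, Finset.sum_mul]
              refine Finset.sum_congr rfl fun l _ => ?_
              ring
          _ ≤ 1 * ‖n‖ := by
              refine mul_le_mul_of_nonneg_right ?_ (norm_nonneg _)
              have h1 := sq_sum_le_card_mul_sum_sq (s := Finset.range r) (f := fun k => aa r k)
              rw [Finset.card_range, sum_aa_sq] at h1
              rw [← rho_sq hr]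
              exact mul_le_mul_of_nonneg_left h1 (sq_nonneg _)
          _ = ‖n‖ := one_mul _
    · refine sum_ec hr (fun k l => sgm U (((l : ℝ) - k) * τ) n) n fun k => ?_
      simp only [sub_self, zero_mul]
      unfold sgm
      rw [hM.zero, star_one, one_mul, mul_one]
    · intro hsum
      have key : ∀ i : Fin r, ‖m i ξ - ((Real.sqrt ((y i ^ 2)⁻¹) : ℝ) : ℂ) • J (star (m i) ξ)‖ ≤
          Sq * ‖PP U r i τ (U τ (n ξ) - cexp (I * th r i) • n ξ)‖ := by
        intro i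
        have h1 : HasSum (fun k : ℤ => (q k * cexp (I * ((k : ℝ) * th r i))) • n ξ)
            ((y i : ℂ) • n ξ) := (hy2 i).smul_const _
        have h2 := h1.sub hsum
        have h3 : HasSum (fun k : ℤ => PP U r i τ
            ((q k * cexp (I * ((k : ℝ) * th r i))) • n ξ - q k • U ((k : ℝ) * τ) (n ξ)))
            (PP U r i τ ((y i : ℂ) • n ξ - J (star n ξ))) :=
          h2.mapL (PP U r i τ)
        have h4 : ∀ k : ℤ, ‖PP U r i τ
            ((q k * cexp (I * ((k : ℝ) * th r i))) • n ξ - q k • U ((k : ℝ) * τ) (n ξ))‖ ≤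
            (1 + |(k : ℝ)|) * ‖q k‖ * ‖PP U r i τ (U τ (n ξ) - cexp (I * th r i) • n ξ)‖ := by
          intro k
          have h5 : (q k * cexp (I * ((k : ℝ) * th r i))) • n ξ - q k • U ((k : ℝ) * τ) (n ξ) =
              (-q k) • (U ((k : ℝ) * τ) (n ξ) - cexp (I * ((k : ℝ) * th r i)) • n ξ) := by
            rw [smul_sub, smul_smul, neg_smul, neg_mul, neg_smul]
            abel
          rw [h5, map_smul, norm_smul, norm_neg]
          have h6 := pow_bound hM r i τ (th r i) (n ξ) k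
          calc ‖q k‖ * ‖PP U r i τ (U ((k : ℝ) * τ) (n ξ) -
                cexp (I * ((k : ℝ) * th r i)) • n ξ)‖
              ≤ ‖q k‖ * (|(k : ℝ)| * ‖PP U r i τ (U τ (n ξ) - cexp (I * th r i) • n ξ)‖) :=
                mul_le_mul_of_nonneg_left h6 (norm_nonneg _)
            _ ≤ _ := by
              nlinarith [mul_nonneg (norm_nonneg (q k))
                (norm_nonneg (PP U r i τ (U τ (n ξ) - cexp (I * th r i) • n ξ)))]
        have h7 : ‖PP U r i τ ((y i : ℂ) • n ξ - J (star n ξ))‖ ≤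
            Sq * ‖PP U r i τ (U τ (n ξ) - cexp (I * th r i) • n ξ)‖ := by
          rw [← h3.tsum_eq]
          exact tsum_of_norm_bounded (hq.summable.hasSum.mul_right _) h4
        have hyi := hy0 i
        have h8 : m i ξ - ((Real.sqrt ((y i ^ 2)⁻¹) : ℝ) : ℂ) • J (star (m i) ξ) =
            (((y i)⁻¹ : ℝ) : ℂ) •
              star (PP U r i τ) (PP U r i τ ((y i : ℂ) • n ξ - J (star n ξ))) := by
          rw [hm1, hm2, hsq, map_sub, map_sub, smul_sub, map_smul, map_smul, smul_smul,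
            ← Complex.ofReal_mul, inv_mul_cancel₀ hyi.ne', Complex.ofReal_one, one_smul]
        rw [h8, norm_smul, Complex.norm_real, Real.norm_eq_abs, abs_of_pos (inv_pos.2 hyi)]
        have h9 : (y i)⁻¹ ≤ 1 := inv_le_one_of_one_le₀ (by linarith [hy1 i])
        have h10 := starPP_le hM hr i τ (PP U r i τ ((y i : ℂ) • n ξ - J (star n ξ)))
        calc (y i)⁻¹ * ‖star (PP U r i τ) (PP U r i τ ((y i : ℂ) • n ξ - J (star n ξ)))‖
            ≤ 1 * ‖PP U r i τ ((y i : ℂ) • n ξ - J (star n ξ))‖ :=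
              mul_le_mul h9 h10 (norm_nonneg _) zero_le_one
          _ ≤ _ := by
            rw [one_mul]
            exact h7
      calc ∑ i, ‖m i ξ - ((Real.sqrt ((y i ^ 2)⁻¹) : ℝ) : ℂ) • J (star (m i) ξ)‖ ^ 2
          ≤ ∑ i : Fin r, (Sq * ‖PP U r i τ (U τ (n ξ) - cexp (I * th r i) • n ξ)‖) ^ 2 :=
            Finset.sum_le_sum fun i _ => by
              have := key i
              gcongr
        _ = Sq ^ 2 * ∑ i : Fin r, ‖PP U r i τ (U τ (n ξ) - cexp (I * th r i) • n ξ)‖ ^ 2 := by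
            rw [Finset.mul_sum]
            refine Finset.sum_congr rfl fun i _ => ?_
            rw [mul_pow]
        _ ≤ Sq ^ 2 * (10 * ‖n ξ‖ ^ 2 / (r : ℝ) ^ 2) :=
            mul_le_mul_of_nonneg_left (PP_diff_norm hM hr τ (n ξ)) (sq_nonneg _)
        _ ≤ 10 * (1 + Sq) ^ 2 * ‖n ξ‖ ^ 2 / (r : ℝ) ^ 2 := by
            rw [← mul_div_assoc]
            refine div_le_div_of_nonneg_right ?_ (by positivity)
            have h11 : 0 ≤ ‖n ξ‖ ^ 2 := by positivity
            nlinarith [mul_nonneg hSq0 h11]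

end Pool.Agent.H255.BC.T_split
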