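import Pool.Agent.H255.BC.P_conj
import Pool.Agent.H255.BC.P_split
import Pool.Agent.H255.BC.P_main
import Pool.Agent.H255.BC.P_inv
import Pool.Agent.H255.BC.P_comm
import Pool.Agent.H255.BC.P_ps
import Pool.Agent.H255.BC.P_scal
import Pool.Agent.H255.BC.P_fix
import Pool.Agent.H255.BC.P_phi
import Pool.Agent.H255.BC.P_psi
import Pool.Agent.H255.BC.P_psisum
import Pool.Agent.H255.BC.P_psione
import Pool.Agent.H255.BC.P_psiinv
import Pool.Agent.H255.BC.P_q
import Pool.Agent.H255.BC.P_cay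
import Pool.Agent.H255.BC.P_Q
import Pool.Agent.H255.BC.P_bic
import Pool.Agent.H255.BC.P_KK
import Pool.Agent.H255.BC.P_mod
import Pool.Agent.H255.BC.P_pair
import Pool.Agent.H255.BC.P_low
import Pool.Agent.H255.BC.P_D1
import Pool.Agent.H255.BC.P_AE
import Pool.Graph.R_pool_sql_team_seeded_f72693b1.W557.CB.A1
import Pool.Graph.R_pool_sql_team_seeded_f72693b1.W303.CB.A2
import Pool.Graph.R_pool_sql_team_seeded_f72693b1.W391.CB.A5
import Pool.Graph.R_pool_sql_team_seeded_f72693b1.W584.CB.A7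
import Pool.Graph.R_pool_sql_team_seeded_f72693b1.W883.CB.A8a

set_option autoImplicit false

namespace Pool.Agent.H255.BC

open Pool.Agent.W662.CB

theorem pA1 : S_A1 := Pool.Agent.W557.CB.a1
theorem pA2a : S_A2a := Pool.Agent.W303.CB.a2a
theorem pA2 : S_A2 := Pool.Agent.W303.CB.a2 pA1 pA2a
theorem pA5 : S_A5 := Pool.Agent.W391.CB.a5
theorem pA7 : S_A7 := Pool.Agent.W584.CB.a7 pA5
theorem pA8a : S_A8a := Pool.Agent.W883.CB.a8a

theorem hpsi : S_psi := T_psi.psi_thm
theorem hpsi_sum : S_psi_sum := T_psisum.psi_sum_thm hpsi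
theorem hpsi_one : S_psi_one := T_psione.psi_one_thm
theorem hpsi_inv : S_psi_inv := T_psiinv.psi_inv_thm hpsi hpsi_one
theorem hphi : S_phi := T_phi.phi_thm hpsi
theorem hconj : S_conj := T_conj.conj_thm pA2 pA8a
theorem hcomm : S_comm := T_comm.comm_thm hpsi hpsi_one hphi
theorem hps : S_ps := T_ps.ps_thm pA8a hcomm
theorem hscal : S_scal := T_scal.scal_thm hps
theorem hq : S_q := T_q.q_thm
theorem hsplit : S_split := T_split.split_thm
theorem hpair : S_pair := T_pair.pair_thm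
theorem hfix : S_fix := T_fix.fix_thm
theorem hcay : S_cay := T_cay.cay_thm
theorem hmod : S_mod := T_mod.mod_thm hcay
theorem hKK : S_KK := Pool.Agent.H685.BC.KK.KK_thm
theorem hbic : S_bic := Pool.Agent.H685.BC.Bic.bic_thm pA5 pA7
theorem hQ : S_Q := T_Q.Q_thm hmod
theorem hlow : S_low := T_low.low_thm hsplit
theorem hAE : S_AE := T_AE.AE_thm
theorem hmain : S_main := T_main.main_thm hAE hcay hmod hKK hQ hsplit hpair
theorem hinv : S_inv :=
  T_inv.inv_thm hpsi hpsi_sum hpsi_one hpsi_inv hphi hq hKK hbic hmain hlow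
theorem hD1 : S_D1 := T_D1.D1_thm hinv hconj hscal hfix

end Pool.Agent.H255.BC
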