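import Pool.Agent.H255.BC.Defs2

set_option autoImplicit false

open MeasureTheory Filter Topology Complex
open scoped InnerProductSpace ENNReal FourierTransform

namespace Pool.Agent.H255.BC.R_Bchar

open Pool.Agent.W662.CB Pool.Agent.H255.BC

section aux

variable {H : Type} [NormedAddCommGroup H] [InnerProductSpace ℂ H] [CompleteSpace H]

theorem vst_star (ξ : H) (x : H →L[ℂ] H) : vst ξ (star x) = starRingEnd ℂ (vst ξ x) := by
  unfold vst
  rw [ContinuousLinearMap.star_eq_adjoint, ContinuousLinearMap.adjoint_inner_right,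
    inner_conj_symm]

theorem commNorm_star (M : VonNeumannAlgebra H) (ξ : H) (a : H →L[ℂ] H) :
    commNorm M ξ (star a) = commNorm M ξ a := by
  have key : ∀ c : H →L[ℂ] H, {r : ℝ | ∃ x : H →L[ℂ] H, x ∈ M ∧ ‖x‖ ≤ 1 ∧
      r = ‖vst ξ (x * c) - vst ξ (c * x)‖} ⊆ {r : ℝ | ∃ x : H →L[ℂ] H, x ∈ M ∧ ‖x‖ ≤ 1 ∧
      r = ‖vst ξ (x * star c) - vst ξ (star c * x)‖} := by
    rintro c r ⟨x, hx, hx1, rfl⟩
    refine ⟨star x, star_mem hx, by rwa [norm_star], ?_⟩
    rw [← star_mul, ← star_mul, vst_star, vst_star, ← map_sub, Complex.norm_conj, norm_sub_rev]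
  unfold commNorm
  congr 1
  apply Set.Subset.antisymm
  · have := key (star a)
    rwa [star_star] at this
  · exact key a

theorem norm_J {M : VonNeumannAlgebra H} {ξ : H} {U : ℝ → H →L[ℂ] H} {J : H → H}
    (hJ : IsConj M ξ U J) (v : H) : ‖J v‖ = ‖v‖ := by
  have h := hJ.inner v v
  rw [inner_self_eq_norm_sq_to_K, inner_self_eq_norm_sq_to_K] at h
  have h2 : ‖J v‖ ^ 2 = ‖v‖ ^ 2 := by exact_mod_cast h
  exact (sq_eq_sq₀ (norm_nonneg _) (norm_nonneg _)).1 h2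

theorem J_sub {M : VonNeumannAlgebra H} {ξ : H} {U : ℝ → H →L[ℂ] H} {J : H → H}
    (hJ : IsConj M ξ U J) (v w : H) : J (v - w) = J v - J w := by
  have h1 := hJ.add v ((-1 : ℂ) • w)
  rw [hJ.smul] at h1
  simp only [map_neg, map_one, neg_smul, one_smul] at h1
  rw [← sub_eq_add_neg, ← sub_eq_add_neg] at h1
  exact h1

/-- a closed invariant subspace is invariant under `psi` -/
theorem psi_mem {U : ℝ → H →L[ℂ] H} {K : Submodule ℂ H} (hK : IsClosed (K : Set H))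
    (hUK : ∀ (t : ℝ) (v : H), v ∈ K → U t v ∈ K) (h : ℝ → ℂ) {v : H} (hv : v ∈ K) :
    psi U h v ∈ K := by
  unfold psi
  by_cases hi : Integrable (fun s : ℝ => (𝓕 h s) • U (2 * Real.pi * s) v)
  · haveI : CompleteSpace K := hK.completeSpace_coe
    rw [← Submodule.orthogonal_orthogonal K, Submodule.mem_orthogonal]
    intro w hw
    rw [← integral_inner hi]
    have h0 : ∀ s : ℝ, ⟪w, (𝓕 h s) • U (2 * Real.pi * s) v⟫_ℂ = 0 := by
      intro s
      rw [inner_smul_right, (Submodule.mem_orthogonal' K w).1 hw _ (hUK _ v hv), mul_zero]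
    simp only [h0, integral_zero]
  · rw [integral_undef hi]
    exact K.zero_mem

/-- the adjoint -/
theorem star_memK (h4 : S_KK) (h6 : S_psi_one) (h7 : S_psi_J) {N M : VonNeumannAlgebra H} {ξ : H}
    {U : ℝ → H →L[ℂ] H} {J : H → H} {E : (H →L[ℂ] H) → (H →L[ℂ] H)} (hi : Inc N M ξ U J E)
    {b : H →L[ℂ] H} (hbM : b ∈ M) (hb : b ξ ∈ KK N ξ J) : star b ξ ∈ KK N ξ J := by
  obtain ⟨K, hKe, hKc, -, hKU, hKJ⟩ := h4 H M N ξ U J hi.le hi.modular hi.conj hi.mod
  have hb' : b ξ ∈ K := by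
    rw [← SetLike.mem_coe, hKe]; exact hb
  obtain ⟨h, hT, hlim⟩ := h6 H M ξ U hi.modular
  have h1 : ∀ n, psi U (h n) (J (star b ξ)) ∈ K := by
    intro n
    rw [← (h7 H M ξ U J hi.modular hi.conj (h n) (hT n)).2 b hbM]
    exact psi_mem hKc hKU _ hb'
  have h2 : J (star b ξ) ∈ (K : Set H) :=
    hKc.mem_of_tendsto (hlim (J (star b ξ))) (Eventually.of_forall h1)
  have h3 := hKJ _ h2
  rw [hi.conj.inv] at h3
  rw [← hKe]
  exact h3

theorem main (h2 : S_psa2) (h3 : S_mod) {N M : VonNeumannAlgebra H} {ξ : H}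
    {U : ℝ → H →L[ℂ] H} {J : H → H} {E : (H →L[ℂ] H) → (H →L[ℂ] H)} (hi : Inc N M ξ U J E)
    {b : H →L[ℂ] H} (hbM : b ∈ M) (hb : b ξ ∈ KK N ξ J) (a : ℕ → H →L[ℂ] H)
    (haN : ∀ n, a n ∈ N) (haC : ∃ C : ℝ, ∀ n, ‖a n‖ ≤ C)
    (hcomm : Tendsto (fun n => commNorm M ξ (a n)) atTop (𝓝 0)) (v : H) :
    Tendsto (fun n => (a n * b - b * a n) v) atTop (𝓝 0) := by
  obtain ⟨C₀, hC₀⟩ := haC
  obtain ⟨C, hC0, hC⟩ : ∃ C : ℝ, 0 < C ∧ ∀ n, ‖a n‖ ≤ C :=
    ⟨max C₀ 1, lt_of_lt_of_le one_pos (le_max_right _ _), fun n => (hC₀ n).trans (le_max_left _ _)⟩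
  have hJ := hi.conj
  -- `‖cm J a_n ξ‖² → 0`
  have hx : ∀ n, ‖cm J (a n) ξ‖ ^ 2 ≤ 8 * C * |commNorm M ξ (a n)| := by
    intro n
    have h := h2 H M ξ U J hi.unit hi.modular hi.cyc hJ (a n) (hi.le _ (haN n))
    refine h.trans ?_
    have e1 : 8 * ‖a n‖ * commNorm M ξ (a n) ≤ 8 * ‖a n‖ * |commNorm M ξ (a n)| :=
      mul_le_mul_of_nonneg_left (le_abs_self _) (by positivity)
    refine e1.trans ?_
    exact mul_le_mul_of_nonneg_right (by linarith [hC n]) (abs_nonneg _)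
  have hx0 : Tendsto (fun n => ‖cm J (a n) ξ‖ ^ 2) atTop (𝓝 0) := by
    have e : Tendsto (fun n => 8 * C * |commNorm M ξ (a n)|) atTop (𝓝 0) := by
      have := (hcomm.abs).const_mul (8 * C)
      simpa using this
    exact squeeze_zero (fun n => by positivity) hx e
  -- `‖cm J a_n (b ξ)‖² → 0`
  have hb0 : Tendsto (fun n => ‖cm J (a n) (b ξ)‖ ^ 2) atTop (𝓝 0) := by
    rw [Metric.tendsto_atTop]
    intro ε hε
    obtain ⟨B, hB, hB2⟩ := h3 H M N ξ U J hi.le hJ (b ξ) hb C (ε / 2) hC0 (by positivity)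
    have e : Tendsto (fun n => B * ‖cm J (a n) ξ‖ ^ 2) atTop (𝓝 0) := by
      have := hx0.const_mul B
      simpa using this
    obtain ⟨n₀, hn₀⟩ := (Metric.tendsto_atTop.1 e) (ε / 2) (by positivity)
    refine ⟨n₀, fun n hn => ?_⟩
    have h5 := hn₀ n hn
    rw [Real.dist_eq, sub_zero] at h5 ⊢
    rw [abs_of_nonneg (by positivity)] at h5 ⊢
    have h6 := hB2 (a n) (haN n) (hC n)
    linarith
  have sq_to : ∀ f : ℕ → H, Tendsto (fun n => ‖f n‖ ^ 2) atTop (𝓝 0) →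
      Tendsto f atTop (𝓝 0) := by
    intro f hf
    rw [tendsto_zero_iff_norm_tendsto_zero]
    have := hf.sqrt
    simpa [Real.sqrt_sq (norm_nonneg _)] using this
  have hT0 : Tendsto (fun n => (a n * b - b * a n) ξ) atTop (𝓝 0) := by
    have e : ∀ n, (a n * b - b * a n) ξ = cm J (a n) (b ξ) - b (cm J (a n) ξ) := by
      intro n
      have e1 : J (star (a n) (J (b ξ))) = b (J (star (a n) (J ξ))) :=
        (hJ.comm b (star (a n)) hbM (star_mem (hi.le _ (haN n))) ξ).symm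
      unfold cm
      rw [e1, map_sub]
      show a n (b ξ) - b (a n ξ) = _
      abel
    have t1 := (sq_to _ hb0).sub ((b.continuous.tendsto 0).comp (sq_to _ hx0))
    simp only [map_zero, sub_zero] at t1
    refine t1.congr fun n => ?_
    rw [e n]
    rfl
  -- general vector
  rw [tendsto_zero_iff_norm_tendsto_zero, Metric.tendsto_atTop]
  intro ε hε
  have hTn : ∀ n, ‖a n * b - b * a n‖ ≤ 2 * C * ‖b‖ := by
    intro n
    refine (norm_sub_le _ _).trans ?_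
    have e1 : ‖a n * b‖ ≤ C * ‖b‖ :=
      (norm_mul_le _ _).trans (mul_le_mul_of_nonneg_right (hC n) (norm_nonneg _))
    have e2 : ‖b * a n‖ ≤ ‖b‖ * C :=
      (norm_mul_le _ _).trans (mul_le_mul_of_nonneg_left (hC n) (norm_nonneg _))
    linarith
  set D : ℝ := 2 * C * ‖b‖ + 1 with hD
  have hDpos : 0 < D := by positivity
  obtain ⟨y, ⟨x, hxM, rfl⟩, hy⟩ := Metric.mem_closure_iff.1 (hi.cyc (J v)) (ε / (2 * D))
    (by positivity)
  rw [dist_eq_norm] at hy
  have hv : ‖v - J (x ξ)‖ < ε / (2 * D) := by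
    rw [← norm_J hJ, J_sub hJ, hJ.inv]
    exact hy
  have hTM : ∀ n, a n * b - b * a n ∈ M := fun n =>
    sub_mem (mul_mem (hi.le _ (haN n)) hbM) (mul_mem hbM (hi.le _ (haN n)))
  have hTx : ∀ n, (a n * b - b * a n) (J (x ξ)) = J (x (J ((a n * b - b * a n) ξ))) := by
    intro n
    have := hJ.comm _ x (hTM n) hxM ξ
    rwa [hJ.fix] at this
  have hlim : Tendsto (fun n => ‖x‖ * ‖(a n * b - b * a n) ξ‖) atTop (𝓝 0) := by
    have := (hT0.norm).const_mul ‖x‖
    simpa using this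
  obtain ⟨n₀, hn₀⟩ := (Metric.tendsto_atTop.1 hlim) (ε / 2) (by positivity)
  refine ⟨n₀, fun n hn => ?_⟩
  have h5 := hn₀ n hn
  rw [Real.dist_eq, sub_zero, abs_of_nonneg (by positivity)] at h5 ⊢
  have h6 : (a n * b - b * a n) v = (a n * b - b * a n) (J (x ξ)) +
      (a n * b - b * a n) (v - J (x ξ)) := by
    rw [map_sub (a n * b - b * a n)]
    abel
  have h7 : ‖(a n * b - b * a n) (J (x ξ))‖ < ε / 2 := by
    rw [hTx n, norm_J hJ]
    refine lt_of_le_of_lt (x.le_opNorm _) ?_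
    rw [norm_J hJ]
    exact h5
  have h8 : ‖(a n * b - b * a n) (v - J (x ξ))‖ ≤ ε / 2 := by
    refine (ContinuousLinearMap.le_opNorm _ _).trans ?_
    have e1 : ‖a n * b - b * a n‖ ≤ D := by
      have := hTn n
      linarith
    calc ‖a n * b - b * a n‖ * ‖v - J (x ξ)‖ ≤ D * (ε / (2 * D)) :=
          mul_le_mul e1 hv.le (norm_nonneg _) hDpos.le
      _ = ε / 2 := by
          field_simp
  rw [h6]
  exact lt_of_le_of_lt (norm_add_le _ _) (by linarith)

end aux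

theorem r (h1 : S_bic) (h2 : S_psa2) (h3 : S_mod) (h4 : S_KK) (h5 : S_psi) (h6 : S_psi_one) (h7 : S_psi_J) : S_Bchar := by
  intro H _ _ _ N M ξ U J E hi b
  constructor
  · intro hb
    exact ⟨hb.1, (h1 H M N ξ U J hi.le hi.unit hi.conj b hb).2.1⟩
  · rintro ⟨hbM, hb⟩
    refine ⟨hbM, ?_⟩
    intro a haN haC hcomm v
    refine ⟨main h2 h3 hi hbM hb a haN haC hcomm v, ?_⟩
    have hs := star_memK h4 h6 h7 hi hbM hb
    obtain ⟨C, hC⟩ := haC
    have h := main h2 h3 hi (star_mem hbM) hs (fun n => star (a n)) (fun n => star_mem (haN n))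
      ⟨C, fun n => by rw [norm_star]; exact hC n⟩ (by simpa only [commNorm_star] using hcomm) v
    have := h.neg
    rw [neg_zero] at this
    refine this.congr fun n => ?_
    have e : star (a n * b - b * a n) = - (star (a n) * star b - star b * star (a n)) := by
      rw [star_sub, star_mul, star_mul]
      abel
    rw [e]
    rfl

end Pool.Agent.H255.BC.R_Bchar
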