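import Pool.Agent.H255.BC.Defs2

set_option autoImplicit false

open MeasureTheory Filter Topology Complex
open scoped InnerProductSpace ENNReal FourierTransform

namespace Pool.Agent.H255.BC.R_Bvn

open Pool.Agent.W662.CB Pool.Agent.H255.BC

variable {H : Type} [NormedAddCommGroup H] [InnerProductSpace ℂ H] [CompleteSpace H]

theorem norm_J {M : VonNeumannAlgebra H} {ξ : H} {U : ℝ → H →L[ℂ] H} {J : H → H}
    (hJ : IsConj M ξ U J) (v : H) : ‖J v‖ = ‖v‖ := by
  have h := hJ.inner v v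
  rw [inner_self_eq_norm_sq_to_K, inner_self_eq_norm_sq_to_K] at h
  have h2 : ‖J v‖ ^ 2 = ‖v‖ ^ 2 := by exact_mod_cast h
  exact (sq_eq_sq₀ (norm_nonneg _) (norm_nonneg _)).1 h2

theorem J_sub {M : VonNeumannAlgebra H} {ξ : H} {U : ℝ → H →L[ℂ] H} {J : H → H}
    (hJ : IsConj M ξ U J) (v w : H) : J (v - w) = J v - J w := by
  have h1 := hJ.add v ((-1 : ℂ) • w)
  rw [hJ.smul] at h1
  simp only [map_neg, map_one, neg_smul, one_smul] at h1
  rw [← sub_eq_add_neg, ← sub_eq_add_neg] at h1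
  exact h1

theorem norm_iso {u : H →L[ℂ] H} (hu : star u * u = 1) (v : H) : ‖u v‖ = ‖v‖ := by
  have h : ⟪u v, u v⟫_ℂ = ⟪v, v⟫_ℂ := by
    rw [← ContinuousLinearMap.adjoint_inner_right, ← ContinuousLinearMap.star_eq_adjoint,
      ← mul_apply_eq_comp, hu, one_apply_eq_self]
  rw [inner_self_eq_norm_sq_to_K, inner_self_eq_norm_sq_to_K] at h
  have h2 : ‖u v‖ ^ 2 = ‖v‖ ^ 2 := by exact_mod_cast h
  exact (sq_eq_sq₀ (norm_nonneg _) (norm_nonneg _)).1 h2

theorem alf_norm {M : VonNeumannAlgebra H} {ξ : H} {U : ℝ → H →L[ℂ] H} {J : H → H}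
    (hJ : IsConj M ξ U J) {u : H →L[ℂ] H} (hu : star u * u = 1) (v : H) :
    ‖alf J u v‖ = ‖v‖ := by
  unfold alf
  rw [norm_iso hu, norm_J hJ, norm_iso hu, norm_J hJ]

theorem vst_star (ξ : H) (x : H →L[ℂ] H) : vst ξ (star x) = starRingEnd ℂ (vst ξ x) := by
  unfold vst
  rw [ContinuousLinearMap.star_eq_adjoint, ContinuousLinearMap.adjoint_inner_right,
    inner_conj_symm]

theorem commNorm_star (M : VonNeumannAlgebra H) (ξ : H) (a : H →L[ℂ] H) :
    commNorm M ξ (star a) = commNorm M ξ a := by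
  have key : ∀ c : H →L[ℂ] H, {r : ℝ | ∃ x : H →L[ℂ] H, x ∈ M ∧ ‖x‖ ≤ 1 ∧
      r = ‖vst ξ (x * c) - vst ξ (c * x)‖} ⊆ {r : ℝ | ∃ x : H →L[ℂ] H, x ∈ M ∧ ‖x‖ ≤ 1 ∧
      r = ‖vst ξ (x * star c) - vst ξ (star c * x)‖} := by
    rintro c r ⟨x, hx, hx1, rfl⟩
    refine ⟨star x, star_mem hx, by rwa [norm_star], ?_⟩
    rw [← star_mul, ← star_mul, vst_star, vst_star, ← map_sub, Complex.norm_conj, norm_sub_rev]
  unfold commNorm
  congr 1
  apply Set.Subset.antisymm
  · have := key (star a)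
    rwa [star_star] at this
  · exact key a

theorem star_rel {N M : VonNeumannAlgebra H} {ξ : H} {b : H →L[ℂ] H}
    (hb : b ∈ relBicentralizer N M ξ) : star b ∈ relBicentralizer N M ξ := by
  refine ⟨star_mem hb.1, ?_⟩
  rintro a haN ⟨C, hC⟩ hcomm v
  have h := hb.2 (fun n => star (a n)) (fun n => star_mem (haN n))
    ⟨C, fun n => by rw [norm_star]; exact hC n⟩
    (by simpa only [commNorm_star] using hcomm) v
  have e1 : ∀ n, a n * star b - star b * a n = - star (star (a n) * b - b * star (a n)) := by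
    intro n
    rw [star_sub, star_mul, star_mul, star_star]
    abel
  have e2 : ∀ n, star (a n * star b - star b * a n) = - (star (a n) * b - b * star (a n)) := by
    intro n
    rw [e1, star_neg, star_star]
  constructor
  · have := h.2.neg
    rw [neg_zero] at this
    refine this.congr fun n => ?_
    rw [e1]; rfl
  · have := h.1.neg
    rw [neg_zero] at this
    refine this.congr fun n => ?_
    rw [e2]; rfl

/-- `R(u) v = J u^* J v` -/
theorem R_alf {M : VonNeumannAlgebra H} {ξ : H} {U : ℝ → H →L[ℂ] H} {J : H → H}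
    (hJ : IsConj M ξ U J) {u : H →L[ℂ] H} (hu : u ∈ M) (hu1 : star u * u = 1) (v : H) :
    J (star u (J (alf J u v))) = u v := by
  have h1 : alf J u v = J (u (J (u v))) := by
    unfold alf
    exact hJ.comm u u hu hu v
  rw [h1, hJ.inv]
  have h2 : star u (u (J (u v))) = J (u v) := by
    have : (star u * u) (J (u v)) = J (u v) := by rw [hu1]; rfl
    exact this
  rw [h2, hJ.inv]

theorem R_norm {M : VonNeumannAlgebra H} {ξ : H} {U : ℝ → H →L[ℂ] H} {J : H → H}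
    (hJ : IsConj M ξ U J) {u : H →L[ℂ] H} (hu2 : u * star u = 1) (v : H) :
    ‖J (star u (J v))‖ = ‖v‖ := by
  rw [norm_J hJ, norm_iso (by rwa [star_star]), norm_J hJ]

theorem R_sub {M : VonNeumannAlgebra H} {ξ : H} {U : ℝ → H →L[ℂ] H} {J : H → H}
    (hJ : IsConj M ξ U J) (u : H →L[ℂ] H) (v w : H) :
    J (star u (J (v - w))) = J (star u (J v)) - J (star u (J w)) := by
  rw [J_sub hJ, map_sub, J_sub hJ]

theorem norm_alf_sub {M : VonNeumannAlgebra H} {ξ : H} {U : ℝ → H →L[ℂ] H} {J : H → H}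
    (hJ : IsConj M ξ U J) {u : H →L[ℂ] H} (hu : u ∈ M) (hu1 : star u * u = 1)
    (hu2 : u * star u = 1) (v : H) :
    ‖alf J u v - v‖ = ‖u v - J (star u (J v))‖ := by
  rw [← R_norm hJ hu2 (alf J u v - v), R_sub hJ, R_alf hJ hu hu1]

theorem commNorm_nonneg (M : VonNeumannAlgebra H) (ξ : H) (a : H →L[ℂ] H) :
    0 ≤ commNorm M ξ a := by
  unfold commNorm
  apply Real.sSup_nonneg
  rintro r ⟨x, -, -, rfl⟩
  exact norm_nonneg _

theorem commNorm_le {M : VonNeumannAlgebra H} {ξ : H} {U : ℝ → H →L[ℂ] H}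
    {J : H → H} (hξ : ‖ξ‖ = 1) (hJ : IsConj M ξ U J) {u : H →L[ℂ] H} (hu : u ∈ M)
    (hu1 : star u * u = 1) (hu2 : u * star u = 1) :
    commNorm M ξ u ≤ 2 * ‖alf J u ξ - ξ‖ := by
  unfold commNorm
  apply Real.sSup_le _ (by positivity)
  rintro r ⟨x, hx, hx1, rfl⟩
  have e1 : vst ξ (x * u) = ⟪ξ, x (u ξ)⟫_ℂ := rfl
  have e2 : vst ξ (u * x) = ⟪star u ξ, x ξ⟫_ℂ := by
    unfold vst
    rw [ContinuousLinearMap.star_eq_adjoint, ContinuousLinearMap.adjoint_inner_left]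
    rfl
  have e3 : ⟪ξ, x (J (star u (J ξ)))⟫_ℂ = ⟪J (u (J ξ)), x ξ⟫_ℂ := by
    rw [hJ.comm x (star u) hx (star_mem hu) ξ]
    calc ⟪ξ, J (star u (J (x ξ)))⟫_ℂ = ⟪J ξ, J (star u (J (x ξ)))⟫_ℂ := by rw [hJ.fix]
      _ = ⟪star u (J (x ξ)), ξ⟫_ℂ := hJ.inner _ _
      _ = ⟪J (x ξ), u ξ⟫_ℂ := by
        rw [ContinuousLinearMap.star_eq_adjoint, ContinuousLinearMap.adjoint_inner_left]
      _ = ⟪J (x ξ), J (J (u ξ))⟫_ℂ := by rw [hJ.inv]
      _ = ⟪J (u ξ), x ξ⟫_ℂ := hJ.inner _ _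
      _ = ⟪J (u (J ξ)), x ξ⟫_ℂ := by rw [hJ.fix]
  have e4 : vst ξ (x * u) - vst ξ (u * x) =
      ⟪ξ, x (u ξ - J (star u (J ξ)))⟫_ℂ + ⟪J (u (J ξ)) - star u ξ, x ξ⟫_ℂ := by
    rw [e1, e2, map_sub, inner_sub_right, inner_sub_left, e3]
    ring
  have hD : ‖u ξ - J (star u (J ξ))‖ = ‖alf J u ξ - ξ‖ := (norm_alf_sub hJ hu hu1 hu2 ξ).symm
  have hD2 : ‖J (u (J ξ)) - star u ξ‖ = ‖alf J u ξ - ξ‖ := by
    rw [← hD, ← norm_J hJ (J (u (J ξ)) - star u ξ), J_sub hJ, hJ.inv, hJ.fix]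
  have hxi : ∀ v : H, ‖x v‖ ≤ ‖v‖ := fun v => by
    have := x.le_opNorm v
    nlinarith [norm_nonneg v]
  rw [e4]
  calc ‖⟪ξ, x (u ξ - J (star u (J ξ)))⟫_ℂ + ⟪J (u (J ξ)) - star u ξ, x ξ⟫_ℂ‖
      ≤ ‖⟪ξ, x (u ξ - J (star u (J ξ)))⟫_ℂ‖ + ‖⟪J (u (J ξ)) - star u ξ, x ξ⟫_ℂ‖ :=
        norm_add_le _ _
    _ ≤ ‖ξ‖ * ‖x (u ξ - J (star u (J ξ)))‖ + ‖J (u (J ξ)) - star u ξ‖ * ‖x ξ‖ :=
        add_le_add (norm_inner_le_norm _ _) (norm_inner_le_norm _ _)
    _ ≤ 2 * ‖alf J u ξ - ξ‖ := by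
        have h1 := hxi (u ξ - J (star u (J ξ)))
        have h2 := hxi ξ
        rw [hD] at h1
        rw [hξ] at h2 ⊢
        rw [hD2]
        nlinarith [norm_nonneg (alf J u ξ - ξ)]

/-- the elements of the bicentralizer leave `𝒦` invariant -/
theorem maps {N M : VonNeumannAlgebra H} {ξ : H} {U : ℝ → H →L[ℂ] H} {J : H → H}
    (hNM : ∀ x : H →L[ℂ] H, x ∈ N → x ∈ M) (hξ : ‖ξ‖ = 1) (hJ : IsConj M ξ U J)
    {b : H →L[ℂ] H} (hb : b ∈ relBicentralizer N M ξ) {η : H} (hη : η ∈ KK N ξ J) :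
    b η ∈ KK N ξ J := by
  by_contra hcon
  have hcon' : ∃ a : ℝ, 0 < a ∧ ∀ k : ℝ, 0 ≤ k → ∃ u : H →L[ℂ] H, IsUni N u ∧
      a + k * ‖alf J u ξ - ξ‖ ^ 2 < ‖alf J u (b η) - b η‖ ^ 2 := by
    by_contra h
    apply hcon
    intro a ha
    by_contra h'
    apply h
    refine ⟨a, ha, fun k hk => ?_⟩
    by_contra h''
    apply h'
    refine ⟨k, hk, fun u hu => ?_⟩
    by_contra h3
    exact h'' ⟨u, hu, lt_of_not_ge h3⟩
  obtain ⟨a, ha, h⟩ := hcon'
  choose u hu hu' using fun k : ℕ => h (k : ℝ) (Nat.cast_nonneg k)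
  have huM : ∀ k, u k ∈ M := fun k => hNM _ (hu k).1
  -- `‖alf u_k ξ - ξ‖ → 0`
  have hb2 : ∀ k, ‖alf J (u k) (b η) - b η‖ ≤ 2 * ‖b η‖ := fun k => by
    refine (norm_sub_le _ _).trans ?_
    rw [alf_norm hJ (hu k).2.1]; linarith
  have hlim2 : Tendsto (fun k => ‖alf J (u k) ξ - ξ‖ ^ 2) atTop (𝓝 0) := by
    have hup : ∀ᶠ k : ℕ in atTop, ‖alf J (u k) ξ - ξ‖ ^ 2 ≤ (4 * ‖b η‖ ^ 2) / (k : ℝ) := by
      filter_upwards [eventually_gt_atTop 0] with k hk
      have hk' : (0 : ℝ) < k := by exact_mod_cast hk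
      rw [le_div_iff₀ hk']
      have h1 := hu' k
      have h2 : ‖alf J (u k) (b η) - b η‖ ^ 2 ≤ (2 * ‖b η‖) ^ 2 :=
        pow_le_pow_left₀ (norm_nonneg _) (hb2 k) 2
      nlinarith
    have hz : Tendsto (fun k : ℕ => (4 * ‖b η‖ ^ 2) / (k : ℝ)) atTop (𝓝 0) :=
      tendsto_const_div_atTop_nhds_zero_nat _
    exact tendsto_of_tendsto_of_tendsto_of_le_of_le' tendsto_const_nhds hz
      (Eventually.of_forall fun k => sq_nonneg _) hup
  have hlim : Tendsto (fun k => ‖alf J (u k) ξ - ξ‖) atTop (𝓝 0) := by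
    have := hlim2.sqrt
    simpa [Real.sqrt_sq (norm_nonneg _)] using this
  -- `‖alf u_k η - η‖ → 0`
  have hlimη2 : Tendsto (fun k => ‖alf J (u k) η - η‖ ^ 2) atTop (𝓝 0) := by
    rw [Metric.tendsto_atTop]
    intro ε hε
    obtain ⟨c, hc, hc'⟩ := hη (ε / 2) (by positivity)
    have h1 : Tendsto (fun k => ε / 2 + c * ‖alf J (u k) ξ - ξ‖ ^ 2) atTop (𝓝 (ε / 2 + c * 0)) :=
      (hlim2.const_mul c).const_add _
    rw [mul_zero, add_zero] at h1
    have h2 := (h1.eventually_lt_const (by linarith : ε / 2 < ε))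
    obtain ⟨n₀, hn₀⟩ := eventually_atTop.1 h2
    refine ⟨n₀, fun n hn => ?_⟩
    rw [Real.dist_eq, sub_zero, abs_of_nonneg (sq_nonneg _)]
    exact (hc' (u n) (hu n)).trans_lt (hn₀ n hn)
  have hlimη : Tendsto (fun k => ‖alf J (u k) η - η‖) atTop (𝓝 0) := by
    have := hlimη2.sqrt
    simpa [Real.sqrt_sq (norm_nonneg _)] using this
  -- commutators
  have hcomm : Tendsto (fun k => commNorm M ξ (star (u k))) atTop (𝓝 0) := by
    have h1 : Tendsto (fun k => 2 * ‖alf J (u k) ξ - ξ‖) atTop (𝓝 0) := by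
      simpa using hlim.const_mul 2
    refine tendsto_of_tendsto_of_tendsto_of_le_of_le tendsto_const_nhds h1
      (fun k => commNorm_nonneg _ _ _) fun k => ?_
    show commNorm M ξ (star (u k)) ≤ _
    rw [commNorm_star]
    exact commNorm_le hξ hJ (huM k) (hu k).2.1 (hu k).2.2
  have hun : ∀ k, ‖star (u k)‖ ≤ 1 := fun k => by
    rw [norm_star]
    exact (u k).opNorm_le_bound zero_le_one fun v => by rw [norm_iso (hu k).2.1, one_mul]
  have hB := (hb.2 (fun k => star (u k)) (fun k => star_mem (hu k).1) ⟨1, hun⟩ hcomm η).1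
  have hBn : Tendsto (fun k => ‖(star (u k) * b - b * star (u k)) η‖) atTop (𝓝 0) := by
    simpa using hB.norm
  -- the estimate
  have hest : ∀ k, ‖alf J (u k) (b η) - b η‖ ≤
      ‖b‖ * ‖alf J (u k) η - η‖ + ‖(star (u k) * b - b * star (u k)) η‖ := by
    intro k
    have e1 : alf J (u k) (b η) = u k (b (star (u k) (alf J (u k) η))) := by
      unfold alf
      rw [← hJ.comm b (u k) hb.1 (huM k) η]
      have : star (u k) (u k (J (u k (J η)))) = J (u k (J η)) := by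
        have h0 : (star (u k) * u k) (J (u k (J η))) = J (u k (J η)) := by
          rw [(hu k).2.1]; rfl
        exact h0
      rw [this]
    have e2 : u k (star (u k) (b η)) = b η := by
      have h0 : (u k * star (u k)) (b η) = b η := by rw [(hu k).2.2]; rfl
      exact h0
    have e3 : alf J (u k) (b η) - b η = u k (b (star (u k) (alf J (u k) η - η))) -
        u k ((star (u k) * b - b * star (u k)) η) := by
      rw [e1]
      show _ = _ - u k (star (u k) (b η) - b (star (u k) η))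
      rw [map_sub (u k), e2, map_sub (star (u k)), map_sub b, map_sub (u k)]
      abel
    rw [e3]
    refine (norm_sub_le _ _).trans (add_le_add ?_ ?_)
    · rw [norm_iso (hu k).2.1]
      refine (b.le_opNorm _).trans (mul_le_mul_of_nonneg_left ?_ (norm_nonneg _))
      rw [norm_iso (by rw [star_star]; exact (hu k).2.2)]
    · rw [norm_iso (hu k).2.1]
  have hfin : Tendsto (fun k => ‖alf J (u k) (b η) - b η‖) atTop (𝓝 0) := by
    have h1 : Tendsto (fun k => ‖b‖ * ‖alf J (u k) η - η‖ +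
        ‖(star (u k) * b - b * star (u k)) η‖) atTop (𝓝 (‖b‖ * 0 + 0)) :=
      (hlimη.const_mul _).add hBn
    rw [mul_zero, add_zero] at h1
    exact tendsto_of_tendsto_of_tendsto_of_le_of_le tendsto_const_nhds h1
      (fun k => norm_nonneg _) hest
  have hfin2 : Tendsto (fun k => ‖alf J (u k) (b η) - b η‖ ^ 2) atTop (𝓝 0) := by
    simpa using hfin.pow 2
  have hge : ∀ k, a ≤ ‖alf J (u k) (b η) - b η‖ ^ 2 := fun k => by
    have h1 := hu' k
    have h2 : 0 ≤ (k : ℝ) * ‖alf J (u k) ξ - ξ‖ ^ 2 := by positivity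
    linarith
  have := ge_of_tendsto' hfin2 hge
  linarith

/-- the von Neumann algebra of the elements of `M` which commute with `P` -/
noncomputable def genB (M : VonNeumannAlgebra H) (P : H →L[ℂ] H) : VonNeumannAlgebra H where
  __ := StarSubalgebra.centralizer ℂ ((M.commutant : Set (H →L[ℂ] H)) ∪ {P})
  centralizer_centralizer' := Set.centralizer_centralizer_centralizer _

theorem mem_genB {M : VonNeumannAlgebra H} {P : H →L[ℂ] H} (hP : star P = P) (b : H →L[ℂ] H) :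
    b ∈ genB M P ↔ (b ∈ M ∧ P * b = b * P) := by
  have h : b ∈ genB M P ↔
      b ∈ StarSubalgebra.centralizer ℂ ((M.commutant : Set (H →L[ℂ] H)) ∪ {P}) := Iff.rfl
  rw [h, StarSubalgebra.mem_centralizer_iff]
  constructor
  · intro hb
    refine ⟨?_, (hb P (Or.inr rfl)).1⟩
    rw [← M.commutant_commutant, VonNeumannAlgebra.mem_commutant_iff]
    intro g hg
    exact (hb g (Or.inl hg)).1
  · rintro ⟨hbM, hc⟩ g hg
    rcases hg with hg | hg
    · have hg' : g ∈ M.commutant := hg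
      have h1 : ∀ g : H →L[ℂ] H, g ∈ M.commutant → g * b = b * g := by
        intro g hg
        exact (VonNeumannAlgebra.mem_commutant_iff.1 hg b hbM).symm
      exact ⟨h1 g hg', h1 _ (star_mem hg')⟩
    · rw [Set.mem_singleton_iff] at hg
      rw [hg, hP]
      exact ⟨hc, hc⟩

theorem r (h1 : S_Bchar) (h2 : S_KK) : S_Bvn := by
  intro H _ _ _ N M ξ U J E hI
  obtain ⟨K, hK, hKc, hξK, -, -⟩ := h2 H M N ξ U J hI.le hI.modular hI.conj hI.mod
  have : CompleteSpace K := hKc.completeSpace_coe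
  have hmem : ∀ v : H, v ∈ K ↔ v ∈ KK N ξ J := fun v => by rw [← hK]; rfl
  let P : H →L[ℂ] H := K.starProjection
  have hP1 : ∀ v : H, v ∈ K → P v = v := fun v hv => K.starProjection_eq_self_iff.2 hv
  have hP2 : ∀ v : H, P v ∈ K := fun v => K.starProjection_apply_mem v
  have hP3 : star P = P := isSelfAdjoint_starProjection K
  -- the characterization
  have hchar : ∀ b : H →L[ℂ] H, b ∈ relBicentralizer N M ξ ↔ (b ∈ M ∧ P * b = b * P) := by
    intro b
    constructor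
    · intro hb
      refine ⟨hb.1, ?_⟩
      have m1 : ∀ v : H, b (P v) ∈ K := fun v =>
        (hmem _).2 (maps hI.le hI.unit hI.conj hb ((hmem _).1 (hP2 v)))
      have m2 : ∀ v : H, star b (P v) ∈ K := fun v =>
        (hmem _).2 (maps hI.le hI.unit hI.conj (star_rel hb) ((hmem _).1 (hP2 v)))
      have e1 : P * b * P = b * P := by
        ext v
        exact hP1 _ (m1 v)
      have e2 : P * star b * P = star b * P := by
        ext v
        exact hP1 _ (m2 v)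
      have e3 : P * b * P = P * b := by
        have := congrArg star e2
        rw [star_mul, star_mul, star_mul, star_star, hP3] at this
        rw [mul_assoc]
        exact this
      rw [← e3, e1]
    · rintro ⟨hbM, hc⟩
      rw [h1 H N M ξ U J E hI b]
      refine ⟨hbM, ?_⟩
      rw [← hmem]
      have : b ξ = P (b ξ) := by
        have h0 : (P * b) ξ = (b * P) ξ := by rw [hc]
        have h3 : b (P ξ) = b ξ := by rw [hP1 ξ hξK]
        calc b ξ = b (P ξ) := h3.symm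
          _ = P (b ξ) := h0.symm
      rw [this]
      exact hP2 _
  exact ⟨genB M P, fun b => (mem_genB hP3 b).trans (hchar b).symm⟩

end Pool.Agent.H255.BC.R_Bvn
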