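import Pool.Agent.H255.BC.Defs2
import Pool.Graph.R_pool_sql_team_seeded_f72693b1.W509.CB.E3
import Pool.Graph.R_pool_sql_team_seeded_f72693b1.W132.CB.E1

set_option autoImplicit false

open MeasureTheory Filter Topology Complex
open scoped InnerProductSpace ENNReal FourierTransform

namespace Pool.Agent.H255.BC.R_DT

open Pool.Agent.W662.CB Pool.Agent.H255.BC

noncomputable section

variable {H : Type} [NormedAddCommGroup H] [InnerProductSpace ℂ H] [CompleteSpace H]

/-- the translations `(R t f)(s) = f (s - t)` -/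
def R (t : ℝ) : LR H →L[ℂ] LR H := (Pool.Agent.W509.CB.Rt H t).toContinuousLinearMap

lemma R_shift (t : ℝ) : IsShift t (R (H := H) t) := Pool.Agent.W509.CB.Rt_shift t

lemma R_norm (t : ℝ) (F : LR H) : ‖R t F‖ = ‖F‖ := (Pool.Agent.W509.CB.Rt H t).norm_map F

lemma R_cont (F : LR H) : Continuous fun t : ℝ => R t F := by
  have h : Continuous fun t : ℝ => Lp.compMeasurePreserving
      ((fun t : ℝ => (⟨fun s : ℝ => s - t, by fun_prop⟩ : C(ℝ, ℝ))) t)
      (measurePreserving_sub_right volume t) F := by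
    refine Continuous.compMeasurePreservingLp (continuous_const (y := F)) ?_
      (fun t => measurePreserving_sub_right volume t) (by norm_num)
    exact ContinuousMap.continuous_of_continuous_uncurry _ (by
      change Continuous fun p : ℝ × ℝ => p.2 - p.1
      fun_prop)
  exact h

lemma R_ae (t : ℝ) (F : LR H) : (R (-t) F : ℝ → H) =ᵐ[volume] fun s => F (s + t) := by
  filter_upwards [R_shift (-t) F] with s hs
  rw [hs, sub_neg_eq_add]

lemma R_star (t : ℝ) : star (R (H := H) t) = R (-t) := by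
  have hone : (R (H := H) t) * (R (-t)) = 1 := by
    have h1 := Pool.Agent.W509.CB.shift_mul (R_shift (H := H) t) (R_shift (-t))
    rw [add_neg_cancel] at h1
    exact Pool.Agent.W509.CB.shift_unique h1 Pool.Agent.W509.CB.shift_one
  ext1 v
  apply ext_inner_right ℂ
  intro w
  rw [ContinuousLinearMap.star_eq_adjoint, ContinuousLinearMap.adjoint_inner_left]
  have h2 : v = (R t) ((R (-t)) v) := by
    have := congrArg (fun S : LR H →L[ℂ] LR H => S v) hone
    simpa using this.symm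
  conv_lhs => rw [h2]
  exact (Pool.Agent.W509.CB.Rt H t).inner_map_map _ _

/-! ### The adjoint of `v ↦ f ⊗ v` -/

omit [CompleteSpace H] in
lemma int_smul (e : ℝ → ℂ) (he : MemLp e 2 (volume : Measure ℝ)) (F : ℝ → H)
    (hF : MemLp F 2 (volume : Measure ℝ)) : Integrable (fun s => e s • F s) := by
  have := MemLp.smul (p := 2) (q := 2) (r := 1) hF he
  exact memLp_one_iff_integrable.1 this

lemma star_mem (e : ℝ → ℂ) (he : MemLp e 2 (volume : Measure ℝ)) :
    MemLp (fun s => starRingEnd ℂ (e s)) 2 (volume : Measure ℝ) := he.star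

lemma ten_adj (e : ℝ → ℂ) (he : MemLp e 2 (volume : Measure ℝ)) (T : H →L[ℂ] LR H)
    (hT : IsTen e T) (F : LR H) :
    ContinuousLinearMap.adjoint T F = ∫ s, starRingEnd ℂ (e s) • F s := by
  apply ext_inner_left ℂ
  intro v
  rw [ContinuousLinearMap.adjoint_inner_right, L2.inner_def]
  have hi : Integrable (fun s => starRingEnd ℂ (e s) • (F s : H)) :=
    int_smul _ (star_mem e he) _ (Lp.memLp F)
  rw [← integral_inner hi]
  apply integral_congr_ae
  filter_upwards [hT v] with s hs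
  rw [hs, inner_smul_left, inner_smul_right]

/-! ### The convolution operators -/

/-- `Λ_k F = ∫ conj k(u) F(· + u) du` -/
def Lam (k : ℝ → ℂ) (F : LR H) : LR H := ∫ u : ℝ, starRingEnd ℂ (k u) • R (-u) F

lemma Lam_int (k : ℝ → ℂ) (hk : Integrable k) (F : LR H) :
    Integrable (fun u : ℝ => starRingEnd ℂ (k u) • R (-u) F) := by
  refine (hk.norm.mul_const ‖F‖).mono' ?_ ?_
  · exact (RCLike.continuous_conj.comp_aestronglyMeasurable hk.aestronglyMeasurable).smul
      ((R_cont F).comp continuous_neg).aestronglyMeasurable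
  · refine Eventually.of_forall fun u => ?_
    rw [norm_smul, R_norm, RCLike.norm_conj]

lemma Lam_comm (k : ℝ → ℂ) (hk : Integrable k) (Y : LR H →L[ℂ] LR H)
    (hY : ∀ t : ℝ, Y * R t = R t * Y) (F : LR H) : Lam k (Y F) = Y (Lam k F) := by
  rw [Lam, Lam, ← ContinuousLinearMap.integral_comp_comm Y (Lam_int k hk F)]
  apply integral_congr_ae
  refine Eventually.of_forall fun u => ?_
  have h : Y (R (-u) F) = R (-u) (Y F) := congrArg (fun S : LR H →L[ℂ] LR H => S F) (hY (-u))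
  simp only [map_smul, h]

lemma normsq_int (F : LR H) : Integrable (fun t : ℝ => ‖(F t : H)‖ ^ 2) :=
  (memLp_two_iff_integrable_sq_norm (Lp.memLp F).1).1 (Lp.memLp F)

lemma Lam_prod (k : ℝ → ℂ) (hk : Integrable k) (F : LR H) (v : H) (A : Set ℝ)
    (hA : volume A ≠ ∞) :
    Integrable (Function.uncurry fun (u t : ℝ) => starRingEnd ℂ (k u) * ⟪v, (F (t + u) : H)⟫_ℂ)
      ((volume : Measure ℝ).prod (volume.restrict A)) := by
  have : IsFiniteMeasure (volume.restrict A) := ⟨by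
    rw [Measure.restrict_apply_univ]; exact lt_of_le_of_ne le_top hA⟩
  have hFm : StronglyMeasurable (fun p : ℝ × ℝ => (F (p.2 + p.1) : H)) :=
    (Lp.stronglyMeasurable F).comp_measurable (by fun_prop)
  have hm : AEStronglyMeasurable
      (Function.uncurry fun (u t : ℝ) => starRingEnd ℂ (k u) * ⟪v, (F (t + u) : H)⟫_ℂ)
      ((volume : Measure ℝ).prod (volume.restrict A)) := by
    refine AEStronglyMeasurable.mul ?_ ?_
    · exact (RCLike.continuous_conj.comp_aestronglyMeasurable hk.aestronglyMeasurable).comp_fst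
    · exact (stronglyMeasurable_const.inner hFm).aestronglyMeasurable
  have hb : ∀ u : ℝ, Integrable (fun t : ℝ => 1 + ‖(F (t + u) : H)‖ ^ 2) (volume.restrict A) := by
    intro u
    refine (integrable_const _).add ?_
    exact ((normsq_int F).comp_add_right u).integrableOn
  have hpt : ∀ u t : ℝ, ‖starRingEnd ℂ (k u) * ⟪v, (F (t + u) : H)⟫_ℂ‖ ≤
      ‖k u‖ * (‖v‖ * (1 + ‖(F (t + u) : H)‖ ^ 2)) := by
    intro u t
    rw [norm_mul, RCLike.norm_conj]
    refine mul_le_mul_of_nonneg_left ((norm_inner_le_norm _ _).trans ?_) (norm_nonneg _)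
    refine mul_le_mul_of_nonneg_left ?_ (norm_nonneg _)
    nlinarith [sq_nonneg (‖(F (t + u) : H)‖ - 1), norm_nonneg (F (t + u) : H)]
  rw [integrable_prod_iff hm]
  constructor
  · refine Eventually.of_forall fun u => ?_
    refine (((hb u).const_mul ‖v‖).const_mul ‖k u‖).mono' ?_ ?_
    · change AEStronglyMeasurable (fun t : ℝ => starRingEnd ℂ (k u) * ⟪v, (F (t + u) : H)⟫_ℂ) _
      refine AEStronglyMeasurable.const_mul ?_ _
      exact (stronglyMeasurable_const.inner
        ((Lp.stronglyMeasurable F).comp_measurable (by fun_prop))).aestronglyMeasurable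
    · exact Eventually.of_forall fun t => hpt u t
  · refine (hk.norm.mul_const (‖v‖ * ((volume.restrict A).real Set.univ +
      ∫ t : ℝ, ‖(F t : H)‖ ^ 2))).mono' hm.norm.integral_prod_right' ?_
    refine Eventually.of_forall fun u => ?_
    rw [Real.norm_of_nonneg (integral_nonneg fun t => norm_nonneg _)]
    have h1 : (∫ t, ‖starRingEnd ℂ (k u) * ⟪v, (F (t + u) : H)⟫_ℂ‖ ∂(volume.restrict A)) ≤
        ∫ t, ‖k u‖ * (‖v‖ * (1 + ‖(F (t + u) : H)‖ ^ 2)) ∂(volume.restrict A) := by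
      refine integral_mono_of_nonneg (Eventually.of_forall fun t => norm_nonneg _)
        (((hb u).const_mul ‖v‖).const_mul ‖k u‖) (Eventually.of_forall fun t => hpt u t)
    refine h1.trans ?_
    rw [integral_const_mul, integral_const_mul]
    refine mul_le_mul_of_nonneg_left (mul_le_mul_of_nonneg_left ?_ (norm_nonneg _)) (norm_nonneg _)
    rw [integral_add (integrable_const _) ((normsq_int F).comp_add_right u).integrableOn]
    refine add_le_add ?_ ?_
    · simp
    · rw [← integral_add_right_eq_self (fun t : ℝ => ‖(F t : H)‖ ^ 2) u]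
      exact setIntegral_le_integral ((normsq_int F).comp_add_right u)
        (Eventually.of_forall fun t => sq_nonneg _)

lemma adj_norm (T : H →L[ℂ] LR H) (F : LR H) :
    ‖ContinuousLinearMap.adjoint T F‖ ≤ ‖T‖ * ‖F‖ := by
  have := (ContinuousLinearMap.adjoint T).le_opNorm F
  rwa [LinearIsometryEquiv.norm_map] at this

lemma adjR_cont (T : H →L[ℂ] LR H) (F : LR H) :
    Continuous fun t : ℝ => ContinuousLinearMap.adjoint T (R (-t) F) :=
  (ContinuousLinearMap.continuous _).comp ((R_cont F).comp continuous_neg)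

lemma Lam_ae (k : ℝ → ℂ) (hk : Integrable k) (hk2 : MemLp k 2 (volume : Measure ℝ))
    (T : H →L[ℂ] LR H) (hT : IsTen k T) (F : LR H) :
    (Lam k F : ℝ → H) =ᵐ[volume] fun t => ContinuousLinearMap.adjoint T (R (-t) F) := by
  have hc := adjR_cont T F
  have hci : ∀ A : Set ℝ, volume A ≠ ∞ →
      IntegrableOn (fun t => ContinuousLinearMap.adjoint T (R (-t) F)) A volume := by
    intro A hA
    refine Measure.integrableOn_of_bounded (M := ‖T‖ * ‖F‖) hA hc.aestronglyMeasurable ?_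
    refine Eventually.of_forall fun t => ?_
    have := adj_norm T (R (-t) F)
    rwa [R_norm] at this
  refine ae_eq_of_forall_setIntegral_eq_of_sigmaFinite ?_ ?_ ?_
  · intro A hA hμ
    exact integrableOn_Lp_of_measure_ne_top _ (by norm_num) hμ.ne
  · intro A hA hμ
    exact hci A hμ.ne
  · intro A hA hμ
    apply ext_inner_left ℂ
    intro v
    rw [← L2.inner_indicatorConstLp_eq_inner_setIntegral ℂ hA hμ.ne v (Lam k F), Lam,
      ← integral_inner (Lam_int k hk F), ← integral_inner (hci A hμ.ne)]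
    have h1 : ∀ u : ℝ, ⟪indicatorConstLp 2 hA hμ.ne v, starRingEnd ℂ (k u) • R (-u) F⟫_ℂ =
        ∫ t in A, starRingEnd ℂ (k u) * ⟪v, (F (t + u) : H)⟫_ℂ := by
      intro u
      rw [inner_smul_right, L2.inner_indicatorConstLp_eq_inner_setIntegral ℂ hA hμ.ne v,
        ← integral_inner (integrableOn_Lp_of_measure_ne_top _ (by norm_num) hμ.ne),
        integral_const_mul]
      congr 1
      apply integral_congr_ae
      refine ae_restrict_of_ae ?_
      filter_upwards [R_ae u F] with t ht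
      rw [ht]
    have h2 : ∀ t : ℝ, ⟪v, ContinuousLinearMap.adjoint T (R (-t) F)⟫_ℂ =
        ∫ u : ℝ, starRingEnd ℂ (k u) * ⟪v, (F (t + u) : H)⟫_ℂ := by
      intro t
      rw [ten_adj k hk2 T hT, ← integral_inner (int_smul _ (star_mem k hk2) _ (Lp.memLp _))]
      apply integral_congr_ae
      filter_upwards [R_ae t F] with u hu
      rw [inner_smul_right, hu, add_comm]
    simp_rw [h1, h2]
    exact integral_integral_swap (Lam_prod k hk F v A hμ.ne)

/-! ### The unitaries `V_t` -/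

open Pool.Agent.W132.CB in
/-- `(V_t f)(s) = U_t f(s + t)` -/
def V (U : ℝ → H →L[ℂ] H) (t : ℝ) : LR H →L[ℂ] LR H := kap (U t) * R (-t)

open Pool.Agent.W132.CB in
lemma V_ae (U : ℝ → H →L[ℂ] H) (t : ℝ) (F : LR H) :
    (V U t F : ℝ → H) =ᵐ[volume] fun s => U t (F (s + t)) := by
  filter_upwards [isConst_kap (U t) (R (-t) F), R_ae t F] with s h1 h2
  rw [← h2]
  exact h1

lemma V_dual (U : ℝ → H →L[ℂ] H) (t : ℝ) : IsDual U t (V U t) := V_ae U t

open Pool.Agent.W132.CB in
lemma ten_kap (e : ℝ → ℂ) (he : MemLp e 2 (volume : Measure ℝ)) (T : H →L[ℂ] LR H)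
    (hT : IsTen e T) (y : H →L[ℂ] H) (F : LR H) :
    ContinuousLinearMap.adjoint T (kap y F) = y (ContinuousLinearMap.adjoint T F) := by
  rw [ten_adj e he T hT, ten_adj e he T hT,
    ← ContinuousLinearMap.integral_comp_comm y (int_smul _ (star_mem e he) _ (Lp.memLp F))]
  apply integral_congr_ae
  filter_upwards [isConst_kap y F] with s hs
  rw [hs, map_smul]

lemma ten_V (e : ℝ → ℂ) (he : MemLp e 2 (volume : Measure ℝ)) (T : H →L[ℂ] LR H)
    (hT : IsTen e T) (U : ℝ → H →L[ℂ] H) (t : ℝ) (F : LR H) :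
    ContinuousLinearMap.adjoint T (V U t F) =
      U t (ContinuousLinearMap.adjoint T (R (-t) F)) :=
  ten_kap e he T hT (U t) (R (-t) F)

variable {M : VonNeumannAlgebra H} {ξ : H} {U : ℝ → H →L[ℂ] H}

lemma U_inner (hU : IsModular M ξ U) (t : ℝ) (v w : H) : ⟪U t v, U t w⟫_ℂ = ⟪v, w⟫_ℂ := by
  have h : star (U t) * U t = 1 := by
    rw [hU.star_eq, ← hU.add, neg_add_cancel, hU.zero]
  have h2 : star (U t) (U t w) = w := congrArg (fun S : H →L[ℂ] H => S w) h
  rw [← ContinuousLinearMap.adjoint_inner_right, ← ContinuousLinearMap.star_eq_adjoint, h2]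

lemma U_norm (hU : IsModular M ξ U) (t : ℝ) (v : H) : ‖U t v‖ = ‖v‖ := by
  have h := U_inner hU t v v
  rw [inner_self_eq_norm_sq_to_K, inner_self_eq_norm_sq_to_K] at h
  have h2 : ‖U t v‖ ^ 2 = ‖v‖ ^ 2 := by exact_mod_cast h
  exact (pow_left_inj₀ (norm_nonneg _) (norm_nonneg _) two_ne_zero).1 h2

lemma U_cont (hU : IsModular M ξ U) (f : ℝ → H) (hf : Continuous f) :
    Continuous fun t => U t (f t) := by
  rw [continuous_iff_continuousAt]
  intro t₀
  rw [ContinuousAt, tendsto_iff_norm_sub_tendsto_zero]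
  have h1 : Tendsto (fun t => ‖f t - f t₀‖ + ‖U t (f t₀) - U t₀ (f t₀)‖) (𝓝 t₀) (𝓝 (0 + 0)) :=
    (tendsto_iff_norm_sub_tendsto_zero.1 (hf.tendsto t₀)).add
      (tendsto_iff_norm_sub_tendsto_zero.1 ((hU.cont (f t₀)).tendsto t₀))
  rw [add_zero] at h1
  refine squeeze_zero (fun t => norm_nonneg _) (fun t => ?_) h1
  have h2 : U t (f t) - U t₀ (f t₀) = U t (f t - f t₀) + (U t (f t₀) - U t₀ (f t₀)) := by
    rw [map_sub]; abel
  rw [h2]
  refine (norm_add_le _ _).trans (le_of_eq ?_)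
  rw [U_norm hU]

lemma V_inner (hU : IsModular M ξ U) (t : ℝ) (F G : LR H) : ⟪V U t F, V U t G⟫_ℂ = ⟪F, G⟫_ℂ := by
  rw [L2.inner_def, L2.inner_def,
    ← integral_add_right_eq_self (fun s : ℝ => ⟪(F s : H), (G s : H)⟫_ℂ) t]
  apply integral_congr_ae
  filter_upwards [V_ae U t F, V_ae U t G] with s h1 h2
  rw [h1, h2, U_inner hU]

lemma V_norm (hU : IsModular M ξ U) (t : ℝ) (F : LR H) : ‖V U t F‖ = ‖F‖ := by
  have h := V_inner hU t F F
  rw [inner_self_eq_norm_sq_to_K, inner_self_eq_norm_sq_to_K] at h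
  have h2 : ‖V U t F‖ ^ 2 = ‖F‖ ^ 2 := by exact_mod_cast h
  exact (pow_left_inj₀ (norm_nonneg _) (norm_nonneg _) two_ne_zero).1 h2

/-! ### The form identity -/

lemma form_ae (hU : IsModular M ξ U) (g k : ℝ → ℂ) (hg : Integrable g)
    (hg2 : MemLp g 2 (volume : Measure ℝ)) (hk : Integrable k)
    (hk2 : MemLp k 2 (volume : Measure ℝ)) (Tg Tk : H →L[ℂ] LR H) (hTg : IsTen g Tg)
    (hTk : IsTen k Tk) (b : H →L[ℂ] H) (S : LR H →L[ℂ] LR H) (hS : IsSig U b S) (F G : LR H) :
    (fun t : ℝ => ⟪(Lam g F : ℝ → H) t, (S (Lam k G) : ℝ → H) t⟫_ℂ) =ᵐ[volume]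
    fun t : ℝ => ⟪ContinuousLinearMap.adjoint Tg (V U t F),
      b (ContinuousLinearMap.adjoint Tk (V U t G))⟫_ℂ := by
  filter_upwards [Lam_ae g hg hg2 Tg hTg F, Lam_ae k hk hk2 Tk hTk G, hS (Lam k G)] with t h1 h2 h3
  rw [h1, h3, h2, ten_V g hg2 Tg hTg, ten_V k hk2 Tk hTk]
  have h4 : star (U (-t)) = U t := by rw [hU.star_eq, neg_neg]
  have h5 : U (-t) = star (U t) := (hU.star_eq t).symm
  have h6 : ∀ y : H, sgm U (-t) b y = star (U t) (b (U t y)) := by
    intro y
    rw [sgm, h4, h5]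
    rfl
  rw [h6, ContinuousLinearMap.star_eq_adjoint, ContinuousLinearMap.adjoint_inner_right]

lemma form_int (hU : IsModular M ξ U) (g k : ℝ → ℂ) (hg : Integrable g)
    (hg2 : MemLp g 2 (volume : Measure ℝ)) (hk : Integrable k)
    (hk2 : MemLp k 2 (volume : Measure ℝ)) (Tg Tk : H →L[ℂ] LR H) (hTg : IsTen g Tg)
    (hTk : IsTen k Tk) (b : H →L[ℂ] H) (S : LR H →L[ℂ] LR H) (hS : IsSig U b S) (F G : LR H) :
    Integrable (fun t : ℝ => ⟪ContinuousLinearMap.adjoint Tg (V U t F),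
      b (ContinuousLinearMap.adjoint Tk (V U t G))⟫_ℂ) :=
  (L2.integrable_inner (𝕜 := ℂ) (Lam g F) (S (Lam k G))).congr
    (form_ae hU g k hg hg2 hk hk2 Tg Tk hTg hTk b S hS F G)

lemma form_eq (hU : IsModular M ξ U) (g k : ℝ → ℂ) (hg : Integrable g)
    (hg2 : MemLp g 2 (volume : Measure ℝ)) (hk : Integrable k)
    (hk2 : MemLp k 2 (volume : Measure ℝ)) (Tg Tk : H →L[ℂ] LR H) (hTg : IsTen g Tg)
    (hTk : IsTen k Tk) (b : H →L[ℂ] H) (S : LR H →L[ℂ] LR H) (hS : IsSig U b S) (F G : LR H) :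
    (∫ t : ℝ, ⟪ContinuousLinearMap.adjoint Tg (V U t F),
      b (ContinuousLinearMap.adjoint Tk (V U t G))⟫_ℂ) = ⟪Lam g F, S (Lam k G)⟫_ℂ := by
  rw [L2.inner_def]
  exact integral_congr_ae (form_ae hU g k hg hg2 hk hk2 Tg Tk hTg hTk b S hS F G).symm

lemma form_comm (hU : IsModular M ξ U) (g k : ℝ → ℂ) (hg : Integrable g)
    (hg2 : MemLp g 2 (volume : Measure ℝ)) (hk : Integrable k)
    (hk2 : MemLp k 2 (volume : Measure ℝ)) (Tg Tk : H →L[ℂ] LR H) (hTg : IsTen g Tg)
    (hTk : IsTen k Tk) (b : H →L[ℂ] H) (S : LR H →L[ℂ] LR H) (hS : IsSig U b S)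
    (Y : LR H →L[ℂ] LR H) (hY : ∀ t : ℝ, Y * R t = R t * Y) (hYS : Y * S = S * Y) (F G : LR H) :
    (∫ t : ℝ, ⟪ContinuousLinearMap.adjoint Tg (V U t F),
      b (ContinuousLinearMap.adjoint Tk (V U t (Y G)))⟫_ℂ) =
    ∫ t : ℝ, ⟪ContinuousLinearMap.adjoint Tg (V U t (star Y F)),
      b (ContinuousLinearMap.adjoint Tk (V U t G))⟫_ℂ := by
  have hY' : ∀ t : ℝ, star Y * R t = R t * star Y := by
    intro t
    have h := congrArg star (hY (-t))
    rw [star_mul, star_mul, R_star, neg_neg] at h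
    exact h.symm
  rw [form_eq hU g k hg hg2 hk hk2 Tg Tk hTg hTk b S hS,
    form_eq hU g k hg hg2 hk hk2 Tg Tk hTg hTk b S hS, Lam_comm k hk Y hY,
    Lam_comm g hg (star Y) hY']
  have h1 : S (Y (Lam k G)) = Y (S (Lam k G)) :=
    (congrArg (fun Z : LR H →L[ℂ] LR H => Z (Lam k G)) hYS).symm
  rw [h1, ContinuousLinearMap.star_eq_adjoint, ContinuousLinearMap.adjoint_inner_left]

/-! ### Step functions -/

/-- the indicator function of `[i/n, (i+1)/n)` -/
def cell (n i : ℕ) : ℝ → ℂ :=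
  (Set.Ico ((i : ℝ) / n) (((i : ℝ) + 1) / n)).indicator (fun _ => (1 : ℂ))

lemma cell_memLp (n i : ℕ) : MemLp (cell n i) 2 (volume : Measure ℝ) :=
  memLp_indicator_const 2 measurableSet_Ico 1 (Or.inr (by simp))

lemma cell_int (n i : ℕ) : Integrable (cell n i) (volume : Measure ℝ) := by
  have := memLp_indicator_const (μ := (volume : Measure ℝ)) 1
    (measurableSet_Ico (a := (i : ℝ) / n) (b := ((i : ℝ) + 1) / n)) (1 : ℂ) (Or.inr (by simp))
  exact memLp_one_iff_integrable.1 this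

lemma cell_eq (n i : ℕ) (hn : 0 < n) (x : ℝ) :
    cell n i x = if 0 ≤ x ∧ ⌊(n : ℝ) * x⌋₊ = i then 1 else 0 := by
  have hn' : (0 : ℝ) < n := by exact_mod_cast hn
  have h : x ∈ Set.Ico ((i : ℝ) / n) (((i : ℝ) + 1) / n) ↔ (0 ≤ x ∧ ⌊(n : ℝ) * x⌋₊ = i) := by
    rw [Set.mem_Ico, div_le_iff₀ hn', lt_div_iff₀ hn']
    constructor
    · rintro ⟨h1, h2⟩
      have h0 : 0 ≤ x * n := le_trans (Nat.cast_nonneg i) h1
      have hx : 0 ≤ x := by
        by_contra hx
        push Not at hx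
        nlinarith
      refine ⟨hx, (Nat.floor_eq_iff (by positivity)).2 ⟨by linarith, by linarith⟩⟩
    · rintro ⟨hx, h2⟩
      have h3 := (Nat.floor_eq_iff (by positivity)).1 h2
      exact ⟨by linarith [h3.1], by linarith [h3.2]⟩
  rw [cell, Set.indicator_apply]
  simp only [h]

lemma cell_conj (n i : ℕ) (x : ℝ) : starRingEnd ℂ (cell n i x) = cell n i x := by
  rw [cell, Set.indicator_apply]
  split_ifs <;> simp

omit [CompleteSpace H] in
lemma cell_sum (n : ℕ) (hn : 0 < n) (x : ℝ) (w : ℕ → H) :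
    ∑ i ∈ Finset.range (n * n), cell n i x • w i =
      if 0 ≤ x ∧ x < n then w ⌊(n : ℝ) * x⌋₊ else 0 := by
  have hn' : (0 : ℝ) < n := by exact_mod_cast hn
  split_ifs with h
  · have hm : ⌊(n : ℝ) * x⌋₊ ∈ Finset.range (n * n) := by
      rw [Finset.mem_range, Nat.floor_lt (by have := h.1; positivity)]
      push_cast
      nlinarith [h.2]
    rw [Finset.sum_eq_single_of_mem _ hm]
    · rw [cell_eq n _ hn, if_pos ⟨h.1, rfl⟩, one_smul]
    · intro j _ hj
      rw [cell_eq n _ hn, if_neg (fun h' => hj h'.2.symm), zero_smul]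
  · refine Finset.sum_eq_zero fun i hi => ?_
    rw [cell_eq n _ hn, if_neg, zero_smul]
    rintro ⟨h1, h2⟩
    apply h
    refine ⟨h1, ?_⟩
    rw [Finset.mem_range, ← h2, Nat.floor_lt (by positivity)] at hi
    push_cast at hi
    nlinarith

lemma cell_ortho (n i j : ℕ) (hn : 0 < n) :
    (∫ s : ℝ, starRingEnd ℂ (cell n i s) * cell n j s) = if i = j then ((n : ℂ))⁻¹ else 0 := by
  have hn' : (0 : ℝ) < n := by exact_mod_cast hn
  split_ifs with h
  · subst h
    have h1 : ∀ s : ℝ, starRingEnd ℂ (cell n i s) * cell n i s =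
        (Set.Ico ((i : ℝ) / n) (((i : ℝ) + 1) / n)).indicator (fun _ => (1 : ℂ)) s := by
      intro s
      rw [cell_conj, cell, Set.indicator_apply]
      split_ifs <;> simp
    simp_rw [h1]
    rw [integral_indicator measurableSet_Ico]
    simp only [integral_const, MeasurableSet.univ, measureReal_restrict_apply, Set.univ_inter]
    rw [measureReal_def, Real.volume_Ico]
    have h2 : ((i : ℝ) + 1) / n - (i : ℝ) / n = (n : ℝ)⁻¹ := by field_simp; ring
    rw [h2, ENNReal.toReal_ofReal (by positivity)]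
    simp
  · rw [integral_eq_zero_of_ae]
    refine Eventually.of_forall fun s => ?_
    simp only [Pi.zero_apply]
    rw [cell_conj, cell_eq n i hn, cell_eq n j hn]
    split_ifs with h1 h2 h3
    · exact absurd (h1.2.symm.trans h2.2) h
    all_goals simp

/-- the projection onto the step functions on `[0, n)` -/
def PP (T : ℕ → ℕ → H →L[ℂ] LR H) (n : ℕ) : LR H →L[ℂ] LR H :=
  (n : ℂ) • ∑ i ∈ Finset.range (n * n), (T n i) ∘L ContinuousLinearMap.adjoint (T n i)

lemma PP_apply (T : ℕ → ℕ → H →L[ℂ] LR H) (n : ℕ) (F : LR H) :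
    PP T n F = (n : ℂ) • ∑ i ∈ Finset.range (n * n), T n i (ContinuousLinearMap.adjoint (T n i) F) := by
  rw [PP, _root_.smul_apply, _root_.sum_apply]
  rfl

variable {T : ℕ → ℕ → H →L[ℂ] LR H}

lemma T_ortho (hT : ∀ n i, IsTen (cell n i) (T n i)) (n i j : ℕ) (hn : 0 < n) (v : H) :
    ContinuousLinearMap.adjoint (T n i) (T n j v) = if i = j then ((n : ℂ))⁻¹ • v else 0 := by
  rw [ten_adj (cell n i) (cell_memLp n i) (T n i) (hT n i)]
  have h1 : (∫ s, starRingEnd ℂ (cell n i s) • (T n j v : ℝ → H) s) =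
      ∫ s, (starRingEnd ℂ (cell n i s) * cell n j s) • v := by
    apply integral_congr_ae
    filter_upwards [hT n j v] with s hs
    rw [hs, smul_smul]
  rw [h1, integral_smul_const, cell_ortho n i j hn]
  split_ifs <;> simp

lemma T_PP (hT : ∀ n i, IsTen (cell n i) (T n i)) (n j : ℕ) (hj : j ∈ Finset.range (n * n))
    (F : LR H) : ContinuousLinearMap.adjoint (T n j) (PP T n F) =
      ContinuousLinearMap.adjoint (T n j) F := by
  have hn : 0 < n := by
    rcases Nat.eq_zero_or_pos n with h | h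
    · subst h; simp at hj
    · exact h
  have hn' : (n : ℂ) ≠ 0 := by exact_mod_cast hn.ne'
  rw [PP_apply, map_smul, map_sum, Finset.sum_eq_single_of_mem j hj]
  · rw [T_ortho hT n j j hn, if_pos rfl, smul_smul, mul_inv_cancel₀ hn', one_smul]
  · intro i _ hij
    rw [T_ortho hT n j i hn, if_neg (Ne.symm hij)]

lemma PP_inner (n : ℕ) (F G : LR H) :
    ⟪PP T n F, G⟫_ℂ = (n : ℂ) * ∑ i ∈ Finset.range (n * n),
      ⟪ContinuousLinearMap.adjoint (T n i) F, ContinuousLinearMap.adjoint (T n i) G⟫_ℂ := by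
  rw [PP_apply, inner_smul_left, sum_inner]
  congr 1
  · simp
  · refine Finset.sum_congr rfl fun i _ => ?_
    rw [ContinuousLinearMap.adjoint_inner_right]

lemma PP_norm (hT : ∀ n i, IsTen (cell n i) (T n i)) (n : ℕ) (F : LR H) :
    ‖PP T n F‖ ≤ ‖F‖ := by
  have h1 : ⟪PP T n F, PP T n F⟫_ℂ = ⟪PP T n F, F⟫_ℂ := by
    rw [PP_inner, PP_inner]
    congr 1
    refine Finset.sum_congr rfl fun i hi => ?_
    rw [T_PP hT n i hi]
  have h2 : ‖PP T n F‖ ^ 2 ≤ ‖PP T n F‖ * ‖F‖ := by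
    have h3 : ‖⟪PP T n F, PP T n F⟫_ℂ‖ ≤ ‖PP T n F‖ * ‖F‖ := by
      rw [h1]; exact norm_inner_le_norm _ _
    rw [inner_self_eq_norm_sq_to_K] at h3
    simpa using h3
  rcases (norm_nonneg (PP T n F)).eq_or_lt with h | h
  · rw [← h]; exact norm_nonneg _
  · nlinarith

lemma PP_step (hT : ∀ n i, IsTen (cell n i) (T n i)) (n : ℕ) (hn : 0 < n) (w : ℕ → H) :
    PP T n (∑ i ∈ Finset.range (n * n), T n i (w i)) =
      ∑ i ∈ Finset.range (n * n), T n i (w i) := by
  have hn' : (n : ℂ) ≠ 0 := by exact_mod_cast hn.ne'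
  rw [PP_apply, Finset.smul_sum]
  refine Finset.sum_congr rfl fun i hi => ?_
  rw [map_sum, Finset.sum_eq_single_of_mem i hi]
  · rw [T_ortho hT n i i hn, if_pos rfl, ← map_smul, smul_smul, mul_inv_cancel₀ hn', one_smul]
  · intro j _ hj
    rw [T_ortho hT n i j hn, if_neg (Ne.symm hj)]

lemma PP_form (n : ℕ) (X : LR H →L[ℂ] LR H) (F G : LR H) :
    ⟪PP T n F, X (PP T n G)⟫_ℂ = (n : ℂ) * ((n : ℂ) * ∑ i ∈ Finset.range (n * n),
      ∑ j ∈ Finset.range (n * n), ⟪ContinuousLinearMap.adjoint (T n i) F,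
        (ContinuousLinearMap.adjoint (T n i) ∘L X ∘L T n j)
          (ContinuousLinearMap.adjoint (T n j) G)⟫_ℂ) := by
  rw [PP_inner]
  congr 1
  rw [Finset.mul_sum]
  refine Finset.sum_congr rfl fun i _ => ?_
  rw [PP_apply, map_smul, map_smul, inner_smul_right, map_sum, map_sum, inner_sum]
  rfl

open Pool.Agent.W132.CB in
lemma ten_const (e : ℝ → ℂ) (T : H →L[ℂ] LR H) (hT : IsTen e T) (y : H →L[ℂ] H) (v : H) :
    kap y (T v) = T (y v) := by
  apply Lp.ext
  filter_upwards [isConst_kap y (T v), hT v, hT (y v)] with s h1 h2 h3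
  rw [h1, h2, h3, map_smul]

open Pool.Agent.W132.CB in
lemma slice_mem (N : VonNeumannAlgebra H) (X : LR H →L[ℂ] LR H) (hX : X ∈ Cen N U)
    (g k : ℝ → ℂ) (hg2 : MemLp g 2 (volume : Measure ℝ))
    (Tg Tk : H →L[ℂ] LR H) (hTg : IsTen g Tg) (hTk : IsTen k Tk) :
    ContinuousLinearMap.adjoint Tg ∘L X ∘L Tk ∈ N := by
  rw [← VonNeumannAlgebra.commutant_commutant N, VonNeumannAlgebra.mem_commutant_iff]
  intro y hy
  ext1 v
  have h1 : X (kap y (Tk v)) = kap y (X (Tk v)) :=
    congrArg (fun Z : LR H →L[ℂ] LR H => Z (Tk v)) (hX.1 y hy (kap y) (isConst_kap y))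
  change y (ContinuousLinearMap.adjoint Tg (X (Tk v))) =
    ContinuousLinearMap.adjoint Tg (X (Tk (y v)))
  rw [← ten_kap g hg2 Tg hTg y, ← h1, ten_const k Tk hTk]

lemma D_int (hU : IsModular M ξ U) (hT : ∀ n i, IsTen (cell n i) (T n i)) (n : ℕ)
    (X : LR H →L[ℂ] LR H) (S : (H →L[ℂ] H) → LR H →L[ℂ] LR H) (hS : ∀ b, IsSig U b (S b))
    (F G : LR H) (i j : ℕ) : Integrable (fun t : ℝ =>
      ⟪ContinuousLinearMap.adjoint (T n i) (V U t F),
        (ContinuousLinearMap.adjoint (T n i) ∘L X ∘L T n j)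
          (ContinuousLinearMap.adjoint (T n j) (V U t G))⟫_ℂ) :=
  form_int hU (cell n i) (cell n j) (cell_int n i) (cell_memLp n i) (cell_int n j)
    (cell_memLp n j) (T n i) (T n j) (hT n i) (hT n j) _ _ (hS _) F G

lemma D_comm (hU : IsModular M ξ U) (hT : ∀ n i, IsTen (cell n i) (T n i)) (n : ℕ)
    (N : VonNeumannAlgebra H)
    (X : LR H →L[ℂ] LR H) (hX : X ∈ Cen N U)
    (S : (H →L[ℂ] H) → LR H →L[ℂ] LR H) (hS : ∀ b, IsSig U b (S b))
    (Y : LR H →L[ℂ] LR H) (hY : ∀ t : ℝ, Y * R t = R t * Y) (hYS : ∀ b ∈ N, Y * S b = S b * Y)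
    (F G : LR H) :
    (∫ t : ℝ, ⟪PP T n (V U t F), X (PP T n (V U t (Y G)))⟫_ℂ) =
      ∫ t : ℝ, ⟪PP T n (V U t (star Y F)), X (PP T n (V U t G))⟫_ℂ := by
  simp_rw [PP_form]
  simp_rw [integral_const_mul]
  congr 2
  rw [integral_finsetSum _ fun i _ => integrable_finsetSum _ fun j _ =>
      D_int hU hT n X S hS F (Y G) i j,
    integral_finsetSum _ fun i _ => integrable_finsetSum _ fun j _ =>
      D_int hU hT n X S hS (star Y F) G i j]
  refine Finset.sum_congr rfl fun i _ => ?_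
  rw [integral_finsetSum _ fun j _ => D_int hU hT n X S hS F (Y G) i j,
    integral_finsetSum _ fun j _ => D_int hU hT n X S hS (star Y F) G i j]
  refine Finset.sum_congr rfl fun j _ => ?_
  exact form_comm hU (cell n i) (cell n j) (cell_int n i) (cell_memLp n i) (cell_int n j)
    (cell_memLp n j) (T n i) (T n j) (hT n i) (hT n j) _ _ (hS _) Y hY
    (hYS _ (slice_mem N X hX _ _ (cell_memLp n i) _ _ (hT n i) (hT n j))) F G

lemma D_cont (hU : IsModular M ξ U) (hT : ∀ n i, IsTen (cell n i) (T n i)) (n : ℕ)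
    (X : LR H →L[ℂ] LR H) (F G : LR H) :
    Continuous fun t : ℝ => ⟪PP T n (V U t F), X (PP T n (V U t G))⟫_ℂ := by
  have h : ∀ (F : LR H) (i : ℕ), Continuous fun t : ℝ =>
      ContinuousLinearMap.adjoint (T n i) (V U t F) := by
    intro F i
    simp_rw [ten_V (cell n i) (cell_memLp n i) (T n i) (hT n i)]
    exact U_cont hU _ (adjR_cont (T n i) F)
  simp_rw [PP_form]
  refine continuous_const.mul (continuous_const.mul ?_)
  refine continuous_finsetSum _ fun i _ => continuous_finsetSum _ fun j _ => ?_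
  exact (h F i).inner ((ContinuousLinearMap.continuous _).comp (h G j))

/-! ### Continuous functions with compact support -/

/-- represented by a continuous function with compact support -/
def DD (F : LR H) : Prop :=
  ∃ G : ℝ → H, Continuous G ∧ HasCompactSupport G ∧ (F : ℝ → H) =ᵐ[volume] G

lemma DD_dense (F : LR H) (ε : ℝ) (hε : 0 < ε) : ∃ F' : LR H, DD F' ∧ ‖F - F'‖ ≤ ε := by
  obtain ⟨g, hg1, hg2, hg3, hg4⟩ := (Lp.memLp F).exists_hasCompactSupport_eLpNorm_sub_le
    (by norm_num) (ε := ENNReal.ofReal ε) (by simpa using hε)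
  refine ⟨hg4.toLp g, ⟨g, hg3, hg1, hg4.coeFn_toLp⟩, ?_⟩
  rw [Lp.norm_def]
  refine ENNReal.toReal_le_of_le_ofReal hε.le ?_
  refine le_trans (le_of_eq ?_) hg2
  apply eLpNorm_congr_ae
  filter_upwards [Lp.coeFn_sub F (hg4.toLp g), hg4.coeFn_toLp] with s h1 h2
  rw [h1, Pi.sub_apply, Pi.sub_apply, h2]

lemma norm_sq_eq (F : LR H) : ‖F‖ ^ 2 = ∫ s : ℝ, ‖(F s : H)‖ ^ 2 := by
  have h : ((‖F‖ ^ 2 : ℝ) : ℂ) = ((∫ s : ℝ, ‖(F s : H)‖ ^ 2 : ℝ) : ℂ) := by
    rw [← integral_complex_ofReal]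
    have h1 := inner_self_eq_norm_sq_to_K (𝕜 := ℂ) F
    rw [L2.inner_def] at h1
    push_cast
    refine (h1.symm.trans ?_)
    apply integral_congr_ae
    refine Eventually.of_forall fun s => ?_
    simp
  exact_mod_cast h

lemma sum_ae (hT : ∀ n i, IsTen (cell n i) (T n i)) (n : ℕ) (w : ℕ → H) (A : Finset ℕ) :
    ((∑ i ∈ A, T n i (w i) : LR H) : ℝ → H) =ᵐ[volume] fun x => ∑ i ∈ A, cell n i x • w i := by
  classical
  induction A using Finset.induction_on with
  | empty =>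
    simp only [Finset.sum_empty]
    exact Lp.coeFn_zero H 2 volume
  | insert a A ha ih =>
    rw [Finset.sum_insert ha]
    filter_upwards [Lp.coeFn_add (T n a (w a)) (∑ i ∈ A, T n i (w i)), hT n a (w a), ih]
      with s h1 h2 h3
    rw [h1, Pi.add_apply, h2, h3, Finset.sum_insert ha]

/-- the error of the approximation by a step function -/
def phn (G : ℝ → H) (τ : ℝ) (n : ℕ) (s : ℝ) : H :=
  G s - ∑ i ∈ Finset.range (n * n), cell n i (s + n * τ) • G ((i : ℝ) / n - n * τ)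

omit [CompleteSpace H] in
lemma phn_eq (G : ℝ → H) (τ : ℝ) (n : ℕ) (hn : 0 < n) (s : ℝ) :
    phn G τ n s = G s - if 0 ≤ s + n * τ ∧ s + n * τ < n then
      G ((⌊(n : ℝ) * (s + n * τ)⌋₊ : ℝ) / n - n * τ) else 0 := by
  rw [phn, cell_sum n hn (s + n * τ) (fun i => G ((i : ℝ) / n - n * τ))]

lemma floor_bd (n : ℕ) (hn : 0 < n) (x : ℝ) (hx : 0 ≤ x) :
    x - 1 / n ≤ (⌊(n : ℝ) * x⌋₊ : ℝ) / n ∧ (⌊(n : ℝ) * x⌋₊ : ℝ) / n ≤ x := by
  have hn' : (0 : ℝ) < n := by exact_mod_cast hn
  constructor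
  · rw [le_div_iff₀ hn', sub_mul, one_div, inv_mul_cancel₀ hn'.ne']
    linarith [Nat.lt_floor_add_one ((n : ℝ) * x)]
  · rw [div_le_iff₀ hn']
    linarith [Nat.floor_le (show 0 ≤ (n : ℝ) * x by positivity)]

lemma approx_norm (hU : IsModular M ξ U) (hT : ∀ n i, IsTen (cell n i) (T n i)) (τ : ℝ) (n : ℕ)
    (hn : 0 < n) (F : LR H) (G : ℝ → H) (hF : (F : ℝ → H) =ᵐ[volume] G) :
    ‖PP T n (V U (-(n * τ)) F) - V U (-(n * τ)) F‖ ^ 2 ≤ 4 * ∫ s : ℝ, ‖phn G τ n s‖ ^ 2 := by
  set t : ℝ := -(n * τ) with ht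
  set S : LR H := ∑ i ∈ Finset.range (n * n), T n i (U t (G ((i : ℝ) / n - n * τ))) with hS
  have h1 : ‖V U t F - S‖ ^ 2 = ∫ s : ℝ, ‖phn G τ n s‖ ^ 2 := by
    rw [norm_sq_eq, ← integral_add_right_eq_self (fun s : ℝ => ‖phn G τ n s‖ ^ 2) t]
    apply integral_congr_ae
    have hF' : (fun s => (F (s + t) : H)) =ᵐ[volume] fun s => G (s + t) :=
      (measurePreserving_add_right (volume : Measure ℝ) t).quasiMeasurePreserving.ae_eq_comp hF
    filter_upwards [Lp.coeFn_sub (V U t F) S, V_ae U t F, hF',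
      sum_ae hT n (fun i => U t (G ((i : ℝ) / n - n * τ))) (Finset.range (n * n))] with s h1 h2 h3 h4
    rw [h1, Pi.sub_apply, h2, h3, hS, h4]
    have h5 : U t (G (s + t)) - ∑ i ∈ Finset.range (n * n),
        cell n i s • U t (G ((i : ℝ) / n - n * τ)) = U t (phn G τ n (s + t)) := by
      have h6 : s + t + n * τ = s := by rw [ht]; ring
      rw [phn, h6, map_sub, map_sum]
      simp_rw [map_smul]
    rw [h5, U_norm hU]
  have h2 : ‖PP T n (V U t F) - V U t F‖ ≤ 2 * ‖V U t F - S‖ := by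
    have h3 : PP T n (V U t F) - V U t F = PP T n (V U t F - S) - (V U t F - S) := by
      rw [map_sub, hS, PP_step hT n hn (fun i => U t (G ((i : ℝ) / n - n * τ)))]
      abel
    rw [h3]
    refine (norm_sub_le _ _).trans ?_
    have := PP_norm hT n (V U t F - S)
    linarith
  calc ‖PP T n (V U t F) - V U t F‖ ^ 2 ≤ (2 * ‖V U t F - S‖) ^ 2 :=
        pow_le_pow_left₀ (norm_nonneg _) h2 2
    _ = 4 * ‖V U t F - S‖ ^ 2 := by ring
    _ = _ := by rw [h1]

omit [InnerProductSpace ℂ H] [CompleteSpace H] in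
lemma supp_bd (G : ℝ → H) (hG : HasCompactSupport G) :
    ∃ R : ℝ, 0 < R ∧ ∀ x : ℝ, R < |x| → G x = 0 := by
  obtain ⟨r, hr⟩ := hG.isCompact.isBounded.subset_closedBall (0 : ℝ)
  refine ⟨max r 1, by positivity, fun x hx => ?_⟩
  by_contra hx'
  have h1 : x ∈ tsupport G := subset_tsupport G hx'
  have h2 := hr h1
  rw [Metric.mem_closedBall, dist_zero_right, Real.norm_eq_abs] at h2
  exact absurd hx (not_lt.2 (h2.trans (le_max_left _ _)))

lemma cell_meas (n i : ℕ) : StronglyMeasurable (cell n i) :=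
  stronglyMeasurable_const.indicator measurableSet_Ico

omit [CompleteSpace H] in
lemma phn_lim (G : ℝ → H) (hGc : Continuous G) (hG : HasCompactSupport G) (τ : ℝ) (h0 : 0 < τ)
    (h1 : τ < 1) : Tendsto (fun n : ℕ => ∫ s : ℝ, ‖phn G τ n s‖ ^ 2) atTop (𝓝 0) := by
  obtain ⟨C, hC⟩ := hG.exists_bound_of_continuous hGc
  obtain ⟨R, hR, hR'⟩ := supp_bd G hG
  have hC0 : 0 ≤ C := (norm_nonneg _).trans (hC 0)
  have hz : (0 : ℝ) = ∫ s : ℝ, (0 : ℝ) := by simp
  rw [hz]
  refine tendsto_integral_of_dominated_convergence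
    ((Set.Icc (-(R + 1)) (R + 1)).indicator fun _ => (2 * C) ^ 2) ?_ ?_ ?_ ?_
  · intro n
    have hm : StronglyMeasurable (phn G τ n) := by
      refine hGc.stronglyMeasurable.sub ?_
      refine Finset.stronglyMeasurable_fun_sum _ fun i _ => ?_
      exact ((cell_meas n i).comp_measurable (by fun_prop)).smul stronglyMeasurable_const
    exact (hm.norm.pow 2).aestronglyMeasurable
  · rw [integrable_indicator_iff measurableSet_Icc]
    exact integrableOn_const (by simp)
  · intro n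
    refine Eventually.of_forall fun s => ?_
    rw [Real.norm_of_nonneg (sq_nonneg _)]
    rcases Nat.eq_zero_or_pos n with hn | hn
    · subst hn
      have h2 : phn G τ 0 s = G s := by simp [phn]
      rw [h2, Set.indicator_apply]
      split_ifs with h3
      · exact pow_le_pow_left₀ (norm_nonneg _) ((hC s).trans (by linarith)) 2
      · rw [hR' s]
        · simp
        · by_contra h4
          push Not at h4
          apply h3
          rw [abs_le] at h4
          exact ⟨by linarith [h4.1], by linarith [h4.2]⟩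
    · rw [phn_eq G τ n hn, Set.indicator_apply]
      split_ifs with h2 h3 h3
      · refine pow_le_pow_left₀ (norm_nonneg _) ?_ 2
        refine (norm_sub_le _ _).trans ?_
        linarith [hC s, hC ((⌊(n : ℝ) * (s + n * τ)⌋₊ : ℝ) / n - n * τ)]
      · have h4 := floor_bd n hn _ h2.1
        have h5 : (1 : ℝ) / n ≤ 1 := by
          rw [div_le_one (by exact_mod_cast hn)]
          exact_mod_cast hn
        have h6 : R + 1 < |s| := by
          by_contra h6
          push Not at h6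
          exact h3 (abs_le.1 h6)
        rw [hR' s (by linarith), hR' ((⌊(n : ℝ) * (s + n * τ)⌋₊ : ℝ) / n - n * τ)]
        · simp
        · rw [lt_abs] at h6 ⊢
          rcases h6 with h6 | h6
          · left; linarith [h4.1]
          · right; linarith [h4.2]
      · rw [sub_zero]
        exact pow_le_pow_left₀ (norm_nonneg _) ((hC s).trans (by linarith)) 2
      · rw [sub_zero, hR' s]
        · simp
        · by_contra h4
          push Not at h4
          apply h3
          rw [abs_le] at h4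
          exact ⟨by linarith [h4.1], by linarith [h4.2]⟩
  · refine Eventually.of_forall fun s => ?_
    have hy : Tendsto (fun n : ℕ => (⌊(n : ℝ) * (s + n * τ)⌋₊ : ℝ) / n - n * τ) atTop (𝓝 s) := by
      have h2 : Tendsto (fun n : ℕ => s - 1 / (n : ℝ)) atTop (𝓝 (s - 0)) :=
        tendsto_const_nhds.sub tendsto_one_div_atTop_nhds_zero_nat
      rw [sub_zero] at h2
      have h3 : ∀ᶠ n : ℕ in atTop, 0 ≤ s + n * τ := by
        have h4 : Tendsto (fun n : ℕ => s + (n : ℝ) * τ) atTop atTop :=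
          tendsto_atTop_add_const_left _ _ (tendsto_natCast_atTop_atTop.atTop_mul_const h0)
        exact h4.eventually_ge_atTop 0
      refine tendsto_of_tendsto_of_tendsto_of_le_of_le' h2 tendsto_const_nhds ?_ ?_
      · filter_upwards [h3, eventually_gt_atTop 0] with n h4 h5
        linarith [(floor_bd n h5 _ h4).1]
      · filter_upwards [h3, eventually_gt_atTop 0] with n h4 h5
        linarith [(floor_bd n h5 _ h4).2]
    have h3 : ∀ᶠ n : ℕ in atTop, 0 ≤ s + n * τ ∧ s + n * τ < n := by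
      have h4 : Tendsto (fun n : ℕ => s + (n : ℝ) * τ) atTop atTop :=
        tendsto_atTop_add_const_left _ _ (tendsto_natCast_atTop_atTop.atTop_mul_const h0)
      have h5 : Tendsto (fun n : ℕ => -s + (n : ℝ) * (1 - τ)) atTop atTop :=
        tendsto_atTop_add_const_left _ _
          (tendsto_natCast_atTop_atTop.atTop_mul_const (by linarith))
      filter_upwards [h4.eventually_ge_atTop 0, h5.eventually_gt_atTop 0] with n h6 h7
      exact ⟨h6, by linarith⟩
    have h4 : Tendsto (fun n : ℕ => ‖G s - G ((⌊(n : ℝ) * (s + n * τ)⌋₊ : ℝ) / n - n * τ)‖ ^ 2)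
        atTop (𝓝 (‖G s - G s‖ ^ 2)) :=
      ((tendsto_const_nhds.sub ((hGc.tendsto s).comp hy)).norm).pow 2
    rw [sub_self, norm_zero, zero_pow two_ne_zero] at h4
    refine h4.congr' ?_
    filter_upwards [h3, eventually_gt_atTop 0] with n h5 h6
    rw [phn_eq G τ n h6, if_pos h5]

lemma approx_DD (hU : IsModular M ξ U) (hT : ∀ n i, IsTen (cell n i) (T n i)) (τ : ℝ)
    (h0 : 0 < τ) (h1 : τ < 1) (F : LR H) (hF : DD F) :
    Tendsto (fun n : ℕ => ‖PP T n (V U (-(n * τ)) F) - V U (-(n * τ)) F‖) atTop (𝓝 0) := by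
  obtain ⟨G, hG1, hG2, hG3⟩ := hF
  have h2 := (phn_lim G hG1 hG2 τ h0 h1).const_mul 4
  rw [mul_zero] at h2
  have h3 : Tendsto (fun n : ℕ => ‖PP T n (V U (-(n * τ)) F) - V U (-(n * τ)) F‖ ^ 2)
      atTop (𝓝 0) := by
    refine squeeze_zero' (Eventually.of_forall fun n => sq_nonneg _) ?_ h2
    filter_upwards [eventually_gt_atTop 0] with n hn
    exact approx_norm hU hT τ n hn F G hG3
  have h4 := (Real.continuous_sqrt.tendsto 0).comp h3
  rw [Real.sqrt_zero] at h4
  refine h4.congr fun n => ?_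
  simp only [Function.comp]
  rw [Real.sqrt_sq (norm_nonneg _)]

lemma approx (hU : IsModular M ξ U) (hT : ∀ n i, IsTen (cell n i) (T n i)) (τ : ℝ)
    (h0 : 0 < τ) (h1 : τ < 1) (F : LR H) :
    Tendsto (fun n : ℕ => ‖PP T n (V U (-(n * τ)) F) - V U (-(n * τ)) F‖) atTop (𝓝 0) := by
  rw [Metric.tendsto_atTop]
  intro ε hε
  obtain ⟨F', hF', hd⟩ := DD_dense F (ε / 4) (by positivity)
  have h2 := approx_DD hU hT τ h0 h1 F' hF'
  rw [Metric.tendsto_atTop] at h2
  obtain ⟨n₀, hn₀⟩ := h2 (ε / 4) (by positivity)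
  refine ⟨n₀, fun n hn => ?_⟩
  have h3 := hn₀ n hn
  rw [dist_zero_right, Real.norm_of_nonneg (norm_nonneg _)] at h3 ⊢
  have h4 : PP T n (V U (-(n * τ)) F) - V U (-(n * τ)) F =
      (PP T n (V U (-(n * τ)) F') - V U (-(n * τ)) F') +
      (PP T n (V U (-(n * τ)) (F - F')) - V U (-(n * τ)) (F - F')) := by
    simp only [map_sub]
    abel
  rw [h4]
  have h5 : ‖PP T n (V U (-(n * τ)) (F - F')) - V U (-(n * τ)) (F - F')‖ ≤ 2 * ‖F - F'‖ := by
    refine (norm_sub_le _ _).trans ?_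
    have h6 := PP_norm hT n (V U (-(n * τ)) (F - F'))
    rw [V_norm hU] at h6 ⊢
    linarith
  refine (norm_add_le _ _).trans_lt ?_
  linarith

lemma vanish (hT : ∀ n i, IsTen (cell n i) (T n i)) (n : ℕ)
    (F : LR H) (G : ℝ → H) (hF : (F : ℝ → H) =ᵐ[volume] G) (t : ℝ)
    (hv : ∀ s : ℝ, 0 ≤ s → s < n → G (s + t) = 0) : PP T n (V U t F) = 0 := by
  rcases Nat.eq_zero_or_pos n with hn | hn
  · subst hn
    rw [PP_apply]
    simp
  rw [PP_apply, Finset.sum_eq_zero, smul_zero]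
  intro i hi
  rw [ten_V (cell n i) (cell_memLp n i) (T n i) (hT n i), ten_adj (cell n i) (cell_memLp n i)
    (T n i) (hT n i), integral_eq_zero_of_ae, map_zero, map_zero]
  have hF' : (fun s => (F (s + t) : H)) =ᵐ[volume] fun s => G (s + t) :=
    (measurePreserving_add_right (volume : Measure ℝ) t).quasiMeasurePreserving.ae_eq_comp hF
  filter_upwards [R_ae t F, hF'] with s h1 h2
  rw [h1, h2, cell_conj, cell_eq n i hn, Pi.zero_apply]
  split_ifs with h3
  · rw [hv s h3.1, smul_zero]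
    rw [Finset.mem_range, ← h3.2, Nat.floor_lt (by have := h3.1; positivity)] at hi
    push_cast at hi
    have hn' : (0 : ℝ) < n := by exact_mod_cast hn
    nlinarith
  · rw [zero_smul]

lemma D_bd (hU : IsModular M ξ U) (hT : ∀ n i, IsTen (cell n i) (T n i)) (n : ℕ) (t : ℝ)
    (X : LR H →L[ℂ] LR H) (F G : LR H) :
    ‖⟪PP T n (V U t F), X (PP T n (V U t G))⟫_ℂ‖ ≤ ‖F‖ * (‖X‖ * ‖G‖) := by
  refine (norm_inner_le_norm _ _).trans ?_
  have h1 := PP_norm hT n (V U t F)
  have h2 := PP_norm hT n (V U t G)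
  rw [V_norm hU] at h1 h2
  refine mul_le_mul h1 ?_ (norm_nonneg _) (norm_nonneg _)
  exact (X.le_opNorm _).trans (mul_le_mul_of_nonneg_left h2 (norm_nonneg _))

lemma D_lim (hU : IsModular M ξ U) (hT : ∀ n i, IsTen (cell n i) (T n i))
    (X : LR H →L[ℂ] LR H) (hX : ∀ t : ℝ, X * V U t = V U t * X) (F G : LR H) (τ : ℝ)
    (h0 : 0 < τ) (h1 : τ < 1) :
    Tendsto (fun n : ℕ => ⟪PP T n (V U (-(n * τ)) F), X (PP T n (V U (-(n * τ)) G))⟫_ℂ) atTop
      (𝓝 ⟪F, X G⟫_ℂ) := by
  rw [tendsto_iff_norm_sub_tendsto_zero]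
  have h2 := ((approx hU hT τ h0 h1 F).mul_const (‖X‖ * ‖G‖)).add
    ((approx hU hT τ h0 h1 G).const_mul (‖F‖ * ‖X‖))
  rw [zero_mul, mul_zero, add_zero] at h2
  refine squeeze_zero (fun n => norm_nonneg _) (fun n => ?_) h2
  set t : ℝ := -(n * τ)
  have h3 : ⟪F, X G⟫_ℂ = ⟪V U t F, X (V U t G)⟫_ℂ := by
    have h4 : X (V U t G) = V U t (X G) := congrArg (fun Z : LR H →L[ℂ] LR H => Z G) (hX t)
    rw [h4, V_inner hU]
  have h5 : ⟪PP T n (V U t F), X (PP T n (V U t G))⟫_ℂ - ⟪F, X G⟫_ℂ =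
      ⟪PP T n (V U t F) - V U t F, X (PP T n (V U t G))⟫_ℂ +
      ⟪V U t F, X (PP T n (V U t G) - V U t G)⟫_ℂ := by
    rw [h3, inner_sub_left, map_sub, inner_sub_right]
    ring
  rw [h5]
  refine (norm_add_le _ _).trans (add_le_add ?_ ?_)
  · refine (norm_inner_le_norm _ _).trans (mul_le_mul_of_nonneg_left ?_ (norm_nonneg _))
    refine (X.le_opNorm _).trans (mul_le_mul_of_nonneg_left ?_ (norm_nonneg _))
    have h6 := PP_norm hT n (V U t G)
    rwa [V_norm hU] at h6
  · refine (norm_inner_le_norm _ _).trans ?_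
    rw [V_norm hU, mul_assoc]
    exact mul_le_mul_of_nonneg_left (X.le_opNorm _) (norm_nonneg _)

lemma int_lim (hU : IsModular M ξ U) (hT : ∀ n i, IsTen (cell n i) (T n i))
    (X : LR H →L[ℂ] LR H) (hX : ∀ t : ℝ, X * V U t = V U t * X) (F G : LR H)
    (hFG : DD F ∨ DD G) :
    Tendsto (fun n : ℕ => ∫ τ : ℝ,
      ⟪PP T n (V U (-(n * τ)) F), X (PP T n (V U (-(n * τ)) G))⟫_ℂ) atTop (𝓝 ⟪F, X G⟫_ℂ) := by
  obtain ⟨R, hR, hv⟩ : ∃ R : ℝ, 0 < R ∧ ∀ (n : ℕ) (t : ℝ), (R < t ∨ n + t < -R) →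
      ⟪PP T n (V U t F), X (PP T n (V U t G))⟫_ℂ = 0 := by
    rcases hFG with ⟨g, hg1, hg2, hg3⟩ | ⟨g, hg1, hg2, hg3⟩
    · obtain ⟨R, hR, hR'⟩ := supp_bd g hg2
      refine ⟨R, hR, fun n t ht => ?_⟩
      rw [vanish hT n F g hg3 t, inner_zero_left]
      intro s hs1 hs2
      apply hR'
      rw [lt_abs]
      rcases ht with ht | ht
      · left; linarith
      · right; linarith
    · obtain ⟨R, hR, hR'⟩ := supp_bd g hg2
      refine ⟨R, hR, fun n t ht => ?_⟩
      rw [vanish hT n G g hg3 t, map_zero, inner_zero_right]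
      intro s hs1 hs2
      apply hR'
      rw [lt_abs]
      rcases ht with ht | ht
      · left; linarith
      · right; linarith
  have hlim : ⟪F, X G⟫_ℂ = ∫ τ : ℝ, (Set.Ioo (0 : ℝ) 1).indicator (fun _ => ⟪F, X G⟫_ℂ) τ := by
    rw [integral_indicator measurableSet_Ioo]
    simp
  rw [hlim]
  refine tendsto_integral_of_dominated_convergence
    ((Set.Icc (-R) (1 + R)).indicator fun _ => ‖F‖ * (‖X‖ * ‖G‖)) ?_ ?_ ?_ ?_
  · intro n
    exact ((D_cont hU hT n X F G).comp (by fun_prop :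
      Continuous fun τ : ℝ => -((n : ℝ) * τ))).aestronglyMeasurable
  · rw [integrable_indicator_iff measurableSet_Icc]
    exact integrableOn_const (by simp)
  · intro n
    refine Eventually.of_forall fun τ => ?_
    rw [Set.indicator_apply]
    split_ifs with h
    · exact D_bd hU hT n _ X F G
    · rw [norm_le_zero_iff]
      rcases Nat.eq_zero_or_pos n with hn | hn
      · subst hn
        rw [PP_apply]
        simp
      · have hn' : (1 : ℝ) ≤ n := by exact_mod_cast hn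
        apply hv n
        rw [Set.mem_Icc, not_and_or] at h
        rcases h with h | h
        · left
          push Not at h
          nlinarith
        · right
          push Not at h
          nlinarith
  · have h01 : ∀ᵐ τ : ℝ ∂volume, τ ≠ 0 ∧ τ ≠ 1 := by
      have h0 : ∀ᵐ τ : ℝ ∂volume, τ ≠ 0 := compl_mem_ae_iff.2 (measure_singleton 0)
      have h1 : ∀ᵐ τ : ℝ ∂volume, τ ≠ 1 := compl_mem_ae_iff.2 (measure_singleton 1)
      filter_upwards [h0, h1] with τ h2 h3
      exact ⟨h2, h3⟩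
    filter_upwards [h01] with τ hτ
    rw [Set.indicator_apply]
    split_ifs with h
    · exact D_lim hU hT X hX F G τ h.1 h.2
    · apply tendsto_const_nhds.congr'
      rw [Set.mem_Ioo, not_and_or] at h
      have h2 : τ < 0 ∨ 1 < τ := by
        rcases h with h | h
        · left
          exact lt_of_le_of_ne (not_lt.1 h) hτ.1
        · right
          exact lt_of_le_of_ne (not_lt.1 h) (Ne.symm hτ.2)
      rcases h2 with h2 | h2
      · have h3 : Tendsto (fun n : ℕ => (n : ℝ) * (-τ)) atTop atTop :=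
          tendsto_natCast_atTop_atTop.atTop_mul_const (by linarith)
        filter_upwards [h3.eventually_gt_atTop R] with n hn
        exact (hv n _ (Or.inl (by linarith))).symm
      · have h3 : Tendsto (fun n : ℕ => (n : ℝ) * (τ - 1)) atTop atTop :=
          tendsto_natCast_atTop_atTop.atTop_mul_const (by linarith)
        filter_upwards [h3.eventually_gt_atTop R] with n hn
        exact (hv n _ (Or.inr (by linarith))).symm

theorem r (h : S_ops) : S_DT := by
  intro H _ _ _ N M ξ U hU hNM hmod Y hYsig hYsh X hX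
  obtain ⟨_, hsig, _, hten, _, _⟩ := h H M ξ U hU
  choose S hS using hsig
  have hten' : ∀ n i : ℕ, ∃ T : H →L[ℂ] LR H, IsTen (cell n i) T := by
    intro n i
    obtain ⟨T, hT, _⟩ := hten (cell n i) (cell_memLp n i)
    exact ⟨T, hT⟩
  choose T hT using hten'
  have hYR : ∀ t : ℝ, Y * R t = R t * Y := fun t => hYsh t (R t) (R_shift t)
  have hYS : ∀ b ∈ N, Y * S b = S b * Y := fun b hb => hYsig b hb (S b) (hS b).1
  have hXV : ∀ t : ℝ, X * V U t = V U t * X := fun t => hX.2 t (V U t) (V_dual U t)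
  have key : ∀ F G : LR H, DD F → DD G → ⟪F, X (Y G)⟫_ℂ = ⟪F, Y (X G)⟫_ℂ := by
    intro F G hF hG
    have h1 := int_lim hU hT X hXV F (Y G) (Or.inl hF)
    have h2 := int_lim hU hT X hXV (star Y F) G (Or.inr hG)
    have h3 : ∀ n : ℕ, (∫ τ : ℝ, ⟪PP T n (V U (-(n * τ)) F),
        X (PP T n (V U (-(n * τ)) (Y G)))⟫_ℂ) = ∫ τ : ℝ, ⟪PP T n (V U (-(n * τ)) (star Y F)),
        X (PP T n (V U (-(n * τ)) G))⟫_ℂ := by
      intro n
      have h4 := Measure.integral_comp_mul_left (fun t : ℝ =>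
        ⟪PP T n (V U t F), X (PP T n (V U t (Y G)))⟫_ℂ) (-(n : ℝ))
      have h5 := Measure.integral_comp_mul_left (fun t : ℝ =>
        ⟪PP T n (V U t (star Y F)), X (PP T n (V U t G))⟫_ℂ) (-(n : ℝ))
      simp only [neg_mul] at h4 h5
      rw [h4, h5, D_comm hU hT n N X hX S (fun b => (hS b).1) Y hYR hYS F G]
    have h6 := tendsto_nhds_unique (h1.congr h3) h2
    rw [h6, ContinuousLinearMap.star_eq_adjoint, ContinuousLinearMap.adjoint_inner_left]
  -- density
  have key2 : ∀ F G : LR H, DD F → ⟪F, X (Y G)⟫_ℂ = ⟪F, Y (X G)⟫_ℂ := by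
    intro F G hF
    have hd : Dense {G : LR H | DD G} := by
      rw [Metric.dense_iff]
      intro G ε hε
      obtain ⟨G', hG', hd⟩ := DD_dense G (ε / 2) (by positivity)
      refine ⟨G', ?_, hG'⟩
      rw [Metric.mem_ball, dist_comm, dist_eq_norm]
      linarith
    have hc1 : Continuous fun G : LR H => ⟪F, X (Y G)⟫_ℂ :=
      continuous_const.inner (X.continuous.comp Y.continuous)
    have hc2 : Continuous fun G : LR H => ⟪F, Y (X G)⟫_ℂ :=
      continuous_const.inner (Y.continuous.comp X.continuous)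
    exact congrFun (hc1.ext_on hd hc2 fun G hG => key F G hF hG) G
  ext1 G
  change X (Y G) = Y (X G)
  have hd : Dense {F : LR H | DD F} := by
    rw [Metric.dense_iff]
    intro F ε hε
    obtain ⟨F', hF', hd⟩ := DD_dense F (ε / 2) (by positivity)
    refine ⟨F', ?_, hF'⟩
    rw [Metric.mem_ball, dist_comm, dist_eq_norm]
    linarith
  apply ext_inner_left ℂ
  intro F
  have hc1 : Continuous fun F : LR H => ⟪F, X (Y G)⟫_ℂ := continuous_id.inner continuous_const
  have hc2 : Continuous fun F : LR H => ⟪F, Y (X G)⟫_ℂ := continuous_id.inner continuous_const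
  exact congrFun (hc1.ext_on hd hc2 fun F hF => key2 F G hF) F

end

end Pool.Agent.H255.BC.R_DT
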