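import Pool.Agent.H255.BC.Defs2

set_option autoImplicit false

open MeasureTheory Filter Topology Complex
open scoped InnerProductSpace ENNReal FourierTransform

namespace Pool.Agent.H255.BC.R_TR3

open Pool.Agent.W662.CB Pool.Agent.H255.BC

theorem ft_cont (h : ℝ → ℂ) (hh : Tst h) : Continuous (𝓕 h) := by
  have h1 : 𝓕 h = (𝓕 (hh.2.toSchwartzMap hh.1) : SchwartzMap ℝ ℂ) := by
    rw [SchwartzMap.fourier_coe]
    rfl
  rw [h1]
  exact SchwartzMap.continuous _

theorem ft_int (h : ℝ → ℂ) (hh : Tst h) : Integrable (𝓕 h) := by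
  have h1 : 𝓕 h = (𝓕 (hh.2.toSchwartzMap hh.1) : SchwartzMap ℝ ℂ) := by
    rw [SchwartzMap.fourier_coe]
    rfl
  rw [h1]
  exact SchwartzMap.integrable _

/-- Fourier inversion -/
theorem inv_ft (g : ℝ → ℂ) (hg : Tst g) (κ : ℝ) :
    ∫ s : ℝ, 𝓕 g s * cexp (I * ((2 * Real.pi * s * κ : ℝ) : ℂ)) = g κ := by
  have h1 := hg.1.continuous.fourierInv_fourier_eq
    (hg.1.continuous.integrable_of_hasCompactSupport hg.2) (ft_int g hg)
  have h2 := congrFun h1 κ
  rw [Real.fourierInv_eq'] at h2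
  rw [← h2]
  congr 1
  funext s
  rw [smul_eq_mul, mul_comm]
  congr 2
  simp only [RCLike.inner_apply, conj_trivial]
  push_cast
  ring

theorem tst_shift {h : ℝ → ℂ} (hh : Tst h) (p : ℝ) : Tst (fun κ => h (p + κ)) := by
  constructor
  · exact hh.1.comp (contDiff_const.add contDiff_id)
  · exact hh.2.comp_homeomorph (Homeomorph.addLeft p)

variable {H : Type} [NormedAddCommGroup H] [InnerProductSpace ℂ H] [CompleteSpace H]
  {M : VonNeumannAlgebra H} {ξ : H} {U : ℝ → H →L[ℂ] H} {J : H → H}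

theorem U_inner (hU : IsModular M ξ U) (t : ℝ) (v w : H) : ⟪v, U t w⟫_ℂ = ⟪U (-t) v, w⟫_ℂ := by
  rw [← hU.star_eq, ContinuousLinearMap.star_eq_adjoint, ContinuousLinearMap.adjoint_inner_left]

theorem U_add (hU : IsModular M ξ U) (s t : ℝ) (v : H) : U s (U t v) = U (s + t) v := by
  rw [hU.add]
  rfl

theorem U_norm (hU : IsModular M ξ U) (t : ℝ) (v : H) : ‖U t v‖ = ‖v‖ := by
  have h1 : ⟪U t v, U t v⟫_ℂ = ⟪v, v⟫_ℂ := by
    rw [U_inner hU, U_add hU, neg_add_cancel, hU.zero]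
    rfl
  rw [inner_self_eq_norm_sq_to_K, inner_self_eq_norm_sq_to_K] at h1
  have h2 : ‖U t v‖ ^ 2 = ‖v‖ ^ 2 := by exact_mod_cast h1
  exact (pow_left_inj₀ (norm_nonneg _) (norm_nonneg _) two_ne_zero).1 h2

theorem psi_cont (hU : IsModular M ξ U) (h : ℝ → ℂ) (hh : Tst h) (v : H) :
    Continuous fun s : ℝ => (𝓕 h s) • U (2 * Real.pi * s) v :=
  (ft_cont h hh).smul ((hU.cont v).comp (continuous_const.mul continuous_id))

theorem psi_int (hU : IsModular M ξ U) (h : ℝ → ℂ) (hh : Tst h) (v : H) :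
    Integrable fun s : ℝ => (𝓕 h s) • U (2 * Real.pi * s) v := by
  refine ((ft_int h hh).norm.mul_const ‖v‖).mono' (psi_cont hU h hh v).aestronglyMeasurable
    (Eventually.of_forall fun s => ?_)
  rw [norm_smul, U_norm hU]

theorem J_norm (hJ : IsConj M ξ U J) (v : H) : ‖J v‖ = ‖v‖ := by
  have h1 := hJ.inner v v
  rw [inner_self_eq_norm_sq_to_K, inner_self_eq_norm_sq_to_K] at h1
  have h2 : ‖J v‖ ^ 2 = ‖v‖ ^ 2 := by exact_mod_cast h1
  exact (pow_left_inj₀ (norm_nonneg _) (norm_nonneg _) two_ne_zero).1 h2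

/-- `v ↦ J y J v` -/
noncomputable def Rop (hJ : IsConj M ξ U J) (y : H →L[ℂ] H) : H →L[ℂ] H :=
  LinearMap.mkContinuous
    { toFun := fun v => J (y (J v))
      map_add' := fun v w => by rw [hJ.add, map_add, hJ.add]
      map_smul' := fun c v => by
        rw [hJ.smul, map_smul, hJ.smul, RingHom.id_apply, Complex.conj_conj] } ‖y‖
    (fun v => by
      show ‖J (y (J v))‖ ≤ ‖y‖ * ‖v‖
      rw [J_norm hJ]
      refine (y.le_opNorm _).trans (le_of_eq ?_)
      rw [J_norm hJ])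

theorem Rop_apply (hJ : IsConj M ξ U J) (y : H →L[ℂ] H) (v : H) : Rop hJ y v = J (y (J v)) := rfl

/-! ### Windows -/

theorem dual_sum {r : ℕ} (P : Fin r → H →L[ℂ] H) (hP : ∀ v : H, ∑ i, ‖P i v‖ ^ 2 = ‖v‖ ^ 2)
    (u : Fin r → H) : ‖∑ i, star (P i) (u i)‖ ^ 2 ≤ ∑ i, ‖u i‖ ^ 2 := by
  set x := ∑ i, star (P i) (u i) with hx
  set S := ∑ i, ‖u i‖ ^ 2 with hS
  have h1 : ‖x‖ ^ 2 = (∑ i, ⟪P i x, u i⟫_ℂ).re := by
    have h2 : ⟪x, x⟫_ℂ = ∑ i, ⟪P i x, u i⟫_ℂ := by
      conv_lhs => rw [hx, inner_sum]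
      refine Finset.sum_congr rfl fun i _ => ?_
      rw [ContinuousLinearMap.star_eq_adjoint, ContinuousLinearMap.adjoint_inner_right]
    rw [← h2, inner_self_eq_norm_sq_to_K]
    norm_cast
  have h2 : ‖x‖ ^ 2 ≤ ∑ i, ‖P i x‖ * ‖u i‖ := by
    rw [h1]
    refine (Complex.re_le_norm _).trans ((norm_sum_le _ _).trans (Finset.sum_le_sum fun i _ => ?_))
    exact norm_inner_le_norm _ _
  have h3 : (∑ i, ‖P i x‖ * ‖u i‖) ^ 2 ≤ ‖x‖ ^ 2 * S := by
    rw [← hP x]
    exact Finset.sum_mul_sq_le_sq_mul_sq _ _ _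
  have hS0 : 0 ≤ S := Finset.sum_nonneg fun i _ => by positivity
  have h4 : (‖x‖ ^ 2) ^ 2 ≤ ‖x‖ ^ 2 * S :=
    (pow_le_pow_left₀ (by positivity) h2 2).trans h3
  by_cases hx0 : ‖x‖ ^ 2 = 0
  · rw [hx0]
    exact hS0
  · have h5 : 0 < ‖x‖ ^ 2 := lt_of_le_of_ne (by positivity) (Ne.symm hx0)
    nlinarith

theorem resol {r : ℕ} (P : Fin r → H →L[ℂ] H) (hP : ∀ v : H, ∑ i, ‖P i v‖ ^ 2 = ‖v‖ ^ 2) (v : H) :
    ∑ i, star (P i) (P i v) = v := by
  set T : H →L[ℂ] H := ∑ i, star (P i) * P i - 1 with hT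
  have h1 : (T : H →ₗ[ℂ] H) = 0 := by
    rw [← inner_map_self_eq_zero]
    intro x
    show ⟪T x, x⟫_ℂ = 0
    rw [hT, sub_apply, inner_sub_left, sum_apply,
      sum_inner]
    have h2 : ∀ i, ⟪(star (P i) * P i) x, x⟫_ℂ = ((‖P i x‖ ^ 2 : ℝ) : ℂ) := by
      intro i
      rw [mul_apply_eq_comp, ContinuousLinearMap.star_eq_adjoint,
        ContinuousLinearMap.adjoint_inner_left, inner_self_eq_norm_sq_to_K]
      norm_cast
    rw [Finset.sum_congr rfl fun i _ => h2 i, ← Complex.ofReal_sum, hP,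
      one_apply_eq_self, inner_self_eq_norm_sq_to_K]
    push_cast
    simp
  have h2 : T v = 0 := by
    have := LinearMap.congr_fun h1 v
    exact this
  rw [hT, sub_apply, sub_eq_zero, sum_apply] at h2
  exact h2

theorem win_sum {r : ℕ} (P : Fin r → H →L[ℂ] H) (hP : ∀ v : H, ∑ i, ‖P i v‖ ^ 2 = ‖v‖ ^ 2)
    (x y : H) (a : Fin r → ℂ) :
    ‖y - ∑ i, a i • star (P i) (P i x)‖ ^ 2 ≤ ∑ i, ‖P i (y - a i • x)‖ ^ 2 := by
  have h1 : y - ∑ i, a i • star (P i) (P i x) = ∑ i, star (P i) (P i (y - a i • x)) := by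
    conv_lhs => rw [← resol P hP y]
    rw [← Finset.sum_sub_distrib]
    refine Finset.sum_congr rfl fun i _ => ?_
    rw [map_sub, map_sub, map_smul, map_smul]
  rw [h1]
  exact dual_sum P hP _

theorem win_bd {r : ℕ} (P : Fin r → H →L[ℂ] H) (hP : ∀ v : H, ∑ i, ‖P i v‖ ^ 2 = ‖v‖ ^ 2)
    (x : H) (a : Fin r → ℂ) (A : ℝ) (hA : 0 ≤ A) (ha : ∀ i, ‖a i‖ ≤ A) :
    ‖∑ i, a i • star (P i) (P i x)‖ ≤ A * ‖x‖ := by
  have h1 : ∑ i, a i • star (P i) (P i x) = ∑ i, star (P i) (a i • P i x) :=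
    Finset.sum_congr rfl fun i _ => (map_smul _ _ _).symm
  have h2 := dual_sum P hP (fun i => a i • P i x)
  rw [← h1] at h2
  have h3 : ∑ i, ‖a i • P i x‖ ^ 2 ≤ (A * ‖x‖) ^ 2 := by
    rw [mul_pow, ← hP x, Finset.mul_sum]
    refine Finset.sum_le_sum fun i _ => ?_
    rw [norm_smul, mul_pow]
    have := ha i
    gcongr
  exact (pow_le_pow_iff_left₀ (norm_nonneg _) (by positivity) two_ne_zero).1 (h2.trans h3)


/-- pointwise convergence of the window sums -/
theorem win_tendsto (x : H) (κ : ∀ k : ℕ, Fin (k + 2) → ℝ)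
    (P : ∀ k : ℕ, Fin (k + 2) → H →L[ℂ] H) (hP : ∀ (k : ℕ) (v : H), ∑ i, ‖P k i v‖ ^ 2 = ‖v‖ ^ 2)
    (Cs : ℝ → ℝ) (hC : ∀ (k : ℕ) (s : ℝ),
      ∑ i, ‖P k i (U s x - cexp (I * ((s * κ k i : ℝ) : ℂ)) • x)‖ ^ 2 ≤
        Cs s / ((k + 2 : ℕ) : ℝ) ^ 2)
    (g : ℝ → ℂ) (hg : Tst g) :
    Tendsto (fun k => ∑ i, g (κ k i) • star (P k i) (P k i x)) atTop (𝓝 (psi U g x)) := by
  have hexp : ∀ y : ℝ, ‖cexp (I * (y : ℂ))‖ = 1 := by
    intro y
    rw [mul_comm, Complex.norm_exp_ofReal_mul_I]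
  have h1 : ∀ k : ℕ, ∑ i, g (κ k i) • star (P k i) (P k i x) =
      ∫ s : ℝ, 𝓕 g s • ∑ i, cexp (I * ((2 * Real.pi * s * κ k i : ℝ) : ℂ)) •
        star (P k i) (P k i x) := by
    intro k
    have hint : ∀ y : ℝ, Integrable fun s : ℝ =>
        𝓕 g s * cexp (I * ((2 * Real.pi * s * y : ℝ) : ℂ)) := by
      intro y
      refine (ft_int g hg).norm.mono' ?_ (Eventually.of_forall fun s => ?_)
      · refine ((ft_cont g hg).mul ?_).aestronglyMeasurable
        fun_prop
      · rw [norm_mul, hexp, mul_one]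
    have h2 : ∀ s : ℝ, 𝓕 g s • ∑ i, cexp (I * ((2 * Real.pi * s * κ k i : ℝ) : ℂ)) •
        star (P k i) (P k i x) = ∑ i, (𝓕 g s * cexp (I * ((2 * Real.pi * s * κ k i : ℝ) : ℂ))) •
        star (P k i) (P k i x) := by
      intro s
      rw [Finset.smul_sum]
      exact Finset.sum_congr rfl fun i _ => smul_smul _ _ _
    simp_rw [h2]
    rw [integral_finsetSum _ fun i _ => (hint (κ k i)).smul_const _]
    refine Finset.sum_congr rfl fun i _ => ?_
    rw [integral_smul_const, inv_ft g hg]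
  simp_rw [h1]
  unfold psi
  refine tendsto_integral_of_dominated_convergence (fun s => ‖𝓕 g s‖ * ‖x‖) (fun k => ?_)
    ((ft_int g hg).norm.mul_const _) (fun k => Eventually.of_forall fun s => ?_)
    (Eventually.of_forall fun s => ?_)
  · refine ((ft_cont g hg).smul ?_).aestronglyMeasurable
    refine continuous_finsetSum _ fun i _ => ?_
    fun_prop
  · rw [norm_smul]
    refine mul_le_mul_of_nonneg_left ?_ (norm_nonneg _)
    have := win_bd (P k) (hP k) x (fun i => cexp (I * ((2 * Real.pi * s * κ k i : ℝ) : ℂ))) 1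
      zero_le_one (fun i => (hexp _).le)
    rwa [one_mul] at this
  · refine Tendsto.const_smul ?_ _
    rw [tendsto_iff_norm_sub_tendsto_zero]
    have h3 : ∀ k : ℕ, ‖(∑ i, cexp (I * ((2 * Real.pi * s * κ k i : ℝ) : ℂ)) •
        star (P k i) (P k i x)) - U (2 * Real.pi * s) x‖ ^ 2 ≤
        Cs (2 * Real.pi * s) * (1 / ((k : ℝ) + 1)) := by
      intro k
      rw [norm_sub_rev]
      refine (win_sum (P k) (hP k) x (U (2 * Real.pi * s) x) _).trans
        ((hC k (2 * Real.pi * s)).trans ?_)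
      have hCs : 0 ≤ Cs (2 * Real.pi * s) := by
        have h4 := hC k (2 * Real.pi * s)
        have h5 : (0 : ℝ) ≤ Cs (2 * Real.pi * s) / ((k + 2 : ℕ) : ℝ) ^ 2 :=
          (Finset.sum_nonneg fun i _ => by positivity).trans h4
        have h6 : (0 : ℝ) < ((k + 2 : ℕ) : ℝ) ^ 2 := by positivity
        by_contra h7
        exact absurd h5 (not_le.2 (div_neg_of_neg_of_pos (not_le.1 h7) h6))
      rw [div_eq_mul_one_div]
      refine mul_le_mul_of_nonneg_left ?_ hCs
      refine one_div_le_one_div_of_le (by positivity) ?_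
      push_cast
      nlinarith [(Nat.cast_nonneg k : (0 : ℝ) ≤ k)]
    have h4 : Tendsto (fun k : ℕ => Cs (2 * Real.pi * s) * (1 / ((k : ℝ) + 1))) atTop (𝓝 0) := by
      have := (tendsto_one_div_add_atTop_nhds_zero_nat (𝕜 := ℝ)).const_mul (Cs (2 * Real.pi * s))
      rwa [mul_zero] at this
    have h5 := squeeze_zero (fun k => by positivity) h3 h4
    have h6 := h5.sqrt
    rw [Real.sqrt_zero] at h6
    refine h6.congr fun k => ?_
    exact Real.sqrt_sq (norm_nonneg _)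

theorem exQ (h3 : S_KK) (h4 : S_Q) (h6 : S_betaQ) (h8 : S_bic) {N : VonNeumannAlgebra H}
    {E : (H →L[ℂ] H) → (H →L[ℂ] H)} {β : ℝ → (H →L[ℂ] H) → (H →L[ℂ] H)}
    (hI : Inc2 N M ξ U J E) (hβ : IsBicFlow N M ξ β) {c : H →L[ℂ] H}
    (hc : c ∈ relBicentralizer N M ξ) (t : ℝ) (ht : 0 < t) (ht1 : t < 1) :
    ∃ Q : H →L[ℂ] H, IsQop N ξ J t Q ∧ ∀ p : ℝ, Q (β (Real.exp p) c ξ) =
      ((Real.sqrt t : ℝ) : ℂ) • β (Real.exp (p + Real.log t)) c ξ := by
  obtain ⟨K, hK, hKc, -, -, -⟩ := h3 H M N ξ U J hI.le hI.modular hI.conj hI.mod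
  have hKm : ∀ v : H, v ∈ KK N ξ J ↔ v ∈ K := by
    intro v
    rw [← hK]
    rfl
  have hv : ∀ k : ℕ, ∃ v : H →L[ℂ] H, IsScal N ξ J t (1 / ((k : ℝ) + 1)) v :=
    fun k => hI.scal t _ ht ht1 (by positivity)
  choose v hv using hv
  obtain ⟨Q, hQ⟩ := h4 H M N ξ U J hI.le hI.modular hI.conj hI.mod t v ht ht1 hv
  have : CompleteSpace K := hKc.completeSpace_coe
  have hQ0 : Q 0 = 0 := by
    have h1 := (hQ 0 ((hKm 0).2 K.zero_mem)).2.1
    rw [norm_zero] at h1
    exact norm_le_zero_iff.1 h1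
  have hadd : ∀ a ∈ K, ∀ b ∈ K, Q (a + b) = Q a + Q b := by
    intro a ha b hb
    have := (hQ a ((hKm a).2 ha)).2.2.2.1 b ((hKm b).2 hb) 1
    rwa [one_smul, one_smul] at this
  have hsmul : ∀ (z : ℂ), ∀ b ∈ K, Q (z • b) = z • Q b := by
    intro z b hb
    have := (hQ 0 ((hKm 0).2 K.zero_mem)).2.2.2.1 b ((hKm b).2 hb) z
    rwa [zero_add, hQ0, zero_add] at this
  set Q' : H →L[ℂ] H := LinearMap.mkContinuous
    { toFun := fun v => Q (K.starProjection v)
      map_add' := fun v w => by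
        rw [map_add]
        exact hadd _ (K.starProjection_apply_mem v) _ (K.starProjection_apply_mem w)
      map_smul' := fun z v => by
        rw [map_smul, RingHom.id_apply]
        exact hsmul z _ (K.starProjection_apply_mem v) } 1
    (fun v => by
      show ‖Q (K.starProjection v)‖ ≤ 1 * ‖v‖
      rw [one_mul]
      exact (hQ _ ((hKm _).2 (K.starProjection_apply_mem v))).2.1.trans
        (K.norm_starProjection_apply_le v)) with hQ'
  have hQe : ∀ ζ : H, ζ ∈ KK N ξ J → Q' ζ = Q ζ := by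
    intro ζ hζ
    show Q (K.starProjection ζ) = Q ζ
    rw [Submodule.starProjection_eq_self_iff.2 ((hKm ζ).1 hζ)]
  refine ⟨Q', ⟨v, hv, fun ζ hζ => ?_⟩, fun p => ?_⟩
  · rw [hQe ζ hζ]
    exact ⟨(hQ ζ hζ).1, (hQ ζ hζ).2.1, (hQ ζ hζ).2.2.1⟩
  · have hb : β (Real.exp p) c ∈ relBicentralizer N M ξ := hβ.mem _ (Real.exp_pos p) c hc
    have hbK : β (Real.exp p) c ξ ∈ KK N ξ J := (h8 H M N ξ U J hI.le hI.unit hI.conj _ hb).2.1
    rw [hQe _ hbK]
    have h10 := (hQ _ hbK).2.2.1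
    have h11 := h6 H N M ξ U J E β hI hβ t v ht ht1 hv _ hb
    rw [tendsto_nhds_unique h10 h11, ← hβ.comp t (Real.exp p) ht (Real.exp_pos p) c hc,
      Real.exp_add, Real.exp_log ht, mul_comm]


theorem Bh_int {B : ℝ → H →L[ℂ] H} (hB : ∀ v : H, Continuous fun p => B p v) {h : ℝ → ℂ}
    (hh : Tst h) (v : H) : Integrable fun p : ℝ => h p • B p v := by
  refine Continuous.integrable_of_hasCompactSupport (hh.1.continuous.smul (hB v)) ?_
  exact hh.2.smul_right

/-- one window -/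
theorem one_win (hJ : IsConj M ξ U J) {B : ℝ → H →L[ℂ] H} (hBM : ∀ p, B p ∈ M)
    (hB : ∀ v : H, Continuous fun p => B p v) {h : ℝ → ℂ} (hh : Tst h) (l : ℝ) (z : ℂ)
    (Q : H →L[ℂ] H) (hQ : ∀ p : ℝ, Q (B p ξ) = z • B (p + l) ξ) (m : H →L[ℂ] H) (hm : m ∈ M) :
    J (star m (J (Q (∫ p : ℝ, h p • B p ξ)))) =
      ∫ p : ℝ, (h (p + -l) * z) • B p (J (star m ξ)) := by
  have h1 : J (star m (J (Q (∫ p : ℝ, h p • B p ξ)))) =
      ∫ p : ℝ, (h p * z) • B (p + l) (J (star m ξ)) := by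
    rw [← Rop_apply hJ, ← ContinuousLinearMap.comp_apply,
      ← ContinuousLinearMap.integral_comp_comm _ (Bh_int hB hh ξ)]
    congr 1
    funext p
    rw [ContinuousLinearMap.comp_apply, map_smul, map_smul, hQ, map_smul, smul_smul, Rop_apply]
    congr 1
    have h2 := hJ.comm (B (p + l)) (star m) (hBM _) (star_mem hm) ξ
    rw [hJ.fix] at h2
    exact h2.symm
  rw [h1, ← integral_add_right_eq_self
    (fun p : ℝ => (h (p + -l) * z) • B p (J (star m ξ))) l]
  congr 1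
  funext p
  rw [add_neg_cancel_right]

theorem r (h1 : S_psi) (h2 : S_psi_mul) (h3 : S_KK) (h4 : S_Q) (h5 : S_vec) (h6 : S_betaQ) (h7 : S_win2) (h8 : S_bic) (h9 : S_betan) : S_TR3 := by
  intro H _ _ _ N M ξ U J E β hI hβ c hc n hn h hh
  have hU := hI.modular
  have hJ := hI.conj
  obtain ⟨C, D, Cs, hC, hw⟩ := h7 H N M ξ U J E hI.toInc n hn
  have hw' := fun k : ℕ => hw (k + 2) (by omega)
  choose t m P hW hPU hD hCs using hw'
  obtain ⟨K, hK, hKc, -, -, -⟩ := h3 H M N ξ U J hI.le hU hJ hI.mod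
  have hKm : ∀ v : H, v ∈ KK N ξ J ↔ v ∈ K := by
    intro v
    rw [← hK]
    rfl
  have : CompleteSpace K := hKc.completeSpace_coe
  set B : ℝ → H →L[ℂ] H := fun p => β (Real.exp p) c with hBdef
  have hBm : ∀ p, B p ∈ relBicentralizer N M ξ := fun p => hβ.mem _ (Real.exp_pos p) c hc
  have hBM : ∀ p, B p ∈ M := fun p => (hBm p).1
  have hB : ∀ v : H, Continuous fun p => B p v := hβ.cont c hc
  have hBn : ∀ p, ‖B p‖ ≤ ‖c‖ := fun p => h9 H N M ξ U J E β hI.toInc hβ _ (Real.exp_pos p) c hc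
  have hBK : ∀ p, B p ξ ∈ KK N ξ J := fun p => (h8 H M N ξ U J hI.le hI.unit hI.conj _ (hBm p)).2.1
  set η : H := ∫ p : ℝ, h p • B p ξ with hη
  have hηK : η ∈ KK N ξ J := by
    rw [hKm, ← Submodule.starProjection_eq_self_iff, hη,
      ← ContinuousLinearMap.integral_comp_comm _ (Bh_int hB hh ξ)]
    congr 1
    funext p
    rw [map_smul, Submodule.starProjection_eq_self_iff.2 ((hKm _).1 (hBK p))]
  have hQ := fun (k : ℕ) (i : Fin (k + 2)) =>
    exQ h3 h4 h6 h8 hI hβ hc (t k i) ((hW k).tpos i).1 ((hW k).tpos i).2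
  choose Q hQq hQB using hQ
  -- the first limit
  have hlim1 : Tendsto (fun k => ∑ i, J (star (m k i) (J (Q k i η)))) atTop (𝓝 (n η)) := by
    rw [tendsto_iff_norm_sub_tendsto_zero, Metric.tendsto_atTop]
    intro ε hε
    obtain ⟨r₀, hr₀⟩ := h5 H N M ξ U J E hI n C η hn.1 hC hηK (ε / 2) (by positivity)
    refine ⟨r₀, fun k hk => ?_⟩
    have := hr₀ (k + 2) (by omega) (t k) (m k) (P k) (hW k) (fun i => Q k i) (hQq k)
    rw [Real.dist_eq, sub_zero, abs_of_nonneg (norm_nonneg _), norm_sub_rev]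
    exact this.trans_lt (by linarith)
  -- rewrite of the sums
  have hsum : ∀ k, ∑ i, J (star (m k i) (J (Q k i η))) =
      ∫ p : ℝ, B p (∑ i, (h (p + -Real.log (t k i)) * ((Real.sqrt (t k i) : ℝ) : ℂ)) •
        J (star (m k i) ξ)) := by
    intro k
    have h10 : ∀ i, J (star (m k i) (J (Q k i η))) =
        ∫ p : ℝ, (h (p + -Real.log (t k i)) * ((Real.sqrt (t k i) : ℝ) : ℂ)) •
          B p (J (star (m k i) ξ)) := fun i =>
      one_win hJ hBM hB hh (Real.log (t k i)) _ (Q k i) (hQB k i) (m k i)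
        (hI.le _ ((hW k).mem i))
    rw [Finset.sum_congr rfl fun i _ => h10 i, ← integral_finsetSum]
    · congr 1
      funext p
      rw [map_sum]
      exact Finset.sum_congr rfl fun i _ => (map_smul _ _ _).symm
    · intro i _
      refine Continuous.integrable_of_hasCompactSupport ?_ ?_
      · exact ((hh.1.continuous.comp (continuous_id.add continuous_const)).mul
          continuous_const).smul (hB _)
      · have h11 : HasCompactSupport fun p : ℝ => h (p + -Real.log (t k i)) :=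
          hh.2.comp_homeomorph (Homeomorph.addRight (-Real.log (t k i)))
        exact (h11.mul_right).smul_right
  -- bounds
  obtain ⟨S, hS⟩ : ∃ S : ℝ, ∀ p, ‖h p‖ ≤ S := by
    obtain ⟨S, hS⟩ := hh.2.exists_bound_of_continuous hh.1.continuous
    exact ⟨S, hS⟩
  have hS0 : 0 ≤ S := (norm_nonneg _).trans (hS 0)
  obtain ⟨A, hA⟩ : ∃ A : ℝ, ∀ p, A < |p| → h p = 0 := by
    obtain ⟨A, hA⟩ := hh.2.isCompact.isBounded.subset_closedBall (0 : ℝ)
    refine ⟨A, fun p hp => ?_⟩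
    by_contra h12
    have h13 := hA (subset_tsupport _ h12)
    rw [Metric.mem_closedBall, Real.dist_eq, sub_zero] at h13
    linarith
  have hκ : ∀ k i, 0 < -Real.log (t k i) ∧ -Real.log (t k i) ≤ D := by
    intro k i
    refine ⟨?_, hD k i⟩
    have := Real.log_neg ((hW k).tpos i).1 ((hW k).tpos i).2
    linarith
  have hsupp : ∀ k i p, p ∉ Set.Icc (-A - D) A → h (p + -Real.log (t k i)) = 0 := by
    intro k i p hp
    apply hA
    obtain ⟨ha, hb⟩ := hκ k i
    rw [Set.mem_Icc, not_and_or, not_le, not_le] at hp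
    rcases hp with hp | hp
    · rw [lt_abs]
      right
      linarith
    · rw [lt_abs]
      left
      linarith
  set W : ∀ (k : ℕ) (p : ℝ), H := fun k p =>
    ∑ i, (h (p + -Real.log (t k i)) * ((Real.sqrt (t k i) : ℝ) : ℂ)) • J (star (m k i) ξ) with hWd
  have hW0 : ∀ k p, p ∉ Set.Icc (-A - D) A → W k p = 0 := by
    intro k p hp
    rw [hWd]
    refine Finset.sum_eq_zero fun i _ => ?_
    rw [hsupp k i p hp, zero_mul, zero_smul]
  have hm1 : ∀ k p, ∑ i, h (p + -Real.log (t k i)) • (m k i) ξ =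
      ∑ i, h (p + -Real.log (t k i)) • star (P k i) (P k i (n ξ)) := fun k p =>
    Finset.sum_congr rfl fun i _ => by rw [(hW k).m1 i]
  have herr : ∀ k p, ‖W k p - ∑ i, h (p + -Real.log (t k i)) • (m k i) ξ‖ ^ 2 ≤
      S ^ 2 * C * (1 / ((k : ℝ) + 1)) := by
    intro k p
    have h20 : W k p - ∑ i, h (p + -Real.log (t k i)) • (m k i) ξ =
        -∑ i, h (p + -Real.log (t k i)) • ((m k i) ξ -
          ((Real.sqrt (t k i) : ℝ) : ℂ) • J (star (m k i) ξ)) := by
      rw [hWd, ← Finset.sum_sub_distrib, ← Finset.sum_neg_distrib]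
      refine Finset.sum_congr rfl fun i _ => ?_
      rw [smul_sub, smul_smul]
      abel
    have h21 : ‖W k p - ∑ i, h (p + -Real.log (t k i)) • (m k i) ξ‖ ≤
        ∑ i, S * ‖(m k i) ξ - ((Real.sqrt (t k i) : ℝ) : ℂ) • J (star (m k i) ξ)‖ := by
      rw [h20, norm_neg]
      refine (norm_sum_le _ _).trans (Finset.sum_le_sum fun i _ => ?_)
      rw [norm_smul]
      exact mul_le_mul_of_nonneg_right (hS _) (norm_nonneg _)
    have h22 : (∑ i, S * ‖(m k i) ξ - ((Real.sqrt (t k i) : ℝ) : ℂ) • J (star (m k i) ξ)‖) ^ 2 ≤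
        (∑ _i : Fin (k + 2), S ^ 2) *
        ∑ i, ‖(m k i) ξ - ((Real.sqrt (t k i) : ℝ) : ℂ) • J (star (m k i) ξ)‖ ^ 2 :=
      Finset.sum_mul_sq_le_sq_mul_sq _ _ _
    have h23 := (hW k).err
    rw [Finset.sum_const, Finset.card_univ, Fintype.card_fin, nsmul_eq_mul] at h22
    have h24 : (0 : ℝ) < ((k + 2 : ℕ) : ℝ) := by positivity
    calc ‖W k p - ∑ i, h (p + -Real.log (t k i)) • (m k i) ξ‖ ^ 2
        ≤ _ := pow_le_pow_left₀ (norm_nonneg _) h21 2
      _ ≤ _ := h22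
      _ ≤ ((k + 2 : ℕ) : ℝ) * S ^ 2 * (C / ((k + 2 : ℕ) : ℝ) ^ 2) :=
          mul_le_mul_of_nonneg_left h23 (by positivity)
      _ = S ^ 2 * C * (1 / ((k + 2 : ℕ) : ℝ)) := by
          field_simp
      _ ≤ S ^ 2 * C * (1 / ((k : ℝ) + 1)) := by
          refine mul_le_mul_of_nonneg_left ?_ (by positivity)
          refine one_div_le_one_div_of_le (by positivity) ?_
          push_cast
          linarith
  have hWlim : ∀ p, Tendsto (fun k => W k p) atTop (𝓝 (psi U (fun κ => h (p + κ)) (n ξ))) := by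
    intro p
    have h30 := win_tendsto (U := U) (n ξ) (fun k i => -Real.log (t k i)) P
      (fun k v => (hW k).psum v) Cs (fun k s => by
        refine le_trans (le_of_eq ?_) (hCs k s)
        refine Finset.sum_congr rfl fun i _ => ?_
        congr 5
        push_cast
        ring_nf) (fun κ => h (p + κ)) (tst_shift hh p)
    have h31 : Tendsto (fun k => W k p - ∑ i, h (p + -Real.log (t k i)) • (m k i) ξ) atTop
        (𝓝 0) := by
      rw [tendsto_zero_iff_norm_tendsto_zero]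
      have h32 : Tendsto (fun k : ℕ => S ^ 2 * C * (1 / ((k : ℝ) + 1))) atTop (𝓝 0) := by
        have := (tendsto_one_div_add_atTop_nhds_zero_nat (𝕜 := ℝ)).const_mul (S ^ 2 * C)
        rwa [mul_zero] at this
      have h33 := (squeeze_zero (fun k => by positivity) (fun k => herr k p) h32).sqrt
      rw [Real.sqrt_zero] at h33
      exact h33.congr fun k => Real.sqrt_sq (norm_nonneg _)
    have h34 := h31.add h30
    rw [zero_add] at h34
    refine h34.congr fun k => ?_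
    rw [hm1]
    simp only [sub_add_cancel]
  have hWb : ∀ k p, ‖W k p‖ ≤ S * Real.sqrt C + S * ‖n ξ‖ := by
    intro k p
    have h40 : ‖W k p‖ ≤ ‖W k p - ∑ i, h (p + -Real.log (t k i)) • (m k i) ξ‖ +
        ‖∑ i, h (p + -Real.log (t k i)) • (m k i) ξ‖ := by
      have := norm_add_le (W k p - ∑ i, h (p + -Real.log (t k i)) • (m k i) ξ)
        (∑ i, h (p + -Real.log (t k i)) • (m k i) ξ)
      rwa [sub_add_cancel] at this
    refine h40.trans (add_le_add ?_ ?_)
    · have h41 : ‖W k p - ∑ i, h (p + -Real.log (t k i)) • (m k i) ξ‖ ^ 2 ≤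
          (S * Real.sqrt C) ^ 2 := by
        refine (herr k p).trans ?_
        rw [mul_pow, Real.sq_sqrt hC]
        have h42 : (1 / ((k : ℝ) + 1)) ≤ 1 := by
          rw [div_le_one (by positivity)]
          linarith [(Nat.cast_nonneg k : (0 : ℝ) ≤ k)]
        exact mul_le_of_le_one_right (by positivity) h42
      exact (pow_le_pow_iff_left₀ (norm_nonneg _) (by positivity) two_ne_zero).1 h41
    · rw [hm1]
      exact win_bd (P k) (hW k).psum (n ξ) _ S hS0 fun i => hS _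
  -- the second limit
  have hlim2 : Tendsto (fun k => ∑ i, J (star (m k i) (J (Q k i η)))) atTop
      (𝓝 (∫ p : ℝ, B p (psi U (fun κ => h (p + κ)) (n ξ)))) := by
    simp_rw [hsum]
    refine tendsto_integral_of_dominated_convergence
      (Set.indicator (Set.Icc (-A - D) A) fun _ => ‖c‖ * (S * Real.sqrt C + S * ‖n ξ‖))
      (fun k => ?_) ?_ (fun k => Eventually.of_forall fun p => ?_)
      (Eventually.of_forall fun p => ?_)
    · refine Continuous.aestronglyMeasurable ?_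
      simp_rw [map_sum, map_smul]
      refine continuous_finsetSum _ fun i _ => ?_
      exact ((hh.1.continuous.comp (continuous_id.add continuous_const)).mul
        continuous_const).smul (hB _)
    · rw [integrable_indicator_iff measurableSet_Icc]
      exact integrableOn_const (by simp)
    · by_cases hp : p ∈ Set.Icc (-A - D) A
      · rw [Set.indicator_of_mem hp]
        refine ((B p).le_opNorm _).trans ?_
        exact mul_le_mul (hBn p) (hWb k p) (norm_nonneg _) (norm_nonneg _)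
      · rw [Set.indicator_of_notMem hp]
        have := hW0 k p hp
        rw [hWd] at this
        simp only at this
        rw [this, map_zero, norm_zero]
    · exact ((B p).continuous.tendsto _).comp (hWlim p)
  exact tendsto_nhds_unique hlim1 hlim2

end Pool.Agent.H255.BC.R_TR3

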