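import Pool.Agent.H255.BC.Defs2

set_option autoImplicit false

open MeasureTheory Filter Topology Complex
open scoped InnerProductSpace ENNReal FourierTransform

namespace Pool.Agent.H255.BC.R_betaE

open Pool.Agent.W662.CB Pool.Agent.H255.BC

section
variable {H : Type} [NormedAddCommGroup H] [InnerProductSpace ℂ H] [CompleteSpace H]
  {M N : VonNeumannAlgebra H} {ξ : H} {U : ℝ → H →L[ℂ] H} {J : H → H}
  {E : (H →L[ℂ] H) → (H →L[ℂ] H)}

lemma Jsub (hJ : IsConj M ξ U J) (v w : H) : J (v - w) = J v - J w := by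
  have h := hJ.smul (-1) w
  have h2 : v - w = v + (-1 : ℂ) • w := by simp [sub_eq_add_neg]
  rw [h2, hJ.add, h]
  simp [sub_eq_add_neg]

lemma Jnorm (hJ : IsConj M ξ U J) (v : H) : ‖J v‖ = ‖v‖ := by
  have h := hJ.inner v v
  rw [inner_self_eq_norm_sq_to_K, inner_self_eq_norm_sq_to_K] at h
  have h1 : ‖J v‖ ^ 2 = ‖v‖ ^ 2 := by exact_mod_cast h
  exact (sq_eq_sq₀ (norm_nonneg _) (norm_nonneg _)).1 h1

lemma norm_iso {v : H →L[ℂ] H} (hv : star v * v = 1) (w : H) : ‖v w‖ = ‖w‖ := by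
  have h : ⟪v w, v w⟫_ℂ = ⟪w, w⟫_ℂ := by
    rw [← ContinuousLinearMap.adjoint_inner_right, ← ContinuousLinearMap.star_eq_adjoint]
    have : (star v) (v w) = w := by
      have := congrArg (fun T : H →L[ℂ] H => T w) hv
      simpa using this
    rw [this]
  rw [inner_self_eq_norm_sq_to_K, inner_self_eq_norm_sq_to_K] at h
  have h1 : ‖v w‖ ^ 2 = ‖w‖ ^ 2 := by exact_mod_cast h
  exact (sq_eq_sq₀ (norm_nonneg _) (norm_nonneg _)).1 h1

lemma inner_star_left (x : H →L[ℂ] H) (v w : H) : ⟪star x v, w⟫_ℂ = ⟪v, x w⟫_ℂ := by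
  rw [ContinuousLinearMap.star_eq_adjoint, ContinuousLinearMap.adjoint_inner_left]

lemma inner_star_right (x : H →L[ℂ] H) (v w : H) : ⟪v, star x w⟫_ℂ = ⟪x v, w⟫_ℂ := by
  rw [ContinuousLinearMap.star_eq_adjoint, ContinuousLinearMap.adjoint_inner_right]

/-- bounded sequences in `M` which converge to `0` at `ξ` converge to `0` strongly -/
lemma strong (hJ : IsConj M ξ U J) (hcyc : IsCyclic M ξ) {y : ℕ → H →L[ℂ] H} {L : ℝ}
    (hyM : ∀ n, y n ∈ M) (hL : ∀ n, ‖y n‖ ≤ L)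
    (h0 : Tendsto (fun n => y n ξ) atTop (𝓝 0)) (v : H) :
    Tendsto (fun n => y n v) atTop (𝓝 0) := by
  rw [Metric.tendsto_atTop]
  intro ε hε
  have hL0 : 0 ≤ L := (norm_nonneg _).trans (hL 0)
  have hδ : 0 < ε / (2 * (L + 1)) := by positivity
  obtain ⟨w, hw, ⟨c, hcM, rfl⟩⟩ := Metric.dense_iff.1 hcyc (J v) _ hδ
  rw [Metric.mem_ball, dist_eq_norm] at hw
  have hcomm : ∀ n, y n (J (c ξ)) = J (c (J (y n ξ))) := by
    intro n
    have := hJ.comm (y n) c (hyM n) hcM ξ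
    rwa [hJ.fix] at this
  have hc0 : Tendsto (fun n => ‖c‖ * ‖y n ξ‖) atTop (𝓝 0) := by
    have := (h0.norm).const_mul ‖c‖
    simpa using this
  obtain ⟨n₀, hn₀⟩ := Metric.tendsto_atTop.1 hc0 (ε / 2) (by positivity)
  refine ⟨n₀, fun n hn => ?_⟩
  have h1 := hn₀ n hn
  rw [Real.dist_eq, sub_zero, abs_of_nonneg (by positivity)] at h1
  rw [dist_zero_right]
  have h2 : y n v = y n (v - J (c ξ)) + J (c (J (y n ξ))) := by
    rw [map_sub, ← hcomm]; abel
  have h3 : ‖v - J (c ξ)‖ < ε / (2 * (L + 1)) := by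
    rw [← Jnorm hJ, Jsub hJ, hJ.inv, norm_sub_rev]
    exact hw
  have h4 : ‖y n (v - J (c ξ))‖ ≤ L * (ε / (2 * (L + 1))) :=
    ((y n).le_opNorm _).trans (mul_le_mul (hL n) h3.le (norm_nonneg _) hL0)
  have h5 : L * (ε / (2 * (L + 1))) ≤ ε / 2 := by
    rw [mul_div_assoc', div_le_div_iff₀ (by positivity) (by positivity)]
    nlinarith
  have h6 : ‖J (c (J (y n ξ)))‖ ≤ ‖c‖ * ‖y n ξ‖ := by
    rw [Jnorm hJ]
    calc _ ≤ ‖c‖ * ‖J (y n ξ)‖ := c.le_opNorm _
      _ = _ := by rw [Jnorm hJ]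
  calc ‖y n v‖ ≤ ‖y n (v - J (c ξ))‖ + ‖J (c (J (y n ξ)))‖ := by
        rw [h2]; exact norm_add_le _ _
    _ < ε := by linarith

lemma E_sub (hI : Inc N M ξ U J E) {x y : H →L[ℂ] H} (hx : x ∈ M) (hy : y ∈ M) :
    E (x - y) = E x - E y := by
  have h1 : x - y = x + (-1 : ℂ) • y := by simp [sub_eq_add_neg]
  have h2 : (-1 : ℂ) • y ∈ M := by
    have : (-1 : ℂ) • y = -y := by simp
    rw [this]; exact neg_mem hy
  rw [h1, hI.exp.add _ _ hx h2, hI.exp.smul _ _ hy]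
  simp [sub_eq_add_neg]

/-- `‖E(x) ξ‖ ≤ ‖x ξ‖` -/
lemma E_norm (hI : Inc N M ξ U J E) {x : H →L[ℂ] H} (hx : x ∈ M) : ‖E x ξ‖ ≤ ‖x ξ‖ := by
  have hE : E x ∈ N := hI.exp.mem x hx
  have hEM : E x ∈ M := hI.le _ hE
  have h1 : ⟪E x ξ, x ξ⟫_ℂ = ⟪E x ξ, E x ξ⟫_ℂ := by
    have e1 : ⟪E x ξ, x ξ⟫_ℂ = vst ξ (star (E x) * x) := by
      simp only [vst, mul_apply_eq_comp]
      rw [inner_star_right]
    have e2 : ⟪E x ξ, E x ξ⟫_ℂ = vst ξ (star (E x) * E x) := by
      simp only [vst, mul_apply_eq_comp]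
      rw [inner_star_right]
    rw [e1, e2, ← hI.inv _ (mul_mem (star_mem hEM) hx), hI.exp.left _ _ (star_mem hE) hx]
  have h2 : ‖E x ξ‖ ^ 2 ≤ ‖E x ξ‖ * ‖x ξ‖ := by
    have h3 := norm_inner_le_norm (𝕜 := ℂ) (E x ξ) (x ξ)
    rw [h1, inner_self_eq_norm_sq_to_K] at h3
    simpa using h3
  rcases eq_or_ne ‖E x ξ‖ 0 with h | h
  · rw [h]; exact norm_nonneg _
  · have hpos : 0 < ‖E x ξ‖ := lt_of_le_of_ne (norm_nonneg _) (Ne.symm h)
    nlinarith

/-- the expectation maps the bicentralizer to itself -/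
lemma E_mem (hI : Inc N M ξ U J E) {b : H →L[ℂ] H} (hb : b ∈ relBicentralizer N M ξ) :
    E b ∈ relBicentralizer N M ξ := by
  have hEN : E b ∈ N := hI.exp.mem b hb.1
  have hEM : E b ∈ M := hI.le _ hEN
  refine ⟨hEM, ?_⟩
  rintro a haN ⟨C, hC⟩ hcomm
  have haM : ∀ n, a n ∈ M := fun n => hI.le _ (haN n)
  have hxM : ∀ n, a n * b - b * a n ∈ M := fun n =>
    sub_mem (mul_mem (haM n) hb.1) (mul_mem hb.1 (haM n))
  have hE : ∀ n, E (a n * b - b * a n) = a n * E b - E b * a n := by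
    intro n
    rw [E_sub hI (mul_mem (haM n) hb.1) (mul_mem hb.1 (haM n)), hI.exp.left _ _ (haN n) hb.1,
      hI.exp.right _ _ (haN n) hb.1]
  have hyM : ∀ n, a n * E b - E b * a n ∈ M := fun n =>
    sub_mem (mul_mem (haM n) hEM) (mul_mem hEM (haM n))
  have hC0 : 0 ≤ C := (norm_nonneg _).trans (hC 0)
  have hL : ∀ n, ‖a n * E b - E b * a n‖ ≤ 2 * C * ‖E b‖ := by
    intro n
    calc ‖a n * E b - E b * a n‖ ≤ ‖a n * E b‖ + ‖E b * a n‖ := norm_sub_le _ _
      _ ≤ ‖a n‖ * ‖E b‖ + ‖E b‖ * ‖a n‖ := add_le_add (norm_mul_le _ _) (norm_mul_le _ _)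
      _ ≤ C * ‖E b‖ + ‖E b‖ * C := add_le_add
          (mul_le_mul_of_nonneg_right (hC n) (norm_nonneg _))
          (mul_le_mul_of_nonneg_left (hC n) (norm_nonneg _))
      _ = _ := by ring
  have h := hb.2 a haN ⟨C, hC⟩ hcomm ξ
  have h1 : Tendsto (fun n => (a n * E b - E b * a n) ξ) atTop (𝓝 0) := by
    rw [tendsto_zero_iff_norm_tendsto_zero]
    refine squeeze_zero (fun n => norm_nonneg _) (fun n => ?_)
      (tendsto_zero_iff_norm_tendsto_zero.1 h.1)
    rw [← hE]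
    exact E_norm hI (hxM n)
  have h2 : Tendsto (fun n => star (a n * E b - E b * a n) ξ) atTop (𝓝 0) := by
    rw [tendsto_zero_iff_norm_tendsto_zero]
    refine squeeze_zero (fun n => norm_nonneg _) (fun n => ?_)
      (tendsto_zero_iff_norm_tendsto_zero.1 h.2)
    rw [← hE, ← hI.exp.star_eq _ (hxM n)]
    exact E_norm hI (star_mem (hxM n))
  intro v
  exact ⟨strong hI.conj hI.cyc hyM hL h1 v,
    strong hI.conj hI.cyc (fun n => star_mem (hyM n)) (fun n => by rw [norm_star]; exact hL n)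
      h2 v⟩

lemma mul_rel {b c : H →L[ℂ] H} (hb : b ∈ relBicentralizer N M ξ)
    (hc : c ∈ relBicentralizer N M ξ) : b * c ∈ relBicentralizer N M ξ := by
  refine ⟨mul_mem hb.1 hc.1, ?_⟩
  rintro a haN hC hcomm v
  have e1 : ∀ n, (a n * (b * c) - b * c * a n) v =
      (a n * b - b * a n) (c v) + b ((a n * c - c * a n) v) := by
    intro n
    simp [map_sub]
  have e2 : ∀ n, star (a n * (b * c) - b * c * a n) v =
      star c (star (a n * b - b * a n) v) + star (a n * c - c * a n) (star b v) := by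
    intro n
    simp only [star_sub, star_mul, mul_apply_eq_comp, ContinuousLinearMap.sub_apply, map_sub]
    abel
  constructor
  · have h1 := (hb.2 a haN hC hcomm (c v)).1
    have h2 := (b.continuous.tendsto 0).comp (hc.2 a haN hC hcomm v).1
    rw [map_zero] at h2
    have := h1.add h2
    rw [add_zero] at this
    exact this.congr fun n => (e1 n).symm
  · have h1 := ((star c).continuous.tendsto 0).comp (hb.2 a haN hC hcomm v).2
    rw [map_zero] at h1
    have h2 := (hc.2 a haN hC hcomm (star b v)).2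
    have := h1.add h2
    rw [add_zero] at this
    exact this.congr fun n => (e2 n).symm

end

theorem r (h1 : S_betaQ) (h2 : S_bic) : S_betaE := by
  intro H _ _ _ N M ξ U J E β hI hβ
  have hJ := hI.conj
  have hle := hI.le
  have hinner : ⟪ξ, ξ⟫_ℂ = 1 := by
    rw [inner_self_eq_norm_sq_to_K, hI.unit]; simp
  have hvstc : ∀ c : ℂ, vst ξ (c • (1 : H →L[ℂ] H)) = c := by
    intro c
    simp only [vst, ContinuousLinearMap.smul_apply, ContinuousLinearMap.one_apply,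
      inner_smul_right, hinner, mul_one]
  -- part 1
  have hE1 : ∀ b ∈ relBicentralizer N M ξ, E b = vst ξ b • (1 : H →L[ℂ] H) := by
    intro b hb
    obtain ⟨c, hc⟩ := hI.triv (E b) (hI.exp.mem b hb.1) (E_mem hI.toInc hb)
    have : vst ξ b = c := by rw [← hI.inv b hb.1, hc, hvstc]
    rw [this, hc]
  have hstar : ∀ b ∈ relBicentralizer N M ξ, star b ∈ relBicentralizer N M ξ := fun b hb =>
    (h2 H M N ξ U J hle hI.unit hJ b hb).1
  have hlim0 : Tendsto (fun k : ℕ => 1 / ((k : ℝ) + 1)) atTop (𝓝 0) :=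
    tendsto_one_div_add_atTop_nhds_zero_nat
  -- part 2, t < 1
  have hlt : ∀ t : ℝ, 0 < t → t < 1 → ∀ b ∈ relBicentralizer N M ξ,
      vst ξ (β t b) = vst ξ b := by
    intro t ht0 ht1 b hb
    have hex : ∀ k : ℕ, ∃ v, IsScal N ξ J t (1 / ((k : ℝ) + 1)) v := fun k =>
      hI.scal t _ ht0 ht1 (by positivity)
    choose v hv using hex
    have hvN : ∀ k, v k ∈ N := fun k => (hv k).1
    have hvM : ∀ k, v k ∈ M := fun k => hle _ (hvN k)
    have hiso : ∀ k, star (v k) * v k = 1 := fun k => (hv k).2.1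
    have hQ := h1 H N M ξ U J E β hI hβ t v ht0 ht1 hv b hb
    have hs0 : 0 < Real.sqrt t := Real.sqrt_pos.2 ht0
    have hsq : ((Real.sqrt t : ℝ) : ℂ) * ((Real.sqrt t : ℝ) : ℂ) = (t : ℂ) := by
      rw [← Complex.ofReal_mul, Real.mul_self_sqrt ht0.le]
    -- the error vectors
    set e : ℕ → H := fun k => J (star (v k) ξ) - ((Real.sqrt t : ℝ) : ℂ) • v k ξ with he
    have he0 : Tendsto e atTop (𝓝 0) := by
      rw [tendsto_zero_iff_norm_tendsto_zero]
      exact squeeze_zero (fun k => norm_nonneg _) (fun k => (hv k).2.2) hlim0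
    have hen : Tendsto (fun k => ‖e k‖) atTop (𝓝 0) := by simpa using he0.norm
    -- inner product with `√t ξ`
    have hA : Tendsto (fun k => ((Real.sqrt t : ℝ) : ℂ) *
        ⟪ξ, star (v k) (J (star (v k) (J (b ξ))))⟫_ℂ) atTop
        (𝓝 (((Real.sqrt t : ℝ) : ℂ) * ⟪ξ, ((Real.sqrt t : ℝ) : ℂ) • β t b ξ⟫_ℂ)) :=
      ((tendsto_const_nhds (x := ξ)).inner hQ).const_mul _
    have hB : ∀ k, ((Real.sqrt t : ℝ) : ℂ) * ⟪ξ, star (v k) (J (star (v k) (J (b ξ))))⟫_ℂ =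
        vst ξ b * ((‖star (v k) ξ‖ ^ 2 : ℝ) : ℂ) - ⟪v k (J (e k)), b ξ⟫_ℂ := by
      intro k
      set w := v k with hw
      have hwM := hvM k
      have a1 : ⟪ξ, star w (J (star w (J (b ξ))))⟫_ℂ = ⟪w ξ, J (star w (J (b ξ)))⟫_ℂ :=
        inner_star_right _ _ _
      have a2 : ⟪w ξ, J (star w (J (b ξ)))⟫_ℂ = ⟪star w (J (b ξ)), J (w ξ)⟫_ℂ := by
        have := hJ.inner (J (w ξ)) (star w (J (b ξ)))
        rwa [hJ.inv] at this
      have a3 : ⟪star w (J (b ξ)), J (w ξ)⟫_ℂ = ⟪J (b ξ), w (J (w ξ))⟫_ℂ :=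
        inner_star_left _ _ _
      have a4 : ⟪J (b ξ), w (J (w ξ))⟫_ℂ = ⟪J (w (J (w ξ))), b ξ⟫_ℂ := by
        have := hJ.inner (b ξ) (J (w (J (w ξ))))
        rwa [hJ.inv] at this
      have a5 : J (w (J (w ξ))) = w (J (w ξ)) := by
        have := hJ.comm w w hwM hwM ξ
        rw [hJ.fix] at this
        exact this.symm
      have a6 : ((Real.sqrt t : ℝ) : ℂ) • J (w ξ) = star w ξ - J (e k) := by
        have : J (e k) = star w ξ - ((Real.sqrt t : ℝ) : ℂ) • J (w ξ) := by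
          simp only [he]
          rw [Jsub hJ, hJ.inv, hJ.smul, Complex.conj_ofReal]
        rw [this]; abel
      have a7 : ((Real.sqrt t : ℝ) : ℂ) * ⟪w (J (w ξ)), b ξ⟫_ℂ =
          ⟪w (star w ξ), b ξ⟫_ℂ - ⟪w (J (e k)), b ξ⟫_ℂ := by
        rw [← inner_sub_left, ← map_sub, ← a6, map_smul, inner_smul_left, Complex.conj_ofReal]
      have a8 : ⟪w (star w ξ), b ξ⟫_ℂ = vst ξ (w * star w * b) := by
        simp only [vst, mul_apply_eq_comp]
        rw [← inner_star_right, ← inner_star_right, star_star]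
      have hwwN : w * star w ∈ N := mul_mem (hvN k) (star_mem (hvN k))
      have a9 : vst ξ (w * star w * b) = vst ξ b * ((‖star w ξ‖ ^ 2 : ℝ) : ℂ) := by
        rw [← hI.inv _ (mul_mem (hle _ hwwN) hb.1), hI.exp.left _ _ hwwN hb.1, hE1 b hb]
        have : w * star w * vst ξ b • (1 : H →L[ℂ] H) = vst ξ b • (w * star w) := by
          rw [mul_smul_comm, mul_one]
        rw [this]
        have h3 : vst ξ (vst ξ b • (w * star w)) = vst ξ b * ⟪ξ, w (star w ξ)⟫_ℂ := by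
          simp only [vst, ContinuousLinearMap.smul_apply, mul_apply_eq_comp, inner_smul_right]
        rw [h3, ← inner_star_left, inner_self_eq_norm_sq_to_K]
        simp
      rw [a1, a2, a3, a4, a5, a7, a8, a9]
    -- limits
    have hn : Tendsto (fun k => ‖star (v k) ξ‖) atTop (𝓝 (Real.sqrt t)) := by
      have hb1 : ∀ k, |‖star (v k) ξ‖ - Real.sqrt t| ≤ ‖e k‖ := by
        intro k
        have c1 : ‖star (v k) ξ‖ = ‖J (star (v k) ξ)‖ := (Jnorm hJ _).symm
        have c2 : Real.sqrt t = ‖((Real.sqrt t : ℝ) : ℂ) • v k ξ‖ := by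
          rw [norm_smul, norm_iso (hiso k), hI.unit, mul_one, Complex.norm_real,
            Real.norm_of_nonneg hs0.le]
        rw [c1]
        nth_rewrite 1 [c2]
        exact abs_norm_sub_norm_le _ _
      rw [tendsto_iff_norm_sub_tendsto_zero]
      exact squeeze_zero (fun k => norm_nonneg _) (fun k => by
        rw [Real.norm_eq_abs]; exact hb1 k) hen
    have hn2 : Tendsto (fun k => vst ξ b * ((‖star (v k) ξ‖ ^ 2 : ℝ) : ℂ)) atTop
        (𝓝 (vst ξ b * (t : ℂ))) := by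
      have h3 : Tendsto (fun k => ‖star (v k) ξ‖ ^ 2) atTop (𝓝 t) := by
        have := hn.pow 2
        rwa [Real.sq_sqrt ht0.le] at this
      exact ((Complex.continuous_ofReal.tendsto t).comp h3).const_mul _
    have hr : Tendsto (fun k => ⟪v k (J (e k)), b ξ⟫_ℂ) atTop (𝓝 0) := by
      rw [tendsto_zero_iff_norm_tendsto_zero]
      refine squeeze_zero (fun k => norm_nonneg _) (fun k => ?_)
        (by simpa using hen.mul_const ‖b ξ‖)
      calc ‖⟪v k (J (e k)), b ξ⟫_ℂ‖ ≤ ‖v k (J (e k))‖ * ‖b ξ‖ := norm_inner_le_norm _ _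
        _ = ‖e k‖ * ‖b ξ‖ := by rw [norm_iso (hiso k), Jnorm hJ]
    have hB' := (hn2.sub hr).congr fun k => (hB k).symm
    rw [sub_zero] at hB'
    have hfin := tendsto_nhds_unique hA hB'
    rw [inner_smul_right, ← mul_assoc, hsq, mul_comm (vst ξ b)] at hfin
    exact mul_left_cancel₀ (by exact_mod_cast ht0.ne') hfin
  -- part 2
  have hall : ∀ lam : ℝ, 0 < lam → ∀ b ∈ relBicentralizer N M ξ,
      vst ξ (β lam b) = vst ξ b := by
    intro lam hlam b hb
    rcases lt_trichotomy lam 1 with h | h | h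
    · exact hlt lam hlam h b hb
    · rw [h, hβ.one b hb]
    · have h3 := hlt lam⁻¹ (inv_pos.2 hlam) (inv_lt_one_of_one_lt₀ h) (β lam b)
        (hβ.mem lam hlam b hb)
      rw [← hβ.comp lam⁻¹ lam (inv_pos.2 hlam) hlam b hb, inv_mul_cancel₀ hlam.ne',
        hβ.one b hb] at h3
      exact h3.symm
  refine ⟨hE1, fun lam hlam b hb => ⟨hall lam hlam b hb, fun c hc => ?_⟩⟩
  have hbc : star b * c ∈ relBicentralizer N M ξ := mul_rel (hstar b hb) hc
  have h3 := hall lam hlam _ hbc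
  rw [hβ.mul lam hlam _ (hstar b hb) c hc, hβ.star_eq lam hlam b hb] at h3
  have h4 : ∀ x y : H →L[ℂ] H, vst ξ (star x * y) = ⟪x ξ, y ξ⟫_ℂ := by
    intro x y
    simp only [vst, mul_apply_eq_comp]
    rw [inner_star_right]
  rw [h4, h4] at h3
  exact h3

end Pool.Agent.H255.BC.R_betaE
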