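import Pool.Agent.H255.BC.Defs2

set_option autoImplicit false

open MeasureTheory Filter Topology Complex
open scoped InnerProductSpace ENNReal FourierTransform

namespace Pool.Agent.H255.BC.R_betaQ

open Pool.Agent.W662.CB Pool.Agent.H255.BC

section
variable {H : Type} [NormedAddCommGroup H] [InnerProductSpace ℂ H] [CompleteSpace H]
  {M N : VonNeumannAlgebra H} {ξ : H} {U : ℝ → H →L[ℂ] H} {J : H → H}

lemma Jsub (hJ : IsConj M ξ U J) (v w : H) : J (v - w) = J v - J w := by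
  have h := hJ.smul (-1) w
  have h2 : v - w = v + (-1 : ℂ) • w := by simp [sub_eq_add_neg]
  rw [h2, hJ.add, h]
  simp [sub_eq_add_neg]

lemma Jnorm (hJ : IsConj M ξ U J) (v : H) : ‖J v‖ = ‖v‖ := by
  have h := hJ.inner v v
  rw [inner_self_eq_norm_sq_to_K, inner_self_eq_norm_sq_to_K] at h
  have h1 : ‖J v‖ ^ 2 = ‖v‖ ^ 2 := by exact_mod_cast h
  exact (sq_eq_sq₀ (norm_nonneg _) (norm_nonneg _)).1 h1

lemma norm_iso {v : H →L[ℂ] H} (hv : star v * v = 1) (w : H) : ‖v w‖ = ‖w‖ := by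
  have h : ⟪v w, v w⟫_ℂ = ⟪w, w⟫_ℂ := by
    rw [← ContinuousLinearMap.adjoint_inner_right, ← ContinuousLinearMap.star_eq_adjoint]
    have : (star v) (v w) = w := by
      have := congrArg (fun T : H →L[ℂ] H => T w) hv
      simpa using this
    rw [this]
  rw [inner_self_eq_norm_sq_to_K, inner_self_eq_norm_sq_to_K] at h
  have h1 : ‖v w‖ ^ 2 = ‖w‖ ^ 2 := by exact_mod_cast h
  exact (sq_eq_sq₀ (norm_nonneg _) (norm_nonneg _)).1 h1

lemma norm_le_one {v : H →L[ℂ] H} (hv : star v * v = 1) : ‖v‖ ≤ 1 :=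
  ContinuousLinearMap.opNorm_le_bound _ zero_le_one fun w => by rw [norm_iso hv, one_mul]

lemma norm_star_le_one {v : H →L[ℂ] H} (hv : star v * v = 1) : ‖star v‖ ≤ 1 := by
  rw [norm_star]; exact norm_le_one hv

/-- the twisted commutation norm of an isometry of scale `t` -/
lemma tw_le (hJ : IsConj M ξ U J) (hle : ∀ x : H →L[ℂ] H, x ∈ N → x ∈ M) (hξ : ‖ξ‖ = 1)
    {t ε : ℝ} (ht0 : 0 < t) (ht1 : t < 1) {v : H →L[ℂ] H} (hε : 0 ≤ ε)
    (hv : IsScal N ξ J t ε v) : twNorm M ξ t (star v) ≤ 2 * ε := by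
  obtain ⟨hvN, hiso, herr⟩ := hv
  have hvM := hle v hvN
  have hs0 : 0 ≤ Real.sqrt t := Real.sqrt_nonneg t
  have hs1 : Real.sqrt t ≤ 1 := Real.sqrt_le_one.2 ht1.le
  refine Real.sSup_le ?_ (by positivity)
  rintro r ⟨x, hxM, hx1, rfl⟩
  -- error vectors
  set e : H := J (star v ξ) - ((Real.sqrt t : ℝ) : ℂ) • v ξ with he
  have hstar : star v ξ = J e + ((Real.sqrt t : ℝ) : ℂ) • J (v ξ) := by
    rw [he, Jsub hJ, hJ.inv, hJ.smul, Complex.conj_ofReal]
    abel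
  have hJv : J (star v ξ) = e + ((Real.sqrt t : ℝ) : ℂ) • v ξ := by rw [he]; abel
  have h1 : vst ξ (x * star v) = ⟪ξ, x (J e)⟫_ℂ
      + ((Real.sqrt t : ℝ) : ℂ) * ⟪ξ, x (J (v ξ))⟫_ℂ := by
    simp only [vst, mul_apply_eq_comp]
    rw [hstar, map_add, map_smul, inner_add_right, inner_smul_right]
  have h2 : ⟪ξ, x (J (v ξ))⟫_ℂ = ⟪J (star v ξ), x ξ⟫_ℂ := by
    have hc := hJ.comm x v hxM hvM ξ
    rw [hJ.fix] at hc
    rw [hc]
    have := hJ.inner ξ (v (J (x ξ)))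
    rw [hJ.fix] at this
    rw [this, ← ContinuousLinearMap.adjoint_inner_right, ← ContinuousLinearMap.star_eq_adjoint]
    have h5 := hJ.inner (x ξ) (J (star v ξ))
    rw [hJ.inv] at h5
    exact h5
  have h3 : vst ξ (star v * x) = ⟪v ξ, x ξ⟫_ℂ := by
    simp only [vst, mul_apply_eq_comp]
    rw [ContinuousLinearMap.star_eq_adjoint, ContinuousLinearMap.adjoint_inner_right]
  have hsq : ((Real.sqrt t : ℝ) : ℂ) * ((Real.sqrt t : ℝ) : ℂ) = (t : ℂ) := by
    rw [← Complex.ofReal_mul, Real.mul_self_sqrt ht0.le]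
  have h4 : vst ξ (x * star v) - (t : ℂ) * vst ξ (star v * x)
      = ⟪ξ, x (J e)⟫_ℂ + ((Real.sqrt t : ℝ) : ℂ) * ⟪e, x ξ⟫_ℂ := by
    rw [h1, h2, h3, hJv, inner_add_left, inner_smul_left, Complex.conj_ofReal, ← hsq]
    ring
  rw [h4]
  have hxn : ∀ w : H, ‖x w‖ ≤ ‖w‖ := fun w =>
    (x.le_opNorm w).trans (by nlinarith [norm_nonneg w])
  have b1 : ‖⟪ξ, x (J e)⟫_ℂ‖ ≤ ε := by
    calc ‖⟪ξ, x (J e)⟫_ℂ‖ ≤ ‖ξ‖ * ‖x (J e)‖ := norm_inner_le_norm _ _
      _ ≤ 1 * ‖J e‖ := by rw [hξ]; exact mul_le_mul_of_nonneg_left (hxn _) zero_le_one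
      _ = ‖e‖ := by rw [one_mul, Jnorm hJ]
      _ ≤ ε := herr
  have b2 : ‖((Real.sqrt t : ℝ) : ℂ) * ⟪e, x ξ⟫_ℂ‖ ≤ ε := by
    rw [norm_mul, Complex.norm_real, Real.norm_of_nonneg hs0]
    have : ‖⟪e, x ξ⟫_ℂ‖ ≤ ε := by
      calc ‖⟪e, x ξ⟫_ℂ‖ ≤ ‖e‖ * ‖x ξ‖ := norm_inner_le_norm _ _
        _ ≤ ‖e‖ * ‖ξ‖ := mul_le_mul_of_nonneg_left (hxn _) (norm_nonneg _)
        _ = ‖e‖ := by rw [hξ, mul_one]
        _ ≤ ε := herr
    nlinarith [norm_nonneg (⟪e, x ξ⟫_ℂ)]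
  calc _ ≤ _ := norm_add_le _ _
    _ ≤ ε + ε := add_le_add b1 b2
    _ = 2 * ε := by ring

lemma tw_nonneg (t : ℝ) (a : H →L[ℂ] H) : 0 ≤ twNorm M ξ t a := by
  refine Real.sSup_nonneg ?_
  rintro r ⟨x, -, -, rfl⟩
  exact norm_nonneg _

end

theorem r : S_betaQ := by
  intro H _ _ _ N M ξ U J E β hI hβ t v ht0 ht1 hv b hb
  have hJ := hI.conj
  have hle := hI.le
  have hvN : ∀ k, v k ∈ N := fun k => (hv k).1
  have hvM : ∀ k, v k ∈ M := fun k => hle _ (hvN k)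
  have hsM : ∀ k, star (v k) ∈ M := fun k => star_mem (hvM k)
  have hiso : ∀ k, star (v k) * v k = 1 := fun k => (hv k).2.1
  have hbM : b ∈ M := hb.1
  have hβM : β t b ∈ M := (hβ.mem t ht0 b hb).1
  have hlim0 : Tendsto (fun k : ℕ => 1 / ((k : ℝ) + 1)) atTop (𝓝 0) :=
    tendsto_one_div_add_atTop_nhds_zero_nat
  -- step 1
  have htw : Tendsto (fun k => twNorm M ξ t (star (v k))) atTop (𝓝 0) := by
    refine squeeze_zero (fun k => tw_nonneg t _)
      (fun k => tw_le hJ hle hI.unit ht0 ht1 (by positivity) (hv k)) ?_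
    simpa using hlim0.const_mul 2
  -- step 2
  have hl := (hβ.lim (fun k => star (v k)) (fun k => star_mem (hvN k))
    ⟨1, fun k => norm_star_le_one (hiso k)⟩ t ht0 htw b hb ξ).1
  -- step 3
  have key : ∀ k, ‖star (v k) (J (star (v k) (J (b ξ)))) - ((Real.sqrt t : ℝ) : ℂ) • β t b ξ‖ ≤
      ‖(star (v k) * b - β t b * star (v k)) ξ‖ + ‖β t b‖ * (1 / ((k : ℝ) + 1)) := by
    intro k
    set w := v k with hw
    set e : H := J (star w ξ) - ((Real.sqrt t : ℝ) : ℂ) • w ξ with he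
    have hJv : J (star w ξ) = e + ((Real.sqrt t : ℝ) : ℂ) • w ξ := by rw [he]; abel
    have herr : ‖e‖ ≤ 1 / ((k : ℝ) + 1) := (hv k).2.2
    have h1 : star w (J (star w (J (b ξ)))) = J (star w (J (star w (b ξ)))) :=
      hJ.comm (star w) (star w) (hsM k) (hsM k) (b ξ)
    have h2 : star w (b ξ) = (star w * b - β t b * star w) ξ + β t b (star w ξ) := by
      simp
    have hRadd : ∀ x y : H, J (star w (J (x + y))) = J (star w (J x)) + J (star w (J y)) := by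
      intro x y
      rw [hJ.add, map_add, hJ.add]
    have h3 : J (star w (J (β t b (star w ξ)))) = β t b (J (star w (J (star w ξ)))) :=
      (hJ.comm (β t b) (star w) hβM (hsM k) (star w ξ)).symm
    have h4 : J (star w (J (star w ξ))) = star w (J (star w ξ)) := by
      have := hJ.comm (star w) (star w) (hsM k) (hsM k) ξ
      rw [hJ.fix] at this
      exact this.symm
    have h5 : star w (J (star w ξ)) = star w e + ((Real.sqrt t : ℝ) : ℂ) • ξ := by
      rw [hJv, map_add, map_smul]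
      congr 2
      have := congrArg (fun T : H →L[ℂ] H => T ξ) (hiso k)
      simpa using this
    have h6 : star w (J (star w (J (b ξ)))) - ((Real.sqrt t : ℝ) : ℂ) • β t b ξ =
        J (star w (J ((star w * b - β t b * star w) ξ))) + β t b (star w e) := by
      rw [h1, h2, hRadd, h3, h4, h5, map_add, map_smul]
      abel
    rw [h6]
    refine (norm_add_le _ _).trans (add_le_add ?_ ?_)
    · rw [Jnorm hJ]
      calc _ ≤ ‖star w‖ * ‖J ((star w * b - β t b * star w) ξ)‖ := (star w).le_opNorm _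
        _ ≤ 1 * ‖J ((star w * b - β t b * star w) ξ)‖ :=
          mul_le_mul_of_nonneg_right (norm_star_le_one (hiso k)) (norm_nonneg _)
        _ = _ := by rw [one_mul, Jnorm hJ]
    · calc ‖β t b (star w e)‖ ≤ ‖β t b‖ * ‖star w e‖ := (β t b).le_opNorm _
        _ ≤ ‖β t b‖ * (1 / ((k : ℝ) + 1)) := by
          refine mul_le_mul_of_nonneg_left ?_ (norm_nonneg _)
          calc ‖star w e‖ ≤ ‖star w‖ * ‖e‖ := (star w).le_opNorm _
            _ ≤ 1 * ‖e‖ := mul_le_mul_of_nonneg_right (norm_star_le_one (hiso k)) (norm_nonneg _)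
            _ ≤ _ := by rw [one_mul]; exact herr
  rw [tendsto_iff_norm_sub_tendsto_zero]
  refine squeeze_zero (fun k => norm_nonneg _) key ?_
  have := (hl.norm).add (hlim0.const_mul ‖β t b‖)
  simpa using this

end Pool.Agent.H255.BC.R_betaQ
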