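import Pool.Agent.H255.BC.Defs2

set_option autoImplicit false

open MeasureTheory Filter Topology Complex
open scoped InnerProductSpace ENNReal FourierTransform

namespace Pool.Agent.H255.BC.R_betan

open Pool.Agent.W662.CB Pool.Agent.H255.BC

theorem closed_vn {H : Type} [NormedAddCommGroup H] [InnerProductSpace ℂ H] [CompleteSpace H]
    (B : VonNeumannAlgebra H) : IsClosed (B : Set (H →L[ℂ] H)) := by
  have h := B.centralizer_centralizer
  rw [← h]
  exact Set.isClosed_centralizer _

theorem r (h1 : S_Bvn) : S_betan := by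
  intro H _ _ _ N M ξ U J E β hInc hβ lam hlam b hb
  obtain ⟨B, hB⟩ := h1 H N M ξ U J E hInc
  let S : StarSubalgebra ℂ (H →L[ℂ] H) := B.toStarSubalgebra
  have hS : ∀ x : H →L[ℂ] H, x ∈ S ↔ x ∈ relBicentralizer N M ξ := hB
  have hcl : IsClosed (S : Set (H →L[ℂ] H)) := closed_vn B
  let f : S →⋆ₙₐ[ℂ] (H →L[ℂ] H) :=
    { toFun := fun x => β lam x
      map_smul' := fun c x => hβ.smul lam hlam c x ((hS _).1 x.2)
      map_zero' := by
        have h := hβ.smul lam hlam 0 (0 : H →L[ℂ] H) ((hS _).1 (zero_mem S))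
        rw [zero_smul, zero_smul] at h
        exact h
      map_add' := fun x y => hβ.add lam hlam x ((hS _).1 x.2) y ((hS _).1 y.2)
      map_mul' := fun x y => hβ.mul lam hlam x ((hS _).1 x.2) y ((hS _).1 y.2)
      map_star' := fun x => hβ.star_eq lam hlam x ((hS _).1 x.2) }
  have key := NonUnitalStarAlgHom.norm_apply_le f ⟨b, (hS b).2 hb⟩
  exact key

end Pool.Agent.H255.BC.R_betan
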