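import Pool.Agent.H255.BC.Defs2

set_option autoImplicit false

open MeasureTheory Filter Topology Complex
open scoped InnerProductSpace ENNReal FourierTransform

namespace Pool.Agent.H255.BC.R_ext

open Pool.Agent.W662.CB Pool.Agent.H255.BC

noncomputable section

variable {H : Type} [NormedAddCommGroup H] [InnerProductSpace ℂ H] [CompleteSpace H]
variable {M : VonNeumannAlgebra H} {ξ : H} {U : ℝ → H →L[ℂ] H} {J : H → H}

lemma J_norm (hJ : IsConj M ξ U J) (v : H) : ‖J v‖ = ‖v‖ := by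
  have h1 := hJ.inner v v
  have h2 : ‖J v‖ ^ 2 = ‖v‖ ^ 2 := by
    have := congrArg Complex.re h1
    rw [inner_self_eq_norm_sq_to_K, inner_self_eq_norm_sq_to_K] at this
    norm_cast at this
  exact (pow_left_inj₀ (norm_nonneg _) (norm_nonneg _) (by norm_num)).1 h2

lemma J_neg (hJ : IsConj M ξ U J) (v : H) : J (-v) = - J v := by
  have := hJ.smul (-1) v
  simpa using this

lemma J_sub (hJ : IsConj M ξ U J) (v w : H) : J (v - w) = J v - J w := by
  rw [sub_eq_add_neg, hJ.add, J_neg hJ, ← sub_eq_add_neg]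

lemma J_cont (hJ : IsConj M ξ U J) : Continuous J := by
  have : Isometry J := by
    refine Isometry.of_dist_eq fun x y => ?_
    rw [dist_eq_norm, dist_eq_norm, ← J_sub hJ, J_norm hJ]
  exact this.continuous

/-- right multiplication `v ↦ v a = J a^* J v` -/
def Rr (hJ : IsConj M ξ U J) (a : H →L[ℂ] H) : H →L[ℂ] H :=
  LinearMap.mkContinuous
    { toFun := fun v => J (star a (J v))
      map_add' := fun v w => by rw [hJ.add, map_add, hJ.add]
      map_smul' := fun c v => by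
        rw [hJ.smul, map_smul, hJ.smul, RingHom.id_apply, Complex.conj_conj] } ‖a‖
    (fun v => by
      show ‖J (star a (J v))‖ ≤ ‖a‖ * ‖v‖
      rw [J_norm hJ]
      refine (ContinuousLinearMap.le_opNorm _ _).trans ?_
      rw [norm_star, J_norm hJ])

lemma Rr_apply (hJ : IsConj M ξ U J) (a : H →L[ℂ] H) (v : H) :
    Rr hJ a v = J (star a (J v)) := rfl

lemma Rr_comm (hJ : IsConj M ξ U J) {a : H →L[ℂ] H} (ha : a ∈ M) :
    Rr hJ a ∈ M.commutant := by
  rw [VonNeumannAlgebra.mem_commutant_iff]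
  intro g hg
  ext v
  show g (Rr hJ a v) = Rr hJ a (g v)
  rw [Rr_apply, Rr_apply]
  exact hJ.comm g (star a) hg (star_mem ha) v

lemma Rr_isom (hJ : IsConj M ξ U J) {v : H →L[ℂ] H} (hv : star v * v = 1) (w : H) :
    ‖Rr hJ (star v) w‖ = ‖w‖ := by
  rw [Rr_apply, star_star, J_norm hJ, ← J_norm hJ w]
  have h : ⟪v (J w), v (J w)⟫_ℂ = ⟪J w, J w⟫_ℂ := by
    rw [← ContinuousLinearMap.adjoint_inner_right, ← ContinuousLinearMap.star_eq_adjoint,
      ← mul_apply_eq_comp, hv, one_apply_eq_self]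
  rw [inner_self_eq_norm_sq_to_K, inner_self_eq_norm_sq_to_K] at h
  norm_cast at h
  exact (pow_left_inj₀ (norm_nonneg _) (norm_nonneg _) (by norm_num)).1 h

lemma U_norm (hU : IsModular M ξ U) (t : ℝ) (v : H) : ‖U t v‖ = ‖v‖ := by
  have h : ⟪U t v, U t v⟫_ℂ = ⟪v, v⟫_ℂ := by
    rw [← ContinuousLinearMap.adjoint_inner_right, ← ContinuousLinearMap.star_eq_adjoint,
      ← mul_apply_eq_comp, hU.star_eq, ← hU.add, neg_add_cancel, hU.zero,
      one_apply_eq_self]
  rw [inner_self_eq_norm_sq_to_K, inner_self_eq_norm_sq_to_K] at h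
  norm_cast at h
  exact (pow_left_inj₀ (norm_nonneg _) (norm_nonneg _) (by norm_num)).1 h

lemma sgm_xi (hU : IsModular M ξ U) (x : H →L[ℂ] H) (s : ℝ) : sgm U s x ξ = U s (x ξ) := by
  unfold sgm
  rw [mul_apply_eq_comp, mul_apply_eq_comp, hU.star_eq, hU.fix]

/-! ### operators on `L²` -/

lemma sig_uniq {x : H →L[ℂ] H} {S S' : LR H →L[ℂ] LR H} (h : IsSig U x S) (h' : IsSig U x S') :
    S = S' := by
  ext1 f
  exact Lp.ext ((h f).trans (h' f).symm)

lemma sig_mul (hU : IsModular M ξ U) {x y : H →L[ℂ] H} {S S' : LR H →L[ℂ] LR H}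
    (h : IsSig U x S) (h' : IsSig U y S') : IsSig U (x * y) (S * S') := by
  intro f
  have h1 := h (S' f)
  have h2 := h' f
  filter_upwards [h1, h2] with s hs1 hs2
  rw [mul_apply_eq_comp, hs1, hs2]
  unfold sgm
  simp only [mul_apply_eq_comp]
  congr 2
  have h3 : star (U (-s)) (U (-s) (y (star (U (-s)) (f s)))) = y (star (U (-s)) (f s)) := by
    rw [← mul_apply_eq_comp, hU.star_eq, ← hU.add, neg_neg, add_neg_cancel, hU.zero,
      one_apply_eq_self]
  rw [h3]

lemma sig_sub {x y : H →L[ℂ] H} {S S' : LR H →L[ℂ] LR H}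
    (h : IsSig U x S) (h' : IsSig U y S') : IsSig U (x - y) (S - S') := by
  intro f
  have h1 := h f
  have h2 := h' f
  have h3 := Lp.coeFn_sub (S f) (S' f)
  filter_upwards [h1, h2, h3] with s hs1 hs2 hs3
  rw [sub_apply, hs3, Pi.sub_apply, hs1, hs2]
  unfold sgm
  simp only [mul_apply_eq_comp, sub_apply, map_sub]

lemma sig_const (hU : IsModular M ξ U) {x y : H →L[ℂ] H} {S S' : LR H →L[ℂ] LR H}
    (hx : x ∈ M) (hy : y ∈ M.commutant)
    (h : IsSig U x S) (h' : IsConst y S') : S * S' = S' * S := by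
  ext1 f
  refine Lp.ext ?_
  have h1 := h (S' f)
  have h2 := h' f
  have h3 := h' (S f)
  have h4 := h f
  filter_upwards [h1, h2, h3, h4] with s hs1 hs2 hs3 hs4
  rw [mul_apply_eq_comp, mul_apply_eq_comp, hs1, hs2, hs3, hs4]
  have := (VonNeumannAlgebra.mem_commutant_iff.1 hy) (sgm U (-s) x) (hU.mem _ _ hx)
  rw [← mul_apply_eq_comp, ← mul_apply_eq_comp, this]

lemma const_ten {y : H →L[ℂ] H} {S : LR H →L[ℂ] LR H} {f : ℝ → ℂ} {Tf : H →L[ℂ] LR H}
    (h : IsConst y S) (hf : IsTen f Tf) (v : H) : S (Tf v) = Tf (y v) := by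
  refine Lp.ext ?_
  filter_upwards [h (Tf v), hf v, hf (y v)] with s h1 h2 h3
  rw [h1, h2, h3, map_smul]

lemma const_isom {y : H →L[ℂ] H} {S : LR H →L[ℂ] LR H} (h : IsConst y S)
    (hy : ∀ v : H, ‖y v‖ = ‖v‖) (F : LR H) : ‖S F‖ = ‖F‖ := by
  rw [Lp.norm_def, Lp.norm_def]
  congr 1
  refine eLpNorm_congr_norm_ae ?_
  filter_upwards [h F] with s hs
  rw [hs, hy]

lemma sig_ten_norm (hU : IsModular M ξ U) {x : H →L[ℂ] H} {S : LR H →L[ℂ] LR H} {f : ℝ → ℂ}
    {Tf : H →L[ℂ] LR H} (h : IsSig U x S) (hf : IsTen f Tf) :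
    ‖S (Tf ξ)‖ = ‖Tf (x ξ)‖ := by
  rw [Lp.norm_def, Lp.norm_def]
  congr 1
  refine eLpNorm_congr_norm_ae ?_
  filter_upwards [h (Tf ξ), hf ξ, hf (x ξ)] with s h1 h2 h3
  rw [h1, h2, h3, map_smul, sgm_xi hU, norm_smul, norm_smul, U_norm hU]

/-- density -/
lemma ten_ext (X : LR H →L[ℂ] LR H)
    (hX : ∀ (f : ℝ → ℂ), MemLp f 2 (volume : Measure ℝ) → ∀ Tf : H →L[ℂ] LR H, IsTen f Tf →
      ∀ v : H, X (Tf v) = 0)
    (hten : ∀ f : ℝ → ℂ, MemLp f 2 (volume : Measure ℝ) → ∃ T : H →L[ℂ] LR H, IsTen f T) :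
    X = 0 := by
  ext1 F
  rw [zero_apply]
  refine Lp.induction (p := 2) (by norm_num) (motive := fun F : LR H => X F = 0) ?_ ?_ ?_ F
  · intro c s hs hμs
    have hf : MemLp (s.indicator (fun _ => (1 : ℂ))) 2 (volume : Measure ℝ) :=
      memLp_indicator_const 2 hs 1 (Or.inr hμs.ne)
    obtain ⟨Tf, hTf⟩ := hten _ hf
    have h := hX _ hf Tf hTf c
    have h2 : Tf c = (Lp.simpleFunc.indicatorConst 2 hs hμs.ne c : Lp.simpleFunc H 2 volume) := by
      refine Lp.ext ?_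
      have h3 : ((Lp.simpleFunc.indicatorConst 2 hs hμs.ne c : Lp.simpleFunc H 2
          (volume : Measure ℝ)) : Lp H 2 (volume : Measure ℝ)) = indicatorConstLp 2 hs hμs.ne c := by
        rw [Lp.simpleFunc.coe_indicatorConst]
      rw [h3]
      filter_upwards [hTf c, indicatorConstLp_coeFn (p := 2) (hs := hs) (hμs := hμs.ne) (c := c)]
        with x hx1 hx2
      rw [hx1, hx2]
      by_cases hxs : x ∈ s
      · simp [hxs]
      · simp [hxs]
    rw [← h2]
    exact h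
  · intro f g hf hg _ h1 h2
    rw [map_add, h1, h2, add_zero]
  · exact isClosed_eq X.continuous continuous_const

lemma dens (hc : IsCyclic M ξ) (hJ : IsConj M ξ U J)
    {K : Type*} [TopologicalSpace K] [T2Space K] (g g' : H → K) (hg : Continuous g)
    (hg' : Continuous g') (h : ∀ a : H →L[ℂ] H, a ∈ M → g (J (a ξ)) = g' (J (a ξ))) (v : H) :
    g v = g' v := by
  have h1 : (fun w => g (J w)) = fun w => g' (J w) := by
    refine Continuous.ext_on hc (hg.comp (J_cont hJ)) (hg'.comp (J_cont hJ)) ?_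
    rintro w ⟨x, hx, rfl⟩
    exact h x hx
  have := congrFun h1 (J v)
  simpa [hJ.inv] using this

lemma dct (hU : IsModular M ξ U) {f : ℝ → ℂ} (hf : MemLp f 2 (volume : Measure ℝ)) (κ₀ : ℝ)
    {Te Tf : H →L[ℂ] LR H} (hTf : IsTen f Tf)
    (hTe : IsTen (fun s : ℝ => cexp (I * (((-s) * κ₀ : ℝ) : ℂ)) * f s) Te)
    (x : ℕ → H →L[ℂ] H) (S : ℕ → LR H →L[ℂ] LR H) (hS : ∀ k, IsSig U (x k) (S k))
    (C : ℝ) (hC : ∀ k, ‖x k ξ‖ ≤ C)
    (hlim : ∀ s : ℝ, Tendsto (fun k => U s (x k ξ) - cexp (I * ((s * κ₀ : ℝ) : ℂ)) • x k ξ)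
      atTop (𝓝 0)) :
    Tendsto (fun k => S k (Tf ξ) - Te (x k ξ)) atTop (𝓝 0) := by
  have hC0 : 0 ≤ C := (norm_nonneg _).trans (hC 0)
  set G : ℕ → ℝ → H := fun k s =>
    f s • (U (-s) (x k ξ) - cexp (I * (((-s) * κ₀ : ℝ) : ℂ)) • x k ξ) with hG
  have hFG : ∀ k, ((S k (Tf ξ) - Te (x k ξ) : LR H) : ℝ → H) =ᵐ[volume] G k := by
    intro k
    filter_upwards [Lp.coeFn_sub (S k (Tf ξ)) (Te (x k ξ)), hS k (Tf ξ), hTf ξ, hTe (x k ξ)]
      with s h1 h2 h3 h4
    rw [h1, Pi.sub_apply, h2, h3, h4, map_smul, sgm_xi hU, hG]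
    simp only
    rw [smul_sub, smul_smul, mul_comm (f s)]
  rw [tendsto_zero_iff_norm_tendsto_zero]
  have hlin : Tendsto (fun k => ∫⁻ s : ℝ, ‖G k s‖ₑ ^ (2 : ℝ≥0∞).toReal) atTop (𝓝 0) := by
    have h0 : ∫⁻ s : ℝ, (0 : ℝ≥0∞) = 0 := by simp
    rw [← h0]
    refine tendsto_lintegral_of_dominated_convergence'
      (fun s => (‖f s‖ₑ * ENNReal.ofReal (2 * C)) ^ (2 : ℝ≥0∞).toReal) ?_ ?_ ?_ ?_
    · intro k
      have : AEMeasurable (fun s => ‖G k s‖ₑ) (volume : Measure ℝ) := by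
        have h := (Lp.aestronglyMeasurable (S k (Tf ξ) - Te (x k ξ))).congr (hFG k)
        exact h.enorm
      exact this.pow_const _
    · intro k
      refine Eventually.of_forall fun s => ?_
      refine ENNReal.rpow_le_rpow ?_ (by norm_num)
      rw [hG]
      simp only
      rw [enorm_smul]
      gcongr
      rw [← ofReal_norm]
      refine ENNReal.ofReal_le_ofReal ?_
      refine (norm_sub_le _ _).trans ?_
      rw [U_norm hU, norm_smul]
      have : ‖cexp (I * (((-s) * κ₀ : ℝ) : ℂ))‖ = 1 := by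
        rw [mul_comm]; exact Complex.norm_exp_ofReal_mul_I _
      rw [this]
      linarith [hC k]
    · have h1 : ∫⁻ s : ℝ, (‖f s‖ₑ * ENNReal.ofReal (2 * C)) ^ (2 : ℝ≥0∞).toReal =
          (∫⁻ s : ℝ, ‖f s‖ₑ ^ (2 : ℝ≥0∞).toReal) * ENNReal.ofReal (2 * C) ^ (2 : ℝ≥0∞).toReal := by
        rw [← lintegral_mul_const'' _ (hf.1.enorm.pow_const _)]
        congr 1
        ext s
        rw [ENNReal.mul_rpow_of_nonneg _ _ (by norm_num)]
      rw [h1]
      refine ENNReal.mul_ne_top ?_ (ENNReal.rpow_ne_top_of_nonneg (by norm_num) ENNReal.ofReal_ne_top)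
      exact ((eLpNorm_lt_top_iff_lintegral_rpow_enorm_lt_top (by norm_num) (by norm_num)).1
        hf.2).ne
    · refine Eventually.of_forall fun s => ?_
      have h1 : Tendsto (fun k => G k s) atTop (𝓝 0) := by
        have := (hlim (-s)).const_smul (f s)
        rwa [smul_zero] at this
      have h2 : Tendsto (fun k => ‖G k s‖ₑ) atTop (𝓝 0) := by
        have := (continuous_enorm.tendsto (0 : H)).comp h1
        rwa [enorm_zero] at this
      have h3 := (ENNReal.continuous_rpow_const (y := (2 : ℝ≥0∞).toReal)).tendsto (0 : ℝ≥0∞)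
      have h4 := h3.comp h2
      rwa [ENNReal.zero_rpow_of_pos (by norm_num)] at h4
  have h5 : Tendsto (fun k => eLpNorm (G k) 2 (volume : Measure ℝ)) atTop (𝓝 0) := by
    have h3 := ((ENNReal.continuous_rpow_const (y := 1 / (2 : ℝ≥0∞).toReal)).tendsto
      (0 : ℝ≥0∞)).comp hlin
    rw [ENNReal.zero_rpow_of_pos (by norm_num)] at h3
    refine h3.congr fun k => ?_
    rw [eLpNorm_eq_lintegral_rpow_enorm_toReal (by norm_num) (by norm_num)]
    rfl
  have h6 := (ENNReal.tendsto_toReal (ENNReal.zero_ne_top)).comp h5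
  rw [ENNReal.toReal_zero] at h6
  refine h6.congr fun k => ?_
  rw [Lp.norm_def]
  exact congrArg ENNReal.toReal (eLpNorm_congr_ae (hFG k)).symm

variable {N : VonNeumannAlgebra H} {E : (H →L[ℂ] H) → (H →L[ℂ] H)}

lemma modN (inc : Inc N M ξ U J E) : IsModular N ξ U where
  zero := inc.modular.zero
  add := inc.modular.add
  star_eq := inc.modular.star_eq
  cont := inc.modular.cont
  fix := inc.modular.fix
  mem := inc.mod
  kms := fun a b ha hb => inc.modular.kms a b (inc.le a ha) (inc.le b hb)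

lemma step1 (h3 : S_phi) (h4 : S_near) (h5 : S_prodsp) (h6 : S_ops) (inc : Inc2 N M ξ U J E)
    (T : LR H →L[ℂ] LR H) (hT : T ∈ Amp M)
    (hpos : ∀ n ∈ Npos N ξ U, ∀ R : LR H →L[ℂ] LR H, IsSig U n R → T * R = R * T)
    (x a : H →L[ℂ] H) (hx : x ∈ N) (ha : a ∈ N) (h₀ : ℝ → ℂ) (hh₀ : Tst h₀)
    (hxa : x ξ = psi U h₀ (a ξ)) (R : LR H →L[ℂ] LR H) (hR : IsSig U x R) : T * R = R * T := by
  have hU := inc.modular
  have hJ := inc.conj
  have hUN := modN inc.toInc
  obtain ⟨-, hsig, hconst, hten, -, -⟩ := h6 H M ξ U hU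
  -- the support of `h₀`
  obtain ⟨r, hr0, hr⟩ : ∃ r : ℝ, 0 < r ∧ ∀ κ, κ < -r → h₀ κ = 0 := by
    obtain ⟨r, hr0, hr⟩ := hh₀.2.isCompact.isBounded.subset_ball_lt 0 0
    refine ⟨r, hr0, fun κ hκ => ?_⟩
    by_contra hne
    have h1 : κ ∈ Metric.ball (0 : ℝ) r := hr (subset_tsupport _ hne)
    rw [Metric.mem_ball, dist_zero_right, Real.norm_eq_abs] at h1
    have := neg_abs_le κ
    linarith
  set κ₀ : ℝ := r + 1 with hκ₀
  -- the bump
  let b : ContDiffBump κ₀ := ⟨1 / 4, 1 / 2, by norm_num, by norm_num⟩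
  set h₁ : ℝ → ℂ := fun κ => ((b κ : ℝ) : ℂ) with hh₁
  have hT1 : Tst h₁ := by
    refine ⟨Complex.ofRealCLM.contDiff.comp b.contDiff, ?_⟩
    exact b.hasCompactSupport.comp_left (g := fun x : ℝ => (x : ℂ)) (by simp)
  have h11 : ∀ᶠ κ in 𝓝 κ₀, h₁ κ = 1 := by
    filter_upwards [b.eventuallyEq_one] with κ hκ
    simp [hh₁, hκ]
  have h10 : ∀ κ, κ < κ₀ - 1 / 2 → h₁ κ = 0 := by
    intro κ hκ
    have : b κ = 0 := by
      refine b.zero_of_le_dist ?_
      show (1 / 2 : ℝ) ≤ dist κ κ₀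
      rw [dist_comm, Real.dist_eq, le_abs]
      left
      linarith
    simp [hh₁, this]
  -- the isometries
  set t : ℝ := Real.exp (-κ₀) with ht
  have ht0 : 0 < t := Real.exp_pos _
  have ht1 : t < 1 := by
    rw [ht, Real.exp_lt_one_iff]
    linarith
  have hsq : Real.sqrt t = Real.exp (-(κ₀ / 2)) := by
    rw [ht, Real.sqrt_eq_iff_mul_self_eq (Real.exp_pos _).le (Real.exp_pos _).le, ← Real.exp_add]
    congr 1
    ring
  choose v hv using fun k : ℕ => inc.scal t (1 / ((k : ℝ) + 1)) ht0 ht1 (by positivity)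
  have hvs : ∀ k, star (v k) ∈ N := fun k => star_mem (hv k).1
  choose F hF hFξ _ using fun k : ℕ => h3 H N ξ U hUN h₁ hT1 (star (v k)) (hvs k)
  set w : ℕ → H →L[ℂ] H := fun k => F k 0 with hw
  have hwN : ∀ k, w k ∈ N := fun k => (hF k).mem 0
  have hwξ : ∀ k, w k ξ = psi U h₁ (star (v k) ξ) := by
    intro k
    have := hFξ k 0
    simp only [mul_zero, zero_mul, Complex.exp_zero, one_mul] at this
    exact this
  have hwpos : ∀ k, w k ∈ Npos N ξ U := fun k =>
    ⟨hwN k, star (v k), hvs k, h₁, hT1, ⟨κ₀ - 1 / 2, by linarith, h10⟩, hwξ k⟩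
  have hxwpos : ∀ k, x * w k ∈ Npos N ξ U := fun k =>
    h5 H N M ξ U J E inc.toInc h₀ h₁ (-r) (κ₀ - 1 / 2) hh₀ hT1 hr h10 (by linarith) a (star (v k))
      x (w k) ha (hvs k) hx (hwN k) hxa (hwξ k)
  choose Sw hSw _ _ using fun k => hsig (w k)
  choose Sv hSv _ _ using fun k => hsig (star (v k))
  set X : LR H →L[ℂ] LR H := T * R - R * T with hX
  have hX0 : ∀ k, X * Sw k = 0 := by
    intro k
    have e1 := hpos _ (hwpos k) (Sw k) (hSw k)
    have e2 := hpos _ (hxwpos k) (R * Sw k) (sig_mul hU hR (hSw k))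
    rw [hX, sub_mul, mul_assoc T R, e2, mul_assoc R (Sw k) T, mul_assoc R T, e1, sub_self]
  -- estimates
  set e : ℕ → H := fun k => star (v k) ξ - ((Real.sqrt t : ℝ) : ℂ) • J (v k ξ) with he
  have he0 : Tendsto e atTop (𝓝 0) := by
    rw [tendsto_zero_iff_norm_tendsto_zero]
    refine squeeze_zero (fun _ => norm_nonneg _) (fun k => ?_)
      (tendsto_one_div_add_atTop_nhds_zero_nat)
    have h1 := (hv k).2.2
    have h2 : J (star (v k) ξ) - ((Real.sqrt t : ℝ) : ℂ) • v k ξ = J (e k) := by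
      rw [he]
      simp only
      rw [J_sub hJ, hJ.smul, hJ.inv, Complex.conj_ofReal]
    rw [h2, J_norm hJ] at h1
    exact h1
  have hnear1 : Tendsto (fun k => J (star (star (v k)) ξ) - cexp ((κ₀ : ℂ) / 2) • (star (v k)) ξ)
      atTop (𝓝 0) := by
    have h1 : ∀ k, J (star (star (v k)) ξ) - cexp ((κ₀ : ℂ) / 2) • (star (v k)) ξ =
        (-cexp ((κ₀ : ℂ) / 2)) • e k := by
      intro k
      have h2 : cexp ((κ₀ : ℂ) / 2) * ((Real.sqrt t : ℝ) : ℂ) = 1 := by
        rw [hsq, Complex.ofReal_exp, ← Complex.exp_add]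
        push_cast
        rw [add_neg_cancel, Complex.exp_zero]
      rw [he, star_star]
      simp only
      rw [smul_sub, smul_smul, neg_mul, h2, neg_smul, neg_smul, one_smul]
      abel
    simp only [h1]
    have := he0.const_smul (-cexp ((κ₀ : ℂ) / 2))
    rwa [smul_zero] at this
  have hxiU : ‖ξ‖ = 1 := inc.unit
  have hbd : ∀ k, ‖star (v k) ξ‖ ≤ 1 := by
    intro k
    have h1 : ‖v k‖ ≤ 1 := by
      refine ContinuousLinearMap.opNorm_le_bound _ zero_le_one fun z => ?_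
      have h2 : ⟪v k z, v k z⟫_ℂ = ⟪z, z⟫_ℂ := by
        rw [← ContinuousLinearMap.adjoint_inner_right, ← ContinuousLinearMap.star_eq_adjoint,
          ← mul_apply_eq_comp, (hv k).2.1, one_apply_eq_self]
      rw [inner_self_eq_norm_sq_to_K, inner_self_eq_norm_sq_to_K] at h2
      norm_cast at h2
      have := (pow_left_inj₀ (norm_nonneg _) (norm_nonneg _) (by norm_num)).1 h2
      rw [this, one_mul]
    calc ‖star (v k) ξ‖ ≤ ‖star (v k)‖ * ‖ξ‖ := ContinuousLinearMap.le_opNorm _ _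
      _ ≤ 1 := by rw [norm_star, hxiU, mul_one]; exact h1
  obtain ⟨hn1, hn2⟩ := h4 H M ξ U J hU hJ (fun k => star (v k)) κ₀
    (fun k => inc.le _ (hvs k)) ⟨1, hbd⟩ hnear1
  have hn3 := hn2 h₁ hT1 h11
  -- the main claim
  have key : ∀ (f : ℝ → ℂ), MemLp f 2 (volume : Measure ℝ) → ∀ Te : H →L[ℂ] LR H, IsTen f Te →
      X (Te ξ) = 0 := by
    intro f hf Te hTe
    set g : ℝ → ℂ := fun s => cexp (I * ((s * κ₀ : ℝ) : ℂ)) * f s with hg
    have hgm : MemLp g 2 (volume : Measure ℝ) := by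
      have hc : Continuous fun s : ℝ => cexp (I * ((s * κ₀ : ℝ) : ℂ)) := by fun_prop
      refine hf.of_le (hc.aestronglyMeasurable.mul hf.1) (Eventually.of_forall fun s => ?_)
      rw [hg]
      simp only
      rw [norm_mul, mul_comm I, Complex.norm_exp_ofReal_mul_I, one_mul]
    obtain ⟨Tg, hTg, -⟩ := hten g hgm
    have hTe' : IsTen (fun s : ℝ => cexp (I * (((-s) * κ₀ : ℝ) : ℂ)) * g s) Te := by
      have : (fun s : ℝ => cexp (I * (((-s) * κ₀ : ℝ) : ℂ)) * g s) = f := by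
        ext s
        rw [hg]
        simp only
        rw [← mul_assoc, ← Complex.exp_add]
        have : I * (((-s) * κ₀ : ℝ) : ℂ) + I * ((s * κ₀ : ℝ) : ℂ) = 0 := by push_cast; ring
        rw [this, Complex.exp_zero, one_mul]
      rw [this]
      exact hTe
    have c2 := dct hU hgm κ₀ hTg hTe' (fun k => star (v k)) Sv hSv 1 hbd hn1
    have c1 : Tendsto (fun k => Sw k (Tg ξ) - Sv k (Tg ξ)) atTop (𝓝 0) := by
      rw [tendsto_zero_iff_norm_tendsto_zero]
      have h1 : ∀ k, ‖Sw k (Tg ξ) - Sv k (Tg ξ)‖ = ‖Tg (psi U h₁ (star (v k) ξ) - star (v k) ξ)‖ := by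
        intro k
        rw [← sub_apply, sig_ten_norm hU (sig_sub (hSw k) (hSv k)) hTg, sub_apply, hwξ k]
      simp only [h1]
      have := (Tg.continuous.tendsto 0).comp hn3
      rw [map_zero] at this
      have h2 := this.norm
      rw [norm_zero] at h2
      exact h2
    have c3 : Tendsto (fun k => Te (e k)) atTop (𝓝 0) := by
      have := (Te.continuous.tendsto 0).comp he0
      rwa [map_zero] at this
    have c4 : Tendsto (fun k => Sw k (Tg ξ) - ((Real.sqrt t : ℝ) : ℂ) • Te (J (v k ξ))) atTop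
        (𝓝 0) := by
      have := (c1.add c2).add c3
      rw [add_zero, add_zero] at this
      refine this.congr fun k => ?_
      rw [he]
      simp only
      rw [map_sub, map_smul]
      abel
    have c5 : Tendsto (fun k => ‖X (Sw k (Tg ξ) - ((Real.sqrt t : ℝ) : ℂ) • Te (J (v k ξ)))‖) atTop
        (𝓝 0) := by
      have := ((X.continuous.tendsto 0).comp c4).norm
      rw [map_zero, norm_zero] at this
      exact this
    have c6 : ∀ k, ‖X (Sw k (Tg ξ) - ((Real.sqrt t : ℝ) : ℂ) • Te (J (v k ξ)))‖ =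
        Real.sqrt t * ‖X (Te ξ)‖ := by
      intro k
      have d1 : X (Sw k (Tg ξ)) = 0 := by
        rw [← mul_apply_eq_comp, hX0 k, zero_apply]
      rw [map_sub, d1, zero_sub, norm_neg, map_smul, norm_smul, Complex.norm_real,
        Real.norm_of_nonneg (Real.sqrt_nonneg _)]
      congr 1
      obtain ⟨Kk, hKk, -, -⟩ := hconst (Rr hJ (star (v k)))
      have hmem : Rr hJ (star (v k)) ∈ M.commutant := Rr_comm hJ (inc.le _ (hvs k))
      have d2 : Te (J (v k ξ)) = Kk (Te ξ) := by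
        rw [const_ten hKk hTe, Rr_apply, star_star, hJ.fix]
      have d3 : X * Kk = Kk * X := by
        have f1 := hT _ hmem Kk hKk
        have f2 := sig_const hU (inc.le _ hx) hmem hR hKk
        rw [hX, sub_mul, mul_sub, mul_assoc T R, f2, ← mul_assoc T, f1, mul_assoc Kk, mul_assoc R T,
          f1, ← mul_assoc R, f2, mul_assoc Kk]
      rw [d2, ← mul_apply_eq_comp, d3, mul_apply_eq_comp, const_isom hKk (Rr_isom hJ (hv k).2.1)]
    simp only [c6] at c5
    have c7 := tendsto_nhds_unique c5 tendsto_const_nhds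
    have c8 : Real.sqrt t ≠ 0 := (Real.sqrt_pos.2 ht0).ne'
    have c9 : ‖X (Te ξ)‖ = 0 := by
      rcases mul_eq_zero.1 c7.symm with h | h
      · exact absurd h c8
      · exact h
    exact norm_eq_zero.1 c9
  have hXz : X = 0 := by
    refine ten_ext X (fun f hf Te hTe v => ?_) (fun f hf => ?_)
    · refine dens inc.cyc hJ (fun v => X (Te v)) (fun _ => 0) (by fun_prop) continuous_const
        (fun c hc => ?_) v
      obtain ⟨Kk, hKk, -, -⟩ := hconst (Rr hJ (star c))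
      have hmem : Rr hJ (star c) ∈ M.commutant := Rr_comm hJ (star_mem hc)
      have d2 : Te (J (c ξ)) = Kk (Te ξ) := by
        rw [const_ten hKk hTe, Rr_apply, star_star, hJ.fix]
      have d3 : X * Kk = Kk * X := by
        have f1 := hT _ hmem Kk hKk
        have f2 := sig_const hU (inc.le _ hx) hmem hR hKk
        rw [hX, sub_mul, mul_sub, mul_assoc T R, f2, ← mul_assoc T, f1, mul_assoc Kk, mul_assoc R T,
          f1, ← mul_assoc R, f2, mul_assoc Kk]
      show X (Te (J (c ξ))) = 0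
      rw [d2, ← mul_apply_eq_comp, d3, mul_apply_eq_comp, key f hf Te hTe, map_zero]
    · obtain ⟨Tf, hTf, -⟩ := hten f hf
      exact ⟨Tf, hTf⟩
  rw [hX] at hXz
  exact sub_eq_zero.1 hXz

theorem r (_h1 : S_psi) (h2 : S_psi_one) (h3 : S_phi) (h4 : S_near) (h5 : S_prodsp) (h6 : S_ops)
    (h7 : S_psi_J) : S_ext := by
  intro H _ _ _ N M ξ U J E inc T hT hpos n hn R hR
  have hU := inc.modular
  have hJ := inc.conj
  have hUN := modN inc.toInc
  obtain ⟨-, hsig, hconst, hten, -, -⟩ := h6 H M ξ U hU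
  obtain ⟨h, hTst, hlim⟩ := h2 H M ξ U hU
  choose F hF hF1 hF2 using fun j : ℕ => h3 H N ξ U hUN (h j) (hTst j) n hn
  set x : ℕ → H →L[ℂ] H := fun j => F j 0 with hx
  have hxN : ∀ j, x j ∈ N := fun j => (hF j).mem 0
  have hxξ : ∀ j, x j ξ = psi U (h j) (n ξ) := by
    intro j
    have := hF1 j 0
    simp only [mul_zero, zero_mul, Complex.exp_zero, one_mul] at this
    exact this
  have hxsξ : ∀ j, star (x j) ξ = J (psi U (h j) (J (star n ξ))) := by
    intro j
    have := hF2 j 0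
    simp only [mul_zero, zero_mul, Complex.exp_zero, one_mul] at this
    rw [(h7 H M ξ U J hU hJ (h j) (hTst j)).1, hJ.inv]
    exact this
  have l1 : Tendsto (fun j => x j ξ) atTop (𝓝 (n ξ)) := by
    simp only [hxξ]
    exact hlim _
  have l2 : Tendsto (fun j => star (x j) ξ) atTop (𝓝 (star n ξ)) := by
    simp only [hxsξ]
    have := ((J_cont hJ).tendsto _).comp (hlim (J (star n ξ)))
    rw [hJ.inv] at this
    exact this
  choose Rj hRj _ hRjs using fun j => hsig (x j)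
  obtain ⟨R', hR', -, hR's⟩ := hsig n
  have hRR : R' = R := sig_uniq hR' hR
  subst hRR
  have hcomm : ∀ j, T * Rj j = Rj j * T := fun j =>
    step1 h3 h4 h5 h6 inc T hT hpos (x j) n (hxN j) hn (h j) (hTst j) (hxξ j) (Rj j) (hRj j)
  -- convergence
  have conv : ∀ (y : ℕ → H →L[ℂ] H) (y₀ : H →L[ℂ] H) (S : ℕ → LR H →L[ℂ] LR H)
      (S₀ : LR H →L[ℂ] LR H), (∀ j, y j ∈ N) → y₀ ∈ N → (∀ j, IsSig U (y j) (S j)) →
      IsSig U y₀ S₀ → Tendsto (fun j => y j ξ) atTop (𝓝 (y₀ ξ)) →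
      ∀ (f : ℝ → ℂ) (Tf : H →L[ℂ] LR H), IsTen f Tf → ∀ c : H →L[ℂ] H, c ∈ M →
      Tendsto (fun j => S j (Tf (J (c ξ)))) atTop (𝓝 (S₀ (Tf (J (c ξ))))) := by
    intro y y₀ S S₀ hy hy₀ hS hS₀ hl f Tf hTf c hc
    obtain ⟨Kk, hKk, -, -⟩ := hconst (Rr hJ (star c))
    have hmem : Rr hJ (star c) ∈ M.commutant := Rr_comm hJ (star_mem hc)
    have d2 : Tf (J (c ξ)) = Kk (Tf ξ) := by
      rw [const_ten hKk hTf, Rr_apply, star_star, hJ.fix]
    have d4 : Tendsto (fun j => S j (Tf ξ)) atTop (𝓝 (S₀ (Tf ξ))) := by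
      rw [tendsto_iff_norm_sub_tendsto_zero]
      have h1 : ∀ j, ‖S j (Tf ξ) - S₀ (Tf ξ)‖ = ‖Tf (y j ξ - y₀ ξ)‖ := by
        intro j
        rw [← sub_apply, sig_ten_norm hU (sig_sub (hS j) hS₀) hTf, sub_apply]
      simp only [h1]
      have h2 : Tendsto (fun j => y j ξ - y₀ ξ) atTop (𝓝 0) := by
        have := hl.sub_const (y₀ ξ)
        rwa [sub_self] at this
      have := ((Tf.continuous.tendsto 0).comp h2).norm
      rw [map_zero, norm_zero] at this
      exact this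
    have d5 := (Kk.continuous.tendsto _).comp d4
    have e1 : ∀ j, S j (Tf (J (c ξ))) = Kk (S j (Tf ξ)) := by
      intro j
      rw [d2, ← mul_apply_eq_comp, sig_const hU (inc.le _ (hy j)) hmem (hS j) hKk,
        mul_apply_eq_comp]
    have e2 : S₀ (Tf (J (c ξ))) = Kk (S₀ (Tf ξ)) := by
      rw [d2, ← mul_apply_eq_comp, sig_const hU (inc.le _ hy₀) hmem hS₀ hKk, mul_apply_eq_comp]
    simp only [e1, e2]
    exact d5
  have hten' : ∀ f : ℝ → ℂ, MemLp f 2 (volume : Measure ℝ) → ∃ T : H →L[ℂ] LR H, IsTen f T :=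
    fun f hf => by
      obtain ⟨Tf, hTf, -⟩ := hten f hf
      exact ⟨Tf, hTf⟩
  have main : ∀ (f : ℝ → ℂ), MemLp f 2 (volume : Measure ℝ) → ∀ Tf : H →L[ℂ] LR H, IsTen f Tf →
      ∀ v : H, (T * R' - R' * T) (Tf v) = 0 := by
    intro f hf Tf hTf v
    refine dens inc.cyc hJ (fun v => (T * R' - R' * T) (Tf v)) (fun _ => 0) (by fun_prop)
      continuous_const (fun c hc => ?_) v
    set Z : LR H := (T * R' - R' * T) (Tf (J (c ξ))) with hZ
    have hZ0 : (innerSL ℂ Z).smulRight Z = (0 : LR H →L[ℂ] LR H) := by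
      refine ten_ext _ (fun g hg Tg hTg v => ?_) hten'
      refine dens inc.cyc hJ (fun v => ((innerSL ℂ Z).smulRight Z : LR H →L[ℂ] LR H) (Tg v))
        (fun _ => 0) (by fun_prop) continuous_const (fun d hd => ?_) v
      have a1 := conv x n Rj R' hxN hn hRj hR' l1 f Tf hTf c hc
      have a2 := conv (fun j => star (x j)) (star n) (fun j => star (Rj j)) (star R')
        (fun j => star_mem (hxN j)) (star_mem hn) hRjs hR's l2 g Tg hTg d hd
      have b1 : Tendsto (fun j => ⟪Tg (J (d ξ)), T (Rj j (Tf (J (c ξ))))⟫_ℂ) atTop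
          (𝓝 ⟪Tg (J (d ξ)), T (R' (Tf (J (c ξ))))⟫_ℂ) :=
        tendsto_const_nhds.inner ((T.continuous.tendsto _).comp a1)
      have b2 : Tendsto (fun j => ⟪star (Rj j) (Tg (J (d ξ))), T (Tf (J (c ξ)))⟫_ℂ) atTop
          (𝓝 ⟪star R' (Tg (J (d ξ))), T (Tf (J (c ξ)))⟫_ℂ) :=
        a2.inner tendsto_const_nhds
      have b3 : ∀ j, ⟪Tg (J (d ξ)), T (Rj j (Tf (J (c ξ))))⟫_ℂ =
          ⟪star (Rj j) (Tg (J (d ξ))), T (Tf (J (c ξ)))⟫_ℂ := by
        intro j
        rw [ContinuousLinearMap.star_eq_adjoint, ContinuousLinearMap.adjoint_inner_left,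
          ← mul_apply_eq_comp, hcomm j, mul_apply_eq_comp]
      simp only [b3] at b1
      have b4 := tendsto_nhds_unique b1 b2
      rw [ContinuousLinearMap.star_eq_adjoint, ContinuousLinearMap.adjoint_inner_left] at b4
      have b5 : ⟪Tg (J (d ξ)), Z⟫_ℂ = 0 := by
        rw [hZ, sub_apply, inner_sub_right, mul_apply_eq_comp, mul_apply_eq_comp, b4, sub_self]
      show ⟪Z, Tg (J (d ξ))⟫_ℂ • Z = 0
      rw [inner_eq_zero_symm.1 b5, zero_smul]
    have hZ1 := congrArg (fun X : LR H →L[ℂ] LR H => X Z) hZ0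
    have hZ2 : ⟪Z, Z⟫_ℂ • Z = 0 := hZ1
    rcases smul_eq_zero.1 hZ2 with h | h
    · exact inner_self_eq_zero.1 h
    · exact h
  exact sub_eq_zero.1 (ten_ext _ main hten')

end

end Pool.Agent.H255.BC.R_ext
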