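import Pool.Agent.H255.BC.Defs2

set_option autoImplicit false

open MeasureTheory Filter Topology Complex
open scoped InnerProductSpace ENNReal FourierTransform SchwartzMap

namespace Pool.Agent.H255.BC.R_fou

open Pool.Agent.W662.CB Pool.Agent.H255.BC

section

variable {H : Type} [NormedAddCommGroup H] [InnerProductSpace ℂ H] [CompleteSpace H]

theorem fub (g : 𝓢(ℝ, ℂ)) (G : ℝ → H) (hG : Integrable G) :
    ∫ ξ, (𝓕⁻ g : 𝓢(ℝ, ℂ)) ξ • G ξ = ∫ x, g x • 𝓕⁻ G x := by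
  have h1 := VectorFourier.integral_fourierIntegral_smul_eq_flip (μ := (volume : Measure ℝ))
    (ν := (volume : Measure ℝ)) (L := -(innerₗ ℝ)) (f := fun x => g x) (g := G)
    Real.continuous_fourierChar (by
      change Continuous fun p : ℝ × ℝ => -(innerₗ ℝ p.1 p.2)
      exact (continuous_inner (𝕜 := ℝ)).neg) g.integrable hG
  have h2 : (-(innerₗ ℝ)).flip = -(innerₗ ℝ) := by
    ext
    simp
  rw [h2] at h1
  have h4 : ∀ ξ, (𝓕⁻ g : 𝓢(ℝ, ℂ)) ξ = 𝓕⁻ (fun x => g x) ξ :=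
    fun ξ => congrFun (SchwartzMap.fourierInv_coe g) ξ
  simp_rw [h4]
  exact h1

theorem contInv (G : ℝ → H) (hG : Integrable G) : Continuous (𝓕⁻ G) := by
  apply VectorFourier.fourierIntegral_continuous Real.continuous_fourierChar _ hG
  change Continuous fun p : ℝ × ℝ => -(innerₗ ℝ p.1 p.2)
  exact (continuous_inner (𝕜 := ℝ)).neg

theorem key (F : LR H) (G : ℝ → H) (hGc : Continuous G) (hGs : HasCompactSupport G)
    (hF : (F : ℝ → H) =ᵐ[volume] G) :
    ((𝓕⁻ F : LR H) : ℝ → H) =ᵐ[volume] 𝓕⁻ G := by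
  have hG : Integrable G := hGc.integrable_of_hasCompactSupport hGs
  apply ae_eq_of_integral_contDiff_smul_eq
  · exact (Lp.memLp _).locallyIntegrable (by norm_num)
  · exact (contInv G hG).locallyIntegrable
  intro g hg hgs
  have hg' : ContDiff ℝ (⊤ : ℕ∞) (fun x => (g x : ℂ)) := Complex.ofRealCLM.contDiff.comp hg
  have hgs' : HasCompactSupport (fun x => (g x : ℂ)) :=
    hgs.comp_left (g := fun x : ℝ => (x : ℂ)) (by simp)
  let gs : 𝓢(ℝ, ℂ) := hgs'.toSchwartzMap hg'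
  have hgs0 : ∀ x, gs x = (g x : ℂ) := fun x => rfl
  have e1 : ∫ x, g x • ((𝓕⁻ F : LR H) : ℝ → H) x = ∫ x, gs x • ((𝓕⁻ F : LR H) : ℝ → H) x := by
    apply integral_congr_ae
    exact Eventually.of_forall fun x => by simp [hgs0]
  have e2 : ∫ x, gs x • ((𝓕⁻ F : LR H) : ℝ → H) x = ∫ x, (𝓕⁻ gs : 𝓢(ℝ, ℂ)) x • (F : ℝ → H) x := by
    have h3 := congrArg (fun T => T gs) (Lp.fourierInv_toTemperedDistribution_eq F)
    simp only [TemperedDistribution.fourierInv_apply] at h3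
    rw [Lp.toTemperedDistribution_apply, Lp.toTemperedDistribution_apply] at h3
    exact h3.symm
  have e3 : ∫ x, (𝓕⁻ gs : 𝓢(ℝ, ℂ)) x • (F : ℝ → H) x = ∫ x, (𝓕⁻ gs : 𝓢(ℝ, ℂ)) x • G x := by
    apply integral_congr_ae
    filter_upwards [hF] with x hx
    rw [hx]
  have e4 : ∫ x, g x • 𝓕⁻ G x = ∫ x, gs x • 𝓕⁻ G x := by
    apply integral_congr_ae
    exact Eventually.of_forall fun x => by simp [hgs0]
  rw [e1, e2, e3, e4, fub gs G hG]

/-! ### Dilations -/

theorem qmp {c : ℝ} (hc : 0 < c) :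
    Measure.QuasiMeasurePreserving (fun s : ℝ => c * s) volume volume := by
  refine ⟨measurable_const_mul c, ?_⟩
  rw [Real.map_volume_mul_left hc.ne']
  exact Measure.smul_absolutelyContinuous

/-- `(D f)(s) = √c f(c s)` -/
theorem dil {c : ℝ} (hc : 0 < c) : ∃ D : LR H →ₗᵢ[ℂ] LR H, ∀ f : LR H,
    (D f : ℝ → H) =ᵐ[volume] fun s => ((Real.sqrt c : ℝ) : ℂ) • f (c * s) := by
  have hmeas : ∀ f : LR H, AEStronglyMeasurable
      (fun s => ((Real.sqrt c : ℝ) : ℂ) • (f : ℝ → H) (c * s)) (volume : Measure ℝ) := fun f =>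
    ((Lp.aestronglyMeasurable f).comp_quasiMeasurePreserving (qmp hc)).const_smul _
  have hsq : ∀ f : LR H, ∀ s, ‖((Real.sqrt c : ℝ) : ℂ) • (f : ℝ → H) (c * s)‖ ^ 2 =
      c * ‖(f : ℝ → H) (c * s)‖ ^ 2 := fun f s => by
    rw [norm_smul, mul_pow, Complex.norm_real, Real.norm_eq_abs, sq_abs, Real.sq_sqrt hc.le]
  have hint : ∀ f : LR H, Integrable (fun s => ‖(f : ℝ → H) s‖ ^ 2) := fun f =>
    (Lp.memLp f).integrable_norm_pow (by norm_num)
  have hmem : ∀ f : LR H, MemLp (fun s => ((Real.sqrt c : ℝ) : ℂ) • (f : ℝ → H) (c * s)) 2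
      (volume : Measure ℝ) := fun f => by
    rw [memLp_two_iff_integrable_sq_norm (hmeas f)]
    simp_rw [hsq]
    exact ((integrable_comp_mul_left_iff _ hc.ne').mpr (hint f)).const_mul c
  have hco : ∀ f : LR H, ((hmem f).toLp _ : ℝ → H) =ᵐ[volume]
      fun s => ((Real.sqrt c : ℝ) : ℂ) • (f : ℝ → H) (c * s) := fun f => MemLp.coeFn_toLp _
  let T : LR H →ₗ[ℂ] LR H :=
    { toFun := fun f => (hmem f).toLp _
      map_add' := fun f g => by
        apply Lp.ext
        filter_upwards [hco (f + g), hco f, hco g, (qmp hc).ae (Lp.coeFn_add f g),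
          Lp.coeFn_add ((hmem f).toLp _) ((hmem g).toLp _)] with p h1 h2 h3 h4 h5
        rw [h1, h5, Pi.add_apply, h2, h3, h4, Pi.add_apply, smul_add]
      map_smul' := fun a f => by
        apply Lp.ext
        filter_upwards [hco (a • f), hco f, (qmp hc).ae (Lp.coeFn_smul a f),
          Lp.coeFn_smul a ((hmem f).toLp _)] with p h1 h2 h4 h5
        rw [h1, RingHom.id_apply, h5, Pi.smul_apply, h2, h4, Pi.smul_apply, smul_comm] }
  have hnorm : ∀ f : LR H, ‖T f‖ = ‖f‖ := fun f => by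
    have n1 : ∀ g : LR H, ‖g‖ ^ 2 = ∫ s, ‖(g : ℝ → H) s‖ ^ 2 := fun g => by
      have h6 := inner_self_eq_norm_sq_to_K (𝕜 := ℂ) g
      rw [L2.inner_def] at h6
      have h7 : ∫ s, ⟪(g : ℝ → H) s, (g : ℝ → H) s⟫_ℂ = ((∫ s, ‖(g : ℝ → H) s‖ ^ 2 : ℝ) : ℂ) := by
        rw [← integral_complex_ofReal]
        apply integral_congr_ae
        exact Eventually.of_forall fun s => by
          simp only [inner_self_eq_norm_sq_to_K]
          push_cast
          rfl
      rw [h7] at h6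
      apply Complex.ofReal_injective
      rw [Complex.ofReal_pow]
      exact h6.symm
    have h8 : ‖T f‖ ^ 2 = ‖f‖ ^ 2 := by
      rw [n1, n1]
      have h9 : ∫ s, ‖((T f : LR H) : ℝ → H) s‖ ^ 2 = ∫ s, c * ‖(f : ℝ → H) (c * s)‖ ^ 2 := by
        apply integral_congr_ae
        filter_upwards [hco f] with s hs
        change ‖((hmem f).toLp _ : ℝ → H) s‖ ^ 2 = _
        rw [hs, hsq]
      rw [h9, integral_const_mul,
        Measure.integral_comp_mul_left (fun s => ‖(f : ℝ → H) s‖ ^ 2) c, smul_eq_mul,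
        ← mul_assoc, abs_of_pos (inv_pos.mpr hc), mul_inv_cancel₀ hc.ne', one_mul]
    have := congrArg Real.sqrt h8
    rwa [Real.sqrt_sq (norm_nonneg _), Real.sqrt_sq (norm_nonneg _)] at this
  exact ⟨⟨T, hnorm⟩, fun f => hco f⟩

theorem dilE {c : ℝ} (hc : 0 < c) : ∃ D : LR H ≃ₗᵢ[ℂ] LR H, ∀ f : LR H,
    (D f : ℝ → H) =ᵐ[volume] fun s => ((Real.sqrt c : ℝ) : ℂ) • f (c * s) := by
  obtain ⟨D, hD⟩ := dil (H := H) hc
  obtain ⟨D', hD'⟩ := dil (H := H) (inv_pos.mpr hc)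
  have hs : Function.Surjective D := by
    intro f
    refine ⟨D' f, ?_⟩
    apply Lp.ext
    filter_upwards [hD (D' f), (qmp hc).ae (hD' f)] with s h1 h2
    rw [h1, h2, inv_mul_cancel_left₀ hc.ne', smul_smul, ← Complex.ofReal_mul,
      ← Real.sqrt_mul hc.le, mul_inv_cancel₀ hc.ne', Real.sqrt_one, Complex.ofReal_one, one_smul]
  exact ⟨LinearIsometryEquiv.ofSurjective D hs, hD⟩

end

theorem r : S_fou := by
  intro H _ _ _
  have hc : (0 : ℝ) < (2 * Real.pi)⁻¹ := by positivity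
  obtain ⟨D, hD⟩ := dilE (H := H) hc
  refine ⟨(Lp.fourierTransformₗᵢ ℝ H).symm.trans D, ?_⟩
  intro G hGc hGs F hF
  have hk := key F G hGc hGs hF
  filter_upwards [hD (𝓕⁻ F : LR H), (qmp hc).ae hk] with s h1 h2
  change (D (𝓕⁻ F : LR H) : ℝ → H) s = _
  rw [h1, h2, Real.fourierInv_eq']
  congr 1
  · rw [Real.sqrt_inv]
  · apply integral_congr_ae
    refine Eventually.of_forall fun p => ?_
    simp only
    congr 2
    have hp : (Real.pi : ℂ) ≠ 0 := by exact_mod_cast Real.pi_ne_zero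
    simp only [RCLike.inner_apply, conj_trivial]
    push_cast
    field_simp

end Pool.Agent.H255.BC.R_fou
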