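import Pool.Agent.H255.BC.Defs2

set_option autoImplicit false

open MeasureTheory Filter Topology Complex
open scoped InnerProductSpace ENNReal FourierTransform

namespace Pool.Agent.H255.BC.R_gen

open Pool.Agent.W662.CB Pool.Agent.H255.BC

variable {H : Type} [NormedAddCommGroup H] [InnerProductSpace ℂ H] [CompleteSpace H]

theorem ae_shift {f g : ℝ → H} (h : f =ᵐ[volume] g) (t : ℝ) :
    (fun s => f (s + t)) =ᵐ[volume] fun s => g (s + t) :=
  (measurePreserving_add_right (volume : Measure ℝ) t).quasiMeasurePreserving.ae_eq_comp h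

theorem sgm_left (M : VonNeumannAlgebra H) (ξ : H) (U : ℝ → H →L[ℂ] H) (h : IsModular M ξ U)
    (s t : ℝ) (x : H →L[ℂ] H) (v : H) :
    sgm U (-s) x (U t v) = U t (sgm U (-(s + t)) x v) := by
  have h1 : sgm U (-s) x * U t = U t * sgm U (-(s + t)) x := by
    unfold sgm
    rw [h.star_eq, h.star_eq]
    have e1 : U (- -s) * U t = U (s + t) := by rw [← h.add]; congr 1; ring
    have e2 : U t * U (-(s + t)) = U (-s) := by rw [← h.add]; congr 1; ring
    rw [mul_assoc, mul_assoc, e1, ← mul_assoc (U t), ← mul_assoc (U t), e2, neg_neg, mul_assoc]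
  have := congrArg (fun T : H →L[ℂ] H => T v) h1
  simpa using this

theorem r (h : S_ops) : S_gen := by
  intro H _ _ _ N M ξ U J E hI
  have hM := hI.modular
  refine ⟨fun x hx S hS => ⟨?_, ?_⟩, fun t S hS => ⟨?_, ?_⟩⟩
  · intro y hy S' hS'
    ext1 f
    apply Lp.ext
    have h1 := hS (S' f)
    have h2 := hS' (S f)
    have h3 := hS' f
    have h4 := hS f
    rw [ContinuousLinearMap.mul_apply, ContinuousLinearMap.mul_apply]
    filter_upwards [h1, h2, h3, h4] with s a1 a2 a3 a4
    rw [a1, a2, a3, a4]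
    have h5 : sgm U (-s) x ∈ N := hI.mod (-s) x hx
    have h6 : sgm U (-s) x * y = y * sgm U (-s) x := by
      rw [VonNeumannAlgebra.mem_commutant_iff] at hy
      exact hy _ h5
    have := congrArg (fun T : H →L[ℂ] H => T (f s)) h6
    simpa using this
  · intro t S' hS'
    ext1 f
    apply Lp.ext
    have h1 := hS (S' f)
    have h2 := hS' (S f)
    have h3 := hS' f
    have h4 := ae_shift (hS f) t
    rw [ContinuousLinearMap.mul_apply, ContinuousLinearMap.mul_apply]
    filter_upwards [h1, h2, h3, h4] with s a1 a2 a3 a4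
    rw [a1, a2, a3, a4]
    exact sgm_left M ξ U hM s t x (f (s + t))
  · intro y hy S' hS'
    ext1 f
    apply Lp.ext
    have h1 := hS (S' f)
    have h2 := hS' (S f)
    have h3 := ae_shift (hS' f) (-t)
    have h4 := hS f
    rw [ContinuousLinearMap.mul_apply, ContinuousLinearMap.mul_apply]
    filter_upwards [h1, h2, h3, h4] with s a1 a2 a3 a4
    rw [a1, a2, a4, sub_eq_add_neg, a3]
  · intro t' S' hS'
    ext1 f
    apply Lp.ext
    have h1 := hS (S' f)
    have h2 := hS' (S f)
    have h3 := ae_shift (hS' f) (-t)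
    have h4 := ae_shift (hS f) t'
    rw [ContinuousLinearMap.mul_apply, ContinuousLinearMap.mul_apply]
    filter_upwards [h1, h2, h3, h4] with s a1 a2 a3 a4
    rw [a1, a2, a4, sub_eq_add_neg, a3]
    congr 2
    ring

end Pool.Agent.H255.BC.R_gen
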