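import Pool.Agent.H255.BC.Defs2

set_option autoImplicit false

open MeasureTheory Filter Topology Complex
open scoped InnerProductSpace ENNReal FourierTransform

namespace Pool.Agent.H255.BC.R_inc2

open Pool.Agent.W662.CB Pool.Agent.H255.BC

section

variable {H : Type} [NormedAddCommGroup H] [InnerProductSpace ℂ H] [CompleteSpace H]

theorem conj_sub {M : VonNeumannAlgebra H} {ξ : H} {U : ℝ → H →L[ℂ] H} {J : H → H}
    (hJ : IsConj M ξ U J) (v w : H) : J (v - w) = J v - J w := by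
  have h := hJ.add v ((-1 : ℂ) • w)
  rw [hJ.smul] at h
  simpa [sub_eq_add_neg] using h

theorem conj_norm {M : VonNeumannAlgebra H} {ξ : H} {U : ℝ → H →L[ℂ] H} {J : H → H}
    (hJ : IsConj M ξ U J) (v : H) : ‖J v‖ = ‖v‖ := by
  have h := hJ.inner v v
  rw [inner_self_eq_norm_sq_to_K, inner_self_eq_norm_sq_to_K] at h
  have h2 : ‖J v‖ ^ 2 = ‖v‖ ^ 2 := by exact_mod_cast h
  exact (sq_eq_sq₀ (norm_nonneg _) (norm_nonneg _)).1 h2

theorem conj_continuous {M : VonNeumannAlgebra H} {ξ : H} {U : ℝ → H →L[ℂ] H} {J : H → H}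
    (hJ : IsConj M ξ U J) : Continuous J := by
  apply Isometry.continuous
  apply Isometry.of_dist_eq
  intro v w
  rw [dist_eq_norm, dist_eq_norm, ← conj_sub hJ, conj_norm hJ]

theorem smul_mem' (N : VonNeumannAlgebra H) (c : ℂ) {x : H →L[ℂ] H} (hx : x ∈ N) : c • x ∈ N :=
  N.toStarSubalgebra.smul_mem hx c

theorem star_apply_inner (x : H →L[ℂ] H) (v w : H) : ⟪v, (star x) w⟫_ℂ = ⟪x v, w⟫_ℂ := by
  rw [ContinuousLinearMap.star_eq_adjoint, ContinuousLinearMap.adjoint_inner_right]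

/-- the expectation is contractive -/
theorem exp_norm {M N : VonNeumannAlgebra H} {E : (H →L[ℂ] H) → (H →L[ℂ] H)}
    (hle : ∀ x : H →L[ℂ] H, x ∈ N → x ∈ M)
    (hE : IsCondExp M N E) (x : H →L[ℂ] H) (hx : x ∈ M) : ‖E x‖ ≤ ‖x‖ := by
  have hEx := hE.mem x hx
  have hExM := hle _ hEx
  have hsub : ∀ a b : H →L[ℂ] H, a ∈ M → b ∈ M → E (a - b) = E a - E b := by
    intro a b ha hb
    have h1 := hE.add a ((-1 : ℂ) • b) ha (smul_mem' M _ hb)
    rw [hE.smul _ _ hb] at h1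
    simpa [sub_eq_add_neg] using h1
  have h1 : 0 ≤ E (star (x - E x) * (x - E x)) := by
    apply hE.pos
    · exact mul_mem (star_mem (sub_mem hx hExM)) (sub_mem hx hExM)
    · exact star_mul_self_nonneg _
  have e1 : star (x - E x) * (x - E x) =
      (star x * x - star x * E x) - (star (E x) * x - star (E x) * E x) := by
    rw [star_sub]; noncomm_ring
  have h2 : E (star (x - E x) * (x - E x)) = E (star x * x) - star (E x) * E x := by
    rw [e1, hsub _ _ (sub_mem (mul_mem (star_mem hx) hx) (mul_mem (star_mem hx) hExM))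
      (sub_mem (mul_mem (star_mem hExM) hx) (mul_mem (star_mem hExM) hExM)),
      hsub _ _ (mul_mem (star_mem hx) hx) (mul_mem (star_mem hx) hExM),
      hsub _ _ (mul_mem (star_mem hExM) hx) (mul_mem (star_mem hExM) hExM),
      hE.right (E x) (star x) hEx (star_mem hx), hE.star_eq x hx,
      hE.left (star (E x)) x (star_mem hEx) hx,
      hE.proj _ (mul_mem (star_mem hEx) hEx)]
    noncomm_ring
  have h3 : 0 ≤ (((‖x‖ ^ 2 : ℝ) : ℂ) • (1 : H →L[ℂ] H) - star x * x) := by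
    rw [ContinuousLinearMap.nonneg_iff_isPositive, ContinuousLinearMap.isPositive_iff_complex]
    intro v
    have e : ⟪(((‖x‖ ^ 2 : ℝ) : ℂ) • (1 : H →L[ℂ] H) - star x * x) v, v⟫_ℂ =
        ((‖x‖ ^ 2 * ‖v‖ ^ 2 - ‖x v‖ ^ 2 : ℝ) : ℂ) := by
      have e2 : (((‖x‖ ^ 2 : ℝ) : ℂ) • (1 : H →L[ℂ] H) - star x * x) v =
        ((‖x‖ ^ 2 : ℝ) : ℂ) • v - (star x) (x v) := rfl
      rw [e2, inner_sub_left, inner_smul_left, ContinuousLinearMap.star_eq_adjoint,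
        ContinuousLinearMap.adjoint_inner_left, inner_self_eq_norm_sq_to_K,
        inner_self_eq_norm_sq_to_K]
      simp
    rw [e]
    constructor
    · rw [RCLike.re_to_complex, Complex.ofReal_re]
    · have : ‖x v‖ ≤ ‖x‖ * ‖v‖ := x.le_opNorm v
      have h4 : ‖x v‖ ^ 2 ≤ (‖x‖ * ‖v‖) ^ 2 := by gcongr
      simp only [RCLike.re_to_complex, Complex.ofReal_re]
      nlinarith
  have h4 : 0 ≤ E (((‖x‖ ^ 2 : ℝ) : ℂ) • (1 : H →L[ℂ] H) - star x * x) := by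
    apply hE.pos _ _ h3
    exact sub_mem (smul_mem' M _ (one_mem M)) (mul_mem (star_mem hx) hx)
  rw [hsub _ _ (smul_mem' M _ (one_mem M)) (mul_mem (star_mem hx) hx),
    hE.smul _ _ (one_mem M), hE.proj 1 (one_mem N)] at h4
  rw [h2] at h1
  have h5 : 0 ≤ ((‖x‖ ^ 2 : ℝ) : ℂ) • (1 : H →L[ℂ] H) - star (E x) * E x := by
    have := add_nonneg h4 h1
    have e : (((‖x‖ ^ 2 : ℝ) : ℂ) • (1 : H →L[ℂ] H) - E (star x * x)) +
      (E (star x * x) - star (E x) * E x) =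
      ((‖x‖ ^ 2 : ℝ) : ℂ) • (1 : H →L[ℂ] H) - star (E x) * E x := by abel
    rwa [e] at this
  rw [ContinuousLinearMap.nonneg_iff_isPositive] at h5
  apply ContinuousLinearMap.opNorm_le_bound _ (norm_nonneg _)
  intro v
  have h6 := h5.re_inner_nonneg_left v
  have e : ⟪(((‖x‖ ^ 2 : ℝ) : ℂ) • (1 : H →L[ℂ] H) - star (E x) * E x) v, v⟫_ℂ =
        ((‖x‖ ^ 2 * ‖v‖ ^ 2 - ‖(E x) v‖ ^ 2 : ℝ) : ℂ) := by
      have e2 : (((‖x‖ ^ 2 : ℝ) : ℂ) • (1 : H →L[ℂ] H) - star (E x) * E x) v =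
        ((‖x‖ ^ 2 : ℝ) : ℂ) • v - (star (E x)) ((E x) v) := rfl
      rw [e2, inner_sub_left, inner_smul_left, ContinuousLinearMap.star_eq_adjoint,
        ContinuousLinearMap.adjoint_inner_left, inner_self_eq_norm_sq_to_K,
        inner_self_eq_norm_sq_to_K]
      simp
  rw [e] at h6
  simp only [RCLike.re_to_complex, Complex.ofReal_re] at h6
  have h7 : ‖(E x) v‖ ^ 2 ≤ (‖x‖ * ‖v‖) ^ 2 := by nlinarith
  exact (sq_le_sq₀ (norm_nonneg _) (by positivity)).1 h7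

theorem modular_sub {M N : VonNeumannAlgebra H} {ξ : H} {U : ℝ → H →L[ℂ] H}
    (hle : ∀ x : H →L[ℂ] H, x ∈ N → x ∈ M) (hM : IsModular M ξ U)
    (hmod : ∀ (t : ℝ) (x : H →L[ℂ] H), x ∈ N → sgm U t x ∈ N) : IsModular N ξ U where
  zero := hM.zero
  add := hM.add
  star_eq := hM.star_eq
  cont := hM.cont
  fix := hM.fix
  mem := hmod
  kms := fun a b ha hb => hM.kms a b (hle a ha) (hle b hb)

theorem an_sub {M N : VonNeumannAlgebra H} {U : ℝ → H →L[ℂ] H} {F : ℂ → H →L[ℂ] H}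
    (hle : ∀ x : H →L[ℂ] H, x ∈ N → x ∈ M) (hF : IsAn N U F) : IsAn M U F where
  mem := fun z => hle _ (hF.mem z)
  diff := hF.diff
  diff' := hF.diff'
  ext := hF.ext
  bdd := hF.bdd

theorem comm_bdd (M : VonNeumannAlgebra H) (ξ : H) (a : H →L[ℂ] H) :
    BddAbove {r : ℝ | ∃ x : H →L[ℂ] H, x ∈ M ∧ ‖x‖ ≤ 1 ∧
      r = ‖vst ξ (x * a) - vst ξ (a * x)‖} := by
  refine ⟨2 * ‖a‖ * ‖ξ‖ ^ 2, ?_⟩
  rintro r ⟨x, -, hx, rfl⟩
  have h1 : ∀ y : H →L[ℂ] H, ‖vst ξ y‖ ≤ ‖y‖ * ‖ξ‖ ^ 2 := by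
    intro y
    unfold vst
    calc ‖⟪ξ, y ξ⟫_ℂ‖ ≤ ‖ξ‖ * ‖y ξ‖ := norm_inner_le_norm _ _
      _ ≤ ‖ξ‖ * (‖y‖ * ‖ξ‖) := by gcongr; exact y.le_opNorm ξ
      _ = ‖y‖ * ‖ξ‖ ^ 2 := by ring
  have h2 : ‖x * a‖ ≤ ‖a‖ := by
    calc ‖x * a‖ ≤ ‖x‖ * ‖a‖ := norm_mul_le _ _
      _ ≤ 1 * ‖a‖ := by gcongr
      _ = ‖a‖ := one_mul _
  have h3 : ‖a * x‖ ≤ ‖a‖ := by
    calc ‖a * x‖ ≤ ‖a‖ * ‖x‖ := norm_mul_le _ _
      _ ≤ ‖a‖ * 1 := by gcongr
      _ = ‖a‖ := mul_one _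
  calc ‖vst ξ (x * a) - vst ξ (a * x)‖ ≤ ‖vst ξ (x * a)‖ + ‖vst ξ (a * x)‖ := norm_sub_le _ _
    _ ≤ ‖x * a‖ * ‖ξ‖ ^ 2 + ‖a * x‖ * ‖ξ‖ ^ 2 := add_le_add (h1 _) (h1 _)
    _ ≤ ‖a‖ * ‖ξ‖ ^ 2 + ‖a‖ * ‖ξ‖ ^ 2 := by gcongr
    _ = 2 * ‖a‖ * ‖ξ‖ ^ 2 := by ring

theorem comm_nonneg (M : VonNeumannAlgebra H) (ξ : H) (a : H →L[ℂ] H) : 0 ≤ commNorm M ξ a := by
  unfold commNorm
  apply Real.sSup_nonneg
  rintro r ⟨x, -, -, rfl⟩
  exact norm_nonneg _

end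

section

variable {H : Type} [NormedAddCommGroup H] [InnerProductSpace ℂ H] [CompleteSpace H]
variable {K : Type} [NormedAddCommGroup K] [InnerProductSpace ℂ K] [CompleteSpace K]

/-- the reduction data -/
structure Red (N : VonNeumannAlgebra H) (ξ : H) (U : ℝ → H →L[ℂ] H)
    (N₁ : VonNeumannAlgebra K) (ξ₁ : K) (U₁ : ℝ → K →L[ℂ] K) (j : K →ₗᵢ[ℂ] H)
    (ρ : (H →L[ℂ] H) → (K →L[ℂ] K)) : Prop where
  hξ : j ξ₁ = ξ
  hU : ∀ (t : ℝ) (v : K), j (U₁ t v) = U t (j v)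
  mem : ∀ x : H →L[ℂ] H, x ∈ N → ρ x ∈ N₁
  norm : ∀ x : H →L[ℂ] H, x ∈ N → ‖ρ x‖ = ‖x‖
  app : ∀ x : H →L[ℂ] H, x ∈ N → ∀ v : K, j (ρ x v) = x (j v)
  surj : ∀ y : K →L[ℂ] K, y ∈ N₁ → ∃ x : H →L[ℂ] H, x ∈ N ∧ ρ x = y

variable {N : VonNeumannAlgebra H} {ξ : H} {U : ℝ → H →L[ℂ] H}
    {N₁ : VonNeumannAlgebra K} {ξ₁ : K} {U₁ : ℝ → K →L[ℂ] K} {j : K →ₗᵢ[ℂ] H}
    {ρ : (H →L[ℂ] H) → (K →L[ℂ] K)}

theorem red_mul (R : Red N ξ U N₁ ξ₁ U₁ j ρ) {x y : H →L[ℂ] H} (hx : x ∈ N) (hy : y ∈ N) :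
    ρ (x * y) = ρ x * ρ y := by
  ext v
  apply j.injective
  rw [R.app _ (mul_mem hx hy)]
  show x (y (j v)) = j (ρ x (ρ y v))
  rw [R.app _ hx, R.app _ hy]

theorem red_sub (R : Red N ξ U N₁ ξ₁ U₁ j ρ) {x y : H →L[ℂ] H} (hx : x ∈ N) (hy : y ∈ N) :
    ρ (x - y) = ρ x - ρ y := by
  ext v
  apply j.injective
  rw [R.app _ (sub_mem hx hy)]
  show x (j v) - y (j v) = j (ρ x v - ρ y v)
  rw [map_sub, R.app _ hx, R.app _ hy]

theorem red_smul (R : Red N ξ U N₁ ξ₁ U₁ j ρ) (c : ℂ) {x : H →L[ℂ] H} (hx : x ∈ N) :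
    ρ (c • x) = c • ρ x := by
  ext v
  apply j.injective
  rw [R.app _ (smul_mem' N c hx)]
  show c • x (j v) = j (c • ρ x v)
  rw [map_smul, R.app _ hx]

theorem red_one (R : Red N ξ U N₁ ξ₁ U₁ j ρ) : ρ 1 = 1 := by
  ext v
  apply j.injective
  rw [R.app _ (one_mem N)]
  rfl

theorem red_star (R : Red N ξ U N₁ ξ₁ U₁ j ρ) {x : H →L[ℂ] H} (hx : x ∈ N) :
    ρ (star x) = star (ρ x) := by
  ext w
  apply ext_inner_left ℂ
  intro v
  rw [star_apply_inner, ← j.inner_map_map, R.app _ (star_mem hx), star_apply_inner,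
    ← j.inner_map_map, R.app _ hx]

theorem red_inj (R : Red N ξ U N₁ ξ₁ U₁ j ρ) {x y : H →L[ℂ] H} (hx : x ∈ N) (hy : y ∈ N)
    (h : ρ x = ρ y) : x = y := by
  have h1 : ρ (x - y) = 0 := by rw [red_sub R hx hy, h, sub_self]
  have h2 := R.norm _ (sub_mem hx hy)
  rw [h1, norm_zero] at h2
  exact sub_eq_zero.1 (norm_eq_zero.1 h2.symm)

theorem red_type (R : Red N ξ U N₁ ξ₁ U₁ j ρ) (hN : IsTypeIII1 N) : IsTypeIII1 N₁ where
  nontriv := by
    obtain ⟨p, hp, hpp, hps, hp0, hp1⟩ := hN.nontriv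
    refine ⟨ρ p, R.mem p hp, ?_, ?_, ?_, ?_⟩
    · rw [← red_mul R hp hp, hpp]
    · rw [← red_star R hp, hps]
    · intro h
      apply hp0
      have h2 := R.norm p hp
      rw [h, norm_zero] at h2
      exact norm_eq_zero.1 h2.symm
    · intro h
      apply hp1
      apply red_inj R hp (one_mem N)
      rw [h, red_one R]
  equiv := by
    intro q hq hqq hqs hq0
    obtain ⟨x, hx, rfl⟩ := R.surj q hq
    have h1 : x * x = x := red_inj R (mul_mem hx hx) hx (by rw [red_mul R hx hx, hqq])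
    have h2 : star x = x := red_inj R (star_mem hx) hx (by rw [red_star R hx, hqs])
    have h3 : x ≠ 0 := by
      rintro rfl
      apply hq0
      have h2 := R.norm 0 hx
      rw [norm_zero] at h2
      exact norm_eq_zero.1 h2
    obtain ⟨v, hv, hv1, hv2⟩ := hN.equiv x hx h1 h2 h3
    refine ⟨ρ v, R.mem v hv, ?_, ?_⟩
    · rw [← red_star R hv, ← red_mul R (star_mem hv) hv, hv1, red_one R]
    · rw [← red_star R hv, ← red_mul R hv (star_mem hv), hv2]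
  homog := by
    intro η ζ hη hζ ε hε
    obtain ⟨u, hu, hu1, hu2, hu3⟩ := hN.homog (j η) (j ζ) (by rw [j.norm_map, hη])
      (by rw [j.norm_map, hζ]) ε hε
    refine ⟨ρ u, R.mem u hu, ?_, ?_, ?_⟩
    · rw [← red_star R hu, ← red_mul R (star_mem hu) hu, hu1, red_one R]
    · rw [← red_star R hu, ← red_mul R hu (star_mem hu), hu2, red_one R]
    · intro y hy hy1
      obtain ⟨x, hx, rfl⟩ := R.surj y hy
      have h4 := hu3 x hx (by rwa [← R.norm x hx])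
      rw [← j.inner_map_map, R.app _ hx, R.app _ hu, ← j.inner_map_map ζ, R.app _ hx]
      exact h4

/-- the adjoint of `j` -/
theorem red_adj (j : K →ₗᵢ[ℂ] H) (v : K) :
    ContinuousLinearMap.adjoint j.toContinuousLinearMap (j v) = v := by
  apply ext_inner_left ℂ
  intro w
  rw [ContinuousLinearMap.adjoint_inner_right]
  exact j.inner_map_map w v

theorem red_an (R : Red N ξ U N₁ ξ₁ U₁ j ρ) (hU : IsModular N ξ U) (hU₁ : IsModular N₁ ξ₁ U₁)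
    {F : ℂ → H →L[ℂ] H} (hF : IsAn N U F) : IsAn N₁ U₁ (fun z => ρ (F z)) where
  mem := fun z => R.mem _ (hF.mem z)
  diff := by
    intro v
    have e : (fun z : ℂ => ρ (F z) v) =
        fun z : ℂ => ContinuousLinearMap.adjoint j.toContinuousLinearMap (F z (j v)) := by
      funext z
      rw [← R.app _ (hF.mem z), red_adj]
    rw [e]
    exact (ContinuousLinearMap.differentiable _).comp (hF.diff (j v))
  diff' := by
    intro v
    have e : (fun z : ℂ => star (ρ (F (starRingEnd ℂ z))) v) =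
        fun z : ℂ => ContinuousLinearMap.adjoint j.toContinuousLinearMap
          (star (F (starRingEnd ℂ z)) (j v)) := by
      funext z
      rw [← red_star R (hF.mem _), ← R.app _ (star_mem (hF.mem _)), red_adj]
    rw [e]
    exact (ContinuousLinearMap.differentiable _).comp (hF.diff' (j v))
  ext := by
    intro t
    ext v
    apply j.injective
    rw [R.app _ (hF.mem _), hF.ext t]
    show U t (F 0 (star (U t) (j v))) = j (U₁ t (ρ (F 0) (star (U₁ t) v)))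
    rw [R.hU, R.app _ (hF.mem _), hU₁.star_eq, hU.star_eq, R.hU]
  bdd := by
    intro r
    obtain ⟨C, hC⟩ := hF.bdd r
    exact ⟨C, fun z hz => by rw [R.norm _ (hF.mem z)]; exact hC z hz⟩

theorem red_conj (h5 : S_A8a) (R : Red N ξ U N₁ ξ₁ U₁ j ρ) {M : VonNeumannAlgebra H}
    {J : H → H} {J₁ : K → K}
    (hle : ∀ x : H →L[ℂ] H, x ∈ N → x ∈ M) (hJ : IsConj M ξ U J) (hJ₁ : IsConj N₁ ξ₁ U₁ J₁)
    (hU : IsModular N ξ U) (hU₁ : IsModular N₁ ξ₁ U₁) (hcyc : IsCyclic N₁ ξ₁) (v : K) :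
    j (J₁ v) = J (j v) := by
  have hcl : IsClosed {v : K | j (J₁ v) = J (j v)} :=
    isClosed_eq (j.continuous.comp (conj_continuous hJ₁)) ((conj_continuous hJ).comp j.continuous)
  have hD : Dense {v : K | j (J₁ v) = J (j v)} := by
    have hsub : {v : K | ∃ x : K →L[ℂ] K, x ∈ N₁ ∧ x ξ₁ = v} ⊆
        closure {v : K | j (J₁ v) = J (j v)} := by
      rintro _ ⟨y, hy, rfl⟩
      obtain ⟨x, hx, rfl⟩ := R.surj y hy
      obtain ⟨F, hF, hF2⟩ := h5 H N ξ U hU x hx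
      apply mem_closure_of_tendsto (f := fun n => ρ (F n 0) ξ₁) (b := atTop)
      · rw [tendsto_iff_norm_sub_tendsto_zero]
        have h := hF2 (j ξ₁)
        rw [tendsto_iff_norm_sub_tendsto_zero] at h
        refine h.congr fun n => ?_
        rw [← R.app _ ((hF n).mem 0), ← R.app _ hx, ← map_sub, j.norm_map]
      · refine Eventually.of_forall fun n => ?_
        show j (J₁ (ρ (F n 0) ξ₁)) = J (j (ρ (F n 0) ξ₁))
        have a1 := hJ₁.an _ (red_an R hU hU₁ (hF n))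
        have a2 := hJ.an _ (an_sub hle (hF n))
        rw [a1, R.app _ ((hF n).mem 0), R.hξ, a2, ← red_star R ((hF n).mem _),
          R.app _ (star_mem ((hF n).mem _)), R.hξ]
    have h2 : Dense (closure {v : K | j (J₁ v) = J (j v)}) := hcyc.mono hsub
    exact dense_closure.1 h2
  have h3 := hcl.closure_eq
  rw [hD.closure_eq] at h3
  have : v ∈ {v : K | j (J₁ v) = J (j v)} := by rw [← h3]; trivial
  exact this

theorem red_comm (R : Red N ξ U N₁ ξ₁ U₁ j ρ) {M : VonNeumannAlgebra H}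
    {E : (H →L[ℂ] H) → (H →L[ℂ] H)}
    (hle : ∀ x : H →L[ℂ] H, x ∈ N → x ∈ M)
    (hE : IsCondExp M N E) (hinv : ∀ x : H →L[ℂ] H, x ∈ M → vst ξ (E x) = vst ξ x)
    {a : H →L[ℂ] H} (ha : a ∈ N) : commNorm M ξ a ≤ commNorm N₁ ξ₁ (ρ a) := by
  unfold commNorm
  apply csSup_le
  · exact ⟨_, 0, zero_mem M, by simp, rfl⟩
  rintro r ⟨x, hx, hx1, rfl⟩
  apply le_csSup (comm_bdd N₁ ξ₁ (ρ a))
  have hEx := hE.mem x hx
  refine ⟨ρ (E x), R.mem _ hEx, ?_, ?_⟩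
  · rw [R.norm _ hEx]
    exact (exp_norm hle hE x hx).trans hx1
  · have e1 : vst ξ (x * a) = vst ξ₁ (ρ (E x) * ρ a) := by
      rw [← hinv _ (mul_mem hx (hle a ha)), hE.right a x ha hx, ← red_mul R hEx ha]
      unfold vst
      rw [← j.inner_map_map, R.app _ (mul_mem hEx ha), R.hξ]
    have e2 : vst ξ (a * x) = vst ξ₁ (ρ a * ρ (E x)) := by
      rw [← hinv _ (mul_mem (hle a ha) hx), hE.left a x ha hx, ← red_mul R ha hEx]
      unfold vst
      rw [← j.inner_map_map, R.app _ (mul_mem ha hEx), R.hξ]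
    rw [e1, e2]

theorem red_bic (R : Red N ξ U N₁ ξ₁ U₁ j ρ) {M : VonNeumannAlgebra H}
    {E : (H →L[ℂ] H) → (H →L[ℂ] H)}
    (hle : ∀ x : H →L[ℂ] H, x ∈ N → x ∈ M)
    (hE : IsCondExp M N E) (hinv : ∀ x : H →L[ℂ] H, x ∈ M → vst ξ (E x) = vst ξ x)
    {b : H →L[ℂ] H} (hb : b ∈ N) (hb2 : b ∈ relBicentralizer N M ξ) :
    ρ b ∈ relBicentralizer N₁ N₁ ξ₁ := by
  refine ⟨R.mem b hb, ?_⟩
  rintro a₁ ha₁ ⟨C, hC⟩ hlim v
  choose a ha haρ using fun n => R.surj (a₁ n) (ha₁ n)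
  have hlim2 : Tendsto (fun n => commNorm M ξ (a n)) atTop (𝓝 0) := by
    apply squeeze_zero (fun n => comm_nonneg _ _ _) _ hlim
    intro n
    rw [← haρ n]
    exact red_comm R hle hE hinv (ha n)
  have hb3 := hb2.2 a ha ⟨C, fun n => by rw [← R.norm _ (ha n), haρ n]; exact hC n⟩ hlim2 (j v)
  have hm : ∀ n, a n * b - b * a n ∈ N := fun n => sub_mem (mul_mem (ha n) hb) (mul_mem hb (ha n))
  have e : ∀ n, a₁ n * ρ b - ρ b * a₁ n = ρ (a n * b - b * a n) := by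
    intro n
    rw [red_sub R (mul_mem (ha n) hb) (mul_mem hb (ha n)), red_mul R (ha n) hb,
      red_mul R hb (ha n), haρ]
  constructor
  · rw [tendsto_zero_iff_norm_tendsto_zero]
    refine (tendsto_zero_iff_norm_tendsto_zero.1 hb3.1).congr fun n => ?_
    rw [e n, ← R.app _ (hm n), j.norm_map]
  · rw [tendsto_zero_iff_norm_tendsto_zero]
    refine (tendsto_zero_iff_norm_tendsto_zero.1 hb3.2).congr fun n => ?_
    rw [e n, ← red_star R (hm n), ← R.app _ (star_mem (hm n)), j.norm_map]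

end

theorem r (h1 : S_D1) (h2 : S_scal) (h3 : S_conj) (h4 : S_red) (h5 : S_A8a) : S_inc2 := by
  intro H _ _ _ N M ξ U J E hI hN
  obtain ⟨K, i1, i2, i3, N₁, ξ₁, U₁, j, ρ, e1, e2, e3, e4, e5, e6, e7⟩ := h4 H N M ξ U J E hI
  have R : Red N ξ U N₁ ξ₁ U₁ j ρ := ⟨e1, e2, fun x hx => (e3 x hx).1, fun x hx => (e3 x hx).2.1,
    fun x hx => (e3 x hx).2.2, e4⟩
  have hU : IsModular N ξ U := modular_sub hI.le hI.modular hI.mod
  have hT := red_type R hN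
  have hn : ‖ξ₁‖ = 1 := by rw [← j.norm_map, e1, hI.unit]
  obtain ⟨J₁, hJ₁⟩ := h3 K N₁ ξ₁ U₁ e5 e6
  have hjj := red_conj h5 R hI.le hI.conj hJ₁ hU e5 e6
  refine { toInc := hI, scal := ?_, triv := ?_ }
  · intro t ε ht0 ht1 hε
    obtain ⟨v₁, hv1, hv2, hv3⟩ := (h2 K N₁ ξ₁ U₁ J₁ hn e5 e6 hJ₁ hT).1 t ε ht0 ht1 hε
    obtain ⟨v, hv, rfl⟩ := R.surj v₁ hv1
    refine ⟨v, hv, ?_, ?_⟩
    · apply red_inj R (mul_mem (star_mem hv) hv) (one_mem N)
      rw [red_mul R (star_mem hv) hv, red_star R hv, hv2, red_one R]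
    · rw [← j.norm_map, map_sub, map_smul, hjj, ← red_star R hv, R.app _ (star_mem hv),
        R.app _ hv, R.hξ] at hv3
      exact hv3
  · intro b hb hb2
    obtain ⟨c, hc⟩ := h1 K N₁ ξ₁ U₁ hn e6 e7 e5 hT (ρ b) (red_bic R hI.le hI.exp hI.inv hb hb2)
    refine ⟨c, ?_⟩
    apply red_inj R hb (smul_mem' N c (one_mem N))
    rw [hc, red_smul R c (one_mem N), red_one R]

end Pool.Agent.H255.BC.R_inc2
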