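import Pool.Agent.H255.BC.Defs2

set_option autoImplicit false

open MeasureTheory Filter Topology Complex
open scoped InnerProductSpace ENNReal FourierTransform SchwartzMap ContDiff

namespace Pool.Agent.H255.BC.R_near

open Pool.Agent.W662.CB Pool.Agent.H255.BC

variable {H : Type} [NormedAddCommGroup H] [InnerProductSpace ℂ H] [CompleteSpace H]

/-- the Schwartz function of a test function -/
noncomputable def sch {h : ℝ → ℂ} (hh : Tst h) : 𝓢(ℝ, ℂ) := hh.2.toSchwartzMap hh.1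

lemma sch_coe {h : ℝ → ℂ} (hh : Tst h) : (sch hh : ℝ → ℂ) = h := rfl

lemma four_sch {h : ℝ → ℂ} (hh : Tst h) : ((𝓕 (sch hh) : 𝓢(ℝ, ℂ)) : ℝ → ℂ) = 𝓕 h := by
  rw [SchwartzMap.fourier_coe, sch_coe]

lemma int_four {h : ℝ → ℂ} (hh : Tst h) : Integrable (𝓕 h) := by
  rw [← four_sch hh]
  exact (𝓕 (sch hh) : 𝓢(ℝ, ℂ)).integrable

lemma four_cont {h : ℝ → ℂ} (hh : Tst h) : Continuous (𝓕 h) := by
  rw [← four_sch hh]
  exact (𝓕 (sch hh) : 𝓢(ℝ, ℂ)).continuous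

lemma int_tst {h : ℝ → ℂ} (hh : Tst h) : Integrable h :=
  hh.1.continuous.integrable_of_hasCompactSupport hh.2

lemma four_decay {h : ℝ → ℂ} (hh : Tst h) :
    ∃ C : ℝ, 0 ≤ C ∧ ∀ s : ℝ, ‖𝓕 h s‖ ≤ C * (1 + ‖s‖) ^ (-(2 : ℝ)) := by
  have h1 := SchwartzMap.one_add_le_sup_seminorm_apply (𝕜 := ℝ) (m := (2, 0)) (k := 2) (n := 0)
    le_rfl le_rfl (𝓕 (sch hh) : 𝓢(ℝ, ℂ))
  refine ⟨2 ^ 2 * (Finset.Iic ((2, 0) : ℕ × ℕ)).sup (fun m => SchwartzMap.seminorm ℝ m.1 m.2)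
    (𝓕 (sch hh) : 𝓢(ℝ, ℂ)), by positivity, fun s => ?_⟩
  have h2 := h1 s
  rw [norm_iteratedFDeriv_zero, four_sch hh] at h2
  have h3 : (0 : ℝ) < (1 + ‖s‖) ^ 2 := by positivity
  have h4 : (1 + ‖s‖) ^ (-(2 : ℝ)) = ((1 + ‖s‖) ^ 2)⁻¹ := by
    rw [Real.rpow_neg (by positivity)]
    norm_num
  rw [h4, ← div_eq_mul_inv, le_div_iff₀ h3, mul_comm]
  exact h2

lemma norm_U {M : VonNeumannAlgebra H} {ξ : H} {U : ℝ → H →L[ℂ] H} (hM : IsModular M ξ U)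
    (t : ℝ) (v : H) : ‖U t v‖ = ‖v‖ := by
  have h1 : star (U t) * U t = 1 := by
    rw [hM.star_eq, ← hM.add, neg_add_cancel, hM.zero]
  have h2 : ⟪U t v, U t v⟫_ℂ = ⟪v, v⟫_ℂ := by
    rw [← ContinuousLinearMap.adjoint_inner_right, ← ContinuousLinearMap.star_eq_adjoint]
    have : star (U t) (U t v) = (star (U t) * U t) v := rfl
    rw [this, h1]; rfl
  have h3 : ‖U t v‖ ^ 2 = ‖v‖ ^ 2 := by
    rw [inner_self_eq_norm_sq_to_K, inner_self_eq_norm_sq_to_K] at h2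
    exact_mod_cast h2
  exact (pow_left_inj₀ (norm_nonneg _) (norm_nonneg _) two_ne_zero).1 h3

lemma psi_integrand_int {M : VonNeumannAlgebra H} {ξ : H} {U : ℝ → H →L[ℂ] H}
    (hM : IsModular M ξ U) {F : ℝ → ℂ} (hF : Integrable F) (hc : Continuous F) (a : ℝ) (v : H) :
    Integrable (fun s : ℝ => F s • U (a * s) v) := by
  refine (hF.norm.mul_const ‖v‖).mono' ?_ ?_
  · exact (hc.smul ((hM.cont v).comp (continuous_const.mul continuous_id))).aestronglyMeasurable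
  · refine Eventually.of_forall fun s => ?_
    rw [norm_smul, norm_U hM]

lemma tst_add {h₁ h₂ : ℝ → ℂ} (k₁ : Tst h₁) (k₂ : Tst h₂) : Tst (fun κ => h₁ κ + h₂ κ) :=
  ⟨k₁.1.add k₂.1, k₁.2.add k₂.2⟩

lemma four_add {h₁ h₂ : ℝ → ℂ} (k₁ : Tst h₁) (k₂ : Tst h₂) (s : ℝ) :
    𝓕 (fun κ => h₁ κ + h₂ κ) s = 𝓕 h₁ s + 𝓕 h₂ s := by
  have e1 : sch (tst_add k₁ k₂) = sch k₁ + sch k₂ := by
    ext κ; rfl
  have e2 : (𝓕 (sch (tst_add k₁ k₂)) : 𝓢(ℝ, ℂ)) = 𝓕 (sch k₁) + 𝓕 (sch k₂) := by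
    rw [e1, FourierTransform.fourier_add]
  have e3 := congrArg (fun f : 𝓢(ℝ, ℂ) => f s) e2
  simp only [add_apply] at e3
  rw [← four_sch (tst_add k₁ k₂), ← four_sch k₁, ← four_sch k₂]
  exact e3

lemma psi_add {M : VonNeumannAlgebra H} {ξ : H} {U : ℝ → H →L[ℂ] H}
    (hM : IsModular M ξ U) {h₁ h₂ : ℝ → ℂ} (k₁ : Tst h₁) (k₂ : Tst h₂) (v : H) :
    psi U (fun κ => h₁ κ + h₂ κ) v = psi U h₁ v + psi U h₂ v := by
  unfold psi
  rw [← integral_add (psi_integrand_int hM (int_four k₁) (four_cont k₁) _ v)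
    (psi_integrand_int hM (int_four k₂) (four_cont k₂) _ v)]
  refine integral_congr_ae (Eventually.of_forall fun s => ?_)
  simp only [four_add k₁ k₂, add_smul]

lemma four_scale (h : ℝ → ℂ) {a : ℝ} (ha : 0 < a) (s : ℝ) :
    𝓕 (fun κ => h (a * κ)) s = ((a⁻¹ : ℝ) : ℂ) * 𝓕 h (a⁻¹ * s) := by
  rw [Real.fourier_real_eq_integral_exp_smul, Real.fourier_real_eq_integral_exp_smul]
  have := Measure.integral_comp_mul_left
    (fun u : ℝ => cexp (↑(-2 * Real.pi * u * (a⁻¹ * s)) * I) • h u) a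
  rw [abs_of_pos (inv_pos.2 ha)] at this
  rw [Complex.real_smul] at this
  rw [← this]
  refine integral_congr_ae (Eventually.of_forall fun u => ?_)
  simp only
  congr 4
  field_simp

omit [CompleteSpace H] in
lemma psi_scale {U : ℝ → H →L[ℂ] H} (h : ℝ → ℂ) {a : ℝ} (ha : 0 < a) (v : H) :
    psi U (fun κ => h (a * κ)) v = ∫ s : ℝ, (𝓕 h s) • U (2 * Real.pi * a * s) v := by
  unfold psi
  have := Measure.integral_comp_mul_left
    (fun u : ℝ => (𝓕 h u) • U (2 * Real.pi * a * u) v) a⁻¹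
  rw [inv_inv, abs_of_pos ha] at this
  have h2 : ∫ s : ℝ, (𝓕 h s) • U (2 * Real.pi * a * s) v =
      ((a⁻¹ : ℝ)) • ∫ s : ℝ, (𝓕 h (a⁻¹ * s)) • U (2 * Real.pi * a * (a⁻¹ * s)) v := by
    rw [this, smul_smul, inv_mul_cancel₀ ha.ne', one_smul]
  rw [h2, ← integral_smul]
  refine integral_congr_ae (Eventually.of_forall fun s => ?_)
  simp only [four_scale h ha]
  rw [mul_smul, show 2 * Real.pi * a * (a⁻¹ * s) = 2 * Real.pi * s by field_simp]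
  rw [Complex.coe_smul]

lemma int_four_eq {h : ℝ → ℂ} (hh : Tst h) : ∫ s, 𝓕 h s = h 0 := by
  have h1 := congrFun (hh.1.continuous.fourierInv_fourier_eq (int_tst hh) (int_four hh)) 0
  rw [Real.fourierInv_eq'] at h1
  rw [← h1]
  refine integral_congr_ae (Eventually.of_forall fun s => ?_)
  simp

lemma approx_one {M : VonNeumannAlgebra H} {ξ : H} {U : ℝ → H →L[ℂ] H}
    (hM : IsModular M ξ U) {h : ℝ → ℂ} (hh : Tst h) (v : H) :
    Tendsto (fun m : ℕ => psi U (fun κ => h (((m : ℝ) + 1)⁻¹ * κ)) v) atTop (𝓝 (h 0 • v)) := by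
  have e : ∀ m : ℕ, psi U (fun κ => h (((m : ℝ) + 1)⁻¹ * κ)) v =
      ∫ s : ℝ, (𝓕 h s) • U (2 * Real.pi * ((m : ℝ) + 1)⁻¹ * s) v := fun m =>
    psi_scale h (by positivity) v
  simp_rw [e]
  rw [← int_four_eq hh, ← integral_smul_const]
  refine tendsto_integral_of_dominated_convergence (fun s => ‖𝓕 h s‖ * ‖v‖) ?_ ?_ ?_ ?_
  · intro m
    exact (psi_integrand_int hM (int_four hh) (four_cont hh) _ v).aestronglyMeasurable
  · exact (int_four hh).norm.mul_const _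
  · intro m
    refine Eventually.of_forall fun s => ?_
    rw [norm_smul, norm_U hM]
  · refine Eventually.of_forall fun s => ?_
    refine Tendsto.const_smul ?_ _
    have h1 : Tendsto (fun m : ℕ => 2 * Real.pi * ((m : ℝ) + 1)⁻¹ * s) atTop (𝓝 0) := by
      have h2 : Tendsto (fun m : ℕ => ((m : ℝ) + 1)⁻¹) atTop (𝓝 0) := by
        simpa only [one_div] using tendsto_one_div_add_atTop_nhds_zero_nat (𝕜 := ℝ)
      have h3 := (h2.const_mul (2 * Real.pi)).mul_const s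
      simpa using h3
    have h4 := ((hM.cont v).tendsto 0).comp h1
    rw [hM.zero] at h4
    exact h4

lemma tst_smul {h : ℝ → ℂ} (k : Tst h) (c : ℂ) : Tst (fun κ => c * h κ) :=
  ⟨contDiff_const.mul k.1, k.2.mul_left⟩

lemma four_smul (h : ℝ → ℂ) (c : ℂ) (s : ℝ) :
    𝓕 (fun κ => c * h κ) s = c * 𝓕 h s := by
  rw [Real.fourier_real_eq_integral_exp_smul, Real.fourier_real_eq_integral_exp_smul,
    ← integral_const_mul]
  refine integral_congr_ae (Eventually.of_forall fun u => ?_)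
  simp only [smul_eq_mul]
  ring

omit [CompleteSpace H] in
lemma psi_smul {U : ℝ → H →L[ℂ] H} (h : ℝ → ℂ) (c : ℂ) (v : H) :
    psi U (fun κ => c * h κ) v = c • psi U h v := by
  unfold psi
  rw [← integral_smul]
  refine integral_congr_ae (Eventually.of_forall fun s => ?_)
  simp only [four_smul, mul_smul]

lemma psi_sub {M : VonNeumannAlgebra H} {ξ : H} {U : ℝ → H →L[ℂ] H}
    (hM : IsModular M ξ U) {h₁ h₂ : ℝ → ℂ} (k₁ : Tst h₁) (k₂ : Tst h₂) (v : H) :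
    psi U (fun κ => h₁ κ - h₂ κ) v = psi U h₁ v - psi U h₂ v := by
  have h3 := psi_add hM k₁ (tst_smul k₂ (-1)) v
  rw [psi_smul] at h3
  rw [show (fun κ => h₁ κ - h₂ κ) = (fun κ => h₁ κ + (-1) * h₂ κ) from by
    funext κ; ring, h3, neg_one_smul, sub_eq_add_neg]

/-- the cut-off functions -/
lemma exists_bump (κ₀ δ : ℝ) (hδ : 0 < δ) : ∃ h : ℝ → ℂ, Tst h ∧ (∀ κ, ‖h κ‖ ≤ 1) ∧
    (∀ᶠ κ in 𝓝 κ₀, h κ = 1) ∧ (∀ κ, 2 * δ ≤ |κ - κ₀| → h κ = 0) := by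
  let f : ContDiffBump κ₀ := ⟨δ, 2 * δ, hδ, by linarith⟩
  refine ⟨fun x => ((f x : ℝ) : ℂ), ⟨?_, ?_⟩, ?_, ?_, ?_⟩
  · exact Complex.ofRealCLM.contDiff.comp f.contDiff
  · exact f.hasCompactSupport.comp_left (g := fun x : ℝ => (x : ℂ)) Complex.ofReal_zero
  · intro κ
    rw [Complex.norm_real, Real.norm_eq_abs, abs_of_nonneg f.nonneg]
    exact f.le_one
  · filter_upwards [Metric.ball_mem_nhds κ₀ hδ] with κ hκ
    rw [f.one_of_mem_closedBall (Metric.ball_subset_closedBall hκ)]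
    simp
  · intro κ hκ
    have h0 : f κ = 0 := f.zero_of_le_dist (by rw [Real.dist_eq]; exact hκ)
    simp only [h0]
    simp

lemma tst_mul {h₁ h₂ : ℝ → ℂ} (k₁ : Tst h₁) (k₂ : Tst h₂) : Tst (fun κ => h₁ κ * h₂ κ) :=
  ⟨k₁.1.mul k₂.1, k₂.2.mul_left⟩

lemma tst_sub {h₁ h₂ : ℝ → ℂ} (k₁ : Tst h₁) (k₂ : Tst h₂) : Tst (fun κ => h₁ κ - h₂ κ) := by
  refine ⟨k₁.1.sub k₂.1, ?_⟩
  have := k₁.2.add (tst_smul k₂ (-1)).2
  have e : (fun κ => h₁ κ - h₂ κ) = h₁ + (fun κ => (-1) * h₂ κ) := by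
    funext κ; simp [sub_eq_add_neg]
  rw [e]
  exact this

lemma tst_smooth_mul {g : ℝ → ℂ} (kg : ContDiff ℝ (⊤ : ℕ∞) g) {h : ℝ → ℂ} (k : Tst h) :
    Tst (fun κ => g κ * h κ) :=
  ⟨kg.mul k.1, k.2.mul_left⟩

/-- division by `e^{κ/2} - e^{κ₀/2}` away from `κ₀` -/
lemma exists_div (κ₀ : ℝ) {h : ℝ → ℂ} (hh : Tst h) (h1 : ∀ᶠ κ in 𝓝 κ₀, h κ = 1) :
    ∃ K : ℝ, 0 ≤ K ∧ ∀ χ : ℝ → ℂ, Tst χ → (∀ κ, ‖χ κ‖ ≤ 1) → ∃ g : ℝ → ℂ, Tst g ∧
      (∀ κ, ‖g κ‖ ≤ K) ∧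
      ∀ κ : ℝ, (cexp (κ / 2) - cexp (κ₀ / 2)) * g κ = χ κ - χ κ * h κ := by
  obtain ⟨δ, hδ, hδ1⟩ := Metric.eventually_nhds_iff.1 h1
  obtain ⟨A, hA⟩ := hh.1.continuous.bounded_above_of_compact_support hh.2
  set c : ℝ := min (Real.exp ((κ₀ + δ) / 2) - Real.exp (κ₀ / 2))
    (Real.exp (κ₀ / 2) - Real.exp ((κ₀ - δ) / 2)) with hc
  have hcpos : 0 < c := by
    refine lt_min ?_ ?_
    · exact sub_pos.2 (Real.exp_lt_exp.2 (by linarith))
    · exact sub_pos.2 (Real.exp_lt_exp.2 (by linarith))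
  have hlow : ∀ κ : ℝ, δ ≤ |κ - κ₀| → c ≤ ‖cexp (κ / 2) - cexp (κ₀ / 2)‖ := by
    intro κ hκ
    have e : cexp (κ / 2) - cexp (κ₀ / 2) = ((Real.exp (κ / 2) - Real.exp (κ₀ / 2) : ℝ) : ℂ) := by
      push_cast
      rfl
    rw [e, Complex.norm_real, Real.norm_eq_abs]
    rcases le_abs.1 hκ with h2 | h2
    · have h3 : Real.exp ((κ₀ + δ) / 2) ≤ Real.exp (κ / 2) := Real.exp_le_exp.2 (by linarith)
      exact (min_le_left _ _).trans ((by linarith : _ ≤ _).trans (le_abs_self _))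
    · have h3 : Real.exp (κ / 2) ≤ Real.exp ((κ₀ - δ) / 2) := Real.exp_le_exp.2 (by linarith)
      refine (min_le_right _ _).trans ((?_ : _ ≤ _).trans (neg_le_abs _))
      linarith
  have hne : ∀ κ : ℝ, κ ≠ κ₀ → cexp (κ / 2) - cexp (κ₀ / 2) ≠ 0 := by
    intro κ hκ h2
    have e : cexp (κ / 2) - cexp (κ₀ / 2) = ((Real.exp (κ / 2) - Real.exp (κ₀ / 2) : ℝ) : ℂ) := by
      push_cast
      rfl
    rw [e] at h2
    have h3 : Real.exp (κ / 2) - Real.exp (κ₀ / 2) = 0 := by exact_mod_cast h2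
    have h4 : κ / 2 = κ₀ / 2 := Real.exp_injective (by linarith)
    exact hκ (by linarith)
  have hA0 : 0 ≤ A := (norm_nonneg _).trans (hA 0)
  refine ⟨(1 + A) / c, by positivity, ?_⟩
  intro χ hχ hχ1
  refine ⟨fun κ => (cexp (κ / 2) - cexp (κ₀ / 2))⁻¹ * (χ κ - χ κ * h κ), ⟨?_, ?_⟩, ?_, ?_⟩
  · rw [contDiff_iff_contDiffAt]
    intro κ
    by_cases hκ : κ = κ₀
    · have h2 : (fun κ : ℝ => (cexp (κ / 2) - cexp (κ₀ / 2))⁻¹ * (χ κ - χ κ * h κ)) =ᶠ[𝓝 κ]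
          fun _ => (0 : ℂ) := by
        rw [hκ]
        filter_upwards [h1] with x hx
        rw [hx]
        ring
      exact contDiffAt_const.congr_of_eventuallyEq h2
    · refine ContDiffAt.mul (ContDiffAt.inv ?_ (hne κ hκ)) ?_
      · have h3 : ContDiff ℝ (⊤ : ℕ∞) (fun κ : ℝ => cexp (κ / 2) - cexp (κ₀ / 2)) := by
          refine ContDiff.sub ?_ contDiff_const
          exact Complex.contDiff_exp.comp (Complex.ofRealCLM.contDiff.div_const 2)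
        exact h3.contDiffAt
      · exact (hχ.1.sub (hχ.1.mul hh.1)).contDiffAt
  · exact (tst_sub hχ (tst_mul hχ hh)).2.mul_left
  · intro κ
    by_cases hκ : |κ - κ₀| < δ
    · have h2 : h κ = 1 := hδ1 (by rw [Real.dist_eq]; exact hκ)
      simp only [h2]
      rw [mul_one, sub_self, mul_zero, norm_zero]
      positivity
    · have h2 := hlow κ (not_lt.1 hκ)
      have h7 : (1 + A) / c = c⁻¹ * (1 + A) := by rw [div_eq_mul_inv, mul_comm]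
      rw [norm_mul, norm_inv, h7]
      have h3 : ‖χ κ - χ κ * h κ‖ ≤ 1 + A := by
        refine (norm_sub_le _ _).trans (add_le_add (hχ1 κ) ?_)
        rw [norm_mul]
        calc ‖χ κ‖ * ‖h κ‖ ≤ 1 * A := mul_le_mul (hχ1 κ) (hA κ) (norm_nonneg _) zero_le_one
          _ = A := one_mul A
      exact mul_le_mul (inv_anti₀ hcpos h2) h3 (norm_nonneg _) (by positivity)
  · intro κ
    by_cases hκ : κ = κ₀
    · have h2 : h κ₀ = 1 := h1.self_of_nhds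
      rw [hκ, h2]
      ring
    · rw [← mul_assoc, mul_inv_cancel₀ (hne κ hκ), one_mul]

section

variable {M : VonNeumannAlgebra H} {ξ : H} {U : ℝ → H →L[ℂ] H} {J : H → H}

lemma key (H1 : S_psi) (H2 : S_psi_mul) (H3 : S_psi_norm) (H5 : S_psi_J)
    (hM : IsModular M ξ U) (hJ : IsConj M ξ U J) (κ₀ : ℝ)
    {h : ℝ → ℂ} (hh : Tst h) (h1 : ∀ᶠ κ in 𝓝 κ₀, h κ = 1) :
    ∃ K : ℝ, 0 ≤ K ∧ ∀ a : H →L[ℂ] H, a ∈ M →
      ‖psi U h (a ξ) - a ξ‖ ≤ K * ‖J (star a ξ) - cexp (κ₀ / 2) • a ξ‖ := by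
  obtain ⟨K, hK, hd⟩ := exists_div κ₀ hh h1
  refine ⟨K, hK, fun a ha => ?_⟩
  obtain ⟨χ, hχ, hχ1, hχe, -⟩ := exists_bump 0 1 one_pos
  have hχ0 : χ 0 = 1 := hχe.self_of_nhds
  have hm : ∀ m : ℕ, Tst (fun κ => χ (((m : ℝ) + 1)⁻¹ * κ)) := by
    intro m
    have hpos : (0 : ℝ) < ((m : ℝ) + 1)⁻¹ := by positivity
    refine ⟨hχ.1.comp (contDiff_const.mul contDiff_id), ?_⟩
    have h2 := hχ.2.comp_homeomorph (Homeomorph.mulLeft₀ (((m : ℝ) + 1)⁻¹) hpos.ne')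
    exact h2
  have hb : ∀ m : ℕ, ‖psi U (fun κ => χ (((m : ℝ) + 1)⁻¹ * κ)) (psi U h (a ξ) - a ξ)‖ ≤
      K * ‖J (star a ξ) - cexp (κ₀ / 2) • a ξ‖ := by
    intro m
    obtain ⟨g, hg, hgK, hge⟩ := hd _ (hm m) (fun κ => hχ1 _)
    obtain ⟨⟨P, hP⟩, -, -, -⟩ := H1 H M ξ U hM _ (hm m)
    obtain ⟨⟨Pg, hPg⟩, -, -, -⟩ := H1 H M ξ U hM _ hg
    have e1 : psi U (fun κ => χ (((m : ℝ) + 1)⁻¹ * κ)) (psi U h (a ξ) - a ξ) =
        - psi U (fun κ => χ (((m : ℝ) + 1)⁻¹ * κ) - χ (((m : ℝ) + 1)⁻¹ * κ) * h κ) (a ξ) := by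
      rw [psi_sub hM (hm m) (tst_mul (hm m) hh), H2 H M ξ U hM _ _ (hm m) hh, ← hP, ← hP, ← hP,
        map_sub]
      abel
    have e2 : psi U (fun κ => χ (((m : ℝ) + 1)⁻¹ * κ) - χ (((m : ℝ) + 1)⁻¹ * κ) * h κ) (a ξ) =
        psi U g (J (star a ξ) - cexp (κ₀ / 2) • a ξ) := by
      have e3 : (fun κ => χ (((m : ℝ) + 1)⁻¹ * κ) - χ (((m : ℝ) + 1)⁻¹ * κ) * h κ) =
          fun κ : ℝ => cexp (κ / 2) * g κ - cexp (κ₀ / 2) * g κ := by
        funext κ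
        rw [← hge κ]
        ring
      have hexp : ContDiff ℝ (⊤ : ℕ∞) (fun κ : ℝ => cexp (κ / 2)) :=
        Complex.contDiff_exp.comp (Complex.ofRealCLM.contDiff.div_const 2)
      rw [e3, psi_sub hM (tst_smooth_mul hexp hg) (tst_smul hg _), psi_smul,
        (H5 H M ξ U J hM hJ g hg).2 a ha, ← hPg, ← hPg, ← hPg, map_sub, map_smul]
    rw [e1, norm_neg, e2]
    exact H3 H M ξ U hM g hg K hgK _
  have hlim := (approx_one hM hχ (psi U h (a ξ) - a ξ)).norm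
  rw [hχ0, one_smul] at hlim
  exact le_of_tendsto' hlim hb

end

theorem r (h1 : S_psi) (h2 : S_psi_mul) (h3 : S_psi_norm) (_h4 : S_psi_one) (h5 : S_psi_J) : S_near := by
  intro H _ _ _ M ξ U J hM hJ x κ₀ hx hC hlim
  obtain ⟨C, hC⟩ := hC
  have hC0 : 0 ≤ C := (norm_nonneg _).trans (hC 0)
  have hpart : ∀ h : ℝ → ℂ, Tst h → (∀ᶠ κ in 𝓝 κ₀, h κ = 1) →
      Tendsto (fun k => psi U h (x k ξ) - x k ξ) atTop (𝓝 0) := by
    intro h hh hh1
    obtain ⟨K, hK, hkey⟩ := key h1 h2 h3 h5 hM hJ κ₀ hh hh1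
    refine squeeze_zero_norm (fun k => hkey (x k) (hx k)) ?_
    have := hlim.norm.const_mul K
    rwa [norm_zero, mul_zero] at this
  refine ⟨fun s => ?_, hpart⟩
  rw [tendsto_zero_iff_norm_tendsto_zero]
  rw [Metric.tendsto_atTop]
  intro ε hε
  set δ : ℝ := ε / (4 * (|s| * C + 1)) with hδ
  have hpos : 0 < |s| * C + 1 := by positivity
  have hδpos : 0 < δ := by positivity
  obtain ⟨h, hh, hh1, hhe, hhz⟩ := exists_bump κ₀ δ hδpos
  have hp := hpart h hh hhe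
  rw [tendsto_zero_iff_norm_tendsto_zero, Metric.tendsto_atTop] at hp
  obtain ⟨N, hN⟩ := hp (ε / 4) (by positivity)
  refine ⟨N, fun k hk => ?_⟩
  have hk1 := hN k hk
  rw [Real.dist_eq, sub_zero, abs_of_nonneg (norm_nonneg _)] at hk1 ⊢
  obtain ⟨-, -, -, hsh⟩ := h1 H M ξ U hM h hh
  have hexp : ContDiff ℝ (⊤ : ℕ∞) (fun κ : ℝ => cexp (I * s * κ)) :=
    Complex.contDiff_exp.comp (contDiff_const.mul Complex.ofRealCLM.contDiff)
  have e1 : U s (psi U h (x k ξ)) - cexp (I * ((s * κ₀ : ℝ) : ℂ)) • psi U h (x k ξ) =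
      psi U (fun κ : ℝ => cexp (I * s * κ) * h κ - cexp (I * ((s * κ₀ : ℝ) : ℂ)) * h κ)
        (x k ξ) := by
    rw [psi_sub hM (tst_smooth_mul hexp hh) (tst_smul hh _), psi_smul, hsh s]
  have hb : ∀ κ : ℝ, ‖cexp (I * s * κ) * h κ - cexp (I * ((s * κ₀ : ℝ) : ℂ)) * h κ‖ ≤
      |s| * (2 * δ) := by
    intro κ
    by_cases hκ : 2 * δ ≤ |κ - κ₀|
    · rw [hhz κ hκ, mul_zero, mul_zero, sub_self, norm_zero]
      positivity
    · rw [← sub_mul, norm_mul]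
      have h6 : ‖cexp (I * s * κ) - cexp (I * ((s * κ₀ : ℝ) : ℂ))‖ ≤ |s * κ - s * κ₀| := by
        have e6 : I * s * κ = I * ((s * κ : ℝ) : ℂ) := by push_cast; ring
        rw [e6]
        have := Real.norm_exp_I_mul_ofReal_sub_one_le (x := s * κ - s * κ₀)
        have e7 : cexp (I * ((s * κ : ℝ) : ℂ)) - cexp (I * ((s * κ₀ : ℝ) : ℂ)) =
            cexp (I * ((s * κ₀ : ℝ) : ℂ)) * (cexp (I * ((s * κ - s * κ₀ : ℝ) : ℂ)) - 1) := by
          rw [mul_sub, ← Complex.exp_add, mul_one]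
          congr 2
          push_cast
          ring
        have e8 : ‖cexp (I * ((s * κ₀ : ℝ) : ℂ))‖ = 1 := by
          rw [mul_comm]
          exact Complex.norm_exp_ofReal_mul_I _
        rw [e7, norm_mul, e8, one_mul]
        exact this
      have h7 : |s * κ - s * κ₀| ≤ |s| * (2 * δ) := by
        rw [← mul_sub, abs_mul]
        exact mul_le_mul_of_nonneg_left (not_le.1 hκ).le (abs_nonneg _)
      calc _ ≤ (|s| * (2 * δ)) * 1 := mul_le_mul (h6.trans h7) (hh1 κ) (norm_nonneg _)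
            (by positivity)
        _ = _ := mul_one _
  have h8 := h3 H M ξ U hM _ (tst_sub (tst_smooth_mul hexp hh) (tst_smul hh _)) _ hb (x k ξ)
  have e9 : U s (x k ξ) - cexp (I * ((s * κ₀ : ℝ) : ℂ)) • x k ξ =
      (U s (psi U h (x k ξ)) - cexp (I * ((s * κ₀ : ℝ) : ℂ)) • psi U h (x k ξ)) -
      (U s (psi U h (x k ξ) - x k ξ) -
        cexp (I * ((s * κ₀ : ℝ) : ℂ)) • (psi U h (x k ξ) - x k ξ)) := by
    rw [map_sub, smul_sub]
    abel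
  have e10 : ‖cexp (I * ((s * κ₀ : ℝ) : ℂ))‖ = 1 := by
    rw [mul_comm]
    exact Complex.norm_exp_ofReal_mul_I _
  rw [e9]
  refine (norm_sub_le _ _).trans_lt ?_
  rw [e1]
  have h11 : ‖U s (psi U h (x k ξ) - x k ξ) -
      cexp (I * ((s * κ₀ : ℝ) : ℂ)) • (psi U h (x k ξ) - x k ξ)‖ ≤
      2 * ‖psi U h (x k ξ) - x k ξ‖ := by
    refine (norm_sub_le _ _).trans ?_
    rw [norm_U hM, norm_smul, e10, one_mul]
    linarith
  have h12 : |s| * (2 * δ) * ‖x k ξ‖ ≤ ε / 2 := by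
    have h13 : |s| * (2 * δ) * ‖x k ξ‖ ≤ |s| * (2 * δ) * C :=
      mul_le_mul_of_nonneg_left (hC k) (by positivity)
    have h14 : |s| * (2 * δ) * C = (|s| * C) * (2 * δ) := by ring
    have h15 : (|s| * C) * (2 * δ) ≤ (|s| * C + 1) * (2 * δ) :=
      mul_le_mul_of_nonneg_right (by linarith) (by positivity)
    have h16 : (|s| * C + 1) * (2 * δ) = ε / 2 := by
      rw [hδ]
      field_simp
      ring
    linarith
  linarith

end Pool.Agent.H255.BC.R_near
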