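import Pool.Agent.H255.BC.Defs2

set_option autoImplicit false

open MeasureTheory Filter Topology Complex
open scoped InnerProductSpace ENNReal FourierTransform

namespace Pool.Agent.H255.BC.R_opmul

open Pool.Agent.W662.CB Pool.Agent.H255.BC

theorem joint {H : Type} [NormedAddCommGroup H] [InnerProductSpace ℂ H] [CompleteSpace H]
    {Y : ℝ → H →L[ℂ] H} {C : ℝ} (hY : ∀ v : H, Continuous fun p => Y p v)
    (hC : ∀ p, ‖Y p‖ ≤ C) : Continuous (fun q : ℝ × H => Y q.1 q.2) := by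
  rw [continuous_iff_continuousAt]
  rintro ⟨p0, v0⟩
  have hC0 : 0 ≤ C := (norm_nonneg _).trans (hC 0)
  rw [ContinuousAt, tendsto_iff_norm_sub_tendsto_zero]
  have h1 : Tendsto (fun q : ℝ × H => C * ‖q.2 - v0‖ + ‖Y q.1 v0 - Y p0 v0‖) (𝓝 (p0, v0))
      (𝓝 (C * ‖v0 - v0‖ + ‖Y p0 v0 - Y p0 v0‖)) := by
    apply Tendsto.add
    · exact (continuous_const.mul (continuous_snd.sub continuous_const).norm).tendsto _
    · exact (((hY v0).comp continuous_fst).sub continuous_const).norm.tendsto _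
  simp only [sub_self, norm_zero, mul_zero, add_zero] at h1
  refine squeeze_zero (fun _ => norm_nonneg _) (fun q => ?_) h1
  calc ‖Y q.1 q.2 - Y p0 v0‖ = ‖Y q.1 (q.2 - v0) + (Y q.1 v0 - Y p0 v0)‖ := by
        rw [map_sub]; congr 1; abel
    _ ≤ ‖Y q.1 (q.2 - v0)‖ + ‖Y q.1 v0 - Y p0 v0‖ := norm_add_le _ _
    _ ≤ C * ‖q.2 - v0‖ + ‖Y q.1 v0 - Y p0 v0‖ := by
        gcongr
        exact ((Y q.1).le_opNorm _).trans (mul_le_mul_of_nonneg_right (hC _) (norm_nonneg _))

theorem r : S_opmul := by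
  intro H _ _ _ Y C hY hC
  have hC0 : 0 ≤ C := (norm_nonneg _).trans (hC 0)
  have hjc := joint hY hC
  have hmeas : ∀ f : LR H, AEStronglyMeasurable (fun p => Y p (f p)) (volume : Measure ℝ) :=
    fun f => hjc.comp_aestronglyMeasurable
      (aestronglyMeasurable_id.prodMk (Lp.aestronglyMeasurable f))
  have hle : ∀ f : LR H, ∀ p, ‖Y p (f p)‖ ≤ C * ‖f p‖ := fun f p =>
    ((Y p).le_opNorm _).trans (mul_le_mul_of_nonneg_right (hC _) (norm_nonneg _))
  have hmem : ∀ f : LR H, MemLp (fun p => Y p (f p)) 2 (volume : Measure ℝ) := fun f =>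
    MemLp.of_le_mul (Lp.memLp f) (hmeas f) (ae_of_all _ (hle f))
  have hco : ∀ f : LR H, ((hmem f).toLp _ : ℝ → H) =ᵐ[volume] fun p => Y p (f p) := fun f =>
    MemLp.coeFn_toLp _
  let T : LR H →ₗ[ℂ] LR H :=
    { toFun := fun f => (hmem f).toLp _
      map_add' := fun f g => by
        apply Lp.ext
        filter_upwards [hco (f + g), hco f, hco g, Lp.coeFn_add f g,
          Lp.coeFn_add ((hmem f).toLp _) ((hmem g).toLp _)] with p h1 h2 h3 h4 h5
        rw [h1, h5, Pi.add_apply, h2, h3, h4, Pi.add_apply, map_add]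
      map_smul' := fun c f => by
        apply Lp.ext
        filter_upwards [hco (c • f), hco f, Lp.coeFn_smul c f,
          Lp.coeFn_smul c ((hmem f).toLp _)] with p h1 h2 h4 h5
        rw [h1, RingHom.id_apply, h5, Pi.smul_apply, h2, h4, Pi.smul_apply, map_smul] }
  have hT : ∀ f : LR H, ‖T f‖ ≤ C * ‖f‖ := fun f => by
    apply Lp.norm_le_mul_norm_of_ae_le_mul
    filter_upwards [hco f] with p h1
    change ‖((hmem f).toLp _ : ℝ → H) p‖ ≤ _
    rw [h1]
    exact hle f p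
  exact ⟨T.mkContinuous C hT, fun f => hco f, LinearMap.mkContinuous_norm_le _ hC0 _⟩

end Pool.Agent.H255.BC.R_opmul
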