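import Pool.Agent.H255.BC.Defs2
import Pool.Graph.R_pool_sql_team_seeded_f72693b1.W509.CB.E3
import Pool.Graph.R_pool_sql_team_seeded_f72693b1.W132.CB.E1
import Pool.Graph.R_pool_sql_team_seeded_f72693b1.W227.CB.E2

set_option autoImplicit false

open MeasureTheory Filter Topology Complex
open scoped InnerProductSpace ENNReal FourierTransform

namespace Pool.Agent.H255.BC.R_ops

open Pool.Agent.W662.CB Pool.Agent.H255.BC

theorem joint {H : Type} [NormedAddCommGroup H] [InnerProductSpace ℂ H] [CompleteSpace H]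
    {Y : ℝ → H →L[ℂ] H} {C : ℝ} (hY : ∀ v : H, Continuous fun p => Y p v)
    (hC : ∀ p, ‖Y p‖ ≤ C) : Continuous (fun q : ℝ × H => Y q.1 q.2) := by
  rw [continuous_iff_continuousAt]
  rintro ⟨p0, v0⟩
  have hC0 : 0 ≤ C := (norm_nonneg _).trans (hC 0)
  rw [ContinuousAt, tendsto_iff_norm_sub_tendsto_zero]
  have h1 : Tendsto (fun q : ℝ × H => C * ‖q.2 - v0‖ + ‖Y q.1 v0 - Y p0 v0‖) (𝓝 (p0, v0))
      (𝓝 (C * ‖v0 - v0‖ + ‖Y p0 v0 - Y p0 v0‖)) := by
    apply Tendsto.add
    · exact (continuous_const.mul (continuous_snd.sub continuous_const).norm).tendsto _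
    · exact (((hY v0).comp continuous_fst).sub continuous_const).norm.tendsto _
  simp only [sub_self, norm_zero, mul_zero, add_zero] at h1
  refine squeeze_zero (fun _ => norm_nonneg _) (fun q => ?_) h1
  calc ‖Y q.1 q.2 - Y p0 v0‖ = ‖Y q.1 (q.2 - v0) + (Y q.1 v0 - Y p0 v0)‖ := by
        rw [map_sub]; congr 1; abel
    _ ≤ ‖Y q.1 (q.2 - v0)‖ + ‖Y q.1 v0 - Y p0 v0‖ := norm_add_le _ _
    _ ≤ C * ‖q.2 - v0‖ + ‖Y q.1 v0 - Y p0 v0‖ := by
        gcongr
        exact ((Y q.1).le_opNorm _).trans (mul_le_mul_of_nonneg_right (hC _) (norm_nonneg _))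

section

variable {H : Type} [NormedAddCommGroup H] [InnerProductSpace ℂ H] [CompleteSpace H]
  {M : VonNeumannAlgebra H} {ξ : H} {U : ℝ → H →L[ℂ] H}

theorem Umul (hU : IsModular M ξ U) (t : ℝ) : U t * U (-t) = 1 := by
  rw [← hU.add, add_neg_cancel, hU.zero]

theorem Umul' (hU : IsModular M ξ U) (t : ℝ) : U (-t) * U t = 1 := by
  rw [← hU.add, neg_add_cancel, hU.zero]

theorem Unorm (hU : IsModular M ξ U) (t : ℝ) (v : H) : ‖U t v‖ = ‖v‖ := by
  have h1 : ⟪U t v, U t v⟫_ℂ = ⟪v, v⟫_ℂ := by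
    rw [← ContinuousLinearMap.adjoint_inner_right, ← ContinuousLinearMap.star_eq_adjoint,
      hU.star_eq, ← ContinuousLinearMap.mul_apply, Umul' hU, ContinuousLinearMap.one_apply]
  have h2 : ‖U t v‖ ^ 2 = ‖v‖ ^ 2 := by
    have h3 := inner_self_eq_norm_sq_to_K (𝕜 := ℂ) (U t v)
    have h4 := inner_self_eq_norm_sq_to_K (𝕜 := ℂ) v
    rw [h1, h4] at h3
    exact_mod_cast h3.symm
  have := congrArg Real.sqrt h2
  rwa [Real.sqrt_sq (norm_nonneg _), Real.sqrt_sq (norm_nonneg _)] at this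

theorem Uop (hU : IsModular M ξ U) (t : ℝ) : ‖U t‖ ≤ 1 :=
  ContinuousLinearMap.opNorm_le_bound _ zero_le_one fun v => by rw [Unorm hU, one_mul]

theorem sgm_apply (hU : IsModular M ξ U) (t : ℝ) (x : H →L[ℂ] H) (v : H) :
    sgm U t x v = U t (x (U (-t) v)) := by
  simp only [sgm, hU.star_eq, ContinuousLinearMap.mul_apply]

theorem sgm_norm (hU : IsModular M ξ U) (t : ℝ) (x : H →L[ℂ] H) : ‖sgm U t x‖ ≤ ‖x‖ :=
  ContinuousLinearMap.opNorm_le_bound _ (norm_nonneg _) fun v => by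
    rw [sgm_apply hU, Unorm hU]
    exact (x.le_opNorm _).trans (by rw [Unorm hU])

theorem sgm_cont (hU : IsModular M ξ U) (x : H →L[ℂ] H) (v : H) :
    Continuous fun s : ℝ => sgm U (-s) x v := by
  have hj := joint (Y := U) (C := 1) hU.cont (Uop hU)
  have h1 : (fun s : ℝ => sgm U (-s) x v) = fun s => U (-s) (x (U s v)) := by
    funext s; rw [sgm_apply hU, neg_neg]
  rw [h1]
  exact hj.comp (continuous_neg.prodMk (x.continuous.comp (hU.cont v)))

theorem sgm_star (hU : IsModular M ξ U) (t : ℝ) (x : H →L[ℂ] H) :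
    sgm U t (star x) = star (sgm U t x) := by
  simp only [sgm, star_mul, star_star, mul_assoc]

theorem sig_unique {x : H →L[ℂ] H} {S S' : LR H →L[ℂ] LR H} (h : IsSig U x S)
    (h' : IsSig U x S') : S = S' := by
  ext1 f
  exact Lp.ext ((h f).trans (h' f).symm)

theorem sig_star (hU : IsModular M ξ U) {x : H →L[ℂ] H} {S S' : LR H →L[ℂ] LR H}
    (h : IsSig U x S) (h' : IsSig U (star x) S') : star S = S' := by
  ext1 f
  apply ext_inner_right ℂ
  intro g
  rw [ContinuousLinearMap.star_eq_adjoint, ContinuousLinearMap.adjoint_inner_left,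
    L2.inner_def, L2.inner_def]
  apply integral_congr_ae
  filter_upwards [h g, h' f] with s h1 h2
  rw [h1, h2, sgm_star hU, ContinuousLinearMap.star_eq_adjoint,
    ContinuousLinearMap.adjoint_inner_left]

end

theorem r (h : S_opmul) : S_ops := by
  intro H _ _ _ M ξ U hU
  obtain ⟨κ, hκ⟩ := W132.CB.e1 H
  obtain ⟨R, hR, hR0, hRa, hRs, -⟩ := W509.CB.e3 H
  refine ⟨fun t => ?_, fun x => ?_, fun x => ?_, fun f hf => ?_, fun t => ?_, fun lam hlam => ?_⟩
  · have hUs : star (κ (U t)) = κ (U (-t)) := by rw [← map_star, hU.star_eq]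
    have hRR : R (-t) * R t = 1 := by rw [← hRa, neg_add_cancel, hR0]
    have hRR' : R t * R (-t) = 1 := by rw [← hRa, add_neg_cancel, hR0]
    have hUU : κ (U (-t)) * κ (U t) = 1 := by rw [← map_mul, Umul' hU, map_one]
    have hUU' : κ (U t) * κ (U (-t)) = 1 := by rw [← map_mul, Umul hU, map_one]
    have hst : star (κ (U t) * R (-t)) = R t * κ (U (-t)) := by
      rw [star_mul, hUs, hRs, neg_neg]
    refine ⟨κ (U t) * R (-t), ?_, ?_, ?_, ?_⟩
    · intro f
      have h1 := hκ (U t) (R (-t) f)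
      have h2 := hR (-t) f
      filter_upwards [h1, h2] with s h3 h4
      change (κ (U t) (R (-t) f) : ℝ → H) s = _
      rw [h3, h4, sub_neg_eq_add]
    · rw [hst, mul_assoc, ← mul_assoc (κ (U (-t))), hUU, one_mul, hRR']
    · rw [hst, mul_assoc, ← mul_assoc (R (-t)), hRR, one_mul, hUU']
    · rw [hst]
      intro f
      have h1 := hR t (κ (U (-t)) f)
      have h2 := W509.CB.shift_ae t (hκ (U (-t)) f)
      filter_upwards [h1, h2] with s h3 h4
      change (R t (κ (U (-t)) f) : ℝ → H) s = _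
      rw [h3, h4, sub_eq_add_neg]
  · obtain ⟨S, hS, hSn⟩ := h H (fun s => sgm U (-s) x) ‖x‖ (sgm_cont hU x)
      (fun s => sgm_norm hU _ x)
    obtain ⟨S', hS', -⟩ := h H (fun s => sgm U (-s) (star x)) ‖star x‖ (sgm_cont hU (star x))
      (fun s => sgm_norm hU _ (star x))
    refine ⟨S, hS, hSn, ?_⟩
    rw [sig_star hU hS hS']
    exact hS'
  · obtain ⟨S, hS, hSn⟩ := h H (fun _ => x) ‖x‖ (fun v => continuous_const) (fun s => le_rfl)
    have h1 : S = κ x := W132.CB.isConst_unique x S (κ x) hS (hκ x)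
    refine ⟨S, hS, hSn, ?_⟩
    rw [h1, ← map_star]
    exact hκ _
  · have hmem : ∀ v : H, MemLp (fun s => f s • v) 2 (volume : Measure ℝ) := fun v =>
      MemLp.of_le_mul (c := ‖v‖) hf (hf.1.smul_const v)
        (ae_of_all _ fun s => by rw [norm_smul, mul_comm])
    have hco : ∀ v : H, ((hmem v).toLp _ : ℝ → H) =ᵐ[volume] fun s => f s • v := fun v =>
      MemLp.coeFn_toLp _
    let T : H →ₗ[ℂ] LR H :=
      { toFun := fun v => (hmem v).toLp _
        map_add' := fun v w => by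
          apply Lp.ext
          filter_upwards [hco (v + w), hco v, hco w,
            Lp.coeFn_add ((hmem v).toLp _) ((hmem w).toLp _)] with p h1 h2 h3 h5
          rw [h1, h5, Pi.add_apply, h2, h3, smul_add]
        map_smul' := fun c v => by
          apply Lp.ext
          filter_upwards [hco (c • v), hco v, Lp.coeFn_smul c ((hmem v).toLp _)] with p h1 h2 h5
          rw [h1, RingHom.id_apply, h5, Pi.smul_apply, h2, smul_comm] }
    have hT : ∀ v : H, ‖T v‖ ≤ (eLpNorm f 2 (volume : Measure ℝ)).toReal * ‖v‖ := fun v => by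
      rw [← Lp.norm_toLp f hf, mul_comm]
      apply Lp.norm_le_mul_norm_of_ae_le_mul
      filter_upwards [hco v, MemLp.coeFn_toLp hf] with p h1 h2
      change ‖((hmem v).toLp _ : ℝ → H) p‖ ≤ _
      rw [h1, h2, norm_smul, mul_comm]
    exact ⟨T.mkContinuous _ hT, fun v => hco v,
      LinearMap.mkContinuous_norm_le _ ENNReal.toReal_nonneg _⟩
  · have hRR : R (-t) * R t = 1 := by rw [← hRa, neg_add_cancel, hR0]
    have hRR' : R t * R (-t) = 1 := by rw [← hRa, add_neg_cancel, hR0]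
    refine ⟨R t, hR t, ?_, ?_, ?_⟩
    · rw [hRs, hRR]
    · rw [hRs, hRR']
    · rw [hRs]; exact hR _
  · obtain ⟨hu, hst, hmul, -⟩ := W227.CB.e2b H
    have hn : ∀ (lam : ℝ) (s : ℝ), ‖cexp (-(I * ((s * Real.log lam : ℝ) : ℂ)))‖ = 1 := by
      intro lam s
      rw [Complex.norm_exp]
      simp
    have hm : ∀ lam : ℝ, Measurable fun s : ℝ => cexp (-(I * ((s * Real.log lam : ℝ) : ℂ))) := by
      intro lam
      apply Continuous.measurable
      fun_prop
    obtain ⟨S, hS, -⟩ := W227.CB.e2 H (fun s : ℝ => cexp (-(I * ((s * Real.log lam : ℝ) : ℂ)))) 1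
      (hm lam) (fun s => (hn lam s).le)
    obtain ⟨S', hS', -⟩ := W227.CB.e2 H
      (fun s : ℝ => cexp (-(I * ((s * Real.log lam⁻¹ : ℝ) : ℂ)))) 1
      (hm lam⁻¹) (fun s => (hn lam⁻¹ s).le)
    have hconj : ∀ s : ℝ, starRingEnd ℂ (cexp (-(I * ((s * Real.log lam : ℝ) : ℂ)))) =
        cexp (-(I * ((s * Real.log lam⁻¹ : ℝ) : ℂ))) := by
      intro s
      rw [← Complex.exp_conj, Real.log_inv]
      congr 1
      simp only [map_neg, map_mul, Complex.conj_I, Complex.conj_ofReal]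
      push_cast
      ring
    have hSS : star S = S' := by
      apply hst _ S S' hS
      intro f
      filter_upwards [hS' f] with s h1
      rw [h1, hconj]
    have h1op : ∀ T : LR H →L[ℂ] LR H, IsMulOp (fun _ => (1 : ℂ)) T → T = 1 := by
      intro T hT
      apply hu (fun _ => (1 : ℂ)) T 1 hT
      intro f
      exact Eventually.of_forall fun s => by simp
    have hone : ∀ s : ℝ, cexp (-(I * ((s * Real.log lam⁻¹ : ℝ) : ℂ))) *
        cexp (-(I * ((s * Real.log lam : ℝ) : ℂ))) = 1 := by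
      intro s
      rw [← Complex.exp_add, Real.log_inv]
      rw [show (-(I * ((s * -Real.log lam : ℝ) : ℂ)) + -(I * ((s * Real.log lam : ℝ) : ℂ))) = 0 by
        push_cast; ring, Complex.exp_zero]
    refine ⟨S, hS, ?_, ?_, ?_⟩
    · rw [hSS]
      apply h1op
      intro f
      filter_upwards [hmul _ _ S' S hS' hS f] with s h2
      rw [h2, hone]
    · rw [hSS]
      apply h1op
      intro f
      filter_upwards [hmul _ _ S S' hS hS' f] with s h2
      rw [h2, mul_comm, hone]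
    · rw [hSS]; exact hS'

end Pool.Agent.H255.BC.R_ops
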