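import Pool.Agent.H255.BC.Defs2

set_option autoImplicit false

open MeasureTheory Filter Topology Complex
open scoped InnerProductSpace ENNReal FourierTransform

namespace Pool.Agent.H255.BC.R_per

open Pool.Agent.W662.CB Pool.Agent.H255.BC
open scoped SchwartzMap

theorem summ (F : 𝓢(ℝ, ℂ)) : Summable fun k : ℤ => (1 + |(k : ℝ)|) * ‖F k‖ := by
  have h1 : (fun k : ℤ => F (k : ℝ)) =O[cofinite] fun k : ℤ => |(k : ℝ)| ^ (-3 : ℝ) := by
    have := (F.isBigO_cocompact_rpow (-3)).comp_tendsto Int.tendsto_coe_cofinite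
    exact this
  have h2 : (fun k : ℤ => 1 + |(k : ℝ)|) =O[cofinite] fun k : ℤ => |(k : ℝ)| := by
    refine Asymptotics.IsBigO.of_bound 2 ?_
    have h0 : ∀ᶠ k : ℤ in cofinite, k ∉ ({0} : Set ℤ) :=
      (Set.finite_singleton (0 : ℤ)).eventually_cofinite_notMem
    filter_upwards [h0] with k hk
    have h3 : (1 : ℝ) ≤ |(k : ℝ)| := by
      rw [← Int.cast_abs]
      exact_mod_cast Int.one_le_abs (fun h => hk (by simp [h]))
    rw [Real.norm_of_nonneg (by positivity), Real.norm_of_nonneg (by positivity)]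
    linarith
  have h4 := h2.mul h1.norm_left
  refine summable_of_isBigO (Real.summable_abs_int_rpow one_lt_two) (h4.trans ?_)
  refine Asymptotics.IsBigO.of_bound 1 ?_
  have h0 : ∀ᶠ k : ℤ in cofinite, k ∉ ({0} : Set ℤ) :=
    (Set.finite_singleton (0 : ℤ)).eventually_cofinite_notMem
  filter_upwards [h0] with k hk
  have h3 : (0 : ℝ) < |(k : ℝ)| := by
    rw [abs_pos]
    exact_mod_cast fun h : k = 0 => hk (by simp [h])
  rw [one_mul]
  refine le_of_eq ?_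
  congr 1
  calc |(k : ℝ)| * |(k : ℝ)| ^ (-3 : ℝ) = |(k : ℝ)| ^ (1 : ℝ) * |(k : ℝ)| ^ (-3 : ℝ) := by
        rw [Real.rpow_one]
    _ = |(k : ℝ)| ^ (-2 : ℝ) := by
        rw [← Real.rpow_add h3]
        norm_num

theorem key (f : 𝓢(ℝ, ℂ)) : ∃ g : ℤ → ℂ, (Summable fun k : ℤ => (1 + |(k : ℝ)|) * ‖g k‖) ∧
    ∀ x : ℝ, (∑' m : ℤ, f (x + m)) = ∑' k : ℤ, g k * fourier k (x : UnitAddCircle) := by
  obtain ⟨F, hF⟩ : ∃ F : 𝓢(ℝ, ℂ), F = 𝓕 f := ⟨_, rfl⟩
  refine ⟨fun k => F (k : ℝ), summ F, fun x => ?_⟩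
  have := SchwartzMap.tsum_eq_tsum_fourier f x
  rw [this, hF]

theorem key2 (f : 𝓢(ℝ, ℂ)) : ∃ g : ℤ → ℂ, (Summable fun k : ℤ => (1 + |(k : ℝ)|) * ‖g k‖) ∧
    ∀ θ : ℝ, HasSum (fun k : ℤ => g k * cexp (I * ((k : ℝ) * θ)))
      (∑' m : ℤ, f (θ / (2 * Real.pi) + m)) := by
  obtain ⟨g, hg, h⟩ := key f
  refine ⟨g, hg, fun θ => ?_⟩
  have hpi := Real.pi_pos
  have hsum : Summable fun k : ℤ => g k * cexp (I * ((k : ℝ) * θ)) := by
    refine Summable.of_norm_bounded hg fun k => ?_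
    have e1 : ‖cexp (I * ((k : ℝ) * θ))‖ = 1 := by
      have : (I * ((k : ℝ) * θ) : ℂ) = ((k * θ : ℝ) : ℂ) * I := by push_cast; ring
      rw [this, Complex.norm_exp_ofReal_mul_I]
    rw [norm_mul, e1, mul_one]
    exact le_mul_of_one_le_left (norm_nonneg _) (by have := abs_nonneg (k : ℝ); linarith)
  have e2 : ∀ k : ℤ, fourier k ((θ / (2 * Real.pi) : ℝ) : UnitAddCircle) =
      cexp (I * ((k : ℝ) * θ)) := by
    intro k
    rw [fourier_coe_apply]
    congr 1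
    push_cast
    have : (Real.pi : ℂ) ≠ 0 := by exact_mod_cast hpi.ne'
    field_simp
  rw [h]
  simp_rw [e2]
  exact hsum.hasSum

theorem r : S_per := by
  intro τ G hτ hG
  obtain ⟨hs, hc⟩ := hG
  have hpi := Real.pi_pos
  obtain ⟨f, hfx⟩ : ∃ f : 𝓢(ℝ, ℂ), ∀ x : ℝ, f x = G (2 * Real.pi / τ * x) := by
    have hc0 : 2 * Real.pi / τ ≠ 0 := by positivity
    have hf1 : HasCompactSupport fun x : ℝ => G (2 * Real.pi / τ * x) := by
      have := hc.comp_homeomorph (Homeomorph.mulLeft₀ (2 * Real.pi / τ) hc0)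
      exact this
    have hf2 : ContDiff ℝ (⊤ : ℕ∞) fun x : ℝ => G (2 * Real.pi / τ * x) :=
      hs.comp (contDiff_const.mul contDiff_id)
    exact ⟨hf1.toSchwartzMap hf2, fun x => rfl⟩
  obtain ⟨g, hg, h⟩ := key2 f
  refine ⟨g, hg, fun θ => ?_⟩
  have h1 := h θ
  have e1 : ∀ m : ℤ, f (θ / (2 * Real.pi) + m) = G ((θ + 2 * Real.pi * m) / τ) := by
    intro m
    rw [hfx]
    congr 1
    field_simp
  simp_rw [e1] at h1
  exact h1

end Pool.Agent.H255.BC.R_per
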