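import Pool.Agent.H255.BC.Defs2

set_option autoImplicit false

open MeasureTheory Filter Topology Complex
open scoped InnerProductSpace ENNReal FourierTransform

namespace Pool.Agent.H255.BC.R_pi

open Pool.Agent.W662.CB Pool.Agent.H255.BC

section

variable {H : Type} [NormedAddCommGroup H] [InnerProductSpace ℂ H] [CompleteSpace H]

/-- the classes of the continuous functions with compact support -/
def CcS (H : Type) [NormedAddCommGroup H] [InnerProductSpace ℂ H] [CompleteSpace H] :
    Set (LR H) :=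
  {F | ∃ G : ℝ → H, Continuous G ∧ HasCompactSupport G ∧ (F : ℝ → H) =ᵐ[volume] G}

theorem dense_Cc : Dense (CcS H) := by
  rw [Metric.dense_iff]
  intro f r hr
  obtain ⟨g, hgc, hg, hgcont, hgm⟩ :=
    (Lp.memLp f).exists_hasCompactSupport_eLpNorm_sub_le (by norm_num)
      (ε := ENNReal.ofReal (r / 2)) (by
        rw [Ne, ENNReal.ofReal_eq_zero, not_le]; positivity)
  refine ⟨hgm.toLp g, ?_, g, hgcont, hgc, hgm.coeFn_toLp⟩
  rw [Metric.mem_ball, dist_comm, Lp.dist_def]
  have h1 : eLpNorm ((f : ℝ → H) - (hgm.toLp g : ℝ → H)) 2 volume =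
      eLpNorm ((f : ℝ → H) - g) 2 volume :=
    eLpNorm_congr_ae (EventuallyEq.rfl.sub hgm.coeFn_toLp)
  rw [h1]
  have h2 := ENNReal.toReal_mono ENNReal.ofReal_ne_top hg
  rw [ENNReal.toReal_ofReal (by positivity)] at h2
  linarith

/-- two operators which agree on continuous functions with compact support are equal -/
theorem eq_of_Cc {A B : LR H →L[ℂ] LR H} (h : ∀ F ∈ CcS H, A F = B F) : A = B := by
  have h1 : (A : LR H → LR H) = B :=
    Continuous.ext_on dense_Cc A.continuous B.continuous h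
  ext1 f
  exact congrFun h1 f

/-- `W` as a continuous linear map -/
noncomputable def Wc (W : LR H ≃ₗᵢ[ℂ] LR H) : LR H →L[ℂ] LR H :=
  W.toContinuousLinearEquiv.toContinuousLinearMap

theorem Wc_apply (W : LR H ≃ₗᵢ[ℂ] LR H) (f : LR H) : Wc W f = W f := rfl

theorem opmul_unique {Y : ℝ → H →L[ℂ] H} {S S' : LR H →L[ℂ] LR H} (h : IsOpMul Y S)
    (h' : IsOpMul Y S') : S = S' := by
  ext1 f
  exact Lp.ext ((h f).trans (h' f).symm)

theorem opmul_star {Y Y' : ℝ → H →L[ℂ] H} (hY : ∀ p, Y' p = star (Y p)) {S S' : LR H →L[ℂ] LR H}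
    (h : IsOpMul Y S) (h' : IsOpMul Y' S') : S' = star S := by
  rw [ContinuousLinearMap.star_eq_adjoint, ContinuousLinearMap.eq_adjoint_iff]
  intro f g
  rw [L2.inner_def, L2.inner_def]
  refine integral_congr_ae ?_
  filter_upwards [h' f, h g] with s h1 h2
  rw [h1, h2, hY, ContinuousLinearMap.star_eq_adjoint, ContinuousLinearMap.adjoint_inner_left]

theorem int_exp {G : ℝ → H} (hG : Continuous G) (hGc : HasCompactSupport G) (s : ℝ) :
    Integrable (fun p : ℝ => cexp (I * ((s * p : ℝ) : ℂ)) • G p) := by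
  apply Continuous.integrable_of_hasCompactSupport
  · fun_prop
  · exact hGc.smul_left

/-- `W` commutes with constants -/
theorem W_const {W : LR H ≃ₗᵢ[ℂ] LR H} (hW : IsFou W) {y : H →L[ℂ] H} {S : LR H →L[ℂ] LR H}
    (hS : IsConst y S) (f : LR H) : W (S f) = S (W f) := by
  have key : Wc W ∘L S = S ∘L Wc W := by
    apply eq_of_Cc
    rintro F ⟨G, hG, hGc, hF⟩
    show W (S F) = S (W F)
    apply Lp.ext
    have h1 : (S F : ℝ → H) =ᵐ[volume] fun s => y (G s) := by
      filter_upwards [hS F, hF] with s h1 h2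
      rw [h1, h2]
    have h2 := hW (fun s => y (G s)) (y.continuous.comp hG)
      (hGc.comp_left (g := fun v => y v) (map_zero y)) (S F) h1
    have h3 := hW G hG hGc F hF
    filter_upwards [h2, h3, hS (W F)] with s e2 e3 e4
    rw [e2, e4, e3, map_smul, ← ContinuousLinearMap.integral_comp_comm y (int_exp hG hGc s)]
    congr 1
    apply integral_congr_ae
    refine Eventually.of_forall fun p => ?_
    simp only [map_smul]
  have := congrArg (fun A : LR H →L[ℂ] LR H => A f) key
  exact this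

/-- `W` and translations -/
theorem W_shift {W : LR H ≃ₗᵢ[ℂ] LR H} (hW : IsFou W) {t : ℝ} {S T : LR H →L[ℂ] LR H}
    (hS : IsShift t S) (hT : IsMulOp (fun s : ℝ => cexp (-(I * ((s * t : ℝ) : ℂ)))) T)
    (f : LR H) : S (W f) = W (T f) := by
  have key : S ∘L Wc W = Wc W ∘L T := by
    apply eq_of_Cc
    rintro F ⟨G, hG, hGc, hF⟩
    show S (W F) = W (T F)
    apply Lp.ext
    have h1 : (T F : ℝ → H) =ᵐ[volume] fun s => cexp (-(I * ((s * t : ℝ) : ℂ))) • G s := by
      filter_upwards [hT F, hF] with s h1 h2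
      rw [h1, h2]
    have h2 := hW (fun s => cexp (-(I * ((s * t : ℝ) : ℂ))) • G s) (by fun_prop)
      hGc.smul_left (T F) h1
    have h3 := (measurePreserving_sub_right (volume : Measure ℝ) t).quasiMeasurePreserving.ae_eq_comp
      (hW G hG hGc F hF)
    filter_upwards [h2, h3, hS (W F)] with s e2 e3 e4
    rw [e2, e4]
    refine Eq.trans e3 ?_
    simp only [Function.comp]
    congr 1
    apply integral_congr_ae
    refine Eventually.of_forall fun p => ?_
    simp only [smul_smul, ← Complex.exp_add]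
    congr 2
    push_cast
    ring
  exact congrArg (fun A : LR H →L[ℂ] LR H => A f) key

/-- `W` and the unitaries `u_lam` -/
theorem W_ulam {W : LR H ≃ₗᵢ[ℂ] LR H} (hW : IsFou W) {lam : ℝ} {S T : LR H →L[ℂ] LR H}
    (hS : IsULam lam S) (hT : IsShift (-Real.log lam) T) (f : LR H) : S (W f) = W (T f) := by
  have key : S ∘L Wc W = Wc W ∘L T := by
    apply eq_of_Cc
    rintro F ⟨G, hG, hGc, hF⟩
    show S (W F) = W (T F)
    apply Lp.ext
    have h1 : (T F : ℝ → H) =ᵐ[volume] fun s => G (s - -Real.log lam) :=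
      (hT F).trans ((measurePreserving_sub_right (volume : Measure ℝ)
        (-Real.log lam)).quasiMeasurePreserving.ae_eq_comp hF)
    have h2 := hW (fun s => G (s - -Real.log lam)) (by fun_prop)
      (hGc.comp_homeomorph (Homeomorph.subRight (-Real.log lam))) (T F) h1
    have h3 := hW G hG hGc F hF
    filter_upwards [h2, h3, hS (W F)] with s e2 e3 e4
    rw [e2, e4, e3, smul_comm, ← integral_smul]
    congr 1
    have e5 := integral_sub_right_eq_self (μ := (volume : Measure ℝ))
      (fun p : ℝ => cexp (-(I * ((s * Real.log lam : ℝ) : ℂ))) • cexp (I * ((s * p : ℝ) : ℂ)) • G p)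
      (-Real.log lam)
    rw [← e5]
    apply integral_congr_ae
    refine Eventually.of_forall fun p => ?_
    simp only [smul_smul, ← Complex.exp_add]
    congr 2
    push_cast
    ring
  exact congrArg (fun A : LR H →L[ℂ] LR H => A f) key

theorem eq_of_W {W : LR H ≃ₗᵢ[ℂ] LR H} {T T' : LR H →L[ℂ] LR H}
    (h : ∀ f : LR H, T (W f) = T' (W f)) : T = T' := by
  ext1 g
  have := h (W.symm g)
  rwa [W.apply_symm_apply] at this

/-- adjoints and `W` -/
theorem W_star {W : LR H ≃ₗᵢ[ℂ] LR H} {T A : LR H →L[ℂ] LR H}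
    (h : ∀ f : LR H, T (W f) = W (A f)) (f : LR H) : star T (W f) = W (star A f) := by
  apply ext_inner_right ℂ
  intro g
  rw [ContinuousLinearMap.star_eq_adjoint, ContinuousLinearMap.adjoint_inner_left]
  have e : g = W (W.symm g) := (W.apply_symm_apply g).symm
  rw [e, h, W.inner_map_map, W.inner_map_map, ContinuousLinearMap.star_eq_adjoint,
    ContinuousLinearMap.adjoint_inner_left]


/-- pointwise commutation with constants -/
theorem opmul_const {Y : ℝ → H →L[ℂ] H} {A S : LR H →L[ℂ] LR H} (hA : IsOpMul Y A)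
    {y : H →L[ℂ] H} (hS : IsConst y S) (hy : ∀ p, Y p * y = y * Y p) (f : LR H) :
    A (S f) = S (A f) := by
  apply Lp.ext
  filter_upwards [hA (S f), hS f, hS (A f), hA f] with p h1 h2 h3 h4
  rw [h1, h2, h3, h4]
  exact congrArg (fun B : H →L[ℂ] H => B (f p)) (hy p)

/-- pointwise commutation with scalar multiplications -/
theorem opmul_mulop {Y : ℝ → H →L[ℂ] H} {A S : LR H →L[ℂ] LR H} (hA : IsOpMul Y A)
    {g : ℝ → ℂ} (hS : IsMulOp g S) (f : LR H) : A (S f) = S (A f) := by
  apply Lp.ext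
  filter_upwards [hA (S f), hS f, hS (A f), hA f] with p h1 h2 h3 h4
  rw [h1, h2, h3, h4, map_smul]

/-- faithfulness -/
theorem opmul_zero {Y : ℝ → H →L[ℂ] H} {A : LR H →L[ℂ] LR H} (hA : IsOpMul Y A)
    (hc : ∀ v : H, Continuous fun p => Y p v)
    (hten : ∀ f : ℝ → ℂ, MemLp f 2 (volume : Measure ℝ) → ∃ T : H →L[ℂ] LR H, IsTen f T)
    (h0 : ∀ f, A f = 0) : Y 0 = 0 := by
  have hf : Continuous fun p : ℝ => ((max 0 (1 - |p|) : ℝ) : ℂ) := by fun_prop
  have hfc : HasCompactSupport fun p : ℝ => ((max 0 (1 - |p|) : ℝ) : ℂ) := by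
    apply HasCompactSupport.intro (isCompact_Icc (a := (-1 : ℝ)) (b := 1))
    intro x hx
    have : 1 ≤ |x| := by
      by_contra h
      push Not at h
      exact hx ⟨(abs_lt.1 h).1.le, (abs_lt.1 h).2.le⟩
    rw [max_eq_left (by linarith)]
    simp
  obtain ⟨T, hT⟩ := hten _ (hf.memLp_of_hasCompactSupport hfc)
  ext1 v
  have h1 : (fun p : ℝ => ((max 0 (1 - |p|) : ℝ) : ℂ) • Y p v) =ᵐ[volume] fun _ => (0 : H) := by
    have h2 : (A (T v) : ℝ → H) =ᵐ[volume] 0 := by
      rw [h0]
      exact Lp.coeFn_zero _ _ _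
    filter_upwards [h2, hA (T v), hT v] with p e1 e2 e3
    rw [← map_smul, ← e3, ← e2, e1]
    rfl
  have h2 := (Continuous.ae_eq_iff_eq (volume : Measure ℝ) (hf.smul (hc v))
    continuous_const).1 h1
  have h3 := congrFun h2 0
  simpa using h3

theorem r (h1 : S_opmul) (h2 : S_ops) (h3 : S_bic) (h4 : S_betan) : S_pi := by
  intro H _ _ _ N M ξ U J E β W hI hβ hW
  obtain ⟨-, -, -, o4, o5, o6⟩ := h2 H M ξ U hI.modular
  have ex : ∀ c ∈ relBicentralizer N M ξ, ∃ A : LR H →L[ℂ] LR H,
      IsOpMul (fun p => β (Real.exp p) c) A := by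
    intro c hc
    obtain ⟨A, hA, -⟩ := h1 H (fun p => β (Real.exp p) c) ‖c‖ (hβ.cont c hc)
      (fun p => h4 H N M ξ U J E β hI.toInc hβ _ (Real.exp_pos p) c hc)
    exact ⟨A, hA⟩
  refine ⟨?_, ?_, ?_⟩
  · intro c hc
    obtain ⟨A, hA⟩ := ex c hc
    set T : LR H →L[ℂ] LR H := Wc W ∘L A ∘L
      (W.symm.toContinuousLinearEquiv.toContinuousLinearMap) with hTdef
    have hT : ∀ f : LR H, T (W f) = W (A f) := by
      intro f
      show W (A (W.symm (W f))) = W (A f)
      rw [W.symm_apply_apply]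
    refine ⟨T, ⟨A, hA, hT⟩, ?_, ?_, ?_, ?_, ?_⟩
    · intro y hy S hS
      apply eq_of_W (W := W)
      intro f
      show T (S (W f)) = S (T (W f))
      rw [← W_const hW hS, hT, hT, ← W_const hW hS, opmul_const hA hS]
      intro p
      have := VonNeumannAlgebra.mem_commutant_iff.1 hy (β (Real.exp p) c)
        (hβ.mem _ (Real.exp_pos p) c hc).1
      exact this
    · intro t S hS
      obtain ⟨R, hR, -⟩ := o6 (Real.exp t) (Real.exp_pos t)
      unfold IsULam at hR
      rw [Real.log_exp] at hR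
      apply eq_of_W (W := W)
      intro f
      show T (S (W f)) = S (T (W f))
      rw [W_shift hW hS hR, hT, hT, W_shift hW hS hR, opmul_mulop hA hR]
    · rintro T' ⟨A', hA', hT'⟩
      apply eq_of_W (W := W)
      intro f
      rw [hT, hT', opmul_unique hA hA']
    · obtain ⟨hsc, -, -⟩ := h3 H M N ξ U J hI.le hI.unit hI.conj c hc
      obtain ⟨A', hA'⟩ := ex (star c) hsc
      have e : A' = star A :=
        opmul_star (fun p => hβ.star_eq _ (Real.exp_pos p) c hc) hA hA'
      refine ⟨A', hA', fun f => ?_⟩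
      rw [W_star hT, e]
    · intro hT0
      have h0 : ∀ f, A f = 0 := by
        intro f
        have := hT f
        rw [hT0] at this
        have h5 : W (A f) = 0 := this.symm
        exact (LinearIsometryEquiv.map_eq_zero_iff W).1 h5
      have h5 := opmul_zero hA (hβ.cont c hc) (fun f hf => by
        obtain ⟨T, hT, -⟩ := o4 f hf
        exact ⟨T, hT⟩) h0
      simp only [Real.exp_zero] at h5
      rw [← hβ.one c hc]
      exact h5
  · rintro c hc d hd T T' ⟨S, hS, hT⟩ ⟨S', hS', hT'⟩
    refine ⟨⟨S + S', ?_, ?_⟩, ⟨S * S', ?_, ?_⟩, fun z => ⟨z • S, ?_, ?_⟩⟩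
    · intro f
      have e0 : (S + S') f = S f + S' f := rfl
      rw [e0]
      filter_upwards [Lp.coeFn_add (S f) (S' f), hS f, hS' f] with p e1 e2 e3
      rw [e1, Pi.add_apply, e2, e3, hβ.add _ (Real.exp_pos p) c hc d hd]
      rfl
    · intro f
      show T (W f) + T' (W f) = W (S f + S' f)
      rw [hT, hT', map_add]
    · intro f
      have e0 : (S * S') f = S (S' f) := rfl
      rw [e0]
      filter_upwards [hS (S' f), hS' f] with p e2 e3
      rw [e2, e3, hβ.mul _ (Real.exp_pos p) c hc d hd]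
      rfl
    · intro f
      show T (T' (W f)) = W (S (S' f))
      rw [hT', hT]
    · intro f
      have e0 : (z • S) f = z • S f := rfl
      rw [e0]
      filter_upwards [Lp.coeFn_smul z (S f), hS f] with p e1 e2
      rw [e1, Pi.smul_apply, e2, hβ.smul _ (Real.exp_pos p) z c hc]
      rfl
    · intro f
      show z • T (W f) = W (z • S f)
      rw [hT, map_smul]
  · rintro c hc T ⟨A, hA, hT⟩ lam hlam S hS
    obtain ⟨Sh, hSh, -, -, hSh'⟩ := o5 (-Real.log lam)
    rw [neg_neg] at hSh'
    have e1 : ∀ f : LR H, S (W f) = W (Sh f) := fun f => W_ulam hW hS hSh f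
    have e2 : ∀ f : LR H, star S (W f) = W (star Sh f) := fun f => W_star e1 f
    refine ⟨Sh * A * star Sh, ?_, ?_⟩
    · intro f
      have e0 : (Sh * A * star Sh) f = Sh (A (star Sh f)) := rfl
      rw [e0]
      have qm := (measurePreserving_sub_right (volume : Measure ℝ)
        (-Real.log lam)).quasiMeasurePreserving
      filter_upwards [hSh (A (star Sh f)), qm.ae_eq_comp (hA (star Sh f)),
        qm.ae_eq_comp (hSh' f)] with p a1 a2 a3
      simp only [Function.comp] at a2 a3
      rw [a1, a2, a3]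
      have a4 : p - -Real.log lam - Real.log lam = p := by ring
      have a5 : Real.exp (p - -Real.log lam) = Real.exp p * lam := by
        rw [sub_neg_eq_add, Real.exp_add, Real.exp_log hlam]
      rw [a4, a5, hβ.comp _ _ (Real.exp_pos p) hlam c hc]
    · intro f
      show S (T (star S (W f))) = W (Sh (A (star Sh f)))
      rw [e2, hT, e1]

end

end Pool.Agent.H255.BC.R_pi
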