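import Pool.Agent.H255.BC.Defs2

set_option autoImplicit false

open MeasureTheory Filter Topology Complex
open scoped InnerProductSpace ENNReal FourierTransform

namespace Pool.Agent.H255.BC.R_piE

open Pool.Agent.W662.CB Pool.Agent.H255.BC

section aux

variable {H : Type} [NormedAddCommGroup H] [InnerProductSpace ℂ H] [CompleteSpace H]

theorem const_ten {y : H →L[ℂ] H} {S : LR H →L[ℂ] LR H} {g : ℝ → ℂ} {Tg : H →L[ℂ] LR H}
    (hS : IsConst y S) (hg : IsTen g Tg) (v : H) : S (Tg v) = Tg (y v) := by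
  apply Lp.ext
  filter_upwards [hS (Tg v), hg v, hg (y v)] with s h1 h2 h3
  rw [h1, h2, h3, map_smul]

theorem dense_cc : Dense {F : LR H | ∃ G : ℝ → H, Continuous G ∧ HasCompactSupport G ∧
    (F : ℝ → H) =ᵐ[volume] G} := by
  rw [Metric.dense_iff]
  intro F ε hε
  obtain ⟨G, hG1, hG2, hG3, hG4⟩ := (Lp.memLp F).exists_hasCompactSupport_eLpNorm_sub_le
    (by norm_num) (ε := ENNReal.ofReal (ε / 2)) (by simpa using hε)
  refine ⟨hG4.toLp G, ?_, G, hG3, hG1, hG4.coeFn_toLp⟩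
  rw [Metric.mem_ball, dist_comm, dist_eq_norm]
  have h1 : ‖F - hG4.toLp G‖ ≤ ε / 2 := by
    rw [Lp.norm_def]
    apply ENNReal.toReal_le_of_le_ofReal (by positivity)
    refine le_trans (le_of_eq ?_) hG2
    apply eLpNorm_congr_ae
    filter_upwards [Lp.coeFn_sub F (hG4.toLp G), hG4.coeFn_toLp] with s h1 h2
    rw [h1, Pi.sub_apply, Pi.sub_apply, h2]
  linarith

theorem W_const {W : LR H ≃ₗᵢ[ℂ] LR H} (hW : IsFou W) {y : H →L[ℂ] H} {S : LR H →L[ℂ] LR H}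
    (hS : IsConst y S) (F : LR H) : W (S F) = S (W F) := by
  have h := Continuous.ext_on (dense_cc (H := H)) (f := fun F => W (S F)) (g := fun F => S (W F))
    (W.continuous.comp S.continuous) (S.continuous.comp W.continuous) ?_
  · exact congrFun h F
  · rintro F ⟨G, hG1, hG2, hG3⟩
    have h1 : Continuous (fun p => y (G p)) := y.continuous.comp hG1
    have h2 : HasCompactSupport (fun p => y (G p)) := hG2.comp_left (g := y) (map_zero y)
    have h3 : (S F : ℝ → H) =ᵐ[volume] fun p => y (G p) := by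
      filter_upwards [hS F, hG3] with s a1 a2
      rw [a1, a2]
    apply Lp.ext
    filter_upwards [hW _ h1 h2 (S F) h3, hS (W F), hW G hG1 hG2 F hG3] with s a1 a2 a3
    rw [a1, a2, a3, map_smul]
    congr 1
    have h4 : Integrable (fun p : ℝ => cexp (I * ((s * p : ℝ) : ℂ)) • G p) volume := by
      apply Continuous.integrable_of_hasCompactSupport
      · fun_prop
      · exact hG2.smul_left
    rw [← ContinuousLinearMap.integral_comp_comm y h4]
    congr 1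
    ext p
    rw [map_smul]

end aux

theorem r (h1 : S_betaE) (h2 : S_pi) (h3 : S_ops) : S_piE := by
  intro H _ _ _ N M ξ U J E β W hI hβ hW c hc T hT f g Tf Tg hf hg hTf hTg
  have hcon := (h3 H M ξ U hI.modular).2.2.1
  obtain ⟨T', -, hT'M, -, huniq, -⟩ := (h2 H N M ξ U J E β W hI hβ hW).1 c hc
  have hTM : T ∈ Amp M := by
    rw [huniq T hT]; exact hT'M
  set X : H →L[ℂ] H := ContinuousLinearMap.adjoint Tf ∘L T ∘L Tg with hX
  have hXapp : ∀ v w : H, ⟪v, X w⟫_ℂ = ⟪Tf v, T (Tg w)⟫_ℂ := by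
    intro v w
    show ⟪v, ContinuousLinearMap.adjoint Tf (T (Tg w))⟫_ℂ = _
    rw [ContinuousLinearMap.adjoint_inner_right]
  have hXM : X ∈ M := by
    rw [← VonNeumannAlgebra.commutant_commutant M, VonNeumannAlgebra.mem_commutant_iff]
    intro y hy
    obtain ⟨S, hS1, -, hS2⟩ := hcon y
    have hcomm := hTM y hy S hS1
    ext v
    apply ext_inner_left ℂ
    intro w
    show ⟪w, y (X v)⟫_ℂ = ⟪w, X (y v)⟫_ℂ
    rw [hXapp, ← const_ten hS1 hTg]
    have e1 : T (S (Tg v)) = S (T (Tg v)) := by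
      have := congrArg (fun A : LR H →L[ℂ] LR H => A (Tg v)) hcomm
      exact this
    rw [e1, ← ContinuousLinearMap.adjoint_inner_left S, ← ContinuousLinearMap.star_eq_adjoint,
      const_ten hS2 hTf, ← hXapp, ContinuousLinearMap.star_eq_adjoint,
      ContinuousLinearMap.adjoint_inner_left]
  refine ⟨hXM, ?_⟩
  -- the Fourier picture
  obtain ⟨S, hS, hTW⟩ := hT
  have hξξ : ⟪ξ, ξ⟫_ℂ = 1 := by
    rw [inner_self_eq_norm_sq_to_K, hI.unit]; simp
  set y₀ : H →L[ℂ] H := (innerSL ℂ ξ).smulRight ξ with hy₀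
  have hy₀app : ∀ v : H, y₀ v = ⟪ξ, v⟫_ℂ • ξ := fun v => rfl
  obtain ⟨S₀, hS₀, -, -⟩ := hcon y₀
  have hinv : ∀ (g : ℝ → ℂ) (Tg : H →L[ℂ] LR H), IsTen g Tg →
      (W.symm (Tg ξ) : ℝ → H) =ᵐ[volume] fun p => ⟪ξ, (W.symm (Tg ξ) : ℝ → H) p⟫_ℂ • ξ := by
    intro g Tg hTg
    have e1 : S₀ (W.symm (Tg ξ)) = W.symm (Tg ξ) := by
      apply W.injective
      rw [W_const hW hS₀, W.apply_symm_apply, const_ten hS₀ hTg, hy₀app, hξξ, one_smul]
    have e2 := hS₀ (W.symm (Tg ξ))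
    rw [e1] at e2
    exact e2
  set A := W.symm (Tg ξ) with hA
  set A' := W.symm (Tf ξ) with hA'
  have hAe := hinv g Tg hTg
  have hA'e := hinv f Tf hTf
  have hB := h1 H N M ξ U J E β hI hβ
  have hint : ∫ s : ℝ, starRingEnd ℂ (f s) * g s = ∫ p : ℝ, ⟪(A' : ℝ → H) p, (A : ℝ → H) p⟫_ℂ := by
    have e1 : ⟪A', A⟫_ℂ = ⟪Tf ξ, Tg ξ⟫_ℂ := by
      rw [hA, hA', W.symm.inner_map_map]
    rw [L2.inner_def, L2.inner_def] at e1
    rw [e1]
    apply integral_congr_ae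
    filter_upwards [hTf ξ, hTg ξ] with s a1 a2
    rw [a1, a2, inner_smul_left, inner_smul_right, hξξ, mul_one]
  have key : ∀ n : H →L[ℂ] H, n ∈ N → ⟪n ξ, X ξ⟫_ℂ =
      (vst ξ c * ∫ s : ℝ, starRingEnd ℂ (f s) * g s) * ⟪n ξ, ξ⟫_ℂ := by
    intro n hn
    obtain ⟨Sn, hSn, -, -⟩ := hcon n
    have e1 : Tf (n ξ) = W (Sn A') := by
      rw [W_const hW hSn, hA', W.apply_symm_apply, const_ten hSn hTf]
    have e2 : Tg ξ = W A := by rw [hA, W.apply_symm_apply]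
    have hβc : ∀ p : ℝ, β (Real.exp p) c ∈ relBicentralizer N M ξ := fun p => hβ.mem _ (Real.exp_pos p) c hc
    have e3 : ∀ p : ℝ, ⟪n ξ, β (Real.exp p) c ξ⟫_ℂ = vst ξ c * ⟪n ξ, ξ⟫_ℂ := by
      intro p
      have b1 : ⟪n ξ, β (Real.exp p) c ξ⟫_ℂ = vst ξ (star n * β (Real.exp p) c) := by
        show _ = ⟪ξ, star n (β (Real.exp p) c ξ)⟫_ℂ
        rw [ContinuousLinearMap.star_eq_adjoint, ContinuousLinearMap.adjoint_inner_right]
      have b2 : vst ξ (star n * β (Real.exp p) c) = vst ξ (star n * E (β (Real.exp p) c)) := by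
        rw [← hI.inv _ (mul_mem (star_mem (hI.le n hn)) (hβc p).1),
          hI.exp.left _ _ (star_mem hn) (hβc p).1]
      rw [b1, b2, hB.1 _ (hβc p), (hB.2 _ (Real.exp_pos p) c hc).1]
      show ⟪ξ, star n (vst ξ c • ξ)⟫_ℂ = _
      rw [map_smul, inner_smul_right, ContinuousLinearMap.star_eq_adjoint,
        ContinuousLinearMap.adjoint_inner_right]
    rw [hXapp, e1, e2, hTW, W.inner_map_map, L2.inner_def, hint, mul_assoc, ← integral_mul_const,
      ← integral_const_mul]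
    apply integral_congr_ae
    filter_upwards [hSn A', hS A, hAe, hA'e] with p a1 a2 a3 a4
    rw [a1, a2]
    have c1 : n ((A' : ℝ → H) p) = ⟪ξ, (A' : ℝ → H) p⟫_ℂ • n ξ := by
      conv_lhs => rw [a4]
      rw [map_smul]
    have c2 : β (Real.exp p) c ((A : ℝ → H) p) = ⟪ξ, (A : ℝ → H) p⟫_ℂ • β (Real.exp p) c ξ := by
      conv_lhs => rw [a3]
      rw [map_smul]
    have c3 : ⟪(A' : ℝ → H) p, (A : ℝ → H) p⟫_ℂ =
        starRingEnd ℂ ⟪ξ, (A' : ℝ → H) p⟫_ℂ * ⟪ξ, (A : ℝ → H) p⟫_ℂ := by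
      conv_lhs => rw [a3, a4]
      rw [inner_smul_left, inner_smul_right, hξξ, mul_one]
    rw [c1, c2, c3, inner_smul_left, inner_smul_right, e3]
    ring
  -- conclusion
  set l : ℂ := vst ξ c * ∫ s : ℝ, starRingEnd ℂ (f s) * g s with hl
  have hEN : E X ∈ N := hI.exp.mem X hXM
  set n₀ : H →L[ℂ] H := E X - l • 1 with hn₀
  have hn₀N : n₀ ∈ N := sub_mem hEN (by
    have : (l • (1 : H →L[ℂ] H)) ∈ N.toStarSubalgebra := N.toStarSubalgebra.smul_mem (one_mem _) l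
    exact this)
  have e4 : ⟪n₀ ξ, E X ξ⟫_ℂ = ⟪n₀ ξ, X ξ⟫_ℂ := by
    have b1 : ∀ z : H →L[ℂ] H, ⟪n₀ ξ, z ξ⟫_ℂ = vst ξ (star n₀ * z) := by
      intro z
      show _ = ⟪ξ, star n₀ (z ξ)⟫_ℂ
      rw [ContinuousLinearMap.star_eq_adjoint, ContinuousLinearMap.adjoint_inner_right]
    rw [b1, b1, ← hI.inv _ (mul_mem (star_mem (hI.le n₀ hn₀N)) hXM), hI.exp.left _ _ (star_mem hn₀N) hXM]
  have e5 : ⟪n₀ ξ, n₀ ξ⟫_ℂ = 0 := by
    have b1 : n₀ ξ = E X ξ - l • ξ := rfl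
    conv_lhs => rw [show ⟪n₀ ξ, n₀ ξ⟫_ℂ = ⟪n₀ ξ, E X ξ - l • ξ⟫_ℂ from by rw [← b1]]
    rw [inner_sub_right, e4, inner_smul_right, key n₀ hn₀N, sub_self]
  have e6 : n₀ = 0 := hI.sep n₀ (hI.le n₀ hn₀N) (inner_self_eq_zero.1 e5)
  exact sub_eq_zero.1 e6

end Pool.Agent.H255.BC.R_piE
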