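import Pool.Agent.H255.BC.Defs2

set_option autoImplicit false

open MeasureTheory Filter Topology Complex
open scoped InnerProductSpace ENNReal FourierTransform

namespace Pool.Agent.H255.BC.R_pin

open Pool.Agent.W662.CB Pool.Agent.H255.BC

/-! ### Fourier transforms of test functions -/

theorem ft_eq (h : ℝ → ℂ) (s : ℝ) :
    𝓕 h s = ∫ κ : ℝ, cexp (-(2 * Real.pi * I * s * κ)) * h κ := by
  rw [Real.fourier_real_eq_integral_exp_smul]
  congr 1
  funext κ
  rw [smul_eq_mul]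
  congr 2
  push_cast
  ring

theorem ft_cont (h : ℝ → ℂ) (hh : Tst h) : Continuous (𝓕 h) := by
  have h1 : 𝓕 h = (𝓕 (hh.2.toSchwartzMap hh.1) : SchwartzMap ℝ ℂ) := by
    rw [SchwartzMap.fourier_coe]
    rfl
  rw [h1]
  exact SchwartzMap.continuous _

theorem ft_int (h : ℝ → ℂ) (hh : Tst h) : Integrable (𝓕 h) := by
  have h1 : 𝓕 h = (𝓕 (hh.2.toSchwartzMap hh.1) : SchwartzMap ℝ ℂ) := by
    rw [SchwartzMap.fourier_coe]
    rfl
  rw [h1]
  exact SchwartzMap.integrable _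

/-- translation -/
theorem ft_trans (h : ℝ → ℂ) (p s : ℝ) :
    𝓕 (fun κ : ℝ => h (p + κ)) s = cexp (2 * Real.pi * I * s * p) * 𝓕 h s := by
  rw [ft_eq, ft_eq]
  rw [← integral_add_left_eq_self (fun κ : ℝ => cexp (-(2 * Real.pi * I * s * κ)) * h κ) p,
    ← integral_const_mul]
  congr 1
  funext κ
  rw [← mul_assoc, ← Complex.exp_add]
  congr 2
  push_cast
  ring

theorem tst_trans {h : ℝ → ℂ} (hh : Tst h) (p : ℝ) : Tst (fun κ : ℝ => h (p + κ)) := by
  constructor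
  · exact hh.1.comp (contDiff_const.add contDiff_id)
  · exact hh.2.comp_homeomorph (Homeomorph.addLeft p)

theorem tst_mul {h h' : ℝ → ℂ} (hh : Tst h) (hh' : ContDiff ℝ (⊤ : ℕ∞) h') :
    Tst (fun κ : ℝ => h' κ * h κ) :=
  ⟨hh'.mul hh.1, hh.2.mul_left⟩

theorem contDiff_e (s : ℝ) : ContDiff ℝ (⊤ : ℕ∞) fun p : ℝ => cexp (I * ((s * p : ℝ) : ℂ)) := by
  have h1 : ContDiff ℝ (⊤ : ℕ∞) fun p : ℝ => ((s * p : ℝ) : ℂ) :=
    Complex.ofRealCLM.contDiff.comp (contDiff_const.mul contDiff_id)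
  exact (contDiff_const.mul h1).cexp

variable {H : Type} [NormedAddCommGroup H] [InnerProductSpace ℂ H] [CompleteSpace H]
  {M : VonNeumannAlgebra H} {ξ : H} {U : ℝ → H →L[ℂ] H}

theorem U_inner (hU : IsModular M ξ U) (t : ℝ) (v w : H) : ⟪v, U t w⟫_ℂ = ⟪U (-t) v, w⟫_ℂ := by
  rw [← hU.star_eq, ContinuousLinearMap.star_eq_adjoint, ContinuousLinearMap.adjoint_inner_left]

theorem U_add (hU : IsModular M ξ U) (s t : ℝ) (v : H) : U s (U t v) = U (s + t) v := by
  rw [hU.add]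
  rfl

theorem U_norm (hU : IsModular M ξ U) (t : ℝ) (v : H) : ‖U t v‖ = ‖v‖ := by
  have h1 : ⟪U t v, U t v⟫_ℂ = ⟪v, v⟫_ℂ := by
    rw [U_inner hU, U_add hU, neg_add_cancel, hU.zero]
    rfl
  rw [inner_self_eq_norm_sq_to_K, inner_self_eq_norm_sq_to_K] at h1
  have h2 : ‖U t v‖ ^ 2 = ‖v‖ ^ 2 := by exact_mod_cast h1
  exact (pow_left_inj₀ (norm_nonneg _) (norm_nonneg _) two_ne_zero).1 h2

theorem psi_cont (hU : IsModular M ξ U) (h : ℝ → ℂ) (hh : Tst h) (v : H) :
    Continuous fun s : ℝ => (𝓕 h s) • U (2 * Real.pi * s) v :=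
  (ft_cont h hh).smul ((hU.cont v).comp (continuous_const.mul continuous_id))

theorem psi_int (hU : IsModular M ξ U) (h : ℝ → ℂ) (hh : Tst h) (v : H) :
    Integrable fun s : ℝ => (𝓕 h s) • U (2 * Real.pi * s) v := by
  refine ((ft_int h hh).norm.mul_const ‖v‖).mono' (psi_cont hU h hh v).aestronglyMeasurable
    (Eventually.of_forall fun s => ?_)
  rw [norm_smul, U_norm hU]

/-- `p ↦ psi_{l(p+·)} v` is an inverse Fourier transform -/
theorem G_eq (l : ℝ → ℂ) (v : H) (p : ℝ) :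
    psi U (fun κ => l (p + κ)) v = 𝓕⁻ (fun s : ℝ => (𝓕 l s) • U (2 * Real.pi * s) v) p := by
  unfold psi
  rw [Real.fourierInv_eq']
  congr 1
  funext s
  rw [ft_trans, mul_smul]
  congr 2
  simp only [RCLike.inner_apply, conj_trivial]
  push_cast
  ring

theorem G_cont (hU : IsModular M ξ U) (l : ℝ → ℂ) (hl : Tst l) (v : H) :
    Continuous fun p : ℝ => psi U (fun κ => l (p + κ)) v := by
  unfold psi
  simp only [ft_trans]
  refine continuous_of_dominated (bound := fun s => ‖𝓕 l s‖ * ‖v‖) (fun p => ?_) (fun p => ?_)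
    ((ft_int l hl).norm.mul_const ‖v‖) ?_
  · refine Continuous.aestronglyMeasurable ?_
    refine Continuous.smul (Continuous.mul (by fun_prop) (ft_cont l hl))
      ((hU.cont v).comp (continuous_const.mul continuous_id))
  · refine Eventually.of_forall fun s => ?_
    rw [norm_smul, norm_mul, U_norm hU]
    have h1 : ‖cexp (2 * Real.pi * I * s * p)‖ = 1 := by
      rw [Complex.norm_exp]
      simp
    rw [h1, one_mul]
  · refine Eventually.of_forall fun s => ?_
    fun_prop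

/-- the Fourier transform of `p ↦ psi_{l(p+·)} v` -/
theorem G_ft (hU : IsModular M ξ U) (l : ℝ → ℂ) (hl : Tst l) (v : H)
    (hc : HasCompactSupport fun p : ℝ => psi U (fun κ => l (p + κ)) v) (s : ℝ) :
    ∫ p : ℝ, cexp (I * ((s * p : ℝ) : ℂ)) • psi U (fun κ => l (p + κ)) v =
      (∫ p : ℝ, cexp (I * ((s * p : ℝ) : ℂ)) * l p) • U (-s) v := by
  set g : ℝ → H := fun s : ℝ => (𝓕 l s) • U (2 * Real.pi * s) v with hg
  have hG : (fun p : ℝ => psi U (fun κ => l (p + κ)) v) = 𝓕⁻ g := by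
    funext p
    exact G_eq l v p
  have hGi : Integrable (𝓕⁻ g) := by
    rw [← hG]
    exact (G_cont hU l hl v).integrable_of_hasCompactSupport hc
  have hi : Integrable (𝓕 g) := by
    have h2 : 𝓕 g = fun x => 𝓕⁻ g (-x) := by
      funext x
      rw [Real.fourierInv_eq_fourier_neg, neg_neg]
    rw [h2]
    exact hGi.comp_neg
  have h3 : 𝓕 (𝓕⁻ g) = g :=
    (psi_cont hU l hl v).fourier_fourierInv_eq (psi_int hU l hl v) hi
  have hpi : (Real.pi : ℂ) ≠ 0 := by exact_mod_cast Real.pi_ne_zero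
  have h4 : ∫ p : ℝ, cexp (I * ((s * p : ℝ) : ℂ)) • psi U (fun κ => l (p + κ)) v =
      𝓕 (𝓕⁻ g) (-(s / (2 * Real.pi))) := by
    rw [← hG, Real.fourier_real_eq_integral_exp_smul]
    congr 1
    funext p
    congr 2
    push_cast
    field_simp
  have h5 : ∫ p : ℝ, cexp (I * ((s * p : ℝ) : ℂ)) * l p = 𝓕 l (-(s / (2 * Real.pi))) := by
    rw [ft_eq]
    congr 1
    funext p
    congr 2
    push_cast
    field_simp
  rw [h4, h3, h5, hg]
  simp only
  congr 2
  congr 1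
  have := Real.pi_ne_zero
  field_simp

/-- the compact support -/
theorem G_supp (h2 : S_psi_mul) (hU : IsModular M ξ U) (l h₀ : ℝ → ℂ) (hl : Tst l) (hh : Tst h₀)
    (v : H) : HasCompactSupport fun p : ℝ => psi U (fun κ => l (p + κ)) (psi U h₀ v) := by
  obtain ⟨A, hA⟩ := hl.2.isCompact.isBounded.exists_norm_le
  obtain ⟨B, hB⟩ := hh.2.isCompact.isBounded.exists_norm_le
  refine HasCompactSupport.intro (isCompact_Icc (a := -(A + B)) (b := A + B)) (fun p hp => ?_)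
  rw [← h2 H M ξ U hU (fun κ => l (p + κ)) h₀ (tst_trans hl p) hh v]
  have h0 : (fun κ : ℝ => l (p + κ) * h₀ κ) = fun _ => 0 := by
    funext κ
    by_contra hne
    have h3 : l (p + κ) ≠ 0 := left_ne_zero_of_mul hne
    have h4 : h₀ κ ≠ 0 := right_ne_zero_of_mul hne
    have h5 := hA (p + κ) (subset_tsupport _ h3)
    have h6 := hB κ (subset_tsupport _ h4)
    rw [Real.norm_eq_abs, abs_le] at h5 h6
    apply hp
    constructor <;> linarith [h5.1, h5.2, h6.1, h6.2]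
  rw [h0]
  unfold psi
  have h7 : ∀ s : ℝ, 𝓕 (fun _ : ℝ => (0 : ℂ)) s = 0 := by
    intro s
    rw [ft_eq]
    simp
  simp only [h7, zero_smul, integral_zero]

/-! ### The right action -/

variable {J : H → H}

theorem J_norm (hJ : IsConj M ξ U J) (v : H) : ‖J v‖ = ‖v‖ := by
  have h1 := hJ.inner v v
  rw [inner_self_eq_norm_sq_to_K, inner_self_eq_norm_sq_to_K] at h1
  have h2 : ‖J v‖ ^ 2 = ‖v‖ ^ 2 := by exact_mod_cast h1
  exact (pow_left_inj₀ (norm_nonneg _) (norm_nonneg _) two_ne_zero).1 h2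

theorem J_sub (hJ : IsConj M ξ U J) (v w : H) : J (v - w) = J v - J w := by
  have h1 := hJ.add v ((-1 : ℂ) • w)
  rw [hJ.smul, map_neg, map_one, neg_one_smul, neg_one_smul, ← sub_eq_add_neg,
    ← sub_eq_add_neg] at h1
  exact h1

theorem J_cont (hJ : IsConj M ξ U J) : Continuous J := by
  have : Isometry J := by
    refine Isometry.of_dist_eq fun v w => ?_
    rw [dist_eq_norm, dist_eq_norm, ← J_sub hJ, J_norm hJ]
  exact this.continuous

/-- the operator `v ↦ J b J v` -/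
noncomputable def rt (hJ : IsConj M ξ U J) (b : H →L[ℂ] H) : H →L[ℂ] H :=
  LinearMap.mkContinuous
    { toFun := fun v => J (b (J v))
      map_add' := fun v w => by rw [hJ.add, map_add, hJ.add]
      map_smul' := fun c v => by
        rw [hJ.smul, map_smul, hJ.smul, Complex.conj_conj, RingHom.id_apply] } ‖b‖
    (fun v => by
      change ‖J (b (J v))‖ ≤ ‖b‖ * ‖v‖
      rw [J_norm hJ]
      exact (b.le_opNorm _).trans (by rw [J_norm hJ]))

theorem rt_apply (hJ : IsConj M ξ U J) (b : H →L[ℂ] H) (v : H) : rt hJ b v = J (b (J v)) := rfl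

theorem rt_comm (hJ : IsConj M ξ U J) {b x : H →L[ℂ] H} (hb : b ∈ M) (hx : x ∈ M) (v : H) :
    x (rt hJ b v) = rt hJ b (x v) := by
  rw [rt_apply, rt_apply]
  exact hJ.comm x b hx hb v

theorem rt_dense (hJ : IsConj M ξ U J) (hc : IsCyclic M ξ) :
    Dense {v : H | ∃ b : H →L[ℂ] H, b ∈ M ∧ rt hJ b ξ = v} := by
  have h1 : {v : H | ∃ b : H →L[ℂ] H, b ∈ M ∧ rt hJ b ξ = v} =
      J '' {v : H | ∃ x : H →L[ℂ] H, x ∈ M ∧ x ξ = v} := by
    ext v
    constructor
    · rintro ⟨b, hb, rfl⟩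
      exact ⟨b ξ, ⟨b, hb, rfl⟩, by rw [rt_apply, hJ.fix]⟩
    · rintro ⟨w, ⟨x, hx, rfl⟩, rfl⟩
      exact ⟨x, hx, by rw [rt_apply, hJ.fix]⟩
  rw [h1]
  have hs : Function.Surjective J := fun v => ⟨J v, hJ.inv v⟩
  exact hs.denseRange.dense_image (J_cont hJ) hc

/-- strongly continuous families applied to continuous functions -/
theorem cont_app (Y : ℝ → H →L[ℂ] H) (hY : ∀ v : H, Continuous fun p => Y p v) (G : ℝ → H)
    (hG : Continuous G) : Continuous fun p => Y p (G p) := by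
  rw [continuous_iff_continuousAt]
  intro p₀
  obtain ⟨C, hC⟩ : ∃ C, ∀ i : Set.Icc (p₀ - 1) (p₀ + 1), ‖Y i‖ ≤ C := by
    apply banach_steinhaus
    intro v
    obtain ⟨C, hC⟩ := (isCompact_Icc (a := p₀ - 1) (b := p₀ + 1)).exists_bound_of_continuousOn
      (hY v).continuousOn
    exact ⟨C, fun i => hC i i.2⟩
  have h1 : Tendsto (fun p => C * ‖G p - G p₀‖ + ‖Y p (G p₀) - Y p₀ (G p₀)‖) (𝓝 p₀) (𝓝 0) := by
    have h2 : Tendsto (fun p => ‖G p - G p₀‖) (𝓝 p₀) (𝓝 0) := by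
      have := (hG.sub (continuous_const (y := G p₀))).norm.tendsto p₀
      simpa using this
    have h3 : Tendsto (fun p => ‖Y p (G p₀) - Y p₀ (G p₀)‖) (𝓝 p₀) (𝓝 0) := by
      have := ((hY (G p₀)).sub (continuous_const (y := Y p₀ (G p₀)))).norm.tendsto p₀
      simpa using this
    simpa using (h2.const_mul C).add h3
  rw [ContinuousAt, tendsto_iff_norm_sub_tendsto_zero]
  refine squeeze_zero' (Eventually.of_forall fun p => norm_nonneg _) ?_ h1
  filter_upwards [Icc_mem_nhds (sub_one_lt p₀) (lt_add_one p₀)] with p hp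
  have h4 : Y p (G p) - Y p₀ (G p₀) = Y p (G p - G p₀) + (Y p (G p₀) - Y p₀ (G p₀)) := by
    rw [map_sub]
    abel
  rw [h4]
  refine (norm_add_le _ _).trans (add_le_add ?_ le_rfl)
  exact ((Y p).le_opNorm _).trans (mul_le_mul_of_nonneg_right (hC ⟨p, hp⟩) (norm_nonneg _))

/-- the vectors `l ⊗ v`, `l` a test function, `v` in a dense set, separate -/
theorem sep_zero (D : Set H) (hD : Dense D) (Ψ : LR H)
    (h : ∀ g : ℝ → ℂ, Tst g → ∀ v ∈ D, ∀ F : LR H, ((F : ℝ → H) =ᵐ[volume] fun s => g s • v) →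
      ⟪F, Ψ⟫_ℂ = 0) : Ψ = 0 := by
  have hΨ : LocallyIntegrable (Ψ : ℝ → H) volume :=
    (Lp.memLp Ψ).locallyIntegrable (by norm_num)
  have h1 : ∀ᵐ x : ℝ, (Ψ : ℝ → H) x = 0 := by
    refine ae_eq_zero_of_integral_contDiff_smul_eq_zero hΨ (fun g hg hgc => ?_)
    have hgt : Tst (fun s => (g s : ℂ)) :=
      ⟨Complex.ofRealCLM.contDiff.comp hg, hgc.comp_left (g := fun x : ℝ => (x : ℂ)) (by simp)⟩
    have hint : Integrable fun s => g s • (Ψ : ℝ → H) s :=
      hΨ.integrable_smul_left_of_hasCompactSupport hg.continuous hgc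
    have h2 : ∀ v ∈ D, ⟪v, ∫ s, g s • (Ψ : ℝ → H) s⟫_ℂ = 0 := by
      intro v hv
      have hmem : MemLp (fun s : ℝ => ((g s : ℂ)) • v) 2 (volume : Measure ℝ) := by
        refine Continuous.memLp_of_hasCompactSupport ?_ ?_
        · exact (hgt.1.continuous).smul continuous_const
        · exact hgt.2.smul_right
      have h3 := h (fun s => (g s : ℂ)) hgt v hv (hmem.toLp _) hmem.coeFn_toLp
      rw [L2.inner_def] at h3
      rw [← integral_inner hint, ← h3]
      refine integral_congr_ae ?_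
      filter_upwards [hmem.coeFn_toLp] with s hs
      rw [hs, inner_smul_left, Complex.conj_ofReal]
      have h5 : g s • (Ψ : ℝ → H) s = ((g s : ℂ)) • (Ψ : ℝ → H) s := by
        rw [Complex.coe_smul]
      rw [h5, inner_smul_right]
    have h6 : ∀ v : H, ⟪v, ∫ s, g s • (Ψ : ℝ → H) s⟫_ℂ = 0 := by
      intro v
      have hcl : IsClosed {v : H | ⟪v, ∫ s, g s • (Ψ : ℝ → H) s⟫_ℂ = 0} :=
        isClosed_eq (by fun_prop) continuous_const
      exact hcl.closure_subset_iff.2 h2 (hD v)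
    exact inner_self_eq_zero.1 (h6 _)
  exact (Lp.eq_zero_iff_ae_eq_zero).2 h1

variable {N : VonNeumannAlgebra H} {E : (H →L[ℂ] H) → (H →L[ℂ] H)}

theorem sgm_ξ (hU : IsModular M ξ U) (t : ℝ) (x : H →L[ℂ] H) : sgm U t x ξ = U t (x ξ) := by
  change U t (x ((star (U t)) ξ)) = _
  rw [hU.star_eq, hU.fix]

theorem npos_sgm (h1 : S_psi) (hI : Inc N M ξ U J E) {n : H →L[ℂ] H} (hn : n ∈ Npos N ξ U)
    (t : ℝ) : sgm U t n ∈ Npos N ξ U := by
  obtain ⟨hn, a, ha, h, hh, hc, he⟩ := hn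
  refine ⟨hI.mod t n hn, sgm U t a, hI.mod t a ha, h, hh, hc, ?_⟩
  rw [sgm_ξ hI.modular, sgm_ξ hI.modular, he]
  exact (h1 H M ξ U hI.modular h hh).2.2.1 t (a ξ)

theorem ft_smul (c : ℂ) (h : ℝ → ℂ) (s : ℝ) : 𝓕 (fun κ => c * h κ) s = c * 𝓕 h s := by
  rw [ft_eq, ft_eq, ← integral_const_mul]
  congr 1
  funext κ
  ring

theorem psi_smul (c : ℂ) (h : ℝ → ℂ) (v : H) : psi U (fun κ => c * h κ) v = c • psi U h v := by
  unfold psi
  simp only [ft_smul]
  rw [← integral_smul]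
  congr 1
  funext s
  rw [mul_smul]

/-- the twist -/
theorem psi_twist (h1 : S_psi) (hU : IsModular M ξ U) (l : ℝ → ℂ) (hl : Tst l) (s p : ℝ) (v : H) :
    psi U (fun κ => cexp (I * ((s * (p + κ) : ℝ) : ℂ)) * l (p + κ)) (U (-s) v) =
      cexp (I * ((s * p : ℝ) : ℂ)) • psi U (fun κ => l (p + κ)) v := by
  have h2 : (fun κ : ℝ => cexp (I * ((s * (p + κ) : ℝ) : ℂ)) * l (p + κ)) =
      fun κ : ℝ => cexp (I * ((s * p : ℝ) : ℂ)) * (cexp (I * s * κ) * l (p + κ)) := by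
    funext κ
    rw [← mul_assoc, ← Complex.exp_add]
    congr 2
    push_cast
    ring
  rw [h2, psi_smul (cexp (I * ((s * p : ℝ) : ℂ))) (fun κ : ℝ => cexp (I * s * κ) * l (p + κ))]
  congr 1
  obtain ⟨_, _, h3, h4⟩ := h1 H M ξ U hU (fun κ => l (p + κ)) (tst_trans hl p)
  rw [← h4, h3, U_add hU, add_neg_cancel, hU.zero]
  rfl

theorem memLp_cc {G : ℝ → H} (hG : Continuous G) (hc : HasCompactSupport G) :
    MemLp G 2 (volume : Measure ℝ) := hG.memLp_of_hasCompactSupport hc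

/-- both sides on `W (l ⊗ y'ξ)` -/
theorem key (h1 : S_psi) (h2 : S_psi_mul) (h3 : S_TR3)
    (β : ℝ → (H →L[ℂ] H) → (H →L[ℂ] H)) (W : LR H ≃ₗᵢ[ℂ] LR H)
    (hI : Inc2 N M ξ U J E) (hβ : IsBicFlow N M ξ β) (hW : IsFou W)
    (c : H →L[ℂ] H) (hc : c ∈ relBicentralizer N M ξ) (T : LR H →L[ℂ] LR H) (hT : IsPi W β c T)
    (n : H →L[ℂ] H) (hn : n ∈ Npos N ξ U) (R : LR H →L[ℂ] LR H) (hR : IsSig U n R)
    (l : ℝ → ℂ) (hl : Tst l) (b : H →L[ℂ] H) (hb : b ∈ M) (F : LR H)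
    (hF : (F : ℝ → H) =ᵐ[volume] fun s => l s • rt hI.conj b ξ) :
    T (R (W F)) = R (T (W F)) := by
  have hU := hI.modular
  have hJ := hI.conj
  obtain ⟨S, hS, hTS⟩ := hT
  set Y : H →L[ℂ] H := rt hJ b with hY
  obtain ⟨hnN, a, ha, h₀, hh₀, -, hnξ⟩ := id hn
  have hnM : n ∈ M := hI.le n hnN
  set G : ℝ → H := fun p => psi U (fun κ => l (p + κ)) (n ξ) with hGdef
  have hGc : Continuous G := G_cont hU l hl (n ξ)
  have hGs : HasCompactSupport G := by
    rw [hGdef, hnξ]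
    exact G_supp h2 hU l h₀ hl hh₀ (a ξ)
  set C0 : ℂ := ((((Real.sqrt (2 * Real.pi))⁻¹ : ℝ)) : ℂ) with hC0
  -- the function `l ⊗ Yξ`
  have hlc : Continuous fun s => l s • Y ξ := (hl.1.continuous).smul continuous_const
  have hls : HasCompactSupport fun s => l s • Y ξ := hl.2.smul_right
  have hWF := hW _ hlc hls F hF
  have hYG : Continuous fun p => Y (G p) := Y.continuous.comp hGc
  have hYGs : HasCompactSupport fun p => Y (G p) := hGs.comp_left (g := Y) (map_zero Y)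
  set F1 : LR H := (memLp_cc hYG hYGs).toLp _ with hF1
  have hF1e : (F1 : ℝ → H) =ᵐ[volume] fun p => Y (G p) := (memLp_cc hYG hYGs).coeFn_toLp
  have hWF1 := hW _ hYG hYGs F1 hF1e
  have hsgM : ∀ s : ℝ, sgm U s n ∈ M := fun s => hU.mem s n hnM
  have hexp : ∀ s : ℝ, Continuous fun p : ℝ => cexp (I * ((s * p : ℝ) : ℂ)) := fun s => by
    fun_prop
  -- step 1
  have e1 : R (W F) = W F1 := by
    refine Lp.ext ?_
    filter_upwards [hR (W F), hWF, hWF1] with s hs1 hs2 hs3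
    rw [hs1, hs2, hs3, map_smul]
    congr 1
    have i1 : ∫ p : ℝ, cexp (I * ((s * p : ℝ) : ℂ)) • l p • Y ξ =
        (∫ p : ℝ, cexp (I * ((s * p : ℝ) : ℂ)) * l p) • Y ξ := by
      rw [← integral_smul_const]
      congr 1
      funext p
      rw [smul_smul]
    have i2 : ∫ p : ℝ, cexp (I * ((s * p : ℝ) : ℂ)) • Y (G p) =
        Y (∫ p : ℝ, cexp (I * ((s * p : ℝ) : ℂ)) • G p) := by
      rw [← ContinuousLinearMap.integral_comp_comm]
      · congr 1
        funext p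
        rw [map_smul]
      · exact ((hexp s).smul hGc).integrable_of_hasCompactSupport hGs.smul_left
    rw [i1, i2, map_smul, rt_comm hJ hb (hsgM (-s)), sgm_ξ hU]
    have i3 := G_ft hU l hl (n ξ) hGs s
    rw [hGdef]
    simp only
    rw [i3, map_smul]
  -- the pointwise operators
  have hcp : ∀ p : ℝ, β (Real.exp p) c ∈ M := fun p => (hβ.mem _ (Real.exp_pos p) c hc).1
  have hcc : ∀ v : H, Continuous fun p : ℝ => β (Real.exp p) c v := hβ.cont c hc
  -- step 2
  have hK1c : Continuous fun p => β (Real.exp p) c (Y (G p)) := cont_app _ hcc _ hYG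
  have hK1s : HasCompactSupport fun p => β (Real.exp p) c (Y (G p)) := by
    refine hYGs.mono ?_
    intro p hp hp'
    apply hp
    simp only at hp' ⊢
    rw [hp', map_zero]
  have hW1 := hW _ hK1c hK1s (S F1) (by
    filter_upwards [hS F1, hF1e] with p hp1 hp2
    rw [hp1, hp2])
  have hK2c : Continuous fun p => l p • Y (β (Real.exp p) c ξ) :=
    (hl.1.continuous).smul (Y.continuous.comp (hcc ξ))
  have hK2s : HasCompactSupport fun p => l p • Y (β (Real.exp p) c ξ) := hl.2.smul_right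
  have hW2 := hW _ hK2c hK2s (S F) (by
    filter_upwards [hS F, hF] with p hp1 hp2
    rw [hp1, hp2, map_smul, rt_comm hJ hb (hcp p)])
  rw [e1, hTS F1, hTS F]
  refine Lp.ext ?_
  filter_upwards [hR (W (S F)), hW1, hW2] with s hs1 hs2 hs3
  rw [hs1, hs2, hs3, map_smul]
  congr 1
  -- the twisted commutation relation
  have hht : Tst (fun p : ℝ => cexp (I * ((s * p : ℝ) : ℂ)) * l p) := tst_mul hl (contDiff_e s)
  have j1 := h3 H N M ξ U J E β hI hβ c hc (sgm U (-s) n) (npos_sgm h1 hI.toInc hn (-s)) _ hht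
  have j2 : ∫ p : ℝ, cexp (I * ((s * p : ℝ) : ℂ)) • l p • Y (β (Real.exp p) c ξ) =
      Y (∫ p : ℝ, (cexp (I * ((s * p : ℝ) : ℂ)) * l p) • β (Real.exp p) c ξ) := by
    rw [← ContinuousLinearMap.integral_comp_comm]
    · congr 1
      funext p
      rw [map_smul, smul_smul]
    · exact ((hht.1.continuous).smul (hcc ξ)).integrable_of_hasCompactSupport hht.2.smul_right
  have j3 : ∫ p : ℝ, cexp (I * ((s * p : ℝ) : ℂ)) • β (Real.exp p) c (Y (G p)) =
      Y (∫ p : ℝ, cexp (I * ((s * p : ℝ) : ℂ)) • β (Real.exp p) c (G p)) := by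
    rw [← ContinuousLinearMap.integral_comp_comm]
    · congr 1
      funext p
      rw [map_smul, rt_comm hJ hb (hcp p)]
    · refine ((hexp s).smul (cont_app _ hcc _ hGc)).integrable_of_hasCompactSupport ?_
      refine hGs.mono ?_
      intro p hp hp'
      apply hp
      change cexp (I * ((s * p : ℝ) : ℂ)) • β (Real.exp p) c (G p) = 0
      rw [hp', map_zero, smul_zero]
  rw [j2, j3, rt_comm hJ hb (hsgM (-s)), j1]
  congr 2
  funext p
  rw [sgm_ξ hU]
  rw [psi_twist h1 hU l hl s p (n ξ), map_smul]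

theorem r (h1 : S_psi) (h2 : S_psi_mul) (h3 : S_TR3) (h4 : S_pi) : S_pin := by
  intro H _ _ _ N M ξ U J E β W hI hβ hW c hc T hT n hn R hR
  have hJ := hI.conj
  set X : LR H →L[ℂ] LR H := T * R - R * T with hX
  have hadj : ∀ Φ : LR H, ContinuousLinearMap.adjoint X Φ = 0 := by
    intro Φ
    have h5 : W.symm (ContinuousLinearMap.adjoint X Φ) = 0 := by
      refine sep_zero _ (rt_dense hJ hI.cyc) _ ?_
      rintro g hg v ⟨b, hb, rfl⟩ F hF
      have h6 := key h1 h2 h3 β W hI hβ hW c hc T hT n hn R hR g hg b hb F hF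
      have h7 : X (W F) = 0 := by
        rw [hX]
        change T (R (W F)) - R (T (W F)) = 0
        rw [h6, sub_self]
      have h8 : ⟪F, W.symm (ContinuousLinearMap.adjoint X Φ)⟫_ℂ =
          ⟪W F, ContinuousLinearMap.adjoint X Φ⟫_ℂ := by
        rw [← LinearIsometryEquiv.inner_map_map W, LinearIsometryEquiv.apply_symm_apply]
      rw [h8, ContinuousLinearMap.adjoint_inner_right, h7, inner_zero_left]
    have h9 := congrArg W h5
    rwa [LinearIsometryEquiv.apply_symm_apply, map_zero] at h9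
  have hX0 : X = 0 := by
    refine ContinuousLinearMap.ext fun F => ?_
    refine ext_inner_right ℂ fun Φ => ?_
    rw [← ContinuousLinearMap.adjoint_inner_right, hadj Φ, inner_zero_right]
    simp
  exact sub_eq_zero.1 (hX ▸ hX0)

end Pool.Agent.H255.BC.R_pin
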