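import Pool.Agent.H255.BC.Defs2

set_option autoImplicit false

open MeasureTheory Filter Topology Complex
open scoped InnerProductSpace ENNReal FourierTransform

namespace Pool.Agent.H255.BC.R_prodK

open Pool.Agent.W662.CB Pool.Agent.H255.BC

/-- nested closed convex bounded sets in a Hilbert space: the limit of the minimal elements -/
theorem nested {H : Type} [NormedAddCommGroup H] [InnerProductSpace ℂ H] [CompleteSpace H]
    (C : ℕ → Set H) (hanti : Antitone C) (hcl : ∀ n, IsClosed (C n)) (hconv : ∀ n, Convex ℝ (C n))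
    (R : ℝ) (hne : ∀ n, ∃ z ∈ C n, ‖z‖ ≤ R) :
    ∃ y : H, (∀ n, y ∈ C n) ∧ ∀ δ : ℝ, 0 < δ → ∃ n, ∀ z ∈ C n, ‖z‖ ≤ ‖y‖ → ‖z - y‖ ^ 2 ≤ δ := by
  -- minimal elements
  have hmin : ∀ n, ∃ z ∈ C n, ∀ w ∈ C n, ‖z‖ ≤ ‖w‖ := by
    intro n
    obtain ⟨z0, hz0, -⟩ := hne n
    letI : InnerProductSpace ℝ H := InnerProductSpace.complexToReal
    obtain ⟨z, hz, h⟩ := exists_norm_eq_iInf_of_complete_convex ⟨z0, hz0⟩ (hcl n).isComplete
      (hconv n) 0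
    refine ⟨z, hz, fun w hw => ?_⟩
    have h2 : ‖(0 : H) - z‖ ≤ ‖(0 : H) - w‖ := by
      rw [h]
      exact ciInf_le ⟨0, by rintro _ ⟨v, rfl⟩; exact norm_nonneg _⟩ (⟨w, hw⟩ : C n)
    simpa using h2
  choose y hy hymin using hmin
  have hmono : Monotone fun n => ‖y n‖ := fun m n hmn => hymin m _ (hanti hmn (hy n))
  have hbd : ∀ n, ‖y n‖ ≤ R := by
    intro n
    obtain ⟨z, hz, hzR⟩ := hne n
    exact (hymin n z hz).trans hzR
  have hlim : Tendsto (fun n => ‖y n‖) atTop (𝓝 (⨆ n, ‖y n‖)) :=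
    tendsto_atTop_ciSup hmono ⟨R, by rintro _ ⟨n, rfl⟩; exact hbd n⟩
  set L := ⨆ n, ‖y n‖ with hL
  have hle : ∀ n, ‖y n‖ ≤ L := fun n => hmono.ge_of_tendsto hlim n
  -- parallelogram
  have par : ∀ n, ∀ z ∈ C n, ∀ w ∈ C n, ‖z‖ ≤ L → ‖w‖ ≤ L →
      ‖z - w‖ ^ 2 ≤ 4 * (L ^ 2 - ‖y n‖ ^ 2) := by
    intro n z hz w hw hzL hwL
    have h1 : ((1 : ℝ) / 2) • z + ((1 : ℝ) / 2) • w ∈ C n :=
      hconv n hz hw (by norm_num) (by norm_num) (by norm_num)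
    have h2 := hymin n _ h1
    rw [← smul_add, norm_smul] at h2
    have h3 : ‖(1 : ℝ) / 2‖ = 1 / 2 := by norm_num
    rw [h3] at h2
    have h4 := parallelogram_law_with_norm ℂ z w
    have h5 : 0 ≤ ‖y n‖ := norm_nonneg _
    nlinarith [norm_nonneg z, norm_nonneg w, norm_nonneg (z + w), norm_nonneg (z - w)]
  have hsq : Tendsto (fun n => 4 * (L ^ 2 - ‖y n‖ ^ 2)) atTop (𝓝 0) := by
    have := ((hlim.pow 2).const_sub (L ^ 2)).const_mul 4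
    rwa [sub_self, mul_zero] at this
  have hcau : CauchySeq y := by
    rw [Metric.cauchySeq_iff']
    intro ε hε
    obtain ⟨n, hn⟩ := (hsq.eventually (gt_mem_nhds (show (0 : ℝ) < ε ^ 2 by positivity))).exists
    refine ⟨n, fun m hm => ?_⟩
    rw [dist_eq_norm]
    have h1 := par n (y m) (hanti hm (hy m)) (y n) (hy n) (hle m) (hle n)
    exact lt_of_pow_lt_pow_left₀ 2 hε.le (h1.trans_lt hn)
  obtain ⟨y0, hy0⟩ := cauchySeq_tendsto_of_complete hcau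
  have hy0n : ‖y0‖ = L := tendsto_nhds_unique hy0.norm hlim
  have hmem : ∀ n, y0 ∈ C n := fun n => (hcl n).mem_of_tendsto hy0
    ((eventually_ge_atTop n).mono fun m hm => hanti hm (hy m))
  refine ⟨y0, hmem, fun δ hδ => ?_⟩
  obtain ⟨n, hn⟩ := (hsq.eventually (gt_mem_nhds hδ)).exists
  refine ⟨n, fun z hz hzL => ?_⟩
  rw [hy0n] at hzL
  exact (par n z hz y0 (hmem n) hzL hy0n.le).trans hn.le

section basics

variable {H : Type} [NormedAddCommGroup H] [InnerProductSpace ℂ H] [CompleteSpace H]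
  {M N : VonNeumannAlgebra H} {ξ : H} {U : ℝ → H →L[ℂ] H} {J : H → H}

theorem J_norm (hJ : IsConj M ξ U J) (v : H) : ‖J v‖ = ‖v‖ := by
  have h := hJ.inner v v
  rw [inner_self_eq_norm_sq_to_K, inner_self_eq_norm_sq_to_K] at h
  have h2 : ‖J v‖ ^ 2 = ‖v‖ ^ 2 := by exact_mod_cast h
  exact (pow_left_inj₀ (norm_nonneg _) (norm_nonneg _) two_ne_zero).1 h2

theorem J_zero (hJ : IsConj M ξ U J) : J 0 = 0 := by
  rw [← norm_eq_zero, J_norm hJ, norm_zero]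

theorem J_neg (hJ : IsConj M ξ U J) (v : H) : J (-v) = -J v := by
  have h := hJ.add v (-v)
  rw [add_neg_cancel, J_zero hJ] at h
  exact (neg_eq_of_add_eq_zero_right h.symm).symm

theorem J_sub (hJ : IsConj M ξ U J) (v w : H) : J (v - w) = J v - J w := by
  rw [sub_eq_add_neg, hJ.add, J_neg hJ, sub_eq_add_neg]

theorem J_isom (hJ : IsConj M ξ U J) : Isometry J := by
  refine Isometry.of_dist_eq fun v w => ?_
  rw [dist_eq_norm, dist_eq_norm, ← J_sub hJ, J_norm hJ]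

theorem J_cont (hJ : IsConj M ξ U J) : Continuous J := (J_isom hJ).continuous

theorem adj_l (a : H →L[ℂ] H) (v w : H) : ⟪a v, w⟫_ℂ = ⟪v, star a w⟫_ℂ := by
  rw [ContinuousLinearMap.star_eq_adjoint, ContinuousLinearMap.adjoint_inner_right]

theorem adj_r (a : H →L[ℂ] H) (v w : H) : ⟪v, a w⟫_ℂ = ⟪star a v, w⟫_ℂ := by
  rw [adj_l, star_star]

theorem uni_norm {u : H →L[ℂ] H} (hu : star u * u = 1) (v : H) : ‖u v‖ = ‖v‖ := by
  have h : ⟪u v, u v⟫_ℂ = ⟪v, v⟫_ℂ := by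
    rw [adj_l, ← mul_apply_eq_comp, hu, one_apply_eq_self]
  rw [inner_self_eq_norm_sq_to_K, inner_self_eq_norm_sq_to_K] at h
  have h2 : ‖u v‖ ^ 2 = ‖v‖ ^ 2 := by exact_mod_cast h
  exact (pow_left_inj₀ (norm_nonneg _) (norm_nonneg _) two_ne_zero).1 h2

theorem alf_norm (hJ : IsConj M ξ U J) {u : H →L[ℂ] H} (hu : IsUni N u) (v : H) :
    ‖alf J u v‖ = ‖v‖ := by
  unfold alf
  rw [uni_norm hu.2.1, J_norm hJ, uni_norm hu.2.1, J_norm hJ]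

theorem alf_add (hJ : IsConj M ξ U J) (u : H →L[ℂ] H) (v w : H) :
    alf J u (v + w) = alf J u v + alf J u w := by
  unfold alf
  rw [hJ.add, map_add, hJ.add, map_add]

theorem alf_smul (hJ : IsConj M ξ U J) (u : H →L[ℂ] H) (c : ℝ) (v : H) :
    alf J u (c • v) = c • alf J u v := by
  unfold alf
  rw [← Complex.coe_smul, hJ.smul, map_smul, hJ.smul, map_smul, Complex.conj_conj,
    Complex.coe_smul]

theorem alf_sub (hJ : IsConj M ξ U J) (u : H →L[ℂ] H) (v w : H) :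
    alf J u (v - w) = alf J u v - alf J u w := by
  unfold alf
  rw [J_sub hJ, map_sub, J_sub hJ, map_sub]

theorem alf_cont (hJ : IsConj M ξ U J) (u : H →L[ℂ] H) : Continuous (alf J u) :=
  u.continuous.comp ((J_cont hJ).comp (u.continuous.comp (J_cont hJ)))

theorem alf_comp (hJ : IsConj M ξ U J) {g u : H →L[ℂ] H} (hg : g ∈ M) (hu : u ∈ M) (v : H) :
    alf J g (alf J u v) = alf J (g * u) v := by
  unfold alf
  have h := hJ.comm u g hu hg (J (u (J v)))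
  rw [← h, hJ.inv]
  rfl

theorem uni_mul {g u : H →L[ℂ] H} (hg : IsUni N g) (hu : IsUni N u) : IsUni N (g * u) := by
  refine ⟨mul_mem hg.1 hu.1, ?_, ?_⟩
  · rw [star_mul, mul_assoc, ← mul_assoc (star g), hg.2.1, one_mul, hu.2.1]
  · rw [star_mul, mul_assoc, ← mul_assoc u, hu.2.2, one_mul, hg.2.2]

/-- almost commuting unitaries -/
def Gn (N : VonNeumannAlgebra H) (ξ : H) (J : H → H) (ε : ℝ) : Set (H →L[ℂ] H) :=
  {u | IsUni N u ∧ ‖alf J u ξ - ξ‖ ≤ ε}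

/-- the closed convex hull of the orbit -/
def Cn (N : VonNeumannAlgebra H) (ξ : H) (J : H → H) (v : H) (ε : ℝ) : Set H :=
  closure (convexHull ℝ ((fun u => alf J u v) '' Gn N ξ J ε))

theorem Cn_alf (hNM : ∀ x : H →L[ℂ] H, x ∈ N → x ∈ M) (hJ : IsConj M ξ U J) {v y : H}
    {ε δ : ℝ} {g : H →L[ℂ] H} (hg : g ∈ Gn N ξ J ε) (hy : y ∈ Cn N ξ J v δ) :
    alf J g y ∈ Cn N ξ J v (ε + δ) := by
  have hconv : Convex ℝ (Cn N ξ J v (ε + δ)) := (convex_convexHull ℝ _).closure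
  have h1 : Convex ℝ ((alf J g) ⁻¹' (Cn N ξ J v (ε + δ))) := by
    intro p hp q hq a b ha hb hab
    rw [Set.mem_preimage, alf_add hJ, alf_smul hJ, alf_smul hJ]
    exact hconv hp hq ha hb hab
  have h2 : IsClosed ((alf J g) ⁻¹' (Cn N ξ J v (ε + δ))) := isClosed_closure.preimage (alf_cont hJ g)
  have h3 : Cn N ξ J v δ ⊆ (alf J g) ⁻¹' (Cn N ξ J v (ε + δ)) := by
    refine closure_minimal (convexHull_min ?_ h1) h2
    rintro _ ⟨u, hu, rfl⟩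
    rw [Set.mem_preimage]
    refine subset_closure (subset_convexHull ℝ _ ⟨g * u, ⟨uni_mul hg.1 hu.1, ?_⟩, ?_⟩)
    · rw [← alf_comp hJ (hNM _ hg.1.1) (hNM _ hu.1.1)]
      have e1 : alf J g (alf J u ξ) - ξ = alf J g (alf J u ξ - ξ) + (alf J g ξ - ξ) := by
        rw [alf_sub hJ]
        abel
      rw [e1]
      refine (norm_add_le _ _).trans ?_
      rw [alf_norm hJ hg.1]
      linarith [hg.2, hu.2]
    · exact (alf_comp hJ (hNM _ hg.1.1) (hNM _ hu.1.1) v).symm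
  exact h3 hy

/-- vectors of `𝒦` are almost fixed -/
theorem KK_small {ζ : H} (hζ : ζ ∈ KK N ξ J) {δ : ℝ} (hδ : 0 < δ) :
    ∃ ε : ℝ, 0 < ε ∧ ∀ u ∈ Gn N ξ J ε, ‖alf J u ζ - ζ‖ ≤ δ := by
  obtain ⟨b, hb, h⟩ := hζ (δ ^ 2 / 2) (by positivity)
  refine ⟨δ / (2 * (b + 1)), by positivity, fun u hu => ?_⟩
  have h1 := h u hu.1
  have h2 : ‖alf J u ξ - ξ‖ ^ 2 ≤ (δ / (2 * (b + 1))) ^ 2 :=
    pow_le_pow_left₀ (norm_nonneg _) hu.2 2
  have h3 : b * (δ / (2 * (b + 1))) ^ 2 ≤ δ ^ 2 / 2 := by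
    rw [div_pow, mul_div_assoc', div_le_div_iff₀ (by positivity) (by norm_num)]
    nlinarith [sq_nonneg δ, mul_nonneg hb (sq_nonneg δ), mul_nonneg (mul_nonneg hb hb) (sq_nonneg δ)]
  have h4 : ‖alf J u ζ - ζ‖ ^ 2 ≤ δ ^ 2 := by
    have := mul_le_mul_of_nonneg_left h2 hb
    linarith
  exact le_of_sq_le_sq h4 hδ.le

theorem test_small (hNM : ∀ x : H →L[ℂ] H, x ∈ N → x ∈ M) (hJ : IsConj M ξ U J)
    {x : H →L[ℂ] H} (hx : x ∈ N) {ζ ζ' : H} (hζ : ζ ∈ KK N ξ J) (hζ' : ζ' ∈ KK N ξ J)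
    {δ : ℝ} (hδ : 0 < δ) :
    ∃ ε : ℝ, 0 < ε ∧ ∀ u ∈ Gn N ξ J ε, ‖⟪ζ, (u * x * star u) ζ'⟫_ℂ - ⟪ζ, x ζ'⟫_ℂ‖ ≤ δ := by
  set K : ℝ := ‖x‖ * ‖ζ'‖ + ‖ζ‖ * ‖x‖ + 1 with hK
  have hK0 : 0 < K := by positivity
  obtain ⟨ε1, h1, h1'⟩ := KK_small hζ (div_pos hδ hK0)
  obtain ⟨ε2, h2, h2'⟩ := KK_small hζ' (div_pos hδ hK0)
  refine ⟨min ε1 ε2, lt_min h1 h2, fun u hu => ?_⟩
  have a1 := h1' u ⟨hu.1, hu.2.trans (min_le_left _ _)⟩
  have a2 := h2' u ⟨hu.1, hu.2.trans (min_le_right _ _)⟩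
  have hdiff : ∀ v : H, ‖star u v - J (u (J v))‖ = ‖alf J u v - v‖ := by
    intro v
    rw [← uni_norm hu.1.2.1, map_sub, ← mul_apply_eq_comp u (star u), hu.1.2.2,
      one_apply_eq_self, norm_sub_rev]
    rfl
  have e1 : ⟪ζ, (u * x * star u) ζ'⟫_ℂ = ⟪star u ζ, x (star u ζ')⟫_ℂ := by
    rw [mul_apply_eq_comp, mul_apply_eq_comp, adj_r]
  have e2 : ⟪ζ, x ζ'⟫_ℂ = ⟪J (u (J ζ)), x (J (u (J ζ')))⟫_ℂ := by
    rw [hJ.comm x u (hNM x hx) (hNM u hu.1.1), hJ.inner, adj_l, ← mul_apply_eq_comp, hu.1.2.1,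
      one_apply_eq_self, hJ.inner]
  have e3 : ⟪star u ζ, x (star u ζ')⟫_ℂ - ⟪J (u (J ζ)), x (J (u (J ζ')))⟫_ℂ =
      ⟪star u ζ - J (u (J ζ)), x (star u ζ')⟫_ℂ +
        ⟪J (u (J ζ)), x (star u ζ' - J (u (J ζ')))⟫_ℂ := by
    rw [inner_sub_left, map_sub, inner_sub_right]
    ring
  have hsu : ∀ v : H, ‖star u v‖ = ‖v‖ := fun v =>
    uni_norm (u := star u) (by rw [star_star]; exact hu.1.2.2) v
  rw [e1, e2, e3]
  refine (norm_add_le _ _).trans ?_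
  have b1 : ‖⟪star u ζ - J (u (J ζ)), x (star u ζ')⟫_ℂ‖ ≤ δ / K * (‖x‖ * ‖ζ'‖) := by
    refine (norm_inner_le_norm _ _).trans ?_
    rw [hdiff]
    refine mul_le_mul a1 ?_ (norm_nonneg _) (by positivity)
    refine (x.le_opNorm _).trans ?_
    rw [hsu]
  have b2 : ‖⟪J (u (J ζ)), x (star u ζ' - J (u (J ζ')))⟫_ℂ‖ ≤ ‖ζ‖ * (‖x‖ * (δ / K)) := by
    refine (norm_inner_le_norm _ _).trans ?_
    rw [J_norm hJ, uni_norm hu.1.2.1, J_norm hJ]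
    refine mul_le_mul_of_nonneg_left ?_ (norm_nonneg _)
    refine (x.le_opNorm _).trans (mul_le_mul_of_nonneg_left ?_ (norm_nonneg _))
    rw [hdiff]
    exact a2
  refine (add_le_add b1 b2).trans ?_
  have : δ / K * (‖x‖ * ‖ζ'‖) + ‖ζ‖ * (‖x‖ * (δ / K)) = δ / K * (K - 1) := by rw [hK]; ring
  rw [this, div_mul_eq_mul_div, div_le_iff₀ hK0]
  nlinarith

/-- the operators behind the convex combinations -/
theorem ops (hNM : ∀ x : H →L[ℂ] H, x ∈ N → x ∈ M) (hJ : IsConj M ξ U J)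
    {x : H →L[ℂ] H} (hx : x ∈ N) {ζ ζ' y : H} {ε δ : ℝ}
    (ht1 : ∀ u ∈ Gn N ξ J ε, ‖⟪ζ, (u * x * star u) ζ'⟫_ℂ - ⟪ζ, x ζ'⟫_ℂ‖ ≤ δ)
    (ht2 : ∀ u ∈ Gn N ξ J ε, ‖⟪ξ, (u * x * star u) ξ⟫_ℂ - ⟪ξ, x ξ⟫_ℂ‖ ≤ δ)
    (hy : y ∈ Cn N ξ J (x ξ) ε) (hδ : 0 < δ) :
    ∃ X : H →L[ℂ] H, X ∈ N ∧ ‖X‖ ≤ ‖x‖ ∧ ‖X ξ - y‖ ≤ ‖x‖ * ε + δ ∧
      ‖⟪ζ, X ζ'⟫_ℂ - ⟪ζ, x ζ'⟫_ℂ‖ ≤ δ ∧ ‖⟪ξ, X ξ⟫_ℂ - ⟪ξ, x ξ⟫_ℂ‖ ≤ δ := by
  set V : Set H := {v | ∃ X : H →L[ℂ] H, X ∈ N ∧ ‖X‖ ≤ ‖x‖ ∧ ‖X ξ - v‖ ≤ ‖x‖ * ε ∧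
      ‖⟪ζ, X ζ'⟫_ℂ - ⟪ζ, x ζ'⟫_ℂ‖ ≤ δ ∧ ‖⟪ξ, X ξ⟫_ℂ - ⟪ξ, x ξ⟫_ℂ‖ ≤ δ} with hV
  have hconv : Convex ℝ V := by
    rintro v1 ⟨X1, m1, n1, d1, p1, q1⟩ v2 ⟨X2, m2, n2, d2, p2, q2⟩ a b ha hb hab
    have hab' : (a : ℂ) + (b : ℂ) = 1 := by exact_mod_cast hab
    have cmb : ∀ {E : Type} [NormedAddCommGroup E] [NormedSpace ℂ E] (z1 z2 : E) (r : ℝ),
        ‖z1‖ ≤ r → ‖z2‖ ≤ r → ‖(a : ℂ) • z1 + (b : ℂ) • z2‖ ≤ r := by
      intro E _ _ z1 z2 r h1 h2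
      refine (norm_add_le _ _).trans ?_
      rw [norm_smul, norm_smul, Complex.norm_real, Complex.norm_real, Real.norm_of_nonneg ha,
        Real.norm_of_nonneg hb]
      calc a * ‖z1‖ + b * ‖z2‖ ≤ a * r + b * r :=
            add_le_add (mul_le_mul_of_nonneg_left h1 ha) (mul_le_mul_of_nonneg_left h2 hb)
        _ = r := by rw [← add_mul, hab, one_mul]
    refine ⟨(a : ℂ) • X1 + (b : ℂ) • X2, ?_, cmb _ _ _ n1 n2, ?_, ?_, ?_⟩
    · exact add_mem (N.toStarSubalgebra.smul_mem m1 _) (N.toStarSubalgebra.smul_mem m2 _)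
    · have e : ((a : ℂ) • X1 + (b : ℂ) • X2) ξ - (a • v1 + b • v2) =
          (a : ℂ) • (X1 ξ - v1) + (b : ℂ) • (X2 ξ - v2) := by
        rw [add_apply, smul_apply, smul_apply, smul_sub, smul_sub, Complex.coe_smul,
          Complex.coe_smul, Complex.coe_smul, Complex.coe_smul]
        abel
      rw [e]
      exact cmb _ _ _ d1 d2
    · have e : ⟪ζ, ((a : ℂ) • X1 + (b : ℂ) • X2) ζ'⟫_ℂ - ⟪ζ, x ζ'⟫_ℂ =
          (a : ℂ) • (⟪ζ, X1 ζ'⟫_ℂ - ⟪ζ, x ζ'⟫_ℂ) + (b : ℂ) • (⟪ζ, X2 ζ'⟫_ℂ - ⟪ζ, x ζ'⟫_ℂ) := by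
        rw [add_apply, smul_apply, smul_apply, inner_add_right, inner_smul_right,
          inner_smul_right, smul_eq_mul, smul_eq_mul]
        linear_combination (-⟪ζ, x ζ'⟫_ℂ) * (1 - ((a : ℂ) + b)) + ⟪ζ, x ζ'⟫_ℂ * (1 - ((a : ℂ) + b))
          + ⟪ζ, x ζ'⟫_ℂ * hab'
      rw [e]
      exact cmb _ _ _ p1 p2
    · have e : ⟪ξ, ((a : ℂ) • X1 + (b : ℂ) • X2) ξ⟫_ℂ - ⟪ξ, x ξ⟫_ℂ =
          (a : ℂ) • (⟪ξ, X1 ξ⟫_ℂ - ⟪ξ, x ξ⟫_ℂ) + (b : ℂ) • (⟪ξ, X2 ξ⟫_ℂ - ⟪ξ, x ξ⟫_ℂ) := by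
        rw [add_apply, smul_apply, smul_apply, inner_add_right, inner_smul_right,
          inner_smul_right, smul_eq_mul, smul_eq_mul]
        linear_combination ⟪ξ, x ξ⟫_ℂ * hab'
      rw [e]
      exact cmb _ _ _ q1 q2
  have hsub : convexHull ℝ ((fun u => alf J u (x ξ)) '' Gn N ξ J ε) ⊆ V := by
    refine convexHull_min ?_ hconv
    rintro _ ⟨u, hu, rfl⟩
    refine ⟨u * x * star u, mul_mem (mul_mem hu.1.1 hx) (star_mem hu.1.1), ?_, ?_, ht1 u hu,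
      ht2 u hu⟩
    · have hn1 : ‖u‖ ≤ 1 := u.opNorm_le_bound zero_le_one fun v => by
        rw [uni_norm hu.1.2.1, one_mul]
      calc ‖u * x * star u‖ ≤ ‖u * x‖ * ‖star u‖ := norm_mul_le _ _
        _ ≤ (‖u‖ * ‖x‖) * ‖star u‖ := mul_le_mul_of_nonneg_right (norm_mul_le _ _) (norm_nonneg _)
        _ ≤ (1 * ‖x‖) * 1 := by
          rw [norm_star]
          exact mul_le_mul (mul_le_mul_of_nonneg_right hn1 (norm_nonneg _)) hn1 (norm_nonneg _)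
            (by positivity)
        _ = ‖x‖ := by ring
    · have e : (u * x * star u) ξ - alf J u (x ξ) = u (x (star u ξ - J (u (J ξ)))) := by
        rw [map_sub, map_sub, hJ.comm x u (hNM x hx) (hNM u hu.1.1)]
        rfl
      show ‖(u * x * star u) ξ - alf J u (x ξ)‖ ≤ ‖x‖ * ε
      rw [e, uni_norm hu.1.2.1]
      refine (x.le_opNorm _).trans (mul_le_mul_of_nonneg_left ?_ (norm_nonneg _))
      have h1 : ‖star u ξ - J (u (J ξ))‖ = ‖alf J u ξ - ξ‖ := by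
        rw [← uni_norm hu.1.2.1, map_sub, ← mul_apply_eq_comp u (star u), hu.1.2.2,
          one_apply_eq_self, norm_sub_rev]
        rfl
      rw [h1]
      exact hu.2
  obtain ⟨v, hv, hvy⟩ := Metric.mem_closure_iff.1 hy δ hδ
  obtain ⟨X, m, n, d, p, q⟩ := hsub hv
  refine ⟨X, m, n, ?_, p, q⟩
  have : X ξ - y = (X ξ - v) + (v - y) := by abel
  rw [this]
  refine (norm_add_le _ _).trans (add_le_add d ?_)
  rw [← dist_eq_norm, dist_comm]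
  exact hvy.le

end basics

theorem r (h1 : S_KK) (h2 : S_Bchar) : S_prodK := by
  intro H _ _ _ N M ξ U J E hInc x hx
  have hNM := hInc.le
  have hJ := hInc.conj
  obtain ⟨K, hK, -, hξK, -, hKJ⟩ := h1 H M N ξ U J hNM hInc.modular hJ hInc.mod
  have hξ : ξ ∈ KK N ξ J := by rw [← hK]; exact hξK
  -- the vector `y`
  set C : ℕ → Set H := fun n => Cn N ξ J (x ξ) (1 / ((n : ℝ) + 1)) with hC
  have hG1 : ∀ ε : ℝ, 0 ≤ ε → (1 : H →L[ℂ] H) ∈ Gn N ξ J ε := by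
    intro ε hε
    refine ⟨⟨one_mem N, by simp, by simp⟩, ?_⟩
    have : alf J 1 ξ = ξ := by
      unfold alf
      simp [hJ.inv]
    rw [this, sub_self, norm_zero]
    exact hε
  obtain ⟨y, hyC, hymin⟩ := nested C (by
    intro m n hmn
    refine closure_mono (convexHull_mono (Set.image_mono ?_))
    rintro u ⟨hu1, hu2⟩
    refine ⟨hu1, hu2.trans ?_⟩
    have : (m : ℝ) ≤ n := by exact_mod_cast hmn
    exact one_div_le_one_div_of_le (by positivity) (by linarith)) (fun n => isClosed_closure)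
    (fun n => (convex_convexHull ℝ _).closure) ‖x ξ‖ (fun n => by
      refine ⟨alf J 1 (x ξ), subset_closure (subset_convexHull ℝ _ ⟨1, hG1 _ (by positivity), rfl⟩),
        ?_⟩
      rw [alf_norm hJ (hG1 0 le_rfl).1])
  have hyK : y ∈ KK N ξ J := by
    intro a ha
    obtain ⟨n, hn⟩ := hymin a ha
    refine ⟨(2 * ‖y‖) ^ 2 * (2 * ((n : ℝ) + 1)) ^ 2, by positivity, fun u hu => ?_⟩
    by_cases hc : ‖alf J u ξ - ξ‖ ≤ 1 / (2 * ((n : ℝ) + 1))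
    · have h3 : alf J u y ∈ C n := by
        have h4 := Cn_alf hNM hJ (v := x ξ) (⟨hu, hc⟩ : u ∈ Gn N ξ J (1 / (2 * ((n : ℝ) + 1))))
          (hyC (2 * n + 1))
        have h5 : 1 / (2 * ((n : ℝ) + 1)) + 1 / (((2 * n + 1 : ℕ) : ℝ) + 1) = 1 / ((n : ℝ) + 1) := by
          push_cast
          field_simp
          ring
        rwa [h5] at h4
      have h6 := hn _ h3 (by rw [alf_norm hJ hu])
      have : 0 ≤ (2 * ‖y‖) ^ 2 * (2 * ((n : ℝ) + 1)) ^ 2 * ‖alf J u ξ - ξ‖ ^ 2 := by positivity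
      linarith
    · push Not at hc
      have h7 : ‖alf J u y - y‖ ≤ 2 * ‖y‖ := by
        refine (norm_sub_le _ _).trans ?_
        rw [alf_norm hJ hu]
        linarith
      have h8 : 1 ≤ 2 * ((n : ℝ) + 1) * ‖alf J u ξ - ξ‖ := by
        rw [div_lt_iff₀ (by positivity)] at hc
        linarith
      have h9 : (1 : ℝ) ≤ (2 * ((n : ℝ) + 1) * ‖alf J u ξ - ξ‖) ^ 2 := one_le_pow₀ h8
      have h10 : ‖alf J u y - y‖ ^ 2 ≤ (2 * ‖y‖) ^ 2 := pow_le_pow_left₀ (norm_nonneg _) h7 2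
      have h11 : (2 * ‖y‖) ^ 2 * 1 ≤
          (2 * ‖y‖) ^ 2 * (2 * ((n : ℝ) + 1) * ‖alf J u ξ - ξ‖) ^ 2 :=
        mul_le_mul_of_nonneg_left h9 (by positivity)
      nlinarith
  have main : ∀ ζ ζ' : H, ζ ∈ KK N ξ J → ζ' ∈ KK N ξ J → ⟪ζ, x ζ'⟫_ℂ = vst ξ x * ⟪ζ, ζ'⟫_ℂ := by
    intro ζ ζ' hζ hζ'
    have hX : ∀ k : ℕ, ∃ X : H →L[ℂ] H, X ∈ N ∧ ‖X‖ ≤ ‖x‖ ∧
        ‖X ξ - y‖ ≤ (‖x‖ + 1) * (1 / ((k : ℝ) + 1)) ∧
        ‖⟪ζ, X ζ'⟫_ℂ - ⟪ζ, x ζ'⟫_ℂ‖ ≤ 1 / ((k : ℝ) + 1) ∧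
        ‖⟪ξ, X ξ⟫_ℂ - ⟪ξ, x ξ⟫_ℂ‖ ≤ 1 / ((k : ℝ) + 1) := by
      intro k
      have hk : (0 : ℝ) < 1 / ((k : ℝ) + 1) := by positivity
      obtain ⟨ε1, e1, t1⟩ := test_small hNM hJ hx hζ hζ' hk
      obtain ⟨ε2, e2, t2⟩ := test_small hNM hJ hx hξ hξ hk
      obtain ⟨n, hn⟩ := exists_nat_one_div_lt (lt_min e1 (lt_min e2 hk))
      obtain ⟨X, m, nn, d, p, q⟩ := ops hNM hJ hx (ε := 1 / ((n : ℝ) + 1)) (δ := 1 / ((k : ℝ) + 1))
        (fun u hu => t1 u ⟨hu.1, hu.2.trans (hn.le.trans (min_le_left _ _))⟩)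
        (fun u hu => t2 u ⟨hu.1, hu.2.trans (hn.le.trans ((min_le_right _ _).trans
          (min_le_left _ _)))⟩) (hyC n) hk
      refine ⟨X, m, nn, d.trans ?_, p, q⟩
      have h3 : 1 / ((n : ℝ) + 1) ≤ 1 / ((k : ℝ) + 1) :=
        hn.le.trans ((min_le_right _ _).trans (min_le_right _ _))
      have := mul_le_mul_of_nonneg_left h3 (norm_nonneg x)
      linarith
    choose X hXN hXn hXy hXt hXs using hX
    have hk0 : Tendsto (fun k : ℕ => 1 / ((k : ℝ) + 1)) atTop (𝓝 0) :=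
      tendsto_one_div_add_atTop_nhds_zero_nat
    have hXξ : Tendsto (fun k => X k ξ) atTop (𝓝 y) := by
      rw [tendsto_iff_norm_sub_tendsto_zero]
      refine squeeze_zero (fun _ => norm_nonneg _) hXy ?_
      simpa using hk0.const_mul (‖x‖ + 1)
    -- convergence on the dense set
    have hden : ∀ v : H, ∀ ε : ℝ, 0 < ε → ∃ c : H →L[ℂ] H, c ∈ M ∧ ‖v - J (c ξ)‖ < ε := by
      intro v ε hε
      obtain ⟨w, hw, hw2⟩ := Metric.dense_iff.1 hInc.cyc (J v) ε hε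
      obtain ⟨c, hc, rfl⟩ := hw2
      refine ⟨c, hc, ?_⟩
      rw [Metric.mem_ball, dist_eq_norm, ← J_norm hJ, J_sub hJ, hJ.inv, norm_sub_rev] at hw
      exact hw
    have hcau : ∀ v : H, CauchySeq fun k => X k v := by
      intro v
      rw [Metric.cauchySeq_iff']
      intro ε hε
      have hx1 : 0 < ‖x‖ + 1 := by positivity
      obtain ⟨c, hc, hvc⟩ := hden v (ε / (4 * (‖x‖ + 1))) (by positivity)
      have hconv : Tendsto (fun k => X k (J (c ξ))) atTop (𝓝 (J (c (J y)))) := by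
        have h3 : ∀ k, X k (J (c ξ)) = J (c (J (X k ξ))) := by
          intro k
          have := hJ.comm (X k) c (hNM _ (hXN k)) hc ξ
          rwa [hJ.fix] at this
        simp only [h3]
        exact (((J_cont hJ).comp (c.continuous.comp (J_cont hJ))).tendsto y).comp hXξ
      obtain ⟨n, hn⟩ := Metric.cauchySeq_iff'.1 hconv.cauchySeq (ε / 2) (by positivity)
      refine ⟨n, fun m hm => ?_⟩
      have h4 := hn m hm
      rw [dist_eq_norm] at h4 ⊢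
      have e : X m v - X n v = X m (v - J (c ξ)) - X n (v - J (c ξ)) +
          (X m (J (c ξ)) - X n (J (c ξ))) := by
        rw [map_sub, map_sub]
        abel
      have h5 : ∀ k, ‖X k (v - J (c ξ))‖ ≤ ε / 4 := by
        intro k
        refine ((X k).le_opNorm _).trans ?_
        calc ‖X k‖ * ‖v - J (c ξ)‖ ≤ (‖x‖ + 1) * (ε / (4 * (‖x‖ + 1))) :=
              mul_le_mul ((hXn k).trans (by linarith)) hvc.le (norm_nonneg _) hx1.le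
          _ = ε / 4 := by field_simp
      rw [e]
      calc _ ≤ ‖X m (v - J (c ξ)) - X n (v - J (c ξ))‖ + ‖X m (J (c ξ)) - X n (J (c ξ))‖ :=
            norm_add_le _ _
        _ < (ε / 4 + ε / 4) + ε / 2 :=
            add_lt_add_of_le_of_lt ((norm_sub_le _ _).trans (add_le_add (h5 m) (h5 n))) h4
        _ = ε := by ring
    choose f hf using fun v => cauchySeq_tendsto_of_complete (hcau v)
    let X0 : H →L[ℂ] H := continuousLinearMapOfTendsto (g := X) (f := f) (tendsto_pi_nhds.2 hf)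
    have hX0 : ∀ v, Tendsto (fun k => X k v) atTop (𝓝 (X0 v)) := hf
    have hX0N : X0 ∈ N := by
      rw [← VonNeumannAlgebra.commutant_commutant N, VonNeumannAlgebra.mem_commutant_iff]
      intro g hg
      rw [VonNeumannAlgebra.mem_commutant_iff] at hg
      ext v
      have h3 : Tendsto (fun k => g (X k v)) atTop (𝓝 (g (X0 v))) :=
        (g.continuous.tendsto _).comp (hX0 v)
      have h4 : Tendsto (fun k => X k (g v)) atTop (𝓝 (X0 (g v))) := hX0 (g v)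
      have h5 : ∀ k, g (X k v) = X k (g v) := by
        intro k
        have := hg (X k) (hXN k)
        exact (DFunLike.congr_fun this v).symm
      simp only [h5] at h3
      exact tendsto_nhds_unique h3 h4
    have hX0ξ : X0 ξ = y := tendsto_nhds_unique (hX0 ξ) hXξ
    obtain ⟨c, hc⟩ := hInc.triv X0 hX0N ((h2 H N M ξ U J E hInc.toInc X0).2
      ⟨hNM _ hX0N, by rw [hX0ξ]; exact hyK⟩)
    have lim1 : Tendsto (fun k => ⟪ζ, X k ζ'⟫_ℂ) atTop (𝓝 (c * ⟪ζ, ζ'⟫_ℂ)) := by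
      have h3 : Tendsto (fun k => ⟪ζ, X k ζ'⟫_ℂ) atTop (𝓝 ⟪ζ, X0 ζ'⟫_ℂ) :=
        tendsto_const_nhds.inner (hX0 ζ')
      rwa [hc, smul_apply, one_apply_eq_self, inner_smul_right] at h3
    have lim2 : Tendsto (fun k => ⟪ξ, X k ξ⟫_ℂ) atTop (𝓝 c) := by
      have h3 : Tendsto (fun k => ⟪ξ, X k ξ⟫_ℂ) atTop (𝓝 ⟪ξ, X0 ξ⟫_ℂ) :=
        tendsto_const_nhds.inner (hX0 ξ)
      rw [hc, smul_apply, one_apply_eq_self, inner_smul_right, inner_self_eq_norm_sq_to_K,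
        hInc.unit] at h3
      simpa using h3
    have lim3 : Tendsto (fun k => ⟪ζ, X k ζ'⟫_ℂ) atTop (𝓝 ⟪ζ, x ζ'⟫_ℂ) := by
      rw [tendsto_iff_norm_sub_tendsto_zero]
      exact squeeze_zero (fun _ => norm_nonneg _) hXt hk0
    have lim4 : Tendsto (fun k => ⟪ξ, X k ξ⟫_ℂ) atTop (𝓝 ⟪ξ, x ξ⟫_ℂ) := by
      rw [tendsto_iff_norm_sub_tendsto_zero]
      exact squeeze_zero (fun _ => norm_nonneg _) hXs hk0
    have hcx : c = vst ξ x := tendsto_nhds_unique lim2 lim4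
    rw [← hcx]
    exact tendsto_nhds_unique lim3 lim1
  intro ζ ζ' hζ hζ'
  refine ⟨main ζ ζ' hζ hζ', ?_⟩
  have hJK : ∀ v, v ∈ KK N ξ J → J v ∈ KK N ξ J := by
    intro v hv
    rw [← hK] at hv ⊢
    exact hKJ v hv
  have h3 := main (J ζ') (J ζ) (hJK _ hζ') (hJK _ hζ)
  rw [hJ.inner] at h3
  rw [← h3]
  conv_lhs => rw [← hJ.inv ζ]
  rw [hJ.inner, adj_l, star_star]

end Pool.Agent.H255.BC.R_prodK
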