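import Pool.Agent.H255.BC.Defs2

set_option autoImplicit false

open MeasureTheory Filter Topology Complex
open scoped InnerProductSpace ENNReal FourierTransform

namespace Pool.Agent.H255.BC.R_prodsp

open Pool.Agent.W662.CB Pool.Agent.H255.BC

noncomputable section

theorem tst_four {h : ℝ → ℂ} (hh : Tst h) : Continuous (𝓕 h) ∧ Integrable (𝓕 h) := by
  obtain ⟨h1, h2⟩ := hh
  have e : ((𝓕 (h2.toSchwartzMap h1) : SchwartzMap ℝ ℂ) : ℝ → ℂ) = 𝓕 h :=
    SchwartzMap.fourier_coe _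
  rw [← e]
  exact ⟨SchwartzMap.continuous _, SchwartzMap.integrable _⟩

theorem tst_int {h : ℝ → ℂ} (hh : Tst h) : Continuous h ∧ Integrable h := by
  obtain ⟨h1, h2⟩ := hh
  exact ⟨h1.continuous, h1.continuous.integrable_of_hasCompactSupport h2⟩

theorem ft_bdd {h : ℝ → ℂ} (_hh : Tst h) : ∃ C : ℝ, 0 ≤ C ∧ ∀ s, ‖𝓕 h s‖ ≤ C := by
  refine ⟨∫ κ, ‖h κ‖, by positivity, fun s => ?_⟩
  rw [Real.fourier_real_eq_integral_exp_smul]
  refine (norm_integral_le_integral_norm _).trans (le_of_eq ?_)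
  congr 1
  funext κ
  rw [norm_smul, Complex.norm_exp_ofReal_mul_I, one_mul]

theorem ft_eq (h : ℝ → ℂ) (s : ℝ) :
    𝓕 h s = ∫ κ : ℝ, cexp (((-2 * Real.pi * κ * s : ℝ) : ℂ) * I) * h κ := by
  rw [Real.fourier_real_eq_integral_exp_smul]
  rfl

theorem inv_eq {h : ℝ → ℂ} (hh : Tst h) (κ : ℝ) :
    ∫ u : ℝ, 𝓕 h u * cexp (((2 * Real.pi * u * κ : ℝ) : ℂ) * I) = h κ := by
  have h1 := hh.1.continuous.fourierInv_fourier_eq (tst_int hh).2 (tst_four hh).2
  have h2 := congrFun h1 κ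
  rw [Real.fourierInv_eq'] at h2
  rw [← h2]
  congr 1
  funext s
  rw [smul_eq_mul, mul_comm]
  congr 3
  simp
  ring

/-- one step: insert the definition of the second transform -/
theorem step {g : ℝ → ℂ} (hg : Integrable g) (hgc : Continuous g) {h : ℝ → ℂ} (hh : Tst h) (s : ℝ) :
    ∫ u : ℝ, g u * 𝓕 h (s - u) =
      ∫ κ : ℝ, cexp (((-2 * Real.pi * κ * s : ℝ) : ℂ) * I) * h κ *
        ∫ u : ℝ, g u * cexp (((2 * Real.pi * u * κ : ℝ) : ℂ) * I) := by
  have hi : Integrable (fun p : ℝ × ℝ => g p.1 *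
      (cexp (((-2 * Real.pi * p.2 * (s - p.1) : ℝ) : ℂ) * I) * h p.2))
      ((volume : Measure ℝ).prod volume) := by
    have h1 : Integrable (fun p : ℝ × ℝ => g p.1 * h p.2) ((volume : Measure ℝ).prod volume) :=
      hg.mul_prod (tst_int hh).2
    refine h1.norm.mono' ?_ (Eventually.of_forall fun p => ?_)
    · have := (tst_int hh).1
      exact Continuous.aestronglyMeasurable (by fun_prop)
    · rw [norm_mul, norm_mul, norm_mul, Complex.norm_exp_ofReal_mul_I, one_mul]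
  calc ∫ u : ℝ, g u * 𝓕 h (s - u)
      = ∫ u : ℝ, ∫ κ : ℝ, g u *
        (cexp (((-2 * Real.pi * κ * (s - u) : ℝ) : ℂ) * I) * h κ) := by
        congr 1; funext u
        rw [ft_eq, integral_const_mul]
    _ = ∫ κ : ℝ, ∫ u : ℝ, g u *
        (cexp (((-2 * Real.pi * κ * (s - u) : ℝ) : ℂ) * I) * h κ) := integral_integral_swap hi
    _ = _ := by
        congr 1; funext κ
        rw [← integral_const_mul]
        congr 1; funext u
        have e : cexp (((-2 * Real.pi * κ * (s - u) : ℝ) : ℂ) * I) =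
            cexp (((-2 * Real.pi * κ * s : ℝ) : ℂ) * I) *
              cexp (((2 * Real.pi * u * κ : ℝ) : ℂ) * I) := by
          rw [← Complex.exp_add]; congr 1; push_cast; ring
        rw [e]; ring

theorem bracket {h₀ h₁ h₂ : ℝ → ℂ} (t0 : Tst h₀) (t1 : Tst h₁) (t2 : Tst h₂)
    (hs : ∀ κ κ' : ℝ, h₀ κ ≠ 0 → h₁ κ' ≠ 0 → h₂ (κ + κ') = 1) (s s' : ℝ) :
    ∫ u : ℝ, (𝓕 h₂ u * 𝓕 h₀ (s - u)) * 𝓕 h₁ (s' - u) = 𝓕 h₀ s * 𝓕 h₁ s' := by
  obtain ⟨c0, i0⟩ := tst_four t0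
  obtain ⟨c1, i1⟩ := tst_four t1
  obtain ⟨c2, i2⟩ := tst_four t2
  obtain ⟨C0, hC0, b0⟩ := ft_bdd t0
  have hI : Integrable (fun u : ℝ => 𝓕 h₂ u * 𝓕 h₀ (s - u)) := by
    refine (i2.norm.mul_const C0).mono' (Continuous.aestronglyMeasurable (by fun_prop))
      (Eventually.of_forall fun u => ?_)
    rw [norm_mul]
    exact mul_le_mul_of_nonneg_left (b0 _) (norm_nonneg _)
  rw [step hI (by fun_prop) t1 s', ft_eq h₁ s', ← integral_const_mul]
  congr 1
  funext κ'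
  by_cases hz : h₁ κ' = 0
  · simp [hz]
  have h3 : ∫ u : ℝ, 𝓕 h₂ u * 𝓕 h₀ (s - u) * cexp (((2 * Real.pi * u * κ' : ℝ) : ℂ) * I) =
      𝓕 h₀ s := by
    have e1 : (fun u : ℝ => 𝓕 h₂ u * 𝓕 h₀ (s - u) * cexp (((2 * Real.pi * u * κ' : ℝ) : ℂ) * I)) =
        fun u : ℝ => (𝓕 h₂ u * cexp (((2 * Real.pi * u * κ' : ℝ) : ℂ) * I)) * 𝓕 h₀ (s - u) := by
      funext u; ring
    rw [e1]
    have hI2 : Integrable (fun u : ℝ => 𝓕 h₂ u * cexp (((2 * Real.pi * u * κ' : ℝ) : ℂ) * I)) := by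
      refine i2.norm.mono' (Continuous.aestronglyMeasurable (by fun_prop))
        (Eventually.of_forall fun u => ?_)
      rw [norm_mul, Complex.norm_exp_ofReal_mul_I, mul_one]
    rw [step hI2 (by fun_prop) t0 s, ft_eq h₀ s]
    congr 1
    funext κ
    by_cases hz0 : h₀ κ = 0
    · simp [hz0]
    have h4 : ∫ u : ℝ, 𝓕 h₂ u * cexp (((2 * Real.pi * u * κ' : ℝ) : ℂ) * I) *
        cexp (((2 * Real.pi * u * κ : ℝ) : ℂ) * I) = 1 := by
      rw [← hs κ κ' hz0 hz, ← inv_eq t2 (κ + κ')]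
      congr 1
      funext u
      rw [mul_assoc, ← Complex.exp_add]
      congr 2
      push_cast; ring
    rw [h4, mul_one]
  rw [h3]
  ring

variable {H : Type} [NormedAddCommGroup H] [InnerProductSpace ℂ H] [CompleteSpace H]
  {M : VonNeumannAlgebra H} {ξ : H} {U : ℝ → H →L[ℂ] H}

lemma norm_U (hU : IsModular M ξ U) (t : ℝ) (v : H) : ‖U t v‖ = ‖v‖ := by
  have h1 : star (U t) * U t = 1 := by
    rw [hU.star_eq, ← hU.add, neg_add_cancel, hU.zero]
  have h2 : ⟪U t v, U t v⟫_ℂ = ⟪v, v⟫_ℂ := by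
    rw [← ContinuousLinearMap.adjoint_inner_right, ← ContinuousLinearMap.star_eq_adjoint]
    have : star (U t) (U t v) = (star (U t) * U t) v := rfl
    rw [this, h1]; rfl
  rw [inner_self_eq_norm_sq_to_K, inner_self_eq_norm_sq_to_K] at h2
  have h3 : ‖U t v‖ ^ 2 = ‖v‖ ^ 2 := by exact_mod_cast h2
  exact (pow_left_inj₀ (norm_nonneg _) (norm_nonneg _) two_ne_zero).mp h3

/-- joint continuity, for a path over any space -/
lemma cont_U (hU : IsModular M ξ U) {X : Type} [TopologicalSpace X] {f : X → H}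
    (hf : Continuous f) {g : X → ℝ} (hg : Continuous g) : Continuous (fun s => U (g s) (f s)) := by
  rw [continuous_iff_continuousAt]
  intro s₀
  have h1 : Tendsto (fun s => U (g s) (f s₀)) (𝓝 s₀) (𝓝 (U (g s₀) (f s₀))) :=
    ((hU.cont (f s₀)).comp hg).tendsto s₀
  have h2 : Tendsto (fun s => U (g s) (f s - f s₀)) (𝓝 s₀) (𝓝 0) := by
    rw [tendsto_zero_iff_norm_tendsto_zero]
    simp only [norm_U hU]
    have := (hf.tendsto s₀).sub (tendsto_const_nhds (x := f s₀))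
    simpa using this.norm
  have h3 := h1.add h2
  simp only [add_zero] at h3
  refine h3.congr fun s => ?_
  rw [← map_add]; congr 1; abel

lemma sgm_apply (hU : IsModular M ξ U) (t : ℝ) (b : H →L[ℂ] H) (v : H) :
    sgm U t b v = U t (b (U (-t) v)) := by
  simp [sgm, hU.star_eq]

lemma norm_sgm (hU : IsModular M ξ U) (t : ℝ) (b : H →L[ℂ] H) (v : H) :
    ‖sgm U t b v‖ ≤ ‖b‖ * ‖v‖ := by
  rw [sgm_apply hU, norm_U hU]
  refine (b.le_opNorm _).trans ?_
  rw [norm_U hU]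

lemma cont_sgm (hU : IsModular M ξ U) (b : H →L[ℂ] H) (v : H) :
    Continuous (fun s : ℝ => sgm U (2 * Real.pi * s) b v) := by
  simp only [sgm_apply hU]
  exact cont_U hU (b.continuous.comp ((hU.cont v).comp (by fun_prop))) (by fun_prop)

lemma int_sgm (hU : IsModular M ξ U) {h : ℝ → ℂ} (hh : Tst h) (b : H →L[ℂ] H) (v : H) :
    Integrable (fun s : ℝ => 𝓕 h s • sgm U (2 * Real.pi * s) b v) := by
  obtain ⟨c0, i0⟩ := tst_four hh
  refine (i0.norm.mul_const (‖b‖ * ‖v‖)).mono' (c0.smul (cont_sgm hU b v)).aestronglyMeasurable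
    (Eventually.of_forall fun s => ?_)
  rw [norm_smul]
  exact mul_le_mul_of_nonneg_left (norm_sgm hU _ _ _) (norm_nonneg _)

lemma int_U (hU : IsModular M ξ U) {h : ℝ → ℂ} (hh : Tst h) (v : H) :
    Integrable (fun s : ℝ => 𝓕 h s • U (2 * Real.pi * s) v) := by
  obtain ⟨c0, i0⟩ := tst_four hh
  refine (i0.norm.mul_const ‖v‖).mono'
    (c0.smul ((hU.cont v).comp (by fun_prop))).aestronglyMeasurable
    (Eventually.of_forall fun s => ?_)
  rw [norm_smul, norm_U hU]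

/-- the smoothed operator -/
def op (hU : IsModular M ξ U) {h : ℝ → ℂ} (hh : Tst h) (b : H →L[ℂ] H) : H →L[ℂ] H :=
  LinearMap.mkContinuous
    { toFun := fun v => ∫ s : ℝ, 𝓕 h s • sgm U (2 * Real.pi * s) b v
      map_add' := fun v w => by
        rw [← integral_add (int_sgm hU hh b v) (int_sgm hU hh b w)]
        congr 1; ext s
        rw [map_add, smul_add]
      map_smul' := fun c v => by
        rw [RingHom.id_apply, ← integral_smul]
        congr 1; ext s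
        rw [map_smul, smul_comm] }
    ((∫ s : ℝ, ‖𝓕 h s‖) * ‖b‖) (fun v => by
      refine (norm_integral_le_integral_norm _).trans ?_
      rw [mul_assoc, ← integral_mul_const]
      refine integral_mono_of_nonneg (Eventually.of_forall fun κ => norm_nonneg _)
        ((tst_four hh).2.norm.mul_const _) (Eventually.of_forall fun s => ?_)
      simp only [norm_smul]
      exact mul_le_mul_of_nonneg_left (norm_sgm hU _ _ _) (norm_nonneg _))

lemma op_apply (hU : IsModular M ξ U) {h : ℝ → ℂ} (hh : Tst h) (b : H →L[ℂ] H) (v : H) :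
    op hU hh b v = ∫ s : ℝ, 𝓕 h s • sgm U (2 * Real.pi * s) b v := rfl

lemma op_mem (hU : IsModular M ξ U) {h : ℝ → ℂ} (hh : Tst h) (b : H →L[ℂ] H)
    (N : VonNeumannAlgebra H) (hN : ∀ t : ℝ, sgm U t b ∈ N) : op hU hh b ∈ N := by
  have key : ∀ T : H →L[ℂ] H, T ∈ N.commutant.commutant → T ∈ N := fun T hT => by
    rw [N.commutant_commutant] at hT; exact hT
  apply key
  rw [VonNeumannAlgebra.mem_commutant_iff]
  intro y hy
  rw [VonNeumannAlgebra.mem_commutant_iff] at hy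
  ext v
  change y (op hU hh b v) = op hU hh b (y v)
  rw [op_apply, op_apply, ← ContinuousLinearMap.integral_comp_comm _ (int_sgm hU hh b _)]
  congr 1
  ext s
  rw [map_smul]
  congr 1
  have := hy _ (hN (2 * Real.pi * s))
  have h2 := congrArg (fun T : H →L[ℂ] H => T v) this
  exact h2.symm

/-- the joint orbit -/
def GG (U : ℝ → H →L[ℂ] H) (a : H →L[ℂ] H) (v : H) (p : ℝ × ℝ) : H :=
  sgm U (2 * Real.pi * p.1) a (U (2 * Real.pi * p.2) v)

lemma cont_GG (hU : IsModular M ξ U) (a : H →L[ℂ] H) (v : H) : Continuous (GG U a v) := by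
  unfold GG
  simp only [sgm_apply hU]
  refine cont_U hU (a.continuous.comp (cont_U hU (cont_U hU continuous_const (by fun_prop))
    (by fun_prop))) (by fun_prop)

lemma norm_GG (hU : IsModular M ξ U) (a : H →L[ℂ] H) (v : H) (p : ℝ × ℝ) :
    ‖GG U a v p‖ ≤ ‖a‖ * ‖v‖ := by
  unfold GG
  refine (norm_sgm hU _ _ _).trans ?_
  rw [norm_U hU]

lemma U_add (hU : IsModular M ξ U) (s t : ℝ) (v : H) : U s (U t v) = U (s + t) v := by
  rw [hU.add]
  rfl

lemma U_GG (hU : IsModular M ξ U) (a : H →L[ℂ] H) (v : H) (p : ℝ × ℝ) (u : ℝ) :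
    U (2 * Real.pi * u) (GG U a v p) = GG U a v (p + (u, u)) := by
  unfold GG
  rw [sgm_apply hU, sgm_apply hU, U_add hU, U_add hU, U_add hU]
  have e1 : 2 * Real.pi * u + 2 * Real.pi * p.1 = 2 * Real.pi * (p + (u, u)).1 := by
    simp; ring
  have e2 : -(2 * Real.pi * p.1) + 2 * Real.pi * p.2 =
      -(2 * Real.pi * (p + (u, u)).1) + 2 * Real.pi * (p + (u, u)).2 := by
    simp; ring
  rw [e1, e2]

lemma int_F (hU : IsModular M ξ U) {h₀ h₁ : ℝ → ℂ} (t0 : Tst h₀) (t1 : Tst h₁)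
    (a : H →L[ℂ] H) (v : H) :
    Integrable (fun p : ℝ × ℝ => (𝓕 h₀ p.1 * 𝓕 h₁ p.2) • GG U a v p)
      ((volume : Measure ℝ).prod volume) := by
  obtain ⟨c0, i0⟩ := tst_four t0
  obtain ⟨c1, i1⟩ := tst_four t1
  have h1 := (i0.mul_prod i1).norm.mul_const (‖a‖ * ‖v‖)
  refine h1.mono' ?_ (Eventually.of_forall fun p => ?_)
  · exact (Continuous.smul (by fun_prop) (cont_GG hU a v)).aestronglyMeasurable
  · rw [norm_smul]
    exact mul_le_mul_of_nonneg_left (norm_GG hU _ _ _) (norm_nonneg _)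

lemma xw_eq (hU : IsModular M ξ U) {h₀ h₁ : ℝ → ℂ} (t0 : Tst h₀) (t1 : Tst h₁)
    (a : H →L[ℂ] H) (v : H) :
    op hU t0 a (psi U h₁ v) =
      ∫ p : ℝ × ℝ, (𝓕 h₀ p.1 * 𝓕 h₁ p.2) • GG U a v p ∂((volume : Measure ℝ).prod volume) := by
  rw [integral_prod _ (int_F hU t0 t1 a v), op_apply]
  congr 1
  funext s
  unfold psi
  rw [← ContinuousLinearMap.integral_comp_comm _ (int_U hU t1 v), ← integral_smul]
  congr 1
  funext s'
  rw [map_smul, smul_smul]
  rfl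

lemma psi_xw (hU : IsModular M ξ U) {h₀ h₁ h₂ : ℝ → ℂ} (t0 : Tst h₀) (t1 : Tst h₁) (t2 : Tst h₂)
    (hs : ∀ κ κ' : ℝ, h₀ κ ≠ 0 → h₁ κ' ≠ 0 → h₂ (κ + κ') = 1) (a : H →L[ℂ] H) (v : H) :
    psi U h₂ (op hU t0 a (psi U h₁ v)) = op hU t0 a (psi U h₁ v) := by
  obtain ⟨c0, i0⟩ := tst_four t0
  obtain ⟨c1, i1⟩ := tst_four t1
  obtain ⟨c2, i2⟩ := tst_four t2
  have hG := cont_GG hU a v
  have hint : Integrable (fun q : ℝ × (ℝ × ℝ) =>
      (𝓕 h₂ q.1 * 𝓕 h₀ (q.2.1 - q.1) * 𝓕 h₁ (q.2.2 - q.1)) • GG U a v q.2)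
      ((volume : Measure ℝ).prod ((volume : Measure ℝ).prod volume)) := by
    have hI : ∀ u : ℝ, Integrable (fun p : ℝ × ℝ => 𝓕 h₀ (p.1 - u) * 𝓕 h₁ (p.2 - u))
        ((volume : Measure ℝ).prod volume) := fun u =>
      (i0.comp_sub_right u).mul_prod (i1.comp_sub_right u)
    have hI2 : ∀ u : ℝ, Integrable (fun p : ℝ × ℝ => ‖𝓕 h₂ u‖ *
        (‖𝓕 h₀ (p.1 - u) * 𝓕 h₁ (p.2 - u)‖ * (‖a‖ * ‖v‖)))
        ((volume : Measure ℝ).prod volume) := fun u =>
      ((hI u).norm.mul_const _).const_mul _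
    have hle : ∀ (u : ℝ) (p : ℝ × ℝ), ‖(𝓕 h₂ u * 𝓕 h₀ (p.1 - u) * 𝓕 h₁ (p.2 - u)) • GG U a v p‖ ≤
        ‖𝓕 h₂ u‖ * (‖𝓕 h₀ (p.1 - u) * 𝓕 h₁ (p.2 - u)‖ * (‖a‖ * ‖v‖)) := by
      intro u p
      rw [norm_smul, mul_assoc, norm_mul, mul_assoc]
      exact mul_le_mul_of_nonneg_left (mul_le_mul_of_nonneg_left (norm_GG hU _ _ _)
        (norm_nonneg _)) (norm_nonneg _)
    have hconst : ∀ u : ℝ, ∫ p : ℝ × ℝ, ‖𝓕 h₀ (p.1 - u) * 𝓕 h₁ (p.2 - u)‖
        ∂((volume : Measure ℝ).prod volume) = (∫ s, ‖𝓕 h₀ s‖) * ∫ s, ‖𝓕 h₁ s‖ := by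
      intro u
      simp only [norm_mul]
      rw [integral_prod_mul (fun s => ‖𝓕 h₀ (s - u)‖) (fun s => ‖𝓕 h₁ (s - u)‖),
        integral_sub_right_eq_self (fun s => ‖𝓕 h₀ s‖) u,
        integral_sub_right_eq_self (fun s => ‖𝓕 h₁ s‖) u]
    have hm : AEStronglyMeasurable (fun q : ℝ × (ℝ × ℝ) =>
        (𝓕 h₂ q.1 * 𝓕 h₀ (q.2.1 - q.1) * 𝓕 h₁ (q.2.2 - q.1)) • GG U a v q.2)
        ((volume : Measure ℝ).prod ((volume : Measure ℝ).prod volume)) :=
      Continuous.aestronglyMeasurable (Continuous.smul (by fun_prop) (hG.comp continuous_snd))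
    rw [integrable_prod_iff hm]
    refine ⟨Eventually.of_forall fun u => ?_, ?_⟩
    · refine (hI2 u).mono' ?_ (Eventually.of_forall fun p => hle u p)
      exact Continuous.aestronglyMeasurable (Continuous.smul (by fun_prop) hG)
    · refine (i2.norm.mul_const (((∫ s, ‖𝓕 h₀ s‖) * ∫ s, ‖𝓕 h₁ s‖) * (‖a‖ * ‖v‖))).mono' ?_
        (Eventually.of_forall fun u => ?_)
      · exact hm.norm.integral_prod_right'
      · rw [Real.norm_of_nonneg (integral_nonneg fun _ => norm_nonneg _)]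
        refine (integral_mono_of_nonneg (Eventually.of_forall fun _ => norm_nonneg _) (hI2 u)
          (Eventually.of_forall fun p => hle u p)).trans (le_of_eq ?_)
        rw [integral_const_mul, integral_mul_const, hconst]
  rw [xw_eq hU t0 t1 a v]
  unfold psi
  calc ∫ u : ℝ, 𝓕 h₂ u • U (2 * Real.pi * u) (∫ p : ℝ × ℝ, (𝓕 h₀ p.1 * 𝓕 h₁ p.2) • GG U a v p
          ∂((volume : Measure ℝ).prod volume))
      = ∫ u : ℝ, ∫ p : ℝ × ℝ, (𝓕 h₂ u * 𝓕 h₀ (p.1 - u) * 𝓕 h₁ (p.2 - u)) • GG U a v p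
          ∂((volume : Measure ℝ).prod volume) := by
        congr 1
        funext u
        rw [← ContinuousLinearMap.integral_comp_comm _ (int_F hU t0 t1 a v), ← integral_smul]
        rw [← integral_sub_right_eq_self (μ := (volume : Measure ℝ).prod volume)
          (fun p : ℝ × ℝ => 𝓕 h₂ u • (U (2 * Real.pi * u))
            ((𝓕 h₀ p.1 * 𝓕 h₁ p.2) • GG U a v p)) ((u, u) : ℝ × ℝ)]
        congr 1
        funext p
        rw [map_smul, U_GG hU, smul_smul, sub_add_cancel, mul_assoc]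
        rfl
    _ = ∫ p : ℝ × ℝ, (∫ u : ℝ, (𝓕 h₂ u * 𝓕 h₀ (p.1 - u) * 𝓕 h₁ (p.2 - u)) • GG U a v p)
          ∂((volume : Measure ℝ).prod volume) := integral_integral_swap hint
    _ = _ := by
        congr 1
        funext p
        rw [integral_smul_const, bracket t0 t1 t2 hs]

/-- the third test function -/
theorem exists_h2 {h₀ h₁ : ℝ → ℂ} {A B : ℝ} (t0 : Tst h₀) (t1 : Tst h₁)
    (hA : ∀ κ, κ < A → h₀ κ = 0) (hB : ∀ κ, κ < B → h₁ κ = 0) (hAB : 0 < A + B) :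
    ∃ h₂ : ℝ → ℂ, Tst h₂ ∧ (∃ c : ℝ, 0 < c ∧ ∀ κ, κ < c → h₂ κ = 0) ∧
      ∀ κ κ' : ℝ, h₀ κ ≠ 0 → h₁ κ' ≠ 0 → h₂ (κ + κ') = 1 := by
  obtain ⟨R0, hR0⟩ : ∃ R : ℝ, ∀ κ, h₀ κ ≠ 0 → κ ≤ R := by
    obtain ⟨R, hR⟩ := t0.2.isCompact.bddAbove
    exact ⟨R, fun κ hκ => hR (subset_tsupport _ hκ)⟩
  obtain ⟨R1, hR1⟩ : ∃ R : ℝ, ∀ κ, h₁ κ ≠ 0 → κ ≤ R := by
    obtain ⟨R, hR⟩ := t1.2.isCompact.bddAbove
    exact ⟨R, fun κ hκ => hR (subset_tsupport _ hκ)⟩
  set R : ℝ := max (R0 + R1) (A + B + 1) with hR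
  have hr : 0 < (R - (A + B)) / 2 := by
    have := le_max_right (R0 + R1) (A + B + 1)
    linarith
  let f : ContDiffBump ((A + B + R) / 2 : ℝ) :=
    ⟨(R - (A + B)) / 2, (R - (A + B)) / 2 + (A + B) / 2, hr, by linarith⟩
  refine ⟨fun x => ((f x : ℝ) : ℂ), ⟨?_, ?_⟩, ⟨(A + B) / 2, by linarith, fun κ hκ => ?_⟩,
    fun κ κ' h0 h1 => ?_⟩
  · exact Complex.ofRealCLM.contDiff.comp f.contDiff
  · exact f.hasCompactSupport.comp_left (g := fun x : ℝ => (x : ℂ)) Complex.ofReal_zero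
  · have : f κ = 0 := by
      apply f.zero_of_le_dist
      rw [Real.dist_eq]
      have h2 : f.rOut = (R - (A + B)) / 2 + (A + B) / 2 := rfl
      rw [h2]
      have h3 : κ - (A + B + R) / 2 < 0 := by
        have := le_max_right (R0 + R1) (A + B + 1)
        linarith
      rw [abs_of_neg h3]
      linarith
    simp [this]
  · have h2 : A ≤ κ := by
      by_contra h; exact h0 (hA κ (not_le.1 h))
    have h3 : B ≤ κ' := by
      by_contra h; exact h1 (hB κ' (not_le.1 h))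
    have h4 := hR0 κ h0
    have h5 := hR1 κ' h1
    have h6 : R0 + R1 ≤ R := le_max_left _ _
    have : f (κ + κ') = 1 := by
      apply f.one_of_mem_closedBall
      rw [Metric.mem_closedBall, Real.dist_eq]
      have h2 : f.rIn = (R - (A + B)) / 2 := rfl
      rw [h2, abs_le]
      constructor <;> linarith
    simp [this]

theorem r (_h1 : S_psi) (_h2 : S_psi_one) (_h3 : S_phi) : S_prodsp := by
  intro H _ _ _ N M ξ U J E inc h₀ h₁ A B t0 t1 hA hB hAB a b x w ha hb hx hw ex ew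
  have hU := inc.modular
  obtain ⟨h₂, t2, hc, hs⟩ := exists_h2 t0 t1 hA hB hAB
  refine ⟨mul_mem hx hw, x * w, mul_mem hx hw, h₂, t2, hc, ?_⟩
  have hop : op hU t0 a ∈ N := op_mem hU t0 a N fun t => inc.mod t a ha
  have hop2 : op hU t0 a ξ = x ξ := by
    rw [ex, op_apply]
    unfold psi
    congr 1
    funext s
    rw [sgm_apply hU, hU.fix]
  have hxe : x = op hU t0 a := by
    have h5 : x - op hU t0 a = 0 := by
      refine inc.sep _ (sub_mem (inc.le _ hx) (inc.le _ hop)) ?_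
      rw [sub_apply, hop2, sub_self]
    exact sub_eq_zero.1 h5
  have h6 : (x * w) ξ = op hU t0 a (psi U h₁ (b ξ)) := by
    rw [← hxe, ← ew]
    rfl
  rw [h6]
  exact (psi_xw hU t0 t1 t2 hs a (b ξ)).symm

end

end Pool.Agent.H255.BC.R_prodsp
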