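import Pool.Agent.H255.BC.Defs2

set_option autoImplicit false

open MeasureTheory Filter Topology Complex
open scoped InnerProductSpace ENNReal FourierTransform

namespace Pool.Agent.H255.BC.R_psiJ

open Pool.Agent.W662.CB Pool.Agent.H255.BC

variable {H : Type} [NormedAddCommGroup H] [InnerProductSpace ℂ H] [CompleteSpace H]
  {M : VonNeumannAlgebra H} {ξ : H} {U : ℝ → H →L[ℂ] H} {J : H → H}

theorem ft_eq (h : ℝ → ℂ) (s : ℝ) :
    𝓕 h s = ∫ κ : ℝ, cexp (-(2 * Real.pi * I * s * κ)) * h κ := by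
  rw [Real.fourier_real_eq_integral_exp_smul]
  congr 1
  funext κ
  rw [smul_eq_mul]
  congr 2
  push_cast
  ring

theorem ft_conj_neg (h : ℝ → ℂ) (s : ℝ) :
    𝓕 (fun κ => starRingEnd ℂ (h (-κ))) s = starRingEnd ℂ (𝓕 h s) := by
  rw [ft_eq, ft_eq, ← integral_conj,
    ← integral_neg_eq_self (fun κ : ℝ => cexp (-(2 * Real.pi * I * s * κ)) *
      starRingEnd ℂ (h (-κ)))]
  congr 1
  funext κ
  rw [map_mul, ← Complex.exp_conj, neg_neg]
  congr 2
  simp only [map_neg, map_mul, Complex.conj_ofReal, Complex.conj_I, map_ofNat, Complex.ofReal_neg]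
  ring

theorem ft_cont (h : ℝ → ℂ) (hh : Tst h) : Continuous (𝓕 h) := by
  have h1 : 𝓕 h = (𝓕 (hh.2.toSchwartzMap hh.1) : SchwartzMap ℝ ℂ) := by
    rw [SchwartzMap.fourier_coe]
    rfl
  rw [h1]
  exact SchwartzMap.continuous _

theorem ft_int (h : ℝ → ℂ) (hh : Tst h) : Integrable (𝓕 h) := by
  have h1 : 𝓕 h = (𝓕 (hh.2.toSchwartzMap hh.1) : SchwartzMap ℝ ℂ) := by
    rw [SchwartzMap.fourier_coe]
    rfl
  rw [h1]
  exact SchwartzMap.integrable _

theorem U_inner (hU : IsModular M ξ U) (t : ℝ) (v w : H) : ⟪v, U t w⟫_ℂ = ⟪U (-t) v, w⟫_ℂ := by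
  rw [← hU.star_eq, ContinuousLinearMap.star_eq_adjoint, ContinuousLinearMap.adjoint_inner_left]

theorem U_add (hU : IsModular M ξ U) (s t : ℝ) (v : H) : U s (U t v) = U (s + t) v := by
  rw [hU.add]
  rfl

theorem U_norm (hU : IsModular M ξ U) (t : ℝ) (v : H) : ‖U t v‖ = ‖v‖ := by
  have h1 : ⟪U t v, U t v⟫_ℂ = ⟪v, v⟫_ℂ := by
    rw [U_inner hU, U_add hU, neg_add_cancel, hU.zero]
    rfl
  rw [inner_self_eq_norm_sq_to_K, inner_self_eq_norm_sq_to_K] at h1
  have h2 : ‖U t v‖ ^ 2 = ‖v‖ ^ 2 := by exact_mod_cast h1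
  exact (pow_left_inj₀ (norm_nonneg _) (norm_nonneg _) two_ne_zero).1 h2

theorem psi_cont (hU : IsModular M ξ U) (h : ℝ → ℂ) (hh : Tst h) (v : H) :
    Continuous fun s : ℝ => (𝓕 h s) • U (2 * Real.pi * s) v :=
  (ft_cont h hh).smul ((hU.cont v).comp (continuous_const.mul continuous_id))

theorem psi_int (hU : IsModular M ξ U) (h : ℝ → ℂ) (hh : Tst h) (v : H) :
    Integrable fun s : ℝ => (𝓕 h s) • U (2 * Real.pi * s) v := by
  refine ((ft_int h hh).norm.mul_const ‖v‖).mono' (psi_cont hU h hh v).aestronglyMeasurable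
    (Eventually.of_forall fun s => ?_)
  rw [norm_smul, U_norm hU]

theorem isAn_star {F : ℂ → H →L[ℂ] H}
    (hF : IsAn M U F) : IsAn M U (fun z => star (F (starRingEnd ℂ z))) where
  mem z := star_mem (hF.mem _)
  diff v := hF.diff' v
  diff' v := by
    have := hF.diff v
    simpa using this
  ext t := by
    have h0 : (starRingEnd ℂ) (0 : ℂ) = 0 := by simp
    have h1 : (starRingEnd ℂ) (t : ℂ) = (t : ℂ) := Complex.conj_ofReal t
    simp only [h0, h1]
    rw [hF.ext t]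
    simp only [sgm, star_mul, star_star, mul_assoc]
  bdd R := by
    obtain ⟨C, hC⟩ := hF.bdd R
    refine ⟨C, fun z hz => ?_⟩
    rw [norm_star]
    apply hC
    simpa using hz

theorem J_norm (hJ : IsConj M ξ U J) (v : H) : ‖J v‖ = ‖v‖ := by
  have h1 := hJ.inner v v
  rw [inner_self_eq_norm_sq_to_K, inner_self_eq_norm_sq_to_K] at h1
  have h2 : ‖J v‖ ^ 2 = ‖v‖ ^ 2 := by exact_mod_cast h1
  exact (pow_left_inj₀ (norm_nonneg _) (norm_nonneg _) two_ne_zero).1 h2

/-- `J` as a real linear continuous map -/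
noncomputable def JL (hJ : IsConj M ξ U J) : H →L[ℝ] H :=
  LinearMap.mkContinuous
    { toFun := J
      map_add' := hJ.add
      map_smul' := fun c v => by
        have h1 := hJ.smul (c : ℂ) v
        rw [Complex.conj_ofReal] at h1
        simpa using h1 } 1 (fun v => by
          rw [one_mul]
          exact (J_norm hJ v).le)

theorem JL_apply (hJ : IsConj M ξ U J) (v : H) : JL hJ v = J v := rfl

theorem psi_J (hU : IsModular M ξ U) (hJ : IsConj M ξ U J) (h : ℝ → ℂ) (hh : Tst h) (v : H) :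
    J (psi U h v) = psi U (fun κ => starRingEnd ℂ (h (-κ))) (J v) := by
  unfold psi
  rw [← JL_apply hJ, ← ContinuousLinearMap.integral_comp_comm _ (psi_int hU h hh v)]
  congr 1
  funext s
  rw [JL_apply, hJ.smul, hJ.modular, ft_conj_neg]

theorem r (_h1 : S_psi) (h3 : S_phi) : S_psi_J := by
  intro H _ _ _ M ξ U J hU hJ h hh
  refine ⟨psi_J hU hJ h hh, fun a ha => ?_⟩
  obtain ⟨F, hF, hF1, hF2⟩ := h3 H M ξ U hU h hh a ha
  have e1 := hJ.an _ (isAn_star hF)
  simp only [map_zero, star_star] at e1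
  have h4 : (starRingEnd ℂ) (I / 2) = -(I / 2) := by
    rw [map_div₀, Complex.conj_I]
    have : (starRingEnd ℂ) (2 : ℂ) = 2 := Complex.conj_ofNat 2
    rw [this]; ring
  rw [h4, hF1, hF2] at e1
  have e2 : (fun κ : ℝ => starRingEnd ℂ (cexp (I * 0 * ((-κ : ℝ) : ℂ)) * h (-κ))) =
      fun κ : ℝ => starRingEnd ℂ (h (-κ)) := by
    funext κ
    simp
  have e3 : (fun κ : ℝ => cexp (I * (-(I / 2)) * κ) * h κ) =
      fun κ : ℝ => cexp (κ / 2) * h κ := by
    funext κ
    congr 2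
    linear_combination (-(κ : ℂ) / 2) * Complex.I_mul_I
  rw [e2, e3] at e1
  have e4 := psi_J hU hJ h hh (J (star a ξ))
  rw [hJ.inv] at e4
  rw [← e1, ← e4, hJ.inv]

end Pool.Agent.H255.BC.R_psiJ
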