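import Pool.Agent.H255.BC.Defs2

set_option autoImplicit false

open MeasureTheory Filter Topology Complex
open scoped InnerProductSpace ENNReal FourierTransform Convolution

namespace Pool.Agent.H255.BC.R_psimul

open Pool.Agent.W662.CB Pool.Agent.H255.BC

theorem ft_cont (h : ℝ → ℂ) (hh : Tst h) : Continuous (𝓕 h) := by
  have h1 : 𝓕 h = (𝓕 (hh.2.toSchwartzMap hh.1) : SchwartzMap ℝ ℂ) := by
    rw [SchwartzMap.fourier_coe]
    rfl
  rw [h1]
  exact SchwartzMap.continuous _

theorem ft_int (h : ℝ → ℂ) (hh : Tst h) : Integrable (𝓕 h) := by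
  have h1 : 𝓕 h = (𝓕 (hh.2.toSchwartzMap hh.1) : SchwartzMap ℝ ℂ) := by
    rw [SchwartzMap.fourier_coe]
    rfl
  rw [h1]
  exact SchwartzMap.integrable _

theorem ft_bdd (h : ℝ → ℂ) (hh : Tst h) : BddAbove (Set.range fun x => ‖𝓕 h x‖) := by
  refine ⟨∫ κ, ‖h κ‖, ?_⟩
  rintro _ ⟨x, rfl⟩
  simp only []
  rw [Real.fourier_real_eq_integral_exp_smul]
  refine (norm_integral_le_integral_norm _).trans (le_of_eq ?_)
  congr 1
  funext κ
  rw [norm_smul]
  have : ‖cexp (((-2 * Real.pi * κ * x : ℝ) : ℂ) * I)‖ = 1 := Complex.norm_exp_ofReal_mul_I _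
  push_cast at this ⊢
  rw [this, one_mul]

theorem ft_inv (h : ℝ → ℂ) (hh : Tst h) (x : ℝ) : 𝓕 (𝓕 h) x = h (-x) := by
  have hc : Continuous h := hh.1.continuous
  have hi : Integrable h := hc.integrable_of_hasCompactSupport hh.2
  have h1 := hc.fourierInv_fourier_eq hi (ft_int h hh)
  have h2 := congrFun h1 (-x)
  rw [← h2, Real.fourierInv_eq_fourier_neg, neg_neg]

theorem ft_mul (h h' : ℝ → ℂ) (hh : Tst h) (hh' : Tst h') (u : ℝ) :
    𝓕 (fun κ => h κ * h' κ) u = ∫ s : ℝ, 𝓕 h s * 𝓕 h' (u - s) := by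
  have hF := ft_int h hh
  have hG := ft_int h' hh'
  set k : ℝ → ℂ := (𝓕 h) ⋆[ContinuousLinearMap.mul ℂ ℂ] (𝓕 h') with hk
  have hkc : Continuous k :=
    BddAbove.continuous_convolution_right_of_integrable _ (ft_bdd h' hh') hF (ft_cont h' hh')
  have hki : Integrable k := hF.integrable_convolution _ hG
  have hkf : ∀ x, 𝓕 k x = h (-x) * h' (-x) := by
    intro x
    rw [hk, Real.fourier_mul_convolution_eq hF hG, ft_inv h hh, ft_inv h' hh']
  have hp : Tst (fun κ => h κ * h' κ) := ⟨hh.1.mul hh'.1, hh.2.mul_right⟩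
  have hpi : Integrable (fun κ => h κ * h' κ) := hp.1.continuous.integrable_of_hasCompactSupport hp.2
  have hfi : Integrable (𝓕 k) := by
    have : 𝓕 k = fun x => (fun κ => h κ * h' κ) (-x) := funext hkf
    rw [this]
    exact hpi.comp_neg
  have h2 : 𝓕⁻ k = fun κ => h κ * h' κ := by
    funext x
    rw [Real.fourierInv_eq_fourier_neg, hkf, neg_neg]
  have h3 := hkc.fourier_fourierInv_eq hki hfi
  rw [h2] at h3
  rw [h3, hk]
  rfl

theorem r (h1 : S_psi) : S_psi_mul := by
  intro H _ _ _ M ξ U hU h h' hh hh' v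
  have hn : ∀ (t : ℝ) (v : H), ‖U t v‖ = ‖v‖ := by
    intro t v
    have h1 : ⟪U t v, U t v⟫_ℂ = ⟪v, v⟫_ℂ := by
      have e1 : ⟪U t v, U t v⟫_ℂ = ⟪v, star (U t) (U t v)⟫_ℂ := by
        rw [ContinuousLinearMap.star_eq_adjoint, ContinuousLinearMap.adjoint_inner_right]
      rw [e1, hU.star_eq]
      have e2 : U (-t) (U t v) = (U (-t) * U t) v := rfl
      rw [e2, ← hU.add, neg_add_cancel, hU.zero]
      rfl
    rw [inner_self_eq_norm_sq_to_K, inner_self_eq_norm_sq_to_K] at h1
    have h2 : ‖U t v‖ ^ 2 = ‖v‖ ^ 2 := by exact_mod_cast h1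
    exact (pow_left_inj₀ (norm_nonneg _) (norm_nonneg _) two_ne_zero).1 h2
  have hint : Integrable fun s : ℝ => (𝓕 h' s) • U (2 * Real.pi * s) v := by
    have hc : Continuous fun s : ℝ => (𝓕 h' s) • U (2 * Real.pi * s) v :=
      (ft_cont h' hh').smul ((hU.cont v).comp (continuous_const.mul continuous_id))
    refine ((ft_int h' hh').norm.mul_const ‖v‖).mono' hc.aestronglyMeasurable
      (Eventually.of_forall fun s => ?_)
    rw [norm_smul, hn]
  have hUp : ∀ s : ℝ, U (2 * Real.pi * s) (psi U h' v) =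
      ∫ u : ℝ, (𝓕 h' (u - s)) • U (2 * Real.pi * u) v := by
    intro s
    have e1 : U (2 * Real.pi * s) (psi U h' v) =
        ∫ u : ℝ, (𝓕 h' u) • U (2 * Real.pi * (u + s)) v := by
      unfold psi
      rw [← ContinuousLinearMap.integral_comp_comm _ hint]
      congr 1
      funext u
      rw [map_smul]
      have e2 : U (2 * Real.pi * s) (U (2 * Real.pi * u) v) =
        (U (2 * Real.pi * s) * U (2 * Real.pi * u)) v := rfl
      rw [e2, ← hU.add]
      congr 3
      ring
    rw [e1, ← integral_sub_right_eq_self (fun u : ℝ => (𝓕 h' u) • U (2 * Real.pi * (u + s)) v) s]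
    congr 1
    funext u
    rw [sub_add_cancel]
  have hprod : Integrable (fun p : ℝ × ℝ => (𝓕 h p.2 * 𝓕 h' (p.1 - p.2)) • U (2 * Real.pi * p.1) v)
      (volume.prod volume) := by
    have e1 := (ft_int h hh).convolution_integrand (ContinuousLinearMap.mul ℂ ℂ) (ft_int h' hh')
    have hc : Continuous (fun p : ℝ × ℝ =>
        (𝓕 h p.2 * 𝓕 h' (p.1 - p.2)) • U (2 * Real.pi * p.1) v) := by
      refine Continuous.smul ?_ ?_
      · exact ((ft_cont h hh).comp continuous_snd).mul
          ((ft_cont h' hh').comp (continuous_fst.sub continuous_snd))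
      · exact (hU.cont v).comp (continuous_const.mul continuous_fst)
    refine (e1.norm.mul_const ‖v‖).mono' hc.aestronglyMeasurable (Eventually.of_forall fun p => ?_)
    rw [norm_smul, hn]
    rfl
  calc psi U (fun κ => h κ * h' κ) v
      = ∫ u : ℝ, (∫ s : ℝ, 𝓕 h s * 𝓕 h' (u - s)) • U (2 * Real.pi * u) v := by
        unfold psi
        congr 1
        funext u
        rw [ft_mul h h' hh hh']
    _ = ∫ u : ℝ, ∫ s : ℝ, (𝓕 h s * 𝓕 h' (u - s)) • U (2 * Real.pi * u) v := by
        congr 1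
        funext u
        rw [integral_smul_const]
    _ = ∫ s : ℝ, ∫ u : ℝ, (𝓕 h s * 𝓕 h' (u - s)) • U (2 * Real.pi * u) v :=
        integral_integral_swap hprod
    _ = psi U h (psi U h' v) := by
        rw [psi]
        congr 1
        funext s
        rw [hUp, ← integral_smul]
        congr 1
        funext u
        rw [mul_smul]

end Pool.Agent.H255.BC.R_psimul
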