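import Pool.Agent.H255.BC.Defs2

set_option autoImplicit false

open MeasureTheory Filter Topology Complex
open scoped InnerProductSpace ENNReal FourierTransform

namespace Pool.Agent.H255.BC.R_red

open Pool.Agent.W662.CB Pool.Agent.H255.BC

section General

variable {H : Type} [NormedAddCommGroup H] [InnerProductSpace ℂ H] [CompleteSpace H]

/-- compression to a closed subspace -/
noncomputable def rh (K : Submodule ℂ H) [CompleteSpace K] (x : H →L[ℂ] H) : K →L[ℂ] K :=
  (ContinuousLinearMap.adjoint K.subtypeL) ∘L x ∘L K.subtypeL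

variable (K : Submodule ℂ H) [CompleteSpace K]

theorem adj_coe (w : K) : ContinuousLinearMap.adjoint K.subtypeL (w : H) = w := by
  rw [Submodule.adjoint_subtypeL]
  simp

theorem rh_apply {x : H →L[ℂ] H} (hx : ∀ v ∈ K, x v ∈ K) (v : K) : ((rh K x v : K) : H) = x v := by
  have h1 : rh K x v = ContinuousLinearMap.adjoint K.subtypeL (x v) := rfl
  have h2 : x v = ((⟨x v, hx v v.2⟩ : K) : H) := rfl
  rw [h1, h2, adj_coe]

theorem star_rh (x : H →L[ℂ] H) : star (rh K x) = rh K (star x) := by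
  rw [rh, rh, ContinuousLinearMap.star_eq_adjoint, ContinuousLinearMap.star_eq_adjoint,
    ContinuousLinearMap.adjoint_comp, ContinuousLinearMap.adjoint_comp,
    ContinuousLinearMap.adjoint_adjoint]
  rfl

theorem rh_one : rh K (1 : H →L[ℂ] H) = 1 := by
  ext v
  rw [rh_apply K (fun v hv => hv)]
  rfl

theorem rh_mul {x y : H →L[ℂ] H} (hy : ∀ v ∈ K, y v ∈ K) : rh K x * rh K y = rh K (x * y) := by
  ext v
  have h1 : (rh K x * rh K y) v = ContinuousLinearMap.adjoint K.subtypeL (x ((rh K y v : K) : H)) := rfl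
  rw [h1, rh_apply K hy]
  rfl

theorem inner_rh (x : H →L[ℂ] H) (v w : K) : ⟪v, rh K x w⟫_ℂ = ⟪(v : H), x w⟫_ℂ := by
  have h1 : rh K x w = ContinuousLinearMap.adjoint K.subtypeL (x w) := rfl
  rw [h1, ContinuousLinearMap.adjoint_inner_right]
  rfl

theorem rh_mul' {x y : H →L[ℂ] H} (hx : ∀ v ∈ K, star x v ∈ K) :
    rh K x * rh K y = rh K (x * y) := by
  ext w
  refine congrArg _ ?_
  refine ext_inner_left ℂ (fun v => ?_)
  have h1 : (rh K x * rh K y) w = rh K x (rh K y w) := rfl
  rw [h1, inner_rh, inner_rh]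
  have h2 : ⟪(v : H), x ((rh K y w : K) : H)⟫_ℂ = ⟪star x (v : H), ((rh K y w : K) : H)⟫_ℂ := by
    rw [ContinuousLinearMap.star_eq_adjoint, ContinuousLinearMap.adjoint_inner_left]
  have h3 : ⟪star x (v : H), ((rh K y w : K) : H)⟫_ℂ = ⟪(⟨star x v, hx v v.2⟩ : K), rh K y w⟫_ℂ := rfl
  rw [h2, h3, inner_rh]
  have h4 : (((⟨star x v, hx v v.2⟩ : K)) : H) = star x (v : H) := rfl
  rw [h4, ContinuousLinearMap.star_eq_adjoint, ContinuousLinearMap.adjoint_inner_left]
  rfl

theorem norm_rh_le (x : H →L[ℂ] H) (hx : ∀ v ∈ K, x v ∈ K) : ‖rh K x‖ ≤ ‖x‖ := by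
  refine ContinuousLinearMap.opNorm_le_bound _ (norm_nonneg _) (fun v => ?_)
  rw [Submodule.coe_norm, rh_apply K hx]
  exact x.le_opNorm _

end General

section Pos

variable {K : Type} [NormedAddCommGroup K] [InnerProductSpace ℂ K] [CompleteSpace K]

/-- if `X` commutes with the positive operator `A` then `⟪X v, A X v⟫ ≤ ‖X‖² ⟪v, A v⟫` -/
theorem comm_pos {A X : K →L[ℂ] K} (hA : 0 ≤ A) (hX : Commute A X) (v : K) :
    (⟪X v, A (X v)⟫_ℂ).re ≤ ‖X‖ ^ 2 * (⟪v, A v⟫_ℂ).re := by
  set B := CFC.sqrt A with hB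
  have hB0 : 0 ≤ B := CFC.sqrt_nonneg A
  have hBB : B * B = A := CFC.sqrt_mul_sqrt_self A hA
  have hBX : Commute B X := hX.cfcₙ_nnreal _
  have hBs : star B = B := (IsSelfAdjoint.of_nonneg hB0).star_eq
  have key : ∀ w : K, (⟪w, A w⟫_ℂ).re = ‖B w‖ ^ 2 := by
    intro w
    have h1 : ⟪w, A w⟫_ℂ = ⟪B w, B w⟫_ℂ := by
      rw [← hBB]
      conv_rhs => rw [← ContinuousLinearMap.adjoint_inner_right]
      rw [← ContinuousLinearMap.star_eq_adjoint, hBs]
      rfl
    rw [h1, inner_self_eq_norm_sq_to_K]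
    norm_cast
  rw [key, key]
  have h2 : B (X v) = X (B v) := by
    have := congrArg (fun T : K →L[ℂ] K => T v) hBX.eq
    exact this
  rw [h2, ← mul_pow]
  exact pow_le_pow_left₀ (norm_nonneg _) (X.le_opNorm _) 2

end Pos

theorem r : S_red := by
  intro H _ _ _ N M ξ U J E hI
  have hM : IsModular M ξ U := hI.modular
  -- membership in `N` by commutation
  have hNc : ∀ x : H →L[ℂ] H, (∀ y ∈ N.commutant, y * x = x * y) → x ∈ N := by
    intro x hx
    rw [← VonNeumannAlgebra.commutant_commutant N, VonNeumannAlgebra.mem_commutant_iff]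
    exact hx
  have hNc' : ∀ x ∈ N, ∀ y ∈ N.commutant, x * y = y * x := by
    intro x hx y hy
    exact VonNeumannAlgebra.mem_commutant_iff.1 hy x hx
  have hNstar : ∀ x ∈ N, star x ∈ N := fun x hx => star_mem hx
  have hN'star : ∀ x ∈ N.commutant, star x ∈ N.commutant := fun x hx => star_mem hx
  have hN'mul : ∀ x ∈ N.commutant, ∀ y ∈ N.commutant, x * y ∈ N.commutant :=
    fun x hx y hy => mul_mem hx hy
  -- the subspace
  let S : Submodule ℂ H :=
    { carrier := {v | ∃ x : H →L[ℂ] H, x ∈ N ∧ x ξ = v}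
      add_mem' := by
        rintro v w ⟨x, hx, rfl⟩ ⟨y, hy, rfl⟩
        exact ⟨x + y, add_mem hx hy, rfl⟩
      zero_mem' := ⟨0, zero_mem N, rfl⟩
      smul_mem' := by
        rintro c v ⟨x, hx, rfl⟩
        exact ⟨c • x, N.toStarSubalgebra.smul_mem hx c, rfl⟩ }
  let K : Submodule ℂ H := S.topologicalClosure
  have hKcl : IsClosed (K : Set H) := S.isClosed_topologicalClosure
  have : CompleteSpace K := hKcl.completeSpace_coe
  have hSK : ∀ x ∈ N, x ξ ∈ K := fun x hx => S.le_topologicalClosure ⟨x, hx, rfl⟩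
  have hξK : ξ ∈ K := by
    have := hSK 1 (one_mem N)
    simpa using this
  -- operators mapping `S` into `K` map `K` into `K`
  have hmap : ∀ T : H →L[ℂ] H, (∀ x ∈ N, T (x ξ) ∈ K) → ∀ v ∈ K, T v ∈ K := by
    intro T hT v hv
    have hv' : v ∈ closure (S : Set H) := hv
    have h1 : Set.MapsTo T (S : Set H) (K : Set H) := by
      rintro w ⟨x, hx, rfl⟩
      exact hT x hx
    have h2 := h1.closure T.continuous
    rw [hKcl.closure_eq] at h2
    exact h2 hv'
  have hNK : ∀ y ∈ N, ∀ v ∈ K, y v ∈ K := by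
    intro y hy
    apply hmap
    intro x hx
    exact hSK (y * x) (mul_mem hy hx)
  have hUK : ∀ t : ℝ, ∀ v ∈ K, U t v ∈ K := by
    intro t
    apply hmap
    intro x hx
    have h1 : U t (x ξ) = sgm U t x ξ := by
      have h2 : star (U t) ξ = ξ := by rw [hM.star_eq, hM.fix]
      change U t (x ξ) = U t (x (star (U t) ξ))
      rw [h2]
    rw [h1]
    exact hSK _ (hI.mod t x hx)
  -- `ξ` is cyclic for `N'`
  let S' : Submodule ℂ H :=
    { carrier := {v | ∃ y : H →L[ℂ] H, y ∈ N.commutant ∧ y ξ = v}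
      add_mem' := by
        rintro v w ⟨x, hx, rfl⟩ ⟨y, hy, rfl⟩
        exact ⟨x + y, add_mem hx hy, rfl⟩
      zero_mem' := ⟨0, zero_mem N.commutant, rfl⟩
      smul_mem' := by
        rintro c v ⟨x, hx, rfl⟩
        exact ⟨c • x, N.commutant.toStarSubalgebra.smul_mem hx c, rfl⟩ }
  have hdense : Dense (S' : Set H) := by
    set K' : Submodule ℂ H := S'.topologicalClosure with hK'
    have hK'cl : IsClosed (K' : Set H) := S'.isClosed_topologicalClosure
    have : CompleteSpace K' := hK'cl.completeSpace_coe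
    have hyK' : ∀ y ∈ N.commutant, ∀ v ∈ K', y v ∈ K' := by
      intro y hy v hv
      have hv' : v ∈ closure (S' : Set H) := hv
      have h1 : Set.MapsTo y (S' : Set H) (K' : Set H) := by
        rintro w ⟨x, hx, rfl⟩
        exact S'.le_topologicalClosure ⟨y * x, hN'mul y hy x hx, rfl⟩
      have h2 := h1.closure y.continuous
      rw [hK'cl.closure_eq] at h2
      exact h2 hv'
    have hq : K'.starProjection ∈ N := by
      apply hNc
      intro y hy
      have h3 : ∀ z ∈ N.commutant, K'.starProjection * z * K'.starProjection = z * K'.starProjection := by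
        intro z hz
        ext v
        change K'.starProjection (z (K'.starProjection v)) = z (K'.starProjection v)
        rw [Submodule.starProjection_eq_self_iff]
        exact hyK' z hz _ (Submodule.starProjection_apply_mem K' v)
      have hsa : star K'.starProjection = K'.starProjection :=
        (isSelfAdjoint_starProjection K').star_eq
      have h4 := h3 y hy
      have h5 := congrArg star (h3 (star y) (hN'star y hy))
      rw [star_mul, star_mul, star_mul, star_star, hsa] at h5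
      exact (h4.symm.trans (mul_assoc _ _ _)).trans h5
    have hqξ : (1 - K'.starProjection) ξ = 0 := by
      have h6 : ξ ∈ K' := S'.le_topologicalClosure ⟨1, one_mem N.commutant, rfl⟩
      have h7 : K'.starProjection ξ = ξ := Submodule.starProjection_eq_self_iff.2 h6
      rw [sub_apply, h7]
      simp
    have h8 : (1 - K'.starProjection : H →L[ℂ] H) = 0 :=
      hI.sep _ (hI.le _ (sub_mem (one_mem N) hq)) hqξ
    have h9 : K' = ⊤ := by
      rw [eq_top_iff]
      intro v _
      have h10 := congrArg (fun T : H →L[ℂ] H => T v) h8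
      have h11 : K'.starProjection v = v := by
        have h12 : v - K'.starProjection v = 0 := h10
        exact (sub_eq_zero.1 h12).symm
      rw [← h11]
      exact Submodule.starProjection_apply_mem K' v
    rw [dense_iff_closure_eq]
    have h13 : closure (S' : Set H) = (K' : Set H) := rfl
    rw [h13, h9]
    rfl
  -- the compression
  have hρmul : ∀ x ∈ N, ∀ y ∈ N.commutant, rh K y * rh K x = rh K x * rh K y := by
    intro x hx y hy
    have h1 : rh K y * rh K x = rh K (y * x) := rh_mul K (hNK x hx)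
    have h2 : rh K x * rh K y = rh K (x * y) := rh_mul' K (hNK _ (hNstar x hx))
    rw [h1, h2, hNc' x hx y hy]
  let N₁ : VonNeumannAlgebra K :=
    { __ := StarSubalgebra.centralizer ℂ {T : K →L[ℂ] K | ∃ y ∈ N.commutant, T = rh K y}
      centralizer_centralizer' := Set.centralizer_centralizer_centralizer _ }
  have hN₁ : ∀ T : K →L[ℂ] K, T ∈ N₁ ↔ ∀ y ∈ N.commutant, rh K y * T = T * rh K y := by
    intro T
    have h0 : T ∈ N₁ ↔ T ∈ StarSubalgebra.centralizer ℂ {T : K →L[ℂ] K | ∃ y ∈ N.commutant, T = rh K y} :=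
      Iff.rfl
    rw [h0, StarSubalgebra.mem_centralizer_iff]
    constructor
    · intro h y hy
      exact (h _ ⟨y, hy, rfl⟩).1
    · rintro h _ ⟨y, hy, rfl⟩
      refine ⟨h y hy, ?_⟩
      rw [star_rh]
      exact h _ (hN'star y hy)
  -- the bound
  have hbound : ∀ T ∈ N₁, ∀ y ∈ N.commutant, ‖y ((T ⟨ξ, hξK⟩ : K) : H)‖ ≤ ‖T‖ * ‖y ξ‖ := by
    intro T hT y hy
    set B : K →L[ℂ] H := y ∘L K.subtypeL with hB
    have h1 : rh K (star y * y) = ContinuousLinearMap.adjoint B ∘L B := by
      rw [hB, ContinuousLinearMap.adjoint_comp]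
      rfl
    have hpos : 0 ≤ rh K (star y * y) := by
      rw [h1, ContinuousLinearMap.nonneg_iff_isPositive]
      exact ContinuousLinearMap.isPositive_adjoint_comp_self B
    have hcomm : Commute (rh K (star y * y)) T :=
      (hN₁ T).1 hT _ (hN'mul _ (hN'star y hy) _ hy)
    have h2 := comm_pos hpos hcomm ⟨ξ, hξK⟩
    have h3 : ∀ w : K, (⟪w, rh K (star y * y) w⟫_ℂ).re = ‖y (w : H)‖ ^ 2 := by
      intro w
      rw [inner_rh]
      have h4 : (star y * y) (w : H) = star y (y w) := rfl
      rw [h4, ContinuousLinearMap.star_eq_adjoint, ContinuousLinearMap.adjoint_inner_right,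
        inner_self_eq_norm_sq_to_K]
      norm_cast
    rw [h3, h3, ← mul_pow] at h2
    exact le_of_sq_le_sq h2 (by positivity)
  -- extension by density
  let e : N.commutant.toStarSubalgebra →ₗ[ℂ] H :=
    { toFun := fun y => (y : H →L[ℂ] H) ξ
      map_add' := fun x y => rfl
      map_smul' := fun c y => rfl }
  have hed : DenseRange e := by
    have h1 : Set.range e = (S' : Set H) := by
      ext v
      constructor
      · rintro ⟨y, rfl⟩
        exact ⟨y, y.2, rfl⟩
      · rintro ⟨y, hy, rfl⟩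
        exact ⟨⟨y, hy⟩, rfl⟩
    unfold DenseRange
    rw [h1]
    exact hdense
  set ξ₁ : K := ⟨ξ, hξK⟩ with hξ₁
  have hext : ∀ T ∈ N₁, ∃ x : H →L[ℂ] H, x ∈ N ∧ rh K x = T := by
    intro T hT
    let f : N.commutant.toStarSubalgebra →ₗ[ℂ] H :=
      { toFun := fun y => (y : H →L[ℂ] H) ((T ξ₁ : K) : H)
        map_add' := fun x y => rfl
        map_smul' := fun c y => rfl }
    have hb : ∃ C : ℝ, ∀ y, ‖f y‖ ≤ C * ‖e y‖ := ⟨‖T‖, fun y => hbound T hT y y.2⟩
    let X : H →L[ℂ] H := f.extendOfNorm e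
    have hX : ∀ y ∈ N.commutant, X (y ξ) = y ((T ξ₁ : K) : H) := fun y hy =>
      LinearMap.extendOfNorm_eq hed hb ⟨y, hy⟩
    have hXN : X ∈ N := by
      apply hNc
      intro y hy
      have h1 : (fun v => (y * X) v) = (fun v => (X * y) v) := by
        refine hed.equalizer (y * X).continuous (X * y).continuous ?_
        funext z
        have h2 : (X * y) (e z) = X ((y * (z : H →L[ℂ] H)) ξ) := rfl
        have h3 : (y * X) (e z) = y (X ((z : H →L[ℂ] H) ξ)) := rfl
        change (y * X) (e z) = (X * y) (e z)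
        rw [h2, h3, hX _ z.2, hX _ (hN'mul y hy _ z.2)]
        rfl
      ext v
      exact congrFun h1 v
    refine ⟨X, hXN, ?_⟩
    let P : H →L[ℂ] K := ContinuousLinearMap.adjoint K.subtypeL
    have h1 : (fun v => (T ∘L P) v) = (fun v => (P ∘L X) v) := by
      refine hed.equalizer (T ∘L P).continuous (P ∘L X).continuous ?_
      funext z
      have h2 : (T ∘L P) (e z) = (T * rh K (z : H →L[ℂ] H)) ξ₁ := rfl
      have h3 : (P ∘L X) (e z) = P (X ((z : H →L[ℂ] H) ξ)) := rfl
      change (T ∘L P) (e z) = (P ∘L X) (e z)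
      rw [h2, h3, hX _ z.2, ← (hN₁ T).1 hT _ z.2]
      rfl
    ext v
    have h4 := congrFun h1 (v : H)
    have h5 : (T ∘L P) (v : H) = T v := by
      change T (P (v : H)) = T v
      rw [adj_coe]
    have h6 : (P ∘L X) (v : H) = rh K X v := rfl
    have h7 : T v = rh K X v := by
      rw [← h5, ← h6]
      exact h4
    rw [h7]
  have hrhN : ∀ x ∈ N, rh K x ∈ N₁ := fun x hx => (hN₁ _).2 (fun y hy => hρmul x hx y hy)
  have hU₁ : ∀ t : ℝ, ∀ a ∈ N, sgm (fun t => rh K (U t)) t (rh K a) = rh K (sgm U t a) := by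
    intro t a ha
    change rh K (U t) * rh K a * star (rh K (U t)) = rh K (U t * a * star (U t))
    have hsU : ∀ v ∈ K, star (U t) v ∈ K := by
      intro v hv
      rw [hM.star_eq]
      exact hUK _ v hv
    rw [star_rh, rh_mul K (hNK a ha), rh_mul K hsU]
  have hvst : ∀ x : H →L[ℂ] H, vst ξ₁ (rh K x) = vst ξ x := fun x => inner_rh K x ξ₁ ξ₁
  refine ⟨K, inferInstance, inferInstance, inferInstance, N₁, ξ₁, fun t => rh K (U t),
    K.subtypeₗᵢ, rh K, rfl, ?_, ?_, ?_, ?_, ?_, ?_⟩
  · intro t v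
    exact rh_apply K (hUK t) v
  · intro x hx
    refine ⟨hrhN x hx, le_antisymm (norm_rh_le K x (hNK x hx)) ?_, fun v => rh_apply K (hNK x hx) v⟩
    refine ContinuousLinearMap.opNorm_le_bound _ (norm_nonneg _) (fun v => ?_)
    refine hed.induction_on (p := fun v => ‖x v‖ ≤ ‖rh K x‖ * ‖v‖) v
      (isClosed_le (by fun_prop) (by fun_prop)) ?_
    intro z
    have h1 := hbound (rh K x) (hrhN x hx) z z.2
    rw [rh_apply K (hNK x hx)] at h1
    have h2 : x (e z) = (z : H →L[ℂ] H) (x ξ) := by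
      have h3 := congrArg (fun T : H →L[ℂ] H => T ξ) (hNc' x hx z z.2)
      exact h3
    rw [h2]
    exact h1
  · intro T hT
    exact hext T hT
  · refine ⟨?_, ?_, ?_, ?_, ?_, ?_, ?_⟩
    · change rh K (U 0) = 1
      rw [hM.zero, rh_one]
    · intro s t
      change rh K (U (s + t)) = rh K (U s) * rh K (U t)
      rw [hM.add, rh_mul K (hUK t)]
    · intro t
      change star (rh K (U t)) = rh K (U (-t))
      rw [star_rh, hM.star_eq]
    · intro v
      have h1 : (fun t : ℝ => rh K (U t) v) = fun t : ℝ => ContinuousLinearMap.adjoint K.subtypeL (U t v) := rfl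
      rw [h1]
      exact (ContinuousLinearMap.adjoint K.subtypeL).continuous.comp (hM.cont v)
    · intro t
      apply Subtype.ext
      rw [rh_apply K (hUK t)]
      exact hM.fix t
    · intro t T hT
      obtain ⟨x, hx, rfl⟩ := hext T hT
      rw [hU₁ t x hx]
      exact hrhN _ (hI.mod t x hx)
    · intro a₁ b₁ ha₁ hb₁
      obtain ⟨a, ha, rfl⟩ := hext a₁ ha₁
      obtain ⟨b, hb, rfl⟩ := hext b₁ hb₁
      obtain ⟨F, h1, h2, h3, h4⟩ := hM.kms a b (hI.le a ha) (hI.le b hb)
      refine ⟨F, h1, h2, h3, fun t => ?_⟩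
      have h5 := h4 t
      rw [hU₁ t a ha, rh_mul K (hNK b hb), rh_mul K (hNK _ (hI.mod t a ha)), hvst, hvst]
      exact h5
  · intro v
    rw [closure_subtype]
    have hv : (v : H) ∈ closure (S : Set H) := v.2
    refine closure_mono ?_ hv
    rintro w ⟨x, hx, rfl⟩
    exact ⟨rh K x ξ₁, ⟨rh K x, hrhN x hx, rfl⟩, rh_apply K (hNK x hx) ξ₁⟩
  · intro T hT h0
    obtain ⟨x, hx, rfl⟩ := hext T hT
    have h1 : x ξ = 0 := by
      have h2 := rh_apply K (hNK x hx) ξ₁
      rw [h0] at h2
      exact h2.symm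
    have h3 := hI.sep x (hI.le x hx) h1
    rw [h3]
    ext v
    rw [rh_apply K (fun v _ => K.zero_mem)]
    rfl

end Pool.Agent.H255.BC.R_red
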