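import Pool.Agent.H255.BC.Defs2

set_option autoImplicit false

open MeasureTheory Filter Topology Complex
open scoped InnerProductSpace ENNReal FourierTransform

namespace Pool.Agent.H255.BC.R_slbeta

open Pool.Agent.W662.CB Pool.Agent.H255.BC

section aux

variable {H : Type} [NormedAddCommGroup H] [InnerProductSpace ℂ H] [CompleteSpace H]

lemma ulam_unique {lam : ℝ} {S S' : LR H →L[ℂ] LR H} (h : IsULam lam S) (h' : IsULam lam S') :
    S = S' := by
  refine ContinuousLinearMap.ext fun f => Lp.ext ?_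
  exact (h f).trans (h' f).symm

lemma ulam_const {lam : ℝ} {S K : LR H →L[ℂ] LR H} {y : H →L[ℂ] H} (hS : IsULam lam S)
    (hK : IsConst y K) : S * K = K * S := by
  refine ContinuousLinearMap.ext fun f => Lp.ext ?_
  have a1 := hS (K f)
  have a2 := hK f
  have a3 := hK (S f)
  have a4 := hS f
  filter_upwards [a1, a2, a3, a4] with s b1 b2 b3 b4
  rw [mul_apply_eq_comp, mul_apply_eq_comp, b1, b2, b3, b4, map_smul]

lemma ulam_sig {U : ℝ → H →L[ℂ] H} {lam : ℝ} {S K : LR H →L[ℂ] LR H} {y : H →L[ℂ] H}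
    (hS : IsULam lam S) (hK : IsSig U y K) : S * K = K * S := by
  refine ContinuousLinearMap.ext fun f => Lp.ext ?_
  have a1 := hS (K f)
  have a2 := hK f
  have a3 := hK (S f)
  have a4 := hS f
  filter_upwards [a1, a2, a3, a4] with s b1 b2 b3 b4
  rw [mul_apply_eq_comp, mul_apply_eq_comp, b1, b2, b3, b4, map_smul]

lemma ten_const {g : ℝ → ℂ} {Tg : H →L[ℂ] LR H} {K : LR H →L[ℂ] LR H} {y : H →L[ℂ] H}
    (hg : IsTen g Tg) (hK : IsConst y K) (v : H) : Tg (y v) = K (Tg v) := by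
  refine Lp.ext ?_
  filter_upwards [hg (y v), hK (Tg v), hg v] with s b1 b2 b3
  rw [b1, b2, b3, map_smul]

lemma adj_const {f : ℝ → ℂ} {Tf : H →L[ℂ] LR H} {K : LR H →L[ℂ] LR H} {y : H →L[ℂ] H}
    (hf : IsTen f Tf) (hK : IsConst (star y) (star K)) (F : LR H) :
    ContinuousLinearMap.adjoint Tf (K F) = y (ContinuousLinearMap.adjoint Tf F) := by
  refine ext_inner_left ℂ fun w => ?_
  rw [ContinuousLinearMap.adjoint_inner_right, ← ContinuousLinearMap.adjoint_inner_left K,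
    ← ContinuousLinearMap.adjoint_inner_left y, ContinuousLinearMap.adjoint_inner_right]
  have := ten_const hf hK w
  rw [ContinuousLinearMap.star_eq_adjoint, ContinuousLinearMap.star_eq_adjoint] at this
  rw [this]

lemma norm_sq_L2 (G : LR H) : ‖G‖ ^ 2 = ∫ s : ℝ, ‖G s‖ ^ 2 := by
  have h := L2.inner_def (𝕜 := ℂ) G G
  rw [inner_self_eq_norm_sq_to_K] at h
  simp_rw [inner_self_eq_norm_sq_to_K] at h
  have h2 : ((‖G‖ ^ 2 : ℝ) : ℂ) = ∫ s : ℝ, ((‖G s‖ ^ 2 : ℝ) : ℂ) := by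
    push_cast
    exact h
  have h3 : ((‖G‖ ^ 2 : ℝ) : ℂ) = ((∫ s : ℝ, ‖G s‖ ^ 2 : ℝ) : ℂ) :=
    h2.trans (integral_ofReal (𝕜 := ℂ))
  exact Complex.ofReal_injective h3

/-- dominated convergence in `L²(ℝ; H)` -/
lemma domconv (G : ℕ → LR H) (F : LR H) (h1 : ∀ k, ∀ᵐ s : ℝ, ‖G k s‖ ≤ 2 * ‖F s‖)
    (h2 : ∀ᵐ s : ℝ, Tendsto (fun k => G k s) atTop (𝓝 0)) : Tendsto G atTop (𝓝 0) := by
  have hF : Integrable (fun s : ℝ => ‖F s‖ ^ 2) :=
    (memLp_two_iff_integrable_sq_norm (Lp.aestronglyMeasurable F)).1 (Lp.memLp F)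
  have h3 : Tendsto (fun k => ∫ s : ℝ, ‖G k s‖ ^ 2) atTop (𝓝 (∫ s : ℝ, (0 : ℝ))) := by
    refine tendsto_integral_of_dominated_convergence (fun s => 4 * ‖F s‖ ^ 2) ?_ ?_ ?_ ?_
    · intro k
      exact (Lp.aestronglyMeasurable (G k)).norm.pow 2
    · exact hF.const_mul 4
    · intro k
      filter_upwards [h1 k] with s hs
      rw [Real.norm_of_nonneg (by positivity)]
      nlinarith [norm_nonneg (G k s), norm_nonneg (F s)]
    · filter_upwards [h2] with s hs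
      have := (hs.norm).pow 2
      simpa using this
  rw [integral_zero] at h3
  have h4 : Tendsto (fun k => ‖G k‖ ^ 2) atTop (𝓝 0) := by
    refine h3.congr fun k => (norm_sq_L2 (G k)).symm
  have h5 : Tendsto (fun k => ‖G k‖) atTop (𝓝 0) := by
    have := (Real.continuous_sqrt.tendsto 0).comp h4
    rw [Real.sqrt_zero] at this
    refine this.congr fun k => ?_
    simp only [Function.comp]
    exact Real.sqrt_sq (norm_nonneg _)
  exact tendsto_zero_iff_norm_tendsto_zero.2 h5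

lemma J_norm {M : VonNeumannAlgebra H} {ξ : H} {U : ℝ → H →L[ℂ] H} {J : H → H}
    (hJ : IsConj M ξ U J) (v : H) : ‖J v‖ = ‖v‖ := by
  have h := hJ.inner v v
  rw [inner_self_eq_norm_sq_to_K, inner_self_eq_norm_sq_to_K] at h
  have h2 : ‖J v‖ ^ 2 = ‖v‖ ^ 2 := by exact_mod_cast h
  nlinarith [norm_nonneg (J v), norm_nonneg v, sq_nonneg (‖J v‖ - ‖v‖), sq_nonneg (‖J v‖ + ‖v‖)]

lemma R_smul {M : VonNeumannAlgebra H} {ξ : H} {U : ℝ → H →L[ℂ] H} {J : H → H}
    (hJ : IsConj M ξ U J) (y : H →L[ℂ] H) (c : ℂ) (v : H) :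
    J (y (J (c • v))) = c • J (y (J v)) := by
  rw [hJ.smul, map_smul, hJ.smul, Complex.conj_conj]

lemma R_sub {M : VonNeumannAlgebra H} {ξ : H} {U : ℝ → H →L[ℂ] H} {J : H → H}
    (hJ : IsConj M ξ U J) (y : H →L[ℂ] H) (v w : H) :
    J (y (J (v - w))) = J (y (J v)) - J (y (J w)) := by
  have e1 : v - w = v + (-1 : ℂ) • w := by rw [neg_one_smul, sub_eq_add_neg]
  rw [e1, hJ.add, map_add, hJ.add, R_smul hJ, neg_one_smul, sub_eq_add_neg]

/-- the sets `J M ξ` is dense -/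
lemma J_dense {M : VonNeumannAlgebra H} {ξ : H} {U : ℝ → H →L[ℂ] H} {J : H → H}
    (hJ : IsConj M ξ U J) (hc : IsCyclic M ξ) (w : H) (ε : ℝ) (hε : 0 < ε) :
    ∃ y : H →L[ℂ] H, y ∈ M ∧ ‖w - J (y ξ)‖ < ε := by
  obtain ⟨v, ⟨y, hy, hyv⟩, hv⟩ := Metric.mem_closure_iff.1 (hc (J w)) ε hε
  refine ⟨y, hy, ?_⟩
  rw [dist_eq_norm, ← hyv] at hv
  have h1 : J (J w - y ξ) = w - J (y ξ) := by
    have e1 : J w - y ξ = J w + (-1 : ℂ) • y ξ := by rw [neg_one_smul, sub_eq_add_neg]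
    rw [e1, hJ.add, hJ.inv, hJ.smul, map_neg, map_one, neg_one_smul, sub_eq_add_neg]
  rw [← h1, J_norm hJ]
  exact hv

lemma iso_norm (v : H →L[ℂ] H) (hv : star v * v = 1) (w : H) : ‖v w‖ = ‖w‖ := by
  have h : ⟪v w, v w⟫_ℂ = ⟪w, w⟫_ℂ := by
    rw [← ContinuousLinearMap.adjoint_inner_right, ← ContinuousLinearMap.star_eq_adjoint,
      ← mul_apply_eq_comp, hv, one_apply_eq_self]
  rw [inner_self_eq_norm_sq_to_K, inner_self_eq_norm_sq_to_K] at h
  have h2 : ‖v w‖ ^ 2 = ‖w‖ ^ 2 := by exact_mod_cast h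
  exact (sq_eq_sq₀ (norm_nonneg _) (norm_nonneg _)).1 h2

lemma iso_opnorm (v : H →L[ℂ] H) (hv : star v * v = 1) : ‖v‖ ≤ 1 :=
  ContinuousLinearMap.opNorm_le_bound _ zero_le_one fun w => by rw [iso_norm v hv w, one_mul]

lemma star_opnorm (v : H →L[ℂ] H) (hv : star v * v = 1) (w : H) : ‖star v w‖ ≤ ‖w‖ := by
  have h1 : ‖star v‖ ≤ 1 := by
    rw [norm_star]; exact iso_opnorm v hv
  calc ‖star v w‖ ≤ ‖star v‖ * ‖w‖ := (star v).le_opNorm w
    _ ≤ 1 * ‖w‖ := by gcongr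
    _ = ‖w‖ := one_mul _

lemma U_norm {M : VonNeumannAlgebra H} {ξ : H} {U : ℝ → H →L[ℂ] H} (hU : IsModular M ξ U)
    (t : ℝ) (w : H) : ‖U t w‖ = ‖w‖ := by
  apply iso_norm
  rw [hU.star_eq, ← hU.add, neg_add_cancel, hU.zero]

lemma sgm_norm_le {M : VonNeumannAlgebra H} {ξ : H} {U : ℝ → H →L[ℂ] H} (hU : IsModular M ξ U)
    (t : ℝ) (v : H →L[ℂ] H) (hv : star v * v = 1) (w : H) : ‖sgm U t v w‖ = ‖w‖ := by
  rw [sgm, mul_apply_eq_comp, mul_apply_eq_comp, U_norm hU, iso_norm v hv, hU.star_eq, U_norm hU]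

lemma sgm_xi {M : VonNeumannAlgebra H} {ξ : H} {U : ℝ → H →L[ℂ] H} (hU : IsModular M ξ U)
    (t : ℝ) (v : H →L[ℂ] H) : sgm U t v ξ = U t (v ξ) := by
  rw [sgm, mul_apply_eq_comp, mul_apply_eq_comp, hU.star_eq, hU.fix]

/-- lemma A: `σ_{-s}(v_k) w - e^{-is log t} v_k w → 0` -/
lemma lemA (h2 : S_near) {M : VonNeumannAlgebra H} {ξ : H} {U : ℝ → H →L[ℂ] H} {J : H → H}
    (hU : IsModular M ξ U) (hJ : IsConj M ξ U J) (hc : IsCyclic M ξ) (t : ℝ) (ht : 0 < t)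
    (v : ℕ → H →L[ℂ] H) (hv : ∀ k, v k ∈ M) (hvi : ∀ k, star (v k) * v k = 1)
    (hve : Tendsto (fun k => J (star (v k) ξ) - ((Real.sqrt t : ℝ) : ℂ) • v k ξ) atTop (𝓝 0))
    (s : ℝ) (w : H) :
    Tendsto (fun k => sgm U (-s) (v k) w - v k (cexp (-(I * ((s * Real.log t : ℝ) : ℂ))) • w))
      atTop (𝓝 0) := by
  have hκ : cexp (((Real.log t : ℝ) : ℂ) / 2) = ((Real.sqrt t : ℝ) : ℂ) := by
    have e1 : ((Real.log t : ℝ) : ℂ) / 2 = ((Real.log t / 2 : ℝ) : ℂ) := by push_cast; ring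
    rw [e1, ← Complex.ofReal_exp]
    congr 1
    rw [Real.sqrt_eq_rpow, Real.rpow_def_of_pos ht]
    congr 1
    ring
  have hn := (h2 H M ξ U J hU hJ v (Real.log t) hv ⟨‖ξ‖, fun k => (iso_norm _ (hvi k) ξ).le⟩
    (by rw [hκ]; exact hve)).1 (-s)
  set c : ℂ := cexp (-(I * ((s * Real.log t : ℝ) : ℂ))) with hc_def
  have hcn : ‖c‖ = 1 := by
    rw [hc_def, Complex.norm_exp]
    simp
  have hce : cexp (I * ((-s * Real.log t : ℝ) : ℂ)) = c := by
    rw [hc_def]; congr 1; push_cast; ring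
  rw [hce] at hn
  rw [Metric.tendsto_atTop]
  intro ε hε
  obtain ⟨y, hy, hyw⟩ := J_dense hJ hc w (ε / 4) (by positivity)
  -- the dense vector
  have hn2 : Tendsto (fun k => ‖y‖ * ‖U (-s) (v k ξ) - c • v k ξ‖) atTop (𝓝 0) := by
    have := hn.norm.const_mul ‖y‖
    simpa using this
  obtain ⟨k₀, hk₀⟩ := Metric.tendsto_atTop.1 hn2 (ε / 4) (by positivity)
  refine ⟨k₀, fun k hk => ?_⟩
  rw [dist_zero_right]
  have h4 := hk₀ k hk
  rw [Real.dist_eq, sub_zero, abs_of_nonneg (by positivity)] at h4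
  have e1 : sgm U (-s) (v k) (J (y ξ)) = J (y (J (sgm U (-s) (v k) ξ))) := by
    have := hJ.comm (sgm U (-s) (v k)) y (hU.mem (-s) _ (hv k)) hy ξ
    rwa [hJ.fix] at this
  have e2 : v k (J (y ξ)) = J (y (J (v k ξ))) := by
    have := hJ.comm (v k) y (hv k) hy ξ
    rwa [hJ.fix] at this
  have h5 : ‖sgm U (-s) (v k) (J (y ξ)) - v k (c • J (y ξ))‖ < ε / 4 := by
    rw [map_smul, e1, e2, ← R_smul hJ, ← R_sub hJ, J_norm hJ, sgm_xi hU]
    calc ‖y (J (U (-s) (v k ξ) - c • v k ξ))‖ ≤ ‖y‖ * ‖J (U (-s) (v k ξ) - c • v k ξ)‖ :=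
          y.le_opNorm _
      _ = ‖y‖ * ‖U (-s) (v k ξ) - c • v k ξ‖ := by rw [J_norm hJ]
      _ < ε / 4 := h4
  have h6 : ‖sgm U (-s) (v k) (w - J (y ξ)) - v k (c • (w - J (y ξ)))‖ ≤ 2 * ‖w - J (y ξ)‖ := by
    refine (norm_sub_le _ _).trans ?_
    rw [sgm_norm_le hU _ _ (hvi k), iso_norm _ (hvi k), norm_smul, hcn]
    linarith
  have h7 : sgm U (-s) (v k) w - v k (c • w) =
      (sgm U (-s) (v k) (w - J (y ξ)) - v k (c • (w - J (y ξ)))) +
        (sgm U (-s) (v k) (J (y ξ)) - v k (c • J (y ξ))) := by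
    rw [smul_sub, map_sub, map_sub]
    abel
  rw [h7]
  calc _ ≤ _ + _ := norm_add_le _ _
    _ < ε := by linarith

/-- lemma B: `(π_σ(v_k) - κ(v_k) u_t) F → 0` -/
lemma lemB (h2 : S_near) {M : VonNeumannAlgebra H} {ξ : H} {U : ℝ → H →L[ℂ] H} {J : H → H}
    (hU : IsModular M ξ U) (hJ : IsConj M ξ U J) (hc : IsCyclic M ξ) (t : ℝ) (ht : 0 < t)
    (v : ℕ → H →L[ℂ] H) (hv : ∀ k, v k ∈ M) (hvi : ∀ k, star (v k) * v k = 1)
    (hve : Tendsto (fun k => J (star (v k) ξ) - ((Real.sqrt t : ℝ) : ℂ) • v k ξ) atTop (𝓝 0))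
    (S : LR H →L[ℂ] LR H) (hS : IsULam t S) (P K : ℕ → LR H →L[ℂ] LR H)
    (hP : ∀ k, IsSig U (v k) (P k)) (hK : ∀ k, IsConst (v k) (K k)) (F : LR H) :
    Tendsto (fun k => P k F - K k (S F)) atTop (𝓝 0) := by
  have key : ∀ k, ∀ᵐ s : ℝ, (P k F - K k (S F) : LR H) s =
      sgm U (-s) (v k) (F s) - v k (cexp (-(I * ((s * Real.log t : ℝ) : ℂ))) • F s) := by
    intro k
    filter_upwards [Lp.coeFn_sub (P k F) (K k (S F)), hP k F, hK k (S F), hS F] with s b1 b2 b3 b4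
    rw [b1, Pi.sub_apply, b2, b3, b4]
  refine domconv _ F ?_ ?_
  · intro k
    filter_upwards [key k] with s hs
    rw [hs]
    refine (norm_sub_le _ _).trans ?_
    rw [sgm_norm_le hU _ _ (hvi k), iso_norm _ (hvi k), norm_smul, Complex.norm_exp]
    simp
    linarith
  · filter_upwards [ae_all_iff.2 key] with s hs
    refine (lemA h2 hU hJ hc t ht v hv hvi hve s (F s)).congr fun k => (hs k).symm

/-- the case `0 < t < 1` -/
lemma caseLt (h1 : S_slice) (h2 : S_near) (h3 : S_ops) (h4 : S_betaQ) 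
    (N M : VonNeumannAlgebra H) (ξ : H) (U : ℝ → H →L[ℂ] H) (J : H → H)
    (E : (H →L[ℂ] H) → (H →L[ℂ] H)) (β : ℝ → (H →L[ℂ] H) → (H →L[ℂ] H)) (hI : Inc2 N M ξ U J E)
    (hβ : IsBicFlow N M ξ β) (Y : LR H →L[ℂ] LR H) (hY : Y ∈ Amp M)
    (hYN : ∀ x : H →L[ℂ] H, x ∈ N → ∀ S : LR H →L[ℂ] LR H, IsSig U x S → Y * S = S * Y)
    (f g : ℝ → ℂ) (Tf Tg : H →L[ℂ] LR H) (hf2 : MemLp f 2 (volume : Measure ℝ))
    (hg2 : MemLp g 2 (volume : Measure ℝ)) (hf : IsTen f Tf) (hg : IsTen g Tg)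
    (t : ℝ) (ht : 0 < t) (ht1 : t < 1) (S : LR H →L[ℂ] LR H) (hS : IsULam t S)
    (hSu : S * star S = 1)
    (hY' : (S * Y * star S) ∈ Amp M ∧ ∀ x : H →L[ℂ] H, x ∈ N → ∀ R : LR H →L[ℂ] LR H,
      IsSig U x R → (S * Y * star S) * R = R * (S * Y * star S)) :
    β t (ContinuousLinearMap.adjoint Tf ∘L Y ∘L Tg) =
      ContinuousLinearMap.adjoint Tf ∘L (S * Y * star S) ∘L Tg := by
  have hU := hI.modular
  have hJ := hI.conj
  -- the isometries
  choose v hv using fun k : ℕ => hI.scal t (1 / ((k : ℝ) + 1)) ht ht1 (by positivity)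
  have hvN : ∀ k, v k ∈ N := fun k => (hv k).1
  have hvM : ∀ k, v k ∈ M := fun k => hI.le _ (hvN k)
  have hvi : ∀ k, star (v k) * v k = 1 := fun k => (hv k).2.1
  have hve : Tendsto (fun k => J (star (v k) ξ) - ((Real.sqrt t : ℝ) : ℂ) • v k ξ) atTop (𝓝 0) := by
    refine squeeze_zero_norm (fun k => (hv k).2.2) ?_
    exact tendsto_one_div_add_atTop_nhds_zero_nat
  obtain ⟨_, hops2, hops3, _, _, _⟩ := h3 H M ξ U hU
  choose P hP hPn hPs using fun k => hops2 (v k)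
  choose K hK hKn hKs using fun k => hops3 (v k)
  set x : H →L[ℂ] H := ContinuousLinearMap.adjoint Tf ∘L Y ∘L Tg with hx
  set x' : H →L[ℂ] H := ContinuousLinearMap.adjoint Tf ∘L (S * Y * star S) ∘L Tg with hx'
  have hxB : x ∈ relBicentralizer N M ξ :=
    h1 H N M ξ U J E hI.toInc Y hY hYN f g Tf Tg hf2 hg2 hf hg
  have hxB' : x' ∈ relBicentralizer N M ξ :=
    h1 H N M ξ U J E hI.toInc _ hY'.1 hY'.2 f g Tf Tg hf2 hg2 hf hg
  have hB := lemB h2 hU hJ hI.cyc t ht v hvM hvi hve S hS P K hP hK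
  -- `x v_k ξ - v_k x' ξ → 0`
  have hA1 : Tendsto (fun k => x (v k ξ) - v k (x' ξ)) atTop (𝓝 0) := by
    have e1 : ∀ k, x (v k ξ) - v k (x' ξ) =
        ContinuousLinearMap.adjoint Tf (P k (Y (star S (Tg ξ))) - K k (S (Y (star S (Tg ξ))))) -
        ContinuousLinearMap.adjoint Tf (Y (P k (star S (Tg ξ)) - K k (S (star S (Tg ξ))))) := by
      intro k
      have a1 : x (v k ξ) = ContinuousLinearMap.adjoint Tf (Y (K k (Tg ξ))) := by
        rw [hx]
        simp only [ContinuousLinearMap.comp_apply]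
        rw [ten_const hg (hK k)]
      have a2 : v k (x' ξ) = ContinuousLinearMap.adjoint Tf (K k (S (Y (star S (Tg ξ))))) := by
        rw [adj_const hf (hKs k), hx']
        rfl
      have a3 : S (star S (Tg ξ)) = Tg ξ := by
        rw [← mul_apply_eq_comp, hSu, one_apply_eq_self]
      have a4 : P k (Y (star S (Tg ξ))) = Y (P k (star S (Tg ξ))) := by
        have := hYN (v k) (hvN k) (P k) (hP k)
        rw [← mul_apply_eq_comp, ← this, mul_apply_eq_comp]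
      rw [a1, a2, a3, a4]
      simp only [map_sub]
      abel
    simp only [e1]
    have b1 := hB (Y (star S (Tg ξ)))
    have b2 := hB (star S (Tg ξ))
    have c1 := ((ContinuousLinearMap.adjoint Tf).continuous.tendsto 0).comp b1
    have c2 := ((ContinuousLinearMap.adjoint Tf ∘L Y).continuous.tendsto 0).comp b2
    rw [map_zero] at c1 c2
    have := c1.sub c2
    rw [sub_zero] at this
    exact this
  -- hence `v_k^* x v_k ξ → x' ξ`
  have hA2 : Tendsto (fun k => star (v k) (x (v k ξ))) atTop (𝓝 (x' ξ)) := by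
    have e1 : ∀ k, star (v k) (x (v k ξ)) = star (v k) (x (v k ξ) - v k (x' ξ)) + x' ξ := by
      intro k
      rw [map_sub, ← mul_apply_eq_comp (star (v k)) (v k), hvi, one_apply_eq_self, sub_add_cancel]
    simp only [e1]
    have : Tendsto (fun k => star (v k) (x (v k ξ) - v k (x' ξ))) atTop (𝓝 0) := by
      refine squeeze_zero_norm (fun k => star_opnorm _ (hvi k) _) ?_
      have := hA1.norm
      rwa [norm_zero] at this
    have h := this.add_const (x' ξ)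
    rwa [zero_add] at h
  -- the other description of the limit
  have hA3 : Tendsto (fun k => star (v k) (J (star (v k) (J (x ξ))))) atTop
      (𝓝 (((Real.sqrt t : ℝ) : ℂ) • x' ξ)) := by
    have e1 : ∀ k, star (v k) (J (star (v k) (J (x ξ)))) =
        star (v k) (x (J (star (v k) ξ) - ((Real.sqrt t : ℝ) : ℂ) • v k ξ)) +
          ((Real.sqrt t : ℝ) : ℂ) • star (v k) (x (v k ξ)) := by
      intro k
      have := hJ.comm x (star (v k)) hxB.1 (star_mem (hvM k)) ξ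
      rw [hJ.fix] at this
      rw [← this]
      simp only [map_sub, map_smul]
      abel
    simp only [e1]
    have d1 : Tendsto (fun k => star (v k) (x (J (star (v k) ξ) -
        ((Real.sqrt t : ℝ) : ℂ) • v k ξ))) atTop (𝓝 0) := by
      refine squeeze_zero_norm (fun k => star_opnorm _ (hvi k) _) ?_
      have := ((x.continuous.tendsto 0).comp hve).norm
      rwa [map_zero, norm_zero] at this
    have := d1.add (hA2.const_smul ((Real.sqrt t : ℝ) : ℂ))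
    rwa [zero_add] at this
  have hA4 := h4 H N M ξ U J E β hI hβ t v ht ht1 hv x hxB
  have hA5 := tendsto_nhds_unique hA4 hA3
  have hst : ((Real.sqrt t : ℝ) : ℂ) ≠ 0 := by
    rw [Complex.ofReal_ne_zero]; exact (Real.sqrt_pos.2 ht).ne'
  have hA6 : β t x ξ = x' ξ := smul_right_injective _ hst hA5
  have hA7 : β t x - x' = 0 := by
    refine hI.sep _ (sub_mem (hβ.mem t ht x hxB).1 hxB'.1) ?_
    rw [ContinuousLinearMap.sub_apply, hA6, sub_self]
  exact sub_eq_zero.1 hA7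

/-- `S Y S^*` is again affiliated -/
lemma conj_ok {M N : VonNeumannAlgebra H} {ξ : H} {U : ℝ → H →L[ℂ] H} (h3 : S_ops)
    (hU : IsModular M ξ U) {lam : ℝ} {S : LR H →L[ℂ] LR H} (hS : IsULam lam S)
    (hS' : IsULam lam⁻¹ (star S)) {Y : LR H →L[ℂ] LR H} (hY : Y ∈ Amp M)
    (hYN : ∀ x : H →L[ℂ] H, x ∈ N → ∀ S : LR H →L[ℂ] LR H, IsSig U x S → Y * S = S * Y) :
    (S * Y * star S) ∈ Amp M ∧ ∀ x : H →L[ℂ] H, x ∈ N → ∀ R : LR H →L[ℂ] LR H,
      IsSig U x R → (S * Y * star S) * R = R * (S * Y * star S) := by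
  constructor
  · intro y hy K hK
    have a1 := ulam_const hS hK
    have a2 := ulam_const hS' hK
    have a3 := hY y hy K hK
    calc S * Y * star S * K = S * Y * (star S * K) := by rw [mul_assoc]
      _ = S * (Y * K) * star S := by rw [a2]; noncomm_ring
      _ = (S * K) * Y * star S := by rw [a3]; noncomm_ring
      _ = K * (S * Y * star S) := by rw [a1]; noncomm_ring
  · intro x hx K hK
    have a1 := ulam_sig hS hK
    have a2 := ulam_sig hS' hK
    have a3 := hYN x hx K hK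
    calc S * Y * star S * K = S * Y * (star S * K) := by rw [mul_assoc]
      _ = S * (Y * K) * star S := by rw [a2]; noncomm_ring
      _ = (S * K) * Y * star S := by rw [a3]; noncomm_ring
      _ = K * (S * Y * star S) := by rw [a1]; noncomm_ring

end aux

theorem r (h1 : S_slice) (h2 : S_near) (h3 : S_ops) (h4 : S_betaQ) (h5 : S_betaE) : S_slbeta := by
  intro H _ _ _ N M ξ U J E β hI hβ Y hY hYN f g Tf Tg hf2 hg2 hf hg lam hlam S hS
  have hU := hI.modular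
  obtain ⟨_, _, _, _, _, hops⟩ := h3 H M ξ U hU
  obtain ⟨S₀, hS₀, hS₁, hS₂, hS₃⟩ := hops lam hlam
  have hSS : S = S₀ := ulam_unique hS hS₀
  subst hSS
  have hY' := conj_ok (N := N) h3 hU hS hS₃ hY hYN
  rcases lt_trichotomy lam 1 with h | h | h
  · exact caseLt h1 h2 h3 h4 N M ξ U J E β hI hβ Y hY hYN f g Tf Tg hf2 hg2 hf hg lam hlam h S hS
      hS₂ hY'
  · subst h
    have hS1 : S = 1 := by
      refine ContinuousLinearMap.ext fun F => Lp.ext ?_
      filter_upwards [hS F] with s b1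
      rw [b1]
      simp
    have hxB : (ContinuousLinearMap.adjoint Tf ∘L Y ∘L Tg) ∈ relBicentralizer N M ξ :=
      h1 H N M ξ U J E hI.toInc Y hY hYN f g Tf Tg hf2 hg2 hf hg
    rw [hβ.one _ hxB, hS1]
    simp
  · -- `lam > 1`
    have hl1 : lam⁻¹ < 1 := inv_lt_one_of_one_lt₀ h
    have hl0 : 0 < lam⁻¹ := inv_pos.2 hlam
    have hSss : star (star S) = S := star_star S
    have hY'' : (star S * (S * Y * star S) * star (star S)) = Y := by
      rw [hSss]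
      calc star S * (S * Y * star S) * S = (star S * S) * Y * (star S * S) := by noncomm_ring
        _ = Y := by rw [hS₁]; simp
    have hc := caseLt h1 h2 h3 h4 N M ξ U J E β hI hβ (S * Y * star S) hY'.1 hY'.2 f g Tf Tg hf2
      hg2 hf hg lam⁻¹ hl0 hl1 (star S) hS₃ (by rw [hSss]; exact hS₁)
      (by rw [hY'']; exact ⟨hY, hYN⟩)
    rw [hY''] at hc
    have hxB' : (ContinuousLinearMap.adjoint Tf ∘L (S * Y * star S) ∘L Tg) ∈
        relBicentralizer N M ξ :=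
      h1 H N M ξ U J E hI.toInc _ hY'.1 hY'.2 f g Tf Tg hf2 hg2 hf hg
    rw [← hc, ← hβ.comp lam lam⁻¹ hlam hl0 _ hxB', mul_inv_cancel₀ hlam.ne', hβ.one _ hxB']

end Pool.Agent.H255.BC.R_slbeta
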