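import Pool.Agent.H255.BC.R_slicebase

/-!
The slices lie in the bicentralizer (`S_slice`; helper321, stage 2 of the project BC of helper255).
-/

set_option autoImplicit false

open MeasureTheory Filter Topology Complex
open scoped InnerProductSpace ENNReal FourierTransform

namespace Pool.Agent.H321.BC

open Pool.Agent.W662.CB Pool.Agent.H255.BC

section

variable {H : Type} [NormedAddCommGroup H] [InnerProductSpace ℂ H] [CompleteSpace H]
variable {M : VonNeumannAlgebra H} {ξ : H} {U : ℝ → H →L[ℂ] H} {J : H → H}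

lemma comm_of_mem {x y : H →L[ℂ] H} (hx : x ∈ M) (hy : y ∈ M.commutant) (v : H) :
    x (y v) = y (x v) := by
  have h := (VonNeumannAlgebra.mem_commutant_iff.1 hy) x hx
  exact DFunLike.congr_fun h v

lemma sgm_xi (hM : IsModular M ξ U) (t : ℝ) (x : H →L[ℂ] H) : sgm U t x ξ = U t (x ξ) := by
  show U t (x (star (U t) ξ)) = U t (x ξ)
  rw [hM.star_eq, hM.fix]

lemma U_norm (hM : IsModular M ξ U) (t : ℝ) (v : H) : ‖U t v‖ = ‖v‖ := by
  apply isom_norm
  rw [hM.star_eq, ← hM.add, neg_add_cancel, hM.zero]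

lemma exp_norm (s κ₀ : ℝ) : ‖cexp (-(I * ((s * κ₀ : ℝ) : ℂ)))‖ = 1 := by
  have : -(I * ((s * κ₀ : ℝ) : ℂ)) = ((-(s * κ₀) : ℝ) : ℂ) * I := by push_cast; ring
  rw [this, Complex.norm_exp_ofReal_mul_I]

/-- `π_σ(x_k) - κ(x_k) u → 0` strongly, if `U_s x_k ξ - e^{isκ₀} x_k ξ → 0` -/
lemma sig_null (hM : IsModular M ξ U) (hJ : IsConj M ξ U J) (hc : IsCyclic M ξ)
    (hten : ∀ f : ℝ → ℂ, MemLp f 2 (volume : Measure ℝ) → ∃ T : H →L[ℂ] LR H, IsTen f T ∧
      ‖T‖ ≤ (eLpNorm f 2 (volume : Measure ℝ)).toReal)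
    (x : ℕ → H →L[ℂ] H) (hx : ∀ k, x k ∈ M) (C : ℝ) (hC : ∀ k, ‖x k‖ ≤ C) (κ₀ : ℝ)
    (hlim : ∀ s : ℝ, Tendsto (fun k => U s (x k ξ) - cexp (I * ((s * κ₀ : ℝ) : ℂ)) • x k ξ)
      atTop (𝓝 0))
    (S K : ℕ → LR H →L[ℂ] LR H) (hS : ∀ k, IsSig U (x k) (S k)) (hSn : ∀ k, ‖S k‖ ≤ ‖x k‖)
    (hK : ∀ k, IsConst (x k) (K k)) (hKn : ∀ k, ‖K k‖ ≤ ‖x k‖)
    (u : LR H →L[ℂ] LR H) (hu : IsMulOp (fun s : ℝ => cexp (-(I * ((s * κ₀ : ℝ) : ℂ)))) u)
    (F : LR H) : Tendsto (fun k => (S k - K k * u) F) atTop (𝓝 0) := by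
  have hC0 : 0 ≤ C := (norm_nonneg _).trans (hC 0)
  refine null_of_ten (fun k => S k - K k * u) (C + C * ‖u‖) ?_ hten _ (dense_commutant hJ hc) ?_ F
  · intro k
    calc ‖S k - K k * u‖ ≤ ‖S k‖ + ‖K k * u‖ := norm_sub_le _ _
      _ ≤ ‖S k‖ + ‖K k‖ * ‖u‖ := by gcongr; exact norm_mul_le _ _
      _ ≤ C + C * ‖u‖ := by
          gcongr
          · exact (hSn k).trans (hC k)
          · exact (hKn k).trans (hC k)
  rintro f hf T hT _ ⟨y, hy, rfl⟩
  set G : ℕ → ℝ → H := fun k s => f s • y (U (-s) (x k ξ) -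
    cexp (-(I * ((s * κ₀ : ℝ) : ℂ))) • x k ξ) with hG
  have hae : ∀ k, (((S k - K k * u) (T (y ξ)) : LR H) : ℝ → H) =ᵐ[volume] G k := by
    intro k
    have e1 : (S k - K k * u) (T (y ξ)) = S k (T (y ξ)) - K k (u (T (y ξ))) := rfl
    rw [e1]
    filter_upwards [Lp.coeFn_sub (S k (T (y ξ))) (K k (u (T (y ξ)))), hS k (T (y ξ)),
      hK k (u (T (y ξ))), hu (T (y ξ)), hT (y ξ)] with s h1 h2 h3 h4 h5
    rw [h1, Pi.sub_apply, h2, h3, h4, h5, hG]
    have h6 : sgm U (-s) (x k) (y ξ) = y (U (-s) (x k ξ)) := by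
      rw [comm_of_mem (hM.mem _ _ (hx k)) hy, sgm_xi hM]
    have h7 : x k (y ξ) = y (x k ξ) := comm_of_mem (hx k) hy ξ
    simp only [map_smul, map_sub, h6, h7, smul_sub]
    congr 1
    rw [smul_comm]
  have hnorm : ∀ k, ‖(S k - K k * u) (T (y ξ))‖ ^ 2 = ∫ s, ‖G k s‖ ^ 2 := by
    intro k
    rw [LR_norm_sq]
    apply integral_congr_ae
    filter_upwards [hae k] with s hs
    rw [hs]
  have hUc : ∀ w : H, Continuous fun s : ℝ => U (-s) w := fun w =>
    (hM.cont w).comp continuous_neg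
  have hexp : Continuous fun s : ℝ => cexp (-(I * ((s * κ₀ : ℝ) : ℂ))) := by fun_prop
  have hb : ∀ k s, ‖G k s‖ ≤ ‖f s‖ * (‖y‖ * (2 * (C * ‖ξ‖))) := by
    intro k s
    rw [hG]
    show ‖f s • y (U (-s) (x k ξ) - cexp (-(I * ((s * κ₀ : ℝ) : ℂ))) • x k ξ)‖ ≤ _
    rw [norm_smul]
    gcongr
    refine (y.le_opNorm _).trans ?_
    gcongr
    refine (norm_sub_le _ _).trans ?_
    rw [U_norm hM, norm_smul, exp_norm, one_mul]
    have : ‖x k ξ‖ ≤ C * ‖ξ‖ := ((x k).le_opNorm _).trans (by gcongr; exact hC k)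
    linarith
  have hlim2 : Tendsto (fun k => ∫ s, ‖G k s‖ ^ 2) atTop (𝓝 (∫ _ : ℝ, (0 : ℝ))) := by
    refine tendsto_integral_of_dominated_convergence
      (fun s => (‖f s‖ * (‖y‖ * (2 * (C * ‖ξ‖)))) ^ 2) ?_ ?_ ?_ ?_
    · intro k
      have h1 : AEStronglyMeasurable (G k) volume := by
        refine hf.aestronglyMeasurable.smul ?_
        refine Continuous.aestronglyMeasurable ?_
        exact y.continuous.comp ((hUc _).sub (hexp.smul continuous_const))
      exact (h1.norm.pow 2)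
    · have h1 := (hf.norm.integrable_sq).mul_const ((‖y‖ * (2 * (C * ‖ξ‖))) ^ 2)
      refine h1.congr (Filter.Eventually.of_forall fun s => ?_)
      simp only
      ring
    · intro k
      refine Filter.Eventually.of_forall fun s => ?_
      rw [Real.norm_of_nonneg (by positivity)]
      gcongr
      exact hb k s
    · refine Filter.Eventually.of_forall fun s => ?_
      have h1 := hlim (-s)
      have h2 : Tendsto (fun k => ‖f s • y (U (-s) (x k ξ) -
          cexp (I * (((-s) * κ₀ : ℝ) : ℂ)) • x k ξ)‖ ^ 2) atTop (𝓝 (‖f s • y 0‖ ^ 2)) :=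
        (((y.continuous.tendsto 0).comp h1).const_smul (f s)).norm.pow 2
      rw [map_zero, smul_zero, norm_zero] at h2
      have e : (0 : ℝ) ^ 2 = 0 := by norm_num
      rw [e] at h2
      refine h2.congr fun k => ?_
      rw [hG]
      have e2 : I * (((-s) * κ₀ : ℝ) : ℂ) = -(I * ((s * κ₀ : ℝ) : ℂ)) := by push_cast; ring
      rw [e2]
  rw [integral_zero] at hlim2
  rw [tendsto_zero_iff_norm_tendsto_zero]
  have h3 : Tendsto (fun k => Real.sqrt (‖(S k - K k * u) (T (y ξ))‖ ^ 2)) atTop (𝓝 (Real.sqrt 0)) := by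
    apply Tendsto.sqrt
    refine hlim2.congr fun k => ?_
    rw [hnorm]
  rw [Real.sqrt_zero] at h3
  refine h3.congr fun k => ?_
  rw [Real.sqrt_sq (norm_nonneg _)]

end

/-- **slice** -/
theorem slice (h1 : S_Bchar) (h2 : S_near) (h3 : S_ops) : S_slice := by
  intro H _ _ _ N M ξ U J E hI Y hY hYc f g Tf Tg hf hg hTf hTg
  obtain ⟨-, hsig, hcst, hten, -, -⟩ := h3 H M ξ U hI.modular
  have hJ := hI.conj
  have hxM : ContinuousLinearMap.adjoint Tf ∘L Y ∘L Tg ∈ M := slice_mem hY hcst hTf hTg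
  rw [h1 H N M ξ U J E hI]
  refine ⟨hxM, ?_⟩
  set x := ContinuousLinearMap.adjoint Tf ∘L Y ∘L Tg with hx
  by_contra hnot
  have h4 : ∃ a : ℝ, 0 < a ∧ ∀ b : ℝ, 0 ≤ b → ∃ u : H →L[ℂ] H, IsUni N u ∧
      a + b * ‖alf J u ξ - ξ‖ ^ 2 < ‖alf J u (x ξ) - x ξ‖ ^ 2 := by
    by_contra hcon
    apply hnot
    intro a ha
    by_contra hb
    apply hcon
    refine ⟨a, ha, fun b hb0 => ?_⟩
    by_contra hu
    apply hb
    refine ⟨b, hb0, fun u hu' => ?_⟩
    by_contra hle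
    exact hu ⟨u, hu', not_le.1 hle⟩
  obtain ⟨a, ha, h5⟩ := h4
  choose u huni hu using fun k : ℕ => h5 (k : ℝ) (Nat.cast_nonneg k)
  have huM : ∀ k, u k ∈ M := fun k => hI.le _ (huni k).1
  have huN : ∀ k, u k ∈ N := fun k => (huni k).1
  have hun : ∀ k, ‖u k‖ ≤ 1 := fun k =>
    ContinuousLinearMap.opNorm_le_bound _ zero_le_one fun v => by
      rw [isom_norm (huni k).2.1, one_mul]
  -- `‖α_{u_k} ξ - ξ‖ → 0`
  have hal : Tendsto (fun k => ‖alf J (u k) ξ - ξ‖ ^ 2) atTop (𝓝 0) := by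
    have hb : ∀ k : ℕ, (k : ℝ) * ‖alf J (u k) ξ - ξ‖ ^ 2 ≤ 4 * ‖x ξ‖ ^ 2 := by
      intro k
      have h6 : ‖alf J (u k) (x ξ) - x ξ‖ ≤ 2 * ‖x ξ‖ := by
        refine (norm_sub_le _ _).trans ?_
        rw [alf_isom hJ (huni k).2.1]
        linarith
      have h7 : ‖alf J (u k) (x ξ) - x ξ‖ ^ 2 ≤ (2 * ‖x ξ‖) ^ 2 := by gcongr
      have := hu k
      nlinarith
    have h8 : Tendsto (fun k : ℕ => (4 * ‖x ξ‖ ^ 2) / (k : ℝ)) atTop (𝓝 0) :=
      tendsto_const_div_atTop_nhds_zero_nat _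
    refine squeeze_zero' (Filter.Eventually.of_forall fun k => by positivity) ?_ h8
    filter_upwards [Filter.eventually_gt_atTop 0] with k hk
    rw [le_div_iff₀ (by exact_mod_cast hk), mul_comm]
    exact hb k
  have hal2 : Tendsto (fun k => ‖alf J (u k) ξ - ξ‖) atTop (𝓝 0) := by
    have := hal.sqrt
    rw [Real.sqrt_zero] at this
    refine this.congr fun k => ?_
    rw [Real.sqrt_sq (norm_nonneg _)]
  have hJu : Tendsto (fun k => J (star (u k) ξ) - u k ξ) atTop (𝓝 0) := by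
    rw [tendsto_zero_iff_norm_tendsto_zero]
    refine hal2.congr fun k => ?_
    rw [alf_xi hJ (huM k) (huni k).2.1 (huni k).2.2]
  have hnear := (h2 H M ξ U J hI.modular hJ u 0 huM ⟨1 * ‖ξ‖, fun k =>
    ((u k).le_opNorm _).trans (by gcongr; exact hun k)⟩ (by
      refine hJu.congr fun k => ?_
      simp)).1
  choose S hS hSn hS' using fun k => hsig (u k)
  choose K hK hKn hK' using fun k => hcst (u k)
  have hone : IsMulOp (H := H) (fun s : ℝ => cexp (-(I * ((s * 0 : ℝ) : ℂ)))) 1 := by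
    intro F
    filter_upwards with s
    simp
  have hnull : ∀ F : LR H, Tendsto (fun k => (S k - K k) F) atTop (𝓝 0) := by
    intro F
    have := sig_null hI.modular hJ hI.cyc hten u huM 1 hun 0 hnear S K hS hSn hK hKn 1 hone F
    simpa only [mul_one] using this
  -- `x u_k ξ - u_k x ξ → 0`
  have hkey : Tendsto (fun k => x (u k ξ) - u k (x ξ)) atTop (𝓝 0) := by
    have e : ∀ k, x (u k ξ) - u k (x ξ) =
        ContinuousLinearMap.adjoint Tf ((S k - K k) (Y (Tg ξ))) -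
          ContinuousLinearMap.adjoint Tf (Y ((S k - K k) (Tg ξ))) := by
      intro k
      have e1 : x (u k ξ) = ContinuousLinearMap.adjoint Tf (Y (K k (Tg ξ))) := by
        rw [ten_const hTg (hK k)]; rfl
      have e2 : u k (x ξ) = ContinuousLinearMap.adjoint Tf (K k (Y (Tg ξ))) := by
        rw [adj_ten_const hTf (hK' k)]; rfl
      have e3 : Y (S k (Tg ξ)) = S k (Y (Tg ξ)) :=
        DFunLike.congr_fun (hYc (u k) (huN k) (S k) (hS k)) (Tg ξ)
      rw [e1, e2]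
      simp only [_root_.sub_apply, map_sub, e3]
      abel
    have t1 := ((ContinuousLinearMap.adjoint Tf).continuous.tendsto 0).comp (hnull (Y (Tg ξ)))
    have t2 := (((ContinuousLinearMap.adjoint Tf) ∘L Y).continuous.tendsto 0).comp (hnull (Tg ξ))
    rw [map_zero] at t1 t2
    have t3 := t1.sub t2
    rw [sub_zero] at t3
    refine t3.congr fun k => ?_
    rw [e k]
    rfl
  have hfin : Tendsto (fun k => ‖alf J (u k) (x ξ) - x ξ‖) atTop (𝓝 0) := by
    have t4 : Tendsto (fun k => ‖x (u k ξ) - u k (x ξ)‖ + ‖x‖ * ‖J (star (u k) ξ) - u k ξ‖) atTop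
        (𝓝 (0 + ‖x‖ * 0)) := by
      refine Tendsto.add ?_ (Tendsto.const_mul _ ?_)
      · simpa using hkey.norm
      · simpa using hJu.norm
    rw [mul_zero, add_zero] at t4
    refine squeeze_zero (fun k => norm_nonneg _) (fun k => ?_) t4
    rw [alf_norm hJ (huM k) (huni k).2.1 (huni k).2.2, ← Rop_comm hJ (huM k) hxM, Rop_xi]
    have e5 : u k (x ξ) - x (J (star (u k) ξ)) =
        -(x (u k ξ) - u k (x ξ)) - x (J (star (u k) ξ) - u k ξ) := by
      rw [map_sub]; abel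
    rw [e5]
    refine (norm_sub_le _ _).trans ?_
    rw [norm_neg]
    gcongr
    exact x.le_opNorm _
  have hfin2 := hfin.pow 2
  have e6 : (0 : ℝ) ^ 2 = 0 := by norm_num
  rw [e6] at hfin2
  have h9 := hfin2.eventually (gt_mem_nhds ha)
  obtain ⟨k, hk⟩ := h9.exists
  have h10 := hu k
  have h11 : 0 ≤ (k : ℝ) * ‖alf J (u k) ξ - ξ‖ ^ 2 := by positivity
  linarith

end Pool.Agent.H321.BC
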