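import Pool.Agent.H255.BC.Defs2

set_option autoImplicit false

open MeasureTheory Filter Topology Complex
open scoped InnerProductSpace ENNReal FourierTransform

namespace Pool.Agent.H255.BC.R_surj

open Pool.Agent.W662.CB Pool.Agent.H255.BC

section aux

variable {H : Type} [NormedAddCommGroup H] [InnerProductSpace ℂ H] [CompleteSpace H]

/-! ### Operators `f ⊗ ·` -/

theorem ten_inner {f : ℝ → ℂ} {T : H →L[ℂ] LR H} (hT : IsTen f T) (v : H) (F : LR H) :
    ⟪T v, F⟫_ℂ = ∫ p : ℝ, starRingEnd ℂ (f p) * ⟪v, F p⟫_ℂ := by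
  rw [L2.inner_def]
  refine integral_congr_ae ?_
  filter_upwards [hT v] with p hp
  rw [hp, inner_smul_left]

theorem int_smul2 {f : ℝ → ℂ} (hf : MemLp f 2 (volume : Measure ℝ)) (F : LR H) :
    Integrable (fun p : ℝ => f p • F p) := by
  have h1 : MemLp (fun p : ℝ => f p • F p) 1 (volume : Measure ℝ) :=
    (Lp.memLp F).smul (p := 2) (q := 2) (r := 1) hf
  exact memLp_one_iff_integrable.1 h1

theorem conj_memLp {f : ℝ → ℂ} (hf : MemLp f 2 (volume : Measure ℝ)) :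
    MemLp (fun p => starRingEnd ℂ (f p)) 2 (volume : Measure ℝ) := hf.star

theorem ten_adj {f : ℝ → ℂ} {T : H →L[ℂ] LR H} (hf : MemLp f 2 (volume : Measure ℝ))
    (hT : IsTen f T) (F : LR H) :
    ContinuousLinearMap.adjoint T F = ∫ p : ℝ, starRingEnd ℂ (f p) • F p := by
  refine ext_inner_left ℂ fun v => ?_
  rw [ContinuousLinearMap.adjoint_inner_right, ten_inner hT,
    ← integral_inner (int_smul2 (conj_memLp hf) F)]
  refine integral_congr_ae (Eventually.of_forall fun p => ?_)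
  simp only [inner_smul_right]

theorem ten_unique {f : ℝ → ℂ} {T T' : H →L[ℂ] LR H} (h : IsTen f T) (h' : IsTen f T') :
    T = T' := by
  ext1 v
  exact Lp.ext ((h v).trans (h' v).symm)

theorem ten_const {g : ℝ → ℂ} {Tg : H →L[ℂ] LR H} {K : LR H →L[ℂ] LR H} {y : H →L[ℂ] H}
    (hg : IsTen g Tg) (hK : IsConst y K) (v : H) : Tg (y v) = K (Tg v) := by
  refine Lp.ext ?_
  filter_upwards [hg (y v), hK (Tg v), hg v] with s b1 b2 b3
  rw [b1, b2, b3, map_smul]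

theorem ten_memLp {f : ℝ → ℂ} {T : H →L[ℂ] LR H} (hT : IsTen f T) {ξ : H} (hξ : ‖ξ‖ = 1) :
    MemLp f 2 (volume : Measure ℝ) := by
  have h1 : MemLp (fun p => ⟪ξ, (T ξ : ℝ → H) p⟫_ℂ) 2 (volume : Measure ℝ) :=
    (innerSL ℂ ξ).comp_memLp' (Lp.memLp _)
  refine h1.ae_eq ?_
  filter_upwards [hT ξ] with p hp
  rw [hp, inner_smul_right, inner_self_eq_norm_sq_to_K, hξ]
  simp

/-! ### `W` -/

/-- the classes of the continuous functions with compact support -/
def CcS (H : Type) [NormedAddCommGroup H] [InnerProductSpace ℂ H] [CompleteSpace H] :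
    Set (LR H) :=
  {F | ∃ G : ℝ → H, Continuous G ∧ HasCompactSupport G ∧ (F : ℝ → H) =ᵐ[volume] G}

theorem dense_Cc : Dense (CcS H) := by
  rw [Metric.dense_iff]
  intro f r hr
  obtain ⟨g, hgc, hg, hgcont, hgm⟩ :=
    (Lp.memLp f).exists_hasCompactSupport_eLpNorm_sub_le (by norm_num)
      (ε := ENNReal.ofReal (r / 2)) (by
        rw [Ne, ENNReal.ofReal_eq_zero, not_le]; positivity)
  refine ⟨hgm.toLp g, ?_, g, hgcont, hgc, hgm.coeFn_toLp⟩
  rw [Metric.mem_ball, dist_comm, Lp.dist_def]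
  have h1 : eLpNorm ((f : ℝ → H) - (hgm.toLp g : ℝ → H)) 2 volume =
      eLpNorm ((f : ℝ → H) - g) 2 volume :=
    eLpNorm_congr_ae (EventuallyEq.rfl.sub hgm.coeFn_toLp)
  rw [h1]
  have h2 := ENNReal.toReal_mono ENNReal.ofReal_ne_top hg
  rw [ENNReal.toReal_ofReal (by positivity)] at h2
  linarith

/-- two operators which agree on continuous functions with compact support are equal -/
theorem eq_of_Cc {A B : LR H →L[ℂ] LR H} (h : ∀ F ∈ CcS H, A F = B F) : A = B := by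
  have h1 : (A : LR H → LR H) = B :=
    Continuous.ext_on dense_Cc A.continuous B.continuous h
  ext1 f
  exact congrFun h1 f

/-- `W` as a continuous linear map -/
noncomputable def Wc (W : LR H ≃ₗᵢ[ℂ] LR H) : LR H →L[ℂ] LR H :=
  W.toContinuousLinearEquiv.toContinuousLinearMap

theorem Wc_apply (W : LR H ≃ₗᵢ[ℂ] LR H) (f : LR H) : Wc W f = W f := rfl

/-- `W⁻¹` as a continuous linear map -/
noncomputable def Wi (W : LR H ≃ₗᵢ[ℂ] LR H) : LR H →L[ℂ] LR H :=
  W.symm.toContinuousLinearEquiv.toContinuousLinearMap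

theorem Wi_apply (W : LR H ≃ₗᵢ[ℂ] LR H) (f : LR H) : Wi W f = W.symm f := rfl

theorem int_exp {G : ℝ → H} (hG : Continuous G) (hGc : HasCompactSupport G) (s : ℝ) :
    Integrable (fun p : ℝ => cexp (I * ((s * p : ℝ) : ℂ)) • G p) := by
  apply Continuous.integrable_of_hasCompactSupport
  · fun_prop
  · exact hGc.smul_left

/-- `W` commutes with constants -/
theorem W_const {W : LR H ≃ₗᵢ[ℂ] LR H} (hW : IsFou W) {y : H →L[ℂ] H} {S : LR H →L[ℂ] LR H}
    (hS : IsConst y S) (f : LR H) : W (S f) = S (W f) := by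
  have key : Wc W ∘L S = S ∘L Wc W := by
    apply eq_of_Cc
    rintro F ⟨G, hG, hGc, hF⟩
    show W (S F) = S (W F)
    apply Lp.ext
    have h1 : (S F : ℝ → H) =ᵐ[volume] fun s => y (G s) := by
      filter_upwards [hS F, hF] with s h1 h2
      rw [h1, h2]
    have h2 := hW (fun s => y (G s)) (y.continuous.comp hG)
      (hGc.comp_left (g := fun v => y v) (map_zero y)) (S F) h1
    have h3 := hW G hG hGc F hF
    filter_upwards [h2, h3, hS (W F)] with s e2 e3 e4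
    rw [e2, e4, e3, map_smul, ← ContinuousLinearMap.integral_comp_comm y (int_exp hG hGc s)]
    congr 1
    apply integral_congr_ae
    refine Eventually.of_forall fun p => ?_
    simp only [map_smul]
  have := congrArg (fun A : LR H →L[ℂ] LR H => A f) key
  exact this

/-- `W` and translations -/
theorem W_shift {W : LR H ≃ₗᵢ[ℂ] LR H} (hW : IsFou W) {t : ℝ} {S T : LR H →L[ℂ] LR H}
    (hS : IsShift t S) (hT : IsMulOp (fun s : ℝ => cexp (-(I * ((s * t : ℝ) : ℂ)))) T)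
    (f : LR H) : S (W f) = W (T f) := by
  have key : S ∘L Wc W = Wc W ∘L T := by
    apply eq_of_Cc
    rintro F ⟨G, hG, hGc, hF⟩
    show S (W F) = W (T F)
    apply Lp.ext
    have h1 : (T F : ℝ → H) =ᵐ[volume] fun s => cexp (-(I * ((s * t : ℝ) : ℂ))) • G s := by
      filter_upwards [hT F, hF] with s h1 h2
      rw [h1, h2]
    have h2 := hW (fun s => cexp (-(I * ((s * t : ℝ) : ℂ))) • G s) (by fun_prop)
      hGc.smul_left (T F) h1
    have h3 := (measurePreserving_sub_right (volume : Measure ℝ) t).quasiMeasurePreserving.ae_eq_comp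
      (hW G hG hGc F hF)
    filter_upwards [h2, h3, hS (W F)] with s e2 e3 e4
    rw [e2, e4]
    refine Eq.trans e3 ?_
    simp only [Function.comp]
    congr 1
    apply integral_congr_ae
    refine Eventually.of_forall fun p => ?_
    simp only [smul_smul, ← Complex.exp_add]
    congr 2
    push_cast
    ring
  exact congrArg (fun A : LR H →L[ℂ] LR H => A f) key

/-- `W` and the unitaries `u_lam` -/
theorem W_ulam {W : LR H ≃ₗᵢ[ℂ] LR H} (hW : IsFou W) {lam : ℝ} {S T : LR H →L[ℂ] LR H}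
    (hS : IsULam lam S) (hT : IsShift (-Real.log lam) T) (f : LR H) : S (W f) = W (T f) := by
  have key : S ∘L Wc W = Wc W ∘L T := by
    apply eq_of_Cc
    rintro F ⟨G, hG, hGc, hF⟩
    show S (W F) = W (T F)
    apply Lp.ext
    have h1 : (T F : ℝ → H) =ᵐ[volume] fun s => G (s - -Real.log lam) :=
      (hT F).trans ((measurePreserving_sub_right (volume : Measure ℝ)
        (-Real.log lam)).quasiMeasurePreserving.ae_eq_comp hF)
    have h2 := hW (fun s => G (s - -Real.log lam)) (by fun_prop)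
      (hGc.comp_homeomorph (Homeomorph.subRight (-Real.log lam))) (T F) h1
    have h3 := hW G hG hGc F hF
    filter_upwards [h2, h3, hS (W F)] with s e2 e3 e4
    rw [e2, e4, e3, smul_comm, ← integral_smul]
    congr 1
    have e5 := integral_sub_right_eq_self (μ := (volume : Measure ℝ))
      (fun p : ℝ => cexp (-(I * ((s * Real.log lam : ℝ) : ℂ))) • cexp (I * ((s * p : ℝ) : ℂ)) • G p)
      (-Real.log lam)
    rw [← e5]
    apply integral_congr_ae
    refine Eventually.of_forall fun p => ?_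
    simp only [smul_smul, ← Complex.exp_add]
    congr 2
    push_cast
    ring
  exact congrArg (fun A : LR H →L[ℂ] LR H => A f) key

/-- `W ∘ (k ⊗ ·)` is again of this form -/
theorem W_ten {W : LR H ≃ₗᵢ[ℂ] LR H} (hW : IsFou W) {k : ℝ → ℂ} (hk : Continuous k)
    (hkc : HasCompactSupport k) {T : H →L[ℂ] LR H} (hT : IsTen k T) :
    IsTen (fun s : ℝ => ((((Real.sqrt (2 * Real.pi))⁻¹ : ℝ)) : ℂ) *
      ∫ p : ℝ, cexp (I * ((s * p : ℝ) : ℂ)) * k p) (Wc W ∘L T) := by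
  intro v
  have h1 := hW (fun p => k p • v) (by fun_prop) hkc.smul_right (T v) (hT v)
  filter_upwards [h1] with s hs
  show (W (T v) : ℝ → H) s = _
  rw [hs]
  simp only [smul_smul]
  rw [integral_smul_const, smul_smul]

/-! ### The operator `W⁻¹ Y W` -/

/-- `W⁻¹ Y W` -/
noncomputable def hat (W : LR H ≃ₗᵢ[ℂ] LR H) (Y : LR H →L[ℂ] LR H) : LR H →L[ℂ] LR H :=
  Wi W ∘L Y ∘L Wc W

theorem hat_apply (W : LR H ≃ₗᵢ[ℂ] LR H) (Y : LR H →L[ℂ] LR H) (f : LR H) :
    hat W Y f = W.symm (Y (W f)) := rfl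

theorem W_hat (W : LR H ≃ₗᵢ[ℂ] LR H) (Y : LR H →L[ℂ] LR H) (f : LR H) :
    W (hat W Y f) = Y (W f) := by
  rw [hat_apply, W.apply_symm_apply]

theorem hat_const {W : LR H ≃ₗᵢ[ℂ] LR H} (hW : IsFou W) {Y : LR H →L[ℂ] LR H} {y : H →L[ℂ] H}
    {S : LR H →L[ℂ] LR H} (hS : IsConst y S) (hYS : Y * S = S * Y) (f : LR H) :
    hat W Y (S f) = S (hat W Y f) := by
  apply W.injective
  rw [W_hat, W_const hW hS, W_const hW hS, W_hat]
  exact congrArg (fun A : LR H →L[ℂ] LR H => A (W f)) hYS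

theorem hat_exp {W : LR H ≃ₗᵢ[ℂ] LR H} (hW : IsFou W) {Y : LR H →L[ℂ] LR H} {t : ℝ}
    {S T : LR H →L[ℂ] LR H} (hS : IsShift t S) (hYS : Y * S = S * Y)
    (hT : IsMulOp (fun s : ℝ => cexp (-(I * ((s * t : ℝ) : ℂ)))) T) (f : LR H) :
    hat W Y (T f) = T (hat W Y f) := by
  apply W.injective
  rw [W_hat, ← W_shift hW hS hT, ← W_shift hW hS hT, W_hat]
  exact congrArg (fun A : LR H →L[ℂ] LR H => A (W f)) hYS

/-! ### Fourier inversion -/

theorem ft_cont (h : ℝ → ℂ) (hh : Tst h) : Continuous (𝓕 h) := by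
  have h1 : 𝓕 h = (𝓕 (hh.2.toSchwartzMap hh.1) : SchwartzMap ℝ ℂ) := by
    rw [SchwartzMap.fourier_coe]
    rfl
  rw [h1]
  exact SchwartzMap.continuous _

theorem ft_int (h : ℝ → ℂ) (hh : Tst h) : Integrable (𝓕 h) := by
  have h1 : 𝓕 h = (𝓕 (hh.2.toSchwartzMap hh.1) : SchwartzMap ℝ ℂ) := by
    rw [SchwartzMap.fourier_coe]
    rfl
  rw [h1]
  exact SchwartzMap.integrable _

theorem tst_int {h : ℝ → ℂ} (hh : Tst h) : Integrable h :=
  hh.1.continuous.integrable_of_hasCompactSupport hh.2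

theorem FB {b : ℝ → ℂ} (hb : Tst b) {u : ℝ → ℂ} (hu : Integrable u) :
    ∫ τ : ℝ, 𝓕 b τ * ∫ p : ℝ, cexp (-(I * ((p * (-(2 * Real.pi * τ)) : ℝ) : ℂ))) * u p =
      ∫ p : ℝ, b p * u p := by
  have h1 := VectorFourier.integral_fourierIntegral_smul_eq_flip (μ := (volume : Measure ℝ))
    (ν := (volume : Measure ℝ)) (e := Real.fourierChar)
    (L := -(innerₗ ℝ : ℝ →ₗ[ℝ] ℝ →ₗ[ℝ] ℝ)) (f := 𝓕 b) (g := u)
    Real.continuous_fourierChar (by
      have : Continuous fun p : ℝ × ℝ => -(inner ℝ p.1 p.2) := by fun_prop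
      exact this) (ft_int b hb) hu
  have h2 : VectorFourier.fourierIntegral Real.fourierChar (volume : Measure ℝ)
      (-(innerₗ ℝ : ℝ →ₗ[ℝ] ℝ →ₗ[ℝ] ℝ)) (𝓕 b) = b :=
    hb.1.continuous.fourierInv_fourier_eq (tst_int hb) (ft_int b hb)
  rw [h2] at h1
  simp only [smul_eq_mul] at h1
  rw [h1]
  refine integral_congr_ae (Eventually.of_forall fun τ => ?_)
  simp only
  congr 1
  unfold VectorFourier.fourierIntegral
  refine integral_congr_ae (Eventually.of_forall fun p => ?_)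
  simp only [Circle.smul_def, smul_eq_mul, Real.fourierChar_apply]
  congr 2
  simp
  ring

end aux


section aux2

variable {H : Type} [NormedAddCommGroup H] [InnerProductSpace ℂ H] [CompleteSpace H]

/-- `A` commutes with the exponentials -/
def CExp (A : LR H →L[ℂ] LR H) : Prop :=
  ∀ t : ℝ, ∃ T : LR H →L[ℂ] LR H, IsMulOp (fun s : ℝ => cexp (-(I * ((s * t : ℝ) : ℂ)))) T ∧
    ∀ f : LR H, A (T f) = T (A f)

theorem mul_inner' {g : ℝ → ℂ} {T : LR H →L[ℂ] LR H} (hT : IsMulOp g T) (G F : LR H) :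
    ⟪G, T F⟫_ℂ = ∫ p : ℝ, g p * ⟪G p, F p⟫_ℂ := by
  rw [L2.inner_def]
  refine integral_congr_ae ?_
  filter_upwards [hT F] with p hp
  rw [hp, inner_smul_right]

theorem inner_bmul {b : ℝ → ℂ} {F F' : LR H} (h : (F' : ℝ → H) =ᵐ[volume] fun p => b p • F p)
    (G : LR H) : ⟪G, F'⟫_ℂ = ∫ p : ℝ, b p * ⟪G p, F p⟫_ℂ := by
  rw [L2.inner_def]
  refine integral_congr_ae ?_
  filter_upwards [h] with p hp
  rw [hp, inner_smul_right]

theorem commute_mul {A : LR H →L[ℂ] LR H} (hA : CExp A) {b : ℝ → ℂ} (hb : Tst b) {F F' : LR H}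
    (h : (F' : ℝ → H) =ᵐ[volume] fun p => b p • F p) :
    (A F' : ℝ → H) =ᵐ[volume] fun p => b p • A F p := by
  -- the right hand side is in `L²`
  have hbm : MemLp b ⊤ (volume : Measure ℝ) :=
    hb.1.continuous.memLp_top_of_hasCompactSupport hb.2 _
  have hG : MemLp (fun p => b p • A F p) 2 (volume : Measure ℝ) :=
    (Lp.memLp (A F)).smul (p := ⊤) (q := 2) (r := 2) hbm
  have key : A F' = hG.toLp _ := by
    refine ext_inner_left ℂ fun G => ?_
    have e1 : ⟪G, hG.toLp _⟫_ℂ = ∫ p : ℝ, b p * ⟪G p, A F p⟫_ℂ := inner_bmul hG.coeFn_toLp G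
    rw [e1, ← ContinuousLinearMap.adjoint_inner_left, inner_bmul h,
      ← FB hb (L2.integrable_inner (𝕜 := ℂ) (ContinuousLinearMap.adjoint A G) F),
      ← FB hb (L2.integrable_inner (𝕜 := ℂ) G (A F))]
    refine integral_congr_ae (Eventually.of_forall fun τ => ?_)
    simp only
    congr 1
    obtain ⟨T, hT, hAT⟩ := hA (-(2 * Real.pi * τ))
    rw [← mul_inner' hT, ← mul_inner' hT, ContinuousLinearMap.adjoint_inner_left, hAT]
  rw [key]
  exact hG.coeFn_toLp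

/-! ### The slices -/

/-- the slice -/
noncomputable def xx (W : LR H ≃ₗᵢ[ℂ] LR H) (Y : LR H →L[ℂ] LR H) (Tk Tl : H →L[ℂ] LR H) :
    H →L[ℂ] H :=
  ContinuousLinearMap.adjoint (Wc W ∘L Tk) ∘L Y ∘L (Wc W ∘L Tl)

theorem xx_apply (W : LR H ≃ₗᵢ[ℂ] LR H) (Y : LR H →L[ℂ] LR H) (Tk Tl : H →L[ℂ] LR H) (v : H) :
    xx W Y Tk Tl v = ContinuousLinearMap.adjoint Tk (hat W Y (Tl v)) := by
  refine ext_inner_left ℂ fun w => ?_
  rw [ContinuousLinearMap.adjoint_inner_right]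
  show ⟪w, ContinuousLinearMap.adjoint (Wc W ∘L Tk) (Y (W (Tl v)))⟫_ℂ = _
  rw [ContinuousLinearMap.adjoint_inner_right, ← W_hat]
  show ⟪W (Tk w), W (hat W Y (Tl v))⟫_ℂ = _
  rw [W.inner_map_map]

/-- translated operators -/
theorem shift_ten {a : ℝ} {S : LR H →L[ℂ] LR H} (hS : IsShift a S) {l : ℝ → ℂ}
    {T : H →L[ℂ] LR H} (hT : IsTen l T) : IsTen (fun p => l (p - a)) (S ∘L T) := by
  intro v
  exact (hS (T v)).trans ((measurePreserving_sub_right (volume : Measure ℝ)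
    a).quasiMeasurePreserving.ae_eq_comp (hT v))

theorem W_star {W : LR H ≃ₗᵢ[ℂ] LR H} {T A : LR H →L[ℂ] LR H}
    (h : ∀ f : LR H, T (W f) = W (A f)) (f : LR H) : star T (W f) = W (star A f) := by
  apply ext_inner_right ℂ
  intro g
  rw [ContinuousLinearMap.star_eq_adjoint, ContinuousLinearMap.adjoint_inner_left]
  have e : g = W (W.symm g) := (W.apply_symm_apply g).symm
  rw [e, h, W.inner_map_map, W.inner_map_map, ContinuousLinearMap.star_eq_adjoint,
    ContinuousLinearMap.adjoint_inner_left]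

theorem cov (h2 : S_slbeta) (h4 : S_ops) {N M : VonNeumannAlgebra H} {ξ : H}
    {U : ℝ → H →L[ℂ] H} {J : H → H} {E : (H →L[ℂ] H) → (H →L[ℂ] H)}
    {β : ℝ → (H →L[ℂ] H) → (H →L[ℂ] H)} {W : LR H ≃ₗᵢ[ℂ] LR H} (hI : Inc2 N M ξ U J E)
    (hβ : IsBicFlow N M ξ β) (hW : IsFou W) {Y : LR H →L[ℂ] LR H} (hY : Y ∈ Amp M)
    (hYN : ∀ x : H →L[ℂ] H, x ∈ N → ∀ S : LR H →L[ℂ] LR H, IsSig U x S → Y * S = S * Y)
    {k l : ℝ → ℂ} (hk : Continuous k) (hkc : HasCompactSupport k) (hl : Continuous l)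
    (hlc : HasCompactSupport l) {Tk Tl Tk' Tl' : H →L[ℂ] LR H} (hTk : IsTen k Tk)
    (hTl : IsTen l Tl) (a : ℝ) (hTk' : IsTen (fun p => k (p - a)) Tk')
    (hTl' : IsTen (fun p => l (p - a)) Tl') :
    β (Real.exp a) (xx W Y Tk Tl) = xx W Y Tk' Tl' := by
  obtain ⟨-, -, -, -, o5, o6⟩ := h4 H M ξ U hI.modular
  obtain ⟨S, hS, -, -, -⟩ := o6 (Real.exp a) (Real.exp_pos a)
  obtain ⟨R, hR, -, -, hR'⟩ := o5 (-a)
  rw [neg_neg] at hR'
  have e1 : ∀ f : LR H, S (W f) = W (R f) := fun f => by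
    refine W_ulam hW hS ?_ f
    rwa [Real.log_exp]
  have e2 : ∀ f : LR H, star S (W f) = W (star R f) := fun f => W_star e1 f
  have e3 : star R ∘L Tk = Tk' := ten_unique (shift_ten hR' hTk) hTk'
  have e4 : star R ∘L Tl = Tl' := ten_unique (shift_ten hR' hTl) hTl'
  have f1 := W_ten hW hk hkc hTk
  have f2 := W_ten hW hl hlc hTl
  have key := h2 H N M ξ U J E β hI hβ Y hY hYN _ _ (Wc W ∘L Tk) (Wc W ∘L Tl)
    (ten_memLp f1 hI.unit) (ten_memLp f2 hI.unit) f1 f2 (Real.exp a) (Real.exp_pos a) S hS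
  have g1 : star S ∘L (Wc W ∘L Tl) = Wc W ∘L Tl' := by
    rw [← e4]
    ext1 v
    exact e2 (Tl v)
  have g2 : ContinuousLinearMap.adjoint (Wc W ∘L Tk) ∘L S =
      ContinuousLinearMap.adjoint (Wc W ∘L Tk') := by
    have g3 : star S ∘L (Wc W ∘L Tk) = Wc W ∘L Tk' := by
      rw [← e3]
      ext1 v
      exact e2 (Tk v)
    rw [← g3, ContinuousLinearMap.star_eq_adjoint,
      ContinuousLinearMap.adjoint_comp (ContinuousLinearMap.adjoint S),
      ContinuousLinearMap.adjoint_adjoint]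
  unfold xx
  rw [key, ← g1, ← g2]
  ext1 v
  rfl

theorem slice_mem (h1 : S_slice) {N M : VonNeumannAlgebra H} {ξ : H}
    {U : ℝ → H →L[ℂ] H} {J : H → H} {E : (H →L[ℂ] H) → (H →L[ℂ] H)}
    {W : LR H ≃ₗᵢ[ℂ] LR H} (hI : Inc2 N M ξ U J E)
    (hW : IsFou W) {Y : LR H →L[ℂ] LR H} (hY : Y ∈ Amp M)
    (hYN : ∀ x : H →L[ℂ] H, x ∈ N → ∀ S : LR H →L[ℂ] LR H, IsSig U x S → Y * S = S * Y)
    {k l : ℝ → ℂ} (hk : Continuous k) (hkc : HasCompactSupport k) (hl : Continuous l)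
    (hlc : HasCompactSupport l) {Tk Tl : H →L[ℂ] LR H} (hTk : IsTen k Tk)
    (hTl : IsTen l Tl) : xx W Y Tk Tl ∈ relBicentralizer N M ξ := by
  have f1 := W_ten hW hk hkc hTk
  have f2 := W_ten hW hl hlc hTl
  exact h1 H N M ξ U J E hI.toInc Y hY hYN _ _ (Wc W ∘L Tk) (Wc W ∘L Tl)
    (ten_memLp f1 hI.unit) (ten_memLp f2 hI.unit) f1 f2

/-! ### The operators `y' = J y J` -/

theorem J_norm {M : VonNeumannAlgebra H} {ξ : H} {U : ℝ → H →L[ℂ] H} {J : H → H}
    (hJ : IsConj M ξ U J) (v : H) : ‖J v‖ = ‖v‖ := by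
  have h := hJ.inner v v
  rw [inner_self_eq_norm_sq_to_K, inner_self_eq_norm_sq_to_K] at h
  have h2 : ‖J v‖ ^ 2 = ‖v‖ ^ 2 := by exact_mod_cast h
  exact (pow_left_inj₀ (norm_nonneg _) (norm_nonneg _) two_ne_zero).1 h2

/-- `J y J` -/
noncomputable def Jop {M : VonNeumannAlgebra H} {ξ : H} {U : ℝ → H →L[ℂ] H} {J : H → H}
    (hJ : IsConj M ξ U J) (y : H →L[ℂ] H) : H →L[ℂ] H :=
  LinearMap.mkContinuous
    { toFun := fun v => J (y (J v))
      map_add' := fun v w => by rw [hJ.add, map_add, hJ.add]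
      map_smul' := fun c v => by
        rw [hJ.smul, map_smul, hJ.smul, Complex.conj_conj, RingHom.id_apply] } ‖y‖ (fun v => by
      show ‖J (y (J v))‖ ≤ ‖y‖ * ‖v‖
      rw [J_norm hJ]
      calc ‖y (J v)‖ ≤ ‖y‖ * ‖J v‖ := y.le_opNorm _
        _ = ‖y‖ * ‖v‖ := by rw [J_norm hJ])

theorem Jop_apply {M : VonNeumannAlgebra H} {ξ : H} {U : ℝ → H →L[ℂ] H} {J : H → H}
    (hJ : IsConj M ξ U J) (y : H →L[ℂ] H) (v : H) : Jop hJ y v = J (y (J v)) := rfl

theorem Jop_mem {M : VonNeumannAlgebra H} {ξ : H} {U : ℝ → H →L[ℂ] H} {J : H → H}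
    (hJ : IsConj M ξ U J) {y : H →L[ℂ] H} (hy : y ∈ M) : Jop hJ y ∈ M.commutant := by
  rw [VonNeumannAlgebra.mem_commutant_iff]
  intro g hg
  ext1 v
  exact hJ.comm g y hg hy v

/-- the vectors `y' ξ` are dense -/
theorem comm_dense {M : VonNeumannAlgebra H} {ξ : H} {U : ℝ → H →L[ℂ] H} {J : H → H}
    (hJ : IsConj M ξ U J) (hc : IsCyclic M ξ) :
    Dense {v : H | ∃ y : H →L[ℂ] H, y ∈ M.commutant ∧ y ξ = v} := by
  rw [Metric.dense_iff]
  intro v r hr
  obtain ⟨w, hw, y, hy, hyw⟩ := Metric.dense_iff.1 hc (J v) r hr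
  refine ⟨Jop hJ y ξ, ?_, Jop hJ y, Jop_mem hJ hy, rfl⟩
  rw [Metric.mem_ball, dist_eq_norm, Jop_apply, hJ.fix, hyw]
  rw [Metric.mem_ball, dist_eq_norm] at hw
  have h1 : J w - v = J (w - J v) := by
    have e1 : w - J v = w + (-1 : ℂ) • J v := by rw [neg_one_smul, sub_eq_add_neg]
    rw [e1, hJ.add, hJ.smul, hJ.inv, map_neg, map_one, neg_one_smul, sub_eq_add_neg]
  rw [h1, J_norm hJ]
  exact hw

end aux2


section aux3

variable {H : Type} [NormedAddCommGroup H] [InnerProductSpace ℂ H] [CompleteSpace H]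

/-! ### Mollifiers and cutoffs -/

/-- bump functions -/
noncomputable def bu (n : ℕ) : ContDiffBump (0 : ℝ) where
  rIn := 1 / (2 * ((n : ℝ) + 2))
  rOut := 1 / ((n : ℝ) + 2)
  rIn_pos := by positivity
  rIn_lt_rOut := by
    apply one_div_lt_one_div_of_lt
    · positivity
    · have : (0 : ℝ) ≤ n := n.cast_nonneg
      linarith

/-- mollifiers -/
noncomputable def mo (n : ℕ) : ℝ → ℝ := (bu n).normed volume

theorem mo_smooth (n : ℕ) : ContDiff ℝ (⊤ : ℕ∞) (mo n) := (bu n).contDiff_normed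

theorem mo_supp (n : ℕ) : HasCompactSupport (mo n) := (bu n).hasCompactSupport_normed

theorem mo_nonneg (n : ℕ) (x : ℝ) : 0 ≤ mo n x := (bu n).nonneg_normed x

theorem mo_integral (n : ℕ) : ∫ x : ℝ, mo n x = 1 := (bu n).integral_normed

theorem mo_integrable (n : ℕ) : Integrable (mo n) := (bu n).integrable_normed

theorem mo_neg (n : ℕ) (x : ℝ) : mo n (-x) = mo n x := (bu n).normed_neg x

theorem mo_zero (n : ℕ) {x : ℝ} (hx : 1 < |x|) : mo n x = 0 := by
  have h1 : x ∉ Function.support (mo n) := by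
    unfold mo
    rw [ContDiffBump.support_normed_eq, Metric.mem_ball, dist_zero_right, Real.norm_eq_abs, not_lt]
    have h2 : (bu n).rOut ≤ 1 := by
      show 1 / ((n : ℝ) + 2) ≤ 1
      rw [div_le_one (by positivity)]
      have : (0 : ℝ) ≤ n := n.cast_nonneg
      linarith
    linarith
  simpa using h1

theorem mo_ae (g : ℝ → H) (hg : LocallyIntegrable g (volume : Measure ℝ)) :
    ∀ᵐ a : ℝ, Tendsto (fun n => ∫ p : ℝ, mo n (p - a) • g p) atTop (𝓝 (g a)) := by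
  have h1 : Tendsto (fun i : ℕ => (bu i).rOut) atTop (𝓝 0) := by
    show Tendsto (fun i : ℕ => 1 / ((i : ℝ) + 2)) atTop (𝓝 0)
    have h2 : Tendsto (fun i : ℕ => (i : ℝ) + 2) atTop atTop :=
      tendsto_atTop_add_const_right _ _ tendsto_natCast_atTop_atTop
    simp only [one_div]
    exact tendsto_inv_atTop_zero.comp h2
  have h2 : ∀ᶠ i in atTop, (bu i).rOut ≤ 2 * (bu i).rIn := by
    refine Eventually.of_forall fun i => ?_
    show 1 / ((i : ℝ) + 2) ≤ 2 * (1 / (2 * ((i : ℝ) + 2)))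
    apply le_of_eq
    field_simp
  filter_upwards [ContDiffBump.ae_convolution_tendsto_right_of_locallyIntegrable h1 h2 hg] with a ha
  refine ha.congr fun n => ?_
  rw [convolution_eq_swap]
  refine integral_congr_ae (Eventually.of_forall fun p => ?_)
  show (mo n (a - p)) • g p = _
  rw [← mo_neg, neg_sub]

theorem cutoff (R : ℝ) : ∃ χ : ℝ → ℝ, ContDiff ℝ (⊤ : ℕ∞) χ ∧ HasCompactSupport χ ∧
    (∀ x, |x| ≤ R → χ x = 1) ∧ (∀ x, 0 ≤ χ x) ∧ ∀ x, χ x ≤ 1 := by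
  let f : ContDiffBump (0 : ℝ) := ⟨max R 1, max R 1 + 1, by positivity, by linarith⟩
  refine ⟨f, f.contDiff, f.hasCompactSupport, fun x hx => ?_, fun x => f.nonneg, fun x => f.le_one⟩
  apply f.one_of_mem_closedBall
  rw [Metric.mem_closedBall, dist_zero_right, Real.norm_eq_abs]
  exact hx.trans (le_max_left _ _)

theorem ofReal_tst {f : ℝ → ℝ} (hf : ContDiff ℝ (⊤ : ℕ∞) f) (hc : HasCompactSupport f) :
    Tst (fun x => (f x : ℂ)) :=
  ⟨Complex.ofRealCLM.contDiff.comp hf, hc.comp_left (g := fun x : ℝ => (x : ℂ)) (by simp)⟩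

theorem tst_memLp {f : ℝ → ℂ} (hf : Tst f) : MemLp f 2 (volume : Measure ℝ) :=
  hf.1.continuous.memLp_of_hasCompactSupport hf.2

theorem tst_shift {f : ℝ → ℂ} (hf : Tst f) (a : ℝ) : Tst (fun p => f (p - a)) :=
  ⟨hf.1.comp (contDiff_id.sub contDiff_const), hf.2.comp_homeomorph (Homeomorph.subRight a)⟩

/-! ### Localization -/

theorem loc {A : LR H →L[ℂ] LR H} (hA : CExp A) {l χ : ℝ → ℂ} (hl : Tst l)
    (hlχ : ∀ p, l p * χ p = l p) {Tl Tχ : H →L[ℂ] LR H} (hTl : IsTen l Tl) (hTχ : IsTen χ Tχ)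
    (v : H) : (A (Tl v) : ℝ → H) =ᵐ[volume] fun p => l p • A (Tχ v) p := by
  refine commute_mul hA hl ?_
  filter_upwards [hTl v, hTχ v] with p h1 h2
  rw [h1, h2, smul_smul, hlχ]

theorem sl_loc {A : LR H →L[ℂ] LR H} (hA : CExp A) {k l χ : ℝ → ℂ} (hk : Tst k) (hl : Tst l)
    (hlχ : ∀ p, l p * χ p = l p) (hkl : ∀ p, starRingEnd ℂ (k p) * l p = l p)
    {Tk Tl Tχ : H →L[ℂ] LR H} (hTk : IsTen k Tk)
    (hTl : IsTen l Tl) (hTχ : IsTen χ Tχ) (v : H) :
    ContinuousLinearMap.adjoint Tk (A (Tl v)) = ∫ p : ℝ, l p • A (Tχ v) p := by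
  rw [ten_adj (tst_memLp hk) hTk]
  refine integral_congr_ae ?_
  filter_upwards [loc hA hl hlχ hTl hTχ v] with p hp
  rw [hp, smul_smul, hkl]

/-! ### The norm bound -/

theorem norm_sq_L2 (G : LR H) : ‖G‖ ^ 2 = ∫ s : ℝ, ‖G s‖ ^ 2 := by
  have h := L2.inner_def (𝕜 := ℂ) G G
  rw [inner_self_eq_norm_sq_to_K] at h
  simp_rw [inner_self_eq_norm_sq_to_K] at h
  have h2 : ((‖G‖ ^ 2 : ℝ) : ℂ) = ∫ s : ℝ, ((‖G s‖ ^ 2 : ℝ) : ℂ) := by
    push_cast
    exact h
  have h3 : ((‖G‖ ^ 2 : ℝ) : ℂ) = ((∫ s : ℝ, ‖G s‖ ^ 2 : ℝ) : ℂ) :=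
    h2.trans (integral_ofReal (𝕜 := ℂ))
  exact Complex.ofReal_injective h3

theorem ten_norm {f : ℝ → ℂ} {T : H →L[ℂ] LR H} (hT : IsTen f T) {C : ℝ} (hC : 0 ≤ C)
    (h : ∫ s : ℝ, ‖f s‖ ^ 2 ≤ C ^ 2) : ‖T‖ ≤ C := by
  refine ContinuousLinearMap.opNorm_le_bound _ hC fun v => ?_
  have h1 : ‖T v‖ ^ 2 = (∫ s : ℝ, ‖f s‖ ^ 2) * ‖v‖ ^ 2 := by
    rw [norm_sq_L2, ← integral_mul_const]
    refine integral_congr_ae ?_
    filter_upwards [hT v] with s hs
    rw [hs, norm_smul, mul_pow]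
  have h2 : ‖T v‖ ^ 2 ≤ (C * ‖v‖) ^ 2 := by
    rw [h1, mul_pow]
    gcongr
  exact (pow_le_pow_iff_left₀ (norm_nonneg _) (by positivity) two_ne_zero).1 h2

/-- the bound of the slices -/
theorem sl_norm {A : LR H →L[ℂ] LR H} (hA : CExp A)
    (ten : ∀ f : ℝ → ℂ, MemLp f 2 (volume : Measure ℝ) → ∃ T : H →L[ℂ] LR H, IsTen f T)
    {χ : ℝ → ℝ} (hχ : ContDiff ℝ (⊤ : ℕ∞) χ) (hχc : HasCompactSupport χ)
    (hχ1 : ∀ x, |x| ≤ 1 → χ x = 1) (hχ0 : ∀ x, 0 ≤ χ x) (hχ2 : ∀ x, χ x ≤ 1)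
    {Tχ : H →L[ℂ] LR H} (hTχ : IsTen (fun p => (χ p : ℂ)) Tχ) :
    ∃ C : ℝ, ∀ (n : ℕ) (Tm : H →L[ℂ] LR H), IsTen (fun p => (mo n p : ℂ)) Tm →
      ‖ContinuousLinearMap.adjoint Tχ ∘L A ∘L Tm‖ ≤ C := by
  have hχi : Integrable χ := hχ.continuous.integrable_of_hasCompactSupport hχc
  have hχn : 0 ≤ ∫ x, χ x := integral_nonneg hχ0
  refine ⟨Real.sqrt (1 + ∫ x, χ x) * (‖A‖ * 1), fun n Tm hTm => ?_⟩
  -- the two factors
  have hpos : ∀ p, 0 < mo n p + 1 := fun p => by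
    have := mo_nonneg n p
    linarith
  have hsq : ContDiff ℝ (⊤ : ℕ∞) fun p => Real.sqrt (mo n p + 1) :=
    ((mo_smooth n).add contDiff_const).sqrt fun p => (hpos p).ne'
  set b : ℝ → ℝ := fun p => χ p * Real.sqrt (mo n p + 1) with hb_def
  have hb : Tst fun p => (b p : ℂ) := ofReal_tst (hχ.mul hsq) hχc.mul_right
  set l : ℝ → ℝ := fun p => mo n p / Real.sqrt (mo n p + 1) with hl_def
  have hl : Tst fun p => (l p : ℂ) := by
    refine ofReal_tst ((mo_smooth n).div hsq fun p => (Real.sqrt_pos.2 (hpos p)).ne') ?_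
    have : l = fun p => mo n p * (Real.sqrt (mo n p + 1))⁻¹ := by
      funext p
      rw [hl_def]
      exact div_eq_mul_inv _ _
    rw [this]
    exact (mo_supp n).mul_right
  have hb' : Tst fun p => ((χ p * b p : ℝ) : ℂ) := ofReal_tst (hχ.mul (hχ.mul hsq)) hχc.mul_right
  obtain ⟨Tl, hTl⟩ := ten _ (tst_memLp hl)
  obtain ⟨Tb, hTb⟩ := ten _ (tst_memLp hb')
  have hmχ : ∀ p, mo n p * χ p = mo n p := fun p => by
    rcases le_or_gt |p| 1 with h | h
    · rw [hχ1 p h, mul_one]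
    · rw [mo_zero n h, zero_mul]
  have hbl : ∀ p, b p * l p = mo n p := fun p => by
    have h0 : Real.sqrt (mo n p + 1) ≠ 0 := (Real.sqrt_pos.2 (hpos p)).ne'
    rw [hb_def, hl_def]
    simp only
    calc χ p * Real.sqrt (mo n p + 1) * (mo n p / Real.sqrt (mo n p + 1)) = mo n p * χ p := by
          field_simp
      _ = mo n p := hmχ p
  have e1 : ContinuousLinearMap.adjoint Tχ ∘L A ∘L Tm =
      ContinuousLinearMap.adjoint Tb ∘L A ∘L Tl := by
    ext1 v
    show ContinuousLinearMap.adjoint Tχ (A (Tm v)) = ContinuousLinearMap.adjoint Tb (A (Tl v))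
    rw [ten_adj (tst_memLp (ofReal_tst hχ hχc)) hTχ, ten_adj (tst_memLp hb') hTb]
    have h1 : (A (Tm v) : ℝ → H) =ᵐ[volume] fun p => (b p : ℂ) • A (Tl v) p := by
      refine commute_mul hA hb ?_
      filter_upwards [hTm v, hTl v] with p h1 h2
      rw [h1, h2, smul_smul, ← hbl p]
      push_cast
      rfl
    refine integral_congr_ae ?_
    filter_upwards [h1] with p hp
    rw [hp, smul_smul]
    simp only [Complex.conj_ofReal]
    push_cast
    rfl
  rw [e1]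
  have n1 : ‖Tl‖ ≤ 1 := by
    refine ten_norm hTl zero_le_one ?_
    rw [one_pow, ← mo_integral n]
    refine integral_mono_of_nonneg (Eventually.of_forall fun p => by positivity) (mo_integrable n)
      (Eventually.of_forall fun p => ?_)
    simp only [Complex.norm_real, Real.norm_eq_abs, sq_abs, hl_def, div_pow,
      Real.sq_sqrt (hpos p).le]
    rw [div_le_iff₀ (hpos p)]
    have := mo_nonneg n p
    nlinarith
  have n2 : ‖Tb‖ ≤ Real.sqrt (1 + ∫ x, χ x) := by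
    refine ten_norm hTb (Real.sqrt_nonneg _) ?_
    rw [Real.sq_sqrt (by positivity), ← mo_integral n, ← integral_add (mo_integrable n) hχi]
    refine integral_mono_of_nonneg (Eventually.of_forall fun p => by positivity)
      ((mo_integrable n).add hχi) (Eventually.of_forall fun p => ?_)
    simp only [Complex.norm_real, Real.norm_eq_abs, sq_abs, hb_def, mul_pow,
      Real.sq_sqrt (hpos p).le]
    have h1 := mo_nonneg n p
    have h2 := hχ0 p
    have h3 := hχ2 p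
    have h4 : χ p ^ 2 ≤ χ p := by nlinarith
    have h5 : 0 ≤ χ p ^ 2 := by positivity
    have h6 : χ p ^ 2 * χ p ^ 2 ≤ χ p := by nlinarith
    have h7 : χ p ^ 2 * χ p ^ 2 ≤ 1 := h6.trans h3
    calc χ p ^ 2 * (χ p ^ 2 * (mo n p + 1)) =
        (χ p ^ 2 * χ p ^ 2) * mo n p + χ p ^ 2 * χ p ^ 2 := by ring
      _ ≤ 1 * mo n p + χ p := by gcongr
      _ = mo n p + χ p := by ring
  calc ‖ContinuousLinearMap.adjoint Tb ∘L A ∘L Tl‖
      ≤ ‖ContinuousLinearMap.adjoint Tb‖ * ‖A ∘L Tl‖ := ContinuousLinearMap.opNorm_comp_le _ _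
    _ ≤ ‖ContinuousLinearMap.adjoint Tb‖ * (‖A‖ * ‖Tl‖) := by
        gcongr
        exact ContinuousLinearMap.opNorm_comp_le _ _
    _ = ‖Tb‖ * (‖A‖ * ‖Tl‖) := by rw [LinearIsometryEquiv.norm_map]
    _ ≤ _ := by gcongr

end aux3


section aux4

variable {H : Type} [NormedAddCommGroup H] [InnerProductSpace ℂ H] [CompleteSpace H]

/-- the properties of `A = W⁻¹ Y W` -/
structure Good (N M : VonNeumannAlgebra H) (ξ : H) (U : ℝ → H →L[ℂ] H) (J : H → H)
    (E : (H →L[ℂ] H) → (H →L[ℂ] H)) (β : ℝ → (H →L[ℂ] H) → (H →L[ℂ] H))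
    (A : LR H →L[ℂ] LR H) : Prop where
  inc : Inc2 N M ξ U J E
  flow : IsBicFlow N M ξ β
  ten : ∀ f : ℝ → ℂ, MemLp f 2 (volume : Measure ℝ) → ∃ T : H →L[ℂ] LR H, IsTen f T
  cex : CExp A
  mem : ∀ k l : ℝ → ℂ, Tst k → Tst l → ∀ Tk Tl : H →L[ℂ] LR H, IsTen k Tk → IsTen l Tl →
    ContinuousLinearMap.adjoint Tk ∘L A ∘L Tl ∈ relBicentralizer N M ξ
  cov : ∀ k l : ℝ → ℂ, Tst k → Tst l → ∀ Tk Tl Tk' Tl' : H →L[ℂ] LR H, IsTen k Tk → IsTen l Tl →
    ∀ a : ℝ, IsTen (fun p => k (p - a)) Tk' → IsTen (fun p => l (p - a)) Tl' →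
    β (Real.exp a) (ContinuousLinearMap.adjoint Tk ∘L A ∘L Tl) =
      ContinuousLinearMap.adjoint Tk' ∘L A ∘L Tl'
  iso : ∀ b ∈ relBicentralizer N M ξ, ∀ c ∈ relBicentralizer N M ξ, ∀ a : ℝ,
    ‖β (Real.exp a) b ξ - β (Real.exp a) c ξ‖ = ‖b ξ - c ξ‖
  lim : ∀ x : ℕ → H →L[ℂ] H, (∀ n, x n ∈ relBicentralizer N M ξ) → ∀ c : H →L[ℂ] H, c ∈ M →
    Tendsto (fun n => x n ξ) atTop (𝓝 (c ξ)) → c ∈ relBicentralizer N M ξ

/-- a strong limit -/
theorem strong_lim {N M : VonNeumannAlgebra H} {ξ : H} {U : ℝ → H →L[ℂ] H} {J : H → H}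
    {E : (H →L[ℂ] H) → (H →L[ℂ] H)} (hI : Inc2 N M ξ U J E) (x : ℕ → H →L[ℂ] H)
    (hx : ∀ n, x n ∈ M) {C : ℝ} (hC : ∀ n, ‖x n‖ ≤ C) (hc : CauchySeq fun n => x n ξ) :
    ∃ c : H →L[ℂ] H, c ∈ M ∧ ∀ v : H, Tendsto (fun n => x n v) atTop (𝓝 (c v)) := by
  have hC0 : 0 ≤ C := (norm_nonneg _).trans (hC 0)
  have hcau : ∀ v : H, CauchySeq fun n => x n v := by
    intro v
    rw [Metric.cauchySeq_iff']
    intro ε hε
    obtain ⟨w, hw, y, hy, hyw⟩ := Metric.dense_iff.1 (comm_dense hI.conj hI.cyc) v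
      (ε / (4 * (C + 1))) (by positivity)
    rw [Metric.mem_ball, dist_eq_norm] at hw
    obtain ⟨n₀, hn₀⟩ := Metric.cauchySeq_iff'.1 hc (ε / (4 * (‖y‖ + 1))) (by positivity)
    refine ⟨n₀, fun n hn => ?_⟩
    have h1 := hn₀ n hn
    rw [dist_eq_norm] at h1 ⊢
    have hyx : ∀ m, x m w = y (x m ξ) := by
      intro m
      have := VonNeumannAlgebra.mem_commutant_iff.1 hy (x m) (hx m)
      rw [← hyw]
      exact congrArg (fun B : H →L[ℂ] H => B ξ) this
    have h2 : ‖x n w - x n₀ w‖ ≤ ε / 4 := by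
      rw [hyx, hyx, ← map_sub]
      calc ‖y (x n ξ - x n₀ ξ)‖ ≤ ‖y‖ * ‖x n ξ - x n₀ ξ‖ := y.le_opNorm _
        _ ≤ (‖y‖ + 1) * (ε / (4 * (‖y‖ + 1))) := by
            gcongr
            linarith
        _ = ε / 4 := by
            have : ‖y‖ + 1 ≠ 0 := by positivity
            field_simp
    have h3 : ∀ m, ‖x m (v - w)‖ ≤ ε / 4 := by
      intro m
      calc ‖x m (v - w)‖ ≤ ‖x m‖ * ‖v - w‖ := (x m).le_opNorm _
        _ ≤ (C + 1) * (ε / (4 * (C + 1))) := by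
            gcongr
            · linarith [hC m]
            · rw [norm_sub_rev]
              exact hw.le
        _ = ε / 4 := by
            have : C + 1 ≠ 0 := by positivity
            field_simp
    have e1 : x n v - x n₀ v = x n (v - w) + (x n w - x n₀ w) - x n₀ (v - w) := by
      rw [map_sub, map_sub]
      abel
    rw [e1]
    calc ‖x n (v - w) + (x n w - x n₀ w) - x n₀ (v - w)‖
        ≤ ‖x n (v - w) + (x n w - x n₀ w)‖ + ‖x n₀ (v - w)‖ := norm_sub_le _ _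
      _ ≤ ‖x n (v - w)‖ + ‖x n w - x n₀ w‖ + ‖x n₀ (v - w)‖ := by
          gcongr
          exact norm_add_le _ _
      _ ≤ ε / 4 + ε / 4 + ε / 4 := by
          gcongr
          · exact h3 n
          · exact h3 n₀
      _ < ε := by linarith
  choose f hf using fun v => cauchySeq_tendsto_of_complete (hcau v)
  let c : H →L[ℂ] H := continuousLinearMapOfTendsto x (tendsto_pi_nhds.2 hf)
  have hcv : ∀ v, Tendsto (fun n => x n v) atTop (𝓝 (c v)) := hf
  refine ⟨c, ?_, hcv⟩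
  rw [← VonNeumannAlgebra.commutant_commutant M, VonNeumannAlgebra.mem_commutant_iff]
  intro y hy
  ext1 v
  show y (c v) = c (y v)
  have h1 : Tendsto (fun n => y (x n v)) atTop (𝓝 (y (c v))) :=
    (y.continuous.tendsto _).comp (hcv v)
  have h2 : ∀ n, y (x n v) = x n (y v) := by
    intro n
    have := VonNeumannAlgebra.mem_commutant_iff.1 hy (x n) (hx n)
    exact (congrArg (fun B : H →L[ℂ] H => B v) this).symm
  simp only [h2] at h1
  exact tendsto_nhds_unique h1 (hcv (y v))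

theorem main {N M : VonNeumannAlgebra H} {ξ : H} {U : ℝ → H →L[ℂ] H} {J : H → H}
    {E : (H →L[ℂ] H) → (H →L[ℂ] H)} {β : ℝ → (H →L[ℂ] H) → (H →L[ℂ] H)}
    {A : LR H →L[ℂ] LR H} (g : Good N M ξ U J E β A) :
    ∃ c ∈ relBicentralizer N M ξ, ∀ l : ℝ → ℂ, Tst l → ∀ T : H →L[ℂ] LR H, IsTen l T →
      (A (T ξ) : ℝ → H) =ᵐ[volume] fun p => l p • β (Real.exp p) c ξ := by
  obtain ⟨χ₀, hχ, hχc, hχ1, hχ0, hχ2⟩ := cutoff 1
  have hχt : Tst (fun p => (χ₀ p : ℂ)) := ofReal_tst hχ hχc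
  obtain ⟨Tχ, hTχ⟩ := g.ten _ (tst_memLp hχt)
  have hmt : ∀ n, Tst (fun p => (mo n p : ℂ)) := fun n => ofReal_tst (mo_smooth n) (mo_supp n)
  choose Tm hTm using fun n => g.ten _ (tst_memLp (hmt n))
  set x : ℕ → H →L[ℂ] H := fun n => ContinuousLinearMap.adjoint Tχ ∘L A ∘L Tm n with hx_def
  have hxB : ∀ n, x n ∈ relBicentralizer N M ξ := fun n =>
    g.mem _ _ hχt (hmt n) _ _ hTχ (hTm n)
  obtain ⟨C, hC⟩ := sl_norm g.cex g.ten hχ hχc hχ1 hχ0 hχ2 hTχ
  -- the local densities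
  choose χ hχs using cutoff
  have hχRt : ∀ R, Tst (fun p => (χ R p : ℂ)) := fun R => ofReal_tst (hχs R).1 (hχs R).2.1
  choose TR hTR using fun R => g.ten _ (tst_memLp (hχRt R))
  -- the formula for the translated slices
  have form : ∀ (R : ℝ) (n : ℕ) (a : ℝ), |a| + 1 ≤ R →
      β (Real.exp a) (x n) ξ = ∫ p : ℝ, mo n (p - a) • A (TR R ξ) p := by
    intro R n a haR
    have hk := tst_shift hχt a
    have hl := tst_shift (hmt n) a
    obtain ⟨Tk', hTk'⟩ := g.ten _ (tst_memLp hk)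
    obtain ⟨Tl', hTl'⟩ := g.ten _ (tst_memLp hl)
    have h1 := g.cov _ _ hχt (hmt n) _ _ _ _ hTχ (hTm n) a hTk' hTl'
    rw [hx_def]
    simp only
    rw [h1]
    show ContinuousLinearMap.adjoint Tk' (A (Tl' ξ)) = _
    rw [sl_loc g.cex hk hl (χ := fun p => (χ R p : ℂ)) ?_ ?_ hTk' hTl' (hTR R) ξ]
    · refine integral_congr_ae (Eventually.of_forall fun p => ?_)
      simp only
      rw [Complex.coe_smul]
    · intro p
      rcases le_or_gt |p - a| 1 with h | h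
      · have : |p| ≤ R := by
          have e : p = (p - a) + a := by ring
          rw [e]
          exact (abs_add_le _ _).trans (by linarith)
        rw [(hχs R).2.2.1 p this]
        simp
      · rw [mo_zero n h]
        simp
    · intro p
      rw [Complex.conj_ofReal]
      rcases le_or_gt |p - a| 1 with h | h
      · rw [hχ1 _ h]
        simp
      · rw [mo_zero n h]
        simp
  -- convergence almost everywhere
  have conv : ∀ R : ℝ, ∀ᵐ a : ℝ, |a| + 1 ≤ R →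
      Tendsto (fun n => β (Real.exp a) (x n) ξ) atTop (𝓝 (A (TR R ξ) a)) := by
    intro R
    have hloc : LocallyIntegrable (A (TR R ξ) : ℝ → H) (volume : Measure ℝ) :=
      (Lp.memLp _).locallyIntegrable (by norm_num)
    filter_upwards [mo_ae (A (TR R ξ) : ℝ → H) hloc] with a ha haR
    refine ha.congr fun n => (form R n a haR).symm
  -- the sequence `x_n ξ` is Cauchy
  have hcau : CauchySeq fun n => x n ξ := by
    obtain ⟨a, ha1, ha2⟩ : ∃ a : ℝ, |a| + 1 ≤ 2 ∧ (|a| + 1 ≤ 2 →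
        Tendsto (fun n => β (Real.exp a) (x n) ξ) atTop (𝓝 (A (TR 2 ξ) a))) := by
      by_contra hcon
      push Not at hcon
      have h1 : Set.Icc (-1 : ℝ) 1 ⊆ {a : ℝ | ¬(|a| + 1 ≤ 2 →
          Tendsto (fun n => β (Real.exp a) (x n) ξ) atTop (𝓝 (A (TR 2 ξ) a)))} := by
        intro a ha
        have h2 : |a| + 1 ≤ 2 := by
          have := abs_le.2 ⟨ha.1, ha.2⟩
          linarith
        have h3 := hcon a h2
        simp only [Set.mem_ofPred_eq]
        intro h4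
        exact h3.2 (h4 h2)
      have h2 := measure_mono_null h1 (conv 2)
      rw [Real.volume_Icc] at h2
      norm_num at h2
    have h1 := (ha2 ha1).cauchySeq
    rw [Metric.cauchySeq_iff'] at h1 ⊢
    intro ε hε
    obtain ⟨n₀, hn₀⟩ := h1 ε hε
    refine ⟨n₀, fun n hn => ?_⟩
    have h2 := hn₀ n hn
    rw [dist_eq_norm] at h2 ⊢
    rwa [g.iso _ (hxB n) _ (hxB n₀)] at h2
  obtain ⟨c, hcM, hc⟩ := strong_lim g.inc x (fun n => (hxB n).1) (fun n => hC n _ (hTm n)) hcau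
  have hcB : c ∈ relBicentralizer N M ξ := g.lim x hxB c hcM (hc ξ)
  have hβc : ∀ a : ℝ, Tendsto (fun n => β (Real.exp a) (x n) ξ) atTop
      (𝓝 (β (Real.exp a) c ξ)) := by
    intro a
    rw [tendsto_iff_norm_sub_tendsto_zero]
    have h1 := tendsto_iff_norm_sub_tendsto_zero.1 (hc ξ)
    refine h1.congr fun n => ?_
    rw [g.iso _ (hxB n) _ hcB]
  have dens : ∀ R : ℝ, ∀ᵐ a : ℝ, |a| + 1 ≤ R → A (TR R ξ) a = β (Real.exp a) c ξ := by
    intro R
    filter_upwards [conv R] with a ha haR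
    exact tendsto_nhds_unique (ha haR) (hβc a)
  refine ⟨c, hcB, fun l hl T hT => ?_⟩
  obtain ⟨R, hR⟩ : ∃ R : ℝ, ∀ p, l p ≠ 0 → |p| + 1 ≤ R := by
    obtain ⟨r, hr⟩ := hl.2.isCompact.isBounded.subset_closedBall 0
    refine ⟨r + 1, fun p hp => ?_⟩
    have := hr (subset_tsupport _ hp)
    rw [Metric.mem_closedBall, dist_zero_right, Real.norm_eq_abs] at this
    linarith
  have h1 := loc g.cex hl (χ := fun p => (χ R p : ℂ)) (fun p => by
    by_cases h : l p = 0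
    · rw [h, zero_mul]
    · have := hR p h
      rw [(hχs R).2.2.1 p (by linarith)]
      simp) hT (hTR R) ξ
  filter_upwards [h1, dens R] with p h2 h3
  rw [h2]
  by_cases h : l p = 0
  · rw [h, zero_smul, zero_smul]
  · rw [h3 (hR p h)]

/-- the vectors `l ⊗ v` are total -/
theorem total {G : LR H} (h : ∀ l : ℝ → ℂ, Tst l → ∀ T : H →L[ℂ] LR H, IsTen l T →
    ContinuousLinearMap.adjoint T G = 0)
    (ten : ∀ f : ℝ → ℂ, MemLp f 2 (volume : Measure ℝ) → ∃ T : H →L[ℂ] LR H, IsTen f T) :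
    G = 0 := by
  have hloc : LocallyIntegrable (G : ℝ → H) (volume : Measure ℝ) :=
    (Lp.memLp _).locallyIntegrable (by norm_num)
  have h1 : ∀ᵐ p : ℝ, G p = 0 := by
    refine ae_eq_zero_of_integral_contDiff_smul_eq_zero hloc fun l hl hlc => ?_
    have hlt : Tst (fun p => (l p : ℂ)) := ofReal_tst hl hlc
    obtain ⟨T, hT⟩ := ten _ (tst_memLp hlt)
    have h2 := h _ hlt T hT
    rw [ten_adj (tst_memLp hlt) hT] at h2
    rw [← h2]
    refine integral_congr_ae (Eventually.of_forall fun p => ?_)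
    simp only [Complex.conj_ofReal]
    rw [Complex.coe_smul]
  exact (Lp.eq_zero_iff_ae_eq_zero (f := G)).2 h1

end aux4

theorem r (h1 : S_slice) (h2 : S_slbeta) (h3 : S_pi) (h4 : S_ops) (h5 : S_betaE) (h6 : S_Bchar)
    (h7 : S_KK) : S_surj := by
  intro H _ _ _ N M ξ U J E β W hI hβ hW Y hY hYN hYt
  obtain ⟨-, -, o3, o4, o5, o6⟩ := h4 H M ξ U hI.modular
  have ten : ∀ f : ℝ → ℂ, MemLp f 2 (volume : Measure ℝ) → ∃ T : H →L[ℂ] LR H, IsTen f T := by
    intro f hf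
    obtain ⟨T, hT, -⟩ := o4 f hf
    exact ⟨T, hT⟩
  have exx : ∀ Tk Tl : H →L[ℂ] LR H,
      ContinuousLinearMap.adjoint Tk ∘L hat W Y ∘L Tl = xx W Y Tk Tl := by
    intro Tk Tl
    ext1 v
    rw [xx_apply]
    rfl
  obtain ⟨K, hK, hKc, -, -, -⟩ := h7 H M N ξ U J hI.le hI.modular hI.conj hI.mod
  have good : Good N M ξ U J E β (hat W Y) := by
    refine ⟨hI, hβ, ten, ?_, ?_, ?_, ?_, ?_⟩
    · intro t
      obtain ⟨T, hT, -⟩ := o6 (Real.exp t) (Real.exp_pos t)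
      unfold IsULam at hT
      rw [Real.log_exp] at hT
      obtain ⟨S, hS, -⟩ := o5 t
      exact ⟨T, hT, fun f => hat_exp hW hS (hYt t S hS) hT f⟩
    · intro k l hk hl Tk Tl hTk hTl
      rw [exx]
      exact slice_mem h1 hI hW hY hYN hk.1.continuous hk.2 hl.1.continuous hl.2 hTk hTl
    · intro k l hk hl Tk Tl Tk' Tl' hTk hTl a hTk' hTl'
      rw [exx, exx]
      exact cov h2 h4 hI hβ hW hY hYN hk.1.continuous hk.2 hl.1.continuous hl.2 hTk hTl a hTk' hTl'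
    · intro b hb c hc a
      have h8 := (h5 H N M ξ U J E β hI hβ).2 (Real.exp a) (Real.exp_pos a)
      have e1 := (h8 b hb).2 b hb
      have e2 := (h8 b hb).2 c hc
      have e3 := (h8 c hc).2 b hb
      have e4 := (h8 c hc).2 c hc
      have e5 : ⟪β (Real.exp a) b ξ - β (Real.exp a) c ξ, β (Real.exp a) b ξ - β (Real.exp a) c ξ⟫_ℂ
          = ⟪b ξ - c ξ, b ξ - c ξ⟫_ℂ := by
        simp only [inner_sub_left, inner_sub_right, e1, e2, e3, e4]
      rw [inner_self_eq_norm_sq_to_K, inner_self_eq_norm_sq_to_K] at e5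
      have e6 : ‖β (Real.exp a) b ξ - β (Real.exp a) c ξ‖ ^ 2 = ‖b ξ - c ξ‖ ^ 2 := by
        exact_mod_cast e5
      exact (pow_left_inj₀ (norm_nonneg _) (norm_nonneg _) two_ne_zero).1 e6
    · intro x hx c hc hlim
      rw [h6 H N M ξ U J E hI.toInc c]
      refine ⟨hc, ?_⟩
      rw [← hK]
      refine hKc.mem_of_tendsto hlim (Eventually.of_forall fun n => ?_)
      rw [hK]
      exact ((h6 H N M ξ U J E hI.toInc (x n)).1 (hx n)).2
  obtain ⟨c, hcB, hc⟩ := main good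
  refine ⟨c, hcB, ?_⟩
  obtain ⟨T, ⟨A, hA, hT⟩, -⟩ := (h3 H N M ξ U J E β W hI hβ hW).1 c hcB
  refine ⟨A, hA, ?_⟩
  -- `hat W Y = A`
  have step1 : ∀ l : ℝ → ℂ, Tst l → ∀ T : H →L[ℂ] LR H, IsTen l T →
      hat W Y ∘L T = A ∘L T := by
    intro l hl T hT
    have h8 : ∀ y : H →L[ℂ] H, y ∈ M.commutant → hat W Y (T (y ξ)) = A (T (y ξ)) := by
      intro y hy
      obtain ⟨S, hS, -⟩ := o3 y
      rw [ten_const hT hS, hat_const hW hS (hY y hy S hS)]
      apply Lp.ext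
      filter_upwards [hS (hat W Y (T ξ)), hc l hl T hT, hA (S (T ξ)), hS (T ξ), hT ξ]
        with p a1 a2 a3 a4 a5
      rw [a1, a2, a3, a4, a5, map_smul, map_smul, map_smul]
      have := VonNeumannAlgebra.mem_commutant_iff.1 hy (β (Real.exp p) c)
        (hβ.mem _ (Real.exp_pos p) c hcB).1
      congr 1
      exact (congrArg (fun B : H →L[ℂ] H => B ξ) this).symm
    have h9 : (hat W Y ∘L T : H → LR H) = (A ∘L T : H →L[ℂ] LR H) := by
      refine Continuous.ext_on (comm_dense hI.conj hI.cyc) (hat W Y ∘L T).continuous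
        (A ∘L T).continuous ?_
      rintro v ⟨y, hy, rfl⟩
      exact h8 y hy
    ext1 v
    exact congrFun h9 v
  have step2 : hat W Y = A := by
    have h8 : ContinuousLinearMap.adjoint (hat W Y - A) = 0 := by
      ext1 G
      refine total (fun l hl T hT => ?_) ten
      have h9 := step1 l hl T hT
      have h10 : (hat W Y - A) ∘L T = 0 := by
        rw [ContinuousLinearMap.sub_comp, h9, sub_self]
      have h11 := congrArg ContinuousLinearMap.adjoint h10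
      rw [ContinuousLinearMap.adjoint_comp, map_zero] at h11
      exact congrArg (fun B : LR H →L[ℂ] H => B G) h11
    have h9 := congrArg ContinuousLinearMap.adjoint h8
    rw [ContinuousLinearMap.adjoint_adjoint, map_zero] at h9
    exact sub_eq_zero.1 h9
  intro f
  rw [← step2, W_hat]

end Pool.Agent.H255.BC.R_surj
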