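import Pool.Agent.H255.BC.Defs2

set_option autoImplicit false

open MeasureTheory Filter Topology Complex
open scoped InnerProductSpace ENNReal FourierTransform

namespace Pool.Agent.H255.BC.R_vec

open Pool.Agent.W662.CB Pool.Agent.H255.BC

section basics

variable {H : Type} [NormedAddCommGroup H] [InnerProductSpace ℂ H] [CompleteSpace H]
  {M : VonNeumannAlgebra H} {ξ : H} {U : ℝ → H →L[ℂ] H} {J : H → H}

theorem J_neg (hJ : IsConj M ξ U J) (v : H) : J (-v) = -J v := by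
  have h := hJ.smul (-1) v
  simpa using h

theorem J_sub (hJ : IsConj M ξ U J) (v w : H) : J (v - w) = J v - J w := by
  rw [sub_eq_add_neg, hJ.add, J_neg hJ, sub_eq_add_neg]

theorem J_norm (hJ : IsConj M ξ U J) (v : H) : ‖J v‖ = ‖v‖ := by
  have h := hJ.inner v v
  rw [inner_self_eq_norm_sq_to_K, inner_self_eq_norm_sq_to_K] at h
  have h2 : ‖J v‖ ^ 2 = ‖v‖ ^ 2 := by exact_mod_cast h
  exact (sq_eq_sq₀ (norm_nonneg _) (norm_nonneg _)).1 h2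

theorem inner_J (hJ : IsConj M ξ U J) (v w : H) : ⟪v, J w⟫_ℂ = ⟪w, J v⟫_ℂ := by
  rw [← hJ.inner (J v) w, hJ.inv]

theorem inner_J' (hJ : IsConj M ξ U J) (v w : H) : ⟪J v, w⟫_ℂ = ⟪J w, v⟫_ℂ := by
  rw [← hJ.inner v (J w), hJ.inv]

/-- `J a J` -/
noncomputable def Rm (hJ : IsConj M ξ U J) (a : H →L[ℂ] H) : H →L[ℂ] H :=
  LinearMap.mkContinuous
    { toFun := fun v => J (a (J v))
      map_add' := fun v w => by rw [hJ.add, map_add, hJ.add]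
      map_smul' := fun c v => by
        rw [hJ.smul, map_smul, hJ.smul]; simp } ‖a‖ (by
      intro v
      show ‖J (a (J v))‖ ≤ ‖a‖ * ‖v‖
      rw [J_norm hJ]
      calc ‖a (J v)‖ ≤ ‖a‖ * ‖J v‖ := a.le_opNorm _
        _ = ‖a‖ * ‖v‖ := by rw [J_norm hJ])

theorem Rm_apply (hJ : IsConj M ξ U J) (a : H →L[ℂ] H) (v : H) : Rm hJ a v = J (a (J v)) := rfl

theorem Rm_norm (hJ : IsConj M ξ U J) (a : H →L[ℂ] H) (v : H) : ‖Rm hJ a v‖ ≤ ‖a‖ * ‖v‖ := by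
  rw [Rm_apply, J_norm hJ]
  calc ‖a (J v)‖ ≤ ‖a‖ * ‖J v‖ := a.le_opNorm _
    _ = ‖a‖ * ‖v‖ := by rw [J_norm hJ]

theorem Rm_mul (hJ : IsConj M ξ U J) (a b : H →L[ℂ] H) : Rm hJ (a * b) = Rm hJ a * Rm hJ b := by
  ext v
  show J (a (b (J v))) = J (a (J (J (b (J v)))))
  rw [hJ.inv]

theorem Rm_one (hJ : IsConj M ξ U J) : Rm hJ 1 = 1 := by
  ext v
  show J (J v) = v
  rw [hJ.inv]

theorem Rm_star (hJ : IsConj M ξ U J) (a : H →L[ℂ] H) : star (Rm hJ a) = Rm hJ (star a) := by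
  rw [ContinuousLinearMap.star_eq_adjoint, ContinuousLinearMap.star_eq_adjoint]
  symm
  rw [ContinuousLinearMap.eq_adjoint_iff]
  intro v w
  rw [Rm_apply, Rm_apply, inner_J' hJ, inner_J hJ, ContinuousLinearMap.adjoint_inner_right]

theorem Rm_comm (hJ : IsConj M ξ U J) {x y : H →L[ℂ] H} (hx : x ∈ M) (hy : y ∈ M) :
    x * Rm hJ y = Rm hJ y * x := by
  ext v
  exact hJ.comm x y hx hy v

theorem cm_eq (hJ : IsConj M ξ U J) (z : H →L[ℂ] H) (v : H) :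
    cm J z v = z v - Rm hJ (star z) v := rfl

end basics

section group

variable {H : Type} [NormedAddCommGroup H] [InnerProductSpace ℂ H] [CompleteSpace H]

/-- the unitary group of `N` -/
def GU (N : VonNeumannAlgebra H) : Type := {u : H →L[ℂ] H // IsUni N u}

theorem uni_mul {N : VonNeumannAlgebra H} {u v : H →L[ℂ] H} (hu : IsUni N u) (hv : IsUni N v) :
    IsUni N (u * v) := by
  refine ⟨mul_mem hu.1 hv.1, ?_, ?_⟩
  · rw [star_mul]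
    calc star v * star u * (u * v) = star v * (star u * u) * v := by noncomm_ring
      _ = 1 := by rw [hu.2.1, mul_one, hv.2.1]
  · rw [star_mul]
    calc u * v * (star v * star u) = u * (v * star v) * star u := by noncomm_ring
      _ = 1 := by rw [hv.2.2, mul_one, hu.2.2]

theorem uni_star {N : VonNeumannAlgebra H} {u : H →L[ℂ] H} (hu : IsUni N u) :
    IsUni N (star u) :=
  ⟨star_mem hu.1, by rw [star_star]; exact hu.2.2, by rw [star_star]; exact hu.2.1⟩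

theorem uni_one {N : VonNeumannAlgebra H} : IsUni N (1 : H →L[ℂ] H) :=
  ⟨one_mem _, by simp, by simp⟩

noncomputable instance (N : VonNeumannAlgebra H) : Group (GU N) where
  mul u v := ⟨u.1 * v.1, uni_mul u.2 v.2⟩
  one := ⟨1, uni_one⟩
  inv u := ⟨star u.1, uni_star u.2⟩
  mul_assoc u v w := Subtype.ext (mul_assoc u.1 v.1 w.1)
  one_mul u := Subtype.ext (one_mul u.1)
  mul_one u := Subtype.ext (mul_one u.1)
  inv_mul_cancel u := Subtype.ext u.2.2.1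

theorem GU_mul (N : VonNeumannAlgebra H) (u v : GU N) : (u * v).1 = u.1 * v.1 := rfl

theorem GU_one (N : VonNeumannAlgebra H) : (1 : GU N).1 = 1 := rfl

theorem GU_inv (N : VonNeumannAlgebra H) (u : GU N) : (u⁻¹).1 = star u.1 := rfl

variable {M N : VonNeumannAlgebra H} {ξ : H} {U : ℝ → H →L[ℂ] H} {J : H → H}

/-- the representation `u ↦ u J u J` -/
noncomputable def al (hNM : ∀ x : H →L[ℂ] H, x ∈ N → x ∈ M) (hJ : IsConj M ξ U J) :
    GU N →* (H →L[ℂ] H) where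
  toFun u := u.1 * Rm hJ u.1
  map_one' := by rw [GU_one, Rm_one, mul_one]
  map_mul' u v := by
    rw [GU_mul, Rm_mul]
    calc u.1 * v.1 * (Rm hJ u.1 * Rm hJ v.1) = u.1 * (v.1 * Rm hJ u.1) * Rm hJ v.1 := by
          noncomm_ring
      _ = u.1 * (Rm hJ u.1 * v.1) * Rm hJ v.1 := by
          rw [Rm_comm hJ (hNM _ v.2.1) (hNM _ u.2.1)]
      _ = _ := by noncomm_ring

theorem al_apply (hNM : ∀ x : H →L[ℂ] H, x ∈ N → x ∈ M) (hJ : IsConj M ξ U J) (u : GU N) (v : H) :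
    al hNM hJ u v = alf J u.1 v := rfl

theorem al_star (hNM : ∀ x : H →L[ℂ] H, x ∈ N → x ∈ M) (hJ : IsConj M ξ U J) (u : GU N) :
    star (al hNM hJ u) = al hNM hJ u⁻¹ := by
  show star (u.1 * Rm hJ u.1) = star u.1 * Rm hJ (star u.1)
  rw [star_mul, Rm_star, Rm_comm hJ (star_mem (hNM _ u.2.1)) (star_mem (hNM _ u.2.1))]

theorem al_KA (hNM : ∀ x : H →L[ℂ] H, x ∈ N → x ∈ M) (hJ : IsConj M ξ U J) (η : H) :
    η ∈ KA (al hNM hJ) ξ ↔ η ∈ KK N ξ J := by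
  constructor
  · intro h a ha
    obtain ⟨b, hb, h2⟩ := h a ha
    exact ⟨b, hb, fun u hu => h2 ⟨u, hu⟩⟩
  · intro h a ha
    obtain ⟨b, hb, h2⟩ := h a ha
    exact ⟨b, hb, fun u => h2 u.1 u.2⟩

theorem iso_norm {v : H →L[ℂ] H} (hv : star v * v = 1) (x : H) : ‖v x‖ = ‖x‖ := by
  have h : ⟪v x, v x⟫_ℂ = ⟪x, x⟫_ℂ := by
    rw [← ContinuousLinearMap.adjoint_inner_right, ← ContinuousLinearMap.star_eq_adjoint]
    show ⟪x, (star v * v) x⟫_ℂ = _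
    rw [hv]
    rfl
  rw [inner_self_eq_norm_sq_to_K, inner_self_eq_norm_sq_to_K] at h
  have h2 : ‖v x‖ ^ 2 = ‖x‖ ^ 2 := by exact_mod_cast h
  exact (sq_eq_sq₀ (norm_nonneg _) (norm_nonneg _)).1 h2

theorem iso_opNorm {v : H →L[ℂ] H} (hv : star v * v = 1) : ‖v‖ ≤ 1 :=
  v.opNorm_le_bound zero_le_one fun x => by rw [iso_norm hv, one_mul]

theorem iso_star {v : H →L[ℂ] H} (hv : star v * v = 1) (x : H) : ‖star v x‖ ≤ ‖x‖ := by
  calc ‖star v x‖ ≤ ‖star v‖ * ‖x‖ := (star v).le_opNorm x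
    _ ≤ 1 * ‖x‖ := by
      gcongr
      rw [norm_star]
      exact iso_opNorm hv
    _ = ‖x‖ := one_mul _

theorem cm_xi (hNM : ∀ x : H →L[ℂ] H, x ∈ N → x ∈ M) (hJ : IsConj M ξ U J) {t ε : ℝ}
    {v m : H →L[ℂ] H} (hv : IsScal N ξ J t ε v) (hm : m ∈ N) :
    ‖cm J (v * m) ξ‖ ≤ ‖m ξ - ((Real.sqrt t : ℝ) : ℂ) • J (star m ξ)‖ + ‖m‖ * ε := by
  obtain ⟨hvN, hv1, hv2⟩ := hv
  set w : H := J (star v ξ) - ((Real.sqrt t : ℝ) : ℂ) • v ξ with hw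
  have e1 : star v ξ = J (((Real.sqrt t : ℝ) : ℂ) • v ξ + w) := by
    rw [hw, add_sub_cancel, hJ.inv]
  have e2 : cm J (v * m) ξ =
      v (m ξ - ((Real.sqrt t : ℝ) : ℂ) • J (star m ξ)) - Rm hJ (star m) w := by
    rw [cm_eq hJ]
    have e3 : Rm hJ (star (v * m)) ξ =
        ((Real.sqrt t : ℝ) : ℂ) • v (J (star m ξ)) + Rm hJ (star m) w := by
      have e4 : Rm hJ (star (v * m)) ξ = Rm hJ (star m) (((Real.sqrt t : ℝ) : ℂ) • v ξ + w) := by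
        rw [Rm_apply, Rm_apply, ← e1, hJ.fix, star_mul]
        rfl
      rw [e4, map_add, map_smul]
      congr 2
      have e5 : (Rm hJ (star m) * v) ξ = (v * Rm hJ (star m)) ξ := by
        rw [Rm_comm hJ (hNM _ hvN) (star_mem (hNM _ hm))]
      have e6 : (Rm hJ (star m) * v) ξ = Rm hJ (star m) (v ξ) := rfl
      have e7 : (v * Rm hJ (star m)) ξ = v (J (star m (J ξ))) := rfl
      rw [← e6, e5, e7, hJ.fix]
    have e8 : v (m ξ - ((Real.sqrt t : ℝ) : ℂ) • J (star m ξ)) =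
        v (m ξ) - ((Real.sqrt t : ℝ) : ℂ) • v (J (star m ξ)) := by rw [map_sub, map_smul]
    have e9 : (v * m) ξ = v (m ξ) := rfl
    rw [e3, e8, e9, sub_sub]
  rw [e2]
  calc _ ≤ ‖v (m ξ - ((Real.sqrt t : ℝ) : ℂ) • J (star m ξ))‖ + ‖Rm hJ (star m) w‖ :=
        norm_sub_le _ _
    _ ≤ ‖m ξ - ((Real.sqrt t : ℝ) : ℂ) • J (star m ξ)‖ + ‖m‖ * ε := by
        rw [iso_norm hv1]
        gcongr
        calc ‖Rm hJ (star m) w‖ ≤ ‖star m‖ * ‖w‖ := Rm_norm hJ _ _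
          _ ≤ ‖m‖ * ε := by rw [norm_star]; gcongr

theorem cm_eta (hNM : ∀ x : H →L[ℂ] H, x ∈ N → x ∈ M) (hJ : IsConj M ξ U J)
    {v m : H →L[ℂ] H} (hvN : v ∈ N) (hv1 : star v * v = 1) (hm : m ∈ N) (ζ : H) :
    ‖m ζ - Rm hJ (star m) (star v (J (star v (J ζ))))‖ ≤ ‖cm J (v * m) ζ‖ := by
  have e1 : star v (cm J (v * m) ζ) = m ζ - Rm hJ (star m) (star v (J (star v (J ζ)))) := by
    rw [cm_eq hJ, map_sub]
    congr 1
    · have : star v ((v * m) ζ) = (star v * v) (m ζ) := rfl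
      rw [this, hv1]
      rfl
    · have e5 : (star v * Rm hJ (star m)) (J (star v (J ζ))) =
          (Rm hJ (star m) * star v) (J (star v (J ζ))) := by
        rw [Rm_comm hJ (star_mem (hNM _ hvN)) (star_mem (hNM _ hm))]
      have e6 : star v (Rm hJ (star (v * m)) ζ) =
          (star v * Rm hJ (star m)) (J (star v (J ζ))) := by
        show star v (J (star (v * m) (J ζ))) = star v (J (star m (J (J (star v (J ζ))))))
        rw [hJ.inv, star_mul]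
        rfl
      rw [e6, e5]
      rfl
  rw [← e1]
  exact iso_star hv1 _

theorem inner_Rm (hJ : IsConj M ξ U J) (m : H →L[ℂ] H) (w : H) :
    ⟪ξ, Rm hJ (star m) w⟫_ℂ = ⟪J (m ξ), w⟫_ℂ := by
  rw [← Rm_star, ContinuousLinearMap.star_eq_adjoint, ContinuousLinearMap.adjoint_inner_right,
    Rm_apply, hJ.fix]

end group


section gram

variable {H : Type} [NormedAddCommGroup H] [InnerProductSpace ℂ H] [CompleteSpace H]

/-- the row `(P_i^*)` is contractive -/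
theorem row_bound {r : ℕ} (P : Fin r → H →L[ℂ] H) (hP : ∀ v : H, ∑ i, ‖P i v‖ ^ 2 = ‖v‖ ^ 2)
    (u : Fin r → H) : ‖∑ i, star (P i) (u i)‖ ^ 2 ≤ ∑ i, ‖u i‖ ^ 2 := by
  set S : H := ∑ i, star (P i) (u i) with hS
  have h1 : ‖S‖ ^ 2 ≤ ∑ i, ‖u i‖ * ‖P i S‖ := by
    have h2 : (‖S‖ ^ 2 : ℝ) = ‖⟪S, S⟫_ℂ‖ := by
      rw [inner_self_eq_norm_sq_to_K]
      norm_num
    rw [h2]
    nth_rewrite 1 [hS]
    rw [sum_inner]
    refine (norm_sum_le _ _).trans (Finset.sum_le_sum fun i _ => ?_)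
    rw [ContinuousLinearMap.star_eq_adjoint, ContinuousLinearMap.adjoint_inner_left]
    exact norm_inner_le_norm _ _
  have h3 : (∑ i, ‖u i‖ * ‖P i S‖) ^ 2 ≤ (∑ i, ‖u i‖ ^ 2) * ‖S‖ ^ 2 := by
    rw [← hP S]
    exact Finset.sum_mul_sq_le_sq_mul_sq _ _ _
  have h4 : (‖S‖ ^ 2) ^ 2 ≤ (∑ i, ‖u i‖ ^ 2) * ‖S‖ ^ 2 :=
    (pow_le_pow_left₀ (by positivity) h1 2).trans h3
  have h5 : 0 ≤ ∑ i, ‖u i‖ ^ 2 := by positivity
  by_cases h6 : ‖S‖ ^ 2 = 0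
  · rw [h6]; exact h5
  · have h7 : 0 < ‖S‖ ^ 2 := lt_of_le_of_ne (by positivity) (Ne.symm h6)
    rw [sq] at h4
    exact le_of_mul_le_mul_right h4 h7

theorem gram_bound {r : ℕ} (P : Fin r → H →L[ℂ] H) (hP : ∀ v : H, ∑ i, ‖P i v‖ ^ 2 = ‖v‖ ^ 2)
    (ζ w : Fin r → H) :
    ‖∑ i, ∑ j, ⟪ζ i, ζ j⟫_ℂ * ⟪star (P i) (w i), star (P j) (w j)⟫_ℂ‖ ≤
      ∑ i, ‖ζ i‖ ^ 2 * ‖w i‖ ^ 2 := by
  classical
  set V : Submodule ℂ H := Submodule.span ℂ (Set.range ζ) with hV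
  have : FiniteDimensional ℂ V := FiniteDimensional.span_of_finite ℂ (Set.finite_range ζ)
  set e := stdOrthonormalBasis ℂ V with he
  set ζ' : Fin r → V := fun i => ⟨ζ i, Submodule.subset_span ⟨i, rfl⟩⟩ with hζ'
  have h1 : ∀ i j, ⟪ζ i, ζ j⟫_ℂ = ∑ α, (starRingEnd ℂ) ⟪e α, ζ' i⟫_ℂ * ⟪e α, ζ' j⟫_ℂ := by
    intro i j
    have h2 : ⟪ζ i, ζ j⟫_ℂ = ⟪ζ' i, ζ' j⟫_ℂ := rfl
    rw [h2, ← e.sum_inner_mul_inner (ζ' i) (ζ' j)]
    refine Finset.sum_congr rfl fun α _ => ?_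
    rw [inner_conj_symm]
  have h3 : ∀ i, ‖ζ i‖ ^ 2 = ∑ α, ‖⟪e α, ζ' i⟫_ℂ‖ ^ 2 := by
    intro i
    have h2 : ‖ζ i‖ = ‖ζ' i‖ := rfl
    rw [h2, e.sum_sq_norm_inner_right (ζ' i)]
  have h4 : ∑ i, ∑ j, ⟪ζ i, ζ j⟫_ℂ * ⟪star (P i) (w i), star (P j) (w j)⟫_ℂ =
      ∑ α, ⟪∑ i, star (P i) (⟪e α, ζ' i⟫_ℂ • w i), ∑ i, star (P i) (⟪e α, ζ' i⟫_ℂ • w i)⟫_ℂ := by
    have h5 : ∀ α, ⟪∑ i, star (P i) (⟪e α, ζ' i⟫_ℂ • w i),
        ∑ i, star (P i) (⟪e α, ζ' i⟫_ℂ • w i)⟫_ℂ = ∑ i, ∑ j,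
        ((starRingEnd ℂ) ⟪e α, ζ' i⟫_ℂ * ⟪e α, ζ' j⟫_ℂ) *
          ⟪star (P i) (w i), star (P j) (w j)⟫_ℂ := by
      intro α
      rw [sum_inner]
      refine Finset.sum_congr rfl fun i _ => ?_
      rw [inner_sum]
      refine Finset.sum_congr rfl fun j _ => ?_
      rw [map_smul, map_smul, inner_smul_left, inner_smul_right]
      ring
    simp_rw [h5, h1, Finset.sum_mul]
    symm
    rw [Finset.sum_comm]
    exact Finset.sum_congr rfl fun i _ => Finset.sum_comm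
  rw [h4]
  refine (norm_sum_le _ _).trans ?_
  have h6 : ∀ α, ‖⟪∑ i, star (P i) (⟪e α, ζ' i⟫_ℂ • w i),
      ∑ i, star (P i) (⟪e α, ζ' i⟫_ℂ • w i)⟫_ℂ‖ ≤ ∑ i, ‖⟪e α, ζ' i⟫_ℂ‖ ^ 2 * ‖w i‖ ^ 2 := by
    intro α
    rw [inner_self_eq_norm_sq_to_K]
    have h7 := row_bound P hP (fun i => ⟪e α, ζ' i⟫_ℂ • w i)
    have h8 : ∀ x : ℝ, ‖((x : ℂ)) ^ 2‖ = x ^ 2 := by
      intro x
      rw [norm_pow, Complex.norm_real, Real.norm_eq_abs, sq_abs]
    refine (le_of_eq (h8 _)).trans (h7.trans (le_of_eq ?_))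
    refine Finset.sum_congr rfl fun i _ => ?_
    rw [norm_smul, mul_pow]
  refine (Finset.sum_le_sum fun α _ => h6 α).trans (le_of_eq ?_)
  rw [Finset.sum_comm]
  refine Finset.sum_congr rfl fun i _ => ?_
  rw [h3, Finset.sum_mul]

end gram

/-- the Gram estimate for `∑ ζ_i m_i` -/
theorem right_bound (h5 : S_prodK) {H : Type} [NormedAddCommGroup H] [InnerProductSpace ℂ H]
    [CompleteSpace H] {N M : VonNeumannAlgebra H} {ξ : H} {U : ℝ → H →L[ℂ] H} {J : H → H}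
    {E : (H →L[ℂ] H) → (H →L[ℂ] H)} (hI : Inc2 N M ξ U J E) {n : H →L[ℂ] H} {C : ℝ} {r : ℕ}
    {t : Fin r → ℝ} {m P : Fin r → H →L[ℂ] H} (hW : Win N ξ J C n r t m P)
    (ζ : Fin r → H) (hζ : ∀ i, ζ i ∈ KK N ξ J) (A : ℝ) (hA : ∀ i, ‖ζ i‖ ≤ A) (hA0 : 0 ≤ A) :
    ‖∑ i, Rm hI.conj (star (m i)) (ζ i)‖ ≤ A * ‖star n ξ‖ := by
  have hJ := hI.conj
  set S : H := ∑ i, Rm hI.conj (star (m i)) (ζ i) with hS
  set w : Fin r → H := fun i => P i (J (star n ξ)) with hw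
  have h1 : ⟪S, S⟫_ℂ =
      ∑ i, ∑ j, ⟪ζ i, ζ j⟫_ℂ * ⟪star (P i) (w i), star (P j) (w j)⟫_ℂ := by
    rw [hS, sum_inner]
    refine Finset.sum_congr rfl fun i _ => ?_
    rw [inner_sum]
    refine Finset.sum_congr rfl fun j _ => ?_
    rw [← Rm_star, ContinuousLinearMap.star_eq_adjoint (Rm hI.conj (m i)),
      ContinuousLinearMap.adjoint_inner_left]
    have h2 : Rm hI.conj (m i) (Rm hI.conj (star (m j)) (ζ j)) =
        J (star (m j * star (m i)) (J (ζ j))) := by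
      rw [star_mul, star_star]
      have := Rm_mul hI.conj (m i) (star (m j))
      have h3 := congrArg (fun T : H →L[ℂ] H => T (ζ j)) this
      exact h3.symm
    rw [h2]
    have h3 := (h5 H N M ξ U J E hI (m j * star (m i)) (mul_mem (hW.mem j) (star_mem (hW.mem i)))
      (ζ i) (ζ j) (hζ i) (hζ j)).2
    rw [h3, mul_comm]
    congr 1
    have h4 : vst ξ (m j * star (m i)) = ⟪star (m j) ξ, star (m i) ξ⟫_ℂ := by
      show ⟪ξ, m j (star (m i) ξ)⟫_ℂ = _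
      rw [ContinuousLinearMap.star_eq_adjoint (m j), ContinuousLinearMap.adjoint_inner_left]
    rw [h4, ← hJ.inner, hW.m2 i, hW.m2 j]
  have h2 : ‖S‖ ^ 2 = ‖⟪S, S⟫_ℂ‖ := by
    rw [inner_self_eq_norm_sq_to_K]
    norm_num
  have h3 : ‖S‖ ^ 2 ≤ (A * ‖star n ξ‖) ^ 2 := by
    rw [h2, h1]
    refine (gram_bound P hW.psum ζ w).trans ?_
    have h4 : ∑ i, ‖w i‖ ^ 2 = ‖star n ξ‖ ^ 2 := by
      rw [hW.psum (J (star n ξ)), J_norm hJ]
    rw [mul_pow, ← h4, Finset.mul_sum]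
    refine Finset.sum_le_sum fun i _ => ?_
    have h6 := hA i
    gcongr
  exact (sq_le_sq₀ (norm_nonneg _) (by positivity)).1 h3

theorem r (h1 : S_AE) (h2 : S_cay) (h4 : S_KK) (h5 : S_prodK) : S_vec := by
  intro H _ _ _ N M ξ U J E hI n C η hn hC hη ε' hε'
  have hJ := hI.conj
  have hNM := hI.le
  have hU := hI.modular
  have hinv := hI.mod
  -- the error
  set ε : ℝ := ε' / (‖n‖ + 1 + ‖star n ξ‖) with hεdef
  have hden : 0 < ‖n‖ + 1 + ‖star n ξ‖ := by positivity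
  have hε : 0 < ε := by positivity
  set κ : ℝ := ‖n‖ + 1 with hκ
  have κpos : 0 < κ := by positivity
  obtain ⟨K, hK, -, -, -, -⟩ := h4 H M N ξ U J hNM hU hJ hinv
  obtain ⟨b, hb, hAE⟩ := h1 (GU N) H (al hNM hJ) (al_star hNM hJ) ξ η
    ((al_KA hNM hJ η).2 hη) (ε ^ 2 / 2) (by positivity)
  -- the choice of `y`: `κ² ‖η‖² / y ≤ ε²`
  obtain ⟨y, hy0, hy⟩ : ∃ y : ℝ, 0 < y ∧ κ ^ 2 * ‖η‖ ^ 2 / y ≤ ε ^ 2 := by
    refine ⟨κ ^ 2 * ‖η‖ ^ 2 / ε ^ 2 + 1, by positivity, ?_⟩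
    rw [div_le_iff₀ (by positivity), mul_add, mul_div_cancel₀ _ (by positivity)]
    nlinarith [sq_nonneg ε]
  -- the choice of `r₀`
  set D : ℝ := 4 * C / κ ^ 2 with hD
  have hD0 : 0 ≤ D := by positivity
  obtain ⟨r₀, hr₀⟩ := exists_nat_ge (b * (y * D) / (ε ^ 2 / 2))
  refine ⟨r₀ + 1, fun r hr t m P hW Q hQ => ?_⟩
  have hrpos : (0 : ℝ) < r := by
    have : 0 < r := by omega
    exact_mod_cast this
  have hrb : b * (y * D) / (r : ℝ) ≤ ε ^ 2 / 2 := by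
    rw [div_le_iff₀ hrpos]
    rw [div_le_iff₀ (by positivity)] at hr₀
    have h6 : (r₀ : ℝ) ≤ r := by exact_mod_cast (by omega : r₀ ≤ r)
    nlinarith [sq_nonneg ε]
  have ht := hW.tpos
  have hmN := hW.mem
  have hmn := hW.norm
  choose v hv hvQ using hQ
  -- Cayley transform
  have hz : ∀ (i : Fin r) (k : ℕ), v i k * m i ∈ N ∧ ‖v i k * m i‖ ≤ κ := by
    intro i k
    refine ⟨mul_mem (hv i k).1 (hmN i), ?_⟩
    calc ‖v i k * m i‖ ≤ ‖v i k‖ * ‖m i‖ := norm_mul_le _ _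
      _ ≤ 1 * ‖n‖ := by
        gcongr
        · exact iso_opNorm (hv i k).2.1
        · exact hmn i
      _ ≤ κ := by rw [one_mul, hκ]; linarith
  choose u hu hu1 hu2 using fun (i : Fin r) (k : ℕ) =>
    h2 H M N ξ U J hNM hJ (v i k * m i) κ (hz i k).1 κpos (hz i k).2
  let uu : Fin (r * 2) → ℕ → GU N := fun l k =>
    ⟨u (finProdFinEquiv.symm l).1 k (finProdFinEquiv.symm l).2, hu _ _ _⟩
  have hsumuu : ∀ (k : ℕ) (ζ : H), ∑ l, ‖al hNM hJ (uu l k) ζ - ζ‖ ^ 2 =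
      ∑ i, ∑ j, ‖alf J (u i k j) ζ - ζ‖ ^ 2 := by
    intro k ζ
    rw [← Fintype.sum_prod_type' (f := fun (i : Fin r) (j : Fin 2) =>
      ‖alf J (u i k j) ζ - ζ‖ ^ 2)]
    exact Fintype.sum_equiv finProdFinEquiv.symm _ _ fun l => rfl
  -- the invariance of `ξ`
  set d : Fin r → ℝ := fun i => ‖m i ξ - ((Real.sqrt (t i) : ℝ) : ℂ) • J (star (m i) ξ)‖ with hd
  have hlim1 : Tendsto (fun k : ℕ => ∑ i, (d i + ‖m i‖ * (1 / ((k : ℝ) + 1))) ^ 2) atTop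
      (𝓝 (∑ i, (d i + ‖m i‖ * 0) ^ 2)) := by
    refine tendsto_finsetSum _ fun i _ => ?_
    exact ((tendsto_one_div_add_atTop_nhds_zero_nat.const_mul _).const_add _).pow 2
  have hAE1 : ∀ δ : ℝ, 0 < δ → ∀ᶠ k in atTop,
      ∑ l, ‖al hNM hJ (uu l k) ξ - ξ‖ ^ 2 ≤ D / (r : ℝ) ^ 2 + δ := by
    intro δ hδ
    have hev : ∀ᶠ k : ℕ in atTop, ∑ i, (d i + ‖m i‖ * (1 / ((k : ℝ) + 1))) ^ 2 <
        ∑ i, (d i + ‖m i‖ * 0) ^ 2 + κ ^ 2 * δ / 4 :=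
      hlim1.eventually_lt_const (by have : 0 < κ ^ 2 * δ / 4 := by positivity
                                    linarith)
    filter_upwards [hev] with k hk
    rw [hsumuu]
    have h8 : κ ^ 2 * ∑ i, ∑ j, ‖alf J (u i k j) ξ - ξ‖ ^ 2 ≤
        4 * ∑ i, (d i + ‖m i‖ * (1 / ((k : ℝ) + 1))) ^ 2 := by
      rw [Finset.mul_sum, Finset.mul_sum]
      refine Finset.sum_le_sum fun i _ => ?_
      refine (hu2 i k ξ hJ.fix).trans ?_
      gcongr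
      exact cm_xi hNM hJ (hv i k) (hmN i)
    have h9 : ∑ i, (d i + ‖m i‖ * 0) ^ 2 ≤ C / (r : ℝ) ^ 2 := by
      refine le_trans (le_of_eq ?_) hW.err
      refine Finset.sum_congr rfl fun i _ => ?_
      rw [mul_zero, add_zero]
    have h10 : D / (r : ℝ) ^ 2 = 4 * (C / (r : ℝ) ^ 2) / κ ^ 2 := by
      rw [hD]; ring
    rw [h10, ← sub_nonneg]
    have h11 : 0 ≤ κ ^ 2 * (4 * (C / (r : ℝ) ^ 2) / κ ^ 2 + δ -
        ∑ i, ∑ j, ‖alf J (u i k j) ξ - ξ‖ ^ 2) := by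
      have h12 : κ ^ 2 * (4 * (C / (r : ℝ) ^ 2) / κ ^ 2 + δ -
        ∑ i, ∑ j, ‖alf J (u i k j) ξ - ξ‖ ^ 2) = 4 * (C / (r : ℝ) ^ 2) + κ ^ 2 * δ -
        κ ^ 2 * ∑ i, ∑ j, ‖alf J (u i k j) ξ - ξ‖ ^ 2 := by
        field_simp
      rw [h12]
      linarith
    exact (mul_nonneg_iff_of_pos_left (by positivity)).1 h11
  -- the random walk argument, `x = r y`
  obtain ⟨η', hη', hnorm, hdist, hfreq⟩ := hAE (r * 2) uu (D / (r : ℝ) ^ 2) (r * y)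
    (by positivity) (by positivity) hAE1
  have hη'K : η' ∈ KK N ξ J := (al_KA hNM hJ η').1 hη'
  have hdist2 : ‖η - η'‖ ≤ ε := by
    have h13 : ‖η - η'‖ ^ 2 ≤ ε ^ 2 := by
      refine hdist.trans ?_
      have h14 : b * (r * y * (D / (r : ℝ) ^ 2)) = b * (y * D) / (r : ℝ) := by
        field_simp
      rw [h14]
      linarith
    exact (sq_le_sq₀ (norm_nonneg _) hε.le).1 h13
  -- the limit
  have hlim2 : Tendsto (fun k : ℕ => ∑ i, ‖m i η' - Rm hJ (star (m i))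
      (star (v i k) (J (star (v i k) (J η'))))‖ ^ 2) atTop
      (𝓝 (∑ i, ‖m i η' - Rm hJ (star (m i)) (Q i η')‖ ^ 2)) := by
    refine tendsto_finsetSum _ fun i _ => ?_
    have h15 := (hvQ i η' hη'K).2.2
    exact ((((Rm hJ (star (m i))).continuous.tendsto _).comp h15).const_sub (m i η')).norm.pow 2
  have hbound : ∑ i, ‖m i η' - Rm hJ (star (m i)) (Q i η')‖ ^ 2 ≤
      κ ^ 2 * ‖η‖ ^ 2 / (r * y) := by
    refine le_of_forall_pos_le_add fun δ hδ => ?_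
    refine le_of_tendsto_of_frequently hlim2 ?_
    refine (hfreq (δ / (2 * κ ^ 2)) (by positivity)).mono fun k hk => ?_
    rw [hsumuu] at hk
    calc ∑ i, ‖m i η' - Rm hJ (star (m i)) (star (v i k) (J (star (v i k) (J η'))))‖ ^ 2
        ≤ ∑ i, ‖cm J (v i k * m i) η'‖ ^ 2 := by
          refine Finset.sum_le_sum fun i _ => ?_
          gcongr
          exact cm_eta hNM hJ (hv i k).1 (hv i k).2.1 (hmN i) η'
      _ ≤ ∑ i, 2 * κ ^ 2 * ∑ j, ‖alf J (u i k j) η' - η'‖ ^ 2 :=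
          Finset.sum_le_sum fun i _ => hu1 i k η'
      _ = 2 * κ ^ 2 * ∑ i, ∑ j, ‖alf J (u i k j) η' - η'‖ ^ 2 := by rw [Finset.mul_sum]
      _ ≤ 2 * κ ^ 2 * (‖η‖ ^ 2 / (2 * (r * y)) + δ / (2 * κ ^ 2)) := by gcongr
      _ = κ ^ 2 * ‖η‖ ^ 2 / (r * y) + δ := by field_simp
  -- Cauchy-Schwarz
  have herr : ‖n η' - ∑ i, Rm hJ (star (m i)) (Q i η')‖ ≤ ε := by
    have h16 : n η' - ∑ i, Rm hJ (star (m i)) (Q i η') =
        ∑ i, (m i η' - Rm hJ (star (m i)) (Q i η')) := by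
      rw [Finset.sum_sub_distrib]
      congr 1
      rw [← hW.sum, sum_apply]
    rw [h16]
    have h17 : (∑ i, ‖m i η' - Rm hJ (star (m i)) (Q i η')‖) ^ 2 ≤
        (r : ℝ) * ∑ i, ‖m i η' - Rm hJ (star (m i)) (Q i η')‖ ^ 2 := by
      have := sq_sum_le_card_mul_sum_sq (s := (Finset.univ : Finset (Fin r)))
        (f := fun i => ‖m i η' - Rm hJ (star (m i)) (Q i η')‖)
      simpa using this
    have h18 : (∑ i, ‖m i η' - Rm hJ (star (m i)) (Q i η')‖) ^ 2 ≤ ε ^ 2 := by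
      refine h17.trans ?_
      calc (r : ℝ) * ∑ i, ‖m i η' - Rm hJ (star (m i)) (Q i η')‖ ^ 2
          ≤ (r : ℝ) * (κ ^ 2 * ‖η‖ ^ 2 / (r * y)) := by gcongr
        _ = κ ^ 2 * ‖η‖ ^ 2 / y := by field_simp
        _ ≤ ε ^ 2 := hy
    have h19 : (∑ i, ‖m i η' - Rm hJ (star (m i)) (Q i η')‖) ≤ ε :=
      (sq_le_sq₀ (by positivity) hε.le).1 h18
    exact (norm_sum_le _ _).trans h19
  -- the difference of the two sums
  have hmem : ∀ w : H, w ∈ K ↔ w ∈ KK N ξ J := by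
    intro w
    rw [← hK]
    exact Iff.rfl
  have hdiff : ‖∑ i, Rm hJ (star (m i)) (Q i η - Q i η')‖ ≤ ε * ‖star n ξ‖ := by
    refine right_bound h5 hI hW (fun i => Q i η - Q i η') (fun i => ?_) ε (fun i => ?_) hε.le
    · exact (hmem _).1 (K.sub_mem ((hmem _).2 (hvQ i η hη).1) ((hmem _).2 (hvQ i η' hη'K).1))
    · have h20 := (hvQ i η hη).2.2
      have h21 := (hvQ i η' hη'K).2.2
      have h22 := (h20.sub h21).norm
      refine le_trans (le_of_tendsto h22 (Eventually.of_forall fun k => ?_)) hdist2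
      have h23 : star (v i k) (J (star (v i k) (J η))) - star (v i k) (J (star (v i k) (J η'))) =
          star (v i k) (J (star (v i k) (J (η - η')))) := by
        rw [J_sub hJ, map_sub, J_sub hJ, map_sub]
      rw [h23]
      refine (iso_star (hv i k).2.1 _).trans ?_
      rw [J_norm hJ]
      refine (iso_star (hv i k).2.1 _).trans ?_
      rw [J_norm hJ]
  -- conclusion
  have hfin : n η - ∑ i, J (star (m i) (J (Q i η))) = n (η - η') +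
      (n η' - ∑ i, Rm hJ (star (m i)) (Q i η')) - ∑ i, Rm hJ (star (m i)) (Q i η - Q i η') := by
    have h24 : ∑ i, Rm hJ (star (m i)) (Q i η - Q i η') =
        ∑ i, Rm hJ (star (m i)) (Q i η) - ∑ i, Rm hJ (star (m i)) (Q i η') := by
      rw [← Finset.sum_sub_distrib]
      exact Finset.sum_congr rfl fun i _ => map_sub _ _ _
    have h25 : ∑ i, J (star (m i) (J (Q i η))) = ∑ i, Rm hJ (star (m i)) (Q i η) := rfl
    rw [h24, h25, map_sub]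
    abel
  rw [hfin]
  calc _ ≤ ‖n (η - η') + (n η' - ∑ i, Rm hJ (star (m i)) (Q i η'))‖ +
        ‖∑ i, Rm hJ (star (m i)) (Q i η - Q i η')‖ := norm_sub_le _ _
    _ ≤ ‖n (η - η')‖ + ‖n η' - ∑ i, Rm hJ (star (m i)) (Q i η')‖ +
        ‖∑ i, Rm hJ (star (m i)) (Q i η - Q i η')‖ := by
        gcongr
        exact norm_add_le _ _
    _ ≤ ‖n‖ * ε + ε + ε * ‖star n ξ‖ := by
        have i1 : ‖n (η - η')‖ ≤ ‖n‖ * ε := (n.le_opNorm _).trans (by gcongr)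
        gcongr
    _ = ε' := by
        have e : ‖n‖ * ε + ε + ε * ‖star n ξ‖ = ε * (κ + ‖star n ξ‖) := by rw [hκ]; ring
        rw [e, hεdef, div_mul_cancel₀ _ hden.ne']

end Pool.Agent.H255.BC.R_vec

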