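import Pool.Agent.H255.BC.Defs2

set_option autoImplicit false

open MeasureTheory Filter Topology Complex
open scoped InnerProductSpace ENNReal FourierTransform

namespace Pool.Agent.H189.BC.Win2

open Pool.Agent.W662.CB Pool.Agent.H255.BC

noncomputable section

/-! ### the bump function -/

/-- a smooth function equal to one on `[a, b]` and zero outside of `[a / 2, 2 b]` -/
theorem exists_bump (a b : ℝ) (ha : 0 < a) (hab : a < b) : ∃ χ : ℝ → ℂ, Tst χ ∧
    (∀ κ, a ≤ κ → κ ≤ b → χ κ = 1) ∧ ∀ κ, χ κ ≠ 0 → a / 2 ≤ κ ∧ κ ≤ 2 * b := by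
  let f : ContDiffBump ((a + b) / 2 : ℝ) :=
    ⟨(b - a) / 2, (b - a) / 2 + a / 4, by linarith, by linarith⟩
  refine ⟨fun κ => ((f κ : ℝ) : ℂ), ⟨?_, ?_⟩, ?_, ?_⟩
  · exact Complex.ofRealCLM.contDiff.comp f.contDiff
  · exact f.hasCompactSupport.comp_left (g := fun x : ℝ => (x : ℂ)) (by simp)
  · intro κ h1 h2
    have : f κ = 1 := by
      apply f.one_of_mem_closedBall
      rw [Metric.mem_closedBall, Real.dist_eq, abs_le]
      show -((b - a) / 2) ≤ _ ∧ _ ≤ (b - a) / 2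
      constructor <;> linarith
    show ((f κ : ℝ) : ℂ) = 1
    rw [this]
    simp
  · intro κ hκ
    have h1 : f κ ≠ 0 := by
      intro h
      apply hκ
      show ((f κ : ℝ) : ℂ) = 0
      rw [h]
      simp
    have h2 : κ ∈ Function.support f := h1
    rw [f.support_eq, Metric.mem_ball, Real.dist_eq, abs_lt] at h2
    have h3 : f.rOut = (b - a) / 2 + a / 4 := rfl
    rw [h3] at h2
    constructor <;> linarith [h2.1, h2.2]

theorem tst_mul {h h' : ℝ → ℂ} (hh : Tst h) (hh' : Tst h') : Tst (fun κ => h κ * h' κ) :=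
  ⟨hh.1.mul hh'.1, hh.2.mul_right⟩

theorem tst_exp_mul {h : ℝ → ℂ} (hh : Tst h) (z : ℂ) : Tst (fun κ => cexp (z * κ) * h κ) := by
  refine ⟨ContDiff.mul ?_ hh.1, hh.2.mul_left⟩
  exact ContDiff.cexp (contDiff_const.mul Complex.ofRealCLM.contDiff)

/-! ### the unitary group -/

section

variable {H : Type} [NormedAddCommGroup H] [InnerProductSpace ℂ H] [CompleteSpace H]
  {M : VonNeumannAlgebra H} {ξ : H} {U : ℝ → H →L[ℂ] H}

theorem U_add (hM : IsModular M ξ U) (s t : ℝ) (v : H) : U s (U t v) = U (s + t) v := by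
  rw [hM.add]
  rfl

theorem U_norm (hM : IsModular M ξ U) (t : ℝ) (v : H) : ‖U t v‖ = ‖v‖ := by
  have h : ⟪U t v, U t v⟫_ℂ = ⟪v, v⟫_ℂ := by
    rw [← ContinuousLinearMap.adjoint_inner_right, ← ContinuousLinearMap.star_eq_adjoint,
      hM.star_eq, U_add hM, neg_add_cancel, hM.zero]
    rfl
  rw [inner_self_eq_norm_sq_to_K, inner_self_eq_norm_sq_to_K] at h
  have h2 : ‖U t v‖ ^ 2 = ‖v‖ ^ 2 := by exact_mod_cast h
  exact (sq_eq_sq₀ (norm_nonneg _) (norm_nonneg _)).1 h2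

theorem norm_cexp_I (x : ℝ) : ‖cexp (I * (x : ℂ))‖ = 1 := by
  rw [Complex.norm_exp]
  simp

theorem pow_bound_nat (hM : IsModular M ξ U) (P : H →L[ℂ] H)
    (hP : ∀ (s : ℝ) (v : H), P (U s v) = U s (P v)) (τ θ : ℝ) (x : H) (k : ℕ) :
    ‖P (U ((k : ℝ) * τ) x - cexp (I * ((k : ℝ) * θ)) • x)‖ ≤
      k * ‖P (U τ x - cexp (I * θ) • x)‖ := by
  induction k with
  | zero =>
    simp [hM.zero]
  | succ k ih =>
    have h1 : U (((k + 1 : ℕ) : ℝ) * τ) x - cexp (I * (((k + 1 : ℕ) : ℝ) * θ)) • x =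
        U ((k : ℝ) * τ) (U τ x - cexp (I * θ) • x) +
          cexp (I * θ) • (U ((k : ℝ) * τ) x - cexp (I * ((k : ℝ) * θ)) • x) := by
      rw [map_sub, map_smul, U_add hM, smul_sub, smul_smul, ← Complex.exp_add]
      have h2 : (k : ℝ) * τ + τ = ((k + 1 : ℕ) : ℝ) * τ := by
        push_cast
        ring
      have h3 : I * (θ : ℂ) + I * (((k : ℝ) : ℂ) * (θ : ℂ)) =
          I * ((((k + 1 : ℕ) : ℝ) : ℂ) * (θ : ℂ)) := by
        push_cast
        ring
      rw [h2, h3]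
      abel
    rw [h1, map_add, hP, map_smul]
    refine (norm_add_le _ _).trans ?_
    rw [U_norm hM, norm_smul]
    have h4 : ‖cexp (I * θ)‖ = 1 := norm_cexp_I θ
    rw [h4, one_mul]
    have h5 : ((k + 1 : ℕ) : ℝ) = (k : ℝ) + 1 := by
      push_cast
      ring
    rw [h5, add_mul, one_mul]
    linarith

theorem pow_bound (hM : IsModular M ξ U) (P : H →L[ℂ] H)
    (hP : ∀ (s : ℝ) (v : H), P (U s v) = U s (P v)) (τ θ : ℝ) (x : H) (k : ℤ) :
    ‖P (U ((k : ℝ) * τ) x - cexp (I * ((k : ℝ) * θ)) • x)‖ ≤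
      |(k : ℝ)| * ‖P (U τ x - cexp (I * θ) • x)‖ := by
  obtain ⟨m, rfl | rfl⟩ := k.eq_nat_or_neg
  · have h := pow_bound_nat hM P hP τ θ x m
    simpa using h
  · have h := pow_bound_nat hM P hP τ θ x m
    have h1 : U (((-(m : ℤ) : ℤ) : ℝ) * τ) x - cexp (I * (((-(m : ℤ) : ℤ) : ℝ) * θ)) • x =
        -(cexp (I * (((-(m : ℤ) : ℤ) : ℝ) * θ)) • U (((-(m : ℤ) : ℤ) : ℝ) * τ)
          (U ((m : ℝ) * τ) x - cexp (I * ((m : ℝ) * θ)) • x)) := by
      rw [map_sub, map_smul, U_add hM, smul_sub, smul_smul, ← Complex.exp_add]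
      have h2 : ((-(m : ℤ) : ℤ) : ℝ) * τ + (m : ℝ) * τ = 0 := by
        push_cast
        ring
      have h3 : I * ((((-(m : ℤ) : ℤ) : ℝ) : ℂ) * (θ : ℂ)) + I * (((m : ℝ) : ℂ) * (θ : ℂ)) = 0 := by
        push_cast
        ring
      rw [h2, h3, hM.zero, Complex.exp_zero, one_smul]
      simp only [one_apply_eq_self]
      abel
    rw [h1, map_neg, norm_neg, map_smul, norm_smul, hP, U_norm hM]
    have h4 : ‖cexp (I * (((-(m : ℤ) : ℤ) : ℝ) * θ))‖ = 1 := by
      rw [Complex.norm_exp]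
      simp
    rw [h4, one_mul]
    simpa using h

/-- the series -/
theorem series_bound (hM : IsModular M ξ U) (P : H →L[ℂ] H)
    (hP : ∀ (s : ℝ) (v : H), P (U s v) = U s (P v)) (τ θ : ℝ) (x w : H) (f : ℤ → ℂ) (F : ℂ)
    (hf : Summable (fun k : ℤ => (1 + |(k : ℝ)|) * ‖f k‖))
    (h1 : HasSum (fun k : ℤ => f k • U ((k : ℝ) * τ) x) w)
    (h2 : HasSum (fun k : ℤ => f k * cexp (I * ((k : ℝ) * θ))) F) :
    ‖P (w - F • x)‖ ≤
      (∑' k : ℤ, (1 + |(k : ℝ)|) * ‖f k‖) * ‖P (U τ x - cexp (I * θ) • x)‖ := by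
  have h3 : HasSum (fun k : ℤ => (f k * cexp (I * ((k : ℝ) * θ))) • x) (F • x) :=
    h2.smul_const x
  have h4 := (h1.sub h3).mapL P
  have h5 := hf.hasSum.mul_right ‖P (U τ x - cexp (I * θ) • x)‖
  rw [← h4.tsum_eq]
  refine tsum_of_norm_bounded h5 fun k => ?_
  have h6 : f k • U ((k : ℝ) * τ) x - (f k * cexp (I * ((k : ℝ) * θ))) • x =
      f k • (U ((k : ℝ) * τ) x - cexp (I * ((k : ℝ) * θ)) • x) := by
    rw [smul_sub, smul_smul]
  rw [h6, map_smul, norm_smul]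
  have h7 := pow_bound hM P hP τ θ x k
  have h8 : 0 ≤ ‖P (U τ x - cexp (I * θ) • x)‖ := norm_nonneg _
  calc ‖f k‖ * ‖P (U ((k : ℝ) * τ) x - cexp (I * ((k : ℝ) * θ)) • x)‖
      ≤ ‖f k‖ * (|(k : ℝ)| * ‖P (U τ x - cexp (I * θ) • x)‖) :=
        mul_le_mul_of_nonneg_left h7 (norm_nonneg _)
    _ ≤ (1 + |(k : ℝ)|) * ‖f k‖ * ‖P (U τ x - cexp (I * θ) • x)‖ := by
        have h9 : 0 ≤ ‖f k‖ * ‖P (U τ x - cexp (I * θ) • x)‖ := by positivity
        nlinarith

end

end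

end Pool.Agent.H189.BC.Win2

namespace Pool.Agent.H255.BC.R_win2

open Pool.Agent.W662.CB Pool.Agent.H255.BC

theorem r (h1 : S_psi) (h2 : S_psi_sum) (h3 : S_psi_mul) (h4 : S_psi_J) (h5 : S_q) (h6 : S_per) (h7 : S_split) (h8 : S_psi_one) : S_win2 := by
  intro H _ _ _ N M ξ U J E hI n hn
  obtain ⟨hnN, a, haN, h, hh, ⟨c₀, hc₀, hh0⟩, hna⟩ := hn
  have hMod := hI.modular
  have hnM := hI.le n hnN
  have haM := hI.le a haN
  -- the upper bound for the support
  obtain ⟨c₁, hc₁, hh1⟩ : ∃ c₁ : ℝ, c₀ < c₁ ∧ ∀ κ, c₁ < κ → h κ = 0 := by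
    obtain ⟨R, hR⟩ := hh.2.isCompact.isBounded.subset_closedBall 0
    refine ⟨max R c₀ + 1, lt_of_le_of_lt (le_max_right R c₀) (lt_add_one _), fun κ hκ => ?_⟩
    by_contra hne
    have h9 : κ ∈ tsupport h := subset_tsupport _ hne
    have h10 := hR h9
    rw [Metric.mem_closedBall, Real.dist_eq, sub_zero] at h10
    have := le_abs_self κ
    have := le_max_left R c₀
    linarith
  obtain ⟨χ, hχ, hχ1, hχ0⟩ := Pool.Agent.H189.BC.Win2.exists_bump c₀ c₁ hc₀ hc₁
  have hχh : (fun κ => χ κ * h κ) = h := by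
    funext κ
    by_cases hk : h κ = 0
    · rw [hk, mul_zero]
    · rw [hχ1 κ (not_lt.1 fun hlt => hk (hh0 κ hlt)) (not_lt.1 fun hlt => hk (hh1 κ hlt)), one_mul]
  -- `χ(K) n ξ = n ξ`
  have hχn : psi U χ (n ξ) = n ξ := by
    rw [hna, ← h3 H M ξ U hMod χ h hχ hh, hχh]
  obtain ⟨τ, c, q, hτ, hq, hqs⟩ := h5 (c₀ / 2) (2 * c₁) (by linarith) (by linarith)
  have hqn : Summable (fun k => ‖q k‖) := by
    refine hq.summable.of_nonneg_of_le (fun k => norm_nonneg _) fun k => ?_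
    have : 0 ≤ |(k : ℝ)| * ‖q k‖ := by positivity
    linarith [add_mul 1 |(k : ℝ)| ‖q k‖]
  -- the modular relation for `n`
  have hsum : HasSum (fun k : ℤ => q k • U ((k : ℝ) * τ) (n ξ)) (J (star n ξ)) := by
    have e1 := h2 H M ξ U hMod χ (fun κ => cexp (κ / 2) * χ κ) hχ
      (by simpa [div_eq_inv_mul] using Pool.Agent.H189.BC.Win2.tst_exp_mul hχ (1 / 2)) τ q hqn
      (by
        intro κ
        by_cases hk : χ κ = 0
        · rw [hk, mul_zero, mul_zero]
        · have := (hqs κ (hχ0 κ hk).1 (hχ0 κ hk).2).tsum_eq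
          have e2 : ∑' k : ℤ, q k * cexp (I * ((k : ℝ) * τ * κ)) = (Real.exp (κ / 2) : ℂ) := this
          rw [e2]
          congr 1
          push_cast
          rfl) (n ξ)
    rw [hχn] at e1
    have e3 := (h4 H M ξ U J hMod hI.conj χ hχ).2 n hnM
    rw [e3] at e1
    -- `χ(K) J n^* ξ = J n^* ξ`
    have e4 : ∀ g : ℝ → ℂ, Tst g → psi U g (psi U χ (J (star n ξ))) = psi U g (J (star n ξ)) := by
      intro g hg
      have t1 : Tst (fun κ => g κ * χ κ) := Pool.Agent.H189.BC.Win2.tst_mul hg hχ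
      have t2 : Tst (fun κ => cexp (κ / 2) * g κ) := by
        simpa [div_eq_inv_mul] using Pool.Agent.H189.BC.Win2.tst_exp_mul hg (1 / 2)
      have t3 : Tst (fun κ => cexp (κ / 2) * (g κ * χ κ)) := by
        simpa [div_eq_inv_mul] using Pool.Agent.H189.BC.Win2.tst_exp_mul t1 (1 / 2)
      rw [← h3 H M ξ U hMod g χ hg hχ, ← (h4 H M ξ U J hMod hI.conj _ t1).2 n hnM,
        ← (h4 H M ξ U J hMod hI.conj g hg).2 n hnM, hna, ← h3 H M ξ U hMod _ h t3 hh,
        ← h3 H M ξ U hMod _ h t2 hh]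
      congr 1
      funext κ
      have := congrFun hχh κ
      calc cexp (κ / 2) * (g κ * χ κ) * h κ = cexp (κ / 2) * g κ * (χ κ * h κ) := by ring
        _ = _ := by rw [this]
    obtain ⟨g, hg, hg1⟩ := h8 H M ξ U hMod
    have e5 := hg1 (psi U χ (J (star n ξ)))
    have e6 := hg1 (J (star n ξ))
    have e7 : psi U χ (J (star n ξ)) = J (star n ξ) := by
      refine tendsto_nhds_unique e5 ?_
      refine e6.congr fun m => ?_
      rw [e4 (g m) (hg m)]
    rw [e7] at e1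
    exact e1
  obtain ⟨C, hC, hsp⟩ := h7 H M N ξ U J hI.le hMod hI.conj hI.mod τ c q hq
  -- the functions `e^{isκ} χ(κ)`
  have hG : ∀ s : ℝ, Tst (fun κ => cexp (I * s * κ) * χ κ) := fun s =>
    Pool.Agent.H189.BC.Win2.tst_exp_mul hχ (I * s)
  choose f hfs hfh using fun s : ℝ => h6 τ (fun κ => cexp (I * s * κ) * χ κ) hτ (hG s)
  -- uniqueness of the point
  have huniq : ∀ (x : ℝ) (κ κ' : ℝ), κ * τ = x → χ κ ≠ 0 → χ κ' ≠ 0 → (∃ m : ℤ, κ' * τ = x + 2 * Real.pi * m) →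
      κ = κ' := by
    rintro x κ κ' hx h10 h11 ⟨m, hm⟩
    have k1 := hqs κ (hχ0 κ h10).1 (hχ0 κ h10).2
    have k2 := hqs κ' (hχ0 κ' h11).1 (hχ0 κ' h11).2
    have k3 : (fun k : ℤ => q k * cexp (I * ((k : ℝ) * τ * κ'))) =
        fun k : ℤ => q k * cexp (I * ((k : ℝ) * τ * κ)) := by
      funext k
      congr 1
      rw [Complex.exp_eq_exp_iff_exists_int]
      refine ⟨k * m, ?_⟩
      have k4 : (κ' : ℂ) * τ = κ * τ + 2 * Real.pi * m := by
        have : κ' * τ = κ * τ + 2 * Real.pi * m := by rw [hm, hx]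
        exact_mod_cast this
      push_cast
      linear_combination (I * (k : ℂ)) * k4
    rw [k3] at k2
    have k5 := k1.unique k2
    have k6 : Real.exp (κ / 2) = Real.exp (κ' / 2) := by exact_mod_cast k5
    have k7 := Real.exp_injective k6
    linarith
  -- the sum of the periodization on the support of `χ`
  have hper : ∀ (s κ : ℝ), χ κ ≠ 0 →
      HasSum (fun k : ℤ => f s k * cexp (I * ((k : ℝ) * τ * κ))) (cexp (I * s * κ) * χ κ) := by
    intro s κ hκ
    have k1 := hfh s (τ * κ)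
    have k2 : ∑' m : ℤ, (fun κ : ℝ => cexp (I * s * κ) * χ κ) ((τ * κ + 2 * Real.pi * m) / τ) =
        cexp (I * s * κ) * χ κ := by
      rw [tsum_eq_single 0]
      · have : (τ * κ + 2 * Real.pi * ((0 : ℤ) : ℝ)) / τ = κ := by
          field_simp
          simp
        simp only [this]
      · intro m hm
        by_cases k3 : χ ((τ * κ + 2 * Real.pi * m) / τ) = 0
        · simp only [k3, mul_zero]
        · exfalso
          have k4 := huniq (τ * κ) κ ((τ * κ + 2 * Real.pi * m) / τ) (by ring) hκ k3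
            ⟨m, by field_simp⟩
          have k5 : 2 * Real.pi * (m : ℝ) = 0 := by
            have : κ * τ = τ * κ + 2 * Real.pi * m := by
              rw [eq_div_iff hτ.ne'] at k4
              exact k4
            linarith
          have k6 : (m : ℝ) = 0 := by
            rcases mul_eq_zero.1 k5 with k7 | k7
            · have := Real.pi_pos
              linarith
            · exact k7
          exact hm (by exact_mod_cast k6)
    rw [k2] at k1
    have k8 : (fun k : ℤ => f s k * cexp (I * ((k : ℝ) * τ * κ))) =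
        fun k : ℤ => f s k * cexp (I * ((k : ℝ) * ((τ * κ : ℝ) : ℂ))) := by
      funext k
      congr 2
      push_cast
      ring
    rw [k8]
    exact k1
  have hfn : ∀ s : ℝ, Summable (fun k => ‖f s k‖) := fun s => by
    refine (hfs s).of_nonneg_of_le (fun k => norm_nonneg _) fun k => ?_
    have : 0 ≤ |(k : ℝ)| * ‖f s k‖ := by positivity
    linarith [add_mul 1 |(k : ℝ)| ‖f s k‖]
  -- the series for `U_s n ξ`
  have hU : ∀ s : ℝ, HasSum (fun k : ℤ => f s k • U ((k : ℝ) * τ) (n ξ)) (U s (n ξ)) := by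
    intro s
    have e1 := h2 H M ξ U hMod χ (fun κ => (cexp (I * s * κ) * χ κ) * χ κ) hχ
      (Pool.Agent.H189.BC.Win2.tst_mul (hG s) hχ) τ (f s) (hfn s)
      (by
        intro κ
        by_cases hk : χ κ = 0
        · rw [hk, mul_zero, mul_zero]
        · rw [(hper s κ hk).tsum_eq]) (n ξ)
    rw [hχn, h3 H M ξ U hMod (fun κ => cexp (I * s * κ) * χ κ) χ (hG s) hχ, hχn] at e1
    have e2 : psi U (fun κ => cexp (I * s * κ) * χ κ) (n ξ) = U s (n ξ) := by
      rw [hna, ← h3 H M ξ U hMod _ h (hG s) hh, (h1 H M ξ U hMod h hh).2.2.2 s (a ξ)]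
      congr 1
      funext κ
      have := congrFun hχh κ
      calc cexp (I * s * κ) * χ κ * h κ = cexp (I * s * κ) * (χ κ * h κ) := by ring
        _ = _ := by rw [this]
    rw [e2] at e1
    exact e1
  have hU0 : HasSum (fun k : ℤ => f 0 k • U ((k : ℝ) * τ) (n ξ)) (n ξ) := by
    have := hU 0
    rw [hMod.zero] at this
    exact this
  refine ⟨C * ‖n ξ‖ ^ 2, 2 * Real.log (∑' k, ‖q k‖), fun s =>
    ((∑' k : ℤ, (1 + |(k : ℝ)|) * ‖f s k‖) + ∑' k : ℤ, (1 + |(k : ℝ)|) * ‖f 0 k‖) ^ 2 *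
      (C * ‖n ξ‖ ^ 2), by positivity, fun r hr => ?_⟩
  obtain ⟨θ, t, P, e, ht, hts, hPe, hPs, hPd, hm⟩ := hsp r hr
  obtain ⟨m, hmN, hms, hm1, hm2, hm3⟩ := hm n hnN
  have hPU : ∀ (i : Fin r) (s : ℝ), P i * U s = U s * P i := by
    intro i s
    rw [hPe i, Finset.sum_mul, Finset.mul_sum]
    refine Finset.sum_congr rfl fun k _ => ?_
    rw [smul_mul_assoc, mul_smul_comm, ← hMod.add, ← hMod.add, add_comm]
  have hPU' : ∀ (i : Fin r) (s : ℝ) (v : H), P i (U s v) = U s (P i v) := fun i s v =>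
    congrArg (fun T : H →L[ℂ] H => T v) (hPU i s)
  refine ⟨t, m, P, ⟨fun i => ⟨(ht i).1, (ht i).2.1⟩, fun i => (hmN i).1, fun i => (hmN i).2, hms, hPs,
    hm1, hm2, hm3 hsum⟩, hPU, ?_, ?_⟩
  · intro i
    have k1 := (hts i).norm_le_of_bounded hqn.hasSum (fun k => by
      rw [norm_mul]
      have : ‖cexp (I * ((k : ℝ) * θ i))‖ = 1 := by
        rw [Complex.norm_exp]
        simp
      rw [this, mul_one])
    have k2 : 0 < Real.sqrt (t i) := Real.sqrt_pos.2 (ht i).1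
    rw [Complex.norm_real, Real.norm_of_nonneg (by positivity)] at k1
    have k3 := Real.log_le_log (by positivity) k1
    rw [Real.log_inv, Real.log_sqrt (ht i).1.le] at k3
    linarith
  · intro s
    -- the values at `θ i`
    have hz : ∀ i : Fin r, (∑' m : ℤ, cexp (I * s * (((θ i + 2 * Real.pi * m) / τ : ℝ) : ℂ)) *
        χ ((θ i + 2 * Real.pi * m) / τ)) = cexp (-(I * ((s * Real.log (t i) : ℝ) : ℂ))) *
          ∑' m : ℤ, cexp (I * (0 : ℝ) * (((θ i + 2 * Real.pi * m) / τ : ℝ) : ℂ)) *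
            χ ((θ i + 2 * Real.pi * m) / τ) := by
      intro i
      rw [← tsum_mul_left]
      refine tsum_congr fun m => ?_
      by_cases hk : χ ((θ i + 2 * Real.pi * m) / τ) = 0
      · rw [hk, mul_zero, mul_zero, mul_zero]
      · have k1 := hqs _ (hχ0 _ hk).1 (hχ0 _ hk).2
        have k3 : (fun k : ℤ => q k * cexp (I * ((k : ℝ) * τ *
            (((θ i + 2 * Real.pi * m) / τ : ℝ) : ℂ)))) =
            fun k : ℤ => q k * cexp (I * ((k : ℝ) * θ i)) := by
          funext k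
          congr 1
          rw [Complex.exp_eq_exp_iff_exists_int]
          refine ⟨k * m, ?_⟩
          have k4 : (τ : ℂ) * (((θ i + 2 * Real.pi * m) / τ : ℝ) : ℂ) = θ i + 2 * Real.pi * m := by
            have : τ * ((θ i + 2 * Real.pi * m) / τ) = θ i + 2 * Real.pi * m := by
              field_simp
            exact_mod_cast this
          push_cast at k4 ⊢
          linear_combination (I * (k : ℂ)) * k4
        rw [k3] at k1
        have k5 := k1.unique (hts i)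
        have k6 : Real.exp ((θ i + 2 * Real.pi * m) / τ / 2) = (Real.sqrt (t i))⁻¹ := by
          exact_mod_cast k5
        have k7 : (θ i + 2 * Real.pi * m) / τ = -Real.log (t i) := by
          have := congrArg Real.log k6
          rw [Real.log_exp, Real.log_inv, Real.log_sqrt (ht i).1.le] at this
          linarith
        rw [k7]
        have k8 : I * (s : ℂ) * ((-Real.log (t i) : ℝ) : ℂ) =
            -(I * ((s * Real.log (t i) : ℝ) : ℂ)) := by
          push_cast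
          ring
        rw [k8]
        simp
    have hbd : ∀ i : Fin r, ‖P i (U s (n ξ) -
        cexp (-(I * ((s * Real.log (t i) : ℝ) : ℂ))) • n ξ)‖ ≤
        ((∑' k : ℤ, (1 + |(k : ℝ)|) * ‖f s k‖) + ∑' k : ℤ, (1 + |(k : ℝ)|) * ‖f 0 k‖) *
          ‖P i (U τ (n ξ) - cexp (I * θ i) • n ξ)‖ := by
      intro i
      have k1 := Pool.Agent.H189.BC.Win2.series_bound hMod (P i) (hPU' i) τ (θ i) (n ξ) _ (f s) _
        (hfs s) (hU s) (hfh s (θ i))
      have k2 := Pool.Agent.H189.BC.Win2.series_bound hMod (P i) (hPU' i) τ (θ i) (n ξ) _ (f 0) _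
        (hfs 0) hU0 (hfh 0 (θ i))
      rw [hz i] at k1
      set X : ℂ := ∑' m : ℤ, cexp (I * (0 : ℝ) * (((θ i + 2 * Real.pi * m) / τ : ℝ) : ℂ)) *
            χ ((θ i + 2 * Real.pi * m) / τ) with hX
      set z : ℂ := cexp (-(I * ((s * Real.log (t i) : ℝ) : ℂ))) with hzz
      have k3 : U s (n ξ) - z • n ξ = (U s (n ξ) - (z * X) • n ξ) - z • (n ξ - X • n ξ) := by
        rw [smul_sub, smul_smul]
        abel
      have k4 : ‖z‖ = 1 := by
        rw [hzz, Complex.norm_exp]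
        simp
      rw [k3, map_sub, map_smul]
      refine (norm_sub_le _ _).trans ?_
      rw [norm_smul, k4, one_mul, add_mul]
      exact add_le_add k1 k2
    calc ∑ i, ‖P i (U s (n ξ) - cexp (-(I * ((s * Real.log (t i) : ℝ) : ℂ))) • n ξ)‖ ^ 2
        ≤ ∑ i, ((∑' k : ℤ, (1 + |(k : ℝ)|) * ‖f s k‖) +
            ∑' k : ℤ, (1 + |(k : ℝ)|) * ‖f 0 k‖) ^ 2 *
          ‖P i (U τ (n ξ) - cexp (I * θ i) • n ξ)‖ ^ 2 := by
          refine Finset.sum_le_sum fun i _ => ?_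
          rw [← mul_pow]
          exact pow_le_pow_left₀ (norm_nonneg _) (hbd i) 2
      _ = ((∑' k : ℤ, (1 + |(k : ℝ)|) * ‖f s k‖) +
            ∑' k : ℤ, (1 + |(k : ℝ)|) * ‖f 0 k‖) ^ 2 *
          ∑ i, ‖P i (U τ (n ξ) - cexp (I * θ i) • n ξ)‖ ^ 2 := by rw [Finset.mul_sum]
      _ ≤ ((∑' k : ℤ, (1 + |(k : ℝ)|) * ‖f s k‖) +
            ∑' k : ℤ, (1 + |(k : ℝ)|) * ‖f 0 k‖) ^ 2 * (C * ‖n ξ‖ ^ 2 / (r : ℝ) ^ 2) :=
          mul_le_mul_of_nonneg_left (hPd (n ξ)) (by positivity)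
      _ = _ := (mul_div_assoc _ _ _).symm

end Pool.Agent.H255.BC.R_win2
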