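import Pool.Agent.H255.BC.All
import Pool.Agent.H255.BC.R_vec
import Pool.Agent.H255.BC.R_TR3
import Pool.Agent.H255.BC.R_win2
import Pool.Agent.H255.BC.R_prodK
import Pool.Agent.H255.BC.R_red
import Pool.Agent.H255.BC.R_inc2
import Pool.Agent.H255.BC.R_pi
import Pool.Agent.H255.BC.R_pin
import Pool.Agent.H255.BC.R_ext
import Pool.Agent.H255.BC.R_slice
import Pool.Agent.H255.BC.R_slbeta
import Pool.Agent.H255.BC.R_prodsp
import Pool.Agent.H255.BC.R_near
import Pool.Agent.H255.BC.R_psinorm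
import Pool.Agent.H255.BC.R_psimul
import Pool.Agent.H255.BC.R_psiJ
import Pool.Agent.H255.BC.R_psa2
import Pool.Agent.H255.BC.R_Bchar
import Pool.Agent.H255.BC.R_Bvn
import Pool.Agent.H255.BC.R_betan
import Pool.Agent.H255.BC.R_betaQ
import Pool.Agent.H255.BC.R_betaE
import Pool.Agent.H255.BC.R_per
import Pool.Agent.H255.BC.R_fou
import Pool.Agent.H255.BC.R_opmul
import Pool.Agent.H255.BC.R_ops
import Pool.Agent.H255.BC.R_gen
import Pool.Agent.H255.BC.R_piE
import Pool.Agent.H255.BC.R_D2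
import Pool.Agent.H255.BC.R_DT
import Pool.Agent.H255.BC.R_surj
import Pool.Graph.R_pool_sql_team_seeded_f72693b1.W766.CB.A8b
import Pool.Graph.R_pool_sql_team_seeded_f72693b1.W797.CB.A8c
import Pool.Graph.R_pool_sql_team_seeded_f72693b1.W315.CB.A8

set_option autoImplicit false

namespace Pool.Agent.H255.BC

open Pool.Agent.W662.CB

theorem pA8b : S_A8b := Pool.Agent.W766.CB.a8b
theorem pA8c : S_A8c := Pool.Agent.W797.CB.a8c pA2
theorem pA8 : S_A8 := Pool.Agent.W315.CB.a8 pA8a pA8b pA8c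

theorem hpsi_mul : S_psi_mul := R_psimul.r hpsi
theorem hpsi_norm : S_psi_norm := R_psinorm.r hpsi hpsi_mul hpsi_one
theorem hpsi_J : S_psi_J := R_psiJ.r hpsi hphi
theorem hnear : S_near := R_near.r hpsi hpsi_mul hpsi_norm hpsi_one hpsi_J
theorem hpsa2 : S_psa2 := R_psa2.r hps
theorem hBchar : S_Bchar := R_Bchar.r hbic hpsa2 hmod hKK hpsi hpsi_one hpsi_J
theorem hBvn : S_Bvn := R_Bvn.r hBchar hKK
theorem hred : S_red := R_red.r
theorem hinc2 : S_inc2 := R_inc2.r hD1 hscal hconj hred pA8a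
theorem hprodK : S_prodK := R_prodK.r hKK hBchar
theorem hvec : S_vec := R_vec.r hAE hcay hKK hprodK
theorem hbetaQ : S_betaQ := R_betaQ.r
theorem hbetaE : S_betaE := R_betaE.r hbetaQ hbic
theorem hbetan : S_betan := R_betan.r hBvn
theorem hper : S_per := R_per.r
theorem hwin2 : S_win2 := R_win2.r hpsi hpsi_sum hpsi_mul hpsi_J hq hper hsplit hpsi_one
theorem hTR3 : S_TR3 := R_TR3.r hpsi hpsi_mul hKK hQ hvec hbetaQ hwin2 hbic hbetan
theorem hfou : S_fou := R_fou.r
theorem hopmul : S_opmul := R_opmul.r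
theorem hops : S_ops := R_ops.r hopmul
theorem hgen : S_gen := R_gen.r hops
theorem hpi : S_pi := R_pi.r hopmul hops hbic hbetan
theorem hpiE : S_piE := R_piE.r hbetaE hpi hops
theorem hpin : S_pin := R_pin.r hpsi hpsi_mul hTR3 hpi
theorem hprodsp : S_prodsp := R_prodsp.r hpsi hpsi_one hphi
theorem hext : S_ext := R_ext.r hpsi hpsi_one hphi hnear hprodsp hops hpsi_J
theorem hslice : S_slice := Pool.Agent.H321.BC.slice hBchar hnear hops
theorem hslbeta : S_slbeta := R_slbeta.r hslice hnear hops hbetaQ hbetaE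
theorem hDT : S_DT := R_DT.r hops
theorem hsurj : S_surj := R_surj.r hslice hslbeta hpi hops hbetaE hBchar hKK
theorem hD2 : S_D2 :=
  R_D2.r hinc2 hconj hBvn hpi hpiE hpin hext hDT hsurj hgen hfou pA8 hops hbetaE hbic

end Pool.Agent.H255.BC
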