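import Pool.Agent.H255.BC.Defs3

set_option autoImplicit false

open MeasureTheory Filter Topology Complex
open scoped InnerProductSpace ENNReal FourierTransform

namespace Pool.Agent.H255.BC.F_binv

open Pool.Agent.W662.CB Pool.Agent.H255.BC

/-- the right action `v a` -/
noncomputable def RR {H : Type} [NormedAddCommGroup H] [InnerProductSpace ℂ H] [CompleteSpace H]
    (J : H → H) (a : H →L[ℂ] H) (v : H) : H := J (star a (J v))

section basics

variable {H : Type} [NormedAddCommGroup H] [InnerProductSpace ℂ H] [CompleteSpace H]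
variable {M : VonNeumannAlgebra H} {ξ : H} {U : ℝ → H →L[ℂ] H} {J : H → H}

lemma cm_eq (a : H →L[ℂ] H) (v : H) : cm J a v = a v - RR J a v := rfl

variable (hJ : IsConj M ξ U J)
include hJ

lemma J_norm (v : H) : ‖J v‖ = ‖v‖ := by
  have h := hJ.inner v v
  rw [inner_self_eq_norm_sq_to_K, inner_self_eq_norm_sq_to_K] at h
  have h2 : ‖J v‖ ^ 2 = ‖v‖ ^ 2 := by exact_mod_cast h
  exact (sq_eq_sq₀ (norm_nonneg _) (norm_nonneg _)).1 h2

lemma J_sub (v w : H) : J (v - w) = J v - J w := by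
  have h := hJ.add (v - w) w
  rw [sub_add_cancel] at h
  rw [h, add_sub_cancel_right]

lemma J_zero : J 0 = 0 := by
  have h := J_sub hJ 0 0
  simpa using h

lemma J_sum {n : ℕ} (f : Fin n → H) : J (∑ i, f i) = ∑ i, J (f i) := by
  let Jh : H →+ H := ⟨⟨J, J_zero hJ⟩, hJ.add⟩
  exact map_sum Jh f Finset.univ

lemma J_real (r : ℝ) (v : H) : J ((r : ℂ) • v) = (r : ℂ) • J v := by
  rw [hJ.smul, Complex.conj_ofReal]

lemma J_cont : Continuous J := by
  have h : LipschitzWith 1 J := LipschitzWith.of_dist_le_mul fun x y => by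
    rw [dist_eq_norm, dist_eq_norm, ← J_sub hJ, J_norm hJ]
    simp
  exact h.continuous

lemma RR_cont (a : H →L[ℂ] H) : Continuous (RR J a) :=
  (J_cont hJ).comp ((star a).continuous.comp (J_cont hJ))

lemma RR_sub (a : H →L[ℂ] H) (v w : H) : RR J a (v - w) = RR J a v - RR J a w := by
  unfold RR
  rw [J_sub hJ, map_sub, J_sub hJ]

lemma RR_add (a : H →L[ℂ] H) (v w : H) : RR J a (v + w) = RR J a v + RR J a w := by
  unfold RR
  rw [hJ.add, map_add, hJ.add]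

lemma RR_sum (a : H →L[ℂ] H) {n : ℕ} (f : Fin n → H) :
    RR J a (∑ i, f i) = ∑ i, RR J a (f i) := by
  unfold RR
  rw [J_sum hJ, map_sum, J_sum hJ]

lemma RR_smul (a : H →L[ℂ] H) (c : ℂ) (v : H) : RR J a (c • v) = c • RR J a v := by
  unfold RR
  rw [hJ.smul, map_smul, hJ.smul, Complex.conj_conj]

lemma RR_mul (a b : H →L[ℂ] H) (v : H) : RR J (a * b) v = RR J b (RR J a v) := by
  unfold RR
  rw [hJ.inv, star_mul]
  rfl

lemma RR_one (v : H) : RR J 1 v = v := by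
  unfold RR
  rw [star_one]
  exact hJ.inv v

lemma RR_comm {x a : H →L[ℂ] H} (hx : x ∈ M) (ha : a ∈ M) (v : H) :
    x (RR J a v) = RR J a (x v) := hJ.comm x (star a) hx (star_mem ha) v

lemma RR_norm_le {a : H →L[ℂ] H} (ha : ‖a‖ ≤ 1) (v : H) : ‖RR J a v‖ ≤ ‖v‖ := by
  unfold RR
  rw [J_norm hJ]
  calc ‖star a (J v)‖ ≤ ‖star a‖ * ‖J v‖ := (star a).le_opNorm _
    _ ≤ 1 * ‖v‖ := by
        rw [norm_star, J_norm hJ]
        gcongr
    _ = ‖v‖ := one_mul _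

lemma RR_xi (a : H →L[ℂ] H) : RR J a ξ = J (star a ξ) := by
  unfold RR
  rw [hJ.fix]

end basics

section isometries

variable {H : Type} [NormedAddCommGroup H] [InnerProductSpace ℂ H] [CompleteSpace H]

lemma iso_apply {v : H →L[ℂ] H} (h : star v * v = 1) (x : H) : star v (v x) = x := by
  have := congrArg (fun T : H →L[ℂ] H => T x) h
  exact this

lemma pi_le {w : H →L[ℂ] H} (h : w * star w * w = w) : ‖w‖ ≤ 1 := by
  have h1 : ‖star w * w‖ = ‖w‖ * ‖w‖ := CStarRing.norm_star_mul_self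
  have h2 : star (star w * w) * (star w * w) = star w * w := by
    rw [star_mul, star_star]
    calc star w * w * (star w * w) = star w * (w * star w * w) := by noncomm_ring
      _ = star w * w := by rw [h]
  have h3 : ‖star w * w‖ * ‖star w * w‖ = ‖star w * w‖ := by
    rw [← CStarRing.norm_star_mul_self, h2]
  rw [h1] at h3
  by_contra hc
  have hc' : 1 < ‖w‖ := lt_of_not_ge hc
  have h4 : 1 < ‖w‖ * ‖w‖ := by nlinarith
  nlinarith

lemma iso_pi {v : H →L[ℂ] H} (h : star v * v = 1) : v * star v * v = v := by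
  rw [mul_assoc, h, mul_one]

lemma star_le {v : H →L[ℂ] H} (h : ‖v‖ ≤ 1) : ‖star v‖ ≤ 1 := by rwa [norm_star]

lemma contr {a : H →L[ℂ] H} (h : ‖a‖ ≤ 1) (x : H) : ‖a x‖ ≤ ‖x‖ := by
  calc ‖a x‖ ≤ ‖a‖ * ‖x‖ := a.le_opNorm x
    _ ≤ 1 * ‖x‖ := by gcongr
    _ = ‖x‖ := one_mul _

lemma mul_le_one' {a b : H →L[ℂ] H} (ha : ‖a‖ ≤ 1) (hb : ‖b‖ ≤ 1) : ‖a * b‖ ≤ 1 :=
  calc ‖a * b‖ ≤ ‖a‖ * ‖b‖ := norm_mul_le _ _
    _ ≤ 1 * 1 := by gcongr
    _ = 1 := one_mul _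

end isometries

section main

variable {H : Type} [NormedAddCommGroup H] [InnerProductSpace ℂ H] [CompleteSpace H]
variable {M N : VonNeumannAlgebra H} {ξ : H} {U : ℝ → H →L[ℂ] H} {J : H → H}

lemma fam_le {t ε : ℝ} {m : ℕ} {w : Fin m → H →L[ℂ] H} (h : IsFam N ξ J t ε m w) (j : Fin m) :
    ‖w j‖ ≤ 1 := pi_le (h.pi j)

lemma fam_sum {t ε : ℝ} {m : ℕ} {w : Fin m → H →L[ℂ] H} (h : IsFam N ξ J t ε m w) (x : H) :
    ∑ j, w j (star (w j) x) = x := by
  have h1 := congrArg (fun T : H →L[ℂ] H => T x) h.sum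
  simpa using h1

lemma fam_sumR (hJ : IsConj M ξ U J) {t ε : ℝ} {m : ℕ} {w : Fin m → H →L[ℂ] H}
    (h : IsFam N ξ J t ε m w) (x : H) :
    ∑ j, RR J (star (w j)) (RR J (w j) x) = x := by
  have h1 : ∀ j, RR J (star (w j)) (RR J (w j) x) = J (w j (star (w j) (J x))) := by
    intro j
    unfold RR
    rw [star_star, hJ.inv]
  simp only [h1]
  rw [← J_sum hJ, fam_sum h, hJ.inv]

/-- scale: the adjoint form -/
lemma scal_star (hJ : IsConj M ξ U J) {t ε : ℝ} {v : H →L[ℂ] H}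
    (h : ‖J (star v ξ) - ((Real.sqrt t : ℝ) : ℂ) • v ξ‖ ≤ ε) :
    ‖star v ξ - ((Real.sqrt t : ℝ) : ℂ) • RR J (star v) ξ‖ ≤ ε := by
  have e : star v ξ - ((Real.sqrt t : ℝ) : ℂ) • RR J (star v) ξ =
      J (J (star v ξ) - ((Real.sqrt t : ℝ) : ℂ) • v ξ) := by
    rw [J_sub hJ, J_real hJ]
    unfold RR
    rw [hJ.inv, hJ.fix, star_star]
  rw [e, J_norm hJ]
  exact h

/-- products `p^* q` of elements of the same scale almost commute with the state -/
lemma small_cm (hNM : ∀ x : H →L[ℂ] H, x ∈ N → x ∈ M) (hJ : IsConj M ξ U J) {t ε ε' : ℝ}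
    (ht : 0 < t) {p q : H →L[ℂ] H} (hp : p ∈ N) (hq : q ∈ N) (hp1 : ‖p‖ ≤ 1) (hq1 : ‖q‖ ≤ 1)
    (hps : ‖J (star p ξ) - ((Real.sqrt t : ℝ) : ℂ) • p ξ‖ ≤ ε')
    (hqs : ‖J (star q ξ) - ((Real.sqrt t : ℝ) : ℂ) • q ξ‖ ≤ ε) :
    ‖cm J (star p * q) ξ‖ ≤ (Real.sqrt t)⁻¹ * (ε + ε') := by
  have hpM := hNM p hp
  have hqM := hNM q hq
  have h1 := scal_star hJ hps
  rw [← RR_xi hJ] at hqs
  have e1 : ((Real.sqrt t : ℝ) : ℂ) • cm J (star p * q) ξ =
      RR J q (star p ξ - ((Real.sqrt t : ℝ) : ℂ) • RR J (star p) ξ) -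
        star p (RR J q ξ - ((Real.sqrt t : ℝ) : ℂ) • q ξ) := by
    rw [cm_eq, RR_mul hJ, RR_sub hJ, RR_smul hJ, map_sub, map_smul,
      RR_comm hJ (star_mem hpM) hqM, smul_sub]
    have : (star p * q) ξ = star p (q ξ) := rfl
    rw [this]
    abel
  have hs : 0 < Real.sqrt t := Real.sqrt_pos.2 ht
  have h2 : Real.sqrt t * ‖cm J (star p * q) ξ‖ ≤ ε + ε' := by
    have h3 : ‖((Real.sqrt t : ℝ) : ℂ) • cm J (star p * q) ξ‖ =
        Real.sqrt t * ‖cm J (star p * q) ξ‖ := by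
      rw [norm_smul, Complex.norm_real, Real.norm_of_nonneg hs.le]
    rw [← h3, e1, add_comm]
    refine (norm_sub_le _ _).trans (add_le_add ?_ ?_)
    · exact (RR_norm_le hJ hq1 _).trans h1
    · exact (contr (star_le hp1) _).trans hqs
  rw [inv_mul_eq_div, le_div_iff₀ hs, mul_comm]
  exact h2

/-- `Γ_w ζ = ∑ w_j ζ w_j^*` -/
noncomputable def Gam (J : H → H) {m : ℕ} (w : Fin m → H →L[ℂ] H) (ζ : H) : H :=
  ∑ j, w j (RR J (star (w j)) ζ)

lemma Gam_diff (hNM : ∀ x : H →L[ℂ] H, x ∈ N → x ∈ M) (hJ : IsConj M ξ U J) {t ε ε' : ℝ}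
    {m m' : ℕ} {w : Fin m → H →L[ℂ] H} {w' : Fin m' → H →L[ℂ] H} (hw : IsFam N ξ J t ε m w)
    (hw' : IsFam N ξ J t ε' m' w') (ζ : H) :
    Gam J w ζ - Gam J w' ζ =
      ∑ i, ∑ j, w' i (RR J (star (w j)) (cm J (star (w' i) * w j) ζ)) := by
  have e1 : Gam J w ζ = ∑ i, ∑ j, w' i (RR J (star (w j)) ((star (w' i) * w j) ζ)) := by
    rw [← fam_sum hw' (Gam J w ζ)]
    refine Finset.sum_congr rfl fun i _ => ?_
    unfold Gam
    rw [map_sum, map_sum]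
    refine Finset.sum_congr rfl fun j _ => ?_
    have h1 := RR_comm hJ (mul_mem (star_mem (hNM _ (hw'.mem i))) (hNM _ (hw.mem j)))
      (star_mem (hNM _ (hw.mem j))) ζ
    rw [← h1]
    rfl
  have e2 : Gam J w' ζ = ∑ i, ∑ j, w' i (RR J (star (w j)) (RR J (star (w' i) * w j) ζ)) := by
    unfold Gam
    refine Finset.sum_congr rfl fun i _ => ?_
    rw [← map_sum]
    congr 1
    rw [← fam_sumR hJ hw (RR J (star (w' i)) ζ)]
    refine Finset.sum_congr rfl fun j _ => ?_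
    rw [RR_mul hJ]
  rw [e1, e2, ← Finset.sum_sub_distrib]
  refine Finset.sum_congr rfl fun i _ => ?_
  rw [← Finset.sum_sub_distrib]
  refine Finset.sum_congr rfl fun j _ => ?_
  rw [cm_eq, RR_sub hJ, map_sub]

/-- the key estimate -/
lemma key (hmod : S_mod) (hNM : ∀ x : H →L[ℂ] H, x ∈ N → x ∈ M) (hJ : IsConj M ξ U J)
    {t : ℝ} (ht : 0 < t) {ζ : H} (hζ : ζ ∈ KK N ξ J) (m m' : ℕ) {a : ℝ} (ha : 0 < a) :
    ∃ b : ℝ, 0 ≤ b ∧ ∀ (ε ε' : ℝ) (w : Fin m → H →L[ℂ] H) (w' : Fin m' → H →L[ℂ] H),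
      IsFam N ξ J t ε m w → IsFam N ξ J t ε' m' w' →
      ‖Gam J w ζ - Gam J w' ζ‖ ^ 2 ≤ a + b * (ε + ε') ^ 2 := by
  set C : ℝ := ((m' : ℝ) * m) ^ 2 + 1 with hC
  have hC0 : 0 < C := by positivity
  obtain ⟨b, hb, h⟩ := hmod H M N ξ U J hNM hJ ζ hζ 1 (a / C) one_pos (by positivity)
  refine ⟨C * b * t⁻¹, by positivity, fun ε ε' w w' hw hw' => ?_⟩
  set D : ℝ := a / C + b * (t⁻¹ * (ε + ε') ^ 2) with hD
  have hD0 : 0 ≤ D := by positivity
  have h1 : ∀ i j, ‖cm J (star (w' i) * w j) ζ‖ ^ 2 ≤ D := by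
    intro i j
    have h2 := h (star (w' i) * w j) (mul_mem (star_mem (hw'.mem i)) (hw.mem j))
      (mul_le_one' (star_le (fam_le hw' i)) (fam_le hw j))
    have h3 := small_cm hNM hJ ht (hw'.mem i) (hw.mem j) (fam_le hw' i) (fam_le hw j)
      (hw'.scal i) (hw.scal j)
    have h4 : ‖cm J (star (w' i) * w j) ξ‖ ^ 2 ≤ t⁻¹ * (ε + ε') ^ 2 := by
      have h5 := pow_le_pow_left₀ (norm_nonneg _) h3 2
      rw [mul_pow, inv_pow, Real.sq_sqrt ht.le] at h5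
      exact h5
    have h6 : b * ‖cm J (star (w' i) * w j) ξ‖ ^ 2 ≤ b * (t⁻¹ * (ε + ε') ^ 2) :=
      mul_le_mul_of_nonneg_left h4 hb
    linarith
  have h2 : ‖Gam J w ζ - Gam J w' ζ‖ ≤ (m' * m) * Real.sqrt D := by
    rw [Gam_diff hNM hJ hw hw']
    refine (norm_sum_le _ _).trans ?_
    have h3 : ∀ i ∈ (Finset.univ : Finset (Fin m')),
        ‖∑ j, w' i (RR J (star (w j)) (cm J (star (w' i) * w j) ζ))‖ ≤ m * Real.sqrt D := by
      intro i _
      refine (norm_sum_le _ _).trans ?_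
      have h4 : ∀ j ∈ (Finset.univ : Finset (Fin m)),
          ‖w' i (RR J (star (w j)) (cm J (star (w' i) * w j) ζ))‖ ≤ Real.sqrt D := by
        intro j _
        refine (contr (fam_le hw' i) _).trans ?_
        refine (RR_norm_le hJ (star_le (fam_le hw j)) _).trans ?_
        exact Real.le_sqrt_of_sq_le (h1 i j)
      refine (Finset.sum_le_sum h4).trans ?_
      rw [Finset.sum_const, Finset.card_univ, Fintype.card_fin, nsmul_eq_mul]
    refine (Finset.sum_le_sum h3).trans ?_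
    rw [Finset.sum_const, Finset.card_univ, Fintype.card_fin, nsmul_eq_mul, mul_assoc]
  calc ‖Gam J w ζ - Gam J w' ζ‖ ^ 2 ≤ ((m' * m) * Real.sqrt D) ^ 2 := by gcongr
    _ = ((m' : ℝ) * m) ^ 2 * D := by rw [mul_pow, Real.sq_sqrt hD0]
    _ ≤ C * D := mul_le_mul_of_nonneg_right (by linarith) hD0
    _ = a + C * b * t⁻¹ * (ε + ε') ^ 2 := by
        rw [hD, mul_add, mul_div_cancel₀ _ hC0.ne']
        ring

lemma tends (hmod : S_mod) (hNM : ∀ x : H →L[ℂ] H, x ∈ N → x ∈ M) (hJ : IsConj M ξ U J)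
    {t : ℝ} (ht : 0 < t) {ζ : H} (hζ : ζ ∈ KK N ξ J) {m m' : ℕ}
    {w : ℕ → Fin m → H →L[ℂ] H} {w' : ℕ → Fin m' → H →L[ℂ] H}
    (hw : ∀ k : ℕ, IsFam N ξ J t (1 / ((k : ℝ) + 1)) m (w k))
    (hw' : ∀ k : ℕ, IsFam N ξ J t (1 / ((k : ℝ) + 1)) m' (w' k)) :
    ∀ δ : ℝ, 0 < δ → ∃ K : ℕ, ∀ k l : ℕ, K ≤ k → K ≤ l →
      ‖Gam J (w k) ζ - Gam J (w' l) ζ‖ < δ := by
  intro δ hδ
  obtain ⟨b, hb, h⟩ := key hmod hNM hJ ht hζ m m' (a := δ ^ 2 / 2) (by positivity)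
  have hlim : Tendsto (fun k : ℕ => b * (1 / ((k : ℝ) + 1) + 1 / ((k : ℝ) + 1)) ^ 2) atTop
      (𝓝 (b * (0 + 0) ^ 2)) :=
    ((tendsto_one_div_add_atTop_nhds_zero_nat.add
      tendsto_one_div_add_atTop_nhds_zero_nat).pow 2).const_mul b
  rw [add_zero, zero_pow two_ne_zero, mul_zero] at hlim
  obtain ⟨K, hK⟩ := (hlim.eventually (gt_mem_nhds (show (0 : ℝ) < δ ^ 2 / 2 by positivity))).exists
  refine ⟨K, fun k l hk hl => ?_⟩
  have h1 := h _ _ _ _ (hw k) (hw' l)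
  have h2 : b * (1 / ((k : ℝ) + 1) + 1 / ((l : ℝ) + 1)) ^ 2 ≤
      b * (1 / ((K : ℝ) + 1) + 1 / ((K : ℝ) + 1)) ^ 2 := by
    gcongr
  have h3 : ‖Gam J (w k) ζ - Gam J (w' l) ζ‖ ^ 2 < δ ^ 2 := by linarith
  exact lt_of_pow_lt_pow_left₀ 2 hδ.le h3

lemma exists_lim (hmod : S_mod) (hNM : ∀ x : H →L[ℂ] H, x ∈ N → x ∈ M) (hJ : IsConj M ξ U J)
    {t : ℝ} (ht : 0 < t) {ζ : H} (hζ : ζ ∈ KK N ξ J) {m : ℕ} {w : ℕ → Fin m → H →L[ℂ] H}
    (hw : ∀ k : ℕ, IsFam N ξ J t (1 / ((k : ℝ) + 1)) m (w k)) :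
    ∃ l : H, Tendsto (fun k => Gam J (w k) ζ) atTop (𝓝 l) := by
  apply cauchySeq_tendsto_of_complete
  rw [Metric.cauchySeq_iff]
  intro δ hδ
  obtain ⟨K, hK⟩ := tends hmod hNM hJ ht hζ hw hw δ hδ
  refine ⟨K, fun k hk l hl => ?_⟩
  rw [dist_eq_norm]
  exact hK k l hk hl

lemma same_lim (hmod : S_mod) (hNM : ∀ x : H →L[ℂ] H, x ∈ N → x ∈ M) (hJ : IsConj M ξ U J)
    {t : ℝ} (ht : 0 < t) {ζ : H} (hζ : ζ ∈ KK N ξ J) {m m' : ℕ}
    {w : ℕ → Fin m → H →L[ℂ] H} {w' : ℕ → Fin m' → H →L[ℂ] H}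
    (hw : ∀ k : ℕ, IsFam N ξ J t (1 / ((k : ℝ) + 1)) m (w k))
    (hw' : ∀ k : ℕ, IsFam N ξ J t (1 / ((k : ℝ) + 1)) m' (w' k)) {g : H}
    (hg : Tendsto (fun k => Gam J (w k) ζ) atTop (𝓝 g)) :
    Tendsto (fun k => Gam J (w' k) ζ) atTop (𝓝 g) := by
  have h2 : Tendsto (fun k => Gam J (w' k) ζ - Gam J (w k) ζ) atTop (𝓝 0) := by
    rw [Metric.tendsto_atTop]
    intro δ hδ
    obtain ⟨K, hK⟩ := tends hmod hNM hJ ht hζ hw' hw δ hδ
    refine ⟨K, fun k hk => ?_⟩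
    rw [dist_eq_norm, sub_zero]
    exact hK k k hk hk
  have h3 := h2.add hg
  rw [zero_add] at h3
  refine h3.congr fun k => ?_
  rw [sub_add_cancel]

/-- the families are permuted by the unitaries -/
lemma alf_Gam (hNM : ∀ x : H →L[ℂ] H, x ∈ N → x ∈ M) (hJ : IsConj M ξ U J)
    {t ε : ℝ} {m : ℕ} {w : Fin m → H →L[ℂ] H} (hw : IsFam N ξ J t ε m w) {u : H →L[ℂ] H}
    (hu : u ∈ N) (ζ : H) : alf J u (Gam J w ζ) = Gam J (fun j => u * w j) ζ := by
  have e1 : alf J u (Gam J w ζ) = u (RR J (star u) (Gam J w ζ)) := by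
    unfold alf RR
    rw [star_star]
  rw [e1]
  unfold Gam
  rw [RR_sum hJ, map_sum]
  refine Finset.sum_congr rfl fun j _ => ?_
  rw [← RR_comm hJ (hNM _ (hw.mem j)) (star_mem (hNM u hu)), star_mul, RR_mul hJ]
  rfl

lemma fam_mul (hNM : ∀ x : H →L[ℂ] H, x ∈ N → x ∈ M) (hJ : IsConj M ξ U J)
    {t ε : ℝ} {m : ℕ} {w : Fin m → H →L[ℂ] H} (hw : IsFam N ξ J t ε m w) {u : H →L[ℂ] H}
    (hu : IsUni N u) : IsFam N ξ J t (ε + ‖alf J u ξ - ξ‖) m (fun j => u * w j) := by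
  obtain ⟨huN, hu1, hu2⟩ := hu
  have huM := hNM u huN
  refine ⟨fun j => mul_mem huN (hw.mem j), fun j => ?_, fun i j hij => ?_, ?_, fun j => ?_⟩
  · calc u * w j * star (u * w j) * (u * w j)
        = u * w j * star (w j) * (star u * u) * w j := by rw [star_mul]; noncomm_ring
      _ = u * (w j * star (w j) * w j) := by rw [hu1]; noncomm_ring
      _ = u * w j := by rw [hw.pi j]
  · calc star (u * w i) * (u * w j) = star (w i) * (star u * u) * w j := by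
          rw [star_mul]; noncomm_ring
      _ = star (w i) * w j := by rw [hu1, mul_one]
      _ = 0 := hw.orth i j hij
  · calc ∑ j, u * w j * star (u * w j) = ∑ j, u * (w j * star (w j)) * star u := by
          refine Finset.sum_congr rfl fun j _ => ?_
          rw [star_mul]; noncomm_ring
      _ = u * (∑ j, w j * star (w j)) * star u := by rw [Finset.mul_sum, Finset.sum_mul]
      _ = 1 := by rw [hw.sum, mul_one, hu2]
  · have hun : ‖u‖ ≤ 1 := pi_le (iso_pi hu1)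
    have hs := hw.scal j
    rw [← RR_xi hJ] at hs ⊢
    have e1 : RR J (u * w j) ξ - ((Real.sqrt t : ℝ) : ℂ) • (u * w j) ξ =
        u (RR J (w j) ξ - ((Real.sqrt t : ℝ) : ℂ) • w j ξ) +
          RR J (w j) (RR J u ξ - u ξ) := by
      rw [RR_mul hJ, RR_sub hJ, map_sub, map_smul, RR_comm hJ huM (hNM _ (hw.mem j))]
      have : (u * w j) ξ = u (w j ξ) := rfl
      rw [this]
      abel
    -- `‖R(u) ξ - u ξ‖ = ‖alf u ξ - ξ‖`
    have e2 : RR J u ξ - u ξ = -(RR J u (alf J u ξ - ξ)) := by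
      have h1 : RR J u (alf J u ξ) = u ξ := by
        have h2 : alf J u ξ = u (RR J (star u) ξ) := by
          unfold alf RR
          rw [star_star]
        rw [h2, RR_comm hJ huM (star_mem huM), ← RR_mul hJ, hu1, RR_one hJ]
      rw [RR_sub hJ, h1]
      abel
    rw [e1]
    refine (norm_add_le _ _).trans (add_le_add ?_ ?_)
    · exact (contr hun _).trans hs
    · refine (RR_norm_le hJ (fam_le hw j) _).trans ?_
      rw [e2, norm_neg]
      exact RR_norm_le hJ hun _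

lemma lim_mem (hmod : S_mod) (hNM : ∀ x : H →L[ℂ] H, x ∈ N → x ∈ M) (hJ : IsConj M ξ U J)
    {t : ℝ} (ht : 0 < t) {ζ : H} (hζ : ζ ∈ KK N ξ J) {m : ℕ} {w : ℕ → Fin m → H →L[ℂ] H}
    (hw : ∀ k : ℕ, IsFam N ξ J t (1 / ((k : ℝ) + 1)) m (w k)) {l : H}
    (hl : Tendsto (fun k => Gam J (w k) ζ) atTop (𝓝 l)) : l ∈ KK N ξ J := by
  intro a ha
  obtain ⟨b, hb, h⟩ := key hmod hNM hJ ht hζ m m ha
  refine ⟨b, hb, fun u hu => ?_⟩
  have h1 : ∀ k : ℕ, ‖alf J u (Gam J (w k) ζ) - Gam J (w k) ζ‖ ^ 2 ≤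
      a + b * ((1 / ((k : ℝ) + 1) + ‖alf J u ξ - ξ‖) + 1 / ((k : ℝ) + 1)) ^ 2 := by
    intro k
    rw [alf_Gam hNM hJ (hw k) hu.1]
    exact h _ _ _ _ (fam_mul hNM hJ (hw k) hu) (hw k)
  have hcont : Continuous (alf J u) :=
    u.continuous.comp ((J_cont hJ).comp (u.continuous.comp (J_cont hJ)))
  have h2 : Tendsto (fun k => ‖alf J u (Gam J (w k) ζ) - Gam J (w k) ζ‖ ^ 2) atTop
      (𝓝 (‖alf J u l - l‖ ^ 2)) :=
    (((hcont.tendsto l).comp hl).sub hl).norm.pow 2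
  have h3 : Tendsto (fun k : ℕ => a + b * ((1 / ((k : ℝ) + 1) + ‖alf J u ξ - ξ‖) +
      1 / ((k : ℝ) + 1)) ^ 2) atTop (𝓝 (a + b * ((0 + ‖alf J u ξ - ξ‖) + 0) ^ 2)) :=
    ((((tendsto_one_div_add_atTop_nhds_zero_nat.add_const _).add
      tendsto_one_div_add_atTop_nhds_zero_nat).pow 2).const_mul b).const_add a
  rw [zero_add, add_zero] at h3
  exact le_of_tendsto_of_tendsto' h2 h3 h1

/-- density: elements of `M` are controlled by their value at `ξ` -/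
lemma dens {E : (H →L[ℂ] H) → (H →L[ℂ] H)} (hi : Inc N M ξ U J E) {C : ℝ} (hC : 0 ≤ C) (u : H)
    {δ : ℝ} (hδ : 0 < δ) : ∃ K : ℝ, 0 ≤ K ∧ ∀ T : H →L[ℂ] H, T ∈ M → ‖T‖ ≤ C →
      ‖T u‖ ≤ K * ‖T ξ‖ + δ := by
  have hJ := hi.conj
  obtain ⟨y, ⟨x, hxM, rfl⟩, hy⟩ := Metric.mem_closure_iff.1 (hi.cyc (J u)) (δ / (C + 1))
    (by positivity)
  rw [dist_eq_norm] at hy
  refine ⟨‖x‖, norm_nonneg _, fun T hT hTC => ?_⟩
  have hv : ‖u - J (x ξ)‖ < δ / (C + 1) := by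
    rw [← J_norm hJ, J_sub hJ, hJ.inv]
    exact hy
  have hTx : T (J (x ξ)) = J (x (J (T ξ))) := by
    have := hJ.comm T x hT hxM ξ
    rwa [hJ.fix] at this
  have h6 : T u = T (J (x ξ)) + T (u - J (x ξ)) := by
    rw [map_sub]
    abel
  rw [h6]
  refine (norm_add_le _ _).trans (add_le_add ?_ ?_)
  · rw [hTx, J_norm hJ]
    refine (x.le_opNorm _).trans ?_
    rw [J_norm hJ]
  · refine (T.le_opNorm _).trans ?_
    calc ‖T‖ * ‖u - J (x ξ)‖ ≤ (C + 1) * (δ / (C + 1)) :=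
          mul_le_mul (by linarith) hv.le (norm_nonneg _) (by linarith)
      _ = δ := by field_simp

lemma dens_tends {E : (H →L[ℂ] H) → (H →L[ℂ] H)} (hi : Inc N M ξ U J E) {C : ℝ}
    {T : ℕ → H →L[ℂ] H} (hT : ∀ k, T k ∈ M) (hTC : ∀ k, ‖T k‖ ≤ C)
    (h0 : Tendsto (fun k => T k ξ) atTop (𝓝 0)) (u : H) :
    Tendsto (fun k => T k u) atTop (𝓝 0) := by
  rw [Metric.tendsto_atTop]
  intro δ hδ
  have hC : 0 ≤ C := (norm_nonneg _).trans (hTC 0)
  obtain ⟨K, hK, h⟩ := dens hi hC u (δ := δ / 2) (by positivity)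
  have h1 : Tendsto (fun k => K * ‖T k ξ‖) atTop (𝓝 0) := by
    have := (h0.norm).const_mul K
    simpa using this
  obtain ⟨n₀, hn₀⟩ := (Metric.tendsto_atTop.1 h1) (δ / 2) (by positivity)
  refine ⟨n₀, fun n hn => ?_⟩
  have h5 := hn₀ n hn
  rw [Real.dist_eq, sub_zero, abs_of_nonneg (by positivity)] at h5
  rw [dist_eq_norm, sub_zero]
  have := h (T n) (hT n) (hTC n)
  linarith

lemma dens_cauchy {E : (H →L[ℂ] H) → (H →L[ℂ] H)} (hi : Inc N M ξ U J E) {C : ℝ}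
    {T : ℕ → H →L[ℂ] H} (hT : ∀ k, T k ∈ M) (hTC : ∀ k, ‖T k‖ ≤ C) {g : H}
    (h0 : Tendsto (fun k => T k ξ) atTop (𝓝 g)) (u : H) :
    ∃ l, Tendsto (fun k => T k u) atTop (𝓝 l) := by
  apply cauchySeq_tendsto_of_complete
  rw [Metric.cauchySeq_iff]
  intro δ hδ
  have hC : 0 ≤ C := (norm_nonneg _).trans (hTC 0)
  obtain ⟨K, hK, h⟩ := dens hi (C := 2 * C) (by positivity) u (δ := δ / 2) (by positivity)
  have hc := h0.cauchySeq
  rw [Metric.cauchySeq_iff] at hc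
  obtain ⟨n₀, hn₀⟩ := hc (δ / (2 * (K + 1))) (by positivity)
  refine ⟨n₀, fun k hk l hl => ?_⟩
  have h1 := hn₀ k hk l hl
  rw [dist_eq_norm] at h1 ⊢
  have h2 := h (T k - T l) (sub_mem (hT k) (hT l)) (by
    refine (norm_sub_le _ _).trans ?_
    have := hTC k
    have := hTC l
    linarith)
  have h3 : (T k - T l) u = T k u - T l u := rfl
  have h4 : (T k - T l) ξ = T k ξ - T l ξ := rfl
  rw [h3, h4] at h2
  have h5 : K * ‖T k ξ - T l ξ‖ ≤ (K + 1) * ‖T k ξ - T l ξ‖ := by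
    gcongr
    linarith
  have h6 : (K + 1) * ‖T k ξ - T l ξ‖ < (K + 1) * (δ / (2 * (K + 1))) := by
    gcongr
  have h7 : (K + 1) * (δ / (2 * (K + 1))) = δ / 2 := by
    have : K + 1 ≠ 0 := by positivity
    field_simp
  linarith

/-- `∑ w_j y w_j^*` -/
noncomputable def XX {m : ℕ} (w : Fin m → H →L[ℂ] H) (y : H →L[ℂ] H) : H →L[ℂ] H :=
  ∑ j, w j * y * star (w j)

lemma XX_apply {m : ℕ} (w : Fin m → H →L[ℂ] H) (y : H →L[ℂ] H) (u : H) :
    XX w y u = ∑ j, w j (y (star (w j) u)) := by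
  unfold XX
  simp

lemma XX_mem (hNM : ∀ x : H →L[ℂ] H, x ∈ N → x ∈ M) {t ε : ℝ} {m : ℕ}
    {w : Fin m → H →L[ℂ] H} (hw : IsFam N ξ J t ε m w) {y : H →L[ℂ] H} (hy : y ∈ M) :
    XX w y ∈ M := by
  unfold XX
  exact sum_mem fun j _ => mul_mem (mul_mem (hNM _ (hw.mem j)) hy) (star_mem (hNM _ (hw.mem j)))

lemma XX_norm {t ε : ℝ} {m : ℕ} {w : Fin m → H →L[ℂ] H} (hw : IsFam N ξ J t ε m w)
    (y : H →L[ℂ] H) : ‖XX w y‖ ≤ m * ‖y‖ := by
  unfold XX
  refine (norm_sum_le _ _).trans ?_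
  have h4 : ∀ j ∈ (Finset.univ : Finset (Fin m)), ‖w j * y * star (w j)‖ ≤ ‖y‖ := by
    intro j _
    calc ‖w j * y * star (w j)‖ ≤ ‖w j * y‖ * ‖star (w j)‖ := norm_mul_le _ _
      _ ≤ (‖w j‖ * ‖y‖) * ‖star (w j)‖ := by
          gcongr
          exact norm_mul_le _ _
      _ ≤ (1 * ‖y‖) * 1 := by
          gcongr
          · exact fam_le hw j
          · exact star_le (fam_le hw j)
      _ = ‖y‖ := by ring
  refine (Finset.sum_le_sum h4).trans ?_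
  rw [Finset.sum_const, Finset.card_univ, Fintype.card_fin, nsmul_eq_mul]

lemma XX_xi (hNM : ∀ x : H →L[ℂ] H, x ∈ N → x ∈ M) (hJ : IsConj M ξ U J) {t ε : ℝ} {m : ℕ}
    {w : Fin m → H →L[ℂ] H} (hw : IsFam N ξ J t ε m w) {y : H →L[ℂ] H} (hy : y ∈ M) :
    ‖XX w y ξ - ((Real.sqrt t : ℝ) : ℂ) • Gam J w (y ξ)‖ ≤ m * (‖y‖ * ε) := by
  have e1 : XX w y ξ - ((Real.sqrt t : ℝ) : ℂ) • Gam J w (y ξ) =
      ∑ j, w j (y (star (w j) ξ - ((Real.sqrt t : ℝ) : ℂ) • RR J (star (w j)) ξ)) := by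
    rw [XX_apply]
    unfold Gam
    rw [Finset.smul_sum, ← Finset.sum_sub_distrib]
    refine Finset.sum_congr rfl fun j _ => ?_
    rw [map_sub, map_sub, map_smul, map_smul, RR_comm hJ hy (star_mem (hNM _ (hw.mem j)))]
  rw [e1]
  refine (norm_sum_le _ _).trans ?_
  have h4 : ∀ j ∈ (Finset.univ : Finset (Fin m)),
      ‖w j (y (star (w j) ξ - ((Real.sqrt t : ℝ) : ℂ) • RR J (star (w j)) ξ))‖ ≤ ‖y‖ * ε := by
    intro j _
    refine (contr (fam_le hw j) _).trans ?_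
    refine (y.le_opNorm _).trans ?_
    exact mul_le_mul_of_nonneg_left (scal_star hJ (hw.scal j)) (norm_nonneg _)
  refine (Finset.sum_le_sum h4).trans ?_
  rw [Finset.sum_const, Finset.card_univ, Fintype.card_fin, nsmul_eq_mul]

/-- `v^* (Γ_w ζ) v ≈ ζ` -/
lemma QG (hNM : ∀ x : H →L[ℂ] H, x ∈ N → x ∈ M) (hJ : IsConj M ξ U J) {t ε : ℝ} {m : ℕ}
    {w : Fin m → H →L[ℂ] H} (hw : IsFam N ξ J t ε m w) {v : H →L[ℂ] H} (hv : v ∈ N)
    (hv1 : star v * v = 1) (ζ : H) :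
    ‖star v (RR J v (Gam J w ζ)) - ζ‖ ≤ ∑ j, ‖cm J (star (w j) * v) ζ‖ := by
  have hvn : ‖v‖ ≤ 1 := pi_le (iso_pi hv1)
  have e1 : star v (RR J v (Gam J w ζ)) = ∑ j, star v (w j (RR J (star (w j) * v) ζ)) := by
    unfold Gam
    rw [RR_sum hJ, map_sum]
    refine Finset.sum_congr rfl fun j _ => ?_
    rw [← RR_comm hJ (hNM _ (hw.mem j)) (hNM v hv), RR_mul hJ]
  have e2 : ζ = ∑ j, star v (w j ((star (w j) * v) ζ)) := by
    rw [← map_sum]
    have h1 : ∑ j, w j ((star (w j) * v) ζ) = v ζ := fam_sum hw (v ζ)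
    rw [h1, iso_apply hv1]
  have e3 : star v (RR J v (Gam J w ζ)) - ζ = -∑ j, star v (w j (cm J (star (w j) * v) ζ)) := by
    calc star v (RR J v (Gam J w ζ)) - ζ
        = (∑ j, star v (w j (RR J (star (w j) * v) ζ))) -
            ∑ j, star v (w j ((star (w j) * v) ζ)) := by rw [e1, ← e2]
      _ = -∑ j, star v (w j (cm J (star (w j) * v) ζ)) := by
          rw [← Finset.sum_sub_distrib, ← Finset.sum_neg_distrib]
          refine Finset.sum_congr rfl fun j _ => ?_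
          rw [cm_eq, map_sub, map_sub]
          abel
  rw [e3, norm_neg]
  refine (norm_sum_le _ _).trans (Finset.sum_le_sum fun j _ => ?_)
  exact (contr (star_le hvn) _).trans (contr (fam_le hw j) _)

lemma cm_tends (hmod : S_mod) (hNM : ∀ x : H →L[ℂ] H, x ∈ N → x ∈ M) (hJ : IsConj M ξ U J)
    {ζ : H} (hζ : ζ ∈ KK N ξ J) {z : ℕ → H →L[ℂ] H} (hz : ∀ k, z k ∈ N) (hz1 : ∀ k, ‖z k‖ ≤ 1)
    (h0 : Tendsto (fun k => ‖cm J (z k) ξ‖) atTop (𝓝 0)) :
    Tendsto (fun k => ‖cm J (z k) ζ‖) atTop (𝓝 0) := by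
  have h2 : Tendsto (fun k => ‖cm J (z k) ζ‖ ^ 2) atTop (𝓝 0) := by
    rw [Metric.tendsto_atTop]
    intro ε hε
    obtain ⟨B, hB, hB2⟩ := hmod H M N ξ U J hNM hJ ζ hζ 1 (ε / 2) one_pos (by positivity)
    have e : Tendsto (fun k => B * ‖cm J (z k) ξ‖ ^ 2) atTop (𝓝 0) := by
      have := (h0.pow 2).const_mul B
      simpa using this
    obtain ⟨n₀, hn₀⟩ := (Metric.tendsto_atTop.1 e) (ε / 2) (by positivity)
    refine ⟨n₀, fun n hn => ?_⟩
    have h5 := hn₀ n hn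
    rw [Real.dist_eq, sub_zero] at h5 ⊢
    rw [abs_of_nonneg (by positivity)] at h5 ⊢
    have h6 := hB2 (z n) (hz n) (hz1 n)
    linarith
  have := h2.sqrt
  simpa [Real.sqrt_sq (norm_nonneg _)] using this

lemma lim_one (a b : ℝ) : Tendsto (fun k : ℕ => a * (b * (1 / ((k : ℝ) + 1)))) atTop (𝓝 0) := by
  have := (tendsto_one_div_add_atTop_nhds_zero_nat (𝕜 := ℝ)).const_mul (a * b)
  simp only [mul_zero] at this
  refine this.congr fun k => ?_
  ring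

end main

theorem r (h1 : S_mod) (h2 : S_KK) (h3 : S_Bchar) (h4 : S_bic) : S_binv := by
  intro H _ _ _ N M ξ U J E hI t ht0 ht1 y hy
  have hi : Inc N M ξ U J E := hI.toInc2.toInc
  have hJ := hi.conj
  have hNM := hi.le
  have hyM : y ∈ M := hy.1
  have hyK : y ξ ∈ KK N ξ J := (h4 H M N ξ U J hNM hi.unit hJ y hy).2.1
  have hs : 0 < Real.sqrt t := Real.sqrt_pos.2 ht0
  have hs' : ((Real.sqrt t : ℝ) : ℂ) ≠ 0 := by
    rw [Ne, Complex.ofReal_eq_zero]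
    exact hs.ne'
  -- the reference families
  obtain ⟨m₀, hm₀⟩ := hI.fam t ht0 ht1
  choose w₀ hw₀ using fun k : ℕ => hm₀ (1 / ((k : ℝ) + 1)) (by positivity)
  obtain ⟨g, hg⟩ := exists_lim h1 hNM hJ ht0 hyK hw₀
  have hgK : g ∈ KK N ξ J := lim_mem h1 hNM hJ ht0 hyK hw₀ hg
  -- convergence at `ξ`
  have hXξ : ∀ (m : ℕ) (w : ℕ → Fin m → H →L[ℂ] H),
      (∀ k : ℕ, IsFam N ξ J t (1 / ((k : ℝ) + 1)) m (w k)) →
      Tendsto (fun k => XX (w k) y ξ) atTop (𝓝 (((Real.sqrt t : ℝ) : ℂ) • g)) := by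
    intro m w hw
    have e1 := (same_lim h1 hNM hJ ht0 hyK hw₀ hw hg).const_smul ((Real.sqrt t : ℝ) : ℂ)
    have e2 : Tendsto (fun k => XX (w k) y ξ - ((Real.sqrt t : ℝ) : ℂ) • Gam J (w k) (y ξ)) atTop
        (𝓝 0) := by
      refine squeeze_zero_norm (fun k => XX_xi hNM hJ (hw k) hyM) ?_
      exact lim_one _ _
    have e3 := e2.add e1
    rw [zero_add] at e3
    refine e3.congr fun k => ?_
    rw [sub_add_cancel]
  -- the limit operator
  have hlim : ∀ u : H, ∃ l, Tendsto (fun k => XX (w₀ k) y u) atTop (𝓝 l) := fun u =>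
    dens_cauchy hi (C := m₀ * ‖y‖) (fun k => XX_mem hNM (hw₀ k) hyM)
      (fun k => XX_norm (hw₀ k) y) (hXξ m₀ w₀ hw₀) u
  choose f hf using hlim
  have hf' : Tendsto (fun (k : ℕ) (u : H) => XX (w₀ k) y u) atTop (𝓝 f) :=
    tendsto_pi_nhds.2 hf
  let x : H →L[ℂ] H := continuousLinearMapOfTendsto (fun k => XX (w₀ k) y) hf'
  have hx : ∀ u, Tendsto (fun k => XX (w₀ k) y u) atTop (𝓝 (x u)) := hf
  have hxM : x ∈ M := by
    rw [← M.commutant_commutant, VonNeumannAlgebra.mem_commutant_iff]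
    intro z hz
    have hz' : ∀ k, z * XX (w₀ k) y = XX (w₀ k) y * z := fun k =>
      (VonNeumannAlgebra.mem_commutant_iff.1 hz _ (XX_mem hNM (hw₀ k) hyM)).symm
    ext u
    have a1 : Tendsto (fun k => z (XX (w₀ k) y u)) atTop (𝓝 (z (x u))) :=
      (z.continuous.tendsto _).comp (hx u)
    have a2 : Tendsto (fun k => z (XX (w₀ k) y u)) atTop (𝓝 (x (z u))) := by
      refine (hx (z u)).congr fun k => ?_
      have := congrArg (fun T : H →L[ℂ] H => T u) (hz' k)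
      exact this.symm
    exact tendsto_nhds_unique a1 a2
  have hxξ : x ξ = ((Real.sqrt t : ℝ) : ℂ) • g := tendsto_nhds_unique (hx ξ) (hXξ m₀ w₀ hw₀)
  have hxB : x ∈ relBicentralizer N M ξ := by
    rw [h3 H N M ξ U J E hi x]
    refine ⟨hxM, ?_⟩
    obtain ⟨K, hK, -⟩ := h2 H M N ξ U J hNM hi.modular hJ hi.mod
    rw [hxξ, ← hK]
    have hgK' : g ∈ K := by
      rw [← SetLike.mem_coe, hK]
      exact hgK
    exact K.smul_mem _ hgK'
  refine ⟨x, hxB, ?_, ?_⟩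
  · intro v hv u
    have hvn : ∀ k, ‖v k‖ ≤ 1 := fun k => pi_le (iso_pi (hv k).2.1)
    -- `v_k^* g v_k → y ξ`
    have q1 : Tendsto (fun k => star (v k) (RR J (v k) g) - y ξ) atTop (𝓝 0) := by
      have b1 : Tendsto (fun k => ‖g - Gam J (w₀ k) (y ξ)‖ +
          ∑ j, ‖cm J (star (w₀ k j) * v k) (y ξ)‖) atTop (𝓝 (0 + ∑ j : Fin m₀, (0 : ℝ))) := by
        refine Tendsto.add ?_ (tendsto_finsetSum _ fun j _ => ?_)
        · have := (tendsto_const_nhds (x := g)).sub hg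
          rw [sub_self] at this
          simpa using this.norm
        · refine cm_tends h1 hNM hJ hyK (z := fun k => star (w₀ k j) * v k)
            (fun k => mul_mem (star_mem ((hw₀ k).mem j)) (hv k).1)
            (fun k => mul_le_one' (star_le (fam_le (hw₀ k) j)) (hvn k)) ?_
          refine squeeze_zero (fun k => norm_nonneg _) (fun k =>
            small_cm hNM hJ ht0 ((hw₀ k).mem j) (hv k).1 (fam_le (hw₀ k) j) (hvn k)
              ((hw₀ k).scal j) (hv k).2.2) ?_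
          have := lim_one (Real.sqrt t)⁻¹ 2
          refine this.congr fun k => ?_
          ring
      rw [Finset.sum_const_zero, add_zero] at b1
      refine squeeze_zero_norm (fun k => ?_) b1
      have e : star (v k) (RR J (v k) g) - y ξ =
          star (v k) (RR J (v k) (g - Gam J (w₀ k) (y ξ))) +
            (star (v k) (RR J (v k) (Gam J (w₀ k) (y ξ))) - y ξ) := by
        rw [RR_sub hJ, map_sub]
        abel
      rw [e]
      refine (norm_add_le _ _).trans (add_le_add ?_ ?_)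
      · exact (contr (star_le (hvn k)) _).trans (RR_norm_le hJ (hvn k) _)
      · exact QG hNM hJ (hw₀ k) (hv k).1 (hv k).2.1 (y ξ)
    have hT : ∀ k, star (v k) * x * v k - y ∈ M := fun k =>
      sub_mem (mul_mem (mul_mem (star_mem (hNM _ (hv k).1)) hxM) (hNM _ (hv k).1)) hyM
    have hTn : ∀ k, ‖star (v k) * x * v k - y‖ ≤ ‖x‖ + ‖y‖ := by
      intro k
      refine (norm_sub_le _ _).trans (add_le_add ?_ le_rfl)
      calc ‖star (v k) * x * v k‖ ≤ ‖star (v k) * x‖ * ‖v k‖ := norm_mul_le _ _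
        _ ≤ (‖star (v k)‖ * ‖x‖) * ‖v k‖ := by
            gcongr
            exact norm_mul_le _ _
        _ ≤ (1 * ‖x‖) * 1 := by
            gcongr
            · exact star_le (hvn k)
            · exact hvn k
        _ = ‖x‖ := by ring
    have hTξ : Tendsto (fun k => (star (v k) * x * v k - y) ξ) atTop (𝓝 0) := by
      have c1 : ∀ k, ((Real.sqrt t : ℝ) : ℂ) • (star (v k) * x * v k - y) ξ =
          ((Real.sqrt t : ℝ) : ℂ) • (star (v k) (RR J (v k) g) - y ξ) -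
            star (v k) (x (RR J (v k) ξ - ((Real.sqrt t : ℝ) : ℂ) • v k ξ)) := by
        intro k
        have d1 : (star (v k) * x * v k - y) ξ = star (v k) (x (v k ξ)) - y ξ := rfl
        rw [d1, map_sub x, map_smul x, RR_comm hJ hxM (hNM _ (hv k).1), hxξ, RR_smul hJ, map_sub,
          map_smul, map_smul, smul_sub, smul_sub]
        abel
      have c2 : Tendsto (fun k => star (v k)
          (x (RR J (v k) ξ - ((Real.sqrt t : ℝ) : ℂ) • v k ξ))) atTop (𝓝 0) := by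
        refine squeeze_zero_norm (a := fun k : ℕ => 1 * (‖x‖ * (1 / ((k : ℝ) + 1)))) (fun k => ?_)
          (lim_one _ _)
        rw [one_mul]
        refine (contr (star_le (hvn k)) _).trans ?_
        refine (x.le_opNorm _).trans ?_
        refine mul_le_mul_of_nonneg_left ?_ (norm_nonneg _)
        rw [RR_xi hJ]
        exact (hv k).2.2
      have c3 : Tendsto (fun k => ((Real.sqrt t : ℝ) : ℂ) • (star (v k) * x * v k - y) ξ) atTop
          (𝓝 0) := by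
        have := (q1.const_smul ((Real.sqrt t : ℝ) : ℂ)).sub c2
        rw [smul_zero, sub_zero] at this
        exact this.congr fun k => (c1 k).symm
      have c4 := c3.const_smul (((Real.sqrt t : ℝ) : ℂ)⁻¹)
      rw [smul_zero] at c4
      refine c4.congr fun k => ?_
      rw [smul_smul, inv_mul_cancel₀ hs', one_smul]
    have hfin := dens_tends hi hT hTn hTξ u
    have hfin2 := hfin.add_const (y u)
    rw [zero_add] at hfin2
    refine hfin2.congr fun k => ?_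
    show star (v k) (x (v k u)) - y u + y u = _
    rw [sub_add_cancel]
  · intro m w hw u
    have hT : ∀ k, XX (w k) y - x ∈ M := fun k => sub_mem (XX_mem hNM (hw k) hyM) hxM
    have hTn : ∀ k, ‖XX (w k) y - x‖ ≤ m * ‖y‖ + ‖x‖ := fun k =>
      (norm_sub_le _ _).trans (add_le_add (XX_norm (hw k) y) le_rfl)
    have hTξ : Tendsto (fun k => (XX (w k) y - x) ξ) atTop (𝓝 0) := by
      have := (hXξ m w hw).sub_const (x ξ)
      rw [hxξ, sub_self] at this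
      refine this.congr fun k => ?_
      rw [← hxξ]
      rfl
    have hfin := (dens_tends hi hT hTn hTξ u).add_const (x u)
    rw [zero_add] at hfin
    refine hfin.congr fun k => ?_
    have : (XX (w k) y - x) u = XX (w k) y u - x u := rfl
    rw [this, sub_add_cancel, XX_apply]

end Pool.Agent.H255.BC.F_binv
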