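import Pool.Agent.H255.BC.Defs3

set_option autoImplicit false

open MeasureTheory Filter Topology Complex
open scoped InnerProductSpace ENNReal FourierTransform

namespace Pool.Agent.H255.BC.F_blim

open Pool.Agent.W662.CB Pool.Agent.H255.BC

section aux

variable {H : Type} [NormedAddCommGroup H] [InnerProductSpace ℂ H] [CompleteSpace H]

theorem normJ {M : VonNeumannAlgebra H} {ξ : H} {U : ℝ → H →L[ℂ] H} {J : H → H}
    (hJ : IsConj M ξ U J) (v : H) : ‖J v‖ = ‖v‖ := by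
  have h := hJ.inner v v
  rw [inner_self_eq_norm_sq_to_K, inner_self_eq_norm_sq_to_K] at h
  have h2 : ‖J v‖ ^ 2 = ‖v‖ ^ 2 := by exact_mod_cast h
  exact (sq_eq_sq₀ (norm_nonneg (J v)) (norm_nonneg v)).1 h2

theorem subJ {M : VonNeumannAlgebra H} {ξ : H} {U : ℝ → H →L[ℂ] H} {J : H → H}
    (hJ : IsConj M ξ U J) (v w : H) : J (v - w) = J v - J w := by
  have h1 : J (v - w) + J w = J v := by rw [← hJ.add]; simp
  exact eq_sub_of_add_eq h1

theorem adjJ {M : VonNeumannAlgebra H} {ξ : H} {U : ℝ → H →L[ℂ] H} {J : H → H}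
    (hJ : IsConj M ξ U J) (v w : H) : ⟪v, J w⟫_ℂ = ⟪w, J v⟫_ℂ := by
  have h := hJ.inner (J v) w
  rw [hJ.inv] at h
  exact h

theorem starM {M : VonNeumannAlgebra H} {x : H →L[ℂ] H} (h : x ∈ M) : star x ∈ M :=
  star_mem h

theorem star_inner (x : H →L[ℂ] H) (v w : H) : ⟪v, x w⟫_ℂ = ⟪star x v, w⟫_ℂ := by
  rw [ContinuousLinearMap.star_eq_adjoint, ContinuousLinearMap.adjoint_inner_left]

/-- the norm of an isometry or of a partial isometry -/
theorem norm_pi (w : H →L[ℂ] H) (h : w * star w * w = w) : ‖w‖ ≤ 1 := by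
  have h1 : (star w * w) * (star w * w) = star w * w := by
    calc (star w * w) * (star w * w) = star w * (w * star w * w) := by noncomm_ring
      _ = star w * w := by rw [h]
  have h2 : star (star w * w) = star w * w := by simp
  have h3 : ‖star w * w‖ * ‖star w * w‖ = ‖star w * w‖ := by
    have := CStarRing.norm_star_mul_self (x := star w * w)
    rw [h2, h1] at this
    exact this.symm
  have h4 : ‖star w * w‖ = ‖w‖ * ‖w‖ := CStarRing.norm_star_mul_self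
  have h5 : ‖star w * w‖ ≤ 1 := by
    rcases eq_or_ne ‖star w * w‖ 0 with h | h
    · rw [h]; norm_num
    · have := mul_left_cancel₀ h (h3.trans (mul_one _).symm)
      exact this.le
  rw [h4] at h5
  nlinarith [norm_nonneg w]

theorem norm_iso (w : H →L[ℂ] H) (h : star w * w = 1) : ‖w‖ ≤ 1 :=
  norm_pi w (by rw [mul_assoc, h, mul_one])

theorem norm_star_le {w : H →L[ℂ] H} (h : ‖w‖ ≤ 1) : ‖star w‖ ≤ 1 := by
  rw [norm_star]; exact h

theorem vst_le {ξ : H} (hξ : ‖ξ‖ = 1) (x : H →L[ℂ] H) : ‖vst ξ x‖ ≤ ‖x‖ := by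
  unfold vst
  calc ‖⟪ξ, x ξ⟫_ℂ‖ ≤ ‖ξ‖ * ‖x ξ‖ := norm_inner_le_norm _ _
    _ ≤ ‖ξ‖ * (‖x‖ * ‖ξ‖) := by gcongr; exact x.le_opNorm ξ
    _ = ‖x‖ := by rw [hξ]; ring

theorem tw_le {M : VonNeumannAlgebra H} {ξ : H} (hξ : ‖ξ‖ = 1) {lam : ℝ} (hl : 0 < lam)
    (a x : H →L[ℂ] H) (hx : x ∈ M) (hx1 : ‖x‖ ≤ 1) :
    ‖vst ξ (x * a) - (lam : ℂ) * vst ξ (a * x)‖ ≤ twNorm M ξ lam a := by
  unfold twNorm
  apply le_csSup
  · refine ⟨‖a‖ + lam * ‖a‖, ?_⟩
    rintro r ⟨y, hy, hy1, rfl⟩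
    calc ‖vst ξ (y * a) - (lam : ℂ) * vst ξ (a * y)‖
        ≤ ‖vst ξ (y * a)‖ + ‖(lam : ℂ) * vst ξ (a * y)‖ := norm_sub_le _ _
      _ ≤ ‖y * a‖ + lam * ‖a * y‖ := by
          rw [norm_mul, Complex.norm_real, Real.norm_eq_abs, abs_of_pos hl]
          gcongr
          · exact vst_le hξ _
          · exact vst_le hξ _
      _ ≤ ‖y‖ * ‖a‖ + lam * (‖a‖ * ‖y‖) := by
          gcongr
          · exact norm_mul_le _ _
          · exact norm_mul_le _ _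
      _ ≤ 1 * ‖a‖ + lam * (‖a‖ * 1) := by gcongr
      _ = ‖a‖ + lam * ‖a‖ := by ring
  · exact ⟨x, hx, hx1, rfl⟩

theorem tw_nonneg {M : VonNeumannAlgebra H} {ξ : H} {lam : ℝ} (a : H →L[ℂ] H) :
    0 ≤ twNorm M ξ lam a := by
  unfold twNorm
  apply Real.sSup_nonneg
  rintro r ⟨y, hy, hy1, rfl⟩
  exact norm_nonneg _

theorem cn_nonneg {M : VonNeumannAlgebra H} {ξ : H} (a : H →L[ℂ] H) :
    0 ≤ commNorm M ξ a := by
  unfold commNorm
  apply Real.sSup_nonneg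
  rintro r ⟨y, hy, hy1, rfl⟩
  exact norm_nonneg _

theorem cn_le {M : VonNeumannAlgebra H} {ξ : H} {c : H →L[ℂ] H} {K : ℝ}
    (h : ∀ x ∈ M, ‖x‖ ≤ 1 → ‖vst ξ (x * c) - vst ξ (c * x)‖ ≤ K) : commNorm M ξ c ≤ K := by
  unfold commNorm
  apply csSup_le
  · exact ⟨_, 0, zero_mem M, by simp, rfl⟩
  · rintro r ⟨y, hy, hy1, rfl⟩
    exact h y hy hy1

/-- `φ(q v^*) ≈ t φ(v^* q)` if `J v^* ξ ≈ √t v ξ` -/
theorem lemA {M : VonNeumannAlgebra H} {ξ : H} {U : ℝ → H →L[ℂ] H} {J : H → H}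
    (hJ : IsConj M ξ U J) (hξ : ‖ξ‖ = 1) {t ε : ℝ} (ht : 0 < t) (ht1 : t < 1)
    {v q : H →L[ℂ] H} (hv : v ∈ M) (hq : q ∈ M)
    (h : ‖J (star v ξ) - ((Real.sqrt t : ℝ) : ℂ) • v ξ‖ ≤ ε) :
    ‖vst ξ (q * star v) - (t : ℂ) * vst ξ (star v * q)‖ ≤ 2 * ε * ‖q‖ := by
  have hε : 0 ≤ ε := (norm_nonneg _).trans h
  have hs : 0 ≤ Real.sqrt t := Real.sqrt_nonneg t
  have hs1 : Real.sqrt t ≤ 1 := Real.sqrt_le_one.2 ht1.le
  have hss : ((Real.sqrt t : ℝ) : ℂ) * ((Real.sqrt t : ℝ) : ℂ) = (t : ℂ) := by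
    rw [← Complex.ofReal_mul, Real.mul_self_sqrt ht.le]
  -- `v^* ξ ≈ √t J v ξ`
  have h2 : ‖star v ξ - ((Real.sqrt t : ℝ) : ℂ) • J (v ξ)‖ ≤ ε := by
    have e : star v ξ - ((Real.sqrt t : ℝ) : ℂ) • J (v ξ)
        = J (J (star v ξ) - ((Real.sqrt t : ℝ) : ℂ) • v ξ) := by
      rw [subJ hJ, hJ.inv, hJ.smul, Complex.conj_ofReal]
    rw [e, normJ hJ]
    exact h
  -- `⟪ξ, q J v ξ⟫ = ⟪J v^* ξ, q ξ⟫`
  have h3 : ⟪ξ, q (J (v ξ))⟫_ℂ = ⟪J (star v ξ), q ξ⟫_ℂ := by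
    have e1 : q (J (v ξ)) = J (v (J (q ξ))) := by
      have := hJ.comm q v hq hv ξ
      rw [hJ.fix] at this
      exact this
    rw [e1, adjJ hJ, hJ.fix]
    have e2 : ⟪v (J (q ξ)), ξ⟫_ℂ = ⟪J (q ξ), star v ξ⟫_ℂ := by
      rw [ContinuousLinearMap.star_eq_adjoint, ContinuousLinearMap.adjoint_inner_right]
    rw [e2]
    have := hJ.inner (q ξ) (J (star v ξ))
    rw [hJ.inv] at this
    exact this
  have h4 : vst ξ (q * star v) - (t : ℂ) * vst ξ (star v * q)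
      = ⟪ξ, q (star v ξ - ((Real.sqrt t : ℝ) : ℂ) • J (v ξ))⟫_ℂ
        + ((Real.sqrt t : ℝ) : ℂ) * ⟪J (star v ξ) - ((Real.sqrt t : ℝ) : ℂ) • v ξ, q ξ⟫_ℂ := by
    unfold vst
    rw [map_sub, map_smul, inner_sub_right, inner_smul_right, inner_sub_left, inner_smul_left,
      Complex.conj_ofReal, h3, mul_sub]
    have e3 : ⟪ξ, (star v * q) ξ⟫_ℂ = ⟪v ξ, q ξ⟫_ℂ := by
      rw [mul_apply_eq_comp, ContinuousLinearMap.star_eq_adjoint,
        ContinuousLinearMap.adjoint_inner_right]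
    rw [e3, mul_apply_eq_comp, ← hss]
    ring
  rw [h4]
  have h5 : ‖⟪ξ, q (star v ξ - ((Real.sqrt t : ℝ) : ℂ) • J (v ξ))⟫_ℂ‖ ≤ ‖q‖ * ε := by
    calc _ ≤ ‖ξ‖ * ‖q (star v ξ - ((Real.sqrt t : ℝ) : ℂ) • J (v ξ))‖ := norm_inner_le_norm _ _
      _ ≤ ‖ξ‖ * (‖q‖ * ‖star v ξ - ((Real.sqrt t : ℝ) : ℂ) • J (v ξ)‖) := by
          gcongr; exact q.le_opNorm _
      _ ≤ 1 * (‖q‖ * ε) := by rw [hξ]; gcongr
      _ = ‖q‖ * ε := one_mul _
  have h6 : ‖((Real.sqrt t : ℝ) : ℂ) *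
      ⟪J (star v ξ) - ((Real.sqrt t : ℝ) : ℂ) • v ξ, q ξ⟫_ℂ‖ ≤ ‖q‖ * ε := by
    rw [norm_mul, Complex.norm_real, Real.norm_eq_abs, abs_of_nonneg hs]
    calc Real.sqrt t * ‖⟪J (star v ξ) - ((Real.sqrt t : ℝ) : ℂ) • v ξ, q ξ⟫_ℂ‖
        ≤ 1 * (‖J (star v ξ) - ((Real.sqrt t : ℝ) : ℂ) • v ξ‖ * ‖q ξ‖) := by
          gcongr; exact norm_inner_le_norm _ _
      _ ≤ 1 * (ε * (‖q‖ * ‖ξ‖)) := by gcongr; exact q.le_opNorm _
      _ = ‖q‖ * ε := by rw [hξ]; ring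
  calc _ ≤ _ := norm_add_le _ _
    _ ≤ ‖q‖ * ε + ‖q‖ * ε := add_le_add h5 h6
    _ = 2 * ε * ‖q‖ := by ring

theorem vst_star (ξ : H) (x : H →L[ℂ] H) : vst ξ (star x) = starRingEnd ℂ (vst ξ x) := by
  unfold vst
  rw [ContinuousLinearMap.star_eq_adjoint, ContinuousLinearMap.adjoint_inner_right, inner_conj_symm]

/-- `t φ(q v) ≈ φ(v q)` -/
theorem lemA' {M : VonNeumannAlgebra H} {ξ : H} {U : ℝ → H →L[ℂ] H} {J : H → H}
    (hJ : IsConj M ξ U J) (hξ : ‖ξ‖ = 1) {t ε : ℝ} (ht : 0 < t) (ht1 : t < 1)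
    {v q : H →L[ℂ] H} (hv : v ∈ M) (hq : q ∈ M)
    (h : ‖J (star v ξ) - ((Real.sqrt t : ℝ) : ℂ) • v ξ‖ ≤ ε) :
    ‖(t : ℂ) * vst ξ (q * v) - vst ξ (v * q)‖ ≤ 2 * ε * ‖q‖ := by
  have h1 := lemA hJ hξ ht ht1 hv (starM hq) h
  have e : (t : ℂ) * vst ξ (q * v) - vst ξ (v * q)
      = - starRingEnd ℂ (vst ξ (star q * star v) - (t : ℂ) * vst ξ (star v * star q)) := by
    rw [← star_mul, ← star_mul, vst_star, vst_star, map_sub, map_mul, Complex.conj_ofReal]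
    simp
  rw [e, norm_neg, RCLike.norm_conj, ]
  rwa [norm_star] at h1

/-- a bounded sequence in `M` which tends to zero on `ξ` tends to zero strongly -/
theorem lemD {M : VonNeumannAlgebra H} {ξ : H} {U : ℝ → H →L[ℂ] H} {J : H → H}
    (hJ : IsConj M ξ U J) (hc : IsCyclic M ξ) {T : ℕ → H →L[ℂ] H} (hT : ∀ n, T n ∈ M)
    {C : ℝ} (hC : ∀ n, ‖T n‖ ≤ C) (h : Tendsto (fun n => T n ξ) atTop (𝓝 0)) (u : H) :
    Tendsto (fun n => T n u) atTop (𝓝 0) := by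
  have hC0 : 0 ≤ C := (norm_nonneg _).trans (hC 0)
  rw [tendsto_zero_iff_norm_tendsto_zero] at h ⊢
  rw [Metric.tendsto_atTop] at h ⊢
  intro ε hε
  have hd : 0 < ε / (2 * (C + 1)) := by positivity
  obtain ⟨v, hv, ⟨c, hcM, rfl⟩⟩ := Metric.dense_iff.1 hc (J u) _ hd
  rw [Metric.mem_ball, dist_eq_norm] at hv
  have hk : 0 < ε / (2 * (‖c‖ + 1)) := by positivity
  obtain ⟨N, hN⟩ := h _ hk
  refine ⟨N, fun n hn => ?_⟩
  have h1 := hN n hn
  rw [Real.dist_eq, sub_zero, abs_of_nonneg (norm_nonneg _)] at h1 ⊢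
  have e1 : T n (J (c ξ)) = J (c (J (T n ξ))) := by
    have := hJ.comm (T n) c (hT n) hcM ξ
    rw [hJ.fix] at this
    exact this
  have e2 : T n u = T n (u - J (c ξ)) + T n (J (c ξ)) := by
    rw [map_sub]; simp
  have e3 : ‖u - J (c ξ)‖ < ε / (2 * (C + 1)) := by
    have : u - J (c ξ) = J (J u - c ξ) := by rw [subJ hJ, hJ.inv]
    rw [this, normJ hJ, norm_sub_rev]
    exact hv
  have e4 : ‖T n (u - J (c ξ))‖ ≤ ε / 2 := by
    calc _ ≤ ‖T n‖ * ‖u - J (c ξ)‖ := (T n).le_opNorm _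
      _ ≤ (C + 1) * (ε / (2 * (C + 1))) := by
          gcongr
          exact (hC n).trans (by linarith)
      _ = ε / 2 := by field_simp
  have e5 : ‖T n (J (c ξ))‖ < ε / 2 := by
    rw [e1, normJ hJ]
    calc _ ≤ ‖c‖ * ‖J (T n ξ)‖ := c.le_opNorm _
      _ = ‖c‖ * ‖T n ξ‖ := by rw [normJ hJ]
      _ ≤ (‖c‖ + 1) * ‖T n ξ‖ := by gcongr; linarith
      _ < (‖c‖ + 1) * (ε / (2 * (‖c‖ + 1))) := by gcongr
      _ = ε / 2 := by field_simp
  rw [e2]
  calc _ ≤ _ := norm_add_le _ _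
    _ < ε / 2 + ε / 2 := by linarith
    _ = ε := by ring

theorem bic_tendsto {N M : VonNeumannAlgebra H} {ξ : H} {x : H →L[ℂ] H}
    (hx : x ∈ relBicentralizer N M ξ) {c : ℕ → H →L[ℂ] H} (hc : ∀ n, c n ∈ N) {C : ℝ}
    (hC : ∀ n, ‖c n‖ ≤ C) (h : Tendsto (fun n => commNorm M ξ (c n)) atTop (𝓝 0)) (v : H) :
    Tendsto (fun n => (c n * x - x * c n) v) atTop (𝓝 0) :=
  (hx.2 c hc ⟨C, hC⟩ h v).1

/-- `commNorm (a v^*) → 0` if `twNorm t⁻¹ a → 0` and `v` is of scale `t` -/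
theorem cn2 {N M : VonNeumannAlgebra H} {ξ : H} {U : ℝ → H →L[ℂ] H} {J : H → H}
    (hJ : IsConj M ξ U J) (hξ : ‖ξ‖ = 1) {t ε C : ℝ} (ht : 0 < t) (ht1 : t < 1)
    {v a : H →L[ℂ] H} (hv : v ∈ M) (ha : a ∈ M) (hv1 : ‖v‖ ≤ 1) (hC : ‖a‖ ≤ C)
    (h : ‖J (star v ξ) - ((Real.sqrt t : ℝ) : ℂ) • v ξ‖ ≤ ε) :
    commNorm M ξ (a * star v) ≤ 2 * ε * C + twNorm M ξ t⁻¹ a := by
  have hε : 0 ≤ ε := (norm_nonneg _).trans h
  have hC0 : 0 ≤ C := (norm_nonneg _).trans hC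
  apply cn_le
  intro z hz hz1
  have hza : z * a ∈ M := mul_mem hz ha
  have h1 := lemA hJ hξ ht ht1 hv hza h
  have h2 := tw_le (M := M) hξ (inv_pos.2 ht) a (star v * z) (mul_mem (starM hv) hz)
    ((norm_mul_le _ _).trans (by
      calc ‖star v‖ * ‖z‖ ≤ 1 * 1 := by
            gcongr
            exact norm_star_le hv1
        _ = 1 := one_mul 1))
  have hn : ‖z * a‖ ≤ C := (norm_mul_le _ _).trans (by
    calc ‖z‖ * ‖a‖ ≤ 1 * C := by gcongr
      _ = C := one_mul C)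
  have ht' : (t : ℂ) ≠ 0 := by exact_mod_cast ht.ne'
  have e : vst ξ (z * (a * star v)) - vst ξ (a * star v * z)
      = (vst ξ (z * a * star v) - (t : ℂ) * vst ξ (star v * (z * a)))
        + (t : ℂ) * (vst ξ (star v * z * a) - ((t⁻¹ : ℝ) : ℂ) * vst ξ (a * (star v * z))) := by
    rw [Complex.ofReal_inv, mul_sub, ← mul_assoc (t : ℂ) ((t : ℂ)⁻¹), mul_inv_cancel₀ ht',
      one_mul, mul_assoc z a, mul_assoc a, mul_assoc (star v) z a]
    ring
  rw [e]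
  calc _ ≤ _ := norm_add_le _ _
    _ ≤ 2 * ε * ‖z * a‖ + t * twNorm M ξ t⁻¹ a := by
        rw [norm_mul, Complex.norm_real, Real.norm_eq_abs, abs_of_pos ht]
        gcongr
    _ ≤ 2 * ε * C + 1 * twNorm M ξ t⁻¹ a := by
        have := tw_nonneg (M := M) (ξ := ξ) (lam := t⁻¹) a
        gcongr
    _ = _ := by ring

/-- `commNorm (a w) → 0` if `twNorm t a → 0` and `w` is of scale `t` -/
theorem cn1 {M : VonNeumannAlgebra H} {ξ : H} {U : ℝ → H →L[ℂ] H} {J : H → H}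
    (hJ : IsConj M ξ U J) (hξ : ‖ξ‖ = 1) {t ε C : ℝ} (ht : 0 < t) (ht1 : t < 1)
    {w a : H →L[ℂ] H} (hw : w ∈ M) (ha : a ∈ M) (hw1 : ‖w‖ ≤ 1) (hC : ‖a‖ ≤ C)
    (h : ‖J (star w ξ) - ((Real.sqrt t : ℝ) : ℂ) • w ξ‖ ≤ ε) :
    commNorm M ξ (a * w) ≤ t⁻¹ * (2 * ε * C + twNorm M ξ t a) := by
  have hε : 0 ≤ ε := (norm_nonneg _).trans h
  have hC0 : 0 ≤ C := (norm_nonneg _).trans hC
  apply cn_le
  intro z hz hz1
  have hza : z * a ∈ M := mul_mem hz ha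
  have h1 := lemA' hJ hξ ht ht1 hw hza h
  have h2 := tw_le (M := M) hξ ht a (w * z) (mul_mem hw hz)
    ((norm_mul_le _ _).trans (by
      calc ‖w‖ * ‖z‖ ≤ 1 * 1 := by gcongr
        _ = 1 := one_mul 1))
  have hn : ‖z * a‖ ≤ C := (norm_mul_le _ _).trans (by
    calc ‖z‖ * ‖a‖ ≤ 1 * C := by gcongr
      _ = C := one_mul C)
  have ht' : (t : ℂ) ≠ 0 := by exact_mod_cast ht.ne'
  have e : vst ξ (z * (a * w)) - vst ξ (a * w * z)
      = (t : ℂ)⁻¹ * (((t : ℂ) * vst ξ (z * a * w) - vst ξ (w * (z * a)))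
        + (vst ξ (w * z * a) - (t : ℂ) * vst ξ (a * (w * z)))) := by
    rw [mul_assoc w z a, mul_assoc z a, mul_assoc a w z]
    field_simp
    ring
  rw [e, norm_mul, norm_inv, Complex.norm_real, Real.norm_eq_abs, abs_of_pos ht]
  have hti : 0 < t⁻¹ := inv_pos.2 ht
  gcongr
  calc _ ≤ _ := norm_add_le _ _
    _ ≤ 2 * ε * ‖z * a‖ + twNorm M ξ t a := add_le_add h1 h2
    _ ≤ 2 * ε * C + twNorm M ξ t a := by gcongr

theorem part2 {N M : VonNeumannAlgebra H} {ξ : H} {U : ℝ → H →L[ℂ] H} {J : H → H}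
    {E : (H →L[ℂ] H) → (H →L[ℂ] H)} (hI : Inc3 N M ξ U J E) {t : ℝ} (ht : 0 < t) (ht1 : t < 1)
    {x y : H →L[ℂ] H} (hx : x ∈ relBicentralizer N M ξ) (hy : y ∈ relBicentralizer N M ξ)
    (hv : ∀ v : ℕ → H →L[ℂ] H, (∀ k : ℕ, IsScal N ξ J t (1 / ((k : ℝ) + 1)) (v k)) → ∀ u : H,
      Tendsto (fun k => star (v k) (x (v k (u)))) atTop (𝓝 (y u)))
    {a : ℕ → H →L[ℂ] H} (ha : ∀ n, a n ∈ N) {C : ℝ} (hC : ∀ n, ‖a n‖ ≤ C)
    (h : Tendsto (fun n => twNorm M ξ t⁻¹ (a n)) atTop (𝓝 0)) (u : H) :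
    Tendsto (fun n => (a n * y - x * a n) u) atTop (𝓝 0) := by
  have hJ := hI.conj
  have hC0 : 0 ≤ C := (norm_nonneg _).trans (hC 0)
  choose v hvs using fun k : ℕ => hI.scal t (1 / ((k : ℝ) + 1)) ht ht1 (by positivity)
  have hvN : ∀ k, v k ∈ N := fun k => (hvs k).1
  have hvM : ∀ k, v k ∈ M := fun k => hI.le _ (hvN k)
  have hviso : ∀ k, star (v k) * v k = 1 := fun k => (hvs k).2.1
  have hv1 : ∀ k, ‖v k‖ ≤ 1 := fun k => norm_iso _ (hviso k)
  have hvsc := fun k => (hvs k).2.2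
  have haM : ∀ n, a n ∈ M := fun n => hI.le _ (ha n)
  have hcN : ∀ n, a n * star (v n) ∈ N := fun n => mul_mem (ha n) (starM (hvN n))
  have hcb : ∀ n, ‖a n * star (v n)‖ ≤ C := fun n => (norm_mul_le _ _).trans (by
    calc ‖a n‖ * ‖star (v n)‖ ≤ C * 1 := by
          gcongr
          · exact hC n
          · exact norm_star_le (hv1 n)
      _ = C := mul_one C)
  have hlim1 : Tendsto (fun n : ℕ => 1 / ((n : ℝ) + 1)) atTop (𝓝 0) :=
    tendsto_one_div_add_atTop_nhds_zero_nat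
  have hcn : Tendsto (fun n => commNorm M ξ (a n * star (v n))) atTop (𝓝 0) := by
    apply squeeze_zero (fun n => cn_nonneg _)
      (fun n => cn2 (N := N) hJ hI.unit ht ht1 (hvM n) (haM n) (hv1 n) (hC n) (hvsc n))
    have := ((hlim1.const_mul 2).mul_const C).add h
    simpa using this
  have hb := bic_tendsto hx hcN hcb hcn ξ
  set D : ℕ → H →L[ℂ] H := fun n => a n * star (v n) * x - x * (a n * star (v n)) with hD
  have hDM : ∀ n, D n ∈ M := fun n =>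
    sub_mem (mul_mem (mul_mem (haM n) (starM (hvM n))) hx.1)
      (mul_mem hx.1 (mul_mem (haM n) (starM (hvM n))))
  have hDb : ∀ n, ‖D n‖ ≤ 2 * C * ‖x‖ := fun n => by
    calc ‖D n‖ ≤ ‖a n * star (v n) * x‖ + ‖x * (a n * star (v n))‖ := norm_sub_le _ _
      _ ≤ C * ‖x‖ + ‖x‖ * C := by
          refine add_le_add ((norm_mul_le _ _).trans ?_) ((norm_mul_le _ _).trans ?_)
          · gcongr; exact hcb n
          · gcongr; exact hcb n
      _ = 2 * C * ‖x‖ := by ring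
  have hb' : Tendsto (fun n => ‖D n ξ‖) atTop (𝓝 0) := by
    have := hb.norm
    rwa [norm_zero] at this
  have hs : 0 < Real.sqrt t := Real.sqrt_pos.2 ht
  -- D (v ξ) → 0
  have hDv : Tendsto (fun n => D n (v n ξ)) atTop (𝓝 0) := by
    rw [tendsto_zero_iff_norm_tendsto_zero]
    have key : ∀ n, ‖D n (v n ξ)‖ ≤ (Real.sqrt t)⁻¹ * (‖D n ξ‖ + 2 * C * ‖x‖ * (1 / ((n : ℝ) + 1))) := by
      intro n
      have e1 : D n (J (star (v n) ξ)) = J (star (v n) (J (D n ξ))) := by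
        have := hJ.comm (D n) (star (v n)) (hDM n) (starM (hvM n)) ξ
        rw [hJ.fix] at this
        exact this
      have e2 : ((Real.sqrt t : ℝ) : ℂ) • D n (v n ξ) = D n (J (star (v n) ξ))
          - D n (J (star (v n) ξ) - ((Real.sqrt t : ℝ) : ℂ) • v n ξ) := by
        rw [map_sub, map_smul]; abel
      have e3 : Real.sqrt t * ‖D n (v n ξ)‖ ≤ ‖D n ξ‖ + 2 * C * ‖x‖ * (1 / ((n : ℝ) + 1)) := by
        have : ‖((Real.sqrt t : ℝ) : ℂ) • D n (v n ξ)‖ = Real.sqrt t * ‖D n (v n ξ)‖ := by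
          rw [norm_smul, Complex.norm_real, Real.norm_eq_abs, abs_of_pos hs]
        rw [← this, e2]
        refine (norm_sub_le _ _).trans (add_le_add ?_ ?_)
        · rw [e1, normJ hJ]
          calc _ ≤ ‖star (v n)‖ * ‖J (D n ξ)‖ := (star (v n)).le_opNorm _
            _ ≤ 1 * ‖J (D n ξ)‖ := by gcongr; exact norm_star_le (hv1 n)
            _ = ‖D n ξ‖ := by rw [one_mul, normJ hJ]
        · calc _ ≤ ‖D n‖ * ‖J (star (v n) ξ) - ((Real.sqrt t : ℝ) : ℂ) • v n ξ‖ :=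
                (D n).le_opNorm _
            _ ≤ 2 * C * ‖x‖ * (1 / ((n : ℝ) + 1)) := by
                gcongr
                · exact hDb n
                · exact hvsc n
      rw [← div_eq_inv_mul, le_div_iff₀ hs]
      linarith
    apply squeeze_zero (fun n => norm_nonneg _) key
    have := (hb'.add (hlim1.const_mul (2 * C * ‖x‖))).const_mul (Real.sqrt t)⁻¹
    simpa using this
  -- (a y - x a) ξ → 0
  have hfin : Tendsto (fun n => (a n * y - x * a n) ξ) atTop (𝓝 0) := by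
    have hy2 := hv v hvs ξ
    have hy3 : Tendsto (fun n => a n (y ξ - star (v n) (x (v n ξ)))) atTop (𝓝 0) := by
      rw [tendsto_zero_iff_norm_tendsto_zero]
      apply squeeze_zero (fun n => norm_nonneg _)
        (fun n => (show ‖a n (y ξ - star (v n) (x (v n ξ)))‖
          ≤ C * ‖y ξ - star (v n) (x (v n ξ))‖ from ((a n).le_opNorm _).trans (by
            gcongr; exact hC n)))
      have h7 : Tendsto (fun n => y ξ - star (v n) (x (v n ξ))) atTop (𝓝 (y ξ - y ξ)) :=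
        hy2.const_sub (y ξ)
      rw [sub_self] at h7
      have := h7.norm.const_mul C
      simpa using this
    have h8 := hDv.add hy3
    rw [add_zero] at h8
    refine h8.congr (fun n => ?_)
    have e5 : star (v n) (v n ξ) = ξ := by
      have := congrArg (fun T : H →L[ℂ] H => T ξ) (hviso n)
      simpa using this
    simp only [hD, ContinuousLinearMap.sub_apply, mul_apply_eq_comp, map_sub, e5]
    abel
  refine lemD hJ hI.cyc (C := C * ‖y‖ + ‖x‖ * C) (fun n => ?_) (fun n => ?_) hfin u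
  · exact sub_mem (mul_mem (haM n) hy.1) (mul_mem hx.1 (haM n))
  · refine (norm_sub_le _ _).trans (add_le_add ((norm_mul_le _ _).trans ?_)
      ((norm_mul_le _ _).trans ?_))
    · gcongr; exact hC n
    · gcongr; exact hC n

theorem part1 {N M : VonNeumannAlgebra H} {ξ : H} {U : ℝ → H →L[ℂ] H} {J : H → H}
    {E : (H →L[ℂ] H) → (H →L[ℂ] H)} (hI : Inc3 N M ξ U J E) {t : ℝ} (ht : 0 < t) (ht1 : t < 1)
    {x y : H →L[ℂ] H} (hx : x ∈ relBicentralizer N M ξ) (hy : y ∈ relBicentralizer N M ξ)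
    (hw : ∀ (m : ℕ) (w : ℕ → Fin m → H →L[ℂ] H),
      (∀ k : ℕ, IsFam N ξ J t (1 / ((k : ℝ) + 1)) m (w k)) → ∀ u : H,
      Tendsto (fun k => ∑ j, (w k j) (y (star (w k j) u))) atTop (𝓝 (x u)))
    {a : ℕ → H →L[ℂ] H} (ha : ∀ n, a n ∈ N) {C : ℝ} (hC : ∀ n, ‖a n‖ ≤ C)
    (h : Tendsto (fun n => twNorm M ξ t (a n)) atTop (𝓝 0)) (u : H) :
    Tendsto (fun n => (a n * x - y * a n) u) atTop (𝓝 0) := by
  have hJ := hI.conj
  have hC0 : 0 ≤ C := (norm_nonneg _).trans (hC 0)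
  obtain ⟨m, hm⟩ := hI.fam t ht ht1
  choose w hws using fun k : ℕ => hm (1 / ((k : ℝ) + 1)) (by positivity)
  have hwN : ∀ k j, w k j ∈ N := fun k => (hws k).mem
  have hwM : ∀ k j, w k j ∈ M := fun k j => hI.le _ (hwN k j)
  have hw1 : ∀ k j, ‖w k j‖ ≤ 1 := fun k j => norm_pi _ ((hws k).pi j)
  have hwsc : ∀ k j, ‖J (star (w k j) ξ) - ((Real.sqrt t : ℝ) : ℂ) • w k j ξ‖
      ≤ 1 / ((k : ℝ) + 1) := fun k => (hws k).scal
  have haM : ∀ n, a n ∈ M := fun n => hI.le _ (ha n)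
  have hlim1 : Tendsto (fun n : ℕ => 1 / ((n : ℝ) + 1)) atTop (𝓝 0) :=
    tendsto_one_div_add_atTop_nhds_zero_nat
  have hcb : ∀ j n, ‖a n * w n j‖ ≤ C := fun j n => (norm_mul_le _ _).trans (by
    calc ‖a n‖ * ‖w n j‖ ≤ C * 1 := by
          gcongr
          · exact hC n
          · exact hw1 n j
      _ = C := mul_one C)
  have hcn : ∀ j, Tendsto (fun n => commNorm M ξ (a n * w n j)) atTop (𝓝 0) := fun j => by
    apply squeeze_zero (fun n => cn_nonneg _)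
      (fun n => cn1 hJ hI.unit ht ht1 (hwM n j) (haM n) (hw1 n j) (hC n) (hwsc n j))
    have := (((hlim1.const_mul 2).mul_const C).add h).const_mul t⁻¹
    simpa using this
  set D : Fin m → ℕ → H →L[ℂ] H := fun j n => a n * w n j * y - y * (a n * w n j) with hD
  have hDM : ∀ j n, D j n ∈ M := fun j n =>
    sub_mem (mul_mem (mul_mem (haM n) (hwM n j)) hy.1)
      (mul_mem hy.1 (mul_mem (haM n) (hwM n j)))
  have hDb : ∀ j n, ‖D j n‖ ≤ 2 * C * ‖y‖ := fun j n => by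
    calc ‖D j n‖ ≤ ‖a n * w n j * y‖ + ‖y * (a n * w n j)‖ := norm_sub_le _ _
      _ ≤ C * ‖y‖ + ‖y‖ * C := by
          refine add_le_add ((norm_mul_le _ _).trans ?_) ((norm_mul_le _ _).trans ?_)
          · gcongr; exact hcb j n
          · gcongr; exact hcb j n
      _ = 2 * C * ‖y‖ := by ring
  have hb' : ∀ j, Tendsto (fun n => ‖D j n ξ‖) atTop (𝓝 0) := fun j => by
    have hb := bic_tendsto hy (fun n => mul_mem (ha n) (hwN n j)) (hcb j) (hcn j) ξ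
    have := hb.norm
    rwa [norm_zero] at this
  have hs : 0 ≤ Real.sqrt t := Real.sqrt_nonneg t
  have hs1 : Real.sqrt t ≤ 1 := Real.sqrt_le_one.2 ht1.le
  have hDw : ∀ j, Tendsto (fun n => D j n (star (w n j) ξ)) atTop (𝓝 0) := fun j => by
    rw [tendsto_zero_iff_norm_tendsto_zero]
    have key : ∀ n, ‖D j n (star (w n j) ξ)‖
        ≤ ‖D j n ξ‖ + 2 * C * ‖y‖ * (1 / ((n : ℝ) + 1)) := by
      intro n
      have e1 : D j n (J (w n j ξ)) = J (w n j (J (D j n ξ))) := by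
        have := hJ.comm (D j n) (w n j) (hDM j n) (hwM n j) ξ
        rw [hJ.fix] at this
        exact this
      have e2 : D j n (star (w n j) ξ) = ((Real.sqrt t : ℝ) : ℂ) • D j n (J (w n j ξ))
          + D j n (star (w n j) ξ - ((Real.sqrt t : ℝ) : ℂ) • J (w n j ξ)) := by
        rw [map_sub, map_smul]; abel
      have e3 : ‖star (w n j) ξ - ((Real.sqrt t : ℝ) : ℂ) • J (w n j ξ)‖
          ≤ 1 / ((n : ℝ) + 1) := by
        have e : star (w n j) ξ - ((Real.sqrt t : ℝ) : ℂ) • J (w n j ξ)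
            = J (J (star (w n j) ξ) - ((Real.sqrt t : ℝ) : ℂ) • w n j ξ) := by
          rw [subJ hJ, hJ.inv, hJ.smul, Complex.conj_ofReal]
        rw [e, normJ hJ]
        exact hwsc n j
      rw [e2]
      refine (norm_add_le _ _).trans (add_le_add ?_ ?_)
      · rw [norm_smul, Complex.norm_real, Real.norm_eq_abs, abs_of_nonneg hs, e1, normJ hJ]
        calc _ ≤ 1 * (‖w n j‖ * ‖J (D j n ξ)‖) := by gcongr; exact (w n j).le_opNorm _
          _ ≤ 1 * (1 * ‖J (D j n ξ)‖) := by gcongr; exact hw1 n j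
          _ = ‖D j n ξ‖ := by rw [one_mul, one_mul, normJ hJ]
      · calc _ ≤ ‖D j n‖ * ‖star (w n j) ξ - ((Real.sqrt t : ℝ) : ℂ) • J (w n j ξ)‖ :=
              (D j n).le_opNorm _
          _ ≤ 2 * C * ‖y‖ * (1 / ((n : ℝ) + 1)) := by
              gcongr
              exact hDb j n
    apply squeeze_zero (fun n => norm_nonneg _) key
    have := (hb' j).add (hlim1.const_mul (2 * C * ‖y‖))
    simpa using this
  have hsum : Tendsto (fun n => ∑ j, D j n (star (w n j) ξ)) atTop (𝓝 0) := by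
    have := tendsto_finset_sum (Finset.univ : Finset (Fin m)) (fun j _ => hDw j)
    simpa using this
  have hfin : Tendsto (fun n => (a n * x - y * a n) ξ) atTop (𝓝 0) := by
    have hx2 := hw m w hws ξ
    have hx3 : Tendsto (fun n => a n (x ξ - ∑ j, (w n j) (y (star (w n j) ξ)))) atTop (𝓝 0) := by
      rw [tendsto_zero_iff_norm_tendsto_zero]
      apply squeeze_zero (fun n => norm_nonneg _)
        (fun n => (show ‖a n (x ξ - ∑ j, (w n j) (y (star (w n j) ξ)))‖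
          ≤ C * ‖x ξ - ∑ j, (w n j) (y (star (w n j) ξ))‖ from ((a n).le_opNorm _).trans (by
            gcongr; exact hC n)))
      have h7 : Tendsto (fun n => x ξ - ∑ j, (w n j) (y (star (w n j) ξ))) atTop
          (𝓝 (x ξ - x ξ)) := hx2.const_sub (x ξ)
      rw [sub_self] at h7
      have := h7.norm.const_mul C
      simpa using this
    have h8 := hsum.add hx3
    rw [add_zero] at h8
    refine h8.congr (fun n => ?_)
    have e5 : ∑ j, (w n j) (star (w n j) ξ) = ξ := by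
      have := congrArg (fun T : H →L[ℂ] H => T ξ) (hws n).sum
      simpa [ContinuousLinearMap.sum_apply] using this
    have e6 : ∑ j, D j n (star (w n j) ξ)
        = a n (∑ j, (w n j) (y (star (w n j) ξ))) - y (a n ξ) := by
      simp only [hD, ContinuousLinearMap.sub_apply, mul_apply_eq_comp, Finset.sum_sub_distrib]
      congr 1
      · rw [map_sum]
      · rw [← map_sum, ← map_sum, e5]
    rw [e6]
    simp only [ContinuousLinearMap.sub_apply, mul_apply_eq_comp, map_sub]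
    abel
  refine lemD hJ hI.cyc (C := C * ‖x‖ + ‖y‖ * C) (fun n => ?_) (fun n => ?_) hfin u
  · exact sub_mem (mul_mem (haM n) hx.1) (mul_mem hy.1 (haM n))
  · refine (norm_sub_le _ _).trans (add_le_add ((norm_mul_le _ _).trans ?_)
      ((norm_mul_le _ _).trans ?_))
    · gcongr; exact hC n
    · gcongr; exact hC n

end aux

/-- The hypothesis `S_bt` is added (only used for the injectivity of `x ↦ lim v_k^* x v_k`);
`h1`-`h4` are not needed. -/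
theorem r (_h1 : S_psa2) (_h2 : S_mod) (_h3 : S_Bchar) (_h4 : S_bic) (h5 : S_binv)
    (h6 : S_bt) : S_blim := by
  intro H _ _ _ N M ξ U J E hI t ht ht1 x hx y hy hv a ha ⟨C, hC⟩
  refine ⟨fun h u => ?_, fun h u => part2 hI ht ht1 hx hy hv ha hC h u⟩
  obtain ⟨x', hx', hv', hw'⟩ := h5 H N M ξ U J E hI t ht ht1 y hy
  obtain ⟨b, hb⟩ := h6 H N M ξ U J E hI
  have hxx : x' = x := by
    choose v hvs using fun k : ℕ => hI.scal t (1 / ((k : ℝ) + 1)) ht ht1 (by positivity)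
    have e1 : b t x = y := by
      ext u
      exact tendsto_nhds_unique ((hb t ht ht1 x hx).2.1 v hvs u) (hv v hvs u)
    have e2 : b t x' = y := by
      ext u
      exact tendsto_nhds_unique ((hb t ht ht1 x' hx').2.1 v hvs u) (hv' v hvs u)
    have i1 := ((hb t ht ht1 x' hx').2.2 x' hx').2.2.2.2.1
    have i2 := ((hb t ht ht1 x' hx').2.2 x hx).2.2.2.2.1
    have i3 := ((hb t ht ht1 x hx).2.2 x' hx').2.2.2.2.1
    have i4 := ((hb t ht ht1 x hx).2.2 x hx).2.2.2.2.1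
    rw [e2] at i1
    rw [e1, e2] at i2 i3
    rw [e1] at i4
    have h0 : ⟪(x' - x) ξ, (x' - x) ξ⟫_ℂ = 0 := by
      rw [ContinuousLinearMap.sub_apply, inner_sub_left, inner_sub_right, inner_sub_right,
        ← i1, ← i2, ← i3, ← i4]
      ring
    rw [inner_self_eq_zero] at h0
    exact sub_eq_zero.1 (hI.sep _ (sub_mem hx'.1 hx.1) h0)
  subst hxx
  exact part1 hI ht ht1 hx hy hw' ha hC h u

end Pool.Agent.H255.BC.F_blim
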