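import Pool.Agent.H255.BC.Defs3

set_option autoImplicit false

open MeasureTheory Filter Topology Complex
open scoped InnerProductSpace ENNReal FourierTransform

namespace Pool.Agent.H71.BC.bt

open Pool.Agent.W662.CB Pool.Agent.H255.BC

/-- the right action `v a` -/
noncomputable def RR {H : Type} [NormedAddCommGroup H] [InnerProductSpace ℂ H] [CompleteSpace H]
    (J : H → H) (a : H →L[ℂ] H) (v : H) : H := J (star a (J v))

section basics

variable {H : Type} [NormedAddCommGroup H] [InnerProductSpace ℂ H] [CompleteSpace H]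
variable {M : VonNeumannAlgebra H} {ξ : H} {U : ℝ → H →L[ℂ] H} {J : H → H}
variable (hJ : IsConj M ξ U J)
include hJ

lemma J_norm (v : H) : ‖J v‖ = ‖v‖ := by
  have h := hJ.inner v v
  rw [inner_self_eq_norm_sq_to_K, inner_self_eq_norm_sq_to_K] at h
  have h2 : ‖J v‖ ^ 2 = ‖v‖ ^ 2 := by exact_mod_cast h
  exact (sq_eq_sq₀ (norm_nonneg _) (norm_nonneg _)).1 h2

lemma J_sub (v w : H) : J (v - w) = J v - J w := by
  have h := hJ.add (v - w) w
  rw [sub_add_cancel] at h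
  rw [h, add_sub_cancel_right]

lemma J_real (r : ℝ) (v : H) : J ((r : ℂ) • v) = (r : ℂ) • J v := by
  rw [hJ.smul, Complex.conj_ofReal]

lemma J_cont : Continuous J := by
  have h : LipschitzWith 1 J := LipschitzWith.of_dist_le_mul fun x y => by
    rw [dist_eq_norm, dist_eq_norm, ← J_sub hJ, J_norm hJ]
    simp
  exact h.continuous

lemma RR_sub (a : H →L[ℂ] H) (v w : H) : RR J a (v - w) = RR J a v - RR J a w := by
  unfold RR
  rw [J_sub hJ, map_sub, J_sub hJ]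

lemma RR_add (a : H →L[ℂ] H) (v w : H) : RR J a (v + w) = RR J a v + RR J a w := by
  unfold RR
  rw [hJ.add, map_add, hJ.add]

lemma RR_smul (a : H →L[ℂ] H) (c : ℂ) (v : H) : RR J a (c • v) = c • RR J a v := by
  unfold RR
  rw [hJ.smul, map_smul, hJ.smul, Complex.conj_conj]

lemma RR_mul (a b : H →L[ℂ] H) (v : H) : RR J (a * b) v = RR J b (RR J a v) := by
  unfold RR
  rw [hJ.inv, star_mul]
  rfl

lemma RR_one (v : H) : RR J 1 v = v := by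
  unfold RR
  rw [star_one]
  exact hJ.inv v

lemma RR_comm {x a : H →L[ℂ] H} (hx : x ∈ M) (ha : a ∈ M) (v : H) :
    x (RR J a v) = RR J a (x v) := hJ.comm x (star a) hx (star_mem ha) v

lemma RR_norm_le {a : H →L[ℂ] H} (ha : ‖a‖ ≤ 1) (v : H) : ‖RR J a v‖ ≤ ‖v‖ := by
  unfold RR
  rw [J_norm hJ]
  calc ‖star a (J v)‖ ≤ ‖star a‖ * ‖J v‖ := (star a).le_opNorm _
    _ ≤ 1 * ‖v‖ := by
        rw [norm_star, J_norm hJ]
        gcongr
    _ = ‖v‖ := one_mul _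

lemma RR_xi (a : H →L[ℂ] H) : RR J a ξ = J (star a ξ) := by
  unfold RR
  rw [hJ.fix]

/-- `R(a)^* = R(a^*)` -/
lemma RR_adj (a : H →L[ℂ] H) (v w : H) : ⟪RR J a v, w⟫_ℂ = ⟪v, RR J (star a) w⟫_ℂ := by
  have h1 : ⟪RR J a v, w⟫_ℂ = ⟪J w, star a (J v)⟫_ℂ := by
    conv_lhs => rw [← hJ.inv w]
    exact hJ.inner _ _
  have h2 : ⟪v, RR J (star a) w⟫_ℂ = ⟪a (J w), J v⟫_ℂ := by
    conv_lhs => rw [← hJ.inv v]
    unfold RR
    rw [star_star]
    exact hJ.inner _ _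
  rw [h1, h2, ContinuousLinearMap.star_eq_adjoint, ContinuousLinearMap.adjoint_inner_right]

end basics

section isometries

variable {H : Type} [NormedAddCommGroup H] [InnerProductSpace ℂ H] [CompleteSpace H]

lemma iso_apply {v : H →L[ℂ] H} (h : star v * v = 1) (x : H) : star v (v x) = x := by
  have := congrArg (fun T : H →L[ℂ] H => T x) h
  exact this

lemma iso_norm {v : H →L[ℂ] H} (h : star v * v = 1) (x : H) : ‖v x‖ = ‖x‖ := by
  have h1 : ⟪v x, v x⟫_ℂ = ⟪x, x⟫_ℂ := by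
    rw [← ContinuousLinearMap.adjoint_inner_left]
    change ⟪(star v) (v x), x⟫_ℂ = _
    rw [iso_apply h]
  rw [inner_self_eq_norm_sq_to_K, inner_self_eq_norm_sq_to_K] at h1
  have h2 : ‖v x‖ ^ 2 = ‖x‖ ^ 2 := by exact_mod_cast h1
  exact (sq_eq_sq₀ (norm_nonneg _) (norm_nonneg _)).1 h2

lemma iso_le {v : H →L[ℂ] H} (h : star v * v = 1) : ‖v‖ ≤ 1 :=
  ContinuousLinearMap.opNorm_le_bound _ zero_le_one fun x => by rw [iso_norm h, one_mul]

lemma star_le {v : H →L[ℂ] H} (h : ‖v‖ ≤ 1) : ‖star v‖ ≤ 1 := by rwa [norm_star]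

lemma contr {a : H →L[ℂ] H} (h : ‖a‖ ≤ 1) (x : H) : ‖a x‖ ≤ ‖x‖ := by
  calc ‖a x‖ ≤ ‖a‖ * ‖x‖ := a.le_opNorm x
    _ ≤ 1 * ‖x‖ := by gcongr
    _ = ‖x‖ := one_mul _

lemma inner_star_left (T : H →L[ℂ] H) (v w : H) : ⟪star T v, w⟫_ℂ = ⟪v, T w⟫_ℂ :=
  ContinuousLinearMap.adjoint_inner_left T w v

lemma inner_star_right (T : H →L[ℂ] H) (v w : H) : ⟪v, star T w⟫_ℂ = ⟪T v, w⟫_ℂ :=
  ContinuousLinearMap.adjoint_inner_right T v w

end isometries

section main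

variable {H : Type} [NormedAddCommGroup H] [InnerProductSpace ℂ H] [CompleteSpace H]
variable {M N : VonNeumannAlgebra H} {ξ : H} {U : ℝ → H →L[ℂ] H} {J : H → H}

/-- `Q_v ζ = v^* ζ v` -/
noncomputable def Qv (J : H → H) (v : H →L[ℂ] H) (ζ : H) : H := star v (J (star v (J ζ)))

lemma Qv_eq (v : H →L[ℂ] H) (ζ : H) : Qv J v ζ = star v (RR J v ζ) := rfl

/-- (1) -/
lemma scal_comm (hNM : ∀ x : H →L[ℂ] H, x ∈ N → x ∈ M) (hJ : IsConj M ξ U J) {t ε ε' : ℝ}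
    {v v' : H →L[ℂ] H} (hv : IsScal N ξ J t ε v) (hv' : IsScal N ξ J t ε' v') :
    ‖cm J (v' * star v) ξ‖ ≤ ε + ε' := by
  obtain ⟨hvN, hvi, hvs⟩ := hv
  obtain ⟨hvN', hvi', hvs'⟩ := hv'
  rw [← RR_xi hJ] at hvs hvs'
  have hvM := hNM v hvN
  have hvM' := hNM v' hvN'
  have h1 : ‖star v ξ - ((Real.sqrt t : ℝ) : ℂ) • RR J (star v) ξ‖ ≤ ε := by
    have e : star v ξ - ((Real.sqrt t : ℝ) : ℂ) • RR J (star v) ξ =
        J (RR J v ξ - ((Real.sqrt t : ℝ) : ℂ) • v ξ) := by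
      rw [J_sub hJ, J_real hJ]
      unfold RR
      rw [hJ.inv, hJ.fix, star_star]
    rw [e, J_norm hJ]
    exact hvs
  have e1 : cm J (v' * star v) ξ =
      v' (star v ξ - ((Real.sqrt t : ℝ) : ℂ) • RR J (star v) ξ) -
        RR J (star v) (RR J v' ξ - ((Real.sqrt t : ℝ) : ℂ) • v' ξ) := by
    have e2 : cm J (v' * star v) ξ = v' (star v ξ) - RR J (v' * star v) ξ := rfl
    rw [e2, RR_mul hJ, map_sub, map_smul, RR_sub hJ, RR_smul hJ,
      RR_comm hJ hvM' (star_mem hvM)]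
    abel
  rw [e1]
  refine (norm_sub_le _ _).trans (add_le_add ?_ ?_)
  · exact (contr (iso_le hvi') _).trans h1
  · exact (RR_norm_le hJ (star_le (iso_le hvi)) _).trans hvs'

/-- (2) -/
lemma Q_diff (hNM : ∀ x : H →L[ℂ] H, x ∈ N → x ∈ M) (hJ : IsConj M ξ U J)
    {v v' : H →L[ℂ] H} (hv : v ∈ N) (hvi : star v * v = 1) (hv' : v' ∈ N)
    (hvi' : star v' * v' = 1) (ζ : H) :
    ‖Qv J v ζ - Qv J v' ζ‖ ≤ ‖cm J (v' * star v) ζ‖ := by
  have hvM := hNM v hv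
  have hvM' := hNM v' hv'
  have e : Qv J v ζ - Qv J v' ζ = star v' (RR J v (cm J (v' * star v) ζ)) := by
    have e2 : cm J (v' * star v) ζ = v' (star v ζ) - RR J (v' * star v) ζ := rfl
    rw [e2, RR_sub hJ, map_sub, ← RR_comm hJ hvM' hvM, ← RR_comm hJ (star_mem hvM) hvM,
      iso_apply hvi', RR_mul hJ, ← RR_mul hJ (star v) v, hvi, RR_one hJ]
    rfl
  rw [e]
  exact (contr (star_le (iso_le hvi')) _).trans (RR_norm_le hJ (iso_le hvi) _)

/-- the commutators of the elements of `𝒦` with asymptotically central sequences -/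
lemma cm_tendsto (hmod : S_mod) (hNM : ∀ x : H →L[ℂ] H, x ∈ N → x ∈ M) (hJ : IsConj M ξ U J)
    {ζ : H} (hζ : ζ ∈ KK N ξ J) (z : ℕ → H →L[ℂ] H) (hz : ∀ k, z k ∈ N) (hz1 : ∀ k, ‖z k‖ ≤ 1)
    (h0 : Tendsto (fun k => cm J (z k) ξ) atTop (𝓝 0)) :
    Tendsto (fun k => cm J (z k) ζ) atTop (𝓝 0) := by
  rw [tendsto_zero_iff_norm_tendsto_zero, Metric.tendsto_atTop]
  intro δ hδ
  obtain ⟨b, hb, h⟩ := hmod H M N ξ U J hNM hJ ζ hζ 1 (δ ^ 2 / 2) one_pos (by positivity)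
  have h1 : Tendsto (fun k => b * ‖cm J (z k) ξ‖ ^ 2) atTop (𝓝 0) := by
    have := ((h0.norm).pow 2).const_mul b
    simpa using this
  obtain ⟨K, hK⟩ := (Metric.tendsto_atTop.1 h1) (δ ^ 2 / 2) (by positivity)
  refine ⟨K, fun k hk => ?_⟩
  have h2 := hK k hk
  rw [Real.dist_eq, sub_zero] at h2 ⊢
  rw [abs_of_nonneg (by positivity)] at h2 ⊢
  have h3 := h (z k) (hz k) (hz1 k)
  have h4 : ‖cm J (z k) ζ‖ ^ 2 < δ ^ 2 := by linarith
  exact lt_of_pow_lt_pow_left₀ 2 hδ.le h4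

/-- scale sequences -/
def Seq (N : VonNeumannAlgebra H) (ξ : H) (J : H → H) (t : ℝ) (v : ℕ → H →L[ℂ] H) : Prop :=
  ∀ k : ℕ, IsScal N ξ J t (1 / ((k : ℝ) + 1)) (v k)

lemma Seq.cm_xi (hNM : ∀ x : H →L[ℂ] H, x ∈ N → x ∈ M) (hJ : IsConj M ξ U J) {t : ℝ}
    {v v' : ℕ → H →L[ℂ] H} (hv : Seq N ξ J t v) (hv' : Seq N ξ J t v') :
    Tendsto (fun k => cm J (v' k * star (v k)) ξ) atTop (𝓝 0) := by
  have h1 : Tendsto (fun k : ℕ => 1 / ((k : ℝ) + 1) + 1 / ((k : ℝ) + 1)) atTop (𝓝 0) := by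
    have := (tendsto_one_div_add_atTop_nhds_zero_nat (𝕜 := ℝ)).add
      (tendsto_one_div_add_atTop_nhds_zero_nat (𝕜 := ℝ))
    simpa using this
  exact squeeze_zero_norm (fun k => scal_comm hNM hJ (hv k) (hv' k)) h1

lemma Seq.norm_le {t : ℝ} {v v' : ℕ → H →L[ℂ] H} (hv : Seq N ξ J t v) (hv' : Seq N ξ J t v')
    (k : ℕ) : ‖v' k * star (v k)‖ ≤ 1 := by
  calc ‖v' k * star (v k)‖ ≤ ‖v' k‖ * ‖star (v k)‖ := norm_mul_le _ _
    _ ≤ 1 * 1 := by
        gcongr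
        · exact iso_le (hv' k).2.1
        · exact star_le (iso_le (hv k).2.1)
    _ = 1 := one_mul _

/-- independence of the sequence -/
lemma Q_indep (hmod : S_mod) (hNM : ∀ x : H →L[ℂ] H, x ∈ N → x ∈ M) (hJ : IsConj M ξ U J)
    {ζ : H} (hζ : ζ ∈ KK N ξ J) {t : ℝ} {v v' : ℕ → H →L[ℂ] H}
    (hv : Seq N ξ J t v) (hv' : Seq N ξ J t v') {L : H}
    (h : Tendsto (fun k => Qv J (v k) ζ) atTop (𝓝 L)) :
    Tendsto (fun k => Qv J (v' k) ζ) atTop (𝓝 L) := by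
  have h1 := cm_tendsto hmod hNM hJ hζ (fun k => v' k * star (v k))
    (fun k => mul_mem (hv' k).1 (star_mem (hv k).1)) (fun k => hv.norm_le hv' k)
    (hv.cm_xi hNM hJ hv')
  have h2 : Tendsto (fun k => Qv J (v k) ζ - Qv J (v' k) ζ) atTop (𝓝 0) := by
    refine squeeze_zero_norm (fun k => Q_diff hNM hJ (hv k).1 (hv k).2.1 (hv' k).1 (hv' k).2.1 ζ) ?_
    simpa using h1.norm
  have h3 := h.sub h2
  rw [sub_zero] at h3
  refine h3.congr fun k => ?_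
  rw [sub_sub_cancel]

/-- strong limits stay in `M` -/
lemma mem_of_tendsto {A : ℕ → H →L[ℂ] H} (hA : ∀ k, A k ∈ M) {T : H →L[ℂ] H}
    (h : ∀ u, Tendsto (fun k => A k u) atTop (𝓝 (T u))) : T ∈ M := by
  rw [← M.commutant_commutant, VonNeumannAlgebra.mem_commutant_iff]
  intro y hy
  rw [VonNeumannAlgebra.mem_commutant_iff] at hy
  ext u
  have h1 : Tendsto (fun k => A k (y u)) atTop (𝓝 (T (y u))) := h (y u)
  have h2 : Tendsto (fun k => y (A k u)) atTop (𝓝 (y (T u))) :=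
    (y.continuous.tendsto _).comp (h u)
  refine tendsto_nhds_unique h2 (h1.congr fun k => ?_)
  have := congrArg (fun S : H →L[ℂ] H => S u) (hy (A k) (hA k))
  exact this

/-- strong convergence from convergence at `ξ` -/
lemma strong (hcyc : IsCyclic M ξ) (hJ : IsConj M ξ U J) (A : ℕ → H →L[ℂ] H) (hA : ∀ k, A k ∈ M)
    (C : ℝ) (hC : 0 ≤ C) (hAC : ∀ k, ‖A k‖ ≤ C) {L : H}
    (hL : Tendsto (fun k => A k ξ) atTop (𝓝 L)) :
    ∃ T : H →L[ℂ] H, T ∈ M ∧ T ξ = L ∧ ‖T‖ ≤ C ∧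
      ∀ u, Tendsto (fun k => A k u) atTop (𝓝 (T u)) := by
  have hcau : ∀ u : H, ∃ l, Tendsto (fun k => A k u) atTop (𝓝 l) := by
    intro u
    apply cauchySeq_tendsto_of_complete
    rw [Metric.cauchySeq_iff]
    intro ε hε
    obtain ⟨y, ⟨x, hxM, rfl⟩, hy⟩ := Metric.mem_closure_iff.1 (hcyc (J u)) (ε / (3 * (C + 1)))
      (by positivity)
    rw [dist_eq_norm] at hy
    have hv : ‖u - J (x ξ)‖ < ε / (3 * (C + 1)) := by
      rw [← J_norm hJ, J_sub hJ, hJ.inv]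
      exact hy
    have hconv : Tendsto (fun k => A k (J (x ξ))) atTop (𝓝 (J (x (J L)))) := by
      have e : ∀ k, A k (J (x ξ)) = J (x (J (A k ξ))) := by
        intro k
        have := hJ.comm _ x (hA k) hxM ξ
        rwa [hJ.fix] at this
      have hc : Continuous (fun w => J (x (J w))) :=
        (J_cont hJ).comp (x.continuous.comp (J_cont hJ))
      exact ((hc.tendsto L).comp hL).congr fun k => (e k).symm
    obtain ⟨n₀, hn₀⟩ := Metric.cauchySeq_iff.1 hconv.cauchySeq (ε / 3) (by positivity)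
    refine ⟨n₀, fun m hm n hn => ?_⟩
    have h1 := hn₀ m hm n hn
    have h2 : ∀ k, ‖A k u - A k (J (x ξ))‖ ≤ ε / 3 := by
      intro k
      rw [← map_sub]
      refine ((A k).le_opNorm _).trans ?_
      calc ‖A k‖ * ‖u - J (x ξ)‖ ≤ (C + 1) * (ε / (3 * (C + 1))) :=
            mul_le_mul ((hAC k).trans (by linarith)) hv.le (norm_nonneg _) (by linarith)
        _ = ε / 3 := by field_simp
    rw [dist_eq_norm] at h1 ⊢
    have e : A m u - A n u = (A m u - A m (J (x ξ))) + (A m (J (x ξ)) - A n (J (x ξ))) -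
        (A n u - A n (J (x ξ))) := by abel
    rw [e]
    have h3 := norm_sub_le ((A m u - A m (J (x ξ))) + (A m (J (x ξ)) - A n (J (x ξ))))
      (A n u - A n (J (x ξ)))
    have h4 := norm_add_le (A m u - A m (J (x ξ))) (A m (J (x ξ)) - A n (J (x ξ)))
    linarith [h2 m, h2 n]
  choose f hf using hcau
  have hT : Tendsto (fun (k : ℕ) (u : H) => A k u) atTop (𝓝 f) := tendsto_pi_nhds.2 hf
  let T : H →L[ℂ] H := continuousLinearMapOfTendsto A hT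
  have hTf : ∀ u, Tendsto (fun k => A k u) atTop (𝓝 (T u)) := hf
  refine ⟨T, mem_of_tendsto hA hTf, tendsto_nhds_unique (hTf ξ) hL, ?_, hTf⟩
  refine ContinuousLinearMap.opNorm_le_bound _ hC fun u => ?_
  refine le_of_tendsto (hTf u).norm (Eventually.of_forall fun k => ?_)
  exact ((A k).le_opNorm u).trans (mul_le_mul_of_nonneg_right (hAC k) (norm_nonneg u))

lemma Seq.err {t : ℝ} {v : ℕ → H →L[ℂ] H} (hJ : IsConj M ξ U J) (hv : Seq N ξ J t v) :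
    Tendsto (fun k => RR J (v k) ξ - ((Real.sqrt t : ℝ) : ℂ) • (v k) ξ) atTop (𝓝 0) := by
  refine squeeze_zero_norm (fun k => ?_) tendsto_one_div_add_atTop_nhds_zero_nat
  rw [RR_xi hJ]
  exact (hv k).2.2

/-- a bounded sequence applied to a null sequence -/
lemma bdd_null {A : ℕ → H →L[ℂ] H} {C : ℝ} (hC : ∀ k, ‖A k‖ ≤ C) {w : ℕ → H}
    (hw : Tendsto w atTop (𝓝 0)) : Tendsto (fun k => A k (w k)) atTop (𝓝 0) := by
  refine squeeze_zero_norm (a := fun k => C * ‖w k‖) (fun k => ?_) ?_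
  · exact ((A k).le_opNorm _).trans (mul_le_mul_of_nonneg_right (hC k) (norm_nonneg _))
  · have := (hw.norm).const_mul C
    simpa using this

/-- a bounded strongly convergent sequence applied to a convergent sequence -/
lemma bdd_tendsto {A : ℕ → H →L[ℂ] H} {C : ℝ} (hC : ∀ k, ‖A k‖ ≤ C) {w : ℕ → H} {w₀ : H}
    {T : H →L[ℂ] H} (hA : ∀ u, Tendsto (fun k => A k u) atTop (𝓝 (T u)))
    (hw : Tendsto w atTop (𝓝 w₀)) : Tendsto (fun k => A k (w k)) atTop (𝓝 (T w₀)) := by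
  have h1 : Tendsto (fun k => w k - w₀) atTop (𝓝 0) := by
    have := hw.sub_const w₀
    simpa using this
  have h2 := (bdd_null hC h1).add (hA w₀)
  rw [zero_add] at h2
  refine h2.congr fun k => ?_
  rw [map_sub, sub_add_cancel]

/-- `v_k^* x v_k ξ → t^{-1/2} lim v_k^* (x ξ) v_k` -/
lemma lim_xi (hNM : ∀ x : H →L[ℂ] H, x ∈ N → x ∈ M) (hJ : IsConj M ξ U J) {t : ℝ} (ht : 0 < t)
    {v : ℕ → H →L[ℂ] H} (hv : Seq N ξ J t v) {x : H →L[ℂ] H} (hx : x ∈ M) {L : H}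
    (hL : Tendsto (fun k => Qv J (v k) (x ξ)) atTop (𝓝 L)) :
    Tendsto (fun k => (star (v k) * x * v k) ξ) atTop
      (𝓝 ((((Real.sqrt t : ℝ) : ℂ))⁻¹ • L)) := by
  have ht' : (((Real.sqrt t : ℝ) : ℂ)) ≠ 0 := by
    exact_mod_cast (Real.sqrt_pos.2 ht).ne'
  have h1 := hv.err hJ
  have h2 : Tendsto (fun k => (star (v k) * x)
      (RR J (v k) ξ - ((Real.sqrt t : ℝ) : ℂ) • (v k) ξ)) atTop (𝓝 0) := by
    refine bdd_null (C := ‖x‖) (fun k => ?_) h1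
    calc ‖star (v k) * x‖ ≤ ‖star (v k)‖ * ‖x‖ := norm_mul_le _ _
      _ ≤ 1 * ‖x‖ := by
          gcongr
          exact star_le (iso_le (hv k).2.1)
      _ = ‖x‖ := one_mul _
  have h3 := ((hL.sub h2).const_smul ((((Real.sqrt t : ℝ) : ℂ))⁻¹))
  rw [sub_zero] at h3
  refine h3.congr fun k => ?_
  have e1 : Qv J (v k) (x ξ) = (star (v k) * x) (RR J (v k) ξ) := by
    rw [Qv_eq, ← RR_comm hJ hx (hNM _ (hv k).1)]
    rfl
  rw [e1, map_sub, sub_sub_cancel, map_smul, smul_smul, inv_mul_cancel₀ ht', one_smul]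
  rfl

lemma conj_norm {v x : H →L[ℂ] H} (hv : star v * v = 1) : ‖star v * x * v‖ ≤ ‖x‖ := by
  calc ‖star v * x * v‖ ≤ ‖star v * x‖ * ‖v‖ := norm_mul_le _ _
    _ ≤ (‖star v‖ * ‖x‖) * ‖v‖ := by gcongr; exact norm_mul_le _ _
    _ ≤ (1 * ‖x‖) * 1 := by
        gcongr
        · exact star_le (iso_le hv)
        · exact iso_le hv
    _ = ‖x‖ := by ring

end main

section flow

variable {H : Type} [NormedAddCommGroup H] [InnerProductSpace ℂ H] [CompleteSpace H]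
variable {M N : VonNeumannAlgebra H} {ξ : H} {U : ℝ → H →L[ℂ] H} {J : H → H}
variable {E : (H →L[ℂ] H) → (H →L[ℂ] H)}

/-- the defining property of `β_t(x)` -/
def Prp (N M : VonNeumannAlgebra H) (ξ : H) (J : H → H) (t : ℝ) (x T : H →L[ℂ] H) : Prop :=
  T ∈ relBicentralizer N M ξ ∧ ‖T‖ ≤ ‖x‖ ∧
    ∀ v : ℕ → H →L[ℂ] H, Seq N ξ J t v →
      Tendsto (fun k => Qv J (v k) (x ξ)) atTop (𝓝 ((((Real.sqrt t : ℝ) : ℂ)) • T ξ)) ∧
      ∀ u : H, Tendsto (fun k => (star (v k) * x * v k) u) atTop (𝓝 (T u))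

/-- the main existence lemma -/
lemma exists_b (h1 : S_mod) (h2 : S_KK) (h3 : S_Q) (h4 : S_Bchar) (hi : Inc3 N M ξ U J E) {t : ℝ}
    (ht : 0 < t) (ht1 : t < 1) {x : H →L[ℂ] H} (hx : x ∈ relBicentralizer N M ξ) :
    ∃ T : H →L[ℂ] H, Prp N M ξ J t x T := by
  have hJ := hi.conj
  have ht' : (((Real.sqrt t : ℝ) : ℂ)) ≠ 0 := by
    exact_mod_cast (Real.sqrt_pos.2 ht).ne'
  have hx' := (h4 H N M ξ U J E hi.toInc x).1 hx
  have hex : ∀ k : ℕ, ∃ v, IsScal N ξ J t (1 / ((k : ℝ) + 1)) v := fun k =>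
    hi.scal t _ ht ht1 (by positivity)
  choose v₀ hv₀ using hex
  have hv₀' : Seq N ξ J t v₀ := hv₀
  obtain ⟨Q, hQ⟩ := h3 H M N ξ U J hi.le hi.modular hJ hi.mod t v₀ ht ht1 hv₀
  obtain ⟨hQK, -, hQl, -, -⟩ := hQ (x ξ) hx'.2
  have hQl' : Tendsto (fun k => Qv J (v₀ k) (x ξ)) atTop (𝓝 (Q (x ξ))) := hQl
  have hAM : ∀ v : ℕ → H →L[ℂ] H, Seq N ξ J t v → ∀ k, star (v k) * x * v k ∈ M :=
    fun v hv k => mul_mem (mul_mem (star_mem (hi.le _ (hv k).1)) hx'.1) (hi.le _ (hv k).1)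
  have hall : ∀ v : ℕ → H →L[ℂ] H, Seq N ξ J t v →
      Tendsto (fun k => Qv J (v k) (x ξ)) atTop (𝓝 (Q (x ξ))) ∧
      ∃ T : H →L[ℂ] H, T ∈ M ∧ T ξ = (((Real.sqrt t : ℝ) : ℂ))⁻¹ • Q (x ξ) ∧ ‖T‖ ≤ ‖x‖ ∧
        ∀ u, Tendsto (fun k => (star (v k) * x * v k) u) atTop (𝓝 (T u)) := by
    intro v hv
    have h5 := Q_indep h1 hi.le hJ hx'.2 hv₀' hv hQl'
    refine ⟨h5, ?_⟩
    exact strong hi.cyc hJ _ (hAM v hv) ‖x‖ (norm_nonneg _) (fun k => conj_norm (hv k).2.1)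
      (lim_xi hi.le hJ ht hv hx'.1 h5)
  obtain ⟨-, T, hTM, hTξ, hTn, -⟩ := hall v₀ hv₀'
  have hTK : T ξ ∈ KK N ξ J := by
    obtain ⟨K, hKe, -, -, -, -⟩ := h2 H M N ξ U J hi.le hi.modular hJ hi.mod
    rw [← hKe, hTξ]
    refine K.smul_mem _ ?_
    rw [← SetLike.mem_coe, hKe]
    exact hQK
  refine ⟨T, (h4 H N M ξ U J E hi.toInc T).2 ⟨hTM, hTK⟩, hTn, fun v hv => ?_⟩
  obtain ⟨hq, T', hTM', hTξ', -, hlim⟩ := hall v hv
  have hTT : T' = T := by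
    have h6 : (T' - T) ξ = 0 := by
      rw [sub_apply, hTξ', hTξ, sub_self]
    exact sub_eq_zero.1 (hi.sep _ (sub_mem hTM' hTM) h6)
  rw [hTT] at hlim
  refine ⟨?_, hlim⟩
  rw [hTξ, smul_smul, mul_inv_cancel₀ ht', one_smul]
  exact hq

open Classical in
/-- `β_t(x)` -/
noncomputable def bb (N M : VonNeumannAlgebra H) (ξ : H) (J : H → H) (t : ℝ) (x : H →L[ℂ] H) :
    H →L[ℂ] H :=
  if h : ∃ T : H →L[ℂ] H, Prp N M ξ J t x T then h.choose else 0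

lemma bb_spec (h1 : S_mod) (h2 : S_KK) (h3 : S_Q) (h4 : S_Bchar) (hi : Inc3 N M ξ U J E) {t : ℝ}
    (ht : 0 < t) (ht1 : t < 1) {x : H →L[ℂ] H} (hx : x ∈ relBicentralizer N M ξ) :
    Prp N M ξ J t x (bb N M ξ J t x) := by
  have h := exists_b h1 h2 h3 h4 hi ht ht1 hx
  unfold bb
  rw [dif_pos h]
  exact h.choose_spec

lemma exists_seq (hi : Inc3 N M ξ U J E) {t : ℝ} (ht : 0 < t) (ht1 : t < 1) :
    ∃ v : ℕ → H →L[ℂ] H, Seq N ξ J t v := by
  have hex : ∀ k : ℕ, ∃ v, IsScal N ξ J t (1 / ((k : ℝ) + 1)) v := fun k =>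
    hi.scal t _ ht ht1 (by positivity)
  choose v₀ hv₀ using hex
  exact ⟨v₀, hv₀⟩

/-- products -/
lemma mul_rel {x y : H →L[ℂ] H} (hx : x ∈ relBicentralizer N M ξ)
    (hy : y ∈ relBicentralizer N M ξ) : x * y ∈ relBicentralizer N M ξ := by
  refine ⟨mul_mem hx.1 hy.1, fun a haN haC hcomm v => ?_⟩
  constructor
  · have e1 := (hx.2 a haN haC hcomm (y v)).1
    have e2 := (x.continuous.tendsto 0).comp (hy.2 a haN haC hcomm v).1
    rw [map_zero] at e2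
    have e3 := e1.add e2
    rw [add_zero] at e3
    refine e3.congr fun n => ?_
    simp only [Function.comp_apply]
    have : a n * (x * y) - x * y * a n = (a n * x - x * a n) * y + x * (a n * y - y * a n) := by
      noncomm_ring
    rw [this]
    rfl
  · have e1 := ((star y).continuous.tendsto 0).comp (hx.2 a haN haC hcomm v).2
    have e2 := (hy.2 a haN haC hcomm (star x v)).2
    rw [map_zero] at e1
    have e3 := e1.add e2
    rw [add_zero] at e3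
    refine e3.congr fun n => ?_
    simp only [Function.comp_apply]
    have : a n * (x * y) - x * y * a n = (a n * x - x * a n) * y + x * (a n * y - y * a n) := by
      noncomm_ring
    rw [this, star_add, star_mul, star_mul x]
    rfl

lemma add_rel (h2 : S_KK) (h4 : S_Bchar) (hi : Inc3 N M ξ U J E)
    {x y : H →L[ℂ] H} (hx : x ∈ relBicentralizer N M ξ)
    (hy : y ∈ relBicentralizer N M ξ) : x + y ∈ relBicentralizer N M ξ := by
  obtain ⟨K, hKe, -, -, -, -⟩ := h2 H M N ξ U J hi.le hi.modular hi.conj hi.mod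
  have hx' := (h4 H N M ξ U J E hi.toInc x).1 hx
  have hy' := (h4 H N M ξ U J E hi.toInc y).1 hy
  refine (h4 H N M ξ U J E hi.toInc (x + y)).2 ⟨add_mem hx'.1 hy'.1, ?_⟩
  rw [← hKe] at hx' hy' ⊢
  exact K.add_mem hx'.2 hy'.2

lemma smul_rel (h2 : S_KK) (h4 : S_Bchar) (hi : Inc3 N M ξ U J E)
    {x : H →L[ℂ] H} (hx : x ∈ relBicentralizer N M ξ) (c : ℂ) :
    c • x ∈ relBicentralizer N M ξ := by
  obtain ⟨K, hKe, -, -, -, -⟩ := h2 H M N ξ U J hi.le hi.modular hi.conj hi.mod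
  have hx' := (h4 H N M ξ U J E hi.toInc x).1 hx
  refine (h4 H N M ξ U J E hi.toInc (c • x)).2 ⟨?_, ?_⟩
  · exact M.toStarSubalgebra.toSubalgebra.smul_mem hx'.1 c
  · rw [← hKe] at hx' ⊢
    exact K.smul_mem c hx'.2

/-- `(1 - v_k v_k^*) y v_k ξ → 0` -/
lemma w_null (h1 : S_mod) (h4 : S_Bchar) (hi : Inc3 N M ξ U J E) {t : ℝ} (ht : 0 < t)
    {v : ℕ → H →L[ℂ] H} (hv : Seq N ξ J t v) {y : H →L[ℂ] H} (hy : y ∈ relBicentralizer N M ξ) :
    Tendsto (fun k => y (v k ξ) - v k (star (v k) (y (v k ξ)))) atTop (𝓝 0) := by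
  have hJ := hi.conj
  have ht' : (((Real.sqrt t : ℝ) : ℂ)) ≠ 0 := by
    exact_mod_cast (Real.sqrt_pos.2 ht).ne'
  have hy' := (h4 H N M ξ U J E hi.toInc y).1 hy
  have hcm := cm_tendsto h1 hi.le hJ hy'.2 (fun k => v k * star (v k))
    (fun k => mul_mem (hv k).1 (star_mem (hv k).1)) (fun k => hv.norm_le hv k)
    (hv.cm_xi hi.le hJ hv)
  have herr := hv.err hJ
  -- the operators `(1 - p) y`
  have hb : ∀ k, ‖y - v k * star (v k) * y‖ ≤ 2 * ‖y‖ := by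
    intro k
    calc ‖y - v k * star (v k) * y‖ ≤ ‖y‖ + ‖v k * star (v k) * y‖ := norm_sub_le _ _
      _ ≤ ‖y‖ + ‖v k * star (v k)‖ * ‖y‖ := by gcongr; exact norm_mul_le _ _
      _ ≤ ‖y‖ + 1 * ‖y‖ := by gcongr; exact hv.norm_le hv k
      _ = 2 * ‖y‖ := by ring
  have h5 := bdd_null hb herr
  have h6 : Tendsto (fun k => RR J (v k) (cm J (v k * star (v k)) (y ξ))) atTop (𝓝 0) := by
    refine squeeze_zero_norm (fun k => RR_norm_le hJ (iso_le (hv k).2.1) _) ?_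
    simpa using hcm.norm
  have h7 := ((h6.neg.sub h5).const_smul ((((Real.sqrt t : ℝ) : ℂ))⁻¹))
  rw [neg_zero, sub_zero, smul_zero] at h7
  refine h7.congr fun k => ?_
  have hvM := hi.le _ (hv k).1
  have e1 : (y - v k * star (v k) * y) (RR J (v k) ξ) =
      - RR J (v k) (cm J (v k * star (v k)) (y ξ)) := by
    have e2 : cm J (v k * star (v k)) (y ξ) =
        v k (star (v k) (y ξ)) - RR J (v k * star (v k)) (y ξ) := rfl
    have e3 : RR J (v k) (RR J (v k * star (v k)) (y ξ)) = RR J (v k) (y ξ) := by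
      rw [← RR_mul hJ, mul_assoc, (hv k).2.1, mul_one]
    have e4 : (y - v k * star (v k) * y) (RR J (v k) ξ) =
        y (RR J (v k) ξ) - v k (star (v k) (y (RR J (v k) ξ))) := rfl
    rw [e2, RR_sub hJ, e3, e4, RR_comm hJ hy'.1 hvM, RR_comm hJ (star_mem hvM) hvM,
      RR_comm hJ hvM hvM]
    abel
  have e5 : (y - v k * star (v k) * y) (v k ξ) =
      y (v k ξ) - v k (star (v k) (y (v k ξ))) := rfl
  rw [← e5, ← e1, map_sub, map_smul, sub_sub_cancel, smul_smul, inv_mul_cancel₀ ht', one_smul]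

lemma bb_mul (h1 : S_mod) (h2 : S_KK) (h3 : S_Q) (h4 : S_Bchar) (hi : Inc3 N M ξ U J E) {t : ℝ}
    (ht : 0 < t) (ht1 : t < 1) {x y : H →L[ℂ] H} (hx : x ∈ relBicentralizer N M ξ)
    (hy : y ∈ relBicentralizer N M ξ) :
    bb N M ξ J t (x * y) = bb N M ξ J t x * bb N M ξ J t y := by
  obtain ⟨v, hv⟩ := exists_seq hi ht ht1
  obtain ⟨hX, -, hX2⟩ := bb_spec h1 h2 h3 h4 hi ht ht1 hx
  obtain ⟨hY, -, hY2⟩ := bb_spec h1 h2 h3 h4 hi ht ht1 hy
  obtain ⟨hZ, -, hZ2⟩ := bb_spec h1 h2 h3 h4 hi ht ht1 (mul_rel hx hy)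
  have hA := (hX2 v hv).2
  have hB := (hY2 v hv).2
  have hC := (hZ2 v hv).2
  have hz : ∀ T S : H →L[ℂ] H, T ∈ M → S ∈ M → T ξ = S ξ → T = S := by
    intro T S hT hS hTS
    have h6 : (T - S) ξ = 0 := by
      rw [sub_apply, hTS, sub_self]
    exact sub_eq_zero.1 (hi.sep _ (sub_mem hT hS) h6)
  refine hz _ _ hZ.1 (mul_mem hX.1 hY.1) ?_
  have h5 : Tendsto (fun k => (star (v k) * x * v k) ((star (v k) * y * v k) ξ)) atTop
      (𝓝 (bb N M ξ J t x (bb N M ξ J t y ξ))) :=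
    bdd_tendsto (C := ‖x‖) (fun k => conj_norm (hv k).2.1) hA (hB ξ)
  have h6 : Tendsto (fun k => (star (v k) * x)
      (y (v k ξ) - v k (star (v k) (y (v k ξ))))) atTop (𝓝 0) := by
    refine bdd_null (C := ‖x‖) (fun k => ?_) (w_null h1 h4 hi ht hv hy)
    calc ‖star (v k) * x‖ ≤ ‖star (v k)‖ * ‖x‖ := norm_mul_le _ _
      _ ≤ 1 * ‖x‖ := by
          gcongr
          exact star_le (iso_le (hv k).2.1)
      _ = ‖x‖ := one_mul _
  have h7 := h5.add h6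
  rw [add_zero] at h7
  refine tendsto_nhds_unique (hC ξ) (h7.congr fun k => ?_)
  rw [map_sub]
  show star (v k) (x (v k (star (v k) (y (v k ξ))))) + (star (v k) (x (y (v k ξ))) -
    star (v k) (x (v k (star (v k) (y (v k ξ)))))) = star (v k) (x (y (v k ξ)))
  abel

lemma bb_add (h1 : S_mod) (h2 : S_KK) (h3 : S_Q) (h4 : S_Bchar) (hi : Inc3 N M ξ U J E) {t : ℝ}
    (ht : 0 < t) (ht1 : t < 1) {x y : H →L[ℂ] H} (hx : x ∈ relBicentralizer N M ξ)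
    (hy : y ∈ relBicentralizer N M ξ) :
    bb N M ξ J t (x + y) = bb N M ξ J t x + bb N M ξ J t y := by
  obtain ⟨v, hv⟩ := exists_seq hi ht ht1
  obtain ⟨-, -, hX2⟩ := bb_spec h1 h2 h3 h4 hi ht ht1 hx
  obtain ⟨-, -, hY2⟩ := bb_spec h1 h2 h3 h4 hi ht ht1 hy
  obtain ⟨-, -, hZ2⟩ := bb_spec h1 h2 h3 h4 hi ht ht1 (add_rel h2 h4 hi hx hy)
  ext u
  refine tendsto_nhds_unique ((hZ2 v hv).2 u)
    ((((hX2 v hv).2 u).add ((hY2 v hv).2 u)).congr fun k => ?_)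
  show star (v k) (x (v k u)) + star (v k) (y (v k u)) = star (v k) (x (v k u) + y (v k u))
  rw [map_add]

lemma bb_smul (h1 : S_mod) (h2 : S_KK) (h3 : S_Q) (h4 : S_Bchar) (hi : Inc3 N M ξ U J E) {t : ℝ}
    (ht : 0 < t) (ht1 : t < 1) {x : H →L[ℂ] H} (hx : x ∈ relBicentralizer N M ξ) (c : ℂ) :
    bb N M ξ J t (c • x) = c • bb N M ξ J t x := by
  obtain ⟨v, hv⟩ := exists_seq hi ht ht1
  obtain ⟨-, -, hX2⟩ := bb_spec h1 h2 h3 h4 hi ht ht1 hx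
  obtain ⟨-, -, hZ2⟩ := bb_spec h1 h2 h3 h4 hi ht ht1 (smul_rel h2 h4 hi hx c)
  ext u
  refine tendsto_nhds_unique ((hZ2 v hv).2 u)
    ((((hX2 v hv).2 u).const_smul c).congr fun k => ?_)
  show c • star (v k) (x (v k u)) = star (v k) (c • x (v k u))
  rw [map_smul]

lemma bb_star (h1 : S_mod) (h2 : S_KK) (h3 : S_Q) (h4 : S_Bchar) (h6 : S_bic)
    (hi : Inc3 N M ξ U J E) {t : ℝ}
    (ht : 0 < t) (ht1 : t < 1) {x : H →L[ℂ] H} (hx : x ∈ relBicentralizer N M ξ) :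
    bb N M ξ J t (star x) = star (bb N M ξ J t x) := by
  obtain ⟨v, hv⟩ := exists_seq hi ht ht1
  have hxs := (h6 H M N ξ U J hi.le hi.unit hi.conj x hx).1
  obtain ⟨-, -, hX2⟩ := bb_spec h1 h2 h3 h4 hi ht ht1 hx
  obtain ⟨-, -, hZ2⟩ := bb_spec h1 h2 h3 h4 hi ht ht1 hxs
  ext u
  refine ext_inner_left ℂ fun w => ?_
  have e1 : Tendsto (fun k => ⟪w, (star (v k) * star x * v k) u⟫_ℂ) atTop
      (𝓝 ⟪w, bb N M ξ J t (star x) u⟫_ℂ) := tendsto_const_nhds.inner ((hZ2 v hv).2 u)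
  have e2 : Tendsto (fun k => ⟪(star (v k) * x * v k) w, u⟫_ℂ) atTop
      (𝓝 ⟪bb N M ξ J t x w, u⟫_ℂ) := ((hX2 v hv).2 w).inner tendsto_const_nhds
  rw [inner_star_right]
  refine tendsto_nhds_unique e1 (e2.congr fun k => ?_)
  show ⟪star (v k) (x (v k w)), u⟫_ℂ = ⟪w, star (v k) (star x (v k u))⟫_ℂ
  rw [inner_star_left, inner_star_right, inner_star_right]

/-- `⟪v^* ζ v, v^* ζ' v⟫ = ⟪ζ, p (ζ' p)⟫` -/
lemma Qv_inner (hNM : ∀ x : H →L[ℂ] H, x ∈ N → x ∈ M) (hJ : IsConj M ξ U J) {v : H →L[ℂ] H}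
    (hvN : v ∈ N) (hv : star v * v = 1) (ζ ζ' : H) :
    ⟪Qv J v ζ, Qv J v ζ'⟫_ℂ = ⟪ζ, (v * star v) ζ'⟫_ℂ -
      ⟪ζ, (v * star v) (cm J (v * star v) ζ')⟫_ℂ := by
  have hvM := hNM v hvN
  have e0 : cm J (v * star v) ζ' = (v * star v) ζ' - RR J (v * star v) ζ' := rfl
  have hp : (v * star v) ((v * star v) ζ') = (v * star v) ζ' := by
    have : (v * star v) * (v * star v) = v * star v := by
      calc (v * star v) * (v * star v) = v * (star v * v) * star v := by noncomm_ring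
        _ = v * star v := by rw [hv, mul_one]
    have h := congrArg (fun S : H →L[ℂ] H => S ζ') this
    exact h
  rw [e0, map_sub, inner_sub_right, hp, sub_sub_cancel, Qv_eq, Qv_eq, inner_star_left, RR_adj hJ]
  congr 1
  rw [← RR_comm hJ hvM (star_mem hvM), ← RR_comm hJ (star_mem hvM) (star_mem hvM),
    ← RR_mul hJ]
  rfl

lemma bb_inner (h1 : S_mod) (h2 : S_KK) (h3 : S_Q) (h4 : S_Bchar) (h5 : S_prodK)
    (hi : Inc3 N M ξ U J E) {t : ℝ}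
    (ht : 0 < t) (ht1 : t < 1) {x y : H →L[ℂ] H} (hx : x ∈ relBicentralizer N M ξ)
    (hy : y ∈ relBicentralizer N M ξ) :
    ⟪bb N M ξ J t x ξ, bb N M ξ J t y ξ⟫_ℂ = ⟪x ξ, y ξ⟫_ℂ := by
  have hJ := hi.conj
  obtain ⟨v, hv⟩ := exists_seq hi ht ht1
  obtain ⟨-, -, hX2⟩ := bb_spec h1 h2 h3 h4 hi ht ht1 hx
  obtain ⟨-, -, hY2⟩ := bb_spec h1 h2 h3 h4 hi ht ht1 hy
  have hx' := (h4 H N M ξ U J E hi.toInc x).1 hx
  have hy' := (h4 H N M ξ U J E hi.toInc y).1 hy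
  have hcm := cm_tendsto h1 hi.le hJ hy'.2 (fun k => v k * star (v k))
    (fun k => mul_mem (hv k).1 (star_mem (hv k).1)) (fun k => hv.norm_le hv k)
    (hv.cm_xi hi.le hJ hv)
  -- first limit
  have e1 : Tendsto (fun k => ⟪Qv J (v k) (x ξ), Qv J (v k) (y ξ)⟫_ℂ) atTop
      (𝓝 ⟪(((Real.sqrt t : ℝ) : ℂ)) • bb N M ξ J t x ξ,
        (((Real.sqrt t : ℝ) : ℂ)) • bb N M ξ J t y ξ⟫_ℂ) := (hX2 v hv).1.inner (hY2 v hv).1
  -- `φ(p_k) → t`
  have e2 : Tendsto (fun k => ‖RR J (v k) ξ‖) atTop (𝓝 (Real.sqrt t)) := by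
    have e3 : Tendsto (fun k => ‖RR J (v k) ξ‖ - Real.sqrt t) atTop (𝓝 0) := by
      refine squeeze_zero_norm (fun k => ?_) tendsto_one_div_add_atTop_nhds_zero_nat
      have h7 := (hv k).2.2
      rw [← RR_xi hJ] at h7
      have h8 : ‖((Real.sqrt t : ℝ) : ℂ) • v k ξ‖ = Real.sqrt t := by
        rw [norm_smul, iso_norm (hv k).2.1, hi.unit, mul_one, Complex.norm_real,
          Real.norm_of_nonneg (Real.sqrt_nonneg t)]
      rw [Real.norm_eq_abs, ← h8]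
      exact (abs_norm_sub_norm_le _ _).trans h7
    have := e3.add_const (Real.sqrt t)
    simpa using this
  have e4 : Tendsto (fun k => vst ξ (v k * star (v k))) atTop (𝓝 ((t : ℝ) : ℂ)) := by
    have e5 : Tendsto (fun k => ((‖RR J (v k) ξ‖ ^ 2 : ℝ) : ℂ)) atTop (𝓝 ((t : ℝ) : ℂ)) := by
      have h9 := e2.pow 2
      rw [Real.sq_sqrt ht.le] at h9
      exact (Complex.continuous_ofReal.tendsto t).comp h9
    refine e5.congr fun k => ?_
    have h10 : vst ξ (v k * star (v k)) = ⟪star (v k) ξ, star (v k) ξ⟫_ℂ := by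
      rw [inner_star_left]
      rfl
    rw [h10, inner_self_eq_norm_sq_to_K, RR_xi hJ, J_norm hJ]
    push_cast
    rfl
  have e6 : Tendsto (fun k => ⟪x ξ, (v k * star (v k)) (cm J (v k * star (v k)) (y ξ))⟫_ℂ) atTop
      (𝓝 0) := by
    have h11 := bdd_null (fun k => hv.norm_le hv k) hcm
    have h12 := (tendsto_const_nhds (x := x ξ)).inner (𝕜 := ℂ) h11
    rw [inner_zero_right] at h12
    exact h12
  have e7 := (e4.mul_const ⟪x ξ, y ξ⟫_ℂ).sub e6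
  rw [sub_zero] at e7
  have e8 := tendsto_nhds_unique e1 (e7.congr fun k => by
    rw [Qv_inner hi.le hJ (hv k).1 (hv k).2.1,
      (h5 H N M ξ U J E hi.toInc2 (v k * star (v k)) (mul_mem (hv k).1 (star_mem (hv k).1))
        (x ξ) (y ξ) hx'.2 hy'.2).1])
  rw [inner_smul_left, inner_smul_right, Complex.conj_ofReal, ← mul_assoc, ← Complex.ofReal_mul,
    Real.mul_self_sqrt ht.le] at e8
  have ht' : ((t : ℝ) : ℂ) ≠ 0 := by exact_mod_cast ht.ne'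
  exact mul_left_cancel₀ ht' e8

/-- products of isometries of given scales -/
lemma scal_mul (hNM : ∀ x : H →L[ℂ] H, x ∈ N → x ∈ M) (hJ : IsConj M ξ U J) {s t ε δ η : ℝ}
    (hs : 0 < s) (_ht : 0 < t) (ht1 : t < 1) {v w : H →L[ℂ] H} (hv : IsScal N ξ J s ε v)
    (hw : IsScal N ξ J t δ w) (h : δ + ε ≤ η) : IsScal N ξ J (s * t) η (w * v) := by
  obtain ⟨hvN, hvi, hvs⟩ := hv
  obtain ⟨hwN, hwi, hws⟩ := hw
  have hvM := hNM v hvN
  have hwM := hNM w hwN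
  refine ⟨mul_mem hwN hvN, ?_, ?_⟩
  · rw [star_mul, mul_assoc, ← mul_assoc (star w), hwi, one_mul, hvi]
  · rw [← RR_xi hJ] at hvs hws ⊢
    have e1 : RR J (w * v) ξ - ((Real.sqrt (s * t) : ℝ) : ℂ) • (w * v) ξ =
        RR J v (RR J w ξ - ((Real.sqrt t : ℝ) : ℂ) • w ξ) +
          ((Real.sqrt t : ℝ) : ℂ) • w (RR J v ξ - ((Real.sqrt s : ℝ) : ℂ) • v ξ) := by
      rw [RR_mul hJ, RR_sub hJ, RR_smul hJ, map_sub, smul_sub, RR_comm hJ hwM hvM, map_smul,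
        smul_smul, Real.sqrt_mul hs.le, Complex.ofReal_mul,
        mul_comm ((Real.sqrt t : ℝ) : ℂ) ((Real.sqrt s : ℝ) : ℂ)]
      have : (w * v) ξ = w (v ξ) := rfl
      rw [this]
      abel
    rw [e1]
    refine le_trans ((norm_add_le _ _).trans (add_le_add ?_ ?_)) h
    · exact (RR_norm_le hJ (iso_le hvi) _).trans hws
    · rw [norm_smul, iso_norm hwi]
      have h2 : ‖((Real.sqrt t : ℝ) : ℂ)‖ ≤ 1 := by
        rw [Complex.norm_real, Real.norm_of_nonneg (Real.sqrt_nonneg t)]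
        exact Real.sqrt_le_one.2 ht1.le
      calc ‖((Real.sqrt t : ℝ) : ℂ)‖ * ‖RR J v ξ - ((Real.sqrt s : ℝ) : ℂ) • v ξ‖
          ≤ 1 * ‖RR J v ξ - ((Real.sqrt s : ℝ) : ℂ) • v ξ‖ := by gcongr
        _ ≤ ε := by rw [one_mul]; exact hvs

lemma bb_semi (h1 : S_mod) (h2 : S_KK) (h3 : S_Q) (h4 : S_Bchar)
    (hi : Inc3 N M ξ U J E) {t : ℝ} (ht : 0 < t) (ht1 : t < 1) {s : ℝ} (hs : 0 < s) (hs1 : s < 1)
    {x : H →L[ℂ] H} (hx : x ∈ relBicentralizer N M ξ) :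
    bb N M ξ J (s * t) x = bb N M ξ J s (bb N M ξ J t x) := by
  have hJ := hi.conj
  obtain ⟨v, hv⟩ := exists_seq hi hs hs1
  obtain ⟨w, hw⟩ := exists_seq hi ht ht1
  have hst : 0 < s * t := mul_pos hs ht
  have hst1 : s * t < 1 := by nlinarith
  obtain ⟨hX, -, hX2⟩ := bb_spec h1 h2 h3 h4 hi ht ht1 hx
  obtain ⟨-, -, hY2⟩ := bb_spec h1 h2 h3 h4 hi hs hs1 hX
  obtain ⟨-, -, hZ2⟩ := bb_spec h1 h2 h3 h4 hi hst hst1 hx
  ext u
  -- choice of the diagonal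
  have hl : ∀ n : ℕ, ∃ l : ℕ, 2 * n + 1 ≤ l ∧
      ‖(star (w l) * x * w l) (v (2 * n + 1) u) - bb N M ξ J t x (v (2 * n + 1) u)‖ ≤
        1 / ((n : ℝ) + 1) := by
    intro n
    have h5 := (hX2 w hw).2 (v (2 * n + 1) u)
    obtain ⟨l₀, hl₀⟩ := (Metric.tendsto_atTop.1 h5) (1 / ((n : ℝ) + 1)) (by positivity)
    refine ⟨max l₀ (2 * n + 1), le_max_right _ _, ?_⟩
    have := hl₀ (max l₀ (2 * n + 1)) (le_max_left _ _)
    rw [dist_eq_norm] at this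
    exact this.le
  choose l hl1 hl2 using hl
  have hseq : Seq N ξ J (s * t) (fun n => w (l n) * v (2 * n + 1)) := by
    intro n
    refine scal_mul hi.le hJ hs ht ht1 (hv (2 * n + 1)) (hw (l n)) ?_
    have h6 : (1 : ℝ) / ((l n : ℝ) + 1) ≤ 1 / (2 * ((n : ℝ) + 1)) := by
      apply one_div_le_one_div_of_le (by positivity)
      have : ((2 * n + 1 : ℕ) : ℝ) ≤ (l n : ℝ) := by exact_mod_cast hl1 n
      push_cast at this
      linarith
    have h7 : (1 : ℝ) / (((2 * n + 1 : ℕ) : ℝ) + 1) = 1 / (2 * ((n : ℝ) + 1)) := by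
      push_cast
      ring_nf
    rw [h7]
    have h8 : (1 : ℝ) / (2 * ((n : ℝ) + 1)) + 1 / (2 * ((n : ℝ) + 1)) = 1 / ((n : ℝ) + 1) := by
      field_simp
      norm_num
    linarith
  have e1 := (hZ2 _ hseq).2 u
  have hsub : Tendsto (fun n : ℕ => 2 * n + 1) atTop atTop :=
    tendsto_atTop_mono (fun n => by show n ≤ 2 * n + 1; omega) tendsto_id
  have e2 : Tendsto (fun n => (star (v (2 * n + 1)) * bb N M ξ J t x * v (2 * n + 1)) u) atTop
      (𝓝 (bb N M ξ J s (bb N M ξ J t x) u)) := ((hY2 v hv).2 u).comp hsub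
  have e3 : Tendsto (fun n => star (v (2 * n + 1))
      ((star (w (l n)) * x * w (l n)) (v (2 * n + 1) u) - bb N M ξ J t x (v (2 * n + 1) u)))
      atTop (𝓝 0) := by
    refine bdd_null (C := 1) (fun n => star_le (iso_le (hv _).2.1)) ?_
    exact squeeze_zero_norm hl2 tendsto_one_div_add_atTop_nhds_zero_nat
  have e4 := e2.add e3
  rw [add_zero] at e4
  refine tendsto_nhds_unique e1 (e4.congr fun n => ?_)
  rw [map_sub, star_mul]
  show star (v (2 * n + 1)) (bb N M ξ J t x (v (2 * n + 1) u)) +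
    (star (v (2 * n + 1)) (star (w (l n)) (x (w (l n) (v (2 * n + 1) u)))) -
      star (v (2 * n + 1)) (bb N M ξ J t x (v (2 * n + 1) u))) =
    star (v (2 * n + 1)) (star (w (l n)) (x (w (l n) (v (2 * n + 1) u))))
  abel

end flow

end Pool.Agent.H71.BC.bt

namespace Pool.Agent.H255.BC.F_bt

open Pool.Agent.W662.CB Pool.Agent.H255.BC Pool.Agent.H71.BC.bt

theorem r (h1 : S_mod) (h2 : S_KK) (h3 : S_Q) (h4 : S_Bchar) (h5 : S_prodK) (h6 : S_bic) : S_bt := by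
  intro H _ _ _ N M ξ U J E hi
  refine ⟨bb N M ξ J, fun t ht ht1 x hx => ?_⟩
  obtain ⟨hX, hXn, hX2⟩ := bb_spec h1 h2 h3 h4 hi ht ht1 hx
  refine ⟨hX, fun v hv u => (hX2 v hv).2 u, fun y hy => ?_⟩
  exact ⟨bb_add h1 h2 h3 h4 hi ht ht1 hx hy, bb_mul h1 h2 h3 h4 hi ht ht1 hx hy,
    fun c => bb_smul h1 h2 h3 h4 hi ht ht1 hx c, bb_star h1 h2 h3 h4 h6 hi ht ht1 hx,
    bb_inner h1 h2 h3 h4 h5 hi ht ht1 hx hy, hXn,
    fun s hs hs1 => bb_semi h1 h2 h3 h4 hi ht ht1 hs hs1 hx⟩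

end Pool.Agent.H255.BC.F_bt
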