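import Pool.Agent.H255.BC.Defs3

set_option autoImplicit false

open MeasureTheory Filter Topology Complex
open scoped InnerProductSpace ENNReal FourierTransform

namespace Pool.Agent.H255.BC.F_fam

open Pool.Agent.W662.CB Pool.Agent.H255.BC

section

variable {H : Type} [NormedAddCommGroup H] [InnerProductSpace ℂ H] [CompleteSpace H]

theorem smul_mem' {M : VonNeumannAlgebra H} {x : H →L[ℂ] H} (hx : x ∈ M) (r : ℂ) : r • x ∈ M :=
  StarSubalgebra.smul_mem (S := M.toStarSubalgebra) hx r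

theorem inner_star (v : H →L[ℂ] H) (x y : H) : ⟪star v x, y⟫_ℂ = ⟪x, v y⟫_ℂ := by
  rw [ContinuousLinearMap.star_eq_adjoint, ContinuousLinearMap.adjoint_inner_left]

theorem inner_star' (v : H →L[ℂ] H) (x y : H) : ⟪x, star v y⟫_ℂ = ⟪v x, y⟫_ℂ := by
  rw [ContinuousLinearMap.star_eq_adjoint, ContinuousLinearMap.adjoint_inner_right]

theorem iso_inner {v : H →L[ℂ] H} (h : star v * v = 1) (x y : H) : ⟪v x, v y⟫_ℂ = ⟪x, y⟫_ℂ := by
  rw [← inner_star' v x (v y)]
  have : star v (v y) = (star v * v) y := rfl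
  rw [this, h]; rfl

theorem iso_norm {v : H →L[ℂ] H} (h : star v * v = 1) (x : H) : ‖v x‖ = ‖x‖ := by
  have h1 := iso_inner h x x
  rw [inner_self_eq_norm_sq_to_K, inner_self_eq_norm_sq_to_K] at h1
  have h2 : (‖v x‖ : ℝ) ^ 2 = ‖x‖ ^ 2 := by exact_mod_cast h1
  exact (sq_eq_sq₀ (norm_nonneg _) (norm_nonneg _)).1 h2

theorem iso_star_norm {v : H →L[ℂ] H} (h : star v * v = 1) (x : H) : ‖star v x‖ ≤ ‖x‖ := by
  have h1 : ‖v‖ ≤ 1 := ContinuousLinearMap.opNorm_le_bound _ zero_le_one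
    (fun y => by rw [iso_norm h y, one_mul])
  have h2 : ‖star v‖ ≤ 1 := by rw [norm_star]; exact h1
  calc ‖star v x‖ ≤ ‖star v‖ * ‖x‖ := (star v).le_opNorm x
    _ ≤ 1 * ‖x‖ := by gcongr
    _ = ‖x‖ := one_mul _

variable {M : VonNeumannAlgebra H} {ξ : H} {U : ℝ → H →L[ℂ] H} {J : H → H}

theorem J_norm (hJ : IsConj M ξ U J) (x : H) : ‖J x‖ = ‖x‖ := by
  have h1 := hJ.inner x x
  rw [inner_self_eq_norm_sq_to_K, inner_self_eq_norm_sq_to_K] at h1
  have h2 : (‖J x‖ : ℝ) ^ 2 = ‖x‖ ^ 2 := by exact_mod_cast h1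
  exact (sq_eq_sq₀ (norm_nonneg _) (norm_nonneg _)).1 h2

theorem J_smul (hJ : IsConj M ξ U J) (r : ℝ) (x : H) : J ((r : ℂ) • x) = (r : ℂ) • J x := by
  rw [hJ.smul, Complex.conj_ofReal]

theorem J_zero (hJ : IsConj M ξ U J) : J 0 = 0 := by
  have := J_norm hJ 0
  rw [norm_zero, norm_eq_zero] at this
  exact this

theorem J_neg (hJ : IsConj M ξ U J) (x : H) : J (-x) = - J x := by
  have := hJ.add x (-x)
  rw [add_neg_cancel, J_zero hJ] at this
  exact (neg_eq_of_add_eq_zero_right this.symm).symm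

theorem J_sub (hJ : IsConj M ξ U J) (x y : H) : J (x - y) = J x - J y := by
  rw [sub_eq_add_neg, hJ.add, J_neg hJ, sub_eq_add_neg]

theorem J_sum (hJ : IsConj M ξ U J) {ι : Type} (s : Finset ι) (f : ι → H) :
    J (∑ i ∈ s, f i) = ∑ i ∈ s, J (f i) := by
  classical
  induction s using Finset.induction_on with
  | empty => simp [J_zero hJ]
  | insert a s ha ih => rw [Finset.sum_insert ha, Finset.sum_insert ha, hJ.add, ih]

/-- the finite sums -/
def cone0 (M : VonNeumannAlgebra H) (ξ : H) (J : H → H) : Set H :=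
  {ζ : H | ∃ (k : ℕ) (a : Fin k → H →L[ℂ] H), (∀ i, a i ∈ M) ∧
    ζ = ∑ i, (a i) (J ((a i) (J ξ)))}

theorem cone0_sub : cone0 M ξ J ⊆ cone M ξ J := subset_closure

theorem alf_one (hJ : IsConj M ξ U J) {u a : H →L[ℂ] H} (hu : u ∈ M) (ha : a ∈ M) :
    u (J (u (J (a (J (a (J ξ))))))) = (u * a) (J ((u * a) (J ξ))) := by
  have h1 := hJ.comm a u ha hu (J (a (J ξ)))
  rw [hJ.inv] at h1
  change u (J (u (J (a (J (a (J ξ))))))) = u (a (J (u (a (J ξ)))))
  rw [h1]

theorem cone0_alf (hJ : IsConj M ξ U J) {u : H →L[ℂ] H} (hu : u ∈ M) {ζ : H}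
    (hζ : ζ ∈ cone0 M ξ J) : u (J (u (J ζ))) ∈ cone0 M ξ J := by
  obtain ⟨k, a, ha, rfl⟩ := hζ
  refine ⟨k, fun i => u * a i, fun i => mul_mem hu (ha i), ?_⟩
  rw [J_sum hJ, map_sum, J_sum hJ, map_sum]
  exact Finset.sum_congr rfl fun i _ => alf_one hJ hu (ha i)

theorem smul_form (hJ : IsConj M ξ U J) (s : ℝ) (w : H →L[ℂ] H) :
    ((s : ℂ) • w) (J (((s : ℂ) • w) (J ξ))) = ((s ^ 2 : ℝ) : ℂ) • w (J (w (J ξ))) := by
  change (s : ℂ) • w (J ((s : ℂ) • w (J ξ))) = _
  rw [J_smul hJ, map_smul, smul_smul]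
  congr 1
  push_cast; ring

/-- approximation -/
theorem approx (h6 : S_ps) (hm : IsModular M ξ U) (hc : IsCyclic M ξ) (hJ : IsConj M ξ U J)
    (hξ : ‖ξ‖ = 1) (hT : IsTypeIII1 M) {ζ : H} (hζ : ζ ∈ cone0 M ξ J) (hn : ‖ζ‖ = 1)
    {ε : ℝ} (hε : 0 < ε) :
    ∃ u : H →L[ℂ] H, u ∈ M ∧ star u * u = 1 ∧ u * star u = 1 ∧
      ‖u (J (u (J ζ))) - ξ‖ ≤ ε := by
  obtain ⟨u, hu, hu1, hu2, hu3⟩ := hT.homog ζ ξ hn hξ (ε ^ 2) (by positivity)
  refine ⟨u, hu, hu1, hu2, ?_⟩
  have hmem : u (J (u (J ζ))) ∈ cone M ξ J := cone0_sub (cone0_alf hJ hu hζ)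
  have key := h6 H M ξ U J hm hc hJ (u (J (u (J ζ)))) (ε ^ 2) hmem ?_
  · exact (sq_le_sq₀ (norm_nonneg _) hε.le).1 key
  · intro x hx hx1
    have e1 : u (J (u (J ζ))) = J (u (J (u ζ))) := hJ.comm u u hu hu ζ
    have e2 : x (J (u (J (u ζ)))) = J (u (J (x (u ζ)))) := hJ.comm x u hx hu (u ζ)
    have e3 : ⟪u (J (u (J ζ))), x (u (J (u (J ζ))))⟫_ℂ = ⟪u ζ, x (u ζ)⟫_ℂ := by
      rw [e1, e2, hJ.inner, iso_inner hu1, hJ.inner]
    rw [e3]
    exact hu3 x hx hx1


/-- two isometries with orthogonal ranges of sum `1` -/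
theorem two (hT : IsTypeIII1 M) : ∃ a b : H →L[ℂ] H, a ∈ M ∧ b ∈ M ∧ star a * a = 1 ∧
    star b * b = 1 ∧ star a * b = 0 ∧ star b * a = 0 ∧ a * star a + b * star b = 1 := by
  obtain ⟨p, hpM, hpp, hps, hp0, hp1⟩ := hT.nontriv
  obtain ⟨w₁, hw₁, hw₁1, hw₁2⟩ := hT.equiv p hpM hpp hps hp0
  obtain ⟨w₂, hw₂, hw₂1, hw₂2⟩ := hT.equiv (1 - p) (sub_mem (one_mem _) hpM)
    (by rw [sub_mul, mul_sub, mul_sub, hpp]; simp) (by rw [star_sub, star_one, hps])
    (by rw [sub_ne_zero]; exact fun h => hp1 h.symm)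
  have h2 : star w₂ * w₁ = 0 := by
    have h1 : star (star w₂ * w₁) * (star w₂ * w₁) = 0 := by
      rw [star_mul, star_star]
      calc star w₁ * w₂ * (star w₂ * w₁) = star w₁ * (w₂ * star w₂) * w₁ := by
            simp only [mul_assoc]
        _ = star w₁ * (1 - w₁ * star w₁) * w₁ := by rw [hw₂2, hw₁2]
        _ = (star w₁ * w₁) - (star w₁ * w₁) * (star w₁ * w₁) := by
            rw [mul_sub, sub_mul]; simp only [mul_assoc, mul_one]
        _ = 0 := by rw [hw₁1]; simp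
    exact CStarRing.star_mul_self_eq_zero_iff _ |>.1 h1
  have hort : star w₁ * w₂ = 0 := by
    have h3 := congrArg star h2
    rw [star_mul, star_star, star_zero] at h3
    exact h3
  refine ⟨w₁, w₂, hw₁, hw₂, hw₁1, hw₂1, hort, h2, ?_⟩
  rw [hw₁2, hw₂2]
  abel

/-- `m + 1` isometries with orthogonal ranges of sum `1` -/
theorem many (hT : IsTypeIII1 M) (m : ℕ) : ∃ w : Fin (m + 1) → H →L[ℂ] H, (∀ j, w j ∈ M) ∧
    (∀ j, star (w j) * w j = 1) ∧ (∀ i j, i ≠ j → star (w i) * w j = 0) ∧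
    ∑ j, w j * star (w j) = 1 := by
  induction m with
  | zero =>
    refine ⟨fun _ => 1, fun _ => one_mem _, fun _ => by simp, ?_, by simp⟩
    intro i j hij
    exact absurd (Fin.ext (by have := i.2; have := j.2; omega)) hij
  | succ m ih =>
    obtain ⟨w, h1, h2, h3, h4⟩ := ih
    obtain ⟨a, b, ha, hb, ha1, hb1, hab, hba, hsum⟩ := two hT
    refine ⟨Fin.cons a (fun j => b * w j), ?_, ?_, ?_, ?_⟩
    · intro j
      refine Fin.cases ?_ (fun j => ?_) j
      · exact ha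
      · rw [Fin.cons_succ]
        exact mul_mem hb (h1 j)
    · intro j
      refine Fin.cases ?_ (fun j => ?_) j
      · exact ha1
      · rw [Fin.cons_succ, star_mul]
        calc star (w j) * star b * (b * w j) = star (w j) * (star b * b) * w j := by
              simp only [mul_assoc]
          _ = 1 := by rw [hb1, mul_one, h2]
    · intro i j
      refine Fin.cases ?_ (fun i => ?_) i
      · refine Fin.cases ?_ (fun j => ?_) j
        · intro h
          exact absurd rfl h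
        · intro _
          rw [Fin.cons_zero, Fin.cons_succ, ← mul_assoc, hab, zero_mul]
      · refine Fin.cases ?_ (fun j => ?_) j
        · intro _
          rw [Fin.cons_zero, Fin.cons_succ, star_mul, mul_assoc, hba, mul_zero]
        · intro h
          have hij : i ≠ j := fun e => h (by rw [e])
          rw [Fin.cons_succ, Fin.cons_succ, star_mul]
          calc star (w i) * star b * (b * w j) = star (w i) * (star b * b) * w j := by
                simp only [mul_assoc]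
            _ = 0 := by rw [hb1, mul_one, h3 i j hij]
    · rw [Fin.sum_univ_succ]
      simp only [Fin.cons_zero, Fin.cons_succ]
      have h5 : ∑ j, b * w j * star (b * w j) = b * (∑ j, w j * star (w j)) * star b := by
        rw [Finset.mul_sum, Finset.sum_mul]
        apply Finset.sum_congr rfl
        intro j _
        rw [star_mul]
        simp only [mul_assoc]
      rw [h5, h4, mul_one, hsum]

theorem fam (h6 : S_ps) (hξ : ‖ξ‖ = 1) (hm : IsModular M ξ U) (hc : IsCyclic M ξ)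
    (hJ : IsConj M ξ U J) (hT : IsTypeIII1 M) (m : ℕ) (c : Fin m → ℝ) (hc0 : ∀ j, 0 < c j)
    (hc1 : ∑ j, c j = 1) (ε : ℝ) (hε : 0 < ε) :
    ∃ s : Fin m → H →L[ℂ] H, (∀ j, IsScal M ξ J (c j) ε (s j)) ∧ ∑ j, s j * star (s j) = 1 := by
  classical
  obtain ⟨m', rfl⟩ : ∃ m', m = m' + 1 := by
    rcases m with _ | m'
    · simp at hc1
    · exact ⟨m', rfl⟩
  obtain ⟨w, hwM, hw1, hw0, hws⟩ := many hT m'
  obtain ⟨ζ, hζdef⟩ : ∃ ζ : H, ζ = ∑ j, ((Real.sqrt (c j) : ℝ) : ℂ) • w j (J (w j (J ξ))) :=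
    ⟨_, rfl⟩
  have hζ : ζ ∈ cone0 M ξ J := by
    refine ⟨m' + 1, fun j => ((Real.sqrt (Real.sqrt (c j)) : ℝ) : ℂ) • w j,
      fun j => smul_mem' (hwM j) _, ?_⟩
    rw [hζdef]
    apply Finset.sum_congr rfl
    intro j _
    rw [smul_form hJ, Real.sq_sqrt (Real.sqrt_nonneg _)]
  have hwn : ∀ j, ‖w j (J (w j (J ξ)))‖ = 1 := by
    intro j
    rw [iso_norm (hw1 j), J_norm hJ, iso_norm (hw1 j), J_norm hJ, hξ]
  have hort' : ∀ i j, i ≠ j → ∀ x y : H, ⟪w i x, w j y⟫_ℂ = 0 := by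
    intro i j hij x y
    rw [← inner_star']
    have : star (w i) (w j y) = (star (w i) * w j) y := rfl
    rw [this, hw0 i j hij]
    simp
  have hn : ‖ζ‖ = 1 := by
    have h1 : ⟪ζ, ζ⟫_ℂ = 1 := by
      conv_lhs => rw [hζdef]
      rw [sum_inner]
      have h2 : ∀ i : Fin (m' + 1), ⟪((Real.sqrt (c i) : ℝ) : ℂ) • w i (J (w i (J ξ))),
          ∑ j, ((Real.sqrt (c j) : ℝ) : ℂ) • w j (J (w j (J ξ)))⟫_ℂ = ((c i : ℝ) : ℂ) := by
        intro i
        rw [inner_sum, Finset.sum_eq_single i]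
        · rw [inner_smul_left, inner_smul_right, inner_self_eq_norm_sq_to_K, hwn,
            Complex.conj_ofReal, ← mul_assoc, ← Complex.ofReal_mul,
            Real.mul_self_sqrt (hc0 i).le]
          simp
        · intro j _ hj
          rw [inner_smul_left, inner_smul_right, hort' i j (fun h => hj h.symm), mul_zero, mul_zero]
        · intro h
          exact absurd (Finset.mem_univ i) h
      rw [Finset.sum_congr rfl fun i _ => h2 i, ← Complex.ofReal_sum, hc1, Complex.ofReal_one]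
    have h2 : ‖ζ‖ ^ 2 = 1 := by
      rw [← inner_self_eq_norm_sq (𝕜 := ℂ), h1]
      simp
    nlinarith [norm_nonneg ζ]
  obtain ⟨u, hu, hu1, hu2, hu3⟩ := approx h6 hm hc hJ hξ hT hζ hn hε
  refine ⟨fun j => u * w j, ?_, ?_⟩
  · intro j
    have huv : star (u * w j) * (u * w j) = 1 := by
      rw [star_mul]
      calc star (w j) * star u * (u * w j) = star (w j) * (star u * u) * w j := by
            simp only [mul_assoc]
        _ = 1 := by rw [hu1, mul_one, hw1]
    refine ⟨mul_mem hu (hwM j), huv, ?_⟩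
    have hid : J (star (u * w j) (J (u (J (u (J ζ)))))) =
        ((Real.sqrt (c j) : ℝ) : ℂ) • (u * w j) ξ := by
      have e1 : u (J (u (J ζ))) = J (u (J (u ζ))) := hJ.comm u u hu hu ζ
      have e2 : star (u * w j) (u (J (u ζ))) = star (w j) (J (u ζ)) := by
        rw [star_mul]
        change star (w j) ((star u * u) (J (u ζ))) = _
        rw [hu1]; rfl
      have e3 : J (star (w j) (J (u ζ))) = u (J (star (w j) (J ζ))) :=
        (hJ.comm u (star (w j)) hu (star_mem (hwM j)) ζ).symm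
      have e4 : J ζ = ∑ i, ((Real.sqrt (c i) : ℝ) : ℂ) • w i (J (w i ξ)) := by
        rw [hζdef, J_sum hJ]
        apply Finset.sum_congr rfl
        intro i _
        rw [J_smul hJ, hJ.comm (w i) (w i) (hwM i) (hwM i) ξ, hJ.inv]
      have e5 : star (w j) (J ζ) = ((Real.sqrt (c j) : ℝ) : ℂ) • J (w j ξ) := by
        rw [e4, map_sum, Finset.sum_eq_single j]
        · rw [map_smul]
          have f1 : star (w j) (w j (J (w j ξ))) = (star (w j) * w j) (J (w j ξ)) := rfl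
          rw [f1, hw1]
          rfl
        · intro i _ hi
          rw [map_smul]
          have f2 : star (w j) (w i (J (w i ξ))) = (star (w j) * w i) (J (w i ξ)) := rfl
          rw [f2, hw0 j i (fun h => hi h.symm)]
          simp
        · intro h
          exact absurd (Finset.mem_univ j) h
      rw [e1, hJ.inv, e2, e3, e5, J_smul hJ, hJ.inv, map_smul]
      rfl
    rw [← hid]
    have e0 : J (star (u * w j) ξ) = J (star (u * w j) (J ξ)) := by rw [hJ.fix]
    rw [e0, ← J_sub hJ, ← map_sub, J_norm hJ, ← J_sub hJ]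
    calc ‖star (u * w j) (J (ξ - u (J (u (J ζ)))))‖ ≤ ‖J (ξ - u (J (u (J ζ))))‖ :=
          iso_star_norm huv _
      _ = ‖u (J (u (J ζ))) - ξ‖ := by rw [J_norm hJ, norm_sub_rev]
      _ ≤ ε := hu3
  · have h5 : ∑ j, u * w j * star (u * w j) = u * (∑ j, w j * star (w j)) * star u := by
      rw [Finset.mul_sum, Finset.sum_mul]
      apply Finset.sum_congr rfl
      intro j _
      rw [star_mul]
      simp only [mul_assoc]
    rw [h5, hws, mul_one, hu2]

end

theorem r (h6 : S_ps) : S_fam := by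
  intro H _ _ _ M ξ U J hξ hm hc hJ hT m c hc0 hc1 ε hε
  exact fam h6 hξ hm hc hJ hT m c hc0 hc1 ε hε

end Pool.Agent.H255.BC.F_fam
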