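import Pool.Agent.H255.BC.Defs3

/-!
Families of isometries of prescribed scales in `N ⊂ M` (S_famN).  The lemmas on the reduction are
those of helper345 (R_inc2).
-/

set_option autoImplicit false

open MeasureTheory Filter Topology Complex
open scoped InnerProductSpace ENNReal FourierTransform

namespace Pool.Agent.H255.BC.F_famN

open Pool.Agent.W662.CB Pool.Agent.H255.BC

section

variable {H : Type} [NormedAddCommGroup H] [InnerProductSpace ℂ H] [CompleteSpace H]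

theorem conj_sub {M : VonNeumannAlgebra H} {ξ : H} {U : ℝ → H →L[ℂ] H} {J : H → H}
    (hJ : IsConj M ξ U J) (v w : H) : J (v - w) = J v - J w := by
  have h := hJ.add v ((-1 : ℂ) • w)
  rw [hJ.smul] at h
  simpa [sub_eq_add_neg] using h

theorem conj_norm {M : VonNeumannAlgebra H} {ξ : H} {U : ℝ → H →L[ℂ] H} {J : H → H}
    (hJ : IsConj M ξ U J) (v : H) : ‖J v‖ = ‖v‖ := by
  have h := hJ.inner v v
  rw [inner_self_eq_norm_sq_to_K, inner_self_eq_norm_sq_to_K] at h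
  have h2 : ‖J v‖ ^ 2 = ‖v‖ ^ 2 := by exact_mod_cast h
  exact (sq_eq_sq₀ (norm_nonneg _) (norm_nonneg _)).1 h2

theorem conj_continuous {M : VonNeumannAlgebra H} {ξ : H} {U : ℝ → H →L[ℂ] H} {J : H → H}
    (hJ : IsConj M ξ U J) : Continuous J := by
  apply Isometry.continuous
  apply Isometry.of_dist_eq
  intro v w
  rw [dist_eq_norm, dist_eq_norm, ← conj_sub hJ, conj_norm hJ]

theorem smul_mem' (N : VonNeumannAlgebra H) (c : ℂ) {x : H →L[ℂ] H} (hx : x ∈ N) : c • x ∈ N :=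
  N.toStarSubalgebra.smul_mem hx c

theorem star_apply_inner (x : H →L[ℂ] H) (v w : H) : ⟪v, (star x) w⟫_ℂ = ⟪x v, w⟫_ℂ := by
  rw [ContinuousLinearMap.star_eq_adjoint, ContinuousLinearMap.adjoint_inner_right]

theorem modular_sub {M N : VonNeumannAlgebra H} {ξ : H} {U : ℝ → H →L[ℂ] H}
    (hle : ∀ x : H →L[ℂ] H, x ∈ N → x ∈ M) (hM : IsModular M ξ U)
    (hmod : ∀ (t : ℝ) (x : H →L[ℂ] H), x ∈ N → sgm U t x ∈ N) : IsModular N ξ U where
  zero := hM.zero
  add := hM.add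
  star_eq := hM.star_eq
  cont := hM.cont
  fix := hM.fix
  mem := hmod
  kms := fun a b ha hb => hM.kms a b (hle a ha) (hle b hb)

theorem an_sub {M N : VonNeumannAlgebra H} {U : ℝ → H →L[ℂ] H} {F : ℂ → H →L[ℂ] H}
    (hle : ∀ x : H →L[ℂ] H, x ∈ N → x ∈ M) (hF : IsAn N U F) : IsAn M U F where
  mem := fun z => hle _ (hF.mem z)
  diff := hF.diff
  diff' := hF.diff'
  ext := hF.ext
  bdd := hF.bdd

end

section

variable {H : Type} [NormedAddCommGroup H] [InnerProductSpace ℂ H] [CompleteSpace H]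
variable {K : Type} [NormedAddCommGroup K] [InnerProductSpace ℂ K] [CompleteSpace K]

/-- the reduction data -/
structure Red (N : VonNeumannAlgebra H) (ξ : H) (U : ℝ → H →L[ℂ] H)
    (N₁ : VonNeumannAlgebra K) (ξ₁ : K) (U₁ : ℝ → K →L[ℂ] K) (j : K →ₗᵢ[ℂ] H)
    (ρ : (H →L[ℂ] H) → (K →L[ℂ] K)) : Prop where
  hξ : j ξ₁ = ξ
  hU : ∀ (t : ℝ) (v : K), j (U₁ t v) = U t (j v)
  mem : ∀ x : H →L[ℂ] H, x ∈ N → ρ x ∈ N₁
  norm : ∀ x : H →L[ℂ] H, x ∈ N → ‖ρ x‖ = ‖x‖
  app : ∀ x : H →L[ℂ] H, x ∈ N → ∀ v : K, j (ρ x v) = x (j v)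
  surj : ∀ y : K →L[ℂ] K, y ∈ N₁ → ∃ x : H →L[ℂ] H, x ∈ N ∧ ρ x = y

variable {N : VonNeumannAlgebra H} {ξ : H} {U : ℝ → H →L[ℂ] H}
    {N₁ : VonNeumannAlgebra K} {ξ₁ : K} {U₁ : ℝ → K →L[ℂ] K} {j : K →ₗᵢ[ℂ] H}
    {ρ : (H →L[ℂ] H) → (K →L[ℂ] K)}

theorem red_mul (R : Red N ξ U N₁ ξ₁ U₁ j ρ) {x y : H →L[ℂ] H} (hx : x ∈ N) (hy : y ∈ N) :
    ρ (x * y) = ρ x * ρ y := by
  ext v
  apply j.injective
  rw [R.app _ (mul_mem hx hy)]
  show x (y (j v)) = j (ρ x (ρ y v))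
  rw [R.app _ hx, R.app _ hy]

theorem red_sub (R : Red N ξ U N₁ ξ₁ U₁ j ρ) {x y : H →L[ℂ] H} (hx : x ∈ N) (hy : y ∈ N) :
    ρ (x - y) = ρ x - ρ y := by
  ext v
  apply j.injective
  rw [R.app _ (sub_mem hx hy)]
  show x (j v) - y (j v) = j (ρ x v - ρ y v)
  rw [map_sub, R.app _ hx, R.app _ hy]

theorem red_smul (R : Red N ξ U N₁ ξ₁ U₁ j ρ) (c : ℂ) {x : H →L[ℂ] H} (hx : x ∈ N) :
    ρ (c • x) = c • ρ x := by
  ext v
  apply j.injective
  rw [R.app _ (smul_mem' N c hx)]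
  show c • x (j v) = j (c • ρ x v)
  rw [map_smul, R.app _ hx]

theorem red_one (R : Red N ξ U N₁ ξ₁ U₁ j ρ) : ρ 1 = 1 := by
  ext v
  apply j.injective
  rw [R.app _ (one_mem N)]
  rfl

theorem red_star (R : Red N ξ U N₁ ξ₁ U₁ j ρ) {x : H →L[ℂ] H} (hx : x ∈ N) :
    ρ (star x) = star (ρ x) := by
  ext w
  apply ext_inner_left ℂ
  intro v
  rw [star_apply_inner, ← j.inner_map_map, R.app _ (star_mem hx), star_apply_inner,
    ← j.inner_map_map, R.app _ hx]

theorem red_inj (R : Red N ξ U N₁ ξ₁ U₁ j ρ) {x y : H →L[ℂ] H} (hx : x ∈ N) (hy : y ∈ N)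
    (h : ρ x = ρ y) : x = y := by
  have h1 : ρ (x - y) = 0 := by rw [red_sub R hx hy, h, sub_self]
  have h2 := R.norm _ (sub_mem hx hy)
  rw [h1, norm_zero] at h2
  exact sub_eq_zero.1 (norm_eq_zero.1 h2.symm)

theorem red_type (R : Red N ξ U N₁ ξ₁ U₁ j ρ) (hN : IsTypeIII1 N) : IsTypeIII1 N₁ where
  nontriv := by
    obtain ⟨p, hp, hpp, hps, hp0, hp1⟩ := hN.nontriv
    refine ⟨ρ p, R.mem p hp, ?_, ?_, ?_, ?_⟩
    · rw [← red_mul R hp hp, hpp]
    · rw [← red_star R hp, hps]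
    · intro h
      apply hp0
      have h2 := R.norm p hp
      rw [h, norm_zero] at h2
      exact norm_eq_zero.1 h2.symm
    · intro h
      apply hp1
      apply red_inj R hp (one_mem N)
      rw [h, red_one R]
  equiv := by
    intro q hq hqq hqs hq0
    obtain ⟨x, hx, rfl⟩ := R.surj q hq
    have h1 : x * x = x := red_inj R (mul_mem hx hx) hx (by rw [red_mul R hx hx, hqq])
    have h2 : star x = x := red_inj R (star_mem hx) hx (by rw [red_star R hx, hqs])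
    have h3 : x ≠ 0 := by
      rintro rfl
      apply hq0
      have h2 := R.norm 0 hx
      rw [norm_zero] at h2
      exact norm_eq_zero.1 h2
    obtain ⟨v, hv, hv1, hv2⟩ := hN.equiv x hx h1 h2 h3
    refine ⟨ρ v, R.mem v hv, ?_, ?_⟩
    · rw [← red_star R hv, ← red_mul R (star_mem hv) hv, hv1, red_one R]
    · rw [← red_star R hv, ← red_mul R hv (star_mem hv), hv2]
  homog := by
    intro η ζ hη hζ ε hε
    obtain ⟨u, hu, hu1, hu2, hu3⟩ := hN.homog (j η) (j ζ) (by rw [j.norm_map, hη])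
      (by rw [j.norm_map, hζ]) ε hε
    refine ⟨ρ u, R.mem u hu, ?_, ?_, ?_⟩
    · rw [← red_star R hu, ← red_mul R (star_mem hu) hu, hu1, red_one R]
    · rw [← red_star R hu, ← red_mul R hu (star_mem hu), hu2, red_one R]
    · intro y hy hy1
      obtain ⟨x, hx, rfl⟩ := R.surj y hy
      have h4 := hu3 x hx (by rwa [← R.norm x hx])
      rw [← j.inner_map_map, R.app _ hx, R.app _ hu, ← j.inner_map_map ζ, R.app _ hx]
      exact h4

/-- the adjoint of `j` -/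
theorem red_adj (j : K →ₗᵢ[ℂ] H) (v : K) :
    ContinuousLinearMap.adjoint j.toContinuousLinearMap (j v) = v := by
  apply ext_inner_left ℂ
  intro w
  rw [ContinuousLinearMap.adjoint_inner_right]
  exact j.inner_map_map w v

theorem red_an (R : Red N ξ U N₁ ξ₁ U₁ j ρ) (hU : IsModular N ξ U) (hU₁ : IsModular N₁ ξ₁ U₁)
    {F : ℂ → H →L[ℂ] H} (hF : IsAn N U F) : IsAn N₁ U₁ (fun z => ρ (F z)) where
  mem := fun z => R.mem _ (hF.mem z)
  diff := by
    intro v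
    have e : (fun z : ℂ => ρ (F z) v) =
        fun z : ℂ => ContinuousLinearMap.adjoint j.toContinuousLinearMap (F z (j v)) := by
      funext z
      rw [← R.app _ (hF.mem z), red_adj]
    rw [e]
    exact (ContinuousLinearMap.differentiable _).comp (hF.diff (j v))
  diff' := by
    intro v
    have e : (fun z : ℂ => star (ρ (F (starRingEnd ℂ z))) v) =
        fun z : ℂ => ContinuousLinearMap.adjoint j.toContinuousLinearMap
          (star (F (starRingEnd ℂ z)) (j v)) := by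
      funext z
      rw [← red_star R (hF.mem _), ← R.app _ (star_mem (hF.mem _)), red_adj]
    rw [e]
    exact (ContinuousLinearMap.differentiable _).comp (hF.diff' (j v))
  ext := by
    intro t
    ext v
    apply j.injective
    rw [R.app _ (hF.mem _), hF.ext t]
    show U t (F 0 (star (U t) (j v))) = j (U₁ t (ρ (F 0) (star (U₁ t) v)))
    rw [R.hU, R.app _ (hF.mem _), hU₁.star_eq, hU.star_eq, R.hU]
  bdd := by
    intro r
    obtain ⟨C, hC⟩ := hF.bdd r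
    exact ⟨C, fun z hz => by rw [R.norm _ (hF.mem z)]; exact hC z hz⟩

theorem red_conj (h5 : S_A8a) (R : Red N ξ U N₁ ξ₁ U₁ j ρ) {M : VonNeumannAlgebra H}
    {J : H → H} {J₁ : K → K}
    (hle : ∀ x : H →L[ℂ] H, x ∈ N → x ∈ M) (hJ : IsConj M ξ U J) (hJ₁ : IsConj N₁ ξ₁ U₁ J₁)
    (hU : IsModular N ξ U) (hU₁ : IsModular N₁ ξ₁ U₁) (hcyc : IsCyclic N₁ ξ₁) (v : K) :
    j (J₁ v) = J (j v) := by
  have hcl : IsClosed {v : K | j (J₁ v) = J (j v)} :=
    isClosed_eq (j.continuous.comp (conj_continuous hJ₁)) ((conj_continuous hJ).comp j.continuous)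
  have hD : Dense {v : K | j (J₁ v) = J (j v)} := by
    have hsub : {v : K | ∃ x : K →L[ℂ] K, x ∈ N₁ ∧ x ξ₁ = v} ⊆
        closure {v : K | j (J₁ v) = J (j v)} := by
      rintro _ ⟨y, hy, rfl⟩
      obtain ⟨x, hx, rfl⟩ := R.surj y hy
      obtain ⟨F, hF, hF2⟩ := h5 H N ξ U hU x hx
      apply mem_closure_of_tendsto (f := fun n => ρ (F n 0) ξ₁) (b := atTop)
      · rw [tendsto_iff_norm_sub_tendsto_zero]
        have h := hF2 (j ξ₁)
        rw [tendsto_iff_norm_sub_tendsto_zero] at h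
        refine h.congr fun n => ?_
        rw [← R.app _ ((hF n).mem 0), ← R.app _ hx, ← map_sub, j.norm_map]
      · refine Eventually.of_forall fun n => ?_
        show j (J₁ (ρ (F n 0) ξ₁)) = J (j (ρ (F n 0) ξ₁))
        have a1 := hJ₁.an _ (red_an R hU hU₁ (hF n))
        have a2 := hJ.an _ (an_sub hle (hF n))
        rw [a1, R.app _ ((hF n).mem 0), R.hξ, a2, ← red_star R ((hF n).mem _),
          R.app _ (star_mem ((hF n).mem _)), R.hξ]
    have h2 : Dense (closure {v : K | j (J₁ v) = J (j v)}) := hcyc.mono hsub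
    exact dense_closure.1 h2
  have h3 := hcl.closure_eq
  rw [hD.closure_eq] at h3
  have : v ∈ {v : K | j (J₁ v) = J (j v)} := by rw [← h3]; trivial
  exact this

theorem red_sum (R : Red N ξ U N₁ ξ₁ U₁ j ρ) {m : ℕ} (x : Fin m → H →L[ℂ] H)
    (hx : ∀ i, x i ∈ N) : ρ (∑ i, x i) = ∑ i, ρ (x i) := by
  ext v
  apply j.injective
  rw [R.app _ (sum_mem fun i _ => hx i), ContinuousLinearMap.sum_apply,
    ContinuousLinearMap.sum_apply, map_sum]
  exact Finset.sum_congr rfl fun i _ => (R.app _ (hx i) v).symm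

end

theorem r (h1 : S_fam) (h2 : S_conj) (h3 : S_red) (h4 : S_A8a) : S_famN := by
  intro H _ _ _ N M ξ U J E hI hN m c hc hc1 ε hε
  obtain ⟨K, i1, i2, i3, N₁, ξ₁, U₁, j, ρ, e1, e2, e3, e4, e5, e6, e7⟩ := h3 H N M ξ U J E hI
  have R : Red N ξ U N₁ ξ₁ U₁ j ρ := ⟨e1, e2, fun x hx => (e3 x hx).1, fun x hx => (e3 x hx).2.1,
    fun x hx => (e3 x hx).2.2, e4⟩
  have hU : IsModular N ξ U := modular_sub hI.le hI.modular hI.mod
  have hT := red_type R hN
  have hn : ‖ξ₁‖ = 1 := by rw [← j.norm_map, e1, hI.unit]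
  obtain ⟨J₁, hJ₁⟩ := h2 K N₁ ξ₁ U₁ e5 e6
  have hjj := red_conj h4 R hI.le hI.conj hJ₁ hU e5 e6
  obtain ⟨s₁, hs1, hs2⟩ := h1 K N₁ ξ₁ U₁ J₁ hn e5 e6 hJ₁ hT m c hc hc1 ε hε
  choose s hs hsρ using fun i => R.surj (s₁ i) (hs1 i).1
  refine ⟨s, fun i => ⟨hs i, ?_, ?_⟩, ?_⟩
  · apply red_inj R (mul_mem (star_mem (hs i)) (hs i)) (one_mem N)
    rw [red_mul R (star_mem (hs i)) (hs i), red_star R (hs i), hsρ, (hs1 i).2.1, red_one R]
  · have h5 := (hs1 i).2.2
    rw [← hsρ, ← j.norm_map, map_sub, map_smul, hjj, ← red_star R (hs i),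
      R.app _ (star_mem (hs i)), R.app _ (hs i), R.hξ] at h5
    exact h5
  · apply red_inj R (sum_mem fun i _ => mul_mem (hs i) (star_mem (hs i))) (one_mem N)
    rw [red_sum R _ fun i => mul_mem (hs i) (star_mem (hs i)), red_one R, ← hs2]
    refine Finset.sum_congr rfl fun i _ => ?_
    rw [red_mul R (hs i) (star_mem (hs i)), red_star R (hs i), hsρ]

end Pool.Agent.H255.BC.F_famN
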