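import Pool.Agent.H255.BC.Defs3

set_option autoImplicit false

open MeasureTheory Filter Topology Complex
open scoped InnerProductSpace ENNReal FourierTransform

namespace Pool.Agent.H255.BC.F_flow

open Pool.Agent.W662.CB Pool.Agent.H255.BC

variable {H : Type} [NormedAddCommGroup H] [InnerProductSpace ℂ H] [CompleteSpace H]

/-! ### the conjugation -/

section J

variable {M : VonNeumannAlgebra H} {ξ : H} {U : ℝ → H →L[ℂ] H} {J : H → H}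

lemma J_sub (hJ : IsConj M ξ U J) (v w : H) : J (v - w) = J v - J w := by
  have h1 : v - w = v + (-1 : ℂ) • w := by simp [sub_eq_add_neg]
  rw [h1, hJ.add, hJ.smul]
  simp [sub_eq_add_neg]

lemma J_norm (hJ : IsConj M ξ U J) (v : H) : ‖J v‖ = ‖v‖ := by
  have h := hJ.inner v v
  have h1 : ‖J v‖ ^ 2 = ‖v‖ ^ 2 := by
    have e1 := inner_self_eq_norm_sq_to_K (𝕜 := ℂ) (J v)
    have e2 := inner_self_eq_norm_sq_to_K (𝕜 := ℂ) v
    rw [h, e2] at e1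
    exact_mod_cast e1.symm
  exact (sq_eq_sq₀ (norm_nonneg _) (norm_nonneg _)).1 h1

lemma J_smul_real (hJ : IsConj M ξ U J) (c : ℝ) (v : H) : J ((c : ℂ) • v) = (c : ℂ) • J v := by
  rw [hJ.smul, Complex.conj_ofReal]

end J

lemma norm_le_one {v : H →L[ℂ] H} (h : star v * v = 1) : ‖v‖ ≤ 1 := by
  have h1 := CStarRing.norm_star_mul_self (x := v)
  rw [h] at h1
  have h2 : ‖(1 : H →L[ℂ] H)‖ ≤ 1 := ContinuousLinearMap.norm_id_le
  nlinarith [norm_nonneg v]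

lemma norm_iso {v : H →L[ℂ] H} (h : star v * v = 1) (u : H) : ‖v u‖ = ‖u‖ := by
  have h1 : ⟪v u, v u⟫_ℂ = ⟪u, u⟫_ℂ := by
    rw [← ContinuousLinearMap.adjoint_inner_right, ← ContinuousLinearMap.star_eq_adjoint]
    have : star v (v u) = (star v * v) u := rfl
    rw [this, h]; rfl
  have h2 : ‖v u‖ ^ 2 = ‖u‖ ^ 2 := by
    have e1 := inner_self_eq_norm_sq_to_K (𝕜 := ℂ) (v u)
    have e2 := inner_self_eq_norm_sq_to_K (𝕜 := ℂ) u
    rw [h1, e2] at e1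
    exact_mod_cast e1.symm
  exact (sq_eq_sq₀ (norm_nonneg _) (norm_nonneg _)).1 h2

/-! ### the abstract group -/

structure Sys (B : Set (H →L[ℂ] H)) (ξ : H) (b : ℝ → (H →L[ℂ] H) → (H →L[ℂ] H)) : Prop where
  Badd : ∀ x ∈ B, ∀ y ∈ B, x + y ∈ B
  Bmul : ∀ x ∈ B, ∀ y ∈ B, x * y ∈ B
  Bsmul : ∀ (c : ℂ), ∀ x ∈ B, c • x ∈ B
  Bstar : ∀ x ∈ B, star x ∈ B
  Bsep : ∀ x ∈ B, x ξ = 0 → x = 0
  mem : ∀ t : ℝ, 0 < t → t < 1 → ∀ x ∈ B, b t x ∈ B
  add : ∀ t : ℝ, 0 < t → t < 1 → ∀ x ∈ B, ∀ y ∈ B, b t (x + y) = b t x + b t y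
  mul : ∀ t : ℝ, 0 < t → t < 1 → ∀ x ∈ B, ∀ y ∈ B, b t (x * y) = b t x * b t y
  smul : ∀ t : ℝ, 0 < t → t < 1 → ∀ x ∈ B, ∀ c : ℂ, b t (c • x) = c • b t x
  star_eq : ∀ t : ℝ, 0 < t → t < 1 → ∀ x ∈ B, b t (star x) = star (b t x)
  inner : ∀ t : ℝ, 0 < t → t < 1 → ∀ x ∈ B, ∀ y ∈ B, ⟪b t x ξ, b t y ξ⟫_ℂ = ⟪x ξ, y ξ⟫_ℂ
  norm : ∀ t : ℝ, 0 < t → t < 1 → ∀ x ∈ B, ‖b t x‖ ≤ ‖x‖
  comp : ∀ t : ℝ, 0 < t → t < 1 → ∀ s : ℝ, 0 < s → s < 1 → ∀ x ∈ B, b (s * t) x = b s (b t x)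
  surj : ∀ t : ℝ, 0 < t → t < 1 → ∀ y ∈ B, ∃ x ∈ B, b t x = y

namespace Sys

variable {B : Set (H →L[ℂ] H)} {ξ : H} {b : ℝ → (H →L[ℂ] H) → (H →L[ℂ] H)}

lemma sub_mem (h : Sys B ξ b) {x y : H →L[ℂ] H} (hx : x ∈ B) (hy : y ∈ B) : x - y ∈ B := by
  have : x - y = x + (-1 : ℂ) • y := by simp [sub_eq_add_neg]
  rw [this]
  exact h.Badd _ hx _ (h.Bsmul _ _ hy)

lemma sub (h : Sys B ξ b) {t : ℝ} (h0 : 0 < t) (h1 : t < 1) {x y : H →L[ℂ] H} (hx : x ∈ B)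
    (hy : y ∈ B) : b t (x - y) = b t x - b t y := by
  have : x - y = x + (-1 : ℂ) • y := by simp [sub_eq_add_neg]
  rw [this, h.add t h0 h1 x hx _ (h.Bsmul _ _ hy), h.smul t h0 h1 y hy]
  simp [sub_eq_add_neg]

lemma norm_xi (h : Sys B ξ b) {t : ℝ} (h0 : 0 < t) (h1 : t < 1) {x : H →L[ℂ] H} (hx : x ∈ B) :
    ‖b t x ξ‖ = ‖x ξ‖ := by
  have e := h.inner t h0 h1 x hx x hx
  have h2 : ‖b t x ξ‖ ^ 2 = ‖x ξ‖ ^ 2 := by
    have e1 := inner_self_eq_norm_sq_to_K (𝕜 := ℂ) (b t x ξ)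
    have e2 := inner_self_eq_norm_sq_to_K (𝕜 := ℂ) (x ξ)
    rw [e, e2] at e1
    exact_mod_cast e1.symm
  exact (sq_eq_sq₀ (norm_nonneg _) (norm_nonneg _)).1 h2

lemma inj (h : Sys B ξ b) {t : ℝ} (h0 : 0 < t) (h1 : t < 1) {x y : H →L[ℂ] H} (hx : x ∈ B)
    (hy : y ∈ B) (e : b t x = b t y) : x = y := by
  have e1 := h.sub h0 h1 hx hy
  rw [e, sub_self] at e1
  have e2 := h.norm_xi h0 h1 (h.sub_mem hx hy)
  rw [e1] at e2
  simp only [zero_apply, norm_zero] at e2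
  exact sub_eq_zero.1 (h.Bsep _ (h.sub_mem hx hy) (norm_eq_zero.1 e2.symm))

lemma comm (h : Sys B ξ b) {s t : ℝ} (s0 : 0 < s) (s1 : s < 1) (t0 : 0 < t) (t1 : t < 1)
    {x : H →L[ℂ] H} (hx : x ∈ B) : b s (b t x) = b t (b s x) := by
  rw [← h.comp t t0 t1 s s0 s1 x hx, ← h.comp s s0 s1 t t0 t1 x hx, mul_comm]

lemma char (h : Sys B ξ b) {q p q' p' : ℝ} (q0 : 0 < q) (q1 : q < 1) (p0 : 0 < p) (p1 : p < 1)
    (q0' : 0 < q') (q1' : q' < 1) (p0' : 0 < p') (p1' : p' < 1) (e : p * q' = p' * q)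
    {y z : H →L[ℂ] H} (hy : y ∈ B) (hz : z ∈ B) (hyz : b q z = b p y) : b q' z = b p' y := by
  apply h.inj q0 q1 (h.mem q' q0' q1' z hz) (h.mem p' p0' p1' y hy)
  rw [h.comm q0 q1 q0' q1' hz, hyz, ← h.comp p p0 p1 q' q0' q1' y hy,
    ← h.comp p' p0' p1' q q0 q1 y hy]
  congr 1
  linarith

open Classical in
/-- the inverse of `b t` -/
noncomputable def inv (B : Set (H →L[ℂ] H)) (b : ℝ → (H →L[ℂ] H) → (H →L[ℂ] H)) (t : ℝ)
    (y : H →L[ℂ] H) : H →L[ℂ] H := if h : ∃ x ∈ B, b t x = y then h.choose else 0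

lemma inv_spec (h : Sys B ξ b) {t : ℝ} (h0 : 0 < t) (h1 : t < 1) {y : H →L[ℂ] H} (hy : y ∈ B) :
    inv B b t y ∈ B ∧ b t (inv B b t y) = y := by
  have hex := h.surj t h0 h1 y hy
  unfold inv
  rw [dif_pos hex]
  exact hex.choose_spec

/-- the flow -/
noncomputable def bet (B : Set (H →L[ℂ] H)) (b : ℝ → (H →L[ℂ] H) → (H →L[ℂ] H)) (lam : ℝ)
    (x : H →L[ℂ] H) : H →L[ℂ] H := inv B b (1 / (1 + lam)) (b (lam / (1 + lam)) x)

lemma bet_mem (h : Sys B ξ b) {lam : ℝ} (hl : 0 < lam) {x : H →L[ℂ] H} (hx : x ∈ B) :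
    bet B b lam x ∈ B := by
  have hQ0 : 0 < 1 / (1 + lam) := by positivity
  have hQ1 : 1 / (1 + lam) < 1 := by rw [div_lt_one (by positivity)]; linarith
  have hP0 : 0 < lam / (1 + lam) := by positivity
  have hP1 : lam / (1 + lam) < 1 := by rw [div_lt_one (by positivity)]; linarith
  exact (h.inv_spec hQ0 hQ1 (h.mem _ hP0 hP1 x hx)).1

lemma bet_eq (h : Sys B ξ b) {lam : ℝ} (hl : 0 < lam) {p q : ℝ} (q0 : 0 < q) (q1 : q < 1)
    (p1 : p < 1) (e : p = lam * q) {x : H →L[ℂ] H} (hx : x ∈ B) :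
    b q (bet B b lam x) = b p x := by
  have hQ0 : 0 < 1 / (1 + lam) := by positivity
  have hQ1 : 1 / (1 + lam) < 1 := by rw [div_lt_one (by positivity)]; linarith
  have hP0 : 0 < lam / (1 + lam) := by positivity
  have hP1 : lam / (1 + lam) < 1 := by rw [div_lt_one (by positivity)]; linarith
  have p0 : 0 < p := by rw [e]; positivity
  refine h.char hQ0 hQ1 hP0 hP1 q0 q1 p0 p1 ?_ hx (h.bet_mem hl hx) ?_
  · rw [e]; field_simp
  · exact (h.inv_spec hQ0 hQ1 (h.mem _ hP0 hP1 x hx)).2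

lemma bet_unique (h : Sys B ξ b) {lam : ℝ} (hl : 0 < lam) {p q : ℝ} (q0 : 0 < q) (q1 : q < 1)
    (p1 : p < 1) (e : p = lam * q) {x z : H →L[ℂ] H} (hx : x ∈ B) (hz : z ∈ B)
    (hzx : b q z = b p x) : z = bet B b lam x :=
  h.inj q0 q1 hz (h.bet_mem hl hx) (hzx.trans (h.bet_eq hl q0 q1 p1 e hx).symm)

/-- a convenient pair of parameters -/
lemma exists_pq {lam : ℝ} (hl : 0 < lam) : ∃ p q : ℝ, 0 < p ∧ p < 1 ∧ 0 < q ∧ q < 1 ∧ p = lam * q :=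
  ⟨lam / (1 + lam), 1 / (1 + lam), by positivity, by rw [div_lt_one (by positivity)]; linarith,
    by positivity, by rw [div_lt_one (by positivity)]; linarith, by ring⟩

lemma bet_one (h : Sys B ξ b) {x : H →L[ℂ] H} (hx : x ∈ B) : bet B b 1 x = x :=
  (h.bet_unique one_pos (p := 1 / 2) (q := 1 / 2) (by norm_num) (by norm_num) (by norm_num)
    (by norm_num) hx hx rfl).symm

lemma bet_lt (h : Sys B ξ b) {lam : ℝ} (hl : 0 < lam) (hl1 : lam < 1) {x : H →L[ℂ] H}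
    (hx : x ∈ B) : bet B b lam x = b lam x := by
  refine (h.bet_unique hl (p := lam * (1 / 2)) (q := 1 / 2) (by norm_num) (by norm_num)
    (by linarith) rfl hx (h.mem _ hl hl1 x hx) ?_).symm
  rw [← h.comp lam hl hl1 (1 / 2) (by norm_num) (by norm_num) x hx, mul_comm]

lemma bet_comp (h : Sys B ξ b) {lam mu : ℝ} (hl : 0 < lam) (hm : 0 < mu) {x : H →L[ℂ] H}
    (hx : x ∈ B) : bet B b (lam * mu) x = bet B b lam (bet B b mu x) := by
  have hz := h.bet_mem hm hx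
  have hw := h.bet_mem hl hz
  symm
  set ε : ℝ := 1 / ((1 + lam) * (1 + lam * mu) * 2) with hε
  have hden : 0 < (1 + lam) * (1 + lam * mu) * 2 := by positivity
  have e0 : 0 < ε := by positivity
  have e1 : ε < 1 := by
    rw [hε, div_lt_one hden]
    nlinarith [mul_pos hl hm, mul_pos hl (mul_pos hl hm)]
  have e2 : lam * ε < 1 := by
    rw [hε, mul_one_div, div_lt_one hden]
    nlinarith [mul_pos hl hm, mul_pos hl (mul_pos hl hm)]
  have e3 : lam * mu * ε < 1 := by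
    rw [hε, mul_one_div, div_lt_one hden]
    nlinarith [mul_pos hl hm, mul_pos hl (mul_pos hl hm)]
  refine h.bet_unique (mul_pos hl hm) (p := lam * mu * ε) (q := ε) e0 e1 e3 rfl hx hw ?_
  rw [h.bet_eq hl e0 e1 e2 rfl hz]
  exact h.bet_eq hm (mul_pos hl e0) e2 e3 (by ring) hx

lemma bet_add (h : Sys B ξ b) {lam : ℝ} (hl : 0 < lam) {x y : H →L[ℂ] H}
    (hx : x ∈ B) (hy : y ∈ B) : bet B b lam (x + y) = bet B b lam x + bet B b lam y := by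
  obtain ⟨p, q, p0, p1, q0, q1, e⟩ := exists_pq hl
  refine (h.bet_unique hl q0 q1 p1 e (h.Badd _ hx _ hy)
    (h.Badd _ (h.bet_mem hl hx) _ (h.bet_mem hl hy)) ?_).symm
  rw [h.add q q0 q1 _ (h.bet_mem hl hx) _ (h.bet_mem hl hy), h.bet_eq hl q0 q1 p1 e hx,
    h.bet_eq hl q0 q1 p1 e hy, h.add p p0 p1 x hx y hy]

lemma bet_mul (h : Sys B ξ b) {lam : ℝ} (hl : 0 < lam) {x y : H →L[ℂ] H}
    (hx : x ∈ B) (hy : y ∈ B) : bet B b lam (x * y) = bet B b lam x * bet B b lam y := by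
  obtain ⟨p, q, p0, p1, q0, q1, e⟩ := exists_pq hl
  refine (h.bet_unique hl q0 q1 p1 e (h.Bmul _ hx _ hy)
    (h.Bmul _ (h.bet_mem hl hx) _ (h.bet_mem hl hy)) ?_).symm
  rw [h.mul q q0 q1 _ (h.bet_mem hl hx) _ (h.bet_mem hl hy), h.bet_eq hl q0 q1 p1 e hx,
    h.bet_eq hl q0 q1 p1 e hy, h.mul p p0 p1 x hx y hy]

lemma bet_smul (h : Sys B ξ b) {lam : ℝ} (hl : 0 < lam) (c : ℂ) {x : H →L[ℂ] H}
    (hx : x ∈ B) : bet B b lam (c • x) = c • bet B b lam x := by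
  obtain ⟨p, q, p0, p1, q0, q1, e⟩ := exists_pq hl
  refine (h.bet_unique hl q0 q1 p1 e (h.Bsmul _ _ hx)
    (h.Bsmul _ _ (h.bet_mem hl hx)) ?_).symm
  rw [h.smul q q0 q1 _ (h.bet_mem hl hx), h.bet_eq hl q0 q1 p1 e hx, h.smul p p0 p1 x hx]

lemma bet_star (h : Sys B ξ b) {lam : ℝ} (hl : 0 < lam) {x : H →L[ℂ] H}
    (hx : x ∈ B) : bet B b lam (star x) = star (bet B b lam x) := by
  obtain ⟨p, q, p0, p1, q0, q1, e⟩ := exists_pq hl
  refine (h.bet_unique hl q0 q1 p1 e (h.Bstar _ hx)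
    (h.Bstar _ (h.bet_mem hl hx)) ?_).symm
  rw [h.star_eq q q0 q1 _ (h.bet_mem hl hx), h.bet_eq hl q0 q1 p1 e hx, h.star_eq p p0 p1 x hx]

end Sys

/-! ### twisted norms -/

lemma twNorm_one (M : VonNeumannAlgebra H) (ξ : H) (a : H →L[ℂ] H) :
    twNorm M ξ 1 a = commNorm M ξ a := by
  unfold twNorm commNorm
  simp

lemma vst_star (ξ : H) (y : H →L[ℂ] H) : vst ξ (star y) = starRingEnd ℂ (vst ξ y) := by
  unfold vst
  rw [ContinuousLinearMap.star_eq_adjoint, ContinuousLinearMap.adjoint_inner_right, inner_conj_symm]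

lemma tw_elem (ξ : H) {lam : ℝ} (hl : 0 < lam) (a x : H →L[ℂ] H) :
    ‖vst ξ (x * star a) - ((lam⁻¹ : ℝ) : ℂ) * vst ξ (star a * x)‖ =
      lam⁻¹ * ‖vst ξ (star x * a) - (lam : ℂ) * vst ξ (a * star x)‖ := by
  have e1 : x * star a = star (a * star x) := by rw [star_mul, star_star]
  have e2 : star a * x = star (star x * a) := by rw [star_mul, star_star]
  rw [e1, e2, vst_star, vst_star]
  have hl0 : (lam : ℂ) ≠ 0 := by exact_mod_cast hl.ne'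
  have e3 : starRingEnd ℂ (vst ξ (a * star x)) -
      ((lam⁻¹ : ℝ) : ℂ) * starRingEnd ℂ (vst ξ (star x * a)) =
      -((lam⁻¹ : ℝ) : ℂ) * starRingEnd ℂ (vst ξ (star x * a) - (lam : ℂ) * vst ξ (a * star x)) := by
    rw [map_sub, map_mul, Complex.conj_ofReal]
    push_cast
    field_simp
    ring
  rw [e3, norm_mul, norm_neg, RCLike.norm_conj, Complex.norm_real, Real.norm_eq_abs,
    abs_of_pos (inv_pos.2 hl)]

open scoped Pointwise in
lemma twNorm_star {M : VonNeumannAlgebra H} {ξ : H} {lam : ℝ} (hl : 0 < lam) (a : H →L[ℂ] H) :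
    twNorm M ξ lam⁻¹ (star a) = lam⁻¹ * twNorm M ξ lam a := by
  unfold twNorm
  rw [← smul_eq_mul, ← Real.sSup_smul_of_nonneg (inv_nonneg.2 hl.le)]
  congr 1
  ext r
  rw [Set.mem_smul_set]
  constructor
  · rintro ⟨x, hx, hx1, rfl⟩
    refine ⟨_, ⟨star x, star_mem hx, by rwa [norm_star], rfl⟩, ?_⟩
    rw [smul_eq_mul, tw_elem ξ hl a x]
  · rintro ⟨_, ⟨x, hx, hx1, rfl⟩, rfl⟩
    refine ⟨star x, star_mem hx, by rwa [norm_star], ?_⟩
    rw [smul_eq_mul, tw_elem ξ hl a (star x), star_star]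

lemma twNorm_nonneg (M : VonNeumannAlgebra H) (ξ : H) (lam : ℝ) (a : H →L[ℂ] H) :
    0 ≤ twNorm M ξ lam a := by
  apply Real.sSup_nonneg
  rintro r ⟨x, _, _, rfl⟩
  exact norm_nonneg _

section scal

variable {N M : VonNeumannAlgebra H} {ξ : H} {U : ℝ → H →L[ℂ] H} {J : H → H}
  {E : (H →L[ℂ] H) → (H →L[ℂ] H)}

lemma twNorm_scal (hI : Inc N M ξ U J E) {t ε : ℝ} (ht0 : 0 < t) (ht1 : t < 1) (hε : 0 ≤ ε)
    {v : H →L[ℂ] H} (hv : IsScal N ξ J t ε v) : twNorm M ξ t (star v) ≤ 2 * ε := by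
  obtain ⟨hvN, hvv, hve⟩ := hv
  have hvM := hI.le v hvN
  set e : H := J (star v ξ) - ((Real.sqrt t : ℝ) : ℂ) • v ξ with he
  have hJe : star v ξ = J e + ((Real.sqrt t : ℝ) : ℂ) • J (v ξ) := by
    rw [he, J_sub hI.conj, hI.conj.inv, J_smul_real hI.conj]
    abel
  have hst : Real.sqrt t * Real.sqrt t = t := Real.mul_self_sqrt ht0.le
  have hst1 : Real.sqrt t ≤ 1 := Real.sqrt_le_one.2 ht1.le
  apply Real.sSup_le
  · rintro r ⟨x, hx, hx1, rfl⟩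
    have e1 : vst ξ (x * star v) = ⟪ξ, x (J e)⟫_ℂ +
        ((Real.sqrt t : ℝ) : ℂ) * ⟪ξ, x (J (v ξ))⟫_ℂ := by
      show ⟪ξ, x (star v ξ)⟫_ℂ = _
      rw [hJe, map_add, map_smul, inner_add_right, inner_smul_right]
    have e2 : ⟪ξ, x (J (v ξ))⟫_ℂ = ⟪e, x ξ⟫_ℂ + ((Real.sqrt t : ℝ) : ℂ) * ⟪v ξ, x ξ⟫_ℂ := by
      have h1 := hI.conj.comm x v hx hvM ξ
      rw [hI.conj.fix] at h1
      have h2 := hI.conj.inner ξ (v (J (x ξ)))
      rw [hI.conj.fix] at h2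
      rw [h1, h2, ← ContinuousLinearMap.adjoint_inner_right, ← ContinuousLinearMap.star_eq_adjoint]
      have h3 := hI.conj.inner (x ξ) (J (star v ξ))
      rw [hI.conj.inv] at h3
      rw [h3]
      have h4 : J (star v ξ) = e + ((Real.sqrt t : ℝ) : ℂ) • v ξ := by rw [he]; abel
      rw [h4, inner_add_left, inner_smul_left, Complex.conj_ofReal]
    have e3 : vst ξ (star v * x) = ⟪v ξ, x ξ⟫_ℂ := by
      show ⟪ξ, star v (x ξ)⟫_ℂ = _
      rw [ContinuousLinearMap.star_eq_adjoint, ContinuousLinearMap.adjoint_inner_right]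
    rw [e1, e2, e3]
    have e4 : ⟪ξ, x (J e)⟫_ℂ + ((Real.sqrt t : ℝ) : ℂ) *
        (⟪e, x ξ⟫_ℂ + ((Real.sqrt t : ℝ) : ℂ) * ⟪v ξ, x ξ⟫_ℂ) - (t : ℂ) * ⟪v ξ, x ξ⟫_ℂ =
        ⟪ξ, x (J e)⟫_ℂ + ((Real.sqrt t : ℝ) : ℂ) * ⟪e, x ξ⟫_ℂ := by
      have : (t : ℂ) = ((Real.sqrt t : ℝ) : ℂ) * ((Real.sqrt t : ℝ) : ℂ) := by
        exact_mod_cast hst.symm
      rw [this]; ring
    rw [e4]
    have f1 : ‖⟪ξ, x (J e)⟫_ℂ‖ ≤ ε := by
      calc ‖⟪ξ, x (J e)⟫_ℂ‖ ≤ ‖ξ‖ * ‖x (J e)‖ := norm_inner_le_norm _ _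
        _ ≤ 1 * (‖x‖ * ‖J e‖) := by
          rw [hI.unit]
          gcongr
          exact x.le_opNorm _
        _ ≤ 1 * (1 * ε) := by
          rw [J_norm hI.conj]
          gcongr
        _ = ε := by ring
    have f2 : ‖⟪e, x ξ⟫_ℂ‖ ≤ ε := by
      calc ‖⟪e, x ξ⟫_ℂ‖ ≤ ‖e‖ * ‖x ξ‖ := norm_inner_le_norm _ _
        _ ≤ ε * (‖x‖ * ‖ξ‖) := by
          gcongr
          exact x.le_opNorm _
        _ ≤ ε * (1 * 1) := by
          rw [hI.unit]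
          gcongr
        _ = ε := by ring
    calc ‖⟪ξ, x (J e)⟫_ℂ + ((Real.sqrt t : ℝ) : ℂ) * ⟪e, x ξ⟫_ℂ‖
        ≤ ‖⟪ξ, x (J e)⟫_ℂ‖ + ‖((Real.sqrt t : ℝ) : ℂ) * ⟪e, x ξ⟫_ℂ‖ := norm_add_le _ _
      _ ≤ ε + 1 * ε := by
        rw [norm_mul, Complex.norm_real, Real.norm_eq_abs, abs_of_nonneg (Real.sqrt_nonneg t)]
        gcongr
      _ = 2 * ε := by ring
  · positivity

lemma key (hI : Inc N M ξ U J E) {t ε : ℝ} {v : H →L[ℂ] H} (hv : IsScal N ξ J t ε v)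
    {y : H →L[ℂ] H} (hy : y ∈ M) :
    ‖((Real.sqrt t : ℝ) : ℂ) • star v (y (v ξ)) - y ξ‖ ≤ ‖y‖ * ε + ‖cm J v (y ξ)‖ := by
  obtain ⟨hvN, hvv, hve⟩ := hv
  have hvM := hI.le v hvN
  obtain ⟨e, he⟩ : ∃ e : H, e = J (star v ξ) - ((Real.sqrt t : ℝ) : ℂ) • v ξ := ⟨_, rfl⟩
  rw [← he] at hve
  have h1 : ((Real.sqrt t : ℝ) : ℂ) • v ξ = J (star v ξ) - e := by rw [he]; abel
  have h2 := hI.conj.comm y (star v) hy (star_mem hvM) ξ
  rw [hI.conj.fix] at h2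
  have h3 : star v (v (y ξ)) = y ξ := by
    have : star v (v (y ξ)) = (star v * v) (y ξ) := rfl
    rw [this, hvv]; rfl
  have h4 : ((Real.sqrt t : ℝ) : ℂ) • star v (y (v ξ)) - y ξ =
      -(star v (cm J v (y ξ))) - star v (y e) := by
    rw [← map_smul, ← map_smul, h1, map_sub y, map_sub (star v), h2, cm, map_sub (star v) (v (y ξ)), h3]
    abel
  have hs : ‖star v‖ ≤ 1 := by rw [norm_star]; exact norm_le_one hvv
  rw [h4]
  calc ‖-(star v (cm J v (y ξ))) - star v (y e)‖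
      ≤ ‖-(star v (cm J v (y ξ)))‖ + ‖star v (y e)‖ := norm_sub_le _ _
    _ ≤ 1 * ‖cm J v (y ξ)‖ + 1 * (‖y‖ * ε) := by
      rw [norm_neg]
      gcongr
      · exact (star v).le_of_opNorm_le hs _
      · refine ((star v).le_of_opNorm_le hs _).trans ?_
        rw [one_mul, one_mul]
        exact (y.le_opNorm _).trans (by gcongr)
    _ = _ := by ring

lemma cm_xi (hI : Inc N M ξ U J E) {t ε : ℝ} (ht1 : t < 1) {v : H →L[ℂ] H}
    (hv : IsScal N ξ J t ε v) : ‖cm J v ξ‖ ≤ (1 - Real.sqrt t) + ε := by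
  obtain ⟨hvN, hvv, hve⟩ := hv
  have hst1 : Real.sqrt t ≤ 1 := Real.sqrt_le_one.2 ht1.le
  have h1 : cm J v ξ = ((1 - Real.sqrt t : ℝ) : ℂ) • v ξ -
      (J (star v ξ) - ((Real.sqrt t : ℝ) : ℂ) • v ξ) := by
    rw [cm, hI.conj.fix]
    push_cast
    rw [sub_smul, one_smul]
    abel
  rw [h1]
  refine (norm_sub_le _ _).trans (add_le_add ?_ hve)
  rw [norm_smul, Complex.norm_real, Real.norm_eq_abs, abs_of_nonneg (by linarith), norm_iso hvv,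
    hI.unit, mul_one]

end scal

/-! ### uniqueness -/

section uniq

variable {N M : VonNeumannAlgebra H} {ξ : H} {U : ℝ → H →L[ℂ] H} {J : H → H}
  {E : (H →L[ℂ] H) → (H →L[ℂ] H)}

lemma exists_seq (hI : Inc3 N M ξ U J E) {t : ℝ} (ht0 : 0 < t) (ht1 : t < 1) :
    ∃ v : ℕ → H →L[ℂ] H, ∀ k : ℕ, IsScal N ξ J t (1 / ((k : ℝ) + 1)) (v k) := by
  have h := fun k : ℕ => hI.scal t (1 / ((k : ℝ) + 1)) ht0 ht1 (by positivity)
  choose v hv using h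
  exact ⟨v, hv⟩

lemma B_le (x : H →L[ℂ] H) (hx : x ∈ relBicentralizer N M ξ) : x ∈ M := hx.1

lemma uniq_lt (hI : Inc3 N M ξ U J E) {β β' : ℝ → (H →L[ℂ] H) → (H →L[ℂ] H)}
    (hβ : IsBicFlow N M ξ β) (hβ' : IsBicFlow N M ξ β') {t : ℝ} (ht0 : 0 < t) (ht1 : t < 1)
    {x : H →L[ℂ] H} (hx : x ∈ relBicentralizer N M ξ) : β t x = β' t x := by
  obtain ⟨v, hv⟩ := exists_seq hI ht0 ht1
  have hI' := hI.toInc2.toInc
  have haN : ∀ n, star (v n) ∈ N := fun n => star_mem (hv n).1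
  have han : ∀ n, ‖star (v n)‖ ≤ 1 := fun n => by
    rw [norm_star]; exact norm_le_one (hv n).2.1
  have htw : Tendsto (fun n => twNorm M ξ t (star (v n))) atTop (𝓝 0) := by
    have h1 : Tendsto (fun n : ℕ => 2 * (1 / ((n : ℝ) + 1))) atTop (𝓝 (2 * 0)) :=
      tendsto_one_div_add_atTop_nhds_zero_nat.const_mul 2
    rw [mul_zero] at h1
    exact squeeze_zero (fun n => twNorm_nonneg _ _ _ _)
      (fun n => twNorm_scal hI' ht0 ht1 (by positivity) (hv n)) h1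
  have h1 := (hβ.lim (fun n => star (v n)) haN ⟨1, han⟩ t ht0 htw x hx ξ).1
  have h2 := (hβ'.lim (fun n => star (v n)) haN ⟨1, han⟩ t ht0 htw x hx ξ).1
  obtain ⟨d, hd⟩ : ∃ d : H →L[ℂ] H, d = β t x - β' t x := ⟨_, rfl⟩
  have hdM : d ∈ M := by
    rw [hd]
    exact sub_mem (B_le _ (hβ.mem t ht0 x hx)) (B_le _ (hβ'.mem t ht0 x hx))
  have h3 : Tendsto (fun n => d (star (v n) ξ)) atTop (𝓝 0) := by
    have h := h2.sub h1
    rw [sub_zero] at h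
    refine h.congr fun n => ?_
    show (star (v n)) (x ξ) - β' t x (star (v n) ξ) - ((star (v n)) (x ξ) - β t x (star (v n) ξ)) = _
    rw [hd]
    show _ = β t x (star (v n) ξ) - β' t x (star (v n) ξ)
    abel
  have h4 : ∀ n : ℕ, ‖((Real.sqrt t : ℝ) : ℂ) • d ξ‖ ≤
      ‖d (star (v n) ξ)‖ + ‖d‖ * (1 / ((n : ℝ) + 1)) := by
    intro n
    obtain ⟨hvN, hvv, hve⟩ := hv n
    have hvM := hI'.le _ hvN
    obtain ⟨e, he⟩ : ∃ e : H, e = J (star (v n) ξ) - ((Real.sqrt t : ℝ) : ℂ) • v n ξ := ⟨_, rfl⟩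
    rw [← he] at hve
    have e1 : ((Real.sqrt t : ℝ) : ℂ) • v n ξ = J (star (v n) ξ) - e := by rw [he]; abel
    have e2 := hI'.conj.comm (d * star (v n)) (star (v n)) (mul_mem hdM (star_mem hvM))
      (star_mem hvM) ξ
    rw [hI'.conj.fix] at e2
    have e3 : star (v n) (v n ξ) = ξ := by
      have : star (v n) (v n ξ) = (star (v n) * v n) ξ := rfl
      rw [this, hvv]; rfl
    have e4 : ((Real.sqrt t : ℝ) : ℂ) • d ξ =
        J (star (v n) (J (d (star (v n) ξ)))) - d (star (v n) e) := by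
      have e5 : d (star (v n) (J (star (v n) ξ))) = J (star (v n) (J (d (star (v n) ξ)))) := e2
      calc ((Real.sqrt t : ℝ) : ℂ) • d ξ = d (star (v n) (((Real.sqrt t : ℝ) : ℂ) • v n ξ)) := by
            rw [map_smul, map_smul, e3]
        _ = _ := by rw [e1, map_sub, map_sub, e5]
    rw [e4]
    refine (norm_sub_le _ _).trans (add_le_add ?_ ?_)
    · rw [J_norm hI'.conj]
      refine ((star (v n)).le_of_opNorm_le (han n) _).trans ?_
      rw [one_mul, J_norm hI'.conj]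
    · refine (d.le_opNorm _).trans ?_
      gcongr
      refine ((star (v n)).le_of_opNorm_le (han n) _).trans ?_
      rw [one_mul]
      exact hve
  have h5 : Tendsto (fun n : ℕ => ‖d (star (v n) ξ)‖ + ‖d‖ * (1 / ((n : ℝ) + 1))) atTop (𝓝 0) := by
    have := h3.norm.add (tendsto_one_div_add_atTop_nhds_zero_nat.const_mul ‖d‖)
    simpa using this
  have h6 : ‖((Real.sqrt t : ℝ) : ℂ) • d ξ‖ ≤ 0 := ge_of_tendsto' h5 h4
  have h7 : d ξ = 0 := by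
    have h8 := norm_le_zero_iff.1 h6
    rw [smul_eq_zero] at h8
    refine h8.resolve_left ?_
    have := Real.sqrt_pos.2 ht0
    exact_mod_cast this.ne'
  have h8 := hI'.sep d hdM h7
  rw [hd] at h8
  exact sub_eq_zero.1 h8

lemma uniq (hI : Inc3 N M ξ U J E) {β β' : ℝ → (H →L[ℂ] H) → (H →L[ℂ] H)}
    (hβ : IsBicFlow N M ξ β) (hβ' : IsBicFlow N M ξ β') {t : ℝ} (ht0 : 0 < t)
    {x : H →L[ℂ] H} (hx : x ∈ relBicentralizer N M ξ) : β t x = β' t x := by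
  rcases lt_trichotomy t 1 with h | h | h
  · exact uniq_lt hI hβ hβ' ht0 h hx
  · rw [h, hβ.one x hx, hβ'.one x hx]
  · have hi0 : 0 < t⁻¹ := inv_pos.2 ht0
    have hi1 : t⁻¹ < 1 := inv_lt_one_of_one_lt₀ h
    have hz := hβ.mem t ht0 x hx
    have h1 : β' t⁻¹ (β t x) = x := by
      rw [← uniq_lt hI hβ hβ' hi0 hi1 hz, ← hβ.comp _ _ hi0 ht0 x hx, inv_mul_cancel₀ ht0.ne',
        hβ.one x hx]
    have h2 := hβ'.comp t t⁻¹ ht0 hi0 (β t x) hz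
    rw [h1, mul_inv_cancel₀ ht0.ne', hβ'.one _ hz] at h2
    exact h2

end uniq

/-! ### continuity -/

section cont

variable {N M : VonNeumannAlgebra H} {ξ : H} {U : ℝ → H →L[ℂ] H} {J : H → H}
  {E : (H →L[ℂ] H) → (H →L[ℂ] H)} {b : ℝ → (H →L[ℂ] H) → (H →L[ℂ] H)}

lemma cont_one (h4 : S_mod) (h7 : S_bic) (hI : Inc3 N M ξ U J E)
    (hs : Sys (relBicentralizer N M ξ) ξ b)
    (hb : ∀ t : ℝ, 0 < t → t < 1 → ∀ x ∈ relBicentralizer N M ξ,
      ∀ v : ℕ → H →L[ℂ] H, (∀ k : ℕ, IsScal N ξ J t (1 / ((k : ℝ) + 1)) (v k)) → ∀ u : H,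
        Tendsto (fun k => star (v k) (x (v k (u)))) atTop (𝓝 (b t x u)))
    {y : H →L[ℂ] H} (hy : y ∈ relBicentralizer N M ξ) {ε : ℝ} (hε : 0 < ε) :
    ∃ δ : ℝ, 0 < δ ∧ ∀ t : ℝ, 0 < t → t < 1 → 1 - δ < t → ‖b t y ξ - y ξ‖ ≤ ε := by
  have hI' := hI.toInc2.toInc
  have hK := (h7 H M N ξ U J hI'.le hI'.unit hI'.conj y hy).2.1
  obtain ⟨b₀, hb₀, hmod⟩ := h4 H M N ξ U J hI'.le hI'.conj (y ξ) hK 1 (ε ^ 2 / 32) one_pos
    (by positivity)
  set δ : ℝ := min (1 / 2) (min (ε / (16 * (b₀ + 1))) (ε / (4 * (‖y‖ + 1)))) with hδ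
  have hδ0 : 0 < δ := by positivity
  have hδ1 : δ ≤ ε / (16 * (b₀ + 1)) := (min_le_right _ _).trans (min_le_left _ _)
  have hδ2 : δ ≤ ε / (4 * (‖y‖ + 1)) := (min_le_right _ _).trans (min_le_right _ _)
  have hδb : b₀ * (2 * δ) ^ 2 ≤ ε ^ 2 / 32 := by
    have h1 : (2 * δ) ^ 2 ≤ (2 * (ε / (16 * (b₀ + 1)))) ^ 2 := by gcongr
    calc b₀ * (2 * δ) ^ 2 ≤ b₀ * (2 * (ε / (16 * (b₀ + 1)))) ^ 2 := by gcongr
      _ = ε ^ 2 / 64 * (b₀ / (b₀ + 1) ^ 2) := by field_simp; ring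
      _ ≤ ε ^ 2 / 64 * 1 := by
        gcongr
        rw [div_le_one (by positivity)]
        nlinarith
      _ ≤ ε ^ 2 / 32 := by nlinarith [sq_nonneg ε]
  have hδy : ‖y‖ * δ ≤ ε / 4 := by
    calc ‖y‖ * δ ≤ (‖y‖ + 1) * (ε / (4 * (‖y‖ + 1))) := by
          gcongr
          linarith
      _ = ε / 4 := by field_simp
  refine ⟨δ, hδ0, fun t ht0 ht1 ht => ?_⟩
  obtain ⟨v, hv⟩ := exists_seq hI ht0 ht1
  have hsq : 1 - Real.sqrt t ≤ δ := by
    have h1 : t ≤ Real.sqrt t := by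
      rw [Real.le_sqrt ht0.le ht0.le]
      nlinarith
    linarith
  have hsq1 : Real.sqrt t ≤ 1 := Real.sqrt_le_one.2 ht1.le
  -- the limit
  have hlim : Tendsto (fun k => ((Real.sqrt t : ℝ) : ℂ) • star (v k) (y (v k ξ)) - y ξ) atTop
      (𝓝 (((Real.sqrt t : ℝ) : ℂ) • b t y ξ - y ξ)) :=
    ((hb t ht0 ht1 y hy v hv ξ).const_smul _).sub_const _
  have hev : ∀ᶠ k : ℕ in atTop, ‖((Real.sqrt t : ℝ) : ℂ) • star (v k) (y (v k ξ)) - y ξ‖ ≤ ε / 2 := by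
    have h1 : ∀ᶠ k : ℕ in atTop, (1 : ℝ) / ((k : ℝ) + 1) ≤ δ :=
      (tendsto_one_div_add_atTop_nhds_zero_nat.eventually (ge_mem_nhds hδ0))
    filter_upwards [h1] with k hk
    have e1 := key hI' (hv k) (B_le y hy)
    have e2 := cm_xi hI' ht1 (hv k)
    have e3 := hmod (v k) (hv k).1 (norm_le_one (hv k).2.1)
    have e4 : ‖cm J (v k) ξ‖ ≤ 2 * δ := by linarith
    have e5 : ‖cm J (v k) (y ξ)‖ ^ 2 ≤ (ε / 4) ^ 2 := by
      calc ‖cm J (v k) (y ξ)‖ ^ 2 ≤ ε ^ 2 / 32 + b₀ * ‖cm J (v k) ξ‖ ^ 2 := e3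
        _ ≤ ε ^ 2 / 32 + b₀ * (2 * δ) ^ 2 := by gcongr
        _ ≤ (ε / 4) ^ 2 := by nlinarith
    have e6 : ‖cm J (v k) (y ξ)‖ ≤ ε / 4 :=
      (sq_le_sq₀ (norm_nonneg _) (by positivity)).1 e5
    calc _ ≤ ‖y‖ * (1 / ((k : ℝ) + 1)) + ‖cm J (v k) (y ξ)‖ := e1
      _ ≤ ‖y‖ * δ + ε / 4 := by gcongr
      _ ≤ ε / 2 := by linarith
  have h8 : ‖((Real.sqrt t : ℝ) : ℂ) • b t y ξ - y ξ‖ ≤ ε / 2 := le_of_tendsto hlim.norm hev
  have h9 : b t y ξ - y ξ = (((Real.sqrt t : ℝ) : ℂ) • b t y ξ - y ξ) +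
      ((1 - Real.sqrt t : ℝ) : ℂ) • b t y ξ := by
    push_cast
    rw [sub_smul, one_smul]
    abel
  rw [h9]
  calc _ ≤ ‖((Real.sqrt t : ℝ) : ℂ) • b t y ξ - y ξ‖ + ‖((1 - Real.sqrt t : ℝ) : ℂ) • b t y ξ‖ :=
        norm_add_le _ _
    _ ≤ ε / 2 + δ * ‖y‖ := by
      rw [norm_smul, Complex.norm_real, Real.norm_eq_abs, abs_of_nonneg (by linarith),
        hs.norm_xi ht0 ht1 hy]
      gcongr
      refine (y.le_opNorm ξ).trans ?_
      rw [hI'.unit, mul_one]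
    _ ≤ ε := by
      rw [mul_comm]
      linarith

lemma diff_xi (hs : Sys (relBicentralizer N M ξ) ξ b) {y : H →L[ℂ] H}
    (hy : y ∈ relBicentralizer N M ξ) {s t : ℝ} (hs0 : 0 < s) (hst : s < t) (ht1 : t < 1) :
    ‖b s y ξ - b t y ξ‖ = ‖b (s / t) y ξ - y ξ‖ := by
  have ht0 : 0 < t := hs0.trans hst
  have hr0 : 0 < s / t := by positivity
  have hr1 : s / t < 1 := by rw [div_lt_one ht0]; exact hst
  have h1 : b s y = b t (b (s / t) y) := by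
    rw [← hs.comp (s / t) hr0 hr1 t ht0 ht1 y hy]
    congr 1
    field_simp
  have hm := hs.mem (s / t) hr0 hr1 y hy
  have h2 := hs.norm_xi ht0 ht1 (hs.sub_mem hm hy)
  rw [hs.sub ht0 ht1 hm hy, ← h1] at h2
  exact h2

lemma contAt (h4 : S_mod) (h7 : S_bic) (hI : Inc3 N M ξ U J E)
    (hs : Sys (relBicentralizer N M ξ) ξ b)
    (hb : ∀ t : ℝ, 0 < t → t < 1 → ∀ x ∈ relBicentralizer N M ξ,
      ∀ v : ℕ → H →L[ℂ] H, (∀ k : ℕ, IsScal N ξ J t (1 / ((k : ℝ) + 1)) (v k)) → ∀ u : H,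
        Tendsto (fun k => star (v k) (x (v k (u)))) atTop (𝓝 (b t x u)))
    {y : H →L[ℂ] H} (hy : y ∈ relBicentralizer N M ξ) (v : H) {r₀ : ℝ} (hr0 : 0 < r₀)
    (hr1 : r₀ < 1) : ContinuousAt (fun r : ℝ => b r y v) r₀ := by
  have hI' := hI.toInc2.toInc
  rw [Metric.continuousAt_iff]
  intro ε hε
  -- approximate `v`
  obtain ⟨c, hcM, hc⟩ : ∃ c : H →L[ℂ] H, c ∈ M ∧ ‖J v - c ξ‖ < ε / (4 * (‖y‖ + 1)) := by
    have h1 := hI'.cyc (J v)
    rw [Metric.mem_closure_iff] at h1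
    obtain ⟨w, ⟨c, hc, rfl⟩, hw⟩ := h1 (ε / (4 * (‖y‖ + 1))) (by positivity)
    exact ⟨c, hc, by rwa [dist_eq_norm] at hw⟩
  have hvw : ‖v - J (c ξ)‖ < ε / (4 * (‖y‖ + 1)) := by
    have h1 : v - J (c ξ) = J (J v - c ξ) := by rw [J_sub hI'.conj, hI'.conj.inv]
    rwa [h1, J_norm hI'.conj]
  obtain ⟨δ, hδ0, hδ⟩ := cont_one h4 h7 hI hs hb hy (ε := ε / (4 * (‖c‖ + 1))) (by positivity)
  refine ⟨min (δ * r₀) (min r₀ (1 - r₀)), ?_, fun r hr => ?_⟩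
  · have : 0 < 1 - r₀ := by linarith
    positivity
  rw [Real.dist_eq] at hr
  have g1 : |r - r₀| < δ * r₀ := hr.trans_le (min_le_left _ _)
  have g2 : |r - r₀| < r₀ := hr.trans_le ((min_le_right _ _).trans (min_le_left _ _))
  have g3 : |r - r₀| < 1 - r₀ := hr.trans_le ((min_le_right _ _).trans (min_le_right _ _))
  rw [abs_lt] at g1 g2 g3
  have hrr0 : 0 < r := by linarith
  have hrr1 : r < 1 := by linarith
  have hxi : ‖b r y ξ - b r₀ y ξ‖ ≤ ε / (4 * (‖c‖ + 1)) := by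
    rcases lt_trichotomy r r₀ with h | h | h
    · rw [diff_xi hs hy hrr0 h hr1]
      refine hδ _ (by positivity) (by rw [div_lt_one hr0]; exact h) ?_
      rw [lt_div_iff₀ hr0]
      nlinarith
    · rw [h, sub_self, norm_zero]; positivity
    · rw [norm_sub_rev, diff_xi hs hy hr0 h hrr1]
      refine hδ _ (by positivity) (by rw [div_lt_one hrr0]; exact h) ?_
      rw [lt_div_iff₀ hrr0]
      nlinarith
  have hw : ∀ z ∈ relBicentralizer N M ξ, z (J (c ξ)) = J (c (J (z ξ))) := by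
    intro z hz
    have := hI'.conj.comm z c (B_le z hz) hcM ξ
    rwa [hI'.conj.fix] at this
  rw [dist_eq_norm]
  have e1 : b r y v - b r₀ y v = (b r y (v - J (c ξ)) - b r₀ y (v - J (c ξ))) +
      J (c (J (b r y ξ - b r₀ y ξ))) := by
    rw [J_sub hI'.conj, map_sub c, J_sub hI'.conj, ← hw _ (hs.mem r hrr0 hrr1 y hy),
      ← hw _ (hs.mem r₀ hr0 hr1 y hy), map_sub (b r y), map_sub (b r₀ y)]
    abel
  rw [e1]
  have n1 : ‖b r y (v - J (c ξ))‖ ≤ ‖y‖ * ‖v - J (c ξ)‖ :=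
    (b r y).le_of_opNorm_le (hs.norm r hrr0 hrr1 y hy) _
  have n2 : ‖b r₀ y (v - J (c ξ))‖ ≤ ‖y‖ * ‖v - J (c ξ)‖ :=
    (b r₀ y).le_of_opNorm_le (hs.norm r₀ hr0 hr1 y hy) _
  have n3 : ‖J (c (J (b r y ξ - b r₀ y ξ)))‖ ≤ ‖c‖ * ‖b r y ξ - b r₀ y ξ‖ := by
    rw [J_norm hI'.conj]
    refine (c.le_opNorm _).trans ?_
    rw [J_norm hI'.conj]
  have n4 : ‖y‖ * ‖v - J (c ξ)‖ ≤ ε / 4 := by
    calc ‖y‖ * ‖v - J (c ξ)‖ ≤ (‖y‖ + 1) * (ε / (4 * (‖y‖ + 1))) := by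
          gcongr
          linarith
      _ = ε / 4 := by field_simp
  have n5 : ‖c‖ * ‖b r y ξ - b r₀ y ξ‖ ≤ ε / 4 := by
    calc ‖c‖ * ‖b r y ξ - b r₀ y ξ‖ ≤ (‖c‖ + 1) * (ε / (4 * (‖c‖ + 1))) := by
          gcongr
          linarith
      _ = ε / 4 := by field_simp
  calc _ ≤ ‖b r y (v - J (c ξ)) - b r₀ y (v - J (c ξ))‖ + ‖J (c (J (b r y ξ - b r₀ y ξ)))‖ :=
        norm_add_le _ _
    _ ≤ (‖b r y (v - J (c ξ))‖ + ‖b r₀ y (v - J (c ξ))‖) + ‖J (c (J (b r y ξ - b r₀ y ξ)))‖ := by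
        gcongr
        exact norm_sub_le _ _
    _ < ε := by linarith

end cont

/-! ### assembly -/

section fin

variable {N M : VonNeumannAlgebra H} {ξ : H} {U : ℝ → H →L[ℂ] H} {J : H → H}
  {E : (H →L[ℂ] H) → (H →L[ℂ] H)}

lemma B_smul (c : ℂ) (x : H →L[ℂ] H) (hx : x ∈ relBicentralizer N M ξ) :
    c • x ∈ relBicentralizer N M ξ := by
  refine ⟨M.toStarSubalgebra.smul_mem hx.1 c, fun a ha hC hn v => ?_⟩
  obtain ⟨e1, e2⟩ := hx.2 a ha hC hn v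
  have e : ∀ n, a n * (c • x) - (c • x) * a n = c • (a n * x - x * a n) := by
    intro n
    rw [mul_smul_comm, smul_mul_assoc, smul_sub]
  constructor
  · have := e1.const_smul c
    rw [smul_zero] at this
    refine this.congr fun n => ?_
    rw [e n]; rfl
  · have := e2.const_smul (starRingEnd ℂ c)
    rw [smul_zero] at this
    refine this.congr fun n => ?_
    rw [e n, star_smul]; rfl

lemma B_add (x y : H →L[ℂ] H) (hx : x ∈ relBicentralizer N M ξ)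
    (hy : y ∈ relBicentralizer N M ξ) : x + y ∈ relBicentralizer N M ξ := by
  refine ⟨add_mem hx.1 hy.1, fun a ha hC hn v => ?_⟩
  obtain ⟨e1, e2⟩ := hx.2 a ha hC hn v
  obtain ⟨f1, f2⟩ := hy.2 a ha hC hn v
  have e : ∀ n, a n * (x + y) - (x + y) * a n = (a n * x - x * a n) + (a n * y - y * a n) := by
    intro n
    rw [mul_add, add_mul]; abel
  constructor
  · have := e1.add f1
    rw [add_zero] at this
    refine this.congr fun n => ?_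
    rw [e n]; rfl
  · have := e2.add f2
    rw [add_zero] at this
    refine this.congr fun n => ?_
    rw [e n, star_add]; rfl

lemma B_mul (x y : H →L[ℂ] H) (hx : x ∈ relBicentralizer N M ξ)
    (hy : y ∈ relBicentralizer N M ξ) : x * y ∈ relBicentralizer N M ξ := by
  refine ⟨mul_mem hx.1 hy.1, fun a ha hC hn v => ?_⟩
  have e : ∀ n, a n * (x * y) - (x * y) * a n = (a n * x - x * a n) * y + x * (a n * y - y * a n) := by
    intro n
    noncomm_ring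
  constructor
  · have h1 := (hx.2 a ha hC hn (y v)).1
    have h2 := (x.continuous.tendsto _).comp (hy.2 a ha hC hn v).1
    have := h1.add h2
    rw [map_zero, add_zero] at this
    refine this.congr fun n => ?_
    rw [e n]; rfl
  · have h1 := ((star y).continuous.tendsto _).comp (hx.2 a ha hC hn v).2
    have h2 := (hy.2 a ha hC hn (star x v)).2
    have := h1.add h2
    rw [map_zero, add_zero] at this
    refine this.congr fun n => ?_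
    rw [e n, star_add, star_mul, star_mul]; rfl

end fin

theorem r (h1 : S_bt) (h2 : S_binv) (h3 : S_blim) (h4 : S_mod) (h5 : S_KK) (h6 : S_Bchar) (h7 : S_bic) : S_flow := by
  intro H _ _ _ N M ξ U J E hI
  refine ⟨?_, fun β β' hβ hβ' lam hl x hx => uniq hI hβ hβ' hl hx⟩
  have hI' := hI.toInc2.toInc
  obtain ⟨b, hb⟩ := h1 H N M ξ U J E hI
  have hblim : ∀ t : ℝ, 0 < t → t < 1 → ∀ x ∈ relBicentralizer N M ξ,
      ∀ v : ℕ → H →L[ℂ] H, (∀ k : ℕ, IsScal N ξ J t (1 / ((k : ℝ) + 1)) (v k)) → ∀ u : H,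
        Tendsto (fun k => star (v k) (x (v k (u)))) atTop (𝓝 (b t x u)) :=
    fun t h0 h1 x hx => (hb t h0 h1 x hx).2.1
  have hs : Sys (relBicentralizer N M ξ) ξ b := by
    refine ⟨fun x hx y hy => B_add x y hx hy, fun x hx y hy => B_mul x y hx hy,
      fun c x hx => B_smul c x hx, fun x hx => (h7 H M N ξ U J hI'.le hI'.unit hI'.conj x hx).1,
      fun x hx h => hI'.sep x hx.1 h, fun t h0 h1 x hx => (hb t h0 h1 x hx).1,
      fun t h0 h1 x hx y hy => ((hb t h0 h1 x hx).2.2 y hy).1,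
      fun t h0 h1 x hx y hy => ((hb t h0 h1 x hx).2.2 y hy).2.1,
      fun t h0 h1 x hx => ((hb t h0 h1 x hx).2.2 x hx).2.2.1,
      fun t h0 h1 x hx => ((hb t h0 h1 x hx).2.2 x hx).2.2.2.1,
      fun t h0 h1 x hx y hy => ((hb t h0 h1 x hx).2.2 y hy).2.2.2.2.1,
      fun t h0 h1 x hx => ((hb t h0 h1 x hx).2.2 x hx).2.2.2.2.2.1,
      fun t h0 h1 s s0 s1 x hx => ((hb t h0 h1 x hx).2.2 x hx).2.2.2.2.2.2 s s0 s1, ?_⟩
    intro t h0 h1 y hy
    obtain ⟨x, hx, hxy, -⟩ := h2 H N M ξ U J E hI t h0 h1 y hy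
    refine ⟨x, hx, ?_⟩
    obtain ⟨v, hv⟩ := exists_seq hI h0 h1
    ext u
    exact tendsto_nhds_unique (hblim t h0 h1 x hx v hv u) (hxy v hv u)
  -- the first half of the characteristic property
  have hlim1 : ∀ a : ℕ → H →L[ℂ] H, (∀ n, a n ∈ N) → (∃ C : ℝ, ∀ n, ‖a n‖ ≤ C) → ∀ lam : ℝ, 0 < lam →
      Tendsto (fun n => twNorm M ξ lam (a n)) atTop (𝓝 0) → ∀ x ∈ relBicentralizer N M ξ, ∀ v : H,
      Tendsto (fun n => (a n * x - Sys.bet (relBicentralizer N M ξ) b lam x * a n) v) atTop (𝓝 0) := by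
    intro a ha hC lam hl htw x hx v
    rcases lt_trichotomy lam 1 with h | h | h
    · rw [hs.bet_lt hl h hx]
      exact (h3 H N M ξ U J E hI lam hl h x hx _ (hs.mem lam hl h x hx) (hblim lam hl h x hx)
        a ha hC).1 htw v
    · subst h
      rw [hs.bet_one hx]
      simp only [twNorm_one] at htw
      exact (hx.2 a ha hC htw v).1
    · have hi0 : 0 < lam⁻¹ := inv_pos.2 hl
      have hi1 : lam⁻¹ < 1 := inv_lt_one_of_one_lt₀ h
      have hz := hs.bet_mem hl hx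
      have hzx : b lam⁻¹ (Sys.bet (relBicentralizer N M ξ) b lam x) = x := by
        rw [← hs.bet_lt hi0 hi1 hz, ← hs.bet_comp hi0 hl hx, inv_mul_cancel₀ hl.ne', hs.bet_one hx]
      have hl' := hblim lam⁻¹ hi0 hi1 _ hz
      rw [hzx] at hl'
      refine (h3 H N M ξ U J E hI lam⁻¹ hi0 hi1 _ hz x hx hl' a ha hC).2 ?_ v
      rwa [inv_inv]
  refine ⟨Sys.bet (relBicentralizer N M ξ) b, fun lam hl x hx => hs.bet_mem hl hx,
    fun x hx => hs.bet_one hx, fun lam mu hl hm x hx => hs.bet_comp hl hm hx,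
    fun lam hl x hx y hy => hs.bet_add hl hx hy, fun lam hl c x hx => hs.bet_smul hl c hx,
    fun lam hl x hx y hy => hs.bet_mul hl hx hy, fun lam hl x hx => hs.bet_star hl hx, ?_, ?_⟩
  · -- continuity
    intro x hx v
    rw [continuous_iff_continuousAt]
    intro p₀
    have hc0 : 0 < 2 * Real.exp p₀ := by positivity
    have hy := hs.bet_mem hc0 hx
    have hev : (fun p : ℝ => Sys.bet (relBicentralizer N M ξ) b (Real.exp p) x v) =ᶠ[𝓝 p₀]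
        fun p : ℝ => b (Real.exp p / (2 * Real.exp p₀))
          (Sys.bet (relBicentralizer N M ξ) b (2 * Real.exp p₀) x) v := by
      have h1 : ∀ᶠ p in 𝓝 p₀, Real.exp p < 2 * Real.exp p₀ := by
        apply (Real.continuous_exp.tendsto p₀).eventually (gt_mem_nhds ?_)
        have := Real.exp_pos p₀
        linarith
      filter_upwards [h1] with p hp
      have hr0 : 0 < Real.exp p / (2 * Real.exp p₀) := by positivity
      have hr1 : Real.exp p / (2 * Real.exp p₀) < 1 := by rw [div_lt_one hc0]; exact hp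
      rw [← hs.bet_lt hr0 hr1 hy, ← hs.bet_comp hr0 hc0 hx, div_mul_cancel₀ _ hc0.ne']
    refine ContinuousAt.congr ?_ hev.symm
    have hhalf : Real.exp p₀ / (2 * Real.exp p₀) = 1 / 2 := by
      have := (Real.exp_pos p₀).ne'
      field_simp
    have h1 := contAt h4 h7 hI hs hblim hy v (r₀ := Real.exp p₀ / (2 * Real.exp p₀))
      (by rw [hhalf]; norm_num) (by rw [hhalf]; norm_num)
    exact ContinuousAt.comp (f := fun p : ℝ => Real.exp p / (2 * Real.exp p₀))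
      (g := fun r => b r (Sys.bet (relBicentralizer N M ξ) b (2 * Real.exp p₀) x) v) h1
      (by fun_prop)
  · intro a ha hC lam hl htw x hx v
    refine ⟨hlim1 a ha hC lam hl htw x hx v, ?_⟩
    have hx' := hs.Bstar x hx
    have hy := hs.bet_mem hl hx
    have hi0 : 0 < lam⁻¹ := inv_pos.2 hl
    have h8 := hlim1 (fun n => star (a n)) (fun n => star_mem (ha n)) (by
      obtain ⟨C, hC⟩ := hC
      exact ⟨C, fun n => by rw [norm_star]; exact hC n⟩) lam⁻¹ hi0 (by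
      have := htw.const_mul lam⁻¹
      rw [mul_zero] at this
      exact this.congr fun n => (twNorm_star hl (a n)).symm) _ (hs.Bstar _ hy) v
    have h9 : Sys.bet (relBicentralizer N M ξ) b lam⁻¹
        (star (Sys.bet (relBicentralizer N M ξ) b lam x)) = star x := by
      rw [hs.bet_star hi0 hy, ← hs.bet_comp hi0 hl hx, inv_mul_cancel₀ hl.ne', hs.bet_one hx]
    rw [h9] at h8
    have h10 := h8.neg
    rw [neg_zero] at h10
    refine h10.congr fun n => ?_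
    rw [star_sub, star_mul, star_mul]
    show -((star (a n) * star (Sys.bet (relBicentralizer N M ξ) b lam x) - star x * star (a n)) v) = _
    rw [← neg_sub (star x * star (a n))]
    simp

end Pool.Agent.H255.BC.F_flow
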