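import Pool.Agent.H255.BC.Defs3

set_option autoImplicit false

open MeasureTheory Filter Topology Complex
open scoped InnerProductSpace ENNReal FourierTransform

namespace Pool.Agent.H255.BC.F_inc3

open Pool.Agent.W662.CB Pool.Agent.H255.BC

section aux

variable {H : Type} [NormedAddCommGroup H] [InnerProductSpace ℂ H] [CompleteSpace H]

/-- isometries: norm -/
theorem norm_iso (s : H →L[ℂ] H) (h : star s * s = 1) (v : H) : ‖s v‖ = ‖v‖ := by
  have h1 : ⟪s v, s v⟫_ℂ = ⟪v, v⟫_ℂ := by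
    have : ⟪v, (star s * s) v⟫_ℂ = ⟪s v, s v⟫_ℂ := by
      rw [mul_apply_eq_comp, ContinuousLinearMap.star_eq_adjoint,
        ContinuousLinearMap.adjoint_inner_right]
    rw [← this, h]; rfl
  have h2 : ‖s v‖ ^ 2 = ‖v‖ ^ 2 := by
    rw [inner_self_eq_norm_sq_to_K, inner_self_eq_norm_sq_to_K] at h1
    exact_mod_cast h1
  exact (sq_eq_sq₀ (norm_nonneg _) (norm_nonneg _)).1 h2

theorem orth_of_sum {m : ℕ} (s : Fin m → H →L[ℂ] H) (h1 : ∀ j, star (s j) * s j = 1)
    (h2 : ∑ j, s j * star (s j) = 1) (i j : Fin m) (hij : i ≠ j) : star (s i) * s j = 0 := by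
  classical
  ext v
  -- ‖s_j v‖² = Σ_k ‖s_k^* s_j v‖²
  have key : ∑ k, ‖star (s k) (s j v)‖ ^ 2 = ‖s j v‖ ^ 2 := by
    have e1 : ⟪s j v, (∑ k, s k * star (s k)) (s j v)⟫_ℂ = ((‖s j v‖ ^ 2 : ℝ) : ℂ) := by
      rw [h2, one_apply_eq_self, inner_self_eq_norm_sq_to_K]; push_cast; rfl
    have e2 : ⟪s j v, (∑ k, s k * star (s k)) (s j v)⟫_ℂ
        = ((∑ k, ‖star (s k) (s j v)‖ ^ 2 : ℝ) : ℂ) := by
      rw [ContinuousLinearMap.sum_apply, inner_sum]
      push_cast
      refine Finset.sum_congr rfl fun k _ => ?_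
      have e3 : (s k * star (s k)) (s j v) = s k (star (s k) (s j v)) := rfl
      have e4 : ⟪s j v, (s k * star (s k)) (s j v)⟫_ℂ
          = ((‖star (s k) (s j v)‖ : ℂ)) ^ 2 := by
        rw [e3, ← ContinuousLinearMap.adjoint_inner_left,
          ← ContinuousLinearMap.star_eq_adjoint, inner_self_eq_norm_sq_to_K]
        rfl
      exact e4
    rw [e1] at e2
    exact_mod_cast e2.symm
  have hjj : ‖star (s j) (s j v)‖ ^ 2 = ‖s j v‖ ^ 2 := by
    have : star (s j) (s j v) = v := by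
      have := congrArg (fun T : H →L[ℂ] H => T v) (h1 j)
      simpa using this
    rw [this, norm_iso (s j) (h1 j)]
  rw [← Finset.add_sum_erase _ _ (Finset.mem_univ j), hjj] at key
  have h0 : ∑ k ∈ Finset.univ.erase j, ‖star (s k) (s j v)‖ ^ 2 = 0 := by linarith
  rw [Finset.sum_eq_zero_iff_of_nonneg (fun k _ => by positivity)] at h0
  have := h0 i (Finset.mem_erase.2 ⟨hij, Finset.mem_univ _⟩)
  have h3 : star (s i) (s j v) = 0 := by
    have : ‖star (s i) (s j v)‖ = 0 := by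
      exact pow_eq_zero_iff (two_ne_zero) |>.1 this
    exact norm_eq_zero.1 this
  simpa using h3

theorem J_norm {M : VonNeumannAlgebra H} {ξ : H} {U : ℝ → H →L[ℂ] H} {J : H → H}
    (hJ : IsConj M ξ U J) (v : H) : ‖J v‖ = ‖v‖ := by
  have h1 := hJ.inner v v
  have h2 : ‖J v‖ ^ 2 = ‖v‖ ^ 2 := by
    rw [inner_self_eq_norm_sq_to_K, inner_self_eq_norm_sq_to_K] at h1
    exact_mod_cast h1
  exact (sq_eq_sq₀ (norm_nonneg _) (norm_nonneg _)).1 h2

theorem J_neg {M : VonNeumannAlgebra H} {ξ : H} {U : ℝ → H →L[ℂ] H} {J : H → H}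
    (hJ : IsConj M ξ U J) (v : H) : J (-v) = - J v := by
  have := hJ.smul (-1) v
  simpa using this

theorem J_sub {M : VonNeumannAlgebra H} {ξ : H} {U : ℝ → H →L[ℂ] H} {J : H → H}
    (hJ : IsConj M ξ U J) (v w : H) : J (v - w) = J v - J w := by
  rw [sub_eq_add_neg, hJ.add, J_neg hJ, sub_eq_add_neg]

theorem J_rsmul {M : VonNeumannAlgebra H} {ξ : H} {U : ℝ → H →L[ℂ] H} {J : H → H}
    (hJ : IsConj M ξ U J) (r : ℝ) (v : H) : J ((r : ℂ) • v) = (r : ℂ) • J v := by
  rw [hJ.smul, Complex.conj_ofReal]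

/-- the twisted estimate for `s v^*` -/
theorem tw {N M : VonNeumannAlgebra H} {ξ : H} {U : ℝ → H →L[ℂ] H} {J : H → H}
    (hle : ∀ x : H →L[ℂ] H, x ∈ N → x ∈ M) (hJ : IsConj M ξ U J) {c t ε : ℝ} (hc : 0 < c)
    (ht : 0 < t) (ht1 : t < 1) (hε : 0 < ε) (s v : H →L[ℂ] H)
    (hs : IsScal N ξ J c ε s) (hv : IsScal N ξ J (c / t) ε v) :
    ‖J (star (s * star v) ξ) - ((Real.sqrt t : ℝ) : ℂ) • (s * star v) ξ‖ ≤ ε + ε := by
  obtain ⟨hsN, hs1, hs2⟩ := hs
  obtain ⟨hvN, hv1, hv2⟩ := hv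
  have hct : 0 < c / t := div_pos hc ht
  have e1 : J (star (s * star v) ξ) = J (v (star s ξ)) := by
    rw [star_mul, star_star]; rfl
  have e2 : star s ξ = J (J (star s ξ)) := (hJ.inv _).symm
  have e3 : J (v (J (s ξ))) = s (J (v ξ)) := by
    have := hJ.comm s v (hle _ hsN) (hle _ hvN) ξ
    rw [hJ.fix] at this
    exact this.symm
  -- first error
  have f1 : ‖J (v (star s ξ)) - ((Real.sqrt c : ℝ) : ℂ) • J (v (J (s ξ)))‖ ≤ ε := by
    have : J (v (star s ξ)) - ((Real.sqrt c : ℝ) : ℂ) • J (v (J (s ξ)))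
        = J (v (J (J (star s ξ) - ((Real.sqrt c : ℝ) : ℂ) • s ξ))) := by
      rw [J_sub hJ (J (star s ξ)), hJ.inv, J_rsmul hJ, map_sub, J_sub hJ, map_smul, J_rsmul hJ]
    rw [this, J_norm hJ, norm_iso v hv1, J_norm hJ]
    exact hs2
  -- second error
  have f2 : ‖star v ξ - ((Real.sqrt (c / t) : ℝ) : ℂ) • J (v ξ)‖ ≤ ε := by
    have : star v ξ - ((Real.sqrt (c / t) : ℝ) : ℂ) • J (v ξ)
        = J (J (star v ξ) - ((Real.sqrt (c / t) : ℝ) : ℂ) • v ξ) := by
      rw [J_sub hJ, hJ.inv, J_rsmul hJ]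
    rw [this, J_norm hJ]
    exact hv2
  have hsq : Real.sqrt t * Real.sqrt (c / t) = Real.sqrt c := by
    rw [← Real.sqrt_mul ht.le]; congr 1; field_simp
  have e4 : J (star (s * star v) ξ) - ((Real.sqrt t : ℝ) : ℂ) • (s * star v) ξ
      = (J (v (star s ξ)) - ((Real.sqrt c : ℝ) : ℂ) • J (v (J (s ξ))))
        - ((Real.sqrt t : ℝ) : ℂ) • s (star v ξ - ((Real.sqrt (c / t) : ℝ) : ℂ) • J (v ξ)) := by
    rw [e1, e3, map_sub, smul_sub, map_smul, smul_smul, ← Complex.ofReal_mul, hsq]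
    rw [mul_apply_eq_comp]
    abel
  rw [e4]
  refine (norm_sub_le _ _).trans (add_le_add f1 ?_)
  rw [norm_smul, norm_iso s hs1, Complex.norm_real, Real.norm_of_nonneg (Real.sqrt_nonneg _)]
  have hle1 : Real.sqrt t ≤ 1 := by
    rw [← Real.sqrt_one]; exact Real.sqrt_le_sqrt ht1.le
  calc Real.sqrt t * ‖star v ξ - ((Real.sqrt (c / t) : ℝ) : ℂ) • J (v ξ)‖
      ≤ 1 * ε := mul_le_mul hle1 f2 (norm_nonneg _) zero_le_one
    _ = ε := one_mul _

end aux

theorem r (h1 : S_inc2) (h2 : S_famN) : S_inc3 := by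
  intro H _ _ _ N M ξ U J E hInc hIII
  have hI2 := h1 H N M ξ U J E hInc hIII
  refine { hI2 with fam := ?_ }
  intro t ht ht1
  have hpos : (0 : ℝ) < 1 / t := by positivity
  obtain ⟨m', hm'⟩ : ∃ m' : ℕ, ⌈1 / t⌉₊ = m' + 1 :=
    Nat.exists_eq_succ_of_ne_zero (Nat.ceil_pos.2 hpos).ne'
  have hA : (m' : ℝ) * t < 1 := by
    have := Nat.ceil_lt_add_one hpos.le
    rw [hm'] at this
    push_cast at this
    have h3 : (m' : ℝ) < 1 / t := by linarith
    rwa [lt_div_iff₀ ht] at h3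
  have hB : 1 ≤ ((m' : ℝ) + 1) * t := by
    have := Nat.le_ceil (1 / t)
    rw [hm'] at this
    push_cast at this
    rwa [div_le_iff₀ ht] at this
  set c : ℝ := 1 - m' * t with hc
  have hc0 : 0 < c := by rw [hc]; linarith
  have hct : c ≤ t := by rw [hc]; linarith
  refine ⟨m' + 1, fun ε hε => ?_⟩
  obtain ⟨s, hs, hsum⟩ := h2 H N M ξ U J E hInc hIII (m' + 1)
    (Fin.snoc (α := fun _ => ℝ) (fun _ : Fin m' => t) c)
    (by
      intro j
      refine Fin.lastCases ?_ (fun i => ?_) j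
      · simpa using hc0
      · simpa using ht)
    (by
      rw [Fin.sum_univ_castSucc]
      simp [hc]) (ε / 2) (half_pos hε)
  -- the correcting isometries
  have hu : ∀ j : Fin (m' + 1), ∃ u : H →L[ℂ] H, u ∈ N ∧ star u * u = 1 ∧
      ‖J (star (s j * star u) ξ) - ((Real.sqrt t : ℝ) : ℂ) • (s j * star u) ξ‖ ≤ ε := by
    intro j
    have hone : (1 : H →L[ℂ] H) ∈ N := one_mem N
    refine Fin.lastCases ?_ (fun i => ?_) j
    · have hsl := hs (Fin.last m')
      rw [Fin.snoc_last] at hsl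
      rcases hct.eq_or_lt with h | h
      · refine ⟨1, hone, by simp, ?_⟩
        have := hsl.2.2
        rw [h] at this
        rw [star_one, mul_one]
        linarith
      · obtain ⟨v, hv⟩ := hI2.scal (c / t) (ε / 2) (div_pos hc0 ht) ((div_lt_one ht).2 h)
          (half_pos hε)
        refine ⟨v, hv.1, hv.2.1, ?_⟩
        have := tw hInc.le hInc.conj hc0 ht ht1 (half_pos hε) _ v hsl hv
        linarith
    · refine ⟨1, hone, by simp, ?_⟩
      have hsl := hs (Fin.castSucc i)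
      rw [Fin.snoc_castSucc] at hsl
      have := hsl.2.2
      rw [star_one, mul_one]
      linarith
  choose u hu1 hu2 hu3 using hu
  refine ⟨fun j => s j * star (u j), ?_, ?_, ?_, ?_, hu3⟩
  · intro j
    exact mul_mem (hs j).1 (star_mem (hu1 j))
  · intro j
    have h3 := (hs j).2.1
    have h4 := hu2 j
    calc s j * star (u j) * star (s j * star (u j)) * (s j * star (u j))
        = s j * (star (u j) * u j) * (star (s j) * s j) * star (u j) := by
          rw [star_mul, star_star]; simp only [mul_assoc]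
      _ = s j * star (u j) := by rw [h3, h4]; simp
  · intro i j hij
    have h5 := orth_of_sum s (fun j => (hs j).2.1) hsum i j hij
    calc star (s i * star (u i)) * (s j * star (u j))
        = u i * (star (s i) * s j) * star (u j) := by
          rw [star_mul, star_star]; simp only [mul_assoc]
      _ = 0 := by rw [h5]; simp
  · rw [← hsum]
    refine Finset.sum_congr rfl fun j _ => ?_
    calc s j * star (u j) * star (s j * star (u j))
        = s j * (star (u j) * u j) * star (s j) := by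
          rw [star_mul, star_star]; simp only [mul_assoc]
      _ = s j * star (s j) := by rw [hu2 j]; simp

end Pool.Agent.H255.BC.F_inc3
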