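import Pool.Agent.H255.BC.All2
import Pool.Agent.H255.BC.F_fam
import Pool.Agent.H255.BC.F_famN
import Pool.Agent.H255.BC.F_inc3
import Pool.Agent.H255.BC.F_blim
import Pool.Agent.H255.BC.F_bt
import Pool.Agent.H255.BC.F_binv
import Pool.Agent.H255.BC.F_flow

set_option autoImplicit false

namespace Pool.Agent.H255.BC

open Pool.Agent.W662.CB

theorem hfam : S_fam := F_fam.r hps
theorem hfamN : S_famN := F_famN.r hfam hconj hred pA8a
theorem hinc3 : S_inc3 := F_inc3.r hinc2 hfamN
theorem hbt : S_bt := F_bt.r hmod hKK hQ hBchar hprodK hbic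
theorem hbinv : S_binv := F_binv.r hmod hKK hBchar hbic
theorem hblim : S_blim := F_blim.r hpsa2 hmod hBchar hbic hbinv hbt
theorem hflow : S_flow := F_flow.r hbt hbinv hblim hmod hKK hBchar hbic

end Pool.Agent.H255.BC
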