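import Pool.Agent.H255.BC.Defs4

set_option autoImplicit false

open MeasureTheory Filter Topology Complex
open scoped InnerProductSpace ENNReal

namespace Pool.Agent.H255.BC.TT_TT

open Pool.Agent.W662.CB Pool.Agent.H255.BC

section aux

variable {H : Type} [NormedAddCommGroup H] [InnerProductSpace ℂ H] [CompleteSpace H]

/-- a separating vector is cyclic for the commutant -/
theorem cyc_commutant {M : VonNeumannAlgebra H} {ξ : H} (h : IsSeparating M ξ) :
    IsCyclic M.commutant ξ := by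
  let W : Submodule ℂ H :=
    { carrier := {v : H | ∃ x : H →L[ℂ] H, x ∈ M.commutant ∧ x ξ = v}
      add_mem' := by
        rintro _ _ ⟨x, hx, rfl⟩ ⟨y, hy, rfl⟩
        exact ⟨x + y, add_mem hx hy, rfl⟩
      zero_mem' := ⟨0, zero_mem _, rfl⟩
      smul_mem' := by
        rintro c _ ⟨x, hx, rfl⟩
        refine ⟨c • x, ?_, rfl⟩
        rw [VonNeumannAlgebra.mem_commutant_iff] at hx ⊢
        intro g hg
        rw [mul_smul_comm, smul_mul_assoc, hx g hg] }
  let V : Submodule ℂ H := W.topologicalClosure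
  have hVc : IsClosed (V : Set H) := W.isClosed_topologicalClosure
  have : CompleteSpace V := hVc.completeSpace_coe
  have hp : V.starProjection ∈ M := by
    rw [VonNeumannAlgebra.IsStarProjection.mem_iff isStarProjection_starProjection]
    intro y hy
    have hr : (V.starProjection).range = V := by
      exact Submodule.range_starProjection V
    rw [hr, Module.End.mem_invtSubmodule]
    intro v hv
    rw [Submodule.mem_comap]
    have hW : ∀ w ∈ W, y w ∈ W := by
      rintro _ ⟨x, hx, rfl⟩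
      exact ⟨y * x, mul_mem hy hx, rfl⟩
    have hcl : ∀ w ∈ closure (W : Set H), y w ∈ closure (W : Set H) := fun w hw =>
      map_mem_closure y.continuous hw (fun z hz => hW z hz)
    exact hcl v hv
  have hξ : V.starProjection ξ = ξ := by
    rw [Submodule.starProjection_eq_self_iff]
    exact W.le_topologicalClosure ⟨1, one_mem _, rfl⟩
  have h1 : (1 : H →L[ℂ] H) - V.starProjection = 0 := by
    apply h _ (sub_mem (one_mem _) hp)
    show ξ - V.starProjection ξ = 0
    rw [hξ, sub_self]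
  have h2 : ∀ v : H, v ∈ V := by
    intro v
    rw [← Submodule.starProjection_eq_self_iff (K := V)]
    have := congrArg (fun T : H →L[ℂ] H => T v) h1
    have h3 : v - V.starProjection v = 0 := this
    exact (sub_eq_zero.1 h3).symm
  intro v
  exact h2 v

theorem sep_commutant {M : VonNeumannAlgebra H} {ξ : H} (h : IsCyclic M ξ) :
    IsSeparating M.commutant ξ := by
  intro x hx hx0
  rw [VonNeumannAlgebra.mem_commutant_iff] at hx
  have h1 : (fun v : H => x v) = fun _ => (0 : H) := by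
    refine Continuous.ext_on h x.continuous continuous_const ?_
    rintro _ ⟨a, ha, rfl⟩
    have : a (x ξ) = x (a ξ) := congrArg (fun T : H →L[ℂ] H => T ξ) (hx a ha)
    beta_reduce
    rw [← this, hx0, map_zero]
  ext v
  exact congrFun h1 v

theorem bc_refl {f : ℝ → ℂ} (hf : BC f) : BC (fun x => f (2 - x)) := by
  obtain ⟨h1, C, h2⟩ := hf
  refine ⟨?_, C, fun x hx => h2 (2 - x) ⟨by linarith [hx.2], by linarith [hx.1]⟩⟩
  exact h1.comp (continuous_const.sub continuous_id).continuousOn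
    (fun x hx => ⟨by linarith [hx.2], by linarith [hx.1]⟩)

theorem bc_const (c : ℂ) : BC (fun _ => c) := ⟨continuousOn_const, ‖c‖, fun _ _ => le_rfl⟩

theorem bc_idf : BC (fun x => (x : ℂ)) := by
  refine ⟨Complex.continuous_ofReal.continuousOn, 2, fun x hx => ?_⟩
  rw [Complex.norm_real, Real.norm_eq_abs, abs_of_pos hx.1]
  exact hx.2.le

/-- the functional calculus of `2 - R` -/
theorem fc_refl {R : H →L[ℂ] H} {Φ : (ℝ → ℂ) → (H →L[ℂ] H)} (h : IsFC R Φ) :
    IsFC ((2 : ℂ) • 1 - R) (fun f => Φ (fun x => f (2 - x))) where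
  add f g hf hg := h.add _ _ (bc_refl hf) (bc_refl hg)
  mul f g hf hg := h.mul _ _ (bc_refl hf) (bc_refl hg)
  smul c f hf := h.smul c _ (bc_refl hf)
  star_eq f hf := h.star_eq _ (bc_refl hf)
  one := h.one
  id := by
    have h1 : (fun x : ℝ => ((2 - x : ℝ) : ℂ)) = fun x : ℝ => (2 : ℂ) * 1 + (-1) * (x : ℂ) := by
      funext x; push_cast; ring
    have hb1 : BC (fun _ : ℝ => (2 : ℂ) * 1) := bc_const _
    have hb2 : BC (fun x : ℝ => (-1 : ℂ) * (x : ℂ)) := by
      obtain ⟨k1, C, k2⟩ := bc_idf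
      refine ⟨continuousOn_const.mul k1, C, fun x hx => ?_⟩
      rw [norm_mul, norm_neg, norm_one, one_mul]
      exact k2 x hx
    show Φ (fun x : ℝ => ((2 - x : ℝ) : ℂ)) = _
    rw [h1, h.add _ _ hb1 hb2, h.smul 2 _ (bc_const 1), h.smul (-1) _ bc_idf, h.one, h.id,
      neg_one_smul, sub_eq_add_neg]
  congr f g hf hfg := h.congr _ _ (bc_refl hf)
    (fun x hx => hfg (2 - x) ⟨by linarith [hx.2], by linarith [hx.1]⟩)
  norm f C hf hC hb := h.norm _ C (bc_refl hf) hC
    (fun x hx => hb (2 - x) ⟨by linarith [hx.2], by linarith [hx.1]⟩)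
  lim f g C hf hg hb hu v := by
    refine h.lim (fun n x => f n (2 - x)) (fun x => g (2 - x)) C (fun n => bc_refl (hf n))
      (bc_refl hg) (fun n x hx => hb n (2 - x) ⟨by linarith [hx.2], by linarith [hx.1]⟩) ?_ v
    intro a b ha hb
    have h1 := hu (2 - b) (2 - a) (by linarith) (by linarith)
    have h2 := h1.comp (fun x : ℝ => 2 - x)
    refine h2.mono ?_
    intro x hx
    exact ⟨by linarith [hx.2], by linarith [hx.1]⟩
  comm f hf S hS := by
    apply h.comm _ (bc_refl hf)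
    have h1 : S * ((2 : ℂ) • 1 - R) = (2 : ℂ) • S - S * R := by
      rw [mul_sub, mul_smul_comm, mul_one]
    have h2 : ((2 : ℂ) • 1 - R) * S = (2 : ℂ) • S - R * S := by
      rw [sub_mul, smul_mul_assoc, one_mul]
    rw [h1, h2] at hS
    exact sub_right_injective hS
  anti f hf D hadd hsmul hbd hD v := by
    have hD' : ∀ v : H, D (R v) = (2 : ℂ) • D v - R (D v) := by
      intro v
      have hz : D 0 = 0 := by
        have := hadd 0 0
        rw [add_zero] at this
        exact left_eq_add.1 this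
      have hneg : ∀ w : H, D (-w) = -D w := by
        intro w
        have := hsmul (-1) w
        rw [neg_one_smul] at this
        rw [this, map_neg, map_one, neg_one_smul]
      have h1 := hD v
      have e1 : (((2 : ℂ) • (1 : H →L[ℂ] H) - R) v) = (2 : ℂ) • v + -(R v) := by
        show (2 : ℂ) • v - R v = _
        rw [sub_eq_add_neg]
      have e2 : (((2 : ℂ) • (1 : H →L[ℂ] H) - R) (D v)) = (2 : ℂ) • D v - R (D v) := rfl
      rw [e1, hadd, hsmul, hneg, e2] at h1
      have e3 : (starRingEnd ℂ) (2 : ℂ) = 2 := map_ofNat _ 2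
      rw [e3] at h1
      have e4 : (2 : ℂ) • D v - ((2 : ℂ) • D v - R (D v)) = R (D v) := by abel
      rw [e4] at h1
      have e5 : D (R v) = (2 : ℂ) • D v - R (D v) := by
        rw [← h1]; abel
      exact e5
    have := h.anti (fun x => f (2 - x)) (bc_refl hf) D hadd hsmul hbd hD' v
    exact this

theorem tf_refl : (fun x => tf (2 - x)) = tf := by
  funext x
  unfold tf
  congr 2
  ring

theorem jj_refl {ξ : H} {D : H → H} {Φ : (ℝ → ℂ) → (H →L[ℂ] H)} {J : H → H}
    (h : IsJJ ξ D Φ J) : IsJJ ξ D (fun f => Φ (fun x => f (2 - x))) J where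
  add := h.add
  smul := h.smul
  inv := h.inv
  inner := h.inner
  fix := h.fix
  eq v := by
    show D v = J (Φ (fun x => tf (2 - x)) v)
    rw [tf_refl]; exact h.eq v
  eq' v := by
    show D v = Φ (fun x => tf (2 - x)) (J v)
    rw [tf_refl]; exact h.eq' v
  anti f hf v := h.anti (fun x => f (2 - x)) (bc_refl hf) v

end aux

theorem r (h1 : S_V1) (h4 : S_V4) (h5 : S_V5) (h6 : S_V6) (h9 : S_V9) (h10 : S_V10) : S_TT := by
  intro H _ _ _ M ξ hcyc hsep
  obtain ⟨R, D, hT, hT'⟩ := h1 H M ξ hcyc hsep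
  obtain ⟨Φ, hΦ⟩ := h4 H R hT.sa hT.pos hT.le hT.inj hT.inj'
  obtain ⟨J, hJ⟩ := h5 H M ξ R D Φ hT hΦ
  obtain ⟨u0, uadd, ustar, ucont, ufix, ubc⟩ := h6 H ξ R Φ hΦ hT.fix
  have hu0 : ∀ x, uf 0 x = 1 := by
    intro x; simp [uf]
  refine ⟨fun t => Φ (uf t), ⟨u0, uadd, ustar, ucont, ufix, ?_, ?_⟩⟩
  · intro t a ha
    have ha' : a ∈ M.commutant.commutant := by
      rw [VonNeumannAlgebra.commutant_commutant]; exact ha
    obtain ⟨b, hb, hb'⟩ := h9 H M.commutant ξ ((2 : ℂ) • 1 - R) D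
      (fun f => Φ (fun x => f (2 - x))) J (cyc_commutant hsep) (sep_commutant hcyc) hT'
      (fc_refl hΦ) (jj_refl hJ) a 0 ha'
    have hone : Φ (fun x => uf 0 (2 - x)) = 1 := by
      have : (fun x => uf 0 (2 - x)) = fun _ => (1 : ℂ) := funext fun x => hu0 _
      rw [this, hΦ.one]
    have hone' : Φ (fun x => uf (-0) (2 - x)) = 1 := by
      rw [neg_zero]; exact hone
    have hb2 : ∀ v, b v = J (a (J v)) := by
      intro v
      have := hb' v
      beta_reduce at this
      rw [hone, hone'] at this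
      exact this
    obtain ⟨c, hc, hc'⟩ := h9 H M ξ R D Φ J hcyc hsep hT hΦ hJ b t hb
    have : sgm (fun t => Φ (uf t)) t a = c := by
      ext v
      rw [hc', hb2, hJ.inv, hJ.inv]
      show (Φ (uf t) * a * star (Φ (uf t))) v = _
      rw [ustar]
      rfl
    rw [this]
    exact hc
  · intro a b ha hb
    obtain ⟨F, hF1, hF2, hF3, hF4⟩ := h10 H M ξ R D Φ J hT hΦ hJ a b ha hb
    refine ⟨F, hF1, hF2, hF3, fun t => ?_⟩
    obtain ⟨k1, k2⟩ := hF4 t
    rw [k1, k2]
    constructor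
    · show _ = ⟪ξ, (Φ (uf t) * a * star (Φ (uf t)) * b) ξ⟫_ℂ
      rw [ustar]
      have e1 : (Φ (uf t) * a * Φ (uf (-t)) * b) ξ = Φ (uf t) (a (Φ (uf (-t)) (b ξ))) := rfl
      have e2 : ⟪ξ, Φ (uf t) (a (Φ (uf (-t)) (b ξ)))⟫_ℂ =
          ⟪star (Φ (uf t)) ξ, a (Φ (uf (-t)) (b ξ))⟫_ℂ := by
        rw [ContinuousLinearMap.star_eq_adjoint, ContinuousLinearMap.adjoint_inner_left]
      have e3 : ⟪ξ, a (Φ (uf (-t)) (b ξ))⟫_ℂ = ⟪star a ξ, Φ (uf (-t)) (b ξ)⟫_ℂ := by
        rw [ContinuousLinearMap.star_eq_adjoint, ContinuousLinearMap.adjoint_inner_left]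
      rw [e1, e2, ustar, ufix, e3]
    · show _ = ⟪ξ, (b * (Φ (uf t) * a * star (Φ (uf t)))) ξ⟫_ℂ
      rw [ustar]
      have e1 : (b * (Φ (uf t) * a * Φ (uf (-t)))) ξ = b (Φ (uf t) (a (Φ (uf (-t)) ξ))) := rfl
      have e3 : ⟪ξ, b (Φ (uf t) (a ξ))⟫_ℂ = ⟪star b ξ, Φ (uf t) (a ξ)⟫_ℂ := by
        rw [ContinuousLinearMap.star_eq_adjoint, ContinuousLinearMap.adjoint_inner_left]
      rw [e1, ufix, e3]

end Pool.Agent.H255.BC.TT_TT
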