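import Pool.Agent.H255.BC.Defs4
import Pool.Graph.R_pool_sql_team_seeded_f72693b1.W797.CB.A8c

set_option autoImplicit false

open MeasureTheory Filter Topology Complex
open scoped InnerProductSpace ENNReal

namespace Pool.Agent.H255.BC.TT_TTu

open Pool.Agent.W662.CB Pool.Agent.H255.BC Pool.Agent.W797.CB

variable {H : Type} [NormedAddCommGroup H] [InnerProductSpace ℂ H] [CompleteSpace H]

/-- the pairing of analytic elements for two modular groups is constant -/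
theorem pairing (h2 : S_A2) (M : VonNeumannAlgebra H) (ξ : H) (U U' : ℝ → H →L[ℂ] H)
    (hU : IsModular M ξ U) (hU' : IsModular M ξ U') (F G : ℂ → H →L[ℂ] H)
    (hF : IsAn M U' F) (hG : IsAn M U G) (t : ℝ) :
    ⟪G t ξ, F t ξ⟫_ℂ = ⟪G 0 ξ, F 0 ξ⟫_ℂ := by
  set Φ : ℂ → ℂ := fun z => ⟪G (starRingEnd ℂ z) ξ, F z ξ⟫_ℂ with hΦ
  have hG' := isAn_adjF hG
  have hdiff : Differentiable ℂ Φ := hasDeriv_inner (hG.diff ξ) (hF.diff ξ)
  have hΦ' : ∀ z, Φ z = vst ξ (adjF G z * F z) := by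
    intro z
    simp only [hΦ]
    unfold vst adjF
    rw [ContinuousLinearMap.mul_apply, ContinuousLinearMap.star_eq_adjoint,
      ContinuousLinearMap.adjoint_inner_right]
  have hper : ∀ z, Φ (z - I) = Φ z := by
    intro z
    have m1 := hG'.mem (z - I)
    rw [hΦ', hΦ']
    rw [← h2 H M ξ U' hU' F hF z _ m1]
    rw [← h2 H M ξ U hU _ hG' z _ (hF.mem z)]
  have hper' : Function.Periodic Φ I := by
    intro z
    have := hper (z + I)
    rw [add_sub_cancel_right] at this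
    exact this.symm
  obtain ⟨C1, hC1⟩ := hG.bdd 1
  obtain ⟨C2, hC2⟩ := hF.bdd 1
  have hb : Bornology.IsBounded (Set.range Φ) := by
    rw [isBounded_iff_forall_norm_le]
    refine ⟨(C1 * ‖ξ‖) * (C2 * ‖ξ‖), ?_⟩
    rintro _ ⟨z, rfl⟩
    have h3 : Φ z = Φ (z + ((-⌊z.im⌋ : ℤ) : ℂ) * I) := ((hper'.int_mul (-⌊z.im⌋)) z).symm
    rw [h3]
    set w := z + ((-⌊z.im⌋ : ℤ) : ℂ) * I with hw
    have him : w.im = Int.fract z.im := by
      rw [hw, Complex.add_im, Complex.mul_im, Complex.I_im, Complex.I_re, Complex.intCast_re,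
        Complex.intCast_im, mul_one, mul_zero, add_zero, Int.cast_neg, ← Int.self_sub_floor]
      ring
    have hwb : |w.im| ≤ 1 := by
      rw [him, abs_of_nonneg (Int.fract_nonneg _)]
      exact (Int.fract_lt_one _).le
    have hwb' : |(starRingEnd ℂ w).im| ≤ 1 := by
      rw [Complex.conj_im, abs_neg]
      exact hwb
    have g1 : ‖G (starRingEnd ℂ w) ξ‖ ≤ C1 * ‖ξ‖ :=
      (ContinuousLinearMap.le_opNorm _ _).trans
        (mul_le_mul_of_nonneg_right (hC1 _ hwb') (norm_nonneg _))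
    have g2 : ‖F w ξ‖ ≤ C2 * ‖ξ‖ :=
      (ContinuousLinearMap.le_opNorm _ _).trans
        (mul_le_mul_of_nonneg_right (hC2 _ hwb) (norm_nonneg _))
    calc ‖Φ w‖ ≤ ‖G (starRingEnd ℂ w) ξ‖ * ‖F w ξ‖ := norm_inner_le_norm _ _
      _ ≤ (C1 * ‖ξ‖) * (C2 * ‖ξ‖) :=
        mul_le_mul g1 g2 (norm_nonneg _) ((norm_nonneg _).trans g1)
  have hfin := hdiff.apply_eq_apply_of_bounded hb (t : ℂ) 0
  simp only [hΦ] at hfin
  rw [Complex.conj_ofReal, map_zero] at hfin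
  exact hfin

theorem r (h2 : S_A2) (h8 : S_A8a) : S_TTu := by
  intro H _ _ _ M ξ U U' hcyc hmod hmod'
  have hsξ : ∀ (V : ℝ → H →L[ℂ] H), IsModular M ξ V → ∀ (s : ℝ) (y : H →L[ℂ] H),
      sgm V s y ξ = V s (y ξ) := by
    intro V hV s y
    have h1 : sgm V s y ξ = V s (y (star (V s) ξ)) := rfl
    rw [h1, hV.star_eq, hV.fix]
  have hFξ : ∀ (V : ℝ → H →L[ℂ] H), IsModular M ξ V → ∀ F : ℂ → H →L[ℂ] H, IsAn M V F →
      ∀ s : ℝ, F s ξ = V s (F 0 ξ) := by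
    intro V hV F hF s
    rw [hF.ext s, hsξ V hV]
  have key : ∀ F G : ℂ → H →L[ℂ] H, IsAn M U' F → IsAn M U G → ∀ s : ℝ,
      ⟪U s (G 0 ξ), U' s (F 0 ξ)⟫_ℂ = ⟪G 0 ξ, F 0 ξ⟫_ℂ := by
    intro F G hF hG s
    rw [← hFξ U' hmod' F hF s, ← hFξ U hmod G hG s]
    exact pairing h2 M ξ U U' hmod hmod' F G hF hG s
  have key2 : ∀ a b : H →L[ℂ] H, a ∈ M → b ∈ M → ∀ s : ℝ,
      ⟪U s (b ξ), U' s (a ξ)⟫_ℂ = ⟪b ξ, a ξ⟫_ℂ := by
    intro a b ha hb s
    obtain ⟨F, hF, hFt⟩ := h8 H M ξ U' hmod' a ha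
    obtain ⟨G, hG, hGt⟩ := h8 H M ξ U hmod b hb
    have hFt' := hFt ξ
    have hGt' := hGt ξ
    have l1 : Tendsto (fun n => ⟪U s (G n 0 ξ), U' s (F n 0 ξ)⟫_ℂ) atTop
        (𝓝 ⟪U s (b ξ), U' s (a ξ)⟫_ℂ) := by
      refine Tendsto.inner ?_ ?_
      · exact ((U s).continuous.tendsto _).comp hGt'
      · exact ((U' s).continuous.tendsto _).comp hFt'
    have l2 : Tendsto (fun n => ⟪G n 0 ξ, F n 0 ξ⟫_ℂ) atTop
        (𝓝 ⟪b ξ, a ξ⟫_ℂ) := by
      refine Tendsto.inner hGt' hFt'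
    have l3 : (fun n => ⟪U s (G n 0 ξ), U' s (F n 0 ξ)⟫_ℂ)
        = fun n => ⟪G n 0 ξ, F n 0 ξ⟫_ℂ := by
      funext n
      exact key (F n) (G n) (hF n) (hG n) s
    rw [l3] at l1
    exact tendsto_nhds_unique l1 l2
  have key3 : ∀ (v w : H) (s : ℝ), ⟪U s w, U' s v⟫_ℂ = ⟪w, v⟫_ℂ := by
    intro v w s
    have h1 : ∀ b : H →L[ℂ] H, b ∈ M → ∀ v : H, ⟪U s (b ξ), U' s v⟫_ℂ = ⟪b ξ, v⟫_ℂ := by
      intro b hb v
      have h2 : (fun v : H => ⟪U s (b ξ), U' s v⟫_ℂ) = fun v : H => ⟪b ξ, v⟫_ℂ := by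
        refine Continuous.ext_on hcyc ?_ ?_ ?_
        · exact continuous_const.inner (U' s).continuous
        · exact continuous_const.inner continuous_id
        · rintro u ⟨a, ha, rfl⟩
          exact key2 a b ha hb s
      exact congrFun h2 v
    have h2 : (fun w : H => ⟪U s w, U' s v⟫_ℂ) = fun w : H => ⟪w, v⟫_ℂ := by
      refine Continuous.ext_on hcyc ?_ ?_ ?_
      · exact (U s).continuous.inner continuous_const
      · exact continuous_id.inner continuous_const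
      · rintro u ⟨b, hb, rfl⟩
        exact h1 b hb v
    exact congrFun h2 w
  have hUU : ∀ s : ℝ, U s * star (U s) = 1 := by
    intro s
    rw [hmod.star_eq, ← hmod.add, add_neg_cancel, hmod.zero]
  funext s
  ext v
  refine ext_inner_left ℂ ?_
  intro u
  have h1 : U s (star (U s) u) = u := by
    have := congrArg (fun T : H →L[ℂ] H => T u) (hUU s)
    simpa using this
  calc ⟪u, U s v⟫_ℂ = ⟪star (U s) u, v⟫_ℂ := by
        rw [ContinuousLinearMap.star_eq_adjoint, ContinuousLinearMap.adjoint_inner_left]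
    _ = ⟪U s (star (U s) u), U' s v⟫_ℂ := (key3 _ _ _).symm
    _ = ⟪u, U' s v⟫_ℂ := by rw [h1]

end Pool.Agent.H255.BC.TT_TTu
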