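import Pool.Agent.H255.BC.Defs4

set_option autoImplicit false

open MeasureTheory Filter Topology Complex
open scoped InnerProductSpace ENNReal

namespace Pool.Agent.H255.BC.TT_V1

open Pool.Agent.W662.CB Pool.Agent.H255.BC

variable {H : Type} [NormedAddCommGroup H] [InnerProductSpace ℂ H] [CompleteSpace H]

/-- real orthogonal projection onto `K` -/
structure RP (K : Set H) (P : H → H) : Prop where
  mem : ∀ v, P v ∈ K
  fixed : ∀ k ∈ K, P k = k
  add : ∀ v w, P (v + w) = P v + P w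
  smul : ∀ (r : ℝ) (v : H), P ((r : ℂ) • v) = (r : ℂ) • P v
  symm : ∀ v w, (⟪P v, w⟫_ℂ).re = (⟪v, P w⟫_ℂ).re
  norm : ∀ v, ‖P v‖ ≤ ‖v‖

theorem exists_rp (S : Submodule ℝ H) (hS : IsClosed (S : Set H)) :
    ∃ P : H → H, RP (S : Set H) P := by
  let _ : InnerProductSpace ℝ H := InnerProductSpace.rclikeToReal ℂ H
  have : CompleteSpace S := hS.completeSpace_coe
  refine ⟨fun v => S.starProjection v, ?_, ?_, ?_, ?_, ?_, ?_⟩
  · intro v
    exact S.starProjection_apply_mem v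
  · intro k hk
    exact Submodule.starProjection_eq_self_iff.mpr hk
  · intro v w
    exact map_add _ v w
  · intro r v
    have h := map_smul S.starProjection r v
    rw [Complex.coe_smul, Complex.coe_smul]
    exact h
  · intro v w
    exact S.inner_starProjection_left_eq_right v w
  · intro v
    exact S.norm_starProjection_apply_le v

/-- `M_sa ξ` -/
def saSub (N : VonNeumannAlgebra H) (ξ : H) : Submodule ℝ H where
  carrier := {v | ∃ a : H →L[ℂ] H, a ∈ N ∧ star a = a ∧ a ξ = v}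
  add_mem' := by
    rintro _ _ ⟨a, ha, ha', rfl⟩ ⟨b, hb, hb', rfl⟩
    exact ⟨a + b, add_mem ha hb, by rw [star_add, ha', hb'], rfl⟩
  zero_mem' := ⟨0, zero_mem _, star_zero _, rfl⟩
  smul_mem' := by
    rintro r _ ⟨a, ha, ha', rfl⟩
    refine ⟨(r : ℂ) • a, ?_, ?_, ?_⟩
    · exact N.toStarSubalgebra.toSubalgebra.smul_mem ha (r : ℂ)
    · rw [star_smul, ha', Complex.star_def, Complex.conj_ofReal]
    · rw [_root_.smul_apply, Complex.coe_smul]

theorem vsmul_mem (N : VonNeumannAlgebra H) (c : ℂ) {a : H →L[ℂ] H} (ha : a ∈ N) : c • a ∈ N :=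
  N.toStarSubalgebra.toSubalgebra.smul_mem ha c

theorem ss (N : VonNeumannAlgebra H) {a : H →L[ℂ] H} (ha : a ∈ N) : star a ∈ N :=
  star_mem ha

theorem dec (a : H →L[ℂ] H) :
    a = (1 / 2 : ℂ) • (a + star a) + I • ((-I / 2 : ℂ) • (a - star a)) := by
  rw [smul_smul]
  have h : I * (-I / 2) = 1 / 2 := by
    rw [mul_div_assoc', mul_neg, I_mul_I, neg_neg]
  rw [h, ← smul_add]
  have h2 : a + star a + (a - star a) = (2 : ℂ) • a := by
    rw [two_smul]; abel
  rw [h2, smul_smul]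
  norm_num

theorem dec_mem (N : VonNeumannAlgebra H) {a : H →L[ℂ] H} (ha : a ∈ N) :
    ∃ b c : H →L[ℂ] H, b ∈ N ∧ star b = b ∧ c ∈ N ∧ star c = c ∧ a = b + I • c ∧
      star a = b - I • c := by
  refine ⟨(1 / 2 : ℂ) • (a + star a), (-I / 2 : ℂ) • (a - star a),
    vsmul_mem N _ (add_mem ha (ss N ha)), ?_, vsmul_mem N _ (sub_mem ha (ss N ha)), ?_, dec a, ?_⟩
  · rw [star_smul, star_add, star_star, add_comm (star a) a]
    congr 1
    simp
  · rw [star_smul, star_sub, star_star, ← neg_sub a (star a), smul_neg, ← neg_smul]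
    congr 1
    simp
    ring
  · have h : I * (-I / 2) = 1 / 2 := by
      rw [mul_div_assoc', mul_neg, I_mul_I, neg_neg]
    rw [smul_smul, h, ← smul_sub]
    have h2 : a + star a - (a - star a) = (2 : ℂ) • star a := by
      rw [two_smul]; abel
    rw [h2, smul_smul]
    norm_num

theorem comm_mem {N : VonNeumannAlgebra H} {a b : H →L[ℂ] H} (ha : a ∈ N)
    (hb : b ∈ N.commutant) (v : H) : a (b v) = b (a v) := by
  have h := VonNeumannAlgebra.mem_commutant_iff.mp hb a ha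
  exact congrArg (fun T : H →L[ℂ] H => T v) h

theorem inner_star (a : H →L[ℂ] H) (v w : H) : ⟪star a v, w⟫_ℂ = ⟪v, a w⟫_ℂ := by
  rw [ContinuousLinearMap.star_eq_adjoint, ContinuousLinearMap.adjoint_inner_left]

theorem inner_star' (a : H →L[ℂ] H) (v w : H) : ⟪a v, w⟫_ℂ = ⟪v, star a w⟫_ℂ := by
  rw [ContinuousLinearMap.star_eq_adjoint, ContinuousLinearMap.adjoint_inner_right]

theorem inner_sa {a : H →L[ℂ] H} (ha : star a = a) (v w : H) : ⟪a v, w⟫_ℂ = ⟪v, a w⟫_ℂ := by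
  rw [inner_star', ha]

theorem im_zero_of {z : ℂ} (h : starRingEnd ℂ z = z) : z.im = 0 :=
  Complex.conj_eq_iff_im.mp h

/-- `⟪aξ, bξ⟫` is real -/
theorem real_inner {N : VonNeumannAlgebra H} (ξ : H) {a b : H →L[ℂ] H} (ha : a ∈ N)
    (hb : b ∈ N.commutant) (ha' : star a = a) (hb' : star b = b) :
    (⟪a ξ, b ξ⟫_ℂ).im = 0 := by
  apply im_zero_of
  rw [inner_conj_symm, inner_sa hb', inner_sa ha', comm_mem ha hb]

/-- `K = closure (M_sa ξ)` -/
def KK (N : VonNeumannAlgebra H) (ξ : H) : Set H := closure (saSub N ξ : Set H)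

theorem sa_mem_KK {N : VonNeumannAlgebra H} (ξ : H) {a : H →L[ℂ] H} (ha : a ∈ N)
    (ha' : star a = a) : a ξ ∈ KK N ξ := subset_closure ⟨a, ha, ha', rfl⟩

theorem exists_KK (N : VonNeumannAlgebra H) (ξ : H) : ∃ P : H → H, RP (KK N ξ) P := by
  have h := exists_rp (saSub N ξ).topologicalClosure (saSub N ξ).isClosed_topologicalClosure
  rw [Submodule.topologicalClosure_coe] at h
  exact h

theorem RP.zero {K : Set H} {P : H → H} (h : RP K P) : P 0 = 0 := by
  have := h.smul 0 0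
  simpa using this

theorem RP.neg {K : Set H} {P : H → H} (h : RP K P) (v : H) : P (-v) = -P v := by
  have := h.smul (-1) v
  simpa using this

theorem RP.sub {K : Set H} {P : H → H} (h : RP K P) (v w : H) : P (v - w) = P v - P w := by
  rw [sub_eq_add_neg, h.add, h.neg, sub_eq_add_neg]

theorem II (v : H) : I • I • v = -v := by
  rw [smul_smul, I_mul_I, neg_one_smul]

/-- `R` as an operator -/
theorem exists_R {K : Set H} {P : H → H} (h : RP K P) :
    ∃ R : H →L[ℂ] H, ∀ v, R v = P v - I • P (I • v) := by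
  have hI : ∀ v : H, P (I • I • v) = -P v := fun v => by rw [II, h.neg]
  let L : H →ₗ[ℂ] H :=
    { toFun := fun v => P v - I • P (I • v)
      map_add' := fun v w => by
        rw [smul_add, h.add, h.add, smul_add]; abel
      map_smul' := fun c v => by
        have hc : ∀ w : H, c • w = ((c.re : ℝ) : ℂ) • w + ((c.im : ℝ) : ℂ) • (I • w) := fun w => by
          conv_lhs => rw [← Complex.re_add_im c]
          rw [add_smul, mul_smul]
        rw [RingHom.id_apply]
        have h1 : P (c • v) = ((c.re : ℝ) : ℂ) • P v + ((c.im : ℝ) : ℂ) • P (I • v) := by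
          rw [hc v, h.add, h.smul, h.smul]
        have h2 : P (I • c • v) = ((c.re : ℝ) : ℂ) • P (I • v) - ((c.im : ℝ) : ℂ) • P v := by
          rw [smul_comm I c v, hc (I • v), h.add, h.smul, h.smul, hI, smul_neg, sub_eq_add_neg]
        rw [h1, h2, hc (P v - I • P (I • v))]
        simp only [smul_sub, II]
        rw [smul_comm I ((c.re : ℝ) : ℂ), smul_comm I ((c.im : ℝ) : ℂ)]
        simp only [smul_neg]
        abel }
  refine ⟨L.mkContinuous 2 fun v => ?_, fun v => rfl⟩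
  have h1 : ‖L v‖ = ‖P v - I • P (I • v)‖ := rfl
  rw [h1]
  calc ‖P v - I • P (I • v)‖ ≤ ‖P v‖ + ‖I • P (I • v)‖ := norm_sub_le _ _
    _ = ‖P v‖ + ‖P (I • v)‖ := by rw [norm_smul, norm_I, one_mul]
    _ ≤ ‖v‖ + ‖I • v‖ := add_le_add (h.norm _) (h.norm _)
    _ = 2 * ‖v‖ := by rw [norm_smul, norm_I, one_mul, two_mul]

theorem inner_I_left (v w : H) : ⟪I • v, w⟫_ℂ = -⟪v, I • w⟫_ℂ := by
  rw [inner_smul_left, inner_smul_right, conj_I, neg_mul]

theorem re_inner_I_left (v w : H) : (⟪I • v, w⟫_ℂ).re = -(⟪v, I • w⟫_ℂ).re := by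
  rw [inner_I_left, neg_re]

theorem re_inner_I_right (v w : H) : (⟪v, I • w⟫_ℂ).re = -(⟪v, w⟫_ℂ).im := by
  rw [inner_smul_right]; simp

theorem im_inner_I_right (v w : H) : (⟪v, I • w⟫_ℂ).im = (⟪v, w⟫_ℂ).re := by
  rw [inner_smul_right]; simp

theorem KK_induct {N : VonNeumannAlgebra H} {ξ : H} {f : H → ℝ} (hf : Continuous f)
    (h : ∀ a : H →L[ℂ] H, a ∈ N → star a = a → f (a ξ) = 0) : ∀ k ∈ KK N ξ, f k = 0 := by
  intro k hk
  have hc : IsClosed {v : H | f v = 0} := isClosed_eq hf continuous_const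
  have hsub : (saSub N ξ : Set H) ⊆ {v : H | f v = 0} := by
    rintro _ ⟨a, ha, ha', rfl⟩
    exact h a ha ha'
  exact closure_minimal hsub hc hk

theorem eq_zero_of_cyclic {N : VonNeumannAlgebra H} {ξ : H} (hc : IsCyclic N ξ) {v : H}
    (h : ∀ a : H →L[ℂ] H, a ∈ N → ⟪v, a ξ⟫_ℂ = 0) : v = 0 := by
  have hcl : IsClosed {w : H | ⟪v, w⟫_ℂ = 0} :=
    isClosed_eq (continuous_const.inner continuous_id) continuous_const
  have hsub : {w : H | ∃ x : H →L[ℂ] H, x ∈ N ∧ x ξ = w} ⊆ {w : H | ⟪v, w⟫_ℂ = 0} := by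
    rintro _ ⟨a, ha, rfl⟩
    exact h a ha
  have h2 := closure_minimal hsub hcl (hc v)
  exact inner_self_eq_zero.mp h2

theorem eq_zero_of_cyclic_sa {N : VonNeumannAlgebra H} {ξ : H} (hc : IsCyclic N ξ) {v : H}
    (h : ∀ a : H →L[ℂ] H, a ∈ N → star a = a → ⟪v, a ξ⟫_ℂ = 0) : v = 0 := by
  refine eq_zero_of_cyclic hc fun a ha => ?_
  obtain ⟨b, c, hb, hb', hc1, hc', hab, _⟩ := dec_mem N ha
  rw [hab, _root_.add_apply, _root_.smul_apply, inner_add_right, inner_smul_right,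
    h b hb hb', h c hc1 hc']
  simp

section TT

variable {K : Set H} {P : H → H}

theorem RP.idem (h : RP K P) (v : H) : P (P v) = P v := h.fixed _ (h.mem v)

theorem RP.re_inner_self (h : RP K P) (v : H) : (⟪v, P v⟫_ℂ).re = ‖P v‖ ^ 2 := by
  rw [← h.idem v, ← h.symm, h.idem]
  exact inner_self_eq_norm_sq (𝕜 := ℂ) (P v)

theorem RP.eq_of_norm (h : RP K P) (v : H) (hv : ‖v‖ ^ 2 ≤ ‖P v‖ ^ 2) : P v = v := by
  have h1 : ‖v - P v‖ ^ 2 = ‖v‖ ^ 2 - 2 * (⟪v, P v⟫_ℂ).re + ‖P v‖ ^ 2 :=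
    norm_sub_sq (𝕜 := ℂ) v (P v)
  rw [h.re_inner_self] at h1
  have h2 : ‖v - P v‖ ^ 2 ≤ 0 := by linarith
  have h3 : ‖v - P v‖ = 0 := by
    have := sq_nonneg ‖v - P v‖
    exact pow_eq_zero_iff (two_ne_zero) |>.mp (le_antisymm h2 this)
  exact (sub_eq_zero.mp (norm_eq_zero.mp h3)).symm

theorem Rsymm (h : RP K P) {R : H →L[ℂ] H} (hR : ∀ v, R v = P v - I • P (I • v)) (v w : H) :
    ⟪R v, w⟫_ℂ = ⟪v, R w⟫_ℂ := by
  have hre : ∀ v w, (⟪R v, w⟫_ℂ).re = (⟪v, R w⟫_ℂ).re := by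
    intro v w
    rw [hR, hR, inner_sub_left, inner_sub_right, sub_re, sub_re, h.symm v w, re_inner_I_left,
      h.symm (I • v), re_inner_I_left, neg_neg]
  apply Complex.ext (hre v w)
  have h2 := hre v (I • w)
  rw [map_smul, re_inner_I_right, re_inner_I_right] at h2
  linarith

theorem Dsymm (h : RP K P) {D : H → H} (hD : ∀ v, D v = P v + I • P (I • v)) (v w : H) :
    ⟪D v, w⟫_ℂ = ⟪D w, v⟫_ℂ := by
  have hre : ∀ v w, (⟪D v, w⟫_ℂ).re = (⟪D w, v⟫_ℂ).re := by
    intro v w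
    have e1 : (⟪D w, v⟫_ℂ).re = (⟪v, D w⟫_ℂ).re := by
      rw [← inner_conj_symm, conj_re]
    rw [e1, hD, hD, inner_add_left, inner_add_right, add_re, add_re, h.symm v w, re_inner_I_left,
      h.symm (I • v), re_inner_I_left, neg_neg]
  apply Complex.ext (hre v w)
  have h2 := hre v (I • w)
  have h3 : D (I • w) = -(I • D w) := by
    rw [hD, hD, II, h.neg, smul_neg, smul_add, II]; abel
  rw [h3, inner_neg_left, inner_I_left, neg_neg, re_inner_I_right, re_inner_I_right] at h2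
  linarith

theorem Dadd (h : RP K P) {D : H → H} (hD : ∀ v, D v = P v + I • P (I • v)) (v w : H) :
    D (v + w) = D v + D w := by
  rw [hD, hD, hD, smul_add, h.add, h.add, smul_add]; abel

theorem Dsmul (h : RP K P) {D : H → H} (hD : ∀ v, D v = P v + I • P (I • v)) (c : ℂ) (v : H) :
    D (c • v) = (starRingEnd ℂ c) • D v := by
  have h3 : D (I • v) = -(I • D v) := by
    rw [hD, hD, II, h.neg, smul_neg, smul_add, II]; abel
  have h4 : ∀ (r : ℝ) (w : H), D ((r : ℂ) • w) = (r : ℂ) • D w := by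
    intro r w
    rw [hD, hD, smul_comm I (r : ℂ) w, h.smul, h.smul, smul_add, smul_comm I (r : ℂ)]
  have hc : ∀ w : H, c • w = ((c.re : ℝ) : ℂ) • w + ((c.im : ℝ) : ℂ) • (I • w) := fun w => by
    conv_lhs => rw [← Complex.re_add_im c]
    rw [add_smul, mul_smul]
  have hc' : ∀ w : H, (starRingEnd ℂ c) • w =
      ((c.re : ℝ) : ℂ) • w - ((c.im : ℝ) : ℂ) • (I • w) := fun w => by
    have e : (starRingEnd ℂ c) = ((c.re : ℝ) : ℂ) - ((c.im : ℝ) : ℂ) * I := by
      apply Complex.ext <;> simp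
    conv_lhs => rw [e]
    rw [sub_smul, mul_smul]
  rw [hc v, Dadd h hD, h4, h4, h3, hc', smul_neg, sub_eq_add_neg]

end TT

/-- the first part of the geometry -/
theorem isTT_of {N : VonNeumannAlgebra H} {ξ : H} (hc : IsCyclic N ξ)
    (hc' : IsCyclic N.commutant ξ) {P : H → H} (h : RP (KK N ξ) P) {R : H →L[ℂ] H} {D : H → H}
    (hR : ∀ v, R v = P v - I • P (I • v)) (hD : ∀ v, D v = P v + I • P (I • v)) :
    IsTT N ξ R D := by
  have hξ : P ξ = ξ := by
    apply h.fixed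
    have := sa_mem_KK (N := N) ξ (a := 1) (one_mem N) (star_one _)
    simpa using this
  have hre : ∀ v, (⟪v, R v⟫_ℂ).re = ‖P v‖ ^ 2 + ‖P (I • v)‖ ^ 2 := by
    intro v
    rw [hR, inner_sub_right, sub_re, h.re_inner_self, ← h.re_inner_self (I • v), re_inner_I_left]
    ring
  have hPI : P (I • ξ) = 0 := by
    have h1 : ∀ k ∈ KK N ξ, (⟪I • ξ, k⟫_ℂ).re = 0 := by
      apply KK_induct (f := fun k => (⟪I • ξ, k⟫_ℂ).re)
      · exact Complex.continuous_re.comp (continuous_const.inner continuous_id)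
      · intro a ha ha'
        rw [re_inner_I_left, re_inner_I_right, neg_neg]
        apply im_zero_of
        rw [inner_conj_symm, inner_sa ha']
    have h2 := h1 _ (h.mem (I • ξ))
    rw [h.re_inner_self] at h2
    exact norm_eq_zero.mp (pow_eq_zero_iff two_ne_zero |>.mp h2)
  have hRξ : R ξ = ξ := by rw [hR, hξ, hPI, smul_zero, sub_zero]
  have hDξ : D ξ = ξ := by rw [hD, hξ, hPI, smul_zero, add_zero]
  have hnI : ∀ v : H, ‖I • v‖ = ‖v‖ := fun v => by rw [norm_smul, norm_I, one_mul]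
  constructor
  · -- sa
    have : IsSelfAdjoint R := by
      rw [ContinuousLinearMap.isSelfAdjoint_iff_isSymmetric]
      intro v w
      exact Rsymm h hR v w
    exact this
  · intro v
    rw [hre]; positivity
  · intro v
    rw [hre]
    have h1 := h.norm v
    have h2 := h.norm (I • v)
    rw [hnI] at h2
    have h3 : ‖P v‖ ^ 2 ≤ ‖v‖ ^ 2 := pow_le_pow_left₀ (norm_nonneg _) h1 2
    have h4 : ‖P (I • v)‖ ^ 2 ≤ ‖v‖ ^ 2 := pow_le_pow_left₀ (norm_nonneg _) h2 2
    linarith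
  · -- inj
    intro v hv
    have h1 := hre v
    rw [hv, inner_zero_right, zero_re] at h1
    have h2 : ‖P v‖ ^ 2 = 0 := by nlinarith [sq_nonneg ‖P v‖, sq_nonneg ‖P (I • v)‖]
    have h3 : ‖P (I • v)‖ ^ 2 = 0 := by nlinarith [sq_nonneg ‖P v‖, sq_nonneg ‖P (I • v)‖]
    have h4 : P v = 0 := norm_eq_zero.mp (pow_eq_zero_iff two_ne_zero |>.mp h2)
    have h5 : P (I • v) = 0 := norm_eq_zero.mp (pow_eq_zero_iff two_ne_zero |>.mp h3)
    apply eq_zero_of_cyclic_sa hc
    intro a ha ha'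
    have hk := sa_mem_KK ξ ha ha'
    have e1 : (⟪v, a ξ⟫_ℂ).re = 0 := by
      have := h.symm v (a ξ)
      rw [h4, inner_zero_left, h.fixed _ hk] at this
      rw [← this, zero_re]
    have e2 : (⟪v, a ξ⟫_ℂ).im = 0 := by
      have := h.symm (I • v) (a ξ)
      rw [h5, inner_zero_left, h.fixed _ hk, re_inner_I_left, re_inner_I_right, neg_neg] at this
      rw [← this, zero_re]
    exact Complex.ext e1 e2
  · -- inj'
    intro v hv
    have h1 := hre v
    have h0 : (⟪v, R v⟫_ℂ).re = 2 * ‖v‖ ^ 2 := by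
      have e : (⟪v, v⟫_ℂ).re = ‖v‖ ^ 2 := inner_self_eq_norm_sq (𝕜 := ℂ) v
      rw [hv, inner_smul_right, ← e]
      simp
    rw [h0] at h1
    have n1 := h.norm v
    have n2 := h.norm (I • v)
    rw [hnI] at n2
    have h3 : ‖P v‖ ^ 2 ≤ ‖v‖ ^ 2 := pow_le_pow_left₀ (norm_nonneg _) n1 2
    have h4 : ‖P (I • v)‖ ^ 2 ≤ ‖v‖ ^ 2 := pow_le_pow_left₀ (norm_nonneg _) n2 2
    have h5 : P v = v := h.eq_of_norm v (by linarith)
    have h6 : P (I • v) = I • v := h.eq_of_norm (I • v) (by rw [hnI]; linarith)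
    have hv1 : v ∈ KK N ξ := by rw [← h5]; exact h.mem v
    have hv2 : I • v ∈ KK N ξ := by rw [← h6]; exact h.mem _
    apply eq_zero_of_cyclic_sa hc'
    intro b hb hb'
    have key : ∀ k ∈ KK N ξ, (⟪k, b ξ⟫_ℂ).im = 0 := by
      apply KK_induct (f := fun k => (⟪k, b ξ⟫_ℂ).im)
      · exact Complex.continuous_im.comp (continuous_id.inner continuous_const)
      · intro a ha ha'
        exact real_inner ξ ha hb ha' hb'
    have e1 := key v hv1
    have e2 := key _ hv2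
    rw [inner_I_left, neg_im, im_inner_I_right] at e2
    exact Complex.ext (by rw [zero_re]; linarith) e1
  · exact Dadd h hD
  · exact Dsmul h hD
  · -- sq
    intro v
    rw [map_sub, map_smul]
    have e1 : I • D v = I • P v - P (I • v) := by
      rw [hD, smul_add, II, sub_eq_add_neg]
    have e2 : I • R v = I • P v + P (I • v) := by
      rw [hR, smul_sub, II, sub_neg_eq_add]
    have e3 : D (D v) = P v + P (I • P (I • v)) + I • P (I • P v) - I • P (I • v) := by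
      rw [hD (D v), e1]
      rw [hD v, h.add, h.sub, h.idem, h.idem, smul_sub]; abel
    have e4 : R (R v) = P v - P (I • P (I • v)) - I • P (I • P v) - I • P (I • v) := by
      rw [hR (R v), e2]
      rw [hR v, h.sub, h.add, h.idem, h.idem, smul_add]; abel
    rw [e3, e4, hR v, two_smul]; abel
  · -- comm
    intro v
    have e1 : I • D v = I • P v - P (I • v) := by
      rw [hD, smul_add, II, sub_eq_add_neg]
    have e2 : I • R v = I • P v + P (I • v) := by
      rw [hR, smul_sub, II, sub_neg_eq_add]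
    have e3 : D (R v) = P v - P (I • P (I • v)) + I • P (I • P v) + I • P (I • v) := by
      rw [hD (R v), e2]
      rw [hR v, h.sub, h.add, h.idem, h.idem, smul_add]; abel
    have e4 : R (D v) = P v + P (I • P (I • v)) - I • P (I • P v) + I • P (I • v) := by
      rw [hR (D v), e1]
      rw [hD v, h.add, h.sub, h.idem, h.idem, smul_sub]; abel
    rw [e3, e4, hD v, two_smul]; abel
  · exact Dsymm h hD
  · exact hRξ
  · exact hDξ
  · -- app
    have key : ∀ b : H →L[ℂ] H, b ∈ N → star b = b → D (b ξ) = (2 : ℂ) • b ξ - R (b ξ) := by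
      intro b hb hb'
      rw [hD, hR, h.fixed _ (sa_mem_KK ξ hb hb'), two_smul]; abel
    intro z hz
    obtain ⟨b, c, hb, hb', hc1, hc2, hz1, hz2⟩ := dec_mem N hz
    rw [hz2, hz1, _root_.add_apply, _root_.smul_apply, Dadd h hD, Dsmul h hD, key b hb hb',
      key c hc1 hc2, _root_.sub_apply, _root_.smul_apply, map_sub, map_smul, conj_I]
    module
  · -- approx
    intro u
    obtain ⟨x, hx1, hx2⟩ := mem_closure_iff_seq_limit.mp (h.mem u)
    obtain ⟨y, hy1, hy2⟩ := mem_closure_iff_seq_limit.mp (h.mem (I • u))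
    choose a ha using hx1
    choose b hb using hy1
    refine ⟨fun n => a n + I • b n, fun n => add_mem (ha n).1 (vsmul_mem N _ (hb n).1), ?_, ?_⟩
    · have e : (fun n => star (a n + I • b n) ξ) = fun n => x n - I • y n := by
        funext n
        rw [star_add, star_smul, (ha n).2.1, (hb n).2.1, _root_.add_apply, _root_.smul_apply,
          (ha n).2.2, (hb n).2.2, Complex.star_def, conj_I, neg_smul, sub_eq_add_neg]
      rw [e, hR]
      exact hx2.sub (hy2.const_smul I)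
    · have e : (fun n => (a n + I • b n) ξ) = fun n => x n + I • y n := by
        funext n
        rw [_root_.add_apply, _root_.smul_apply, (ha n).2.2, (hb n).2.2]
      rw [e, hD]
      exact hx2.add (hy2.const_smul I)

theorem proj_comm {E : Type} [NormedAddCommGroup E] [InnerProductSpace ℂ E]
    (G : Submodule ℂ E) [G.HasOrthogonalProjection] (b bs : E →L[ℂ] E)
    (hadj : ∀ x y, ⟪bs x, y⟫_ℂ = ⟪x, b y⟫_ℂ) (h1 : ∀ g ∈ G, b g ∈ G)
    (h2 : ∀ g ∈ G, bs g ∈ G) (x : E) : G.starProjection (b x) = b (G.starProjection x) := by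
  apply Submodule.eq_starProjection_of_mem_orthogonal (h1 _ (G.starProjection_apply_mem x))
  rw [← map_sub, Submodule.mem_orthogonal]
  intro g hg
  rw [← hadj]
  have := G.sub_starProjection_mem_orthogonal x
  rw [Submodule.mem_orthogonal] at this
  exact this _ (h2 g hg)

/-- separating for `M` implies cyclic for `M'` -/
theorem cyclic_commutant {M : VonNeumannAlgebra H} {ξ : H} (hs : IsSeparating M ξ) :
    IsCyclic M.commutant ξ := by
  let G₀ : Submodule ℂ H :=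
    { carrier := {v | ∃ x : H →L[ℂ] H, x ∈ M.commutant ∧ x ξ = v}
      add_mem' := by
        rintro _ _ ⟨a, ha, rfl⟩ ⟨b, hb, rfl⟩
        exact ⟨a + b, add_mem ha hb, rfl⟩
      zero_mem' := ⟨0, zero_mem _, rfl⟩
      smul_mem' := by
        rintro c _ ⟨a, ha, rfl⟩
        exact ⟨c • a, vsmul_mem _ c ha, rfl⟩ }
  let G := G₀.topologicalClosure
  have hGc : IsClosed (G : Set H) := G₀.isClosed_topologicalClosure
  have : CompleteSpace G := hGc.completeSpace_coe
  have hinv : ∀ b : H →L[ℂ] H, b ∈ M.commutant → ∀ g ∈ G, b g ∈ G := by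
    intro b hb g hg
    have hcl : IsClosed {w : H | b w ∈ G} := hGc.preimage b.continuous
    have hsub : (G₀ : Set H) ⊆ {w : H | b w ∈ G} := by
      rintro _ ⟨a, ha, rfl⟩
      exact G₀.le_topologicalClosure ⟨b * a, mul_mem hb ha, rfl⟩
    exact closure_minimal hsub hcl hg
  have hp : G.starProjection ∈ M := by
    rw [← VonNeumannAlgebra.commutant_commutant M, VonNeumannAlgebra.mem_commutant_iff]
    intro b hb
    ext x
    exact (proj_comm G b (star b) (fun x y => inner_star b x y) (hinv b hb)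
      (hinv _ (ss _ hb)) x).symm
  have hξ : ξ ∈ G := G₀.le_topologicalClosure ⟨1, one_mem _, rfl⟩
  have h1 : (1 - G.starProjection : H →L[ℂ] H) = 0 := by
    apply hs _ (sub_mem (one_mem _) hp)
    rw [_root_.sub_apply, Submodule.starProjection_eq_self_iff.mpr hξ]
    exact sub_self ξ
  intro v
  have h2 : G.starProjection v = v := by
    have h3 := congrArg (fun T : H →L[ℂ] H => T v) h1
    simp only [_root_.sub_apply, _root_.one_apply_eq_self, _root_.zero_apply] at h3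
    exact (sub_eq_zero.mp h3).symm
  have h4 : v ∈ G := by rw [← h2]; exact G.starProjection_apply_mem v
  exact h4

section Key

/-- first inclusion -/
noncomputable def i1 (H : Type) [NormedAddCommGroup H] [InnerProductSpace ℂ H] : H →L[ℂ] WithLp 2 (H × H) :=
  ((WithLp.prodContinuousLinearEquiv 2 ℂ H H).symm : (H × H) →L[ℂ] WithLp 2 (H × H)) ∘L
    ContinuousLinearMap.inl ℂ H H

/-- second inclusion -/
noncomputable def i2 (H : Type) [NormedAddCommGroup H] [InnerProductSpace ℂ H] : H →L[ℂ] WithLp 2 (H × H) :=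
  ((WithLp.prodContinuousLinearEquiv 2 ℂ H H).symm : (H × H) →L[ℂ] WithLp 2 (H × H)) ∘L
    ContinuousLinearMap.inr ℂ H H

/-- first projection -/
noncomputable def q1 (H : Type) [NormedAddCommGroup H] [InnerProductSpace ℂ H] : WithLp 2 (H × H) →L[ℂ] H :=
  WithLp.fstL 2 ℂ H H

/-- second projection -/
noncomputable def q2 (H : Type) [NormedAddCommGroup H] [InnerProductSpace ℂ H] : WithLp 2 (H × H) →L[ℂ] H :=
  WithLp.sndL 2 ℂ H H

/-- diagonal action -/
noncomputable def dg (b : H →L[ℂ] H) : WithLp 2 (H × H) →L[ℂ] WithLp 2 (H × H) :=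
  i1 H ∘L b ∘L q1 H + i2 H ∘L b ∘L q2 H

theorem q1_i1 (v : H) : q1 H (i1 H v) = v := rfl
theorem q2_i2 (v : H) : q2 H (i2 H v) = v := rfl
theorem q1_i2 (v : H) : q1 H (i2 H v) = 0 := rfl
theorem q2_i1 (v : H) : q2 H (i1 H v) = 0 := rfl

theorem i_q (x : WithLp 2 (H × H)) : i1 H (q1 H x) + i2 H (q2 H x) = x := by
  apply WithLp.ofLp_injective 2
  ext <;> simp [i1, i2, q1, q2]

theorem inner_E (x y : WithLp 2 (H × H)) :
    ⟪x, y⟫_ℂ = ⟪q1 H x, q1 H y⟫_ℂ + ⟪q2 H x, q2 H y⟫_ℂ := rfl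

theorem norm_i1 (v : H) : ‖i1 H v‖ = ‖v‖ := WithLp.norm_toLp_fst 2 H H v
theorem norm_i2 (v : H) : ‖i2 H v‖ = ‖v‖ := WithLp.norm_toLp_snd 2 H H v

theorem norm_q1 (x : WithLp 2 (H × H)) : ‖q1 H x‖ ≤ ‖x‖ := by
  have h := WithLp.prod_norm_sq_eq_of_L2 x
  have h2 : ‖q1 H x‖ ^ 2 ≤ ‖x‖ ^ 2 := by
    rw [h]
    have : ‖q1 H x‖ ^ 2 = ‖x.fst‖ ^ 2 := rfl
    rw [this]
    nlinarith [sq_nonneg ‖x.snd‖]
  exact pow_le_pow_iff_left₀ (norm_nonneg _) (norm_nonneg _) two_ne_zero |>.mp h2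

theorem norm_q2 (x : WithLp 2 (H × H)) : ‖q2 H x‖ ≤ ‖x‖ := by
  have h := WithLp.prod_norm_sq_eq_of_L2 x
  have h2 : ‖q2 H x‖ ^ 2 ≤ ‖x‖ ^ 2 := by
    rw [h]
    have : ‖q2 H x‖ ^ 2 = ‖x.snd‖ ^ 2 := rfl
    rw [this]
    nlinarith [sq_nonneg ‖x.fst‖]
  exact pow_le_pow_iff_left₀ (norm_nonneg _) (norm_nonneg _) two_ne_zero |>.mp h2

theorem q1_dg (b : H →L[ℂ] H) (x : WithLp 2 (H × H)) : q1 H (dg b x) = b (q1 H x) := by
  simp only [dg, _root_.add_apply, ContinuousLinearMap.comp_apply, map_add, q1_i1, q1_i2, add_zero]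

theorem q2_dg (b : H →L[ℂ] H) (x : WithLp 2 (H × H)) : q2 H (dg b x) = b (q2 H x) := by
  simp only [dg, _root_.add_apply, ContinuousLinearMap.comp_apply, map_add, q2_i1, q2_i2, zero_add]

theorem dg_i1 (b : H →L[ℂ] H) (v : H) : dg b (i1 H v) = i1 H (b v) := by
  simp only [dg, _root_.add_apply, ContinuousLinearMap.comp_apply, q1_i1, q2_i1, map_zero, add_zero]

theorem dg_i2 (b : H →L[ℂ] H) (v : H) : dg b (i2 H v) = i2 H (b v) := by
  simp only [dg, _root_.add_apply, ContinuousLinearMap.comp_apply, q1_i2, q2_i2, map_zero, zero_add]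

theorem dg_adj (b : H →L[ℂ] H) (x y : WithLp 2 (H × H)) :
    ⟪dg (star b) x, y⟫_ℂ = ⟪x, dg b y⟫_ℂ := by
  rw [inner_E, inner_E, q1_dg, q2_dg, q1_dg, q2_dg, inner_star, inner_star]

/-- key approximation -/
theorem key_approx {M : VonNeumannAlgebra H} {ξ : H} (hc : IsCyclic M ξ) {v : H}
    (hv : ∀ a : H →L[ℂ] H, a ∈ M → ⟪v, a ξ⟫_ℂ = ⟪ξ, a v⟫_ℂ) (δ : ℝ) (hδ : 0 < δ) :
    ∃ a : H →L[ℂ] H, a ∈ M.commutant ∧ ‖a ξ - v‖ ≤ 2 * δ ∧ ‖star a ξ - v‖ ≤ 2 * δ := by
  obtain ⟨w, ⟨b, hb, rfl⟩, hw⟩ := hc.exists_dist_lt v hδ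
  rw [dist_eq_norm] at hw
  set ε : ℝ := δ / (‖b v‖ + 1) with hε
  have hpos : 0 < ‖b v‖ + 1 := by positivity
  have hε0 : 0 < ε := by positivity
  have hεb : ε * ‖b v‖ ≤ δ := by
    rw [hε, div_mul_eq_mul_div, div_le_iff₀ hpos]
    nlinarith [norm_nonneg (b v)]
  have hεne : (ε : ℂ) ≠ 0 := by exact_mod_cast hε0.ne'
  let G₀ : Submodule ℂ (WithLp 2 (H × H)) :=
    { carrier := {x | ∃ a : H →L[ℂ] H, a ∈ M ∧ i1 H (a ξ) + (ε : ℂ) • i2 H (a v) = x}
      add_mem' := by
        rintro _ _ ⟨a, ha, rfl⟩ ⟨c, hc, rfl⟩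
        refine ⟨a + c, add_mem ha hc, ?_⟩
        rw [_root_.add_apply, _root_.add_apply, map_add, map_add, smul_add]; abel
      zero_mem' := ⟨0, zero_mem _, by simp⟩
      smul_mem' := by
        rintro c _ ⟨a, ha, rfl⟩
        refine ⟨c • a, vsmul_mem _ c ha, ?_⟩
        rw [_root_.smul_apply, _root_.smul_apply, map_smul, map_smul, smul_add,
          smul_comm c (ε : ℂ)] }
  let G := G₀.topologicalClosure
  have hGc : IsClosed (G : Set (WithLp 2 (H × H))) := G₀.isClosed_topologicalClosure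
  have : CompleteSpace G := hGc.completeSpace_coe
  have hG1 : ∀ a : H →L[ℂ] H, a ∈ M → i1 H (a ξ) + (ε : ℂ) • i2 H (a v) ∈ G := fun a ha =>
    G₀.le_topologicalClosure ⟨a, ha, rfl⟩
  have hinv : ∀ a : H →L[ℂ] H, a ∈ M → ∀ g ∈ G, dg a g ∈ G := by
    intro a ha g hg
    have hcl : IsClosed {w : WithLp 2 (H × H) | dg a w ∈ G} := hGc.preimage (dg a).continuous
    have hsub : (G₀ : Set (WithLp 2 (H × H))) ⊆ {w | dg a w ∈ G} := by
      rintro _ ⟨c, hc, rfl⟩
      have h := hG1 (a * c) (mul_mem ha hc)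
      show dg a (i1 H (c ξ) + (ε : ℂ) • i2 H (c v)) ∈ G
      rw [map_add, map_smul, dg_i1, dg_i2]
      exact h
    exact closure_minimal hsub hcl hg
  set p := G.starProjection with hp
  have hcomm : ∀ a : H →L[ℂ] H, a ∈ M → ∀ x, p (dg a x) = dg a (p x) := fun a ha x =>
    proj_comm G (dg a) (dg (star a)) (dg_adj a) (hinv a ha) (hinv _ (ss _ ha)) x
  have hp1 : ∀ a : H →L[ℂ] H, a ∈ M → p (i1 H (a ξ)) + (ε : ℂ) • p (i2 H (a v)) =
      i1 H (a ξ) + (ε : ℂ) • i2 H (a v) := by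
    intro a ha
    rw [← map_smul, ← map_add]
    exact Submodule.starProjection_eq_self_iff.mpr (hG1 a ha)
  have hp2 : ∀ a : H →L[ℂ] H, a ∈ M → p (i2 H (a ξ)) = (ε : ℂ) • p (i1 H (a v)) := by
    intro a ha
    have h0 : i2 H (a ξ) - (ε : ℂ) • i1 H (a v) ∈ Gᗮ := by
      rw [Submodule.orthogonal_closure, Submodule.mem_orthogonal]
      rintro _ ⟨c, hc, rfl⟩
      rw [inner_E]
      simp only [map_add, map_sub, map_smul, q1_i1, q2_i1, q1_i2, q2_i2, smul_zero, add_zero,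
        zero_add, zero_sub, sub_zero]
      rw [inner_neg_right, inner_smul_right, inner_smul_left, conj_ofReal, inner_star', inner_star']
      have h := hv (star c * a) (mul_mem (ss _ hc) ha)
      have e1 : (star c * a) ξ = star c (a ξ) := rfl
      have e2 : (star c * a) v = star c (a v) := rfl
      rw [e1, e2] at h
      rw [h]; ring
    have h1 : p (i2 H (a ξ) - (ε : ℂ) • i1 H (a v)) = 0 :=
      (Submodule.starProjection_apply_eq_zero_iff G).mpr h0
    rw [map_sub, map_smul] at h1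
    exact sub_eq_zero.mp h1
  have hsymm : ∀ x y, ⟪p x, y⟫_ℂ = ⟪x, p y⟫_ℂ := G.inner_starProjection_left_eq_right
  have hnorm : ∀ x, ‖p x‖ ≤ ‖x‖ := G.norm_starProjection_apply_le
  have hnorm' : ∀ x, ‖x - p x‖ ≤ ‖x‖ := by
    intro x
    have h2 := Submodule.starProjection_orthogonal_val (K := G) x
    rw [← h2]
    exact Gᗮ.norm_starProjection_apply_le x
  -- the operator
  refine ⟨(ε : ℂ)⁻¹ • (q2 H ∘L p ∘L i1 H), ?_, ?_, ?_⟩
  · apply vsmul_mem
    rw [VonNeumannAlgebra.mem_commutant_iff]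
    intro a ha
    ext x
    show a (q2 H (p (i1 H x))) = q2 H (p (i1 H (a x)))
    rw [← dg_i1, hcomm a ha, q2_dg]
  · have h1 := hp1 1 (one_mem _)
    have h2 := congrArg (q2 H) h1
    rw [map_add, map_add, map_smul, map_smul, q2_i2, q2_i1, zero_add] at h2
    rw [_root_.one_apply_eq_self, _root_.one_apply_eq_self] at h2
    have h3 : ((ε : ℂ)⁻¹ • (q2 H ∘L p ∘L i1 H)) ξ - v = -(q2 H (p (i2 H v))) := by
      show (ε : ℂ)⁻¹ • q2 H (p (i1 H ξ)) - v = -(q2 H (p (i2 H v)))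
      rw [eq_sub_of_add_eq h2, smul_sub, smul_smul, smul_smul, inv_mul_cancel₀ hεne, one_smul,
        one_smul]
      abel
    rw [h3, norm_neg]
    have h4 : i2 H v = i2 H (v - b ξ) + i2 H (b ξ) := by rw [← map_add, sub_add_cancel]
    rw [h4, map_add, hp2 b hb]
    calc ‖q2 H (p (i2 H (v - b ξ)) + (ε : ℂ) • p (i1 H (b v)))‖
        ≤ ‖p (i2 H (v - b ξ)) + (ε : ℂ) • p (i1 H (b v))‖ := norm_q2 _
      _ ≤ ‖p (i2 H (v - b ξ))‖ + ‖(ε : ℂ) • p (i1 H (b v))‖ := norm_add_le _ _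
      _ ≤ ‖v - b ξ‖ + ε * ‖b v‖ := by
          apply add_le_add
          · exact (hnorm _).trans (norm_i2 _).le
          · rw [norm_smul, Complex.norm_real, Real.norm_of_nonneg hε0.le]
            exact mul_le_mul_of_nonneg_left ((hnorm _).trans (norm_i1 _).le) hε0.le
      _ ≤ 2 * δ := by linarith
  · have hst : star ((ε : ℂ)⁻¹ • (q2 H ∘L p ∘L i1 H)) = (ε : ℂ)⁻¹ • (q1 H ∘L p ∘L i2 H) := by
      rw [star_smul]
      have e : star ((ε : ℂ)⁻¹) = (ε : ℂ)⁻¹ := by
        rw [Complex.star_def, map_inv₀, conj_ofReal]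
      rw [e]
      congr 1
      rw [ContinuousLinearMap.star_eq_adjoint]
      symm
      rw [ContinuousLinearMap.eq_adjoint_iff]
      intro x y
      show ⟪q1 H (p (i2 H x)), y⟫_ℂ = ⟪x, q2 H (p (i1 H y))⟫_ℂ
      have e1 : ⟪p (i2 H x), i1 H y⟫_ℂ = ⟪q1 H (p (i2 H x)), y⟫_ℂ := by
        rw [inner_E, q1_i1, q2_i1, inner_zero_right, add_zero]
      have e2 : ⟪i2 H x, p (i1 H y)⟫_ℂ = ⟪x, q2 H (p (i1 H y))⟫_ℂ := by
        rw [inner_E, q1_i2, q2_i2, inner_zero_left, zero_add]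
      rw [← e1, ← e2, hsymm]
    have h1 := hp2 1 (one_mem _)
    rw [_root_.one_apply_eq_self, _root_.one_apply_eq_self] at h1
    have h3 : star ((ε : ℂ)⁻¹ • (q2 H ∘L p ∘L i1 H)) ξ - v =
        -(q1 H (i1 H v - p (i1 H v))) := by
      rw [hst]
      show (ε : ℂ)⁻¹ • q1 H (p (i2 H ξ)) - v = _
      rw [h1, map_smul, smul_smul, inv_mul_cancel₀ hεne, one_smul, map_sub, q1_i1]
      abel
    rw [h3, norm_neg]
    have h4 : i1 H v - p (i1 H v) = (i1 H (v - b ξ) - p (i1 H (v - b ξ))) +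
        (i1 H (b ξ) - p (i1 H (b ξ))) := by
      rw [map_sub, map_sub]; abel
    have h5 : i1 H (b ξ) - p (i1 H (b ξ)) = -((ε : ℂ) • (i2 H (b v) - p (i2 H (b v)))) := by
      have h6 := hp1 b hb
      rw [smul_sub]
      rw [eq_sub_of_add_eq h6]
      abel
    rw [h4, h5]
    calc ‖q1 H (i1 H (v - b ξ) - p (i1 H (v - b ξ)) +
          -((ε : ℂ) • (i2 H (b v) - p (i2 H (b v)))))‖
        ≤ ‖i1 H (v - b ξ) - p (i1 H (v - b ξ)) +
          -((ε : ℂ) • (i2 H (b v) - p (i2 H (b v))))‖ := norm_q1 _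
      _ ≤ ‖i1 H (v - b ξ) - p (i1 H (v - b ξ))‖ +
          ‖-((ε : ℂ) • (i2 H (b v) - p (i2 H (b v))))‖ := norm_add_le _ _
      _ ≤ ‖v - b ξ‖ + ε * ‖b v‖ := by
          apply add_le_add
          · exact (hnorm' _).trans (norm_i1 _).le
          · rw [norm_neg, norm_smul, Complex.norm_real, Real.norm_of_nonneg hε0.le]
            exact mul_le_mul_of_nonneg_left ((hnorm' _).trans (norm_i2 _).le) hε0.le
      _ ≤ 2 * δ := by linarith

/-- key lemma -/
theorem key {M : VonNeumannAlgebra H} {ξ : H} (hc : IsCyclic M ξ) {v : H}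
    (hv : ∀ a : H →L[ℂ] H, a ∈ M → star a = a → (⟪v, a ξ⟫_ℂ).im = 0) :
    v ∈ KK M.commutant ξ := by
  have hv1 : ∀ a : H →L[ℂ] H, a ∈ M → star a = a → ⟪v, a ξ⟫_ℂ = ⟪ξ, a v⟫_ℂ := by
    intro a ha ha'
    have h := Complex.conj_eq_iff_im.mpr (hv a ha ha')
    rw [← h, inner_conj_symm, inner_sa ha']
  have hv2 : ∀ a : H →L[ℂ] H, a ∈ M → ⟪v, a ξ⟫_ℂ = ⟪ξ, a v⟫_ℂ := by
    intro a ha
    obtain ⟨b, c, hb, hb', hc1, hc', hab, _⟩ := dec_mem M ha
    rw [hab, _root_.add_apply, _root_.smul_apply, inner_add_right, inner_smul_right,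
      _root_.add_apply, _root_.smul_apply, inner_add_right, inner_smul_right, hv1 b hb hb',
      hv1 c hc1 hc']
  rw [KK, Metric.mem_closure_iff]
  intro e he
  obtain ⟨a, ha, h1, h2⟩ := key_approx hc hv2 (e / 4) (by positivity)
  refine ⟨((1 / 2 : ℂ) • (a + star a)) ξ, ⟨(1 / 2 : ℂ) • (a + star a),
    vsmul_mem _ _ (add_mem ha (ss _ ha)), ?_, rfl⟩, ?_⟩
  · rw [star_smul, star_add, star_star, add_comm (star a) a]
    congr 1
    simp
  · rw [dist_eq_norm, norm_sub_rev]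
    have e1 : ((1 / 2 : ℂ) • (a + star a)) ξ - v = (1 / 2 : ℂ) • ((a ξ - v) + (star a ξ - v)) := by
      rw [_root_.smul_apply, _root_.add_apply]
      module
    rw [e1, norm_smul]
    have e2 : ‖(1 / 2 : ℂ)‖ = 1 / 2 := by norm_num
    rw [e2]
    have e3 := norm_add_le (a ξ - v) (star a ξ - v)
    linarith

end Key

/-- `P_{M'} = 1 - Q_M` -/
theorem P_commutant {M : VonNeumannAlgebra H} {ξ : H} (hc : IsCyclic M ξ) {P P' : H → H}
    (h : RP (KK M ξ) P) (h' : RP (KK M.commutant ξ) P') (v : H) :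
    P' v = v + I • P (I • v) := by
  -- `v + I P (I v)` is orthogonal to `iK`
  have hsub : v + I • P (I • v) ∈ KK M.commutant ξ := by
    apply key hc
    intro a ha ha'
    have hk := sa_mem_KK ξ ha ha'
    have e : (⟪P (I • v), a ξ⟫_ℂ).re = (⟪I • v, a ξ⟫_ℂ).re := by
      rw [h.symm, h.fixed _ hk]
    rw [inner_add_left, add_im, inner_I_left, neg_im, im_inner_I_right, e, re_inner_I_left,
      re_inner_I_right]
    ring
  -- `I P (I v)` is orthogonal to `K'`
  have horth : ∀ k ∈ KK M.commutant ξ, ∀ m ∈ KK M ξ, (⟪I • m, k⟫_ℂ).re = 0 := by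
    intro k hk m hm
    have h1 : ∀ a : H →L[ℂ] H, a ∈ M.commutant → star a = a → (⟪I • m, a ξ⟫_ℂ).re = 0 := by
      intro a ha ha'
      have h2 : ∀ m ∈ KK M ξ, (⟪m, a ξ⟫_ℂ).im = 0 := by
        apply KK_induct (f := fun k => (⟪k, a ξ⟫_ℂ).im)
        · exact Complex.continuous_im.comp (continuous_id.inner continuous_const)
        · intro b hb hb'
          exact real_inner ξ hb ha hb' ha'
      rw [re_inner_I_left, re_inner_I_right, neg_neg]
      exact h2 m hm
    exact KK_induct (f := fun k => (⟪I • m, k⟫_ℂ).re)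
      (Complex.continuous_re.comp (continuous_const.inner continuous_id)) h1 k hk
  have h3 : P' (I • P (I • v)) = 0 := by
    have h4 := horth _ (h'.mem (I • P (I • v))) _ (h.mem (I • v))
    rw [h'.re_inner_self] at h4
    exact norm_eq_zero.mp (pow_eq_zero_iff two_ne_zero |>.mp h4)
  have h5 := h'.fixed _ hsub
  rw [h'.add, h3, add_zero] at h5
  exact h5

theorem r : S_V1 := by
  intro H _ _ _ M ξ hc hs
  have hc' : IsCyclic M.commutant ξ := cyclic_commutant hs
  have hc'' : IsCyclic M.commutant.commutant ξ := by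
    rw [VonNeumannAlgebra.commutant_commutant]; exact hc
  obtain ⟨P, hP⟩ := exists_KK M ξ
  obtain ⟨P', hP'⟩ := exists_KK M.commutant ξ
  obtain ⟨R, hR⟩ := exists_R hP
  refine ⟨R, fun v => P v + I • P (I • v), isTT_of hc hc' hP hR (fun v => rfl), ?_⟩
  have hpp := P_commutant hc hP hP'
  refine isTT_of hc' hc'' hP' ?_ ?_
  · intro v
    rw [hpp, hpp, _root_.sub_apply, _root_.smul_apply, _root_.one_apply_eq_self, hR]
    simp only [II, hP.neg, smul_add, smul_neg, two_smul]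
    abel
  · intro v
    rw [hpp, hpp]
    simp only [II, hP.neg, smul_add, smul_neg]
    abel

end Pool.Agent.H255.BC.TT_V1
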