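import Pool.Agent.H255.BC.Defs4

set_option autoImplicit false

open MeasureTheory Filter Topology Complex
open scoped InnerProductSpace ENNReal

namespace Pool.Agent.H255.BC.TT_V10

open Pool.Agent.W662.CB Pool.Agent.H255.BC

/-- `log ((2 - x) / x)` -/
noncomputable def ell (x : ℝ) : ℝ := Real.log ((2 - x) / x)

theorem ell_cont : ContinuousOn ell (Set.Ioo 0 2) := by
  unfold ell
  apply ContinuousOn.log
  · apply ContinuousOn.div (by fun_prop) (by fun_prop)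
    intro x hx
    exact hx.1.ne'
  · intro x hx
    have : 0 < (2 - x) / x := div_pos (by linarith [hx.2]) hx.1
    exact this.ne'

theorem exp_ell {x : ℝ} (hx : x ∈ Set.Ioo (0 : ℝ) 2) : Real.exp (ell x) = (2 - x) / x := by
  unfold ell
  rw [Real.exp_log (div_pos (by linarith [hx.2]) hx.1)]

theorem ell_neg {x : ℝ} (hx : x ∈ Set.Ioo (0 : ℝ) 2) : ell (2 - x) = -ell x := by
  unfold ell
  rw [show (2 - (2 - x)) / (2 - x) = ((2 - x) / x)⁻¹ by rw [inv_div]; congr 1; ring, Real.log_inv]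

/-- `x ((2-x)/x)^{-iz}` -/
noncomputable def G (z : ℂ) (x : ℝ) : ℂ := (x : ℂ) * cexp (-I * z * (ell x : ℂ))

theorem G_norm (z : ℂ) {x : ℝ} (hx : x ∈ Set.Ioo (0 : ℝ) 2) :
    ‖G z x‖ = x * Real.exp (z.im * ell x) := by
  unfold G
  rw [norm_mul, Complex.norm_real, Real.norm_of_nonneg hx.1.le, Complex.norm_exp]
  congr 2
  simp [Complex.mul_re, Complex.mul_im]

theorem G_bound (z : ℂ) {x : ℝ} (hx : x ∈ Set.Ioo (0 : ℝ) 2) (m : ℝ) (h1 : m ≤ z.im)
    (h2 : m ≤ 1 - z.im) : ‖G z x‖ ≤ 2 * Real.exp (-(m * |ell x|)) := by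
  rw [G_norm z hx]
  rcases le_total 0 (ell x) with h | h
  · rw [abs_of_nonneg h]
    have h3 : x * Real.exp (z.im * ell x) = (2 - x) * Real.exp (-((1 - z.im) * ell x)) := by
      have h4 := exp_ell hx
      have h5 : Real.exp (z.im * ell x) = Real.exp (ell x) * Real.exp (-((1 - z.im) * ell x)) := by
        rw [← Real.exp_add]; congr 1; ring
      rw [h5, h4, ← mul_assoc, mul_div_cancel₀ _ hx.1.ne']
    rw [h3]
    apply mul_le_mul (by linarith [hx.1]) _ (Real.exp_pos _).le (by norm_num)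
    apply Real.exp_le_exp.2
    nlinarith
  · rw [abs_of_nonpos h]
    apply mul_le_mul hx.2.le _ (Real.exp_pos _).le (by norm_num)
    apply Real.exp_le_exp.2
    nlinarith

theorem G_bound2 (z : ℂ) {x : ℝ} (hx : x ∈ Set.Ioo (0 : ℝ) 2) (h1 : 0 ≤ z.im)
    (h2 : z.im ≤ 1) : ‖G z x‖ ≤ 2 := by
  have := G_bound z hx 0 h1 (by linarith)
  simpa using this

theorem G_contOn (z : ℂ) : ContinuousOn (G z) (Set.Ioo 0 2) := by
  unfold G
  apply ContinuousOn.mul (by fun_prop)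
  apply Continuous.comp_continuousOn Complex.continuous_exp
  exact continuousOn_const.mul (Complex.continuous_ofReal.comp_continuousOn ell_cont)

theorem G_BC (z : ℂ) (h1 : 0 ≤ z.im) (h2 : z.im ≤ 1) : Pool.Agent.H255.BC.BC (G z) :=
  ⟨G_contOn z, 2, fun _ hx => G_bound2 z hx h1 h2⟩

theorem G_sub (z w : ℂ) (x : ℝ) : G w x - G z x = G z x * (cexp (-I * (w - z) * (ell x : ℂ)) - 1) := by
  unfold G
  have : cexp (-I * w * (ell x : ℂ)) = cexp (-I * z * (ell x : ℂ)) *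
      cexp (-I * (w - z) * (ell x : ℂ)) := by
    rw [← Complex.exp_add]; congr 1; ring
  rw [this]; ring

theorem ell_bdd (a b : ℝ) (ha : 0 < a) (hb : b < 2) : ∃ Λ : ℝ, 0 < Λ ∧
    ∀ x ∈ Set.Icc a b, |ell x| ≤ Λ := by
  have h1 : ContinuousOn (fun x => |ell x|) (Set.Icc a b) :=
    (ell_cont.mono (fun x hx => ⟨lt_of_lt_of_le ha hx.1, lt_of_le_of_lt hx.2 hb⟩)).abs
  obtain ⟨C, hC⟩ := isCompact_Icc.bddAbove_image h1
  refine ⟨max C 1, lt_of_lt_of_le one_pos (le_max_right _ _), fun x hx => ?_⟩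
  exact (hC (Set.mem_image_of_mem _ hx)).trans (le_max_left _ _)

theorem norm_w (d : ℂ) (x : ℝ) : ‖-I * d * (ell x : ℂ)‖ = ‖d‖ * |ell x| := by
  rw [norm_mul, norm_mul, norm_neg, Complex.norm_I, one_mul, Complex.norm_real, Real.norm_eq_abs]

/-- uniform convergence -/
theorem G_unif (z : ℂ) (h1 : 0 ≤ z.im) (h2 : z.im ≤ 1) (w : ℕ → ℂ) (hw : Tendsto w atTop (𝓝 z))
    (a b : ℝ) (ha : 0 < a) (hb : b < 2) :
    TendstoUniformlyOn (fun n => G (w n)) (G z) atTop (Set.Icc a b) := by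
  obtain ⟨Λ, hΛ0, hΛ⟩ := ell_bdd a b ha hb
  rw [Metric.tendstoUniformlyOn_iff]
  intro ε hε
  have hd : ∀ᶠ n in atTop, ‖w n - z‖ < min (1 / Λ) (ε / (8 * Λ)) := by
    have := (tendsto_iff_norm_sub_tendsto_zero.1 hw)
    exact this.eventually_lt_const (by positivity)
  filter_upwards [hd] with n hn x hx
  have hx' : x ∈ Set.Ioo (0 : ℝ) 2 := ⟨lt_of_lt_of_le ha hx.1, lt_of_le_of_lt hx.2 hb⟩
  rw [dist_comm, dist_eq_norm, G_sub, norm_mul]
  have hn1 : ‖w n - z‖ < 1 / Λ := lt_of_lt_of_le hn (min_le_left _ _)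
  have hn2 : ‖w n - z‖ < ε / (8 * Λ) := lt_of_lt_of_le hn (min_le_right _ _)
  have hle : ‖-I * (w n - z) * (ell x : ℂ)‖ ≤ ‖w n - z‖ * Λ := by
    rw [norm_w]; gcongr; exact hΛ x hx
  have hle1 : ‖-I * (w n - z) * (ell x : ℂ)‖ ≤ 1 := by
    refine hle.trans ?_
    rw [lt_div_iff₀ hΛ0] at hn1
    exact hn1.le
  have h3 := Complex.norm_exp_sub_one_le hle1
  have h4 := G_bound2 z hx' h1 h2
  calc ‖G z x‖ * ‖cexp (-I * (w n - z) * (ell x : ℂ)) - 1‖
      ≤ 2 * (2 * (‖w n - z‖ * Λ)) := by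
        apply mul_le_mul h4 (h3.trans _) (norm_nonneg _) (by norm_num)
        linarith
    _ < ε := by
        rw [lt_div_iff₀ (by positivity)] at hn2
        nlinarith

/-- the difference quotient -/
noncomputable def q (z w : ℂ) (x : ℝ) : ℂ := (w - z)⁻¹ * (G w x + (-1) * G z x)

/-- the derivative -/
noncomputable def G' (z : ℂ) (x : ℝ) : ℂ := (-I * (ell x : ℂ)) * G z x

theorem G'_contOn (z : ℂ) : ContinuousOn (G' z) (Set.Ioo 0 2) := by
  unfold G'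
  exact (continuousOn_const.mul (Complex.continuous_ofReal.comp_continuousOn ell_cont)).mul
    (G_contOn z)

theorem mul_exp_le (c u : ℝ) (hc : 0 < c) : u * Real.exp (-(c * u)) ≤ 1 / c := by
  have h1 := Real.add_one_le_exp (c * u)
  rw [le_div_iff₀ hc, Real.exp_neg]
  have h2 := Real.exp_pos (c * u)
  rw [mul_right_comm]
  rw [mul_inv_le_iff₀ h2]
  linarith

theorem G'_bound (z : ℂ) (h1 : 0 < z.im) (h2 : z.im < 1) : ∃ C : ℝ, ∀ x ∈ Set.Ioo (0 : ℝ) 2,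
    ‖G' z x‖ ≤ C := by
  set m := min z.im (1 - z.im) with hm
  have hm0 : 0 < m := lt_min h1 (by linarith)
  refine ⟨2 / m, fun x hx => ?_⟩
  have h3 := G_bound z hx m (min_le_left _ _) (min_le_right _ _)
  unfold G'
  rw [norm_mul, norm_mul, norm_neg, Complex.norm_I, one_mul, Complex.norm_real, Real.norm_eq_abs]
  have h4 := mul_exp_le m |ell x| hm0
  calc |ell x| * ‖G z x‖ ≤ |ell x| * (2 * Real.exp (-(m * |ell x|))) := by gcongr
    _ = 2 * (|ell x| * Real.exp (-(m * |ell x|))) := by ring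
    _ ≤ 2 * (1 / m) := by gcongr
    _ = 2 / m := by ring

theorem G'_BC (z : ℂ) (h1 : 0 < z.im) (h2 : z.im < 1) : Pool.Agent.H255.BC.BC (G' z) :=
  ⟨G'_contOn z, G'_bound z h1 h2⟩

theorem q_eq (z w : ℂ) (x : ℝ) : q z w x =
    (w - z)⁻¹ * (G z x * (cexp (-I * (w - z) * (ell x : ℂ)) - 1)) := by
  unfold q
  rw [← G_sub]; ring

theorem q_bound (z : ℂ) (h1 : 0 < z.im) (h2 : z.im < 1) : ∃ C δ : ℝ, 0 < δ ∧
    ∀ w : ℂ, w ≠ z → ‖w - z‖ < δ → ∀ x ∈ Set.Ioo (0 : ℝ) 2, ‖q z w x‖ ≤ C := by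
  set m := min z.im (1 - z.im) with hm
  have hm0 : 0 < m := lt_min h1 (by linarith)
  refine ⟨4 / m, m / 2, by positivity, fun w hw hwd x hx => ?_⟩
  have h3 := G_bound z hx m (min_le_left _ _) (min_le_right _ _)
  have hd : 0 < ‖w - z‖ := norm_pos_iff.2 (sub_ne_zero.2 hw)
  rw [q_eq, norm_mul, norm_mul, norm_inv]
  have h5 : ‖cexp (-I * (w - z) * (ell x : ℂ)) - 1‖ ≤
      (‖w - z‖ * |ell x|) * Real.exp (‖w - z‖ * |ell x|) := by
    have := Complex.norm_exp_sub_sum_le_norm_mul_exp (-I * (w - z) * (ell x : ℂ)) 1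
    simpa [norm_w] using this
  have h6 := mul_exp_le (m / 2) |ell x| (by positivity)
  calc ‖w - z‖⁻¹ * (‖G z x‖ * ‖cexp (-I * (w - z) * (ell x : ℂ)) - 1‖)
      ≤ ‖w - z‖⁻¹ * ((2 * Real.exp (-(m * |ell x|))) *
          ((‖w - z‖ * |ell x|) * Real.exp (‖w - z‖ * |ell x|))) := by gcongr
    _ = 2 * (|ell x| * (Real.exp (-(m * |ell x|)) * Real.exp (‖w - z‖ * |ell x|))) := by
        field_simp
    _ = 2 * (|ell x| * Real.exp (-(m * |ell x|) + ‖w - z‖ * |ell x|)) := by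
        rw [← Real.exp_add]
    _ ≤ 2 * (|ell x| * Real.exp (-((m / 2) * |ell x|))) := by
        gcongr
        nlinarith [abs_nonneg (ell x)]
    _ ≤ 2 * (1 / (m / 2)) := by gcongr
    _ = 4 / m := by field_simp; norm_num

theorem q_unif (z : ℂ) (h1 : 0 < z.im) (h2 : z.im < 1) (w : ℕ → ℂ) (hw : Tendsto w atTop (𝓝 z))
    (hne : ∀ n, w n ≠ z) (a b : ℝ) (ha : 0 < a) (hb : b < 2) :
    TendstoUniformlyOn (fun n => q z (w n)) (G' z) atTop (Set.Icc a b) := by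
  obtain ⟨Λ, hΛ0, hΛ⟩ := ell_bdd a b ha hb
  rw [Metric.tendstoUniformlyOn_iff]
  intro ε hε
  have hd : ∀ᶠ n in atTop, ‖w n - z‖ < min (1 / Λ) (ε / (4 * Λ ^ 2)) := by
    have := (tendsto_iff_norm_sub_tendsto_zero.1 hw)
    exact this.eventually_lt_const (by positivity)
  filter_upwards [hd] with n hn x hx
  have hx' : x ∈ Set.Ioo (0 : ℝ) 2 := ⟨lt_of_lt_of_le ha hx.1, lt_of_le_of_lt hx.2 hb⟩
  have hn1 : ‖w n - z‖ < 1 / Λ := lt_of_lt_of_le hn (min_le_left _ _)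
  have hn2 : ‖w n - z‖ < ε / (4 * Λ ^ 2) := lt_of_lt_of_le hn (min_le_right _ _)
  have hd0 : w n - z ≠ 0 := sub_ne_zero.2 (hne n)
  have hdp : 0 < ‖w n - z‖ := norm_pos_iff.2 hd0
  have hle : ‖-I * (w n - z) * (ell x : ℂ)‖ ≤ ‖w n - z‖ * Λ := by
    rw [norm_w]; gcongr; exact hΛ x hx
  have hle1 : ‖-I * (w n - z) * (ell x : ℂ)‖ ≤ 1 := by
    refine hle.trans ?_
    rw [lt_div_iff₀ hΛ0] at hn1
    exact hn1.le
  have h3 := Complex.norm_exp_sub_one_sub_id_le hle1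
  have h4 := G_bound2 z hx' h1.le h2.le
  have heq : q z (w n) x - G' z x = (w n - z)⁻¹ * (G z x *
      (cexp (-I * (w n - z) * (ell x : ℂ)) - 1 - -I * (w n - z) * (ell x : ℂ))) := by
    rw [q_eq]; unfold G'; field_simp
  rw [dist_comm, dist_eq_norm, heq, norm_mul, norm_mul, norm_inv]
  calc ‖w n - z‖⁻¹ * (‖G z x‖ * ‖cexp (-I * (w n - z) * (ell x : ℂ)) - 1 -
        -I * (w n - z) * (ell x : ℂ)‖)
      ≤ ‖w n - z‖⁻¹ * (2 * (‖w n - z‖ * Λ) ^ 2) := by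
        gcongr
        exact h3.trans (by gcongr)
    _ = 2 * ‖w n - z‖ * Λ ^ 2 := by field_simp
    _ < ε := by
        rw [lt_div_iff₀ (by positivity)] at hn2
        nlinarith

section op

variable {H : Type} [NormedAddCommGroup H] [InnerProductSpace ℂ H] [CompleteSpace H]

theorem BC_add {f g : ℝ → ℂ} (hf : Pool.Agent.H255.BC.BC f) (hg : Pool.Agent.H255.BC.BC g) :
    Pool.Agent.H255.BC.BC (fun x => f x + g x) := by
  obtain ⟨h1, C, hC⟩ := hf
  obtain ⟨h2, D, hD⟩ := hg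
  exact ⟨h1.add h2, C + D, fun x hx => (norm_add_le _ _).trans (add_le_add (hC x hx) (hD x hx))⟩

theorem BC_mul {f g : ℝ → ℂ} (hf : Pool.Agent.H255.BC.BC f) (hg : Pool.Agent.H255.BC.BC g) :
    Pool.Agent.H255.BC.BC (fun x => f x * g x) := by
  obtain ⟨h1, C, hC⟩ := hf
  obtain ⟨h2, D, hD⟩ := hg
  refine ⟨h1.mul h2, C * D, fun x hx => ?_⟩
  rw [norm_mul]
  exact mul_le_mul (hC x hx) (hD x hx) (norm_nonneg _) ((norm_nonneg _).trans (hC x hx))

theorem BC_const (c : ℂ) : Pool.Agent.H255.BC.BC (fun _ => c) :=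
  ⟨continuousOn_const, ‖c‖, fun _ _ => le_refl _⟩

theorem BC_smul {f : ℝ → ℂ} (c : ℂ) (hf : Pool.Agent.H255.BC.BC f) :
    Pool.Agent.H255.BC.BC (fun x => c * f x) := BC_mul (BC_const c) hf

theorem BC_id : Pool.Agent.H255.BC.BC (fun x => (x : ℂ)) := by
  refine ⟨by fun_prop, 2, fun x hx => ?_⟩
  rw [Complex.norm_real, Real.norm_of_nonneg hx.1.le]
  exact hx.2.le

/-- `√x` -/
noncomputable def sx (x : ℝ) : ℂ := ((Real.sqrt x : ℝ) : ℂ)
/-- `√(2 - x)` -/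
noncomputable def s2 (x : ℝ) : ℂ := ((Real.sqrt (2 - x) : ℝ) : ℂ)

theorem BC_sx : Pool.Agent.H255.BC.BC sx := by
  unfold sx
  refine ⟨by fun_prop, 2, fun x hx => ?_⟩
  rw [Complex.norm_real, Real.norm_of_nonneg (Real.sqrt_nonneg _), Real.sqrt_le_iff]
  constructor
  · norm_num
  · linarith [hx.2]

theorem BC_s2 : Pool.Agent.H255.BC.BC s2 := by
  unfold s2
  refine ⟨by fun_prop, 2, fun x hx => ?_⟩
  rw [Complex.norm_real, Real.norm_of_nonneg (Real.sqrt_nonneg _), Real.sqrt_le_iff]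
  constructor
  · norm_num
  · linarith [hx.1]

variable {R : H →L[ℂ] H} {Φ : (ℝ → ℂ) → (H →L[ℂ] H)}

theorem PP (hΦ : IsFC R Φ) : Φ sx * Φ sx = R := by
  rw [← hΦ.mul _ _ BC_sx BC_sx, ← hΦ.id]
  apply hΦ.congr _ _ (BC_mul BC_sx BC_sx)
  intro x hx
  simp only [sx]
  rw [← Complex.ofReal_mul, Real.mul_self_sqrt hx.1.le]

theorem QQ (hΦ : IsFC R Φ) : Φ s2 * Φ s2 = (2 : ℂ) • 1 - R := by
  have h1 : Φ (fun x => (2 : ℂ) * 1 + (-1) * (x : ℂ)) = (2 : ℂ) • 1 - R := by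
    rw [hΦ.add (fun _ => (2 : ℂ) * 1) (fun x => (-1) * (x : ℂ)) (BC_const _) (BC_smul _ BC_id),
      hΦ.smul 2 (fun _ => 1) (BC_const _), hΦ.smul (-1) (fun x => (x : ℂ)) BC_id, hΦ.one, hΦ.id,
      neg_one_smul, sub_eq_add_neg]
  rw [← hΦ.mul _ _ BC_s2 BC_s2, ← h1]
  apply hΦ.congr _ _ (BC_mul BC_s2 BC_s2)
  intro x hx
  simp only [s2]
  rw [← Complex.ofReal_mul, Real.mul_self_sqrt (by linarith [hx.2])]
  push_cast; ring

theorem PQ (hΦ : IsFC R Φ) : Φ sx * Φ s2 = Φ tf := by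
  rw [← hΦ.mul _ _ BC_sx BC_s2]
  apply hΦ.congr _ _ (BC_mul BC_sx BC_s2)
  intro x hx
  simp only [sx, s2, tf]
  rw [← Complex.ofReal_mul, ← Real.sqrt_mul hx.1.le]

theorem QP (hΦ : IsFC R Φ) : Φ s2 * Φ sx = Φ tf := by
  rw [← hΦ.mul _ _ BC_s2 BC_sx]
  apply hΦ.congr _ _ (BC_mul BC_s2 BC_sx)
  intro x hx
  simp only [sx, s2, tf]
  rw [← Complex.ofReal_mul, mul_comm, ← Real.sqrt_mul hx.1.le]

theorem starP (hΦ : IsFC R Φ) : star (Φ sx) = Φ sx := by
  rw [hΦ.star_eq _ BC_sx]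
  congr 1
  funext x
  simp [sx]

theorem starQ (hΦ : IsFC R Φ) : star (Φ s2) = Φ s2 := by
  rw [hΦ.star_eq _ BC_s2]
  congr 1
  funext x
  simp [s2]

theorem inner_star (T : H →L[ℂ] H) (v w : H) : ⟪v, T w⟫_ℂ = ⟪star T v, w⟫_ℂ := by
  rw [ContinuousLinearMap.star_eq_adjoint, ContinuousLinearMap.adjoint_inner_left]

/-- the vector `β` -/
theorem exists_beta {M : VonNeumannAlgebra H} {ξ : H} {D : H → H} {J : H → H}
    (hT : IsTT M ξ R D) (hΦ : IsFC R Φ) (hJ : IsJJ ξ D Φ J) (b : H →L[ℂ] H) (hb : star b ∈ M) :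
    ∃ β : H, Φ sx β = b ξ ∧ Φ s2 β = J (star b ξ) := by
  have h1 : D (star b ξ) = (2 : ℂ) • b ξ - R (b ξ) := by
    have := hT.app (star b) hb
    simpa using this
  have hPP : ∀ v, Φ sx (Φ sx v) = R v := fun v => by
    rw [← PP hΦ]; rfl
  have hQQ : ∀ v, Φ s2 (Φ s2 v) = (2 : ℂ) • v - R v := fun v => by
    have := congrArg (fun T : H →L[ℂ] H => T v) (QQ hΦ)
    simpa using this
  have hPQ : ∀ v, Φ sx (Φ s2 v) = Φ tf v := fun v => by
    rw [← PQ hΦ]; rfl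
  have hQP : ∀ v, Φ s2 (Φ sx v) = Φ tf v := fun v => by
    rw [← QP hΦ]; rfl
  have hinj : ∀ v, Φ s2 v = 0 → v = 0 := by
    intro v hv
    apply hT.inj' v
    have := hQQ v
    rw [hv, map_zero] at this
    exact (sub_eq_zero.1 this.symm).symm
  have h2 : Φ s2 (b ξ) = Φ sx (J (star b ξ)) := by
    rw [← sub_eq_zero, ← map_zero (Φ s2)] 
    rw [← sub_eq_zero]
    apply hinj
    rw [map_zero, sub_zero, map_sub, hQQ, hQP, ← h1, hJ.eq', sub_self]
  refine ⟨(1 / 2 : ℂ) • (Φ sx (b ξ) + Φ s2 (J (star b ξ))), ?_, ?_⟩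
  · rw [map_smul, map_add, hPP, hPQ, ← hJ.eq', h1, ← add_sub_assoc, add_sub_cancel_left, smul_smul]
    norm_num
  · rw [map_smul, map_add, hQP, ← hPQ, h2, hPP, hQQ]
    rw [← add_sub_assoc, add_sub_cancel_left, smul_smul]
    norm_num

end op

theorem r (h6 : S_V6) : S_V10 := by
  intro H _ _ _ M ξ R D Φ J hT hΦ hJ a b ha hb
  obtain ⟨hu0, huadd, hustar, hucont, hufix, huBC⟩ := h6 H ξ R Φ hΦ hT.fix
  obtain ⟨β, hβ1, hβ2⟩ := exists_beta hT hΦ hJ b (star_mem hb)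
  obtain ⟨α, hα1, hα2⟩ := exists_beta hT hΦ hJ (star a) (by simpa using ha)
  rw [star_star] at hα2
  have hJU : ∀ (t : ℝ) (v : H), J (Φ (uf t) v) = Φ (uf t) (J v) := by
    intro t v
    rw [hJ.anti _ (huBC t)]
    congr 1
    symm
    apply hΦ.congr _ _ (huBC t)
    intro x hx
    have := ell_neg hx
    unfold ell at this
    simp only [uf]
    rw [← Complex.exp_conj, this]
    congr 1
    simp
  have hΦα : ∀ t : ℝ, star (Φ (uf (-t))) = Φ (uf t) := by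
    intro t
    rw [hustar, neg_neg]
  refine ⟨fun z => ⟪α, Φ (G z) β⟫_ℂ, ?_, ?_, ?_, ?_⟩
  · -- continuity
    intro z hz
    unfold ContinuousWithinAt
    rw [tendsto_iff_seq_tendsto]
    intro w hw
    obtain ⟨hw1, hw2⟩ := tendsto_nhdsWithin_iff.1 hw
    obtain ⟨N, hN⟩ := eventually_atTop.1 hw2
    rw [← tendsto_add_atTop_iff_nat N]
    have hlim := hΦ.lim (fun n => G (w (n + N))) (G z) 2
      (fun n => G_BC _ (hN _ (Nat.le_add_left _ _)).1 (hN _ (Nat.le_add_left _ _)).2)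
      (G_BC z hz.1 hz.2)
      (fun n x hx => G_bound2 _ hx (hN _ (Nat.le_add_left _ _)).1 (hN _ (Nat.le_add_left _ _)).2)
      (fun a b ha hb => G_unif z hz.1 hz.2 _ ((tendsto_add_atTop_iff_nat N).2 hw1) a b ha hb) β
    exact (tendsto_const_nhds.inner hlim)
  · -- differentiability
    intro z hz
    apply DifferentiableAt.differentiableWithinAt
    have hz1 : 0 < z.im := hz.1
    have hz2 : z.im < 1 := hz.2
    refine HasDerivAt.differentiableAt (f' := ⟪α, Φ (G' z) β⟫_ℂ) ?_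
    rw [hasDerivAt_iff_tendsto_slope, tendsto_iff_seq_tendsto]
    intro w hw
    obtain ⟨hw1, hw2⟩ := tendsto_nhdsWithin_iff.1 hw
    obtain ⟨C, δ, hδ, hC⟩ := q_bound z hz1 hz2
    have hev : ∀ᶠ n in atTop, w n ∈ ({z}ᶜ : Set ℂ) ∧ ‖w n - z‖ < δ ∧ 0 < (w n).im ∧ (w n).im < 1 := by
      have h3 := (tendsto_iff_norm_sub_tendsto_zero.1 hw1).eventually_lt_const hδ
      have h4 : Tendsto (fun n => (w n).im) atTop (𝓝 z.im) :=
        (Complex.continuous_im.tendsto z).comp hw1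
      filter_upwards [hw2, h3, h4.eventually_const_lt hz1, h4.eventually_lt_const hz2] with n a b c d
      exact ⟨a, b, c, d⟩
    obtain ⟨N, hN⟩ := eventually_atTop.1 hev
    have hN' : ∀ n, w (n + N) ∈ ({z}ᶜ : Set ℂ) ∧ ‖w (n + N) - z‖ < δ ∧ 0 < (w (n + N)).im ∧
      (w (n + N)).im < 1 := fun n => hN _ (Nat.le_add_left _ _)
    rw [← tendsto_add_atTop_iff_nat N]
    have hGz := G_BC z hz1.le hz2.le
    have hqBC : ∀ n, Pool.Agent.H255.BC.BC (q z (w (n + N))) := by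
      intro n
      obtain ⟨_, _, c, d⟩ := hN' n
      exact BC_smul _ (BC_add (G_BC _ c.le d.le) (BC_smul _ hGz))
    have hlim := hΦ.lim (fun n => q z (w (n + N))) (G' z) C hqBC
      (G'_BC z hz1 hz2)
      (fun n x hx => hC _ (by simpa using (hN' n).1) (hN' n).2.1 x hx)
      (fun a b ha hb => q_unif z hz1 hz2 _ ((tendsto_add_atTop_iff_nat N).2 hw1)
        (fun n => by simpa using (hN' n).1) a b ha hb) β
    have hlim2 := (tendsto_const_nhds (x := α)).inner (𝕜 := ℂ) hlim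
    refine hlim2.congr (fun n => ?_)
    obtain ⟨_, _, c, d⟩ := hN' n
    have h5 : Φ (q z (w (n + N))) = (w (n + N) - z)⁻¹ • (Φ (G (w (n + N))) + (-1 : ℂ) • Φ (G z)) := by
      have e1 := hΦ.smul ((w (n + N) - z)⁻¹) (fun x => G (w (n + N)) x + (-1) * G z x)
        (BC_add (G_BC _ c.le d.le) (BC_smul _ hGz))
      have e2 := hΦ.add (G (w (n + N))) (fun x => (-1) * G z x) (G_BC _ c.le d.le) (BC_smul _ hGz)
      have e3 := hΦ.smul (-1) (G z) hGz
      rw [e2, e3] at e1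
      exact e1
    simp only [Function.comp_apply, slope_def_field, h5]
    simp only [_root_.smul_apply, _root_.add_apply, inner_smul_right,
      inner_add_right]
    rw [div_eq_inv_mul]
    ring
  · -- boundedness
    refine ⟨‖α‖ * (2 * ‖β‖), fun z h1 h2 => ?_⟩
    refine (norm_inner_le_norm _ _).trans ?_
    gcongr
    refine ((Φ (G z)).le_opNorm β).trans ?_
    gcongr
    exact hΦ.norm _ 2 (G_BC z h1 h2) (by norm_num) (fun x hx => G_bound2 z hx h1 h2)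
  · intro t
    constructor
    · have h7 : Φ (G t) = Φ sx * (Φ (uf (-t)) * Φ sx) := by
        rw [← hΦ.mul _ _ (huBC _) BC_sx, ← hΦ.mul _ _ BC_sx (BC_mul (huBC _) BC_sx)]
        apply hΦ.congr _ _ (G_BC _ (by simp) (by simp))
        intro x hx
        simp only [G, sx, uf, ell]
        have : (x : ℂ) = ((Real.sqrt x : ℝ) : ℂ) * ((Real.sqrt x : ℝ) : ℂ) := by
          rw [← Complex.ofReal_mul, Real.mul_self_sqrt hx.1.le]
        conv_lhs => rw [this]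
        rw [mul_assoc, mul_assoc, mul_comm _ (cexp _)]
        congr 3
        push_cast
        ring
      show ⟪α, Φ (G t) β⟫_ℂ = _
      rw [h7]
      show ⟪α, Φ sx (Φ (uf (-t)) (Φ sx β))⟫_ℂ = _
      rw [inner_star, starP hΦ, hα1, hβ1]
    · have h7 : Φ (G (t + I)) = Φ s2 * (Φ (uf (-t)) * Φ s2) := by
        rw [← hΦ.mul _ _ (huBC _) BC_s2, ← hΦ.mul _ _ BC_s2 (BC_mul (huBC _) BC_s2)]
        apply hΦ.congr _ _ (G_BC _ (by simp) (by simp))
        intro x hx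
        simp only [G, s2, uf]
        have h8 : ((Real.sqrt (2 - x) : ℝ) : ℂ) * ((Real.sqrt (2 - x) : ℝ) : ℂ) = ((2 - x : ℝ) : ℂ) := by
          rw [← Complex.ofReal_mul, Real.mul_self_sqrt (by linarith [hx.2])]
        have h9 : cexp (-I * (t + I) * (ell x : ℂ)) =
            ((((2 - x) / x : ℝ)) : ℂ) * cexp (I * ((-t * Real.log ((2 - x) / x) : ℝ) : ℂ)) := by
          have e1 : cexp (-I * (t + I) * (ell x : ℂ)) = cexp ((ell x : ℝ) : ℂ) *
              cexp (I * ((-t * ell x : ℝ) : ℂ)) := by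
            rw [← Complex.exp_add]
            congr 1
            push_cast
            have := Complex.I_sq
            linear_combination (-(ell x : ℂ)) * this
          rw [e1, ← Complex.ofReal_exp, exp_ell hx]
          rfl
        rw [h9]
        have hx0 : (x : ℂ) ≠ 0 := by exact_mod_cast hx.1.ne'
        calc (x : ℂ) * (((((2 - x) / x : ℝ)) : ℂ) * cexp (I * ((-t * Real.log ((2 - x) / x) : ℝ) : ℂ)))
            = ((2 - x : ℝ) : ℂ) * cexp (I * ((-t * Real.log ((2 - x) / x) : ℝ) : ℂ)) := by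
              push_cast; field_simp
          _ = _ := by rw [← h8]; ring
      show ⟪α, Φ (G (t + I)) β⟫_ℂ = _
      rw [h7]
      show ⟪α, Φ s2 (Φ (uf (-t)) (Φ s2 β))⟫_ℂ = _
      rw [inner_star, starQ hΦ, hα2, hβ2, ← hJU, hJ.inner]
      rw [← inner_conj_symm, inner_star, hΦα, inner_conj_symm]

end Pool.Agent.H255.BC.TT_V10
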