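import Pool.Agent.H255.BC.Defs4

set_option autoImplicit false

open MeasureTheory Filter Topology Complex
open scoped InnerProductSpace ENNReal

namespace Pool.Agent.H255.BC.TT_V2

open Pool.Agent.W662.CB Pool.Agent.H255.BC

variable {H : Type} [NormedAddCommGroup H] [InnerProductSpace ℂ H] [CompleteSpace H]

theorem weak_lim {ι : Type} (F : Ultrafilter ι) (x : ι → H →L[ℂ] H) (hx : ∀ i, ‖x i‖ ≤ 1) :
    ∃ y : H →L[ℂ] H, ∀ v w : H, Tendsto (fun i => ⟪v, x i w⟫_ℂ) F (𝓝 ⟪v, y w⟫_ℂ) := by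
  have hb : ∀ v w : H, ∀ i, ‖⟪v, x i w⟫_ℂ‖ ≤ ‖v‖ * ‖w‖ := by
    intro v w i
    have h0 : ‖x i w‖ ≤ 1 * ‖w‖ := (x i).le_of_opNorm_le (hx i) w
    calc ‖⟪v, x i w⟫_ℂ‖ ≤ ‖v‖ * ‖x i w‖ := norm_inner_le_norm _ _
      _ ≤ ‖v‖ * (1 * ‖w‖) := mul_le_mul_of_nonneg_left h0 (norm_nonneg _)
      _ = _ := by ring
  have h1 : ∀ v w : H, ∃ l : ℂ, ‖l‖ ≤ ‖v‖ * ‖w‖ ∧
      Tendsto (fun i => ⟪v, x i w⟫_ℂ) F (𝓝 l) := by
    intro v w
    have hc : IsCompact (Metric.closedBall (0 : ℂ) (‖v‖ * ‖w‖)) := isCompact_closedBall _ _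
    obtain ⟨l, hl, hl2⟩ := hc.ultrafilter_le_nhds (F.map (fun i => ⟪v, x i w⟫_ℂ)) (by
      rw [Ultrafilter.coe_map, le_principal_iff, mem_map]
      exact Filter.univ_mem' fun i => by simpa using hb v w i)
    exact ⟨l, by simpa using hl, hl2⟩
  choose B hB hB2 using h1
  have hadd1 : ∀ v v' w, B (v + v') w = B v w + B v' w := by
    intro v v' w
    refine tendsto_nhds_unique (hB2 _ _) ?_
    simpa only [inner_add_left] using (hB2 v w).add (hB2 v' w)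
  have hsm1 : ∀ (c : ℂ) (v w : H), B (c • v) w = (starRingEnd ℂ) c • B v w := by
    intro c v w
    refine tendsto_nhds_unique (hB2 _ _) ?_
    simpa only [inner_smul_left, smul_eq_mul] using (hB2 v w).const_mul ((starRingEnd ℂ) c)
  have hadd2 : ∀ v w w', B v (w + w') = B v w + B v w' := by
    intro v w w'
    refine tendsto_nhds_unique (hB2 _ _) ?_
    simpa only [map_add, inner_add_right] using (hB2 v w).add (hB2 v w')
  have hsm2 : ∀ (c : ℂ) (v w : H), B v (c • w) = (RingHom.id ℂ) c • B v w := by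
    intro c v w
    refine tendsto_nhds_unique (hB2 _ _) ?_
    simpa only [map_smul, inner_smul_right, smul_eq_mul, RingHom.id_apply] using
      (hB2 v w).const_mul c
  let L : H →ₛₗ[starRingEnd ℂ] H →ₛₗ[RingHom.id ℂ] ℂ :=
    LinearMap.mk₂'ₛₗ (starRingEnd ℂ) (RingHom.id ℂ) B hadd1 hsm1 hadd2 hsm2
  let L2 := L.mkContinuous₂ 1 (by
    intro v w
    have : L v w = B v w := rfl
    rw [this, one_mul]
    exact hB v w)
  have hL2 : ∀ v w, L2 v w = B v w := fun v w => rfl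
  refine ⟨ContinuousLinearMap.adjoint (InnerProductSpace.continuousLinearMapOfBilin L2), ?_⟩
  intro v w
  rw [ContinuousLinearMap.adjoint_inner_right, InnerProductSpace.continuousLinearMapOfBilin_apply,
    hL2]
  exact hB2 v w

theorem mem_of_lim {ι : Type} (M : VonNeumannAlgebra H) (F : Ultrafilter ι)
    (x : ι → H →L[ℂ] H) (hx : ∀ i, x i ∈ M) (y : H →L[ℂ] H)
    (hy : ∀ v w : H, Tendsto (fun i => ⟪v, x i w⟫_ℂ) F (𝓝 ⟪v, y w⟫_ℂ)) : y ∈ M := by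
  rw [← M.commutant_commutant, VonNeumannAlgebra.mem_commutant_iff]
  intro g hg
  rw [VonNeumannAlgebra.mem_commutant_iff] at hg
  ext w
  refine ext_inner_left ℂ fun v => ?_
  simp only [mul_apply_eq_comp]
  have e1 : ⟪v, g (y w)⟫_ℂ = ⟪ContinuousLinearMap.adjoint g v, y w⟫_ℂ := by
    rw [ContinuousLinearMap.adjoint_inner_left]
  rw [e1]
  refine tendsto_nhds_unique (hy _ _) ((hy v (g w)).congr fun i => ?_)
  rw [ContinuousLinearMap.adjoint_inner_left]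
  have := congrArg (fun T : H →L[ℂ] H => T w) (hg (x i) (hx i))
  simp only [mul_apply_eq_comp] at this
  rw [this]

/-- `x ∈ M`, `0 ≤ x ≤ 1` -/
def Q (M : VonNeumannAlgebra H) (x : H →L[ℂ] H) : Prop :=
  x ∈ M ∧ ∀ v : H, (⟪v, x v⟫_ℂ).im = 0 ∧ 0 ≤ (⟪v, x v⟫_ℂ).re ∧ (⟪v, x v⟫_ℂ).re ≤ ‖v‖ ^ 2

theorem Q_lim {ι : Type} (M : VonNeumannAlgebra H) (F : Ultrafilter ι)
    (x : ι → H →L[ℂ] H) (hx : ∀ i, Q M (x i)) (y : H →L[ℂ] H)
    (hy : ∀ v w : H, Tendsto (fun i => ⟪v, x i w⟫_ℂ) F (𝓝 ⟪v, y w⟫_ℂ)) : Q M y := by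
  refine ⟨mem_of_lim M F x (fun i => (hx i).1) y hy, fun v => ⟨?_, ?_, ?_⟩⟩
  · have h := (Complex.continuous_im.tendsto _).comp (hy v v)
    refine tendsto_nhds_unique h (Tendsto.congr (fun i => ?_) tendsto_const_nhds)
    exact (((hx i).2 v).1).symm
  · have h := (Complex.continuous_re.tendsto _).comp (hy v v)
    exact ge_of_tendsto' h fun i => ((hx i).2 v).2.1
  · have h := (Complex.continuous_re.tendsto _).comp (hy v v)
    exact le_of_tendsto' h fun i => ((hx i).2 v).2.2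

theorem pos_of (x : H →L[ℂ] H) (h : ∀ v : H, (⟪v, x v⟫_ℂ).im = 0 ∧ 0 ≤ (⟪v, x v⟫_ℂ).re) :
    0 ≤ x := by
  rw [ContinuousLinearMap.nonneg_iff_isPositive, ContinuousLinearMap.isPositive_iff_complex]
  intro v
  have e : ⟪x v, v⟫_ℂ = (starRingEnd ℂ) ⟪v, x v⟫_ℂ := (inner_conj_symm _ _).symm
  rw [e]
  have h1 := h v
  generalize ⟪v, x v⟫_ℂ = z at h1
  refine ⟨?_, by simpa using h1.2⟩
  apply Complex.ext
  · simp
  · simp [h1.1]

theorem of_pos (x : H →L[ℂ] H) (h : 0 ≤ x) (v : H) :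
    (⟪v, x v⟫_ℂ).im = 0 ∧ 0 ≤ (⟪v, x v⟫_ℂ).re := by
  rw [ContinuousLinearMap.nonneg_iff_isPositive, ContinuousLinearMap.isPositive_iff_complex] at h
  have e : ⟪x v, v⟫_ℂ = (starRingEnd ℂ) ⟪v, x v⟫_ℂ := (inner_conj_symm _ _).symm
  have h1 := h v
  rw [e] at h1
  generalize ⟪v, x v⟫_ℂ = z at h1 ⊢
  refine ⟨?_, by simpa using h1.2⟩
  have := congrArg Complex.im h1.1
  simp only [Complex.ofReal_im, RCLike.im_eq_complex_im, Complex.conj_im] at this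
  linarith

theorem Q_nonneg {M : VonNeumannAlgebra H} {x : H →L[ℂ] H} (h : Q M x) : 0 ≤ x :=
  pos_of x fun v => ⟨(h.2 v).1, (h.2 v).2.1⟩

theorem Q_le {M : VonNeumannAlgebra H} {x : H →L[ℂ] H} (h : Q M x) : x ≤ 1 := by
  rw [← sub_nonneg]
  refine pos_of _ fun v => ?_
  have e : ⟪v, (1 - x) v⟫_ℂ = ⟪v, v⟫_ℂ - ⟪v, x v⟫_ℂ := by
    simp [inner_sub_right]
  have h2 : ⟪v, v⟫_ℂ = ((‖v‖ ^ 2 : ℝ) : ℂ) := by
    rw [inner_self_eq_norm_sq_to_K]; norm_cast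
  rw [e, h2]
  refine ⟨by rw [Complex.sub_im, (h.2 v).1, Complex.ofReal_im, sub_zero], ?_⟩
  rw [Complex.sub_re, Complex.ofReal_re]
  linarith [(h.2 v).2.2]

theorem Q_norm {M : VonNeumannAlgebra H} {x : H →L[ℂ] H} (h : Q M x) : ‖x‖ ≤ 1 :=
  (CStarAlgebra.norm_le_one_iff_of_nonneg x (Q_nonneg h)).2 (Q_le h)

theorem Q_of {M : VonNeumannAlgebra H} {x : H →L[ℂ] H} (hM : x ∈ M) (h0 : 0 ≤ x) (h1 : x ≤ 1) :
    Q M x := by
  refine ⟨hM, fun v => ⟨(of_pos x h0 v).1, (of_pos x h0 v).2, ?_⟩⟩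
  rw [← sub_nonneg] at h1
  have h3 := (of_pos _ h1 v).2
  have e : ⟪v, (1 - x) v⟫_ℂ = ⟪v, v⟫_ℂ - ⟪v, x v⟫_ℂ := by
    simp [inner_sub_right]
  have h2 : ⟪v, v⟫_ℂ = ((‖v‖ ^ 2 : ℝ) : ℂ) := by
    rw [inner_self_eq_norm_sq_to_K]; norm_cast
  rw [e, h2, Complex.sub_re, Complex.ofReal_re] at h3
  linarith

theorem star_of_nonneg {x : H →L[ℂ] H} (h0 : 0 ≤ x) : star x = x :=
  (IsSelfAdjoint.of_nonneg h0).star_eq

theorem inner_star (x : H →L[ℂ] H) (hx : star x = x) (v w : H) : ⟪x v, w⟫_ℂ = ⟪v, x w⟫_ℂ := by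
  conv_lhs => rw [← hx]
  rw [ContinuousLinearMap.star_eq_adjoint, ContinuousLinearMap.adjoint_inner_left]

theorem cfc_mem (M : VonNeumannAlgebra H) (y : H →L[ℂ] H) (hy : y ∈ M) (f : ℝ → ℝ) :
    cfc f y ∈ M := by
  rw [← M.commutant_commutant, VonNeumannAlgebra.mem_commutant_iff]
  intro g hg
  rw [VonNeumannAlgebra.mem_commutant_iff] at hg
  have h1 : Commute y g := hg y hy
  exact (h1.cfc_real f).symm

theorem key (M : VonNeumannAlgebra H) (ξ : H) (a : H →L[ℂ] H) (ha : a ∈ M.commutant)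
    (ha0 : 0 ≤ a) (ha1 : a ≤ 1) (y : H →L[ℂ] H) (hy : y ∈ M) (hys : star y = y) (δ : ℝ)
    (hδ : 0 < δ) : ∃ x : H →L[ℂ] H, Q M x ∧ y * x = x * y ∧ (⟪ξ, y (x ξ)⟫_ℂ).im = 0 ∧
      0 ≤ (⟪ξ, y (x ξ)⟫_ℂ).re ∧
      (⟪ξ, a (y ξ)⟫_ℂ).re ≤ (⟪ξ, y (x ξ)⟫_ℂ).re + δ * ‖ξ‖ ^ 2 := by
  have hsa : IsSelfAdjoint y := hys
  have hden : ∀ s : ℝ, 0 < max s 0 + δ := fun s => by
    have := le_max_right s 0
    linarith
  have hden' : ∀ s : ℝ, max s 0 + δ ≠ 0 := fun s => (hden s).ne'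
  let f : ℝ → ℝ := fun s => max s 0 / (max s 0 + δ)
  have hf : Continuous f := by
    refine Continuous.div (by fun_prop) (by fun_prop) hden'
  let x := cfc f y
  let g : ℝ → ℝ := fun s => Real.sqrt (max s 0)
  have hg : Continuous g := by fun_prop
  let h : ℝ → ℝ := fun s => Real.sqrt (max (-s) 0)
  have hh : Continuous h := by fun_prop
  let p := cfc g y
  let m := cfc h y
  have hx0 : 0 ≤ x := cfc_nonneg fun s _ => div_nonneg (le_max_right _ _) (hden s).le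
  have hx1 : x ≤ 1 := cfc_le_one f y fun s _ => by
    show max s 0 / (max s 0 + δ) ≤ 1
    rw [div_le_one (hden s)]
    linarith
  have hxM : x ∈ M := cfc_mem M y hy f
  have hpM : p ∈ M := cfc_mem M y hy g
  have hmM : m ∈ M := cfc_mem M y hy h
  have hps : star p = p := star_of_nonneg (cfc_nonneg fun s _ => Real.sqrt_nonneg _)
  have hms : star m = m := star_of_nonneg (cfc_nonneg fun s _ => Real.sqrt_nonneg _)
  have hyeq : y = p * p - m * m := by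
    show y = cfc g y * cfc g y - cfc h y * cfc h y
    rw [← cfc_mul g g y hg.continuousOn hg.continuousOn,
      ← cfc_mul h h y hh.continuousOn hh.continuousOn,
      ← cfc_sub (fun s => g s * g s) (fun s => h s * h s) y (hg.mul hg).continuousOn
        (hh.mul hh).continuousOn]
    conv_lhs => rw [← cfc_id ℝ y]
    congr 1
    funext s
    show s = Real.sqrt (max s 0) * Real.sqrt (max s 0) -
      Real.sqrt (max (-s) 0) * Real.sqrt (max (-s) 0)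
    rw [Real.mul_self_sqrt (le_max_right _ _), Real.mul_self_sqrt (le_max_right _ _)]
    rcases le_total s 0 with h1 | h1
    · rw [max_eq_right h1, max_eq_left (by linarith)]; ring
    · rw [max_eq_left h1, max_eq_right (by linarith)]; ring
  have hyx : y * x = cfc (fun s => s * f s) y := by
    rw [cfc_mul (fun s => s) f y continuous_id.continuousOn hf.continuousOn]
    show _ = cfc id y * cfc f y
    rw [cfc_id ℝ y]
  have hcomm : y * x = x * y := ((Commute.refl y).cfc_real f).symm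
  have hyx0 : 0 ≤ y * x := by
    rw [hyx]
    refine cfc_nonneg fun s _ => ?_
    show 0 ≤ s * (max s 0 / (max s 0 + δ))
    rcases le_total s 0 with h1 | h1
    · rw [max_eq_right h1]; simp
    · rw [max_eq_left h1]; positivity
  have hyx1 : 0 ≤ y * x - p * p + (δ : ℂ) • 1 := by
    have e : y * x - p * p + (δ : ℂ) • 1 = cfc (fun s => s * f s - g s * g s + δ) y := by
      rw [cfc_add_const δ (fun s => s * f s - g s * g s) y
        ((continuous_id.mul hf).sub (hg.mul hg)).continuousOn hsa,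
        cfc_sub (fun s => s * f s) (fun s => g s * g s) y (continuous_id.mul hf).continuousOn
          (hg.mul hg).continuousOn,
        cfc_mul g g y hg.continuousOn hg.continuousOn, ← hyx]
      congr 1
    rw [e]
    refine cfc_nonneg fun s _ => ?_
    show 0 ≤ s * (max s 0 / (max s 0 + δ)) - Real.sqrt (max s 0) * Real.sqrt (max s 0) + δ
    rw [Real.mul_self_sqrt (le_max_right _ _)]
    rcases le_total s 0 with h1 | h1
    · rw [max_eq_right h1]; simp [hδ.le]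
    · rw [max_eq_left h1]
      have : s * (s / (s + δ)) - s + δ = δ ^ 2 / (s + δ) := by
        have : s + δ ≠ 0 := by positivity
        field_simp
        ring
      rw [this]
      positivity
  have hap : a * p = p * a := ((VonNeumannAlgebra.mem_commutant_iff.1 ha) p hpM).symm
  have ham : a * m = m * a := ((VonNeumannAlgebra.mem_commutant_iff.1 ha) m hmM).symm
  have e0 : ∀ q : H →L[ℂ] H, star q = q → a * q = q * a → ⟪ξ, a (q (q ξ))⟫_ℂ = ⟪q ξ, a (q ξ)⟫_ℂ := by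
    intro q hq haq
    have h2 : a (q (q ξ)) = q (a (q ξ)) := congrArg (fun T : H →L[ℂ] H => T (q ξ)) haq
    rw [h2, inner_star q hq]
  have e1 : ⟪ξ, a (y ξ)⟫_ℂ = ⟪p ξ, a (p ξ)⟫_ℂ - ⟪m ξ, a (m ξ)⟫_ℂ := by
    rw [← e0 p hps hap, ← e0 m hms ham]
    have h2 : y ξ = p (p ξ) - m (m ξ) := congrArg (fun T : H →L[ℂ] H => T ξ) hyeq
    rw [h2, map_sub, inner_sub_right]
  have e2 := of_pos _ hyx0 ξ
  have e3 := of_pos _ hyx1 ξ
  have e4 : ⟪ξ, (y * x - p * p + (δ : ℂ) • 1) ξ⟫_ℂ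
      = ⟪ξ, y (x ξ)⟫_ℂ - ⟪p ξ, p ξ⟫_ℂ + δ * ⟪ξ, ξ⟫_ℂ := by
    have h2 : (y * x - p * p + (δ : ℂ) • 1) ξ = y (x ξ) - p (p ξ) + (δ : ℂ) • ξ := rfl
    rw [h2, inner_add_right, inner_sub_right, inner_smul_right, inner_star p hps]
  have hn : ∀ v : H, ⟪v, v⟫_ℂ = ((‖v‖ ^ 2 : ℝ) : ℂ) := fun v => by
    rw [inner_self_eq_norm_sq_to_K]; norm_cast
  refine ⟨x, Q_of hxM hx0 hx1, hcomm, e2.1, e2.2, ?_⟩
  have e5 := e3.2
  rw [e4, hn, hn] at e5
  have e6 : (⟪ξ, y (x ξ)⟫_ℂ - ((‖p ξ‖ ^ 2 : ℝ) : ℂ) + δ * ((‖ξ‖ ^ 2 : ℝ) : ℂ)).re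
      = (⟪ξ, y (x ξ)⟫_ℂ).re - ‖p ξ‖ ^ 2 + δ * ‖ξ‖ ^ 2 := by
    rw [← Complex.ofReal_mul, Complex.add_re, Complex.sub_re, Complex.ofReal_re, Complex.ofReal_re]
  rw [e6] at e5
  have e7 := (Q_of (M := M.commutant) ha ha0 ha1).2 (p ξ)
  have e8 := (Q_of (M := M.commutant) ha ha0 ha1).2 (m ξ)
  rw [e1, Complex.sub_re]
  linarith [e7.2.2, e8.2.1]

attribute [local instance] InnerProductSpace.complexToReal

theorem rinner (v w : H) : ⟪v, w⟫_ℝ = (⟪v, w⟫_ℂ).re := rfl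

/-- `M_sa ξ` -/
def K0 (M : VonNeumannAlgebra H) (ξ : H) : Submodule ℝ H where
  carrier := {v | ∃ y : H →L[ℂ] H, y ∈ M ∧ star y = y ∧ v = y ξ}
  zero_mem' := ⟨0, zero_mem M, star_zero _, rfl⟩
  add_mem' := by
    rintro _ _ ⟨y, hy, hys, rfl⟩ ⟨z, hz, hzs, rfl⟩
    exact ⟨y + z, add_mem hy hz, by rw [star_add, hys, hzs], rfl⟩
  smul_mem' := by
    rintro t _ ⟨y, hy, hys, rfl⟩
    refine ⟨(t : ℂ) • y, M.toStarSubalgebra.smul_mem hy _, ?_, rfl⟩
    rw [star_smul, hys]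
    simp

/-- the convex set of the proof -/
def C (M : VonNeumannAlgebra H) (ξ : H) (c : ℂ) : Set H :=
  {v | ∃ x : H →L[ℂ] H, Q M x ∧ v - c • x ξ ∈ (K0 M ξ)ᗮ}

theorem C_convex (M : VonNeumannAlgebra H) (ξ : H) (c : ℂ) : Convex ℝ (C M ξ c) := by
  rintro v ⟨x, hx, hv⟩ w ⟨z, hz, hw⟩ s t hs ht hst
  refine ⟨(s : ℂ) • x + (t : ℂ) • z, ⟨add_mem (M.toStarSubalgebra.smul_mem hx.1 _)
    (M.toStarSubalgebra.smul_mem hz.1 _), fun u => ?_⟩, ?_⟩
  · have e : ⟪u, ((s : ℂ) • x + (t : ℂ) • z) u⟫_ℂ = s * ⟪u, x u⟫_ℂ + t * ⟪u, z u⟫_ℂ := by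
      rw [← inner_smul_right, ← inner_smul_right, ← inner_add_right]; rfl
    have hx2 := hx.2 u
    have hz2 := hz.2 u
    rw [e, Complex.add_im, Complex.add_re, Complex.re_ofReal_mul, Complex.re_ofReal_mul,
      Complex.im_ofReal_mul, Complex.im_ofReal_mul, hx2.1, hz2.1]
    refine ⟨by ring, by nlinarith [mul_nonneg hs hx2.2.1, mul_nonneg ht hz2.2.1], ?_⟩
    have h1 := mul_le_mul_of_nonneg_left hx2.2.2 hs
    have h2 := mul_le_mul_of_nonneg_left hz2.2.2 ht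
    have h3 : s * ‖u‖ ^ 2 + t * ‖u‖ ^ 2 = ‖u‖ ^ 2 := by rw [← add_mul, hst, one_mul]
    linarith
  · have e : s • v + t • w - c • ((s : ℂ) • x + (t : ℂ) • z) ξ
        = s • (v - c • x ξ) + t • (w - c • z ξ) := by
      have h1 : ((s : ℂ) • x + (t : ℂ) • z) ξ = (s : ℂ) • x ξ + (t : ℂ) • z ξ := rfl
      have h2 : ∀ (r : ℝ) (u : H), r • u = (r : ℂ) • u := fun r u => (Complex.coe_smul r u).symm
      rw [h1, h2, h2, h2, h2, smul_sub, smul_sub, smul_add, smul_comm c (s : ℂ),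
        smul_comm c (t : ℂ)]
      abel
    rw [e]
    exact add_mem (Submodule.smul_mem _ _ hv) (Submodule.smul_mem _ _ hw)

theorem C_closed (M : VonNeumannAlgebra H) (ξ : H) (c : ℂ) : IsClosed (C M ξ c) := by
  refine IsSeqClosed.isClosed ?_
  intro v w hv hw
  choose x hx hxv using hv
  let F : Ultrafilter ℕ := Ultrafilter.of atTop
  have hF : (F : Filter ℕ) ≤ atTop := Ultrafilter.of_le _
  obtain ⟨y, hy⟩ := weak_lim F x (fun i => Q_norm (hx i))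
  refine ⟨y, Q_lim M F x hx y hy, ?_⟩
  rw [Submodule.mem_orthogonal']
  intro u hu
  have h1 : Tendsto (fun n => ⟪v n, u⟫_ℂ) F (𝓝 ⟪w, u⟫_ℂ) :=
    (hw.mono_left hF).inner tendsto_const_nhds
  have h2 : Tendsto (fun n => ⟪c • x n ξ, u⟫_ℂ) F (𝓝 ⟪c • y ξ, u⟫_ℂ) := by
    have e : ∀ z : H →L[ℂ] H, ⟪c • z ξ, u⟫_ℂ
        = (starRingEnd ℂ) c * (starRingEnd ℂ) ⟪u, z ξ⟫_ℂ := by
      intro z
      rw [inner_smul_left, inner_conj_symm]
    simp only [e]
    exact ((Complex.continuous_conj.tendsto _).comp (hy u ξ)).const_mul _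
  have h3 := (Complex.continuous_re.tendsto _).comp (h1.sub h2)
  rw [← inner_sub_left] at h3
  rw [rinner]
  refine tendsto_nhds_unique h3 (Tendsto.congr (fun n => ?_) tendsto_const_nhds)
  have h4 := (Submodule.mem_orthogonal' _ _).1 (hxv n) u hu
  rw [rinner, inner_sub_left] at h4
  exact h4.symm

theorem main_mem (M : VonNeumannAlgebra H) (ξ : H) (a : H →L[ℂ] H) (lam : ℂ)
    (ha : a ∈ M.commutant) (ha0 : 0 ≤ a) (ha1 : a ≤ 1) (hlam : 1 ≤ 2 * lam.re) :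
    a ξ ∈ C M ξ (2 * (starRingEnd ℂ) lam) := by
  by_contra hcon
  set c : ℂ := 2 * (starRingEnd ℂ) lam with hc
  obtain ⟨f, u, hf, hfa⟩ := geometric_hahn_banach_closed_point (C_convex M ξ c)
    (C_closed M ξ c) hcon
  let h : H := (InnerProductSpace.toDual ℝ H).symm f
  have hh : ∀ v : H, f v = (⟪h, v⟫_ℂ).re := fun v =>
    (InnerProductSpace.toDual_symm_apply (𝕜 := ℝ) (y := f) (x := v)).symm
  have hQ0 : Q M (0 : H →L[ℂ] H) := ⟨zero_mem M, fun v => by simp⟩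
  have hperp : h ∈ (K0 M ξ)ᗮᗮ := by
    rw [Submodule.mem_orthogonal']
    intro k hk
    have h1 : ∀ t : ℝ, t * f k < u := by
      intro t
      have h2 : t • k ∈ C M ξ c := by
        refine ⟨0, hQ0, ?_⟩
        have : t • k - c • (0 : H →L[ℂ] H) ξ = t • k := by simp
        rw [this]
        exact Submodule.smul_mem _ _ hk
      have := hf _ h2
      rwa [map_smul, smul_eq_mul] at this
    rw [rinner, ← hh]
    by_contra hne
    have := h1 (u / f k)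
    rw [div_mul_cancel₀ _ hne] at this
    exact lt_irrefl _ this
  rw [Submodule.orthogonal_orthogonal_eq_closure] at hperp
  have hcl : h ∈ closure ((K0 M ξ : Submodule ℝ H) : Set H) := hperp
  have hgap : 0 < f (a ξ) - u := by linarith
  set gap := f (a ξ) - u with hgapdef
  set B : ℝ := ‖a ξ‖ + ‖c‖ * ‖ξ‖ + 1 with hB
  have hBpos : 0 < B := by positivity
  obtain ⟨w, hw, hdist⟩ := Metric.mem_closure_iff.1 hcl (gap / (2 * B)) (by positivity)
  obtain ⟨y, hy, hys, rfl⟩ := hw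
  obtain ⟨x, hx, hcomm, him, hre, hle⟩ := key M ξ a ha ha0 ha1 y hy hys
    (gap / (4 * (‖ξ‖ ^ 2 + 1))) (by positivity)
  have hxC : c • x ξ ∈ C M ξ c := ⟨x, hx, by rw [sub_self]; exact zero_mem _⟩
  have h1 := hf _ hxC
  have hnx : ‖x ξ‖ ≤ ‖ξ‖ := by
    have := x.le_of_opNorm_le (Q_norm hx) ξ
    rwa [one_mul] at this
  have h2 : gap < (⟪h, a ξ - c • x ξ⟫_ℂ).re := by
    rw [inner_sub_right, Complex.sub_re, ← hh, ← hh]
    linarith
  have h3 : (⟪h, a ξ - c • x ξ⟫_ℂ).re ≤ (⟪y ξ, a ξ - c • x ξ⟫_ℂ).re + gap / 2 := by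
    have e : ⟪h, a ξ - c • x ξ⟫_ℂ = ⟪y ξ, a ξ - c • x ξ⟫_ℂ + ⟪h - y ξ, a ξ - c • x ξ⟫_ℂ := by
      rw [← inner_add_left]
      congr 1
      abel
    rw [e, Complex.add_re]
    have h4 : (⟪h - y ξ, a ξ - c • x ξ⟫_ℂ).re ≤ ‖h - y ξ‖ * ‖a ξ - c • x ξ‖ :=
      (Complex.re_le_norm _).trans (norm_inner_le_norm _ _)
    have h5 : ‖a ξ - c • x ξ‖ ≤ B := by
      refine (norm_sub_le _ _).trans ?_
      rw [norm_smul, hB]
      have := mul_le_mul_of_nonneg_left hnx (norm_nonneg c)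
      linarith
    have h6 : ‖h - y ξ‖ ≤ gap / (2 * B) := by
      rw [← dist_eq_norm]; exact hdist.le
    have h7 : ‖h - y ξ‖ * ‖a ξ - c • x ξ‖ ≤ gap / (2 * B) * B :=
      mul_le_mul h6 h5 (norm_nonneg _) (by positivity)
    have h8 : gap / (2 * B) * B = gap / 2 := by field_simp
    linarith
  have hay : ⟪y ξ, a ξ⟫_ℂ = ⟪ξ, a (y ξ)⟫_ℂ := by
    rw [inner_star y hys]
    have : y (a ξ) = a (y ξ) :=
      congrArg (fun T : H →L[ℂ] H => T ξ) ((VonNeumannAlgebra.mem_commutant_iff.1 ha) y hy)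
    rw [this]
  have h9 : (⟪y ξ, c • x ξ⟫_ℂ).re = 2 * lam.re * (⟪ξ, y (x ξ)⟫_ℂ).re := by
    rw [inner_smul_right, inner_star y hys, hc, Complex.mul_re, him]
    simp
  have h10 : (⟪y ξ, a ξ - c • x ξ⟫_ℂ).re ≤ gap / 4 := by
    rw [inner_sub_right, Complex.sub_re, hay, h9]
    have h11 : (⟪ξ, y (x ξ)⟫_ℂ).re ≤ 2 * lam.re * (⟪ξ, y (x ξ)⟫_ℂ).re := by nlinarith
    have h12 : gap / (4 * (‖ξ‖ ^ 2 + 1)) * ‖ξ‖ ^ 2 ≤ gap / 4 := by
      have h13 : gap / (4 * (‖ξ‖ ^ 2 + 1)) * ‖ξ‖ ^ 2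
          = gap / 4 * (‖ξ‖ ^ 2 / (‖ξ‖ ^ 2 + 1)) := by
        field_simp
      rw [h13]
      have h14 : ‖ξ‖ ^ 2 / (‖ξ‖ ^ 2 + 1) ≤ 1 := by
        rw [div_le_one (by positivity)]
        linarith
      nlinarith
    linarith
  linarith

theorem r : S_V2 := by
  intro H _ _ _ M ξ _ _ a lam ha ha0 ha1 hlam
  obtain ⟨x, hx, hk⟩ := main_mem M ξ a lam ha ha0 ha1 hlam
  have hxs : star x = x := star_of_nonneg (Q_nonneg hx)
  have has : star a = a := star_of_nonneg ha0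
  refine ⟨x, hx.1, hxs, ?_⟩
  have hsa : ∀ y : H →L[ℂ] H, y ∈ M → star y = y →
      ⟪a ξ, y ξ⟫_ℂ = lam * ⟪ξ, x (y ξ)⟫_ℂ + starRingEnd ℂ lam * ⟪ξ, y (x ξ)⟫_ℂ := by
    intro y hy hys
    have h1 := (Submodule.mem_orthogonal' _ _).1 hk (y ξ) ⟨y, hy, hys, rfl⟩
    rw [rinner, inner_sub_left, inner_smul_left, inner_star x hxs] at h1
    have h2 : ⟪ξ, y (x ξ)⟫_ℂ = (starRingEnd ℂ) ⟪ξ, x (y ξ)⟫_ℂ := by
      rw [inner_conj_symm, ← inner_star y hys, ← inner_star x hxs]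
    have h3 : (⟪a ξ, y ξ⟫_ℂ).im = 0 := by
      have h4 : (starRingEnd ℂ) ⟪a ξ, y ξ⟫_ℂ = ⟪a ξ, y ξ⟫_ℂ := by
        rw [inner_conj_symm, inner_star y hys, inner_star a has]
        congr 1
        exact congrArg (fun T : H →L[ℂ] H => T ξ) ((VonNeumannAlgebra.mem_commutant_iff.1 ha) y hy)
      exact Complex.conj_eq_iff_im.1 h4
    rw [h2, ← map_mul]
    apply Complex.ext
    · rw [Complex.add_re, Complex.conj_re]
      rw [Complex.sub_re] at h1
      have e : ((starRingEnd ℂ) (2 * (starRingEnd ℂ) lam) * ⟪ξ, x (y ξ)⟫_ℂ).re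
          = 2 * (lam * ⟪ξ, x (y ξ)⟫_ℂ).re := by
        simp [Complex.mul_re]
        ring
      rw [e] at h1
      linarith
    · rw [Complex.add_im, Complex.conj_im, h3]
      ring
  intro y hy
  -- real and imaginary parts
  have hys : star y ∈ M := star_mem hy
  let y1 : H →L[ℂ] H := (1 / 2 : ℂ) • (y + star y)
  let y2 : H →L[ℂ] H := (-(I / 2) : ℂ) • (y - star y)
  have hy1 : y1 ∈ M := M.toStarSubalgebra.smul_mem (add_mem hy hys) _
  have hy2 : y2 ∈ M := M.toStarSubalgebra.smul_mem (sub_mem hy hys) _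
  have hy1s : star y1 = y1 := by
    show star ((1 / 2 : ℂ) • (y + star y)) = (1 / 2 : ℂ) • (y + star y)
    rw [star_smul, star_add, star_star, add_comm]
    simp
  have hy2s : star y2 = y2 := by
    show star ((-(I / 2) : ℂ) • (y - star y)) = (-(I / 2) : ℂ) • (y - star y)
    rw [star_smul, star_sub, star_star]
    have : star (-(I / 2) : ℂ) = I / 2 := by
      simp
      ring
    rw [this]
    module
  have hyy : y = y1 + I • y2 := by
    show y = (1 / 2 : ℂ) • (y + star y) + I • ((-(I / 2) : ℂ) • (y - star y))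
    rw [smul_smul]
    have : I * (-(I / 2)) = (1 / 2 : ℂ) := by
      have := Complex.I_mul_I
      linear_combination (-1 / 2 : ℂ) * this
    rw [this, ← smul_add]
    have : y + star y + (y - star y) = (2 : ℂ) • y := by
      rw [two_smul]; abel
    rw [this, smul_smul]
    norm_num
  have g1 := hsa y1 hy1 hy1s
  have g2 := hsa y2 hy2 hy2s
  have ea : ∀ v : H, y v = y1 v + I • y2 v := fun v => congrArg (fun T : H →L[ℂ] H => T v) hyy
  rw [ea ξ, ea (x ξ), map_add, map_smul, inner_add_right, inner_add_right, inner_add_right,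
    inner_smul_right, inner_smul_right, inner_smul_right, g1, g2]
  ring

end Pool.Agent.H255.BC.TT_V2

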