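import Pool.Agent.H255.BC.Defs4

set_option autoImplicit false

open MeasureTheory Filter Topology Complex
open scoped InnerProductSpace ENNReal

namespace Pool.Agent.H255.BC.TT_V3

open Pool.Agent.W662.CB Pool.Agent.H255.BC

section
variable {H : Type} [NormedAddCommGroup H] [InnerProductSpace ℂ H] [CompleteSpace H]

lemma smul_mem_vn (M : VonNeumannAlgebra H) (c : ℂ) {x : H →L[ℂ] H} (hx : x ∈ M) : c • x ∈ M :=
  M.toStarSubalgebra.toSubalgebra.smul_mem hx c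

/-- the linear subspace `M ξ` -/
def orbit (M : VonNeumannAlgebra H) (ξ : H) : Submodule ℂ H where
  carrier := {v | ∃ x : H →L[ℂ] H, x ∈ M ∧ x ξ = v}
  add_mem' := by
    rintro _ _ ⟨x, hx, rfl⟩ ⟨y, hy, rfl⟩
    exact ⟨x + y, add_mem hx hy, rfl⟩
  zero_mem' := ⟨0, zero_mem M, rfl⟩
  smul_mem' := by
    rintro c _ ⟨x, hx, rfl⟩
    exact ⟨c • x, smul_mem_vn M c hx, rfl⟩

lemma orbit_inv (M : VonNeumannAlgebra H) (ξ : H) (g : H →L[ℂ] H) (hg : g ∈ M) (v : H)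
    (hv : v ∈ (orbit M ξ).topologicalClosure) : g v ∈ (orbit M ξ).topologicalClosure := by
  have h1 : (orbit M ξ) ≤ ((orbit M ξ).topologicalClosure).comap (g : H →ₗ[ℂ] H) := by
    rintro _ ⟨x, hx, rfl⟩
    apply Submodule.le_topologicalClosure
    exact ⟨g * x, mul_mem hg hx, rfl⟩
  have h2 : IsClosed (((orbit M ξ).topologicalClosure).comap (g : H →ₗ[ℂ] H) : Set H) :=
    (Submodule.isClosed_topologicalClosure _).preimage g.continuous
  exact Submodule.topologicalClosure_minimal _ h1 h2 hv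

lemma dense_commutant (M : VonNeumannAlgebra H) (ξ : H) (hs : IsSeparating M ξ) :
    Dense {v : H | ∃ x : H →L[ℂ] H, x ∈ M.commutant ∧ x ξ = v} := by
  set K := (orbit M.commutant ξ).topologicalClosure with hK
  have hKc : IsClosed (K : Set H) := Submodule.isClosed_topologicalClosure _
  have : CompleteSpace K := hKc.completeSpace_coe
  set p := K.starProjection with hp
  have hpM : p ∈ M := by
    rw [← VonNeumannAlgebra.commutant_commutant M, VonNeumannAlgebra.mem_commutant_iff]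
    intro g hg
    have hinv : ∀ v ∈ K, g v ∈ K := fun v hv => orbit_inv _ ξ g hg v hv
    have hgs : star g ∈ M.commutant := star_mem hg
    have hinv' : ∀ v ∈ K, (star g) v ∈ K := fun v hv => orbit_inv _ ξ _ hgs v hv
    ext v
    show g (p v) = p (g v)
    have h1 : p v ∈ K := Submodule.starProjection_apply_mem K v
    have h2 : v - p v ∈ Kᗮ := Submodule.sub_starProjection_mem_orthogonal v
    have h3 : g (v - p v) ∈ Kᗮ := by
      rw [Submodule.mem_orthogonal]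
      intro u hu
      have h4 : ⟪u, g (v - p v)⟫_ℂ = ⟪(star g) u, v - p v⟫_ℂ := by
        rw [ContinuousLinearMap.star_eq_adjoint, ContinuousLinearMap.adjoint_inner_left]
      rw [h4]
      exact (Submodule.mem_orthogonal _ _).1 h2 _ (hinv' u hu)
    have h5 : p (g v) = p (g (p v)) + p (g (v - p v)) := by
      rw [← map_add, ← map_add]
      congr 2
      abel
    rw [h5, Submodule.starProjection_eq_self_iff.2 (hinv _ h1),
      (Submodule.starProjection_apply_eq_zero_iff K).2 h3, add_zero]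
  have hξK : ξ ∈ K := by
    apply Submodule.le_topologicalClosure
    exact ⟨1, one_mem _, rfl⟩
  have h1 : (1 - p) = 0 := by
    apply hs _ (sub_mem (one_mem _) hpM)
    rw [sub_apply, one_apply_eq_self,
      Submodule.starProjection_eq_self_iff.2 hξK, sub_self]
  intro v
  have h2 : p v = v := by
    have : p = 1 := (sub_eq_zero.1 h1).symm
    rw [this]; rfl
  have h3 : v ∈ K := by
    rw [← h2]; exact Submodule.starProjection_apply_mem K v
  have h4 : (K : Set H) = closure (orbit M.commutant ξ : Set H) := by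
    rw [hK, Submodule.topologicalClosure_coe]
  have h5 : v ∈ closure (orbit M.commutant ξ : Set H) := by
    rw [← h4]; exact h3
  exact h5

variable {M : VonNeumannAlgebra H} {ξ : H} {R : H →L[ℂ] H} {D : H → H}

lemma R_inner (hT : IsTT M ξ R D) (v w : H) : ⟪R v, w⟫_ℂ = ⟪v, R w⟫_ℂ := by
  have h := hT.sa
  rw [ContinuousLinearMap.star_eq_adjoint] at h
  rw [← ContinuousLinearMap.adjoint_inner_right, h]

lemma D_sub (hT : IsTT M ξ R D) (v w : H) : D (v - w) = D v - D w := by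
  have h1 : v - w = v + (-1 : ℂ) • w := by rw [neg_one_smul, sub_eq_add_neg]
  rw [h1, hT.add, hT.smul]
  simp [sub_eq_add_neg]

lemma D_bound (hT : IsTT M ξ R D) : ∃ C : ℝ, 0 ≤ C ∧ ∀ v : H, ‖D v‖ ≤ C * ‖v‖ := by
  refine ⟨Real.sqrt (‖R‖ * (2 + ‖R‖)), Real.sqrt_nonneg _, fun v => ?_⟩
  have h1 : ⟪D v, D v⟫_ℂ = ⟪R ((2 : ℂ) • v - R v), v⟫_ℂ := by
    rw [hT.symm v (D v), hT.sq]
  have h2 : ‖D v‖ ^ 2 ≤ ‖R‖ * (2 + ‖R‖) * ‖v‖ ^ 2 := by
    have h3 : ‖D v‖ ^ 2 = ‖⟪D v, D v⟫_ℂ‖ := by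
      rw [inner_self_eq_norm_sq_to_K]
      simp
    rw [h3, h1]
    calc ‖⟪R ((2 : ℂ) • v - R v), v⟫_ℂ‖ ≤ ‖R ((2 : ℂ) • v - R v)‖ * ‖v‖ := norm_inner_le_norm _ _
      _ ≤ (‖R‖ * ((2 + ‖R‖) * ‖v‖)) * ‖v‖ := by
          apply mul_le_mul_of_nonneg_right _ (norm_nonneg _)
          refine (R.le_opNorm _).trans ?_
          apply mul_le_mul_of_nonneg_left _ (norm_nonneg _)
          calc ‖(2 : ℂ) • v - R v‖ ≤ ‖(2 : ℂ) • v‖ + ‖R v‖ := norm_sub_le _ _
            _ ≤ 2 * ‖v‖ + ‖R‖ * ‖v‖ := by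
                apply add_le_add
                · rw [norm_smul]; simp
                · exact R.le_opNorm v
            _ = _ := by ring
      _ = _ := by ring
  have h4 : (0 : ℝ) ≤ ‖R‖ * (2 + ‖R‖) := by positivity
  have h5 : ‖D v‖ ^ 2 ≤ (Real.sqrt (‖R‖ * (2 + ‖R‖)) * ‖v‖) ^ 2 := by
    rw [mul_pow, Real.sq_sqrt h4]; exact h2
  exact le_of_sq_le_sq h5 (by positivity)

lemma D_cont (hT : IsTT M ξ R D) : Continuous D := by
  obtain ⟨C, hC0, hC⟩ := D_bound hT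
  refine (LipschitzWith.of_dist_le_mul (K := C.toNNReal) fun v w => ?_).continuous
  rw [dist_eq_norm, dist_eq_norm, ← D_sub hT, Real.coe_toNNReal C hC0]
  exact hC _

lemma conj2 : starRingEnd ℂ (2 : ℂ) = 2 := map_ofNat _ 2

/-- `y` with `y ξ = D (a ξ)`, `y^* ξ = R (a ξ)` for a positive contraction `a` of the commutant -/
lemma exists_pos (h2 : S_V2) (hcyc : IsCyclic M ξ) (hsep : IsSeparating M ξ) (hT : IsTT M ξ R D)
    (a : H →L[ℂ] H) (ha : a ∈ M.commutant) (h0 : 0 ≤ a) (h1 : a ≤ 1) :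
    ∃ y : H →L[ℂ] H, y ∈ M ∧ y ξ = D (a ξ) ∧ star y ξ = R (a ξ) := by
  obtain ⟨x, hx, hxs, hxy⟩ := h2 H M ξ hcyc hsep a (1 / 2) ha h0 h1 (by norm_num)
  have hDx : D (x ξ) = (2 : ℂ) • x ξ - R (x ξ) := by
    have := hT.app x hx
    rwa [hxs] at this
  have key : ∀ w : H, ⟪D (a ξ), w⟫_ℂ = ⟪x ξ, w⟫_ℂ := by
    intro w
    obtain ⟨z, hz, hz1, hz2⟩ := hT.approx w
    have e1 : Tendsto (fun n => ⟪z n ξ, a ξ⟫_ℂ) atTop (𝓝 ⟪D w, a ξ⟫_ℂ) :=
      hz2.inner tendsto_const_nhds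
    have e2 : ∀ n, ⟪z n ξ, a ξ⟫_ℂ = 1 / 2 * (⟪z n ξ, x ξ⟫_ℂ + ⟪x ξ, star (z n) ξ⟫_ℂ) := by
      intro n
      have h3 := hxy (z n) (hz n)
      have h4 : ⟪z n ξ, a ξ⟫_ℂ = starRingEnd ℂ ⟪a ξ, z n ξ⟫_ℂ := (inner_conj_symm _ _).symm
      rw [h4, h3]
      have h5 : ⟪ξ, x (z n ξ)⟫_ℂ = ⟪x ξ, z n ξ⟫_ℂ := by
        conv_rhs => rw [← hxs, ContinuousLinearMap.star_eq_adjoint,
          ContinuousLinearMap.adjoint_inner_left]
      have h6 : ⟪ξ, z n (x ξ)⟫_ℂ = ⟪star (z n) ξ, x ξ⟫_ℂ := by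
        rw [ContinuousLinearMap.star_eq_adjoint, ContinuousLinearMap.adjoint_inner_left]
      rw [h5, h6, map_add, map_mul, map_mul, inner_conj_symm, inner_conj_symm]
      simp only [map_div₀, map_one, conj2]
      ring
    have e3 : Tendsto (fun n => ⟪z n ξ, a ξ⟫_ℂ) atTop
        (𝓝 (1 / 2 * (⟪D w, x ξ⟫_ℂ + ⟪x ξ, R w⟫_ℂ))) := by
      rw [funext e2]
      exact ((hz2.inner tendsto_const_nhds).add (tendsto_const_nhds.inner hz1)).const_mul _
    have e4 := tendsto_nhds_unique e1 e3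
    rw [hT.symm, e4, ← hT.symm (x ξ) w, ← R_inner hT, hDx, inner_sub_left, inner_smul_left,
      conj2]
    ring
  have h3 : D (a ξ) = x ξ := ext_inner_right ℂ key
  refine ⟨x, hx, h3.symm, ?_⟩
  rw [hxs]
  have h4 : R ((2 : ℂ) • a ξ - R (a ξ)) = (2 : ℂ) • x ξ - R (x ξ) := by
    rw [← hT.sq, h3, hDx]
  have h5 : R (x ξ - R (a ξ)) = (2 : ℂ) • (x ξ - R (a ξ)) := by
    rw [map_sub, map_smul] at h4
    rw [map_sub, smul_sub]
    have h6 : (2 : ℂ) • x ξ = (2 : ℂ) • R (a ξ) - R (R (a ξ)) + R (x ξ) := by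
      rw [h4]; abel
    rw [h6]; abel
  exact sub_eq_zero.1 (hT.inj' _ h5)

/-- the property of step (1) -/
def Good (M : VonNeumannAlgebra H) (ξ : H) (R : H →L[ℂ] H) (D : H → H) (a : H →L[ℂ] H) : Prop :=
  ∃ y : H →L[ℂ] H, y ∈ M ∧ y ξ = D (a ξ) ∧ star y ξ = R (a ξ)

lemma Good.add (hT : IsTT M ξ R D) {a b : H →L[ℂ] H} (ha : Good M ξ R D a)
    (hb : Good M ξ R D b) : Good M ξ R D (a + b) := by
  obtain ⟨y, hy, h1, h2⟩ := ha
  obtain ⟨z, hz, h3, h4⟩ := hb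
  refine ⟨y + z, add_mem hy hz, ?_, ?_⟩
  · rw [add_apply, add_apply, hT.add, h1, h3]
  · rw [star_add, add_apply, add_apply, map_add, h2, h4]

lemma Good.smul (hT : IsTT M ξ R D) (c : ℂ) {a : H →L[ℂ] H} (ha : Good M ξ R D a) :
    Good M ξ R D (c • a) := by
  obtain ⟨y, hy, h1, h2⟩ := ha
  refine ⟨starRingEnd ℂ c • y, smul_mem_vn M _ hy, ?_, ?_⟩
  · rw [smul_apply, smul_apply, hT.smul, h1]
  · rw [star_smul, smul_apply, smul_apply, map_smul, h2]
    simp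

lemma good_sa (h2 : S_V2) (hcyc : IsCyclic M ξ) (hsep : IsSeparating M ξ) (hT : IsTT M ξ R D)
    (b : H →L[ℂ] H) (hb : b ∈ M.commutant) (hbs : star b = b) : Good M ξ R D b := by
  set N : ℝ := ‖b‖ + 1 with hN
  have hN0 : 0 < N := by positivity
  set c : H →L[ℂ] H := ((1 / 2 : ℝ) : ℂ) • (1 + ((1 / N : ℝ) : ℂ) • b) with hc
  have hcm : c ∈ M.commutant := smul_mem_vn _ _ (add_mem (one_mem _) (smul_mem_vn _ _ hb))
  have hbn : ∀ v : H, |(⟪b v, v⟫_ℂ).re| ≤ N * ‖v‖ ^ 2 := by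
    intro v
    calc |(⟪b v, v⟫_ℂ).re| ≤ ‖⟪b v, v⟫_ℂ‖ := Complex.abs_re_le_norm _
      _ ≤ ‖b v‖ * ‖v‖ := norm_inner_le_norm _ _
      _ ≤ (‖b‖ * ‖v‖) * ‖v‖ := mul_le_mul_of_nonneg_right (b.le_opNorm v) (norm_nonneg _)
      _ ≤ N * ‖v‖ ^ 2 := by nlinarith [sq_nonneg ‖v‖]
  have hcs : IsSelfAdjoint c := by
    rw [isSelfAdjoint_iff, hc, star_smul, star_add, star_smul, star_one, hbs]
    simp
  have hinner : ∀ v : H, (⟪c v, v⟫_ℂ).re = 1 / 2 * (‖v‖ ^ 2 + 1 / N * (⟪b v, v⟫_ℂ).re) := by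
    intro v
    have e1 : c v = ((1 / 2 : ℝ) : ℂ) • (v + ((1 / N : ℝ) : ℂ) • b v) := by
      rw [hc]; rfl
    rw [e1, inner_smul_left, inner_add_left, inner_smul_left, Complex.conj_ofReal,
      Complex.conj_ofReal, Complex.re_ofReal_mul, Complex.add_re, Complex.re_ofReal_mul,
      inner_self_eq_norm_sq_to_K]
    norm_cast
  have hquot : ∀ v : H, |1 / N * (⟪b v, v⟫_ℂ).re| ≤ ‖v‖ ^ 2 := by
    intro v
    rw [abs_mul, abs_of_pos (one_div_pos.2 hN0), one_div_mul_eq_div, div_le_iff₀ hN0, mul_comm]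
    exact hbn v
  have h0 : 0 ≤ c := by
    rw [ContinuousLinearMap.nonneg_iff_isPositive, ContinuousLinearMap.isPositive_def']
    refine ⟨hcs, fun v => ?_⟩
    show 0 ≤ (⟪c v, v⟫_ℂ).re
    rw [hinner v]
    have := (abs_le.1 (hquot v)).1
    linarith
  have h1 : c ≤ 1 := by
    rw [ContinuousLinearMap.le_def, ContinuousLinearMap.isPositive_def']
    refine ⟨(IsSelfAdjoint.one _).sub hcs, fun v => ?_⟩
    show 0 ≤ (⟪(1 - c) v, v⟫_ℂ).re
    rw [sub_apply, one_apply_eq_self, inner_sub_left, Complex.sub_re, hinner v,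
      inner_self_eq_norm_sq_to_K]
    have := (abs_le.1 (hquot v)).2
    have e1 : (((‖v‖ : ℝ) : ℂ) ^ 2).re = ‖v‖ ^ 2 := by
      rw [← Complex.ofReal_pow, Complex.ofReal_re]
    erw [e1]
    linarith
  have hgc : Good M ξ R D c := exists_pos h2 hcyc hsep hT c hcm h0 h1
  have hg1 : Good M ξ R D 1 := exists_pos h2 hcyc hsep hT 1 (one_mem _) zero_le_one le_rfl
  have e : b = ((2 * N : ℝ) : ℂ) • c + ((-N : ℝ) : ℂ) • (1 : H →L[ℂ] H) := by
    rw [hc, smul_smul, smul_add, smul_smul]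
    have e1 : (((2 * N : ℝ) : ℂ) * ((1 / 2 : ℝ) : ℂ)) = ((N : ℝ) : ℂ) := by
      rw [← Complex.ofReal_mul]; congr 1; ring
    have e2 : ((N : ℝ) : ℂ) * ((1 / N : ℝ) : ℂ) = 1 := by
      rw [← Complex.ofReal_mul]
      rw [mul_one_div_cancel hN0.ne', Complex.ofReal_one]
    rw [e1, e2, one_smul, Complex.ofReal_neg, neg_smul]
    abel
  rw [e]
  exact (hgc.smul hT _).add hT (hg1.smul hT _)

lemma good (h2 : S_V2) (hcyc : IsCyclic M ξ) (hsep : IsSeparating M ξ) (hT : IsTT M ξ R D)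
    (b : H →L[ℂ] H) (hb : b ∈ M.commutant) : Good M ξ R D b := by
  have hbs : star b ∈ M.commutant := star_mem hb
  have h3 : Good M ξ R D (b + star b) :=
    good_sa h2 hcyc hsep hT _ (add_mem hb hbs) (by rw [star_add, star_star, add_comm])
  have h4 : Good M ξ R D (I • (b - star b)) := by
    apply good_sa h2 hcyc hsep hT _ (smul_mem_vn _ _ (sub_mem hb hbs))
    rw [star_smul, star_sub, star_star]
    have : star I = -I := Complex.conj_I
    rw [this, neg_smul, ← smul_neg, neg_sub]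
  have e : b = (1 / 2 : ℂ) • (b + star b) + (-(I / 2) : ℂ) • (I • (b - star b)) := by
    rw [smul_smul]
    have e1 : (-(I / 2) * I : ℂ) = 1 / 2 := by
      have := Complex.I_mul_I
      linear_combination (-1 / 2 : ℂ) * this
    rw [e1, ← smul_add]
    have e2 : b + star b + (b - star b) = (2 : ℂ) • b := by
      rw [two_smul]; abel
    rw [e2, smul_smul]
    norm_num
  rw [e]
  exact (h3.smul hT _).add hT (h4.smul hT _)

lemma identity (h2 : S_V2) (hcyc : IsCyclic M ξ) (hsep : IsSeparating M ξ) (hT : IsTT M ξ R D)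
    (a x : H →L[ℂ] H) (lam : ℂ) (ha : a ∈ M.commutant) (hx : x ∈ M) (hxs : star x = x)
    (h : ∀ y : H →L[ℂ] H, y ∈ M →
      ⟪a ξ, y ξ⟫_ℂ = lam * ⟪ξ, x (y ξ)⟫_ℂ + starRingEnd ℂ lam * ⟪ξ, y (x ξ)⟫_ℂ)
    (b : H →L[ℂ] H) (hb : b ∈ M.commutant) :
    D (a (D (b ξ))) = lam • ((2 : ℂ) • x (R (b ξ)) - R (x (R (b ξ)))) +
      starRingEnd ℂ lam • R (x ((2 : ℂ) • b ξ - R (b ξ))) := by
  obtain ⟨y, hy, hy1, hy2⟩ := good h2 hcyc hsep hT b hb
  apply ext_inner_left ℂ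
  intro u
  obtain ⟨z, hz, hz1, hz2⟩ := hT.approx u
  have hxi : ∀ v w : H, ⟪x v, w⟫_ℂ = ⟪v, x w⟫_ℂ := by
    intro v w
    conv_lhs => rw [← hxs, ContinuousLinearMap.star_eq_adjoint,
      ContinuousLinearMap.adjoint_inner_left]
  have hst : ∀ (g : H →L[ℂ] H) (v w : H), ⟪v, star g w⟫_ℂ = ⟪g v, w⟫_ℂ := by
    intro g v w
    rw [ContinuousLinearMap.star_eq_adjoint, ContinuousLinearMap.adjoint_inner_right]
  have e0 : ∀ n, ⟪a (D (b ξ)), z n ξ⟫_ℂ = lam * ⟪y (x ξ), z n ξ⟫_ℂ +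
      starRingEnd ℂ lam * ⟪(2 : ℂ) • x (star (z n) ξ) - R (x (star (z n) ξ)), b ξ⟫_ℂ := by
    intro n
    have h3 := h (star y * z n) (mul_mem (star_mem hy) (hz n))
    have h4 : ⟪a ξ, (star y * z n) ξ⟫_ℂ = ⟪a (D (b ξ)), z n ξ⟫_ℂ := by
      rw [mul_apply_eq_comp, hst, ← hy1]
      congr 1
      have := (VonNeumannAlgebra.mem_commutant_iff.1 ha) y hy
      exact congrArg (fun T : H →L[ℂ] H => T ξ) this
    have h5 : ⟪ξ, x ((star y * z n) ξ)⟫_ℂ = ⟪y (x ξ), z n ξ⟫_ℂ := by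
      rw [← hxi, mul_apply_eq_comp, hst]
    have h6 : ⟪ξ, (star y * z n) (x ξ)⟫_ℂ =
        ⟪(2 : ℂ) • x (star (z n) ξ) - R (x (star (z n) ξ)), b ξ⟫_ℂ := by
      rw [mul_apply_eq_comp, hst, hy1, hT.symm]
      congr 1
      have := hT.app (z n * x) (mul_mem (hz n) hx)
      rw [star_mul, hxs] at this
      exact this
    rw [h4, h5, h6] at h3
    exact h3
  have e1 : Tendsto (fun n => ⟪a (D (b ξ)), z n ξ⟫_ℂ) atTop (𝓝 ⟪a (D (b ξ)), D u⟫_ℂ) :=
    tendsto_const_nhds.inner hz2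
  have e2 : Tendsto (fun n => ⟪a (D (b ξ)), z n ξ⟫_ℂ) atTop
      (𝓝 (lam * ⟪y (x ξ), D u⟫_ℂ + starRingEnd ℂ lam *
        ⟪(2 : ℂ) • x (R u) - R (x (R u)), b ξ⟫_ℂ)) := by
    rw [funext e0]
    have h7 : Tendsto (fun n => x (star (z n) ξ)) atTop (𝓝 (x (R u))) :=
      (x.continuous.tendsto _).comp hz1
    have h8 : Tendsto (fun n => R (x (star (z n) ξ))) atTop (𝓝 (R (x (R u)))) :=
      (R.continuous.tendsto _).comp h7
    exact ((tendsto_const_nhds.inner hz2).const_mul _).add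
      ((((h7.const_smul (2 : ℂ)).sub h8).inner tendsto_const_nhds).const_mul _)
  have e3 := tendsto_nhds_unique e1 e2
  have e4 : ⟪u, D (a (D (b ξ)))⟫_ℂ = ⟪a (D (b ξ)), D u⟫_ℂ := by
    rw [← inner_conj_symm, hT.symm, inner_conj_symm]
  have e5 : ⟪y (x ξ), D u⟫_ℂ = ⟪u, (2 : ℂ) • x (R (b ξ)) - R (x (R (b ξ)))⟫_ℂ := by
    rw [← inner_conj_symm, hT.symm, inner_conj_symm]
    congr 1
    have := hT.app (y * x) (mul_mem hy hx)
    rw [star_mul, hxs] at this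
    rw [← hy2]
    exact this
  have e6 : ⟪(2 : ℂ) • x (R u) - R (x (R u)), b ξ⟫_ℂ =
      ⟪u, R (x ((2 : ℂ) • b ξ - R (b ξ)))⟫_ℂ := by
    rw [inner_sub_left, inner_smul_left, R_inner hT, hxi, hxi, R_inner hT, R_inner hT, map_sub,
      map_sub, map_smul, map_smul, inner_sub_right, inner_smul_right, conj2]
  rw [e4, e3, e5, e6, inner_add_right, inner_smul_right, inner_smul_right]

end

theorem r (h2 : S_V2) : S_V3 := by
  intro H _ _ _ M ξ R D hcyc hsep hT a x lam ha _ hx hxs h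
  have hD := D_cont hT
  have h1 : Continuous fun v => D (a (D v)) := hD.comp (a.continuous.comp hD)
  have h3 : Continuous fun v => lam • ((2 : ℂ) • x (R v) - R (x (R v))) +
      starRingEnd ℂ lam • R (x ((2 : ℂ) • v - R v)) := by fun_prop
  have h4 := Continuous.ext_on (dense_commutant M ξ hsep) h1 h3 (by
    rintro _ ⟨b, hb, rfl⟩
    exact identity h2 hcyc hsep hT a x lam ha hx hxs h b hb)
  exact fun v => congrFun h4 v

end Pool.Agent.H255.BC.TT_V3
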