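import Pool.Agent.H255.BC.Defs4

set_option autoImplicit false

open MeasureTheory Filter Topology Complex
open scoped InnerProductSpace ENNReal

namespace Pool.Agent.H255.BC.TT_V4

open Pool.Agent.W662.CB Pool.Agent.H255.BC

section

variable {H : Type} [NormedAddCommGroup H] [InnerProductSpace ℂ H] [CompleteSpace H]

/-- the standing hypotheses -/
structure Hyp (R : H →L[ℂ] H) : Prop where
  sa : star R = R
  pos : ∀ v : H, 0 ≤ (⟪v, R v⟫_ℂ).re
  le : ∀ v : H, (⟪v, R v⟫_ℂ).re ≤ 2 * ‖v‖ ^ 2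
  inj : ∀ v : H, R v = 0 → v = 0
  inj' : ∀ v : H, R v = (2 : ℂ) • v → v = 0

theorem Hyp.spec {R : H →L[ℂ] H} (h : Hyp R) {z : ℂ} (hz : z ∈ spectrum ℂ R) :
    z = (z.re : ℂ) ∧ z.re ∈ Set.Icc (0 : ℝ) 2 := by
  have hsa : IsSelfAdjoint R := h.sa
  have e := hsa.mem_spectrum_eq_re hz
  have h0 : (0 : H →L[ℂ] H) ≤ R := by
    rw [ContinuousLinearMap.nonneg_iff_isPositive, ContinuousLinearMap.isPositive_def']
    refine ⟨hsa, fun v => ?_⟩
    rw [ContinuousLinearMap.reApplyInnerSelf_apply]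
    have h4 := h.pos v
    rw [← inner_conj_symm, Complex.conj_re] at h4
    exact h4
  have h2 : (0 : H →L[ℂ] H) ≤ algebraMap ℝ (H →L[ℂ] H) 2 - R := by
    rw [ContinuousLinearMap.nonneg_iff_isPositive, ContinuousLinearMap.isPositive_def']
    refine ⟨?_, fun v => ?_⟩
    · have h3 : IsSelfAdjoint (algebraMap ℝ (H →L[ℂ] H) 2) := IsSelfAdjoint.algebraMap _ (by
        show star (2 : ℝ) = 2
        simp)
      exact h3.sub hsa
    · rw [ContinuousLinearMap.reApplyInnerSelf_apply]
      have h4 : (algebraMap ℝ (H →L[ℂ] H) 2 - R) v = (2 : ℂ) • v - R v := by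
        rw [Algebra.algebraMap_eq_smul_one]
        show (2 : ℝ) • v - R v = _
        congr 1
      have h5 : (⟪(2 : ℂ) • v - R v, v⟫_ℂ).re = 2 * ‖v‖ ^ 2 - (⟪v, R v⟫_ℂ).re := by
        rw [← inner_conj_symm, Complex.conj_re, inner_sub_right, inner_smul_right,
          inner_self_eq_norm_sq_to_K, Complex.sub_re]
        congr 1
        have h6 : (2 : ℂ) * ((‖v‖ : ℝ) : ℂ) ^ 2 = ((2 * ‖v‖ ^ 2 : ℝ) : ℂ) := by
          push_cast
          ring
        have h7 := congrArg Complex.re h6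
        rw [Complex.ofReal_re] at h7
        exact h7
      rw [h4]
      show 0 ≤ (⟪(2 : ℂ) • v - R v, v⟫_ℂ).re
      rw [h5]
      linarith [h.le v]
  have h5 : z.re ∈ spectrum ℝ R := by
    rw [← spectrum.algebraMap_mem_iff ℂ]
    show ((z.re : ℝ) : ℂ) ∈ _
    rwa [← e]
  refine ⟨e, spectrum_nonneg_of_nonneg h0 h5, ?_⟩
  have h6 : 2 - z.re ∈ spectrum ℝ (algebraMap ℝ (H →L[ℂ] H) 2 - R) := by
    rw [← spectrum.singleton_sub_eq]
    exact ⟨2, rfl, z.re, h5, rfl⟩
  have h7 := spectrum_nonneg_of_nonneg h2 h6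
  linarith

/-- the continuous functional calculus for functions of a real variable -/
noncomputable def Fc (R : H →L[ℂ] H) (f : ℝ → ℂ) : H →L[ℂ] H := cfc (fun z : ℂ => f z.re) R

theorem Hyp.normal {R : H →L[ℂ] H} (h : Hyp R) : IsStarNormal R :=
  (show IsSelfAdjoint R from h.sa).isStarNormal

theorem Hyp.cont {R : H →L[ℂ] H} (h : Hyp R) {f : ℝ → ℂ} (hf : ContinuousOn f (Set.Icc 0 2)) :
    ContinuousOn (fun z : ℂ => f z.re) (spectrum ℂ R) :=
  hf.comp Complex.continuous_re.continuousOn fun _ hz => (h.spec hz).2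

theorem Fc_add {R : H →L[ℂ] H} (h : Hyp R) {f g : ℝ → ℂ} (hf : ContinuousOn f (Set.Icc 0 2))
    (hg : ContinuousOn g (Set.Icc 0 2)) : Fc R (fun x => f x + g x) = Fc R f + Fc R g :=
  cfc_add (R := ℂ) (a := R) _ _ (h.cont hf) (h.cont hg)

theorem Fc_mul {R : H →L[ℂ] H} (h : Hyp R) {f g : ℝ → ℂ} (hf : ContinuousOn f (Set.Icc 0 2))
    (hg : ContinuousOn g (Set.Icc 0 2)) : Fc R (fun x => f x * g x) = Fc R f * Fc R g :=
  cfc_mul (R := ℂ) _ _ R (h.cont hf) (h.cont hg)

theorem Fc_smul {R : H →L[ℂ] H} (h : Hyp R) (c : ℂ) {f : ℝ → ℂ}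
    (hf : ContinuousOn f (Set.Icc 0 2)) : Fc R (fun x => c * f x) = c • Fc R f :=
  cfc_const_mul (R := ℂ) c _ R (h.cont hf)

theorem Fc_star {R : H →L[ℂ] H} (f : ℝ → ℂ) :
    Fc R (fun x => starRingEnd ℂ (f x)) = star (Fc R f) :=
  cfc_star (R := ℂ) (a := R) _

theorem Fc_congr {R : H →L[ℂ] H} (h : Hyp R) {f g : ℝ → ℂ}
    (hfg : ∀ x ∈ Set.Icc (0 : ℝ) 2, f x = g x) : Fc R f = Fc R g :=
  cfc_congr fun _ hz => hfg _ (h.spec hz).2

theorem Fc_norm {R : H →L[ℂ] H} (h : Hyp R) {f : ℝ → ℂ} {C : ℝ} (hC : 0 ≤ C)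
    (hf : ∀ x ∈ Set.Icc (0 : ℝ) 2, ‖f x‖ ≤ C) : ‖Fc R f‖ ≤ C :=
  norm_cfc_le hC fun _ hz => hf _ (h.spec hz).2

theorem Fc_one {R : H →L[ℂ] H} (h : Hyp R) : Fc R (fun _ => 1) = 1 := by
  have := h.normal
  exact cfc_const_one (R := ℂ) (a := R)

theorem Fc_id {R : H →L[ℂ] H} (h : Hyp R) : Fc R (fun x => (x : ℂ)) = R := by
  have := h.normal
  have h1 : Fc R (fun x => (x : ℂ)) = cfc (fun z : ℂ => z) R :=
    cfc_congr fun z hz => (h.spec hz).1.symm
  rw [h1]
  exact cfc_id' ℂ R

theorem Fc_comm {R : H →L[ℂ] H} (h : Hyp R) (f : ℝ → ℂ) {S : H →L[ℂ] H} (hS : S * R = R * S) :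
    S * Fc R f = Fc R f * S := by
  have h1 : Commute R S := hS.symm
  have h2 : Commute (star R) S := by rw [h.sa]; exact h1
  exact (Commute.cfc h1 h2 _).symm

/-! ### The cutoffs -/

/-- cutoffs -/
noncomputable def ch (n : ℕ) (x : ℝ) : ℝ :=
  max 0 (min 1 (min ((n + 1 : ℝ) * x - 1) ((n + 1 : ℝ) * (2 - x) - 1)))

theorem ch_cont (n : ℕ) : Continuous (ch n) := by
  unfold ch
  fun_prop

theorem ch_nonneg (n : ℕ) (x : ℝ) : 0 ≤ ch n x := le_max_left _ _

theorem ch_le (n : ℕ) (x : ℝ) : ch n x ≤ 1 := max_le zero_le_one (min_le_left _ _)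

theorem ch_symm (n : ℕ) (x : ℝ) : ch n (2 - x) = ch n x := by
  unfold ch
  rw [min_comm ((n + 1 : ℝ) * (2 - x) - 1), sub_sub_cancel]

/-- `ch n` vanishes off `(1/(n+1), 2-1/(n+1))` -/
theorem ch_zero {n : ℕ} {x : ℝ} (hx : (n + 1 : ℝ) * x ≤ 1 ∨ (n + 1 : ℝ) * (2 - x) ≤ 1) :
    ch n x = 0 := by
  unfold ch
  apply max_eq_left
  rcases hx with h | h
  · exact (min_le_right _ _).trans ((min_le_left _ _).trans (by linarith))
  · exact (min_le_right _ _).trans ((min_le_right _ _).trans (by linarith))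

theorem ch_one {n : ℕ} {x : ℝ} (h1 : 2 ≤ (n + 1 : ℝ) * x) (h2 : 2 ≤ (n + 1 : ℝ) * (2 - x)) :
    ch n x = 1 := by
  unfold ch
  rw [min_eq_left (le_min (by linarith) (by linarith)), max_eq_right zero_le_one]

/-- nested cutoffs -/
theorem ch_mul {n m : ℕ} (h : 2 * (m + 1) ≤ n + 1) (x : ℝ) : ch n x * ch m x = ch m x := by
  by_cases h0 : ch m x = 0
  · rw [h0, mul_zero]
  have h1 : 1 < (m + 1 : ℝ) * x := by
    by_contra hc
    exact h0 (ch_zero (Or.inl (not_lt.1 hc)))
  have h2 : 1 < (m + 1 : ℝ) * (2 - x) := by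
    by_contra hc
    exact h0 (ch_zero (Or.inr (not_lt.1 hc)))
  have h3 : (2 : ℝ) * (m + 1) ≤ n + 1 := by exact_mod_cast h
  have h4 : (0 : ℝ) < m + 1 := by positivity
  have h5 : 0 < x := by
    by_contra hc
    nlinarith
  have h6 : 0 < 2 - x := by
    by_contra hc
    nlinarith
  rw [ch_one (n := n) (by nlinarith) (by nlinarith), one_mul]

/-- the product of a function continuous on `(0, 2)` and a cutoff is continuous -/
theorem mul_ch_cont {f : ℝ → ℂ} (hf : ContinuousOn f (Set.Ioo 0 2)) (n : ℕ) :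
    Continuous fun x => f x * (ch n x : ℂ) := by
  rw [continuous_iff_continuousAt]
  intro x
  have hn : (0 : ℝ) < n + 1 := by positivity
  by_cases hx : x ∈ Set.Ioo (0 : ℝ) 2
  · exact (hf.continuousAt (isOpen_Ioo.mem_nhds hx)).mul
      (Complex.continuous_ofReal.comp (ch_cont n)).continuousAt
  · have h1 : ∀ᶠ y in 𝓝 x, f y * (ch n y : ℂ) = 0 := by
      rw [Set.mem_Ioo, not_and_or, not_lt, not_lt] at hx
      rcases hx with hx | hx
      · have h2 : ∀ᶠ y in 𝓝 x, y < 1 / (n + 1 : ℝ) :=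
          eventually_lt_nhds (lt_of_le_of_lt hx (by positivity))
        filter_upwards [h2] with y hy
        rw [ch_zero (Or.inl ?_), Complex.ofReal_zero, mul_zero]
        rw [lt_div_iff₀ hn] at hy
        linarith
      · have h2 : ∀ᶠ y in 𝓝 x, 2 - 1 / (n + 1 : ℝ) < y := by
          refine eventually_gt_nhds (lt_of_lt_of_le ?_ hx)
          have : 0 < 1 / (n + 1 : ℝ) := by positivity
          linarith
        filter_upwards [h2] with y hy
        rw [ch_zero (Or.inr ?_), Complex.ofReal_zero, mul_zero]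
        have h3 : 2 - y < 1 / (n + 1 : ℝ) := by linarith
        rw [lt_div_iff₀ hn] at h3
        linarith
    exact (continuousAt_congr (h1.mono fun y hy => hy)).2 continuousAt_const

/-- `ch n` as an operator -/
noncomputable def X (R : H →L[ℂ] H) (n : ℕ) : H →L[ℂ] H := Fc R fun x => (ch n x : ℂ)

theorem chC_cont (n : ℕ) : Continuous fun x => (ch n x : ℂ) :=
  Complex.continuous_ofReal.comp (ch_cont n)

theorem X_norm {R : H →L[ℂ] H} (h : Hyp R) (n : ℕ) : ‖X R n‖ ≤ 1 := by
  refine Fc_norm h zero_le_one fun x _ => ?_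
  rw [Complex.norm_real, Real.norm_of_nonneg (ch_nonneg n x)]
  exact ch_le n x

/-- the range of `R (2 - R)` is dense -/
theorem dense_G {R : H →L[ℂ] H} (h : Hyp R) :
    Dense (Set.range fun v : H => R ((2 : ℂ) • v - R v)) := by
  set G : H →L[ℂ] H := R * ((2 : ℂ) • 1 - R) with hG
  have hGv : ∀ v, G v = R ((2 : ℂ) • v - R v) := fun v => by
    rw [hG]
    rfl
  have hGs : ∀ v w : H, ⟪G v, w⟫_ℂ = ⟪v, G w⟫_ℂ := by
    intro v w
    have hsa : ∀ a b : H, ⟪R a, b⟫_ℂ = ⟪a, R b⟫_ℂ := by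
      intro a b
      rw [← ContinuousLinearMap.adjoint_inner_right, ← ContinuousLinearMap.star_eq_adjoint, h.sa]
    rw [hGv, hGv, hsa, inner_sub_left, inner_smul_left, hsa, map_sub, inner_sub_right,
      map_smul, inner_smul_right, map_ofNat]
  have h1 : (LinearMap.range (G : H →ₗ[ℂ] H)).topologicalClosure = ⊤ := by
    rw [Submodule.topologicalClosure_eq_top_iff, Submodule.eq_bot_iff]
    intro v hv
    rw [Submodule.mem_orthogonal] at hv
    have h2 : G v = 0 := by
      have h3 := hv (G (G v)) ⟨G v, rfl⟩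
      have h4 : ⟪G v, G v⟫_ℂ = 0 := by rw [← h3, hGs (G v) v]
      exact inner_self_eq_zero.1 h4
    rw [hGv] at h2
    have h5 := h.inj _ h2
    exact h.inj' v (sub_eq_zero.1 h5).symm
  have h2 : Dense ((LinearMap.range (G : H →ₗ[ℂ] H) : Submodule ℂ H) : Set H) := by
    rw [dense_iff_closure_eq, ← Submodule.topologicalClosure_coe, h1]
    rfl
  refine h2.mono ?_
  rintro _ ⟨v, rfl⟩
  exact ⟨v, (hGv v).symm⟩

/-- `X n → 1` strongly -/
theorem X_tendsto {R : H →L[ℂ] H} (h : Hyp R) (v : H) :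
    Tendsto (fun n => X R n v) atTop (𝓝 v) := by
  rw [Metric.tendsto_atTop]
  intro ε hε
  obtain ⟨_, hw, w, rfl⟩ := Metric.dense_iff.1 (dense_G h) v (ε / 4) (by positivity)
  rw [Metric.mem_ball, dist_eq_norm] at hw
  simp only at hw
  obtain ⟨n₀, hn₀⟩ := exists_nat_gt (16 * (‖w‖ + 1) / ε)
  refine ⟨n₀, fun n hn => ?_⟩
  rw [dist_eq_norm]
  set u : H := R ((2 : ℂ) • w - R w) with hu
  have hid : ContinuousOn (fun x : ℝ => (x : ℂ)) (Set.Icc 0 2) :=
    Complex.continuous_ofReal.continuousOn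
  have hu2 : u = Fc R (fun x => (x : ℂ) * (2 - (x : ℂ))) w := by
    have e1 : Fc R (fun x => (2 : ℂ) - (x : ℂ)) = (2 : ℂ) • 1 - R := by
      have e2 : (fun x : ℝ => (2 : ℂ) - (x : ℂ)) =
          fun x : ℝ => (2 : ℂ) * 1 + (-1 : ℂ) * (x : ℂ) := by
        funext x
        ring
      rw [e2, Fc_add h (f := fun _ : ℝ => (2 : ℂ) * 1) (g := fun x : ℝ => (-1 : ℂ) * (x : ℂ))
        continuousOn_const (continuousOn_const.mul hid),
        Fc_smul h 2 continuousOn_const, Fc_smul h (-1) hid, Fc_one h, Fc_id h, neg_one_smul,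
        sub_eq_add_neg]
    rw [Fc_mul h (f := fun x : ℝ => (x : ℂ)) (g := fun x : ℝ => 2 - (x : ℂ)) hid
      (continuousOn_const.sub hid), Fc_id h, e1]
    rfl
  have h1 : ‖X R n u - u‖ ≤ 4 / (n + 1 : ℝ) * ‖w‖ := by
    have e1 : X R n u - u = Fc R (fun x => ((ch n x - 1 : ℝ) : ℂ) * ((x : ℂ) * (2 - (x : ℂ)))) w := by
      have e2 : (fun x : ℝ => ((ch n x - 1 : ℝ) : ℂ)) = fun x => (ch n x : ℂ) + (-1 : ℂ) * 1 := by
        funext x
        push_cast
        ring
      have e3 : Fc R (fun x : ℝ => ((ch n x - 1 : ℝ) : ℂ)) = X R n - 1 := by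
        rw [e2, Fc_add h (chC_cont n).continuousOn continuousOn_const,
          Fc_smul h (-1) continuousOn_const, Fc_one h, neg_one_smul, ← sub_eq_add_neg]
        rfl
      rw [Fc_mul h (f := fun x : ℝ => ((ch n x - 1 : ℝ) : ℂ))
        (g := fun x : ℝ => (x : ℂ) * (2 - (x : ℂ))) (by
          rw [e2]
          exact ((chC_cont n).add continuous_const).continuousOn)
        (hid.mul (continuousOn_const.sub hid)), e3]
      show _ = (X R n - 1) (Fc R (fun x => (x : ℂ) * (2 - (x : ℂ))) w)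
      rw [← hu2]
      rfl
    rw [e1]
    refine ((Fc R _).le_opNorm w).trans ?_
    gcongr
    refine Fc_norm h (by positivity) fun x hx => ?_
    rw [norm_mul, Complex.norm_real]
    have e3 : ‖(x : ℂ) * (2 - (x : ℂ))‖ = x * (2 - x) := by
      have : (x : ℂ) * (2 - (x : ℂ)) = ((x * (2 - x) : ℝ) : ℂ) := by push_cast; ring
      rw [this, Complex.norm_real, Real.norm_of_nonneg (mul_nonneg hx.1 (by linarith [hx.2]))]
    rw [e3]
    have hn1 : (0 : ℝ) < n + 1 := by positivity
    have h5 : ‖ch n x - 1‖ ≤ 1 := by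
      rw [Real.norm_eq_abs, abs_le]
      constructor
      · linarith [ch_nonneg n x]
      · linarith [ch_le n x]
    rcases lt_or_ge ((n + 1 : ℝ) * x) 2 with h2 | h2
    · rw [le_div_iff₀ hn1]
      have h3 : x * (2 - x) * (n + 1 : ℝ) ≤ 4 := by nlinarith [hx.1, hx.2]
      calc ‖ch n x - 1‖ * (x * (2 - x)) * (n + 1 : ℝ)
          ≤ 1 * (x * (2 - x)) * (n + 1 : ℝ) := by
            have : 0 ≤ x * (2 - x) := mul_nonneg hx.1 (by linarith [hx.2])
            gcongr
        _ ≤ 4 := by linarith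
    · rcases lt_or_ge ((n + 1 : ℝ) * (2 - x)) 2 with h3 | h3
      · rw [le_div_iff₀ hn1]
        have h4 : x * (2 - x) * (n + 1 : ℝ) ≤ 4 := by nlinarith [hx.1, hx.2]
        calc ‖ch n x - 1‖ * (x * (2 - x)) * (n + 1 : ℝ)
            ≤ 1 * (x * (2 - x)) * (n + 1 : ℝ) := by
              have : 0 ≤ x * (2 - x) := mul_nonneg hx.1 (by linarith [hx.2])
              gcongr
          _ ≤ 4 := by linarith
      · rw [ch_one h2 h3, sub_self, norm_zero, zero_mul]
        positivity
  have h2 : X R n v - v = X R n (v - u) + (X R n u - u) + (u - v) := by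
    rw [map_sub]
    abel
  have h3 : ‖X R n (v - u)‖ ≤ ε / 4 := by
    calc ‖X R n (v - u)‖ ≤ ‖X R n‖ * ‖v - u‖ := (X R n).le_opNorm _
      _ ≤ 1 * (ε / 4) := by
          gcongr
          · exact X_norm h n
          · rw [norm_sub_rev]
            exact hw.le
      _ = ε / 4 := one_mul _
  have h4 : 4 / (n + 1 : ℝ) * ‖w‖ ≤ ε / 4 := by
    have hn1 : (0 : ℝ) < n + 1 := by positivity
    have h5 : 16 * (‖w‖ + 1) / ε < n + 1 := by
      have : (n₀ : ℝ) ≤ n := by exact_mod_cast hn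
      linarith
    rw [div_lt_iff₀ hε] at h5
    rw [div_mul_eq_mul_div, div_le_iff₀ hn1]
    nlinarith [norm_nonneg w]
  rw [h2]
  calc ‖X R n (v - u) + (X R n u - u) + (u - v)‖
      ≤ ‖X R n (v - u) + (X R n u - u)‖ + ‖u - v‖ := norm_add_le _ _
    _ ≤ ‖X R n (v - u)‖ + ‖X R n u - u‖ + ‖u - v‖ := by
        gcongr
        exact norm_add_le _ _
    _ < ε := by linarith

/-- the characterization of `Φ f` -/
def IsPhi (R : H →L[ℂ] H) (f : ℝ → ℂ) (A : H →L[ℂ] H) : Prop :=
  ∀ m : ℕ, A * X R m = Fc R fun x => f x * (ch m x : ℂ)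

theorem isPhi_unique {R : H →L[ℂ] H} (h : Hyp R) {f : ℝ → ℂ} {A B : H →L[ℂ] H}
    (hA : IsPhi R f A) (hB : IsPhi R f B) : A = B := by
  ext1 v
  have h1 : Tendsto (fun n => A (X R n v)) atTop (𝓝 (A v)) :=
    (A.continuous.tendsto _).comp (X_tendsto h v)
  have h2 : Tendsto (fun n => B (X R n v)) atTop (𝓝 (B v)) :=
    (B.continuous.tendsto _).comp (X_tendsto h v)
  refine tendsto_nhds_unique h1 (h2.congr fun n => ?_)
  have := (hA n).trans (hB n).symm
  exact (congrArg (fun T : H →L[ℂ] H => T v) this).symm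

theorem isPhi_exists {R : H →L[ℂ] H} (h : Hyp R) {f : ℝ → ℂ} (hf : BC f) :
    ∃ A, IsPhi R f A := by
  obtain ⟨hfc, C, hC⟩ := hf
  have hC0 : 0 ≤ C := (norm_nonneg _).trans (hC 1 ⟨by norm_num, by norm_num⟩)
  set T : ℕ → H →L[ℂ] H := fun n => Fc R fun x => f x * (ch n x : ℂ) with hT
  have hTn : ∀ n, ‖T n‖ ≤ C := by
    intro n
    refine Fc_norm h hC0 fun x _ => ?_
    rw [norm_mul, Complex.norm_real, Real.norm_of_nonneg (ch_nonneg n x)]
    by_cases hx : x ∈ Set.Ioo (0 : ℝ) 2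
    · calc ‖f x‖ * ch n x ≤ C * 1 := by
            gcongr
            · exact ch_nonneg n x
            · exact hC x hx
            · exact ch_le n x
        _ = C := mul_one C
    · have : ch n x = 0 := by
        rw [Set.mem_Ioo, not_and_or, not_lt, not_lt] at hx
        have hn : (0 : ℝ) < n + 1 := by positivity
        rcases hx with hx | hx
        · exact ch_zero (Or.inl (by nlinarith))
        · exact ch_zero (Or.inr (by nlinarith))
      rw [this, mul_zero]
      exact hC0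
  have hTX : ∀ n m : ℕ, 2 * (m + 1) ≤ n + 1 → T n * X R m = T m := by
    intro n m hnm
    rw [hT]
    simp only
    rw [X, ← Fc_mul h (mul_ch_cont hfc n).continuousOn (chC_cont m).continuousOn]
    congr 1
    funext x
    rw [mul_assoc, ← Complex.ofReal_mul, ch_mul hnm]
  have hcau : ∀ v : H, CauchySeq fun n => T n v := by
    intro v
    rw [Metric.cauchySeq_iff']
    intro ε hε
    have h1 := Metric.tendsto_atTop.1 (X_tendsto h v) (ε / (4 * (C + 1))) (by positivity)
    obtain ⟨m, hm⟩ := h1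
    have h2 := hm m le_rfl
    rw [dist_eq_norm] at h2
    refine ⟨2 * m + 1, fun n hn => ?_⟩
    rw [dist_eq_norm]
    have e1 : ∀ k, 2 * m + 1 ≤ k → T k (X R m v) = T m v := by
      intro k hk
      have := hTX k m (by omega)
      exact congrArg (fun S : H →L[ℂ] H => S v) this
    have e2 : T n v - T (2 * m + 1) v =
        T (2 * m + 1) (X R m v - v) - T n (X R m v - v) := by
      rw [map_sub, map_sub, e1 n hn, e1 (2 * m + 1) le_rfl]
      abel
    have e3 : ∀ k, ‖T k (X R m v - v)‖ ≤ ε / 4 := by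
      intro k
      calc ‖T k (X R m v - v)‖ ≤ ‖T k‖ * ‖X R m v - v‖ := (T k).le_opNorm _
        _ ≤ (C + 1) * (ε / (4 * (C + 1))) := by
            gcongr
            linarith [hTn k]
        _ = ε / 4 := by
            have : C + 1 ≠ 0 := by positivity
            field_simp
    rw [e2]
    calc _ ≤ _ + _ := norm_sub_le _ _
      _ ≤ ε / 4 + ε / 4 := add_le_add (e3 _) (e3 _)
      _ < ε := by linarith
  choose g hg using fun v => cauchySeq_tendsto_of_complete (hcau v)
  let A : H →L[ℂ] H := continuousLinearMapOfTendsto T (tendsto_pi_nhds.2 hg)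
  have hA : ∀ v, Tendsto (fun n => T n v) atTop (𝓝 (A v)) := hg
  refine ⟨A, fun m => ?_⟩
  ext1 v
  show A (X R m v) = T m v
  refine tendsto_nhds_unique (hA (X R m v)) ?_
  refine tendsto_const_nhds.congr' ?_
  filter_upwards [eventually_ge_atTop (2 * m + 1)] with n hn
  have := hTX n m (by omega)
  exact (congrArg (fun S : H →L[ℂ] H => S v) this).symm

end


section

variable {H : Type} [NormedAddCommGroup H] [InnerProductSpace ℂ H] [CompleteSpace H]

open Classical in
/-- the functional calculus -/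
noncomputable def Phi (R : H →L[ℂ] H) (f : ℝ → ℂ) : H →L[ℂ] H :=
  if h : ∃ A, IsPhi R f A then Classical.choose h else 0

theorem Phi_spec {R : H →L[ℂ] H} (h : Hyp R) {f : ℝ → ℂ} (hf : BC f) : IsPhi R f (Phi R f) := by
  have h1 := isPhi_exists h hf
  unfold Phi
  rw [dif_pos h1]
  exact Classical.choose_spec h1

theorem Phi_eq {R : H →L[ℂ] H} (h : Hyp R) {f : ℝ → ℂ} (hf : BC f) {A : H →L[ℂ] H}
    (hA : IsPhi R f A) : Phi R f = A := isPhi_unique h (Phi_spec h hf) hA

theorem BC_add {f g : ℝ → ℂ} (hf : BC f) (hg : BC g) : BC fun x => f x + g x := by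
  obtain ⟨h1, C, hC⟩ := hf
  obtain ⟨h2, D, hD⟩ := hg
  exact ⟨h1.add h2, C + D, fun x hx => (norm_add_le _ _).trans (add_le_add (hC x hx) (hD x hx))⟩

theorem BC_mul {f g : ℝ → ℂ} (hf : BC f) (hg : BC g) : BC fun x => f x * g x := by
  obtain ⟨h1, C, hC⟩ := hf
  obtain ⟨h2, D, hD⟩ := hg
  refine ⟨h1.mul h2, C * D, fun x hx => ?_⟩
  rw [norm_mul]
  exact mul_le_mul (hC x hx) (hD x hx) (norm_nonneg _) ((norm_nonneg _).trans (hC x hx))

theorem BC_smul (c : ℂ) {f : ℝ → ℂ} (hf : BC f) : BC fun x => c * f x := by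
  obtain ⟨h1, C, hC⟩ := hf
  refine ⟨continuousOn_const.mul h1, ‖c‖ * C, fun x hx => ?_⟩
  rw [norm_mul]
  exact mul_le_mul_of_nonneg_left (hC x hx) (norm_nonneg _)

theorem BC_conj {f : ℝ → ℂ} (hf : BC f) : BC fun x => starRingEnd ℂ (f x) := by
  obtain ⟨h1, C, hC⟩ := hf
  refine ⟨Complex.continuous_conj.comp_continuousOn h1, C, fun x hx => ?_⟩
  rw [RCLike.norm_conj]
  exact hC x hx

theorem BC_refl {f : ℝ → ℂ} (hf : BC f) : BC fun x => starRingEnd ℂ (f (2 - x)) := by
  obtain ⟨h1, C, hC⟩ := hf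
  have h2 : ∀ x ∈ Set.Ioo (0 : ℝ) 2, 2 - x ∈ Set.Ioo (0 : ℝ) 2 := fun x hx =>
    ⟨by linarith [hx.2], by linarith [hx.1]⟩
  refine ⟨Complex.continuous_conj.comp_continuousOn
    (h1.comp (continuousOn_const.sub continuousOn_id) h2), C, fun x hx => ?_⟩
  rw [RCLike.norm_conj]
  exact hC _ (h2 x hx)

theorem BC_one : BC fun _ => 1 := ⟨continuousOn_const, 1, fun _ _ => by simp⟩

theorem BC_id : BC fun x => (x : ℂ) :=
  ⟨Complex.continuous_ofReal.continuousOn, 2, fun x hx => by
    rw [Complex.norm_real, Real.norm_of_nonneg hx.1.le]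
    exact hx.2.le⟩

theorem X_star {R : H →L[ℂ] H} (n : ℕ) : star (X R n) = X R n := by
  unfold X
  rw [← Fc_star]
  simp only [Complex.conj_ofReal]

/-- `X m * Φ f = (f χ_m)(R)` as well -/
theorem X_Phi {R : H →L[ℂ] H} (h : Hyp R) {f : ℝ → ℂ} (hf : BC f) (m : ℕ) :
    X R m * Phi R f = Fc R fun x => f x * (ch m x : ℂ) := by
  ext1 v
  show X R m (Phi R f v) = _
  have h1 : Tendsto (fun n => X R m (Phi R f (X R n v))) atTop (𝓝 (X R m (Phi R f v))) :=
    ((X R m * Phi R f).continuous.tendsto _).comp (X_tendsto h v)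
  have h2 : Tendsto (fun n => (Fc R fun x => f x * (ch m x : ℂ)) (X R n v)) atTop
      (𝓝 ((Fc R fun x => f x * (ch m x : ℂ)) v)) :=
    ((Fc R fun x => f x * (ch m x : ℂ)).continuous.tendsto _).comp (X_tendsto h v)
  refine tendsto_nhds_unique h1 (h2.congr fun n => ?_)
  have e1 : Phi R f (X R n v) = (Fc R fun x => f x * (ch n x : ℂ)) v :=
    congrArg (fun S : H →L[ℂ] H => S v) (Phi_spec h hf n)
  have e2 : X R m * (Fc R fun x => f x * (ch n x : ℂ)) =
      (Fc R fun x => f x * (ch m x : ℂ)) * X R n := by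
    unfold X
    rw [← Fc_mul h (chC_cont m).continuousOn (mul_ch_cont hf.1 n).continuousOn,
      ← Fc_mul h (mul_ch_cont hf.1 m).continuousOn (chC_cont n).continuousOn]
    congr 1
    funext x
    ring
  rw [e1]
  exact (congrArg (fun S : H →L[ℂ] H => S v) e2).symm

theorem Phi_norm {R : H →L[ℂ] H} (h : Hyp R) {f : ℝ → ℂ} (hf : BC f) {C : ℝ} (hC : 0 ≤ C)
    (hfC : ∀ x ∈ Set.Ioo (0 : ℝ) 2, ‖f x‖ ≤ C) : ‖Phi R f‖ ≤ C := by
  refine ContinuousLinearMap.opNorm_le_bound _ hC fun v => ?_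
  have h1 : Tendsto (fun n => ‖Phi R f (X R n v)‖) atTop (𝓝 ‖Phi R f v‖) :=
    (((Phi R f).continuous.tendsto _).comp (X_tendsto h v)).norm
  refine le_of_tendsto h1 (Eventually.of_forall fun n => ?_)
  have e1 : Phi R f (X R n v) = (Fc R fun x => f x * (ch n x : ℂ)) v :=
    congrArg (fun S : H →L[ℂ] H => S v) (Phi_spec h hf n)
  rw [e1]
  refine ((Fc R _).le_opNorm v).trans ?_
  gcongr
  refine Fc_norm h hC fun x _ => ?_
  rw [norm_mul, Complex.norm_real, Real.norm_of_nonneg (ch_nonneg n x)]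
  by_cases hx : x ∈ Set.Ioo (0 : ℝ) 2
  · calc ‖f x‖ * ch n x ≤ C * 1 := by
          gcongr
          · exact ch_nonneg n x
          · exact hfC x hx
          · exact ch_le n x
      _ = C := mul_one C
  · have : ch n x = 0 := by
      rw [Set.mem_Ioo, not_and_or, not_lt, not_lt] at hx
      have hn : (0 : ℝ) < n + 1 := by positivity
      rcases hx with hx | hx
      · exact ch_zero (Or.inl (by nlinarith))
      · exact ch_zero (Or.inr (by nlinarith))
    rw [this, mul_zero]
    exact hC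

/-- the reflection, for polynomials -/
theorem anti_poly {R : H →L[ℂ] H} (h : Hyp R) {D : H → H} (_hadd : ∀ v w : H, D (v + w) = D v + D w)
    (hsmul : ∀ (c : ℂ) (v : H), D (c • v) = (starRingEnd ℂ c) • D v)
    (hR : ∀ v : H, D (R v) = (2 : ℂ) • D v - R (D v)) (p : Polynomial ℝ) : ∀ v : H,
    D (Fc R (fun x => ((p.eval x : ℝ) : ℂ)) v) = Fc R (fun x => ((p.eval (2 - x) : ℝ) : ℂ)) (D v) := by
  have cp : ∀ q : Polynomial ℝ, Continuous fun x : ℝ => ((q.eval x : ℝ) : ℂ) := fun q =>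
    Complex.continuous_ofReal.comp q.continuous
  have cp' : ∀ q : Polynomial ℝ, Continuous fun x : ℝ => ((q.eval (2 - x) : ℝ) : ℂ) := fun q =>
    Complex.continuous_ofReal.comp (q.continuous.comp (continuous_const.sub continuous_id))
  have c2 : Continuous fun x : ℝ => (2 : ℂ) - (x : ℂ) :=
    continuous_const.sub Complex.continuous_ofReal
  have e2x : Fc R (fun x => (2 : ℂ) - (x : ℂ)) = (2 : ℂ) • 1 - R := by
    have e2 : (fun x : ℝ => (2 : ℂ) - (x : ℂ)) =
        fun x : ℝ => (2 : ℂ) * 1 + (-1 : ℂ) * (x : ℂ) := by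
      funext x
      ring
    rw [e2, Fc_add h (f := fun _ : ℝ => (2 : ℂ) * 1) (g := fun x : ℝ => (-1 : ℂ) * (x : ℂ))
      continuousOn_const (continuousOn_const.mul Complex.continuous_ofReal.continuousOn),
      Fc_smul h 2 continuousOn_const, Fc_smul h (-1) Complex.continuous_ofReal.continuousOn,
      Fc_one h, Fc_id h, neg_one_smul, sub_eq_add_neg]
  induction p using Polynomial.induction_on with
  | C a =>
    intro v
    have e1 : Fc R (fun x => (((Polynomial.C a).eval x : ℝ) : ℂ)) = (a : ℂ) • 1 := by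
      have := Fc_smul h (a : ℂ) (f := fun _ => 1) continuousOn_const
      rw [Fc_one h] at this
      simpa using this
    have e3 : Fc R (fun x => (((Polynomial.C a).eval (2 - x) : ℝ) : ℂ)) = (a : ℂ) • 1 := by
      have := Fc_smul h (a : ℂ) (f := fun _ => 1) continuousOn_const
      rw [Fc_one h] at this
      simpa using this
    rw [e1, e3]
    show D ((a : ℂ) • v) = (a : ℂ) • D v
    rw [hsmul, Complex.conj_ofReal]
  | add p q hp hq =>
    intro v
    have e1 : Fc R (fun x => (((p + q).eval x : ℝ) : ℂ)) =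
        Fc R (fun x => ((p.eval x : ℝ) : ℂ)) + Fc R (fun x => ((q.eval x : ℝ) : ℂ)) := by
      rw [← Fc_add h (cp p).continuousOn (cp q).continuousOn]
      congr 1
      funext x
      simp
    have e3 : Fc R (fun x => (((p + q).eval (2 - x) : ℝ) : ℂ)) =
        Fc R (fun x => ((p.eval (2 - x) : ℝ) : ℂ)) +
          Fc R (fun x => ((q.eval (2 - x) : ℝ) : ℂ)) := by
      rw [← Fc_add h (cp' p).continuousOn (cp' q).continuousOn]
      congr 1
      funext x
      simp
    rw [e1, e3, add_apply, add_apply, _hadd, hp, hq]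
  | monomial n a hn =>
    intro v
    set p : Polynomial ℝ := Polynomial.C a * Polynomial.X ^ n with hp
    have e1 : Fc R (fun x => (((Polynomial.C a * Polynomial.X ^ (n + 1)).eval x : ℝ) : ℂ)) =
        Fc R (fun x => ((p.eval x : ℝ) : ℂ)) * R := by
      have e4 := Fc_mul h (f := fun x : ℝ => ((p.eval x : ℝ) : ℂ)) (g := fun x : ℝ => (x : ℂ))
        (cp p).continuousOn Complex.continuous_ofReal.continuousOn
      rw [Fc_id h] at e4
      rw [← e4]
      congr 1
      funext x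
      simp [hp, pow_succ]
      ring
    have e3 : Fc R (fun x => (((Polynomial.C a * Polynomial.X ^ (n + 1)).eval (2 - x) : ℝ) : ℂ)) =
        Fc R (fun x => ((p.eval (2 - x) : ℝ) : ℂ)) * ((2 : ℂ) • 1 - R) := by
      rw [← e2x, ← Fc_mul h (cp' p).continuousOn c2.continuousOn]
      congr 1
      funext x
      simp [hp, pow_succ]
      ring
    rw [e1, e3]
    show D (Fc R _ (R v)) = Fc R _ ((2 : ℂ) • D v - R (D v))
    rw [hn, hR]

/-- the reflection, for real continuous functions -/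
theorem anti_real {R : H →L[ℂ] H} (h : Hyp R) {D : H → H}
    (hadd : ∀ v w : H, D (v + w) = D v + D w)
    (hsmul : ∀ (c : ℂ) (v : H), D (c • v) = (starRingEnd ℂ c) • D v)
    (hbd : ∃ C : ℝ, ∀ v, ‖D v‖ ≤ C * ‖v‖)
    (hR : ∀ v : H, D (R v) = (2 : ℂ) • D v - R (D v)) {u : ℝ → ℝ} (hu : Continuous u) (v : H) :
    D (Fc R (fun x => (u x : ℂ)) v) = Fc R (fun x => (u (2 - x) : ℂ)) (D v) := by
  obtain ⟨C, hC⟩ := hbd
  have hsub : ∀ a b : H, D (a - b) = D a - D b := by
    intro a b
    have e1 : a - b = a + (-1 : ℂ) • b := by rw [neg_one_smul, sub_eq_add_neg]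
    rw [e1, hadd, hsmul, map_neg, map_one, neg_one_smul, sub_eq_add_neg]
  rw [← sub_eq_zero, ← norm_eq_zero]
  refine le_antisymm ?_ (norm_nonneg _)
  refine le_of_forall_pos_le_add fun ε hε => ?_
  rw [zero_add]
  set K : ℝ := |C| * ‖v‖ + ‖D v‖ + 1 with hK
  have hKpos : 0 < K := by positivity
  obtain ⟨p, hp⟩ := exists_polynomial_near_of_continuousOn 0 2 u hu.continuousOn (ε / K)
    (by positivity)
  have cu : Continuous fun x => (u x : ℂ) := Complex.continuous_ofReal.comp hu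
  have cu' : Continuous fun x => (u (2 - x) : ℂ) :=
    Complex.continuous_ofReal.comp (hu.comp (continuous_const.sub continuous_id))
  have cp : Continuous fun x : ℝ => ((p.eval x : ℝ) : ℂ) :=
    Complex.continuous_ofReal.comp p.continuous
  have cp' : Continuous fun x : ℝ => ((p.eval (2 - x) : ℝ) : ℂ) :=
    Complex.continuous_ofReal.comp (p.continuous.comp (continuous_const.sub continuous_id))
  have dif : ∀ f g : ℝ → ℂ, Continuous f → Continuous g →
      (∀ x ∈ Set.Icc (0 : ℝ) 2, ‖f x - g x‖ ≤ ε / K) → ‖Fc R f - Fc R g‖ ≤ ε / K := by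
    intro f g hf hg hfg
    have e1 : Fc R f - Fc R g = Fc R fun x => f x + (-1 : ℂ) * g x := by
      rw [Fc_add h (g := fun x => (-1 : ℂ) * g x) hf.continuousOn
        (continuousOn_const.mul hg.continuousOn),
        Fc_smul h (-1) hg.continuousOn, neg_one_smul, sub_eq_add_neg]
    rw [e1]
    refine Fc_norm h (by positivity) fun x hx => ?_
    have := hfg x hx
    rwa [neg_one_mul, ← sub_eq_add_neg]
  have d1 := dif _ _ cu cp (fun x hx => by
    rw [← Complex.ofReal_sub, Complex.norm_real, Real.norm_eq_abs, abs_sub_comm]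
    exact (hp x hx).le)
  have d2 := dif _ _ cp' cu' (fun x hx => by
    rw [← Complex.ofReal_sub, Complex.norm_real, Real.norm_eq_abs]
    exact (hp (2 - x) ⟨by linarith [hx.2], by linarith [hx.1]⟩).le)
  have e1 : D (Fc R (fun x => (u x : ℂ)) v) - Fc R (fun x => (u (2 - x) : ℂ)) (D v) =
      D ((Fc R (fun x => (u x : ℂ)) - Fc R (fun x => ((p.eval x : ℝ) : ℂ))) v) +
      (Fc R (fun x => ((p.eval (2 - x) : ℝ) : ℂ)) - Fc R (fun x => (u (2 - x) : ℂ))) (D v) := by
    rw [sub_apply, sub_apply, hsub,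
      anti_poly h hadd hsmul hR p v]
    abel
  rw [e1]
  calc _ ≤ ‖D ((Fc R (fun x => (u x : ℂ)) - Fc R (fun x => ((p.eval x : ℝ) : ℂ))) v)‖ +
        ‖(Fc R (fun x => ((p.eval (2 - x) : ℝ) : ℂ)) - Fc R (fun x => (u (2 - x) : ℂ))) (D v)‖ :=
        norm_add_le _ _
    _ ≤ |C| * (ε / K * ‖v‖) + ε / K * ‖D v‖ := by
        refine add_le_add ?_ ?_
        · refine (hC _).trans ?_
          refine mul_le_mul (le_abs_self C) ?_ (norm_nonneg _) (abs_nonneg _)
          exact (ContinuousLinearMap.le_opNorm _ _).trans (by gcongr)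
        · exact (ContinuousLinearMap.le_opNorm _ _).trans (by gcongr)
    _ = ε / K * (|C| * ‖v‖ + ‖D v‖) := by ring
    _ ≤ ε / K * K := by
        gcongr
        linarith
    _ = ε := by field_simp

/-- the reflection, for complex continuous functions -/
theorem anti_cont {R : H →L[ℂ] H} (h : Hyp R) {D : H → H}
    (hadd : ∀ v w : H, D (v + w) = D v + D w)
    (hsmul : ∀ (c : ℂ) (v : H), D (c • v) = (starRingEnd ℂ c) • D v)
    (hbd : ∃ C : ℝ, ∀ v, ‖D v‖ ≤ C * ‖v‖)
    (hR : ∀ v : H, D (R v) = (2 : ℂ) • D v - R (D v)) {f : ℝ → ℂ} (hf : Continuous f) (v : H) :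
    D (Fc R f v) = Fc R (fun x => starRingEnd ℂ (f (2 - x))) (D v) := by
  have h1 := anti_real h hadd hsmul hbd hR (Complex.continuous_re.comp hf) v
  have h2 := anti_real h hadd hsmul hbd hR (Complex.continuous_im.comp hf) v
  have c1 : Continuous fun x => ((f x).re : ℂ) :=
    Complex.continuous_ofReal.comp (Complex.continuous_re.comp hf)
  have c2 : Continuous fun x => ((f x).im : ℂ) :=
    Complex.continuous_ofReal.comp (Complex.continuous_im.comp hf)
  have hr : Continuous fun x : ℝ => 2 - x := continuous_const.sub continuous_id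
  have e1 : Fc R f = Fc R (fun x => ((f x).re : ℂ)) + I • Fc R (fun x => ((f x).im : ℂ)) := by
    rw [← Fc_smul h I c2.continuousOn, ← Fc_add h (g := fun x => I * ((f x).im : ℂ))
      c1.continuousOn (continuousOn_const.mul c2.continuousOn)]
    congr 1
    funext x
    rw [mul_comm]
    exact (Complex.re_add_im (f x)).symm
  have e2 : Fc R (fun x => starRingEnd ℂ (f (2 - x))) =
      Fc R (fun x => ((f (2 - x)).re : ℂ)) + (-I) • Fc R (fun x => ((f (2 - x)).im : ℂ)) := by
    rw [← Fc_smul h (-I) (f := fun x => ((f (2 - x)).im : ℂ)) (c2.comp hr).continuousOn,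
      ← Fc_add h (f := fun x => ((f (2 - x)).re : ℂ)) (g := fun x => (-I) * ((f (2 - x)).im : ℂ))
      (c1.comp hr).continuousOn (continuousOn_const.mul (c2.comp hr).continuousOn)]
    congr 1
    funext x
    apply Complex.ext <;> simp
  rw [e1, e2]
  show D (_ + I • _) = _ + (-I) • _
  rw [hadd, hsmul, Complex.conj_I]
  exact congrArg₂ (fun a b : H => a + (-I) • b) h1 h2

end

theorem r : S_V4 := by
  intro H _ _ _ R hsa hpos hle hinj hinj'
  have h : Hyp R := ⟨hsa, hpos, hle, hinj, hinj'⟩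
  refine ⟨Phi R, ?_, ?_, ?_, ?_, ?_, ?_, ?_, ?_, ?_, ?_, ?_⟩
  · -- add
    intro f g hf hg
    refine Phi_eq h (BC_add hf hg) fun m => ?_
    rw [add_mul, Phi_spec h hf m, Phi_spec h hg m,
      ← Fc_add h (mul_ch_cont hf.1 m).continuousOn (mul_ch_cont hg.1 m).continuousOn]
    congr 1
    funext x
    ring
  · -- mul
    intro f g hf hg
    refine Phi_eq h (BC_mul hf hg) fun m => ?_
    have e1 : X R (2 * m + 1) * (Fc R fun x => g x * (ch m x : ℂ)) =
        Fc R fun x => g x * (ch m x : ℂ) := by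
      unfold X
      rw [← Fc_mul h (chC_cont _).continuousOn (mul_ch_cont hg.1 m).continuousOn]
      congr 1
      funext x
      rw [mul_left_comm, ← Complex.ofReal_mul, ch_mul (by omega)]
    rw [mul_assoc, Phi_spec h hg m, ← e1, ← mul_assoc, Phi_spec h hf,
      ← Fc_mul h (mul_ch_cont hf.1 _).continuousOn (mul_ch_cont hg.1 m).continuousOn]
    congr 1
    funext x
    rw [mul_mul_mul_comm, ← Complex.ofReal_mul, ch_mul (by omega)]
  · -- smul
    intro c f hf
    refine Phi_eq h (BC_smul c hf) fun m => ?_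
    rw [smul_mul_assoc, Phi_spec h hf m, ← Fc_smul h c (mul_ch_cont hf.1 m).continuousOn]
    congr 1
    funext x
    ring
  · -- star
    intro f hf
    refine (Phi_eq h (BC_conj hf) fun m => ?_).symm
    have h1 := congrArg star (X_Phi h hf m)
    rw [star_mul, X_star, ← Fc_star] at h1
    rw [h1]
    congr 1
    funext x
    rw [map_mul, Complex.conj_ofReal]
  · -- one
    refine Phi_eq h BC_one fun m => ?_
    rw [one_mul]
    unfold X
    congr 1
    funext x
    rw [one_mul]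
  · -- id
    refine Phi_eq h BC_id fun m => ?_
    unfold X
    nth_rewrite 1 [← Fc_id h]
    rw [← Fc_mul h Complex.continuous_ofReal.continuousOn (chC_cont m).continuousOn]
  · -- congr
    intro f g hf hfg
    have hg : BC g := by
      refine ⟨hf.1.congr fun x hx => (hfg x hx).symm, ?_⟩
      obtain ⟨C, hC⟩ := hf.2
      exact ⟨C, fun x hx => by rw [← hfg x hx]; exact hC x hx⟩
    refine Phi_eq h hf fun m => ?_
    rw [Phi_spec h hg m]
    congr 1
    funext x
    by_cases hx : x ∈ Set.Ioo (0 : ℝ) 2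
    · rw [hfg x hx]
    · have : ch m x = 0 := by
        rw [Set.mem_Ioo, not_and_or, not_lt, not_lt] at hx
        have hn : (0 : ℝ) < m + 1 := by positivity
        rcases hx with hx | hx
        · exact ch_zero (Or.inl (by nlinarith))
        · exact ch_zero (Or.inr (by nlinarith))
      rw [this, Complex.ofReal_zero, mul_zero, mul_zero]
  · -- norm
    intro f C hf hC hfC
    exact Phi_norm h hf hC hfC
  · -- lim
    intro f g C hf hg hfC hlim v
    obtain ⟨D, hD⟩ := hg.2
    set K : ℝ := |C| + |D| + 1 with hK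
    have hKpos : 0 < K := by positivity
    have n1 : ∀ n, ‖Phi R (f n)‖ ≤ K := fun n => by
      refine Phi_norm h (hf n) hKpos.le fun x hx => (hfC n x hx).trans ?_
      rw [hK]
      linarith [le_abs_self C, abs_nonneg D]
    have n2 : ‖Phi R g‖ ≤ K := by
      refine Phi_norm h hg hKpos.le fun x hx => (hD x hx).trans ?_
      rw [hK]
      linarith [le_abs_self D, abs_nonneg C]
    rw [Metric.tendsto_atTop]
    intro ε hε
    obtain ⟨m, hm⟩ := Metric.tendsto_atTop.1 (X_tendsto h v) (ε / (4 * K)) (by positivity)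
    have h2 := hm m le_rfl
    rw [dist_eq_norm] at h2
    have hn1 : (0 : ℝ) < m + 1 := by positivity
    have h3 := hlim (1 / (m + 1 : ℝ)) (2 - 1 / (m + 1 : ℝ)) (by positivity) (by
      have : 0 < 1 / (m + 1 : ℝ) := by positivity
      linarith)
    rw [Metric.tendstoUniformlyOn_iff] at h3
    obtain ⟨n₀, hn₀⟩ := eventually_atTop.1 (h3 (ε / (4 * (‖v‖ + 1))) (by positivity))
    refine ⟨n₀, fun n hn => ?_⟩
    rw [dist_eq_norm]
    have e1 : ∀ k : ℝ → ℂ, BC k → Phi R k (X R m v) = (Fc R fun x => k x * (ch m x : ℂ)) v :=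
      fun k hk => congrArg (fun S : H →L[ℂ] H => S v) (Phi_spec h hk m)
    have e2 : ‖Phi R (f n) (X R m v) - Phi R g (X R m v)‖ ≤ ε / 4 := by
      rw [e1 _ (hf n), e1 _ hg, ← sub_apply]
      have e3 : (Fc R fun x => f n x * (ch m x : ℂ)) - (Fc R fun x => g x * (ch m x : ℂ)) =
          Fc R fun x => f n x * (ch m x : ℂ) + (-1 : ℂ) * (g x * (ch m x : ℂ)) := by
        rw [Fc_add h (g := fun x => (-1 : ℂ) * (g x * (ch m x : ℂ)))
          (mul_ch_cont (hf n).1 m).continuousOn
          (continuousOn_const.mul (mul_ch_cont hg.1 m).continuousOn),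
          Fc_smul h (-1) (mul_ch_cont hg.1 m).continuousOn, neg_one_smul, sub_eq_add_neg]
      rw [e3]
      have e4 : ‖Fc R fun x => f n x * (ch m x : ℂ) + (-1 : ℂ) * (g x * (ch m x : ℂ))‖ ≤
          ε / (4 * (‖v‖ + 1)) := by
        refine Fc_norm h (by positivity) fun x _ => ?_
        have e5 : f n x * (ch m x : ℂ) + (-1 : ℂ) * (g x * (ch m x : ℂ)) =
            (f n x - g x) * (ch m x : ℂ) := by ring
        rw [e5, norm_mul, Complex.norm_real, Real.norm_of_nonneg (ch_nonneg m x)]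
        by_cases hx : ch m x = 0
        · rw [hx, mul_zero]
          positivity
        · have hx1 : 1 < (m + 1 : ℝ) * x := by
            by_contra hc
            exact hx (ch_zero (Or.inl (not_lt.1 hc)))
          have hx2 : 1 < (m + 1 : ℝ) * (2 - x) := by
            by_contra hc
            exact hx (ch_zero (Or.inr (not_lt.1 hc)))
          have hx3 : x ∈ Set.Icc (1 / (m + 1 : ℝ)) (2 - 1 / (m + 1 : ℝ)) := by
            constructor
            · rw [div_le_iff₀ hn1]
              linarith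
            · have : 1 / (m + 1 : ℝ) ≤ 2 - x := by
                rw [div_le_iff₀ hn1]
                linarith
              linarith
          have e6 := hn₀ n hn x hx3
          rw [dist_eq_norm, norm_sub_rev] at e6
          calc ‖f n x - g x‖ * ch m x ≤ ε / (4 * (‖v‖ + 1)) * 1 := by
                gcongr
                · exact ch_nonneg m x
                · exact ch_le m x
            _ = _ := mul_one _
      calc _ ≤ _ * ‖v‖ := ContinuousLinearMap.le_opNorm _ _
        _ ≤ ε / (4 * (‖v‖ + 1)) * (‖v‖ + 1) := by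
            gcongr
            linarith
        _ = ε / 4 := by
            have : ‖v‖ + 1 ≠ 0 := by positivity
            field_simp
    have e3 : ∀ S : H →L[ℂ] H, ‖S‖ ≤ K → ‖S (X R m v - v)‖ ≤ ε / 4 := by
      intro S hS
      calc ‖S (X R m v - v)‖ ≤ ‖S‖ * ‖X R m v - v‖ := S.le_opNorm _
        _ ≤ K * (ε / (4 * K)) := by gcongr
        _ = ε / 4 := by field_simp
    have e4 : Phi R (f n) v - Phi R g v = (Phi R (f n) (X R m v) - Phi R g (X R m v)) +
        Phi R g (X R m v - v) - Phi R (f n) (X R m v - v) := by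
      rw [map_sub, map_sub]
      abel
    rw [e4]
    calc _ ≤ ‖(Phi R (f n) (X R m v) - Phi R g (X R m v)) + Phi R g (X R m v - v)‖ +
          ‖Phi R (f n) (X R m v - v)‖ := norm_sub_le _ _
      _ ≤ ‖Phi R (f n) (X R m v) - Phi R g (X R m v)‖ + ‖Phi R g (X R m v - v)‖ +
          ‖Phi R (f n) (X R m v - v)‖ := by
          gcongr
          exact norm_add_le _ _
      _ ≤ ε / 4 + ε / 4 + ε / 4 := by
          gcongr
          · exact e3 _ n2
          · exact e3 _ (n1 n)
      _ < ε := by linarith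
  · -- comm
    intro f hf S hS
    ext1 v
    show S (Phi R f v) = Phi R f (S v)
    have h1 : Tendsto (fun n => S (Phi R f (X R n v))) atTop (𝓝 (S (Phi R f v))) :=
      ((S * Phi R f).continuous.tendsto _).comp (X_tendsto h v)
    have h2 : Tendsto (fun n => Phi R f (X R n (S v))) atTop (𝓝 (Phi R f (S v))) :=
      ((Phi R f).continuous.tendsto _).comp (X_tendsto h (S v))
    refine tendsto_nhds_unique h1 (h2.congr fun n => ?_)
    have e1 : ∀ w, Phi R f (X R n w) = (Fc R fun x => f x * (ch n x : ℂ)) w := fun w =>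
      congrArg (fun T : H →L[ℂ] H => T w) (Phi_spec h hf n)
    rw [e1, e1]
    exact (congrArg (fun T : H →L[ℂ] H => T v) (Fc_comm h _ hS)).symm
  · -- anti
    intro f hf D hadd hsmul hbd hR v
    have hsub : ∀ a b : H, D (a - b) = D a - D b := by
      intro a b
      have e1 : a - b = a + (-1 : ℂ) • b := by rw [neg_one_smul, sub_eq_add_neg]
      rw [e1, hadd, hsmul, map_neg, map_one, neg_one_smul, sub_eq_add_neg]
    have hDt : ∀ (x : ℕ → H) (a : H), Tendsto x atTop (𝓝 a) →
        Tendsto (fun n => D (x n)) atTop (𝓝 (D a)) := by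
      intro x a hx
      obtain ⟨C, hC⟩ := hbd
      rw [tendsto_iff_norm_sub_tendsto_zero] at hx ⊢
      have h3 : Tendsto (fun n => C * ‖x n - a‖) atTop (𝓝 0) := by
        have := hx.const_mul C
        rwa [mul_zero] at this
      refine squeeze_zero (fun n => norm_nonneg _) (fun n => ?_) h3
      rw [← hsub]
      exact hC _
    have h1 : Tendsto (fun n => D (Phi R f (X R n v))) atTop (𝓝 (D (Phi R f v))) :=
      hDt _ _ (((Phi R f).continuous.tendsto _).comp (X_tendsto h v))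
    have h2 : Tendsto (fun n => Phi R (fun x => starRingEnd ℂ (f (2 - x))) (X R n (D v))) atTop
        (𝓝 (Phi R (fun x => starRingEnd ℂ (f (2 - x))) (D v))) :=
      ((Phi R _).continuous.tendsto _).comp (X_tendsto h (D v))
    refine tendsto_nhds_unique h1 (h2.congr fun n => ?_)
    have e1 : ∀ k : ℝ → ℂ, BC k → ∀ w, Phi R k (X R n w) =
        (Fc R fun x => k x * (ch n x : ℂ)) w := fun k hk w =>
      congrArg (fun S : H →L[ℂ] H => S w) (Phi_spec h hk n)
    rw [e1 _ (BC_refl hf), e1 _ hf, anti_cont h hadd hsmul hbd hR (mul_ch_cont hf.1 n)]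
    congr 2
    funext x
    rw [map_mul, Complex.conj_ofReal, ch_symm]

end Pool.Agent.H255.BC.TT_V4
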