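import Pool.Agent.H255.BC.Defs4

/-!
Tomita–Takesaki theory, V5: the conjugation `J` (helper757 for helper255).
-/

set_option autoImplicit false

open MeasureTheory Filter Topology Complex
open scoped InnerProductSpace ENNReal

namespace Pool.Agent.H255.BC.TT_V5

open Pool.Agent.W662.CB Pool.Agent.H255.BC

/-- the fourth root of `x (2 - x)` squared -/
noncomputable def sf (x : ℝ) : ℂ := ((Real.sqrt (Real.sqrt (x * (2 - x))) : ℝ) : ℂ)

theorem le_one_of (x : ℝ) : x * (2 - x) ≤ 1 := by nlinarith [sq_nonneg (x - 1)]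

theorem bc_tf : BC tf := by
  refine ⟨?_, 1, ?_⟩
  · refine Continuous.continuousOn ?_
    unfold tf
    fun_prop
  · intro x _
    unfold tf
    rw [Complex.norm_real, Real.norm_eq_abs, abs_of_nonneg (Real.sqrt_nonneg _)]
    exact Real.sqrt_le_one.mpr (le_one_of x)

theorem bc_sf : BC sf := by
  refine ⟨?_, 1, ?_⟩
  · refine Continuous.continuousOn ?_
    unfold sf
    fun_prop
  · intro x _
    unfold sf
    rw [Complex.norm_real, Real.norm_eq_abs, abs_of_nonneg (Real.sqrt_nonneg _)]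
    exact Real.sqrt_le_one.mpr (Real.sqrt_le_one.mpr (le_one_of x))

theorem bc_id : BC (fun x : ℝ => (x : ℂ)) := by
  refine ⟨?_, 2, ?_⟩
  · exact Continuous.continuousOn (by fun_prop)
  · intro x hx
    rw [Complex.norm_real, Real.norm_eq_abs, abs_of_pos hx.1]
    exact hx.2.le

theorem bc_one : BC (fun _ : ℝ => (1 : ℂ)) :=
  ⟨continuousOn_const, 1, fun _ _ => by simp⟩

theorem bc_mul {f g : ℝ → ℂ} (hf : BC f) (hg : BC g) : BC (fun x => f x * g x) := by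
  obtain ⟨hf, C, hC⟩ := hf
  obtain ⟨hg, C', hC'⟩ := hg
  refine ⟨hf.mul hg, C * C', ?_⟩
  intro x hx
  rw [norm_mul]
  exact mul_le_mul (hC x hx) (hC' x hx) (norm_nonneg _) ((norm_nonneg _).trans (hC x hx))

theorem bc_smul (c : ℂ) {f : ℝ → ℂ} (hf : BC f) : BC (fun x => c * f x) := by
  obtain ⟨hf, C, hC⟩ := hf
  refine ⟨continuousOn_const.mul hf, ‖c‖ * C, ?_⟩
  intro x hx
  rw [norm_mul]
  exact mul_le_mul_of_nonneg_left (hC x hx) (norm_nonneg _)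

theorem bc_flip {f : ℝ → ℂ} (hf : BC f) : BC (fun x => starRingEnd ℂ (f (2 - x))) := by
  obtain ⟨hf, C, hC⟩ := hf
  have hm : ∀ x ∈ Set.Ioo (0 : ℝ) 2, 2 - x ∈ Set.Ioo (0 : ℝ) 2 := by
    intro x hx
    exact ⟨by linarith [hx.2], by linarith [hx.1]⟩
  refine ⟨?_, C, ?_⟩
  · refine Complex.continuous_conj.comp_continuousOn ?_
    exact hf.comp (by fun_prop) hm
  · intro x hx
    rw [RCLike.norm_conj]
    exact hC _ (hm x hx)

section

variable {H : Type} [NormedAddCommGroup H] [InnerProductSpace ℂ H] [CompleteSpace H]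
  {M : VonNeumannAlgebra H} {ξ : H} {R : H →L[ℂ] H} {D : H → H}
  {Φ : (ℝ → ℂ) → (H →L[ℂ] H)}

theorem T_sa (hF : IsFC R Φ) : star (Φ tf) = Φ tf := by
  rw [hF.star_eq tf bc_tf]
  congr 1
  funext x
  simp [tf]

theorem T_symm (hF : IsFC R Φ) (v w : H) : ⟪Φ tf v, w⟫_ℂ = ⟪v, Φ tf w⟫_ℂ := by
  have h := T_sa hF
  have h2 : ContinuousLinearMap.adjoint (Φ tf) = Φ tf := h
  calc ⟪Φ tf v, w⟫_ℂ = ⟪ContinuousLinearMap.adjoint (Φ tf) v, w⟫_ℂ := by rw [h2]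
    _ = ⟪v, Φ tf w⟫_ℂ := ContinuousLinearMap.adjoint_inner_left _ _ _

theorem T_sq (hF : IsFC R Φ) (v : H) : Φ tf (Φ tf v) = R ((2 : ℂ) • v - R v) := by
  have h1 : Φ tf * Φ tf = Φ (fun x => tf x * tf x) := (hF.mul tf tf bc_tf bc_tf).symm
  have b2 : BC (fun x : ℝ => (2 : ℂ) * (fun _ : ℝ => (1 : ℂ)) x) := bc_smul 2 bc_one
  have b3 : BC (fun x : ℝ => (-1 : ℂ) * (fun x : ℝ => (x : ℂ)) x) := bc_smul (-1) bc_id
  have b4 : BC (fun x : ℝ => (2 : ℂ) * (fun _ : ℝ => (1 : ℂ)) x +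
      (-1 : ℂ) * (fun x : ℝ => (x : ℂ)) x) := by
    refine ⟨b2.1.add b3.1, 4, ?_⟩
    intro x hx
    have h5 : (2 : ℂ) * (fun _ : ℝ => (1 : ℂ)) x + (-1 : ℂ) * (fun x : ℝ => (x : ℂ)) x =
        ((2 - x : ℝ) : ℂ) := by push_cast; ring
    show ‖(2 : ℂ) * (fun _ : ℝ => (1 : ℂ)) x + (-1 : ℂ) * (fun x : ℝ => (x : ℂ)) x‖ ≤ 4
    rw [h5, Complex.norm_real, Real.norm_eq_abs, abs_of_pos (by linarith [hx.2])]
    linarith [hx.1]
  have h2 : Φ (fun x : ℝ => (2 : ℂ) * (fun _ : ℝ => (1 : ℂ)) x +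
      (-1 : ℂ) * (fun x : ℝ => (x : ℂ)) x) = (2 : ℂ) • (1 : H →L[ℂ] H) + (-1 : ℂ) • R := by
    rw [hF.add _ _ b2 b3, hF.smul 2 _ bc_one, hF.smul (-1) _ bc_id, hF.one, hF.id]
  have h3 : Φ (fun x : ℝ => (fun x : ℝ => (x : ℂ)) x *
      (fun x : ℝ => (2 : ℂ) * (fun _ : ℝ => (1 : ℂ)) x + (-1 : ℂ) * (fun x : ℝ => (x : ℂ)) x) x) =
      R * ((2 : ℂ) • (1 : H →L[ℂ] H) + (-1 : ℂ) • R) := by
    rw [hF.mul _ _ bc_id b4, h2, hF.id]
  have h4 : Φ (fun x => tf x * tf x) = R * ((2 : ℂ) • (1 : H →L[ℂ] H) + (-1 : ℂ) • R) := by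
    rw [← h3]
    refine hF.congr _ _ (bc_mul bc_tf bc_tf) ?_
    intro x hx
    have h6 : 0 ≤ x * (2 - x) := mul_nonneg hx.1.le (by linarith [hx.2])
    show tf x * tf x = (x : ℂ) * ((2 : ℂ) * 1 + (-1 : ℂ) * (x : ℂ))
    unfold tf
    rw [← Complex.ofReal_mul, Real.mul_self_sqrt h6]
    push_cast
    ring
  have h5 : (Φ tf * Φ tf) v = (R * ((2 : ℂ) • (1 : H →L[ℂ] H) + (-1 : ℂ) • R)) v := by
    rw [h1, h4]
  have h6 : (R * ((2 : ℂ) • (1 : H →L[ℂ] H) + (-1 : ℂ) • R)) v = R ((2 : ℂ) • v - R v) := by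
    show R ((2 : ℂ) • v + (-1 : ℂ) • R v) = _
    rw [neg_one_smul, ← sub_eq_add_neg]
  rw [← h6, ← h5]
  rfl

theorem norm_D (hT : IsTT M ξ R D) (hF : IsFC R Φ) (v : H) : ‖D v‖ = ‖Φ tf v‖ := by
  have h1 : ⟪D v, D v⟫_ℂ = ⟪Φ tf v, Φ tf v⟫_ℂ := by
    rw [hT.symm v (D v), hT.sq, ← T_sq hF, T_symm hF]
  have h2 : ‖D v‖ ^ 2 = ‖Φ tf v‖ ^ 2 := by
    have h3 := congrArg Complex.re h1
    have h4 : (⟪D v, D v⟫_ℂ).re = ‖D v‖ ^ 2 := by
      rw [inner_self_eq_norm_sq_to_K]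
      norm_cast
    have h5 : (⟪Φ tf v, Φ tf v⟫_ℂ).re = ‖Φ tf v‖ ^ 2 := by
      rw [inner_self_eq_norm_sq_to_K]
      norm_cast
    rw [← h4, ← h5, h3]
  exact (sq_eq_sq₀ (norm_nonneg _) (norm_nonneg _)).mp h2

theorem D_zero (hT : IsTT M ξ R D) : D 0 = 0 := by
  have := hT.smul 0 0
  simpa using this

theorem T_inj0 (hT : IsTT M ξ R D) (hF : IsFC R Φ) (v : H) (hv : Φ tf v = 0) : v = 0 := by
  have h1 : R ((2 : ℂ) • v - R v) = 0 := by rw [← T_sq hF, hv, map_zero]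
  have h2 := hT.inj _ h1
  exact hT.inj' v (sub_eq_zero.mp h2).symm

theorem T_inj (hT : IsTT M ξ R D) (hF : IsFC R Φ) {v w : H} (h : Φ tf v = Φ tf w) : v = w := by
  have h1 : Φ tf (v - w) = 0 := by rw [map_sub, h, sub_self]
  exact sub_eq_zero.mp (T_inj0 hT hF _ h1)

theorem T_dense (hT : IsTT M ξ R D) (hF : IsFC R Φ) : DenseRange (Φ tf) := by
  have h1 : (LinearMap.range (Φ tf : H →ₗ[ℂ] H))ᗮ = ⊥ := by
    rw [Submodule.eq_bot_iff]
    intro w hw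
    rw [Submodule.mem_orthogonal] at hw
    apply T_inj0 hT hF
    have h2 := hw (Φ tf (Φ tf w)) ⟨Φ tf w, rfl⟩
    rw [T_symm hF] at h2
    exact inner_self_eq_zero.mp h2
  have h2 : Dense ((LinearMap.range (Φ tf : H →ₗ[ℂ] H) : Submodule ℂ H) : Set H) := by
    rw [Submodule.dense_iff_topologicalClosure_eq_top, Submodule.topologicalClosure_eq_top_iff]
    exact h1
  intro x
  have h3 := h2 x
  convert h3 using 2
  ext y
  constructor
  · rintro ⟨u, rfl⟩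
    exact ⟨u, rfl⟩
  · rintro ⟨u, rfl⟩
    exact ⟨u, rfl⟩

/-- `D` as a semilinear map -/
noncomputable def Dl (hT : IsTT M ξ R D) : H →ₛₗ[starRingEnd ℂ] H where
  toFun := D
  map_add' := hT.add
  map_smul' := hT.smul

theorem D_bdd (hT : IsTT M ξ R D) (hF : IsFC R Φ) : ∃ C : ℝ, ∀ v, ‖D v‖ ≤ C * ‖v‖ :=
  ⟨‖Φ tf‖, fun v => by rw [norm_D hT hF]; exact (Φ tf).le_opNorm v⟩

theorem D_cont (hT : IsTT M ξ R D) (hF : IsFC R Φ) : Continuous D := by
  obtain ⟨C, hC⟩ := D_bdd hT hF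
  exact ((Dl hT).mkContinuous C hC).continuous

theorem exists_J (hT : IsTT M ξ R D) (hF : IsFC R Φ) :
    ∃ J : H → H, Continuous J ∧ (∀ v w : H, J (v + w) = J v + J w) ∧
      (∀ (c : ℂ) (v : H), J (c • v) = (starRingEnd ℂ c) • J v) ∧
      ∀ v : H, J (Φ tf v) = D v := by
  refine ⟨(Dl hT).extendOfNorm (Φ tf : H →ₗ[ℂ] H), ContinuousLinearMap.continuous _,
    fun v w => map_add _ _ _, fun c v => map_smulₛₗ _ _ _, ?_⟩
  intro v
  refine LinearMap.extendOfNorm_eq (f := Dl hT) (e := (Φ tf : H →ₗ[ℂ] H)) (T_dense hT hF)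
    ⟨1, fun x => ?_⟩ v
  rw [one_mul]
  exact (norm_D hT hF x).le

end

theorem r : S_V5 := by
  intro H _ _ _ M ξ R D Φ hT hF
  obtain ⟨J, hJc, hJa, hJs, hJT⟩ := exists_J hT hF
  have hsymm := T_symm hF
  have hdense := T_dense hT hF
  have hDc := D_cont hT hF
  have hinj : ∀ {v w : H}, Φ tf v = Φ tf w → v = w := fun h => T_inj hT hF h
  -- D T = T D
  have hDT : ∀ v : H, D (Φ tf v) = Φ tf (D v) := by
    intro v
    rw [hF.anti tf bc_tf D hT.add hT.smul (D_bdd hT hF) hT.comm v]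
    congr 2
    funext x
    show starRingEnd ℂ (tf (2 - x)) = tf x
    unfold tf
    rw [Complex.conj_ofReal]
    have h9 : (2 - x) * (2 - (2 - x)) = x * (2 - x) := by ring
    rw [h9]
  have heq' : ∀ v : H, D v = Φ tf (J v) := by
    intro v
    have hcl : IsClosed {v : H | D v = Φ tf (J v)} :=
      isClosed_eq hDc ((Φ tf).continuous.comp hJc)
    refine hdense.induction_on (p := fun v => D v = Φ tf (J v)) v hcl ?_
    intro u
    rw [hDT, hJT]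
  have hinv : ∀ v : H, J (J v) = v := by
    intro v
    have h1 : J (D v) = Φ tf v := by
      apply hinj
      rw [← heq', hT.sq, T_sq hF]
    apply hinj
    rw [← heq', ← h1, heq' v, hJT]
  have hinner : ∀ v w : H, ⟪J v, J w⟫_ℂ = ⟪w, v⟫_ℂ := by
    intro v w
    have hcl : IsClosed {v : H | ⟪J v, J w⟫_ℂ = ⟪w, v⟫_ℂ} :=
      isClosed_eq (hJc.inner continuous_const) (continuous_const.inner continuous_id)
    refine hdense.induction_on (p := fun v => ⟪J v, J w⟫_ℂ = ⟪w, v⟫_ℂ) v hcl ?_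
    intro u
    rw [hJT, hT.symm u (J w), heq' (J w), hinv, hsymm]
  -- T ξ = ξ
  have hTξ : Φ tf ξ = ξ := by
    have h1 : Φ tf (Φ tf ξ) = ξ := by
      rw [T_sq hF, hT.fix, two_smul, add_sub_cancel_right, hT.fix]
    set w := Φ tf ξ - ξ with hw
    have h2 : Φ tf w = -w := by rw [hw, map_sub, h1, neg_sub]
    have hS : Φ tf = star (Φ sf) * Φ sf := by
      have h3 : star (Φ sf) = Φ sf := by
        rw [hF.star_eq sf bc_sf]
        congr 1
        funext x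
        simp [sf]
      rw [h3, ← hF.mul sf sf bc_sf bc_sf]
      congr 1
      funext x
      unfold sf tf
      rw [← Complex.ofReal_mul, Real.mul_self_sqrt (Real.sqrt_nonneg _)]
    have h4 : ⟪w, Φ tf w⟫_ℂ = ((‖Φ sf w‖ ^ 2 : ℝ) : ℂ) := by
      rw [hS]
      show ⟪w, ContinuousLinearMap.adjoint (Φ sf) (Φ sf w)⟫_ℂ = _
      rw [ContinuousLinearMap.adjoint_inner_right, inner_self_eq_norm_sq_to_K]
      norm_cast
    have h5 : ⟪w, Φ tf w⟫_ℂ = -((‖w‖ ^ 2 : ℝ) : ℂ) := by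
      rw [h2, inner_neg_right, inner_self_eq_norm_sq_to_K]
      norm_cast
    have h6 : (‖Φ sf w‖ ^ 2 : ℝ) = -(‖w‖ ^ 2 : ℝ) := by
      rw [h4] at h5
      exact_mod_cast h5
    have h7 : ‖w‖ ^ 2 = 0 := by nlinarith [sq_nonneg ‖Φ sf w‖, sq_nonneg ‖w‖]
    have h8 : w = 0 := by
      rw [← norm_eq_zero]
      exact pow_eq_zero_iff (two_ne_zero) |>.mp h7
    exact sub_eq_zero.mp h8
  refine ⟨J, ⟨hJa, hJs, hinv, hinner, ?_, fun v => (hJT v).symm, heq', ?_⟩⟩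
  · calc J ξ = J (Φ tf ξ) := by rw [hTξ]
      _ = D ξ := hJT ξ
      _ = ξ := hT.fixD
  · intro f hf v
    apply hinj
    have hf' := bc_flip hf
    have hcomm : ∀ u : H, Φ (fun x => starRingEnd ℂ (f (2 - x))) (Φ tf u) =
        Φ tf (Φ (fun x => starRingEnd ℂ (f (2 - x))) u) := by
      intro u
      have h1 := hF.mul _ _ hf' bc_tf
      have h2 := hF.mul _ _ bc_tf hf'
      have h3 : (fun x => starRingEnd ℂ (f (2 - x)) * tf x) =
          fun x => tf x * starRingEnd ℂ (f (2 - x)) := by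
        funext x
        ring
      rw [h3, h2] at h1
      exact (congrArg (fun S : H →L[ℂ] H => S u) h1).symm
    rw [← heq', hF.anti f hf D hT.add hT.smul (D_bdd hT hF) hT.comm v, heq' v, hcomm]

end Pool.Agent.H255.BC.TT_V5
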