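import Pool.Agent.H255.BC.Defs4

set_option autoImplicit false

open MeasureTheory Filter Topology Complex
open scoped InnerProductSpace ENNReal

namespace Pool.Agent.H255.BC.TT_V6

open Pool.Agent.W662.CB Pool.Agent.H255.BC

theorem norm_uf (t x : ℝ) : ‖uf t x‖ = 1 := by
  unfold uf
  rw [mul_comm]
  exact Complex.norm_exp_ofReal_mul_I _

theorem quot_pos {x : ℝ} (hx : x ∈ Set.Ioo (0 : ℝ) 2) : 0 < (2 - x) / x :=
  div_pos (by linarith [hx.2]) hx.1

theorem log_cont : ContinuousOn (fun x : ℝ => Real.log ((2 - x) / x)) (Set.Ioo 0 2) := by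
  refine ContinuousOn.log ?_ fun x hx => (quot_pos hx).ne'
  exact ContinuousOn.div (by fun_prop) continuousOn_id fun x hx => hx.1.ne'

theorem uf_cont (t : ℝ) : ContinuousOn (uf t) (Set.Ioo 0 2) := by
  unfold uf
  have h1 : ContinuousOn (fun x : ℝ => ((t * Real.log ((2 - x) / x) : ℝ) : ℂ)) (Set.Ioo 0 2) :=
    Complex.continuous_ofReal.comp_continuousOn (continuousOn_const.mul log_cont)
  exact Complex.continuous_exp.comp_continuousOn (continuousOn_const.mul h1)

theorem bc_uf (t : ℝ) : BC (uf t) := ⟨uf_cont t, 1, fun x _ => (norm_uf t x).le⟩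

theorem bc_const (c : ℂ) : BC (fun _ => c) := ⟨continuousOn_const, ‖c‖, fun _ _ => le_refl _⟩

theorem bc_id : BC (fun x => (x : ℂ)) := by
  refine ⟨Complex.continuous_ofReal.continuousOn, 2, fun x hx => ?_⟩
  rw [Complex.norm_real, Real.norm_eq_abs, abs_of_pos hx.1]
  exact hx.2.le

theorem bc_mul {f g : ℝ → ℂ} (hf : BC f) (hg : BC g) : BC (fun x => f x * g x) := by
  obtain ⟨h1, C, h2⟩ := hf
  obtain ⟨h3, D, h4⟩ := hg
  refine ⟨h1.mul h3, C * D, fun x hx => ?_⟩
  rw [norm_mul]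
  exact mul_le_mul (h2 x hx) (h4 x hx) (norm_nonneg _) ((norm_nonneg _).trans (h2 x hx))

theorem bc_add {f g : ℝ → ℂ} (hf : BC f) (hg : BC g) : BC (fun x => f x + g x) := by
  obtain ⟨h1, C, h2⟩ := hf
  obtain ⟨h3, D, h4⟩ := hg
  exact ⟨h1.add h3, C + D, fun x hx => (norm_add_le _ _).trans (add_le_add (h2 x hx) (h4 x hx))⟩

theorem uf_zero : uf 0 = fun _ => 1 := by
  funext x; simp [uf]

theorem uf_add (s t : ℝ) : uf (s + t) = fun x => uf s x * uf t x := by
  funext x
  unfold uf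
  rw [← Complex.exp_add]
  congr 1
  push_cast
  ring

theorem uf_conj (t : ℝ) : (fun x => starRingEnd ℂ (uf t x)) = uf (-t) := by
  funext x
  unfold uf
  rw [← Complex.exp_conj, map_mul, Complex.conj_I, Complex.conj_ofReal]
  congr 1
  push_cast
  ring

theorem uf_diff (s t x : ℝ) : ‖uf s x - uf t x‖ ≤ |s - t| * |Real.log ((2 - x) / x)| := by
  have h1 : uf s x = uf (s - t) x * uf t x := by
    have := congrFun (uf_add (s - t) t) x
    rwa [sub_add_cancel] at this
  have h2 : uf s x - uf t x = (uf (s - t) x - 1) * uf t x := by rw [h1]; ring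
  rw [h2, norm_mul, norm_uf, mul_one]
  unfold uf
  refine (Real.norm_exp_I_mul_ofReal_sub_one_le (x := (s - t) * Real.log ((2 - x) / x))).trans ?_
  rw [Real.norm_eq_abs, abs_mul]

theorem uf_one (t : ℝ) : uf t 1 = 1 := by
  unfold uf
  norm_num

theorem uf_diffAt (t : ℝ) : DifferentiableAt ℝ (uf t) 1 := by
  unfold uf
  have h1 : DifferentiableAt ℝ (fun x : ℝ => t * Real.log ((2 - x) / x)) 1 := by
    refine DifferentiableAt.const_mul (DifferentiableAt.log ?_ (by norm_num)) t
    exact DifferentiableAt.div (by fun_prop) differentiableAt_id (by norm_num)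
  have h2 : DifferentiableAt ℝ (fun x : ℝ => ((t * Real.log ((2 - x) / x) : ℝ) : ℂ)) 1 :=
    Complex.ofRealCLM.differentiableAt.comp (1 : ℝ) h1
  exact (h2.const_mul I).cexp

/-- the divided difference at `1` -/
theorem exists_g (t : ℝ) : ∃ g : ℝ → ℂ, BC g ∧ ∀ x : ℝ, uf t x = g x * ((x : ℂ) + (-1) * 1) + 1 := by
  refine ⟨dslope (uf t) 1, ?_, ?_⟩
  · have hc : ContinuousOn (dslope (uf t) 1) (Set.Ioo 0 2) := by
      rw [continuousOn_dslope (Ioo_mem_nhds (by norm_num) (by norm_num))]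
      exact ⟨uf_cont t, uf_diffAt t⟩
    have hsub : Set.Icc (1 / 2 : ℝ) (3 / 2) ⊆ Set.Ioo 0 2 := by
      intro x hx
      exact ⟨by linarith [hx.1], by linarith [hx.2]⟩
    obtain ⟨B, hB⟩ := isCompact_Icc.exists_bound_of_continuousOn (hc.mono hsub)
    refine ⟨hc, max B 4, fun x hx => ?_⟩
    by_cases h : x ∈ Set.Icc (1 / 2 : ℝ) (3 / 2)
    · exact (hB x h).trans (le_max_left _ _)
    · refine le_trans ?_ (le_max_right _ _)
      have hx1 : 1 / 2 < |x - 1| := by
        by_contra hle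
        push Not at hle
        have := abs_le.mp hle
        exact h ⟨by linarith [this.1], by linarith [this.2]⟩
      have hne : x ≠ 1 := by
        rintro rfl
        simp at hx1
        linarith
      rw [dslope_of_ne _ hne, slope_def_module, norm_smul, norm_inv, Real.norm_eq_abs]
      have h1 : ‖uf t x - uf t 1‖ ≤ 2 := by
        refine (norm_sub_le _ _).trans ?_
        rw [norm_uf, norm_uf]; norm_num
      have h2 : |x - 1|⁻¹ ≤ 2 := by
        rw [inv_le_comm₀ (by linarith) (by norm_num)]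
        linarith
      calc |x - 1|⁻¹ * ‖uf t x - uf t 1‖ ≤ 2 * 2 :=
            mul_le_mul h2 h1 (norm_nonneg _) (by norm_num)
        _ = 4 := by norm_num
  · intro x
    have h1 := sub_smul_dslope (uf t) 1 x
    rw [uf_one] at h1
    have h2 : uf t x = (x - 1 : ℝ) • dslope (uf t) 1 x + 1 := by rw [h1]; ring
    rw [h2, Complex.real_smul]
    push_cast
    ring

theorem r : S_V6 := by
  intro H _ _ _ ξ R Φ hΦ hR
  refine ⟨?_, ?_, ?_, ?_, ?_, bc_uf⟩
  · rw [uf_zero, hΦ.one]
  · intro s t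
    rw [uf_add, hΦ.mul _ _ (bc_uf s) (bc_uf t)]
  · intro t
    rw [hΦ.star_eq _ (bc_uf t), uf_conj]
  · intro v
    rw [continuous_iff_seqContinuous]
    intro tn t0 htn
    refine hΦ.lim (fun n => uf (tn n)) (uf t0) 1 (fun n => bc_uf _) (bc_uf t0)
      (fun n x _ => (norm_uf _ x).le) ?_ v
    intro a b ha hb
    have hsub : Set.Icc a b ⊆ Set.Ioo 0 2 := fun x hx => ⟨by linarith [hx.1], by linarith [hx.2]⟩
    obtain ⟨B, hB⟩ := isCompact_Icc.exists_bound_of_continuousOn (log_cont.mono hsub)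
    rw [Metric.tendstoUniformlyOn_iff]
    intro ε hε
    have h1 : Tendsto (fun n => |tn n - t0| * (|B| + 1)) atTop (𝓝 0) := by
      have h2 : Tendsto (fun n => tn n - t0) atTop (𝓝 0) := by
        have := htn.sub_const t0
        rwa [sub_self] at this
      have h3 := h2.abs
      rw [abs_zero] at h3
      have h4 := h3.mul_const (|B| + 1)
      rwa [zero_mul] at h4
    filter_upwards [h1.eventually (gt_mem_nhds hε)] with n hn x hx
    rw [dist_comm, dist_eq_norm]
    refine (uf_diff _ _ _).trans_lt (lt_of_le_of_lt ?_ hn)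
    refine mul_le_mul_of_nonneg_left ?_ (abs_nonneg _)
    have h5 := hB x hx
    rw [Real.norm_eq_abs] at h5
    have h6 := le_abs_self B
    linarith
  · intro t
    obtain ⟨g, hg, h1⟩ := exists_g t
    have b1 : BC (fun x : ℝ => (-1 : ℂ) * 1) := bc_const _
    have b2 : BC (fun x : ℝ => (x : ℂ) + (-1) * 1) := bc_add bc_id b1
    have h2 : Φ (fun x : ℝ => (x : ℂ) + (-1) * 1) = R + (-1 : ℂ) • 1 := by
      rw [hΦ.add _ _ bc_id b1, hΦ.id, hΦ.smul (-1) (fun _ => 1) (bc_const 1), hΦ.one]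
    have h3 : uf t = fun x : ℝ => g x * ((x : ℂ) + (-1) * 1) + 1 := funext h1
    rw [h3, hΦ.add _ _ (bc_mul hg b2) (bc_const 1), hΦ.mul _ _ hg b2, h2, hΦ.one]
    simp [hR]

end Pool.Agent.H255.BC.TT_V6
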