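import Pool.Agent.H255.BC.Defs4
import Mathlib

/-! Tomita–Takesaki V7: the integral formula (helper321, for helper255) -/

set_option autoImplicit false

open MeasureTheory Filter Topology Complex

section

namespace Pool.Agent.H321.BC.V7A

/-- the kernel -/
noncomputable def k (θ t : ℝ) : ℝ := Real.exp (-θ * t) / (2 * Real.cosh (Real.pi * t))

lemma cosh_eq (t : ℝ) : 2 * Real.cosh (Real.pi * t) =
    Real.exp (-(Real.pi * t)) * (1 + Real.exp (2 * Real.pi * t)) := by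
  rw [Real.cosh_eq, mul_add, ← Real.exp_add]
  have : -(Real.pi * t) + 2 * Real.pi * t = Real.pi * t := by ring
  rw [this]; ring

lemma k_eq (θ t : ℝ) : k θ t = Real.exp (Real.pi * t - θ * t) / (1 + Real.exp (2 * Real.pi * t)) := by
  have h1 : (0 : ℝ) < 1 + Real.exp (2 * Real.pi * t) := by positivity
  rw [k, cosh_eq, div_eq_div_iff (by positivity) (by positivity)]
  have : Real.exp (Real.pi * t - θ * t) = Real.exp (Real.pi * t) * Real.exp (-θ * t) := by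
    rw [← Real.exp_add]; congr 1; ring
  rw [this]
  have h2 : Real.exp (Real.pi * t) * Real.exp (-(Real.pi * t)) = 1 := by
    rw [← Real.exp_add]; simp
  calc Real.exp (-θ * t) * (1 + Real.exp (2 * Real.pi * t))
      = (Real.exp (Real.pi * t) * Real.exp (-(Real.pi * t))) * Real.exp (-θ * t) *
        (1 + Real.exp (2 * Real.pi * t)) := by rw [h2]; ring
    _ = _ := by ring

/-- the substitution -/
noncomputable def u (t : ℝ) : ℝ := 1 / (1 + Real.exp (2 * Real.pi * t))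

lemma u_pos (t : ℝ) : 0 < u t := by unfold u; positivity

lemma one_sub_u (t : ℝ) : 1 - u t = Real.exp (2 * Real.pi * t) / (1 + Real.exp (2 * Real.pi * t)) := by
  have h1 : (0 : ℝ) < 1 + Real.exp (2 * Real.pi * t) := by positivity
  unfold u; field_simp; ring

lemma u_lt (t : ℝ) : 0 < 1 - u t := by rw [one_sub_u]; positivity

lemma u_image : u '' Set.univ = Set.Ioo 0 1 := by
  ext y
  constructor
  · rintro ⟨t, -, rfl⟩
    exact ⟨u_pos t, by linarith [u_lt t]⟩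
  · rintro ⟨h0, h1⟩
    refine ⟨Real.log ((1 - y) / y) / (2 * Real.pi), trivial, ?_⟩
    unfold u
    have : 2 * Real.pi * (Real.log ((1 - y) / y) / (2 * Real.pi)) = Real.log ((1 - y) / y) := by
      field_simp
    rw [this, Real.exp_log (div_pos (by linarith) h0)]
    field_simp
    ring

lemma u_inj : Set.InjOn u Set.univ := by
  intro a _ b _ h
  unfold u at h
  have h1 : (0 : ℝ) < 1 + Real.exp (2 * Real.pi * a) := by positivity
  have h2 : (0 : ℝ) < 1 + Real.exp (2 * Real.pi * b) := by positivity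
  rw [div_eq_div_iff h1.ne' h2.ne'] at h
  have h3 : Real.exp (2 * Real.pi * a) = Real.exp (2 * Real.pi * b) := by linarith
  have h4 := Real.exp_injective h3
  have : (2 * Real.pi) ≠ 0 := by positivity
  exact mul_left_cancel₀ this h4

/-- derivative -/
noncomputable def u' (t : ℝ) : ℝ := -(2 * Real.pi * Real.exp (2 * Real.pi * t)) /
  (1 + Real.exp (2 * Real.pi * t)) ^ 2

lemma u_deriv (t : ℝ) : HasDerivAt u (u' t) t := by
  have h1 : (0 : ℝ) < 1 + Real.exp (2 * Real.pi * t) := by positivity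
  have h2 : HasDerivAt (fun t : ℝ => 1 + Real.exp (2 * Real.pi * t))
      (Real.exp (2 * Real.pi * t) * (2 * Real.pi)) t := by
    have := ((hasDerivAt_id t).const_mul (2 * Real.pi)).exp
    simpa using this.const_add 1
  have h3 := h2.inv h1.ne'
  have h4 : HasDerivAt u (-(Real.exp (2 * Real.pi * t) * (2 * Real.pi)) /
      (1 + Real.exp (2 * Real.pi * t)) ^ 2) t := by
    refine h3.congr_of_eventuallyEq ?_
    filter_upwards with s
    simp [u]
  convert h4 using 1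
  unfold u'
  ring

lemma abs_u' (t : ℝ) : |u' t| = 2 * Real.pi * (u t * (1 - u t)) := by
  have h1 : (0 : ℝ) < 1 + Real.exp (2 * Real.pi * t) := by positivity
  rw [one_sub_u, u, u', neg_div, abs_neg, abs_of_pos (by positivity)]
  field_simp

lemma log_u (t : ℝ) : Real.log (u t) = -Real.log (1 + Real.exp (2 * Real.pi * t)) := by
  rw [u, one_div, Real.log_inv]

lemma log_one_sub_u (t : ℝ) : Real.log (1 - u t) =
    2 * Real.pi * t - Real.log (1 + Real.exp (2 * Real.pi * t)) := by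
  have h1 : (0 : ℝ) < 1 + Real.exp (2 * Real.pi * t) := by positivity
  rw [one_sub_u, Real.log_div (Real.exp_pos _).ne' h1.ne', Real.log_exp]

lemma key (θ t : ℝ) : (u t) ^ ((1 + θ / Real.pi) / 2 - 1) *
    (1 - u t) ^ ((1 - (1 + θ / Real.pi) / 2) - 1) * (u t * (1 - u t)) = k θ t := by
  have h1 : (0 : ℝ) < 1 + Real.exp (2 * Real.pi * t) := by positivity
  have hpi : Real.pi ≠ 0 := Real.pi_ne_zero
  rw [Real.rpow_sub_one (u_pos t).ne', Real.rpow_sub_one (u_lt t).ne']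
  have e1 : (u t) ^ ((1 + θ / Real.pi) / 2) / u t *
    ((1 - u t) ^ (1 - (1 + θ / Real.pi) / 2) / (1 - u t)) * (u t * (1 - u t)) =
      (u t) ^ ((1 + θ / Real.pi) / 2) * (1 - u t) ^ (1 - (1 + θ / Real.pi) / 2) := by
    have := (u_pos t).ne'
    have := (u_lt t).ne'
    field_simp
  rw [e1, Real.rpow_def_of_pos (u_pos t), Real.rpow_def_of_pos (u_lt t), log_u, log_one_sub_u,
    ← Real.exp_add, k_eq]
  have e2 : Real.exp (Real.pi * t - θ * t) / (1 + Real.exp (2 * Real.pi * t)) =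
      Real.exp (Real.pi * t - θ * t - Real.log (1 + Real.exp (2 * Real.pi * t))) := by
    rw [Real.exp_sub _ (Real.log _), Real.exp_log h1]
  rw [e2]
  congr 1
  field_simp
  ring

/-- the beta integrand -/
noncomputable def g (θ : ℝ) (y : ℝ) : ℂ :=
  (y : ℂ) ^ ((((1 + θ / Real.pi) / 2 : ℝ) : ℂ) - 1) *
    (1 - (y : ℂ)) ^ ((1 - (((1 + θ / Real.pi) / 2 : ℝ) : ℂ)) - 1)

lemma g_u (θ t : ℝ) : |u' t| • g θ (u t) = ((2 * Real.pi : ℝ) : ℂ) * (k θ t : ℂ) := by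
  have e1 : g θ (u t) = (((u t) ^ ((1 + θ / Real.pi) / 2 - 1) *
    (1 - u t) ^ ((1 - (1 + θ / Real.pi) / 2) - 1) : ℝ) : ℂ) := by
    unfold g
    rw [Complex.ofReal_mul, Complex.ofReal_cpow (u_pos t).le, Complex.ofReal_cpow (u_lt t).le]
    push_cast
    rfl
  rw [e1, abs_u', ← key, real_smul]
  push_cast
  ring

lemma s_pos {θ : ℝ} (hθ : |θ| < Real.pi) : 0 < (1 + θ / Real.pi) / 2 ∧ (1 + θ / Real.pi) / 2 < 1 := by
  have hp := Real.pi_pos
  obtain ⟨h1, h2⟩ := abs_lt.1 hθ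
  have h3 : -1 < θ / Real.pi := by rw [lt_div_iff₀ hp]; linarith
  have h4 : θ / Real.pi < 1 := by rw [div_lt_iff₀ hp]; linarith
  constructor <;> linarith

lemma k_integrable' {θ : ℝ} (hθ : |θ| < Real.pi) : Integrable (fun t => (k θ t : ℂ)) := by
  obtain ⟨h1, h2⟩ := s_pos hθ
  have hb := betaIntegral_convergent (u := (((1 + θ / Real.pi) / 2 : ℝ) : ℂ))
    (v := 1 - (((1 + θ / Real.pi) / 2 : ℝ) : ℂ)) (by simpa using h1)
    (by rw [Complex.sub_re, Complex.one_re, Complex.ofReal_re]; linarith)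
  have hb' : IntegrableOn (g θ) (Set.Ioo 0 1) := by
    rw [intervalIntegrable_iff_integrableOn_Ioo_of_le zero_le_one] at hb
    exact hb
  rw [← u_image, integrableOn_image_iff_integrableOn_abs_deriv_smul MeasurableSet.univ
    (fun x _ => (u_deriv x).hasDerivWithinAt) u_inj] at hb'
  rw [integrableOn_univ] at hb'
  have := hb'.const_mul (((2 * Real.pi : ℝ) : ℂ)⁻¹)
  refine this.congr ?_
  filter_upwards with t
  show (((2 * Real.pi : ℝ) : ℂ)⁻¹) * (|u' t| • g θ (u t)) = k θ t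
  rw [g_u]
  have h3 : (((2 * Real.pi : ℝ) : ℂ)) ≠ 0 := by
    exact_mod_cast (by positivity : (2 * Real.pi) ≠ 0)
  field_simp

lemma k_integrable {θ : ℝ} (hθ : |θ| < Real.pi) : Integrable (k θ) := by
  have := (k_integrable' hθ).re
  simpa using this

lemma k_integral {θ : ℝ} (hθ : |θ| < Real.pi) :
    ∫ t : ℝ, (k θ t : ℂ) = 1 / (2 * Complex.cos (θ / 2)) := by
  obtain ⟨h1, h2⟩ := s_pos hθ
  have hpi : (Real.pi : ℂ) ≠ 0 := by exact_mod_cast Real.pi_ne_zero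
  have e1 : ∫ y in Set.Ioo (0 : ℝ) 1, g θ y = ((2 * Real.pi : ℝ) : ℂ) * ∫ t : ℝ, (k θ t : ℂ) := by
    rw [← u_image, integral_image_eq_integral_abs_deriv_smul MeasurableSet.univ
      (fun x _ => (u_deriv x).hasDerivWithinAt) u_inj, Measure.restrict_univ,
      ← integral_const_mul]
    refine integral_congr_ae ?_
    filter_upwards with t
    exact g_u θ t
  have e2 : ∫ y in Set.Ioo (0 : ℝ) 1, g θ y = betaIntegral ((((1 + θ / Real.pi) / 2 : ℝ) : ℂ))
      (1 - (((1 + θ / Real.pi) / 2 : ℝ) : ℂ)) := by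
    rw [betaIntegral, intervalIntegral.integral_of_le zero_le_one, integral_Ioc_eq_integral_Ioo]
    rfl
  have e3 := Gamma_mul_Gamma_eq_betaIntegral (s := (((1 + θ / Real.pi) / 2 : ℝ) : ℂ))
    (t := 1 - (((1 + θ / Real.pi) / 2 : ℝ) : ℂ)) (by simpa using h1)
    (by rw [Complex.sub_re, Complex.one_re, Complex.ofReal_re]; linarith)
  rw [Complex.Gamma_mul_Gamma_one_sub, ← e2, e1, add_sub_cancel, Complex.Gamma_one, one_mul] at e3
  have e4 : Complex.sin (Real.pi * (((1 + θ / Real.pi) / 2 : ℝ) : ℂ)) = Complex.cos (θ / 2) := by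
    have : (Real.pi : ℂ) * (((1 + θ / Real.pi) / 2 : ℝ) : ℂ) = θ / 2 + Real.pi / 2 := by
      push_cast
      field_simp
      ring
    rw [this, Complex.sin_add_pi_div_two]
  rw [e4] at e3
  have e5 : ((2 * Real.pi : ℝ) : ℂ) ≠ 0 := by exact_mod_cast (by positivity : (2 * Real.pi) ≠ 0)
  have e6 : ∫ t : ℝ, (k θ t : ℂ) = (Real.pi / Complex.cos (θ / 2)) / ((2 * Real.pi : ℝ) : ℂ) := by
    rw [e3]; field_simp
  rw [e6]
  push_cast
  field_simp

end Pool.Agent.H321.BC.V7A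

end

section

namespace Pool.Agent.H321.BC.V7A

/-- `sinh (π z) / z` -/
noncomputable def S : ℂ → ℂ := dslope (fun z : ℂ => Complex.sinh (Real.pi * z)) 0

lemma sinh_diff : Differentiable ℂ (fun z : ℂ => Complex.sinh (Real.pi * z)) :=
  (differentiable_id.const_mul _).csinh

lemma dslope_diff {F : ℂ → ℂ} (hF : Differentiable ℂ F) : Differentiable ℂ (dslope F 0) := by
  rw [← differentiableOn_univ]
  exact (Complex.differentiableOn_dslope univ_mem).2 hF.differentiableOn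

lemma S_diff : Differentiable ℂ S := dslope_diff sinh_diff

lemma S_zero : S 0 = Real.pi := by
  have h : HasDerivAt (fun z : ℂ => Complex.sinh (Real.pi * z)) (Real.pi : ℂ) 0 := by
    have h1 := ((hasDerivAt_id (0 : ℂ)).const_mul (Real.pi : ℂ)).csinh
    simpa using h1
  rw [S, dslope_same]
  exact h.deriv

lemma S_of_ne {z : ℂ} (hz : z ≠ 0) : S z = Complex.sinh (Real.pi * z) / z := by
  rw [S, dslope_of_ne _ hz, slope_def_field]
  simp

lemma sinh_ne {z : ℂ} (hz : z ≠ 0) (h : |z.im| < 1) : Complex.sinh (Real.pi * z) ≠ 0 := by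
  intro h0
  have h1 : Complex.sin (Real.pi * z * I) = 0 := by rw [Complex.sin_mul_I, h0, zero_mul]
  obtain ⟨n, hn⟩ := Complex.sin_eq_zero_iff.1 h1
  have hpi : (Real.pi : ℂ) ≠ 0 := by exact_mod_cast Real.pi_ne_zero
  have h2 : z * I = n := by
    apply mul_left_cancel₀ hpi
    rw [← mul_assoc, hn, mul_comm]
  have h3 : z = -(n : ℂ) * I := by
    calc z = -(z * I) * I := by rw [neg_mul, mul_assoc, I_mul_I]; ring
      _ = _ := by rw [h2]
  have h4 : z.im = -(n : ℝ) := by rw [h3]; simp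
  rw [h4, abs_neg] at h
  have h5 : |n| < 1 := by exact_mod_cast h
  rw [Int.abs_lt_one_iff] at h5
  apply hz
  rw [h3, h5]; simp

lemma S_ne {z : ℂ} (h : |z.im| < 1) : S z ≠ 0 := by
  by_cases hz : z = 0
  · rw [hz, S_zero]; exact_mod_cast Real.pi_ne_zero
  · rw [S_of_ne hz]; exact div_ne_zero (sinh_ne hz h) hz

/-- the integrand -/
noncomputable def Hf (θ : ℝ) (F : ℂ → ℂ) (z : ℂ) : ℂ := cexp (-θ * z) * dslope F 0 z / (2 * I * S z)

lemma Hf_of_ne (θ : ℝ) (F : ℂ → ℂ) (h0 : F 0 = 0) {z : ℂ} (hz : z ≠ 0) :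
    Hf θ F z = cexp (-θ * z) * F z / (2 * I * Complex.sinh (Real.pi * z)) := by
  rw [Hf, S_of_ne hz, dslope_of_ne _ hz, slope_def_field, h0, sub_zero, sub_zero]
  by_cases h : Complex.sinh (Real.pi * z) = 0
  · simp [h]
  · field_simp

lemma Hf_diff (θ : ℝ) {F : ℂ → ℂ} (hF : Differentiable ℂ F) {z : ℂ} (h : |z.im| < 1) :
    DifferentiableAt ℂ (Hf θ F) z := by
  unfold Hf
  refine DifferentiableAt.div ?_ ?_ ?_
  · exact ((differentiableAt_id.const_mul _).cexp).mul (dslope_diff hF z)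
  · exact (S_diff z).const_mul _
  · exact mul_ne_zero (mul_ne_zero two_ne_zero I_ne_zero) (S_ne h)

lemma norm_sinh_ge (w : ℂ) : Real.sinh |w.re| ≤ ‖Complex.sinh w‖ := by
  have h1 : ‖Complex.sinh w‖ = ‖cexp w - cexp (-w)‖ / 2 := by
    rw [Complex.sinh, norm_div]; simp
  have h2 := abs_norm_sub_norm_le (cexp w) (cexp (-w))
  rw [Complex.norm_exp, Complex.norm_exp, Complex.neg_re] at h2
  rw [h1]
  have h3 : Real.sinh |w.re| = |Real.exp w.re - Real.exp (-w.re)| / 2 := by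
    rw [← Real.abs_sinh, Real.sinh_eq, abs_div, abs_two]
  rw [h3]
  linarith

lemma sinh_big {a : ℝ} (ha : 1 ≤ a) : Real.exp a / 4 ≤ Real.sinh a := by
  rw [Real.sinh_eq]
  have h1 : Real.exp (-a) ≤ Real.exp (-1) := Real.exp_le_exp.2 (by linarith)
  have h2 : Real.exp (-1 : ℝ) ≤ 1 / 2 := by
    rw [Real.exp_neg, one_div]
    apply inv_anti₀ (by norm_num)
    have := Real.add_one_le_exp (1 : ℝ)
    linarith
  have h3 : (2 : ℝ) ≤ Real.exp a := by
    have := Real.add_one_le_exp a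
    linarith
  linarith

lemma Hf_bound (θ : ℝ) {F : ℂ → ℂ} (h0 : F 0 = 0) {C : ℝ} (hC : ∀ z : ℂ, |z.im| ≤ 1 / 2 → ‖F z‖ ≤ C)
    {z : ℂ} (hz : |z.im| ≤ 1 / 2) (hre : 1 ≤ |z.re|) :
    ‖Hf θ F z‖ ≤ 2 * C * Real.exp (-((Real.pi - |θ|) * |z.re|)) := by
  have hz0 : z ≠ 0 := by
    rintro rfl; simp at hre; linarith
  have hC0 : 0 ≤ C := (norm_nonneg _).trans (hC z hz)
  have hpi : (1 : ℝ) ≤ Real.pi := by linarith [Real.pi_gt_three]
  have hp := Real.pi_pos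
  rw [Hf_of_ne θ F h0 hz0, norm_div, norm_mul, norm_mul, norm_mul, Complex.norm_exp]
  have e1 : (-(θ : ℂ) * z).re = -θ * z.re := by
    simp
  have e2 : Real.exp (-θ * z.re) ≤ Real.exp (|θ| * |z.re|) := by
    apply Real.exp_le_exp.2
    rw [← abs_mul]
    have := neg_abs_le (θ * z.re)
    linarith
  have e3 : Real.exp (Real.pi * |z.re|) / 4 ≤ ‖Complex.sinh (Real.pi * z)‖ := by
    have h1 := norm_sinh_ge (Real.pi * z)
    have h2 : ((Real.pi : ℂ) * z).re = Real.pi * z.re := by simp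
    rw [h2, abs_mul, abs_of_pos hp] at h1
    refine (sinh_big ?_).trans h1
    nlinarith
  have e4 : ‖(2 : ℂ)‖ * ‖I‖ * ‖Complex.sinh (Real.pi * z)‖ = 2 * ‖Complex.sinh (Real.pi * z)‖ := by
    simp
  rw [e1, e4]
  have e5 : 0 < Real.exp (Real.pi * |z.re|) := Real.exp_pos _
  have e7 : (0 : ℝ) < 2 * ‖Complex.sinh (Real.pi * z)‖ := by linarith
  rw [div_le_iff₀ e7]
  have e6 : Real.exp (-((Real.pi - |θ|) * |z.re|)) * Real.exp (Real.pi * |z.re|) =
      Real.exp (|θ| * |z.re|) := by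
    rw [← Real.exp_add]; congr 1; ring
  calc Real.exp (-θ * z.re) * ‖F z‖ ≤ Real.exp (|θ| * |z.re|) * C :=
        mul_le_mul e2 (hC z hz) (norm_nonneg _) (Real.exp_pos _).le
    _ = 2 * C * Real.exp (-((Real.pi - |θ|) * |z.re|)) * (2 * (Real.exp (Real.pi * |z.re|) / 4)) := by
        rw [← e6]; ring
    _ ≤ _ := by
        apply mul_le_mul_of_nonneg_left _ (by positivity)
        linarith

lemma Hf_lower (θ : ℝ) {F : ℂ → ℂ} (h0 : F 0 = 0) (x : ℝ) :
    Hf θ F (x - I / 2) = (k θ x : ℂ) * (cexp (I * θ / 2) * F (x - I / 2)) := by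
  have hz0 : (x : ℂ) - I / 2 ≠ 0 := by
    intro h
    have := congrArg Complex.im h
    simp at this
  rw [Hf_of_ne θ F h0 hz0]
  have e1 : Complex.sinh (Real.pi * (x - I / 2)) = -I * Complex.cosh (Real.pi * x) := by
    have : (Real.pi : ℂ) * (x - I / 2) = Real.pi * x - (Real.pi / 2) * I := by ring
    rw [this, Complex.sinh_sub, Complex.cosh_mul_I, Complex.sinh_mul_I, Complex.cos_pi_div_two,
      Complex.sin_pi_div_two]
    ring
  have e2 : cexp (-θ * (x - I / 2)) = cexp (-θ * x) * cexp (I * θ / 2) := by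
    rw [← Complex.exp_add]; congr 1; ring
  have e3 : (k θ x : ℂ) = cexp (-θ * x) / (2 * Complex.cosh (Real.pi * x)) := by
    unfold k; push_cast; rfl
  have e4 : Complex.cosh (Real.pi * x) ≠ 0 := by
    have : Complex.cosh (Real.pi * x) = ((Real.cosh (Real.pi * x) : ℝ) : ℂ) := by push_cast; rfl
    rw [this]
    exact_mod_cast (Real.cosh_pos _).ne'
  rw [e1, e2, e3]
  have e5 : 2 * I * (-I * Complex.cosh (Real.pi * x)) = 2 * Complex.cosh (Real.pi * x) := by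
    have : 2 * I * (-I * Complex.cosh (Real.pi * x)) = -(I * I) * (2 * Complex.cosh (Real.pi * x)) := by
      ring
    rw [this, I_mul_I]; ring
  rw [e5]
  field_simp

lemma Hf_upper (θ : ℝ) {F : ℂ → ℂ} (h0 : F 0 = 0) (x : ℝ) :
    Hf θ F (x + I / 2) = -((k θ x : ℂ) * (cexp (-(I * θ / 2)) * F (x + I / 2))) := by
  have hz0 : (x : ℂ) + I / 2 ≠ 0 := by
    intro h
    have := congrArg Complex.im h
    simp at this
  rw [Hf_of_ne θ F h0 hz0]
  have e1 : Complex.sinh (Real.pi * (x + I / 2)) = I * Complex.cosh (Real.pi * x) := by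
    have : (Real.pi : ℂ) * (x + I / 2) = Real.pi * x + (Real.pi / 2) * I := by ring
    rw [this, Complex.sinh_add, Complex.cosh_mul_I, Complex.sinh_mul_I, Complex.cos_pi_div_two,
      Complex.sin_pi_div_two]
    ring
  have e2 : cexp (-θ * (x + I / 2)) = cexp (-θ * x) * cexp (-(I * θ / 2)) := by
    rw [← Complex.exp_add]; congr 1; ring
  have e3 : (k θ x : ℂ) = cexp (-θ * x) / (2 * Complex.cosh (Real.pi * x)) := by
    unfold k; push_cast; rfl
  have e4 : Complex.cosh (Real.pi * x) ≠ 0 := by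
    have : Complex.cosh (Real.pi * x) = ((Real.cosh (Real.pi * x) : ℝ) : ℂ) := by push_cast; rfl
    rw [this]
    exact_mod_cast (Real.cosh_pos _).ne'
  rw [e1, e2, e3]
  have e5 : 2 * I * (I * Complex.cosh (Real.pi * x)) = -(2 * Complex.cosh (Real.pi * x)) := by
    have : 2 * I * (I * Complex.cosh (Real.pi * x)) = (I * I) * (2 * Complex.cosh (Real.pi * x)) := by
      ring
    rw [this, I_mul_I]; ring
  rw [e5]
  field_simp

lemma vert (θ : ℝ) {F : ℂ → ℂ} (h0 : F 0 = 0) {C : ℝ} (hC : ∀ z : ℂ, |z.im| ≤ 1 / 2 → ‖F z‖ ≤ C)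
    (N : ℝ) (hN : 1 ≤ |N|) :
    ‖∫ y : ℝ in (-(1/2) : ℝ)..(1/2), Hf θ F (N + y * I)‖ ≤
      2 * C * Real.exp (-((Real.pi - |θ|) * |N|)) := by
  have := intervalIntegral.norm_integral_le_of_norm_le_const (a := (-(1/2) : ℝ)) (b := (1/2 : ℝ))
    (f := fun y : ℝ => Hf θ F (N + y * I)) (C := 2 * C * Real.exp (-((Real.pi - |θ|) * |N|))) ?_
  · refine this.trans (le_of_eq ?_)
    norm_num
  · intro y hy
    rw [Set.uIoc_of_le (by norm_num)] at hy
    have e1 : ((N : ℂ) + y * I).re = N := by simp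
    have e2 : ((N : ℂ) + y * I).im = y := by simp
    have := Hf_bound θ h0 hC (z := (N : ℂ) + y * I) (by rw [e2, abs_le]; exact ⟨hy.1.le, hy.2⟩)
      (by rw [e1]; exact hN)
    rwa [e1] at this

lemma integrable_kF {θ : ℝ} (hθ : |θ| < Real.pi) {g : ℝ → ℂ} (hg : Continuous g) {C : ℝ}
    (hC : ∀ t, ‖g t‖ ≤ C) : Integrable (fun t : ℝ => (k θ t : ℂ) * g t) := by
  have h := (k_integrable' hθ).bdd_mul (c := C) hg.aestronglyMeasurable (ae_of_all _ hC)
  refine h.congr ?_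
  filter_upwards with t
  ring

lemma contour {θ : ℝ} (hθ : |θ| < Real.pi) {F : ℂ → ℂ} (hF : Differentiable ℂ F) {C : ℝ}
    (hC : ∀ z : ℂ, |z.im| ≤ 1 / 2 → ‖F z‖ ≤ C) (h0 : F 0 = 0) :
    ∫ t : ℝ, (k θ t : ℂ) * (cexp (I * θ / 2) * F (t - I / 2) + cexp (-(I * θ / 2)) * F (t + I / 2))
      = 0 := by
  have him1 : ∀ t : ℝ, ((t : ℂ) - I / 2).im = -(1 / 2) := by intro t; simp
  have him2 : ∀ t : ℝ, ((t : ℂ) + I / 2).im = 1 / 2 := by intro t; simp
  have hgc : Continuous fun t : ℝ => (cexp (I * θ / 2) * F (t - I / 2) +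
      cexp (-(I * θ / 2)) * F (t + I / 2)) := by
    have := hF.continuous
    fun_prop
  have hint : Integrable fun t : ℝ => (k θ t : ℂ) * (cexp (I * θ / 2) * F (t - I / 2) +
      cexp (-(I * θ / 2)) * F (t + I / 2)) := by
    refine integrable_kF hθ hgc (C := ‖cexp (I * θ / 2)‖ * C + ‖cexp (-(I * θ / 2))‖ * C) ?_
    intro t
    refine (norm_add_le _ _).trans ?_
    rw [norm_mul, norm_mul]
    gcongr
    · apply hC; rw [him1]; norm_num
    · apply hC; rw [him2]; norm_num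
  have hlim := intervalIntegral_tendsto_integral hint tendsto_neg_atTop_atBot tendsto_id
  refine tendsto_nhds_unique hlim ?_
  have hrect : ∀ N : ℝ, ∫ x in (-N)..(id N), (k θ x : ℂ) * (cexp (I * θ / 2) * F (x - I / 2) +
      cexp (-(I * θ / 2)) * F (x + I / 2)) =
      I * (∫ y : ℝ in (-(1/2) : ℝ)..(1/2), Hf θ F ((-N : ℝ) + y * I)) -
      I * (∫ y : ℝ in (-(1/2) : ℝ)..(1/2), Hf θ F (N + y * I)) := by
    intro N
    have h := Complex.integral_boundary_rect_eq_zero_of_differentiableOn (Hf θ F)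
      ⟨-N, -(1/2)⟩ ⟨N, 1/2⟩ ?_
    · simp only [] at h
      have e1 : ∀ x : ℝ, Hf θ F (x + ((-(1/2) : ℝ) : ℂ) * I) =
          (k θ x : ℂ) * (cexp (I * θ / 2) * F (x - I / 2)) := by
        intro x
        rw [← Hf_lower θ h0]
        congr 1
        push_cast; ring
      have e2 : ∀ x : ℝ, Hf θ F (x + ((1/2 : ℝ) : ℂ) * I) =
          -((k θ x : ℂ) * (cexp (-(I * θ / 2)) * F (x + I / 2))) := by
        intro x
        rw [← Hf_upper θ h0]
        congr 1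
        push_cast; ring
      simp only [e1, e2, smul_eq_mul] at h
      have c1 : Continuous fun x : ℝ => (k θ x : ℂ) := by
        have : Continuous (k θ) := by
          unfold k
          refine Continuous.div (by fun_prop) (by fun_prop) ?_
          intro x
          have := Real.cosh_pos (Real.pi * x)
          positivity
        exact Complex.continuous_ofReal.comp this
      have hFc := hF.continuous
      rw [intervalIntegral.integral_neg, sub_neg_eq_add, ← intervalIntegral.integral_add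
        (Continuous.intervalIntegrable (by fun_prop) _ _)
        (Continuous.intervalIntegrable (by fun_prop) _ _)] at h
      simp only [← mul_add] at h
      simp only [id]
      linear_combination h
    · intro z hz
      refine (Hf_diff θ hF ?_).differentiableWithinAt
      have h2 : z.im ∈ Set.uIcc (-(1/2) : ℝ) (1/2) := hz.2
      rw [Set.uIcc_of_le (by norm_num)] at h2
      rw [abs_lt]
      constructor <;> linarith [h2.1, h2.2]
  have hz : Tendsto (fun N : ℝ => 2 * (2 * C * Real.exp (-((Real.pi - |θ|) * N)))) atTop (𝓝 0) := by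
    have h1 : Tendsto (fun N : ℝ => (Real.pi - |θ|) * N) atTop atTop :=
      tendsto_id.const_mul_atTop (by linarith)
    have h2 := (Real.tendsto_exp_neg_atTop_nhds_zero.comp h1).const_mul (2 * (2 * C))
    rw [mul_zero] at h2
    refine h2.congr ?_
    intro N
    simp only [Function.comp]
    ring
  refine squeeze_zero_norm' ?_ hz
  filter_upwards [eventually_ge_atTop (1 : ℝ)] with N hN
  rw [hrect N]
  have hN' : |N| = N := abs_of_pos (by linarith)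
  have h1 := vert θ h0 hC N (by rw [hN']; exact hN)
  have h2 := vert θ h0 hC (-N) (by rw [abs_neg, hN']; exact hN)
  rw [abs_neg] at h2
  rw [hN'] at h1 h2
  refine (norm_sub_le _ _).trans ?_
  rw [norm_mul, norm_mul, Complex.norm_I, one_mul, one_mul]
  linarith

theorem transform {θ : ℝ} (hθ : |θ| < Real.pi) {G : ℂ → ℂ} (hG : Differentiable ℂ G) {C : ℝ}
    (hC : ∀ z : ℂ, |z.im| ≤ 1 / 2 → ‖G z‖ ≤ C) :
    ∫ t : ℝ, (k θ t : ℂ) * (cexp (I * θ / 2) * G (t - I / 2) + cexp (-(I * θ / 2)) * G (t + I / 2))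
      = G 0 := by
  have hF : Differentiable ℂ (fun z => G z - G 0) := hG.sub_const _
  have h1 := contour hθ hF (C := C + ‖G 0‖) (fun z hz => (norm_sub_le _ _).trans
    (by gcongr; exact hC z hz)) (by simp)
  have h2 := k_integral hθ
  have hcos : Complex.cos (θ / 2) ≠ 0 := by
    have h3 : Complex.cos (θ / 2) = ((Real.cos (θ / 2) : ℝ) : ℂ) := by push_cast; rfl
    rw [h3]
    have h4 : 0 < Real.cos (θ / 2) := by
      obtain ⟨a, b⟩ := abs_lt.1 hθ
      apply Real.cos_pos_of_mem_Ioo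
      constructor <;> linarith
    exact_mod_cast h4.ne'
  have h3 : cexp (I * θ / 2) + cexp (-(I * θ / 2)) = 2 * Complex.cos (θ / 2) := by
    rw [Complex.cos]
    have e1 : (θ : ℂ) / 2 * I = I * θ / 2 := by ring
    have e2 : -((θ : ℂ) / 2) * I = -(I * θ / 2) := by ring
    rw [e1, e2]; ring
  have hGc := hG.continuous
  have hi1 : Integrable fun t : ℝ => (k θ t : ℂ) * (cexp (I * θ / 2) * (G (t - I / 2) - G 0) +
      cexp (-(I * θ / 2)) * (G (t + I / 2) - G 0)) := by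
    refine integrable_kF hθ (by fun_prop) (C := ‖cexp (I * θ / 2)‖ * (C + ‖G 0‖) +
      ‖cexp (-(I * θ / 2))‖ * (C + ‖G 0‖)) ?_
    intro t
    refine (norm_add_le _ _).trans ?_
    rw [norm_mul, norm_mul]
    gcongr
    · refine (norm_sub_le _ _).trans ?_
      gcongr
      apply hC; norm_num
    · refine (norm_sub_le _ _).trans ?_
      gcongr
      apply hC; norm_num
  have hi2 : Integrable fun t : ℝ => (k θ t : ℂ) * (2 * Complex.cos (θ / 2) * G 0) :=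
    (k_integrable' hθ).mul_const _
  calc ∫ t : ℝ, (k θ t : ℂ) * (cexp (I * θ / 2) * G (t - I / 2) +
        cexp (-(I * θ / 2)) * G (t + I / 2))
      = ∫ t : ℝ, ((k θ t : ℂ) * (cexp (I * θ / 2) * (G (t - I / 2) - G 0) +
        cexp (-(I * θ / 2)) * (G (t + I / 2) - G 0)) +
        (k θ t : ℂ) * (2 * Complex.cos (θ / 2) * G 0)) := by
          congr 1
          ext t
          rw [← h3]; ring
    _ = 0 + (1 / (2 * Complex.cos (θ / 2))) * (2 * Complex.cos (θ / 2) * G 0) := by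
          rw [integral_add hi1 hi2, h1, integral_mul_const, h2]
    _ = G 0 := by field_simp; ring

end Pool.Agent.H321.BC.V7A

end

open scoped InnerProductSpace ENNReal

namespace Pool.Agent.H321.BC.V7

open Pool.Agent.W662.CB Pool.Agent.H255.BC Pool.Agent.H321.BC.V7A

variable {H : Type} [NormedAddCommGroup H] [InnerProductSpace ℂ H] [CompleteSpace H]
  {R : H →L[ℂ] H} {Φ : (ℝ → ℂ) → (H →L[ℂ] H)}

lemma bc_mul {f g : ℝ → ℂ} (hf : BC f) (hg : BC g) : BC (fun x => f x * g x) := by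
  obtain ⟨c1, C1, h1⟩ := hf
  obtain ⟨c2, C2, h2⟩ := hg
  refine ⟨c1.mul c2, C1 * C2, fun x hx => ?_⟩
  rw [norm_mul]
  exact mul_le_mul (h1 x hx) (h2 x hx) (norm_nonneg _) ((norm_nonneg _).trans (h1 x hx))

lemma bc_add {f g : ℝ → ℂ} (hf : BC f) (hg : BC g) : BC (fun x => f x + g x) := by
  obtain ⟨c1, C1, h1⟩ := hf
  obtain ⟨c2, C2, h2⟩ := hg
  exact ⟨c1.add c2, C1 + C2, fun x hx => (norm_add_le _ _).trans (add_le_add (h1 x hx) (h2 x hx))⟩

lemma bc_const (c : ℂ) : BC (fun _ => c) := ⟨continuousOn_const, ‖c‖, fun _ _ => le_rfl⟩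

lemma bc_id : BC (fun x : ℝ => (x : ℂ)) := by
  refine ⟨Complex.continuous_ofReal.continuousOn, 2, fun x hx => ?_⟩
  rw [Complex.norm_real, Real.norm_eq_abs, abs_of_pos hx.1]
  exact hx.2.le

lemma bc_tf : BC tf := by
  refine ⟨?_, 1, fun x hx => ?_⟩
  · unfold tf
    exact (Complex.continuous_ofReal.comp (by fun_prop)).continuousOn
  · unfold tf
    rw [Complex.norm_real, Real.norm_eq_abs, abs_of_nonneg (Real.sqrt_nonneg _)]
    rw [Real.sqrt_le_one]
    nlinarith [sq_nonneg (x - 1)]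

lemma bc_real {f : ℝ → ℝ} {C : ℝ} (h1 : ContinuousOn f (Set.Ioo 0 2))
    (h2 : ∀ x ∈ Set.Ioo (0 : ℝ) 2, |f x| ≤ C) : BC (fun x => (f x : ℂ)) := by
  refine ⟨Complex.continuous_ofReal.comp_continuousOn h1, C, fun x hx => ?_⟩
  rw [Complex.norm_real]
  exact h2 x hx

lemma fc_comm (hΦ : IsFC R Φ) {f g : ℝ → ℂ} (hf : BC f) (hg : BC g) (v : H) :
    Φ f (Φ g v) = Φ g (Φ f v) := by
  have h1 := hΦ.mul f g hf hg
  have h2 := hΦ.mul g f hg hf
  have h3 : (fun x => f x * g x) = fun x => g x * f x := by ext x; ring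
  rw [h3, h2] at h1
  exact (DFunLike.congr_fun h1 v).symm

lemma fc_inner (hΦ : IsFC R Φ) {f : ℝ → ℂ} (hf : BC f) (v w : H) :
    ⟪Φ f v, w⟫_ℂ = ⟪v, Φ (fun x => starRingEnd ℂ (f x)) w⟫_ℂ := by
  rw [← hΦ.star_eq f hf, ContinuousLinearMap.star_eq_adjoint, ContinuousLinearMap.adjoint_inner_right]

lemma R_symm (hΦ : IsFC R Φ) (v w : H) : ⟪R v, w⟫_ℂ = ⟪v, R w⟫_ℂ := by
  have h := fc_inner hΦ bc_id v w
  simp only [Complex.conj_ofReal] at h
  rwa [hΦ.id] at h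

lemma T_symm (hΦ : IsFC R Φ) (v w : H) : ⟪Φ tf v, w⟫_ℂ = ⟪v, Φ tf w⟫_ℂ := by
  have h := fc_inner hΦ bc_tf v w
  have h2 : (fun x => starRingEnd ℂ (tf x)) = tf := by
    ext x; unfold tf; rw [Complex.conj_ofReal]
  rwa [h2] at h

/-- exponentials -/
noncomputable def E (Φ : (ℝ → ℂ) → (H →L[ℂ] H)) (l : ℝ → ℝ) (z : ℂ) : H →L[ℂ] H :=
  Φ (fun x => cexp (z * (l x : ℂ)))

section E

variable {l : ℝ → ℝ} {M : ℝ} (hl : ContinuousOn l (Set.Ioo 0 2))
  (hM : ∀ x ∈ Set.Ioo (0 : ℝ) 2, |l x| ≤ M)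

include hl hM

lemma norm_le (z : ℂ) : ∀ x ∈ Set.Ioo (0 : ℝ) 2, ‖cexp (z * (l x : ℂ))‖ ≤ Real.exp (|z.re| * M) := by
  intro x hx
  rw [Complex.norm_exp]
  apply Real.exp_le_exp.2
  have h1 : (z * (l x : ℂ)).re = z.re * l x := by simp
  rw [h1]
  refine (le_abs_self _).trans ?_
  rw [abs_mul]
  exact mul_le_mul_of_nonneg_left (hM x hx) (abs_nonneg _)

lemma bc_E (z : ℂ) : BC (fun x => cexp (z * (l x : ℂ))) := by
  refine ⟨?_, _, norm_le hl hM z⟩
  have h1 : ContinuousOn (fun x => (l x : ℂ)) (Set.Ioo 0 2) :=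
    Complex.continuous_ofReal.comp_continuousOn hl
  exact Complex.continuous_exp.comp_continuousOn (continuousOn_const.mul h1)

lemma E_add (hΦ : IsFC R Φ) (z w : ℂ) : E Φ l (z + w) = E Φ l z * E Φ l w := by
  unfold E
  rw [← hΦ.mul _ _ (bc_E hl hM z) (bc_E hl hM w)]
  congr 1
  ext x
  rw [← Complex.exp_add]
  congr 1; ring

lemma E_add_apply (hΦ : IsFC R Φ) (z w : ℂ) (v : H) : E Φ l (z + w) v = E Φ l z (E Φ l w v) := by
  rw [E_add hl hM hΦ]; rfl

omit hl hM in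
lemma E_zero (hΦ : IsFC R Φ) : E Φ l 0 = 1 := by
  unfold E
  rw [← hΦ.one]
  congr 1
  ext x; simp

lemma E_inner (hΦ : IsFC R Φ) (z : ℂ) (v w : H) :
    ⟪E Φ l z v, w⟫_ℂ = ⟪v, E Φ l (starRingEnd ℂ z) w⟫_ℂ := by
  unfold E
  rw [fc_inner hΦ (bc_E hl hM z)]
  have : (fun x => starRingEnd ℂ (cexp (z * (l x : ℂ)))) =
      fun x => cexp (starRingEnd ℂ z * (l x : ℂ)) := by
    ext x
    rw [← Complex.exp_conj, map_mul, Complex.conj_ofReal]
  rw [this]

lemma E_norm (hΦ : IsFC R Φ) (z : ℂ) : ‖E Φ l z‖ ≤ Real.exp (|z.re| * M) :=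
  hΦ.norm _ _ (bc_E hl hM z) (Real.exp_pos _).le (norm_le hl hM z)

lemma E_deriv0 (hΦ : IsFC R Φ) (hM0 : 0 ≤ M) :
    HasDerivAt (E Φ l) (Φ (fun x => (l x : ℂ))) 0 := by
  rw [hasDerivAt_iff_isLittleO_nhds_zero]
  have hb : BC (fun x => (l x : ℂ)) := bc_real hl hM
  have h1 : (fun h : ℂ => E Φ l (0 + h) - E Φ l 0 - h • Φ (fun x => (l x : ℂ))) =O[𝓝 0]
      fun h : ℂ => ‖h‖ ^ 2 := by
    apply Asymptotics.IsBigO.of_bound (M ^ 2)
    have h2 : ∀ᶠ h : ℂ in 𝓝 0, ‖h‖ * M < 1 := by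
      have : Tendsto (fun h : ℂ => ‖h‖ * M) (𝓝 0) (𝓝 (‖(0 : ℂ)‖ * M)) :=
        (continuous_norm.tendsto _).mul_const _
      rw [norm_zero, zero_mul] at this
      exact this.eventually (gt_mem_nhds one_pos)
    filter_upwards [h2] with h hh
    have e1 : E Φ l (0 + h) - E Φ l 0 - h • Φ (fun x => (l x : ℂ)) =
        Φ (fun x => cexp (h * (l x : ℂ)) + (-1 * 1 + (-h) * (l x : ℂ))) := by
      rw [hΦ.add _ _ (bc_E hl hM h) (bc_add (bc_mul (bc_const _) (bc_const _))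
        (bc_mul (bc_const _) hb)), hΦ.add _ _ (bc_mul (bc_const _) (bc_const _))
        (bc_mul (bc_const _) hb), hΦ.smul _ _ hb, hΦ.smul _ _ (bc_const 1), hΦ.one, E_zero hΦ,
        zero_add]
      unfold E
      module
    rw [e1, norm_pow, norm_norm]
    refine hΦ.norm _ _ (bc_add (bc_E hl hM h) (bc_add (bc_mul (bc_const _) (bc_const _))
        (bc_mul (bc_const _) hb))) (by positivity) ?_
    intro x hx
    have e2 : cexp (h * (l x : ℂ)) + (-1 * 1 + (-h) * (l x : ℂ)) =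
        cexp (h * (l x : ℂ)) - 1 - h * (l x : ℂ) := by ring
    have e3 : ‖h * (l x : ℂ)‖ ≤ ‖h‖ * M := by
      rw [norm_mul, Complex.norm_real]
      exact mul_le_mul_of_nonneg_left (hM x hx) (norm_nonneg _)
    rw [e2]
    refine (Complex.norm_exp_sub_one_sub_id_le (e3.trans hh.le)).trans ?_
    calc ‖h * (l x : ℂ)‖ ^ 2 ≤ (‖h‖ * M) ^ 2 := by gcongr
      _ = _ := by ring
  exact h1.trans_isLittleO (Asymptotics.isLittleO_norm_pow_id one_lt_two)

lemma E_diff (hΦ : IsFC R Φ) (hM0 : 0 ≤ M) : Differentiable ℂ (E Φ l) := by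
  intro z
  have h1 : HasDerivAt (fun w => E Φ l (w - z)) (Φ (fun x => (l x : ℂ))) z := by
    have h0 := E_deriv0 hl hM hΦ hM0
    rw [← sub_self z] at h0
    exact HasDerivAt.comp_sub_const z z h0
  have h2 : E Φ l = fun w => E Φ l z * E Φ l (w - z) := by
    ext1 w
    rw [← E_add hl hM hΦ]
    congr 1; ring
  rw [h2]
  exact (h1.const_mul _).differentiableAt

/-- the analytic function -/
noncomputable def G (Φ : (ℝ → ℂ) → (H →L[ℂ] H)) (l : ℝ → ℝ) (x : H →L[ℂ] H) (v w : H) (z : ℂ) : ℂ :=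
  ⟪v, E Φ l (I * z) (x (E Φ l (-(I * z)) w))⟫_ℂ

lemma G_diff (hΦ : IsFC R Φ) (hM0 : 0 ≤ M) (x : H →L[ℂ] H) (v w : H) :
    Differentiable ℂ (G Φ l x v w) := by
  have hE := E_diff hl hM hΦ hM0
  have h1 : Differentiable ℂ (fun z : ℂ => E Φ l (I * z)) :=
    hE.comp (differentiable_id.const_mul I)
  have h2 : Differentiable ℂ (fun z : ℂ => E Φ l (-(I * z)) w) :=
    (hE.comp (differentiable_id.const_mul I).neg).clm_apply (differentiable_const w)
  have h3 : Differentiable ℂ (fun z : ℂ => x (E Φ l (-(I * z)) w)) := x.differentiable.comp h2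
  have h4 := h1.clm_apply h3
  exact (innerSL ℂ v).differentiable.comp h4

lemma G_bound (hΦ : IsFC R Φ) (hM0 : 0 ≤ M) (x : H →L[ℂ] H) (v w : H) (z : ℂ) (hz : |z.im| ≤ 1 / 2) :
    ‖G Φ l x v w z‖ ≤ ‖v‖ * (Real.exp (1 / 2 * M) * (‖x‖ * (Real.exp (1 / 2 * M) * ‖w‖))) := by
  unfold G
  have h1 : ∀ s : ℂ, |s.re| ≤ 1 / 2 → ‖E Φ l s‖ ≤ Real.exp (1 / 2 * M) := by
    intro s hs
    refine (E_norm hl hM hΦ s).trans (Real.exp_le_exp.2 ?_)
    exact mul_le_mul_of_nonneg_right hs hM0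
  have h2 : |(I * z).re| ≤ 1 / 2 := by simpa using hz
  have h3 : |(-(I * z)).re| ≤ 1 / 2 := by simpa using hz
  refine (norm_inner_le_norm _ _).trans ?_
  gcongr
  refine (ContinuousLinearMap.le_opNorm _ _).trans ?_
  gcongr
  · exact h1 _ h2
  refine (ContinuousLinearMap.le_opNorm _ _).trans ?_
  gcongr
  refine (ContinuousLinearMap.le_opNorm _ _).trans ?_
  gcongr
  exact h1 _ h3

end E

/-- `log ((2 - x) / x)` -/
noncomputable def L (x : ℝ) : ℝ := Real.log ((2 - x) / x)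

lemma L_cont : ContinuousOn L (Set.Ioo 0 2) := by
  unfold L
  refine ContinuousOn.log (ContinuousOn.div (by fun_prop) (by fun_prop) ?_) ?_
  · intro x hx; exact hx.1.ne'
  · intro x hx
    have := hx.1
    have h2 : 0 < 2 - x := by linarith [hx.2]
    positivity

/-- truncation -/
noncomputable def ln (n : ℕ) (x : ℝ) : ℝ := max (-((n : ℝ) + 1)) (min ((n : ℝ) + 1) (L x))

/-- cutoff -/
noncomputable def chi (n : ℕ) (x : ℝ) : ℝ := max 0 (min 1 ((n : ℝ) + 1 - |L x|))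

lemma ln_cont (n : ℕ) : ContinuousOn (ln n) (Set.Ioo 0 2) := by
  have := L_cont
  unfold ln
  fun_prop

lemma ln_bd (n : ℕ) (x : ℝ) : |ln n x| ≤ (n : ℝ) + 1 := by
  have : (0 : ℝ) ≤ (n : ℝ) + 1 := by positivity
  unfold ln
  rw [abs_le]
  constructor
  · exact le_max_left _ _
  · exact max_le (by linarith) (min_le_left _ _)

lemma chi_cont (n : ℕ) : ContinuousOn (chi n) (Set.Ioo 0 2) := by
  have := L_cont
  unfold chi
  fun_prop

lemma chi_bd (n : ℕ) (x : ℝ) : |chi n x| ≤ 1 := by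
  unfold chi
  rw [abs_le]
  constructor
  · exact (by norm_num : (-1 : ℝ) ≤ 0).trans (le_max_left _ _)
  · exact max_le zero_le_one (min_le_left _ _)

lemma chi_ln (n : ℕ) (x : ℝ) : chi n x = 0 ∨ ln n x = L x := by
  by_cases h : |L x| < (n : ℝ) + 1
  · right
    unfold ln
    obtain ⟨h1, h2⟩ := abs_lt.1 h
    rw [min_eq_right h2.le, max_eq_right h1.le]
  · left
    unfold chi
    apply max_eq_left
    exact (min_le_right _ _).trans (by linarith)

lemma chi_bc (n : ℕ) : BC (fun x => (chi n x : ℂ)) := bc_real (chi_cont n) (fun x _ => chi_bd n x)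

lemma act (hΦ : IsFC R Φ) (n : ℕ) {f g : ℝ → ℂ} (hf : BC f) (hg : BC g)
    (h : ∀ x ∈ Set.Ioo (0 : ℝ) 2, ln n x = L x → f x = g x) (w : H) :
    Φ f (Φ (fun x => (chi n x : ℂ)) w) = Φ g (Φ (fun x => (chi n x : ℂ)) w) := by
  have h1 := hΦ.mul f _ hf (chi_bc n)
  have h2 := hΦ.mul g _ hg (chi_bc n)
  have h3 : Φ (fun x => f x * (chi n x : ℂ)) = Φ (fun x => g x * (chi n x : ℂ)) := by
    apply hΦ.congr _ _ (bc_mul hf (chi_bc n))
    intro x hx
    rcases chi_ln n x with h0 | h0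
    · simp [h0]
    · rw [h x hx h0]
  rw [h1, h2] at h3
  exact DFunLike.congr_fun h3 w

/-- hyperbolic cosine of half -/
noncomputable def cf (n : ℕ) (x : ℝ) : ℂ :=
  (1 / 2) * (cexp ((1 / 2 : ℂ) * (ln n x : ℂ)) + cexp ((-(1 / 2) : ℂ) * (ln n x : ℂ)))

lemma cf_bc (n : ℕ) : BC (cf n) :=
  bc_mul (bc_const _) (bc_add (bc_E (ln_cont n) (fun x _ => ln_bd n x) _)
    (bc_E (ln_cont n) (fun x _ => ln_bd n x) _))

lemma exp_half (x : ℝ) (hx : x ∈ Set.Ioo (0 : ℝ) 2) (n : ℕ) (h : ln n x = L x) :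
    cexp ((1 / 2 : ℂ) * (ln n x : ℂ)) = ((Real.sqrt (2 - x) / Real.sqrt x : ℝ) : ℂ) := by
  have h1 : 0 < x := hx.1
  have h2 : 0 < 2 - x := by linarith [hx.2]
  have e1 : (1 / 2 : ℂ) * (ln n x : ℂ) = ((L x / 2 : ℝ) : ℂ) := by
    rw [h]; push_cast; ring
  rw [e1, ← Complex.ofReal_exp]
  congr 1
  unfold L
  rw [← Real.sqrt_div h2.le, Real.sqrt_eq_rpow, Real.rpow_def_of_pos (by positivity)]
  congr 1
  ring

lemma exp_neg_half (x : ℝ) (hx : x ∈ Set.Ioo (0 : ℝ) 2) (n : ℕ) (h : ln n x = L x) :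
    cexp ((-(1 / 2) : ℂ) * (ln n x : ℂ)) = ((Real.sqrt x / Real.sqrt (2 - x) : ℝ) : ℂ) := by
  rw [neg_mul, Complex.exp_neg, exp_half x hx n h, ← Complex.ofReal_inv, inv_div]

lemma cf_eq (x : ℝ) (hx : x ∈ Set.Ioo (0 : ℝ) 2) (n : ℕ) (h : ln n x = L x) :
    cf n x = ((1 / (Real.sqrt x * Real.sqrt (2 - x)) : ℝ) : ℂ) := by
  have h1 : 0 < x := hx.1
  have h2 : 0 < 2 - x := by linarith [hx.2]
  rw [cf, exp_half x hx n h, exp_neg_half x hx n h, ← Complex.ofReal_add]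
  have e1 : Real.sqrt (2 - x) / Real.sqrt x + Real.sqrt x / Real.sqrt (2 - x) =
      2 * (1 / (Real.sqrt x * Real.sqrt (2 - x))) := by
    have a1 := Real.sqrt_pos.2 h1
    have a2 := Real.sqrt_pos.2 h2
    field_simp
    rw [Real.sq_sqrt h1.le, Real.sq_sqrt h2.le]
    ring
  rw [e1]
  push_cast
  ring

lemma T_cf (hΦ : IsFC R Φ) (n : ℕ) (w : H) :
    Φ tf (Φ (cf n) (Φ (fun x => (chi n x : ℂ)) w)) = Φ (fun x => (chi n x : ℂ)) w := by
  have h1 : Φ tf (Φ (cf n) (Φ (fun x => (chi n x : ℂ)) w)) =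
      Φ (fun x => tf x * cf n x) (Φ (fun x => (chi n x : ℂ)) w) := by
    rw [hΦ.mul _ _ bc_tf (cf_bc n)]; rfl
  rw [h1, act hΦ n (bc_mul bc_tf (cf_bc n)) (bc_const 1) ?_ w, hΦ.one]
  · rfl
  · intro x hx h
    have h1 : 0 < x := hx.1
    have h2 : 0 < 2 - x := by linarith [hx.2]
    have a1 := Real.sqrt_pos.2 h1
    have a2 := Real.sqrt_pos.2 h2
    rw [cf_eq x hx n h, tf, ← Complex.ofReal_mul, Real.sqrt_mul h1.le]
    rw [← Complex.ofReal_one]
    congr 1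
    field_simp

lemma R_cf (hΦ : IsFC R Φ) (n : ℕ) (w : H) :
    R (Φ (cf n) (Φ (fun x => (chi n x : ℂ)) w)) =
      E Φ (ln n) (-(1 / 2)) (Φ (fun x => (chi n x : ℂ)) w) := by
  have h1 : R (Φ (cf n) (Φ (fun x => (chi n x : ℂ)) w)) =
      Φ (fun x => (x : ℂ) * cf n x) (Φ (fun x => (chi n x : ℂ)) w) := by
    rw [hΦ.mul _ _ bc_id (cf_bc n), hΦ.id]; rfl
  rw [h1]
  unfold E
  rw [act hΦ n (bc_mul bc_id (cf_bc n)) (bc_E (ln_cont n) (fun x _ => ln_bd n x) _) ?_ w]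
  intro x hx h
  have h1 : 0 < x := hx.1
  have h2 : 0 < 2 - x := by linarith [hx.2]
  have a1 := Real.sqrt_pos.2 h1
  have a2 := Real.sqrt_pos.2 h2
  rw [cf_eq x hx n h, exp_neg_half x hx n h, ← Complex.ofReal_mul]
  congr 1
  field_simp
  rw [Real.sq_sqrt h1.le]

lemma R_cf' (hΦ : IsFC R Φ) (n : ℕ) (w : H) :
    (2 : ℂ) • Φ (cf n) (Φ (fun x => (chi n x : ℂ)) w) -
      R (Φ (cf n) (Φ (fun x => (chi n x : ℂ)) w)) =
      E Φ (ln n) (1 / 2) (Φ (fun x => (chi n x : ℂ)) w) := by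
  rw [R_cf hΦ]
  have h1 : Φ (cf n) = (1 / 2 : ℂ) • (E Φ (ln n) (1 / 2) + E Φ (ln n) (-(1 / 2))) := by
    unfold cf E
    rw [hΦ.smul _ _ (bc_add (bc_E (ln_cont n) (fun x _ => ln_bd n x) _)
      (bc_E (ln_cont n) (fun x _ => ln_bd n x) _)), hΦ.add _ _
      (bc_E (ln_cont n) (fun x _ => ln_bd n x) _) (bc_E (ln_cont n) (fun x _ => ln_bd n x) _)]
  rw [h1]
  simp only [ContinuousLinearMap.smul_apply, ContinuousLinearMap.add_apply]
  module

lemma uf_act (hΦ : IsFC R Φ) (n : ℕ) (t : ℝ) (ht : BC (uf t)) (w : H) :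
    Φ (uf t) (Φ (fun x => (chi n x : ℂ)) w) =
      E Φ (ln n) (I * t) (Φ (fun x => (chi n x : ℂ)) w) := by
  unfold E
  rw [act hΦ n ht (bc_E (ln_cont n) (fun x _ => ln_bd n x) _) ?_ w]
  intro x hx h
  rw [h, uf, L]
  congr 1
  push_cast
  ring

lemma E_chi_comm (hΦ : IsFC R Φ) (n : ℕ) (z : ℂ) {f : ℝ → ℂ} (hf : BC f) (w : H) :
    E Φ (ln n) z (Φ f w) = Φ f (E Φ (ln n) z w) :=
  fc_comm hΦ (bc_E (ln_cont n) (fun x _ => ln_bd n x) _) hf w

lemma E_R_comm (hΦ : IsFC R Φ) (n : ℕ) (z : ℂ) (w : H) :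
    E Φ (ln n) z (R w) = R (E Φ (ln n) z w) := by
  have := E_chi_comm hΦ n z bc_id w
  rwa [hΦ.id] at this

lemma rel (h6 : S_V6) (hΦ : IsFC R Φ) (B x : H →L[ℂ] H) (θ : ℝ)
    (hB : ∀ v : H, Φ tf (B (Φ tf v)) =
      cexp (I * θ / 2) • ((2 : ℂ) • x (R v) - R (x (R v))) +
      cexp (-(I * θ / 2)) • R (x ((2 : ℂ) • v - R v))) (n : ℕ) (v w : H) (t : ℝ) :
    ⟪Φ (fun x => (chi n x : ℂ)) v, Φ (uf t) (B (Φ (uf (-t)) (Φ (fun x => (chi n x : ℂ)) w)))⟫_ℂ =
    cexp (I * θ / 2) * G Φ (ln n) x (Φ (fun x => (chi n x : ℂ)) v) (Φ (fun x => (chi n x : ℂ)) w)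
      (t - I / 2) +
    cexp (-(I * θ / 2)) * G Φ (ln n) x (Φ (fun x => (chi n x : ℂ)) v)
      (Φ (fun x => (chi n x : ℂ)) w) (t + I / 2) := by
  obtain ⟨-, -, hst, -, -, hbc⟩ := h6 H 0 R Φ hΦ (map_zero R)
  have hc := ln_cont n
  have hb : ∀ x ∈ Set.Ioo (0 : ℝ) 2, |ln n x| ≤ (n : ℝ) + 1 := fun x _ => ln_bd n x
  set V := Φ (fun x => (chi n x : ℂ)) v with hV
  set W := Φ (fun x => (chi n x : ℂ)) w with hW
  have e1 : ⟪V, Φ (uf t) (B (Φ (uf (-t)) W))⟫_ℂ = ⟪Φ (uf (-t)) V, B (Φ (uf (-t)) W)⟫_ℂ := by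
    rw [← hst t, ContinuousLinearMap.star_eq_adjoint, ContinuousLinearMap.adjoint_inner_left]
  set a := E Φ (ln n) (I * ((-t : ℝ) : ℂ)) (Φ (cf n) V) with ha
  set b := E Φ (ln n) (I * ((-t : ℝ) : ℂ)) (Φ (cf n) W) with hb'
  have e2 : Φ (uf (-t)) V = Φ tf a := by
    rw [hV, uf_act hΦ n (-t) (hbc _) v, ha, ← E_chi_comm hΦ n _ bc_tf, T_cf hΦ]
  have e3 : Φ (uf (-t)) W = Φ tf b := by
    rw [hW, uf_act hΦ n (-t) (hbc _) w, hb', ← E_chi_comm hΦ n _ bc_tf, T_cf hΦ]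
  have ra : R a = E Φ (ln n) (I * ((-t : ℝ) : ℂ) + -(1 / 2)) V := by
    rw [ha, ← E_R_comm hΦ, hV, R_cf hΦ, E_add_apply hc hb hΦ]
  have ra' : (2 : ℂ) • a - R a = E Φ (ln n) (I * ((-t : ℝ) : ℂ) + 1 / 2) V := by
    rw [ha, ← E_R_comm hΦ, ← map_smul, ← map_sub, hV, R_cf' hΦ, E_add_apply hc hb hΦ]
  have rb : R b = E Φ (ln n) (I * ((-t : ℝ) : ℂ) + -(1 / 2)) W := by
    rw [hb', ← E_R_comm hΦ, hW, R_cf hΦ, E_add_apply hc hb hΦ]
  have rb' : (2 : ℂ) • b - R b = E Φ (ln n) (I * ((-t : ℝ) : ℂ) + 1 / 2) W := by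
    rw [hb', ← E_R_comm hΦ, ← map_smul, ← map_sub, hW, R_cf' hΦ, E_add_apply hc hb hΦ]
  have e4 : ∀ y : H, ⟪a, (2 : ℂ) • y - R y⟫_ℂ = ⟪(2 : ℂ) • a - R a, y⟫_ℂ := by
    intro y
    have h2 : (starRingEnd ℂ) (2 : ℂ) = 2 := map_ofNat _ 2
    rw [inner_sub_right, inner_sub_left, R_symm hΦ, inner_smul_right, inner_smul_left, h2]
  rw [e1, e2, e3, T_symm hΦ, hB, inner_add_right, inner_smul_right, inner_smul_right, e4,
    ← R_symm hΦ, ra', rb', ra, rb, E_inner hc hb hΦ, E_inner hc hb hΦ]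
  unfold G
  have h22 : (starRingEnd ℂ) (2 : ℂ) = 2 := map_ofNat _ 2
  have c1 : starRingEnd ℂ (I * ((-t : ℝ) : ℂ) + 1 / 2) = I * (t - I / 2) := by
    have : I * ((t : ℂ) - I / 2) = I * t - (I * I) / 2 := by ring
    rw [this, I_mul_I]
    simp [h22]
    ring
  have c2 : I * ((-t : ℝ) : ℂ) + -(1 / 2) = -(I * (t - I / 2)) := by
    have : I * ((t : ℂ) - I / 2) = I * t - (I * I) / 2 := by ring
    rw [this, I_mul_I]
    push_cast
    ring
  have c3 : starRingEnd ℂ (I * ((-t : ℝ) : ℂ) + -(1 / 2)) = I * (t + I / 2) := by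
    have : I * ((t : ℂ) + I / 2) = I * t + (I * I) / 2 := by ring
    rw [this, I_mul_I]
    simp [h22]
    ring
  have c4 : I * ((-t : ℝ) : ℂ) + 1 / 2 = -(I * (t + I / 2)) := by
    have : I * ((t : ℂ) + I / 2) = I * t + (I * I) / 2 := by ring
    rw [this, I_mul_I]
    push_cast
    ring
  rw [c1, c3, c2, c4]

lemma cut (h6 : S_V6) (hΦ : IsFC R Φ) (B x : H →L[ℂ] H) (θ : ℝ) (hθ : |θ| < Real.pi)
    (hB : ∀ v : H, Φ tf (B (Φ tf v)) =
      cexp (I * θ / 2) • ((2 : ℂ) • x (R v) - R (x (R v))) +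
      cexp (-(I * θ / 2)) • R (x ((2 : ℂ) • v - R v))) (n : ℕ) (v w : H) :
    ∫ t : ℝ, (k θ t : ℂ) *
      ⟪Φ (fun x => (chi n x : ℂ)) v, Φ (uf t) (B (Φ (uf (-t)) (Φ (fun x => (chi n x : ℂ)) w)))⟫_ℂ =
    ⟪Φ (fun x => (chi n x : ℂ)) v, x (Φ (fun x => (chi n x : ℂ)) w)⟫_ℂ := by
  have hc := ln_cont n
  have hb : ∀ x ∈ Set.Ioo (0 : ℝ) 2, |ln n x| ≤ (n : ℝ) + 1 := fun x _ => ln_bd n x
  have hM0 : (0 : ℝ) ≤ (n : ℝ) + 1 := by positivity
  have h1 := transform hθ (G_diff hc hb hΦ hM0 x (Φ (fun x => (chi n x : ℂ)) v)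
    (Φ (fun x => (chi n x : ℂ)) w)) (fun z hz => G_bound hc hb hΦ hM0 x _ _ z hz)
  have h2 : G Φ (ln n) x (Φ (fun x => (chi n x : ℂ)) v) (Φ (fun x => (chi n x : ℂ)) w) 0 =
      ⟪Φ (fun x => (chi n x : ℂ)) v, x (Φ (fun x => (chi n x : ℂ)) w)⟫_ℂ := by
    unfold G
    rw [mul_zero, neg_zero, E_zero hΦ]
    rfl
  rw [← h2, ← h1]
  congr 1
  ext t
  rw [rel h6 hΦ B x θ hB n v w t]

lemma chi_tendsto (hΦ : IsFC R Φ) (v : H) :
    Tendsto (fun n : ℕ => Φ (fun x => (chi n x : ℂ)) v) atTop (𝓝 v) := by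
  have h := hΦ.lim (fun n x => (chi n x : ℂ)) (fun _ => 1) 1 chi_bc (bc_const 1) ?_ ?_ v
  · rw [hΦ.one] at h
    exact h
  · intro n x _
    rw [Complex.norm_real]
    exact chi_bd n x
  · intro a b ha hb
    have hsub : Set.Icc a b ⊆ Set.Ioo (0 : ℝ) 2 := fun x hx => ⟨ha.trans_le hx.1, hx.2.trans_lt hb⟩
    obtain ⟨K, hK⟩ := isCompact_Icc.exists_bound_of_continuousOn (L_cont.mono hsub)
    rw [Metric.tendstoUniformlyOn_iff]
    intro ε hε
    obtain ⟨N, hN⟩ := exists_nat_ge K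
    filter_upwards [eventually_ge_atTop N] with n hn x hx
    have h1 : |L x| ≤ n := (hK x hx).trans (hN.trans (by exact_mod_cast hn))
    have h2 : chi n x = 1 := by
      unfold chi
      rw [min_eq_left (by linarith), max_eq_right zero_le_one]
    rw [h2]
    simpa using hε

lemma k_nonneg (θ t : ℝ) : 0 ≤ k θ t := by
  unfold k
  have := Real.cosh_pos (Real.pi * t)
  positivity

lemma uf_norm (hΦ : IsFC R Φ) (t : ℝ) (ht : BC (uf t)) (v : H) : ‖Φ (uf t) v‖ ≤ ‖v‖ := by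
  have h1 : ‖Φ (uf t)‖ ≤ 1 := by
    refine hΦ.norm _ _ ht zero_le_one ?_
    intro x _
    unfold uf
    rw [mul_comm, Complex.norm_exp_ofReal_mul_I]
  refine (ContinuousLinearMap.le_opNorm _ _).trans ?_
  calc ‖Φ (uf t)‖ * ‖v‖ ≤ 1 * ‖v‖ := by gcongr
    _ = ‖v‖ := one_mul _

lemma chi_norm (hΦ : IsFC R Φ) (n : ℕ) (v : H) : ‖Φ (fun x => (chi n x : ℂ)) v‖ ≤ ‖v‖ := by
  have h1 : ‖Φ (fun x => (chi n x : ℂ))‖ ≤ 1 := by
    refine hΦ.norm _ _ (chi_bc n) zero_le_one ?_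
    intro x _
    rw [Complex.norm_real]
    exact chi_bd n x
  refine (ContinuousLinearMap.le_opNorm _ _).trans ?_
  calc ‖Φ (fun x => (chi n x : ℂ))‖ * ‖v‖ ≤ 1 * ‖v‖ := by gcongr
    _ = ‖v‖ := one_mul _

theorem main (h6 : S_V6) (hΦ : IsFC R Φ) (B x : H →L[ℂ] H) (θ : ℝ) (hθ : |θ| < Real.pi)
    (hB : ∀ v : H, Φ tf (B (Φ tf v)) =
      cexp (I * θ / 2) • ((2 : ℂ) • x (R v) - R (x (R v))) +
      cexp (-(I * θ / 2)) • R (x ((2 : ℂ) • v - R v))) (v w : H) :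
    ⟪v, x w⟫_ℂ = ∫ t : ℝ, (k θ t : ℂ) * ⟪v, Φ (uf t) (B (Φ (uf (-t)) w))⟫_ℂ := by
  obtain ⟨-, -, hst, hct, -, hbc⟩ := h6 H 0 R Φ hΦ (map_zero R)
  have hv := chi_tendsto hΦ v
  have hw := chi_tendsto hΦ w
  have hL : Tendsto (fun n : ℕ => ⟪Φ (fun x => (chi n x : ℂ)) v,
      x (Φ (fun x => (chi n x : ℂ)) w)⟫_ℂ) atTop (𝓝 ⟪v, x w⟫_ℂ) :=
    hv.inner ((x.continuous.tendsto _).comp hw)
  have hR : Tendsto (fun n : ℕ => ∫ t : ℝ, (k θ t : ℂ) *
      ⟪Φ (fun x => (chi n x : ℂ)) v, Φ (uf t) (B (Φ (uf (-t)) (Φ (fun x => (chi n x : ℂ)) w)))⟫_ℂ)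
      atTop (𝓝 (∫ t : ℝ, (k θ t : ℂ) * ⟪v, Φ (uf t) (B (Φ (uf (-t)) w))⟫_ℂ)) := by
    refine tendsto_integral_of_dominated_convergence (fun t => k θ t * (‖v‖ * (‖B‖ * ‖w‖)))
      ?_ ((k_integrable hθ).mul_const _) ?_ ?_
    · intro n
      have e1 : ∀ t : ℝ, ⟪Φ (fun x => (chi n x : ℂ)) v,
          Φ (uf t) (B (Φ (uf (-t)) (Φ (fun x => (chi n x : ℂ)) w)))⟫_ℂ =
          ⟪Φ (uf (-t)) (Φ (fun x => (chi n x : ℂ)) v),
            B (Φ (uf (-t)) (Φ (fun x => (chi n x : ℂ)) w))⟫_ℂ := by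
        intro t
        rw [← hst t, ContinuousLinearMap.star_eq_adjoint, ContinuousLinearMap.adjoint_inner_left]
      simp only [e1]
      refine (k_integrable' hθ).aestronglyMeasurable.mul (Continuous.aestronglyMeasurable ?_)
      exact ((hct _).comp continuous_neg).inner (B.continuous.comp ((hct _).comp continuous_neg))
    · intro n
      refine ae_of_all _ fun t => ?_
      rw [norm_mul, Complex.norm_real, Real.norm_eq_abs, abs_of_nonneg (k_nonneg θ t)]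
      refine mul_le_mul_of_nonneg_left ?_ (k_nonneg θ t)
      refine (norm_inner_le_norm _ _).trans ?_
      refine mul_le_mul (chi_norm hΦ n v) ?_ (norm_nonneg _) (norm_nonneg _)
      refine (uf_norm hΦ t (hbc t) _).trans ((ContinuousLinearMap.le_opNorm _ _).trans ?_)
      refine mul_le_mul_of_nonneg_left ?_ (norm_nonneg _)
      exact (uf_norm hΦ (-t) (hbc _) _).trans (chi_norm hΦ n w)
    · refine ae_of_all _ fun t => ?_
      refine Tendsto.const_mul _ ?_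
      refine hv.inner ?_
      exact ((Φ (uf t)).continuous.tendsto _).comp ((B.continuous.tendsto _).comp
        (((Φ (uf (-t))).continuous.tendsto _).comp hw))
  refine tendsto_nhds_unique hL ?_
  refine hR.congr ?_
  intro n
  exact cut h6 hΦ B x θ hθ hB n v w

end Pool.Agent.H321.BC.V7

namespace Pool.Agent.H255.BC.TT_V7

open Pool.Agent.W662.CB Pool.Agent.H255.BC

theorem r (h6 : S_V6) : S_V7 := by
  intro H _ _ _ R Φ hΦ B x θ hθ hB v w
  exact Pool.Agent.H321.BC.V7.main h6 hΦ B x θ hθ hB v w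

end Pool.Agent.H255.BC.TT_V7
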