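import Pool.Agent.H255.BC.Defs4

set_option autoImplicit false

open MeasureTheory Filter Topology Complex
open scoped InnerProductSpace ENNReal

namespace Pool.Agent.H255.BC.TT_V8

open Pool.Agent.W662.CB Pool.Agent.H255.BC

/-- the function on the half line -/
noncomputable def f (g : ℝ → ℂ) (x : ℝ) : ℂ :=
  ((1 / (2 * Real.cosh (Real.pi * Real.log x)) : ℝ) : ℂ) * g (-Real.log x)

theorem f_cont (g : ℝ → ℂ) (hg : Continuous g) : ContinuousOn (f g) (Set.Ioi 0) := by
  unfold f
  have hl : ContinuousOn Real.log (Set.Ioi 0) :=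
    Real.continuousOn_log.mono (fun x hx => by simpa using (ne_of_gt hx))
  apply ContinuousOn.mul
  · apply Complex.continuous_ofReal.comp_continuousOn
    apply ContinuousOn.div continuousOn_const
    · exact continuousOn_const.mul (Real.continuous_cosh.comp_continuousOn (continuousOn_const.mul hl))
    · intro x _
      have := Real.cosh_pos (Real.pi * Real.log x)
      positivity
  · exact hg.comp_continuousOn hl.neg

theorem cosh_bound (u : ℝ) : 1 / (2 * Real.cosh u) ≤ Real.exp (-|u|) := by
  rw [Real.cosh_eq, div_le_iff₀ (by positivity)]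
  have h1 : Real.exp |u| ≤ Real.exp u + Real.exp (-u) := by
    rcases abs_cases u with ⟨h, _⟩ | ⟨h, _⟩ <;> rw [h]
    · linarith [Real.exp_pos (-u)]
    · linarith [Real.exp_pos u]
  calc (1 : ℝ) = Real.exp (-|u|) * Real.exp |u| := by rw [← Real.exp_add]; simp
    _ ≤ Real.exp (-|u|) * (Real.exp u + Real.exp (-u)) := by gcongr
    _ = _ := by ring

theorem f_bound (g : ℝ → ℂ) (C : ℝ) (hC : ∀ t, ‖g t‖ ≤ C) (x : ℝ) :
    ‖f g x‖ ≤ C * Real.exp (-|Real.pi * Real.log x|) := by
  have h0 : 0 < Real.cosh (Real.pi * Real.log x) := Real.cosh_pos _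
  have hC0 : 0 ≤ C := le_trans (norm_nonneg _) (hC 0)
  unfold f
  rw [norm_mul, Complex.norm_real, Real.norm_of_nonneg (by positivity), mul_comm]
  gcongr
  · exact hC _
  · exact cosh_bound _

theorem r : S_V8 := by
  intro g hg hb h0
  obtain ⟨C, hC⟩ := hb
  have hC0 : 0 ≤ C := le_trans (norm_nonneg _) (hC 0)
  have hpi := Real.pi_pos
  have hloc : LocallyIntegrableOn (f g) (Set.Ioi 0) :=
    (f_cont g hg).locallyIntegrableOn measurableSet_Ioi
  have htop : f g =O[atTop] (fun x : ℝ => x ^ (-Real.pi)) := by
    apply Asymptotics.IsBigO.of_bound C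
    filter_upwards [eventually_ge_atTop (1 : ℝ)] with x hx
    have hx0 : 0 < x := by linarith
    refine (f_bound g C hC x).trans (le_of_eq ?_)
    have hl : 0 ≤ Real.log x := Real.log_nonneg hx
    rw [Real.norm_of_nonneg (Real.rpow_nonneg hx0.le _), Real.rpow_def_of_pos hx0,
      abs_of_nonneg (by positivity)]
    congr 2; ring
  have hbot : f g =O[𝓝[>] 0] (fun x : ℝ => x ^ (-(-Real.pi))) := by
    apply Asymptotics.IsBigO.of_bound C
    have h1 : ∀ᶠ x : ℝ in 𝓝[>] (0 : ℝ), x ∈ Set.Ioo (0 : ℝ) 1 :=
      Ioo_mem_nhdsGT (by norm_num)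
    filter_upwards [h1] with x hx
    refine (f_bound g C hC x).trans (le_of_eq ?_)
    have hl : Real.log x ≤ 0 := Real.log_nonpos hx.1.le hx.2.le
    rw [Real.norm_of_nonneg (Real.rpow_nonneg hx.1.le _), Real.rpow_def_of_pos hx.1,
      abs_of_nonpos (by nlinarith)]
    congr 2; ring
  have hdiff : ∀ s : ℂ, -Real.pi < s.re → s.re < Real.pi → DifferentiableAt ℂ (mellin (f g)) s := by
    intro s h1 h2
    exact mellin_differentiableAt_of_isBigO_rpow hloc htop h2 hbot h1
  have hconv : ∀ s : ℂ, -Real.pi < s.re → s.re < Real.pi → MellinConvergent (f g) s := by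
    intro s h1 h2
    exact mellinConvergent_of_isBigO_rpow hloc htop h2 hbot h1
  -- zero on the real segment
  have hreal : ∀ θ : ℝ, |θ| < Real.pi → mellin (f g) (θ : ℂ) = 0 := by
    intro θ hθ
    rw [mellin_eq_fourier]
    rw [← h0 θ hθ]
    simp only [Complex.ofReal_re, Complex.ofReal_im, zero_div]
    rw [Real.fourier_eq]
    apply integral_congr_ae
    filter_upwards with u
    simp only [inner_zero_right, neg_zero, f, Real.log_exp, neg_neg]
    have : Real.cosh (Real.pi * -u) = Real.cosh (Real.pi * u) := by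
      rw [mul_neg, Real.cosh_neg]
    rw [this]
    simp only [AddChar.map_zero_eq_one, one_smul]
    rw [Complex.real_smul, ← mul_assoc, ← Complex.ofReal_mul]
    congr 2
    ring
  set S : Set ℂ := {s : ℂ | -Real.pi < s.re ∧ s.re < Real.pi} with hS
  have hSo : IsOpen S := (isOpen_lt continuous_const Complex.continuous_re).inter
    (isOpen_lt Complex.continuous_re continuous_const)
  have hSc : IsPreconnected S := by
    have : Convex ℝ S := by
      have h1 : S = Complex.re ⁻¹' (Set.Ioo (-Real.pi) Real.pi) := rfl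
      rw [h1]
      exact (convex_Ioo (-Real.pi) Real.pi).linear_preimage Complex.reLm
    exact this.isPreconnected
  have han : AnalyticOnNhd ℂ (mellin (f g)) S := by
    apply DifferentiableOn.analyticOnNhd _ hSo
    intro s hs
    exact (hdiff s hs.1 hs.2).differentiableWithinAt
  have hzero : Set.EqOn (mellin (f g)) 0 S := by
    apply han.eqOn_zero_of_preconnected_of_frequently_eq_zero hSc (z₀ := 0)
    · simp [hS, hpi]
    · have hseq : Tendsto (fun n : ℕ => (((1 / ((n : ℝ) + 1) : ℝ)) : ℂ)) atTop (𝓝[≠] 0) := by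
        rw [tendsto_nhdsWithin_iff]
        constructor
        · have := tendsto_one_div_add_atTop_nhds_zero_nat (𝕜 := ℝ)
          have h2 := (Complex.continuous_ofReal.tendsto 0).comp this
          simpa [Function.comp_def] using h2
        · filter_upwards with n
          simp only [Set.mem_compl_iff, Set.mem_singleton_iff, Complex.ofReal_eq_zero]
          positivity
      apply hseq.frequently
      apply Eventually.frequently
      filter_upwards with n
      apply hreal
      rw [abs_of_pos (by positivity)]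
      have : (1 : ℝ) / ((n : ℝ) + 1) ≤ 1 := by
        rw [div_le_one (by positivity)]
        have : (0 : ℝ) ≤ n := Nat.cast_nonneg n
        linarith
      linarith [Real.pi_gt_three]
  intro t
  have hx : (0 : ℝ) < Real.exp (-t) := Real.exp_pos _
  have hline : ∀ y : ℝ, mellin (f g) ((0 : ℝ) + y * I) = 0 := by
    intro y
    apply hzero
    simp [hS, hpi]
  have hinv := mellinInv_mellin_eq 0 (f g) hx (hconv _ (by simp [hpi]) (by simp [hpi])) ?_
    ((f_cont g hg).continuousAt (Ioi_mem_nhds hx))
  · have h3 : mellinInv 0 (mellin (f g)) (Real.exp (-t)) = 0 := by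
      unfold mellinInv
      simp only [hline, smul_zero, integral_zero]
    rw [h3] at hinv
    have h4 : f g (Real.exp (-t)) = 0 := hinv.symm
    unfold f at h4
    rw [Real.log_exp, neg_neg, mul_eq_zero] at h4
    rcases h4 with h4 | h4
    · exfalso
      rw [Complex.ofReal_eq_zero] at h4
      have := Real.cosh_pos (Real.pi * -t)
      have h5 : (0 : ℝ) < 1 / (2 * Real.cosh (Real.pi * -t)) := by positivity
      linarith
    · exact h4
  · unfold VerticalIntegrable
    simp only [hline]
    exact integrable_zero _ _ _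

end Pool.Agent.H255.BC.TT_V8
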