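import Pool.Agent.H255.BC.Defs4

set_option autoImplicit false

open MeasureTheory Filter Topology Complex
open scoped InnerProductSpace ENNReal

namespace Pool.Agent.H255.BC.TT_V9

open Pool.Agent.W662.CB Pool.Agent.H255.BC

variable {H : Type} [NormedAddCommGroup H] [InnerProductSpace ℂ H] [CompleteSpace H]

lemma kint (θ : ℝ) (hθ : |θ| < Real.pi) :
    Integrable (fun t : ℝ => Real.exp (-θ * t) / (2 * Real.cosh (Real.pi * t))) := by
  have hc : ∀ t : ℝ, 0 < 2 * Real.cosh (Real.pi * t) := fun t => by positivity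
  have hcont : Continuous (fun t : ℝ => Real.exp (-θ * t) / (2 * Real.cosh (Real.pi * t))) := by
    refine Continuous.div (by fun_prop) (by fun_prop) (fun t => (hc t).ne')
  obtain ⟨h1, h2⟩ := abs_lt.mp hθ
  have hA : IntegrableOn (fun t : ℝ => Real.exp (-(Real.pi + θ) * t)) (Set.Ioi 0) :=
    integrableOn_exp_mul_Ioi (by linarith) 0
  have hB : IntegrableOn (fun t : ℝ => Real.exp ((Real.pi - θ) * t)) (Set.Iic 0) :=
    integrableOn_exp_mul_Iic (by linarith) 0
  have hA' : IntegrableOn (fun t : ℝ => Real.exp (-θ * t) / (2 * Real.cosh (Real.pi * t)))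
      (Set.Ioi 0) := by
    refine hA.mono' hcont.aestronglyMeasurable.restrict (Filter.Eventually.of_forall ?_)
    intro t
    rw [Real.norm_eq_abs, abs_of_nonneg (by positivity), div_le_iff₀ (hc t), Real.cosh_eq]
    have e1 : Real.exp (-(Real.pi + θ) * t) * (2 * ((Real.exp (Real.pi * t) +
        Real.exp (-(Real.pi * t))) / 2)) = Real.exp (-θ * t) +
        Real.exp (-(Real.pi + θ) * t) * Real.exp (-(Real.pi * t)) := by
      have : Real.exp (-(Real.pi + θ) * t) * Real.exp (Real.pi * t) = Real.exp (-θ * t) := by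
        rw [← Real.exp_add]; congr 1; ring
      rw [← this]; ring
    rw [e1]
    have : 0 < Real.exp (-(Real.pi + θ) * t) * Real.exp (-(Real.pi * t)) := by positivity
    linarith
  have hB' : IntegrableOn (fun t : ℝ => Real.exp (-θ * t) / (2 * Real.cosh (Real.pi * t)))
      (Set.Iic 0) := by
    refine hB.mono' hcont.aestronglyMeasurable.restrict (Filter.Eventually.of_forall ?_)
    intro t
    rw [Real.norm_eq_abs, abs_of_nonneg (by positivity), div_le_iff₀ (hc t), Real.cosh_eq]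
    have e1 : Real.exp ((Real.pi - θ) * t) * (2 * ((Real.exp (Real.pi * t) +
        Real.exp (-(Real.pi * t))) / 2)) = Real.exp (-θ * t) +
        Real.exp ((Real.pi - θ) * t) * Real.exp (Real.pi * t) := by
      have : Real.exp ((Real.pi - θ) * t) * Real.exp (-(Real.pi * t)) = Real.exp (-θ * t) := by
        rw [← Real.exp_add]; congr 1; ring
      rw [← this]; ring
    rw [e1]
    have : 0 < Real.exp ((Real.pi - θ) * t) * Real.exp (Real.pi * t) := by positivity
    linarith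
  have := hB'.union hA'
  rwa [Set.Iic_union_Ioi, integrableOn_univ] at this

/-- the operator `v ↦ J (a (J v))` -/
noncomputable def bop (J : H → H) (hadd : ∀ v w : H, J (v + w) = J v + J w)
    (hsmul : ∀ (c : ℂ) (v : H), J (c • v) = (starRingEnd ℂ c) • J v)
    (hin : ∀ v w : H, ⟪J v, J w⟫_ℂ = ⟪w, v⟫_ℂ) (a : H →L[ℂ] H) : H →L[ℂ] H :=
  LinearMap.mkContinuous
    { toFun := fun v => J (a (J v))
      map_add' := fun v w => by rw [hadd, map_add, hadd]
      map_smul' := fun c v => by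
        rw [hsmul, map_smul, hsmul, RingHom.id_apply, starRingEnd_self_apply] } ‖a‖
    (fun v => by
      have hn : ∀ v : H, ‖J v‖ = ‖v‖ := fun v => by
        have h := hin v v
        rw [inner_self_eq_norm_sq_to_K, inner_self_eq_norm_sq_to_K] at h
        have h' : ‖J v‖ ^ 2 = ‖v‖ ^ 2 := by exact_mod_cast h
        exact (pow_left_inj₀ (norm_nonneg _) (norm_nonneg _) two_ne_zero).mp h'
      show ‖J (a (J v))‖ ≤ ‖a‖ * ‖v‖
      rw [hn]
      calc ‖a (J v)‖ ≤ ‖a‖ * ‖J v‖ := a.le_opNorm _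
        _ = ‖a‖ * ‖v‖ := by rw [hn])

omit [CompleteSpace H] in
lemma bop_apply (J : H → H) (hadd : ∀ v w : H, J (v + w) = J v + J w)
    (hsmul : ∀ (c : ℂ) (v : H), J (c • v) = (starRingEnd ℂ c) • J v)
    (hin : ∀ v w : H, ⟪J v, J w⟫_ℂ = ⟪w, v⟫_ℂ) (a : H →L[ℂ] H) (v : H) :
    bop J hadd hsmul hin a v = J (a (J v)) := rfl

/-- membership in `M` from commutation with the commutant -/
lemma mem_of_comm (M : VonNeumannAlgebra H) (b : H →L[ℂ] H)
    (h : ∀ y : H →L[ℂ] H, y ∈ M.commutant → ∀ v w : H, ⟪v, b (y w)⟫_ℂ = ⟪v, y (b w)⟫_ℂ) :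
    b ∈ M := by
  have : b ∈ M.commutant.commutant := by
    rw [VonNeumannAlgebra.mem_commutant_iff]
    intro y hy
    ext w
    refine ext_inner_left ℂ fun v => ?_
    show ⟪v, y (b w)⟫_ℂ = ⟪v, b (y w)⟫_ℂ
    exact (h y hy v w).symm
  rwa [VonNeumannAlgebra.commutant_commutant] at this

lemma comm_of (M : VonNeumannAlgebra H) (x y : H →L[ℂ] H) (hx : x ∈ M) (hy : y ∈ M.commutant)
    (w : H) : x (y w) = y (x w) := by
  rw [VonNeumannAlgebra.mem_commutant_iff] at hy
  have := congrArg (fun T : H →L[ℂ] H => T w) (hy x hx)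
  exact this

/-- the positive case -/
lemma pos_case (h2 : S_V2) (h3 : S_V3) (h6 : S_V6) (h7 : S_V7) (h8 : S_V8)
    (M : VonNeumannAlgebra H) (ξ : H) (R : H →L[ℂ] H) (D : H → H)
    (Φ : (ℝ → ℂ) → (H →L[ℂ] H)) (J : H → H) (hcyc : IsCyclic M ξ) (hsep : IsSeparating M ξ)
    (hT : IsTT M ξ R D) (hF : IsFC R Φ) (hJ : IsJJ ξ D Φ J) (a : H →L[ℂ] H) (t : ℝ)
    (ha : a ∈ M.commutant) (ha0 : 0 ≤ a) (ha1 : a ≤ 1) :
    Φ (uf t) * bop J hJ.add hJ.smul hJ.inner a * Φ (uf (-t)) ∈ M := by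
  set B := bop J hJ.add hJ.smul hJ.inner a with hB
  obtain ⟨hU0, hUadd, hUstar, hUcont, hUfix, hUBC⟩ := h6 H ξ R Φ hF hT.fix
  have hasa : star a = a := (IsSelfAdjoint.of_nonneg ha0).star_eq
  have hUn : ∀ s : ℝ, ‖Φ (uf s)‖ ≤ 1 := by
    intro s
    refine hF.norm (uf s) 1 (hUBC s) zero_le_one fun x _ => ?_
    rw [uf, mul_comm, Complex.norm_exp_ofReal_mul_I]
  -- continuity of the conjugated operators
  have hc1 : ∀ v w : H, Continuous fun s : ℝ => ⟪v, Φ (uf s) (B (Φ (uf (-s)) w))⟫_ℂ := by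
    intro v w
    have e : (fun s : ℝ => ⟪v, Φ (uf s) (B (Φ (uf (-s)) w))⟫_ℂ) =
        fun s : ℝ => ⟪Φ (uf (-s)) v, B (Φ (uf (-s)) w)⟫_ℂ := by
      funext s
      have : ⟪v, Φ (uf s) (B (Φ (uf (-s)) w))⟫_ℂ =
          ⟪star (Φ (uf s)) v, B (Φ (uf (-s)) w)⟫_ℂ := by
        rw [ContinuousLinearMap.star_eq_adjoint, ContinuousLinearMap.adjoint_inner_left]
      rw [this, hUstar]
    rw [e]
    have hv : Continuous fun s : ℝ => Φ (uf (-s)) v := (hUcont v).comp continuous_neg
    have hw : Continuous fun s : ℝ => Φ (uf (-s)) w := (hUcont w).comp continuous_neg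
    exact hv.inner (B.continuous.comp hw)
  have hb1 : ∀ v w : H, ∀ s : ℝ, ‖⟪v, Φ (uf s) (B (Φ (uf (-s)) w))⟫_ℂ‖ ≤ ‖v‖ * (‖B‖ * ‖w‖) := by
    intro v w s
    refine (norm_inner_le_norm _ _).trans ?_
    refine mul_le_mul_of_nonneg_left ?_ (norm_nonneg _)
    calc ‖Φ (uf s) (B (Φ (uf (-s)) w))‖ ≤ 1 * ‖B (Φ (uf (-s)) w)‖ :=
          (Φ (uf s)).le_of_opNorm_le (hUn s) _
      _ = ‖B (Φ (uf (-s)) w)‖ := one_mul _
      _ ≤ ‖B‖ * ‖Φ (uf (-s)) w‖ := B.le_opNorm _
      _ ≤ ‖B‖ * (1 * ‖w‖) := by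
          refine mul_le_mul_of_nonneg_left ((Φ (uf (-s))).le_of_opNorm_le (hUn _) _)
            (norm_nonneg _)
      _ = ‖B‖ * ‖w‖ := by rw [one_mul]
  refine mem_of_comm M _ fun y hy v w => ?_
  -- the function g
  set g : ℝ → ℂ := fun s => ⟪v, Φ (uf s) (B (Φ (uf (-s)) (y w)))⟫_ℂ -
    ⟪star y v, Φ (uf s) (B (Φ (uf (-s)) w))⟫_ℂ with hg
  have hgc : Continuous g := (hc1 v (y w)).sub (hc1 (star y v) w)
  have hgb : ∃ C : ℝ, ∀ s, ‖g s‖ ≤ C := by
    refine ⟨‖v‖ * (‖B‖ * ‖y w‖) + ‖star y v‖ * (‖B‖ * ‖w‖), fun s => ?_⟩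
    exact (norm_sub_le _ _).trans (add_le_add (hb1 _ _ s) (hb1 _ _ s))
  have hgz : ∀ s, g s = 0 := by
    refine h8 g hgc hgb fun θ hθ => ?_
    obtain ⟨hθ1, hθ2⟩ := abs_lt.mp hθ
    have hcos : 0 < Real.cos (θ / 2) :=
      Real.cos_pos_of_mem_Ioo ⟨by linarith, by linarith⟩
    set lam : ℂ := cexp (I * θ / 2) with hlam
    have hlamre : lam.re = Real.cos (θ / 2) := by
      rw [hlam, show (I * (θ : ℂ) / 2) = ((θ / 2 : ℝ) : ℂ) * I by push_cast; ring,
        Complex.exp_ofReal_mul_I_re]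
    have hlamc : starRingEnd ℂ lam = cexp (-(I * θ / 2)) := by
      rw [hlam, ← Complex.exp_conj]
      congr 1
      rw [map_div₀, map_mul, Complex.conj_I, Complex.conj_ofReal, Complex.conj_ofNat]
      ring
    set c : ℝ := 1 / (2 * Real.cos (θ / 2)) with hc
    have hc0 : 0 < c := by positivity
    obtain ⟨x', hx'M, hx'sa, hx'⟩ := h2 H M ξ hcyc hsep a ((c : ℂ) * lam) ha ha0 ha1 (by
      rw [Complex.re_ofReal_mul, hlamre, hc]
      rw [show 2 * (1 / (2 * Real.cos (θ / 2)) * Real.cos (θ / 2)) = 1 by field_simp])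
    set x : H →L[ℂ] H := (c : ℂ) • x' with hx
    have hxM : x ∈ M := M.toStarSubalgebra.smul_mem hx'M _
    have hxsa : star x = x := by
      rw [hx, star_smul, hx'sa]
      congr 1
      exact Complex.conj_ofReal c
    have hxrel : ∀ y : H →L[ℂ] H, y ∈ M →
        ⟪a ξ, y ξ⟫_ℂ = lam * ⟪ξ, x (y ξ)⟫_ℂ + starRingEnd ℂ lam * ⟪ξ, y (x ξ)⟫_ℂ := by
      intro y hy
      rw [hx' y hy, hx]
      simp only [ContinuousLinearMap.smul_apply, map_smul, inner_smul_right, map_mul,
        Complex.conj_ofReal]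
      ring
    have hid := h3 H M ξ R D hcyc hsep hT a x lam ha hasa hxM hxsa hxrel
    have hid' : ∀ v : H, Φ tf (B (Φ tf v)) =
        cexp (I * θ / 2) • ((2 : ℂ) • x (R v) - R (x (R v))) +
        cexp (-(I * θ / 2)) • R (x ((2 : ℂ) • v - R v)) := by
      intro v
      rw [← hlamc, ← hlam, ← hid v, hJ.eq' (a (D v)), hJ.eq v]
      rfl
    have h77 := h7 H R Φ hF B x θ hθ hid'
    have hki : Integrable (fun t : ℝ =>
        ((Real.exp (-θ * t) / (2 * Real.cosh (Real.pi * t)) : ℝ) : ℂ)) := (kint θ hθ).ofReal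
    have hI : ∀ v w : H, Integrable (fun t : ℝ =>
        ((Real.exp (-θ * t) / (2 * Real.cosh (Real.pi * t)) : ℝ) : ℂ) *
        ⟪v, Φ (uf t) (B (Φ (uf (-t)) w))⟫_ℂ) := by
      intro v w
      refine Integrable.mul_bdd (c := ‖v‖ * (‖B‖ * ‖w‖)) hki
        (hc1 v w).aestronglyMeasurable (Filter.Eventually.of_forall fun s => hb1 v w s)
    have e : (fun t : ℝ => ((Real.exp (-θ * t) / (2 * Real.cosh (Real.pi * t)) : ℝ) : ℂ) * g t) =
        fun t : ℝ => ((Real.exp (-θ * t) / (2 * Real.cosh (Real.pi * t)) : ℝ) : ℂ) *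
        ⟪v, Φ (uf t) (B (Φ (uf (-t)) (y w)))⟫_ℂ -
        ((Real.exp (-θ * t) / (2 * Real.cosh (Real.pi * t)) : ℝ) : ℂ) *
        ⟪star y v, Φ (uf t) (B (Φ (uf (-t)) w))⟫_ℂ := by
      funext s
      rw [hg]
      ring
    rw [e, integral_sub (hI _ _) (hI _ _), ← h77, ← h77, comm_of M x y hxM hy w,
      ContinuousLinearMap.star_eq_adjoint, ContinuousLinearMap.adjoint_inner_left, sub_self]
  have := hgz t
  rw [hg] at this
  have h' := sub_eq_zero.mp this
  show ⟪v, Φ (uf t) (B (Φ (uf (-t)) (y w)))⟫_ℂ = ⟪v, y (Φ (uf t) (B (Φ (uf (-t)) w)))⟫_ℂ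
  rw [h', ContinuousLinearMap.star_eq_adjoint, ContinuousLinearMap.adjoint_inner_left]

theorem r (h2 : S_V2) (h3 : S_V3) (h6 : S_V6) (h7 : S_V7) (h8 : S_V8) : S_V9 := by
  intro H _ _ _ M ξ R D Φ J hcyc hsep hT hF hJ a t ha
  -- the operator
  have key : ∀ a : H →L[ℂ] H, a ∈ M.commutant →
      Φ (uf t) * bop J hJ.add hJ.smul hJ.inner a * Φ (uf (-t)) ∈ M := by
    set G : (H →L[ℂ] H) → (H →L[ℂ] H) := fun a =>
      Φ (uf t) * bop J hJ.add hJ.smul hJ.inner a * Φ (uf (-t)) with hG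
    have hGadd : ∀ a b, G (a + b) = G a + G b := by
      intro a b
      ext v
      show Φ (uf t) (J ((a + b) (J (Φ (uf (-t)) v)))) = Φ (uf t) (J (a (J (Φ (uf (-t)) v)))) +
        Φ (uf t) (J (b (J (Φ (uf (-t)) v))))
      rw [ContinuousLinearMap.add_apply, hJ.add, map_add]
    have hGsmul : ∀ (c : ℂ) a, G (c • a) = (starRingEnd ℂ c) • G a := by
      intro c a
      ext v
      show Φ (uf t) (J ((c • a) (J (Φ (uf (-t)) v)))) =
        (starRingEnd ℂ c) • Φ (uf t) (J (a (J (Φ (uf (-t)) v))))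
      rw [ContinuousLinearMap.smul_apply, hJ.smul, map_smul]
    have hpos : ∀ a : H →L[ℂ] H, a ∈ M.commutant → 0 ≤ a → a ≤ 1 → G a ∈ M :=
      fun a ha h0 h1 => pos_case h2 h3 h6 h7 h8 M ξ R D Φ J hcyc hsep hT hF hJ a t ha h0 h1
    have hsa : ∀ a : H →L[ℂ] H, a ∈ M.commutant → star a = a → G a ∈ M := by
      intro a ha hs
      set r : ℝ := ‖a‖ + 1 with hr
      have hr0 : 0 < r := by positivity
      have hasa : IsSelfAdjoint a := hs
      have hle : a ≤ algebraMap ℝ (H →L[ℂ] H) ‖a‖ := hasa.le_algebraMap_norm_self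
      have hge : -algebraMap ℝ (H →L[ℂ] H) ‖a‖ ≤ a := hasa.neg_algebraMap_norm_le_self
      have hrr : algebraMap ℝ (H →L[ℂ] H) ‖a‖ ≤ algebraMap ℝ (H →L[ℂ] H) r :=
        algebraMap_mono _ (by rw [hr]; linarith)
      set p : H →L[ℂ] H := (1 / (2 * r) : ℝ) • (algebraMap ℝ (H →L[ℂ] H) r + a) with hp
      have hp0 : 0 ≤ p := by
        refine smul_nonneg (by positivity) ?_
        have h1 : -algebraMap ℝ (H →L[ℂ] H) r ≤ a := (neg_le_neg hrr).trans hge
        have := add_le_add_left h1 (algebraMap ℝ (H →L[ℂ] H) r)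
        simpa [add_comm] using this
      have hp1 : p ≤ 1 := by
        have h1 : algebraMap ℝ (H →L[ℂ] H) r + a ≤ (2 * r) • (1 : H →L[ℂ] H) := by
          have h2 : algebraMap ℝ (H →L[ℂ] H) r + a ≤
              algebraMap ℝ (H →L[ℂ] H) r + algebraMap ℝ (H →L[ℂ] H) r :=
            add_le_add le_rfl (hle.trans hrr)
          have h3 : algebraMap ℝ (H →L[ℂ] H) r + algebraMap ℝ (H →L[ℂ] H) r =
              (2 * r) • (1 : H →L[ℂ] H) := by
            rw [← map_add, Algebra.algebraMap_eq_smul_one]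
            congr 1
            ring
          rwa [h3] at h2
        have h2 := smul_le_smul_of_nonneg_left h1 (show (0 : ℝ) ≤ 1 / (2 * r) by positivity)
        rw [smul_smul, show (1 / (2 * r) * (2 * r) : ℝ) = 1 by field_simp, one_smul] at h2
        exact h2
      have hpM : p ∈ M.commutant := by
        have e : p = ((1 / (2 * r) : ℝ) : ℂ) • ((r : ℂ) • (1 : H →L[ℂ] H) + a) := by
          rw [hp, Algebra.algebraMap_eq_smul_one, Complex.coe_smul, Complex.coe_smul]
        rw [e]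
        refine M.commutant.toStarSubalgebra.smul_mem (M.commutant.toStarSubalgebra.add_mem
          (M.commutant.toStarSubalgebra.smul_mem M.commutant.toStarSubalgebra.one_mem _) ha) _
      have hone : G 1 ∈ M := hpos 1 M.commutant.toStarSubalgebra.one_mem zero_le_one le_rfl
      have hpG : G p ∈ M := hpos p hpM hp0 hp1
      have e : a = ((2 * r : ℝ) : ℂ) • p + ((-r : ℝ) : ℂ) • (1 : H →L[ℂ] H) := by
        rw [hp, Algebra.algebraMap_eq_smul_one]
        ext v
        simp only [ContinuousLinearMap.add_apply, ContinuousLinearMap.smul_apply,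
          ContinuousLinearMap.one_apply, smul_add]
        have h1 : ∀ (s : ℝ) (w : H), (s • w : H) = ((s : ℂ) • w : H) := fun s w =>
          (Complex.coe_smul s w).symm
        rw [h1, h1, h1]
        rw [smul_smul, smul_smul, smul_smul]
        have h2 : (((2 * r : ℝ) : ℂ) * ((1 / (2 * r) : ℝ) : ℂ)) = 1 := by
          rw [← Complex.ofReal_mul, show (2 * r) * (1 / (2 * r)) = 1 by field_simp,
            Complex.ofReal_one]
        rw [h2, one_mul, one_smul]
        push_cast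
        rw [neg_smul]
        abel
      rw [e, hGadd, hGsmul, hGsmul]
      exact M.toStarSubalgebra.add_mem (M.toStarSubalgebra.smul_mem hpG _)
        (M.toStarSubalgebra.smul_mem hone _)
    intro a ha
    have hastar : star a ∈ M.commutant := star_mem ha
    set s : H →L[ℂ] H := (1 / 2 : ℂ) • (a + star a) with hs
    set k : H →L[ℂ] H := (-I / 2 : ℂ) • (a - star a) with hk
    have hsM : s ∈ M.commutant := M.commutant.toStarSubalgebra.smul_mem
      (M.commutant.toStarSubalgebra.add_mem ha hastar) _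
    have hkM : k ∈ M.commutant := M.commutant.toStarSubalgebra.smul_mem
      (M.commutant.toStarSubalgebra.sub_mem ha hastar) _
    have hss : star s = s := by
      rw [hs, star_smul, star_add, star_star, add_comm]
      congr 1
      simp
    have hks : star k = k := by
      rw [hk, star_smul, star_sub, star_star]
      have : star (-I / 2 : ℂ) = I / 2 := by simp
      rw [this, ← neg_sub a (star a), smul_neg, ← neg_smul]
      congr 1
      ring
    have e : a = s + I • k := by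
      rw [hs, hk, smul_smul]
      have : I * (-I / 2) = 1 / 2 := by
        rw [mul_div_assoc', mul_neg, Complex.I_mul_I, neg_neg]
      rw [this, ← smul_add, add_add_sub_cancel, ← two_smul ℂ a, smul_smul]
      norm_num
    have h5 : G a ∈ M := by
      have h6 : G a = G s + (starRingEnd ℂ I) • G k := by
        rw [← hGsmul, ← hGadd, ← e]
      rw [h6]
      exact M.toStarSubalgebra.add_mem (hsa s hsM hss)
        (M.toStarSubalgebra.smul_mem (hsa k hkM hks) _)
    exact h5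
  exact ⟨_, key a ha, fun v => rfl⟩

end Pool.Agent.H255.BC.TT_V9
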