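import Pool.Agent.H255.BC.All
import Pool.Agent.H255.BC.T4_V1
import Pool.Agent.H255.BC.T4_V2
import Pool.Agent.H255.BC.T4_V3
import Pool.Agent.H255.BC.T4_V4
import Pool.Agent.H255.BC.T4_V5
import Pool.Agent.H255.BC.T4_V6
import Pool.Agent.H255.BC.T4_V7
import Pool.Agent.H255.BC.T4_V8
import Pool.Agent.H255.BC.T4_V9
import Pool.Agent.H255.BC.T4_V10
import Pool.Agent.H255.BC.T4_TT
import Pool.Agent.H255.BC.T4_TTu

/-!
Tomita–Takesaki: existence and uniqueness of the modular group of a cyclic and separating vector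
(assembly, helper255).
-/

set_option autoImplicit false

namespace Pool.Agent.H255.BC

open Pool.Agent.W662.CB

theorem hV1 : S_V1 := TT_V1.r
theorem hV2 : S_V2 := TT_V2.r
theorem hV3 : S_V3 := TT_V3.r hV2
theorem hV4 : S_V4 := TT_V4.r
theorem hV5 : S_V5 := TT_V5.r
theorem hV6 : S_V6 := TT_V6.r
theorem hV7 : S_V7 := TT_V7.r hV6
theorem hV8 : S_V8 := TT_V8.r
theorem hV9 : S_V9 := TT_V9.r hV2 hV3 hV6 hV7 hV8
theorem hV10 : S_V10 := TT_V10.r hV6
theorem hTT : S_TT := TT_TT.r hV1 hV4 hV5 hV6 hV9 hV10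
theorem hTTu : S_TTu := TT_TTu.r pA2 pA8a

end Pool.Agent.H255.BC
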