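import Pool.Agent.H255.BC.Defs5

set_option autoImplicit false

open MeasureTheory Filter Topology Complex
open scoped InnerProductSpace ENNReal

namespace Pool.Agent.H255.BC.G_Z0

open Pool.Agent.W662.CB Pool.Agent.H255.BC

section

variable {H : Type} [NormedAddCommGroup H] [InnerProductSpace ℂ H] [CompleteSpace H]

theorem ten_exists {f : ℝ → ℂ} (hf : MemLp f 2 (volume : Measure ℝ)) :
    ∃ T : H →L[ℂ] LR H, IsTen f T := by
  have hmem : ∀ v : H, MemLp (fun s => f s • v) 2 (volume : Measure ℝ) := fun v =>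
    MemLp.of_le_mul (c := ‖v‖) hf (hf.1.smul_const v)
      (ae_of_all _ fun s => by rw [norm_smul, mul_comm])
  have hco : ∀ v : H, ((hmem v).toLp _ : ℝ → H) =ᵐ[volume] fun s => f s • v := fun v =>
    MemLp.coeFn_toLp _
  let T : H →ₗ[ℂ] LR H :=
    { toFun := fun v => (hmem v).toLp _
      map_add' := fun v w => by
        apply Lp.ext
        filter_upwards [hco (v + w), hco v, hco w,
          Lp.coeFn_add ((hmem v).toLp _) ((hmem w).toLp _)] with p h1 h2 h3 h5
        rw [h1, h5, Pi.add_apply, h2, h3, smul_add]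
      map_smul' := fun c v => by
        apply Lp.ext
        filter_upwards [hco (c • v), hco v, Lp.coeFn_smul c ((hmem v).toLp _)] with p h1 h2 h5
        rw [h1, RingHom.id_apply, h5, Pi.smul_apply, h2, smul_comm] }
  have hT : ∀ v : H, ‖T v‖ ≤ (eLpNorm f 2 (volume : Measure ℝ)).toReal * ‖v‖ := fun v => by
    rw [← Lp.norm_toLp f hf, mul_comm]
    apply Lp.norm_le_mul_norm_of_ae_le_mul
    filter_upwards [hco v, MemLp.coeFn_toLp hf] with p h1 h2
    change ‖((hmem v).toLp _ : ℝ → H) p‖ ≤ _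
    rw [h1, h2, norm_smul, mul_comm]
  exact ⟨T.mkContinuous _ hT, fun v => hco v⟩

theorem ten_inner {f g : ℝ → ℂ} {T T' : H →L[ℂ] LR H} (hT : IsTen f T) (hT' : IsTen g T')
    (v w : H) : ⟪T v, T' w⟫_ℂ = (∫ s : ℝ, starRingEnd ℂ (f s) * g s) * ⟪v, w⟫_ℂ := by
  rw [L2.inner_def, ← integral_mul_const]
  apply integral_congr_ae
  filter_upwards [hT v, hT' w] with s h1 h2
  rw [h1, h2, inner_smul_left, inner_smul_right]
  ring

theorem ten_unique {f : ℝ → ℂ} {T T' : H →L[ℂ] LR H} (hT : IsTen f T) (hT' : IsTen f T') :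
    T = T' := by
  ext1 v
  exact Lp.ext ((hT v).trans (hT' v).symm)

theorem ten_const {f : ℝ → ℂ} {T : H →L[ℂ] LR H} (hT : IsTen f T) {x : H →L[ℂ] H}
    {S : LR H →L[ℂ] LR H} (hS : IsConst x S) (v : H) : T (x v) = S (T v) := by
  apply Lp.ext
  filter_upwards [hT (x v), hT v, hS (T v)] with s h1 h2 h3
  rw [h1, h3, h2, map_smul]

/-- the isometry given by an operator which preserves inner products -/
noncomputable def mkIso {K : Type} [NormedAddCommGroup K] [InnerProductSpace ℂ K] (T : H →L[ℂ] K)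
    (h : ∀ v w : H, ⟪T v, T w⟫_ℂ = ⟪v, w⟫_ℂ) : H →ₗᵢ[ℂ] K :=
  T.toLinearMap.isometryOfInner h

theorem mkIso_apply {K : Type} [NormedAddCommGroup K] [InnerProductSpace ℂ K] (T : H →L[ℂ] K)
    (h : ∀ v w : H, ⟪T v, T w⟫_ℂ = ⟪v, w⟫_ℂ) (v : H) : mkIso T h v = T v := rfl

theorem hilb {K : Type} [NormedAddCommGroup K] [InnerProductSpace ℂ K] [CompleteSpace K]
    (V : ℕ → H →ₗᵢ[ℂ] K) (ho : ∀ i j, i ≠ j → ∀ v w : H, ⟪V i v, V j w⟫_ℂ = 0)
    (ht : ∀ F : K, (∀ k v, ⟪V k v, F⟫_ℂ = 0) → F = 0) :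
    IsHilbertSum ℂ (fun _ : ℕ => H) V := by
  apply IsHilbertSum.mk
  · intro i j hij v w
    exact ho i j hij v w
  · rw [top_le_iff, Submodule.topologicalClosure_eq_top_iff, Submodule.eq_bot_iff]
    intro F hF
    apply ht
    intro k v
    rw [Submodule.mem_orthogonal] at hF
    apply hF
    exact Submodule.mem_iSup_of_mem k ⟨v, rfl⟩

end

theorem r (h : S_bas) : S_Z0 := by
  obtain ⟨e, he, ho, hc⟩ := h
  intro H _ _ _ w hw
  choose T hT using fun k => ten_exists (H := H) (he k)
  have hTi : ∀ k (v v' : H), ⟪T k v, T k v'⟫_ℂ = ⟪v, v'⟫_ℂ := by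
    intro k v v'
    rw [ten_inner (hT k) (hT k), ho k k, if_pos rfl, one_mul]
  have hwi : ∀ k (v v' : H), ⟪w k v, w k v'⟫_ℂ = ⟪v, v'⟫_ℂ := by
    intro k v v'
    rw [← ContinuousLinearMap.adjoint_inner_right, ← ContinuousLinearMap.star_eq_adjoint,
      ← ContinuousLinearMap.mul_apply, hw.iso, ContinuousLinearMap.one_apply]
  have hV : IsHilbertSum ℂ (fun _ : ℕ => H) (fun k => mkIso (T k) (hTi k)) := by
    apply hilb
    · intro i j hij v v'
      rw [mkIso_apply, mkIso_apply, ten_inner (hT i) (hT j), ho i j, if_neg hij, zero_mul]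
    · intro F hF
      apply hc H F
      intro k T' hT' v
      rw [ten_unique hT' (hT k)]
      exact hF k v
  have hW : IsHilbertSum ℂ (fun _ : ℕ => H) (fun k => mkIso (w k) (hwi k)) := by
    apply hilb
    · intro i j hij v v'
      rw [mkIso_apply, mkIso_apply, ← ContinuousLinearMap.adjoint_inner_right,
        ← ContinuousLinearMap.star_eq_adjoint, ← ContinuousLinearMap.mul_apply, hw.orth i j hij,
        ContinuousLinearMap.zero_apply, inner_zero_right]
    · intro F hF
      have h1 : ∀ k, star (w k) F = 0 := by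
        intro k
        apply ext_inner_left ℂ
        intro v
        rw [ContinuousLinearMap.star_eq_adjoint, ContinuousLinearMap.adjoint_inner_right,
          inner_zero_right]
        exact hF k v
      have h2 := hw.sum F
      simp only [h1, map_zero] at h2
      exact h2.unique hasSum_zero
  let Z : H ≃ₗᵢ[ℂ] LR H := hW.linearIsometryEquiv.trans hV.linearIsometryEquiv.symm
  have hZ : ∀ k v, Z (w k v) = T k v := by
    intro k v
    have h1 : hW.linearIsometryEquiv (w k v) = lp.single 2 k v := by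
      rw [← LinearIsometryEquiv.eq_symm_apply, hW.linearIsometryEquiv_symm_apply_single]
      rfl
    change hV.linearIsometryEquiv.symm (hW.linearIsometryEquiv (w k v)) = T k v
    rw [h1, hV.linearIsometryEquiv_symm_apply_single]
    rfl
  refine ⟨Z, ?_⟩
  intro x hx _ S hS ζ
  have h1 : HasSum (fun k => Z (x (w k (star (w k) ζ)))) (Z (x ζ)) :=
    ((hw.sum ζ).mapL x).mapL (Z.toContinuousLinearEquiv : H →L[ℂ] LR H)
  have h2 : HasSum (fun k => S (Z (w k (star (w k) ζ)))) (S (Z ζ)) :=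
    ((hw.sum ζ).mapL (Z.toContinuousLinearEquiv : H →L[ℂ] LR H)).mapL S
  have h3 : (fun k => Z (x (w k (star (w k) ζ)))) = fun k => S (Z (w k (star (w k) ζ))) := by
    funext k
    have h4 : x (w k (star (w k) ζ)) = w k (x (star (w k) ζ)) := by
      rw [← ContinuousLinearMap.mul_apply, hx k, ContinuousLinearMap.mul_apply]
    rw [h4, hZ, hZ, ten_const (hT k) hS]
  rw [h3] at h1
  exact h1.unique h2

end Pool.Agent.H255.BC.G_Z0
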