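import Pool.Agent.H255.BC.Defs5

set_option autoImplicit false

open MeasureTheory Filter Topology Complex
open scoped InnerProductSpace ENNReal

namespace Pool.Agent.H255.BC.G_bas

open Pool.Agent.W662.CB Pool.Agent.H255.BC

/-- an orthonormal family of a separable space is countable -/
theorem countable_of_orthonormal {E ι : Type} [NormedAddCommGroup E] [InnerProductSpace ℂ E]
    [TopologicalSpace.SeparableSpace E] {b : ι → E} (hb : Orthonormal ℂ b) : Countable ι := by
  refine Pairwise.countable_of_isOpen_disjoint (s := fun i => Metric.ball (b i) (1 / 2)) ?_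
    (fun i => Metric.isOpen_ball) (fun i => ⟨b i, Metric.mem_ball_self (by norm_num)⟩)
  intro i j hij
  refine Metric.ball_disjoint_ball ?_
  have h1 : ‖b i - b j‖ ^ 2 = 2 := by
    have h := norm_sub_sq (𝕜 := ℂ) (b i) (b j)
    rw [hb.2 hij, hb.1 i, hb.1 j] at h
    simp at h
    linarith
  rw [dist_eq_norm]
  have h2 : (1 : ℝ) ≤ ‖b i - b j‖ := by
    by_contra hc
    push Not at hc
    have h3 := norm_nonneg (b i - b j)
    nlinarith
  linarith

/-- an orthonormal sequence -/
noncomputable def vv (n : ℕ) : Lp ℂ 2 (volume : Measure ℝ) :=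
  indicatorConstLp 2 (measurableSet_Ico : MeasurableSet (Set.Ico (n : ℝ) (n + 1)))
    (by rw [Real.volume_Ico]; exact ENNReal.ofReal_ne_top) (1 : ℂ)

theorem vv_orth : Orthonormal ℂ vv := by
  rw [orthonormal_iff_ite]
  intro i j
  unfold vv
  rw [L2.inner_indicatorConstLp_one, setIntegral_indicatorConstLp measurableSet_Ico]
  split_ifs with h
  · subst h
    rw [Set.inter_self]
    simp [Measure.real, Real.volume_Ico]
  · have : Set.Ico (j : ℝ) (j + 1) ∩ Set.Ico (i : ℝ) (i + 1) = ∅ := by
      ext x
      simp only [Set.mem_inter_iff, Set.mem_Ico, Set.mem_empty_iff_false, iff_false, not_and, not_lt]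
      rintro ⟨h1, h2⟩ h3
      by_contra hc
      push Not at hc
      apply h
      have h4 : (i : ℝ) < j + 1 := lt_of_le_of_lt h3 h2
      have h5 : (j : ℝ) < i + 1 := lt_of_le_of_lt h1 hc
      have h6 : i < j + 1 := by exact_mod_cast h4
      have h7 : j < i + 1 := by exact_mod_cast h5
      omega
    rw [this]
    simp

/-- the space `L²(ℝ)` has an orthonormal basis indexed by `ℕ` -/
theorem exists_basis : Nonempty (HilbertBasis ℕ ℂ (Lp ℂ 2 (volume : Measure ℝ))) := by
  have hf : Fact ((2 : ℝ≥0∞) ≠ ∞) := ⟨by norm_num⟩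
  have hs : Orthonormal ℂ ((↑) : Set.range vv → Lp ℂ 2 (volume : Measure ℝ)) := vv_orth.toSubtypeRange
  obtain ⟨w, b, hw, hb⟩ := hs.exists_hilbertBasis_extension
  have h1 : Countable w := countable_of_orthonormal b.orthonormal
  have h2 : Infinite w := by
    have hinj : Function.Injective vv := vv_orth.linearIndependent.injective
    have h3 : (Set.range vv).Infinite := Set.infinite_range_of_injective hinj
    exact (h3.mono hw).to_subtype
  obtain ⟨e⟩ := nonempty_equiv_of_countable (α := w) (β := ℕ)
  refine ⟨HilbertBasis.mk (v := fun n => b (e.symm n)) (b.orthonormal.comp _ e.symm.injective) ?_⟩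
  have h4 : Set.range (fun n => b (e.symm n)) = Set.range b := e.symm.surjective.range_comp b
  rw [h4, b.dense_span]

/-- the operators `v ↦ f ⊗ v` -/
theorem exists_ten {H : Type} [NormedAddCommGroup H] [InnerProductSpace ℂ H] [CompleteSpace H]
    {f : ℝ → ℂ} (hf : MemLp f 2 (volume : Measure ℝ)) : ∃ T : H →L[ℂ] LR H, IsTen f T := by
  have hmem : ∀ v : H, MemLp (fun s => f s • v) 2 (volume : Measure ℝ) := fun v =>
    MemLp.of_le_mul (c := ‖v‖) hf (hf.1.smul_const v)
      (ae_of_all _ fun s => by rw [norm_smul, mul_comm])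
  have hco : ∀ v : H, ((hmem v).toLp _ : ℝ → H) =ᵐ[volume] fun s => f s • v := fun v =>
    MemLp.coeFn_toLp _
  let T : H →ₗ[ℂ] LR H :=
    { toFun := fun v => (hmem v).toLp _
      map_add' := fun v w => by
        apply Lp.ext
        filter_upwards [hco (v + w), hco v, hco w,
          Lp.coeFn_add ((hmem v).toLp _) ((hmem w).toLp _)] with p h1 h2 h3 h5
        rw [h1, h5, Pi.add_apply, h2, h3, smul_add]
      map_smul' := fun c v => by
        apply Lp.ext
        filter_upwards [hco (c • v), hco v, Lp.coeFn_smul c ((hmem v).toLp _)] with p h1 h2 h5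
        rw [h1, RingHom.id_apply, h5, Pi.smul_apply, h2, smul_comm] }
  have hT : ∀ v : H, ‖T v‖ ≤ (eLpNorm f 2 (volume : Measure ℝ)).toReal * ‖v‖ := fun v => by
    rw [← Lp.norm_toLp f hf, mul_comm]
    apply Lp.norm_le_mul_norm_of_ae_le_mul
    filter_upwards [hco v, MemLp.coeFn_toLp hf] with p h1 h2
    change ‖((hmem v).toLp _ : ℝ → H) p‖ ≤ _
    rw [h1, h2, norm_smul, mul_comm]
  exact ⟨T.mkContinuous _ hT, fun v => hco v⟩

theorem r : S_bas := by
  obtain ⟨b⟩ := exists_basis
  refine ⟨fun k => (b k : ℝ → ℂ), fun k => Lp.memLp (b k), ?_, ?_⟩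
  · intro i j
    have h1 := (orthonormal_iff_ite.1 b.orthonormal) i j
    rw [L2.inner_def] at h1
    rw [← h1]
    refine integral_congr_ae (ae_of_all _ fun s => ?_)
    simp only [RCLike.inner_apply]
    rw [mul_comm]
  · intro H _ _ _ F hF
    have key : ∀ v : H, (fun s => ⟪v, F s⟫_ℂ) =ᵐ[volume] 0 := by
      intro v
      have hm : MemLp (fun s => ⟪v, F s⟫_ℂ) 2 (volume : Measure ℝ) := (Lp.memLp F).const_inner v
      have hz : hm.toLp _ = 0 := by
        have h1 : b.repr (hm.toLp _) = 0 := by
          ext k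
          rw [b.repr_apply_apply]
          obtain ⟨T, hT⟩ := exists_ten (H := H) (Lp.memLp (b k))
          have h2 := hF k T hT v
          rw [L2.inner_def] at h2
          rw [L2.inner_def]
          change _ = (0 : ℂ)
          rw [← h2]
          refine integral_congr_ae ?_
          filter_upwards [hm.coeFn_toLp, hT v] with s h3 h4
          rw [h3, h4, inner_smul_left]
          simp only [RCLike.inner_apply]
          rw [mul_comm]
        exact (LinearIsometryEquiv.map_eq_zero_iff b.repr).1 h1
      have h5 := hm.coeFn_toLp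
      rw [hz] at h5
      exact h5.symm.trans (Lp.coeFn_zero ℂ 2 volume)
    rw [Lp.eq_zero_iff_ae_eq_zero]
    refine Lp.ae_eq_zero_of_forall_setIntegral_eq_zero F (by norm_num) (by norm_num) ?_ ?_
    · intro s hs hμ
      exact integrableOn_Lp_of_measure_ne_top F (by norm_num) hμ.ne
    · intro s hs hμ
      refine ext_inner_left ℂ fun v => ?_
      rw [inner_zero_right, ← L2.inner_indicatorConstLp_eq_inner_setIntegral ℂ hs hμ.ne v F,
        L2.inner_indicatorConstLp_eq_setIntegral_inner]
      have h1 : ∀ᵐ x ∂(volume.restrict s), ⟪v, F x⟫_ℂ = 0 := ae_restrict_of_ae (key v)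
      rw [integral_congr_ae h1]
      simp

end Pool.Agent.H255.BC.G_bas
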