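import Pool.Agent.H255.BC.Defs5

set_option autoImplicit false

open MeasureTheory Filter Topology Complex
open scoped InnerProductSpace ENNReal

namespace Pool.Agent.H255.BC.G_cun

open Pool.Agent.W662.CB Pool.Agent.H255.BC

section

variable {H : Type} [NormedAddCommGroup H] [InnerProductSpace ℂ H] [CompleteSpace H]

theorem norm_iso {V : H →L[ℂ] H} (h : star V * V = 1) (ζ : H) : ‖V ζ‖ = ‖ζ‖ := by
  have h1 : ‖V ζ‖ ^ 2 = ‖ζ‖ ^ 2 := by
    have e1 : ((‖V ζ‖ : ℂ)) ^ 2 = ⟪V ζ, V ζ⟫_ℂ := (inner_self_eq_norm_sq_to_K (𝕜 := ℂ) (V ζ)).symm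
    have e2 : ((‖ζ‖ : ℂ)) ^ 2 = ⟪ζ, ζ⟫_ℂ := (inner_self_eq_norm_sq_to_K (𝕜 := ℂ) ζ).symm
    have e3 : ⟪V ζ, V ζ⟫_ℂ = ⟪ζ, ζ⟫_ℂ := by
      rw [← ContinuousLinearMap.adjoint_inner_right, ← ContinuousLinearMap.star_eq_adjoint]
      have : star V (V ζ) = (star V * V) ζ := rfl
      rw [this, h]
      rfl
    exact_mod_cast (e1.trans (e3.trans e2.symm))
  exact (sq_eq_sq₀ (norm_nonneg _) (norm_nonneg _)).1 h1

theorem norm_split {g g' : H →L[ℂ] H} (h1 : star g * g = 1) (h2 : star g' * g' = 1)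
    (h : g * star g + g' * star g' = 1) (v : H) : ‖star g v‖ ^ 2 + ‖star g' v‖ ^ 2 = ‖v‖ ^ 2 := by
  have e0 : ∀ a : H →L[ℂ] H, ((‖star a v‖ : ℂ)) ^ 2 = ⟪v, (a * star a) v⟫_ℂ := by
    intro a
    have e1 : ((‖star a v‖ : ℂ)) ^ 2 = ⟪star a v, star a v⟫_ℂ :=
      (inner_self_eq_norm_sq_to_K (𝕜 := ℂ) (star a v)).symm
    rw [e1, ContinuousLinearMap.star_eq_adjoint, ContinuousLinearMap.adjoint_inner_left]
    rfl
  have e3 : ((‖v‖ : ℂ)) ^ 2 = ⟪v, v⟫_ℂ := (inner_self_eq_norm_sq_to_K (𝕜 := ℂ) v).symm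
  have e4 : ((‖star g v‖ : ℂ)) ^ 2 + ((‖star g' v‖ : ℂ)) ^ 2 = ((‖v‖ : ℂ)) ^ 2 := by
    rw [e0, e0, e3, ← inner_add_right, ← _root_.add_apply, h]
    rfl
  exact_mod_cast e4

theorem cross {g g' : H →L[ℂ] H} (h1 : star g * g = 1) (h : g * star g + g' * star g' = 1)
    (h2 : star g' * g' = 1) : star g * g' = 0 := by
  have e1 : star g * (g * star g + g' * star g') * g' = star g * g' := by rw [h, mul_one]
  have e2 : star g * (g * star g + g' * star g') * g' = star g * g' + star g * g' := by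
    calc star g * (g * star g + g' * star g') * g' =
        (star g * g) * (star g * g') + star g * g' * (star g' * g') := by noncomm_ring
      _ = _ := by rw [h1, h2, one_mul, mul_one]
  have e3 := e1.symm.trans e2
  simpa using e3

open Classical in
/-- the generator with the smaller norm of the adjoint -/
noncomputable def pick (s r : H →L[ℂ] H) (v : H) : (H →L[ℂ] H) × (H →L[ℂ] H) :=
  if ‖star s v‖ ≤ ‖star r v‖ then (s, r) else (r, s)

/-- the products -/
noncomputable def PP (s r : H →L[ℂ] H) (ξ : H) : ℕ → (H →L[ℂ] H)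
  | 0 => 1
  | k + 1 => PP s r ξ k * (pick s r (star (PP s r ξ k) ξ)).1

noncomputable def ww (s r : H →L[ℂ] H) (ξ : H) (k : ℕ) : H →L[ℂ] H :=
  PP s r ξ k * (pick s r (star (PP s r ξ k) ξ)).2

structure Pair (s r g g' : H →L[ℂ] H) (v : H) : Prop where
  h1 : star g * g = 1
  h2 : star g' * g' = 1
  h3 : g * star g + g' * star g' = 1
  h4 : ‖star g v‖ ≤ ‖star g' v‖
  m1 : g ∈ Submonoid.closure ({s, r} : Set (H →L[ℂ] H))
  m2 : g' ∈ Submonoid.closure ({s, r} : Set (H →L[ℂ] H))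

theorem pick_pair {s r : H →L[ℂ] H} (h1 : star s * s = 1) (h2 : star r * r = 1)
    (h3 : s * star s + r * star r = 1) (v : H) : Pair s r (pick s r v).1 (pick s r v).2 v := by
  have ms : s ∈ Submonoid.closure ({s, r} : Set (H →L[ℂ] H)) :=
    Submonoid.subset_closure (by simp)
  have mr : r ∈ Submonoid.closure ({s, r} : Set (H →L[ℂ] H)) :=
    Submonoid.subset_closure (by simp)
  unfold pick
  split_ifs with h
  · exact ⟨h1, h2, h3, h, ms, mr⟩
  · exact ⟨h2, h1, by rw [add_comm]; exact h3, (not_le.mp h).le, mr, ms⟩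

theorem PP_mem (s r : H →L[ℂ] H) (ξ : H) (h1 : star s * s = 1) (h2 : star r * r = 1)
    (h3 : s * star s + r * star r = 1) (k : ℕ) :
    PP s r ξ k ∈ Submonoid.closure ({s, r} : Set (H →L[ℂ] H)) := by
  induction k with
  | zero => exact one_mem _
  | succ k ih => exact mul_mem ih (pick_pair h1 h2 h3 _).m1

theorem PP_iso (s r : H →L[ℂ] H) (ξ : H) (h1 : star s * s = 1) (h2 : star r * r = 1)
    (h3 : s * star s + r * star r = 1) (k : ℕ) : star (PP s r ξ k) * PP s r ξ k = 1 := by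
  induction k with
  | zero => simp [PP]
  | succ k ih =>
    have hp := pick_pair h1 h2 h3 (star (PP s r ξ k) ξ)
    show star (PP s r ξ k * _) * (PP s r ξ k * _) = 1
    rw [star_mul, mul_assoc, ← mul_assoc (star (PP s r ξ k)), ih, one_mul]
    exact hp.h1

/-- the commutant of a von Neumann algebra with a separating vector has it as a cyclic vector -/
theorem comm_dense {N : VonNeumannAlgebra H} {ξ : H} (h : IsSeparating N ξ) :
    Dense {v : H | ∃ y : H →L[ℂ] H, y ∈ N.commutant ∧ y ξ = v} := by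
  let K0 : Submodule ℂ H :=
    { carrier := {v : H | ∃ y : H →L[ℂ] H, y ∈ N.commutant ∧ y ξ = v}
      add_mem' := by
        rintro a b ⟨y, hy, rfl⟩ ⟨z, hz, rfl⟩
        exact ⟨y + z, add_mem hy hz, rfl⟩
      zero_mem' := ⟨0, zero_mem _, rfl⟩
      smul_mem' := by
        rintro c a ⟨y, hy, rfl⟩
        refine ⟨c • y, ?_, rfl⟩
        rw [VonNeumannAlgebra.mem_commutant_iff] at hy ⊢
        intro g hg
        rw [mul_smul_comm, hy g hg, smul_mul_assoc] }
  let K : Submodule ℂ H := K0.topologicalClosure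
  have : CompleteSpace K := K0.isClosed_topologicalClosure.completeSpace_coe
  have hp : K.starProjection ∈ N := by
    rw [VonNeumannAlgebra.IsStarProjection.mem_iff isStarProjection_starProjection]
    intro y hy
    rw [Submodule.range_starProjection]
    rw [Module.End.mem_invtSubmodule]
    intro v hv
    show y v ∈ K
    have hv' : v ∈ closure (K0 : Set H) := hv
    have : y v ∈ closure (K0 : Set H) := by
      refine map_mem_closure y.continuous hv' ?_
      rintro a ⟨z, hz, rfl⟩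
      exact ⟨y * z, mul_mem hy hz, rfl⟩
    exact this
  have hξ : ξ ∈ K := K0.le_topologicalClosure ⟨1, one_mem _, rfl⟩
  have h0 : (1 - K.starProjection) ξ = 0 := by
    have : K.starProjection ξ = ξ := Submodule.starProjection_eq_self_iff.2 hξ
    simp [this]
  have h1 := h _ (sub_mem (one_mem _) hp) h0
  have h2 : K.starProjection = 1 := (sub_eq_zero.1 h1).symm
  intro v
  have h3 : v ∈ K := by
    have : K.starProjection v = v := by rw [h2]; rfl
    exact Submodule.starProjection_eq_self_iff.1 this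
  exact h3

end

theorem r : S_cun := by
  intro H _ _ _ N ξ s r hsep hs hr h1 h2 h3
  have hPP := PP_iso s r ξ h1 h2 h3
  have hmem := PP_mem s r ξ h1 h2 h3
  have hpair := fun k => pick_pair h1 h2 h3 (star (PP s r ξ k) ξ)
  have hsucc : ∀ k, PP s r ξ (k + 1) = PP s r ξ k * (pick s r (star (PP s r ξ k) ξ)).1 :=
    fun k => rfl
  have hN : ∀ k, PP s r ξ k ∈ N := by
    intro k
    have hle : Submonoid.closure ({s, r} : Set (H →L[ℂ] H)) ≤
        { carrier := {x | x ∈ N},
          mul_mem' := fun {a b} (ha : a ∈ N) (hb : b ∈ N) => (mul_mem ha hb : a * b ∈ N),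
          one_mem' := one_mem N } := by
      rw [Submonoid.closure_le]
      rintro x (rfl | hx)
      · exact hs
      · rw [Set.mem_singleton_iff] at hx
        rw [hx]; exact hr
    exact hle (hmem k)
  have hww : ∀ k, star (ww s r ξ k) * ww s r ξ k = 1 := by
    intro k
    show star (PP s r ξ k * _) * (PP s r ξ k * _) = 1
    rw [star_mul, mul_assoc, ← mul_assoc (star (PP s r ξ k)), hPP, one_mul]
    exact (hpair k).h2
  have hdec : ∀ i j, i < j → ∃ T : H →L[ℂ] H, PP s r ξ j = PP s r ξ (i + 1) * T := by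
    intro i j hij
    induction j with
    | zero => exact absurd hij (Nat.not_lt_zero _)
    | succ j ih =>
      rcases Nat.lt_or_ge i j with h | h
      · obtain ⟨T, hT⟩ := ih h
        exact ⟨T * _, by rw [hsucc, hT, mul_assoc]⟩
      · have : i = j := by omega
        subst this
        exact ⟨1, by rw [mul_one]⟩
  have horth1 : ∀ i j, i < j → star (ww s r ξ i) * ww s r ξ j = 0 := by
    intro i j hij
    obtain ⟨T, hT⟩ := hdec i j hij
    have hc : star (pick s r (star (PP s r ξ i) ξ)).2 * (pick s r (star (PP s r ξ i) ξ)).1 = 0 :=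
      cross (hpair i).h2 (by rw [add_comm]; exact (hpair i).h3) (hpair i).h1
    have e1 : star (ww s r ξ i) * PP s r ξ (i + 1) = 0 := by
      rw [hsucc]
      show star (PP s r ξ i * _) * (PP s r ξ i * _) = 0
      rw [star_mul, mul_assoc, ← mul_assoc (star (PP s r ξ i)), hPP, one_mul]
      exact hc
    show star (ww s r ξ i) * (PP s r ξ j * _) = 0
    rw [← mul_assoc, hT, ← mul_assoc, e1, zero_mul, zero_mul]
  have horth : ∀ i j, i ≠ j → star (ww s r ξ i) * ww s r ξ j = 0 := by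
    intro i j hij
    rcases lt_or_gt_of_ne hij with h | h
    · exact horth1 i j h
    · have := horth1 j i h
      have h' := congrArg star this
      rwa [star_mul, star_star, star_zero] at h'
  -- the range sums
  have hsum : ∀ n, ∑ k ∈ Finset.range n, ww s r ξ k * star (ww s r ξ k) =
      1 - PP s r ξ n * star (PP s r ξ n) := by
    intro n
    induction n with
    | zero => simp [PP]
    | succ n ih =>
      rw [Finset.sum_range_succ, ih, hsucc]
      have e1 : ww s r ξ n = PP s r ξ n * (pick s r (star (PP s r ξ n) ξ)).2 := rfl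
      rw [e1]
      have e2 := (hpair n).h3
      set g := (pick s r (star (PP s r ξ n) ξ)).1
      set g' := (pick s r (star (PP s r ξ n) ξ)).2
      set P := PP s r ξ n
      have e3 : P * star P = P * (g * star g + g' * star g') * star P := by rw [e2, mul_one]
      rw [star_mul, star_mul, e3]
      noncomm_ring
  -- `P_n^* ξ → 0`
  have hhalf : ∀ k, ‖star (PP s r ξ k) ξ‖ ^ 2 ≤ (1 / 2) ^ k * ‖ξ‖ ^ 2 := by
    intro k
    induction k with
    | zero => simp [PP]
    | succ k ih =>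
      have e1 : star (PP s r ξ (k + 1)) ξ =
          star (pick s r (star (PP s r ξ k) ξ)).1 (star (PP s r ξ k) ξ) := by
        rw [hsucc, star_mul]; rfl
      rw [e1]
      have e2 := norm_split (hpair k).h1 (hpair k).h2 (hpair k).h3 (star (PP s r ξ k) ξ)
      have e3 := (hpair k).h4
      have e4 : ‖star (pick s r (star (PP s r ξ k) ξ)).1 (star (PP s r ξ k) ξ)‖ ^ 2 ≤
          ‖star (pick s r (star (PP s r ξ k) ξ)).2 (star (PP s r ξ k) ξ)‖ ^ 2 :=
        pow_le_pow_left₀ (norm_nonneg _) e3 2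
      rw [pow_succ (1 / 2 : ℝ) k]
      nlinarith
  have hnormP : ∀ (k : ℕ) (ζ : H), ‖star (PP s r ξ k) ζ‖ ≤ ‖ζ‖ := by
    intro k ζ
    have h5 : ‖star (PP s r ξ k)‖ ≤ 1 := by
      rw [norm_star]
      refine ContinuousLinearMap.opNorm_le_bound _ zero_le_one fun v => ?_
      rw [norm_iso (hPP k) v, one_mul]
    calc ‖star (PP s r ξ k) ζ‖ ≤ ‖star (PP s r ξ k)‖ * ‖ζ‖ := ContinuousLinearMap.le_opNorm _ _
      _ ≤ 1 * ‖ζ‖ := mul_le_mul_of_nonneg_right h5 (norm_nonneg _)
      _ = ‖ζ‖ := one_mul _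
  have hξ0 : Tendsto (fun k => star (PP s r ξ k) ξ) atTop (𝓝 0) := by
    rw [tendsto_zero_iff_norm_tendsto_zero]
    have h5 : Tendsto (fun k : ℕ => (1 / 2 : ℝ) ^ k * ‖ξ‖ ^ 2) atTop (𝓝 0) := by
      have := (tendsto_pow_atTop_nhds_zero_of_lt_one (by norm_num : (0 : ℝ) ≤ 1 / 2)
        (by norm_num)).mul_const (‖ξ‖ ^ 2)
      rwa [zero_mul] at this
    have h6 : Tendsto (fun k => ‖star (PP s r ξ k) ξ‖ ^ 2) atTop (𝓝 0) :=
      squeeze_zero (fun k => sq_nonneg _) hhalf h5
    have h7 := (Real.continuous_sqrt.tendsto 0).comp h6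
    rw [Real.sqrt_zero] at h7
    refine h7.congr fun k => ?_
    exact Real.sqrt_sq (norm_nonneg _)
  have hall : ∀ ζ : H, Tendsto (fun k => star (PP s r ξ k) ζ) atTop (𝓝 0) := by
    intro ζ
    rw [Metric.tendsto_atTop]
    intro ε hε
    obtain ⟨v, hv, y, hy, rfl⟩ := Metric.dense_iff.1 (comm_dense hsep) ζ (ε / 2) (half_pos hε)
    have hyP : ∀ k, star (PP s r ξ k) (y ξ) = y (star (PP s r ξ k) ξ) := by
      intro k
      rw [VonNeumannAlgebra.mem_commutant_iff] at hy
      have := hy (star (PP s r ξ k)) (star_mem (hN k))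
      exact congrArg (fun T : H →L[ℂ] H => T ξ) this
    have hlim : Tendsto (fun k => star (PP s r ξ k) (y ξ)) atTop (𝓝 0) := by
      have := (y.continuous.tendsto 0).comp hξ0
      rw [map_zero] at this
      exact this.congr fun k => (hyP k).symm
    obtain ⟨n₀, hn₀⟩ := Metric.tendsto_atTop.1 hlim (ε / 2) (half_pos hε)
    refine ⟨n₀, fun k hk => ?_⟩
    have h5 := hn₀ k hk
    rw [dist_zero_right] at h5 ⊢
    have h6 : star (PP s r ξ k) ζ = star (PP s r ξ k) (ζ - y ξ) + star (PP s r ξ k) (y ξ) := by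
      rw [← map_add, sub_add_cancel]
    have h7 : ‖ζ - y ξ‖ < ε / 2 := by
      have : dist (y ξ) ζ < ε / 2 := hv
      rwa [dist_comm, dist_eq_norm] at this
    calc ‖star (PP s r ξ k) ζ‖ ≤ ‖star (PP s r ξ k) (ζ - y ξ)‖ + ‖star (PP s r ξ k) (y ξ)‖ := by
          rw [h6]; exact norm_add_le _ _
      _ ≤ ‖ζ - y ξ‖ + ‖star (PP s r ξ k) (y ξ)‖ := by gcongr; exact hnormP k _
      _ < ε / 2 + ε / 2 := add_lt_add h7 h5
      _ = ε := add_halves ε
  -- summability
  have hsq : ∀ (n : ℕ) (ζ : H), ∑ k ∈ Finset.range n, ‖star (ww s r ξ k) ζ‖ ^ 2 ≤ ‖ζ‖ ^ 2 := by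
    intro n ζ
    have e0 : ∀ a : H →L[ℂ] H, ((‖star a ζ‖ : ℂ)) ^ 2 = ⟪ζ, (a * star a) ζ⟫_ℂ := by
      intro a
      have e1 : ((‖star a ζ‖ : ℂ)) ^ 2 = ⟪star a ζ, star a ζ⟫_ℂ :=
        (inner_self_eq_norm_sq_to_K (𝕜 := ℂ) (star a ζ)).symm
      rw [e1, ContinuousLinearMap.star_eq_adjoint, ContinuousLinearMap.adjoint_inner_left]
      rfl
    have e3 : ((‖ζ‖ : ℂ)) ^ 2 = ⟪ζ, ζ⟫_ℂ := (inner_self_eq_norm_sq_to_K (𝕜 := ℂ) ζ).symm
    have e4 : (∑ k ∈ Finset.range n, ((‖star (ww s r ξ k) ζ‖ : ℂ)) ^ 2) +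
        ((‖star (PP s r ξ n) ζ‖ : ℂ)) ^ 2 = ((‖ζ‖ : ℂ)) ^ 2 := by
      rw [Finset.sum_congr rfl fun k _ => e0 (ww s r ξ k), e0, ← inner_sum, e3,
        ← _root_.sum_apply, hsum, ← inner_add_right, ← _root_.add_apply,
        sub_add_cancel]
      rfl
    have e5 : (∑ k ∈ Finset.range n, ‖star (ww s r ξ k) ζ‖ ^ 2) +
        ‖star (PP s r ξ n) ζ‖ ^ 2 = ‖ζ‖ ^ 2 := by exact_mod_cast e4
    nlinarith [sq_nonneg ‖star (PP s r ξ n) ζ‖]
  refine ⟨ww s r ξ, ⟨hww, horth, fun ζ => ?_⟩, fun k => mul_mem (hmem k) (hpair k).m2⟩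
  have hS : Summable fun k => ww s r ξ k (star (ww s r ξ k) ζ) := by
    let V : ℕ → (H →ₗᵢ[ℂ] H) := fun k => ⟨(ww s r ξ k).toLinearMap, fun v => norm_iso (hww k) v⟩
    have hV : OrthogonalFamily ℂ (fun _ : ℕ => H) V := by
      intro i j hij v w
      show ⟪ww s r ξ i v, ww s r ξ j w⟫_ℂ = 0
      rw [← ContinuousLinearMap.adjoint_inner_right, ← ContinuousLinearMap.star_eq_adjoint]
      have : star (ww s r ξ i) (ww s r ξ j w) = (star (ww s r ξ i) * ww s r ξ j) w := rfl
      rw [this, horth i j hij]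
      simp
    have := (hV.summable_iff_norm_sq_summable (fun k => star (ww s r ξ k) ζ)).2
      (summable_of_sum_range_le (fun k => sq_nonneg _) (fun n => hsq n ζ))
    exact this
  have hlim : Tendsto (fun n => ∑ k ∈ Finset.range n, ww s r ξ k (star (ww s r ξ k) ζ)) atTop
      (𝓝 ζ) := by
    have e1 : ∀ n, ∑ k ∈ Finset.range n, ww s r ξ k (star (ww s r ξ k) ζ) =
        ζ - PP s r ξ n (star (PP s r ξ n) ζ) := by
      intro n
      have := congrArg (fun T : H →L[ℂ] H => T ζ) (hsum n)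
      simp only [_root_.sum_apply] at this
      exact this
    have e2 : Tendsto (fun n => PP s r ξ n (star (PP s r ξ n) ζ)) atTop (𝓝 0) := by
      rw [tendsto_zero_iff_norm_tendsto_zero]
      have := (tendsto_zero_iff_norm_tendsto_zero.1 (hall ζ))
      exact this.congr fun n => (norm_iso (hPP n) _).symm
    have e3 := (tendsto_const_nhds (x := ζ)).sub e2
    rw [sub_zero] at e3
    exact e3.congr fun n => (e1 n).symm
  have := hS.hasSum
  rwa [tendsto_nhds_unique this.tendsto_sum_nat hlim] at this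

end Pool.Agent.H255.BC.G_cun
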