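import Pool.Agent.H255.BC.Defs5
import Pool.Graph.R_pool_sql_team_seeded_f72693b1.W509.CB.E3
import Pool.Graph.R_pool_sql_team_seeded_f72693b1.W132.CB.E1

set_option autoImplicit false

open MeasureTheory Filter Topology Complex
open scoped InnerProductSpace ENNReal

namespace Pool.Agent.H255.BC.G_dex

open Pool.Agent.W662.CB Pool.Agent.H255.BC Pool.Agent.W132.CB

noncomputable section

variable {H : Type} [NormedAddCommGroup H] [InnerProductSpace ℂ H] [CompleteSpace H]

/-! ### Translations -/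

/-- the translations `(R t f)(s) = f (s - t)` -/
def R (t : ℝ) : LR H →L[ℂ] LR H := (Pool.Agent.W509.CB.Rt H t).toContinuousLinearMap

lemma R_shift (t : ℝ) : IsShift t (R (H := H) t) := Pool.Agent.W509.CB.Rt_shift t

lemma R_norm (t : ℝ) (F : LR H) : ‖R t F‖ = ‖F‖ := (Pool.Agent.W509.CB.Rt H t).norm_map F

lemma R_cont (F : LR H) : Continuous fun t : ℝ => R t F := by
  have h : Continuous fun t : ℝ => Lp.compMeasurePreserving
      ((fun t : ℝ => (⟨fun s : ℝ => s - t, by fun_prop⟩ : C(ℝ, ℝ))) t)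
      (measurePreserving_sub_right volume t) F := by
    refine Continuous.compMeasurePreservingLp (continuous_const (y := F)) ?_
      (fun t => measurePreserving_sub_right volume t) (by norm_num)
    exact ContinuousMap.continuous_of_continuous_uncurry _ (by
      change Continuous fun p : ℝ × ℝ => p.2 - p.1
      fun_prop)
  exact h

lemma R_ae (t : ℝ) (F : LR H) : (R (-t) F : ℝ → H) =ᵐ[volume] fun s => F (s + t) := by
  filter_upwards [R_shift (-t) F] with s hs
  rw [hs, sub_neg_eq_add]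

omit [NormedAddCommGroup H] [InnerProductSpace ℂ H] [CompleteSpace H] in
theorem ae_shift {f g : ℝ → H} (h : f =ᵐ[volume] g) (t : ℝ) :
    (fun s => f (s + t)) =ᵐ[volume] fun s => g (s + t) :=
  (measurePreserving_add_right (volume : Measure ℝ) t).quasiMeasurePreserving.ae_eq_comp h

/-! ### The unitaries `V_t` -/

/-- `(V_t f)(s) = U_t f(s + t)` -/
def V (U : ℝ → H →L[ℂ] H) (t : ℝ) : LR H →L[ℂ] LR H := kap (U t) * R (-t)

lemma V_dual (U : ℝ → H →L[ℂ] H) (t : ℝ) : IsDual U t (V U t) := fun F => by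
  filter_upwards [isConst_kap (U t) (R (-t) F), R_ae t F] with s h1 h2
  rw [← h2]
  exact h1

lemma dual_unique {U : ℝ → H →L[ℂ] H} {t : ℝ} {S S' : LR H →L[ℂ] LR H} (h : IsDual U t S)
    (h' : IsDual U t S') : S = S' := by
  ext1 f
  exact Lp.ext ((h f).trans (h' f).symm)

section

variable {M : VonNeumannAlgebra H} {ξ : H} {U : ℝ → H →L[ℂ] H}

lemma Umul (hU : IsModular M ξ U) (t : ℝ) : U t * U (-t) = 1 := by
  rw [← hU.add, add_neg_cancel, hU.zero]

lemma Umul' (hU : IsModular M ξ U) (t : ℝ) : U (-t) * U t = 1 := by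
  rw [← hU.add, neg_add_cancel, hU.zero]

lemma Uinv (hU : IsModular M ξ U) (t : ℝ) (v : H) : U (-t) (U t v) = v :=
  congrArg (fun S : H →L[ℂ] H => S v) (Umul' hU t)

lemma U_inner (hU : IsModular M ξ U) (t : ℝ) (v w : H) : ⟪U t v, U t w⟫_ℂ = ⟪v, w⟫_ℂ := by
  have h : star (U t) * U t = 1 := by
    rw [hU.star_eq, ← hU.add, neg_add_cancel, hU.zero]
  have h2 : star (U t) (U t w) = w := congrArg (fun S : H →L[ℂ] H => S w) h
  rw [← ContinuousLinearMap.adjoint_inner_right, ← ContinuousLinearMap.star_eq_adjoint, h2]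

lemma U_norm (hU : IsModular M ξ U) (t : ℝ) (v : H) : ‖U t v‖ = ‖v‖ := by
  have h := U_inner hU t v v
  rw [inner_self_eq_norm_sq_to_K, inner_self_eq_norm_sq_to_K] at h
  have h2 : ‖U t v‖ ^ 2 = ‖v‖ ^ 2 := by exact_mod_cast h
  exact (pow_left_inj₀ (norm_nonneg _) (norm_nonneg _) two_ne_zero).1 h2

lemma kap_inner (hU : IsModular M ξ U) (t : ℝ) (F G : LR H) :
    ⟪kap (U t) F, kap (U t) G⟫_ℂ = ⟪F, G⟫_ℂ := by
  rw [L2.inner_def, L2.inner_def]
  apply integral_congr_ae
  filter_upwards [isConst_kap (U t) F, isConst_kap (U t) G] with s h1 h2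
  rw [h1, h2, U_inner hU]

lemma kap_norm (hU : IsModular M ξ U) (t : ℝ) (F : LR H) : ‖kap (U t) F‖ = ‖F‖ := by
  have h := kap_inner hU t F F
  rw [inner_self_eq_norm_sq_to_K, inner_self_eq_norm_sq_to_K] at h
  have h2 : ‖kap (U t) F‖ ^ 2 = ‖F‖ ^ 2 := by exact_mod_cast h
  exact (pow_left_inj₀ (norm_nonneg _) (norm_nonneg _) two_ne_zero).1 h2

/-- weak continuity -/
lemma kap_weak (hU : IsModular M ξ U) (F G : LR H) :
    Continuous fun t : ℝ => ⟪G, kap (U t) F⟫_ℂ := by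
  have h1 : (fun t : ℝ => ⟪G, kap (U t) F⟫_ℂ) = fun t : ℝ => ∫ s : ℝ, ⟪(G s : H), U t (F s)⟫_ℂ := by
    funext t
    rw [L2.inner_def]
    apply integral_congr_ae
    filter_upwards [isConst_kap (U t) F] with s hs
    rw [hs]
  rw [h1]
  refine continuous_of_dominated (bound := fun s => ‖(G s : H)‖ * ‖(F s : H)‖) ?_ ?_ ?_ ?_
  · intro t
    exact (Lp.aestronglyMeasurable G).inner
      ((U t).continuous.comp_aestronglyMeasurable (Lp.aestronglyMeasurable F))
  · intro t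
    refine Eventually.of_forall fun s => ?_
    exact (norm_inner_le_norm _ _).trans (by rw [U_norm hU])
  · exact MemLp.integrable_mul (Lp.memLp G).norm (Lp.memLp F).norm
  · refine Eventually.of_forall fun s => ?_
    exact continuous_const.inner (hU.cont _)

lemma kap_cont (hU : IsModular M ξ U) (F : LR H) : Continuous fun t : ℝ => kap (U t) F := by
  rw [continuous_iff_continuousAt]
  intro t₀
  rw [ContinuousAt, tendsto_iff_norm_sub_tendsto_zero]
  have h1 : ∀ t, ‖kap (U t) F - kap (U t₀) F‖ ^ 2 =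
      2 * ‖F‖ ^ 2 - 2 * RCLike.re ⟪kap (U t₀) F, kap (U t) F⟫_ℂ := by
    intro t
    rw [norm_sub_rev, norm_sub_sq (𝕜 := ℂ), kap_norm hU, kap_norm hU]
    ring
  have h2 : Tendsto (fun t => ‖kap (U t) F - kap (U t₀) F‖ ^ 2) (𝓝 t₀) (𝓝 0) := by
    simp_rw [h1]
    have h3 := ((kap_weak hU F (kap (U t₀) F)).tendsto t₀)
    have h4 : Tendsto (fun t => RCLike.re ⟪kap (U t₀) F, kap (U t) F⟫_ℂ) (𝓝 t₀) (𝓝 (‖F‖ ^ 2)) := by
      have h5 := (RCLike.continuous_re (K := ℂ)).tendsto _ |>.comp h3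
      have h6 : RCLike.re ⟪kap (U t₀) F, kap (U t₀) F⟫_ℂ = ‖F‖ ^ 2 := by
        rw [inner_self_eq_norm_sq, kap_norm hU]
      rw [h6] at h5
      exact h5
    have h7 := (tendsto_const_nhds (x := 2 * ‖F‖ ^ 2)).sub (h4.const_mul 2)
    rw [sub_self] at h7
    exact h7
  have h3 : Tendsto (fun t => Real.sqrt (‖kap (U t) F - kap (U t₀) F‖ ^ 2)) (𝓝 t₀)
      (𝓝 (Real.sqrt 0)) := h2.sqrt
  rw [Real.sqrt_zero] at h3
  refine h3.congr fun t => ?_
  rw [Real.sqrt_sq (norm_nonneg _)]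

/-- a strongly continuous family of isometries is jointly continuous -/
lemma joint {K L : Type} [NormedAddCommGroup K] [NormedAddCommGroup L] [NormedSpace ℂ K]
    [NormedSpace ℂ L] (A : ℝ → K →L[ℂ] L) (hA : ∀ t F, ‖A t F‖ = ‖F‖)
    (hc : ∀ F, Continuous fun t => A t F) (f : ℝ → K) (hf : Continuous f) :
    Continuous fun t => A t (f t) := by
  rw [continuous_iff_continuousAt]
  intro t₀
  rw [ContinuousAt, tendsto_iff_norm_sub_tendsto_zero]
  have h1 : Tendsto (fun t => ‖f t - f t₀‖ + ‖A t (f t₀) - A t₀ (f t₀)‖) (𝓝 t₀) (𝓝 (0 + 0)) :=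
    (tendsto_iff_norm_sub_tendsto_zero.1 (hf.tendsto t₀)).add
      (tendsto_iff_norm_sub_tendsto_zero.1 ((hc (f t₀)).tendsto t₀))
  rw [add_zero] at h1
  refine squeeze_zero (fun t => norm_nonneg _) (fun t => ?_) h1
  have h2 : A t (f t) - A t₀ (f t₀) = A t (f t - f t₀) + (A t (f t₀) - A t₀ (f t₀)) := by
    rw [map_sub]; abel
  rw [h2]
  refine (norm_add_le _ _).trans (le_of_eq ?_)
  rw [hA]

lemma V_cont (hU : IsModular M ξ U) (f : ℝ → LR H) (hf : Continuous f) :
    Continuous fun t => V U t (f t) := by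
  have h1 : Continuous fun t : ℝ => R (-t) (f t) := by
    refine joint (fun t => R (-t)) (fun t F => R_norm _ F) (fun F => ?_) f hf
    exact (R_cont F).comp continuous_neg
  exact joint (fun t => kap (U t)) (fun t F => kap_norm hU t F) (fun F => kap_cont hU F) _ h1

lemma V_add (hU : IsModular M ξ U) (s t : ℝ) : V U (s + t) = V U s * V U t := by
  apply dual_unique (V_dual U (s + t))
  intro f
  have h1 := V_dual U s (V U t f)
  have h2 := ae_shift (V_dual U t f) s
  filter_upwards [h1, h2] with r h3 h4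
  change (V U s (V U t f) : ℝ → H) r = _
  rw [h3, h4, hU.add, mul_apply_eq_comp, add_assoc]

lemma V_zero (hU : IsModular M ξ U) : V U 0 = 1 := by
  apply dual_unique (V_dual U 0)
  intro f
  refine Eventually.of_forall fun r => ?_
  simp [hU.zero]

lemma V_inv (hU : IsModular M ξ U) (t : ℝ) : V U (-t) * V U t = 1 := by
  rw [← V_add hU, neg_add_cancel, V_zero hU]

lemma V_inv' (hU : IsModular M ξ U) (t : ℝ) : V U t * V U (-t) = 1 := by
  rw [← V_add hU, add_neg_cancel, V_zero hU]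

lemma V_star (hU : IsModular M ξ U) (t : ℝ) : star (V U t) = V U (-t) := by
  have h : star (V U t) * V U t = 1 := by
    ext1 f
    apply ext_inner_left ℂ
    intro g
    rw [mul_apply_eq_comp, ContinuousLinearMap.star_eq_adjoint,
      ContinuousLinearMap.adjoint_inner_right, one_apply_eq_self]
    unfold V
    rw [mul_apply_eq_comp, mul_apply_eq_comp, kap_inner hU]
    exact (Pool.Agent.W509.CB.Rt H (-t)).inner_map_map _ _
  calc star (V U t) = star (V U t) * (V U t * V U (-t)) := by rw [V_inv' hU, mul_one]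
    _ = V U (-t) := by rw [← mul_assoc, h, one_mul]

end

/-! ### Transport by a unitary -/

/-- `Z⁻¹ X Z` -/
def cj (Z : H ≃ₗᵢ[ℂ] LR H) (X : LR H →L[ℂ] LR H) : H →L[ℂ] H :=
  (Z.symm.toContinuousLinearEquiv : LR H →L[ℂ] H) ∘L X ∘L
    (Z.toContinuousLinearEquiv : H →L[ℂ] LR H)

lemma cj_apply (Z : H ≃ₗᵢ[ℂ] LR H) (X : LR H →L[ℂ] LR H) (ζ : H) :
    cj Z X ζ = Z.symm (X (Z ζ)) := rfl

lemma cj_mul (Z : H ≃ₗᵢ[ℂ] LR H) (X Y : LR H →L[ℂ] LR H) : cj Z (X * Y) = cj Z X * cj Z Y := by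
  ext ζ
  simp [cj_apply]

lemma cj_one (Z : H ≃ₗᵢ[ℂ] LR H) : cj Z 1 = 1 := by
  ext ζ
  simp [cj_apply]

lemma cj_add (Z : H ≃ₗᵢ[ℂ] LR H) (X Y : LR H →L[ℂ] LR H) : cj Z (X + Y) = cj Z X + cj Z Y := by
  ext ζ
  simp [cj_apply]

lemma cj_smul (Z : H ≃ₗᵢ[ℂ] LR H) (c : ℂ) (X : LR H →L[ℂ] LR H) :
    cj Z (c • X) = c • cj Z X := by
  ext ζ
  simp [cj_apply]

lemma cj_star (Z : H ≃ₗᵢ[ℂ] LR H) (X : LR H →L[ℂ] LR H) : cj Z (star X) = star (cj Z X) := by
  ext1 v
  apply ext_inner_right ℂ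
  intro w
  rw [ContinuousLinearMap.star_eq_adjoint (cj Z X), ContinuousLinearMap.adjoint_inner_left,
    cj_apply, cj_apply, ← Z.inner_map_map, Z.apply_symm_apply,
    ContinuousLinearMap.star_eq_adjoint, ContinuousLinearMap.adjoint_inner_left,
    ← Z.inner_map_map v, Z.apply_symm_apply]

/-! ### Commutation relations -/

section

variable {M : VonNeumannAlgebra H} {ξ : H} {U : ℝ → H →L[ℂ] H}

lemma sgm_eq (hU : IsModular M ξ U) (t : ℝ) (x : H →L[ℂ] H) : sgm U t x = U t * x * U (-t) := by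
  rw [sgm, hU.star_eq]

lemma sgm_sgm (hU : IsModular M ξ U) (t : ℝ) (x : H →L[ℂ] H) : sgm U t (sgm U (-t) x) = x := by
  rw [sgm_eq hU, sgm_eq hU, neg_neg]
  calc U t * (U (-t) * x * U t) * U (-t) = (U t * U (-t)) * x * (U t * U (-t)) := by
        simp only [mul_assoc]
    _ = x := by rw [Umul hU, one_mul, mul_one]

lemma sgm_mul (hU : IsModular M ξ U) (t : ℝ) (x y : H →L[ℂ] H) :
    sgm U t (x * y) = sgm U t x * sgm U t y := by
  rw [sgm_eq hU, sgm_eq hU, sgm_eq hU]
  calc U t * (x * y) * U (-t) = U t * x * 1 * (y * U (-t)) := by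
        simp only [mul_assoc, one_mul]
    _ = U t * x * (U (-t) * U t) * (y * U (-t)) := by rw [Umul' hU]
    _ = _ := by simp only [mul_assoc]

lemma sgm_one (hU : IsModular M ξ U) (t : ℝ) : sgm U t 1 = 1 := by
  rw [sgm_eq hU, mul_one, Umul hU]

lemma sgm_add (hU : IsModular M ξ U) (t : ℝ) (x y : H →L[ℂ] H) :
    sgm U t (x + y) = sgm U t x + sgm U t y := by
  rw [sgm_eq hU, sgm_eq hU, sgm_eq hU, mul_add, add_mul]

lemma V_kap (hU : IsModular M ξ U) (t : ℝ) (y : H →L[ℂ] H) :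
    V U t * kap y = kap (sgm U t y) * V U t := by
  ext1 f
  apply Lp.ext
  have h1 := V_dual U t (kap y f)
  have h2 := ae_shift (isConst_kap y f) t
  have h3 := isConst_kap (sgm U t y) (V U t f)
  have h4 := V_dual U t f
  filter_upwards [h1, h2, h3, h4] with s a1 a2 a3 a4
  change (V U t (kap y f) : ℝ → H) s = (kap (sgm U t y) (V U t f) : ℝ → H) s
  rw [a1, a2, a3, a4, sgm_eq hU]
  change U t (y (f (s + t))) = U t (y (U (-t) (U t (f (s + t)))))
  rw [Uinv hU]

lemma comm_mem {N : VonNeumannAlgebra H} (hU : IsModular M ξ U)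
    (hmod : ∀ (t : ℝ) (x : H →L[ℂ] H), x ∈ N → sgm U t x ∈ N) (t : ℝ) {y : H →L[ℂ] H}
    (hy : y ∈ N.commutant) : sgm U t y ∈ N.commutant := by
  rw [VonNeumannAlgebra.mem_commutant_iff] at hy ⊢
  intro x hx
  have h := hy _ (hmod (-t) x hx)
  rw [sgm_eq hU, neg_neg] at h
  rw [sgm_eq hU]
  calc x * (U t * y * U (-t)) = 1 * x * (U t * y * U (-t)) := by rw [one_mul]
    _ = (U t * U (-t)) * x * (U t * y * U (-t)) := by rw [Umul hU]
    _ = U t * (U (-t) * x * U t * y) * U (-t) := by simp only [mul_assoc]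
    _ = U t * (y * (U (-t) * x * U t)) * U (-t) := by rw [h]
    _ = U t * y * U (-t) * x * (U t * U (-t)) := by simp only [mul_assoc]
    _ = U t * y * U (-t) * x := by rw [Umul hU, mul_one]

/-! ### The operators `π_σ(x)` -/

lemma sig_unique {x : H →L[ℂ] H} {S S' : LR H →L[ℂ] LR H} (h : IsSig U x S)
    (h' : IsSig U x S') : S = S' := by
  ext1 f
  exact Lp.ext ((h f).trans (h' f).symm)

lemma sig_mul (hU : IsModular M ξ U) {x y : H →L[ℂ] H} {S T : LR H →L[ℂ] LR H}
    (h : IsSig U x S) (h' : IsSig U y T) : IsSig U (x * y) (S * T) := by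
  intro f
  filter_upwards [h (T f), h' f] with s a1 a2
  change (S (T f) : ℝ → H) s = _
  rw [a1, a2, sgm_mul hU]
  rfl

lemma sig_one (hU : IsModular M ξ U) : IsSig U 1 (1 : LR H →L[ℂ] LR H) := by
  intro f
  refine Eventually.of_forall fun s => ?_
  change (f : ℝ → H) s = sgm U (-s) 1 (f s)
  rw [sgm_one hU]
  rfl

lemma sig_add (hU : IsModular M ξ U) {x y : H →L[ℂ] H} {S T : LR H →L[ℂ] LR H}
    (h : IsSig U x S) (h' : IsSig U y T) : IsSig U (x + y) (S + T) := by
  intro f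
  filter_upwards [h f, h' f, Lp.coeFn_add (S f) (T f)] with s a1 a2 a3
  change (S f + T f : LR H) s = _
  rw [a3, Pi.add_apply, a1, a2, sgm_add hU]
  rfl

/-! ### The unitaries `u_lam` -/

lemma ulam_kap {lam : ℝ} {S : LR H →L[ℂ] LR H} (h : IsULam lam S) (y : H →L[ℂ] H) :
    S * kap y = kap y * S := by
  ext1 f
  apply Lp.ext
  filter_upwards [h (kap y f), isConst_kap y f, isConst_kap y (S f), h f] with s a1 a2 a3 a4
  change (S (kap y f) : ℝ → H) s = (kap y (S f) : ℝ → H) s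
  rw [a1, a2, a3, a4, map_smul]

lemma ulam_V {lam : ℝ} {S : LR H →L[ℂ] LR H} (h : IsULam lam S) (t : ℝ) :
    V U t * S = (cexp (-(I * ((t * Real.log lam : ℝ) : ℂ))) • S) * V U t := by
  ext1 f
  apply Lp.ext
  filter_upwards [V_dual U t (S f), ae_shift (h f) t, h (V U t f), V_dual U t f,
    Lp.coeFn_smul (cexp (-(I * ((t * Real.log lam : ℝ) : ℂ)))) (S (V U t f))]
    with s a1 a2 a3 a4 a5
  change (V U t (S f) : ℝ → H) s =
    (cexp (-(I * ((t * Real.log lam : ℝ) : ℂ))) • S (V U t f) : LR H) s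
  rw [a1, a2, a5, Pi.smul_apply, a3, a4, map_smul, smul_smul, ← Complex.exp_add]
  congr 2
  push_cast
  ring

end

theorem r (h1 : S_cun) (h2 : S_Z0) (h3 : S_ops) (h4 : S_gen) : S_dex := by
  intro H _ _ _ N M ξ U J E hI hT
  have hU := hI.modular
  have hsep : IsSeparating N ξ := fun x hx h => hI.sep x (hI.le x hx) h
  -- the isometries
  obtain ⟨p, hpN, hpp, hps, hp0, hp1⟩ := hT.nontriv
  obtain ⟨s, hsN, hs1, hs2⟩ := hT.equiv p hpN hpp hps hp0
  have h1N : (1 : H →L[ℂ] H) ∈ N := one_mem N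
  have hqN : 1 - p ∈ N := sub_mem h1N hpN
  have hqq : (1 - p) * (1 - p) = 1 - p := by
    rw [mul_sub, sub_mul, sub_mul, hpp, mul_one, one_mul, mul_one, sub_self, sub_zero]
  have hqs : star (1 - p) = 1 - p := by rw [star_sub, star_one, hps]
  obtain ⟨r, hrN, hr1, hr2⟩ := hT.equiv (1 - p) hqN hqq hqs (sub_ne_zero.2 (Ne.symm hp1))
  have hsum : s * star s + r * star r = 1 := by
    rw [hs2, hr2]
    abel
  obtain ⟨w, hw, hwcl⟩ := h1 H N ξ s r hsep hsN hrN hs1 hr1 hsum
  have hwN : ∀ k, w k ∈ N := by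
    intro k
    refine Submonoid.closure_induction (motive := fun x _ => x ∈ N) ?_ h1N ?_ (hwcl k)
    · rintro x (rfl | rfl)
      · exact hsN
      · exact hrN
    · intro x y _ _ hx hy
      exact mul_mem hx hy
  obtain ⟨Z, hZ⟩ := h2 H w hw
  have hcomm : ∀ y : H →L[ℂ] H, y ∈ N.commutant → ∀ S : LR H →L[ℂ] LR H, IsConst y S →
      ∀ ζ : H, Z (y ζ) = S (Z ζ) := by
    intro y hy S hS
    refine hZ y (fun k => ?_) (fun k => ?_) S hS
    · rw [VonNeumannAlgebra.mem_commutant_iff] at hy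
      exact (hy _ (hwN k)).symm
    · have hy' : star y ∈ N.commutant := star_mem hy
      rw [VonNeumannAlgebra.mem_commutant_iff] at hy'
      exact (hy' _ (hwN k)).symm
  have hcj : ∀ y : H →L[ℂ] H, y ∈ N.commutant → cj Z (kap y) = y := by
    intro y hy
    ext1 ζ
    rw [cj_apply, ← hcomm y hy (kap y) (isConst_kap y), Z.symm_apply_apply]
  -- membership in `N`
  have hmemN : ∀ X : LR H →L[ℂ] LR H, (∀ y ∈ N.commutant, X * kap y = kap y * X) →
      cj Z X ∈ N := by
    intro X hX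
    rw [← N.commutant_commutant, VonNeumannAlgebra.mem_commutant_iff]
    intro y hy
    calc y * cj Z X = cj Z (kap y) * cj Z X := by rw [hcj y hy]
      _ = cj Z (X * kap y) := by rw [← cj_mul, hX y hy]
      _ = cj Z X * y := by rw [cj_mul, hcj y hy]
  -- the unitaries `G t`
  have hG : ∀ t, cj Z (V U (-t)) * cj Z (V U t) = 1 := fun t => by
    rw [← cj_mul, V_inv hU, cj_one]
  have hG' : ∀ t, cj Z (V U t) * cj Z (V U (-t)) = 1 := fun t => by
    rw [← cj_mul, V_inv' hU, cj_one]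
  have hGs : ∀ t, star (cj Z (V U t)) = cj Z (V U (-t)) := fun t => by
    rw [← cj_star, V_star hU]
  have hGy : ∀ (t : ℝ) (y : H →L[ℂ] H), y ∈ N.commutant →
      cj Z (V U t) * y = sgm U t y * cj Z (V U t) := by
    intro t y hy
    calc cj Z (V U t) * y = cj Z (V U t) * cj Z (kap y) := by rw [hcj y hy]
      _ = cj Z (kap (sgm U t y) * V U t) := by rw [← cj_mul, V_kap hU]
      _ = sgm U t y * cj Z (V U t) := by
          rw [cj_mul, hcj _ (comm_mem hU hI.mod t hy)]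
  let v : ℝ → H →L[ℂ] H := fun t => cj Z (V U t) * U (-t)
  have hv : ∀ t, v t = cj Z (V U t) * U (-t) := fun _ => rfl
  have hvs : ∀ t, star (v t) = U t * cj Z (V U (-t)) := fun t => by
    rw [hv, star_mul, hU.star_eq, neg_neg, hGs]
  have hsgw : ∀ (t : ℝ) (x : H →L[ℂ] H), sgw U v t x = cj Z (V U t) * x * cj Z (V U (-t)) := by
    intro t x
    rw [sgw, hvs, hv, sgm_eq hU]
    calc cj Z (V U t) * U (-t) * (U t * x * U (-t)) * (U t * cj Z (V U (-t))) =
        cj Z (V U t) * (U (-t) * U t) * x * (U (-t) * U t) * cj Z (V U (-t)) := by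
          simp only [mul_assoc]
      _ = _ := by rw [Umul' hU, mul_one, mul_one]
  have hcoc : IsCocycle N U v := by
    refine ⟨fun t => ?_, fun t => ?_, fun t => ?_, fun ζ => ?_, fun a b => ?_⟩
    · rw [← N.commutant_commutant, VonNeumannAlgebra.mem_commutant_iff]
      intro y hy
      have h5 := hGy t _ (comm_mem hU hI.mod (-t) hy)
      rw [sgm_sgm hU] at h5
      have h6 : U (-t) * y = sgm U (-t) y * U (-t) := by
        rw [sgm_eq hU, neg_neg, mul_assoc, Umul hU, mul_one]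
      rw [hv, mul_assoc (cj Z (V U t)), h6, ← mul_assoc (cj Z (V U t)), h5, mul_assoc]
    · rw [hvs, hv]
      calc U t * cj Z (V U (-t)) * (cj Z (V U t) * U (-t)) =
          U t * (cj Z (V U (-t)) * cj Z (V U t)) * U (-t) := by simp only [mul_assoc]
        _ = 1 := by rw [hG, mul_one, Umul hU]
    · rw [hvs, hv]
      calc cj Z (V U t) * U (-t) * (U t * cj Z (V U (-t))) =
          cj Z (V U t) * (U (-t) * U t) * cj Z (V U (-t)) := by simp only [mul_assoc]
        _ = 1 := by rw [Umul' hU, mul_one, hG']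
    · have h5 : Continuous fun t : ℝ => Z (U (-t) ζ) :=
        Z.continuous.comp ((hU.cont ζ).comp continuous_neg)
      exact Z.symm.continuous.comp (V_cont hU _ h5)
    · rw [hv, hv, hv, sgm_eq hU, V_add hU, cj_mul, neg_add_rev, hU.add]
      calc cj Z (V U a) * cj Z (V U b) * (U (-b) * U (-a)) =
          cj Z (V U a) * 1 * cj Z (V U b) * (U (-b) * U (-a)) := by rw [mul_one]
        _ = cj Z (V U a) * (U (-a) * U a) * cj Z (V U b) * (U (-b) * U (-a)) := by
            rw [Umul' hU]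
        _ = cj Z (V U a) * U (-a) * (U a * (cj Z (V U b) * U (-b)) * U (-a)) := by
            simp only [mul_assoc]
  -- the centralizer
  have hcen : ∀ X ∈ Cen N U, cj Z X ∈ wCen N U v := by
    rintro X ⟨hX1, hX2⟩
    refine ⟨hmemN X fun y hy => hX1 y hy _ (isConst_kap y), fun t => ?_⟩
    rw [hsgw, ← cj_mul, ← hX2 t _ (V_dual U t), cj_mul, mul_assoc, hG', mul_one]
  obtain ⟨-, hsig, -, -, -, hulam⟩ := h3 H M ξ U hU
  obtain ⟨hgen, -⟩ := h4 H N M ξ U J E hI
  refine ⟨v, Z, ⟨hcoc, ?_, ?_⟩, hcomm, ?_⟩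
  · obtain ⟨S, hS, -, hS'⟩ := hsig s
    obtain ⟨T, hT, -, hT'⟩ := hsig r
    refine ⟨cj Z S, cj Z T, hcen S (hgen s hsN S hS), hcen T (hgen r hrN T hT), ?_, ?_, ?_⟩
    · rw [← cj_star, ← cj_mul, ← cj_one Z]
      congr 1
      have h5 := sig_mul hU hS' hS
      rw [hs1] at h5
      exact sig_unique h5 (sig_one hU)
    · rw [← cj_star, ← cj_mul, ← cj_one Z]
      congr 1
      have h5 := sig_mul hU hT' hT
      rw [hr1] at h5
      exact sig_unique h5 (sig_one hU)
    · rw [← cj_star, ← cj_star, ← cj_mul, ← cj_mul, ← cj_add, ← cj_one Z]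
      congr 1
      have h5 := sig_add hU (sig_mul hU hS hS') (sig_mul hU hT hT')
      rw [hsum] at h5
      exact sig_unique h5 (sig_one hU)
  · intro lam hlam
    obtain ⟨S, hS, hS1, hS2, -⟩ := hulam lam hlam
    refine ⟨cj Z S, hmemN S fun y _ => ulam_kap hS y, ?_, ?_, fun t => ?_⟩
    · rw [← cj_star, ← cj_mul, hS1, cj_one]
    · rw [← cj_star, ← cj_mul, hS2, cj_one]
    · rw [hsgw, ← cj_mul, ulam_V hS, cj_mul, cj_smul, mul_assoc, hG', mul_one]
  · intro t S hS ζ
    have h5 : V U t = S := dual_unique (V_dual U t) hS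
    rw [hv, ← h5]
    change Z (cj Z (V U t) (U (-t) (U t ζ))) = _
    rw [Uinv hU, cj_apply, Z.apply_symm_apply]

end

end Pool.Agent.H255.BC.G_dex
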