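import Pool.Agent.H255.BC.Defs5

set_option autoImplicit false

open MeasureTheory Filter Topology Complex
open scoped InnerProductSpace ENNReal

namespace Pool.Agent.H255.BC.G_mis

open Pool.Agent.W662.CB Pool.Agent.H255.BC

section cm

/-- measurable functions with countable range -/
def CM {X : Type*} (g : ℝ → X) : Prop :=
  (Set.range g).Countable ∧ ∀ x, MeasurableSet (g ⁻¹' {x})

theorem CM.preimage {X : Type*} {g : ℝ → X} (hg : CM g) (S : Set X) : MeasurableSet (g ⁻¹' S) := by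
  have e : g ⁻¹' S = ⋃ x ∈ Set.range g ∩ S, g ⁻¹' {x} := by
    ext p
    simp only [Set.mem_preimage, Set.mem_iUnion, Set.mem_inter_iff, Set.mem_range,
      Set.mem_singleton_iff, exists_prop]
    constructor
    · intro h
      exact ⟨g p, ⟨⟨p, rfl⟩, h⟩, rfl⟩
    · rintro ⟨x, ⟨-, hx⟩, h⟩
      rw [h]
      exact hx
  rw [e]
  exact MeasurableSet.biUnion (hg.1.mono Set.inter_subset_left) fun x _ => hg.2 x

theorem CM.comp {X Y : Type*} {g : ℝ → X} (hg : CM g) (ψ : X → Y) : CM fun p => ψ (g p) := by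
  refine ⟨?_, fun y => ?_⟩
  · have e : Set.range (fun p => ψ (g p)) = ψ '' Set.range g := by
      rw [← Set.range_comp]
      rfl
    rw [e]
    exact hg.1.image ψ
  · exact hg.preimage (ψ ⁻¹' {y})

theorem CM.prod {X Y : Type*} {g : ℝ → X} {h : ℝ → Y} (hg : CM g) (hh : CM h) :
    CM fun p => (g p, h p) := by
  refine ⟨?_, fun y => ?_⟩
  · refine (hg.1.prod hh.1).mono ?_
    rintro _ ⟨p, rfl⟩
    exact ⟨⟨p, rfl⟩, ⟨p, rfl⟩⟩
  · have e : (fun p => (g p, h p)) ⁻¹' {y} = g ⁻¹' {y.1} ∩ h ⁻¹' {y.2} := by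
      ext p
      simp only [Set.mem_preimage, Set.mem_singleton_iff, Set.mem_inter_iff, Prod.ext_iff]
    rw [e]
    exact (hg.2 _).inter (hh.2 _)

theorem CM.floor (η : ℝ) : CM fun p : ℝ => ⌊p / η⌋ := by
  refine ⟨Set.to_countable _, fun x => ?_⟩
  have h1 : Measurable fun p : ℝ => ⌊p / η⌋ := (measurable_id.div_const η).floor
  exact h1 (measurableSet_singleton x)

theorem CM.strongly {X : Type*} {H : Type} [NormedAddCommGroup H] {g : ℝ → X} (hg : CM g)
    (ψ : X → H) : StronglyMeasurable fun p => ψ (g p) := by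
  borelize H
  rw [stronglyMeasurable_iff_measurable_separable]
  have h1 := hg.comp ψ
  exact ⟨fun S _ => h1.preimage S, h1.1.isSeparable⟩

end cm

section iso

variable {H : Type} [NormedAddCommGroup H] [InnerProductSpace ℂ H] [CompleteSpace H]
  {N : VonNeumannAlgebra H} {U v : ℝ → H →L[ℂ] H}

theorem wIso_exp {q : ℝ} {w : H →L[ℂ] H} : wIso N U v (Real.exp q) w ↔
    w ∈ N ∧ star w * w = 1 ∧ ∀ t : ℝ, sgw U v t w = cexp (-(I * ((t * q : ℝ) : ℂ))) • w := by
  unfold wIso
  rw [Real.log_exp]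

theorem sgw_mul {t : ℝ} (hU : star (U t) * U t = 1) (hv : star (v t) * v t = 1)
    (x y : H →L[ℂ] H) : sgw U v t (x * y) = sgw U v t x * sgw U v t y := by
  unfold sgw sgm
  have e : v t * (U t * x * star (U t)) * star (v t) * (v t * (U t * y * star (U t)) * star (v t)) =
      v t * (U t * x * (star (U t) * ((star (v t) * v t) * U t)) * y * star (U t)) * star (v t) := by
    simp only [mul_assoc]
  rw [e, hv, one_mul, hU, mul_one]
  simp only [mul_assoc]

theorem wIso_mul (hU : ∀ t, star (U t) * U t = 1) (hv : ∀ t, star (v t) * v t = 1) {p q : ℝ}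
    {a b : H →L[ℂ] H} (ha : wIso N U v (Real.exp p) a) (hb : wIso N U v (Real.exp q) b) :
    wIso N U v (Real.exp (p + q)) (a * b) := by
  rw [wIso_exp] at ha hb ⊢
  obtain ⟨a1, a2, a3⟩ := ha
  obtain ⟨b1, b2, b3⟩ := hb
  refine ⟨mul_mem a1 b1, ?_, fun t => ?_⟩
  · rw [star_mul, mul_assoc, ← mul_assoc (star a), a2, one_mul, b2]
  · rw [sgw_mul (hU t) (hv t), a3, b3, smul_mul_smul_comm, ← Complex.exp_add]
    congr 2
    push_cast
    ring

theorem norm_iso {w : H →L[ℂ] H} (hw : star w * w = 1) (ζ : H) : ‖w ζ‖ = ‖ζ‖ :=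
  (ContinuousLinearMap.norm_map_iff_adjoint_comp_self w).2 hw ζ

theorem wIso_lim {pn : ℕ → ℝ} {p : ℝ} {an : ℕ → H →L[ℂ] H} {a : H →L[ℂ] H}
    (hp : Tendsto pn atTop (𝓝 p)) (ha : ∀ ζ, Tendsto (fun n => an n ζ) atTop (𝓝 (a ζ)))
    (h : ∀ n, wIso N U v (Real.exp (pn n)) (an n)) : wIso N U v (Real.exp p) a := by
  have h' := fun n => wIso_exp.1 (h n)
  rw [wIso_exp]
  refine ⟨?_, ?_, fun t => ?_⟩
  · rw [← VonNeumannAlgebra.commutant_commutant N, VonNeumannAlgebra.mem_commutant_iff]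
    intro y hy
    rw [VonNeumannAlgebra.mem_commutant_iff] at hy
    ext ζ
    refine tendsto_nhds_unique (f := fun n => y (an n ζ)) (l := atTop) ?_ ?_
    · exact (y.continuous.tendsto _).comp (ha ζ)
    · have e : (fun n => y (an n ζ)) = fun n => an n (y ζ) := by
        funext n
        have := hy (an n) (h' n).1
        exact (DFunLike.congr_fun this ζ).symm
      rw [e]
      exact ha (y ζ)
  · apply (ContinuousLinearMap.norm_map_iff_adjoint_comp_self a).1
    intro ζ
    refine tendsto_nhds_unique (f := fun n => ‖an n ζ‖) (l := atTop) (ha ζ).norm ?_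
    have e : (fun n => ‖an n ζ‖) = fun _ => ‖ζ‖ := by
      funext n
      exact norm_iso (h' n).2.1 ζ
    rw [e]
    exact tendsto_const_nhds
  · ext ζ
    refine tendsto_nhds_unique (f := fun n => (sgw U v t (an n)) ζ) (l := atTop) ?_ ?_
    · have e : ∀ x : H →L[ℂ] H, (sgw U v t x) ζ = v t (U t (x (star (U t) (star (v t) ζ)))) :=
        fun x => rfl
      simp only [e]
      exact ((v t).continuous.tendsto _).comp (((U t).continuous.tendsto _).comp (ha _))
    · have e : (fun n => (sgw U v t (an n)) ζ) =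
          fun n => cexp (-(I * ((t * pn n : ℝ) : ℂ))) • an n ζ := by
        funext n
        rw [(h' n).2.2 t]
        rfl
      rw [e]
      refine Tendsto.smul ?_ (ha ζ)
      have hc : Continuous fun x : ℝ => cexp (-(I * ((t * x : ℝ) : ℂ))) := by fun_prop
      exact (hc.tendsto p).comp hp

end iso

/-- the main theorem -/
theorem r (h : S_opn) : S_mis := by
  intro H _ _ _ _ N U v hU hU' hdom
  have hcoc := hdom.toIsCocycle
  -- a dense sequence
  obtain ⟨d, hd⟩ : ∃ d : ℕ → H, DenseRange d := ⟨_, TopologicalSpace.denseRange_denseSeq H⟩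
  classical
  -- the thresholds
  have hδ : ∀ k : ℕ, ∃ δ : ℝ, 0 < δ ∧ ∀ p : ℝ, |p| < δ →
      ∃ w : H →L[ℂ] H, wIso N U v (Real.exp p) w ∧
        ∀ ζ ∈ (Finset.range (k + 1)).image d, ‖w ζ - ζ‖ < (1 / 2 : ℝ) ^ k := fun k =>
    h H N U v hU hU' hdom _ _ (by positivity)
  choose δ hδ0 hδ1 using hδ
  have hany : ∀ q : ℝ, ∃ w : H →L[ℂ] H, wIso N U v (Real.exp q) w := by
    intro q
    obtain ⟨u, h1, h2, -, h3⟩ := hdom.scale (Real.exp q) (Real.exp_pos q)
    exact ⟨u, h1, h2, h3⟩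
  have hw : ∀ (k : ℕ) (q : ℝ), ∃ w : H →L[ℂ] H, wIso N U v (Real.exp q) w ∧
      (|q| < δ k → ∀ ζ ∈ (Finset.range (k + 1)).image d, ‖w ζ - ζ‖ < (1 / 2 : ℝ) ^ k) := by
    intro k q
    by_cases hq : |q| < δ k
    · obtain ⟨w, h1, h2⟩ := hδ1 k q hq
      exact ⟨w, h1, fun _ => h2⟩
    · obtain ⟨w, h1⟩ := hany q
      exact ⟨w, h1, fun h' => absurd h' hq⟩
  choose w hw1 hw2 using hw
  -- the mesh sizes
  obtain ⟨η, hη0, hη1⟩ : ∃ η : ℕ → ℝ, η 0 = min (δ 0) 1 ∧ ∀ k, η (k + 1) = min (δ (k + 1)) (η k / 2) :=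
    ⟨fun k => Nat.rec (min (δ 0) 1) (fun k x => min (δ (k + 1)) (x / 2)) k, rfl, fun _ => rfl⟩
  have hηpos : ∀ k, 0 < η k := by
    intro k
    induction k with
    | zero => rw [hη0]; exact lt_min (hδ0 0) one_pos
    | succ k ih => rw [hη1]; exact lt_min (hδ0 _) (by linarith)
  have hηδ : ∀ k, η k ≤ δ k := by
    intro k
    cases k with
    | zero => rw [hη0]; exact min_le_left _ _
    | succ k => rw [hη1]; exact min_le_left _ _
  have hηhalf : ∀ k, η (k + 1) ≤ η k / 2 := fun k => by rw [hη1]; exact min_le_right _ _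
  have hηδ' : ∀ k, η (k + 1) ≤ δ k := fun k => by
    have h1 := hηhalf k
    have h2 := hηδ k
    have h3 := hηpos k
    linarith
  have hηpow : ∀ k, η k ≤ (1 / 2 : ℝ) ^ k := by
    intro k
    induction k with
    | zero => rw [hη0, pow_zero]; exact min_le_right _ _
    | succ k ih =>
      have h1 := hηhalf k
      rw [pow_succ]
      linarith
  -- the grid points
  obtain ⟨g, hg⟩ : ∃ g : ℕ → ℝ → ℝ, ∀ k p, g k p = η k * ⌊p / η k⌋ := ⟨_, fun _ _ => rfl⟩
  have hg1 : ∀ k p, 0 ≤ p - g k p ∧ p - g k p < η k := by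
    intro k p
    have h1 := Int.floor_le (p / η k)
    have h2 := Int.lt_floor_add_one (p / η k)
    rw [le_div_iff₀ (hηpos k)] at h1
    rw [div_lt_iff₀ (hηpos k)] at h2
    rw [hg]
    constructor <;> linarith
  have hgCM : ∀ k, CM (g k) := by
    intro k
    have h1 := (CM.floor (η k)).comp fun x : ℤ => η k * (x : ℝ)
    have e : g k = fun p => η k * (⌊p / η k⌋ : ℝ) := by
      funext p
      exact hg k p
    rw [e]
    exact h1
  have hgdiff : ∀ k p, |g (k + 1) p - g k p| < δ k := by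
    intro k p
    obtain ⟨h1, h2⟩ := hg1 k p
    obtain ⟨h3, h4⟩ := hg1 (k + 1) p
    have h5 := hηδ k
    have h6 := hηδ' k
    rw [abs_lt]
    constructor <;> linarith
  have hglim : ∀ p, Tendsto (fun k => g k p) atTop (𝓝 p) := by
    intro p
    have h1 : Tendsto (fun k : ℕ => (1 / 2 : ℝ) ^ k) atTop (𝓝 0) :=
      tendsto_pow_atTop_nhds_zero_of_lt_one (by norm_num) (by norm_num)
    rw [tendsto_iff_dist_tendsto_zero]
    refine squeeze_zero (fun _ => dist_nonneg) (fun k => ?_) h1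
    obtain ⟨h2, h3⟩ := hg1 k p
    rw [dist_comm, Real.dist_eq, abs_of_nonneg h2]
    exact h3.le.trans (hηpow k)
  -- the approximations
  obtain ⟨B, hB0, hB1⟩ : ∃ B : ℕ → ℝ → H →L[ℂ] H, (∀ p, B 0 p = w 0 (g 0 p)) ∧
      ∀ k p, B (k + 1) p = B k p * w k (g (k + 1) p - g k p) :=
    ⟨fun k => Nat.rec (fun p => w 0 (g 0 p)) (fun k x p => x p * w k (g (k + 1) p - g k p)) k,
      fun _ => rfl, fun _ _ => rfl⟩
  have hBiso : ∀ k p, wIso N U v (Real.exp (g k p)) (B k p) := by
    intro k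
    induction k with
    | zero => intro p; rw [hB0]; exact hw1 _ _
    | succ k ih =>
      intro p
      rw [hB1]
      have h1 := wIso_mul hU hcoc.star_mul (ih p) (hw1 k (g (k + 1) p - g k p))
      rwa [add_sub_cancel] at h1
  have hBn : ∀ k p ζ, ‖B k p ζ‖ = ‖ζ‖ := fun k p ζ => norm_iso (hBiso k p).2.1 ζ
  have hBCM : ∀ k, CM (B k) := by
    intro k
    induction k with
    | zero =>
      have e : B 0 = fun p => w 0 (g 0 p) := funext hB0
      rw [e]
      exact (hgCM 0).comp (w 0)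
    | succ k ih =>
      have h1 := ((ih.prod ((hgCM (k + 1)).prod (hgCM k)))).comp
        fun x : (H →L[ℂ] H) × ℝ × ℝ => x.1 * w k (x.2.1 - x.2.2)
      have e : B (k + 1) = fun p => B k p * w k (g (k + 1) p - g k p) := funext (hB1 k)
      rw [e]
      exact h1
  -- convergence
  have hstep : ∀ (j k : ℕ) (p : ℝ), j ≤ k →
      dist (B k p (d j)) (B (k + 1) p (d j)) ≤ 1 * (1 / 2 : ℝ) ^ k := by
    intro j k p hjk
    rw [dist_comm, dist_eq_norm, hB1, one_mul]
    have e : (B k p * w k (g (k + 1) p - g k p)) (d j) - B k p (d j) =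
        B k p (w k (g (k + 1) p - g k p) (d j) - d j) := by
      rw [map_sub]
      rfl
    rw [e, hBn]
    exact (hw2 k _ (hgdiff k p) (d j) (Finset.mem_image.2
      ⟨j, Finset.mem_range.2 (by omega), rfl⟩)).le
  have hcauchyD : ∀ (p : ℝ) (j : ℕ), CauchySeq fun k => B k p (d j) := by
    intro p j
    have h1 : CauchySeq fun k => B (k + j) p (d j) := by
      apply cauchySeq_of_le_geometric (1 / 2 : ℝ) ((1 / 2 : ℝ) ^ j) (by norm_num)
      intro k
      have h2 := hstep j (k + j) p (by omega)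
      have e : k + j + 1 = k + 1 + j := by omega
      rw [e] at h2
      refine h2.trans (le_of_eq ?_)
      rw [pow_add]
      ring
    exact (cauchySeq_shift j).1 h1
  have hcauchy : ∀ (p : ℝ) (ζ : H), CauchySeq fun k => B k p ζ := by
    intro p ζ
    rw [Metric.cauchySeq_iff]
    intro ε hε
    obtain ⟨j, hj⟩ := hd.exists_dist_lt ζ (ε := ε / 3) (by positivity)
    obtain ⟨K, hK⟩ := Metric.cauchySeq_iff.1 (hcauchyD p j) (ε / 3) (by positivity)
    refine ⟨K, fun m hm n hn => ?_⟩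
    have h1 : ∀ k, dist (B k p ζ) (B k p (d j)) < ε / 3 := by
      intro k
      rw [dist_eq_norm, ← map_sub, hBn, ← dist_eq_norm]
      exact hj
    calc dist (B m p ζ) (B n p ζ) ≤ dist (B m p ζ) (B m p (d j)) +
          dist (B m p (d j)) (B n p (d j)) + dist (B n p (d j)) (B n p ζ) := dist_triangle4 _ _ _ _
      _ < ε / 3 + ε / 3 + ε / 3 := by
          have h2 := h1 m
          have h3 := h1 n
          rw [dist_comm] at h3
          have h4 := hK m hm n hn
          linarith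
      _ = ε := by ring
  have hlim : ∀ (p : ℝ), ∃ b : H →L[ℂ] H, ∀ ζ, Tendsto (fun k => B k p ζ) atTop (𝓝 (b ζ)) := by
    intro p
    choose f hf using fun ζ => cauchySeq_tendsto_of_complete (hcauchy p ζ)
    have h1 : Tendsto (fun (k : ℕ) (ζ : H) => B k p ζ) atTop (𝓝 f) := tendsto_pi_nhds.2 hf
    exact ⟨continuousLinearMapOfTendsto (fun k => B k p) h1, fun ζ => hf ζ⟩
  choose b hb using hlim
  refine ⟨b, fun p => wIso_lim (hglim p) (hb p) (fun k => hBiso k p), fun ζ => ?_⟩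
  refine stronglyMeasurable_of_tendsto atTop (f := fun k p => B k p ζ) (fun k => ?_) ?_
  · exact (hBCM k).strongly fun x : H →L[ℂ] H => x ζ
  · exact tendsto_pi_nhds.2 fun p => hb p ζ

end Pool.Agent.H255.BC.G_mis
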