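import Pool.Agent.H255.BC.Defs5

set_option autoImplicit false

open MeasureTheory Filter Topology Complex
open scoped InnerProductSpace ENNReal

namespace Pool.Agent.H255.BC.G_mop

open Pool.Agent.W662.CB Pool.Agent.H255.BC

theorem sm {H : Type} [NormedAddCommGroup H] [InnerProductSpace ℂ H]
    {Y : ℝ → H →L[ℂ] H} (hY : ∀ ζ : H, StronglyMeasurable fun p : ℝ => Y p ζ) {f : ℝ → H}
    (hf : StronglyMeasurable f) : StronglyMeasurable fun p => Y p (f p) := by
  have h1 : ∀ g : SimpleFunc ℝ H, StronglyMeasurable fun p => Y p (g p) := by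
    intro g
    have e : (fun p => Y p (g p)) =
        fun p => ∑ y ∈ g.range, (g ⁻¹' {y}).indicator (fun p => Y p y) p := by
      funext p
      rw [Finset.sum_eq_single (g p)]
      · rw [Set.indicator_of_mem]
        exact rfl
      · intro y _ hy
        rw [Set.indicator_of_notMem]
        exact fun h => hy (Eq.symm h)
      · intro h
        exact absurd (g.mem_range_self p) h
    rw [e]
    exact Finset.stronglyMeasurable_fun_sum _ fun y _ => (hY y).indicator (g.measurableSet_fiber y)
  refine stronglyMeasurable_of_tendsto atTop (fun n => h1 (hf.approx n)) ?_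
  rw [tendsto_pi_nhds]
  intro p
  exact ((Y p).continuous.tendsto _).comp (hf.tendsto_approx p)

theorem r : S_mop := by
  intro H _ _ _ _ Y C hY hC
  have hC0 : 0 ≤ C := (norm_nonneg _).trans (hC 0)
  have hmeas : ∀ f : LR H, AEStronglyMeasurable (fun p => Y p (f p)) (volume : Measure ℝ) :=
    fun f => (sm hY (Lp.stronglyMeasurable f)).aestronglyMeasurable
  have hle : ∀ f : LR H, ∀ p, ‖Y p (f p)‖ ≤ C * ‖f p‖ := fun f p =>
    ((Y p).le_opNorm _).trans (mul_le_mul_of_nonneg_right (hC _) (norm_nonneg _))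
  have hmem : ∀ f : LR H, MemLp (fun p => Y p (f p)) 2 (volume : Measure ℝ) := fun f =>
    MemLp.of_le_mul (Lp.memLp f) (hmeas f) (ae_of_all _ (hle f))
  have hco : ∀ f : LR H, ((hmem f).toLp _ : ℝ → H) =ᵐ[volume] fun p => Y p (f p) := fun f =>
    MemLp.coeFn_toLp _
  let T : LR H →ₗ[ℂ] LR H :=
    { toFun := fun f => (hmem f).toLp _
      map_add' := fun f g => by
        apply Lp.ext
        filter_upwards [hco (f + g), hco f, hco g, Lp.coeFn_add f g,
          Lp.coeFn_add ((hmem f).toLp _) ((hmem g).toLp _)] with p h1 h2 h3 h4 h5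
        rw [h1, h5, Pi.add_apply, h2, h3, h4, Pi.add_apply, map_add]
      map_smul' := fun c f => by
        apply Lp.ext
        filter_upwards [hco (c • f), hco f, Lp.coeFn_smul c f,
          Lp.coeFn_smul c ((hmem f).toLp _)] with p h1 h2 h4 h5
        rw [h1, RingHom.id_apply, h5, Pi.smul_apply, h2, h4, Pi.smul_apply, map_smul] }
  have hT : ∀ f : LR H, ‖T f‖ ≤ C * ‖f‖ := fun f => by
    apply Lp.norm_le_mul_norm_of_ae_le_mul
    filter_upwards [hco f] with p h1
    change ‖((hmem f).toLp _ : ℝ → H) p‖ ≤ _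
    rw [h1]
    exact hle f p
  exact ⟨T.mkContinuous C hT, fun f => hco f⟩

end Pool.Agent.H255.BC.G_mop
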