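import Pool.Agent.H255.BC.Defs5

set_option autoImplicit false

open MeasureTheory Filter Topology Complex
open scoped InnerProductSpace ENNReal

namespace Pool.Agent.H255.BC.G_opn

open Pool.Agent.W662.CB Pool.Agent.H255.BC

section aux

variable {H : Type} [NormedAddCommGroup H] [InnerProductSpace ℂ H] [CompleteSpace H]

/-- the character -/
noncomputable def chi (t p : ℝ) : ℂ := cexp (-(I * ((t * p : ℝ) : ℂ)))

theorem chi_add (t p q : ℝ) : chi t (p + q) = chi t p * chi t q := by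
  unfold chi
  rw [← Complex.exp_add]
  congr 1
  push_cast
  ring

theorem chi_zero (t : ℝ) : chi t 0 = 1 := by
  unfold chi
  simp

theorem chi_neg (t p : ℝ) : star (chi t p) = chi t (-p) := by
  unfold chi
  rw [← starRingEnd_apply, ← Complex.exp_conj]
  congr 1
  simp

theorem chi_cont (t : ℝ) : Continuous (chi t) := by
  unfold chi
  fun_prop

/-- the unitaries of scale `exp p` -/
structure Gp (N : VonNeumannAlgebra H) (A : ℝ → H →L[ℂ] H) (p : ℝ) (u : H →L[ℂ] H) : Prop where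
  mem : u ∈ N
  sm : star u * u = 1
  ms : u * star u = 1
  eig : ∀ t : ℝ, A t * u * star (A t) = chi t p • u

theorem norm_iff (u : H →L[ℂ] H) : (∀ x, ‖u x‖ = ‖x‖) ↔ star u * u = 1 :=
  ContinuousLinearMap.norm_map_iff_adjoint_comp_self u

theorem Gp.norm {N : VonNeumannAlgebra H} {A : ℝ → H →L[ℂ] H} {p : ℝ} {u : H →L[ℂ] H}
    (h : Gp N A p u) (x : H) : ‖u x‖ = ‖x‖ := (norm_iff u).2 h.sm x

theorem Gp.star {N : VonNeumannAlgebra H} {A : ℝ → H →L[ℂ] H} {p : ℝ} {u : H →L[ℂ] H}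
    (h : Gp N A p u) : Gp N A (-p) (star u) := by
  refine ⟨star_mem h.mem, ?_, ?_, fun t => ?_⟩
  · rw [star_star]; exact h.ms
  · rw [star_star]; exact h.sm
  · have e : A t * Star.star u * Star.star (A t) =
        Star.star (A t * u * Star.star (A t)) := by
      rw [star_mul, star_mul, star_star, mul_assoc]
    rw [e, h.eig t, star_smul, chi_neg]

theorem Gp.mul {N : VonNeumannAlgebra H} {A : ℝ → H →L[ℂ] H} (hA : ∀ t, Star.star (A t) * A t = 1)
    {p q : ℝ} {u w : H →L[ℂ] H} (h : Gp N A p u) (h' : Gp N A q w) : Gp N A (p + q) (u * w) := by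
  refine ⟨mul_mem h.mem h'.mem, ?_, ?_, fun t => ?_⟩
  · rw [star_mul, mul_assoc, ← mul_assoc (Star.star u) u w, h.sm, one_mul, h'.sm]
  · rw [star_mul, mul_assoc, ← mul_assoc w (Star.star w) (Star.star u), h'.ms, one_mul, h.ms]
  · have e : A t * (u * w) * Star.star (A t) =
        (A t * u * Star.star (A t)) * (A t * w * Star.star (A t)) := by
      calc A t * (u * w) * Star.star (A t) = A t * u * (1 * (w * Star.star (A t))) := by
            rw [one_mul]; simp only [mul_assoc]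
        _ = A t * u * ((Star.star (A t) * A t) * (w * Star.star (A t))) := by rw [hA t]
        _ = _ := by simp only [mul_assoc]
    rw [e, h.eig t, h'.eig t, smul_mul_smul_comm, chi_add]

theorem Gp.one {N : VonNeumannAlgebra H} {A : ℝ → H →L[ℂ] H} (hA : ∀ t, A t * Star.star (A t) = 1) :
    Gp N A 0 (1 : H →L[ℂ] H) := by
  refine ⟨one_mem _, ?_, ?_, fun t => ?_⟩
  · rw [star_one, one_mul]
  · rw [star_one, one_mul]
  · rw [mul_one, hA t, chi_zero, one_smul]

/-- the scales which are attained near `1` -/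
def PS (N : VonNeumannAlgebra H) (A : ℝ → H →L[ℂ] H) (F : Finset H) (ε : ℝ) : Set ℝ :=
  {p | ∃ u, Gp N A p u ∧ ∀ ζ ∈ F, ‖u ζ - ζ‖ < ε}

/-- `u* w` -/
theorem star_mul_apply {N : VonNeumannAlgebra H} {A : ℝ → H →L[ℂ] H} {p : ℝ} {u : H →L[ℂ] H}
    (h : Gp N A p u) (w : H →L[ℂ] H) (ζ : H) :
    ‖(Star.star u * w) ζ - ζ‖ = ‖w ζ - u ζ‖ := by
  have e : (Star.star u * w) ζ - ζ = Star.star u (w ζ - u ζ) := by
    have e1 : (Star.star u * u) ζ = ζ := by rw [h.sm]; rfl
    have e2 : (Star.star u * u) ζ = Star.star u (u ζ) := rfl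
    rw [map_sub, ← e2, e1]
    rfl
  rw [e, h.star.norm]

theorem clos [TopologicalSpace.SeparableSpace H] {N : VonNeumannAlgebra H}
    {A : ℝ → H →L[ℂ] H} (hA : ∀ t, Star.star (A t) * A t = 1) (hne : ∀ p, ∃ u, Gp N A p u)
    (F : Finset H) {ε : ℝ} (hε : 0 < ε) :
    ∃ δ : ℝ, 0 < δ ∧ ∀ p : ℝ, |p| < δ → p ∈ closure (PS N A F ε) := by
  classical
  choose u hu using hne
  let Φ : ℝ → ({x // x ∈ F} → H) := fun p ζ => u p ζ.1
  obtain ⟨c, hc1, hc2, hc3⟩ :=
    (TopologicalSpace.IsSeparable.of_separableSpace (Set.range Φ)).exists_countable_dense_subset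
  have : Countable c := hc2.to_subtype
  have hpr : ∀ y : c, ∃ p : ℝ, Φ p = y := fun y => hc1 y.2
  choose pr hpr using hpr
  let f : c → Set ℝ := fun y => closure ((fun q => pr y + q) '' PS N A F (ε / 2))
  have hU : ⋃ y, f y = Set.univ := by
    rw [Set.eq_univ_iff_forall]
    intro p
    have h1 : Φ p ∈ closure c := hc3 ⟨p, rfl⟩
    obtain ⟨y, hy, hd⟩ := Metric.mem_closure_iff.1 h1 (ε / 2) (by positivity)
    rw [Set.mem_iUnion]
    refine ⟨⟨y, hy⟩, subset_closure ⟨p - pr ⟨y, hy⟩, ?_, by ring⟩⟩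
    refine ⟨Star.star (u (pr ⟨y, hy⟩)) * u p, ?_, fun ζ hζ => ?_⟩
    · have h2 := Gp.mul hA (hu (pr ⟨y, hy⟩)).star (hu p)
      rwa [neg_add_eq_sub] at h2
    · rw [star_mul_apply (hu (pr ⟨y, hy⟩))]
      have h3 := (dist_pi_lt_iff (by positivity : (0 : ℝ) < ε / 2)).1 hd ⟨ζ, hζ⟩
      have h4 : y ⟨ζ, hζ⟩ = u (pr ⟨y, hy⟩) ζ := (congrFun (hpr ⟨y, hy⟩) ⟨ζ, hζ⟩).symm
      rw [h4, dist_eq_norm] at h3
      exact h3
  obtain ⟨y, a, ha⟩ := nonempty_interior_of_iUnion_of_closed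
    (fun y => (isClosed_closure : IsClosed (f y))) hU
  obtain ⟨δ, hδ, hball⟩ := Metric.isOpen_iff.1 isOpen_interior a ha
  refine ⟨δ, hδ, fun p hp => ?_⟩
  rw [Metric.mem_closure_iff]
  intro η hη
  have m1 : a ∈ f y := interior_subset ha
  have m2 : a + p ∈ f y := interior_subset (hball (by
    rw [Metric.mem_ball, Real.dist_eq, add_sub_cancel_left]; exact hp))
  obtain ⟨_, ⟨q1, ⟨u1, g1, g1'⟩, rfl⟩, h1⟩ := Metric.mem_closure_iff.1 m1 (η / 2) (by positivity)
  obtain ⟨_, ⟨q2, ⟨u2, g2, g2'⟩, rfl⟩, h2⟩ := Metric.mem_closure_iff.1 m2 (η / 2) (by positivity)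
  refine ⟨-q1 + q2, ⟨Star.star u1 * u2, Gp.mul hA g1.star g2, fun ζ hζ => ?_⟩, ?_⟩
  · rw [star_mul_apply g1]
    have e : u2 ζ - u1 ζ = (u2 ζ - ζ) - (u1 ζ - ζ) := by abel
    rw [e]
    have := norm_sub_le (u2 ζ - ζ) (u1 ζ - ζ)
    have := g1' ζ hζ
    have := g2' ζ hζ
    linarith
  · rw [Real.dist_eq] at h1 h2 ⊢
    have e : p - (-q1 + q2) = (a + p - (pr y + q2)) - (a - (pr y + q1)) := by ring
    rw [e]
    have := abs_sub (a + p - (pr y + q2)) (a - (pr y + q1))
    linarith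

theorem limit [TopologicalSpace.SeparableSpace H] {N : VonNeumannAlgebra H}
    {A : ℝ → H →L[ℂ] H} (hA : ∀ t, Star.star (A t) * A t = 1)
    (hA' : ∀ t, A t * Star.star (A t) = 1) (hne : ∀ p, ∃ u, Gp N A p u)
    (F : Finset H) {ε : ℝ} (hε : 0 < ε) :
    ∃ δ : ℝ, 0 < δ ∧ ∀ p : ℝ, |p| < δ → ∃ w : H →L[ℂ] H, (w ∈ N ∧ Star.star w * w = 1 ∧
      ∀ t : ℝ, A t * w * Star.star (A t) = chi t p • w) ∧ ∀ ζ ∈ F, ‖w ζ - ζ‖ < ε := by
  classical
  let D : ℕ → H := TopologicalSpace.denseSeq H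
  let FF : ℕ → Finset H := fun j => F ∪ (Finset.range (j + 1)).image D
  let ee : ℕ → ℝ := fun j => ε / 4 * (1 / 2) ^ j
  have hee : ∀ j, 0 < ee j := fun j => by positivity
  choose δ0 hδ0 hcl using fun j => clos hA hne (FF j) (hee j)
  let δ : ℕ → ℝ := fun j => min (δ0 j) ((1 / 2) ^ j)
  have hδ : ∀ j, 0 < δ j := fun j => lt_min (hδ0 j) (by positivity)
  have step : ∀ (j : ℕ) (r : {r : ℝ // |r| < δ j}), ∃ (p : ℝ) (u : H →L[ℂ] H), Gp N A p u ∧
      (∀ ζ ∈ FF j, ‖u ζ - ζ‖ < ee j) ∧ |r.1 - p| < δ (j + 1) := by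
    intro j r
    have h1 := hcl j r.1 (r.2.trans_le (min_le_left _ _))
    obtain ⟨p, ⟨u, h2, h3⟩, h4⟩ := Metric.mem_closure_iff.1 h1 (δ (j + 1)) (hδ _)
    exact ⟨p, u, h2, h3, by rwa [Real.dist_eq] at h4⟩
  choose pf uf hG hF hr using step
  refine ⟨δ 0, hδ 0, fun p hp => ?_⟩
  let r : ∀ j : ℕ, {r : ℝ // |r| < δ j} := fun j =>
    Nat.rec (motive := fun j => {r : ℝ // |r| < δ j}) ⟨p, hp⟩
      (fun j r => ⟨r.1 - pf j r, hr j r⟩) j
  have r0 : (r 0).1 = p := rfl
  have rs : ∀ j, (r (j + 1)).1 = (r j).1 - pf j (r j) := fun j => rfl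
  let W : ℕ → H →L[ℂ] H := fun n => Nat.rec (motive := fun _ => H →L[ℂ] H) 1
    (fun j X => X * uf j (r j)) n
  have W0 : W 0 = 1 := rfl
  have Ws : ∀ j, W (j + 1) = W j * uf j (r j) := fun j => rfl
  have hW : ∀ j, Gp N A (p - (r j).1) (W j) := by
    intro j
    induction j with
    | zero => rw [r0, sub_self, W0]; exact Gp.one hA'
    | succ j ih =>
      rw [rs, Ws]
      have h1 := Gp.mul hA ih (hG j (r j))
      have e : p - (r j).1 + pf j (r j) = p - ((r j).1 - pf j (r j)) := by ring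
      rwa [e] at h1
  have hrt : Tendsto (fun j => (r j).1) atTop (𝓝 0) := by
    refine squeeze_zero_norm (a := fun j : ℕ => ((1 : ℝ) / 2) ^ j) (fun j => ?_) ?_
    · rw [Real.norm_eq_abs]
      exact ((r j).2.trans_le (min_le_right _ _)).le
    · exact tendsto_pow_atTop_nhds_zero_of_lt_one (by norm_num) (by norm_num)
  have hinc : ∀ j, ∀ ζ ∈ FF j, ‖W (j + 1) ζ - W j ζ‖ ≤ ee j := by
    intro j ζ hζ
    have e : W (j + 1) ζ - W j ζ = W j (uf j (r j) ζ - ζ) := by
      rw [Ws, map_sub]; rfl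
    rw [e, (hW j).norm]
    exact (hF j (r j) ζ hζ).le
  have hsum : Summable ee := (summable_geometric_of_lt_one (by norm_num) (by norm_num)).mul_left _
  -- convergence on the dense sequence
  have hcD : ∀ k, CauchySeq fun n => W n (D k) := by
    intro k
    have h1 : CauchySeq fun n => W (n + k) (D k) := by
      refine cauchySeq_of_dist_le_of_summable (fun n => ee (n + k)) (fun n => ?_)
        ((summable_nat_add_iff k).2 hsum)
      rw [dist_comm, dist_eq_norm]
      have h2 := hinc (n + k) (D k) (Finset.mem_union_right _ (Finset.mem_image.2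
        ⟨k, Finset.mem_range.2 (by omega), rfl⟩))
      have e : n.succ + k = n + k + 1 := by omega
      rw [e]
      exact h2
    exact (cauchySeq_shift k).1 h1
  have hcv : ∀ ζ : H, CauchySeq fun n => W n ζ := by
    intro ζ
    rw [Metric.cauchySeq_iff']
    intro η hη
    obtain ⟨k, hk⟩ := (TopologicalSpace.denseRange_denseSeq H).exists_dist_lt ζ
      (by positivity : (0 : ℝ) < η / 3)
    obtain ⟨n0, hn0⟩ := Metric.cauchySeq_iff'.1 (hcD k) (η / 3) (by positivity)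
    refine ⟨n0, fun n hn => ?_⟩
    have h1 := hn0 n hn
    have h2 : ∀ m, dist (W m ζ) (W m (D k)) < η / 3 := fun m => by
      rw [dist_eq_norm, ← map_sub, (hW m).norm, ← dist_eq_norm]
      exact hk
    calc dist (W n ζ) (W n0 ζ) ≤ dist (W n ζ) (W n (D k)) + dist (W n (D k)) (W n0 (D k)) +
          dist (W n0 (D k)) (W n0 ζ) := dist_triangle4 _ _ _ _
      _ < η / 3 + η / 3 + η / 3 := by
          rw [dist_comm (W n0 (D k))]
          exact add_lt_add (add_lt_add (h2 n) h1) (h2 n0)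
      _ = η := by ring
  have hlim : ∀ ζ : H, ∃ y : H, Tendsto (fun n => W n ζ) atTop (𝓝 y) := fun ζ =>
    cauchySeq_tendsto_of_complete (hcv ζ)
  choose g hg using hlim
  let w : H →L[ℂ] H := continuousLinearMapOfTendsto W (tendsto_pi_nhds.2 hg)
  have hw : ∀ ζ, Tendsto (fun n => W n ζ) atTop (𝓝 (w ζ)) := hg
  refine ⟨w, ⟨?_, ?_, fun t => ?_⟩, fun ζ hζ => ?_⟩
  · rw [← VonNeumannAlgebra.commutant_commutant N, VonNeumannAlgebra.mem_commutant_iff]
    intro y hy
    ext ζ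
    have h1 : Tendsto (fun n => y (W n ζ)) atTop (𝓝 (y (w ζ))) :=
      (y.continuous.tendsto _).comp (hw ζ)
    have h2 : ∀ n, y (W n ζ) = W n (y ζ) := fun n => by
      have h3 := VonNeumannAlgebra.mem_commutant_iff.1 hy (W n) (hW n).mem
      exact (DFunLike.congr_fun h3 ζ).symm
    simp only [h2] at h1
    exact tendsto_nhds_unique h1 (hw (y ζ))
  · rw [← norm_iff]
    intro x
    have h1 := (hw x).norm
    simp only [(hW _).norm] at h1
    exact (tendsto_nhds_unique h1 tendsto_const_nhds)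
  · ext ζ
    have h1 : Tendsto (fun n => A t (W n (Star.star (A t) ζ))) atTop
        (𝓝 (A t (w (Star.star (A t) ζ)))) := ((A t).continuous.tendsto _).comp (hw _)
    have h2 : ∀ n, A t (W n (Star.star (A t) ζ)) = chi t (p - (r n).1) • W n ζ := fun n =>
      DFunLike.congr_fun ((hW n).eig t) ζ
    simp only [h2] at h1
    have h3 : Tendsto (fun n => chi t (p - (r n).1) • W n ζ) atTop (𝓝 (chi t p • w ζ)) := by
      refine Tendsto.smul ?_ (hw ζ)
      have h4 : Tendsto (fun n => p - (r n).1) atTop (𝓝 (p - 0)) := tendsto_const_nhds.sub hrt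
      rw [sub_zero] at h4
      exact ((chi_cont t).tendsto p).comp h4
    exact tendsto_nhds_unique h1 h3
  · have h1 : ∀ n, ‖W n ζ - ζ‖ ≤ ∑ j ∈ Finset.range n, ee j := by
      intro n
      induction n with
      | zero => simp [W0]
      | succ n ih =>
        rw [Finset.sum_range_succ]
        have h2 := hinc n ζ (Finset.mem_union_left _ hζ)
        have e : W (n + 1) ζ - ζ = (W n ζ - ζ) + (W (n + 1) ζ - W n ζ) := by abel
        rw [e]
        exact (norm_add_le _ _).trans (add_le_add ih h2)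
    have h2 : ∀ n, ∑ j ∈ Finset.range n, ee j ≤ ε / 2 := by
      intro n
      have h3 : ∑ j ∈ Finset.range n, ee j ≤ ∑' j, ee j :=
        hsum.sum_le_tsum _ (fun j _ => (hee j).le)
      have h4 : ∑' j, ee j = ε / 4 * 2 := by
        rw [tsum_mul_left, tsum_geometric_of_lt_one (by norm_num) (by norm_num)]
        norm_num
      linarith
    have h3 : ‖w ζ - ζ‖ ≤ ε / 2 :=
      le_of_tendsto ((hw ζ).sub_const ζ).norm (Eventually.of_forall fun n => (h1 n).trans (h2 n))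
    linarith

end aux

theorem r : S_opn := by
  intro H _ _ _ _ N U v hU1 hU2 hdom F ε hε
  have hA1 : ∀ t, star (v t * U t) * (v t * U t) = 1 := fun t => by
    rw [star_mul, mul_assoc, ← mul_assoc (star (v t)) (v t) (U t), hdom.star_mul, one_mul, hU1]
  have hA2 : ∀ t, (v t * U t) * star (v t * U t) = 1 := fun t => by
    rw [star_mul, mul_assoc, ← mul_assoc (U t) (star (U t)) (star (v t)), hU2, one_mul,
      hdom.mul_star]
  have hs : ∀ t x, sgw U v t x = (v t * U t) * x * star (v t * U t) := fun t x => by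
    unfold sgw sgm
    rw [star_mul]
    simp only [mul_assoc]
  have hne : ∀ p, ∃ u, Gp N (fun t => v t * U t) p u := by
    intro p
    obtain ⟨u, h1, h2, h3, h4⟩ := hdom.scale (Real.exp p) (Real.exp_pos p)
    refine ⟨u, h1, h2, h3, fun t => ?_⟩
    have h5 := h4 t
    rw [hs, Real.log_exp] at h5
    exact h5
  obtain ⟨δ, hδ, h⟩ := limit (A := fun t => v t * U t) hA1 hA2 hne F hε
  refine ⟨δ, hδ, fun p hp => ?_⟩
  obtain ⟨w, ⟨h1, h2, h3⟩, h4⟩ := h p hp
  refine ⟨w, ⟨h1, h2, fun t => ?_⟩, h4⟩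
  rw [hs, Real.log_exp]
  exact h3 t

end Pool.Agent.H255.BC.G_opn
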