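import Pool.Agent.H255.BC.Defs5

set_option autoImplicit false

open MeasureTheory Filter Topology Complex
open scoped InnerProductSpace ENNReal

namespace Pool.Agent.H255.BC.G_sel

open Pool.Agent.W662.CB Pool.Agent.H255.BC

variable {H : Type} [NormedAddCommGroup H] [InnerProductSpace ℂ H] [CompleteSpace H]

/-! ### sums of orthogonal projections -/

/-- partial sums of orthogonal projections -/
lemma sum_proj (P : ℕ → H →L[ℂ] H) (hs : ∀ k, star (P k) = P k) (hi : ∀ k, P k * P k = P k)
    (ho : ∀ i j, i ≠ j → P i * P j = 0) (s : Finset ℕ) :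
    star (∑ k ∈ s, P k) = ∑ k ∈ s, P k ∧ (∑ k ∈ s, P k) * (∑ k ∈ s, P k) = ∑ k ∈ s, P k := by
  classical
  constructor
  · rw [star_sum]
    exact Finset.sum_congr rfl fun k _ => hs k
  · rw [Finset.sum_mul_sum]
    refine Finset.sum_congr rfl fun i hi' => ?_
    rw [Finset.sum_eq_single i]
    · exact hi i
    · intro j _ hj
      exact ho i j (Ne.symm hj)
    · intro h
      exact absurd hi' h

/-- a projection has norm at most one, and `re ⟪Qζ, ζ⟫ = ‖Qζ‖²` -/
lemma proj_inner (Q : H →L[ℂ] H) (hs : star Q = Q) (hi : Q * Q = Q) (ζ : H) :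
    RCLike.re ⟪Q ζ, ζ⟫_ℂ = ‖Q ζ‖ ^ 2 := by
  have h1 : ⟪Q ζ, Q ζ⟫_ℂ = ⟪Q ζ, ζ⟫_ℂ := by
    have h2 : ⟪Q ζ, Q ζ⟫_ℂ = ⟪ContinuousLinearMap.adjoint Q (Q ζ), ζ⟫_ℂ := by
      rw [ContinuousLinearMap.adjoint_inner_left]
    rw [h2, ← ContinuousLinearMap.star_eq_adjoint, hs]
    have h3 : Q (Q ζ) = (Q * Q) ζ := rfl
    rw [h3, hi]
  rw [← h1]
  exact (norm_sq_eq_re_inner (𝕜 := ℂ) (Q ζ)).symm

lemma proj_norm (Q : H →L[ℂ] H) (hs : star Q = Q) (hi : Q * Q = Q) (ζ : H) : ‖Q ζ‖ ≤ ‖ζ‖ := by
  have h1 := proj_inner Q hs hi ζ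
  have h2 : RCLike.re ⟪Q ζ, ζ⟫_ℂ ≤ ‖Q ζ‖ * ‖ζ‖ :=
    (RCLike.re_le_norm _).trans (norm_inner_le_norm _ _)
  by_contra h
  push Not at h
  have h3 : 0 < ‖Q ζ‖ := lt_of_le_of_lt (norm_nonneg _) h
  nlinarith

/-- the strong sum of a sequence of orthogonal projections -/
lemma exists_q (P : ℕ → H →L[ℂ] H) (hs : ∀ k, star (P k) = P k) (hi : ∀ k, P k * P k = P k)
    (ho : ∀ i j, i ≠ j → P i * P j = 0) : ∃ q : H →L[ℂ] H,
    ∀ ζ : H, HasSum (fun k => P k ζ) (q ζ) := by
  classical
  have hsum : ∀ ζ : H, Summable (fun k => P k ζ) := by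
    intro ζ
    have hof : OrthogonalFamily ℂ (fun k => LinearMap.range (P k : H →ₗ[ℂ] H))
        (fun k => (LinearMap.range (P k : H →ₗ[ℂ] H)).subtypeₗᵢ) := by
      intro i j hij
      rintro ⟨v, v', rfl⟩ ⟨w, w', rfl⟩
      change ⟪P i v', P j w'⟫_ℂ = 0
      rw [← hs i, ContinuousLinearMap.star_eq_adjoint, ContinuousLinearMap.adjoint_inner_left]
      have h3 : P i (P j w') = (P i * P j) w' := rfl
      rw [h3, ho i j hij]
      simp
    have h1 := (hof.summable_iff_norm_sq_summable
      (fun k => (⟨P k ζ, ζ, rfl⟩ : LinearMap.range (P k : H →ₗ[ℂ] H)))).2 ?_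
    · exact h1
    · refine summable_of_sum_le (c := ‖ζ‖ ^ 2) (fun k => by positivity) ?_
      intro s
      obtain ⟨hs1, hs2⟩ := sum_proj P hs hi ho s
      have h2 : ∑ k ∈ s, ‖P k ζ‖ ^ 2 = ‖(∑ k ∈ s, P k) ζ‖ ^ 2 := by
        rw [← proj_inner _ hs1 hs2 ζ, _root_.sum_apply, sum_inner, map_sum]
        exact Finset.sum_congr rfl fun k _ => (proj_inner _ (hs k) (hi k) ζ).symm
      calc ∑ k ∈ s, ‖P k ζ‖ ^ 2 = ‖(∑ k ∈ s, P k) ζ‖ ^ 2 := h2
        _ ≤ ‖ζ‖ ^ 2 := pow_le_pow_left₀ (norm_nonneg _) (proj_norm _ hs1 hs2 ζ) 2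
  have hlim : Tendsto (fun (n : ℕ) (ζ : H) => (∑ k ∈ Finset.range n, P k) ζ) atTop
      (𝓝 fun ζ => ∑' k, P k ζ) := by
    rw [tendsto_pi_nhds]
    intro ζ
    have h1 := (hsum ζ).hasSum.tendsto_sum_nat
    simpa using h1
  refine ⟨continuousLinearMapOfTendsto (fun n : ℕ => ∑ k ∈ Finset.range n, P k) hlim, ?_⟩
  intro ζ
  exact (hsum ζ).hasSum

/-- the projection `q` of the Cantor-Bernstein argument -/
lemma exists_cb (a b : H →L[ℂ] H) (ha : star a * a = 1) (hb : star b * b = 1) :
    ∃ q : H →L[ℂ] H, (∀ ζ : H, HasSum (fun k : ℕ =>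
      ((a * b) ^ k * (1 - a * star a) * (star (a * b)) ^ k) ζ) (q ζ)) ∧
      star q = q ∧ q * q = q ∧ q = (1 - a * star a) + (a * b) * q * star (a * b) := by
  set c := a * b with hc
  set e := 1 - a * star a with he
  set P : ℕ → H →L[ℂ] H := fun k => c ^ k * e * (star c) ^ k with hP
  have hcc : star c * c = 1 := by
    rw [hc, star_mul]
    calc star b * star a * (a * b) = star b * (star a * a) * b := by simp only [mul_assoc]
      _ = 1 := by rw [ha, mul_one, hb]
  have hck : ∀ k : ℕ, star c ^ k * c ^ k = 1 := by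
    intro k
    induction k with
    | zero => simp
    | succ n ih =>
      rw [pow_succ, pow_succ']
      calc star c ^ n * star c * (c * c ^ n) = star c ^ n * (star c * c) * c ^ n := by
            simp only [mul_assoc]
        _ = 1 := by rw [hcc, mul_one, ih]
  have hea : e * a = 0 := by
    rw [he, sub_mul, one_mul, mul_assoc, ha, mul_one, sub_self]
  have hes : star e = e := by
    rw [he, star_sub, star_one, star_mul, star_star]
  have hee : e * e = e := by
    have h1 : e * e = e - e * a * star a := by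
      conv_lhs => rw [he]
      rw [← he, mul_sub, mul_one, mul_assoc]
    rw [h1, hea, zero_mul, sub_zero]
  have hec : e * c = 0 := by rw [hc, ← mul_assoc, hea, zero_mul]
  have hce : star c * e = 0 := by
    have h1 := congrArg star hec
    rw [star_mul, hes, star_zero] at h1
    exact h1
  have hecn : ∀ n : ℕ, e * c ^ (n + 1) = 0 := by
    intro n
    rw [pow_succ', ← mul_assoc, hec, zero_mul]
  have hcen : ∀ n : ℕ, star c ^ (n + 1) * e = 0 := by
    intro n
    rw [pow_succ, mul_assoc, hce, mul_zero]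
  have hPs : ∀ k, star (P k) = P k := by
    intro k
    simp only [hP, star_mul, star_pow, star_star, hes, mul_assoc]
  have hPi : ∀ k, P k * P k = P k := by
    intro k
    simp only [hP]
    calc c ^ k * e * star c ^ k * (c ^ k * e * star c ^ k)
        = c ^ k * e * (star c ^ k * c ^ k) * e * star c ^ k := by simp only [mul_assoc]
      _ = c ^ k * (e * e) * star c ^ k := by rw [hck]; simp only [mul_assoc, one_mul]
      _ = _ := by rw [hee]
  have hlt : ∀ i d : ℕ, P i * P (i + d + 1) = 0 := by
    intro i d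
    simp only [hP]
    have h1 : star c ^ i * c ^ (i + d + 1) = c ^ (d + 1) := by
      rw [add_assoc, pow_add, ← mul_assoc, hck, one_mul]
    calc c ^ i * e * star c ^ i * (c ^ (i + d + 1) * e * star c ^ (i + d + 1))
        = c ^ i * (e * (star c ^ i * c ^ (i + d + 1))) * e * star c ^ (i + d + 1) := by
          simp only [mul_assoc]
      _ = 0 := by rw [h1, hecn]; simp
  have ho : ∀ i j, i ≠ j → P i * P j = 0 := by
    intro i j hij
    rcases lt_or_gt_of_ne hij with h | h
    · obtain ⟨d, rfl⟩ : ∃ d, j = i + d + 1 := ⟨j - i - 1, by omega⟩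
      exact hlt i d
    · obtain ⟨d, rfl⟩ : ∃ d, i = j + d + 1 := ⟨i - j - 1, by omega⟩
      have h1 := congrArg star (hlt j d)
      rw [star_mul, hPs, hPs, star_zero] at h1
      exact h1
  obtain ⟨q, hq⟩ := exists_q P hPs hPi ho
  have hqs : star q = q := by
    refine ContinuousLinearMap.ext fun ζ => ext_inner_left ℂ fun η => ?_
    rw [ContinuousLinearMap.star_eq_adjoint, ContinuousLinearMap.adjoint_inner_right]
    have h0 : HasSum (fun k => ⟪ζ, P k η⟫_ℂ) ⟪ζ, q η⟫_ℂ := (innerSL ℂ ζ).hasSum (hq η)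
    have h1 : HasSum (fun k => ⟪P k η, ζ⟫_ℂ) ⟪q η, ζ⟫_ℂ := by
      have h4 := h0.star
      simp only [RCLike.star_def, inner_conj_symm] at h4
      exact h4
    have h2 : HasSum (fun k => ⟪η, P k ζ⟫_ℂ) ⟪η, q ζ⟫_ℂ := by
      exact (innerSL ℂ η).hasSum (hq ζ)
    have h3 : (fun k => ⟪P k η, ζ⟫_ℂ) = fun k => ⟪η, P k ζ⟫_ℂ := by
      funext k
      nth_rewrite 1 [← hPs k]
      rw [ContinuousLinearMap.star_eq_adjoint, ContinuousLinearMap.adjoint_inner_left]
    rw [h3] at h1
    exact h1.unique h2
  have hPq : ∀ k, P k * q = P k := by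
    intro k
    ext ζ
    have h1 : HasSum (fun j => P k (P j ζ)) (P k (q ζ)) := (P k).hasSum (hq ζ)
    have h2 : HasSum (fun j => P k (P j ζ)) (P k (P k ζ)) := by
      apply hasSum_single
      intro j hj
      have h3 : P k (P j ζ) = (P k * P j) ζ := rfl
      rw [h3, ho k j (Ne.symm hj)]
      rfl
    have h4 : P k (P k ζ) = (P k * P k) ζ := rfl
    rw [h4, hPi] at h2
    exact h1.unique h2
  have hqq : q * q = q := by
    ext ζ
    have h1 : HasSum (fun k => P k (q ζ)) (q (q ζ)) := hq (q ζ)
    have h2 : (fun k => P k (q ζ)) = fun k => P k ζ := by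
      funext k
      have h3 : P k (q ζ) = (P k * q) ζ := rfl
      rw [h3, hPq]
    rw [h2] at h1
    exact h1.unique (hq ζ)
  refine ⟨q, hq, hqs, hqq, ?_⟩
  ext ζ
  have h1 : HasSum (fun k => P (k + 1) ζ) ((c * q * star c) ζ) := by
    have h2 : HasSum (fun k => c (P k (star c ζ))) (c (q (star c ζ))) := c.hasSum (hq (star c ζ))
    have h3 : (fun k => P (k + 1) ζ) = fun k => c (P k (star c ζ)) := by
      funext k
      have h4 : P (k + 1) = c * P k * star c := by
        simp only [hP]
        rw [pow_succ', pow_succ]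
        simp only [mul_assoc]
      rw [h4]
      rfl
    rw [h3]
    exact h2
  have h5 := (hasSum_nat_add_iff' (f := fun k => P k ζ) 1).2 (hq ζ)
  have h6 := h5.unique h1
  have h7 : P 0 = e := by simp only [hP, pow_zero, one_mul, mul_one]
  simp only [Finset.range_one, Finset.sum_singleton, h7] at h6
  rw [_root_.add_apply, ← h6]
  abel

/-- the algebra of the Cantor-Bernstein argument -/
lemma cb_alg {a b q : H →L[ℂ] H} (ha : star a * a = 1) (hb : star b * b = 1)
    (hqs : star q = q) (hqq : q * q = q)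
    (hq : q = (1 - a * star a) + (a * b) * q * star (a * b)) :
    star (b * q + star a * (1 - q)) * (b * q + star a * (1 - q)) = 1 ∧
    (b * q + star a * (1 - q)) * star (b * q + star a * (1 - q)) = 1 := by
  have hcc : star (a * b) * (a * b) = 1 := by
    rw [star_mul]
    calc star b * star a * (a * b) = star b * (star a * a) * b := by simp only [mul_assoc]
      _ = 1 := by rw [ha, mul_one, hb]
  have hea : (1 - a * star a) * a = 0 := by
    rw [sub_mul, one_mul, mul_assoc, ha, mul_one, sub_self]
  have hsa : star a * (1 - a * star a) = 0 := by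
    rw [mul_sub, mul_one, ← mul_assoc, ha, one_mul, sub_self]
  -- `q c q = c q`
  have h1 : q * (a * b) * q = (a * b) * q := by
    conv_lhs => enter [1, 1]; rw [hq]
    calc ((1 - a * star a) + (a * b) * q * star (a * b)) * (a * b) * q
        = ((1 - a * star a) * a) * b * q + (a * b) * q * (star (a * b) * (a * b)) * q := by
          noncomm_ring
      _ = (a * b) * (q * q) := by rw [hea, hcc]; noncomm_ring
      _ = _ := by rw [hqq]
  have h1' : q * star (a * b) * q = q * star (a * b) := by
    have := congrArg star h1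
    simp only [star_mul, hqs] at this
    rw [star_mul]
    simpa only [mul_assoc] using this
  -- `q e = e`
  have h2 : q * (1 - a * star a) = 1 - a * star a := by
    have hce : star (a * b) * (1 - a * star a) = 0 := by
      rw [star_mul, mul_assoc, hsa, mul_zero]
    have hee : (1 - a * star a) * (1 - a * star a) = 1 - a * star a := by
      calc (1 - a * star a) * (1 - a * star a)
          = (1 - a * star a) - ((1 - a * star a) * a) * star a := by noncomm_ring
        _ = _ := by rw [hea, zero_mul, sub_zero]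
    conv_lhs => enter [1]; rw [hq]
    calc ((1 - a * star a) + (a * b) * q * star (a * b)) * (1 - a * star a)
        = (1 - a * star a) * (1 - a * star a) +
            (a * b) * q * (star (a * b) * (1 - a * star a)) := by noncomm_ring
      _ = _ := by rw [hee, hce, mul_zero, add_zero]
  have h3 : (1 - q) * (a * star a) = 1 - q := by
    have : (1 - q) * (a * star a) = (1 - q) - ((1 - a * star a) - q * (1 - a * star a)) := by
      noncomm_ring
    rw [this, h2, sub_self, sub_zero]
  have h4 : (1 - q) * (1 - q) = 1 - q := by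
    have : (1 - q) * (1 - q) = 1 - q - (q - q * q) := by noncomm_ring
    rw [this, hqq, sub_self, sub_zero]
  have hst : star (b * q + star a * (1 - q)) = q * star b + (1 - q) * a := by
    simp only [star_add, star_mul, star_sub, star_one, star_star, hqs]
  rw [hst]
  have e1 : q * star b * star a * (1 - q) = 0 := by
    have : q * star b * star a * (1 - q) = q * star (a * b) - q * star (a * b) * q := by
      rw [star_mul]; noncomm_ring
    rw [this, h1', sub_self]
  have e2 : (1 - q) * (a * b) * q = 0 := by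
    have : (1 - q) * (a * b) * q = (a * b) * q - q * (a * b) * q := by noncomm_ring
    rw [this, h1, sub_self]
  constructor
  · calc (q * star b + (1 - q) * a) * (b * q + star a * (1 - q))
        = q * (star b * b) * q + q * star b * star a * (1 - q) + (1 - q) * (a * b) * q +
          ((1 - q) * (a * star a)) * (1 - q) := by noncomm_ring
      _ = 1 := by
        rw [hb, e1, e2, h3, h4, mul_one, hqq]
        abel
  · have e3 : star a * q * a = b * q * star b := by
      calc star a * q * a = star a * ((1 - a * star a) + (a * b) * q * star (a * b)) * a := by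
            rw [← hq]
        _ = (star a * (1 - a * star a)) * a + (star a * a) * b * q * star (a * b) * a := by
            noncomm_ring
        _ = b * q * (star b * (star a * a)) := by
            rw [hsa, star_mul]
            nth_rewrite 1 [ha]
            noncomm_ring
        _ = b * q * star b := by rw [ha, mul_one]
    have e4 : q * (1 - q) = 0 := by rw [mul_sub, mul_one, hqq, sub_self]
    have e5 : (1 - q) * q = 0 := by rw [sub_mul, one_mul, hqq, sub_self]
    calc (b * q + star a * (1 - q)) * (q * star b + (1 - q) * a)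
        = b * (q * q) * star b + b * (q * (1 - q)) * a + star a * ((1 - q) * q) * star b +
          star a * ((1 - q) * (1 - q)) * a := by noncomm_ring
      _ = b * q * star b + (star a * a - star a * q * a) := by
        rw [hqq, e4, e5, h4]; noncomm_ring
      _ = 1 := by rw [e3, ha]; abel

/-! ### measurability -/

section meas

variable [TopologicalSpace.SeparableSpace H]

lemma smeas_of_weak (f : ℝ → H) (hf : ∀ η : H, StronglyMeasurable fun p => ⟪η, f p⟫_ℂ) :
    StronglyMeasurable f := by
  obtain ⟨w, b, hb⟩ := exists_hilbertBasis ℂ H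
  have hc : Countable w := by
    refine Pairwise.countable_of_isOpen_disjoint (s := fun i : w => Metric.ball (b i) (1 / 2)) ?_
      (fun i => Metric.isOpen_ball) (fun i => ⟨b i, Metric.mem_ball_self (by norm_num)⟩)
    intro i j hij
    apply Metric.ball_disjoint_ball
    have h1 : ‖b i - b j‖ ^ 2 = 2 := by
      have h2 := norm_sub_sq (𝕜 := ℂ) (b i) (b j)
      rw [h2, b.orthonormal.1 i, b.orthonormal.1 j, b.orthonormal.2 hij]
      norm_num
    rw [dist_eq_norm]
    nlinarith [norm_nonneg (b i - b j)]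
  refine stronglyMeasurable_of_tendsto (atTop : Filter (Finset w))
    (f := fun s p => ∑ i ∈ s, ⟪b i, f p⟫_ℂ • b i) ?_ ?_
  · intro s
    refine Finset.stronglyMeasurable_fun_sum s fun i _ => ?_
    exact (hf (b i)).smul_const (b i)
  · rw [tendsto_pi_nhds]
    intro p
    have h1 := b.hasSum_repr (f p)
    simp only [b.repr_apply_apply] at h1
    exact h1

/-- strongly measurable families of operators -/
def SM (x : ℝ → H →L[ℂ] H) : Prop := ∀ ζ : H, StronglyMeasurable fun p : ℝ => x p ζ

lemma SM.app {x : ℝ → H →L[ℂ] H} (hx : SM x) {g : ℝ → H} (hg : StronglyMeasurable g) :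
    StronglyMeasurable fun p => x p (g p) := by
  borelize H
  have h1 : StronglyMeasurable (Function.uncurry fun (ζ : H) (p : ℝ) => x p ζ) :=
    stronglyMeasurable_uncurry_of_continuous_of_stronglyMeasurable
      (fun p => (x p).continuous) (fun ζ => hx ζ)
  exact h1.comp_measurable (hg.measurable.prodMk measurable_id)

lemma SM.mul {x y : ℝ → H →L[ℂ] H} (hx : SM x) (hy : SM y) : SM fun p => x p * y p :=
  fun ζ => hx.app (hy ζ)

lemma SM.add {x y : ℝ → H →L[ℂ] H} (hx : SM x) (hy : SM y) : SM fun p => x p + y p :=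
  fun ζ => (hx ζ).add (hy ζ)

lemma SM.sub {x y : ℝ → H →L[ℂ] H} (hx : SM x) (hy : SM y) : SM fun p => x p - y p :=
  fun ζ => (hx ζ).sub (hy ζ)

lemma SM.one : SM fun _ : ℝ => (1 : H →L[ℂ] H) := fun _ => stronglyMeasurable_const

lemma SM.pow {x : ℝ → H →L[ℂ] H} (hx : SM x) (n : ℕ) : SM fun p => x p ^ n := by
  induction n with
  | zero => simpa using (SM.one (H := H))
  | succ n ih =>
    have := ih.mul hx
    simpa only [← pow_succ] using this

lemma SM.adj {x : ℝ → H →L[ℂ] H} (hx : SM x) : SM fun p => star (x p) := by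
  intro ζ
  apply smeas_of_weak
  intro η
  have h1 : (fun p => ⟪η, (star (x p)) ζ⟫_ℂ) = fun p => ⟪x p η, ζ⟫_ℂ := by
    funext p
    rw [ContinuousLinearMap.star_eq_adjoint, ContinuousLinearMap.adjoint_inner_right]
  rw [h1]
  exact (hx η).inner stronglyMeasurable_const

end meas

theorem r (h : S_mis) : S_sel := by
  intro H _ _ _ _ N U v hU1 hU2 hd
  obtain ⟨b, hb, hbm⟩ := h H N U v hU1 hU2 hd
  -- the automorphisms
  have hv1 := hd.star_mul
  have hv2 := hd.mul_star
  have hmul : ∀ (t : ℝ) (x y : H →L[ℂ] H), sgw U v t (x * y) = sgw U v t x * sgw U v t y := by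
    intro t x y
    simp only [sgw, sgm]
    calc v t * (U t * (x * y) * star (U t)) * star (v t)
        = v t * (U t * x * 1 * y * star (U t)) * star (v t) := by simp only [mul_assoc, mul_one]
      _ = v t * (U t * x * (star (U t) * U t) * y * star (U t)) * star (v t) := by rw [hU1]
      _ = v t * (U t * x * star (U t)) * 1 * (U t * y * star (U t)) * star (v t) := by
          simp only [mul_assoc, one_mul]
      _ = v t * (U t * x * star (U t)) * (star (v t) * v t) * (U t * y * star (U t)) *
            star (v t) := by rw [hv1]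
      _ = _ := by simp only [mul_assoc]
  have hstar : ∀ (t : ℝ) (x : H →L[ℂ] H), sgw U v t (star x) = star (sgw U v t x) := by
    intro t x
    simp only [sgw, sgm, star_mul, star_star, mul_assoc]
  have hone : ∀ t : ℝ, sgw U v t 1 = 1 := by
    intro t
    simp only [sgw, sgm, mul_one, hU2, hv2]
  have hadd : ∀ (t : ℝ) (x y : H →L[ℂ] H), sgw U v t (x + y) = sgw U v t x + sgw U v t y := by
    intro t x y
    simp only [sgw, sgm, mul_add, add_mul]
  have hsub : ∀ (t : ℝ) (x y : H →L[ℂ] H), sgw U v t (x - y) = sgw U v t x - sgw U v t y := by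
    intro t x y
    simp only [sgw, sgm, mul_sub, sub_mul]
  have hpow : ∀ (t : ℝ) (x : H →L[ℂ] H) (n : ℕ), sgw U v t (x ^ n) = sgw U v t x ^ n := by
    intro t x n
    induction n with
    | zero => simp only [pow_zero, hone]
    | succ n ih => rw [pow_succ, hmul, ih, pow_succ]
  -- the isometries `a`, `b`
  set a : ℝ → H →L[ℂ] H := fun p => b (-p) with ha
  have hbN : ∀ p, b p ∈ N := fun p => (hb p).1
  have hbi : ∀ p, star (b p) * b p = 1 := fun p => (hb p).2.1
  have hbs : ∀ p t, sgw U v t (b p) = cexp (-(I * ((t * p : ℝ) : ℂ))) • b p := by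
    intro p t
    have h1 := (hb p).2.2 t
    rwa [Real.log_exp] at h1
  have haN : ∀ p, a p ∈ N := fun p => hbN (-p)
  have hai : ∀ p, star (a p) * a p = 1 := fun p => hbi (-p)
  have has : ∀ p t, sgw U v t (a p) = cexp (I * ((t * p : ℝ) : ℂ)) • a p := by
    intro p t
    have h1 := hbs (-p) t
    have h2 : -(I * ((t * -p : ℝ) : ℂ)) = I * ((t * p : ℝ) : ℂ) := by
      push_cast; ring
    rw [h2] at h1
    exact h1
  have hbm' : SM b := hbm
  have ham : SM a := by
    intro ζ
    exact (hbm ζ).comp_measurable measurable_neg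
  choose q hq hqs hqq hqe using fun p => exists_cb (a p) (b p) (hai p) (hbi p)
  have hcb : ∀ p t, sgw U v t (a p * b p) = a p * b p := by
    intro p t
    rw [hmul, has, hbs, smul_mul_smul_comm, ← Complex.exp_add, add_neg_cancel, Complex.exp_zero,
      one_smul]
  have haa : ∀ p t, sgw U v t (1 - a p * star (a p)) = 1 - a p * star (a p) := by
    intro p t
    rw [hsub, hone, hmul, hstar, has, star_smul, smul_mul_smul_comm]
    have h1 : cexp (I * ((t * p : ℝ) : ℂ)) * star (cexp (I * ((t * p : ℝ) : ℂ))) = 1 := by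
      rw [Complex.star_def, ← Complex.exp_conj, ← Complex.exp_add]
      simp
    rw [h1, one_smul]
  have hPt : ∀ p t (k : ℕ), sgw U v t ((a p * b p) ^ k * (1 - a p * star (a p)) *
      (star (a p * b p)) ^ k) = (a p * b p) ^ k * (1 - a p * star (a p)) *
      (star (a p * b p)) ^ k := by
    intro p t k
    rw [hmul, hmul, hpow, hpow, hcb, haa, hstar, hcb]
  have hqt : ∀ p t, sgw U v t (q p) = q p := by
    intro p t
    ext ζ
    have h1 : HasSum (fun k : ℕ => (v t * U t) (((a p * b p) ^ k * (1 - a p * star (a p)) *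
      (star (a p * b p)) ^ k) ((star (U t) * star (v t)) ζ)))
      ((v t * U t) (q p ((star (U t) * star (v t)) ζ))) :=
      (v t * U t).hasSum (hq p _)
    have h2 : (fun k : ℕ => (v t * U t) (((a p * b p) ^ k * (1 - a p * star (a p)) *
      (star (a p * b p)) ^ k) ((star (U t) * star (v t)) ζ))) =
        fun k : ℕ => ((a p * b p) ^ k * (1 - a p * star (a p)) * (star (a p * b p)) ^ k) ζ := by
      funext k
      nth_rewrite 2 [← hPt p t k]
      rfl
    rw [h2] at h1
    exact h1.unique (hq p ζ)
  have hcN : ∀ p, a p * b p ∈ N := fun p => mul_mem (haN p) (hbN p)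
  have heN : ∀ p, 1 - a p * star (a p) ∈ N := fun p =>
    sub_mem (one_mem N) (mul_mem (haN p) (star_mem (haN p)))
  have hPN : ∀ p (k : ℕ), (a p * b p) ^ k * (1 - a p * star (a p)) * (star (a p * b p)) ^ k ∈ N :=
    fun p k => mul_mem (mul_mem (pow_mem (hcN p) k) (heN p)) (pow_mem (star_mem (hcN p)) k)
  have hqN : ∀ p, q p ∈ N := by
    intro p
    rw [← N.commutant_commutant, VonNeumannAlgebra.mem_commutant_iff]
    intro y hy
    rw [VonNeumannAlgebra.mem_commutant_iff] at hy
    ext ζ
    have h1 : HasSum (fun k : ℕ => y (((a p * b p) ^ k * (1 - a p * star (a p)) *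
      (star (a p * b p)) ^ k) ζ)) (y (q p ζ)) := y.hasSum (hq p ζ)
    have h2 := hq p (y ζ)
    have h3 : (fun k : ℕ => y (((a p * b p) ^ k * (1 - a p * star (a p)) *
      (star (a p * b p)) ^ k) ζ)) = fun k : ℕ => ((a p * b p) ^ k * (1 - a p * star (a p)) *
      (star (a p * b p)) ^ k) (y ζ) := by
      funext k
      have h4 := hy _ (hPN p k)
      exact (congrArg (fun A : H →L[ℂ] H => A ζ) h4).symm
    rw [h3] at h1
    exact h1.unique h2
  have hqm : SM q := by
    intro ζ
    refine stronglyMeasurable_of_tendsto (atTop : Filter ℕ)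
      (f := fun n p => ∑ k ∈ Finset.range n, ((a p * b p) ^ k * (1 - a p * star (a p)) *
      (star (a p * b p)) ^ k) ζ) ?_ ?_
    · intro n
      refine Finset.stronglyMeasurable_fun_sum _ fun k _ => ?_
      exact ((((ham.mul hbm').pow k).mul (SM.one.sub (ham.mul ham.adj))).mul
        ((ham.mul hbm').adj.pow k)) ζ
    · rw [tendsto_pi_nhds]
      intro p
      exact (hq p ζ).tendsto_sum_nat
  refine ⟨fun p => b p * q p + star (a p) * (1 - q p), fun p => ?_, ?_⟩
  · obtain ⟨u1, u2⟩ := cb_alg (hai p) (hbi p) (hqs p) (hqq p) (hqe p)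
    refine ⟨add_mem (mul_mem (hbN p) (hqN p)) (mul_mem (star_mem (haN p))
      (sub_mem (one_mem N) (hqN p))), u1, u2, fun t => ?_⟩
    rw [Real.log_exp, hadd, hmul, hmul, hbs, hqt, hstar, has, hsub, hone, hqt, star_smul,
      smul_mul_assoc, smul_mul_assoc, smul_add]
    have h1 : star (cexp (I * ((t * p : ℝ) : ℂ))) = cexp (-(I * ((t * p : ℝ) : ℂ))) := by
      rw [Complex.star_def, ← Complex.exp_conj]
      simp
    rw [h1]
  · exact (hbm'.mul hqm).add (ham.adj.mul (SM.one.sub hqm))

end Pool.Agent.H255.BC.G_sel
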