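import Pool.Agent.H255.BC.Defs5

/-!
# Every dominant weight is equivalent to the model (task spat of helper255, by helper996)
-/

set_option autoImplicit false

open MeasureTheory Filter Topology Complex
open scoped InnerProductSpace ENNReal

namespace Pool.Agent.H255.BC.G_spat

open Pool.Agent.W662.CB Pool.Agent.H255.BC

section alg

variable {H : Type} [NormedAddCommGroup H] [InnerProductSpace ℂ H] [CompleteSpace H]

theorem sgw_eq (U v : ℝ → H →L[ℂ] H) (t : ℝ) (x : H →L[ℂ] H) :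
    sgw U v t x = (v t * U t) * x * star (v t * U t) := by
  unfold sgw sgm
  rw [star_mul]
  simp only [mul_assoc]

theorem mul_one' {N : VonNeumannAlgebra H} {U v : ℝ → H →L[ℂ] H}
    (hU : ∀ t, star (U t) * U t = 1) (hU' : ∀ t, U t * star (U t) = 1) (hv : IsCocycle N U v)
    (t : ℝ) : star (v t * U t) * (v t * U t) = 1 ∧ (v t * U t) * star (v t * U t) = 1 := by
  constructor
  · rw [star_mul, mul_assoc, ← mul_assoc (star (v t)), hv.star_mul, one_mul, hU]
  · rw [star_mul, mul_assoc, ← mul_assoc (U t), hU', one_mul, hv.mul_star]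

theorem mem_wCen {N : VonNeumannAlgebra H} {U v : ℝ → H →L[ℂ] H}
    (hU : ∀ t, star (U t) * U t = 1) (hU' : ∀ t, U t * star (U t) = 1) (hv : IsCocycle N U v)
    {s r x : H →L[ℂ] H} (hs : s ∈ wCen N U v) (hr : r ∈ wCen N U v)
    (hx : x ∈ Submonoid.closure ({s, r} : Set (H →L[ℂ] H))) : x ∈ wCen N U v := by
  induction hx using Submonoid.closure_induction with
  | mem y hy =>
    rcases hy with hy | hy
    · rw [hy]; exact hs
    · rw [hy]; exact hr
  | one =>
    refine ⟨one_mem N, fun t => ?_⟩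
    rw [sgw_eq, mul_one, (mul_one' hU hU' hv t).2]
  | mul y z _ _ hy hz =>
    refine ⟨mul_mem hy.1 hz.1, fun t => ?_⟩
    have h1 := hy.2 t
    have h2 := hz.2 t
    rw [sgw_eq] at h1 h2 ⊢
    have h3 := (mul_one' hU hU' hv t).1
    generalize v t * U t = X at h1 h2 h3 ⊢
    calc X * (y * z) * star X = X * y * 1 * z * star X := by simp only [mul_assoc, one_mul]
      _ = X * y * (star X * X) * z * star X := by rw [h3]
      _ = (X * y * star X) * (X * z * star X) := by simp only [mul_assoc]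
      _ = y * z := by rw [h1, h2]

theorem comm_of_wCen {N : VonNeumannAlgebra H} {U v : ℝ → H →L[ℂ] H}
    (hU : ∀ t, star (U t) * U t = 1) (hU' : ∀ t, U t * star (U t) = 1) (hv : IsCocycle N U v)
    {x : H →L[ℂ] H} (hx : x ∈ wCen N U v) (t : ℝ) :
    (v t * U t) * x = x * (v t * U t) ∧ star (v t * U t) * x = x * star (v t * U t) := by
  have h1 := hx.2 t
  rw [sgw_eq] at h1
  obtain ⟨h2, h3⟩ := mul_one' hU hU' hv t
  generalize v t * U t = X at h1 h2 h3 ⊢
  have h4 : X * x = x * X := by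
    calc X * x = X * x * 1 := (mul_one _).symm
      _ = X * x * (star X * X) := by rw [h2]
      _ = (X * x * star X) * X := by simp only [mul_assoc]
      _ = x * X := by rw [h1]
  refine ⟨h4, ?_⟩
  calc star X * x = star X * x * 1 := (mul_one _).symm
    _ = star X * x * (X * star X) := by rw [h3]
    _ = star X * (x * X) * star X := by simp only [mul_assoc]
    _ = star X * (X * x) * star X := by rw [h4]
    _ = (star X * X) * x * star X := by simp only [mul_assoc]
    _ = x * star X := by rw [h2, one_mul]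

end alg

theorem r (h1 : S_cun) (h2 : S_Z0) (h3 : S_st1) (h4 : S_fou) (h5 : S_st2) (h6 : S_st3) (h7 : S_ops) : S_spat := by
  intro H _ _ _ _ N M ξ U J E v hI hD
  have hm := hI.modular
  have hU : ∀ t, star (U t) * U t = 1 := by
    intro t
    rw [hm.star_eq, ← hm.add, neg_add_cancel, hm.zero]
  have hU' : ∀ t, U t * star (U t) = 1 := by
    intro t
    rw [hm.star_eq, ← hm.add, add_neg_cancel, hm.zero]
  have hc := hD.toIsCocycle
  obtain ⟨s, r, hs, hr, hss, hrr, hsr⟩ := hD.inf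
  obtain ⟨w, hw, hcl⟩ := h1 H N ξ s r (fun x hx h => hI.sep x (hI.le x hx) h) hs.1 hr.1 hss hrr hsr
  have hwc : ∀ k, w k ∈ wCen N U v := fun k => mem_wCen hU hU' hc hs hr (hcl k)
  obtain ⟨Z, hZ⟩ := h2 H w hw
  obtain ⟨W₁, hW1, hW1'⟩ := h3 H N U v hU hU' hD
  obtain ⟨W₂, hW2⟩ := h4 H
  obtain ⟨W₃, hW3, hW3'⟩ := h6 H N U v hm.zero hm.add hm.star_eq hc
  obtain ⟨-, -, o3, -, o5, o6⟩ := h7 H M ξ U hm
  refine ⟨Z.trans (W₁.trans (W₂.trans W₃)), ?_, ?_⟩
  · intro y hy S hS ζ
    have e1 : Z (y ζ) = S (Z ζ) := by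
      refine hZ y (fun k => ?_) (fun k => ?_) S hS ζ
      · exact ((VonNeumannAlgebra.mem_commutant_iff.1 hy) _ (hwc k).1).symm
      · exact ((VonNeumannAlgebra.mem_commutant_iff.1 (star_mem hy)) _ (hwc k).1).symm
    have c1 : IsChar y 0 S := by
      intro f
      filter_upwards [hS f] with p hp
      rw [hp]
      simp
    have c2 : IsTrans y 0 S := by
      intro f
      filter_upwards [hS f] with p hp
      rw [hp, add_zero]
    show W₃ (W₂ (W₁ (Z (y ζ)))) = S (W₃ (W₂ (W₁ (Z ζ))))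
    rw [e1, hW1 y hy S hS, h5 H W₂ hW2 y 0 S S c1 c2, hW3 y hy S hS]
  · intro t S hS ζ
    obtain ⟨S₀, hS0, -, -⟩ := o3 (v t * U t)
    obtain ⟨Sh, hSh, -, -, -⟩ := o5 (-t)
    obtain ⟨Sl, hSl, -, -, -⟩ := o6 (Real.exp (-t)) (Real.exp_pos _)
    have e1 : Z ((v t * U t) ζ) = S₀ (Z ζ) :=
      hZ (v t * U t) (fun k => (comm_of_wCen hU hU' hc (hwc k) t).1)
        (fun k => (comm_of_wCen hU hU' hc (hwc k) t).2) S₀ hS0 ζ
    have c1 : IsChar (v t * U t) t (Sl * S₀) := by
      intro f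
      have h8 : (Sl * S₀) f = Sl (S₀ f) := rfl
      rw [h8]
      filter_upwards [hSl (S₀ f), hS0 f] with p hp hp'
      rw [hp, hp']
      congr 1
      rw [Real.log_exp]
      congr 1
      push_cast
      ring
    have c2 : IsTrans (v t * U t) t (S₀ * Sh) := by
      intro f
      have h8 : (S₀ * Sh) f = S₀ (Sh f) := rfl
      rw [h8]
      filter_upwards [hS0 (Sh f), hSh f] with p hp hp'
      rw [hp, hp', sub_neg_eq_add]
    show W₃ (W₂ (W₁ (Z ((v t * U t) ζ)))) = S (W₃ (W₂ (W₁ (Z ζ))))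
    rw [e1, hW1' t S₀ (Sl * S₀) hS0 c1, h5 H W₂ hW2 _ t (Sl * S₀) (S₀ * Sh) c1 c2,
      hW3' t (S₀ * Sh) S c2 hS]

end Pool.Agent.H255.BC.G_spat
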