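import Pool.Agent.H255.BC.Defs5

set_option autoImplicit false

open MeasureTheory Filter Topology Complex
open scoped InnerProductSpace ENNReal

namespace Pool.Agent.H255.BC.G_st1

open Pool.Agent.W662.CB Pool.Agent.H255.BC

variable {H : Type} [NormedAddCommGroup H] [InnerProductSpace ℂ H] [CompleteSpace H]

theorem norm_eq {u : H →L[ℂ] H} (h : star u * u = 1) (x : H) : ‖u x‖ = ‖x‖ :=
  (ContinuousLinearMap.norm_map_iff_adjoint_comp_self u).2 h x

theorem norm_le {u : H →L[ℂ] H} (h : star u * u = 1) : ‖u‖ ≤ 1 :=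
  u.opNorm_le_bound zero_le_one fun x => by rw [norm_eq h x, one_mul]

/-- strong measurability from the balls -/
theorem sm_of_ball [TopologicalSpace.SeparableSpace H] (f : ℝ → H)
    (h : ∀ (c : H) (r : ℝ), MeasurableSet {p | dist (f p) c < r}) : StronglyMeasurable f := by
  borelize H
  haveI : SecondCountableTopology H := UniformSpace.secondCountable_of_separable H
  refine Measurable.stronglyMeasurable (measurable_of_isOpen fun s hs => ?_)
  have hd := TopologicalSpace.denseRange_denseSeq H
  have h1 : f ⁻¹' s = ⋃ (n : ℕ) (k : ℕ) (_ : Metric.ball (TopologicalSpace.denseSeq H n)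
      (1 / ((k : ℝ) + 1)) ⊆ s), {p | dist (f p) (TopologicalSpace.denseSeq H n) < 1 / ((k : ℝ) + 1)} := by
    ext p
    simp only [Set.mem_preimage, Set.mem_iUnion, Set.mem_setOf_eq, exists_prop]
    constructor
    · intro hp
      obtain ⟨ε, hε, hb⟩ := Metric.isOpen_iff.1 hs (f p) hp
      obtain ⟨k, hk⟩ := exists_nat_one_div_lt (half_pos hε)
      obtain ⟨n, hn⟩ := Metric.denseRange_iff.1 hd (f p) (1 / ((k : ℝ) + 1)) (by positivity)
      refine ⟨n, k, fun z hz => hb ?_, hn⟩
      rw [Metric.mem_ball] at hz ⊢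
      calc dist z (f p) ≤ dist z (TopologicalSpace.denseSeq H n) +
            dist (TopologicalSpace.denseSeq H n) (f p) := dist_triangle _ _ _
        _ < ε / 2 + ε / 2 := by
            rw [dist_comm _ (f p)]
            exact add_lt_add (hz.trans hk) (hn.trans hk)
        _ = ε := add_halves ε
    · rintro ⟨n, k, hb, hp⟩
      exact hb (Metric.mem_ball.2 hp)
  rw [h1]
  exact MeasurableSet.iUnion fun n => MeasurableSet.iUnion fun k => MeasurableSet.iUnion fun _ =>
    h _ _

/-- the inverse of a strongly measurable function with unitary values -/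
theorem sm_star [TopologicalSpace.SeparableSpace H] (u : ℝ → H →L[ℂ] H)
    (h1 : ∀ p, star (u p) * u p = 1) (h2 : ∀ p, u p * star (u p) = 1)
    (hu : ∀ ζ : H, StronglyMeasurable fun p : ℝ => u p ζ) (ζ : H) :
    StronglyMeasurable fun p : ℝ => star (u p) ζ := by
  refine sm_of_ball _ fun c r => ?_
  have h3 : ∀ p, dist (star (u p) ζ) c = ‖ζ - u p c‖ := by
    intro p
    rw [dist_eq_norm, ← norm_eq (h1 p) (star (u p) ζ - c), map_sub]
    congr 2
    exact congrArg (fun T : H →L[ℂ] H => T ζ) (h2 p)
  simp only [h3]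
  have h4 : StronglyMeasurable fun p => ‖ζ - u p c‖ :=
    (stronglyMeasurable_const.sub (hu c)).norm
  exact measurableSet_lt h4.measurable measurable_const

theorem r (h1 : S_sel) (h2 : S_mop) : S_st1 := by
  intro H _ _ _ _ N U v hU1 hU2 hv
  obtain ⟨u, hu, hum⟩ := h1 H N U v hU1 hU2 hv
  have hs1 : ∀ p, star (u p) * u p = 1 := fun p => (hu p).2.1
  have hs2 : ∀ p, u p * star (u p) = 1 := fun p => (hu p).2.2.1
  obtain ⟨A, hA⟩ := h2 H u 1 hum fun p => norm_le (hs1 p)
  obtain ⟨B, hB⟩ := h2 H (fun p => star (u p)) 1 (sm_star u hs1 hs2 hum)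
    (fun p => norm_le (by rw [star_star]; exact hs2 p))
  have hAB : ∀ f : LR H, A (B f) = f := by
    intro f
    apply Lp.ext
    filter_upwards [hA (B f), hB f] with p ha hb
    rw [ha, hb]
    exact congrArg (fun T : H →L[ℂ] H => T (f p)) (hs2 p)
  have hn : ∀ f : LR H, ‖A f‖ = ‖f‖ := by
    intro f
    rw [Lp.norm_def, Lp.norm_def]
    congr 1
    refine eLpNorm_congr_norm_ae ?_
    filter_upwards [hA f] with p ha
    rw [ha, norm_eq (hs1 p)]
  set Wi : LR H →ₗᵢ[ℂ] LR H := ⟨A.toLinearMap, hn⟩ with hWi
  have hsurj : Function.Surjective Wi := fun f => ⟨B f, hAB f⟩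
  refine ⟨LinearIsometryEquiv.ofSurjective Wi hsurj, ?_, ?_⟩
  · intro y hy S hS f
    show A (S f) = S (A f)
    apply Lp.ext
    filter_upwards [hA (S f), hS f, hS (A f), hA f] with p e1 e2 e3 e4
    rw [e1, e2, e3, e4]
    have hc := VonNeumannAlgebra.mem_commutant_iff.1 hy (u p) (hu p).1
    exact congrArg (fun T : H →L[ℂ] H => T (f p)) hc
  · intro t S S' hS hS' f
    show A (S f) = S' (A f)
    apply Lp.ext
    filter_upwards [hA (S f), hS f, hS' (A f), hA f] with p e1 e2 e3 e4
    rw [e1, e2, e3, e4]
    -- the scaling relation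
    have e5 : v t * (U t * u p * star (U t)) * star (v t) =
        cexp (-(I * ((t * p : ℝ) : ℂ))) • u p := by
      have := (hu p).2.2.2 t
      rw [Real.log_exp] at this
      exact this
    have hvs : star (v t) * v t = 1 := hv.star_mul t
    have e6 : v t * U t * u p = cexp (-(I * ((t * p : ℝ) : ℂ))) • (u p * (v t * U t)) := by
      calc v t * U t * u p = v t * (U t * u p * star (U t)) * star (v t) * (v t * U t) := by
            have h7 : v t * (U t * u p * star (U t)) * star (v t) * (v t * U t) =
                v t * (U t * u p * star (U t)) * (star (v t) * v t) * U t := by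
              simp only [mul_assoc]
            rw [h7, hvs, mul_one]
            have h8 : v t * (U t * u p * star (U t)) * U t =
                v t * U t * u p * (star (U t) * U t) := by
              simp only [mul_assoc]
            rw [h8, hU1, mul_one]
        _ = _ := by rw [e5, smul_mul_assoc]
    have e7 : u p * (v t * U t) = cexp (I * ((t * p : ℝ) : ℂ)) • (v t * U t * u p) := by
      rw [e6, smul_smul, ← Complex.exp_add, add_neg_cancel, Complex.exp_zero, one_smul]
    exact congrArg (fun T : H →L[ℂ] H => T (f p)) e7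

end Pool.Agent.H255.BC.G_st1
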