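import Pool.Agent.H255.BC.Defs5

set_option autoImplicit false

open MeasureTheory Filter Topology Complex
open scoped InnerProductSpace ENNReal

namespace Pool.Agent.H255.BC.G_st2

open Pool.Agent.W662.CB Pool.Agent.H255.BC

variable {H : Type} [NormedAddCommGroup H] [InnerProductSpace ℂ H] [CompleteSpace H]

/-- functions with a continuous compactly supported representative are dense -/
lemma dense_cc : Dense {f : LR H | ∃ G : ℝ → H, Continuous G ∧ HasCompactSupport G ∧
    (f : ℝ → H) =ᵐ[volume] G} := by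
  intro f
  rw [Metric.mem_closure_iff]
  intro ε hε
  have hf : MemLp (f : ℝ → H) 2 (volume : Measure ℝ) := Lp.memLp f
  have hε2 : ENNReal.ofReal (ε / 2) ≠ 0 := by
    rw [Ne, ENNReal.ofReal_eq_zero]
    push Not
    linarith
  obtain ⟨G, hG1, hG2, hG3, hG4⟩ := hf.exists_hasCompactSupport_eLpNorm_sub_le
    (by norm_num) hε2
  refine ⟨hG4.toLp G, ⟨G, hG3, hG1, hG4.coeFn_toLp⟩, ?_⟩
  rw [Lp.dist_def]
  have h1 : eLpNorm ((f : ℝ → H) - (hG4.toLp G : ℝ → H)) 2 (volume : Measure ℝ) =
      eLpNorm ((f : ℝ → H) - G) 2 (volume : Measure ℝ) := by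
    apply eLpNorm_congr_ae
    filter_upwards [hG4.coeFn_toLp] with s hs
    simp only [Pi.sub_apply, hs]
  rw [h1]
  calc (eLpNorm ((f : ℝ → H) - G) 2 (volume : Measure ℝ)).toReal
      ≤ (ENNReal.ofReal (ε / 2)).toReal := ENNReal.toReal_mono ENNReal.ofReal_ne_top hG2
    _ = ε / 2 := ENNReal.toReal_ofReal (by linarith)
    _ < ε := by linarith

theorem r : S_st2 := by
  intro H _ _ _ W hW x t S S' hS hS' f
  have hcl : IsClosed {f : LR H | W (S f) = S' (W f)} :=
    isClosed_eq (W.continuous.comp S.continuous) (S'.continuous.comp W.continuous)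
  have hsub : {f : LR H | ∃ G : ℝ → H, Continuous G ∧ HasCompactSupport G ∧
      (f : ℝ → H) =ᵐ[volume] G} ⊆ {f : LR H | W (S f) = S' (W f)} := by
    rintro f ⟨G, hG1, hG2, hG3⟩
    change W (S f) = S' (W f)
    have h1 : (S f : ℝ → H) =ᵐ[volume] fun p => cexp (I * ((t * p : ℝ) : ℂ)) • x (G p) := by
      filter_upwards [hS f, hG3] with p hp hp'
      rw [hp, hp']
    have hc1 : Continuous fun p : ℝ => cexp (I * ((t * p : ℝ) : ℂ)) • x (G p) := by
      have := x.continuous.comp hG1
      fun_prop
    have hc2 : HasCompactSupport fun p : ℝ => cexp (I * ((t * p : ℝ) : ℂ)) • x (G p) := by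
      have h2 : HasCompactSupport fun p : ℝ => x (G p) := hG2.comp_left (map_zero x)
      exact h2.smul_left
    have h3 := hW _ hc1 hc2 (S f) h1
    have h4 := hW G hG1 hG2 f hG3
    have h5 := (measurePreserving_add_right (volume : Measure ℝ) t).quasiMeasurePreserving.ae h4
    apply Lp.ext
    filter_upwards [h3, hS' (W f), h5] with s hs1 hs2 hs3
    rw [hs1, hs2, hs3, map_smul]
    congr 1
    have hint : Integrable (fun p : ℝ => cexp (I * (((s + t) * p : ℝ) : ℂ)) • G p) volume := by
      apply Continuous.integrable_of_hasCompactSupport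
      · fun_prop
      · exact hG2.smul_left
    rw [← ContinuousLinearMap.integral_comp_comm x hint]
    apply integral_congr_ae
    filter_upwards with p
    rw [map_smul, smul_smul, ← Complex.exp_add]
    congr 2
    push_cast
    ring
  have h := (dense_cc (H := H)).closure_eq ▸ (closure_minimal hsub hcl)
  exact h (Set.mem_univ f)

end Pool.Agent.H255.BC.G_st2
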