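import Pool.Agent.H255.BC.Defs5

set_option autoImplicit false

open MeasureTheory Filter Topology Complex
open scoped InnerProductSpace ENNReal

namespace Pool.Agent.H255.BC.G_st3

open Pool.Agent.W662.CB Pool.Agent.H255.BC

section

variable {H : Type} [NormedAddCommGroup H] [InnerProductSpace ℂ H] [CompleteSpace H]

theorem iso_norm {x : H →L[ℂ] H} (hx : star x * x = 1) (ζ : H) : ‖x ζ‖ = ‖ζ‖ := by
  have h1 : ⟪x ζ, x ζ⟫_ℂ = ⟪ζ, ζ⟫_ℂ := by
    rw [← ContinuousLinearMap.adjoint_inner_right, ← ContinuousLinearMap.star_eq_adjoint,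
      ← mul_apply_eq_comp, hx, one_apply_eq_self]
  have h2 : ‖x ζ‖ ^ 2 = ‖ζ‖ ^ 2 := by
    have h3 := inner_self_eq_norm_sq_to_K (𝕜 := ℂ) (x ζ)
    have h4 := inner_self_eq_norm_sq_to_K (𝕜 := ℂ) ζ
    rw [h1, h4] at h3
    exact_mod_cast h3.symm
  have := congrArg Real.sqrt h2
  rwa [Real.sqrt_sq (norm_nonneg _), Real.sqrt_sq (norm_nonneg _)] at this

theorem iso_op {x : H →L[ℂ] H} (hx : star x * x = 1) : ‖x‖ ≤ 1 :=
  ContinuousLinearMap.opNorm_le_bound _ zero_le_one fun ζ => by rw [iso_norm hx, one_mul]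

theorem star_cont {v : ℝ → H →L[ℂ] H} (h1 : ∀ t, star (v t) * v t = 1)
    (h2 : ∀ t, v t * star (v t) = 1) (hc : ∀ ζ : H, Continuous fun t : ℝ => v t ζ) (ζ : H) :
    Continuous fun t : ℝ => star (v t) ζ := by
  rw [continuous_iff_continuousAt]
  intro t0
  rw [ContinuousAt, tendsto_iff_norm_sub_tendsto_zero]
  have h3 : Tendsto (fun t : ℝ => ‖ζ - v t (star (v t0) ζ)‖) (𝓝 t0) (𝓝 0) := by
    have h4 : Tendsto (fun t : ℝ => ‖ζ - v t (star (v t0) ζ)‖) (𝓝 t0)
        (𝓝 ‖ζ - v t0 (star (v t0) ζ)‖) :=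
      ((continuous_const.sub (hc _)).norm).tendsto t0
    have h5 : v t0 (star (v t0) ζ) = ζ := by
      rw [← mul_apply_eq_comp, h2, one_apply_eq_self]
    rwa [h5, sub_self, norm_zero] at h4
  refine squeeze_zero (fun _ => norm_nonneg _) (fun t => ?_) h3
  have h6 : star (v t) ζ - star (v t0) ζ = star (v t) (ζ - v t (star (v t0) ζ)) := by
    have h7 : star (v t) (v t (star (v t0) ζ)) = star (v t0) ζ := by
      rw [← mul_apply_eq_comp, h1, one_apply_eq_self]
    rw [map_sub, h7]
  rw [h6, iso_norm (x := star (v t)) (by rw [star_star]; exact h2 t)]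

end

theorem r (h : S_opmul) : S_st3 := by
  intro H _ _ _ N U v hU0 hUa hUs hv
  have hU1 : ∀ t, star (U t) * U t = 1 := fun t => by rw [hUs, ← hUa, neg_add_cancel, hU0]
  obtain ⟨S1, hS1, hn1⟩ := h H (fun s => star (v (-s))) 1
    (fun ζ => (star_cont hv.star_mul hv.mul_star hv.cont ζ).comp continuous_neg)
    (fun s => iso_op (by rw [star_star]; exact hv.mul_star _))
  obtain ⟨S2, hS2, hn2⟩ := h H (fun s => v (-s)) 1
    (fun ζ => (hv.cont ζ).comp continuous_neg) (fun s => iso_op (hv.star_mul _))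
  have h21 : ∀ f, S2 (S1 f) = f := by
    intro f
    apply Lp.ext
    filter_upwards [hS2 (S1 f), hS1 f] with s h3 h4
    rw [h3, h4, ← mul_apply_eq_comp, hv.mul_star, one_apply_eq_self]
  have h12 : ∀ f, S1 (S2 f) = f := by
    intro f
    apply Lp.ext
    filter_upwards [hS1 (S2 f), hS2 f] with s h3 h4
    rw [h3, h4, ← mul_apply_eq_comp, hv.star_mul, one_apply_eq_self]
  have hle1 : ∀ f, ‖S1 f‖ ≤ ‖f‖ := fun f =>
    ((S1.le_opNorm f).trans (mul_le_mul_of_nonneg_right hn1 (norm_nonneg _))).trans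
      (one_mul _).le
  have hle2 : ∀ f, ‖S2 f‖ ≤ ‖f‖ := fun f =>
    ((S2.le_opNorm f).trans (mul_le_mul_of_nonneg_right hn2 (norm_nonneg _))).trans
      (one_mul _).le
  have hiso : ∀ f, ‖S1 f‖ = ‖f‖ := fun f =>
    le_antisymm (hle1 f) (by
      have := hle2 (S1 f)
      rwa [h21] at this)
  let W : LR H ≃ₗᵢ[ℂ] LR H :=
    { toFun := S1
      invFun := S2
      left_inv := h21
      right_inv := h12
      map_add' := map_add S1
      map_smul' := map_smul S1
      norm_map' := hiso }
  refine ⟨W, ?_, ?_⟩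
  · intro y hy S hS f
    change S1 (S f) = S (S1 f)
    apply Lp.ext
    filter_upwards [hS1 (S f), hS f, hS (S1 f), hS1 f] with s h3 h4 h5 h6
    rw [h3, h4, h5, h6]
    have h7 : star (v (-s)) * y = y * star (v (-s)) :=
      (VonNeumannAlgebra.mem_commutant_iff.mp hy) _ (star_mem (hv.mem _))
    have h8 := congrArg (fun T : H →L[ℂ] H => T (f s)) h7
    exact h8
  · intro t S S' hS hS' f
    change S1 (S f) = S' (S1 f)
    have hkey : ∀ s, star (v (-s)) * (v t * U t) = U t * star (v (-(s + t))) := by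
      intro s
      have h3 : v (-s) = v t * (U t * v (-(s + t)) * star (U t)) := by
        have h4 := hv.cocycle t (-(s + t))
        rw [show t + -(s + t) = -s by ring] at h4
        exact h4
      have h5 : star (v (-s)) = U t * star (v (-(s + t))) * star (U t) * star (v t) := by
        rw [h3]
        simp only [star_mul, star_star, mul_assoc]
      rw [h5]
      calc U t * star (v (-(s + t))) * star (U t) * star (v t) * (v t * U t)
          = U t * star (v (-(s + t))) * (star (U t) * (star (v t) * v t) * U t) := by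
            simp only [mul_assoc]
        _ = U t * star (v (-(s + t))) := by
            rw [hv.star_mul, mul_one, hU1, mul_one]
    have hshift : (fun s => (S1 f : ℝ → H) (s + t)) =ᵐ[volume]
        fun s => star (v (-(s + t))) ((f : ℝ → H) (s + t)) :=
      (measurePreserving_add_right (volume : Measure ℝ) t).quasiMeasurePreserving.ae_eq_comp (hS1 f)
    apply Lp.ext
    filter_upwards [hS1 (S f), hS f, hS' (S1 f), hshift] with s h3 h4 h5 h6
    rw [h3, h4, h5, h6]
    have h8 := congrArg (fun T : H →L[ℂ] H => T (f (s + t))) (hkey s)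
    exact h8

end Pool.Agent.H255.BC.G_st3
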