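import Pool.Agent.H255.BC.Defs5

set_option autoImplicit false

open MeasureTheory Filter Topology Complex
open scoped InnerProductSpace ENNReal

namespace Pool.Agent.H255.BC.G_trp

open Pool.Agent.W662.CB Pool.Agent.H255.BC

/-- the commutant of a set of operators (and of their adjoints) -/
noncomputable def vnComm {K : Type} [NormedAddCommGroup K] [InnerProductSpace ℂ K] [CompleteSpace K]
    (S : Set (K →L[ℂ] K)) : VonNeumannAlgebra K where
  __ := StarSubalgebra.centralizer ℂ S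
  centralizer_centralizer' := Set.centralizer_centralizer_centralizer _

theorem mem_vnComm {K : Type} [NormedAddCommGroup K] [InnerProductSpace ℂ K] [CompleteSpace K]
    (S : Set (K →L[ℂ] K)) (hS : ∀ g ∈ S, star g ∈ S) (Y : K →L[ℂ] K) :
    Y ∈ vnComm S ↔ ∀ g ∈ S, g * Y = Y * g := by
  have h0 : Y ∈ vnComm S ↔ Y ∈ StarSubalgebra.centralizer ℂ S := Iff.rfl
  rw [h0, StarSubalgebra.mem_centralizer_iff]
  constructor
  · intro h g hg
    exact (h g hg).1
  · intro h g hg
    exact ⟨h g hg, h _ (hS g hg)⟩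

section

variable {H : Type} [NormedAddCommGroup H] [InnerProductSpace ℂ H] [CompleteSpace H]

theorem ten_inner {f : ℝ → ℂ} {T : H →L[ℂ] LR H} (hT : IsTen f T) (v : H) (F : LR H) :
    ⟪T v, F⟫_ℂ = ∫ p : ℝ, starRingEnd ℂ (f p) * ⟪v, F p⟫_ℂ := by
  rw [L2.inner_def]
  refine integral_congr_ae ?_
  filter_upwards [hT v] with p hp
  rw [hp, inner_smul_left]

theorem int_smul2 {f : ℝ → ℂ} (hf : MemLp f 2 (volume : Measure ℝ)) (F : LR H) :
    Integrable (fun p : ℝ => f p • F p) := by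
  have h1 : MemLp (fun p : ℝ => f p • F p) 1 (volume : Measure ℝ) :=
    (Lp.memLp F).smul (p := 2) (q := 2) (r := 1) hf
  exact memLp_one_iff_integrable.1 h1

theorem ten_adj {f : ℝ → ℂ} {T : H →L[ℂ] LR H} (hf : MemLp f 2 (volume : Measure ℝ))
    (hT : IsTen f T) (F : LR H) :
    ContinuousLinearMap.adjoint T F = ∫ p : ℝ, starRingEnd ℂ (f p) • F p := by
  have hf' : MemLp (fun p => starRingEnd ℂ (f p)) 2 (volume : Measure ℝ) := hf.star
  refine ext_inner_left ℂ fun v => ?_
  rw [ContinuousLinearMap.adjoint_inner_right, ten_inner hT,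
    ← integral_inner (int_smul2 hf' F)]
  refine integral_congr_ae (Eventually.of_forall fun p => ?_)
  simp only [inner_smul_right]

theorem ten_const {g : ℝ → ℂ} {Tg : H →L[ℂ] LR H} {K : LR H →L[ℂ] LR H} {y : H →L[ℂ] H}
    (hg : IsTen g Tg) (hK : IsConst y K) (v : H) : Tg (y v) = K (Tg v) := by
  refine Lp.ext ?_
  filter_upwards [hg (y v), hK (Tg v), hg v] with s b1 b2 b3
  rw [b1, b2, b3, map_smul]

/-- `T_f^* T_g = ⟨f, g⟩ 1` -/
theorem ten_ten {f g : ℝ → ℂ} {Tf Tg : H →L[ℂ] LR H} (hf : MemLp f 2 (volume : Measure ℝ))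
    (hTf : IsTen f Tf) (hTg : IsTen g Tg) (w : H) :
    ContinuousLinearMap.adjoint Tf (Tg w) = (∫ s : ℝ, starRingEnd ℂ (f s) * g s) • w := by
  rw [ten_adj hf hTf, ← integral_smul_const]
  refine integral_congr_ae ?_
  filter_upwards [hTg w] with p hp
  rw [hp, smul_smul]

theorem lam_const {lam : ℝ} {S K : LR H →L[ℂ] LR H} {y : H →L[ℂ] H} (hS : IsULam lam S)
    (hK : IsConst y K) : S * K = K * S := by
  ext1 f
  refine Lp.ext ?_
  filter_upwards [hS (K f), hK f, hK (S f), hS f] with s b1 b2 b3 b4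
  change (S (K f) : ℝ → H) s = (K (S f) : ℝ → H) s
  rw [b1, b2, b3, b4, map_smul]

theorem lam_dual {lam : ℝ} {U : ℝ → H →L[ℂ] H} {t : ℝ} {S V : LR H →L[ℂ] LR H} (hS : IsULam lam S)
    (hV : IsDual U t V) : V * S = cexp (-(I * ((t * Real.log lam : ℝ) : ℂ))) • (S * V) := by
  ext1 f
  refine Lp.ext ?_
  have h1 : ∀ᵐ s : ℝ, (S f : ℝ → H) (s + t) =
      cexp (-(I * (((s + t) * Real.log lam : ℝ) : ℂ))) • (f : ℝ → H) (s + t) :=
    (measurePreserving_add_right (volume : Measure ℝ) t).quasiMeasurePreserving.ae (hS f)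
  have h2 : ((cexp (-(I * ((t * Real.log lam : ℝ) : ℂ))) • (S * V)) f : LR H) =
      cexp (-(I * ((t * Real.log lam : ℝ) : ℂ))) • S (V f) := rfl
  rw [h2]
  filter_upwards [hV (S f), h1, hS (V f), hV f,
    Lp.coeFn_smul (cexp (-(I * ((t * Real.log lam : ℝ) : ℂ)))) (S (V f))] with s b1 b2 b3 b4 b5
  change (V (S f) : ℝ → H) s = _
  rw [b1, b2, b5, Pi.smul_apply, b3, b4, map_smul, smul_smul, ← Complex.exp_add]
  congr 2
  push_cast
  ring

variable {N M : VonNeumannAlgebra H} {U v : ℝ → H →L[ℂ] H} {W : H ≃ₗᵢ[ℂ] LR H}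

theorem const_eq (hW : IsSpat N U v W) {y : H →L[ℂ] H} (hy : y ∈ N.commutant)
    {S : LR H →L[ℂ] LR H} (hS : IsConst y S) : S = W.conjStarAlgEquiv y := by
  ext1 F
  rw [LinearIsometryEquiv.conjStarAlgEquiv_apply_apply, hW.comm y hy S hS, W.apply_symm_apply]

theorem dual_eq (hW : IsSpat N U v W) (t : ℝ) {S : LR H →L[ℂ] LR H} (hS : IsDual U t S) :
    S = W.conjStarAlgEquiv (v t * U t) := by
  ext1 F
  rw [LinearIsometryEquiv.conjStarAlgEquiv_apply_apply]
  change _ = W (v t (U t (W.symm F)))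
  rw [hW.dual t S hS, W.apply_symm_apply]

theorem amp_iff (hops : ∀ x : H →L[ℂ] H, ∃ S : LR H →L[ℂ] LR H, IsConst x S)
    (hW : IsSpat N U v W) (K : VonNeumannAlgebra H)
    (hK : ∀ y : H →L[ℂ] H, y ∈ K.commutant → y ∈ N.commutant) (x : H →L[ℂ] H) :
    W.conjStarAlgEquiv x ∈ Amp K ↔ x ∈ K := by
  constructor
  · intro h
    rw [← K.commutant_commutant, VonNeumannAlgebra.mem_commutant_iff]
    intro y hy
    obtain ⟨S, hS⟩ := hops y
    have h1 := h y hy S hS
    rw [const_eq hW (hK y hy) hS, ← map_mul, ← map_mul] at h1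
    exact ((EquivLike.injective W.conjStarAlgEquiv) h1).symm
  · intro hx y hy S hS
    rw [← K.commutant_commutant, VonNeumannAlgebra.mem_commutant_iff] at hx
    rw [const_eq hW (hK y hy) hS, ← map_mul, ← map_mul, hx y hy]

theorem sgw_eq (t : ℝ) (x : H →L[ℂ] H) : sgw U v t x = (v t * U t) * x * star (v t * U t) := by
  unfold sgw sgm
  rw [star_mul]
  noncomm_ring

theorem sgw_iff (hw : ∀ t, star (v t * U t) * (v t * U t) = 1)
    (hw' : ∀ t, (v t * U t) * star (v t * U t) = 1) (t : ℝ) (x : H →L[ℂ] H) (c : ℂ) :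
    sgw U v t x = c • x ↔ (v t * U t) * x = c • (x * (v t * U t)) := by
  rw [sgw_eq]
  constructor
  · intro h
    calc (v t * U t) * x = (v t * U t) * x * star (v t * U t) * (v t * U t) := by
          rw [mul_assoc _ (star (v t * U t)), hw, mul_one]
      _ = c • (x * (v t * U t)) := by rw [h, smul_mul_assoc]
  · intro h
    rw [h, smul_mul_assoc, mul_assoc, hw', mul_one]

theorem cen_iff (hops : ∀ x : H →L[ℂ] H, ∃ S : LR H →L[ℂ] LR H, IsConst x S)
    (hops' : ∀ t : ℝ, ∃ S : LR H →L[ℂ] LR H, IsDual U t S)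
    (hw : ∀ t, star (v t * U t) * (v t * U t) = 1)
    (hw' : ∀ t, (v t * U t) * star (v t * U t) = 1)
    (hW : IsSpat N U v W) (x : H →L[ℂ] H) :
    W.conjStarAlgEquiv x ∈ Cen N U ↔ x ∈ wCen N U v := by
  unfold Cen wCen
  simp only [Set.mem_ofPred_eq]
  rw [amp_iff hops hW N (fun _ h => h)]
  refine and_congr_right fun _ => ?_
  constructor
  · intro h t
    obtain ⟨S, hS⟩ := hops' t
    have h1 := h t S hS
    rw [dual_eq hW t hS, ← map_mul, ← map_mul] at h1
    have h2 := (sgw_iff hw hw' t x 1).2 (by rw [one_smul]; exact ((EquivLike.injective W.conjStarAlgEquiv) h1).symm)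
    rwa [one_smul] at h2
  · intro h t S hS
    have h2 := (sgw_iff hw hw' t x 1).1 (by rw [one_smul]; exact h t)
    rw [one_smul] at h2
    rw [dual_eq hW t hS, ← map_mul, ← map_mul, h2]

theorem wCen_star {x : H →L[ℂ] H} (hx : x ∈ wCen N U v) : star x ∈ wCen N U v := by
  refine ⟨star_mem hx.1, fun t => ?_⟩
  have h := congrArg star (hx.2 t)
  rw [sgw_eq] at h ⊢
  generalize v t * U t = w at h ⊢
  rw [star_mul, star_mul, star_star, ← mul_assoc] at h
  exact h

theorem rc_iff (hops : ∀ x : H →L[ℂ] H, ∃ S : LR H →L[ℂ] LR H, IsConst x S)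
    (hops' : ∀ t : ℝ, ∃ S : LR H →L[ℂ] LR H, IsDual U t S)
    (hw : ∀ t, star (v t * U t) * (v t * U t) = 1)
    (hw' : ∀ t, (v t * U t) * star (v t * U t) = 1)
    (hW : IsSpat N U v W) (hK : ∀ y : H →L[ℂ] H, y ∈ M.commutant → y ∈ N.commutant)
    (x : H →L[ℂ] H) :
    W.conjStarAlgEquiv x ∈ RC N M U ↔ (x ∈ M ∧ ∀ y ∈ wCen N U v, x * y = y * x) := by
  unfold RC
  simp only [Set.mem_ofPred_eq]
  rw [amp_iff hops hW M hK]
  refine and_congr_right fun _ => ?_
  constructor
  · intro h y hy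
    have h1 := h _ ((cen_iff hops hops' hw hw' hW y).2 hy)
    rw [← map_mul, ← map_mul] at h1
    exact ((EquivLike.injective W.conjStarAlgEquiv) h1).symm
  · intro h X hX
    obtain ⟨y, rfl⟩ := EquivLike.surjective W.conjStarAlgEquiv X
    rw [← map_mul, ← map_mul, h y ((cen_iff hops hops' hw hw' hW y).1 hX)]

theorem flow_aux {K : Type} [NormedAddCommGroup K] [InnerProductSpace ℂ K] [CompleteSpace K]
    (S Y u : K →L[ℂ] K) (hS2 : star S * S = 1) (hS3 : S * star S = 1) (hu3 : u * star u = 1)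
    (hZY : star S * u * Y = Y * (star S * u)) : S * Y * star S = u * Y * star u := by
  have e6 : star S * u * (star u * S) = 1 := by
    rw [mul_assoc, ← mul_assoc u, hu3, one_mul, hS2]
  calc S * Y * star S = S * (Y * (star S * u * (star u * S))) * star S := by
        rw [e6, mul_one]
    _ = S * (Y * (star S * u)) * (star u * S) * star S := by
        simp only [mul_assoc]
    _ = S * (star S * u * Y) * (star u * S) * star S := by rw [hZY]
    _ = (S * star S) * u * Y * star u * (S * star S) := by simp only [mul_assoc]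
    _ = u * Y * star u := by rw [hS3, one_mul, mul_one]

/-- `S_lam^* û` lies in the centralizer -/
theorem z_cen (o3 : ∀ x : H →L[ℂ] H, ∃ S : LR H →L[ℂ] LR H, IsConst x S ∧ IsConst (star x) (star S))
    (hw : ∀ t, star (v t * U t) * (v t * U t) = 1)
    (hw' : ∀ t, (v t * U t) * star (v t * U t) = 1)
    (hW : IsSpat N U v W) {lam : ℝ} {S : LR H →L[ℂ] LR H} (hS1 : IsULam lam S)
    (hS2 : star S * S = 1) (hS3 : S * star S = 1) {u : H →L[ℂ] H} (hu1 : u ∈ N)
    (hu4 : ∀ t : ℝ, sgw U v t u = cexp (-(I * ((t * Real.log lam : ℝ) : ℂ))) • u) :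
    star S * W.conjStarAlgEquiv u ∈ Cen N U := by
  have hops : ∀ x : H →L[ℂ] H, ∃ S : LR H →L[ℂ] LR H, IsConst x S := fun x => by
    obtain ⟨S, hS, -⟩ := o3 x
    exact ⟨S, hS⟩
  have hΦu : W.conjStarAlgEquiv u ∈ Amp N := (amp_iff hops hW N (fun _ h => h) u).2 hu1
  refine ⟨?_, ?_⟩
  · intro y hy K hK'
    obtain ⟨K', hK1, hK2⟩ := o3 (star y)
    have e1 : star K' = K := by
      rw [star_star] at hK2
      ext1 f
      exact Lp.ext ((hK2 f).trans (hK' f).symm)
    have e2 : star S * K = K * star S := by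
      have := congrArg star (lam_const hS1 hK1)
      rw [star_mul, star_mul, e1] at this
      exact this.symm
    rw [mul_assoc, hΦu y hy K hK', ← mul_assoc, e2, mul_assoc]
  · intro t V hV
    have e1 := lam_dual hS1 hV
    have e0 := (sgw_iff hw hw' t u _).1 (hu4 t)
    have hc0 : cexp (-(I * ((t * Real.log lam : ℝ) : ℂ))) ≠ 0 := Complex.exp_ne_zero _
    generalize cexp (-(I * ((t * Real.log lam : ℝ) : ℂ))) = c at e1 e0 hc0
    have e2 : star S * V = c • (V * star S) := by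
      calc star S * V = star S * (V * S) * star S := by
            rw [mul_assoc (star S), mul_assoc V, hS3, mul_one]
        _ = c • (V * star S) := by
            rw [e1, mul_smul_comm, smul_mul_assoc, ← mul_assoc (star S), hS2, one_mul]
    have e3 : V * W.conjStarAlgEquiv u = c • (W.conjStarAlgEquiv u * V) := by
      rw [dual_eq hW t hV, ← map_mul, ← map_mul, ← map_smul, e0]
    generalize W.conjStarAlgEquiv u = u' at e3
    have e4 : c • (star S * u' * V) = c • (V * (star S * u')) := by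
      calc c • (star S * u' * V) = star S * (c • (u' * V)) := by
            rw [mul_smul_comm, mul_assoc]
        _ = star S * V * u' := by rw [← e3, mul_assoc]
        _ = c • (V * (star S * u')) := by rw [e2, smul_mul_assoc, mul_assoc]
    exact smul_right_injective _ hc0 e4

/-- the expectation -/
theorem exp_aux {ξ : H} {J : H → H} {E : (H →L[ℂ] H) → (H →L[ℂ] H)} (hInc : Inc N M ξ U J E)
    (hops : ∀ x : H →L[ℂ] H, ∃ S : LR H →L[ℂ] LR H, IsConst x S)
    (hW : IsSpat N U v W) (h3 : S_bas) {z : H →L[ℂ] H} (hzM : z ∈ M) {Y : LR H →L[ℂ] LR H}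
    (hzY : ∀ w : H, W (z w) = Y (W w)) (c : ℂ)
    (hexp : ∀ (f g : ℝ → ℂ) (Tf Tg : H →L[ℂ] LR H), MemLp f 2 (volume : Measure ℝ) →
      MemLp g 2 (volume : Measure ℝ) → IsTen f Tf → IsTen g Tg →
      E (ContinuousLinearMap.adjoint Tf ∘L Y ∘L Tg) =
        (c * ∫ s : ℝ, starRingEnd ℂ (f s) * g s) • (1 : H →L[ℂ] H)) :
    E z = c • (1 : H →L[ℂ] H) := by
  obtain ⟨e, he1, -, he3⟩ := h3
  set D : H →L[ℂ] H := E z - c • 1 with hD
  have ha : ∀ (k : ℕ) (T : H →L[ℂ] LR H), IsTen (e k) T →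
      (W.symm.toContinuousLinearEquiv.toContinuousLinearMap ∘L T : H →L[ℂ] H) ∈ N := by
    intro k T hT
    rw [← N.commutant_commutant, VonNeumannAlgebra.mem_commutant_iff]
    intro y hy
    obtain ⟨S, hS⟩ := hops y
    have h4 := const_eq hW hy hS
    ext1 w
    change y (W.symm (T w)) = W.symm (T (y w))
    rw [ten_const hT hS, h4, LinearIsometryEquiv.conjStarAlgEquiv_apply_apply,
      W.symm_apply_apply]
  have hDa : ∀ (k l : ℕ) (Tk Tl : H →L[ℂ] LR H), IsTen (e k) Tk → IsTen (e l) Tl →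
      ∀ p q : H, ⟪W.symm (Tk p), D (W.symm (Tl q))⟫_ℂ = 0 := by
    intro k l Tk Tl hTk hTl p q
    obtain ⟨a, hak⟩ : ∃ a : H →L[ℂ] H,
      a = W.symm.toContinuousLinearEquiv.toContinuousLinearMap ∘L Tk := ⟨_, rfl⟩
    obtain ⟨b, hbl⟩ : ∃ b : H →L[ℂ] H,
      b = W.symm.toContinuousLinearEquiv.toContinuousLinearMap ∘L Tl := ⟨_, rfl⟩
    have ha' : ∀ w, a w = W.symm (Tk w) := fun w => by rw [hak]; rfl
    have hb' : ∀ w, b w = W.symm (Tl w) := fun w => by rw [hbl]; rfl
    have haN : a ∈ N := by rw [hak]; exact ha k Tk hTk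
    have hbN : b ∈ N := by rw [hbl]; exact ha l Tl hTl
    clear hak hbl
    have hsa : ∀ F : LR H, star a (W.symm F) = ContinuousLinearMap.adjoint Tk F := by
      intro F
      refine ext_inner_left ℂ fun r => ?_
      rw [ContinuousLinearMap.star_eq_adjoint, ContinuousLinearMap.adjoint_inner_right,
        ContinuousLinearMap.adjoint_inner_right, ha', LinearIsometryEquiv.inner_map_map]
    have e1 : E (star a * z * b) = star a * E z * b := by
      rw [hInc.exp.right b (star a * z) hbN (mul_mem (hInc.le _ (star_mem haN)) hzM),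
        hInc.exp.left (star a) z (star_mem haN) hzM]
    have e2 : star a * z * b = ContinuousLinearMap.adjoint Tk ∘L Y ∘L Tl := by
      ext1 w
      change star a (z (b w)) = ContinuousLinearMap.adjoint Tk (Y (Tl w))
      rw [← hsa, hb']
      congr 1
      apply W.injective
      rw [hzY, W.apply_symm_apply, W.apply_symm_apply]
    have e3 := hexp (e k) (e l) Tk Tl (he1 k) (he1 l) hTk hTl
    rw [← e2, e1] at e3
    have e4 : star a (b q) = (∫ s : ℝ, starRingEnd ℂ (e k s) * e l s) • q := by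
      rw [hb', hsa, ten_ten (he1 k) hTk hTl]
    have e5 : star a (D (b q)) = 0 := by
      have e6 : star a (E z (b q)) = (c * ∫ s : ℝ, starRingEnd ℂ (e k s) * e l s) • q :=
        congrArg (fun A : H →L[ℂ] H => A q) e3
      have e7 : D (b q) = E z (b q) - c • b q := by rw [hD]; rfl
      rw [e7, map_sub, e6, map_smul, e4, smul_smul, sub_self]
    rw [← ha', ← hb', ← ContinuousLinearMap.adjoint_inner_right,
      ← ContinuousLinearMap.star_eq_adjoint, e5, inner_zero_right]
  have hD1 : ∀ (l : ℕ) (Tl : H →L[ℂ] LR H), IsTen (e l) Tl → ∀ q : H,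
      D (W.symm (Tl q)) = 0 := by
    intro l Tl hTl q
    have h5 := he3 H (W (D (W.symm (Tl q)))) (by
      intro k T hT p
      rw [← W.symm.inner_map_map, W.symm_apply_apply]
      exact hDa k l T Tl hT hTl p q)
    exact (map_eq_zero_iff W W.injective).1 h5
  have hD2 : star D = 0 := by
    ext1 η
    have h5 := he3 H (W (star D η)) (by
      intro k T hT p
      rw [← W.symm.inner_map_map, W.symm_apply_apply, ContinuousLinearMap.star_eq_adjoint,
        ContinuousLinearMap.adjoint_inner_right, hD1 k T hT, inner_zero_left])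
    exact (map_eq_zero_iff W W.injective).1 h5
  have hD3 : D = 0 := by
    rw [← star_star D, hD2, star_zero]
  exact sub_eq_zero.1 hD3

end

theorem r (h1 : S_D2) (h2 : S_ops) (h3 : S_bas) : S_trp := by
  intro H _ _ _ N M ξ U J E β v W hInc hIII hβ hv hW
  obtain ⟨B, C₀, π₀, hB, hC₀, hflow, hexp⟩ := h1 H N M ξ U E β hInc.le hInc.unit hInc.cyc hInc.sep
    hInc.modular hInc.exp hInc.inv hIII hβ
  obtain ⟨o1, -, o3, o4, -, o6⟩ := h2 H M ξ U hInc.modular
  have hops : ∀ x : H →L[ℂ] H, ∃ S : LR H →L[ℂ] LR H, IsConst x S := fun x => by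
    obtain ⟨S, hS, -⟩ := o3 x
    exact ⟨S, hS⟩
  have hops' : ∀ t : ℝ, ∃ S : LR H →L[ℂ] LR H, IsDual U t S := fun t => by
    obtain ⟨S, hS, -⟩ := o1 t
    exact ⟨S, hS⟩
  have hU : ∀ t, star (U t) * U t = 1 := fun t => by
    rw [hInc.modular.star_eq, ← hInc.modular.add, neg_add_cancel, hInc.modular.zero]
  have hU' : ∀ t, U t * star (U t) = 1 := fun t => by
    rw [hInc.modular.star_eq, ← hInc.modular.add, add_neg_cancel, hInc.modular.zero]
  have hw : ∀ t, star (v t * U t) * (v t * U t) = 1 := fun t => by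
    rw [star_mul, mul_assoc, ← mul_assoc (star (v t)), hv.star_mul, one_mul, hU]
  have hw' : ∀ t, (v t * U t) * star (v t * U t) = 1 := fun t => by
    rw [star_mul, mul_assoc, ← mul_assoc (U t), hU', one_mul, hv.mul_star]
  have hK : ∀ y : H →L[ℂ] H, y ∈ M.commutant → y ∈ N.commutant := by
    intro y hy
    rw [VonNeumannAlgebra.mem_commutant_iff] at hy ⊢
    exact fun g hg => hy g (hInc.le g hg)
  have hrc := rc_iff hops hops' hw hw' hW hK
  have hS : ∀ g ∈ ({y : H →L[ℂ] H | y ∈ M.commutant} ∪ wCen N U v : Set (H →L[ℂ] H)),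
      star g ∈ ({y : H →L[ℂ] H | y ∈ M.commutant} ∪ wCen N U v : Set (H →L[ℂ] H)) := by
    rintro g (hg | hg)
    · exact Or.inl (show star g ∈ M.commutant from star_mem hg)
    · exact Or.inr (wCen_star hg)
  have hC : ∀ x : H →L[ℂ] H, x ∈ vnComm ({y : H →L[ℂ] H | y ∈ M.commutant} ∪ wCen N U v) ↔
      (x ∈ M ∧ ∀ y ∈ wCen N U v, x * y = y * x) := by
    intro x
    rw [mem_vnComm _ hS]
    have hM : x ∈ M ↔ ∀ y : H →L[ℂ] H, y ∈ M.commutant → y * x = x * y := by
      conv_lhs => rw [← M.commutant_commutant]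
      rw [VonNeumannAlgebra.mem_commutant_iff]
    rw [hM]
    constructor
    · intro h
      exact ⟨fun y hy => h y (Or.inl hy), fun y hy => (h y (Or.inr hy)).symm⟩
    · rintro ⟨g1, g2⟩ g (hg | hg)
      · exact g1 g hg
      · exact (g2 g hg).symm
  have hCC : ∀ x : H →L[ℂ] H, x ∈ vnComm ({y : H →L[ℂ] H | y ∈ M.commutant} ∪ wCen N U v) ↔
      W.conjStarAlgEquiv x ∈ C₀ := by
    intro x
    rw [hC, ← hrc, hC₀]
  set C := vnComm ({y : H →L[ℂ] H | y ∈ M.commutant} ∪ wCen N U v) with hCdef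
  set Φ := W.conjStarAlgEquiv with hΦ
  have hmem : ∀ Y : C₀.toStarSubalgebra, Φ.symm (Y : LR H →L[ℂ] LR H) ∈ C.toStarSubalgebra := by
    intro Y
    refine (hCC _).2 ?_
    rw [StarAlgEquiv.apply_symm_apply]
    exact Y.2
  have hmem' : ∀ x : C.toStarSubalgebra, Φ (x : H →L[ℂ] H) ∈ C₀.toStarSubalgebra :=
    fun x => (hCC _).1 x.2
  let π : B.toStarSubalgebra ≃⋆ₐ[ℂ] C.toStarSubalgebra :=
    { toFun := fun x => ⟨Φ.symm (π₀ x : LR H →L[ℂ] LR H), hmem (π₀ x)⟩
      invFun := fun y => π₀.symm ⟨Φ (y : H →L[ℂ] H), hmem' y⟩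
      left_inv := by
        intro x
        apply EquivLike.injective π₀
        rw [StarAlgEquiv.apply_symm_apply]
        apply Subtype.ext
        exact Φ.apply_symm_apply _
      right_inv := by
        intro y
        apply Subtype.ext
        change Φ.symm (π₀ (π₀.symm ⟨Φ (y : H →L[ℂ] H), hmem' y⟩) : LR H →L[ℂ] LR H) = _
        rw [StarAlgEquiv.apply_symm_apply]
        exact Φ.symm_apply_apply _
      map_mul' := by
        intro x y
        apply Subtype.ext
        change Φ.symm (π₀ (x * y) : LR H →L[ℂ] LR H) = Φ.symm (π₀ x) * Φ.symm (π₀ y)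
        have e : (π₀ (x * y) : LR H →L[ℂ] LR H) = (π₀ x : LR H →L[ℂ] LR H) * π₀ y := by
          rw [map_mul]
          rfl
        rw [e, map_mul]
      map_add' := by
        intro x y
        apply Subtype.ext
        change Φ.symm (π₀ (x + y) : LR H →L[ℂ] LR H) = Φ.symm (π₀ x) + Φ.symm (π₀ y)
        have e : (π₀ (x + y) : LR H →L[ℂ] LR H) = (π₀ x : LR H →L[ℂ] LR H) + π₀ y := by
          rw [map_add]
          rfl
        rw [e, map_add]
      map_star' := by
        intro x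
        apply Subtype.ext
        change Φ.symm (π₀ (star x) : LR H →L[ℂ] LR H) = star (Φ.symm (π₀ x))
        have e : (π₀ (star x) : LR H →L[ℂ] LR H) = star (π₀ x : LR H →L[ℂ] LR H) := by
          rw [map_star]
          rfl
        rw [e, map_star]
      map_smul' := by
        intro z x
        apply Subtype.ext
        change Φ.symm (π₀ (z • x) : LR H →L[ℂ] LR H) = z • (Φ.symm (π₀ x))
        have e : (π₀ (z • x) : LR H →L[ℂ] LR H) = z • (π₀ x : LR H →L[ℂ] LR H) := by
          rw [map_smul]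
          rfl
        rw [e, map_smul] }
  have hπ : ∀ x : B.toStarSubalgebra, Φ (π x : H →L[ℂ] H) = (π₀ x : LR H →L[ℂ] LR H) :=
    fun x => Φ.apply_symm_apply _
  refine ⟨B, C, π, hB, hC, ?_, ?_⟩
  · intro lam hlam x y hxy u hu
    obtain ⟨S, hS1, hS2, hS3, -⟩ := o6 lam hlam
    obtain ⟨hu1, hu2, hu3, hu4⟩ := hu
    have hY := hflow lam hlam x y hxy S hS1
    apply EquivLike.injective Φ
    rw [map_mul, map_mul, hπ, hπ, map_star, hY]
    have hYR : (π₀ x : LR H →L[ℂ] LR H) ∈ RC N M U := (hC₀ _).1 (π₀ x).2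
    refine flow_aux S _ (Φ u) hS2 hS3 ?_ ?_
    · rw [← map_star, ← map_mul, hu3, map_one]
    · exact hYR.2 _ (z_cen (fun x => by
        obtain ⟨S, g1, -, g2⟩ := o3 x
        exact ⟨S, g1, g2⟩) hw hw' hW hS1 hS2 hS3 hu1 hu4)
  · intro x
    have hzM : (π x : H →L[ℂ] H) ∈ M := ((hC _).1 (π x).2).1
    refine exp_aux hInc hops hW h3 hzM (Y := (π₀ x : LR H →L[ℂ] LR H)) ?_ _ (hexp x)
    intro w
    rw [← hπ, LinearIsometryEquiv.conjStarAlgEquiv_apply_apply, W.symm_apply_apply]

end Pool.Agent.H255.BC.G_trp
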