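import Pool.Agent.H255.BC.All3
import Pool.Agent.H255.BC.All4
import Pool.Agent.H255.BC.G_cun
import Pool.Agent.H255.BC.G_bas
import Pool.Agent.H255.BC.G_Z0
import Pool.Agent.H255.BC.G_trp
import Pool.Agent.H255.BC.G_opn
import Pool.Agent.H255.BC.G_mis
import Pool.Agent.H255.BC.G_sel
import Pool.Agent.H255.BC.G_mop
import Pool.Agent.H255.BC.G_st1
import Pool.Agent.H255.BC.G_st2
import Pool.Agent.H255.BC.G_st3
import Pool.Agent.H255.BC.G_spat
import Pool.Agent.H255.BC.G_dex

set_option autoImplicit false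

namespace Pool.Agent.H255.BC

open Pool.Agent.W662.CB

theorem hcun : S_cun := G_cun.r
theorem hbas : S_bas := G_bas.r
theorem hZ0 : S_Z0 := G_Z0.r hbas
theorem hdex : S_dex := G_dex.r hcun hZ0 hops hgen
theorem htrp : S_trp := G_trp.r hD2 hops hbas
theorem hopn : S_opn := G_opn.r
theorem hmis : S_mis := G_mis.r hopn
theorem hsel : S_sel := G_sel.r hmis
theorem hmop : S_mop := G_mop.r
theorem hst1 : S_st1 := G_st1.r hsel hmop
theorem hst2 : S_st2 := G_st2.r
theorem hst3 : S_st3 := G_st3.r hopmul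
theorem hspat : S_spat := G_spat.r hcun hZ0 hst1 hfou hst2 hst3 hops

end Pool.Agent.H255.BC
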