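import Pool.Agent.H255.BC.Defs6

set_option autoImplicit false

open MeasureTheory Filter Topology Complex
open scoped InnerProductSpace ENNReal FourierTransform

namespace Pool.Agent.H255.BC.C_ai

open Pool.Agent.W662.CB Pool.Agent.H255.BC

theorem r (h1 : S_spi) (h2 : S_con) : S_ai := by
  intro H _ _ _ M ξ U J hM hIII e f he hf hef he0 hf0 hJe hJf δ hδ
  have hδ' : 0 < min (1 / 8 : ℝ) (δ ^ 2 / 16) := lt_min (by norm_num) (by positivity)
  obtain ⟨z, hzM, hz0, hfze, hz⟩ := h1 H M ξ U J hM hIII e f he hf he0 hf0 hJe hJf _ hδ'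
  obtain ⟨w, hwM, hw0, hfwe, hww, hw⟩ := h2 H M ξ U J hM e f he hf hef hJe hJf z _ hzM hz0 hfze
    hδ' (min_le_left _ _) hz
  refine ⟨w, hwM, hw0, hfwe, hww, ?_⟩
  have h3 : 16 * min (1 / 8 : ℝ) (δ ^ 2 / 16) ≤ δ ^ 2 := by
    have := min_le_right (1 / 8 : ℝ) (δ ^ 2 / 16)
    linarith
  have h4 : ‖J (star w ξ) - w ξ‖ ^ 2 ≤ (δ * ‖w ξ‖) ^ 2 := by
    refine hw.trans ?_
    rw [mul_pow]
    exact mul_le_mul_of_nonneg_right h3 (by positivity)
  exact abs_le_of_sq_le_sq' h4 (by positivity) |>.2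

end Pool.Agent.H255.BC.C_ai
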