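import Pool.Agent.H255.BC.Defs6

set_option autoImplicit false

open MeasureTheory Filter Topology Complex
open scoped InnerProductSpace ENNReal FourierTransform

namespace Pool.Agent.H255.BC.C_cent

open Pool.Agent.W662.CB Pool.Agent.H255.BC

variable {H : Type} [NormedAddCommGroup H] [InnerProductSpace ℂ H] [CompleteSpace H]

/-- An entire function which is `I`-periodic and bounded on the strip `|im z| ≤ 1` is constant. -/
theorem const_of_per {f : ℂ → ℂ} (hd : Differentiable ℂ f) (hp : ∀ z, f z = f (z - I))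
    {C : ℝ} (hb : ∀ z : ℂ, |z.im| ≤ 1 → ‖f z‖ ≤ C) (z w : ℂ) : f z = f w := by
  have hper : Function.Periodic f I := fun z => by rw [hp (z + I), add_sub_cancel_right]
  refine hd.apply_eq_apply_of_bounded ?_ z w
  rw [isBounded_iff_forall_norm_le]
  refine ⟨C, ?_⟩
  rintro _ ⟨z, rfl⟩
  rw [← hper.sub_zsmul_eq ⌊z.im⌋]
  refine hb _ ?_
  have h1 : (z - ⌊z.im⌋ • I).im = z.im - ⌊z.im⌋ := by simp
  rw [h1, abs_le]
  have h2 := Int.floor_le z.im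
  have h3 := Int.lt_floor_add_one z.im
  constructor <;> linarith

theorem star_inner (a : H →L[ℂ] H) (v w : H) : ⟪star a v, w⟫_ℂ = ⟪v, a w⟫_ℂ := by
  rw [ContinuousLinearMap.star_eq_adjoint, ContinuousLinearMap.adjoint_inner_left]

theorem an_pair (h1 : S_A2) {M : VonNeumannAlgebra H} {ξ : H} {U : ℝ → H →L[ℂ] H} {J : H → H}
    (hm : Mod M ξ U J) {p : H →L[ℂ] H} (hp : IsPr M p)
    (hc : ∀ x : H →L[ℂ] H, x ∈ M → vst ξ (p * x) = vst ξ (x * p)) {F : ℂ → H →L[ℂ] H}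
    (hF : IsAn M U F) : ⟪J (p ξ), F 0 ξ⟫_ℂ = ⟪p ξ, F 0 ξ⟫_ℂ := by
  have hpi : ∀ v : H, ⟪p ξ, v⟫_ℂ = ⟪ξ, p v⟫_ℂ := by
    intro v
    have := star_inner p ξ v
    rwa [hp.sa] at this
  have hper : ∀ z, vst ξ (p * F z) = vst ξ (p * F (z - I)) := by
    intro z
    rw [hc _ (hF.mem z)]
    exact h1 H M ξ U hm.modular F hF z p hp.mem
  have hdiff : Differentiable ℂ fun z => vst ξ (p * F z) := by
    have h2 : (fun z => vst ξ (p * F z)) = fun z => ⟪p ξ, F z ξ⟫_ℂ := by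
      funext z
      rw [hpi]
      rfl
    rw [h2]
    exact (innerSL ℂ (p ξ)).differentiable.comp (hF.diff ξ)
  obtain ⟨C, hC⟩ := hF.bdd 1
  have hconst := const_of_per hdiff hper (C := ‖p ξ‖ * (C * ‖ξ‖)) (fun z hz => by
    have h3 : vst ξ (p * F z) = ⟪p ξ, F z ξ⟫_ℂ := by
      rw [hpi]
      rfl
    rw [h3]
    refine (norm_inner_le_norm _ _).trans (mul_le_mul_of_nonneg_left ?_ (norm_nonneg _))
    exact ((F z).le_opNorm ξ).trans (mul_le_mul_of_nonneg_right (hC z hz) (norm_nonneg _)))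
  have hJ : ∀ v w : H, ⟪J v, w⟫_ℂ = ⟪J w, v⟫_ℂ := by
    intro v w
    have := hm.conj.inner v (J w)
    rwa [hm.conj.inv] at this
  calc ⟪J (p ξ), F 0 ξ⟫_ℂ = ⟪J (F 0 ξ), p ξ⟫_ℂ := hJ _ _
    _ = ⟪star (F (I / 2)) ξ, p ξ⟫_ℂ := by rw [hm.conj.an F hF]
    _ = vst ξ (F (I / 2) * p) := star_inner _ _ _
    _ = vst ξ (p * F (I / 2)) := (hc _ (hF.mem _)).symm
    _ = vst ξ (p * F 0) := hconst _ _
    _ = ⟪p ξ, F 0 ξ⟫_ℂ := (hpi _).symm

theorem r (h1 : S_A2) (h2 : S_A8a) : S_cent := by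
  intro H _ _ _ M ξ U J hm p hp hc
  have hdense : ∀ v : H, (∃ x : H →L[ℂ] H, x ∈ M ∧ x ξ = v) → ⟪J (p ξ), v⟫_ℂ = ⟪p ξ, v⟫_ℂ := by
    rintro v ⟨a, ha, rfl⟩
    obtain ⟨F, hF, hlim⟩ := h2 H M ξ U hm.modular a ha
    have h3 := (innerSL ℂ (J (p ξ))).continuous.tendsto (a ξ) |>.comp (hlim ξ)
    have h4 := (innerSL ℂ (p ξ)).continuous.tendsto (a ξ) |>.comp (hlim ξ)
    have h5 : (⇑(innerSL ℂ (J (p ξ))) ∘ fun n => F n 0 ξ) =
        ⇑(innerSL ℂ (p ξ)) ∘ fun n => F n 0 ξ := by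
      funext n
      exact an_pair h1 hm hp hc (hF n)
    rw [h5] at h3
    exact tendsto_nhds_unique h3 h4
  have heq : (fun v => ⟪J (p ξ), v⟫_ℂ) = fun v => ⟪p ξ, v⟫_ℂ :=
    Continuous.ext_on hm.cyc (innerSL ℂ (J (p ξ))).continuous (innerSL ℂ (p ξ)).continuous
      fun v hv => hdense v hv
  exact ext_inner_right ℂ fun v => congrFun heq v

end Pool.Agent.H255.BC.C_cent
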