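import Pool.Agent.H255.BC.Defs6
import Pool.Agent.H255.BC.P_ps

set_option autoImplicit false

/-!
Scalar part of Connes' trick.
-/

namespace Pool.Agent.H670.BC

/-- weights for the thresholds -/
theorem exists_mu {n : ℕ} (l : Fin n → ℝ) (hl : ∀ j, 0 < l j) (hm : StrictMono l) :
    ∃ μ : Fin n → ℝ, (∀ k, 0 < μ k) ∧ ∀ j, ∑ k, (if k ≤ j then μ k else 0) = l j ^ 2 := by
  classical
  let L : ℕ → ℝ := fun m => if m = 0 then 0 else if h : m - 1 < n then (l ⟨m - 1, h⟩) ^ 2 else 0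
  have hL : ∀ (m : ℕ) (h : m < n), L (m + 1) = (l ⟨m, h⟩) ^ 2 := by
    intro m h
    simp [L, h]
  refine ⟨fun k => L (k + 1) - L k, ?_, ?_⟩
  · rintro ⟨k, hk⟩
    show 0 < L (k + 1) - L k
    rw [hL k hk]
    rcases k with _ | k
    · have : L 0 = 0 := by simp [L]
      rw [this, sub_zero]
      exact pow_pos (hl _) 2
    · rw [hL k (by omega)]
      have h1 : l ⟨k, by omega⟩ < l ⟨k + 1, hk⟩ := hm (by simp [Fin.lt_def])
      have h2 := hl ⟨k, by omega⟩
      have : l ⟨k, by omega⟩ ^ 2 < l ⟨k + 1, hk⟩ ^ 2 := pow_lt_pow_left₀ h1 h2.le two_ne_zero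
      linarith
  · intro j
    have h1 : ∑ k : Fin n, (if k ≤ j then (L (k + 1) - L k) else 0) =
        ∑ m ∈ Finset.range n, (if m ≤ (j : ℕ) then L (m + 1) - L m else 0) := by
      rw [Finset.sum_range]
      refine Finset.sum_congr rfl fun k _ => ?_
      simp only [Fin.le_def]
    rw [h1, ← Finset.sum_filter]
    have h2 : (Finset.range n).filter (fun m => m ≤ (j : ℕ)) = Finset.range (j + 1) := by
      ext m
      simp only [Finset.mem_filter, Finset.mem_range]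
      have := j.2
      omega
    rw [h2, Finset.sum_range_sub, hL j j.2]
    have : L 0 = 0 := by simp [L]
    rw [this, sub_zero]

/-- a signed function on the spectrum -/
def Fv {n : ℕ} (t : Fin n → ℝ) : Option (Bool × Fin n) → ℝ
  | none => 0
  | some (true, j) => t j
  | some (false, j) => - t j

/-- thresholds -/
noncomputable def ta {n : ℕ} (k j : Fin n) : ℝ := if k ≤ j then 1 else 0

theorem ta_sq {n : ℕ} (k j : Fin n) : ta k j ^ 2 = ta k j := by
  unfold ta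
  split_ifs <;> norm_num

theorem ta_mul {n : ℕ} (k j j' : Fin n) : ta k j * ta k j' = ta k (min j j') := by
  unfold ta
  by_cases h1 : k ≤ j <;> by_cases h2 : k ≤ j' <;> simp [h1, h2]

section

variable {n : ℕ} {l μ : Fin n → ℝ}

theorem sum_ta (hμ : ∀ j, ∑ k, (if k ≤ j then μ k else 0) = l j ^ 2) (j : Fin n) :
    ∑ k, μ k * ta k j = l j ^ 2 := by
  rw [← hμ j]
  refine Finset.sum_congr rfl fun k _ => ?_
  unfold ta
  split_ifs <;> simp

theorem sum_sq (hμ : ∀ j, ∑ k, (if k ≤ j then μ k else 0) = l j ^ 2)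
    (i : Option (Bool × Fin n)) :
    ∑ k, μ k * Fv (ta k) i ^ 2 = Fv l i ^ 2 := by
  rcases i with _ | ⟨_ | _, j⟩
  · simp [Fv]
  · simp only [Fv, neg_sq, ta_sq]
    exact sum_ta hμ j
  · simp only [Fv, ta_sq]
    exact sum_ta hμ j

/-- the sum with a sign -/
theorem sum_cross (hμ : ∀ j, ∑ k, (if k ≤ j then μ k else 0) = l j ^ 2) (s : ℝ) (j j' : Fin n) :
    ∑ k, μ k * (ta k j ^ 2 + ta k j' ^ 2 - 2 * s * (ta k j * ta k j')) =
      l j ^ 2 + l j' ^ 2 - 2 * s * l (min j j') ^ 2 := by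
  have h : ∀ k, μ k * (ta k j ^ 2 + ta k j' ^ 2 - 2 * s * (ta k j * ta k j')) =
      μ k * ta k j + μ k * ta k j' - 2 * s * (μ k * ta k (min j j')) := by
    intro k
    rw [ta_sq, ta_sq, ta_mul]
    ring
  rw [Finset.sum_congr rfl fun k _ => h k, Finset.sum_sub_distrib, Finset.sum_add_distrib,
    ← Finset.mul_sum, sum_ta hμ, sum_ta hμ, sum_ta hμ]

theorem sum_diff (hl : ∀ j, 0 < l j) (hm : StrictMono l)
    (hμ : ∀ j, ∑ k, (if k ≤ j then μ k else 0) = l j ^ 2) (i i' : Option (Bool × Fin n)) :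
    ∑ k, μ k * (Fv (ta k) i - Fv (ta k) i') ^ 2 ≤
      |Fv l i - Fv l i'| * (|Fv l i| + |Fv l i'|) := by
  have hnone : ∀ i : Option (Bool × Fin n), Fv l i ^ 2 = |Fv l i| * |Fv l i| := by
    intro i
    rw [← pow_two, sq_abs]
  rcases i with _ | ⟨b, j⟩
  · have h1 : ∀ k, μ k * (Fv (ta k) none - Fv (ta k) i') ^ 2 = μ k * Fv (ta k) i' ^ 2 := by
      intro k
      simp [Fv]
    rw [Finset.sum_congr rfl fun k _ => h1 k, sum_sq hμ, hnone]
    simp [Fv]
  rcases i' with _ | ⟨b', j'⟩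
  · have h1 : ∀ k, μ k * (Fv (ta k) (some (b, j)) - Fv (ta k) none) ^ 2 =
        μ k * Fv (ta k) (some (b, j)) ^ 2 := by
      intro k
      simp [Fv]
    rw [Finset.sum_congr rfl fun k _ => h1 k, sum_sq hμ, hnone]
    simp [Fv]
  have hj := hl j
  have hj' := hl j'
  have hmin := hl (min j j')
  have same : l j ^ 2 + l j' ^ 2 - 2 * 1 * l (min j j') ^ 2 ≤ |l j - l j'| * (l j + l j') := by
    rcases le_total j j' with h | h
    · rw [min_eq_left h]
      have h2 : l j ≤ l j' := hm.monotone h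
      rw [abs_of_nonpos (by linarith)]
      nlinarith
    · rw [min_eq_right h]
      have h2 : l j' ≤ l j := hm.monotone h
      rw [abs_of_nonneg (by linarith)]
      nlinarith
  have opp : l j ^ 2 + l j' ^ 2 - 2 * (-1) * l (min j j') ^ 2 ≤ (l j + l j') * (l j + l j') := by
    have h1 : l (min j j') ≤ l j := hm.monotone (min_le_left _ _)
    have h2 : l (min j j') ≤ l j' := hm.monotone (min_le_right _ _)
    nlinarith
  rcases b with _ | _ <;> rcases b' with _ | _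
  · have h1 : ∀ k, μ k * (Fv (ta k) (some (false, j)) - Fv (ta k) (some (false, j'))) ^ 2 =
        μ k * (ta k j ^ 2 + ta k j' ^ 2 - 2 * 1 * (ta k j * ta k j')) := by
      intro k
      simp only [Fv]
      ring
    rw [Finset.sum_congr rfl fun k _ => h1 k, sum_cross hμ]
    simp only [Fv, abs_neg]
    rw [abs_of_pos hj, abs_of_pos hj', show -l j - -l j' = -(l j - l j') by ring, abs_neg]
    exact same
  · have h1 : ∀ k, μ k * (Fv (ta k) (some (false, j)) - Fv (ta k) (some (true, j'))) ^ 2 =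
        μ k * (ta k j ^ 2 + ta k j' ^ 2 - 2 * (-1) * (ta k j * ta k j')) := by
      intro k
      simp only [Fv]
      ring
    rw [Finset.sum_congr rfl fun k _ => h1 k, sum_cross hμ]
    simp only [Fv, abs_neg]
    rw [abs_of_pos hj, abs_of_pos hj', show -l j - l j' = -(l j + l j') by ring, abs_neg,
      abs_of_pos (by linarith : 0 < l j + l j')]
    exact opp
  · have h1 : ∀ k, μ k * (Fv (ta k) (some (true, j)) - Fv (ta k) (some (false, j'))) ^ 2 =
        μ k * (ta k j ^ 2 + ta k j' ^ 2 - 2 * (-1) * (ta k j * ta k j')) := by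
      intro k
      simp only [Fv]
      ring
    rw [Finset.sum_congr rfl fun k _ => h1 k, sum_cross hμ]
    simp only [Fv, abs_neg]
    rw [abs_of_pos hj, abs_of_pos hj', show l j - -l j' = l j + l j' by ring,
      abs_of_pos (by linarith : 0 < l j + l j')]
    exact opp
  · have h1 : ∀ k, μ k * (Fv (ta k) (some (true, j)) - Fv (ta k) (some (true, j'))) ^ 2 =
        μ k * (ta k j ^ 2 + ta k j' ^ 2 - 2 * 1 * (ta k j * ta k j')) := by
      intro k
      simp only [Fv]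
      ring
    rw [Finset.sum_congr rfl fun k _ => h1 k, sum_cross hμ]
    simp only [Fv]
    rw [abs_of_pos hj, abs_of_pos hj']
    exact same

end

/-- the averaging argument -/
theorem key {n : ℕ} {I : Type} [Fintype I] (μ : Fin n → ℝ) (hμ : ∀ k, 0 < μ k) (Λ : I → ℝ)
    (F : Fin n → I → ℝ) (h1 : ∀ i, ∑ k, μ k * F k i ^ 2 = Λ i ^ 2)
    (h2 : ∀ i i', ∑ k, μ k * (F k i - F k i') ^ 2 ≤ |Λ i - Λ i'| * (|Λ i| + |Λ i'|))
    (ν : I × I → ℝ) (hν : ∀ p, 0 ≤ ν p) (α β : ℝ) (hα : 0 ≤ α) (hβ : 0 < β)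
    (hA : ∑ p : I × I, (Λ p.1 - Λ p.2) ^ 2 * ν p = α ^ 2)
    (hB : ∑ p : I × I, Λ p.1 ^ 2 * ν p = β ^ 2)
    (hB' : ∑ p : I × I, Λ p.2 ^ 2 * ν p = β ^ 2) :
    ∃ k, 0 < ∑ p : I × I, F k p.1 ^ 2 * ν p ∧
      (∑ p : I × I, (F k p.1 - F k p.2) ^ 2 * ν p) * β ≤
        2 * α * ∑ p : I × I, F k p.1 ^ 2 * ν p := by
  -- the total of the norms
  have hT : (∑ p : I × I, |Λ p.1 - Λ p.2| * (|Λ p.1| + |Λ p.2|) * ν p) ≤ 2 * α * β := by
    have hcs := Finset.sum_sq_le_sum_mul_sum_of_sq_le_mul (Finset.univ : Finset (I × I))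
      (r := fun p => |Λ p.1 - Λ p.2| * (|Λ p.1| + |Λ p.2|) * ν p)
      (f := fun p => (Λ p.1 - Λ p.2) ^ 2 * ν p) (g := fun p => (|Λ p.1| + |Λ p.2|) ^ 2 * ν p)
      (fun p _ => mul_nonneg (sq_nonneg _) (hν p)) (fun p _ => mul_nonneg (sq_nonneg _) (hν p))
      (fun p _ => le_of_eq (by
        rw [← sq_abs (Λ p.1 - Λ p.2)]
        ring))
    have hG : ∑ p : I × I, (|Λ p.1| + |Λ p.2|) ^ 2 * ν p ≤ 4 * β ^ 2 := by
      calc ∑ p : I × I, (|Λ p.1| + |Λ p.2|) ^ 2 * ν p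
          ≤ ∑ p : I × I, (2 * (Λ p.1 ^ 2 * ν p) + 2 * (Λ p.2 ^ 2 * ν p)) := by
            refine Finset.sum_le_sum fun p _ => ?_
            have h3 : (|Λ p.1| + |Λ p.2|) ^ 2 ≤ 2 * Λ p.1 ^ 2 + 2 * Λ p.2 ^ 2 := by
              rw [← sq_abs (Λ p.1), ← sq_abs (Λ p.2)]
              nlinarith [sq_nonneg (|Λ p.1| - |Λ p.2|)]
            have := mul_le_mul_of_nonneg_right h3 (hν p)
            linarith
        _ = 4 * β ^ 2 := by
            rw [Finset.sum_add_distrib, ← Finset.mul_sum, ← Finset.mul_sum, hB, hB']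
            ring
    rw [hA] at hcs
    have h3 : (∑ p : I × I, |Λ p.1 - Λ p.2| * (|Λ p.1| + |Λ p.2|) * ν p) ^ 2 ≤
        (2 * α * β) ^ 2 := by
      refine hcs.trans ?_
      have := mul_le_mul_of_nonneg_left hG (sq_nonneg α)
      nlinarith
    exact abs_le_of_sq_le_sq' h3 (by positivity) |>.2
  have hS1 : ∑ k, μ k * (∑ p : I × I, (F k p.1 - F k p.2) ^ 2 * ν p) ≤ 2 * α * β := by
    refine le_trans ?_ hT
    have : ∑ k, μ k * (∑ p : I × I, (F k p.1 - F k p.2) ^ 2 * ν p) =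
        ∑ p : I × I, (∑ k, μ k * (F k p.1 - F k p.2) ^ 2) * ν p := by
      simp only [Finset.mul_sum, Finset.sum_mul]
      rw [Finset.sum_comm]
      refine Finset.sum_congr rfl fun p _ => Finset.sum_congr rfl fun k _ => by ring
    rw [this]
    exact Finset.sum_le_sum fun p _ => mul_le_mul_of_nonneg_right (h2 p.1 p.2) (hν p)
  have hS2 : ∑ k, μ k * (∑ p : I × I, F k p.1 ^ 2 * ν p) = β ^ 2 := by
    rw [← hB]
    have : ∑ k, μ k * (∑ p : I × I, F k p.1 ^ 2 * ν p) =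
        ∑ p : I × I, (∑ k, μ k * F k p.1 ^ 2) * ν p := by
      simp only [Finset.mul_sum, Finset.sum_mul]
      rw [Finset.sum_comm]
      refine Finset.sum_congr rfl fun p _ => Finset.sum_congr rfl fun k _ => by ring
    rw [this]
    exact Finset.sum_congr rfl fun p _ => by rw [h1]
  by_contra hcon
  push Not at hcon
  have hB0 : ∀ k, 0 ≤ ∑ p : I × I, F k p.1 ^ 2 * ν p := fun k =>
    Finset.sum_nonneg fun p _ => mul_nonneg (sq_nonneg _) (hν p)
  have hA0 : ∀ k, 0 ≤ ∑ p : I × I, (F k p.1 - F k p.2) ^ 2 * ν p := fun k =>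
    Finset.sum_nonneg fun p _ => mul_nonneg (sq_nonneg _) (hν p)
  have hex : ∃ k, 0 < ∑ p : I × I, F k p.1 ^ 2 * ν p := by
    by_contra hno
    push Not at hno
    have : ∑ k, μ k * (∑ p : I × I, F k p.1 ^ 2 * ν p) = 0 :=
      Finset.sum_eq_zero fun k _ => by rw [le_antisymm (hno k) (hB0 k), mul_zero]
    rw [this] at hS2
    have : 0 < β ^ 2 := by positivity
    linarith
  obtain ⟨k₀, hk₀⟩ := hex
  have hlt : ∑ k, μ k * (2 * α * ∑ p : I × I, F k p.1 ^ 2 * ν p) <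
      ∑ k, μ k * ((∑ p : I × I, (F k p.1 - F k p.2) ^ 2 * ν p) * β) := by
    refine Finset.sum_lt_sum (fun k _ => ?_) ⟨k₀, Finset.mem_univ _, ?_⟩
    · refine mul_le_mul_of_nonneg_left ?_ (hμ k).le
      rcases (hB0 k).lt_or_eq with h | h
      · exact (hcon k h).le
      · rw [← h, mul_zero]
        exact mul_nonneg (hA0 k) hβ.le
    · exact mul_lt_mul_of_pos_left (hcon k₀ hk₀) (hμ k₀)
  have e1 : ∑ k, μ k * (2 * α * ∑ p : I × I, F k p.1 ^ 2 * ν p) = 2 * α * β ^ 2 := by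
    rw [← hS2, Finset.mul_sum]
    exact Finset.sum_congr rfl fun k _ => by ring
  have e2 : ∑ k, μ k * ((∑ p : I × I, (F k p.1 - F k p.2) ^ 2 * ν p) * β) =
      (∑ k, μ k * (∑ p : I × I, (F k p.1 - F k p.2) ^ 2 * ν p)) * β := by
    rw [Finset.sum_mul]
    exact Finset.sum_congr rfl fun k _ => by ring
  rw [e1, e2] at hlt
  have := mul_le_mul_of_nonneg_right hS1 hβ.le
  nlinarith

end Pool.Agent.H670.BC

open MeasureTheory Filter Topology Complex
open scoped InnerProductSpace ENNReal FourierTransform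

namespace Pool.Agent.H255.BC.C_con

open Pool.Agent.W662.CB Pool.Agent.H255.BC
open Pool.Agent.H255.BC.T_ps (J_norm J_zero J_neg J_sub J_sum)
open Pool.Agent.H670.BC

variable {H : Type} [NormedAddCommGroup H] [InnerProductSpace ℂ H] [CompleteSpace H]

theorem norm_sum_sq {ι : Type} [Fintype ι] (v : ι → H)
    (h : ∀ a b, a ≠ b → ⟪v a, v b⟫_ℂ = 0) (c : ι → ℝ) :
    ‖∑ a, (c a : ℂ) • v a‖ ^ 2 = ∑ a, c a ^ 2 * ‖v a‖ ^ 2 := by
  have key : ⟪∑ a, (c a : ℂ) • v a, ∑ b, (c b : ℂ) • v b⟫_ℂ =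
      ((∑ a, c a ^ 2 * ‖v a‖ ^ 2 : ℝ) : ℂ) := by
    rw [sum_inner]
    push_cast
    refine Finset.sum_congr rfl fun a _ => ?_
    rw [inner_sum, Finset.sum_eq_single a]
    · rw [inner_smul_left, inner_smul_right, inner_self_eq_norm_sq_to_K, Complex.conj_ofReal]
      simp only [Complex.coe_algebraMap]
      ring
    · intro b _ hb
      rw [inner_smul_left, inner_smul_right, h a b hb.symm, mul_zero, mul_zero]
    · intro hn
      exact absurd (Finset.mem_univ _) hn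
  rw [inner_self_eq_norm_sq_to_K] at key
  simp only [Complex.coe_algebraMap] at key
  exact_mod_cast key

section family

variable {M : VonNeumannAlgebra H} {ξ : H} {U : ℝ → H →L[ℂ] H} {J : H → H}
  {I : Type} {p : I → H →L[ℂ] H}

/-- `p_i ξ p_k` -/
def vv (ξ : H) (J : H → H) (p : I → H →L[ℂ] H) (a : I × I) : H := p a.1 (J (p a.2 ξ))

theorem vv_swap (hJ : IsConj M ξ U J) (hM : ∀ i, p i ∈ M) (a : I × I) :
    vv ξ J p a = J (p a.2 (J (p a.1 ξ))) := by
  have h := hJ.comm (p a.1) (p a.2) (hM _) (hM _) ξ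
  rw [hJ.fix] at h
  exact h

theorem inner_zero {x y : H →L[ℂ] H} (hx : star x = x) (hxy : x * y = 0) (u v : H) :
    ⟪x u, y v⟫_ℂ = 0 := by
  rw [← ContinuousLinearMap.adjoint_inner_right, ← ContinuousLinearMap.star_eq_adjoint, hx]
  have : x (y v) = (x * y) v := rfl
  rw [this, hxy]
  simp

theorem vv_orth (hJ : IsConj M ξ U J) (hM : ∀ i, p i ∈ M) (hsa : ∀ i, star (p i) = p i)
    (hor : ∀ i k, i ≠ k → p i * p k = 0) (a b : I × I) (hab : a ≠ b) :
    ⟪vv ξ J p a, vv ξ J p b⟫_ℂ = 0 := by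
  by_cases h1 : a.1 = b.1
  · have h2 : a.2 ≠ b.2 := fun h2 => hab (Prod.ext h1 h2)
    rw [vv_swap hJ hM, vv_swap hJ hM, hJ.inner]
    exact inner_zero (hsa _) (hor _ _ (Ne.symm h2)) _ _
  · exact inner_zero (hsa _) (hor _ _ h1) _ _

variable [Fintype I]

theorem sum_right (hJ : IsConj M ξ U J) (hone : ∑ i, p i = 1) (i : I) :
    ∑ k, vv ξ J p (i, k) = p i ξ := by
  unfold vv
  simp only
  rw [← map_sum, ← J_sum hJ, ← ContinuousLinearMap.sum_apply, hone, ContinuousLinearMap.one_apply,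
    hJ.fix]

theorem sum_left (hone : ∑ i, p i = 1) (k : I) :
    ∑ i, vv ξ J p (i, k) = J (p k ξ) := by
  unfold vv
  simp only
  rw [← ContinuousLinearMap.sum_apply, hone, ContinuousLinearMap.one_apply]

theorem exp_left (hJ : IsConj M ξ U J) (hone : ∑ i, p i = 1) (F : I → ℝ) :
    ∑ i, (F i : ℂ) • p i ξ = ∑ a : I × I, (F a.1 : ℂ) • vv ξ J p a := by
  rw [Fintype.sum_prod_type]
  refine Finset.sum_congr rfl fun i _ => ?_
  show (F i : ℂ) • p i ξ = ∑ k, (F i : ℂ) • vv ξ J p (i, k)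
  rw [← Finset.smul_sum, sum_right hJ hone]

theorem exp_right (hJ : IsConj M ξ U J) (hone : ∑ i, p i = 1) (F : I → ℝ) :
    J (∑ i, (F i : ℂ) • p i ξ) = ∑ a : I × I, (F a.2 : ℂ) • vv ξ J p a := by
  rw [Fintype.sum_prod_type_right, J_sum hJ]
  refine Finset.sum_congr rfl fun k _ => ?_
  show J ((F k : ℂ) • p k ξ) = ∑ i, (F k : ℂ) • vv ξ J p (i, k)
  rw [← Finset.smul_sum, sum_left hone, hJ.smul, Complex.conj_ofReal]

theorem fam_norm (hJ : IsConj M ξ U J) (hM : ∀ i, p i ∈ M) (hsa : ∀ i, star (p i) = p i)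
    (hor : ∀ i k, i ≠ k → p i * p k = 0) (hone : ∑ i, p i = 1) (F : I → ℝ) :
    ‖∑ i, (F i : ℂ) • p i ξ‖ ^ 2 = ∑ a : I × I, F a.1 ^ 2 * ‖vv ξ J p a‖ ^ 2 ∧
    ‖∑ i, (F i : ℂ) • p i ξ‖ ^ 2 = ∑ a : I × I, F a.2 ^ 2 * ‖vv ξ J p a‖ ^ 2 ∧
    ‖∑ i, (F i : ℂ) • p i ξ - J (∑ i, (F i : ℂ) • p i ξ)‖ ^ 2 =
      ∑ a : I × I, (F a.1 - F a.2) ^ 2 * ‖vv ξ J p a‖ ^ 2 := by
  have ho := vv_orth hJ hM hsa hor
  refine ⟨?_, ?_, ?_⟩
  · rw [exp_left hJ hone]
    exact norm_sum_sq _ ho _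
  · rw [← J_norm hJ, exp_right hJ hone]
    exact norm_sum_sq _ ho _
  · rw [exp_right hJ hone, exp_left hJ hone, ← Finset.sum_sub_distrib]
    have : ∀ a : I × I, (F a.1 : ℂ) • vv ξ J p a - (F a.2 : ℂ) • vv ξ J p a =
        ((F a.1 - F a.2 : ℝ) : ℂ) • vv ξ J p a := by
      intro a
      rw [← sub_smul]
      push_cast
      rfl
    rw [Finset.sum_congr rfl fun a _ => this a]
    exact norm_sum_sq _ ho _

end family

/-! ### the spectral projections of `∑ l_j c_j`, `c_j³ = c_j`, `c_i c_j = 0` -/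

section spec

variable {n : ℕ} {c : Fin n → H →L[ℂ] H}

/-- the projections for the nonzero points of the spectrum -/
noncomputable def qq (c : Fin n → H →L[ℂ] H) (a : Bool × Fin n) : H →L[ℂ] H :=
  (1 / 2 : ℂ) • (c a.2 * c a.2 + (if a.1 then (1 : ℂ) else -1) • c a.2)

/-- all spectral projections -/
noncomputable def pp (c : Fin n → H →L[ℂ] H) (i : Option (Bool × Fin n)) : H →L[ℂ] H :=
  Option.elim i (1 - ∑ a, qq c a) (qq c)

theorem qq_orth (h3 : ∀ j, c j * c j * c j = c j) (h0 : ∀ i j, i ≠ j → c i * c j = 0) :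
    OrthogonalIdempotents (qq c) where
  idem := by
    rintro ⟨b, j⟩
    have h3' : c j * (c j * c j) = c j := by rw [← mul_assoc]; exact h3 j
    show qq c (b, j) * qq c (b, j) = qq c (b, j)
    unfold qq
    simp only [mul_add, add_mul, mul_smul_comm, smul_mul_assoc, smul_add]
    rw [mul_assoc (c j) (c j) (c j * c j), h3', h3]
    rcases b with _ | _
    · simp only [Bool.false_eq_true, if_false, smul_smul]
      module
    · simp only [if_true, smul_smul]
      module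
  ortho := by
    rintro ⟨b, j⟩ ⟨b', j'⟩ hne
    show qq c (b, j) * qq c (b', j') = 0
    unfold qq
    by_cases hj : j = j'
    · subst hj
      have hb : b ≠ b' := fun h => hne (by rw [h])
      have h3' : c j * (c j * c j) = c j := by rw [← mul_assoc]; exact h3 j
      simp only [mul_add, add_mul, mul_smul_comm, smul_mul_assoc, smul_add]
      rw [mul_assoc (c j) (c j) (c j * c j), h3', h3]
      rcases b with _ | _ <;> rcases b' with _ | _
      · exact absurd rfl hb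
      · simp only [Bool.false_eq_true, if_false, if_true, smul_smul]
        module
      · simp only [Bool.false_eq_true, if_false, if_true, smul_smul]
        module
      · exact absurd rfl hb
    · have h1 := h0 j j' hj
      have h2 : c j * (c j' * c j') = 0 := by rw [← mul_assoc, h1, zero_mul]
      simp only [mul_add, add_mul, mul_smul_comm, smul_mul_assoc, smul_add,
        mul_assoc, h1, h2, mul_zero, smul_zero, add_zero]

theorem pp_complete (h3 : ∀ j, c j * c j * c j = c j) (h0 : ∀ i j, i ≠ j → c i * c j = 0) :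
    CompleteOrthogonalIdempotents (pp c) := CompleteOrthogonalIdempotents.option (qq_orth h3 h0)

theorem qq_star (hs : ∀ j, star (c j) = c j) (a : Bool × Fin n) : star (qq c a) = qq c a := by
  unfold qq
  rw [star_smul, star_add, star_mul, star_smul, hs]
  rcases a with ⟨_ | _, j⟩ <;> simp

theorem pp_star (hs : ∀ j, star (c j) = c j) (i : Option (Bool × Fin n)) :
    star (pp c i) = pp c i := by
  rcases i with _ | a
  · show star (1 - ∑ a, qq c a) = 1 - ∑ a, qq c a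
    rw [star_sub, star_one, star_sum]
    simp only [qq_star hs]
  · exact qq_star hs a

theorem smul_mem' {M : VonNeumannAlgebra H} (z : ℂ) {x : H →L[ℂ] H} (hx : x ∈ M) : z • x ∈ M :=
  M.toStarSubalgebra.toSubalgebra.smul_mem hx z

theorem qq_mem {M : VonNeumannAlgebra H} (hc : ∀ j, c j ∈ M) (a : Bool × Fin n) : qq c a ∈ M :=
  smul_mem' _ (add_mem (mul_mem (hc _) (hc _)) (smul_mem' _ (hc _)))

theorem pp_mem {M : VonNeumannAlgebra H} (hc : ∀ j, c j ∈ M) (i : Option (Bool × Fin n)) :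
    pp c i ∈ M := by
  rcases i with _ | a
  · exact sub_mem (one_mem _) (sum_mem fun a _ => qq_mem hc a)
  · exact qq_mem hc a

theorem sum_pp (t : Fin n → ℝ) :
    ∑ i, (Fv t i : ℂ) • pp c i = ∑ j, (t j : ℂ) • c j := by
  rw [Fintype.sum_option, Fintype.sum_prod_type, Fintype.sum_bool, ← Finset.sum_add_distrib]
  have h0 : ((Fv t none : ℝ) : ℂ) • pp c none = 0 := by simp [Fv]
  rw [h0, zero_add]
  refine Finset.sum_congr rfl fun j _ => ?_
  show ((t j : ℝ) : ℂ) • qq c (true, j) + ((-t j : ℝ) : ℂ) • qq c (false, j) = _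
  unfold qq
  simp only [Bool.false_eq_true, if_false, if_true, Complex.ofReal_neg]
  module

theorem sum_pp_apply (t : Fin n → ℝ) (ξ : H) :
    ∑ i, (Fv t i : ℂ) • pp c i ξ = (∑ j, (t j : ℂ) • c j) ξ := by
  rw [← sum_pp, ContinuousLinearMap.sum_apply]
  rfl

end spec

/-- the spectral step -/
theorem spec_step {M : VonNeumannAlgebra H} {ξ : H} {U : ℝ → H →L[ℂ] H} {J : H → H}
    (hJ : IsConj M ξ U J) {n : ℕ} {c : Fin n → H →L[ℂ] H} (hc : ∀ j, c j ∈ M)
    (hs : ∀ j, star (c j) = c j) (h3 : ∀ j, c j * c j * c j = c j)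
    (h0 : ∀ i j, i ≠ j → c i * c j = 0) {l : Fin n → ℝ} (hl : ∀ j, 0 < l j) (hm : StrictMono l)
    {α β : ℝ} (hα : 0 ≤ α) (hβ : 0 < β)
    (hA : ‖(∑ j, (l j : ℂ) • c j) ξ - J ((∑ j, (l j : ℂ) • c j) ξ)‖ ^ 2 = α ^ 2)
    (hB : ‖(∑ j, (l j : ℂ) • c j) ξ‖ ^ 2 = β ^ 2) :
    ∃ k, 0 < ‖(∑ j, (ta k j : ℂ) • c j) ξ‖ ^ 2 ∧
      ‖(∑ j, (ta k j : ℂ) • c j) ξ - J ((∑ j, (ta k j : ℂ) • c j) ξ)‖ ^ 2 * β ≤
        2 * α * ‖(∑ j, (ta k j : ℂ) • c j) ξ‖ ^ 2 := by
  obtain ⟨μ, hμ0, hμ⟩ := exists_mu l hl hm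
  have hp := pp_complete h3 h0
  have hor : ∀ i k, i ≠ k → pp c i * pp c k = 0 := fun i k h => hp.ortho h
  have hf := fun t : Fin n → ℝ => fam_norm hJ (pp_mem hc) (pp_star hs) hor hp.complete (Fv t)
  simp only [sum_pp_apply] at hf
  obtain ⟨k, hk1, hk2⟩ := key μ hμ0 (Fv l) (fun k => Fv (ta k)) (fun i => sum_sq hμ i)
    (fun i i' => sum_diff hl hm hμ i i') (fun a => ‖vv ξ J (pp c) a‖ ^ 2) (fun a => sq_nonneg _)
    α β hα hβ ((hf l).2.2.symm.trans hA) ((hf l).1.symm.trans hB) ((hf l).2.1.symm.trans hB)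
  refine ⟨k, ?_, ?_⟩
  · rw [(hf (ta k)).1]
    exact hk1
  · rw [(hf (ta k)).2.2, (hf (ta k)).1]
    exact hk2

/-- doubling -/
theorem double {M : VonNeumannAlgebra H} {ξ : H} {U : ℝ → H →L[ℂ] H} {J : H → H}
    (hJ : IsConj M ξ U J) {e f y : H →L[ℂ] H} (he : IsPr M e) (hf : IsPr M f) (hef : e * f = 0)
    (hJe : J (e ξ) = e ξ) (hJf : J (f ξ) = f ξ) (hy : y ∈ M) (hfy : f * y * e = y) :
    ‖(y + star y) ξ - J ((y + star y) ξ)‖ ^ 2 = 2 * ‖J (star y ξ) - y ξ‖ ^ 2 ∧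
    ‖(y + star y) ξ‖ ^ 2 = ‖y ξ‖ ^ 2 + ‖star y ξ‖ ^ 2 := by
  have h1 : f * y = y := by
    calc f * y = f * (f * y * e) := by rw [hfy]
      _ = (f * f) * y * e := by simp only [mul_assoc]
      _ = y := by rw [hf.idem, hfy]
  have h2 : y * e = y := by
    calc y * e = (f * y * e) * e := by rw [hfy]
      _ = f * y * (e * e) := by simp only [mul_assoc]
      _ = y := by rw [he.idem, hfy]
  have h3 : star y * f = star y := by
    have := congrArg star h1
    rwa [star_mul, hf.sa] at this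
  have h4 : e * star y = star y := by
    have := congrArg star h2
    rwa [star_mul, he.sa] at this
  have hfe : f * e = 0 := by
    have := congrArg star hef
    rwa [star_mul, he.sa, hf.sa, star_zero] at this
  have hsy : star y ∈ M := star_mem hy
  have a1 : ∀ v : H, f (y v) = y v := fun v => by
    show (f * y) v = y v
    rw [h1]
  have a2 : ∀ v : H, e (star y v) = star y v := fun v => by
    show (e * star y) v = star y v
    rw [h4]
  have a3 : f (J (star y ξ)) = J (star y ξ) := by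
    have h := hJ.comm f (star y) hf.mem hsy ξ
    rw [hJ.fix, hJf] at h
    rw [h]
    have : star y (f ξ) = (star y * f) ξ := rfl
    rw [this, h3]
  have a4 : e (J (y ξ)) = J (y ξ) := by
    have h := hJ.comm e y he.mem hy ξ
    rw [hJ.fix, hJe] at h
    rw [h]
    have : y (e ξ) = (y * e) ξ := rfl
    rw [this, h2]
  have hb : (y + star y) ξ = y ξ + star y ξ := rfl
  constructor
  · have e1 : (y + star y) ξ - J ((y + star y) ξ) =
        (y ξ - J (star y ξ)) + (star y ξ - J (y ξ)) := by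
      rw [hb, hJ.add]
      abel
    have e2 : star y ξ - J (y ξ) = J (J (star y ξ) - y ξ) := by
      rw [J_sub hJ, hJ.inv]
    have e3 : ⟪y ξ - J (star y ξ), star y ξ - J (y ξ)⟫_ℂ = 0 := by
      have h5 : y ξ - J (star y ξ) = f (y ξ - J (star y ξ)) := by rw [map_sub, a1, a3]
      have h6 : star y ξ - J (y ξ) = e (star y ξ - J (y ξ)) := by rw [map_sub, a2, a4]
      rw [h5, h6]
      exact inner_zero hf.sa hfe _ _
    rw [e1, norm_add_sq (𝕜 := ℂ), e3, e2, J_norm hJ, norm_sub_rev (y ξ)]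
    simp only [map_zero, mul_zero, add_zero]
    ring
  · have e3 : ⟪y ξ, star y ξ⟫_ℂ = 0 := by
      rw [← a1 ξ, ← a2 ξ]
      exact inner_zero hf.sa hfe _ _
    rw [hb, norm_add_sq (𝕜 := ℂ), e3]
    simp

theorem num1 {δ N η D a b : ℝ} (hδ : 0 < δ) (hδ' : δ ≤ 1 / 8) (hN : 0 < N) (hη : η ≤ δ * N / 100)
    (hη0 : 0 ≤ η) (hD : D ≤ δ * N + 2 * η) (hD0 : 0 ≤ D) (ha : N - η ≤ a) (hb : a - D ≤ b) :
    8 * D ^ 2 ≤ 9 * δ ^ 2 * (a ^ 2 + b ^ 2) := by
  have h1 : D ≤ 102 / 100 * (δ * N) := by linarith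
  have hδN : δ * N ≤ 1 / 8 * N := mul_le_mul_of_nonneg_right hδ' hN.le
  have h2 : 99 / 100 * N ≤ a := by linarith
  have h3 : 85 / 100 * N ≤ b := by
    have : 0 ≤ N := hN.le
    linarith
  have h4 : D ^ 2 ≤ (102 / 100 * (δ * N)) ^ 2 := pow_le_pow_left₀ hD0 h1 2
  have h5 : (99 / 100 * N) ^ 2 ≤ a ^ 2 := pow_le_pow_left₀ (by positivity) h2 2
  have h6 : (85 / 100 * N) ^ 2 ≤ b ^ 2 := pow_le_pow_left₀ (by positivity) h3 2
  have h7 : 9 * δ ^ 2 * ((99 / 100 * N) ^ 2 + (85 / 100 * N) ^ 2) ≤ 9 * δ ^ 2 * (a ^ 2 + b ^ 2) :=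
    mul_le_mul_of_nonneg_left (by linarith) (by positivity)
  have h8 : 0 ≤ δ ^ 2 * N ^ 2 := by positivity
  nlinarith

theorem num2 {δ D a b : ℝ} (hδ : 0 < δ) (hδ' : δ ≤ 1 / 8) (hD0 : 0 ≤ D) (ha : 0 ≤ a)
    (hb0 : 0 ≤ b) (hb : b ≤ a + D) (h : 2 * D ^ 2 ≤ 3 * δ * (a ^ 2 + b ^ 2)) :
    D ^ 2 ≤ 16 * δ * a ^ 2 := by
  have h1 : b ^ 2 ≤ 2 * a ^ 2 + 2 * D ^ 2 := by nlinarith [sq_nonneg (a - D)]
  have h2 : 2 * D ^ 2 ≤ 3 * δ * (3 * a ^ 2 + 2 * D ^ 2) :=
    h.trans (mul_le_mul_of_nonneg_left (by linarith) (by positivity))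
  have h3 : δ * D ^ 2 ≤ 1 / 8 * D ^ 2 := mul_le_mul_of_nonneg_right hδ' (sq_nonneg D)
  have h4 : 0 ≤ δ * a ^ 2 := by positivity
  nlinarith

theorem r (h : S_dec) : S_con := by
  intro H _ _ _ M ξ U J hMod e f he hf hef hJe hJf x δ hx hx0 hfx hδ hδ' hclose
  have hJ := hMod.conj
  have hN : 0 < ‖x ξ‖ := norm_pos_iff.2 fun h0 => hx0 (hMod.sep x hx h0)
  have hξ0 : 0 ≤ ‖ξ‖ := norm_nonneg ξ
  set N := ‖x ξ‖ with hNdef
  set ε := δ * N / (100 * (‖ξ‖ + 1)) with hεdef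
  have hε : 0 < ε := by positivity
  have hεξ : ε * ‖ξ‖ ≤ δ * N / 100 := by
    rw [hεdef, div_mul_eq_mul_div, div_le_div_iff₀ (by positivity) (by norm_num)]
    have : 0 ≤ δ * N := by positivity
    nlinarith
  obtain ⟨n, w, l, hwM, hl, hm, hw3, hworth, hxy, hcor⟩ := h H M x hx ε hε
  have hcorner := hcor e f he.idem he.sa hf.idem hf.sa hfx
  -- products
  have hww : ∀ i j, w i * w j = 0 := by
    intro i j
    calc w i * w j = (f * w i * e) * (f * w j * e) := by rw [hcorner, hcorner]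
      _ = f * w i * (e * f) * (w j * e) := by simp only [mul_assoc]
      _ = 0 := by rw [hef, mul_zero, zero_mul]
  have hss : ∀ i j, star (w i) * star (w j) = 0 := by
    intro i j
    rw [← star_mul, hww, star_zero]
  have hcs : ∀ j, star (w j + star (w j)) = w j + star (w j) := by
    intro j
    rw [star_add, star_star, add_comm]
  have hc3 : ∀ j, (w j + star (w j)) * (w j + star (w j)) * (w j + star (w j)) =
      w j + star (w j) := by
    intro j
    have h3s : star (w j) * w j * star (w j) = star (w j) := by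
      have := congrArg star (hw3 j)
      rwa [star_mul, star_mul, star_star, ← mul_assoc] at this
    have e1 : (w j + star (w j)) * (w j + star (w j)) = w j * star (w j) + star (w j) * w j := by
      rw [mul_add, add_mul, add_mul, hww, hss, zero_add, add_zero, add_comm]
    rw [e1, add_mul, mul_add, mul_add, hw3, h3s, mul_assoc (w j), hss, mul_assoc (star (w j)) (w j),
      hww, mul_zero, mul_zero, add_zero, zero_add]
  have hc0 : ∀ i j, i ≠ j → (w i + star (w i)) * (w j + star (w j)) = 0 := by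
    intro i j hij
    rw [mul_add, add_mul, add_mul, hww, hss, (hworth i j hij).1, (hworth i j hij).2]
    simp
  have hcM : ∀ j, w j + star (w j) ∈ M := fun j => add_mem (hwM j) (star_mem (hwM j))
  -- linear combinations
  have hlin : ∀ t : Fin n → ℝ, ∑ j, (t j : ℂ) • (w j + star (w j)) =
      (∑ j, (t j : ℂ) • w j) + star (∑ j, (t j : ℂ) • w j) := by
    intro t
    rw [star_sum, ← Finset.sum_add_distrib]
    refine Finset.sum_congr rfl fun j _ => ?_
    rw [star_smul, smul_add, Complex.star_def, Complex.conj_ofReal]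
  have hlM : ∀ t : Fin n → ℝ, ∑ j, (t j : ℂ) • w j ∈ M := fun t =>
    sum_mem fun j _ => smul_mem' _ (hwM j)
  have hlf : ∀ t : Fin n → ℝ, f * (∑ j, (t j : ℂ) • w j) * e = ∑ j, (t j : ℂ) • w j := by
    intro t
    rw [Finset.mul_sum, Finset.sum_mul]
    refine Finset.sum_congr rfl fun j _ => ?_
    rw [mul_smul_comm, smul_mul_assoc, hcorner]
  set y := ∑ j, (l j : ℂ) • w j with hydef
  have hyM : y ∈ M := hlM l
  have hxy1 : ‖x ξ - y ξ‖ ≤ ε * ‖ξ‖ := by
    have : x ξ - y ξ = (x - y) ξ := rfl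
    rw [this]
    exact ((x - y).le_opNorm ξ).trans (mul_le_mul_of_nonneg_right hxy hξ0)
  have hxy2 : ‖star x ξ - star y ξ‖ ≤ ε * ‖ξ‖ := by
    have : star x ξ - star y ξ = (star (x - y)) ξ := by rw [star_sub]; rfl
    rw [this]
    refine ((star (x - y)).le_opNorm ξ).trans (mul_le_mul_of_nonneg_right ?_ hξ0)
    rw [norm_star]
    exact hxy
  have hD : ‖J (star y ξ) - y ξ‖ ≤ δ * N + 2 * (ε * ‖ξ‖) := by
    have e1 : J (star y ξ) - y ξ = (J (star x ξ) - x ξ) + (x ξ - y ξ) -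
        J (star x ξ - star y ξ) := by
      rw [J_sub hJ]
      abel
    rw [e1]
    refine (norm_sub_le _ _).trans ?_
    rw [J_norm hJ]
    have := norm_add_le (J (star x ξ) - x ξ) (x ξ - y ξ)
    linarith
  have ha : N - ε * ‖ξ‖ ≤ ‖y ξ‖ := by
    have := norm_sub_norm_le (x ξ) (y ξ)
    linarith
  have hb : ‖y ξ‖ - ‖J (star y ξ) - y ξ‖ ≤ ‖star y ξ‖ := by
    have h1 := norm_sub_norm_le (y ξ) (J (star y ξ))
    rw [J_norm hJ, norm_sub_rev] at h1
    linarith
  have hn1 := num1 hδ hδ' hN hεξ (by positivity) hD (norm_nonneg _) ha hb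
  obtain ⟨d1, d2⟩ := double hJ he hf hef hJe hJf hyM (hlf l)
  have hβ2 : 0 < ‖(y + star y) ξ‖ ^ 2 := by
    rw [d2]
    have h1 : 0 < ‖y ξ‖ := by
      have : δ * N ≤ 1 / 8 * N := mul_le_mul_of_nonneg_right hδ' hN.le
      linarith
    positivity
  have hβ : 0 < ‖(y + star y) ξ‖ := by
    rcases (norm_nonneg ((y + star y) ξ)).lt_or_eq with h1 | h1
    · exact h1
    · rw [← h1] at hβ2
      norm_num at hβ2
  have hsum : ∑ j, (l j : ℂ) • (w j + star (w j)) = y + star y := hlin l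
  obtain ⟨k, hk1, hk2⟩ := spec_step hJ hcM hcs hc3 hc0 hl hm
    (norm_nonneg ((∑ j, (l j : ℂ) • (w j + star (w j))) ξ -
      J ((∑ j, (l j : ℂ) • (w j + star (w j))) ξ)))
    (β := ‖(y + star y) ξ‖) hβ rfl (by rw [hsum])
  rw [hsum] at hk2
  set W := ∑ j, (ta k j : ℂ) • w j with hWdef
  have hWs : ∑ j, (ta k j : ℂ) • (w j + star (w j)) = W + star W := hlin (ta k)
  rw [hWs] at hk1 hk2
  have hWM : W ∈ M := hlM (ta k)
  obtain ⟨q1, q2⟩ := double hJ he hf hef hJe hJf hWM (hlf (ta k))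
  -- the constant
  have hκ : 2 * ‖(y + star y) ξ - J ((y + star y) ξ)‖ ≤ 3 * δ * ‖(y + star y) ξ‖ := by
    refine abs_le_of_sq_le_sq' ?_ (by positivity) |>.2
    have e1 : (2 * ‖(y + star y) ξ - J ((y + star y) ξ)‖) ^ 2 =
        4 * ‖(y + star y) ξ - J ((y + star y) ξ)‖ ^ 2 := by ring
    have e2 : (3 * δ * ‖(y + star y) ξ‖) ^ 2 = 9 * δ ^ 2 * ‖(y + star y) ξ‖ ^ 2 := by ring
    rw [e1, e2, d1, d2]
    linarith
  have hfin : ‖(W + star W) ξ - J ((W + star W) ξ)‖ ^ 2 ≤ 3 * δ * ‖(W + star W) ξ‖ ^ 2 := by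
    have h1 : ‖(W + star W) ξ - J ((W + star W) ξ)‖ ^ 2 * ‖(y + star y) ξ‖ ≤
        (3 * δ * ‖(W + star W) ξ‖ ^ 2) * ‖(y + star y) ξ‖ := by
      refine hk2.trans ?_
      have := mul_le_mul_of_nonneg_right hκ (sq_nonneg ‖(W + star W) ξ‖)
      nlinarith
    exact le_of_mul_le_mul_right h1 hβ
  rw [q1, q2] at hfin
  have hWb : ‖star W ξ‖ ≤ ‖W ξ‖ + ‖J (star W ξ) - W ξ‖ := by
    have h1 := norm_sub_norm_le (J (star W ξ)) (W ξ)
    rw [J_norm hJ] at h1
    linarith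
  refine ⟨W, hWM, ?_, hlf (ta k), ?_, ?_⟩
  · intro h0
    rw [h0] at hk1
    simp at hk1
  · -- partial isometry
    have e1 : W * star W = ∑ j, (ta k j : ℂ) • (w j * star (w j)) := by
      rw [hWdef, star_sum, Finset.sum_mul]
      refine Finset.sum_congr rfl fun i _ => ?_
      rw [Finset.mul_sum, Finset.sum_eq_single i]
      · rw [star_smul, smul_mul_smul_comm, Complex.star_def, Complex.conj_ofReal]
        congr 1
        have := ta_sq k i
        rw [pow_two] at this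
        exact_mod_cast this
      · intro j _ hj
        rw [star_smul, smul_mul_smul_comm, (hworth i j (Ne.symm hj)).2, smul_zero]
      · intro hn
        exact absurd (Finset.mem_univ _) hn
    rw [e1, hWdef, Finset.sum_mul]
    refine Finset.sum_congr rfl fun i _ => ?_
    rw [Finset.mul_sum, Finset.sum_eq_single i]
    · rw [smul_mul_smul_comm, hw3]
      congr 1
      have := ta_sq k i
      rw [pow_two] at this
      exact_mod_cast this
    · intro j _ hj
      rw [smul_mul_smul_comm, mul_assoc, (hworth i j (Ne.symm hj)).1, mul_zero, smul_zero]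
    · intro hn
      exact absurd (Finset.mem_univ _) hn
  · exact num2 hδ hδ' (norm_nonneg _) (norm_nonneg _) (norm_nonneg _) hWb hfin

end Pool.Agent.H255.BC.C_con
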