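import Pool.Agent.H255.BC.Defs6
import Pool.Agent.H255.BC.P_ps
import Pool.Agent.H255.BC.P_psi

set_option autoImplicit false

open MeasureTheory Filter Topology Complex
open scoped InnerProductSpace ENNReal FourierTransform

namespace Pool.Agent.H255.BC.C_cor

open Pool.Agent.W662.CB Pool.Agent.H255.BC

section conj

variable {H : Type} [NormedAddCommGroup H] [InnerProductSpace ℂ H] [CompleteSpace H]
  {M : VonNeumannAlgebra H} {ξ : H} {U : ℝ → H →L[ℂ] H} {J : H → H}

/-- `J y J` as a bounded operator -/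
noncomputable def jc (hJ : IsConj M ξ U J) (y : H →L[ℂ] H) : H →L[ℂ] H :=
  LinearMap.mkContinuous
    { toFun := fun v => J (y (J v))
      map_add' := fun v w => by rw [hJ.add, map_add, hJ.add]
      map_smul' := fun c v => by
        rw [hJ.smul, map_smul, hJ.smul, Complex.conj_conj, RingHom.id_apply] } ‖y‖ (fun v => by
        show ‖J (y (J v))‖ ≤ ‖y‖ * ‖v‖
        rw [T_ps.J_norm hJ, ← T_ps.J_norm hJ v]
        exact y.le_opNorm _)

theorem jc_apply (hJ : IsConj M ξ U J) (y : H →L[ℂ] H) (v : H) : jc hJ y v = J (y (J v)) := rfl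

theorem jc_mul (hJ : IsConj M ξ U J) (x y : H →L[ℂ] H) : jc hJ (x * y) = jc hJ x * jc hJ y := by
  ext v
  show J ((x * y) (J v)) = J (x (J (J (y (J v)))))
  rw [hJ.inv]
  rfl

theorem jc_one (hJ : IsConj M ξ U J) : jc hJ 1 = 1 := by
  ext v
  show J (J v) = v
  exact hJ.inv v

theorem jc_star (hJ : IsConj M ξ U J) (y : H →L[ℂ] H) : star (jc hJ y) = jc hJ (star y) := by
  rw [ContinuousLinearMap.star_eq_adjoint]
  symm
  rw [ContinuousLinearMap.eq_adjoint_iff]
  intro v w
  show ⟪J (star y (J v)), w⟫_ℂ = ⟪v, J (y (J w))⟫_ℂ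
  rw [T_ps.J_swap hJ, ← inner_conj_symm, T_ps.adj_l, star_star, ← inner_conj_symm,
    Complex.conj_conj, ← hJ.inner, hJ.inv]

theorem jc_comm (hJ : IsConj M ξ U J) {x y : H →L[ℂ] H} (hx : x ∈ M) (hy : y ∈ M) :
    x * jc hJ y = jc hJ y * x := by
  ext v
  exact hJ.comm x y hx hy v

theorem jc_U (hJ : IsConj M ξ U J) {y : H →L[ℂ] H} (t : ℝ) (h : U t * y = y * U t) :
    U t * jc hJ y = jc hJ y * U t := by
  ext v
  show U t (J (y (J v))) = J (y (J (U t v)))
  rw [hJ.modular, ← hJ.modular]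
  congr 1
  exact congrArg (fun T : H →L[ℂ] H => T (J v)) h

end conj

section fourier

variable {H : Type} [NormedAddCommGroup H] [InnerProductSpace ℂ H] [CompleteSpace H]
  {M : VonNeumannAlgebra H} {ξ : H} {U : ℝ → H →L[ℂ] H}

/-- Fourier inversion for test functions -/
theorem inv_formula {h : ℝ → ℂ} (hh : Tst h) (κ : ℝ) :
    h κ = ∫ s : ℝ, 𝓕 h s * cexp (I * ((2 * Real.pi * s * κ : ℝ) : ℂ)) := by
  have hc : Continuous h := hh.1.continuous
  have hi : Integrable h := hc.integrable_of_hasCompactSupport hh.2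
  have h1 := hc.fourierInv_fourier_eq hi (T_psi.ft_int h hh)
  have h2 : h κ = 𝓕⁻ (𝓕 h) κ := by rw [h1]
  rw [h2, Real.fourierInv_eq']
  congr 1
  funext s
  rw [smul_eq_mul, mul_comm]
  congr 2
  rw [mul_comm I]
  congr 2
  show 2 * Real.pi * (κ * s) = 2 * Real.pi * s * κ
  ring

/-- `h(K) ≠ 0` if `h ≠ 0` on the spectrum -/
theorem psi_ne (hU : IsModular M ξ U) (hS : FullSpec U) {h : ℝ → ℂ} (hh : Tst h) {κ : ℝ}
    (hκ : h κ ≠ 0) : ∃ w : H, psi U h w ≠ 0 := by
  by_contra hcon
  push Not at hcon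
  have hz : ∀ n : ℕ, ∃ ζ : H, ‖ζ‖ = 1 ∧
      ∀ t : ℝ, |t| ≤ (n : ℝ) → ‖U t ζ - cexp (I * ((t * κ : ℝ) : ℂ)) • ζ‖ ≤ 1 / ((n : ℝ) + 1) :=
    fun n => hS κ n (1 / ((n : ℝ) + 1)) (by positivity)
  choose ζ hζ1 hζ2 using hz
  obtain ⟨E, hE⟩ : ∃ E : ℕ → ℝ → H, E = fun n s =>
      (𝓕 h s) • (cexp (I * ((2 * Real.pi * s * κ : ℝ) : ℂ)) • ζ n) -
        (𝓕 h s) • U (2 * Real.pi * s) (ζ n) := ⟨_, rfl⟩
  have hexp : ∀ x : ℝ, ‖cexp (I * (x : ℂ))‖ = 1 := by
    intro x
    rw [mul_comm, Complex.norm_exp_ofReal_mul_I]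
  have hcexp : Continuous fun s : ℝ => cexp (I * ((2 * Real.pi * s * κ : ℝ) : ℂ)) := by
    fun_prop
  have hc1 : ∀ n, Continuous fun s : ℝ =>
      (𝓕 h s) • (cexp (I * ((2 * Real.pi * s * κ : ℝ) : ℂ)) • ζ n) := fun n =>
    (T_psi.ft_cont h hh).smul (hcexp.smul continuous_const)
  have hi1 : ∀ n, Integrable fun s : ℝ =>
      (𝓕 h s) • (cexp (I * ((2 * Real.pi * s * κ : ℝ) : ℂ)) • ζ n) := by
    intro n
    refine (T_psi.ft_int h hh).norm.mono' (hc1 n).aestronglyMeasurable
      (Eventually.of_forall fun s => ?_)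
    rw [norm_smul, norm_smul, hexp, hζ1, mul_one, mul_one]
  have hEi : ∀ n, ∫ s, E n s = h κ • ζ n := by
    intro n
    rw [hE]
    show ∫ s : ℝ, ((𝓕 h s) • (cexp (I * ((2 * Real.pi * s * κ : ℝ) : ℂ)) • ζ n) -
        (𝓕 h s) • U (2 * Real.pi * s) (ζ n)) = h κ • ζ n
    rw [integral_sub (hi1 n) (T_psi.psi_int hU h hh (ζ n))]
    have h1 : ∫ s : ℝ, (𝓕 h s) • U (2 * Real.pi * s) (ζ n) = 0 := hcon (ζ n)
    rw [h1, sub_zero, inv_formula hh κ, ← integral_smul_const]
    congr 1
    funext s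
    rw [smul_smul]
  have hbd : ∀ n s, ‖E n s‖ ≤ 2 * ‖𝓕 h s‖ := by
    intro n s
    rw [hE]
    refine (norm_sub_le _ _).trans ?_
    rw [norm_smul, norm_smul, norm_smul, hexp, T_psi.U_norm hU, hζ1]
    linarith
  have hlim : ∀ s, Tendsto (fun n => ‖E n s‖) atTop (𝓝 0) := by
    intro s
    have h2 : Tendsto (fun n : ℕ => ‖𝓕 h s‖ * (1 / ((n : ℝ) + 1))) atTop (𝓝 (‖𝓕 h s‖ * 0)) :=
      tendsto_one_div_add_atTop_nhds_zero_nat.const_mul _
    rw [mul_zero] at h2
    refine squeeze_zero' (Eventually.of_forall fun n => norm_nonneg _) ?_ h2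
    filter_upwards [eventually_ge_atTop ⌈|2 * Real.pi * s|⌉₊] with n hn
    have h3 : |2 * Real.pi * s| ≤ (n : ℝ) := (Nat.le_ceil _).trans (by exact_mod_cast hn)
    have h4 := hζ2 n _ h3
    rw [hE]
    show ‖(𝓕 h s) • (cexp (I * ((2 * Real.pi * s * κ : ℝ) : ℂ)) • ζ n) -
        (𝓕 h s) • U (2 * Real.pi * s) (ζ n)‖ ≤ _
    rw [← smul_sub, norm_smul, norm_sub_rev]
    exact mul_le_mul_of_nonneg_left h4 (norm_nonneg _)
  have hmeas : ∀ n, AEStronglyMeasurable (fun s => ‖E n s‖) volume := by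
    intro n
    rw [hE]
    exact ((hc1 n).sub (T_psi.psi_cont hU h hh (ζ n))).norm.aestronglyMeasurable
  have hdct := tendsto_integral_of_dominated_convergence (fun s => 2 * ‖𝓕 h s‖) hmeas
    ((T_psi.ft_int h hh).norm.const_mul 2)
    (fun n => Eventually.of_forall fun s => by
      rw [norm_norm]
      exact hbd n s)
    (Eventually.of_forall hlim)
  rw [integral_zero] at hdct
  have hle : ∀ n, ‖h κ‖ ≤ ∫ s, ‖E n s‖ := by
    intro n
    calc ‖h κ‖ = ‖h κ • ζ n‖ := by rw [norm_smul, hζ1, mul_one]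
      _ = ‖∫ s, E n s‖ := by rw [hEi]
      _ ≤ ∫ s, ‖E n s‖ := norm_integral_le_integral_norm _
  have h5 : ‖h κ‖ ≤ 0 := ge_of_tendsto' hdct hle
  exact hκ (norm_le_zero_iff.1 h5)

end fourier

section corner

variable {H : Type} [NormedAddCommGroup H] [InnerProductSpace ℂ H] [CompleteSpace H]

/-- data of a corner: `s = v^*`, `j = J v J`, `k = J v^* J`, `f = J e J` -/
structure Cn (M : VonNeumannAlgebra H) (ξ : H) (U : ℝ → H →L[ℂ] H)
    (e f v s j k : H →L[ℂ] H) : Prop where
  cyc : IsCyclic M ξ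
  sep : IsSeparating M ξ
  modular : IsModular M ξ U
  vM : v ∈ M
  sM : s ∈ M
  eM : e ∈ M
  sv : s * v = 1
  vs : v * s = e
  kj : k * j = 1
  jk : j * k = f
  stv : star v = s
  stj : star j = k
  jc : ∀ x : H →L[ℂ] H, x ∈ M → x * j = j * x
  kc : ∀ x : H →L[ℂ] H, x ∈ M → x * k = k * x
  fξ : f ξ = e ξ
  Ue : ∀ t : ℝ, U t * e = e * U t
  Uf : ∀ t : ℝ, U t * f = f * U t

namespace Cn

variable {M : VonNeumannAlgebra H} {ξ : H} {U : ℝ → H →L[ℂ] H} {e f v s j k : H →L[ℂ] H}
  (C : Cn M ξ U e f v s j k)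
include C

theorem ev : e * v = v := by rw [← C.vs, mul_assoc, C.sv, mul_one]

theorem se : s * e = s := by rw [← C.vs, ← mul_assoc, C.sv, one_mul]

theorem fc {x : H →L[ℂ] H} (hx : x ∈ M) : x * f = f * x := by
  rw [← C.jk, ← mul_assoc, C.jc x hx, mul_assoc, C.kc x hx, mul_assoc]

theorem fj : f * j = j := by rw [← C.jk, mul_assoc, C.kj, mul_one]

theorem kf : k * f = k := by rw [← C.jk, ← mul_assoc, C.kj, one_mul]

theorem stV : star (v * j) = k * s := by rw [star_mul, C.stv, C.stj]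

theorem VsV : k * s * (v * j) = 1 := by
  rw [mul_assoc, ← mul_assoc s, C.sv, one_mul, C.kj]

theorem VVs : v * j * (k * s) = e * f := by
  rw [mul_assoc, ← mul_assoc j, C.jk, ← C.fc C.sM, ← mul_assoc, C.vs]

theorem ef : e * f = f * e := C.fc C.eM

/-- `V V^*` commutes with `U` -/
theorem UVV (t : ℝ) : v * j * (k * s) * U t = U t * (v * j * (k * s)) := by
  rw [C.VVs, mul_assoc, ← C.Uf, ← mul_assoc, ← C.Ue, mul_assoc]

/-- `V a V^* = v a v^* f` -/
theorem VaV {a : H →L[ℂ] H} (ha : a ∈ M) : v * j * a * (k * s) = v * a * s * f := by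
  calc v * j * a * (k * s) = v * (j * a) * (k * s) := by simp only [mul_assoc]
    _ = v * (a * j) * (k * s) := by rw [C.jc a ha]
    _ = v * a * (j * k) * s := by simp only [mul_assoc]
    _ = v * a * (f * s) := by rw [C.jk]; simp only [mul_assoc]
    _ = v * a * (s * f) := by rw [C.fc C.sM]
    _ = v * a * s * f := by simp only [mul_assoc]

/-- `f V = V` -/
theorem fV : f * (v * j) = v * j := by
  calc f * (v * j) = (f * v) * j := by simp only [mul_assoc]
    _ = (v * f) * j := by rw [C.fc C.vM]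
    _ = v * (f * j) := by simp only [mul_assoc]
    _ = v * j := by rw [C.fj]

/-- `V^* y V = v^* y v` -/
theorem VyV {y : H →L[ℂ] H} (hy : y ∈ M) : k * s * y * (v * j) = s * y * v := by
  calc k * s * y * (v * j) = k * (s * y * v) * j := by simp only [mul_assoc]
    _ = (s * y * v) * k * j := by rw [C.kc _ (mul_mem (mul_mem C.sM hy) C.vM)]
    _ = (s * y * v) * (k * j) := by simp only [mul_assoc]
    _ = s * y * v := by rw [C.kj, mul_one]

/-- the modular group of the corner -/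
theorem sgmW (t : ℝ) {a : H →L[ℂ] H} (ha : a ∈ M) :
    k * s * U t * (v * j) * a * (k * s * U (-t) * (v * j)) = s * sgm U t (v * a * s) * v := by
  have hA : v * a * s ∈ M := mul_mem (mul_mem C.vM ha) C.sM
  have hsg : sgm U t (v * a * s) ∈ M := C.modular.mem t _ hA
  have hst : star (U t) = U (-t) := C.modular.star_eq t
  calc k * s * U t * (v * j) * a * (k * s * U (-t) * (v * j))
      = k * s * U t * (v * j * a * (k * s)) * U (-t) * (v * j) := by simp only [mul_assoc]
    _ = k * s * U t * (v * a * s * f) * U (-t) * (v * j) := by rw [C.VaV ha]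
    _ = k * s * U t * (v * a * s) * (f * U (-t)) * (v * j) := by simp only [mul_assoc]
    _ = k * s * U t * (v * a * s) * (U (-t) * f) * (v * j) := by rw [C.Uf]
    _ = k * s * (U t * (v * a * s) * U (-t)) * (f * (v * j)) := by simp only [mul_assoc]
    _ = k * s * sgm U t (v * a * s) * (v * j) := by rw [C.fV, ← hst]; rfl
    _ = s * sgm U t (v * a * s) * v := C.VyV hsg

/-- `x V^* ξ = k (x s ξ)` and `j` of it -/
theorem f_app {x : H →L[ℂ] H} (hx : x ∈ M) : f (x ξ) = (x * e) ξ := by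
  have h1 : (f * x) ξ = (x * f) ξ := by rw [C.fc hx]
  calc f (x ξ) = (f * x) ξ := rfl
    _ = (x * f) ξ := h1
    _ = x (f ξ) := rfl
    _ = x (e ξ) := by rw [C.fξ]
    _ = (x * e) ξ := rfl

theorem sep0 {x : H →L[ℂ] H} (hx : x ∈ M) (h : x ((k * s) ξ) = 0) : x = 0 := by
  have h1 : k ((x * s) ξ) = 0 := by
    calc k ((x * s) ξ) = ((k * x) * s) ξ := rfl
      _ = ((x * k) * s) ξ := by rw [C.kc x hx]
      _ = x ((k * s) ξ) := rfl
      _ = 0 := h
  have h2 : f ((x * s) ξ) = 0 := by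
    rw [← C.jk]
    show j (k ((x * s) ξ)) = 0
    rw [h1, map_zero]
  rw [C.f_app (mul_mem hx C.sM), mul_assoc, C.se] at h2
  have h3 := C.sep _ (mul_mem hx C.sM) h2
  calc x = x * s * v := by rw [mul_assoc, C.sv, mul_one]
    _ = 0 := by rw [h3, zero_mul]

theorem k_app {y : H →L[ℂ] H} (hy : y ∈ M) : k (y ξ) = (y * v) ((k * s) ξ) := by
  calc k (y ξ) = (k * f) (y ξ) := by rw [C.kf]
    _ = k (f (y ξ)) := rfl
    _ = k ((y * e) ξ) := by rw [C.f_app hy]
    _ = k ((y * v * s) ξ) := by rw [← C.vs, ← mul_assoc]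
    _ = ((k * (y * v)) * s) ξ := rfl
    _ = (((y * v) * k) * s) ξ := by rw [C.kc _ (mul_mem hy C.vM)]
    _ = (y * v) ((k * s) ξ) := rfl

theorem dense0 : Dense {w : H | ∃ x : H →L[ℂ] H, x ∈ M ∧ x ((k * s) ξ) = w} := by
  have hsurj : Function.Surjective k := by
    intro w
    refine ⟨j w, ?_⟩
    exact congrArg (fun T : H →L[ℂ] H => T w) C.kj
  have h1 := hsurj.denseRange.dense_image k.continuous C.cyc
  refine h1.mono ?_
  rintro _ ⟨_, ⟨y, hy, rfl⟩, rfl⟩
  exact ⟨y * v, mul_mem hy C.vM, (C.k_app hy).symm⟩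

/-- the state of the corner -/
theorem vst0 {y : H →L[ℂ] H} (hy : y ∈ M) : vst ((k * s) ξ) y = vst ξ (v * y * s) := by
  unfold vst
  have h1 : ⟪(k * s) ξ, y ((k * s) ξ)⟫_ℂ = ⟪ξ, (v * j) (y ((k * s) ξ))⟫_ℂ := by
    rw [← C.stV, ContinuousLinearMap.star_eq_adjoint, ContinuousLinearMap.adjoint_inner_left]
  rw [h1]
  have h2 : (v * j) (y ((k * s) ξ)) = (v * y * s) ξ := by
    calc (v * j) (y ((k * s) ξ)) = (v * j * y * (k * s)) ξ := rfl
      _ = (v * y * s * f) ξ := by rw [C.VaV hy]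
      _ = (v * y * s) (f ξ) := rfl
      _ = (v * y * s) (e ξ) := by rw [C.fξ]
      _ = (v * y * (s * e)) ξ := rfl
      _ = (v * y * s) ξ := by rw [C.se]
  rw [h2]

theorem ne0 (h1 : (1 : H →L[ℂ] H) ≠ 0) : (k * s) ξ ≠ 0 := by
  intro h
  refine h1 (C.sep0 (one_mem M) ?_)
  rw [h, map_zero]

theorem sgm_e (t : ℝ) : sgm U t e = e := by
  have h1 : U t * star (U t) = 1 := by
    rw [C.modular.star_eq, ← C.modular.add, add_neg_cancel, C.modular.zero]
  unfold sgm
  rw [C.Ue, mul_assoc, h1, mul_one]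

theorem sgm_mul (t : ℝ) (x y : H →L[ℂ] H) : sgm U t (x * y) = sgm U t x * sgm U t y := by
  have h1 : star (U t) * U t = 1 := by
    rw [C.modular.star_eq, ← C.modular.add, neg_add_cancel, C.modular.zero]
  unfold sgm
  calc U t * (x * y) * star (U t) = U t * x * 1 * y * star (U t) := by
        rw [mul_one]; simp only [mul_assoc]
    _ = U t * x * (star (U t) * U t) * y * star (U t) := by rw [h1]
    _ = U t * x * star (U t) * (U t * y * star (U t)) := by simp only [mul_assoc]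

theorem modularW (c : ℂ) : IsModular M (c • (k * s) ξ) (fun t => k * s * U t * (v * j)) := by
  have hm := C.modular
  have hW : ∀ t, star (k * s * U t * (v * j)) = k * s * U (-t) * (v * j) := by
    intro t
    have hks : star (k * s) = v * j := by rw [← C.stV, star_star]
    rw [star_mul, C.stV, star_mul, hks, hm.star_eq]
    simp only [mul_assoc]
  have hVW : ∀ t, v * j * (k * s * U t * (v * j)) = U t * (v * j) := by
    intro t
    calc v * j * (k * s * U t * (v * j)) = (v * j * (k * s) * U t) * (v * j) := by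
          simp only [mul_assoc]
      _ = (U t * (v * j * (k * s))) * (v * j) := by rw [C.UVV]
      _ = U t * (v * j) * (k * s * (v * j)) := by simp only [mul_assoc]
      _ = U t * (v * j) := by rw [C.VsV, mul_one]
  refine
    { zero := ?_
      add := ?_
      star_eq := hW
      cont := ?_
      fix := ?_
      mem := ?_
      kms := ?_ }
  · show k * s * U 0 * (v * j) = 1
    rw [hm.zero, mul_one, C.VsV]
  · intro a b
    show k * s * U (a + b) * (v * j) = k * s * U a * (v * j) * (k * s * U b * (v * j))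
    calc k * s * U (a + b) * (v * j) = k * s * U a * (U b * (v * j)) := by
          rw [hm.add]; simp only [mul_assoc]
      _ = k * s * U a * (v * j * (k * s * U b * (v * j))) := by rw [hVW]
      _ = k * s * U a * (v * j) * (k * s * U b * (v * j)) := by simp only [mul_assoc]
  · intro w
    exact (k * s).continuous.comp (hm.cont ((v * j) w))
  · intro t
    show (k * s * U t * (v * j)) (c • (k * s) ξ) = c • (k * s) ξ
    rw [map_smul]
    congr 1
    calc (k * s * U t * (v * j)) ((k * s) ξ) = (k * s * (U t * (v * j * (k * s)))) ξ := rfl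
      _ = (k * s * (v * j * (k * s) * U t)) ξ := by rw [C.UVV]
      _ = ((k * s * (v * j)) * (k * s * U t)) ξ := rfl
      _ = (k * s * U t) ξ := by rw [C.VsV, one_mul]
      _ = (k * s) (U t ξ) := rfl
      _ = (k * s) ξ := by rw [hm.fix]
  · intro t x hx
    have h1 : sgm (fun t => k * s * U t * (v * j)) t x = s * sgm U t (v * x * s) * v := by
      show k * s * U t * (v * j) * x * star (k * s * U t * (v * j)) = _
      rw [hW, C.sgmW t hx]
    rw [h1]
    exact mul_mem (mul_mem C.sM (hm.mem t _ (mul_mem (mul_mem C.vM hx) C.sM))) C.vM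
  · intro a b ha hb
    have hA : v * a * s ∈ M := mul_mem (mul_mem C.vM ha) C.sM
    have hB : v * b * s ∈ M := mul_mem (mul_mem C.vM hb) C.sM
    obtain ⟨F, hF1, hF2, ⟨K, hK⟩, hF4⟩ := hm.kms _ _ hA hB
    have hcs : ∀ y : H →L[ℂ] H, vst (c • (k * s) ξ) y =
        (starRingEnd ℂ c * c) * vst ((k * s) ξ) y := by
      intro y
      unfold vst
      rw [map_smul, inner_smul_left, inner_smul_right]
      ring
    have h1 : ∀ t, sgm (fun t => k * s * U t * (v * j)) t a = s * sgm U t (v * a * s) * v := by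
      intro t
      show k * s * U t * (v * j) * a * star (k * s * U t * (v * j)) = _
      rw [hW, C.sgmW t ha]
    have hsg : ∀ t, sgm U t (v * a * s) ∈ M := fun t => hm.mem t _ hA
    have hse : ∀ t, e * sgm U t (v * a * s) = sgm U t (v * a * s) := by
      intro t
      have h2 := C.sgm_mul t e (v * a * s)
      rw [C.sgm_e, ← mul_assoc, ← mul_assoc, C.ev] at h2
      exact h2.symm
    have hse' : ∀ t, sgm U t (v * a * s) * e = sgm U t (v * a * s) := by
      intro t
      have h2 := C.sgm_mul t (v * a * s) e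
      rw [C.sgm_e, mul_assoc (v * a), C.se] at h2
      exact h2.symm
    refine ⟨fun z => (starRingEnd ℂ c * c) * F z, continuousOn_const.mul hF1,
      (differentiableOn_const _).mul hF2, ⟨‖starRingEnd ℂ c * c‖ * K, fun z hz1 hz2 => ?_⟩,
      fun t => ?_⟩
    · rw [norm_mul]
      exact mul_le_mul_of_nonneg_left (hK z hz1 hz2) (norm_nonneg _)
    · obtain ⟨g1, g2⟩ := hF4 t
      constructor
      · show (starRingEnd ℂ c * c) * F t = _
        rw [hcs, h1, g1, C.vst0 (mul_mem (mul_mem (mul_mem C.sM (hsg t)) C.vM) hb)]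
        congr 2
        calc sgm U t (v * a * s) * (v * b * s)
            = e * sgm U t (v * a * s) * (v * b * s) := by rw [hse]
          _ = v * (s * sgm U t (v * a * s) * v * b) * s := by
              rw [← C.vs]; simp only [mul_assoc]
      · show (starRingEnd ℂ c * c) * F (t + I) = _
        rw [hcs, h1, g2, C.vst0 (mul_mem hb (mul_mem (mul_mem C.sM (hsg t)) C.vM))]
        congr 2
        calc v * b * s * sgm U t (v * a * s)
            = v * b * s * (sgm U t (v * a * s) * e) := by rw [hse']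
          _ = v * (b * (s * sgm U t (v * a * s) * v)) * s := by
              rw [← C.vs]; simp only [mul_assoc]

/-- the final step -/
theorem final (hH : (1 : H →L[ℂ] H) ≠ 0) (h3 : IsTypeIIIone M) {h : ℝ → ℂ} (hh : Tst h)
    {κ : ℝ} (hκ : h κ ≠ 0) : ∃ a : H →L[ℂ] H, a ∈ M ∧ e * a * e = a ∧ psi U h (a ξ) ≠ 0 := by
  have hη0 := C.ne0 hH
  have hn : ‖(k * s) ξ‖ ≠ 0 := norm_ne_zero_iff.2 hη0
  obtain ⟨c, hc⟩ : ∃ c : ℂ, c = ((‖(k * s) ξ‖⁻¹ : ℝ) : ℂ) := ⟨_, rfl⟩
  have hc0 : c ≠ 0 := by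
    rw [hc]
    exact_mod_cast inv_ne_zero hn
  have hW := C.modularW c
  have h1 : ‖c • (k * s) ξ‖ = 1 := by
    rw [norm_smul, hc, Complex.norm_real, norm_inv, norm_norm, inv_mul_cancel₀ hn]
  have hcyc : IsCyclic M (c • (k * s) ξ) := by
    refine C.dense0.mono ?_
    rintro _ ⟨x, hx, rfl⟩
    refine ⟨c⁻¹ • x, T_ps.smul_mem' _ hx, ?_⟩
    show c⁻¹ • x (c • (k * s) ξ) = x ((k * s) ξ)
    rw [map_smul, smul_smul, inv_mul_cancel₀ hc0, one_smul]
  have hsep : IsSeparating M (c • (k * s) ξ) := by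
    intro x hx h0
    rw [map_smul] at h0
    exact C.sep0 hx ((smul_eq_zero.1 h0).resolve_left hc0)
  have hfull := h3.spec H M (StarAlgEquiv.refl ℂ M.toStarSubalgebra) (c • (k * s) ξ)
    (fun t => k * s * U t * (v * j)) h1 hcyc hsep hW
  obtain ⟨w, hw⟩ := psi_ne hW hfull hh hκ
  obtain ⟨x, hx, hxw⟩ : ∃ x : H →L[ℂ] H, x ∈ M ∧
      psi (fun t => k * s * U t * (v * j)) h (x ((k * s) ξ)) ≠ 0 := by
    by_contra hcon
    push Not at hcon
    apply hw
    have h4 : Set.EqOn (T_psi.psiL hW h hh) (0 : H →L[ℂ] H)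
        {w : H | ∃ x : H →L[ℂ] H, x ∈ M ∧ x ((k * s) ξ) = w} := by
      rintro _ ⟨x, hx, rfl⟩
      exact hcon x hx
    have h5 := Continuous.ext_on C.dense0 (T_psi.psiL hW h hh).continuous
      (0 : H →L[ℂ] H).continuous h4
    exact congrFun h5 w
  refine ⟨v * x * s, mul_mem (mul_mem C.vM hx) C.sM, ?_, ?_⟩
  · calc e * (v * x * s) * e = (e * v) * x * (s * e) := by simp only [mul_assoc]
      _ = v * x * s := by rw [C.ev, C.se]
  · intro h0
    apply hxw
    have h6 : (v * j) (psi (fun t => k * s * U t * (v * j)) h (x ((k * s) ξ))) = 0 := by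
      rw [← h0]
      have h7 : (v * x * s) ξ = (v * j) (x ((k * s) ξ)) := by
        calc (v * x * s) ξ = (v * x * (s * e)) ξ := by rw [C.se]
          _ = (v * x * s) (e ξ) := rfl
          _ = (v * x * s) (f ξ) := by rw [C.fξ]
          _ = (v * x * s * f) ξ := rfl
          _ = (v * j * x * (k * s)) ξ := by rw [C.VaV hx]
          _ = (v * j) (x ((k * s) ξ)) := rfl
      rw [h7]
      unfold psi
      rw [← ContinuousLinearMap.integral_comp_comm _ (T_psi.psi_int hW h hh _)]
      congr 1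
      funext t
      rw [map_smul]
      congr 1
      have h8 : v * j * (k * s * U (2 * Real.pi * t) * (v * j)) =
          U (2 * Real.pi * t) * (v * j) := by
        calc v * j * (k * s * U (2 * Real.pi * t) * (v * j))
            = (v * j * (k * s) * U (2 * Real.pi * t)) * (v * j) := by simp only [mul_assoc]
          _ = (U (2 * Real.pi * t) * (v * j * (k * s))) * (v * j) := by rw [C.UVV]
          _ = U (2 * Real.pi * t) * (v * j) * (k * s * (v * j)) := by simp only [mul_assoc]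
          _ = U (2 * Real.pi * t) * (v * j) := by rw [C.VsV, mul_one]
      exact congrArg (fun T : H →L[ℂ] H => T (x ((k * s) ξ))) h8
    have h9 : (k * s) ((v * j) (psi (fun t => k * s * U t * (v * j)) h (x ((k * s) ξ)))) =
        psi (fun t => k * s * U t * (v * j)) h (x ((k * s) ξ)) :=
      congrArg (fun T : H →L[ℂ] H => T (psi (fun t => k * s * U t * (v * j)) h (x ((k * s) ξ))))
        C.VsV
    rw [← h9, h6, map_zero]

end Cn

end corner

theorem r (h1 : S_fixp) (_h2 : S_psi) : S_cor := by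
  intro H _ _ _ M ξ U J hM h3 e he he0 hJe h hh ⟨κ, hκ⟩
  have hJ := hM.conj
  obtain ⟨v, hv, hsv, hvs⟩ := h3.equiv e he.mem he.idem he.sa he0
  have hfix := (h1 H M ξ U J hM e he).1 hJe
  have hUe : ∀ t : ℝ, U t * e = e * U t := by
    intro t
    have h4 : star (U t) * U t = 1 := by
      rw [hM.modular.star_eq, ← hM.modular.add, neg_add_cancel, hM.modular.zero]
    have h5 := hfix t
    unfold sgm at h5
    calc U t * e = U t * e * (star (U t) * U t) := by rw [h4, mul_one]
      _ = (U t * e * star (U t)) * U t := by simp only [mul_assoc]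
      _ = e * U t := by rw [h5]
  have C : Cn M ξ U e (jc hJ e) v (star v) (jc hJ v) (jc hJ (star v)) :=
    { cyc := hM.cyc
      sep := hM.sep
      modular := hM.modular
      vM := hv
      sM := star_mem hv
      eM := he.mem
      sv := hsv
      vs := hvs
      kj := by rw [← jc_mul, hsv, jc_one]
      jk := by rw [← jc_mul, hvs]
      stv := rfl
      stj := jc_star hJ v
      jc := fun x hx => jc_comm hJ hx hv
      kc := fun x hx => jc_comm hJ hx (star_mem hv)
      fξ := by rw [jc_apply, hJ.fix, hJe]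
      Ue := hUe
      Uf := fun t => jc_U hJ t (hUe t) }
  refine C.final ?_ h3 hh hκ
  intro h0
  apply he0
  rw [← mul_one e, h0, mul_zero]

end Pool.Agent.H255.BC.C_cor
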