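import Pool.Agent.H255.BC.Defs6

set_option autoImplicit false

open MeasureTheory Filter Topology Complex
open scoped InnerProductSpace ENNReal FourierTransform

namespace Pool.Agent.H255.BC.C_dec

open Pool.Agent.W662.CB Pool.Agent.H255.BC

noncomputable section

variable {H : Type} [NormedAddCommGroup H] [InnerProductSpace ℂ H] [CompleteSpace H]

def tr (c μ : ℝ) : ℝ := max (μ - c) 0

lemma tr_cont (c : ℝ) : Continuous (tr c) := by unfold tr; fun_prop

def KK (a : H →L[ℂ] H) (c : ℝ) : Submodule ℂ H :=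
  (LinearMap.range ((cfc (tr c) a : H →L[ℂ] H) : H →ₗ[ℂ] H)).topologicalClosure

instance (a : H →L[ℂ] H) (c : ℝ) : CompleteSpace (KK a c) :=
  (Submodule.isClosed_topologicalClosure _).completeSpace_coe

def PP (a : H →L[ℂ] H) (c : ℝ) : H →L[ℂ] H := (KK a c).starProjection

lemma PP_idem (a : H →L[ℂ] H) (c : ℝ) : PP a c * PP a c = PP a c :=
  (isStarProjection_starProjection (U := KK a c)).isIdempotentElem

lemma PP_sa (a : H →L[ℂ] H) (c : ℝ) : star (PP a c) = PP a c :=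
  (isStarProjection_starProjection (U := KK a c)).isSelfAdjoint.star_eq

lemma PP_ext {a T : H →L[ℂ] H} {c : ℝ} (h : T * cfc (tr c) a = 0) : T * PP a c = 0 := by
  ext v
  have hv : PP a c v ∈ closure ((LinearMap.range ((cfc (tr c) a : H →L[ℂ] H) : H →ₗ[ℂ] H) :
      Submodule ℂ H) : Set H) := Submodule.starProjection_apply_mem (KK a c) v
  have hcl : IsClosed {v : H | T v = 0} := isClosed_eq T.continuous continuous_const
  refine closure_minimal ?_ hcl hv
  rintro _ ⟨w, rfl⟩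
  exact congrArg (fun S : H →L[ℂ] H => S w) h

lemma PP_cfc (a : H →L[ℂ] H) (c : ℝ) : PP a c * cfc (tr c) a = cfc (tr c) a := by
  ext v
  have h : cfc (tr c) a v ∈ KK a c := Submodule.le_topologicalClosure _ ⟨v, rfl⟩
  exact Submodule.starProjection_eq_self_iff.2 h

lemma cfc_sa (a : H →L[ℂ] H) (f : ℝ → ℝ) : star (cfc f a) = cfc f a :=
  (cfc_predicate f a : IsSelfAdjoint _).star_eq

lemma cfc_PP (a : H →L[ℂ] H) (c : ℝ) : cfc (tr c) a * PP a c = cfc (tr c) a := by
  have := congrArg star (PP_cfc a c)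
  rwa [star_mul, PP_sa, cfc_sa] at this

lemma mul_cfc {a : H →L[ℂ] H} {f g h : ℝ → ℝ} (hf : Continuous f) (hg : Continuous g)
    (hh : ∀ μ ∈ spectrum ℝ a, f μ * g μ = h μ) : cfc f a * cfc g a = cfc h a := by
  rw [← cfc_mul f g a hf.continuousOn hg.continuousOn]
  exact cfc_congr hh

lemma PP_mono {a : H →L[ℂ] H} {c c' : ℝ} (hc : c ≤ c') :
    PP a c * PP a c' = PP a c' := by
  rcases hc.eq_or_lt with rfl | hc
  · exact PP_idem a c
  have hg : Continuous fun μ : ℝ => max (μ - c') 0 / max (μ - c) (c' - c) := by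
    refine Continuous.div (by fun_prop) (by fun_prop) fun μ => ?_
    have : 0 < max (μ - c) (c' - c) := lt_max_of_lt_right (by linarith)
    exact this.ne'
  have h1 : cfc (tr c) a * cfc (fun μ : ℝ => max (μ - c') 0 / max (μ - c) (c' - c)) a =
      cfc (tr c') a := by
    refine mul_cfc (tr_cont c) hg fun μ _ => ?_
    unfold tr
    rcases le_total μ c' with h | h
    · rw [max_eq_right (a := μ - c') (by linarith), zero_div, mul_zero]
    · rw [max_eq_left (a := μ - c') (by linarith), max_eq_left (a := μ - c) (by linarith),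
        max_eq_left (a := μ - c) (by linarith)]
      have : μ - c ≠ 0 := by
        have : 0 < μ - c := by linarith
        exact this.ne'
      field_simp
  have h2 : (1 - PP a c) * cfc (tr c') a = 0 := by
    rw [← h1, ← mul_assoc, sub_mul, one_mul, PP_cfc, sub_self, zero_mul]
  have h3 := PP_ext h2
  rw [sub_mul, one_mul, sub_eq_zero] at h3
  exact h3.symm

lemma PP_mono' {a : H →L[ℂ] H} {c c' : ℝ} (hc : c ≤ c') :
    PP a c' * PP a c = PP a c' := by
  have := congrArg star (PP_mono (a := a) hc)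
  rwa [star_mul, PP_sa, PP_sa] at this

lemma PP_comm {a : H →L[ℂ] H} {c : ℝ} {y : H →L[ℂ] H} (h : a * y = y * a)
    (h' : a * star y = star y * a) : y * PP a c = PP a c * y := by
  have h1 : ∀ z : H →L[ℂ] H, a * z = z * a → (1 - PP a c) * z * PP a c = 0 := by
    intro z hz
    apply PP_ext
    have := (Commute.cfc_real (show Commute a z from hz) (tr c)).eq
    rw [mul_assoc, ← this, ← mul_assoc, sub_mul, one_mul, PP_cfc, sub_self, zero_mul]
  have e1 := h1 y h
  have e2 := congrArg star (h1 _ h')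
  simp only [star_mul, star_star, star_sub, star_one, star_zero, PP_sa] at e2
  have e3 : PP a c * y * PP a c = y * PP a c := by
    rw [sub_mul, sub_mul, one_mul, sub_eq_zero] at e1
    exact e1.symm
  rw [← mul_assoc, mul_sub, mul_one, sub_eq_zero] at e2
  rw [← e3, ← e2]

lemma PP_mem {M : VonNeumannAlgebra H} {a : H →L[ℂ] H} (ha : a ∈ M) (c : ℝ) : PP a c ∈ M := by
  rw [← VonNeumannAlgebra.commutant_commutant M, VonNeumannAlgebra.mem_commutant_iff]
  intro y hy
  have hy2 := star_mem hy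
  rw [VonNeumannAlgebra.mem_commutant_iff] at hy hy2
  exact PP_comm (hy a ha) (hy2 a ha)

lemma cfc_mem {M : VonNeumannAlgebra H} {a : H →L[ℂ] H} (ha : a ∈ M) (f : ℝ → ℝ) :
    cfc f a ∈ M := by
  rw [← VonNeumannAlgebra.commutant_commutant M, VonNeumannAlgebra.mem_commutant_iff]
  intro y hy
  rw [VonNeumannAlgebra.mem_commutant_iff] at hy
  exact (Commute.cfc_real (show Commute a y from hy a ha) f).eq.symm

lemma cfc_comm (a : H →L[ℂ] H) (f : ℝ → ℝ) (c : ℝ) : cfc f a * PP a c = PP a c * cfc f a := by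
  have h : a * cfc f a = cfc f a * a :=
    (Commute.cfc_real (show Commute a a from rfl) f).eq.symm
  refine PP_comm h ?_
  rw [cfc_sa]; exact h

lemma kill {a : H →L[ℂ] H} {c : ℝ} {g : ℝ → ℝ} (hg : Continuous g)
    (h : ∀ μ, g μ * tr c μ = 0) : cfc g a * PP a c = 0 := by
  apply PP_ext
  rw [mul_cfc (h := fun _ => (0 : ℝ)) hg (tr_cont c) fun μ _ => h μ]
  exact cfc_zero ℝ a

omit [CompleteSpace H] in
lemma pyth {s : Finset ℕ} (y : ℕ → H) (h : ∀ i j, i ≠ j → ⟪y i, y j⟫_ℂ = 0) :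
    ‖∑ i ∈ s, y i‖ ^ 2 = ∑ i ∈ s, ‖y i‖ ^ 2 := by
  classical
  induction s using Finset.induction_on with
  | empty => simp
  | insert i s hi ih =>
    rw [Finset.sum_insert hi, Finset.sum_insert hi, ← ih]
    have h0 : ⟪y i, ∑ j ∈ s, y j⟫_ℂ = 0 := by
      rw [inner_sum]
      exact Finset.sum_eq_zero fun j hj => h i j fun e => hi (e ▸ hj)
    have := norm_add_sq (𝕜 := ℂ) (y i) (∑ j ∈ s, y j)
    rw [h0] at this
    simpa using this

lemma ortho_bound {n : ℕ} {T : H →L[ℂ] H} {R : ℕ → H →L[ℂ] H} {δ : ℝ} (hδ : 0 ≤ δ)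
    (hR : ∀ k, star (R k) = R k) (hi : ∀ k, R k * R k = R k) (ho : ∀ i j, i ≠ j → R i * R j = 0)
    (hsum : ∑ k ∈ Finset.range n, R k = 1)
    (hT : ∀ i j, i ≠ j → star (T * R i) * (T * R j) = 0)
    (hb : ∀ k, k < n → ‖T * R k‖ ≤ δ) : ‖T‖ ≤ δ := by
  refine T.opNorm_le_bound hδ fun v => ?_
  have h1 : T v = ∑ k ∈ Finset.range n, (T * R k) v := by
    have : T = ∑ k ∈ Finset.range n, T * R k := by rw [← Finset.mul_sum, hsum, mul_one]
    conv_lhs => rw [this]
    exact sum_apply _ _ _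
  have h2 : v = ∑ k ∈ Finset.range n, R k v := by
    have : (1 : H →L[ℂ] H) v = ∑ k ∈ Finset.range n, R k v := by
      rw [← hsum]; exact sum_apply _ _ _
    exact this
  have h3 : ‖T v‖ ^ 2 = ∑ k ∈ Finset.range n, ‖(T * R k) v‖ ^ 2 := by
    rw [h1]
    refine pyth (fun k => (T * R k) v) fun i j hij => ?_
    have := congrArg (fun S : H →L[ℂ] H => ⟪v, S v⟫_ℂ) (hT i j hij)
    simp only [_root_.zero_apply, inner_zero_right] at this
    rw [← this]
    show _ = ⟪v, star (T * R i) ((T * R j) v)⟫_ℂ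
    rw [ContinuousLinearMap.star_eq_adjoint, ContinuousLinearMap.adjoint_inner_right]
  have h4 : ‖v‖ ^ 2 = ∑ k ∈ Finset.range n, ‖R k v‖ ^ 2 := by
    conv_lhs => rw [h2]
    refine pyth (fun k => R k v) fun i j hij => ?_
    have := congrArg (fun S : H →L[ℂ] H => ⟪v, S v⟫_ℂ) (ho i j hij)
    simp only [_root_.zero_apply, inner_zero_right] at this
    rw [← this]
    show _ = ⟪v, R i (R j v)⟫_ℂ
    conv_rhs => rw [← hR i]
    rw [ContinuousLinearMap.star_eq_adjoint, ContinuousLinearMap.adjoint_inner_right]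
  have h5 : ‖T v‖ ^ 2 ≤ (δ * ‖v‖) ^ 2 := by
    rw [h3, mul_pow, h4, Finset.mul_sum]
    refine Finset.sum_le_sum fun k hk => ?_
    have e : (T * R k) v = (T * R k) (R k v) := by
      show T (R k v) = T (R k (R k v))
      have := congrArg (fun S : H →L[ℂ] H => S v) (hi k)
      have h : R k (R k v) = R k v := this
      rw [h]
    rw [e, ← mul_pow]
    have := (T * R k).le_opNorm (R k v)
    have h6 := hb k (Finset.mem_range.1 hk)
    gcongr
    exact this.trans (by gcongr)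
  exact abs_le_of_sq_le_sq' h5 (by positivity) |>.2

def cc (δ : ℝ) (k : ℕ) : ℝ := (((k : ℝ) + 1) * δ) ^ 2

lemma cc_mono {δ : ℝ} (hδ : 0 ≤ δ) {i j : ℕ} (h : i ≤ j) : cc δ i ≤ cc δ j := by
  unfold cc
  have : (i : ℝ) ≤ j := by exact_mod_cast h
  gcongr

def q (a : H →L[ℂ] H) (δ : ℝ) : ℕ → H →L[ℂ] H
  | 0 => 1
  | k + 1 => PP a (cc δ k)

def R (a : H →L[ℂ] H) (δ : ℝ) (k : ℕ) : H →L[ℂ] H := q a δ k - q a δ (k + 1)

lemma q_sa (a : H →L[ℂ] H) (δ : ℝ) (k : ℕ) : star (q a δ k) = q a δ k := by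
  cases k with
  | zero => exact star_one _
  | succ k => exact PP_sa _ _

lemma q_mono {a : H →L[ℂ] H} {δ : ℝ} (hδ : 0 ≤ δ) {i j : ℕ} (h : i ≤ j) :
    q a δ i * q a δ j = q a δ j := by
  cases i with
  | zero => exact one_mul _
  | succ i =>
    cases j with
    | zero => omega
    | succ j => exact PP_mono (cc_mono hδ (by omega))

lemma q_mono' {a : H →L[ℂ] H} {δ : ℝ} (hδ : 0 ≤ δ) {i j : ℕ} (h : i ≤ j) :
    q a δ j * q a δ i = q a δ j := by
  have := congrArg star (q_mono (a := a) hδ h)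
  rwa [star_mul, q_sa, q_sa] at this

lemma q_comm (a : H →L[ℂ] H) (f : ℝ → ℝ) (δ : ℝ) (k : ℕ) :
    cfc f a * q a δ k = q a δ k * cfc f a := by
  cases k with
  | zero => exact (mul_one _).trans (one_mul _).symm
  | succ k => exact cfc_comm a f _

lemma R_sa (a : H →L[ℂ] H) (δ : ℝ) (k : ℕ) : star (R a δ k) = R a δ k := by
  unfold R; rw [star_sub, q_sa, q_sa]

lemma R_idem {a : H →L[ℂ] H} {δ : ℝ} (hδ : 0 ≤ δ) (k : ℕ) : R a δ k * R a δ k = R a δ k := by
  unfold R
  rw [sub_mul, mul_sub, mul_sub, q_mono hδ le_rfl, q_mono hδ (Nat.le_succ k),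
    q_mono' hδ (Nat.le_succ k), q_mono hδ le_rfl]
  abel

lemma R_ortho1 {a : H →L[ℂ] H} {δ : ℝ} (hδ : 0 ≤ δ) {i j : ℕ} (h : i < j) :
    R a δ i * R a δ j = 0 := by
  unfold R
  rw [sub_mul, mul_sub, mul_sub, q_mono hδ h.le, q_mono hδ (by omega : i ≤ j + 1),
    q_mono hδ (by omega : i + 1 ≤ j), q_mono hδ (by omega : i + 1 ≤ j + 1)]
  abel

lemma R_ortho {a : H →L[ℂ] H} {δ : ℝ} (hδ : 0 ≤ δ) {i j : ℕ} (h : i ≠ j) :
    R a δ i * R a δ j = 0 := by
  rcases lt_or_gt_of_ne h with h | h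
  · exact R_ortho1 hδ h
  · have := congrArg star (R_ortho1 (a := a) hδ h)
    rwa [star_mul, R_sa, R_sa, star_zero] at this

lemma R_comm (a : H →L[ℂ] H) (f : ℝ → ℝ) (δ : ℝ) (k : ℕ) :
    cfc f a * R a δ k = R a δ k * cfc f a := by
  unfold R
  rw [mul_sub, sub_mul, q_comm, q_comm]

lemma R_mem {M : VonNeumannAlgebra H} {a : H →L[ℂ] H} (ha : a ∈ M) (δ : ℝ) (k : ℕ) :
    R a δ (k + 1) ∈ M := sub_mem (PP_mem ha _) (PP_mem ha _)

lemma R_norm {a : H →L[ℂ] H} {δ : ℝ} (hδ : 0 ≤ δ) (k : ℕ) : ‖R a δ k‖ ≤ 1 := by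
  have h := CStarRing.norm_star_mul_self (x := R a δ k)
  rw [R_sa, R_idem hδ] at h
  by_contra hc
  push Not at hc
  nlinarith

lemma R_sum {a : H →L[ℂ] H} {δ : ℝ} {n : ℕ} (h : cfc (tr (cc δ n)) a = 0) :
    ∑ k ∈ Finset.range (n + 1), R a δ k = 1 := by
  unfold R
  rw [Finset.sum_range_sub']
  have : q a δ (n + 1) = 0 := by
    have := PP_ext (a := a) (T := 1) (c := cc δ n) (by rw [h, mul_zero])
    rwa [one_mul] at this
  rw [this, sub_zero]
  rfl

lemma killtop {a : H →L[ℂ] H} {δ : ℝ} (hδ : 0 ≤ δ) (k : ℕ) :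
    cfc (tr (cc δ k)) a * R a δ k = 0 := by
  have h1 : cfc (tr (cc δ k)) a * q a δ (k + 1) = cfc (tr (cc δ k)) a := cfc_PP a _
  unfold R
  rw [mul_sub, h1, sub_eq_zero]
  calc cfc (tr (cc δ k)) a * q a δ k = cfc (tr (cc δ k)) a * q a δ (k + 1) * q a δ k := by rw [h1]
    _ = _ := by rw [mul_assoc, q_mono' hδ (Nat.le_succ k), h1]

def trm (c μ : ℝ) : ℝ := max (c - μ) 0

lemma trm_cont (c : ℝ) : Continuous (trm c) := by unfold trm; fun_prop

lemma killbot {a : H →L[ℂ] H} {δ : ℝ} (hδ : 0 ≤ δ) (k : ℕ) :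
    cfc (trm (cc δ k)) a * R a δ (k + 1) = 0 := by
  have h1 : cfc (trm (cc δ k)) a * q a δ (k + 1) = 0 := by
    refine kill (trm_cont _) fun μ => ?_
    unfold tr trm
    rcases le_total μ (cc δ k) with h | h
    · rw [max_eq_right (a := μ - cc δ k) (by linarith), mul_zero]
    · rw [max_eq_right (a := cc δ k - μ) (by linarith), zero_mul]
  unfold R
  rw [mul_sub, h1, zero_sub, neg_eq_zero]
  rw [← q_mono (a := a) hδ (Nat.le_succ (k + 1)), ← mul_assoc, h1, zero_mul]

def CC (δ : ℝ) (k : ℕ) (μ : ℝ) : ℝ := max (cc δ k) (min μ (cc δ (k + 1)))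

lemma CC_cont (δ : ℝ) (k : ℕ) : Continuous (CC δ k) := by unfold CC; fun_prop

lemma aR {a : H →L[ℂ] H} (ha : IsSelfAdjoint a) {δ : ℝ} (hδ : 0 ≤ δ) (k : ℕ) :
    a * R a δ (k + 1) = cfc (CC δ k) a * R a δ (k + 1) := by
  have h : cfc (CC δ k) a + cfc (tr (cc δ (k + 1))) a - cfc (trm (cc δ k)) a = a := by
    rw [← cfc_add a _ _ (CC_cont δ k).continuousOn (tr_cont _).continuousOn,
      ← cfc_sub (fun x => CC δ k x + tr (cc δ (k + 1)) x) (trm (cc δ k)) a
        (((CC_cont δ k).add (tr_cont _)).continuousOn) (trm_cont _).continuousOn]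
    conv_rhs => rw [← cfc_id ℝ a]
    refine cfc_congr fun μ _ => ?_
    have hc := cc_mono hδ (Nat.le_succ k)
    show CC δ k μ + tr (cc δ (k + 1)) μ - trm (cc δ k) μ = μ
    unfold CC tr trm
    rcases le_total μ (cc δ k) with h1 | h1
    · rw [min_eq_left (by linarith : μ ≤ cc δ (k + 1)), max_eq_left h1,
        max_eq_right (a := μ - _) (by linarith : μ - cc δ (k + 1) ≤ 0),
        max_eq_left (by linarith : 0 ≤ cc δ k - μ)]
      ring
    · rw [max_eq_right (a := cc δ k - μ) (by linarith)]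
      rcases le_total μ (cc δ (k + 1)) with h2 | h2
      · rw [min_eq_left h2, max_eq_right h1, max_eq_right (a := μ - _)
          (by linarith : μ - cc δ (k + 1) ≤ 0)]
        ring
      · rw [min_eq_right h2, max_eq_right hc, max_eq_left (by linarith : 0 ≤ μ - cc δ (k + 1))]
        ring
  calc a * R a δ (k + 1) =
      (cfc (CC δ k) a + cfc (tr (cc δ (k + 1))) a - cfc (trm (cc δ k)) a) * R a δ (k + 1) := by
        rw [h]
    _ = _ := by rw [sub_mul, add_mul, killtop hδ, killbot hδ, add_zero, sub_zero]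

lemma aR0 {a : H →L[ℂ] H} (ha : IsSelfAdjoint a) {δ : ℝ} (hδ : 0 ≤ δ) :
    a * R a δ 0 = cfc (fun μ => min μ (cc δ 0)) a * R a δ 0 := by
  have h : cfc (fun μ => min μ (cc δ 0)) a + cfc (tr (cc δ 0)) a = a := by
    rw [← cfc_add a _ _ (by fun_prop) (tr_cont _).continuousOn]
    conv_rhs => rw [← cfc_id ℝ a]
    refine cfc_congr fun μ _ => ?_
    show min μ (cc δ 0) + tr (cc δ 0) μ = μ
    unfold tr
    rcases le_total μ (cc δ 0) with h1 | h1
    · rw [min_eq_left h1, max_eq_right (by linarith)]; ring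
    · rw [min_eq_right h1, max_eq_left (by linarith)]; ring
  calc a * R a δ 0 = (cfc (fun μ => min μ (cc δ 0)) a + cfc (tr (cc δ 0)) a) * R a δ 0 := by
        rw [h]
    _ = _ := by rw [add_mul, killtop hδ, add_zero]

lemma sandwich {a : H →L[ℂ] H} (ha : IsSelfAdjoint a) {δ : ℝ} (hδ : 0 ≤ δ) (k : ℕ)
    {f : ℝ → ℝ} (hf : Continuous f) :
    cfc f a * a * cfc f a * R a δ (k + 1) =
      cfc (fun μ => f μ * CC δ k μ * f μ) a * R a δ (k + 1) := by
  calc cfc f a * a * cfc f a * R a δ (k + 1) = cfc f a * (a * R a δ (k + 1)) * cfc f a := by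
        rw [mul_assoc _ (cfc f a), R_comm]; simp only [mul_assoc]
    _ = cfc f a * cfc (CC δ k) a * (R a δ (k + 1) * cfc f a) := by
        rw [aR ha hδ]; simp only [mul_assoc]
    _ = cfc f a * cfc (CC δ k) a * cfc f a * R a δ (k + 1) := by
        rw [← R_comm]; simp only [mul_assoc]
    _ = _ := by
        rw [← cfc_mul f _ a hf.continuousOn (CC_cont δ k).continuousOn,
          ← cfc_mul (fun x => f x * CC δ k x) f a (hf.mul (CC_cont δ k)).continuousOn
            hf.continuousOn]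

def GG (δ : ℝ) (k : ℕ) (μ : ℝ) : ℝ := (Real.sqrt (CC δ k μ))⁻¹

lemma cc_pos {δ : ℝ} (hδ : 0 < δ) (k : ℕ) : 0 < cc δ k := by unfold cc; positivity

lemma CC_ge (δ : ℝ) (k : ℕ) (μ : ℝ) : cc δ k ≤ CC δ k μ := le_max_left _ _

lemma CC_le {δ : ℝ} (hδ : 0 ≤ δ) (k : ℕ) (μ : ℝ) : CC δ k μ ≤ cc δ (k + 1) :=
  max_le (cc_mono hδ (Nat.le_succ k)) (min_le_right _ _)

lemma sqrt_ge {δ : ℝ} (k : ℕ) (μ : ℝ) : ((k : ℝ) + 1) * δ ≤ Real.sqrt (CC δ k μ) :=
  Real.le_sqrt_of_sq_le (CC_ge δ k μ)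

lemma sqrt_le {δ : ℝ} (hδ : 0 < δ) (k : ℕ) (μ : ℝ) :
    Real.sqrt (CC δ k μ) ≤ ((k : ℝ) + 1) * δ + δ := by
  rw [Real.sqrt_le_left (by positivity)]
  refine (CC_le hδ.le k μ).trans (le_of_eq ?_)
  unfold cc; push_cast; ring

lemma GG_cont {δ : ℝ} (hδ : 0 < δ) (k : ℕ) : Continuous (GG δ k) := by
  unfold GG
  refine Continuous.inv₀ ((CC_cont δ k).sqrt) fun μ => ?_
  exact (Real.sqrt_pos.2 ((cc_pos hδ k).trans_le (CC_ge δ k μ))).ne'

lemma GaG {a : H →L[ℂ] H} (ha : IsSelfAdjoint a) {δ : ℝ} (hδ : 0 < δ) (k : ℕ) :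
    cfc (GG δ k) a * a * cfc (GG δ k) a * R a δ (k + 1) = R a δ (k + 1) := by
  rw [sandwich ha hδ.le k (GG_cont hδ k)]
  have : cfc (fun μ => GG δ k μ * CC δ k μ * GG δ k μ) a = cfc (fun _ => (1 : ℝ)) a := by
    refine cfc_congr fun μ _ => ?_
    show GG δ k μ * CC δ k μ * GG δ k μ = 1
    have h0 : 0 < CC δ k μ := (cc_pos hδ k).trans_le (CC_ge δ k μ)
    have h1 : 0 < Real.sqrt (CC δ k μ) := Real.sqrt_pos.2 h0
    unfold GG
    have h2 := Real.mul_self_sqrt h0.le
    conv_lhs => rw [← h2]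
    field_simp
    rw [Real.sqrt_sq h1.le]
  rw [this, cfc_const_one ℝ a, one_mul]

/-- the pieces -/
def W (x : H →L[ℂ] H) (δ : ℝ) (j : ℕ) : H →L[ℂ] H :=
  x * cfc (GG δ j) (star x * x) * R (star x * x) δ (j + 1)

lemma W_star_mul (x : H →L[ℂ] H) {δ : ℝ} (hδ : 0 < δ) (i j : ℕ) :
    star (W x δ i) * W x δ j = if i = j then R (star x * x) δ (j + 1) else 0 := by
  have ha : IsSelfAdjoint (star x * x) := .star_mul_self x
  unfold W
  rw [star_mul, star_mul, R_sa, cfc_sa]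
  obtain ⟨a, rfl⟩ : ∃ a, a = star x * x := ⟨_, rfl⟩
  have e : R (star x * x) δ (i + 1) * (cfc (GG δ i) (star x * x) * star x) *
      (x * cfc (GG δ j) (star x * x) * R (star x * x) δ (j + 1)) =
      R (star x * x) δ (i + 1) * (cfc (GG δ i) (star x * x) * (star x * x) *
        cfc (GG δ j) (star x * x) * R (star x * x) δ (j + 1)) := by
    simp only [mul_assoc]
  rw [e]
  split_ifs with h
  · subst h
    rw [GaG ha hδ, R_idem hδ.le]
  · have h1 : cfc (GG δ i) (star x * x) * (star x * x) *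
        cfc (GG δ j) (star x * x) * R (star x * x) δ (j + 1) =
        R (star x * x) δ (j + 1) * (cfc (GG δ i) (star x * x) * (star x * x) *
        cfc (GG δ j) (star x * x)) := by
      have h2 := R_comm (star x * x) (fun μ => μ) δ (j + 1)
      rw [cfc_id' ℝ (star x * x)] at h2
      rw [mul_assoc _ (cfc (GG δ j) _), R_comm, ← mul_assoc, mul_assoc _ (star x * x), h2,
        ← mul_assoc, R_comm]
      simp only [mul_assoc]
    rw [h1, ← mul_assoc, R_ortho hδ.le (by omega), zero_mul]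

lemma W_mul_star (x : H →L[ℂ] H) {δ : ℝ} (hδ : 0 < δ) {i j : ℕ} (h : i ≠ j) :
    W x δ i * star (W x δ j) = 0 := by
  unfold W
  rw [star_mul, R_sa, mul_assoc, ← mul_assoc (R _ δ (i + 1)), R_ortho hδ.le (by omega), zero_mul,
    mul_zero]

lemma W_R (x : H →L[ℂ] H) {δ : ℝ} (hδ : 0 < δ) (j : ℕ) :
    W x δ j * R (star x * x) δ (j + 1) = W x δ j := by
  unfold W
  rw [mul_assoc, R_idem hδ.le]

lemma W_mem {M : VonNeumannAlgebra H} {x : H →L[ℂ] H} (hx : x ∈ M) (δ : ℝ) (j : ℕ) :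
    W x δ j ∈ M := by
  have ha : star x * x ∈ M := mul_mem (star_mem hx) hx
  exact mul_mem (mul_mem hx (cfc_mem ha _)) (R_mem ha _ _)

def EE (x : H →L[ℂ] H) (δ : ℝ) (n : ℕ) : H →L[ℂ] H :=
  1 - ∑ j ∈ Finset.range n, (((((j : ℝ) + 1) * δ : ℝ)) : ℂ) •
    (cfc (GG δ j) (star x * x) * R (star x * x) δ (j + 1))

lemma x_EE (x : H →L[ℂ] H) (δ : ℝ) (n : ℕ) :
    x * EE x δ n = x - ∑ j ∈ Finset.range n, (((((j : ℝ) + 1) * δ : ℝ)) : ℂ) • W x δ j := by
  unfold EE W
  rw [mul_sub, mul_one, Finset.mul_sum]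
  simp only [mul_smul_comm, mul_assoc]

lemma EE_R0 (x : H →L[ℂ] H) {δ : ℝ} (hδ : 0 < δ) (n : ℕ) :
    EE x δ n * R (star x * x) δ 0 = R (star x * x) δ 0 := by
  unfold EE
  rw [sub_mul, one_mul, Finset.sum_mul, Finset.sum_eq_zero, sub_zero]
  intro j _
  rw [smul_mul_assoc, mul_assoc, R_ortho hδ.le (by omega), mul_zero, smul_zero]

lemma EE_Rk (x : H →L[ℂ] H) {δ : ℝ} (hδ : 0 < δ) {n k : ℕ} (hk : k < n) :
    EE x δ n * R (star x * x) δ (k + 1) =
      cfc (fun μ => 1 - ((k : ℝ) + 1) * δ * GG δ k μ) (star x * x) * R (star x * x) δ (k + 1) := by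
  have ha : IsSelfAdjoint (star x * x) := .star_mul_self x
  have h1 : cfc (fun μ => 1 - ((k : ℝ) + 1) * δ * GG δ k μ) (star x * x) =
      1 - (((((k : ℝ) + 1) * δ : ℝ)) : ℂ) • cfc (GG δ k) (star x * x) := by
    rw [cfc_sub (fun _ => (1 : ℝ)) (fun μ => ((k : ℝ) + 1) * δ * GG δ k μ) (star x * x)
      continuousOn_const ((continuous_const.mul (GG_cont hδ k)).continuousOn),
      cfc_const_one ℝ (star x * x),
      cfc_const_mul (((k : ℝ) + 1) * δ) (GG δ k) (star x * x) (GG_cont hδ k).continuousOn,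
      Complex.coe_smul]
  unfold EE
  rw [h1, sub_mul, one_mul, Finset.sum_mul, Finset.sum_eq_single k, sub_mul, one_mul,
    smul_mul_assoc, smul_mul_assoc, mul_assoc, R_idem hδ.le]
  · intro j _ hj
    rw [smul_mul_assoc, mul_assoc, R_ortho hδ.le (by omega), mul_zero, smul_zero]
  · intro h
    exact absurd (Finset.mem_range.2 hk) h

lemma EE_comm (x : H →L[ℂ] H) {δ : ℝ} (hδ : 0 < δ) (n k : ℕ) :
    EE x δ n * R (star x * x) δ k = R (star x * x) δ k * EE x δ n := by
  unfold EE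
  rw [sub_mul, mul_sub, one_mul, mul_one, Finset.sum_mul, Finset.mul_sum]
  congr 1
  refine Finset.sum_congr rfl fun j _ => ?_
  rw [smul_mul_assoc, mul_smul_comm, mul_assoc, ← mul_assoc (R _ δ k), ← R_comm, mul_assoc]
  by_cases h : j + 1 = k
  · subst h; rfl
  · rw [R_ortho hδ.le h, R_ortho hδ.le (Ne.symm h)]

lemma EE_sa (x : H →L[ℂ] H) (δ : ℝ) (n : ℕ) : star (EE x δ n) = EE x δ n := by
  unfold EE
  rw [star_sub, star_one, star_sum]
  congr 1
  refine Finset.sum_congr rfl fun j _ => ?_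
  rw [star_smul, star_mul, R_sa, cfc_sa, R_comm]
  congr 1
  exact Complex.conj_ofReal _

lemma a_comm (x : H →L[ℂ] H) (δ : ℝ) (k : ℕ) :
    star x * x * R (star x * x) δ k = R (star x * x) δ k * (star x * x) := by
  have ha : IsSelfAdjoint (star x * x) := .star_mul_self x
  have h2 := R_comm (star x * x) (fun μ => μ) δ k
  rwa [cfc_id' ℝ (star x * x)] at h2

lemma T_mul (x : H →L[ℂ] H) {δ : ℝ} (hδ : 0 < δ) (n i j : ℕ) :
    star (x * EE x δ n * R (star x * x) δ i) * (x * EE x δ n * R (star x * x) δ j) =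
      EE x δ n * (star x * x) * EE x δ n * (R (star x * x) δ i * R (star x * x) δ j) := by
  calc star (x * EE x δ n * R (star x * x) δ i) * (x * EE x δ n * R (star x * x) δ j)
      = R (star x * x) δ i * EE x δ n * (star x * x) * EE x δ n * R (star x * x) δ j := by
        rw [star_mul, star_mul, R_sa, EE_sa]; simp only [mul_assoc]
    _ = EE x δ n * (R (star x * x) δ i * (star x * x)) * EE x δ n * R (star x * x) δ j := by
        rw [← EE_comm x hδ]; simp only [mul_assoc]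
    _ = EE x δ n * (star x * x) * (R (star x * x) δ i * EE x δ n) * R (star x * x) δ j := by
        rw [← a_comm]; simp only [mul_assoc]
    _ = _ := by
        rw [← EE_comm x hδ]; simp only [mul_assoc]

lemma T_R0 (x : H →L[ℂ] H) {δ : ℝ} (hδ : 0 < δ) (n : ℕ) :
    ‖x * EE x δ n * R (star x * x) δ 0‖ ≤ δ := by
  have ha : IsSelfAdjoint (star x * x) := .star_mul_self x
  have h1 : star (x * EE x δ n * R (star x * x) δ 0) * (x * EE x δ n * R (star x * x) δ 0) =
      R (star x * x) δ 0 *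
      (cfc (fun μ => min μ (cc δ 0)) (star x * x) * R (star x * x) δ 0) := by
    rw [← aR0 ha hδ.le, mul_assoc, EE_R0 x hδ, star_mul, R_sa]
    simp only [mul_assoc]
  have h2 : ‖cfc (fun μ => min μ (cc δ 0)) (star x * x)‖ ≤ δ ^ 2 := by
    refine norm_cfc_le (by positivity) fun μ hμ => ?_
    have h0 : 0 ≤ μ := spectrum_nonneg_of_nonneg (star_mul_self_nonneg x) hμ
    have hc : cc δ 0 = δ ^ 2 := by unfold cc; simp
    rw [hc, Real.norm_eq_abs, abs_of_nonneg (le_min h0 (by positivity))]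
    exact min_le_right _ _
  have h3 := CStarRing.norm_star_mul_self (x := x * EE x δ n * R (star x * x) δ 0)
  rw [h1] at h3
  have h4 : ‖R (star x * x) δ 0 *
      (cfc (fun μ => min μ (cc δ 0)) (star x * x) * R (star x * x) δ 0)‖ ≤ δ ^ 2 := by
    calc _ ≤ ‖R (star x * x) δ 0‖ * (‖cfc (fun μ => min μ (cc δ 0)) (star x * x)‖ *
          ‖R (star x * x) δ 0‖) := (norm_mul_le _ _).trans (by gcongr; exact norm_mul_le _ _)
      _ ≤ 1 * (δ ^ 2 * 1) := by
          gcongr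
          · exact R_norm hδ.le 0
          · exact R_norm hδ.le 0
      _ = _ := by ring
  rw [h3] at h4
  exact abs_le_of_sq_le_sq' (by rw [sq]; exact h4) hδ.le |>.2

lemma T_Rk (x : H →L[ℂ] H) {δ : ℝ} (hδ : 0 < δ) {n k : ℕ} (hk : k < n) :
    ‖x * EE x δ n * R (star x * x) δ (k + 1)‖ ≤ δ := by
  have ha : IsSelfAdjoint (star x * x) := .star_mul_self x
  have hf : Continuous fun μ => 1 - ((k : ℝ) + 1) * δ * GG δ k μ :=
    continuous_const.sub (continuous_const.mul (GG_cont hδ k))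
  have h1 : star (x * EE x δ n * R (star x * x) δ (k + 1)) *
      (x * EE x δ n * R (star x * x) δ (k + 1)) =
      cfc (fun μ => (1 - ((k : ℝ) + 1) * δ * GG δ k μ) * CC δ k μ *
        (1 - ((k : ℝ) + 1) * δ * GG δ k μ)) (star x * x) * R (star x * x) δ (k + 1) := by
    rw [← sandwich ha hδ.le k hf, mul_assoc x, EE_Rk x hδ hk, star_mul, star_mul, R_sa, cfc_sa]
    obtain ⟨F, hF⟩ : ∃ F, F = cfc (fun μ => 1 - ((k : ℝ) + 1) * δ * GG δ k μ) (star x * x) :=
      ⟨_, rfl⟩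
    have hFR : F * R (star x * x) δ (k + 1) = R (star x * x) δ (k + 1) * F := by
      rw [hF]; exact R_comm _ _ _ _
    rw [← hF]
    calc R (star x * x) δ (k + 1) * F * star x * (x * (F * R (star x * x) δ (k + 1)))
        = F * (R (star x * x) δ (k + 1) * (star x * x)) * (F * R (star x * x) δ (k + 1)) := by
          rw [← hFR]; simp only [mul_assoc]
      _ = F * (star x * x) * (R (star x * x) δ (k + 1) * F) * R (star x * x) δ (k + 1) := by
          rw [← a_comm]; simp only [mul_assoc]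
      _ = F * (star x * x) * F * (R (star x * x) δ (k + 1) * R (star x * x) δ (k + 1)) := by
          rw [← hFR]; simp only [mul_assoc]
      _ = _ := by rw [R_idem hδ.le]
  have h2 : ‖cfc (fun μ => (1 - ((k : ℝ) + 1) * δ * GG δ k μ) * CC δ k μ *
        (1 - ((k : ℝ) + 1) * δ * GG δ k μ)) (star x * x)‖ ≤ δ ^ 2 := by
    refine norm_cfc_le (by positivity) fun μ _ => ?_
    have h0 : 0 < CC δ k μ := (cc_pos hδ k).trans_le (CC_ge δ k μ)
    have h1 : 0 < Real.sqrt (CC δ k μ) := Real.sqrt_pos.2 h0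
    have h2 := Real.sq_sqrt h0.le
    have h5 := sqrt_ge (δ := δ) k μ
    have h6 := sqrt_le hδ k μ
    have e : (1 - ((k : ℝ) + 1) * δ * GG δ k μ) * CC δ k μ * (1 - ((k : ℝ) + 1) * δ * GG δ k μ) =
        (Real.sqrt (CC δ k μ) - ((k : ℝ) + 1) * δ) ^ 2 := by
      unfold GG
      generalize hs : Real.sqrt (CC δ k μ) = s at *
      rw [← h2]
      field_simp
    rw [e, Real.norm_eq_abs, abs_of_nonneg (by positivity)]
    have : 0 ≤ Real.sqrt (CC δ k μ) - ((k : ℝ) + 1) * δ := by linarith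
    have : Real.sqrt (CC δ k μ) - ((k : ℝ) + 1) * δ ≤ δ := by linarith
    gcongr
  have h3 := CStarRing.norm_star_mul_self (x := x * EE x δ n * R (star x * x) δ (k + 1))
  rw [h1] at h3
  have h4 : ‖cfc (fun μ => (1 - ((k : ℝ) + 1) * δ * GG δ k μ) * CC δ k μ *
        (1 - ((k : ℝ) + 1) * δ * GG δ k μ)) (star x * x) * R (star x * x) δ (k + 1)‖ ≤ δ ^ 2 := by
    calc _ ≤ ‖cfc (fun μ => (1 - ((k : ℝ) + 1) * δ * GG δ k μ) * CC δ k μ *
        (1 - ((k : ℝ) + 1) * δ * GG δ k μ)) (star x * x)‖ * ‖R (star x * x) δ (k + 1)‖ :=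
          norm_mul_le _ _
      _ ≤ δ ^ 2 * 1 := by
          gcongr
          exact R_norm hδ.le _
      _ = _ := by ring
  rw [h3] at h4
  exact abs_le_of_sq_le_sq' (by rw [sq]; exact h4) hδ.le |>.2

lemma cfc_top (x : H →L[ℂ] H) {c : ℝ} (hc : ‖star x * x‖ ≤ c) :
    cfc (tr c) (star x * x) = 0 := by
  have h : cfc (tr c) (star x * x) = cfc (fun _ => (0 : ℝ)) (star x * x) := by
    refine cfc_congr fun μ hμ => ?_
    have h1 := spectrum.norm_le_norm_mul_of_mem hμ
    have h2 : ‖(1 : H →L[ℂ] H)‖ ≤ 1 := ContinuousLinearMap.norm_id_le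
    have h3 : μ ≤ c := by
      calc μ ≤ ‖μ‖ := le_abs_self μ
        _ ≤ ‖star x * x‖ * ‖(1 : H →L[ℂ] H)‖ := h1
        _ ≤ ‖star x * x‖ * 1 := by gcongr
        _ ≤ c := by rw [mul_one]; exact hc
    show max (μ - c) 0 = 0
    exact max_eq_right (by linarith)
  rw [h]
  exact cfc_zero ℝ _

lemma e_PP {x e : H →L[ℂ] H} (he : star e = e) (hxe : x * e = x) {c : ℝ} (hc : 0 < c) :
    PP (star x * x) c * e = PP (star x * x) c := by
  have ha : IsSelfAdjoint (star x * x) := .star_mul_self x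
  have h1 : e * (star x * x) = star x * x := by
    have := congrArg star hxe
    rw [star_mul, he] at this
    rw [← mul_assoc, this]
  have hg : Continuous fun μ : ℝ => max (μ - c) 0 / max μ c := by
    refine Continuous.div (by fun_prop) (by fun_prop) fun μ => ?_
    exact (lt_max_of_lt_right hc).ne'
  have h2 : star x * x * cfc (fun μ : ℝ => max (μ - c) 0 / max μ c) (star x * x) =
      cfc (tr c) (star x * x) := by
    have := mul_cfc (a := star x * x) (f := fun μ => μ) (h := tr c) continuous_id hg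
      (fun μ _ => by
        unfold tr
        rcases le_total μ c with h | h
        · rw [max_eq_right (a := μ - c) (by linarith), zero_div, mul_zero]
        · rw [max_eq_left h]
          have : μ ≠ 0 := (hc.trans_le h).ne'
          field_simp)
    rwa [cfc_id' ℝ (star x * x)] at this
  have h3 : (1 - e) * cfc (tr c) (star x * x) = 0 := by
    rw [← h2, ← mul_assoc, sub_mul, one_mul, h1, sub_self, zero_mul]
  have h4 := PP_ext h3
  rw [sub_mul, one_mul, sub_eq_zero] at h4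
  have h5 := congrArg star h4
  rw [star_mul, PP_sa, he] at h5
  exact h5.symm

theorem r : S_dec := by
  intro H _ _ _ M x hx ε hε
  obtain ⟨n, hn⟩ := exists_nat_gt (‖star x * x‖ / ε ^ 2)
  have hn' : ‖star x * x‖ ≤ cc ε n := by
    rw [div_lt_iff₀ (by positivity)] at hn
    refine hn.le.trans ?_
    unfold cc
    rw [mul_pow]
    gcongr
    nlinarith [(Nat.cast_nonneg n : (0 : ℝ) ≤ n)]
  refine ⟨n, fun j => W x ε j, fun j => ((j : ℝ) + 1) * ε, fun j => W_mem hx _ _,
    fun j => by positivity, ?_, ?_, ?_, ?_, ?_⟩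
  · intro i j hij
    have : (i : ℝ) < j := by exact_mod_cast hij
    show ((i : ℝ) + 1) * ε < ((j : ℝ) + 1) * ε
    gcongr
  · intro j
    show W x ε j * star (W x ε j) * W x ε j = W x ε j
    rw [mul_assoc, W_star_mul x hε, if_pos rfl, W_R x hε]
  · intro i j hij
    have hij' : (i : ℕ) ≠ j := fun h => hij (Fin.ext h)
    refine ⟨?_, W_mul_star x hε hij'⟩
    show star (W x ε i) * W x ε j = 0
    rw [W_star_mul x hε, if_neg hij']
  · have h1 : x - ∑ j : Fin n, (((((j : ℕ) : ℝ) + 1) * ε : ℝ) : ℂ) • W x ε j =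
        x * EE x ε n := by
      rw [x_EE, Fin.sum_univ_eq_sum_range (fun j : ℕ => ((((j : ℝ) + 1) * ε : ℝ) : ℂ) • W x ε j)]
    show ‖x - ∑ j : Fin n, (((((j : ℕ) : ℝ) + 1) * ε : ℝ) : ℂ) • W x ε j‖ ≤ ε
    rw [h1]
    refine ortho_bound (n := n + 1) (R := R (star x * x) ε) hε.le (R_sa _ _) (R_idem hε.le)
      (fun i j h => R_ortho hε.le h) (R_sum (cfc_top x hn')) ?_ ?_
    · intro i j hij
      rw [T_mul x hε, R_ortho hε.le hij, mul_zero]
    · intro k hk
      cases k with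
      | zero => exact T_R0 x hε n
      | succ k => exact T_Rk x hε (by omega)
  · intro e f he hes hf hfs hx0 j
    have hxe : x * e = x := by
      calc x * e = f * x * e * e := by rw [hx0]
        _ = x := by rw [mul_assoc _ e e, he, hx0]
    have hfx : f * x = x := by
      calc f * x = f * (f * x * e) := by rw [hx0]
        _ = x := by rw [mul_assoc f x e, ← mul_assoc f f, hf, ← mul_assoc, hx0]
    show f * W x ε j * e = W x ε j
    have hR : R (star x * x) ε (j + 1) * e = R (star x * x) ε (j + 1) := by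
      show (PP (star x * x) (cc ε j) - PP (star x * x) (cc ε (j + 1))) * e =
        PP (star x * x) (cc ε j) - PP (star x * x) (cc ε (j + 1))
      rw [sub_mul, e_PP hes hxe (cc_pos hε _), e_PP hes hxe (cc_pos hε _)]
    unfold W
    rw [← mul_assoc, ← mul_assoc, hfx, mul_assoc, hR]

end

end Pool.Agent.H255.BC.C_dec
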