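import Pool.Agent.H255.BC.Defs6
import Pool.Agent.H255.BC.P_ps

set_option autoImplicit false

open MeasureTheory Filter Topology Complex
open scoped InnerProductSpace ENNReal FourierTransform

/-!
Connes–Størmer, exhaustion, part A: operators, right multiplications.
-/

namespace Pool.Agent.H155.BC.ExhA

open Pool.Agent.W662.CB Pool.Agent.H255.BC

section ops

variable {H : Type} [NormedAddCommGroup H] [InnerProductSpace ℂ H] [CompleteSpace H]

theorem nsq (v : H) : ⟪v, v⟫_ℂ = ((‖v‖ ^ 2 : ℝ) : ℂ) := by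
  rw [inner_self_eq_norm_sq_to_K]; push_cast; rfl

theorem adl (a : H →L[ℂ] H) (v w : H) : ⟪a v, w⟫_ℂ = ⟪v, star a w⟫_ℂ := T_ps.adj_l a v w

theorem pyth {a b : H} (h : ⟪a, b⟫_ℂ = 0) : ‖a + b‖ ^ 2 = ‖a‖ ^ 2 + ‖b‖ ^ 2 := by
  have := norm_add_sq_eq_norm_sq_add_norm_sq_of_inner_eq_zero a b h
  rw [sq, sq, sq]
  exact this

theorem pr_norm {p : H →L[ℂ] H} (h1 : p * p = p) (h2 : star p = p) (v : H) : ‖p v‖ ≤ ‖v‖ := by
  have h : ⟪p v, p v⟫_ℂ = ⟪v, p v⟫_ℂ := by
    rw [adl, h2, ← mul_apply_eq_comp, h1]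
  have h3 : ‖p v‖ ^ 2 ≤ ‖v‖ * ‖p v‖ := by
    have h4 : ((‖p v‖ ^ 2 : ℝ) : ℂ) = ⟪v, p v⟫_ℂ := by rw [← nsq, h]
    have h5 : ‖((‖p v‖ ^ 2 : ℝ) : ℂ)‖ ≤ ‖v‖ * ‖p v‖ := by
      rw [h4]
      exact norm_inner_le_norm _ _
    rwa [Complex.norm_real, Real.norm_of_nonneg (sq_nonneg _)] at h5
  rcases (norm_nonneg (p v)).eq_or_lt with h6 | h6
  · rw [← h6]
    exact norm_nonneg _
  · nlinarith

theorem pr_pyth {p : H →L[ℂ] H} (h1 : p * p = p) (h2 : star p = p) (v : H) :
    ‖p v‖ ^ 2 + ‖v - p v‖ ^ 2 = ‖v‖ ^ 2 := by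
  have h : ⟪p v, v - p v⟫_ℂ = 0 := by
    rw [adl, h2, map_sub, ← mul_apply_eq_comp, h1, sub_self, inner_zero_right]
  have h3 := pyth h
  rw [add_sub_cancel] at h3
  exact h3.symm

/-- orthogonality of vectors in the ranges of orthogonal projections -/
theorem orth_pr {p q : H →L[ℂ] H} (h2 : star p = p) (h : p * q = 0) {a b : H} (ha : p a = a)
    (hb : q b = b) : ⟪a, b⟫_ℂ = 0 := by
  rw [← ha, adl, h2, ← hb, ← mul_apply_eq_comp, h, zero_apply, inner_zero_right]

theorem pi_idem {w : H →L[ℂ] H} (h : w * star w * w = w) :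
    (star w * w) * (star w * w) = star w * w := by
  rw [← mul_assoc, mul_assoc (star w) w (star w), mul_assoc, h]

theorem pi_idem' {w : H →L[ℂ] H} (h : w * star w * w = w) :
    (w * star w) * (w * star w) = w * star w := by
  rw [← mul_assoc, h]

theorem pi_sa (w : H →L[ℂ] H) : star (star w * w) = star w * w := by
  rw [star_mul, star_star]

theorem pi_sa' (w : H →L[ℂ] H) : star (w * star w) = w * star w := by
  rw [star_mul, star_star]

theorem pi_star {w : H →L[ℂ] H} (h : w * star w * w = w) : star w * w * star w = star w := by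
  have := congrArg star h
  rwa [star_mul, star_mul, star_star, ← mul_assoc] at this

theorem pi_norm_eq {w : H →L[ℂ] H} (h : w * star w * w = w) (v : H) :
    ‖w v‖ = ‖(star w * w) v‖ := by
  have h1 : ⟪w v, w v⟫_ℂ = ⟪(star w * w) v, (star w * w) v⟫_ℂ := by
    rw [adl, adl, pi_sa, ← mul_apply_eq_comp, ← mul_apply_eq_comp, pi_idem h]
  rw [nsq, nsq] at h1
  have h2 : ‖w v‖ ^ 2 = ‖(star w * w) v‖ ^ 2 := by exact_mod_cast h1
  exact (pow_left_inj₀ (norm_nonneg _) (norm_nonneg _) two_ne_zero).1 h2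

theorem pi_norm {w : H →L[ℂ] H} (h : w * star w * w = w) (v : H) : ‖w v‖ ≤ ‖v‖ := by
  rw [pi_norm_eq h]
  exact pr_norm (pi_idem h) (pi_sa w) v

theorem pi_norm' {w : H →L[ℂ] H} (h : w * star w * w = w) (v : H) : ‖star w v‖ ≤ ‖v‖ := by
  have h2 : star w * star (star w) * star w = star w := by
    rw [star_star]
    exact pi_star h
  exact pi_norm h2 v

theorem isPr_dom {M : VonNeumannAlgebra H} {w : H →L[ℂ] H} (hw : w ∈ M) (h : w * star w * w = w) :
    IsPr M (star w * w) := ⟨mul_mem (star_mem hw) hw, pi_idem h, pi_sa w⟩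

theorem isPr_ran {M : VonNeumannAlgebra H} {w : H →L[ℂ] H} (hw : w ∈ M) (h : w * star w * w = w) :
    IsPr M (w * star w) := ⟨mul_mem hw (star_mem hw), pi_idem' h, pi_sa' w⟩

end ops

section right

variable {H : Type} [NormedAddCommGroup H] [InnerProductSpace ℂ H] [CompleteSpace H]
  {M : VonNeumannAlgebra H} {ξ : H} {U : ℝ → H →L[ℂ] H} {J : H → H}

/-- the right multiplication `v ↦ J y J v` -/
noncomputable def RR (hJ : IsConj M ξ U J) (y : H →L[ℂ] H) : H →L[ℂ] H :=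
  LinearMap.mkContinuous
    { toFun := fun v => J (y (J v))
      map_add' := fun v w => by rw [hJ.add, map_add, hJ.add]
      map_smul' := fun c v => by
        rw [hJ.smul, map_smul, hJ.smul, Complex.conj_conj]
        rfl }
    ‖y‖ (fun v => by
      show ‖J (y (J v))‖ ≤ ‖y‖ * ‖v‖
      rw [T_ps.J_norm hJ]
      refine (y.le_opNorm _).trans ?_
      rw [T_ps.J_norm hJ])

theorem RR_apply (hJ : IsConj M ξ U J) (y : H →L[ℂ] H) (v : H) : RR hJ y v = J (y (J v)) := rfl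

theorem RR_mul (hJ : IsConj M ξ U J) (x y : H →L[ℂ] H) : RR hJ (x * y) = RR hJ x * RR hJ y := by
  ext v
  rw [mul_apply_eq_comp, RR_apply, RR_apply, RR_apply, hJ.inv, mul_apply_eq_comp]

theorem RR_one (hJ : IsConj M ξ U J) : RR hJ 1 = 1 := by
  ext v
  rw [RR_apply, one_apply_eq_self, hJ.inv, one_apply_eq_self]

theorem RR_zero (hJ : IsConj M ξ U J) : RR hJ 0 = 0 := by
  ext v
  rw [RR_apply, zero_apply, T_ps.J_zero hJ, zero_apply]

theorem RR_add (hJ : IsConj M ξ U J) (x y : H →L[ℂ] H) : RR hJ (x + y) = RR hJ x + RR hJ y := by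
  ext v
  rw [RR_apply, add_apply, hJ.add, add_apply, RR_apply, RR_apply]

theorem RR_sub (hJ : IsConj M ξ U J) (x y : H →L[ℂ] H) : RR hJ (x - y) = RR hJ x - RR hJ y := by
  ext v
  rw [RR_apply, sub_apply, T_ps.J_sub hJ, sub_apply, RR_apply, RR_apply]

theorem RR_comm (hJ : IsConj M ξ U J) {x y : H →L[ℂ] H} (hx : x ∈ M) (hy : y ∈ M) :
    x * RR hJ y = RR hJ y * x := by
  ext v
  rw [mul_apply_eq_comp, mul_apply_eq_comp, RR_apply, RR_apply]
  exact hJ.comm x y hx hy v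

theorem RR_star (hJ : IsConj M ξ U J) (y : H →L[ℂ] H) : star (RR hJ y) = RR hJ (star y) := by
  ext v
  refine ext_inner_left ℂ fun u => ?_
  rw [← adl, RR_apply, RR_apply]
  calc ⟪J (y (J u)), v⟫_ℂ = ⟪J v, y (J u)⟫_ℂ := T_ps.J_swap hJ _ _
    _ = ⟪star y (J v), J u⟫_ℂ := by rw [adl, star_star]
    _ = ⟪J (J (star y (J v))), J u⟫_ℂ := by rw [hJ.inv]
    _ = ⟪u, J (star y (J v))⟫_ℂ := hJ.inner _ _

theorem RR_fix (hJ : IsConj M ξ U J) (y : H →L[ℂ] H) {ζ : H} (h : J ζ = ζ) :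
    RR hJ y ζ = J (y ζ) := by
  rw [RR_apply, h]

end right

end Pool.Agent.H155.BC.ExhA

/-!
Connes–Størmer, exhaustion, part B: one partial isometry.
-/

namespace Pool.Agent.H155.BC.ExhB

open Pool.Agent.W662.CB Pool.Agent.H255.BC
open Pool.Agent.H155.BC.ExhA

variable {H : Type} [NormedAddCommGroup H] [InnerProductSpace ℂ H] [CompleteSpace H]
  {M : VonNeumannAlgebra H} {ξ : H} {U : ℝ → H →L[ℂ] H} {J : H → H}

theorem comm_p (hJ : IsConj M ξ U J) {v : H →L[ℂ] H} (hv : v ∈ M) (h : v * star v * v = v)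
    {ζ : H} (hζ : J ζ = ζ) :
    ‖(star v * v) ζ - J ((star v * v) ζ)‖ ≤ 2 * ‖J (star v ζ) - v ζ‖ := by
  have h1 : star v (J (star v ζ)) = J (star v (J (star v ζ))) := by
    have := hJ.comm (star v) (star v) (star_mem hv) (star_mem hv) ζ
    rwa [hζ] at this
  have h2 : (star v * v) ζ - J ((star v * v) ζ) =
      J (star v (J (star v ζ) - v ζ)) - star v (J (star v ζ) - v ζ) := by
    rw [map_sub, T_ps.J_sub hJ, ← h1, mul_apply_eq_comp]
    abel
  rw [h2]
  refine (norm_sub_le _ _).trans ?_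
  rw [T_ps.J_norm hJ, two_mul]
  exact add_le_add (pi_norm' h _) (pi_norm' h _)

theorem comm_q (hJ : IsConj M ξ U J) {v : H →L[ℂ] H} (hv : v ∈ M) (h : v * star v * v = v)
    {ζ : H} (hζ : J ζ = ζ) :
    ‖(v * star v) ζ - J ((v * star v) ζ)‖ ≤ 2 * ‖J (star v ζ) - v ζ‖ := by
  have h1 : v (J (v ζ)) = J (v (J (v ζ))) := by
    have := hJ.comm v v hv hv ζ
    rwa [hζ] at this
  have h2 : (v * star v) ζ - J ((v * star v) ζ) =
      v (J (J (star v ζ) - v ζ)) - J (v (J (J (star v ζ) - v ζ))) := by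
    rw [T_ps.J_sub hJ, hJ.inv, map_sub, T_ps.J_sub hJ, ← h1, mul_apply_eq_comp]
    abel
  rw [h2]
  refine (norm_sub_le _ _).trans ?_
  rw [T_ps.J_norm hJ, two_mul]
  have h3 : ‖v (J (J (star v ζ) - v ζ))‖ ≤ ‖J (star v ζ) - v ζ‖ := by
    refine (pi_norm h _).trans ?_
    rw [T_ps.J_norm hJ]
  exact add_le_add h3 h3

/-- the pinching operator -/
noncomputable def TT (hJ : IsConj M ξ U J) (p q r : H →L[ℂ] H) : H →L[ℂ] H :=
  p * RR hJ p + q * RR hJ q + r * RR hJ r

theorem TT_apply (hJ : IsConj M ξ U J) (p q r : H →L[ℂ] H) (ζ : H) :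
    TT hJ p q r ζ = p (J (p (J ζ))) + q (J (q (J ζ))) + r (J (r (J ζ))) := rfl

/-- the distance to the pinched vector -/
theorem pinch_dist (hJ : IsConj M ξ U J) {p q r : H →L[ℂ] H} (hp : IsPr M p) (hq : IsPr M q)
    (hr : IsPr M r) (hs : p + q + r = 1) {ζ : H} (hζ : J ζ = ζ) {d : ℝ}
    (h1 : ‖p ζ - J (p ζ)‖ ≤ d) (h2 : ‖q ζ - J (q ζ)‖ ≤ d) :
    ‖ζ - TT hJ p q r ζ‖ ≤ 4 * d := by
  have hrr : r = 1 - p - q := by rw [← hs]; abel
  have e1 : ∀ s : H →L[ℂ] H, s * s = s → s ζ - (s * RR hJ s) ζ = s (s ζ - J (s ζ)) := by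
    intro s h
    rw [map_sub, ← mul_apply_eq_comp s s, h, mul_apply_eq_comp, RR_fix hJ s hζ]
  have e2 : ζ - TT hJ p q r ζ = p (p ζ - J (p ζ)) + q (q ζ - J (q ζ)) + r (r ζ - J (r ζ)) := by
    rw [← e1 p hp.idem, ← e1 q hq.idem, ← e1 r hr.idem]
    have e3 : ζ = p ζ + q ζ + r ζ := by
      have := congrArg (fun T : H →L[ℂ] H => T ζ) hs
      simpa using this.symm
    have e4 : TT hJ p q r ζ = (p * RR hJ p) ζ + (q * RR hJ q) ζ + (r * RR hJ r) ζ := rfl
    rw [e4]
    nth_rewrite 1 [e3]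
    abel
  have e5 : r ζ - J (r ζ) = -(p ζ - J (p ζ)) - (q ζ - J (q ζ)) := by
    have e6 : r ζ = ζ - p ζ - q ζ := by rw [hrr]; rfl
    rw [e6, T_ps.J_sub hJ, T_ps.J_sub hJ, hζ]
    abel
  have h3 : ‖r ζ - J (r ζ)‖ ≤ d + d := by
    rw [e5]
    refine (norm_sub_le _ _).trans ?_
    rw [norm_neg]
    exact add_le_add h1 h2
  rw [e2]
  have h4 := pr_norm hp.idem hp.sa (p ζ - J (p ζ))
  have h5 := pr_norm hq.idem hq.sa (q ζ - J (q ζ))
  have h6 := pr_norm hr.idem hr.sa (r ζ - J (r ζ))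
  have h7 := norm_add₃_le (a := p (p ζ - J (p ζ))) (b := q (q ζ - J (q ζ))) (c := r (r ζ - J (r ζ)))
  linarith

/-- relations for a partial isometry with square zero -/
theorem sq_rel {v : H →L[ℂ] H} (h : v * star v * v = v) (h0 : v * v = 0) :
    (star v * v) * (v * star v) = 0 ∧ (v * star v) * (star v * v) = 0 ∧
    v * (v * star v) = 0 ∧ star v * (star v * v) = 0 ∧ v * (star v * v) = v ∧
    star v * (v * star v) = star v ∧ (star v * v) * star v = star v ∧ (v * star v) * v = v ∧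
    (star v * v) * v = 0 ∧ (v * star v) * star v = 0 := by
  have h0' : star v * star v = 0 := by rw [← star_mul, h0, star_zero]
  refine ⟨?_, ?_, ?_, ?_, ?_, ?_, ?_, ?_, ?_, ?_⟩
  · rw [mul_assoc, ← mul_assoc v v, h0, zero_mul, mul_zero]
  · rw [mul_assoc, ← mul_assoc (star v) (star v), h0', zero_mul, mul_zero]
  · rw [← mul_assoc, h0, zero_mul]
  · rw [← mul_assoc, h0', zero_mul]
  · rw [← mul_assoc, h]
  · rw [← mul_assoc, pi_star h]
  · exact pi_star h
  · exact h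
  · rw [mul_assoc, h0, mul_zero]
  · rw [mul_assoc, h0', mul_zero]

section one

variable (hJ : IsConj M ξ U J) {v : H →L[ℂ] H} (hv : v ∈ M) (h : v * star v * v = v)
  (h0 : v * v = 0) {r : H →L[ℂ] H} (hr : r = 1 - star v * v - v * star v) {ζ : H} (hζ : J ζ = ζ)

include hv h h0 hr

/-- `v ζ' = v ζ p` -/
theorem v_TT : v * TT hJ (star v * v) (v * star v) r = RR hJ (star v * v) * v := by
  obtain ⟨r1, r2, r3, r4, r5, r6, r7, r8, r9, r10⟩ := sq_rel h h0
  have e : v * r = 0 := by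
    rw [hr, mul_sub, mul_sub, mul_one, r5, r3, sub_self, zero_sub, neg_zero]
  unfold TT
  rw [mul_add, mul_add, ← mul_assoc, r5, ← mul_assoc v (v * star v), r3, zero_mul,
    ← mul_assoc v r, e, zero_mul, add_zero, add_zero]
  exact RR_comm hJ hv (mul_mem (star_mem hv) hv)

/-- `ζ' v = q ζ v` -/
theorem R_TT : RR hJ (star v) * TT hJ (star v * v) (v * star v) r = (v * star v) * RR hJ (star v) := by
  obtain ⟨r1, r2, r3, r4, r5, r6, r7, r8, r9, r10⟩ := sq_rel h h0
  have hp : star v * v ∈ M := mul_mem (star_mem hv) hv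
  have hq : v * star v ∈ M := mul_mem hv (star_mem hv)
  have hrM : r ∈ M := by
    rw [hr]
    exact sub_mem (sub_mem (one_mem M) hp) hq
  have e : star v * r = 0 := by
    rw [hr, mul_sub, mul_sub, mul_one, r4, r6, sub_zero, sub_self]
  have key : ∀ s : H →L[ℂ] H, s ∈ M → RR hJ (star v) * (s * RR hJ s) = s * RR hJ (star v * s) := by
    intro s hs
    rw [← mul_assoc, ← RR_comm hJ hs (star_mem hv), mul_assoc, ← RR_mul]
  unfold TT
  rw [mul_add, mul_add, key _ hp, key _ hq, key _ hrM, r4, r6, e, RR_zero, mul_zero, mul_zero,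
    zero_add, add_zero]

include hζ

/-- the commutator of `v` and `ζ'` -/
theorem comm_new : ‖J (star v (TT hJ (star v * v) (v * star v) r ζ)) -
      v (TT hJ (star v * v) (v * star v) r ζ)‖ ≤ ‖J (star v ζ) - v ζ‖ ∧
    ‖v ζ‖ ≤ ‖v (TT hJ (star v * v) (v * star v) r ζ)‖ + 2 * ‖J (star v ζ) - v ζ‖ := by
  obtain ⟨r1, r2, r3, r4, r5, r6, r7, r8, r9, r10⟩ := sq_rel h h0
  have hp : star v * v ∈ M := mul_mem (star_mem hv) hv
  have hq : v * star v ∈ M := mul_mem hv (star_mem hv)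
  have e1 : v (TT hJ (star v * v) (v * star v) r ζ) = RR hJ (star v * v) (v ζ) := by
    rw [← mul_apply_eq_comp, v_TT hJ hv h h0 hr, mul_apply_eq_comp]
  have e2 : RR hJ (star v) (TT hJ (star v * v) (v * star v) r ζ) =
      (v * star v) (RR hJ (star v) ζ) := by
    rw [← mul_apply_eq_comp, R_TT hJ hv h h0 hr, mul_apply_eq_comp]
  -- `J ζ' = ζ'`
  have e0 : J (TT hJ (star v * v) (v * star v) r ζ) = TT hJ (star v * v) (v * star v) r ζ := by
    have hrM : r ∈ M := by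
      rw [hr]
      exact sub_mem (sub_mem (one_mem M) hp) hq
    have key : ∀ s : H →L[ℂ] H, s ∈ M → J (s (J (s (J ζ)))) = s (J (s (J ζ))) := by
      intro s hs
      have h5 := hJ.comm s s hs hs ζ
      rw [hζ] at h5 ⊢
      exact h5.symm
    rw [TT_apply, hJ.add, hJ.add, key _ hp, key _ hq, key _ hrM]
  rw [RR_fix hJ _ e0, RR_fix hJ _ hζ] at e2
  have e3 : RR hJ (star v * v) (J (star v ζ)) = J (star v ζ) := by
    rw [RR_apply, hJ.inv, ← mul_apply_eq_comp, r7]
  have e4 : (v * star v) (v ζ) = v ζ := by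
    rw [← mul_apply_eq_comp, r8]
  have hRn : ∀ u : H, ‖RR hJ (star v * v) u‖ ≤ ‖u‖ := by
    intro u
    rw [RR_apply, T_ps.J_norm hJ]
    refine (pr_norm (pi_idem h) (pi_sa v) _).trans ?_
    rw [T_ps.J_norm hJ]
  have hqn : ∀ u : H, ‖(v * star v) u‖ ≤ ‖u‖ := fun u => pr_norm (pi_idem' h) (pi_sa' v) u
  refine ⟨?_, ?_⟩
  · have e5 : J (star v (TT hJ (star v * v) (v * star v) r ζ)) -
        v (TT hJ (star v * v) (v * star v) r ζ) =
        (v * star v) (RR hJ (star v * v) (J (star v ζ) - v ζ)) := by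
      have e6 : (v * star v) (RR hJ (star v * v) (v ζ)) =
          RR hJ (star v * v) ((v * star v) (v ζ)) :=
        congrArg (fun T : H →L[ℂ] H => T (v ζ)) (RR_comm hJ hq hp)
      rw [map_sub, e3, map_sub, e6, e4, e1, e2]
    rw [e5]
    exact (hqn _).trans (hRn _)
  · have e6 : v ζ - RR hJ (star v * v) (v ζ) =
        v ((star v * v) ζ - J ((star v * v) ζ)) := by
      have e7 : RR hJ (star v * v) (v ζ) = v (J ((star v * v) ζ)) := by
        rw [← mul_apply_eq_comp, ← RR_comm hJ hv hp, mul_apply_eq_comp, RR_fix hJ _ hζ]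
      rw [e7, map_sub, ← mul_apply_eq_comp v (star v * v), r5]
    have e8 : ‖v ζ - RR hJ (star v * v) (v ζ)‖ ≤ 2 * ‖J (star v ζ) - v ζ‖ := by
      rw [e6]
      exact (pi_norm h _).trans (comm_p hJ hv h hζ)
    rw [e1]
    have e9 := norm_sub_norm_le (v ζ) (RR hJ (star v * v) (v ζ))
    linarith

end one

end Pool.Agent.H155.BC.ExhB

/-!
Connes–Størmer, exhaustion, part C: the states, the order and the extension.
-/

namespace Pool.Agent.H155.BC.ExhC

open Pool.Agent.W662.CB Pool.Agent.H255.BC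
open Pool.Agent.H155.BC.ExhA Pool.Agent.H155.BC.ExhB

variable {H : Type} [NormedAddCommGroup H] [InnerProductSpace ℂ H] [CompleteSpace H]
  {M : VonNeumannAlgebra H} {ξ : H} {U : ℝ → H →L[ℂ] H} {J : H → H}

/-- the states -/
structure Stt (M : VonNeumannAlgebra H) (ξ : H) (J : H → H) (e f : H →L[ℂ] H) (η : ℝ)
    (w : H →L[ℂ] H) (ζ : H) (Z : Set (H →L[ℂ] H)) : Prop where
  mem : w ∈ M
  fwe : f * w * e = w
  pi : w * star w * w = w
  cone : ζ ∈ cone M ξ J
  sep : IsSeparating M ζ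
  pc : J ((star w * w) ζ) = (star w * w) ζ
  qc : J ((w * star w) ζ) = (w * star w) ζ
  ec : J (e ζ) = e ζ
  tw : ‖J (star w ζ) - w ζ‖ ^ 2 ≤ η ^ 2 * ‖w ζ‖ ^ 2
  Zp : ∀ z ∈ Z, IsPr M z ∧ z * (star w * w + w * star w) = z
  Zc : ∀ z ∈ Z, J (z ζ) = z ζ

/-- the order -/
structure Ord (M : VonNeumannAlgebra H) (J : H → H) (η : ℝ)
    (w : H →L[ℂ] H) (ζ : H) (Z : Set (H →L[ℂ] H))
    (w' : H →L[ℂ] H) (ζ' : H) (Z' : Set (H →L[ℂ] H)) : Prop where
  a : w' * (star w * w) = w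
  b : (w * star w) * w' = w
  c : (star w * w) ζ' = (star w * w) ζ
  d : (w * star w) ζ' = (w * star w) ζ
  sub : Z ⊆ Z'
  orth : ∀ u : H, (∀ z ∈ Z', J (z (J u)) = z u) → ⟪ζ - ζ', u⟫_ℂ = 0
  gain : ‖ζ‖ ^ 2 - ‖ζ'‖ ^ 2 ≤ 64 * η ^ 2 * (‖w' ζ'‖ ^ 2 - ‖w ζ‖ ^ 2)
  pin : ∀ z : H →L[ℂ] H, IsPr M z → z * (star w' * w' + w' * star w') = 0 →
    z (J (z (J ζ'))) = z (J (z (J ζ)))

/-- basic relations of a partial isometry from `e` to `f` -/
structure Bas (e f w : H →L[ℂ] H) : Prop where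
  fw : f * w = w
  we : w * e = w
  esw : e * star w = star w
  swf : star w * f = star w
  ep : e * (star w * w) = star w * w
  pe : (star w * w) * e = star w * w
  fq : f * (w * star w) = w * star w
  qf : (w * star w) * f = w * star w
  ew : e * w = 0
  wf : w * f = 0
  fsw : f * star w = 0
  swe : star w * e = 0
  ww : w * w = 0
  pw : (star w * w) * star w = star w
  wp : w * (star w * w) = w

theorem bas {e f w : H →L[ℂ] H} (he : star e = e) (hf : star f = f) (he2 : e * e = e)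
    (hf2 : f * f = f) (hef : e * f = 0) (h : f * w * e = w) (hpi : w * star w * w = w) :
    Bas e f w := by
  have hfe : f * e = 0 := by
    have := congrArg star hef
    rwa [star_mul, star_zero, he, hf] at this
  have fw : f * w = w := by
    rw [← h, ← mul_assoc, ← mul_assoc, hf2]
  have we : w * e = w := by
    rw [← h, mul_assoc, he2]
  have esw : e * star w = star w := by
    have := congrArg star we
    rwa [star_mul, he] at this
  have swf : star w * f = star w := by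
    have := congrArg star fw
    rwa [star_mul, hf] at this
  have ew : e * w = 0 := by rw [← fw, ← mul_assoc, hef, zero_mul]
  have wf : w * f = 0 := by rw [← we, mul_assoc, hef, mul_zero]
  refine ⟨fw, we, esw, swf, ?_, ?_, ?_, ?_, ew, wf, ?_, ?_, ?_, pi_star hpi, ?_⟩
  · rw [← mul_assoc, esw]
  · rw [mul_assoc, we]
  · rw [← mul_assoc, fw]
  · rw [mul_assoc, swf]
  · rw [← esw, ← mul_assoc, hfe, zero_mul]
  · rw [← swf, mul_assoc, hfe, mul_zero]
  · nth_rewrite 1 [← we]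
    rw [mul_assoc, ew, mul_zero]
  · rw [← mul_assoc, hpi]

/-- relations of two orthogonal partial isometries -/
structure Rel (w v : H →L[ℂ] H) : Prop where
  qv : (w * star w) * v = 0
  vp : v * (star w * w) = 0
  swv : star w * v = 0
  vsw : v * star w = 0
  svw : star v * w = 0
  wsv : w * star v = 0
  wv : w * v = 0
  vw : v * w = 0
  vv : v * v = 0
  swsv : star w * star v = 0
  svsw : star v * star w = 0

theorem rel {e f w v : H →L[ℂ] H} (B : Bas e f w) (C : Bas e f v)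
    (hv : (f - w * star w) * v * (e - star w * w) = v) (hpi : w * star w * w = w) : Rel w v := by
  have qv : (w * star w) * v = 0 := by
    have e1 : (w * star w) * (f - w * star w) = 0 := by
      rw [mul_sub, B.qf, pi_idem' hpi, sub_self]
    rw [← hv, ← mul_assoc, ← mul_assoc, e1, zero_mul, zero_mul]
  have vp : v * (star w * w) = 0 := by
    have e1 : (e - star w * w) * (star w * w) = 0 := by
      rw [sub_mul, B.ep, pi_idem hpi, sub_self]
    rw [← hv, mul_assoc, e1, mul_zero]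
  have swv : star w * v = 0 := by
    rw [← B.pw, mul_assoc (star w * w), mul_assoc (star w) w, ← mul_assoc w (star w), qv, mul_zero]
  have vsw : v * star w = 0 := by
    rw [← B.pw, ← mul_assoc, vp, zero_mul]
  have svw : star v * w = 0 := by
    have := congrArg star swv
    rwa [star_mul, star_star, star_zero] at this
  have wsv : w * star v = 0 := by
    have := congrArg star vsw
    rwa [star_mul, star_star, star_zero] at this
  have wv : w * v = 0 := by
    rw [← B.we, mul_assoc, C.ew, mul_zero]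
  have vw : v * w = 0 := by
    rw [← C.we, mul_assoc, B.ew, mul_zero]
  refine ⟨qv, vp, swv, vsw, svw, wsv, wv, vw, C.ww, ?_, ?_⟩
  · rw [← star_mul, vw, star_zero]
  · rw [← star_mul, wv, star_zero]

/-- products of the projections of orthogonal partial isometries -/
theorem rel_pr {w v : H →L[ℂ] H} (R : Rel w v) :
    (star w * w) * (star v * v) = 0 ∧ (star w * w) * (v * star v) = 0 ∧
    (w * star w) * (star v * v) = 0 ∧ (w * star w) * (v * star v) = 0 ∧
    (star v * v) * (star w * w) = 0 ∧ (star v * v) * (w * star w) = 0 ∧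
    (v * star v) * (star w * w) = 0 ∧ (v * star v) * (w * star w) = 0 := by
  refine ⟨?_, ?_, ?_, ?_, ?_, ?_, ?_, ?_⟩
  · rw [mul_assoc, ← mul_assoc w, R.wsv, zero_mul, mul_zero]
  · rw [mul_assoc, ← mul_assoc w, R.wv, zero_mul, mul_zero]
  · rw [mul_assoc, ← mul_assoc (star w), R.swsv, zero_mul, mul_zero]
  · rw [mul_assoc, ← mul_assoc (star w), R.swv, zero_mul, mul_zero]
  · rw [mul_assoc, ← mul_assoc v, R.vsw, zero_mul, mul_zero]
  · rw [mul_assoc, ← mul_assoc v, R.vw, zero_mul, mul_zero]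
  · rw [mul_assoc, ← mul_assoc (star v), R.svsw, zero_mul, mul_zero]
  · rw [mul_assoc, ← mul_assoc (star v), R.svw, zero_mul, mul_zero]

theorem rel_sum {w v : H →L[ℂ] H} (R : Rel w v) :
    star (w + v) * (w + v) = star w * w + star v * v ∧
    (w + v) * star (w + v) = w * star w + v * star v := by
  constructor
  · rw [star_add, add_mul, mul_add, mul_add, R.swv, R.svw, add_zero, zero_add]
  · rw [star_add, add_mul, mul_add, mul_add, R.wsv, R.vsw, add_zero, zero_add]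

/-- a separating vector of the cone is cyclic -/
theorem cyc (hc : S_comm) (hM : Mod M ξ U J) {ζ : H} (hζ : J ζ = ζ) (hs : IsSeparating M ζ) :
    IsCyclic M ζ := by
  have hJ := hM.conj
  let E0 : Submodule ℂ H :=
    { carrier := {v | ∃ x : H →L[ℂ] H, x ∈ M ∧ x ζ = v}
      add_mem' := by
        rintro v w ⟨c, hc, rfl⟩ ⟨d, hd, rfl⟩
        exact ⟨c + d, add_mem hc hd, rfl⟩
      zero_mem' := ⟨0, zero_mem M, rfl⟩
      smul_mem' := by
        rintro r v ⟨c, hc, rfl⟩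
        exact ⟨r • c, M.toStarSubalgebra.smul_mem hc r, rfl⟩ }
  set E : Submodule ℂ H := E0.topologicalClosure with hE
  have hEcl : IsClosed (E : Set H) := E0.isClosed_topologicalClosure
  have : CompleteSpace E := hEcl.completeSpace_coe
  set P : H →L[ℂ] H := E.starProjection with hP
  have hinv : ∀ y : H →L[ℂ] H, y ∈ M → ∀ v : H, v ∈ E → y v ∈ E := by
    intro y hy v hv
    have hv' : v ∈ closure (E0 : Set H) := hv
    refine map_mem_closure (f := fun v : H => y v) y.continuous hv' ?_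
    rintro v ⟨c, hc, rfl⟩
    exact ⟨y * c, mul_mem hy hc, rfl⟩
  have hcomm : ∀ y : H →L[ℂ] H, y ∈ M → P * y = y * P := by
    intro y hy
    ext v
    rw [mul_apply_eq_comp, mul_apply_eq_comp]
    refine Submodule.eq_starProjection_of_mem_orthogonal ?_ ?_
    · exact hinv y hy _ (Submodule.starProjection_apply_mem _ _)
    · rw [← map_sub, Submodule.mem_orthogonal']
      intro u hu
      rw [adl]
      exact Submodule.starProjection_inner_eq_zero _ _ (hinv _ (star_mem hy) u hu)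
  have hζE : P ζ = ζ := by
    rw [hP, Submodule.starProjection_eq_self_iff]
    exact subset_closure ⟨1, one_mem M, rfl⟩
  have hT : RR hJ (1 - P) ∈ M := by
    refine hc H M ξ U J hM.modular hM.cyc hJ _ fun y hy v => ?_
    have e1 : RR hJ (1 - P) * RR hJ y = RR hJ y * RR hJ (1 - P) := by
      rw [← RR_mul, ← RR_mul, sub_mul, mul_sub, hcomm y hy, one_mul, mul_one]
    exact congrArg (fun T : H →L[ℂ] H => T v) e1
  have hT0 : RR hJ (1 - P) = 0 := by
    refine hs _ hT ?_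
    rw [RR_fix hJ _ hζ, sub_apply, one_apply_eq_self, hζE, sub_self, T_ps.J_zero hJ]
  have hP1 : ∀ u : H, P u = u := by
    intro u
    have e1 := congrArg (fun T : H →L[ℂ] H => T (J u)) hT0
    simp only [RR_apply, hJ.inv, zero_apply] at e1
    have e2 : (1 - P) u = 0 := by
      rw [← hJ.inv ((1 - P) u), e1, T_ps.J_zero hJ]
    rw [sub_apply, one_apply_eq_self, sub_eq_zero] at e2
    exact e2.symm
  intro u
  have : u ∈ E := by
    rw [← hP1 u]
    exact Submodule.starProjection_apply_mem _ _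
  exact this

end Pool.Agent.H155.BC.ExhC

/-!
Connes–Størmer, exhaustion, part D: the extension.
-/

namespace Pool.Agent.H155.BC.ExhD

open Pool.Agent.W662.CB Pool.Agent.H255.BC
open Pool.Agent.H155.BC.ExhA Pool.Agent.H155.BC.ExhB Pool.Agent.H155.BC.ExhC

variable {H : Type} [NormedAddCommGroup H] [InnerProductSpace ℂ H] [CompleteSpace H]
  {M : VonNeumannAlgebra H} {ξ : H} {U : ℝ → H →L[ℂ] H} {J : H → H}

theorem isPr_sub {p q : H →L[ℂ] H} (hp : IsPr M p) (hq : IsPr M q) (h1 : p * q = q)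
    (h2 : q * p = q) : IsPr M (p - q) := by
  refine ⟨sub_mem hp.mem hq.mem, ?_, ?_⟩
  · rw [mul_sub, sub_mul, sub_mul, hp.idem, hq.idem, h1, h2, sub_self, sub_zero]
  · rw [star_sub, hp.sa, hq.sa]

/-- the commutator of a partial isometry lies in the final projection -/
theorem ran_comm (hJ : IsConj M ξ U J) {w : H →L[ℂ] H} (hw : w ∈ M) (hpi : w * star w * w = w)
    {ζ : H} (hζ : J ζ = ζ) (hq : J ((w * star w) ζ) = (w * star w) ζ) :
    (w * star w) (J (star w ζ) - w ζ) = J (star w ζ) - w ζ := by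
  have hqM : w * star w ∈ M := mul_mem hw (star_mem hw)
  rw [map_sub, ← mul_apply_eq_comp (w * star w) w, hpi]
  congr 1
  have e1 : J (star w ζ) = RR hJ (star w) ζ := (RR_fix hJ _ hζ).symm
  have e2 : (w * star w) (RR hJ (star w) ζ) = RR hJ (star w) ((w * star w) ζ) :=
    congrArg (fun T : H →L[ℂ] H => T ζ) (RR_comm hJ hqM (star_mem hw))
  have e3 : (w * star w) ζ = RR hJ (w * star w) ζ := by rw [RR_fix hJ _ hζ, hq]
  have e4 : star w * (w * star w) = star w := by rw [← mul_assoc, pi_star hpi]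
  rw [e1, e2, e3, ← mul_apply_eq_comp, ← RR_mul, e4]

/-- the extension of a state by a partial isometry -/
theorem ext_step (h5 : S_pnc) (hM : Mod M ξ U J) {e f : H →L[ℂ] H} (he : IsPr M e)
    (hf : IsPr M f) (hef : e * f = 0) {η : ℝ} (hη : 0 ≤ η) (hη2 : η ≤ 1 / 2) {w : H →L[ℂ] H}
    {ζ : H} {Z : Set (H →L[ℂ] H)} (S : Stt M ξ J e f η w ζ Z) {v : H →L[ℂ] H} (hv : v ∈ M)
    (hv0 : v ≠ 0) (hvfe : (f - w * star w) * v * (e - star w * w) = v)
    (hvpi : v * star v * v = v) (hvt : ‖J (star v ζ) - v ζ‖ ≤ η / 2 * ‖v ζ‖) :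
    ∃ (w' : H →L[ℂ] H) (ζ' : H) (Z' : Set (H →L[ℂ] H)), Stt M ξ J e f η w' ζ' Z' ∧
      Ord M J η w ζ Z w' ζ' Z' ∧ ‖w ζ‖ ^ 2 < ‖w' ζ'‖ ^ 2 := by
  have hJ := hM.conj
  have hζ : J ζ = ζ := T_ps.cone_J hJ S.cone
  have B := bas he.sa hf.sa he.idem hf.idem hef S.fwe S.pi
  have hfve : f * v * e = v := by
    have e1 : f * (f - w * star w) = f - w * star w := by rw [mul_sub, hf.idem, B.fq]
    have e2 : (e - star w * w) * e = e - star w * w := by rw [sub_mul, he.idem, B.pe]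
    calc f * v * e = f * ((f - w * star w) * v * (e - star w * w)) * e := by rw [hvfe]
      _ = (f * (f - w * star w)) * v * ((e - star w * w) * e) := by simp only [mul_assoc]
      _ = v := by rw [e1, e2, hvfe]
  have C := bas he.sa hf.sa he.idem hf.idem hef hfve hvpi
  have R := rel B C hvfe S.pi
  obtain ⟨r1, r2, r3, r4, r5, r6, r7, r8⟩ := rel_pr R
  obtain ⟨t1, t2⟩ := rel_sum R
  obtain ⟨s1, s2, s3, s4, s5, s6, s7, s8, s9, s10⟩ := sq_rel hvpi R.vv
  have hp := isPr_dom S.mem S.pi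
  have hq := isPr_ran S.mem S.pi
  have hp2 := isPr_dom hv hvpi
  have hq2 := isPr_ran hv hvpi
  have Spc := S.pc
  have Sqc := S.qc
  have Spi := S.pi
  have Stw := S.tw
  have SZp := S.Zp
  have Bwp := B.wp
  have Bpw := B.pw
  have Bswq : star w * (w * star w) = star w := by rw [← mul_assoc, B.pw]
  have Cep := C.ep
  have Cpe := C.pe
  have Rvp := R.vp
  have Rqv := R.qv
  have hq2w : (v * star v) * w = 0 := by rw [mul_assoc, R.svw, mul_zero]
  have heq2 : e * (v * star v) = 0 := by rw [← mul_assoc, C.ew, zero_mul]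
  have hq2e : (v * star v) * e = 0 := by rw [mul_assoc, C.swe, mul_zero]
  have cn := fun (r : H →L[ℂ] H) (hr : r = 1 - star v * v - v * star v) =>
    comm_new hJ hv hvpi R.vv hr hζ
  have e1' := comm_p hJ hv hvpi hζ
  have e2' := comm_q hJ hv hvpi hζ
  have rc1 := ran_comm hJ S.mem S.pi hζ S.qc
  have rc2 := fun (ζ' : H) (hζ' : J ζ' = ζ') (n4 : J ((v * star v) ζ') = (v * star v) ζ') =>
    ran_comm hJ hv hvpi hζ' n4
  -- the projections
  generalize hpd : star w * w = p at *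
  generalize hqd : w * star w = q at *
  generalize hp2d : star v * v = p2 at *
  generalize hq2d : v * star v = q2 at *
  obtain ⟨r, hr⟩ : ∃ r : H →L[ℂ] H, r = 1 - p2 - q2 := ⟨_, rfl⟩
  have hp2r : p2 * r = 0 := by
    rw [hr, mul_sub, mul_sub, mul_one, hp2.idem, s1, sub_self, sub_zero]
  have hq2r : q2 * r = 0 := by
    rw [hr, mul_sub, mul_sub, mul_one, hq2.idem, s2, sub_zero, sub_self]
  have hrr : r * r = r := by
    nth_rewrite 1 [hr]
    rw [sub_mul, sub_mul, one_mul, hp2r, hq2r, sub_zero, sub_zero]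
  have hrs : star r = r := by
    rw [hr, star_sub, star_sub, star_one, hp2.sa, hq2.sa]
  have hrM : IsPr M r := by
    refine ⟨?_, hrr, hrs⟩
    rw [hr]
    exact sub_mem (sub_mem (one_mem M) hp2.mem) hq2.mem
  have hsum : p2 + q2 + r = 1 := by
    rw [hr]
    abel
  obtain ⟨ζ', hζ'd⟩ : ∃ ζ' : H, ζ' = TT hJ p2 q2 r ζ := ⟨_, rfl⟩
  obtain ⟨n1, n2, n3, n4, n5, n6, n7⟩ := h5 H M ξ U J hM ζ S.cone S.sep p2 q2 r hp2 hq2 hrM s1 hp2r
    hq2r hsum ζ' (by rw [hζ'd, TT_apply])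
  have hζ' : J ζ' = ζ' := T_ps.cone_J hJ n1
  have hcn := cn r hr
  rw [← hζ'd] at hcn
  obtain ⟨c1, c2⟩ := hcn
  -- `z ζ' = z ζ` for the old projections
  have old : ∀ z : H →L[ℂ] H, IsPr M z → z * p2 = 0 → z * q2 = 0 → J (z ζ) = z ζ → z ζ' = z ζ := by
    intro z hz hz1 hz2 hz3
    have hzr : z * r = z := by rw [hr, mul_sub, mul_sub, mul_one, hz1, hz2, sub_zero, sub_zero]
    have hrz : r * z = z := by
      have := congrArg star hzr
      rwa [star_mul, hrs, hz.sa] at this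
    have e1 : z * TT hJ p2 q2 r = RR hJ r * z := by
      unfold TT
      rw [mul_add, mul_add, ← mul_assoc, ← mul_assoc, ← mul_assoc, hz1, hz2, hzr, zero_mul,
        zero_mul, zero_add, zero_add]
      exact RR_comm hJ hz.mem hrM.mem
    have e2 : z ζ = RR hJ z ζ := by rw [RR_fix hJ _ hζ, hz3]
    have e3 : z ζ' = RR hJ r (z ζ) := by
      rw [hζ'd]
      exact congrArg (fun T : H →L[ℂ] H => T ζ) e1
    rw [e3, e2, ← mul_apply_eq_comp, ← RR_mul, hrz]
  have hpζ : p ζ' = p ζ := old p hp r1 r2 Spc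
  have hqζ : q ζ' = q ζ := old q hq r3 r4 Sqc
  have hwζ : w ζ' = w ζ := by
    rw [← Bwp, mul_apply_eq_comp, mul_apply_eq_comp, hpζ]
  have hswζ : star w ζ' = star w ζ := by
    rw [← Bswq, mul_apply_eq_comp, mul_apply_eq_comp, hqζ]
  -- commutation of old projections with the new ones
  have comm0 : ∀ z : H →L[ℂ] H, IsPr M z → z * p2 = 0 → z * q2 = 0 →
      z * p2 = p2 * z ∧ z * q2 = q2 * z ∧ z * r = r * z := by
    intro z hz hz1 hz2
    have e1 : p2 * z = 0 := by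
      have := congrArg star hz1
      rwa [star_mul, hp2.sa, hz.sa, star_zero] at this
    have e2 : q2 * z = 0 := by
      have := congrArg star hz2
      rwa [star_mul, hq2.sa, hz.sa, star_zero] at this
    refine ⟨by rw [hz1, e1], by rw [hz2, e2], ?_⟩
    rw [hr, mul_sub, mul_sub, sub_mul, sub_mul, mul_one, one_mul, hz1, hz2, e1, e2]
  have hZ0 : ∀ z ∈ Z, z * p2 = 0 ∧ z * q2 = 0 := by
    intro z hz
    obtain ⟨_, hz2⟩ := SZp z hz
    constructor
    · rw [← hz2, mul_assoc, add_mul, r1, r3, add_zero, mul_zero]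
    · rw [← hz2, mul_assoc, add_mul, r2, r4, add_zero, mul_zero]
  -- the norm of `w' ζ'`
  have hw'ζ' : (w + v) ζ' = w ζ + v ζ' := by
    rw [add_apply, hwζ]
  have hor : ⟪w ζ, v ζ'⟫_ℂ = 0 := by
    refine orth_pr hq.sa r4 ?_ ?_
    · rw [← mul_apply_eq_comp]
      exact congrArg (fun T : H →L[ℂ] H => T ζ) Spi
    · rw [← mul_apply_eq_comp]
      exact congrArg (fun T : H →L[ℂ] H => T ζ') hvpi
  have hnorm : ‖(w + v) ζ'‖ ^ 2 = ‖w ζ‖ ^ 2 + ‖v ζ'‖ ^ 2 := by
    rw [hw'ζ', pyth hor]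
  -- estimates
  generalize hdl : ‖J (star v ζ) - v ζ‖ = dl at *
  have hb1 : ‖v ζ‖ ≤ 2 * ‖v ζ'‖ := by
    have h0 : 0 ≤ ‖v ζ‖ := norm_nonneg _
    nlinarith
  have hdl1 : dl ≤ η * ‖v ζ'‖ := by nlinarith
  have hdist : ‖ζ - ζ'‖ ≤ 8 * (η * ‖v ζ'‖) := by
    have e3 := pinch_dist hJ hp2 hq2 hrM hsum hζ e1' e2'
    rw [← hζ'd] at e3
    linarith
  have hvζ' : 0 < ‖v ζ'‖ := by
    rw [norm_pos_iff]
    intro h0
    exact hv0 (n2 v hv h0)
  refine ⟨w + v, ζ', insert p2 (insert q2 Z), ?_, ?_, ?_⟩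
  · -- the state
    refine ⟨add_mem S.mem hv, ?_, ?_, n1, n2, ?_, ?_, ?_, ?_, ?_, ?_⟩
    · rw [mul_add, add_mul, S.fwe, hfve]
    · rw [t2, add_mul, mul_add, mul_add, Spi, Rqv, hq2w, hvpi, add_zero, zero_add]
    · rw [t1, add_apply, hJ.add, hpζ, Spc, n3]
    · rw [t2, add_apply, hJ.add, hqζ, Sqc, n4]
    · -- `e` commutes with `ζ'`
      have e1 : e * p2 = p2 * e := by rw [Cep, Cpe]
      refine n7 e he e1 (by rw [heq2, hq2e]) ?_ S.ec
      rw [hr, mul_sub, mul_sub, sub_mul, sub_mul, mul_one, one_mul, e1, heq2, hq2e]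
    · -- the commutator
      have e1 : J (star (w + v) ζ') - (w + v) ζ' =
          (J (star w ζ) - w ζ) + (J (star v ζ') - v ζ') := by
        rw [star_add, add_apply, hJ.add, hw'ζ', hswζ]
        abel
      have e2 : ⟪J (star w ζ) - w ζ, J (star v ζ') - v ζ'⟫_ℂ = 0 := by
        refine orth_pr hq.sa r4 ?_ ?_
        · exact rc1
        · exact rc2 ζ' hζ' n4
      rw [e1, pyth e2, hnorm, mul_add]
      refine add_le_add Stw ?_
      rw [← mul_pow]
      exact pow_le_pow_left₀ (norm_nonneg _) (c1.trans hdl1) 2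
    · intro z hz
      rw [t1, t2]
      rcases hz with hz | hz | hz
      · rw [hz]
        refine ⟨hp2, ?_⟩
        rw [mul_add, mul_add, mul_add, r5, r6, hp2.idem, s1, zero_add, zero_add,
          add_zero]
      · rw [hz]
        refine ⟨hq2, ?_⟩
        rw [mul_add, mul_add, mul_add, r7, r8, hq2.idem, s2, zero_add, zero_add,
          zero_add]
      · obtain ⟨hz1, hz2⟩ := SZp z hz
        obtain ⟨hz3, hz4⟩ := hZ0 z hz
        refine ⟨hz1, ?_⟩
        rw [mul_add, mul_add, mul_add, hz3, hz4, add_zero, add_zero, ← mul_add]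
        exact hz2
    · intro z hz
      rcases hz with hz | hz | hz
      · rw [hz]
        exact n3
      · rw [hz]
        exact n4
      · obtain ⟨hz1, _⟩ := SZp z hz
        obtain ⟨hz3, hz4⟩ := hZ0 z hz
        obtain ⟨k1, k2, k3⟩ := comm0 z hz1 hz3 hz4
        exact n7 z hz1 k1 k2 k3 (S.Zc z hz)
  · -- the order
    refine ⟨?_, ?_, by rw [hpd, hpζ], by rw [hqd, hqζ], ?_, ?_, ?_, ?_⟩
    · rw [hpd, add_mul, Bwp, Rvp, add_zero]
    · rw [hqd, mul_add, Spi, Rqv, add_zero]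
    · exact (Set.subset_insert _ _).trans (Set.subset_insert _ _)
    · intro u hu
      have hu1 : RR hJ p2 u = p2 u := hu p2 (Set.mem_insert _ _)
      have hu2 : RR hJ q2 u = q2 u := hu q2 (Set.mem_insert_of_mem _ (Set.mem_insert _ _))
      have hu3 : RR hJ r u = r u := by
        rw [hr, RR_sub, RR_sub, RR_one, sub_apply, sub_apply, sub_apply, sub_apply, hu1, hu2]
      have hTs : star (TT hJ p2 q2 r) = TT hJ p2 q2 r := by
        unfold TT
        rw [star_add, star_add, star_mul, star_mul, star_mul, RR_star, RR_star, RR_star, hp2.sa,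
          hq2.sa, hrs, RR_comm hJ hp2.mem hp2.mem, RR_comm hJ hq2.mem hq2.mem,
          RR_comm hJ hrM.mem hrM.mem]
      have hTu : TT hJ p2 q2 r u = u := by
        have e1 : TT hJ p2 q2 r u = p2 (RR hJ p2 u) + q2 (RR hJ q2 u) + r (RR hJ r u) := rfl
        rw [e1, hu1, hu2, hu3, ← mul_apply_eq_comp, ← mul_apply_eq_comp, ← mul_apply_eq_comp,
          hp2.idem, hq2.idem, hrr, ← add_apply, ← add_apply, hsum, one_apply_eq_self]
      rw [inner_sub_left, hζ'd, adl, hTs, hTu, sub_self]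
    · have e1 : ‖ζ‖ ^ 2 - ‖ζ'‖ ^ 2 = ‖ζ - ζ'‖ ^ 2 := by rw [← n6]; ring
      have e2 : ‖ζ - ζ'‖ ^ 2 ≤ (8 * (η * ‖v ζ'‖)) ^ 2 :=
        pow_le_pow_left₀ (norm_nonneg _) hdist 2
      rw [e1, hnorm]
      refine e2.trans (le_of_eq ?_)
      ring
    · intro z hz hz0
      rw [t1, t2] at hz0
      have hz1 : z * p2 = 0 := by
        have e1 := congrArg (fun T : H →L[ℂ] H => T * p2) hz0
        simp only [zero_mul] at e1
        rw [mul_assoc, add_mul, add_mul, add_mul, r1, r3, hp2.idem,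
          s2, add_zero, add_zero, zero_add] at e1
        exact e1
      have hz2 : z * q2 = 0 := by
        have e1 := congrArg (fun T : H →L[ℂ] H => T * q2) hz0
        simp only [zero_mul] at e1
        rw [mul_assoc, add_mul, add_mul, add_mul, r2, r4, hq2.idem,
          s1, add_zero, zero_add, zero_add] at e1
        exact e1
      have hzr : z * r = z := by rw [hr, mul_sub, mul_sub, mul_one, hz1, hz2, sub_zero, sub_zero]
      have key : ∀ s : H →L[ℂ] H, s ∈ M →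
          z * RR hJ z * (s * RR hJ s) = (z * s) * RR hJ (z * s) := by
        intro s hs
        rw [RR_mul, mul_assoc, ← mul_assoc (RR hJ z) s, ← RR_comm hJ hs hz.mem]
        simp only [mul_assoc]
      have e2 : z * RR hJ z * TT hJ p2 q2 r = z * RR hJ z := by
        unfold TT
        rw [mul_add, mul_add, key _ hp2.mem, key _ hq2.mem, key _ hrM.mem, hz1, hz2, hzr, zero_mul,
          zero_add, zero_add]
      have e3 := congrArg (fun T : H →L[ℂ] H => T ζ) e2
      rw [hζ'd]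
      exact e3
  · rw [hnorm]
    have := pow_pos hvζ' 2
    linarith

end Pool.Agent.H155.BC.ExhD

/-!
Connes–Størmer, exhaustion, part E: the principle of Brezis and Browder, limits.
-/

namespace Pool.Agent.H155.BC.ExhE

open Pool.Agent.W662.CB Pool.Agent.H255.BC
open Pool.Agent.H155.BC.ExhA Pool.Agent.H155.BC.ExhB Pool.Agent.H155.BC.ExhC
open Pool.Agent.H155.BC.ExhD

/-- the ordering principle -/
theorem bb {X : Type} (P : X → Prop) (le : X → X → Prop) (φ : X → ℝ) (B : ℝ)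
    (hB : ∀ x, P x → φ x ≤ B) (hrefl : ∀ x, P x → le x x)
    (htrans : ∀ x y z, P x → P y → P z → le x y → le y z → le x z)
    (hmono : ∀ x y, P x → P y → le x y → φ x ≤ φ y)
    (hlim : ∀ x : ℕ → X, (∀ n, P (x n)) → (∀ m n, m ≤ n → le (x m) (x n)) →
      ∃ y, P y ∧ ∀ n, le (x n) y) (x0 : X) (h0 : P x0) :
    ∃ x, P x ∧ le x0 x ∧ ∀ y, P y → le x y → φ y ≤ φ x := by
  have hbdd : ∀ x : X, BddAbove {r : ℝ | ∃ y, P y ∧ le x y ∧ r = φ y} := by
    intro x
    refine ⟨B, ?_⟩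
    rintro r ⟨y, hy, -, rfl⟩
    exact hB y hy
  obtain ⟨s, hs⟩ : ∃ s : X → ℝ, s = fun x => sSup {r : ℝ | ∃ y, P y ∧ le x y ∧ r = φ y} :=
    ⟨_, rfl⟩
  have hsle : ∀ x y, P y → le x y → φ y ≤ s x := by
    intro x y hy hxy
    rw [hs]
    exact le_csSup (hbdd x) ⟨y, hy, hxy, rfl⟩
  have hnext : ∀ x : {x // P x}, ∃ y : {x // P x}, le x.1 y.1 ∧ (φ x.1 + s x.1) / 2 ≤ φ y.1 := by
    rintro ⟨x, hx⟩
    rcases le_or_gt (s x) (φ x) with h | h
    · refine ⟨⟨x, hx⟩, hrefl x hx, ?_⟩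
      show (φ x + s x) / 2 ≤ φ x
      linarith
    · have h1 : (φ x + s x) / 2 < s x := by linarith
      rw [hs] at h1
      have hne : {r : ℝ | ∃ y, P y ∧ le x y ∧ r = φ y}.Nonempty := ⟨φ x, x, hx, hrefl x hx, rfl⟩
      obtain ⟨r, ⟨y, hy, hxy, rfl⟩, hr⟩ := exists_lt_of_lt_csSup hne h1
      refine ⟨⟨y, hy⟩, hxy, ?_⟩
      rw [hs]
      exact hr.le
  choose nx hnx1 hnx2 using hnext
  let u : ℕ → {x // P x} := fun n => Nat.rec ⟨x0, h0⟩ (fun _ x => nx x) n
  have hu0 : (u 0).1 = x0 := rfl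
  have hus : ∀ n, u (n + 1) = nx (u n) := fun n => rfl
  have hmn : ∀ m n, m ≤ n → le (u m).1 (u n).1 := by
    intro m n h
    induction n, h using Nat.le_induction with
    | base => exact hrefl _ (u m).2
    | succ n hmn ih =>
      refine htrans _ _ _ (u m).2 (u n).2 (u (n + 1)).2 ih ?_
      rw [hus]
      exact hnx1 (u n)
  obtain ⟨y, hy, hley⟩ := hlim (fun n => (u n).1) (fun n => (u n).2) hmn
  refine ⟨y, hy, hley 0, fun z hz hyz => ?_⟩
  have ha : Monotone fun n => φ (u n).1 :=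
    fun m n h => hmono _ _ (u m).2 (u n).2 (hmn m n h)
  have hab : BddAbove (Set.range fun n => φ (u n).1) :=
    ⟨B, by rintro r ⟨n, rfl⟩; exact hB _ (u n).2⟩
  have hL := tendsto_atTop_ciSup ha hab
  set L := ⨆ n, φ (u n).1 with hLd
  have h1 : ∀ n, φ z ≤ 2 * φ (u (n + 1)).1 - φ (u n).1 := by
    intro n
    have h2 := hsle (u n).1 z hz (htrans _ _ _ (u n).2 hy hz (hley n) hyz)
    have h3 := hnx2 (u n)
    rw [hus]
    linarith
  have h2 : Tendsto (fun n => 2 * φ (u (n + 1)).1 - φ (u n).1) atTop (𝓝 (2 * L - L)) :=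
    ((hL.comp (tendsto_add_atTop_nat 1)).const_mul 2).sub hL
  have h3 : φ z ≤ 2 * L - L := ge_of_tendsto' h2 h1
  have h4 : L ≤ φ y := ciSup_le fun n => hmono _ _ (u n).2 hy (hley n)
  linarith

section lim

variable {H : Type} [NormedAddCommGroup H] [InnerProductSpace ℂ H] [CompleteSpace H]

theorem cauchy_sq {u : ℕ → H} {a : ℕ → ℝ} {B : ℝ}
    (h : ∀ m n, m ≤ n → ‖u n - u m‖ ^ 2 ≤ a n - a m) (hb : ∀ n, a n ≤ B) : CauchySeq u := by
  have ha : Monotone a := by
    intro m n hmn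
    have h1 := h m n hmn
    have h2 := sq_nonneg ‖u n - u m‖
    linarith
  have hL := (tendsto_atTop_ciSup ha ⟨B, by rintro r ⟨n, rfl⟩; exact hb n⟩).cauchySeq
  rw [Metric.cauchySeq_iff'] at hL ⊢
  intro ε hε
  obtain ⟨N, hN⟩ := hL (ε ^ 2) (by positivity)
  refine ⟨N, fun n hn => ?_⟩
  have h1 := hN n hn
  rw [Real.dist_eq] at h1
  have h2 := h N n hn
  have h3 : a n - a N < ε ^ 2 := (le_abs_self _).trans_lt h1
  rw [dist_eq_norm]
  exact lt_of_pow_lt_pow_left₀ 2 hε.le (h2.trans_lt h3)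

theorem slim {T : ℕ → H →L[ℂ] H} (hT : ∀ n v, ‖T n v‖ ≤ ‖v‖)
    (hc : ∀ v, CauchySeq fun n => T n v) :
    ∃ T' : H →L[ℂ] H, ∀ v, Tendsto (fun n => T n v) atTop (𝓝 (T' v)) := by
  choose g hg using fun v => cauchySeq_tendsto_of_complete (hc v)
  refine ⟨LinearMap.mkContinuous
    { toFun := g
      map_add' := fun u v => tendsto_nhds_unique (hg (u + v)) (((hg u).add (hg v)).congr
        fun n => (map_add (T n) u v).symm)
      map_smul' := fun c v => tendsto_nhds_unique (hg (c • v)) (((hg v).const_smul c).congr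
        fun n => (map_smul (T n) c v).symm) } 1 (fun v => ?_), hg⟩
  rw [one_mul]
  exact le_of_tendsto' (hg v).norm fun n => hT n v

theorem smem {M : VonNeumannAlgebra H} {T : ℕ → H →L[ℂ] H} {T' : H →L[ℂ] H} (hT : ∀ n, T n ∈ M)
    (h : ∀ v, Tendsto (fun n => T n v) atTop (𝓝 (T' v))) : T' ∈ M := by
  rw [← M.commutant_commutant, VonNeumannAlgebra.mem_commutant_iff]
  intro g hg
  rw [VonNeumannAlgebra.mem_commutant_iff] at hg
  ext v
  rw [mul_apply_eq_comp, mul_apply_eq_comp]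
  refine tendsto_nhds_unique ((g.continuous.tendsto _).comp (h v)) ((h (g v)).congr fun n => ?_)
  exact congrArg (fun S : H →L[ℂ] H => S v) (hg (T n) (hT n))

theorem tend_app {T : ℕ → H →L[ℂ] H} {T' : H →L[ℂ] H} (hT : ∀ n v, ‖T n v‖ ≤ ‖v‖)
    (h : ∀ v, Tendsto (fun n => T n v) atTop (𝓝 (T' v))) {u : ℕ → H} {u' : H}
    (hu : Tendsto u atTop (𝓝 u')) : Tendsto (fun n => T n (u n)) atTop (𝓝 (T' u')) := by
  have h1 : Tendsto (fun n => T n (u n - u')) atTop (𝓝 0) := by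
    refine squeeze_zero_norm (fun n => hT n _) ?_
    have := (hu.sub_const u').norm
    rwa [sub_self, norm_zero] at this
  have h2 := h1.add (h u')
  rw [zero_add] at h2
  refine h2.congr fun n => ?_
  rw [map_sub, sub_add_cancel]

theorem star_lim {T : ℕ → H →L[ℂ] H} {T' S' : H →L[ℂ] H}
    (h : ∀ v, Tendsto (fun n => T n v) atTop (𝓝 (T' v)))
    (hs : ∀ v, Tendsto (fun n => star (T n) v) atTop (𝓝 (S' v))) : S' = star T' := by
  ext v
  refine ext_inner_left ℂ fun u => ?_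
  rw [← adl]
  have h1 : Tendsto (fun n => ⟪u, star (T n) v⟫_ℂ) atTop (𝓝 ⟪u, S' v⟫_ℂ) :=
    tendsto_const_nhds.inner (hs v)
  have h2 : Tendsto (fun n => ⟪T n u, v⟫_ℂ) atTop (𝓝 ⟪T' u, v⟫_ℂ) :=
    (h u).inner tendsto_const_nhds
  exact tendsto_nhds_unique h1 (h2.congr fun n => adl _ _ _)

end lim

section order

variable {H : Type} [NormedAddCommGroup H] [InnerProductSpace ℂ H] [CompleteSpace H]
  {M : VonNeumannAlgebra H} {ξ : H} {U : ℝ → H →L[ℂ] H} {J : H → H}

theorem ord_pr {w w' : H →L[ℂ] H} (a : w' * (star w * w) = w) (b : (w * star w) * w' = w)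
    (hpi : w * star w * w = w) :
    (star w' * w') * (star w * w) = star w * w ∧ (w' * star w') * (w * star w) = w * star w ∧
    (star w * w) * (star w' * w') = star w * w ∧ (w * star w) * (w' * star w') = w * star w := by
  have a' : (star w * w) * star w' = star w := by
    have := congrArg star a
    rwa [star_mul, pi_sa] at this
  have b' : star w' * (w * star w) = star w := by
    have := congrArg star b
    rwa [star_mul, pi_sa'] at this
  have h1 : (star w' * w') * (star w * w) = star w * w := by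
    rw [mul_assoc, a]
    nth_rewrite 1 [← hpi]
    rw [← mul_assoc, b']
  have h2 : (w' * star w') * (w * star w) = w * star w := by
    have e1 : w * star w = w * (star w * w) * star w := by rw [← mul_assoc, hpi]
    rw [mul_assoc, b']
    nth_rewrite 1 [← pi_star hpi]
    rw [← mul_assoc, a]
  refine ⟨h1, h2, ?_, ?_⟩
  · have := congrArg star h1
    rwa [star_mul, pi_sa, pi_sa] at this
  · have := congrArg star h2
    rwa [star_mul, pi_sa', pi_sa'] at this

theorem pq_zero {e f w w' : H →L[ℂ] H} (B : Bas e f w) (B' : Bas e f w') :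
    (star w' * w') * (w * star w) = 0 ∧ (w' * star w') * (star w * w) = 0 := by
  have h1 : w' * w = 0 := by rw [← B'.we, mul_assoc, B.ew, mul_zero]
  have h2 : w * w' = 0 := by rw [← B.we, mul_assoc, B'.ew, mul_zero]
  have h3 : star w' * star w = 0 := by rw [← star_mul, h2, star_zero]
  constructor
  · rw [mul_assoc, ← mul_assoc w', h1, zero_mul, mul_zero]
  · rw [mul_assoc, ← mul_assoc (star w'), h3, zero_mul, mul_zero]

theorem ord_PQ {e f w w' : H →L[ℂ] H} (B : Bas e f w) (B' : Bas e f w')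
    (a : w' * (star w * w) = w) (b : (w * star w) * w' = w) (hpi : w * star w * w = w) :
    (star w' * w' + w' * star w') * (star w * w + w * star w) = star w * w + w * star w := by
  obtain ⟨h1, h2, -, -⟩ := ord_pr a b hpi
  obtain ⟨h3, h4⟩ := pq_zero B B'
  rw [add_mul, mul_add, mul_add, h1, h2, h3, h4, add_zero, zero_add]

theorem ord_dist {e f : H →L[ℂ] H} {η : ℝ} (hJ : IsConj M ξ U J) {w w' : H →L[ℂ] H} {ζ ζ' : H}
    {Z Z' : Set (H →L[ℂ] H)} (S' : Stt M ξ J e f η w' ζ' Z') (O : Ord M J η w ζ Z w' ζ' Z') :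
    ‖ζ - ζ'‖ ^ 2 + ‖ζ'‖ ^ 2 = ‖ζ‖ ^ 2 := by
  have h1 : ⟪ζ - ζ', ζ'⟫_ℂ = 0 := by
    refine O.orth ζ' fun z hz => ?_
    rw [T_ps.cone_J hJ S'.cone]
    exact S'.Zc z hz
  have h2 := pyth h1
  rw [sub_add_cancel] at h2
  exact h2.symm

theorem ord_refl {e f : H →L[ℂ] H} {η : ℝ} {w : H →L[ℂ] H} {ζ : H}
    {Z : Set (H →L[ℂ] H)} (S : Stt M ξ J e f η w ζ Z) : Ord M J η w ζ Z w ζ Z := by
  refine ⟨?_, S.pi, rfl, rfl, subset_rfl, fun u _ => ?_, ?_, fun z _ _ => rfl⟩
  · rw [← mul_assoc, S.pi]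
  · rw [sub_self, inner_zero_left]
  · rw [sub_self, sub_self, mul_zero]

theorem ord_trans {e f : H →L[ℂ] H} {η : ℝ} {w1 w2 w3 : H →L[ℂ] H} {ζ1 ζ2 ζ3 : H}
    {Z1 Z2 Z3 : Set (H →L[ℂ] H)} (B1 : Bas e f w1) (B2 : Bas e f w2) (B3 : Bas e f w3)
    (S1 : Stt M ξ J e f η w1 ζ1 Z1) (S2 : Stt M ξ J e f η w2 ζ2 Z2)
    (O1 : Ord M J η w1 ζ1 Z1 w2 ζ2 Z2) (O2 : Ord M J η w2 ζ2 Z2 w3 ζ3 Z3) :
    Ord M J η w1 ζ1 Z1 w3 ζ3 Z3 := by
  obtain ⟨h1, h2, h3, h4⟩ := ord_pr O1.a O1.b S1.pi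
  refine ⟨?_, ?_, ?_, ?_, O1.sub.trans O2.sub, ?_, ?_, ?_⟩
  · rw [← h1, ← mul_assoc, O2.a, O1.a]
  · rw [← h4, mul_assoc, O2.b, O1.b]
  · rw [← h3, mul_apply_eq_comp (star w1 * w1), O2.c, ← mul_apply_eq_comp (star w1 * w1), h3, O1.c]
  · rw [← h4, mul_apply_eq_comp (w1 * star w1), O2.d, ← mul_apply_eq_comp (w1 * star w1), h4, O1.d]
  · intro u hu
    have e1 : ζ1 - ζ3 = (ζ1 - ζ2) + (ζ2 - ζ3) := by abel
    rw [e1, inner_add_left, O1.orth u fun z hz => hu z (O2.sub hz), O2.orth u hu, add_zero]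
  · have e1 := O1.gain
    have e2 := O2.gain
    linarith
  · intro z hz hz0
    have e1 : z * (star w2 * w2 + w2 * star w2) = 0 := by
      rw [← ord_PQ B2 B3 O2.a O2.b S2.pi, ← mul_assoc, hz0, zero_mul]
    rw [O2.pin z hz hz0, O1.pin z hz e1]

end order

end Pool.Agent.H155.BC.ExhE

/-!
Connes–Størmer, exhaustion, part F: the limit of an increasing sequence of states, the theorem.
-/

namespace Pool.Agent.H155.BC.ExhF

open Pool.Agent.W662.CB Pool.Agent.H255.BC
open Pool.Agent.H155.BC.ExhA Pool.Agent.H155.BC.ExhB Pool.Agent.H155.BC.ExhC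
open Pool.Agent.H155.BC.ExhD Pool.Agent.H155.BC.ExhE

variable {H : Type} [NormedAddCommGroup H] [InnerProductSpace ℂ H] [CompleteSpace H]
  {M : VonNeumannAlgebra H} {ξ : H} {U : ℝ → H →L[ℂ] H} {J : H → H}

/-- a vector killed by `x`, corners -/
theorem kill (hJ : IsConj M ξ U J) {ζ : H} (hζ : J ζ = ζ) {x z : H →L[ℂ] H} (hx : x ∈ M)
    (hz : z ∈ M) (hzζ : J (z ζ) = z ζ) (h : x ζ = 0) : x (z ζ) = 0 := by
  have h1 : x (J (z (J ζ))) = J (z (J (x ζ))) := hJ.comm x z hx hz ζ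
  rw [hζ, hzζ, h, T_ps.J_zero hJ, map_zero, T_ps.J_zero hJ] at h1
  exact h1

theorem lim_state (h4 : S_sepz) (hM : Mod M ξ U J) {e f : H →L[ℂ] H} (he : IsPr M e)
    (hf : IsPr M f) (hef : e * f = 0) {η : ℝ} {w : ℕ → H →L[ℂ] H} {ζ : ℕ → H}
    {Z : ℕ → Set (H →L[ℂ] H)} (hS : ∀ n, Stt M ξ J e f η (w n) (ζ n) (Z n))
    (hO : ∀ m n, m ≤ n → Ord M J η (w m) (ζ m) (Z m) (w n) (ζ n) (Z n)) :
    ∃ (w' : H →L[ℂ] H) (ζ' : H) (Z' : Set (H →L[ℂ] H)), Stt M ξ J e f η w' ζ' Z' ∧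
      ∀ n, Ord M J η (w n) (ζ n) (Z n) w' ζ' Z' := by
  have hJ := hM.conj
  have hB : ∀ n, Bas e f (w n) := fun n =>
    bas he.sa hf.sa he.idem hf.idem hef (hS n).fwe (hS n).pi
  have hζ : ∀ n, J (ζ n) = ζ n := fun n => T_ps.cone_J hJ (hS n).cone
  have hp : ∀ n, IsPr M (star (w n) * w n) := fun n => isPr_dom (hS n).mem (hS n).pi
  have hq : ∀ n, IsPr M (w n * star (w n)) := fun n => isPr_ran (hS n).mem (hS n).pi
  have hpq : ∀ m n, m ≤ n → (star (w m) * w m) * (star (w n) * w n) = star (w m) * w m ∧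
      (w m * star (w m)) * (w n * star (w n)) = w m * star (w m) := by
    intro m n hmn
    obtain ⟨-, -, h3, h4⟩ := ord_pr (hO m n hmn).a (hO m n hmn).b (hS m).pi
    exact ⟨h3, h4⟩
  have hwn : ∀ n v, ‖w n v‖ ≤ ‖v‖ := fun n v => pi_norm (hS n).pi v
  have hsn : ∀ n v, ‖star (w n) v‖ ≤ ‖v‖ := fun n v => pi_norm' (hS n).pi v
  -- convergence of the projections
  have hpc : ∀ v m n, m ≤ n → ‖(star (w n) * w n) v - (star (w m) * w m) v‖ ^ 2 =
      ‖(star (w n) * w n) v‖ ^ 2 - ‖(star (w m) * w m) v‖ ^ 2 := by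
    intro v m n hmn
    have h1 := pr_pyth (hp m).idem (hp m).sa ((star (w n) * w n) v)
    have h2 : (star (w m) * w m) ((star (w n) * w n) v) = (star (w m) * w m) v :=
      congrArg (fun T : H →L[ℂ] H => T v) (hpq m n hmn).1
    rw [h2] at h1
    linarith
  have hqc : ∀ v m n, m ≤ n → ‖(w n * star (w n)) v - (w m * star (w m)) v‖ ^ 2 =
      ‖(w n * star (w n)) v‖ ^ 2 - ‖(w m * star (w m)) v‖ ^ 2 := by
    intro v m n hmn
    have h1 := pr_pyth (hq m).idem (hq m).sa ((w n * star (w n)) v)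
    have h2 : (w m * star (w m)) ((w n * star (w n)) v) = (w m * star (w m)) v :=
      congrArg (fun T : H →L[ℂ] H => T v) (hpq m n hmn).2
    rw [h2] at h1
    linarith
  have hwc : ∀ v, CauchySeq fun n => w n v := by
    intro v
    refine cauchy_sq (a := fun n => ‖(star (w n) * w n) v‖ ^ 2) (B := ‖v‖ ^ 2) ?_ ?_
    · intro m n hmn
      rw [← hpc v m n hmn]
      have h1 : w n v - w m v = w n ((star (w n) * w n) v - (star (w m) * w m) v) := by
        rw [map_sub, ← mul_apply_eq_comp (w n) (star (w n) * w n),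
          ← mul_apply_eq_comp (w n) (star (w m) * w m), (hO m n hmn).a, ← mul_assoc, (hS n).pi]
      rw [h1]
      exact pow_le_pow_left₀ (norm_nonneg _) (hwn n _) 2
    · intro n
      exact pow_le_pow_left₀ (norm_nonneg _) (pr_norm (hp n).idem (hp n).sa v) 2
  have hsc : ∀ v, CauchySeq fun n => star (w n) v := by
    intro v
    refine cauchy_sq (a := fun n => ‖(w n * star (w n)) v‖ ^ 2) (B := ‖v‖ ^ 2) ?_ ?_
    · intro m n hmn
      rw [← hqc v m n hmn]
      have h2 : star (w n) * (w m * star (w m)) = star (w m) := by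
        have := congrArg star (hO m n hmn).b
        rwa [star_mul, pi_sa'] at this
      have h1 : star (w n) v - star (w m) v =
          star (w n) ((w n * star (w n)) v - (w m * star (w m)) v) := by
        rw [map_sub, ← mul_apply_eq_comp (star (w n)) (w n * star (w n)),
          ← mul_apply_eq_comp (star (w n)) (w m * star (w m)), h2, ← mul_assoc,
          pi_star (hS n).pi]
      rw [h1]
      exact pow_le_pow_left₀ (norm_nonneg _) (hsn n _) 2
    · intro n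
      exact pow_le_pow_left₀ (norm_nonneg _) (pr_norm (hq n).idem (hq n).sa v) 2
  obtain ⟨W, hW⟩ := slim hwn hwc
  obtain ⟨W', hW'⟩ := slim hsn hsc
  have hWs : W' = star W := star_lim hW hW'
  rw [hWs] at hW'
  -- convergence of the vectors
  have hζc : CauchySeq ζ := by
    refine cauchy_sq (a := fun n => -‖ζ n‖ ^ 2) (B := 0) ?_ ?_
    · intro m n hmn
      have h1 := ord_dist hJ (hS n) (hO m n hmn)
      rw [norm_sub_rev]
      linarith
    · intro n
      have := sq_nonneg ‖ζ n‖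
      linarith
  obtain ⟨ζ', hζ'⟩ := cauchySeq_tendsto_of_complete hζc
  have hJc := T_ps.J_cont hJ
  have hPl : ∀ v, Tendsto (fun n => (star (w n) * w n) v) atTop (𝓝 ((star W * W) v)) :=
    fun v => tend_app hsn hW' (hW v)
  have hQl : ∀ v, Tendsto (fun n => (w n * star (w n)) v) atTop (𝓝 ((W * star W) v)) :=
    fun v => tend_app hwn hW (hW' v)
  have hpn : ∀ n v, ‖(star (w n) * w n) v‖ ≤ ‖v‖ := fun n v => pr_norm (hp n).idem (hp n).sa v
  have hqn : ∀ n v, ‖(w n * star (w n)) v‖ ≤ ‖v‖ := fun n v => pr_norm (hq n).idem (hq n).sa v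
  have hWM : W ∈ M := smem (fun n => (hS n).mem) hW
  have hWfe : f * W * e = W := by
    ext v
    refine tendsto_nhds_unique (f := fun n => w n v) (l := atTop) ?_ (hW v)
    refine ((f.continuous.tendsto _).comp (hW (e v))).congr fun n => ?_
    exact congrArg (fun T : H →L[ℂ] H => T v) (hS n).fwe
  have hWpi : W * star W * W = W := by
    ext v
    refine tendsto_nhds_unique (f := fun n => w n v) (l := atTop) ?_ (hW v)
    refine (tend_app hqn hQl (hW v)).congr fun n => ?_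
    exact congrArg (fun T : H →L[ℂ] H => T v) (hS n).pi
  have hBW : Bas e f W := bas he.sa hf.sa he.idem hf.idem hef hWfe hWpi
  have hWa : ∀ m, W * (star (w m) * w m) = w m := by
    intro m
    ext v
    refine tendsto_nhds_unique (hW ((star (w m) * w m) v)) ?_
    refine tendsto_const_nhds.congr' ?_
    filter_upwards [eventually_ge_atTop m] with n hn
    exact congrArg (fun T : H →L[ℂ] H => T v) (hO m n hn).a.symm
  have hWb : ∀ m, (w m * star (w m)) * W = w m := by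
    intro m
    ext v
    refine tendsto_nhds_unique (((w m * star (w m)).continuous.tendsto _).comp (hW v)) ?_
    refine tendsto_const_nhds.congr' ?_
    filter_upwards [eventually_ge_atTop m] with n hn
    exact congrArg (fun T : H →L[ℂ] H => T v) (hO m n hn).b.symm
  have hcone : ζ' ∈ cone M ξ J := by
    have hcl : IsClosed (cone M ξ J) := isClosed_closure
    exact hcl.mem_of_tendsto hζ' (Eventually.of_forall fun n => (hS n).cone)
  have hJζ' : J ζ' = ζ' := T_ps.cone_J hJ hcone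
  -- limits of `J`-invariant vectors
  have hJl : ∀ (u : ℕ → H) (u' : H), Tendsto u atTop (𝓝 u') → (∀ n, J (u n) = u n) →
      J u' = u' := by
    intro u u' hu h
    refine tendsto_nhds_unique ((hJc.tendsto _).comp hu) (hu.congr fun n => (h n).symm)
  have hPc : J ((star W * W) ζ') = (star W * W) ζ' :=
    hJl _ _ (tend_app hpn hPl hζ') fun n => (hS n).pc
  have hQc : J ((W * star W) ζ') = (W * star W) ζ' :=
    hJl _ _ (tend_app hqn hQl hζ') fun n => (hS n).qc
  have hc : ∀ m, (star (w m) * w m) ζ' = (star (w m) * w m) (ζ m) := by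
    intro m
    refine tendsto_nhds_unique (((star (w m) * w m).continuous.tendsto _).comp hζ') ?_
    refine tendsto_const_nhds.congr' ?_
    filter_upwards [eventually_ge_atTop m] with n hn
    exact (hO m n hn).c.symm
  have hd : ∀ m, (w m * star (w m)) ζ' = (w m * star (w m)) (ζ m) := by
    intro m
    refine tendsto_nhds_unique (((w m * star (w m)).continuous.tendsto _).comp hζ') ?_
    refine tendsto_const_nhds.congr' ?_
    filter_upwards [eventually_ge_atTop m] with n hn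
    exact (hO m n hn).d.symm
  have hwζ : Tendsto (fun n => w n (ζ n)) atTop (𝓝 (W ζ')) := tend_app hwn hW hζ'
  -- the order
  have hOrd : ∀ m, Ord M J η (w m) (ζ m) (Z m) W ζ' (⋃ n, Z n) := by
    intro m
    refine ⟨hWa m, hWb m, hc m, hd m, Set.subset_iUnion Z m, ?_, ?_, ?_⟩
    · intro u hu
      have h1 : Tendsto (fun n => ⟪ζ m - ζ n, u⟫_ℂ) atTop (𝓝 ⟪ζ m - ζ', u⟫_ℂ) :=
        (hζ'.const_sub (ζ m)).inner tendsto_const_nhds
      refine tendsto_nhds_unique h1 ?_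
      refine tendsto_const_nhds.congr' ?_
      filter_upwards [eventually_ge_atTop m] with n hn
      exact ((hO m n hn).orth u fun z hz => hu z (Set.mem_iUnion.2 ⟨n, hz⟩)).symm
    · have h1 : Tendsto (fun n => ‖ζ m‖ ^ 2 - ‖ζ n‖ ^ 2) atTop (𝓝 (‖ζ m‖ ^ 2 - ‖ζ'‖ ^ 2)) :=
        (hζ'.norm.pow 2).const_sub _
      have h2 : Tendsto (fun n => 64 * η ^ 2 * (‖w n (ζ n)‖ ^ 2 - ‖w m (ζ m)‖ ^ 2)) atTop
          (𝓝 (64 * η ^ 2 * (‖W ζ'‖ ^ 2 - ‖w m (ζ m)‖ ^ 2))) :=
        ((hwζ.norm.pow 2).sub_const _).const_mul _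
      refine le_of_tendsto_of_tendsto h1 h2 ?_
      filter_upwards [eventually_ge_atTop m] with n hn
      exact (hO m n hn).gain
    · intro z hz hz0
      have h1 : Tendsto (fun n => z (J (z (J (ζ n))))) atTop (𝓝 (z (J (z (J ζ'))))) :=
        (z.continuous.tendsto _).comp ((hJc.tendsto _).comp ((z.continuous.tendsto _).comp
          ((hJc.tendsto _).comp hζ')))
      refine tendsto_nhds_unique h1 ?_
      refine tendsto_const_nhds.congr' ?_
      filter_upwards [eventually_ge_atTop m] with n hn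
      refine ((hO m n hn).pin z hz ?_).symm
      rw [← ord_PQ (hB n) hBW (hWa n) (hWb n) (hS n).pi, ← mul_assoc, hz0, zero_mul]
  have hPP : IsPr M (star W * W) := isPr_dom hWM hWpi
  have hQQ : IsPr M (W * star W) := isPr_ran hWM hWpi
  refine ⟨W, ζ', ⋃ n, Z n, ⟨hWM, hWfe, hWpi, hcone, ?_, hPc, hQc, ?_, ?_, ?_, ?_⟩, hOrd⟩
  · -- separating
    intro x hx hxζ
    have hxp : ∀ m, x * (star (w m) * w m) = 0 := by
      intro m
      refine h4 H M ξ U J hM (ζ m) (hS m).cone (hS m).sep _ x (hp m) hx ?_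
      rw [hζ m, (hS m).pc, ← mul_apply_eq_comp (star (w m) * w m) (star (w m) * w m), (hp m).idem,
        ← hc m]
      refine kill hJ hJζ' hx (hp m).mem ?_ hxζ
      rw [hc m]
      exact (hS m).pc
    have hxq : ∀ m, x * (w m * star (w m)) = 0 := by
      intro m
      refine h4 H M ξ U J hM (ζ m) (hS m).cone (hS m).sep _ x (hq m) hx ?_
      rw [hζ m, (hS m).qc, ← mul_apply_eq_comp (w m * star (w m)) (w m * star (w m)), (hq m).idem,
        ← hd m]
      refine kill hJ hJζ' hx (hq m).mem ?_ hxζ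
      rw [hd m]
      exact (hS m).qc
    obtain ⟨R, hRd⟩ : ∃ R : H →L[ℂ] H, R = 1 - star W * W - W * star W := ⟨_, rfl⟩
    obtain ⟨h5, h6⟩ := pq_zero hBW hBW
    have hPR : (star W * W) * R = 0 := by
      rw [hRd, mul_sub, mul_sub, mul_one, hPP.idem, h5, sub_self, sub_zero]
    have hQR : (W * star W) * R = 0 := by
      rw [hRd, mul_sub, mul_sub, mul_one, hQQ.idem, h6, sub_zero, sub_self]
    have hR : IsPr M R := by
      refine ⟨?_, ?_, ?_⟩
      · rw [hRd]
        exact sub_mem (sub_mem (one_mem M) hPP.mem) hQQ.mem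
      · nth_rewrite 1 [hRd]
        rw [sub_mul, sub_mul, one_mul, hPR, hQR, sub_zero, sub_zero]
      · rw [hRd, star_sub, star_sub, star_one, hPP.sa, hQQ.sa]
    have hRPQ : R * (star W * W + W * star W) = 0 := by
      have h7 := congrArg star hPR
      have h8 := congrArg star hQR
      rw [star_mul, hR.sa, hPP.sa, star_zero] at h7
      rw [star_mul, hR.sa, hQQ.sa, star_zero] at h8
      rw [mul_add, h7, h8, add_zero]
    have hRc : J (R ζ') = R ζ' := by
      have h7 : R ζ' = ζ' - (star W * W) ζ' - (W * star W) ζ' := by rw [hRd]; rfl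
      rw [h7, T_ps.J_sub hJ, T_ps.J_sub hJ, hPc, hQc, hJζ']
    have hxR : x * R = 0 := by
      refine h4 H M ξ U J hM (ζ 0) (hS 0).cone (hS 0).sep _ x hR hx ?_
      rw [← (hOrd 0).pin R hR hRPQ, hJζ', hRc, ← mul_apply_eq_comp R R, hR.idem]
      exact kill hJ hJζ' hx hR.mem hRc hxζ
    ext v
    have h7 : x ((star W * W) v) = 0 := by
      refine tendsto_nhds_unique ((x.continuous.tendsto _).comp (hPl v)) ?_
      refine tendsto_const_nhds.congr fun n => ?_
      exact congrArg (fun T : H →L[ℂ] H => T v) (hxp n).symm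
    have h8 : x ((W * star W) v) = 0 := by
      refine tendsto_nhds_unique ((x.continuous.tendsto _).comp (hQl v)) ?_
      refine tendsto_const_nhds.congr fun n => ?_
      exact congrArg (fun T : H →L[ℂ] H => T v) (hxq n).symm
    have h9 : x (R v) = 0 := congrArg (fun T : H →L[ℂ] H => T v) hxR
    have h10 : R v = v - (star W * W) v - (W * star W) v := by rw [hRd]; rfl
    rw [h10, map_sub, map_sub, h7, h8, sub_zero, sub_zero] at h9
    rw [h9, zero_apply]
  · exact hJl _ _ ((e.continuous.tendsto _).comp hζ') fun n => (hS n).ec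
  · have h1 : Tendsto (fun n => ‖J (star (w n) (ζ n)) - w n (ζ n)‖ ^ 2) atTop
        (𝓝 (‖J (star W ζ') - W ζ'‖ ^ 2)) :=
      ((((hJc.tendsto _).comp (tend_app hsn hW' hζ')).sub hwζ).norm.pow 2)
    have h2 : Tendsto (fun n => η ^ 2 * ‖w n (ζ n)‖ ^ 2) atTop (𝓝 (η ^ 2 * ‖W ζ'‖ ^ 2)) :=
      (hwζ.norm.pow 2).const_mul _
    exact le_of_tendsto_of_tendsto' h1 h2 fun n => (hS n).tw
  · intro z hz
    obtain ⟨m, hm⟩ := Set.mem_iUnion.1 hz
    obtain ⟨hz1, hz2⟩ := (hS m).Zp z hm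
    refine ⟨hz1, ?_⟩
    obtain ⟨h1, h2, h3, h4⟩ := ord_pr (hWa m) (hWb m) (hS m).pi
    obtain ⟨h5, h6⟩ := pq_zero (hB m) hBW
    obtain ⟨h7, h8⟩ := pq_zero hBW (hB m)
    have h9 : (star (w m) * w m + w m * star (w m)) * (star W * W + W * star W) =
        star (w m) * w m + w m * star (w m) := by
      rw [add_mul, mul_add, mul_add, h3, h4, h7, h8, add_zero, zero_add]
    rw [← hz2, mul_assoc, h9]
  · intro z hz
    obtain ⟨m, hm⟩ := Set.mem_iUnion.1 hz
    have h1 : Tendsto (fun n => z (ζ n)) atTop (𝓝 (z ζ')) := (z.continuous.tendsto _).comp hζ'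
    refine tendsto_nhds_unique ((hJc.tendsto _).comp h1) ?_
    refine h1.congr' ?_
    filter_upwards [eventually_ge_atTop m] with n hn
    exact ((hS n).Zc z ((hO m n hn).sub hm)).symm

end Pool.Agent.H155.BC.ExhF

/-!
Connes–Størmer, exhaustion, part G: the theorem.
-/

namespace Pool.Agent.H255.BC.C_exh

open Pool.Agent.W662.CB Pool.Agent.H255.BC
open Pool.Agent.H155.BC.ExhA Pool.Agent.H155.BC.ExhB Pool.Agent.H155.BC.ExhC
open Pool.Agent.H155.BC.ExhD Pool.Agent.H155.BC.ExhE Pool.Agent.H155.BC.ExhF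

/-- the estimate at the end -/
theorem fin_est {H : Type} [NormedAddCommGroup H] [InnerProductSpace ℂ H] [CompleteSpace H]
    {p e : H →L[ℂ] H} (hp1 : p * p = p) (hp2 : star p = p) (hpe : p * e = p) {ξ : H}
    (he1 : ‖e ξ‖ ≤ 1) {τ ε : ℝ} (hε : 0 < ε) (hτ : 2 * τ ≤ ε ^ 2)
    (h : ‖e ξ‖ ≤ ‖p ξ‖ + τ) : ‖e ξ - p ξ‖ ≤ ε := by
  have h1 := pr_pyth hp1 hp2 (e ξ)
  have h2 : p (e ξ) = p ξ := congrArg (fun T : H →L[ℂ] H => T ξ) hpe
  rw [h2] at h1
  have h3 : ‖p ξ‖ ≤ ‖e ξ‖ := by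
    rw [← h2]
    exact pr_norm hp1 hp2 _
  have h4 : 0 ≤ ‖p ξ‖ := norm_nonneg _
  refine le_of_sq_le_sq ?_ hε.le
  nlinarith

theorem r (h0 : S_comm) (h1 : S_univ) (h2 : S_TT) (h3 : S_ai) (h4 : S_sepz) (h5 : S_pnc) :
    S_exh := by
  intro H _ _ _ M ξ U J hM hIII hξ e f he hf hef hsum hec hnorm ε hε
  have hJ := hM.conj
  obtain ⟨η, hη0, hη1, hη2, hη3⟩ : ∃ η : ℝ, 0 < η ∧ η ≤ 1 / 2 ∧ 17 * η ≤ ε ∧
      2 * (17 * η) ≤ ε ^ 2 := by
    refine ⟨min (1 / 2) (min (ε / 17) (ε ^ 2 / 34)), ?_, min_le_left _ _, ?_, ?_⟩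
    · have h6 : 0 < ε ^ 2 := by positivity
      exact lt_min (by norm_num) (lt_min (by positivity) (by positivity))
    · have := (min_le_right (1 / 2) (min (ε / 17) (ε ^ 2 / 34))).trans (min_le_left _ _)
      linarith
    · have := (min_le_right (1 / 2) (min (ε / 17) (ε ^ 2 / 34))).trans (min_le_right _ _)
      linarith
  have hfξ : ∀ ζ : H, f ζ = ζ - e ζ := by
    intro ζ
    have h6 : e ζ + f ζ = ζ := congrArg (fun T : H →L[ℂ] H => T ζ) hsum
    exact eq_sub_of_add_eq' h6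
  -- the initial state
  have S0 : Stt M ξ J e f η 0 ξ ∅ := by
    refine ⟨zero_mem M, ?_, ?_, T_ps.cone_xi hJ, hM.sep, ?_, ?_, hec, ?_, ?_, ?_⟩
    · rw [mul_zero, zero_mul]
    · rw [zero_mul, zero_mul]
    · rw [mul_zero, zero_apply, T_ps.J_zero hJ]
    · rw [zero_mul, zero_apply, T_ps.J_zero hJ]
    · rw [star_zero, zero_apply, T_ps.J_zero hJ, sub_zero, norm_zero]
      norm_num
    · intro z hz
      exact absurd hz (Set.notMem_empty z)
    · intro z hz
      exact absurd hz (Set.notMem_empty z)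
  have hbas : ∀ (w : H →L[ℂ] H) (ζ : H) (Z : Set (H →L[ℂ] H)), Stt M ξ J e f η w ζ Z →
      Bas e f w := fun w ζ Z S => bas he.sa hf.sa he.idem hf.idem hef S.fwe S.pi
  -- a maximal state
  obtain ⟨⟨w, ζ, Z⟩, ⟨S, hζ1⟩, O, hmax⟩ := bb
    (fun x : (H →L[ℂ] H) × H × Set (H →L[ℂ] H) => Stt M ξ J e f η x.1 x.2.1 x.2.2 ∧ ‖x.2.1‖ ≤ 1)
    (fun x y => Ord M J η x.1 x.2.1 x.2.2 y.1 y.2.1 y.2.2) (fun x => ‖x.1 x.2.1‖ ^ 2) 1
    (fun x hx => by
      have h6 : ‖x.1 x.2.1‖ ≤ 1 := (pi_norm hx.1.pi _).trans hx.2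
      have h7 : 0 ≤ ‖x.1 x.2.1‖ := norm_nonneg _
      show ‖x.1 x.2.1‖ ^ 2 ≤ 1
      nlinarith)
    (fun x hx => ord_refl hx.1)
    (fun x y z hx hy hz hxy hyz => ord_trans (hbas _ _ _ hx.1) (hbas _ _ _ hy.1)
      (hbas _ _ _ hz.1) hx.1 hy.1 hxy hyz)
    (fun x y hx hy hxy => by
      show ‖x.1 x.2.1‖ ^ 2 ≤ ‖y.1 y.2.1‖ ^ 2
      have h6 : x.1 x.2.1 = (x.1 * star x.1) (y.1 y.2.1) := by
        have h7 : (x.1 * star x.1) (y.1 y.2.1) = x.1 y.2.1 :=
          congrArg (fun T : H →L[ℂ] H => T y.2.1) hxy.b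
        have h8 : x.1 * (star x.1 * x.1) = x.1 := by rw [← mul_assoc, hx.1.pi]
        have h9 : x.1 y.2.1 = x.1 ((star x.1 * x.1) y.2.1) :=
          (congrArg (fun T : H →L[ℂ] H => T y.2.1) h8).symm
        have h10 : x.1 x.2.1 = x.1 ((star x.1 * x.1) x.2.1) :=
          (congrArg (fun T : H →L[ℂ] H => T x.2.1) h8).symm
        rw [h7, h9, hxy.c, ← h10]
      rw [h6]
      exact pow_le_pow_left₀ (norm_nonneg _) (pr_norm (pi_idem' hx.1.pi) (pi_sa' x.1) _) 2)
    (fun x hx hxx => by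
      obtain ⟨w', ζ', Z', S', O'⟩ := lim_state h4 hM he hf hef (fun n => (hx n).1) hxx
      refine ⟨(w', ζ', Z'), ⟨S', ?_⟩, O'⟩
      have h6 := ord_dist hJ S' (O' 0)
      have h7 : ‖ζ'‖ ^ 2 ≤ ‖(x 0).2.1‖ ^ 2 := by
        have := sq_nonneg ‖(x 0).2.1 - ζ'‖
        linarith
      have h8 : ‖ζ'‖ ≤ ‖(x 0).2.1‖ := le_of_sq_le_sq h7 (norm_nonneg _)
      exact h8.trans (hx 0).2)
    (0, ξ, ∅) ⟨S0, hξ.le⟩
  simp only at S hζ1 O hmax
  have hJζ : J ζ = ζ := T_ps.cone_J hJ S.cone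
  have B := hbas w ζ Z S
  have hp := isPr_dom S.mem S.pi
  have hq := isPr_ran S.mem S.pi
  -- one of the projections is exhausted
  have hex : e - star w * w = 0 ∨ f - w * star w = 0 := by
    by_contra hcon
    rw [not_or] at hcon
    obtain ⟨hc1, hc2⟩ := hcon
    have hcyc := cyc h0 hM hJζ S.sep
    obtain ⟨U', hU'⟩ := h2 H M ζ hcyc S.sep
    have hM' := h1 H M ξ U J hM ζ U' S.cone S.sep hU'
    have hz : (e - star w * w) * (f - w * star w) = 0 := by
      have e1 : e * (w * star w) = 0 := by rw [← mul_assoc, B.ew, zero_mul]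
      have e2 : (star w * w) * f = 0 := by rw [mul_assoc, B.wf, mul_zero]
      have e3 := (pq_zero B B).1
      rw [mul_sub, sub_mul, sub_mul, hef, e1, e2, e3, sub_zero, sub_zero]
    have hJ1 : J ((e - star w * w) ζ) = (e - star w * w) ζ := by
      rw [sub_apply, T_ps.J_sub hJ, S.ec, S.pc]
    have hJ2 : J ((f - w * star w) ζ) = (f - w * star w) ζ := by
      rw [sub_apply, T_ps.J_sub hJ, S.qc, hfξ, T_ps.J_sub hJ, S.ec, hJζ]
    obtain ⟨v, hv, hv0, hvfe, hvpi, hvt⟩ := h3 H M ζ U' J hM' hIII (e - star w * w)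
      (f - w * star w) (isPr_sub he hp B.ep B.pe) (isPr_sub hf hq B.fq B.qf) hz hc1 hc2 hJ1 hJ2
      (η / 2) (by positivity)
    obtain ⟨w', ζ', Z', S', O', hlt⟩ := ext_step h5 hM he hf hef hη0.le hη1 S hv hv0 hvfe hvpi hvt
    have h6 := hmax (w', ζ', Z') ⟨S', ?_⟩ O'
    · exact absurd h6 (not_le.2 hlt)
    · have h7 := ord_dist hJ S' O'
      have h8 : ‖ζ'‖ ^ 2 ≤ ‖ζ‖ ^ 2 := by
        have := sq_nonneg ‖ζ - ζ'‖
        linarith
      exact (le_of_sq_le_sq h8 (norm_nonneg _)).trans hζ1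
  -- the estimates
  have hwζ : ‖w ζ‖ ≤ 1 := (pi_norm S.pi _).trans hζ1
  have hD : ‖ξ - ζ‖ ≤ 8 * η := by
    have h6 := ord_dist hJ S O
    have h7 := O.gain
    rw [zero_apply, norm_zero] at h7
    have h8 : ‖ξ - ζ‖ ^ 2 ≤ (8 * η) ^ 2 := by
      have h9 : ‖w ζ‖ ^ 2 ≤ 1 := by
        have := norm_nonneg (w ζ)
        nlinarith
      have h10 : 64 * η ^ 2 * (‖w ζ‖ ^ 2 - 0 ^ 2) ≤ 64 * η ^ 2 * 1 := by
        refine mul_le_mul_of_nonneg_left ?_ (by positivity)
        linarith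
      linarith
    exact le_of_sq_le_sq h8 (by positivity)
  have htw : ‖J (star w ζ) - w ζ‖ ≤ η := by
    have h6 := S.tw
    have h7 : ‖J (star w ζ) - w ζ‖ ^ 2 ≤ η ^ 2 := by
      have h9 : ‖w ζ‖ ^ 2 ≤ 1 := by
        have := norm_nonneg (w ζ)
        nlinarith
      have h10 : 0 ≤ η ^ 2 := by positivity
      nlinarith
    exact le_of_sq_le_sq h7 hη0.le
  have htau : ‖J (star w ξ) - w ξ‖ ≤ 17 * η := by
    have h6 : J (star w ξ) - w ξ = (J (star w ζ) - w ζ) + (J (star w (ξ - ζ)) - w (ξ - ζ)) := by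
      rw [map_sub, map_sub, T_ps.J_sub hJ]
      abel
    have h7 : ‖J (star w (ξ - ζ))‖ ≤ ‖ξ - ζ‖ := by
      rw [T_ps.J_norm hJ]
      exact pi_norm' S.pi _
    have h8 : ‖w (ξ - ζ)‖ ≤ ‖ξ - ζ‖ := pi_norm S.pi _
    have h9 := norm_add_le (J (star w ζ) - w ζ) (J (star w (ξ - ζ)) - w (ξ - ζ))
    have h10 := norm_sub_le (J (star w (ξ - ζ))) (w (ξ - ζ))
    rw [h6]
    linarith
  have hpn : ‖w ξ‖ = ‖(star w * w) ξ‖ := pi_norm_eq S.pi ξ
  have hqn : ‖star w ξ‖ = ‖(w * star w) ξ‖ := by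
    have h6 : star w * star (star w) * star w = star w := by
      rw [star_star]
      exact pi_star S.pi
    have h7 := pi_norm_eq h6 ξ
    rwa [star_star] at h7
  have hJn : ‖J (star w ξ)‖ = ‖star w ξ‖ := T_ps.J_norm hJ _
  have hle1 := norm_sub_norm_le (J (star w ξ)) (w ξ)
  have hle2 := norm_sub_norm_le (w ξ) (J (star w ξ))
  rw [norm_sub_rev] at hle2
  have he1 : ‖e ξ‖ ≤ 1 := (pr_norm he.idem he.sa ξ).trans hξ.le
  have hf1 : ‖f ξ‖ ≤ 1 := (pr_norm hf.idem hf.sa ξ).trans hξ.le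
  refine ⟨w, S.mem, S.fwe, S.pi, htau.trans hη2, ?_, ?_⟩
  · show ‖e ξ - (star w * w) ξ‖ ≤ ε
    rcases hex with h6 | h6
    · rw [← sub_apply, h6, zero_apply, norm_zero]
      exact hε.le
    · refine fin_est hp.idem hp.sa B.pe he1 hε hη3 ?_
      have h7 : ‖f ξ‖ = ‖(w * star w) ξ‖ := by
        rw [sub_eq_zero.1 h6]
      linarith
  · show ‖f ξ - (w * star w) ξ‖ ≤ ε
    rcases hex with h6 | h6
    · refine fin_est hq.idem hq.sa B.qf hf1 hε hη3 ?_
      have h7 : ‖e ξ‖ = ‖(star w * w) ξ‖ := by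
        rw [sub_eq_zero.1 h6]
      linarith
    · rw [← sub_apply, h6, zero_apply, norm_zero]
      exact hε.le

end Pool.Agent.H255.BC.C_exh
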