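import Pool.Agent.H255.BC.Defs6
import Pool.Agent.H255.BC.R_near

set_option autoImplicit false

open MeasureTheory Filter Topology Complex
open scoped InnerProductSpace ENNReal FourierTransform

namespace Pool.Agent.H255.BC.C_fixp

open Pool.Agent.W662.CB Pool.Agent.H255.BC
open Pool.Agent.H255.BC.R_near (psi_sub)

/-- division by `e^{κ/2} - 1` -/
lemma exists_quot {g : ℝ → ℂ} (hg : Tst g) (h0 : ∀ᶠ κ in 𝓝 (0 : ℝ), g κ = 0) :
    ∃ h : ℝ → ℂ, Tst h ∧ ∀ κ : ℝ, g κ = cexp (κ / 2) * h κ - h κ := by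
  have hne : ∀ κ : ℝ, κ ≠ 0 → cexp (κ / 2) - 1 ≠ 0 := by
    intro κ hκ h2
    have e : cexp (κ / 2) - 1 = ((Real.exp (κ / 2) - 1 : ℝ) : ℂ) := by
      push_cast
      rfl
    rw [e] at h2
    have h3 : Real.exp (κ / 2) - 1 = 0 := by exact_mod_cast h2
    have h4 : Real.exp (κ / 2) = Real.exp 0 := by rw [Real.exp_zero]; linarith
    have h5 := Real.exp_injective h4
    exact hκ (by linarith)
  refine ⟨fun κ => (cexp (κ / 2) - 1)⁻¹ * g κ, ⟨?_, hg.2.mul_left⟩, ?_⟩
  · rw [contDiff_iff_contDiffAt]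
    intro κ
    by_cases hκ : κ = 0
    · have h2 : (fun κ : ℝ => (cexp (κ / 2) - 1)⁻¹ * g κ) =ᶠ[𝓝 κ] fun _ => (0 : ℂ) := by
        rw [hκ]
        filter_upwards [h0] with x hx
        rw [hx, mul_zero]
      exact contDiffAt_const.congr_of_eventuallyEq h2
    · refine ContDiffAt.mul (ContDiffAt.inv ?_ (hne κ hκ)) hg.1.contDiffAt
      have h3 : ContDiff ℝ (⊤ : ℕ∞) (fun κ : ℝ => cexp (κ / 2) - 1) := by
        refine ContDiff.sub ?_ contDiff_const
        exact Complex.contDiff_exp.comp (Complex.ofRealCLM.contDiff.div_const 2)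
      exact h3.contDiffAt
  · intro κ
    by_cases hκ : κ = 0
    · have h2 : g 0 = 0 := h0.self_of_nhds
      rw [hκ]
      simp only [h2, mul_zero, sub_zero]
    · have h2 := hne κ hκ
      field_simp

theorem r (h1 : S_psi) (h2 : S_psi_J) (h3 : S_psi_inv) : S_fixp := by
  intro H _ _ _ M ξ U J hM p hp
  have hU := hM.modular
  have hJ := hM.conj
  constructor
  · intro hfix
    have key : ∀ g : ℝ → ℂ, Tst g → (∀ᶠ κ in 𝓝 (0 : ℝ), g κ = 0) → psi U g (p ξ) = 0 := by
      intro g hg hg0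
      obtain ⟨h, hh, hgh⟩ := exists_quot hg hg0
      have e1 : g = fun κ : ℝ => cexp (κ / 2) * h κ - h κ := funext hgh
      have hexp : ContDiff ℝ (⊤ : ℕ∞) (fun κ : ℝ => cexp (κ / 2)) :=
        Complex.contDiff_exp.comp (Complex.ofRealCLM.contDiff.div_const 2)
      have hh2 : Tst (fun κ : ℝ => cexp (κ / 2) * h κ) := ⟨hexp.mul hh.1, hh.2.mul_left⟩
      rw [e1, psi_sub hU hh2 hh, (h2 H M ξ U J hU hJ h hh).2 p hp.mem, hp.sa, hfix, sub_self]
    have hinv : ∀ t : ℝ, U t (p ξ) = p ξ := by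
      refine h3 H M ξ U hU (p ξ) ?_ ?_
      · rintro h hh ⟨c, hc, hc0⟩
        refine key h hh ?_
        filter_upwards [Iio_mem_nhds hc] with κ hκ
        exact hc0 κ hκ
      · rintro h hh ⟨c, hc, hc0⟩
        refine key h hh ?_
        filter_upwards [Ioi_mem_nhds (show -c < 0 by linarith)] with κ hκ
        exact hc0 κ hκ
    intro t
    have e : (sgm U t p - p) ξ = 0 := by
      have e1 : sgm U t p ξ = U t (p (star (U t) ξ)) := rfl
      rw [_root_.sub_apply, e1, hU.star_eq, hU.fix, hinv, sub_self]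
    have h4 := hM.sep (sgm U t p - p) (sub_mem (hU.mem t p hp.mem) hp.mem) e
    exact sub_eq_zero.1 h4
  · intro hs
    have hA : IsAn M U (fun _ => p) := by
      refine ⟨fun _ => hp.mem, fun v => differentiable_const _, fun v => differentiable_const _,
        fun t => (hs t).symm, fun R => ⟨‖p‖, fun z _ => le_rfl⟩⟩
    have := hJ.an _ hA
    rw [hp.sa] at this
    exact this

end Pool.Agent.H255.BC.C_fixp
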