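import Pool.Agent.H255.BC.Defs6
import Pool.Agent.H255.BC.P_ps

set_option autoImplicit false

open MeasureTheory Filter Topology Complex
open scoped InnerProductSpace ENNReal FourierTransform

namespace Pool.Agent.H255.BC.C_hom1

open Pool.Agent.W662.CB Pool.Agent.H255.BC
open Pool.Agent.H255.BC.T_ps (J_norm J_zero J_neg J_sub J_cont J_sum J_swap)

section alg

variable {H : Type} [NormedAddCommGroup H] [InnerProductSpace ℂ H] [CompleteSpace H]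

theorem ins1 (A : H →L[ℂ] H) (v w : H) : ⟪A v, w⟫_ℂ = ⟪v, star A w⟫_ℂ := by
  rw [ContinuousLinearMap.star_eq_adjoint, ContinuousLinearMap.adjoint_inner_right]

theorem ins2 (A : H →L[ℂ] H) (v w : H) : ⟪v, A w⟫_ℂ = ⟪star A v, w⟫_ℂ := by
  rw [ins1, star_star]

theorem iso_norm {A : H →L[ℂ] H} (hA : star A * A = 1) (v : H) : ‖A v‖ = ‖v‖ := by
  have h : ⟪A v, A v⟫_ℂ = ⟪v, v⟫_ℂ := by
    have h0 : star A (A v) = v := congrArg (fun T : H →L[ℂ] H => T v) hA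
    rw [ins1, h0]
  rw [inner_self_eq_norm_sq_to_K, inner_self_eq_norm_sq_to_K] at h
  have h2 : ‖A v‖ ^ 2 = ‖v‖ ^ 2 := by exact_mod_cast h
  exact (pow_left_inj₀ (norm_nonneg _) (norm_nonneg _) two_ne_zero).1 h2

theorem pr_norm_le {q : H →L[ℂ] H} (h1 : q * q = q) (h2 : star q = q) : ‖q‖ ≤ 1 := by
  have h3 : ‖star q * q‖ = ‖q‖ * ‖q‖ := CStarRing.norm_star_mul_self
  rw [h2, h1] at h3
  by_contra h
  rw [not_le] at h
  nlinarith

theorem pi_norm_le {w : H →L[ℂ] H} (h : w * star w * w = w) : ‖w‖ ≤ 1 := by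
  have h1 : ‖star w * w‖ ≤ 1 := by
    apply pr_norm_le
    · rw [mul_assoc, ← mul_assoc w, h]
    · rw [star_mul, star_star]
  have h3 : ‖star w * w‖ = ‖w‖ * ‖w‖ := CStarRing.norm_star_mul_self
  rw [h3] at h1
  by_contra h
  rw [not_le] at h
  nlinarith

theorem iso_pi {A : H →L[ℂ] H} (hA : star A * A = 1) : A * star A * A = A := by
  rw [mul_assoc, hA, mul_one]

/-- Cuntz pairs -/
structure Cz (M : VonNeumannAlgebra H) (a b : H →L[ℂ] H) : Prop where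
  ma : a ∈ M
  mb : b ∈ M
  ia : star a * a = 1
  ib : star b * b = 1
  sum : a * star a + b * star b = 1

variable {M : VonNeumannAlgebra H} {a b : H →L[ℂ] H}

theorem Cz.ab (h : Cz M a b) : star a * b = 0 := by
  have h1 : star a * b = star a * (a * star a + b * star b) * b := by rw [h.sum, mul_one]
  have h2 : star a * (a * star a + b * star b) * b =
      (star a * a) * (star a * b) + (star a * b) * (star b * b) := by
    noncomm_ring
  rw [h2, h.ia, h.ib, one_mul, mul_one] at h1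
  have h3 : star a * b + 0 = star a * b + star a * b := by rw [add_zero]; exact h1
  exact (add_left_cancel h3).symm

theorem Cz.ba (h : Cz M a b) : star b * a = 0 := by
  have := congrArg star h.ab
  rwa [star_mul, star_star, star_zero] at this

/-- the isometries `a^n b` -/
noncomputable def tt (a b : H →L[ℂ] H) (n : ℕ) : H →L[ℂ] H := a ^ n * b

theorem Cz.mt (h : Cz M a b) (n : ℕ) : tt a b n ∈ M := mul_mem (pow_mem h.ma n) h.mb

theorem Cz.pow (h : Cz M a b) (n : ℕ) : star (a ^ n) * a ^ n = 1 := by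
  induction n with
  | zero => simp
  | succ n ih =>
    rw [pow_succ, star_mul, mul_assoc, ← mul_assoc (star (a ^ n)), ih, one_mul, h.ia]

theorem Cz.orth_lt (h : Cz M a b) {m n : ℕ} (hmn : m < n) : star (tt a b m) * tt a b n = 0 := by
  obtain ⟨k, rfl⟩ := Nat.exists_eq_add_of_lt hmn
  unfold tt
  have e : a ^ (m + k + 1) = a ^ m * (a * a ^ k) := by
    rw [← pow_succ', ← pow_add]; rfl
  rw [e, star_mul]
  have e2 : star b * star (a ^ m) * (a ^ m * (a * a ^ k) * b) =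
      star b * (star (a ^ m) * a ^ m) * a * (a ^ k * b) := by
    simp only [mul_assoc]
  rw [e2, h.pow, mul_one, h.ba, zero_mul]

theorem Cz.orth (h : Cz M a b) {m n : ℕ} (hmn : m ≠ n) : star (tt a b m) * tt a b n = 0 := by
  rcases lt_or_gt_of_ne hmn with h1 | h1
  · exact h.orth_lt h1
  · have := congrArg star (h.orth_lt h1)
    rwa [star_mul, star_star, star_zero] at this

theorem Cz.iso (h : Cz M a b) (n : ℕ) : star (tt a b n) * tt a b n = 1 := by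
  unfold tt
  rw [star_mul]
  have e2 : star b * star (a ^ n) * (a ^ n * b) = star b * (star (a ^ n) * a ^ n) * b := by
    simp only [mul_assoc]
  rw [e2, h.pow, mul_one, h.ib]

theorem Cz.split (h : Cz M a b) (v : H) : ‖v‖ ^ 2 = ‖star a v‖ ^ 2 + ‖star b v‖ ^ 2 := by
  have h1 : ⟪v, v⟫_ℂ = ⟪star a v, star a v⟫_ℂ + ⟪star b v, star b v⟫_ℂ := by
    rw [ins1 (star a), ins1 (star b), star_star, star_star, ← inner_add_right]
    congr 1
    have := congrArg (fun T : H →L[ℂ] H => T v) h.sum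
    exact this.symm
  rw [inner_self_eq_norm_sq_to_K, inner_self_eq_norm_sq_to_K, inner_self_eq_norm_sq_to_K] at h1
  exact_mod_cast h1

/-- small projections -/
theorem Cz.small (h : Cz M a b) (v : H) {ε : ℝ} (hε : 0 < ε) : ∃ n, ‖star (tt a b n) v‖ ≤ ε := by
  set f : ℕ → ℝ := fun n => ‖star (a ^ n) v‖ ^ 2 with hf
  have hstep : ∀ n, f n = f (n + 1) + ‖star (tt a b n) v‖ ^ 2 := by
    intro n
    have h1 := h.split (star (a ^ n) v)
    have e1 : star (a ^ (n + 1)) v = star a (star (a ^ n) v) := by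
      rw [pow_succ, star_mul]; rfl
    have e2 : star (tt a b n) v = star b (star (a ^ n) v) := by
      unfold tt
      rw [star_mul]; rfl
    simp only [hf]
    rw [e1, e2]
    exact h1
  have hanti : Antitone f := antitone_nat_of_succ_le fun n => by
    rw [hstep n]
    have : 0 ≤ ‖star (tt a b n) v‖ ^ 2 := by positivity
    linarith
  have hbdd : BddBelow (Set.range f) := ⟨0, by
    rintro _ ⟨n, rfl⟩
    simp only [hf]
    positivity⟩
  have h1 := tendsto_atTop_ciInf hanti hbdd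
  have h2 : Tendsto (fun n => f n - f (n + 1)) atTop (𝓝 0) := by
    have h3 := h1.sub (h1.comp (tendsto_add_atTop_nat 1))
    simpa using h3
  have h3 : ∀ᶠ n in atTop, f n - f (n + 1) < ε ^ 2 := h2.eventually_lt_const (by positivity)
  obtain ⟨n, hn⟩ := h3.exists
  refine ⟨n, ?_⟩
  rw [hstep n] at hn
  have h4 : ‖star (tt a b n) v‖ ^ 2 < ε ^ 2 := by linarith
  exact (lt_of_pow_lt_pow_left₀ 2 hε.le h4).le

/-- partial isometries can be approximated by unitaries -/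
theorem ext_uni (h : Cz M a b)
    (heq : ∀ p : H →L[ℂ] H, p ∈ M → p * p = p → star p = p → p ≠ 0 →
      ∃ v : H →L[ℂ] H, v ∈ M ∧ star v * v = 1 ∧ v * star v = p)
    {u₀ : H →L[ℂ] H} (hu : u₀ ∈ M) (hpi : u₀ * star u₀ * u₀ = u₀) (hne : u₀ ≠ 0)
    (h1ne : (1 : H →L[ℂ] H) ≠ 0) (χ : H)
    {ε : ℝ} (hε : 0 < ε) : ∃ u : H →L[ℂ] H, u ∈ M ∧ star u * u = 1 ∧ u * star u = 1 ∧
      ‖u χ - u₀ χ‖ ≤ ‖χ - star u₀ (u₀ χ)‖ + ε := by
  have hus : star u₀ ∈ M := star_mem hu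
  set r : H →L[ℂ] H := star u₀ * u₀ with hr
  have hrM : r ∈ M := mul_mem hus hu
  have hrr : r * r = r := by
    rw [hr, mul_assoc, ← mul_assoc u₀, hpi]
  have hrs : star r = r := by rw [hr, star_mul, star_star]
  have hr0 : r ≠ 0 := by
    intro h0
    apply hne
    rw [← hpi, mul_assoc, ← hr, h0, mul_zero]
  have hur : u₀ * r = u₀ := by rw [hr, ← mul_assoc, hpi]
  obtain ⟨v, hv, hvi, hvr⟩ := heq r hrM hrr hrs hr0
  obtain ⟨n, hn⟩ := h.small (star v χ) (half_pos hε)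
  set c : H →L[ℂ] H := v * tt a b n with hc
  have hcM : c ∈ M := mul_mem hv (h.mt n)
  have hci : star c * c = 1 := by
    rw [hc, star_mul]
    have e : star (tt a b n) * star v * (v * tt a b n) =
        star (tt a b n) * (star v * v) * tt a b n := by simp only [mul_assoc]
    rw [e, hvi, mul_one, h.iso]
  have hrc : r * c = c := by
    rw [hc, ← hvr]
    have e : v * star v * (v * tt a b n) = v * (star v * v) * tt a b n := by
      simp only [mul_assoc]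
    rw [e, hvi, mul_one]
  set p : H →L[ℂ] H := c * star c with hp
  have hpM : p ∈ M := mul_mem hcM (star_mem hcM)
  have hpp : p * p = p := by
    have e : p * p = c * (star c * c) * star c := by rw [hp]; simp only [mul_assoc]
    rw [e, hci, mul_one]
  have hps : star p = p := by rw [hp, star_mul, star_star]
  have hrp : r * p = p := by rw [hp, ← mul_assoc, hrc]
  have hpr : p * r = p := by
    have := congrArg star hrp
    rwa [star_mul, hps, hrs] at this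
  have hp0 : p ≠ 0 := by
    intro h0
    apply h1ne
    have e : star c * p * c = 1 := by
      rw [hp]
      have e : star c * (c * star c) * c = (star c * c) * (star c * c) := by
        simp only [mul_assoc]
      rw [e, hci, one_mul]
    rw [← e, h0, mul_zero, zero_mul]
  set u₁ : H →L[ℂ] H := u₀ - u₀ * p with hu₁
  have hu₁M : u₁ ∈ M := sub_mem hu (mul_mem hu hpM)
  have hu₁s : star u₁ = star u₀ - p * star u₀ := by rw [hu₁, star_sub, star_mul, hps]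
  have hss : star u₁ * u₁ = r - p := by
    rw [hu₁s, hu₁]
    have e : (star u₀ - p * star u₀) * (u₀ - u₀ * p) =
        star u₀ * u₀ - (star u₀ * u₀) * p - p * (star u₀ * u₀) + p * (star u₀ * u₀) * p := by
      noncomm_ring
    rw [e, ← hr, hrp, hpr, hpp]
    abel
  have hpi₁ : u₁ * star u₁ * u₁ = u₁ := by
    rw [mul_assoc, hss, hu₁]
    have e : (u₀ - u₀ * p) * (r - p) = u₀ * r - u₀ * p - u₀ * (p * r) + u₀ * (p * p) := by
      noncomm_ring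
    rw [e, hpr, hpp, hur]
    abel
  have hpi₁s : star u₁ * u₁ * star u₁ = star u₁ := by
    have := congrArg star hpi₁
    rw [star_mul, star_mul, star_star] at this
    rw [← mul_assoc] at this
    exact this
  -- the defects
  set A : H →L[ℂ] H := 1 - star u₁ * u₁ with hA
  set B : H →L[ℂ] H := 1 - u₁ * star u₁ with hB
  have hAM : A ∈ M := sub_mem (one_mem M) (mul_mem (star_mem hu₁M) hu₁M)
  have hBM : B ∈ M := sub_mem (one_mem M) (mul_mem hu₁M (star_mem hu₁M))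
  have hAA : A * A = A := by
    have e : A * A = 1 - 2 • (star u₁ * u₁) + star u₁ * (u₁ * star u₁ * u₁) := by
      rw [hA]; noncomm_ring
    rw [e, hpi₁, hA]
    abel
  have hBB : B * B = B := by
    have e : B * B = 1 - 2 • (u₁ * star u₁) + (u₁ * star u₁ * u₁) * star u₁ := by
      rw [hB]; noncomm_ring
    rw [e, hpi₁, hB]
    abel
  have hAs : star A = A := by rw [hA, star_sub, star_one, star_mul, star_star]
  have hBs : star B = B := by rw [hB, star_sub, star_one, star_mul, star_star]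
  have hAp : A * p = p := by
    rw [hA, hss, sub_mul, one_mul, sub_mul, hrp, hpp, sub_self, sub_zero]
  have hA0 : A ≠ 0 := by
    intro h0
    rw [h0, zero_mul] at hAp
    exact hp0 hAp.symm
  have hup : star u₁ * (u₀ * p) = 0 := by
    rw [hu₁s]
    have e : (star u₀ - p * star u₀) * (u₀ * p) =
        (star u₀ * u₀) * p - p * ((star u₀ * u₀) * p) := by noncomm_ring
    rw [e, ← hr, hrp, hpp, sub_self]
  have hBu : B * (u₀ * p) = u₀ * p := by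
    rw [hB, sub_mul, one_mul, mul_assoc, hup, mul_zero, sub_zero]
  have hB0 : B ≠ 0 := by
    intro h0
    rw [h0, zero_mul] at hBu
    apply hp0
    rw [← hrp, hr, mul_assoc, ← hBu, mul_zero]
  obtain ⟨x, hx, hxi, hxA⟩ := heq A hAM hAA hAs hA0
  obtain ⟨y, hy, hyi, hyB⟩ := heq B hBM hBB hBs hB0
  set z : H →L[ℂ] H := y * star x with hz
  have hzz : star z * z = A := by
    rw [hz, star_mul, star_star]
    have e : x * star y * (y * star x) = x * (star y * y) * star x := by simp only [mul_assoc]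
    rw [e, hyi, mul_one, hxA]
  have hzz' : z * star z = B := by
    rw [hz, star_mul, star_star]
    have e : y * star x * (x * star y) = y * (star x * x) * star y := by simp only [mul_assoc]
    rw [e, hxi, mul_one, hyB]
  have hBz : B * z = z := by
    rw [hz, ← hyB]
    have e : y * star y * (y * star x) = y * (star y * y) * star x := by simp only [mul_assoc]
    rw [e, hyi, mul_one]
  have hzA : z * A = z := by
    rw [hz, ← hxA]
    have e : y * star x * (x * star x) = y * (star x * x) * star x := by simp only [mul_assoc]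
    rw [e, hxi, mul_one]
  have huB : star u₁ * B = 0 := by
    rw [hB, mul_sub, mul_one, ← mul_assoc, hpi₁s, sub_self]
  have huz : star u₁ * z = 0 := by rw [← hBz, ← mul_assoc, huB, zero_mul]
  have hzu : star z * u₁ = 0 := by
    have := congrArg star huz
    rwa [star_mul, star_star, star_zero] at this
  have hAz : A * star z = star z := by
    have := congrArg star hzA
    rwa [star_mul, hAs] at this
  have huA : u₁ * A = 0 := by
    rw [hA, mul_sub, mul_one, ← mul_assoc, hpi₁, sub_self]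
  have huz' : u₁ * star z = 0 := by rw [← hAz, ← mul_assoc, huA, zero_mul]
  have hzu' : z * star u₁ = 0 := by
    have := congrArg star huz'
    rwa [star_mul, star_star, star_zero] at this
  refine ⟨u₁ + z, add_mem hu₁M (mul_mem hy (star_mem hx)), ?_, ?_, ?_⟩
  · rw [star_add, add_mul, mul_add, mul_add, huz, hzu, hzz, add_zero, zero_add, hA]
    abel
  · rw [star_add, add_mul, mul_add, mul_add, huz', hzu', hzz', add_zero, zero_add, hB]
    abel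
  · have hzn : ‖z‖ ≤ 1 := by
      apply pi_norm_le
      rw [hzz', hBz]
    have hun : ‖u₀‖ ≤ 1 := pi_norm_le hpi
    have hcn : ‖c‖ ≤ 1 := pi_norm_le (iso_pi hci)
    have hpχ : ‖p χ‖ ≤ ε / 2 := by
      have e1 : p χ = c (star (tt a b n) (star v χ)) := by
        rw [hp, hc, star_mul]; rfl
      rw [e1]
      calc ‖c (star (tt a b n) (star v χ))‖ ≤ ‖c‖ * ‖star (tt a b n) (star v χ)‖ :=
            c.le_opNorm _
        _ ≤ 1 * (ε / 2) := mul_le_mul hcn hn (norm_nonneg _) zero_le_one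
        _ = ε / 2 := one_mul _
    have e2 : (u₁ + z) χ - u₀ χ = z (A χ) - u₀ (p χ) := by
      have e3 : z (A χ) = z χ := by
        have := congrArg (fun T : H →L[ℂ] H => T χ) hzA
        exact this
      rw [e3, hu₁]
      show (u₀ χ - u₀ (p χ) + z χ) - u₀ χ = _
      abel
    have e3 : A χ = (χ - star u₀ (u₀ χ)) + p χ := by
      rw [hA, hss, hr]
      show χ - (star u₀ (u₀ χ) - p χ) = _
      abel
    rw [e2]
    calc ‖z (A χ) - u₀ (p χ)‖ ≤ ‖z (A χ)‖ + ‖u₀ (p χ)‖ := norm_sub_le _ _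
      _ ≤ ‖A χ‖ + ‖p χ‖ := by
          refine add_le_add ?_ ?_
          · calc ‖z (A χ)‖ ≤ ‖z‖ * ‖A χ‖ := z.le_opNorm _
              _ ≤ 1 * ‖A χ‖ := mul_le_mul_of_nonneg_right hzn (norm_nonneg _)
              _ = ‖A χ‖ := one_mul _
          · calc ‖u₀ (p χ)‖ ≤ ‖u₀‖ * ‖p χ‖ := u₀.le_opNorm _
              _ ≤ 1 * ‖p χ‖ := mul_le_mul_of_nonneg_right hun (norm_nonneg _)
              _ = ‖p χ‖ := one_mul _
      _ ≤ (‖χ - star u₀ (u₀ χ)‖ + ‖p χ‖) + ‖p χ‖ := by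
          rw [e3]
          have := norm_add_le (χ - star u₀ (u₀ χ)) (p χ)
          linarith
      _ ≤ ‖χ - star u₀ (u₀ χ)‖ + ε := by linarith

theorem exists_cz {N : VonNeumannAlgebra H} (h : IsTypeIIIone N) : ∃ a b, Cz N a b := by
  obtain ⟨p, hp, hpp, hps, hp0, hp1⟩ := h.nontriv
  obtain ⟨a, ha, hai, hap⟩ := h.equiv p hp hpp hps hp0
  have hq : (1 - p) * (1 - p) = 1 - p := by
    have e : (1 - p) * (1 - p) = 1 - p - p + p * p := by noncomm_ring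
    rw [e, hpp]; abel
  obtain ⟨b, hb, hbi, hbp⟩ := h.equiv (1 - p) (sub_mem (one_mem N) hp) hq
    (by rw [star_sub, star_one, hps]) (sub_ne_zero.2 (Ne.symm hp1))
  exact ⟨a, b, ha, hb, hai, hbi, by rw [hap, hbp]; abel⟩

theorem one_ne {N : VonNeumannAlgebra H} (h : IsTypeIIIone N) : (1 : H →L[ℂ] H) ≠ 0 := by
  obtain ⟨p, hp, hpp, hps, hp0, hp1⟩ := h.nontriv
  intro h0
  apply hp0
  rw [← mul_one p, h0, mul_zero]

end alg

section rep

variable {H : Type} [NormedAddCommGroup H] [InnerProductSpace ℂ H] [CompleteSpace H]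
  {M : VonNeumannAlgebra H} {ξ : H} {U : ℝ → H →L[ℂ] H} {J : H → H}

/-- `J A J` -/
noncomputable def cJ (hJ : IsConj M ξ U J) (A : H →L[ℂ] H) : H →L[ℂ] H :=
  LinearMap.mkContinuous
    { toFun := fun v => J (A (J v))
      map_add' := fun v w => by rw [hJ.add, map_add, hJ.add]
      map_smul' := fun c v => by
        rw [hJ.smul, map_smul, hJ.smul, RingHom.id_apply, Complex.conj_conj] }
    ‖A‖ (fun v => by
      show ‖J (A (J v))‖ ≤ ‖A‖ * ‖v‖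
      rw [J_norm hJ]
      calc ‖A (J v)‖ ≤ ‖A‖ * ‖J v‖ := A.le_opNorm _
        _ = ‖A‖ * ‖v‖ := by rw [J_norm hJ])

theorem cJ_apply (hJ : IsConj M ξ U J) (A : H →L[ℂ] H) (v : H) : cJ hJ A v = J (A (J v)) := rfl

theorem J_inner' (hJ : IsConj M ξ U J) (v w : H) : ⟪J v, w⟫_ℂ = ⟪J w, v⟫_ℂ := J_swap hJ v w

theorem cJ_star (hJ : IsConj M ξ U J) (A : H →L[ℂ] H) : star (cJ hJ A) = cJ hJ (star A) := by
  refine ContinuousLinearMap.ext fun v => ?_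
  refine ext_inner_left ℂ fun w => ?_
  rw [← ins1, cJ_apply, cJ_apply, J_swap hJ]
  calc ⟪J v, A (J w)⟫_ℂ = ⟪star A (J v), J w⟫_ℂ := ins2 _ _ _
    _ = (starRingEnd ℂ) ⟪J w, star A (J v)⟫_ℂ := (inner_conj_symm _ _).symm
    _ = (starRingEnd ℂ) ⟪J (star A (J v)), w⟫_ℂ := by rw [J_swap hJ (star A (J v)) w]
    _ = ⟪w, J (star A (J v))⟫_ℂ := inner_conj_symm _ _

/-- the vectors `∑ J t_i J v_i` represent sums of vector functionals -/
theorem rep_sum (hJ : IsConj M ξ U J) {a b : H →L[ℂ] H} (hc : Cz M a b) (n : ℕ) (v : Fin n → H)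
    (x : H →L[ℂ] H) (hx : x ∈ M) :
    ⟪∑ i : Fin n, J (tt a b i (J (v i))), x (∑ i : Fin n, J (tt a b i (J (v i))))⟫_ℂ =
      ∑ i, ⟪v i, x (v i)⟫_ℂ := by
  rw [map_sum, sum_inner]
  refine Finset.sum_congr rfl fun i _ => ?_
  rw [inner_sum]
  rw [Finset.sum_eq_single i]
  · rw [hJ.comm x (tt a b i) hx (hc.mt i), hJ.inner, ins1]
    have h1 : star (tt a b i) (tt a b i (J (v i))) = J (v i) :=
      congrArg (fun T : H →L[ℂ] H => T (J (v i))) (hc.iso i)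
    rw [h1, hJ.inner]
  · intro j _ hj
    rw [hJ.comm x (tt a b j) hx (hc.mt j), hJ.inner, ins1]
    have h1 : star (tt a b j) (tt a b i (J (v i))) = 0 := by
      have hne : (j : ℕ) ≠ (i : ℕ) := fun h => hj (Fin.ext h)
      exact congrArg (fun T : H →L[ℂ] H => T (J (v i))) (hc.orth hne)
    rw [h1, inner_zero_right]
  · intro h
    exact absurd (Finset.mem_univ i) h

theorem rep (hm : Mod M ξ U J) (h4 : S_comm) (hIII : IsTypeIIIone M) (n : ℕ) (v : Fin n → H)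
    (hv : ∀ x : H →L[ℂ] H, x ∈ M → (∀ i, x (v i) = 0) → x = 0) :
    ∃ Ω : H, IsCyclic M Ω ∧ IsSeparating M Ω ∧
      ∀ x : H →L[ℂ] H, x ∈ M → ⟪Ω, x Ω⟫_ℂ = ∑ i, ⟪v i, x (v i)⟫_ℂ := by
  have hJ := hm.conj
  obtain ⟨a, b, hc⟩ := exists_cz hIII
  obtain ⟨Ω₀, hrep⟩ : ∃ Ω₀ : H, ∀ x : H →L[ℂ] H, x ∈ M → ⟪Ω₀, x Ω₀⟫_ℂ = ∑ i, ⟪v i, x (v i)⟫_ℂ :=
    ⟨_, fun x hx => rep_sum hJ hc n v x hx⟩
  have hsep : ∀ Ω' : H, (∀ x : H →L[ℂ] H, x ∈ M → ⟪Ω', x Ω'⟫_ℂ = ∑ i, ⟪v i, x (v i)⟫_ℂ) →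
      IsSeparating M Ω' := by
    intro Ω' hΩ' x hx hx0
    apply hv x hx
    have h1 := hΩ' (star x * x) (mul_mem (star_mem hx) hx)
    have h2 : (star x * x) Ω' = 0 := by
      show star x (x Ω') = 0
      rw [hx0, map_zero]
    rw [h2, inner_zero_right] at h1
    have h3 : ∀ i, ⟪v i, (star x * x) (v i)⟫_ℂ = ((‖x (v i)‖ ^ 2 : ℝ) : ℂ) := by
      intro i
      show ⟪v i, star x (x (v i))⟫_ℂ = _
      rw [← ins1, inner_self_eq_norm_sq_to_K]
      norm_cast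
    rw [Finset.sum_congr rfl fun i _ => h3 i, ← Complex.ofReal_sum] at h1
    have h4 : ∑ i, ‖x (v i)‖ ^ 2 = 0 := by exact_mod_cast h1.symm
    intro i
    have h5 := (Finset.sum_eq_zero_iff_of_nonneg (fun i _ => by positivity)).1 h4 i
      (Finset.mem_univ i)
    exact norm_eq_zero.1 (pow_eq_zero_iff two_ne_zero |>.1 h5)
  have hsep0 := hsep Ω₀ hrep
  have hΩ0 : Ω₀ ≠ 0 := by
    intro h0
    exact one_ne hIII (hsep0 1 (one_mem M) (by rw [h0, map_zero]))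
  -- the projection onto the closure of `M Ω₀`
  let S0 : Submodule ℂ H :=
    { carrier := {w | ∃ x : H →L[ℂ] H, x ∈ M ∧ x Ω₀ = w}
      add_mem' := by
        rintro _ _ ⟨x, hx, rfl⟩ ⟨y, hy, rfl⟩
        exact ⟨x + y, add_mem hx hy, rfl⟩
      zero_mem' := ⟨0, zero_mem M, rfl⟩
      smul_mem' := by
        rintro c _ ⟨x, hx, rfl⟩
        exact ⟨c • x, M.toStarSubalgebra.smul_mem hx c, rfl⟩ }
  let K : Submodule ℂ H := S0.topologicalClosure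
  haveI : CompleteSpace K := S0.isClosed_topologicalClosure.completeSpace_coe
  have hKx : ∀ x : H →L[ℂ] H, x ∈ M → ∀ w ∈ K, x w ∈ K := by
    intro x hx w hw
    refine map_mem_closure x.continuous hw ?_
    rintro _ ⟨y, hy, rfl⟩
    exact ⟨x * y, mul_mem hx hy, rfl⟩
  set e' : H →L[ℂ] H := K.starProjection with he'
  have hcomm : ∀ x : H →L[ℂ] H, x ∈ M → ∀ w, e' (x w) = x (e' w) := by
    intro x hx w
    refine Submodule.eq_starProjection_of_mem_of_inner_eq_zero (hKx x hx _ ?_) ?_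
    · exact Submodule.starProjection_apply_mem K w
    · intro k hk
      rw [← map_sub, ins1]
      exact Submodule.starProjection_inner_eq_zero w _ (hKx _ (star_mem hx) k hk)
  have hΩK : Ω₀ ∈ K := S0.le_topologicalClosure ⟨1, one_mem M, rfl⟩
  have heΩ : e' Ω₀ = Ω₀ := Submodule.starProjection_eq_self_iff.2 hΩK
  have hidem : ∀ w, e' (e' w) = e' w := fun w =>
    Submodule.starProjection_eq_self_iff.2 (Submodule.starProjection_apply_mem K w)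
  have hsa : star e' = e' := by
    refine ContinuousLinearMap.ext fun w => ?_
    refine ext_inner_left ℂ fun u => ?_
    rw [← ins1, he', Submodule.inner_starProjection_left_eq_right]
  set E : H →L[ℂ] H := cJ hJ e' with hE
  have hEM : E ∈ M := by
    apply h4 H M ξ U J hm.modular hm.cyc hJ
    intro y hy w
    rw [hE, cJ_apply, cJ_apply, hJ.inv, hJ.inv, hcomm y hy]
  have hEE : E * E = E := by
    refine ContinuousLinearMap.ext fun w => ?_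
    show E (E w) = E w
    rw [hE, cJ_apply, cJ_apply, hJ.inv, hidem]
  have hEs : star E = E := by rw [hE, cJ_star, hsa]
  have hE0 : E ≠ 0 := by
    intro h0
    have h1 : E (J Ω₀) = J Ω₀ := by rw [hE, cJ_apply, hJ.inv, heΩ]
    rw [h0] at h1
    have h2 : J Ω₀ = 0 := h1.symm
    have h3 := J_norm hJ Ω₀
    rw [h2, norm_zero] at h3
    exact hΩ0 (norm_eq_zero.1 h3.symm)
  obtain ⟨w, hw, hwi, hwE⟩ := hIII.equiv E hEM hEE hEs hE0
  have hws := star_mem hw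
  set L : H → H := fun k => J (star w (J k)) with hL
  have hLc : Continuous L := (J_cont hJ).comp ((star w).continuous.comp (J_cont hJ))
  have hLx : ∀ x : H →L[ℂ] H, x ∈ M → ∀ k, x (L k) = L (x k) := fun x hx k =>
    hJ.comm x (star w) hx hws k
  have hrep' : ∀ x : H →L[ℂ] H, x ∈ M → ⟪L Ω₀, x (L Ω₀)⟫_ℂ = ∑ i, ⟪v i, x (v i)⟫_ℂ := by
    intro x hx
    rw [← hrep x hx, hLx x hx, hL]
    show ⟪J (star w (J Ω₀)), J (star w (J (x Ω₀)))⟫_ℂ = _
    rw [hJ.inner, ins1, star_star]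
    have h1 : w (star w (J Ω₀)) = J Ω₀ := by
      have h2 : w (star w (J Ω₀)) = E (J Ω₀) := congrArg (fun T : H →L[ℂ] H => T (J Ω₀)) hwE
      rw [h2, hE, cJ_apply, hJ.inv, heΩ]
    rw [h1, hJ.inner]
  refine ⟨L Ω₀, ?_, hsep _ hrep', hrep'⟩
  intro h
  -- `h = L g` with `g = J w J h`
  set g : H := J (w (J h)) with hg
  have hLg : L g = h := by
    rw [hL, hg]
    show J (star w (J (J (w (J h))))) = h
    have h1 : star w (w (J h)) = J h := congrArg (fun T : H →L[ℂ] H => T (J h)) hwi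
    rw [hJ.inv, h1, hJ.inv]
  have hgK : g ∈ K := by
    rw [← Submodule.starProjection_eq_self_iff, ← he']
    have h1 : e' g = J (E (w (J h))) := by rw [hE, cJ_apply, hJ.inv, hg]
    have h2 : E (w (J h)) = w (J h) := by
      rw [← hwE]
      show w (star w (w (J h))) = _
      have h1 : star w (w (J h)) = J h := congrArg (fun T : H →L[ℂ] H => T (J h)) hwi
      rw [h1]
    rw [h1, h2, hg]
  have hgK' : g ∈ closure (S0 : Set H) := hgK
  rw [← hLg]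
  refine map_mem_closure hLc hgK' ?_
  rintro _ ⟨x, hx, rfl⟩
  exact ⟨x, hx, hLx x hx Ω₀⟩

end rep

section main

variable {H : Type} [NormedAddCommGroup H] [InnerProductSpace ℂ H] [CompleteSpace H]
  {M : VonNeumannAlgebra H} {Ω : H} {U : ℝ → H →L[ℂ] H} {J : H → H}

theorem quad_diff (x : H →L[ℂ] H) (p q : H) :
    ‖⟪p, x p⟫_ℂ - ⟪q, x q⟫_ℂ‖ ≤ ‖x‖ * ‖p - q‖ * (‖p‖ + ‖q‖) := by
  have e : ⟪p, x p⟫_ℂ - ⟪q, x q⟫_ℂ = ⟪p - q, x p⟫_ℂ + ⟪q, x (p - q)⟫_ℂ := by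
    rw [map_sub, inner_sub_left, inner_sub_right]
    ring
  rw [e]
  refine (norm_add_le _ _).trans ?_
  have h1 : ‖⟪p - q, x p⟫_ℂ‖ ≤ ‖p - q‖ * (‖x‖ * ‖p‖) :=
    (norm_inner_le_norm _ _).trans (mul_le_mul_of_nonneg_left (x.le_opNorm _) (norm_nonneg _))
  have h2 : ‖⟪q, x (p - q)⟫_ℂ‖ ≤ ‖q‖ * (‖x‖ * ‖p - q‖) :=
    (norm_inner_le_norm _ _).trans (mul_le_mul_of_nonneg_left (x.le_opNorm _) (norm_nonneg _))
  nlinarith

/-- the state is almost invariant under the partial isometry -/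
theorem est (hJ : IsConj M Ω U J) (hΩ : ‖Ω‖ = 1) {f w : H →L[ℂ] H} (hfs : star f = f)
    (hJf : J (f Ω) = f Ω) (hw : w ∈ M) (hpi : w * star w * w = w) {ε : ℝ} (hε : 0 ≤ ε)
    (h1 : ‖J (star w Ω) - w Ω‖ ≤ ε) (h2 : ‖f Ω - w (star w Ω)‖ ≤ ε) {y : H →L[ℂ] H} (hy : y ∈ M)
    (hyn : ‖y‖ ≤ 1) (hfy : f * y = y) : ‖⟪w Ω, y (w Ω)⟫_ℂ - ⟪Ω, y Ω⟫_ℂ‖ ≤ 3 * ε := by
  have hwn : ‖w‖ ≤ 1 := pi_norm_le hpi
  have hwΩ : ‖w Ω‖ ≤ 1 := by
    calc ‖w Ω‖ ≤ ‖w‖ * ‖Ω‖ := w.le_opNorm _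
      _ ≤ 1 := by rw [hΩ, mul_one]; exact hwn
  have hJw : ‖J (star w Ω)‖ ≤ 1 := by
    rw [J_norm hJ]
    calc ‖star w Ω‖ ≤ ‖star w‖ * ‖Ω‖ := (star w).le_opNorm _
      _ ≤ 1 := by rw [hΩ, mul_one, norm_star]; exact hwn
  have a1 : ‖⟪w Ω, y (w Ω)⟫_ℂ - ⟪J (star w Ω), y (J (star w Ω))⟫_ℂ‖ ≤ 2 * ε := by
    refine (quad_diff y _ _).trans ?_
    rw [norm_sub_rev (w Ω)]
    have h3 : ‖y‖ * ‖J (star w Ω) - w Ω‖ ≤ 1 * ε :=
      mul_le_mul hyn h1 (norm_nonneg _) zero_le_one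
    calc ‖y‖ * ‖J (star w Ω) - w Ω‖ * (‖w Ω‖ + ‖J (star w Ω)‖) ≤ (1 * ε) * (1 + 1) :=
          mul_le_mul h3 (add_le_add hwΩ hJw) (by positivity) (by positivity)
      _ = 2 * ε := by ring
  have a2 : ⟪J (star w Ω), y (J (star w Ω))⟫_ℂ = ⟪J (w (star w Ω)), y Ω⟫_ℂ := by
    have e1 : y (J (star w Ω)) = J (star w (J (y Ω))) := by
      have h3 := hJ.comm y (star w) hy (star_mem hw) Ω
      rwa [hJ.fix] at h3
    rw [e1, hJ.inner, ins1, star_star]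
    have h4 := hJ.inner (w (star w Ω)) (J (y Ω))
    rw [hJ.inv] at h4
    exact h4.symm
  have a3 : ⟪J (f Ω), y Ω⟫_ℂ = ⟪Ω, y Ω⟫_ℂ := by
    rw [hJf, ins1, hfs]
    have h3 : f (y Ω) = y Ω := congrArg (fun T : H →L[ℂ] H => T Ω) hfy
    rw [h3]
  have a4 : ‖⟪J (w (star w Ω)), y Ω⟫_ℂ - ⟪J (f Ω), y Ω⟫_ℂ‖ ≤ ε := by
    rw [← inner_sub_left, ← J_sub hJ]
    refine (norm_inner_le_norm _ _).trans ?_
    rw [J_norm hJ, norm_sub_rev]
    have h3 : ‖y Ω‖ ≤ 1 := by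
      calc ‖y Ω‖ ≤ ‖y‖ * ‖Ω‖ := y.le_opNorm _
        _ ≤ 1 := by rw [hΩ, mul_one]; exact hyn
    calc ‖f Ω - w (star w Ω)‖ * ‖y Ω‖ ≤ ε * 1 := mul_le_mul h2 h3 (norm_nonneg _) hε
      _ = ε := mul_one _
  have e : ⟪w Ω, y (w Ω)⟫_ℂ - ⟪Ω, y Ω⟫_ℂ =
      (⟪w Ω, y (w Ω)⟫_ℂ - ⟪J (star w Ω), y (J (star w Ω))⟫_ℂ) +
      (⟪J (w (star w Ω)), y Ω⟫_ℂ - ⟪J (f Ω), y Ω⟫_ℂ) := by
    rw [a2, a3]; ring
  rw [e]
  refine (norm_add_le _ _).trans ?_
  linarith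

theorem app2 {A B C : H →L[ℂ] H} (h : A * B = C) (v : H) : A (B v) = C v :=
  congrArg (fun T : H →L[ℂ] H => T v) h

theorem inner_le {x : H →L[ℂ] H} (hx : ‖x‖ ≤ 1) {v : H} (hv : ‖v‖ = 1) : ‖⟪v, x v⟫_ℂ‖ ≤ 1 := by
  refine (norm_inner_le_norm _ _).trans ?_
  rw [hv, one_mul]
  calc ‖x v‖ ≤ ‖x‖ * ‖v‖ := x.le_opNorm _
    _ ≤ 1 := by rw [hv, mul_one]; exact hx

theorem mix {δ : ℝ} (hδ : 0 ≤ δ) {s p q : ℂ} (hs : 2 * s = ((1 - δ : ℝ) : ℂ) * p + (δ : ℂ) * q)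
    (hp : ‖p‖ ≤ 1) (hq : ‖q‖ ≤ 1) : ‖p - 2 * s‖ ≤ 2 * δ := by
  have e : p - 2 * s = (δ : ℂ) * (p - q) := by
    rw [hs]; push_cast; ring
  rw [e, norm_mul, Complex.norm_real, Real.norm_of_nonneg hδ]
  have : ‖p - q‖ ≤ 2 := (norm_sub_le _ _).trans (by linarith)
  nlinarith

end main

theorem r (h1 : S_exh) (h2 : S_TT) (h3 : S_conj) (h4 : S_comm) (h5 : S_cent) : S_hom1 := by
  intro H _ _ _ M ξ hcyc hsep hIII η ζ hη hζ ε hε
  obtain ⟨U, hU⟩ := h2 H M ξ hcyc hsep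
  obtain ⟨J, hJ⟩ := h3 H M ξ U hU hcyc
  have hm : Mod M ξ U J := ⟨hcyc, hsep, hU, hJ⟩
  obtain ⟨a, b, hc⟩ := exists_cz hIII
  have h1ne := one_ne hIII
  have hξ0 : ξ ≠ 0 := by
    intro h0
    exact h1ne (hsep 1 (one_mem M) (by rw [h0, map_zero]))
  have hξn : 0 < ‖ξ‖ := norm_pos_iff.2 hξ0
  obtain ⟨ξ₁, hξ₁⟩ : ∃ ξ₁ : H, ξ₁ = ((‖ξ‖⁻¹ : ℝ) : ℂ) • ξ := ⟨_, rfl⟩
  have hξ₁n : ‖ξ₁‖ = 1 := by
    rw [hξ₁, norm_smul, Complex.norm_real, Real.norm_of_nonneg (by positivity)]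
    exact inv_mul_cancel₀ hξn.ne'
  have hξ₁s : ∀ x : H →L[ℂ] H, x ∈ M → x ξ₁ = 0 → x = 0 := by
    intro x hx h0
    apply hsep x hx
    rw [hξ₁, map_smul] at h0
    refine (smul_eq_zero.1 h0).resolve_left ?_
    exact_mod_cast (inv_ne_zero hξn.ne')
  obtain ⟨δ, hδ, hδ1, hδε⟩ : ∃ δ : ℝ, 0 < δ ∧ δ ≤ 1 / 2 ∧ δ ≤ ε / 8 :=
    ⟨min (1 / 2) (ε / 8), by positivity, min_le_left _ _, min_le_right _ _⟩
  obtain ⟨ε₁, hε₁, hε₁1, hε₁ε⟩ : ∃ ε₁ : ℝ, 0 < ε₁ ∧ ε₁ ≤ 1 / 2 ∧ ε₁ ≤ ε / 28 :=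
    ⟨min (1 / 2) (ε / 28), by positivity, min_le_left _ _, min_le_right _ _⟩
  obtain ⟨α, hα, hα2⟩ : ∃ α : ℝ, 0 < α ∧ α * α = (1 - δ) / 2 :=
    ⟨Real.sqrt ((1 - δ) / 2), Real.sqrt_pos.2 (by linarith), Real.mul_self_sqrt (by linarith)⟩
  obtain ⟨β, hβ, hβ2⟩ : ∃ β : ℝ, 0 < β ∧ β * β = δ / 2 :=
    ⟨Real.sqrt (δ / 2), Real.sqrt_pos.2 (by linarith), Real.mul_self_sqrt (by linarith)⟩
  have hsm : ∀ (c : ℝ) (v : H) (x : H →L[ℂ] H), ⟪(c : ℂ) • v, x ((c : ℂ) • v)⟫_ℂ =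
      ((c * c : ℝ) : ℂ) * ⟪v, x v⟫_ℂ := by
    intro c v x
    rw [map_smul, inner_smul_left, inner_smul_right, Complex.conj_ofReal]
    push_cast
    ring
  -- the vector
  obtain ⟨Ω, hΩc, hΩs, hΩ'⟩ := rep hm h4 hIII 4
    ![(α : ℂ) • a η, (β : ℂ) • a ξ₁, (α : ℂ) • b ζ, (β : ℂ) • b ξ₁] (by
      intro x hx h0
      have ha : x * a = 0 := by
        apply hξ₁s _ (mul_mem hx hc.ma)
        have h6 : x ((β : ℂ) • a ξ₁) = 0 := h0 1
        rw [map_smul] at h6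
        exact (smul_eq_zero.1 h6).resolve_left (by exact_mod_cast hβ.ne')
      have hb : x * b = 0 := by
        apply hξ₁s _ (mul_mem hx hc.mb)
        have h6 : x ((β : ℂ) • b ξ₁) = 0 := h0 3
        rw [map_smul] at h6
        exact (smul_eq_zero.1 h6).resolve_left (by exact_mod_cast hβ.ne')
      calc x = x * (a * star a + b * star b) := by rw [hc.sum, mul_one]
        _ = (x * a) * star a + (x * b) * star b := by rw [mul_add, mul_assoc, mul_assoc]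
        _ = 0 := by rw [ha, hb, zero_mul, zero_mul, add_zero])
  have hΩ : ∀ x : H →L[ℂ] H, x ∈ M → ⟪Ω, x Ω⟫_ℂ =
      (((1 - δ) / 2 : ℝ) : ℂ) * ⟪a η, x (a η)⟫_ℂ + ((δ / 2 : ℝ) : ℂ) * ⟪a ξ₁, x (a ξ₁)⟫_ℂ +
      (((1 - δ) / 2 : ℝ) : ℂ) * ⟪b ζ, x (b ζ)⟫_ℂ + ((δ / 2 : ℝ) : ℂ) * ⟪b ξ₁, x (b ξ₁)⟫_ℂ := by
    intro x hx
    rw [hΩ' x hx, Fin.sum_univ_four]
    show ⟪(α : ℂ) • a η, x ((α : ℂ) • a η)⟫_ℂ + ⟪(β : ℂ) • a ξ₁, x ((β : ℂ) • a ξ₁)⟫_ℂ +
      ⟪(α : ℂ) • b ζ, x ((α : ℂ) • b ζ)⟫_ℂ + ⟪(β : ℂ) • b ξ₁, x ((β : ℂ) • b ξ₁)⟫_ℂ = _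
    rw [hsm, hsm, hsm, hsm, hα2, hβ2]
  clear hΩ'
  have hself : ∀ v : H, ‖v‖ = 1 → ⟪v, v⟫_ℂ = 1 := by
    intro v hv
    rw [inner_self_eq_norm_sq_to_K, hv]
    norm_num
  -- the operators
  have hsa := star_mem hc.ma
  have hsb := star_mem hc.mb
  set e : H →L[ℂ] H := a * star a with he
  set f : H →L[ℂ] H := b * star b with hf
  have hea : e * a = a := by rw [he, mul_assoc, hc.ia, mul_one]
  have hfb : f * b = b := by rw [hf, mul_assoc, hc.ib, mul_one]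
  have heb : e * b = 0 := by rw [he, mul_assoc, hc.ab, mul_zero]
  have hfa : f * a = 0 := by rw [hf, mul_assoc, hc.ba, mul_zero]
  have hes : star e = e := by rw [he, star_mul, star_star]
  have hfs : star f = f := by rw [hf, star_mul, star_star]
  have hsae : star a * e = star a := by
    have := congrArg star hea
    rwa [star_mul, hes] at this
  have hsbf : star b * f = star b := by
    have := congrArg star hfb
    rwa [star_mul, hfs] at this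
  have hef : e * f = 0 := by rw [hf, ← mul_assoc, heb, zero_mul]
  have hee : e * e = e := by
    calc e * e = (e * a) * star a := by rw [he]; simp only [mul_assoc]
      _ = e := by rw [hea]
  have hff : f * f = f := by
    calc f * f = (f * b) * star b := by rw [hf]; simp only [mul_assoc]
      _ = f := by rw [hfb]
  have he1 : e + f = 1 := hc.sum
  have hPe : IsPr M e := ⟨mul_mem hc.ma hsa, hee, hes⟩
  have hPf : IsPr M f := ⟨mul_mem hc.mb hsb, hff, hfs⟩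
  -- the norms
  have hn1 : ‖Ω‖ = 1 := by
    have h6 := hΩ 1 (one_mem M)
    have h7 : ∀ v : H, (1 : H →L[ℂ] H) v = v := fun _ => rfl
    simp only [h7] at h6
    rw [hself (a η) (by rw [iso_norm hc.ia, hη]), hself (a ξ₁) (by rw [iso_norm hc.ia, hξ₁n]),
      hself (b ζ) (by rw [iso_norm hc.ib, hζ]), hself (b ξ₁) (by rw [iso_norm hc.ib, hξ₁n])] at h6
    have h10 : ((‖Ω‖ ^ 2 : ℝ) : ℂ) = ⟪Ω, Ω⟫_ℂ := by
      rw [inner_self_eq_norm_sq_to_K]; norm_cast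
    have h8 : ((‖Ω‖ ^ 2 : ℝ) : ℂ) = ((1 : ℝ) : ℂ) := by
      rw [h10, h6]
      push_cast
      ring
    have h9 : ‖Ω‖ ^ 2 = 1 := by exact_mod_cast h8
    exact (pow_eq_one_iff_of_nonneg (norm_nonneg _) two_ne_zero).1 h9
  have hne : ‖e Ω‖ ^ 2 = 1 / 2 := by
    have h6 := hΩ e hPe.mem
    have h7 : ⟪Ω, e Ω⟫_ℂ = ((‖e Ω‖ ^ 2 : ℝ) : ℂ) := by
      have h8 : e (e Ω) = e Ω := app2 hee Ω
      calc ⟪Ω, e Ω⟫_ℂ = ⟪Ω, e (e Ω)⟫_ℂ := by rw [h8]
        _ = ⟪e Ω, e Ω⟫_ℂ := by rw [ins2, hes]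
        _ = _ := by rw [inner_self_eq_norm_sq_to_K]; norm_cast
    rw [h7, app2 hea, app2 hea, app2 heb, app2 heb, hself (a η) (by rw [iso_norm hc.ia, hη]),
      hself (a ξ₁) (by rw [iso_norm hc.ia, hξ₁n])] at h6
    have h8 : ((‖e Ω‖ ^ 2 : ℝ) : ℂ) = ((1 / 2 : ℝ) : ℂ) := by
      rw [h6]
      show _ + (((1 - δ) / 2 : ℝ) : ℂ) * ⟪b ζ, (0 : H)⟫_ℂ + ((δ / 2 : ℝ) : ℂ) * ⟪b ξ₁, (0 : H)⟫_ℂ = _
      rw [inner_zero_right, inner_zero_right]
      push_cast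
      ring
    exact_mod_cast h8
  have hnf : ‖f Ω‖ ^ 2 = 1 / 2 := by
    have h6 := hΩ f hPf.mem
    have h7 : ⟪Ω, f Ω⟫_ℂ = ((‖f Ω‖ ^ 2 : ℝ) : ℂ) := by
      have h8 : f (f Ω) = f Ω := app2 hff Ω
      calc ⟪Ω, f Ω⟫_ℂ = ⟪Ω, f (f Ω)⟫_ℂ := by rw [h8]
        _ = ⟪f Ω, f Ω⟫_ℂ := by rw [ins2, hfs]
        _ = _ := by rw [inner_self_eq_norm_sq_to_K]; norm_cast
    rw [h7, app2 hfb, app2 hfb, app2 hfa, app2 hfa, hself (b ζ) (by rw [iso_norm hc.ib, hζ]),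
      hself (b ξ₁) (by rw [iso_norm hc.ib, hξ₁n])] at h6
    have h8 : ((‖f Ω‖ ^ 2 : ℝ) : ℂ) = ((1 / 2 : ℝ) : ℂ) := by
      rw [h6]
      show (((1 - δ) / 2 : ℝ) : ℂ) * ⟪a η, (0 : H)⟫_ℂ + ((δ / 2 : ℝ) : ℂ) * ⟪a ξ₁, (0 : H)⟫_ℂ + _ + _ = _
      rw [inner_zero_right, inner_zero_right]
      push_cast
      ring
    exact_mod_cast h8
  -- modular data of `Ω`
  obtain ⟨U', hU'⟩ := h2 H M Ω hΩc hΩs
  obtain ⟨J', hJ'⟩ := h3 H M Ω U' hU' hΩc
  have hm' : Mod M Ω U' J' := ⟨hΩc, hΩs, hU', hJ'⟩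
  have hcent : ∀ x : H →L[ℂ] H, x ∈ M → vst Ω (e * x) = vst Ω (x * e) := by
    intro x hx
    unfold vst
    rw [hΩ _ (mul_mem hPe.mem hx), hΩ _ (mul_mem hx hPe.mem)]
    have k1 : ∀ v : H, ⟪a v, (e * x) (a v)⟫_ℂ = ⟪a v, (x * e) (a v)⟫_ℂ := by
      intro v
      show ⟪a v, e (x (a v))⟫_ℂ = ⟪a v, x (e (a v))⟫_ℂ
      rw [ins2, hes, app2 hea]
    have k2 : ∀ v : H, ⟪b v, (e * x) (b v)⟫_ℂ = ⟪b v, (x * e) (b v)⟫_ℂ := by
      intro v
      show ⟪b v, e (x (b v))⟫_ℂ = ⟪b v, x (e (b v))⟫_ℂ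
      rw [ins2, hes, app2 heb]
      show ⟪(0 : H), _⟫_ℂ = ⟪b v, x 0⟫_ℂ
      rw [inner_zero_left, map_zero, inner_zero_right]
    rw [k1, k1, k2, k2]
  have hJe : J' (e Ω) = e Ω := h5 H M Ω U' J' hm' e hPe hcent
  have hfΩ : f Ω = Ω - e Ω := by
    have h6 : (e + f) Ω = (1 : H →L[ℂ] H) Ω := by rw [he1]
    have h7 : e Ω + f Ω = Ω := h6
    exact eq_sub_of_add_eq' h7
  have hJf : J' (f Ω) = f Ω := by rw [hfΩ, J_sub hJ', hJ'.fix, hJe]
  have hnef : ‖e Ω‖ = ‖f Ω‖ :=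
    (pow_left_inj₀ (norm_nonneg _) (norm_nonneg _) two_ne_zero).1 (hne.trans hnf.symm)
  obtain ⟨w, hw, hfwe, hpi, hw1, hw2, hw3⟩ :=
    h1 H M Ω U' J' hm' hIII hn1 e f hPe hPf hef he1 hJe hnef ε₁ hε₁
  have hwe : w * e = w := by
    calc w * e = (f * w * e) * e := by rw [hfwe]
      _ = f * w * (e * e) := by rw [mul_assoc]
      _ = w := by rw [hee, hfwe]
  have hfw : f * w = w := by
    calc f * w = f * (f * w * e) := by rw [hfwe]
      _ = (f * f) * w * e := by simp only [mul_assoc]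
      _ = w := by rw [hff, hfwe]
  have hews : e * star w = star w := by
    have := congrArg star hwe
    rwa [star_mul, hes] at this
  have hwsf : star w * f = star w := by
    have := congrArg star hfw
    rwa [star_mul, hfs] at this
  -- the partial isometry
  set u₀ : H →L[ℂ] H := star b * w * a with hu₀
  have hu₀M : u₀ ∈ M := mul_mem (mul_mem hsb hw) hc.ma
  have hu₀s : star u₀ = star a * star w * b := by
    rw [hu₀, star_mul, star_mul, star_star, mul_assoc]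
  have hu₀u : star u₀ * u₀ = star a * (star w * w) * a := by
    rw [hu₀s, hu₀]
    calc star a * star w * b * (star b * w * a) = star a * (star w * (b * star b)) * w * a := by
          simp only [mul_assoc]
      _ = star a * (star w * w) * a := by rw [← hf, hwsf]; simp only [mul_assoc]
  have hu₀pi : u₀ * star u₀ * u₀ = u₀ := by
    rw [mul_assoc, hu₀u, hu₀]
    calc star b * w * a * (star a * (star w * w) * a) =
          star b * (w * (a * star a)) * (star w * w) * a := by simp only [mul_assoc]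
      _ = star b * (w * star w * w) * a := by rw [← he, hwe]; simp only [mul_assoc]
      _ = star b * w * a := by rw [hpi]
  have hu₀0 : u₀ ≠ 0 := by
    intro h0
    have h6 : b * u₀ * star a = w := by
      rw [hu₀]
      calc b * (star b * w * a) * star a = (b * star b) * w * (a * star a) := by
            simp only [mul_assoc]
        _ = w := by rw [← hf, ← he, hfwe]
    rw [h0, mul_zero, zero_mul] at h6
    rw [← h6] at hw2
    have h7 : e Ω - star (0 : H →L[ℂ] H) ((0 : H →L[ℂ] H) Ω) = e Ω := by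
      rw [star_zero]
      show e Ω - 0 = e Ω
      rw [sub_zero]
    rw [h7] at hw2
    have h8 : ‖e Ω‖ ^ 2 ≤ (1 / 2) ^ 2 := pow_le_pow_left₀ (norm_nonneg _) (hw2.trans hε₁1) 2
    rw [hne] at h8
    norm_num at h8
  obtain ⟨χ, hχ⟩ : ∃ χ : H, χ = star a Ω := ⟨_, rfl⟩
  have hsan : ‖star a‖ ≤ 1 := by rw [norm_star]; exact pi_norm_le (iso_pi hc.ia)
  have hsbn : ‖star b‖ ≤ 1 := by rw [norm_star]; exact pi_norm_le (iso_pi hc.ib)
  have hbn : ‖b‖ ≤ 1 := pi_norm_le (iso_pi hc.ib)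
  have hχn : ‖χ‖ ≤ 1 := by
    rw [hχ]
    calc ‖star a Ω‖ ≤ ‖star a‖ * ‖Ω‖ := (star a).le_opNorm _
      _ ≤ 1 := by rw [hn1, mul_one]; exact hsan
  obtain ⟨u, hu, hu1, hu2, hu3⟩ := ext_uni hc hIII.equiv hu₀M hu₀pi hu₀0 h1ne χ hε₁
  have hdef : ‖χ - star u₀ (u₀ χ)‖ ≤ ε₁ := by
    have h6 : star u₀ (u₀ χ) = star a (star w (w Ω)) := by
      have h7 : star u₀ (u₀ χ) = (star a * (star w * w) * a) (star a Ω) := by
        rw [← hu₀u, hχ]; rfl
      rw [h7]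
      have h8 : (star a * (star w * w) * a) * star a = star a * star w * w := by
        calc (star a * (star w * w) * a) * star a = star a * star w * (w * (a * star a)) := by
              simp only [mul_assoc]
          _ = star a * star w * w := by rw [← he, hwe]
      exact app2 h8 Ω
    have h9 : χ = star a (e Ω) := by
      rw [hχ]
      exact (app2 hsae Ω).symm
    rw [h6, h9, ← map_sub]
    calc ‖star a (e Ω - star w (w Ω))‖ ≤ ‖star a‖ * ‖e Ω - star w (w Ω)‖ := (star a).le_opNorm _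
      _ ≤ 1 * ε₁ := mul_le_mul hsan hw2 (norm_nonneg _) zero_le_one
      _ = ε₁ := one_mul _
  have hclose : ‖u χ - u₀ χ‖ ≤ 2 * ε₁ := by linarith
  -- the formulas for the corners
  have hω₁ : ∀ y : H →L[ℂ] H, y ∈ M → 2 * ⟪χ, y χ⟫_ℂ =
      ((1 - δ : ℝ) : ℂ) * ⟪η, y η⟫_ℂ + (δ : ℂ) * ⟪ξ₁, y ξ₁⟫_ℂ := by
    intro y hy
    have h6 := hΩ (a * y * star a) (mul_mem (mul_mem hc.ma hy) hsa)
    have k0 : ⟪Ω, (a * y * star a) Ω⟫_ℂ = ⟪χ, y χ⟫_ℂ := by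
      show ⟪Ω, a (y (star a Ω))⟫_ℂ = _
      rw [ins2, hχ]
    have k1 : ∀ v : H, ⟪a v, (a * y * star a) (a v)⟫_ℂ = ⟪v, y v⟫_ℂ := by
      intro v
      show ⟪a v, a (y (star a (a v)))⟫_ℂ = _
      rw [ins1, app2 hc.ia, app2 hc.ia]
      rfl
    have k2 : ∀ v : H, ⟪b v, (a * y * star a) (b v)⟫_ℂ = 0 := by
      intro v
      show ⟪b v, a (y (star a (b v)))⟫_ℂ = _
      rw [app2 hc.ab]
      show ⟪b v, a (y 0)⟫_ℂ = 0
      rw [map_zero, map_zero, inner_zero_right]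
    rw [k0, k1, k1, k2, k2] at h6
    rw [h6]
    push_cast
    ring
  have hω₂ : ∀ y : H →L[ℂ] H, y ∈ M → 2 * ⟪star b Ω, y (star b Ω)⟫_ℂ =
      ((1 - δ : ℝ) : ℂ) * ⟪ζ, y ζ⟫_ℂ + (δ : ℂ) * ⟪ξ₁, y ξ₁⟫_ℂ := by
    intro y hy
    have h6 := hΩ (b * y * star b) (mul_mem (mul_mem hc.mb hy) hsb)
    have k0 : ⟪Ω, (b * y * star b) Ω⟫_ℂ = ⟪star b Ω, y (star b Ω)⟫_ℂ := by
      show ⟪Ω, b (y (star b Ω))⟫_ℂ = _
      rw [ins2]
    have k1 : ∀ v : H, ⟪b v, (b * y * star b) (b v)⟫_ℂ = ⟪v, y v⟫_ℂ := by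
      intro v
      show ⟪b v, b (y (star b (b v)))⟫_ℂ = _
      rw [ins1, app2 hc.ib, app2 hc.ib]
      rfl
    have k2 : ∀ v : H, ⟪a v, (b * y * star b) (a v)⟫_ℂ = 0 := by
      intro v
      show ⟪a v, b (y (star b (a v)))⟫_ℂ = _
      rw [app2 hc.ba]
      show ⟪a v, b (y 0)⟫_ℂ = 0
      rw [map_zero, map_zero, inner_zero_right]
    rw [k0, k1, k1, k2, k2] at h6
    rw [h6]
    push_cast
    ring
  refine ⟨u, hu, hu1, hu2, ?_⟩
  intro x hx hxn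
  have hun : ‖u‖ ≤ 1 := pi_norm_le (iso_pi hu1)
  have hus : ‖star u‖ ≤ 1 := by rw [norm_star]; exact hun
  have hyM : star u * x * u ∈ M := mul_mem (mul_mem (star_mem hu) hx) hu
  have hyn : ‖star u * x * u‖ ≤ 1 := by
    calc ‖star u * x * u‖ ≤ ‖star u * x‖ * ‖u‖ := norm_mul_le _ _
      _ ≤ (‖star u‖ * ‖x‖) * ‖u‖ := mul_le_mul_of_nonneg_right (norm_mul_le _ _) (norm_nonneg _)
      _ ≤ (1 * 1) * 1 := by gcongr
      _ = 1 := by norm_num
  have p1 : ∀ v : H, ⟪u v, x (u v)⟫_ℂ = ⟪v, (star u * x * u) v⟫_ℂ := by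
    intro v
    rw [ins1]
    rfl
  have b1 : ‖⟪u η, x (u η)⟫_ℂ - 2 * ⟪u χ, x (u χ)⟫_ℂ‖ ≤ 2 * δ := by
    rw [p1, p1]
    exact mix hδ.le (hω₁ _ hyM) (inner_le hyn hη) (inner_le hyn hξ₁n)
  have huχ : ‖u χ‖ ≤ 1 := by rw [iso_norm hu1]; exact hχn
  have hu₀n : ‖u₀‖ ≤ 1 := pi_norm_le hu₀pi
  have hu₀χ : ‖u₀ χ‖ ≤ 1 := by
    calc ‖u₀ χ‖ ≤ ‖u₀‖ * ‖χ‖ := u₀.le_opNorm _
      _ ≤ 1 * 1 := mul_le_mul hu₀n hχn (norm_nonneg _) zero_le_one
      _ = 1 := by norm_num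
  have b2 : ‖⟪u χ, x (u χ)⟫_ℂ - ⟪u₀ χ, x (u₀ χ)⟫_ℂ‖ ≤ 4 * ε₁ := by
    refine (quad_diff x _ _).trans ?_
    calc ‖x‖ * ‖u χ - u₀ χ‖ * (‖u χ‖ + ‖u₀ χ‖) ≤ 1 * (2 * ε₁) * (1 + 1) := by gcongr
      _ = 4 * ε₁ := by ring
  have b3 : ‖⟪u₀ χ, x (u₀ χ)⟫_ℂ - ⟪star b Ω, x (star b Ω)⟫_ℂ‖ ≤ 3 * ε₁ := by
    have h6 : u₀ χ = star b (w Ω) := by
      rw [hχ]
      have h8 : u₀ * star a = star b * w := by
        rw [hu₀]
        calc star b * w * a * star a = star b * (w * (a * star a)) := by simp only [mul_assoc]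
          _ = star b * w := by rw [← he, hwe]
      exact app2 h8 Ω
    have h7 : ⟪u₀ χ, x (u₀ χ)⟫_ℂ = ⟪w Ω, (b * x * star b) (w Ω)⟫_ℂ := by
      rw [h6, ins1, star_star]
      rfl
    have h8 : ⟪star b Ω, x (star b Ω)⟫_ℂ = ⟪Ω, (b * x * star b) Ω⟫_ℂ := by
      rw [ins1, star_star]
      rfl
    rw [h7, h8]
    refine est hJ' hn1 hfs hJf hw hpi hε₁.le hw1 hw3 (mul_mem (mul_mem hc.mb hx) hsb) ?_ ?_
    · calc ‖b * x * star b‖ ≤ ‖b * x‖ * ‖star b‖ := norm_mul_le _ _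
        _ ≤ (‖b‖ * ‖x‖) * ‖star b‖ :=
            mul_le_mul_of_nonneg_right (norm_mul_le _ _) (norm_nonneg _)
        _ ≤ (1 * 1) * 1 := by gcongr
        _ = 1 := by norm_num
    · calc f * (b * x * star b) = (f * b) * x * star b := by simp only [mul_assoc]
        _ = b * x * star b := by rw [hfb]
  have b4 : ‖⟪ζ, x ζ⟫_ℂ - 2 * ⟪star b Ω, x (star b Ω)⟫_ℂ‖ ≤ 2 * δ :=
    mix hδ.le (hω₂ x hx) (inner_le hxn hζ) (inner_le hxn hξ₁n)
  have e9 : ⟪u η, x (u η)⟫_ℂ - ⟪ζ, x ζ⟫_ℂ =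
      (⟪u η, x (u η)⟫_ℂ - 2 * ⟪u χ, x (u χ)⟫_ℂ) +
      2 * (⟪u χ, x (u χ)⟫_ℂ - ⟪u₀ χ, x (u₀ χ)⟫_ℂ) +
      2 * (⟪u₀ χ, x (u₀ χ)⟫_ℂ - ⟪star b Ω, x (star b Ω)⟫_ℂ) -
      (⟪ζ, x ζ⟫_ℂ - 2 * ⟪star b Ω, x (star b Ω)⟫_ℂ) := by ring
  rw [e9]
  refine (norm_sub_le _ _).trans ?_
  have q1 := norm_add_le ((⟪u η, x (u η)⟫_ℂ - 2 * ⟪u χ, x (u χ)⟫_ℂ) +
      2 * (⟪u χ, x (u χ)⟫_ℂ - ⟪u₀ χ, x (u₀ χ)⟫_ℂ))
      (2 * (⟪u₀ χ, x (u₀ χ)⟫_ℂ - ⟪star b Ω, x (star b Ω)⟫_ℂ))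
  have q2 := norm_add_le (⟪u η, x (u η)⟫_ℂ - 2 * ⟪u χ, x (u χ)⟫_ℂ)
      (2 * (⟪u χ, x (u χ)⟫_ℂ - ⟪u₀ χ, x (u₀ χ)⟫_ℂ))
  have q3 : ‖2 * (⟪u χ, x (u χ)⟫_ℂ - ⟪u₀ χ, x (u₀ χ)⟫_ℂ)‖ ≤ 8 * ε₁ := by
    rw [norm_mul, Complex.norm_ofNat]
    linarith
  have q4 : ‖2 * (⟪u₀ χ, x (u₀ χ)⟫_ℂ - ⟪star b Ω, x (star b Ω)⟫_ℂ)‖ ≤ 6 * ε₁ := by
    rw [norm_mul, Complex.norm_ofNat]
    linarith
  linarith

end Pool.Agent.H255.BC.C_hom1
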