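import Pool.Agent.H255.BC.Defs6
import Pool.Agent.H255.BC.P_ps

set_option autoImplicit false

open MeasureTheory Filter Topology Complex
open scoped InnerProductSpace ENNReal FourierTransform

namespace Pool.Agent.H255.BC.C_pnc

open Pool.Agent.W662.CB Pool.Agent.H255.BC

section aux

variable {H : Type} [NormedAddCommGroup H] [InnerProductSpace ℂ H] [CompleteSpace H]
  {M : VonNeumannAlgebra H} {ξ : H} {U : ℝ → H →L[ℂ] H} {J : H → H}

theorem cone_add (hJ : IsConj M ξ U J) {v w : H} (hv : v ∈ cone M ξ J) (hw : w ∈ cone M ξ J) :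
    v + w ∈ cone M ξ J := by
  have h1 := T_ps.cone_convex hJ hv hw (show (0 : ℝ) ≤ 1 / 2 by norm_num)
    (show (0 : ℝ) ≤ 1 / 2 by norm_num) (by norm_num)
  have h2 := T_ps.cone_smul hJ h1 (show (0 : ℝ) ≤ 2 by norm_num)
  have h3 : (2 : ℝ) • ((1 / 2 : ℝ) • v + (1 / 2 : ℝ) • w) = v + w := by
    rw [smul_add, smul_smul, smul_smul]
    norm_num
  rwa [h3] at h2

/-- the corner -/
def Te (J : H → H) (e : H →L[ℂ] H) (v : H) : H := e (J (e (J v)))

theorem Te_comm (hJ : IsConj M ξ U J) {x e : H →L[ℂ] H} (hx : x ∈ M) (he : e ∈ M)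
    (hxe : x * e = e * x) (v : H) : x (Te J e v) = Te J e (x v) := by
  unfold Te
  have h1 : x (e (J (e (J v)))) = e (x (J (e (J v)))) := by
    change (x * e) _ = (e * x) _
    rw [hxe]
  rw [h1, hJ.comm x e hx he]

theorem Te_J (hJ : IsConj M ξ U J) {e : H →L[ℂ] H} (he : e ∈ M) {v : H} (hv : J v = v) :
    J (Te J e v) = Te J e v := by
  unfold Te
  conv_lhs => rw [hJ.comm e e he he, hJ.inv]
  rw [hv]

theorem Te_self {e : H →L[ℂ] H} (he : IsPr M e) (v : H) : e (Te J e v) = Te J e v := by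
  unfold Te
  change (e * e) _ = _
  rw [he.idem]

theorem Te_ne {e f : H →L[ℂ] H} (hef : e * f = 0) (v : H) : e (Te J f v) = 0 := by
  unfold Te
  change (e * f) _ = _
  rw [hef]
  rfl

theorem adj (e : H →L[ℂ] H) (he : star e = e) (v w : H) : ⟪e v, w⟫_ℂ = ⟪v, e w⟫_ℂ := by
  rw [T_ps.adj_l, he]

theorem adj' (hJ : IsConj M ξ U J) (e : H →L[ℂ] H) (he : star e = e) (v w : H) :
    ⟪J (e (J v)), w⟫_ℂ = ⟪v, J (e (J w))⟫_ℂ := by
  have h1 : ⟪J (e (J v)), w⟫_ℂ = ⟪J w, e (J v)⟫_ℂ := by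
    conv_lhs => rw [← hJ.inv w]
    rw [hJ.inner]
  have h2 : ⟪v, J (e (J w))⟫_ℂ = ⟪e (J w), J v⟫_ℂ := by
    conv_lhs => rw [← hJ.inv v]
    rw [hJ.inner]
  rw [h1, h2, adj e he]

theorem Te_inner (hJ : IsConj M ξ U J) {e : H →L[ℂ] H} (he : IsPr M e) (v : H) :
    ⟪Te J e v, v⟫_ℂ = ⟪Te J e v, Te J e v⟫_ℂ := by
  have h1 : ⟪Te J e v, Te J e v⟫_ℂ = ⟪Te J e (Te J e v), v⟫_ℂ := by
    have h2 : ∀ w : H, ⟪w, Te J e v⟫_ℂ = ⟪Te J e w, v⟫_ℂ := by
      intro w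
      unfold Te
      rw [← adj e he.sa, ← adj' hJ e he.sa, hJ.comm e e he.mem he.mem]
    rw [h2]
  rw [h1]
  congr 1
  -- idempotent
  unfold Te
  have h3 : J (e (J (e (J (e (J v)))))) = e (J (e (J v))) := by
    rw [← hJ.comm e e he.mem he.mem (J (e (J v))), hJ.inv]
    change e (J ((e * e) (J v))) = _
    rw [he.idem]
  rw [h3]
  change _ = (e * e) _
  rw [he.idem]

end aux

theorem r (h : S_sepz) : S_pnc := by
  intro H _ _ _ M ξ U J hM ζ hζ hsep p q r hp hq hr hpq hpr hqr hsum ζ' hζ'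
  have hJ := hM.conj
  have hJζ := T_ps.cone_J hJ hζ
  have hqp : q * p = 0 := by
    have := congrArg star hpq
    rwa [star_mul, hp.sa, hq.sa, star_zero] at this
  have hrp : r * p = 0 := by
    have := congrArg star hpr
    rwa [star_mul, hp.sa, hr.sa, star_zero] at this
  have hrq : r * q = 0 := by
    have := congrArg star hqr
    rwa [star_mul, hq.sa, hr.sa, star_zero] at this
  have hζ2 : ζ' = Te J p ζ + Te J q ζ + Te J r ζ := hζ'
  have e1 : p ζ' = Te J p ζ := by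
    rw [hζ2, map_add, map_add, Te_self hp, Te_ne hpq, Te_ne hpr, add_zero, add_zero]
  have e2 : q ζ' = Te J q ζ := by
    rw [hζ2, map_add, map_add, Te_self hq, Te_ne hqp, Te_ne hqr, add_zero, zero_add]
  have e3 : r ζ' = Te J r ζ := by
    rw [hζ2, map_add, map_add, Te_self hr, Te_ne hrp, Te_ne hrq, add_zero, zero_add]
  have hcone : ζ' ∈ cone M ξ J := by
    rw [hζ2]
    exact cone_add hJ (cone_add hJ (T_ps.cone_alf hJ hζ hp.mem) (T_ps.cone_alf hJ hζ hq.mem))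
      (T_ps.cone_alf hJ hζ hr.mem)
  have hJζ' := T_ps.cone_J hJ hcone
  -- `x ζ' = 0` implies `x e = 0`
  have key : ∀ (x e : H →L[ℂ] H), x ∈ M → IsPr M e → e ζ' = Te J e ζ → x ζ' = 0 → x * e = 0 := by
    intro x e hx he h1 h2
    refine h H M ξ U J hM ζ hζ hsep e x he hx ?_
    change x (Te J e ζ) = 0
    have h3 : J (e (J ζ')) = Te J e ζ := by
      rw [hJζ', h1]
      exact Te_J hJ he.mem hJζ
    rw [← h3, hJ.comm x e hx he.mem, h2]
    rw [T_ps.J_zero hJ, map_zero, T_ps.J_zero hJ]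
  refine ⟨hcone, ?_, ?_, ?_, ?_, ?_, ?_⟩
  · intro x hx hx0
    have h1 := key x p hx hp e1 hx0
    have h2 := key x q hx hq e2 hx0
    have h3 := key x r hx hr e3 hx0
    calc x = x * (p + q + r) := by rw [hsum, mul_one]
      _ = 0 := by rw [mul_add, mul_add, h1, h2, h3, add_zero, add_zero]
  · rw [e1]
    exact Te_J hJ hp.mem hJζ
  · rw [e2]
    exact Te_J hJ hq.mem hJζ
  · rw [e3]
    exact Te_J hJ hr.mem hJζ
  · have orth : ∀ (e f : H →L[ℂ] H), IsPr M e → e * f = 0 → ⟪Te J e ζ, Te J f ζ⟫_ℂ = 0 := by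
      intro e f he hef
      rw [← Te_self he ζ, adj e he.sa, Te_ne hef, inner_zero_right]
    have h1 : ⟪ζ', ζ⟫_ℂ = ⟪ζ', ζ'⟫_ℂ := by
      rw [hζ2]
      simp only [inner_add_left, inner_add_right]
      rw [Te_inner hJ hp, Te_inner hJ hq, Te_inner hJ hr, orth p q hp hpq, orth p r hp hpr,
        orth q p hq hqp, orth q r hq hqr, orth r p hr hrp, orth r q hr hrq]
      ring
    have h2 : ⟪ζ', ζ - ζ'⟫_ℂ = 0 := by rw [inner_sub_right, h1, sub_self]
    have h3 : ⟪ζ - ζ', ζ'⟫_ℂ = 0 := by rw [← inner_conj_symm, h2, map_zero]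
    have h4 := norm_add_sq (𝕜 := ℂ) (ζ - ζ') ζ'
    rw [h3, sub_add_cancel] at h4
    rw [h4]
    simp
  · intro z hz hzp hzq hzr hJz
    rw [hζ2]
    rw [map_add, map_add, Te_comm hJ hz.mem hp.mem hzp, Te_comm hJ hz.mem hq.mem hzq,
      Te_comm hJ hz.mem hr.mem hzr, hJ.add, hJ.add, Te_J hJ hp.mem hJz, Te_J hJ hq.mem hJz,
      Te_J hJ hr.mem hJz]

end Pool.Agent.H255.BC.C_pnc
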