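import Pool.Agent.H255.BC.Defs6
import Pool.Agent.H255.BC.P_ps
import Pool.Graph.R_pool_sql_team_seeded_f72693b1.W883.CB.A8a

/-!
Project BC (helper255), task C8b: corners of a separating vector of the natural cone.

Direct proof: with `a = x z` one has `a J a J ζ = 0`. For `η` in the cone and real `t` the number
`⟨η, (a + t y) J (a + t y) J ζ⟩` is nonnegative, so its linear term vanishes; `y = 1` gives
`re ⟨η, a ζ⟩ = 0`, and `⟨η, a ζ⟩ = 0` (use `i a`). As the cone spans a dense subspace, `a ζ = 0`.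
-/

set_option autoImplicit false

open MeasureTheory Filter Topology Complex
open scoped InnerProductSpace ENNReal FourierTransform

namespace Pool.Agent.H255.BC.C_sepz

open Pool.Agent.W662.CB Pool.Agent.H255.BC Pool.Agent.H255.BC.T_ps

variable {H : Type} [NormedAddCommGroup H] [InnerProductSpace ℂ H] [CompleteSpace H]
  {M : VonNeumannAlgebra H} {ξ : H} {U : ℝ → H →L[ℂ] H} {J : H → H}

/-- the linear term -/
theorem lin (hU : IsModular M ξ U) (hJ : IsConj M ξ U J) {ζ η : H} (hζ : ζ ∈ cone M ξ J)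
    (hη : η ∈ cone M ξ J) {a : H →L[ℂ] H} (ha : a ∈ M) (h0 : a (J (a (J ζ))) = 0) :
    (⟪η, a ζ⟫_ℂ).re = 0 := by
  have hJζ := cone_J hJ hζ
  have hJη := cone_J hJ hη
  have hz : a (J (a ζ)) = 0 := by rw [hJζ] at h0; exact h0
  apply quad_zero (B := (⟪η, ζ⟫_ℂ).re)
  intro t
  have hm : a + ((t : ℝ) : ℂ) • (1 : H →L[ℂ] H) ∈ M := add_mem ha (smul_mem' _ (one_mem M))
  have h1 := (cone_pair Pool.Agent.W883.CB.a8a hU hJ hη (cone_alf hJ hζ hm)).1
  have h2 : (a + ((t : ℝ) : ℂ) • (1 : H →L[ℂ] H)) (J ((a + ((t : ℝ) : ℂ) • (1 : H →L[ℂ] H))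
      (J ζ))) = ((t : ℝ) : ℂ) • (a ζ) + ((t : ℝ) : ℂ) • J (a ζ) +
        (((t : ℝ) : ℂ) * ((t : ℝ) : ℂ)) • ζ := by
    rw [hJζ]
    simp only [ContinuousLinearMap.add_apply, ContinuousLinearMap.smul_apply,
      ContinuousLinearMap.one_apply, hJ.add, hJ.smul, Complex.conj_ofReal, hJζ, map_add, map_smul,
      smul_add, smul_smul]
    rw [hz, zero_add]
    abel
  rw [h2, inner_add_right, inner_add_right, inner_smul_right, inner_smul_right,
    inner_smul_right] at h1
  have h3 : ⟪η, J (a ζ)⟫_ℂ = ⟪a ζ, η⟫_ℂ := by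
    have := hJ.inner η (a ζ)
    rw [hJη] at this
    exact this
  have h4 : (⟪a ζ, η⟫_ℂ).re = (⟪η, a ζ⟫_ℂ).re := by
    rw [← inner_conj_symm, Complex.conj_re]
  rw [h3] at h1
  simp only [Complex.add_re, Complex.mul_re, Complex.ofReal_re, Complex.ofReal_im, zero_mul,
    sub_zero, mul_zero, add_zero, Complex.mul_im, h4] at h1
  nlinarith [h1]

/-- the cone is total -/
theorem total (hc : IsCyclic M ξ) (hJ : IsConj M ξ U J) {w : H}
    (h : ∀ η ∈ cone M ξ J, ⟪η, w⟫_ℂ = 0) : w = 0 := by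
  have h1 : ∀ b : H →L[ℂ] H, b ∈ M → ⟪b ξ, w⟫_ℂ + ⟪J (b ξ), w⟫_ℂ = 0 := by
    intro b hb
    have hp := h _ (subset_closure (C0_gen (ξ := ξ) (J := J) (add_mem (one_mem M) hb)))
    have hm := h _ (subset_closure (C0_gen (ξ := ξ) (J := J) (sub_mem (one_mem M) hb)))
    rw [hJ.fix] at hp hm
    simp only [ContinuousLinearMap.add_apply, ContinuousLinearMap.sub_apply,
      ContinuousLinearMap.one_apply, hJ.add, J_sub hJ, hJ.fix, map_add, map_sub, inner_add_left,
      inner_sub_left] at hp hm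
    linear_combination (1 / 2 : ℂ) * hp - (1 / 2 : ℂ) * hm
  have h2 : ∀ b : H →L[ℂ] H, b ∈ M → ⟪b ξ, w⟫_ℂ = 0 := by
    intro b hb
    have e1 := h1 b hb
    have e2 := h1 (I • b) (smul_mem' I hb)
    rw [ContinuousLinearMap.smul_apply, hJ.smul, inner_smul_left, inner_smul_left,
      Complex.conj_conj, Complex.conj_I] at e2
    have e3 : (2 : ℂ) * (-I * ⟪b ξ, w⟫_ℂ) = 0 := by linear_combination e2 + (-I) * e1
    have e4 : (2 : ℂ) ≠ 0 := two_ne_zero
    have e5 : (-I : ℂ) ≠ 0 := neg_ne_zero.2 I_ne_zero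
    rcases mul_eq_zero.1 e3 with e | e
    · exact absurd e e4
    · rcases mul_eq_zero.1 e with e | e
      · exact absurd e e5
      · exact e
  have h3 : ∀ v : H, ⟪v, w⟫_ℂ = 0 := by
    intro v
    have hcl : IsClosed {v : H | ⟪v, w⟫_ℂ = 0} :=
      isClosed_eq (continuous_id.inner continuous_const) continuous_const
    have hsub : {v : H | ∃ x : H →L[ℂ] H, x ∈ M ∧ x ξ = v} ⊆ {v : H | ⟪v, w⟫_ℂ = 0} := by
      rintro v ⟨b, hb, rfl⟩
      exact h2 b hb
    exact hcl.closure_subset_iff.2 hsub (hc v)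
  exact inner_self_eq_zero.1 (h3 w)

/-- **S_sepz** without further hypotheses -/
theorem r0 : S_sepz := by
  intro H _ _ _ M ξ U J hM ζ hζ hsep z x hz hx h0
  have hJ := hM.conj
  have hU := hM.modular
  have ha : x * z ∈ M := mul_mem hx hz.mem
  have h1 : (x * z) (J ((x * z) (J ζ))) = 0 := by
    have e1 : (x * z) (J ζ) = x (J (J (z (J ζ)))) := by
      rw [hJ.inv]; rfl
    rw [e1, hJ.comm (x * z) x ha hx (J (z (J ζ)))]
    have e2 : (x * z) (J (z (J ζ))) = 0 := h0
    rw [e2, J_zero hJ, map_zero, J_zero hJ]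
  have h1' : (I • (x * z)) (J ((I • (x * z)) (J ζ))) = 0 := by
    rw [ContinuousLinearMap.smul_apply, ContinuousLinearMap.smul_apply, hJ.smul, map_smul, h1,
      smul_zero, smul_zero]
  apply hsep _ ha
  apply total hM.cyc hJ
  intro η hη
  apply Complex.ext
  · exact lin hU hJ hζ hη ha h1
  · have h2 := lin hU hJ hζ hη (smul_mem' I ha) h1'
    rw [ContinuousLinearMap.smul_apply, inner_smul_right] at h2
    simp only [Complex.mul_re, Complex.I_re, zero_mul, Complex.I_im, one_mul, zero_sub,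
      neg_eq_zero] at h2
    exact h2

theorem r (h1 : S_univ) (h2 : S_TT) (h3 : S_psi) (h4 : S_psi_mul) (h5 : S_psi_one) (h6 : S_psi_J) : S_sepz := r0

end Pool.Agent.H255.BC.C_sepz
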