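import Pool.Agent.H255.BC.Defs6
import Pool.Agent.H255.BC.R_prodsp

set_option autoImplicit false

open MeasureTheory Filter Topology Complex
open scoped InnerProductSpace ENNReal FourierTransform

namespace Pool.Agent.H255.BC.C_sp2

open Pool.Agent.W662.CB Pool.Agent.H255.BC
open Pool.Agent.H255.BC.R_prodsp (op op_mem op_apply psi_xw sgm_apply)

theorem r (_h1 : S_psi) (_h2 : S_psi_mul) (_h3 : S_psi_one) (_h4 : S_phi) : S_sp2 := by
  intro H _ _ _ M ξ U J hm h₀ h₁ h₂ A A' B B' δ t0 t1 t2 hδ hA hA' hB hB' hh a b x y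
    ha hb hx hy ex ey
  have hU := hm.modular
  have hs : ∀ κ κ' : ℝ, h₀ κ ≠ 0 → h₁ κ' ≠ 0 → h₂ (κ + κ') = 1 := by
    intro κ κ' h0 h1
    have k1 : A ≤ κ := by
      by_contra h; exact h0 (hA κ (not_le.1 h))
    have k2 : κ ≤ A' := by
      by_contra h; exact h0 (hA' κ (not_le.1 h))
    have k3 : B ≤ κ' := by
      by_contra h; exact h1 (hB κ' (not_le.1 h))
    have k4 : κ' ≤ B' := by
      by_contra h; exact h1 (hB' κ' (not_le.1 h))
    exact hh _ (by linarith) (by linarith)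
  have hop : op hU t0 a ∈ M := op_mem hU t0 a M fun t => hU.mem t a ha
  have hop2 : op hU t0 a ξ = x ξ := by
    rw [ex, op_apply]
    unfold psi
    congr 1
    funext s
    rw [sgm_apply hU, hU.fix]
  have hxe : x = op hU t0 a := by
    have h5 : x - op hU t0 a = 0 := by
      refine hm.sep _ (sub_mem hx hop) ?_
      rw [sub_apply, hop2, sub_self]
    exact sub_eq_zero.1 h5
  have h6 : (x * y) ξ = op hU t0 a (psi U h₁ (b ξ)) := by
    rw [← hxe, ← ey]
    rfl
  rw [h6]
  exact psi_xw hU t0 t1 t2 hs a (b ξ)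

end Pool.Agent.H255.BC.C_sp2
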