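import Pool.Agent.H255.BC.Defs6
import Pool.Agent.H255.BC.R_near
import Pool.Agent.H255.BC.P_phi

set_option autoImplicit false

open MeasureTheory Filter Topology Complex
open scoped InnerProductSpace ENNReal FourierTransform

namespace Pool.Agent.H255.BC.C_spi

open Pool.Agent.W662.CB Pool.Agent.H255.BC
open Pool.Agent.H255.BC.R_near (psi_integrand_int int_four four_cont psi_add psi_smul psi_sub
  exists_bump tst_mul tst_sub tst_smooth_mul tst_smul)
open Pool.Agent.H255.BC.T_phi (sgm_apply sgm_star)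

section

variable {H : Type} [NormedAddCommGroup H] [InnerProductSpace ℂ H] [CompleteSpace H]

/-! ### Projections -/

theorem proj_exists (L : Submodule ℂ H) (hL : IsClosed (L : Set H)) :
    ∃ p : H →L[ℂ] H, p * p = p ∧ star p = p ∧ ∀ v, v ∈ L ↔ p v = v := by
  have : CompleteSpace L := hL.completeSpace_coe
  refine ⟨L.starProjection, L.isIdempotentElem_starProjection, isSelfAdjoint_starProjection L,
    fun v => ?_⟩
  exact Submodule.starProjection_eq_self_iff.symm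

theorem proj_comm {p T : H →L[ℂ] H} (hs : star p = p)
    (h1 : ∀ v, p (T (p v)) = T (p v)) (h2 : ∀ v, p (star T (p v)) = star T (p v)) :
    T * p = p * T := by
  have e1 : p * T * p = T * p := ContinuousLinearMap.ext fun v => h1 v
  have e2 : p * star T * p = star T * p := ContinuousLinearMap.ext fun v => h2 v
  have e3 := congrArg star e2
  rw [star_mul, star_mul, star_mul, star_star, hs, ← mul_assoc] at e3
  rw [← e1, e3]

theorem mem_of_comm {M : VonNeumannAlgebra H} {x : H →L[ℂ] H}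
    (h : ∀ T : H →L[ℂ] H, T ∈ M.commutant → T * x = x * T) : x ∈ M := by
  rw [← M.commutant_commutant, VonNeumannAlgebra.mem_commutant_iff]
  exact h

/-! ### The group -/

variable {M : VonNeumannAlgebra H} {ξ : H} {U : ℝ → H →L[ℂ] H} {J : H → H}

theorem U_cancel (hU : IsModular M ξ U) (t : ℝ) : star (U t) * U t = 1 ∧ U t * star (U t) = 1 := by
  rw [hU.star_eq, ← hU.add, ← hU.add, neg_add_cancel, add_neg_cancel, hU.zero]
  exact ⟨rfl, rfl⟩

theorem comm_of_fix (hU : IsModular M ξ U) {p : H →L[ℂ] H} (hp : ∀ t : ℝ, sgm U t p = p)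
    (t : ℝ) (v : H) : p (U t v) = U t (p v) := by
  have h1 : U t * p * star (U t) = p := hp t
  have h2 : U t * p = p * U t := by
    conv_rhs => rw [← h1]
    rw [mul_assoc, (U_cancel hU t).1, mul_one]
  have h3 := congrArg (fun T : H →L[ℂ] H => T v) h2
  exact h3.symm

theorem sgm_mul (hU : IsModular M ξ U) (t : ℝ) (x y : H →L[ℂ] H) :
    sgm U t (x * y) = sgm U t x * sgm U t y := by
  unfold sgm
  calc U t * (x * y) * star (U t) = U t * x * 1 * y * star (U t) := by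
        rw [mul_one, mul_assoc (U t) x y]
    _ = U t * x * (star (U t) * U t) * y * star (U t) := by rw [(U_cancel hU t).1]
    _ = _ := by simp only [mul_assoc]

/-- a bounded operator commuting with `U` commutes with `psi` -/
theorem comm_psi (hU : IsModular M ξ U) {T : H →L[ℂ] H} (hT : ∀ (t : ℝ) (v : H), T (U t v) = U t (T v))
    {h : ℝ → ℂ} (hh : Tst h) (v : H) : T (psi U h v) = psi U h (T v) := by
  unfold psi
  rw [← T.integral_comp_comm (psi_integrand_int hU (int_four hh) (four_cont hh) _ v)]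
  refine integral_congr_ae (Eventually.of_forall fun s => ?_)
  simp only [map_smul, hT]

theorem tst_conj' {h : ℝ → ℂ} (hh : Tst h) : Tst (fun κ => starRingEnd ℂ (h (-κ))) :=
  Pool.Agent.H255.BC.T_phi.tst_conj hh

/-- smoothed elements of a corner lie in the corner -/
theorem corner (hM : Mod M ξ U J) (h8 : S_psi_J) {p q b y : H →L[ℂ] H} (hp : IsPr M p)
    (hq : IsPr M q) (hpf : ∀ t : ℝ, sgm U t p = p) (hqf : ∀ t : ℝ, sgm U t q = q)
    (hqJ : J (q ξ) = q ξ) {h : ℝ → ℂ} (hh : Tst h) (hb : b ∈ M) (hpb : p * b * q = b)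
    (hy : y ∈ M) (hyb : y ξ = psi U h (b ξ)) : p * y * q = y := by
  have hU := hM.modular
  have hJ := hM.conj
  have e0 : q ξ = J (q (J ξ)) := by rw [hJ.fix, hqJ]
  have e1 : ∀ x : H →L[ℂ] H, x ∈ M → x (q ξ) = J (q (J (x ξ))) := by
    intro x hx
    conv_lhs => rw [e0]
    exact hJ.comm x q hx hq.mem ξ
  have e2 : ∀ w, J (q (J (psi U h w))) = psi U h (J (q (J w))) := by
    intro w
    rw [(h8 H M ξ U J hU hJ h hh).1, comm_psi hU (comm_of_fix hU hqf) (tst_conj' hh),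
      (h8 H M ξ U J hU hJ _ (tst_conj' hh)).1]
    congr 1
    funext κ
    simp
  have e3 : (p * y * q) ξ = y ξ := by
    change p (y (q ξ)) = y ξ
    rw [e1 y hy, hyb, e2, ← e1 b hb, comm_psi hU (comm_of_fix hU hpf) hh]
    congr 1
    exact congrArg (fun T : H →L[ℂ] H => T ξ) hpb
  have e4 : p * y * q - y = 0 := by
    refine hM.sep _ (sub_mem (mul_mem (mul_mem hp.mem hy) hq.mem) hy) ?_
    rw [ContinuousLinearMap.sub_apply, e3, sub_self]
  exact sub_eq_zero.1 e4

/-! ### A small part of the spectrum -/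

theorem psi_zero_fun (v : H) : psi U (fun _ => (0 : ℂ)) v = 0 := by
  have h := psi_smul (U := U) (fun _ => (0 : ℂ)) 0 v
  rw [zero_smul] at h
  rw [← h]
  congr 1
  funext κ
  rw [mul_zero]

/-- the cut-off `S((κ + R) / η + 1 - j)` -/
noncomputable def cut (R η : ℝ) (j : ℕ) (κ : ℝ) : ℂ :=
  ((Real.smoothTransition ((κ + R) / η + 1 - j) : ℝ) : ℂ)

theorem cut_smooth (R η : ℝ) (j : ℕ) : ContDiff ℝ (⊤ : ℕ∞) (cut R η j) := by
  unfold cut
  refine Complex.ofRealCLM.contDiff.comp ?_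
  refine Real.smoothTransition.contDiff.comp ?_
  fun_prop

theorem small_piece (hU : IsModular M ξ U) (h7 : S_psi_one) {η : ℝ} (hη : 0 < η) {v : H}
    (hv : v ≠ 0) : ∃ (h : ℝ → ℂ) (A : ℝ), Tst h ∧ (∀ κ, κ < A → h κ = 0) ∧
      (∀ κ, A + 2 * η < κ → h κ = 0) ∧ psi U h v ≠ 0 := by
  obtain ⟨g, hg, hlim⟩ := h7 H M ξ U hU
  obtain ⟨n, hn⟩ : ∃ n, psi U (g n) v ≠ 0 := by
    by_contra hcon
    push Not at hcon
    have h1 := hlim v
    simp only [hcon] at h1
    exact hv (tendsto_nhds_unique h1 tendsto_const_nhds)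
  obtain ⟨R, hR⟩ : ∃ R : ℝ, ∀ κ, R < |κ| → g n κ = 0 := by
    obtain ⟨R, hR⟩ := (hg n).2.isBounded.subset_closedBall (0 : ℝ)
    refine ⟨R, fun κ hκ => ?_⟩
    by_contra h0
    have h1 := hR (subset_tsupport _ h0)
    rw [mem_closedBall_zero_iff, Real.norm_eq_abs] at h1
    linarith
  obtain ⟨N, hN⟩ := exists_nat_ge (2 * R / η + 1)
  let F : ℕ → ℝ → ℂ := fun j κ => cut R η j κ * g n κ
  have hF : ∀ j, Tst (F j) := fun j => tst_smooth_mul (cut_smooth R η j) (hg n)
  have hF0 : F 0 = g n := by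
    funext κ
    change cut R η 0 κ * g n κ = g n κ
    by_cases hκ : R < |κ|
    · rw [hR κ hκ, mul_zero]
    · have h1 : 0 ≤ κ + R := by
        have := neg_abs_le κ
        linarith
      have h2 : (1 : ℝ) ≤ (κ + R) / η + 1 - (0 : ℕ) := by
        have : 0 ≤ (κ + R) / η := div_nonneg h1 hη.le
        push_cast
        linarith
      unfold cut
      rw [Real.smoothTransition.one_of_one_le h2, Complex.ofReal_one, one_mul]
  have hFN : F N = fun _ => 0 := by
    funext κ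
    change cut R η N κ * g n κ = 0
    by_cases hκ : R < |κ|
    · rw [hR κ hκ, mul_zero]
    · have h1 : κ + R ≤ 2 * R := by
        have := le_abs_self κ
        linarith
      have h2 : (κ + R) / η + 1 - N ≤ 0 := by
        have : (κ + R) / η ≤ 2 * R / η := div_le_div_of_nonneg_right h1 hη.le
        linarith
      unfold cut
      rw [Real.smoothTransition.zero_of_nonpos h2, Complex.ofReal_zero, zero_mul]
  obtain ⟨j, hj⟩ : ∃ j, psi U (F j) v ≠ psi U (F (j + 1)) v := by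
    by_contra hcon
    push Not at hcon
    have h1 : ∀ j, psi U (F j) v = psi U (F 0) v := by
      intro j
      induction j with
      | zero => rfl
      | succ j ih => rw [← hcon j, ih]
    have h2 := h1 N
    rw [hFN, psi_zero_fun, hF0] at h2
    exact hn h2.symm
  refine ⟨fun κ => F j κ - F (j + 1) κ, -R + (j - 1) * η, tst_sub (hF j) (hF (j + 1)), ?_, ?_, ?_⟩
  · intro κ hκ
    have h1 : (κ + R) / η < j - 1 := by
      rw [div_lt_iff₀ hη]
      linarith
    change cut R η j κ * g n κ - cut R η (j + 1) κ * g n κ = 0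
    unfold cut
    rw [Real.smoothTransition.zero_of_nonpos (by linarith),
      Real.smoothTransition.zero_of_nonpos (by push_cast; linarith)]
    simp
  · intro κ hκ
    have h1 : (j : ℝ) + 1 < (κ + R) / η := by
      rw [lt_div_iff₀ hη]
      linarith
    change cut R η j κ * g n κ - cut R η (j + 1) κ * g n κ = 0
    unfold cut
    rw [Real.smoothTransition.one_of_one_le (by linarith),
      Real.smoothTransition.one_of_one_le (by push_cast; linarith)]
    simp
  · rw [psi_sub hU (hF j) (hF (j + 1))]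
    exact sub_ne_zero.2 hj

/-! ### `J z^* ξ` -/

theorem J_eq (hM : Mod M ξ U J) (h5 : S_psi_mul) (h7 : S_psi_one) (h8 : S_psi_J)
    {z : H →L[ℂ] H} (hz : z ∈ M) {h : ℝ → ℂ} (hh : Tst h) (hzh : psi U h (z ξ) = z ξ) :
    J (star z ξ) = psi U (fun κ => cexp (κ / 2) * h κ) (z ξ) := by
  have hU := hM.modular
  have hJ := hM.conj
  have hexp : ContDiff ℝ (⊤ : ℕ∞) (fun κ : ℝ => cexp (κ / 2)) :=
    Complex.contDiff_exp.comp (Complex.ofRealCLM.contDiff.div_const 2)
  obtain ⟨g, hg, hlim⟩ := h7 H M ξ U hU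
  have key : ∀ n, psi U (g n) (J (star z ξ)) =
      psi U (g n) (psi U (fun κ => cexp (κ / 2) * h κ) (z ξ)) := by
    intro n
    rw [← (h8 H M ξ U J hU hJ (g n) (hg n)).2 z hz,
      ← h5 H M ξ U hU _ _ (hg n) (tst_smooth_mul hexp hh)]
    conv_lhs => rw [← hzh]
    rw [← h5 H M ξ U hU _ _ (tst_smooth_mul hexp (hg n)) hh]
    congr 1
    funext κ
    ring
  have h1 := hlim (J (star z ξ))
  simp only [key] at h1
  exact tendsto_nhds_unique h1 (hlim _)

end

theorem r (h1 : S_fixp) (h2 : S_cor) (h3 : S_sp2) (h4 : S_psi) (h5 : S_psi_mul) (h6 : S_psi_norm)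
    (h7 : S_psi_one) (h8 : S_psi_J) (h9 : S_phi) : S_spi := by
  intro H _ _ _ M ξ U J hM hT e f he hf he0 hf0 heJ hfJ δ hδ
  have hU := hM.modular
  have hJ := hM.conj
  have hef := (h1 H M ξ U J hM e he).1 heJ
  have hff := (h1 H M ξ U J hM f hf).1 hfJ
  -- the partial isometry
  obtain ⟨ve, hve, hve1, hve2⟩ := hT.equiv e he.mem he.idem he.sa he0
  obtain ⟨vf, hvf, hvf1, hvf2⟩ := hT.equiv f hf.mem hf.idem hf.sa hf0
  obtain ⟨v, hv⟩ : ∃ v, v = vf * star ve := ⟨_, rfl⟩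
  have hvM : v ∈ M := by rw [hv]; exact mul_mem hvf (star_mem hve)
  have hvv : star v * v = e := by
    rw [hv, star_mul, star_star, mul_assoc, ← mul_assoc (star vf), hvf1, one_mul, hve2]
  have hfv : f * v * e = v := by
    rw [← hvf2, ← hve2, hv]
    calc vf * star vf * (vf * star ve) * (ve * star ve) =
        vf * (star vf * vf) * (star ve * ve) * star ve := by simp only [mul_assoc]
      _ = _ := by rw [hvf1, hve1, mul_one, mul_one]
  have hvξ : v ξ ≠ 0 := by
    intro h0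
    have := hM.sep v hvM h0
    rw [this, mul_zero] at hvv
    exact he0 hvv.symm
  -- the constants
  obtain ⟨ρ, hρ, hρδ⟩ : ∃ ρ : ℝ, 0 < ρ ∧ ∀ κ : ℝ, |κ| < ρ → |Real.exp (κ / 2) - 1| < δ := by
    have hc : ContinuousAt (fun κ : ℝ => Real.exp (κ / 2)) 0 := by fun_prop
    obtain ⟨ρ, hρ, h0⟩ := Metric.continuousAt_iff.1 hc δ hδ
    refine ⟨ρ, hρ, fun κ hκ => ?_⟩
    have := h0 (x := κ) (by rw [Real.dist_eq, sub_zero]; exact hκ)
    rw [Real.dist_eq, zero_div, Real.exp_zero] at this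
    exact this
  obtain ⟨η, hη⟩ : ∃ η : ℝ, η = ρ / 6 := ⟨_, rfl⟩
  have hη0 : 0 < η := by rw [hη]; positivity
  -- the first element
  obtain ⟨h₀, A, hh₀, hA, hA', hne₀⟩ := small_piece hU h7 hη0 hvξ
  obtain ⟨F, hF, hFξ, -⟩ := h9 H M ξ U hU h₀ hh₀ v hvM
  obtain ⟨x₀, hx₀⟩ : ∃ x₀, x₀ = F 0 := ⟨_, rfl⟩
  have hx₀M : x₀ ∈ M := by rw [hx₀]; exact hF.mem 0
  have hx₀ξ : x₀ ξ = psi U h₀ (v ξ) := by
    rw [hx₀, hFξ 0]
    congr 1
    funext κ
    simp
  have hx₀c : f * x₀ * e = x₀ := corner hM h8 hf he hff hef heJ hh₀ hvM hfv hx₀M hx₀ξ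
  have hx₀0 : x₀ ≠ 0 := by
    intro h0
    rw [h0, ContinuousLinearMap.zero_apply] at hx₀ξ
    exact hne₀ hx₀ξ.symm
  -- the kernel
  obtain ⟨L, hL⟩ : ∃ L : Submodule ℂ H, L = ⨅ t : ℝ, LinearMap.ker (sgm U t x₀ : H →ₗ[ℂ] H) :=
    ⟨_, rfl⟩
  have hLm : ∀ w, w ∈ L ↔ ∀ t : ℝ, sgm U t x₀ w = 0 := by
    intro w
    rw [hL, Submodule.mem_iInf]
    exact Iff.rfl
  have hLc : IsClosed (L : Set H) := by
    have h0 : (L : Set H) = ⋂ t : ℝ, {w | sgm U t x₀ w = 0} := by
      ext w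
      rw [SetLike.mem_coe, hLm, Set.mem_iInter]
      rfl
    rw [h0]
    exact isClosed_iInter fun t => isClosed_eq (sgm U t x₀).continuous continuous_const
  obtain ⟨p, hp1, hp2, hp3⟩ := proj_exists L hLc
  have hpL : ∀ w, p w ∈ L := fun w => (hp3 _).2 (congrArg (fun T : H →L[ℂ] H => T w) hp1)
  have hpcomm : ∀ T : H →L[ℂ] H, (∀ w ∈ L, T w ∈ L) → (∀ w ∈ L, star T w ∈ L) → T * p = p * T :=
    fun T k1 k2 => proj_comm hp2 (fun w => (hp3 _).1 (k1 _ (hpL w)))
      fun w => (hp3 _).1 (k2 _ (hpL w))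
  have hcom : ∀ T : H →L[ℂ] H, T ∈ M.commutant → ∀ w ∈ L, T w ∈ L := by
    intro T hTc w hw
    rw [hLm] at hw ⊢
    intro t
    have k1 := VonNeumannAlgebra.mem_commutant_iff.1 hTc (sgm U t x₀) (hU.mem t x₀ hx₀M)
    have k2 := congrArg (fun T : H →L[ℂ] H => T w) k1
    change sgm U t x₀ (T w) = T (sgm U t x₀ w) at k2
    rw [k2, hw t, map_zero]
  have hpM : p ∈ M := by
    refine mem_of_comm fun T hTc => hpcomm T (hcom T hTc) (hcom (star T) (star_mem hTc))
  have hUL : ∀ (s : ℝ), ∀ w ∈ L, U s w ∈ L := by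
    intro s w hw
    rw [hLm] at hw ⊢
    intro t
    have k1 := hw (t - s)
    rw [sgm_apply hU] at k1 ⊢
    have k2 : U (-t) (U s w) = U (-(t - s)) w := by
      rw [show -(t - s) = -t + s by ring, hU.add]
      rfl
    rw [k2]
    have k3 : ∀ y, U t y = U s (U (t - s) y) := by
      intro y
      have : U t = U s * U (t - s) := by rw [← hU.add]; congr 1; ring
      rw [this]
      rfl
    rw [k3, k1, map_zero]
  have hpU : ∀ t, U t * p = p * U t := by
    intro t
    refine hpcomm (U t) (hUL t) ?_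
    rw [hU.star_eq]
    exact hUL (-t)
  obtain ⟨q, hq⟩ : ∃ q : H →L[ℂ] H, q = 1 - p := ⟨_, rfl⟩
  have hqPr : IsPr M q := by
    refine ⟨?_, ?_, ?_⟩
    · rw [hq]; exact sub_mem (one_mem _) hpM
    · rw [hq, sub_mul, mul_sub, mul_sub, hp1]; simp
    · rw [hq, star_sub, star_one, hp2]
  have hqf : ∀ t, sgm U t q = q := by
    intro t
    unfold sgm
    rw [hq, mul_sub, mul_one, hpU t, sub_mul, mul_assoc, (U_cancel hU t).2, mul_one]
  have hqJ : J (q ξ) = q ξ := (h1 H M ξ U J hM q hqPr).2 hqf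
  have hq0 : q ≠ 0 := by
    intro h0
    rw [hq, sub_eq_zero] at h0
    apply hx₀0
    refine ContinuousLinearMap.ext fun w => ?_
    have k1 : w ∈ L := by rw [hp3, ← h0]; rfl
    have k2 := (hLm w).1 k1 0
    unfold sgm at k2
    rw [hU.zero, star_one, one_mul, mul_one] at k2
    exact k2
  have hxe : ∀ t, sgm U t x₀ * e = sgm U t x₀ := by
    intro t
    conv_lhs => rw [← hef t]
    rw [← sgm_mul hU]
    congr 1
    rw [← hx₀c, mul_assoc, he.idem]
  have hfx : ∀ t, f * sgm U t x₀ = sgm U t x₀ := by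
    intro t
    conv_lhs => rw [← hff t]
    rw [← sgm_mul hU]
    congr 1
    rw [← hx₀c, ← mul_assoc, ← mul_assoc, hf.idem]
  have hqe : q * e = q := by
    have k1 : p * (1 - e) = 1 - e := by
      refine ContinuousLinearMap.ext fun w => ?_
      refine (hp3 _).1 ((hLm _).2 fun t => ?_)
      have k2 : sgm U t x₀ * (1 - e) = 0 := by rw [mul_sub, mul_one, hxe t, sub_self]
      exact congrArg (fun T : H →L[ℂ] H => T w) k2
    rw [hq, sub_mul, one_mul]
    rw [mul_sub, mul_one] at k1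
    rw [sub_eq_sub_iff_add_eq_add]
    have k3 : p - p * e = 1 - e := k1
    rw [sub_eq_sub_iff_add_eq_add] at k3
    rw [add_comm e p, k3]
  -- the second element
  obtain ⟨h₁, hh₁, -, hh₁1, hh₁0⟩ := exists_bump (-A) (η / 2) (by positivity)
  obtain ⟨b, hbM, hqb, hb0⟩ := h2 H M ξ U J hM hT q hqPr hq0 hqJ h₁ hh₁
    ⟨-A, by rw [hh₁1.self_of_nhds]; exact one_ne_zero⟩
  obtain ⟨G, hG, hGξ, -⟩ := h9 H M ξ U hU h₁ hh₁ b hbM
  obtain ⟨y, hy⟩ : ∃ y, y = G 0 := ⟨_, rfl⟩
  have hyM : y ∈ M := by rw [hy]; exact hG.mem 0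
  have hyξ : y ξ = psi U h₁ (b ξ) := by
    rw [hy, hGξ 0]
    congr 1
    funext κ
    simp
  have hyc : q * y * q = y := corner hM h8 hqPr hqPr hqf hqf hqJ hh₁ hbM hqb hyM hyξ
  have hy0 : y ≠ 0 := by
    intro h0
    rw [h0, ContinuousLinearMap.zero_apply] at hyξ
    exact hb0 hyξ.symm
  have hqy : q * y = y := by
    rw [← hyc, ← mul_assoc, ← mul_assoc, hqPr.idem]
  have hyq : y * q = y := by
    rw [← hyc, mul_assoc, hqPr.idem]
  -- the product
  obtain ⟨t, ht⟩ : ∃ t, sgm U t x₀ * y ≠ 0 := by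
    by_contra hcon
    push Not at hcon
    have k1 : p * y = y := by
      refine ContinuousLinearMap.ext fun w => ?_
      refine (hp3 _).1 ((hLm _).2 fun t => ?_)
      exact congrArg (fun T : H →L[ℂ] H => T w) (hcon t)
    apply hy0
    rw [← hqy, hq, sub_mul, one_mul, k1, sub_self]
  obtain ⟨x, hx⟩ : ∃ x, x = sgm U t x₀ := ⟨_, rfl⟩
  have hxM : x ∈ M := by rw [hx]; exact hU.mem t x₀ hx₀M
  have hxξ : x ξ = psi U h₀ (sgm U t v ξ) := by
    rw [hx, sgm_apply hU, sgm_apply hU, hU.fix, hx₀ξ]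
    exact (h4 H M ξ U hU h₀ hh₀).2.2.1 t (v ξ)
  rw [← hx] at ht
  have hzM : x * y ∈ M := mul_mem hxM hyM
  refine ⟨x * y, hzM, ht, ?_, ?_⟩
  · have k1 : y * e = y := by
      conv_lhs => rw [← hyq]
      rw [mul_assoc, hqe, hyq]
    rw [← mul_assoc, hx, hfx t, mul_assoc, k1]
  -- the bump
  let B : ContDiffBump (0 : ℝ) := ⟨4 * η, 5 * η, by positivity, by linarith⟩
  obtain ⟨h₂, hh₂def⟩ : ∃ h₂ : ℝ → ℂ, h₂ = fun κ => ((B κ : ℝ) : ℂ) := ⟨_, rfl⟩
  have hh₂ : Tst h₂ := by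
    rw [hh₂def]
    exact ⟨Complex.ofRealCLM.contDiff.comp B.contDiff,
      B.hasCompactSupport.comp_left (g := fun x : ℝ => (x : ℂ)) Complex.ofReal_zero⟩
  have hzfix : psi U h₂ ((x * y) ξ) = (x * y) ξ := by
    refine h3 H M ξ U J hM h₀ h₁ h₂ A (A + 2 * η) (-A - η) (-A + η) η hh₀ hh₁ hh₂ hη0 hA hA'
      ?_ ?_ ?_ (sgm U t v) b x y (hU.mem t v hvM) hbM hxM hyM hxξ hyξ
    · intro κ hκ
      refine hh₁0 κ ?_
      rw [show 2 * (η / 2) = η by ring, le_abs]
      right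
      linarith
    · intro κ hκ
      refine hh₁0 κ ?_
      rw [show 2 * (η / 2) = η by ring, le_abs]
      left
      linarith
    · intro κ hκ1 hκ2
      rw [hh₂def]
      change ((B κ : ℝ) : ℂ) = 1
      rw [B.one_of_mem_closedBall, Complex.ofReal_one]
      rw [mem_closedBall_zero_iff, Real.norm_eq_abs, abs_le]
      constructor
      · change -(4 * η) ≤ κ
        linarith
      · change κ ≤ 4 * η
        linarith
  have hexp : ContDiff ℝ (⊤ : ℕ∞) (fun κ : ℝ => cexp (κ / 2)) :=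
    Complex.contDiff_exp.comp (Complex.ofRealCLM.contDiff.div_const 2)
  rw [J_eq hM h5 h7 h8 hzM hh₂ hzfix]
  have k1 : psi U (fun κ => cexp (κ / 2) * h₂ κ) ((x * y) ξ) - (x * y) ξ =
      psi U (fun κ => cexp (κ / 2) * h₂ κ - h₂ κ) ((x * y) ξ) := by
    rw [psi_sub hU (tst_smooth_mul hexp hh₂) hh₂, hzfix]
  rw [k1]
  refine h6 H M ξ U hU _ (tst_sub (tst_smooth_mul hexp hh₂) hh₂) δ ?_ _
  intro κ
  have k2 : cexp (κ / 2) * h₂ κ - h₂ κ = ((Real.exp (κ / 2) - 1 : ℝ) : ℂ) * h₂ κ := by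
    push_cast
    ring
  rw [k2, norm_mul, Complex.norm_real, Real.norm_eq_abs, hh₂def]
  change |Real.exp (κ / 2) - 1| * ‖((B κ : ℝ) : ℂ)‖ ≤ δ
  rw [Complex.norm_real, Real.norm_eq_abs, abs_of_nonneg B.nonneg]
  by_cases hκ : |κ| < ρ
  · calc |Real.exp (κ / 2) - 1| * B κ ≤ δ * 1 :=
          mul_le_mul (hρδ κ hκ).le B.le_one B.nonneg hδ.le
      _ = δ := mul_one δ
  · have k3 : B κ = 0 := by
      refine B.zero_of_le_dist ?_
      rw [Real.dist_eq, sub_zero]
      change 5 * η ≤ |κ|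
      linarith
    rw [k3, mul_zero]
    exact hδ.le

end Pool.Agent.H255.BC.C_spi
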