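import Pool.Agent.H255.BC.Defs6
import Pool.Agent.H255.BC.P_ps

set_option autoImplicit false

open MeasureTheory Filter Topology Complex
open scoped InnerProductSpace ENNReal FourierTransform

namespace Pool.Agent.H255.BC.C_univ

open Pool.Agent.W662.CB Pool.Agent.H255.BC

section

variable {H : Type} [NormedAddCommGroup H] [InnerProductSpace ℂ H] [CompleteSpace H]

omit [CompleteSpace H] in
theorem inner_self_norm (v : H) : ⟪v, v⟫_ℂ = ((‖v‖ : ℂ)) ^ 2 := inner_self_eq_norm_sq_to_K v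

/-- an antiunitary involution -/
structure AC (J : H → H) : Prop where
  add : ∀ v w : H, J (v + w) = J v + J w
  smul : ∀ (c : ℂ) (v : H), J (c • v) = (starRingEnd ℂ c) • J v
  inv : ∀ v : H, J (J v) = v
  inner : ∀ v w : H, ⟪J v, J w⟫_ℂ = ⟪w, v⟫_ℂ

theorem ac_of {M : VonNeumannAlgebra H} {ξ : H} {U : ℝ → H →L[ℂ] H} {J : H → H}
    (h : IsConj M ξ U J) : AC J := ⟨h.add, h.smul, h.inv, h.inner⟩

omit [CompleteSpace H] in
theorem AC.norm {J : H → H} (hJ : AC J) (v : H) : ‖J v‖ = ‖v‖ := by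
  have h := hJ.inner v v
  rw [inner_self_norm, inner_self_norm] at h
  have h2 : ‖J v‖ ^ 2 = ‖v‖ ^ 2 := by exact_mod_cast h
  exact (pow_left_inj₀ (norm_nonneg _) (norm_nonneg _) two_ne_zero).1 h2

omit [CompleteSpace H] in
theorem AC.zero {J : H → H} (hJ : AC J) : J 0 = 0 := by
  rw [← norm_eq_zero, hJ.norm, norm_zero]

omit [CompleteSpace H] in
theorem AC.sub {J : H → H} (hJ : AC J) (v w : H) : J (v - w) = J v - J w := by
  have h := hJ.add (v - w) w
  rw [sub_add_cancel] at h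
  rw [h, add_sub_cancel_right]

omit [CompleteSpace H] in
theorem AC.cont {J : H → H} (hJ : AC J) : Continuous J := by
  have : Isometry J := by
    refine Isometry.of_dist_eq fun v w => ?_
    rw [dist_eq_norm, dist_eq_norm, ← hJ.sub, hJ.norm]
  exact this.continuous

omit [CompleteSpace H] in
/-- `⟪J v, w⟫ = ⟪J w, v⟫` -/
theorem AC.swap {J : H → H} (hJ : AC J) (v w : H) : ⟪J v, w⟫_ℂ = ⟪J w, v⟫_ℂ := by
  have h := hJ.inner v (J w)
  rwa [hJ.inv] at h

/-- `J x J` -/
noncomputable def cj {J : H → H} (hJ : AC J) (x : H →L[ℂ] H) : H →L[ℂ] H :=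
  LinearMap.mkContinuous
    { toFun := fun v => J (x (J v))
      map_add' := fun v w => by rw [hJ.add, map_add, hJ.add]
      map_smul' := fun c v => by
        rw [hJ.smul, map_smul, hJ.smul, Complex.conj_conj, RingHom.id_apply] } ‖x‖ (fun v => by
        show ‖J (x (J v))‖ ≤ _
        rw [hJ.norm]
        calc ‖x (J v)‖ ≤ ‖x‖ * ‖J v‖ := x.le_opNorm _
          _ = _ := by rw [hJ.norm])

omit [CompleteSpace H] in
theorem cj_apply {J : H → H} (hJ : AC J) (x : H →L[ℂ] H) (v : H) : cj hJ x v = J (x (J v)) := rfl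

omit [CompleteSpace H] in
theorem cj_cj {J : H → H} (hJ : AC J) (x : H →L[ℂ] H) : cj hJ (cj hJ x) = x := by
  ext v
  rw [cj_apply, cj_apply, hJ.inv, hJ.inv]

omit [CompleteSpace H] in
theorem cj_one {J : H → H} (hJ : AC J) : cj hJ (1 : H →L[ℂ] H) = 1 := by
  ext v
  rw [cj_apply]
  exact hJ.inv v

omit [CompleteSpace H] in
theorem cj_mul {J : H → H} (hJ : AC J) (x y : H →L[ℂ] H) : cj hJ (x * y) = cj hJ x * cj hJ y := by
  ext v
  show J (x (y (J v))) = J (x (J (J (y (J v)))))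
  rw [hJ.inv]

theorem cj_star {J : H → H} (hJ : AC J) (x : H →L[ℂ] H) : star (cj hJ x) = cj hJ (star x) := by
  have h : cj hJ (star x) = ContinuousLinearMap.adjoint (cj hJ x) := by
    rw [ContinuousLinearMap.eq_adjoint_iff]
    intro v w
    have e := hJ.inner (J (x (J w))) v
    rw [hJ.inv] at e
    rw [cj_apply, cj_apply, hJ.swap, ContinuousLinearMap.star_eq_adjoint,
      ContinuousLinearMap.adjoint_inner_right, ← e]
  rw [h, ContinuousLinearMap.star_eq_adjoint]

theorem adj_l (a : H →L[ℂ] H) (v w : H) : ⟪a v, w⟫_ℂ = ⟪v, star a w⟫_ℂ := by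
  rw [ContinuousLinearMap.star_eq_adjoint, ContinuousLinearMap.adjoint_inner_right]

theorem sgm_cj {J : H → H} (hJ : AC J) {U : ℝ → H →L[ℂ] H} (t : ℝ) (x : H →L[ℂ] H) :
    sgm (fun t => cj hJ (U (-t))) t x = cj hJ (sgm U (-t) (cj hJ x)) := by
  unfold sgm
  rw [cj_mul, cj_mul, cj_cj, cj_star]

/-- the modular group of the commutant -/
theorem modular_cj {M : VonNeumannAlgebra H} {ξ : H} {U : ℝ → H →L[ℂ] H} {J : H → H}
    (hJ : AC J) (hU : IsModular M ξ U) (hfix : J ξ = ξ)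
    (h1 : ∀ x : H →L[ℂ] H, x ∈ M → cj hJ x ∈ M.commutant)
    (h2 : ∀ x : H →L[ℂ] H, x ∈ M.commutant → cj hJ x ∈ M) :
    IsModular M.commutant ξ (fun t => cj hJ (U (-t))) where
  zero := by rw [neg_zero, hU.zero, cj_one]
  add s t := by rw [neg_add, hU.add, cj_mul]
  star_eq t := by rw [cj_star, hU.star_eq]
  cont v := by
    show Continuous fun t => J (U (-t) (J v))
    exact hJ.cont.comp ((hU.cont (J v)).comp continuous_neg)
  fix t := by rw [cj_apply, hfix, hU.fix, hfix]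
  mem t x hx := by
    rw [sgm_cj]
    exact h1 _ (hU.mem _ _ (h2 x hx))
  kms a' b' ha' hb' := by
    obtain ⟨F, hF1, hF2, ⟨C, hC⟩, hF4⟩ := hU.kms (cj hJ a') (cj hJ b') (h2 _ ha') (h2 _ hb')
    have key : ∀ c d : H →L[ℂ] H, vst ξ (cj hJ c * cj hJ d) = starRingEnd ℂ (vst ξ (c * d)) := by
      intro c d
      rw [← cj_mul]
      unfold vst
      rw [cj_apply, hfix]
      have e := hJ.inner ξ ((c * d) ξ)
      rw [hfix] at e
      rw [e, inner_conj_symm]
    refine ⟨fun z => starRingEnd ℂ (F (-(starRingEnd ℂ z))), ?_, ?_, ⟨C, ?_⟩, ?_⟩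
    · refine Complex.continuous_conj.comp_continuousOn (hF1.comp
        (Complex.continuous_conj.neg.continuousOn) ?_)
      intro z hz
      simp only [Set.mem_ofPred_eq, Complex.neg_im, Complex.conj_im, neg_neg] at hz ⊢
      exact hz
    · intro z hz
      have hopen : IsOpen {z : ℂ | 0 < z.im ∧ z.im < 1} :=
        (isOpen_lt continuous_const Complex.continuous_im).inter
          (isOpen_lt Complex.continuous_im continuous_const)
      have hz' : -(starRingEnd ℂ z) ∈ {z : ℂ | 0 < z.im ∧ z.im < 1} := by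
        simp only [Set.mem_ofPred_eq, Complex.neg_im, Complex.conj_im, neg_neg] at hz ⊢
        exact hz
      have hd : DifferentiableAt ℂ F (-(starRingEnd ℂ z)) :=
        (hF2 _ hz').differentiableAt (hopen.mem_nhds hz')
      have hd2 : DifferentiableAt ℂ (fun w => F (-w)) (starRingEnd ℂ z) :=
        hd.comp _ differentiableAt_id.neg
      have hd3 := hd2.conj_conj
      rw [Complex.conj_conj] at hd3
      exact hd3.differentiableWithinAt
    · intro z h0 h1
      rw [RCLike.norm_conj]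
      refine hC _ ?_ ?_
      · simpa using h0
      · simpa using h1
    · intro t
      have e1 := hF4 (-t)
      constructor
      · rw [sgm_cj]
        have : cj hJ (sgm U (-t) (cj hJ a')) * b' =
            cj hJ (sgm U (-t) (cj hJ a')) * cj hJ (cj hJ b') := by rw [cj_cj]
        rw [this, key, ← e1.1]
        simp
      · rw [sgm_cj]
        have : b' * cj hJ (sgm U (-t) (cj hJ a')) =
            cj hJ (cj hJ b') * cj hJ (sgm U (-t) (cj hJ a')) := by rw [cj_cj]
        rw [this, key, ← e1.2]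
        have e3 : -(starRingEnd ℂ ((t : ℂ) + I)) = ((-t : ℝ) : ℂ) + I := by
          rw [map_add, Complex.conj_ofReal, Complex.conj_I]
          push_cast
          ring
        show starRingEnd ℂ (F (-(starRingEnd ℂ ((t : ℂ) + I)))) = _
        rw [e3]

/-- the commutant of a von Neumann algebra with a separating vector has it as a cyclic vector -/
theorem comm_dense {N : VonNeumannAlgebra H} {ξ : H} (h : IsSeparating N ξ) :
    Dense {v : H | ∃ y : H →L[ℂ] H, y ∈ N.commutant ∧ y ξ = v} := by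
  let K0 : Submodule ℂ H :=
    { carrier := {v : H | ∃ y : H →L[ℂ] H, y ∈ N.commutant ∧ y ξ = v}
      add_mem' := by
        rintro a b ⟨y, hy, rfl⟩ ⟨z, hz, rfl⟩
        exact ⟨y + z, add_mem hy hz, rfl⟩
      zero_mem' := ⟨0, zero_mem _, rfl⟩
      smul_mem' := by
        rintro c a ⟨y, hy, rfl⟩
        refine ⟨c • y, ?_, rfl⟩
        rw [VonNeumannAlgebra.mem_commutant_iff] at hy ⊢
        intro g hg
        rw [mul_smul_comm, hy g hg, smul_mul_assoc] }
  let K : Submodule ℂ H := K0.topologicalClosure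
  have : CompleteSpace K := K0.isClosed_topologicalClosure.completeSpace_coe
  have hp : K.starProjection ∈ N := by
    rw [VonNeumannAlgebra.IsStarProjection.mem_iff isStarProjection_starProjection]
    intro y hy
    rw [Submodule.range_starProjection]
    rw [Module.End.mem_invtSubmodule]
    intro v hv
    show y v ∈ K
    have hv' : v ∈ closure (K0 : Set H) := hv
    have : y v ∈ closure (K0 : Set H) := by
      refine map_mem_closure y.continuous hv' ?_
      rintro a ⟨z, hz, rfl⟩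
      exact ⟨y * z, mul_mem hy hz, rfl⟩
    exact this
  have hξ : ξ ∈ K := K0.le_topologicalClosure ⟨1, one_mem _, rfl⟩
  have h0 : (1 - K.starProjection) ξ = 0 := by
    have : K.starProjection ξ = ξ := Submodule.starProjection_eq_self_iff.2 hξ
    simp [this]
  have h1 := h _ (sub_mem (one_mem _) hp) h0
  have h2 : K.starProjection = 1 := (sub_eq_zero.1 h1).symm
  intro v
  have h3 : v ∈ K := by
    have : K.starProjection v = v := by rw [h2]; rfl
    exact Submodule.starProjection_eq_self_iff.1 this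
  exact h3

/-- `J M J ⊆ M'` -/
theorem cj_mem_comm {M : VonNeumannAlgebra H} {ξ : H} {U : ℝ → H →L[ℂ] H} {J : H → H}
    (hJ : IsConj M ξ U J) {x : H →L[ℂ] H} (hx : x ∈ M) : cj (ac_of hJ) x ∈ M.commutant := by
  rw [VonNeumannAlgebra.mem_commutant_iff]
  intro g hg
  ext v
  exact hJ.comm g x hg hx v

/-- `J M' J ⊆ M` -/
theorem cj_mem {M : VonNeumannAlgebra H} {ξ : H} {U : ℝ → H →L[ℂ] H} {J : H → H} (h2 : S_comm)
    (hU : IsModular M ξ U) (hc : IsCyclic M ξ)
    (hJ : IsConj M ξ U J) {x : H →L[ℂ] H} (hx : x ∈ M.commutant) : cj (ac_of hJ) x ∈ M := by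
  refine h2 H M ξ U J hU hc hJ _ ?_
  intro y hy v
  rw [cj_apply, cj_apply, hJ.inv]
  rw [VonNeumannAlgebra.mem_commutant_iff] at hx
  have := congrArg (fun z : H →L[ℂ] H => z (J v)) (hx y hy)
  have h3 : y (x (J v)) = x (y (J v)) := this
  rw [hJ.inv, h3]

/-- the composition of two antiunitary involutions -/
noncomputable def TT {J J' : H → H} (hJ : AC J) (hJ' : AC J') : H →ₗᵢ[ℂ] H where
  toFun v := J (J' v)
  map_add' v w := by rw [hJ'.add, hJ.add]
  map_smul' c v := by rw [hJ'.smul, hJ.smul, Complex.conj_conj, RingHom.id_apply]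
  norm_map' v := by
    show ‖J (J' v)‖ = ‖v‖
    rw [hJ.norm, hJ'.norm]

omit [CompleteSpace H] in
theorem TT_apply {J J' : H → H} (hJ : AC J) (hJ' : AC J') (v : H) : TT hJ hJ' v = J (J' v) := rfl

/-- a positive linear isometry is the identity -/
theorem pos_iso (T : H →ₗᵢ[ℂ] H) (h : ∀ v : H, ⟪v, T v⟫_ℂ ∈ T_ps.NN) (v : H) : T v = v := by
  have hsym : T.toLinearMap.IsSymmetric := by
    rw [LinearMap.isSymmetric_iff_inner_map_self_real]
    intro v
    have h1 := h v
    rw [Complex.conj_eq_iff_im, ← inner_conj_symm, Complex.conj_im]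
    have : (⟪v, T.toLinearMap v⟫_ℂ).im = 0 := h1.2
    rw [this, neg_zero]
  have h2 : T (T v) = v := by
    refine ext_inner_right ℂ fun w => ?_
    have h3 := hsym (T v) w
    have h4 : ⟪T (T v), w⟫_ℂ = ⟪T v, T w⟫_ℂ := h3
    rw [h4, T.inner_map_map]
  have h5 : T (T v - v) = -(T v - v) := by rw [map_sub, h2, neg_sub]
  have h6 := (h (T v - v)).1
  rw [h5, inner_neg_right, inner_self_norm] at h6
  have h7 : (-((‖T v - v‖ : ℂ)) ^ 2).re = -(‖T v - v‖ ^ 2) := by
    rw [← Complex.ofReal_pow, ← Complex.ofReal_neg, Complex.ofReal_re]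
  rw [h7] at h6
  have h8 : ‖T v - v‖ = 0 := by
    have := sq_nonneg ‖T v - v‖
    have h9 : ‖T v - v‖ ^ 2 = 0 := by linarith
    exact pow_eq_zero_iff two_ne_zero |>.1 h9
  exact sub_eq_zero.1 (norm_eq_zero.1 h8)

/-! test functions -/

theorem tst_mul_exp {g : ℝ → ℂ} (hg : Tst g) (c : ℂ) : Tst fun κ => cexp (c * κ) * g κ := by
  refine ⟨?_, ?_⟩
  · refine ContDiff.mul ?_ hg.1
    exact (contDiff_const.mul Complex.ofRealCLM.contDiff).cexp
  · exact hg.2.mul_left

theorem tst_conj {g : ℝ → ℂ} (hg : Tst g) : Tst fun κ => starRingEnd ℂ (g κ) := by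
  refine ⟨Complex.conjCLE.contDiff.comp hg.1, ?_⟩
  exact hg.2.comp_left (map_zero _)

end

theorem r (h1 : S_conj) (h2 : S_comm) (h3 : S_TTu) (h4 : S_psi) (h5 : S_psi_mul) (h6 : S_psi_one)
    (h7 : S_phi) (h8 : S_A8a) : S_univ := by
  intro H _ _ _ M ξ U J hM ξ' U' hξ' hs' hU'
  have hJ := hM.conj
  have hA := ac_of hJ
  -- (a)
  have hJξ : J ξ' = ξ' := T_ps.cone_J hJ hξ'
  -- (b)
  have hb1 : ∀ x : H →L[ℂ] H, x ∈ M → cj hA x ∈ M.commutant := fun x hx => cj_mem_comm hJ hx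
  have hb2 : ∀ x : H →L[ℂ] H, x ∈ M.commutant → cj hA x ∈ M :=
    fun x hx => cj_mem h2 hM.modular hM.cyc hJ hx
  -- (c)
  have hsc : IsSeparating M.commutant ξ' := by
    intro x hx h0
    have h9 : cj hA x ξ' = 0 := by rw [cj_apply, hJξ, h0, hA.zero]
    have h10 := hs' _ (hb2 x hx) h9
    rw [← cj_cj hA x, h10]
    ext v
    rw [cj_apply]
    exact hA.zero
  have hcyc : IsCyclic M ξ' := by
    have := comm_dense hsc
    rw [VonNeumannAlgebra.commutant_commutant] at this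
    exact this
  have hcyc' : IsCyclic M.commutant ξ' := comm_dense hs'
  -- (d)
  obtain ⟨J', hJ'⟩ := h1 H M ξ' U' hU' hcyc
  have hA' := ac_of hJ'
  have hb1' : ∀ x : H →L[ℂ] H, x ∈ M → cj hA' x ∈ M.commutant := fun x hx => cj_mem_comm hJ' hx
  have hb2' : ∀ x : H →L[ℂ] H, x ∈ M.commutant → cj hA' x ∈ M :=
    fun x hx => cj_mem h2 hU' hcyc hJ' hx
  -- (e)
  have hW := modular_cj hA hU' hJξ hb1 hb2
  have hW' := modular_cj hA' hU' hJ'.fix hb1' hb2'
  have hWW := h3 H M.commutant ξ' _ _ hcyc' hW hW'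
  have hJU : ∀ (t : ℝ) (v : H), J (U' t v) = U' t (J v) := by
    intro t v
    have e1 := congrFun hWW (-t)
    simp only [neg_neg] at e1
    have e2 := congrArg (fun z : H →L[ℂ] H => z (J v)) e1
    have e3 : J (U' t (J (J v))) = J' (U' t (J' (J v))) := e2
    rw [hA.inv, hJ'.modular, hA'.inv] at e3
    exact e3
  -- (f)
  set T := TT hA hA' with hT
  have hTU : ∀ (t : ℝ) (v : H), T (U' t v) = U' t (T v) := by
    intro t v
    rw [hT, TT_apply, TT_apply, hJ'.modular, hJU]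
  have hTpsi : ∀ (h : ℝ → ℂ) (v : H), T (psi U' h v) = psi U' h (T v) := by
    intro h v
    unfold psi
    rw [← T.integral_comp_comm]
    refine integral_congr_ae (Eventually.of_forall fun s => ?_)
    show T ((𝓕 h s) • U' (2 * Real.pi * s) v) = (𝓕 h s) • U' (2 * Real.pi * s) (T v)
    rw [map_smul, hTU]
  have hpos0 : ∀ (g : ℝ → ℂ) (x : H →L[ℂ] H), Tst g → x ∈ M →
      ⟪psi U' g (x ξ'), T (psi U' g (x ξ'))⟫_ℂ ∈ T_ps.NN := by
    intro g x hg hx
    set v := x ξ' with hv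
    set g1 : ℝ → ℂ := fun κ => cexp ((1 / 4 : ℂ) * κ) * g κ with hg1
    set g2 : ℝ → ℂ := fun κ => cexp ((-1 / 4 : ℂ) * κ) * g κ with hg2
    have hg1t : Tst g1 := tst_mul_exp hg _
    have hg2t : Tst g2 := tst_mul_exp hg _
    obtain ⟨F, hF, hF1, hF2⟩ := h7 H M ξ' U' hU' g1 hg1t x hx
    have hy : F (I / 2) ξ' = psi U' g2 v := by
      rw [hF1]
      congr 1
      funext κ
      rw [hg1, hg2]
      simp only
      rw [← mul_assoc, ← Complex.exp_add]
      congr 2
      have hI : I * (I / 2) = -1 / 2 := by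
        rw [mul_div_assoc', Complex.I_mul_I]
      rw [hI]
      ring
    have hy0 : F 0 ξ' = psi U' g1 v := by
      rw [hF1]
      congr 1
      funext κ
      simp
    have han := hJ'.an F hF
    rw [hy0] at han
    -- `T psi g1 v = J (y^* ξ')`
    have e1 : T (psi U' g1 v) = J (star (F (I / 2)) ξ') := by
      rw [hT, TT_apply, han]
    have e2 : ⟪psi U' g2 v, T (psi U' g1 v)⟫_ℂ ∈ T_ps.NN := by
      rw [e1, ← hy, adj_l]
      have hmem : star (F (I / 2)) ∈ M := star_mem (hF.mem _)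
      have hcone := T_ps.cone_alf hJ hξ' hmem
      rw [hJξ] at hcone
      exact T_ps.cone_pair h8 hM.modular hJ hξ' hcone
    obtain ⟨-, hadj, -, -⟩ := h4 H M ξ' U' hU' g1 hg1t
    obtain ⟨-, hadjg, -, -⟩ := h4 H M ξ' U' hU' g hg
    have e3 : ⟪psi U' g2 v, T (psi U' g1 v)⟫_ℂ =
        ⟪psi U' (fun κ => starRingEnd ℂ (g1 κ)) (psi U' g2 v), T v⟫_ℂ := by
      rw [hTpsi, hadj]
    have e4 : ⟪psi U' g v, T (psi U' g v)⟫_ℂ =
        ⟪psi U' (fun κ => starRingEnd ℂ (g κ)) (psi U' g v), T v⟫_ℂ := by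
      rw [hTpsi, hadjg]
    have e5 : psi U' (fun κ => starRingEnd ℂ (g1 κ)) (psi U' g2 v) =
        psi U' (fun κ => starRingEnd ℂ (g κ)) (psi U' g v) := by
      rw [← h5 H M ξ' U' hU' _ _ (tst_conj hg1t) hg2t, ← h5 H M ξ' U' hU' _ _ (tst_conj hg) hg]
      congr 1
      funext κ
      rw [hg1, hg2]
      simp only
      have hc : starRingEnd ℂ (cexp ((1 / 4 : ℂ) * κ)) = cexp ((1 / 4 : ℂ) * κ) := by
        rw [← Complex.exp_conj, map_mul, Complex.conj_ofReal, map_div₀, map_one, map_ofNat]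
      rw [map_mul, hc]
      have hx : cexp ((1 / 4 : ℂ) * κ) * cexp ((-1 / 4 : ℂ) * κ) = 1 := by
        rw [← Complex.exp_add]
        have : (1 / 4 : ℂ) * κ + (-1 / 4 : ℂ) * κ = 0 := by ring
        rw [this, Complex.exp_zero]
      calc cexp ((1 / 4 : ℂ) * κ) * starRingEnd ℂ (g κ) * (cexp ((-1 / 4 : ℂ) * κ) * g κ)
          = (cexp ((1 / 4 : ℂ) * κ) * cexp ((-1 / 4 : ℂ) * κ)) * (starRingEnd ℂ (g κ) * g κ) := by
            ring
        _ = _ := by rw [hx, one_mul]
    rw [e4, ← e5, ← e3]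
    exact e2
  have hcl : IsClosed {v : H | ⟪v, T v⟫_ℂ ∈ T_ps.NN} :=
    T_ps.NN_closed.preimage (continuous_id.inner T.continuous)
  have hpos : ∀ v : H, ⟪v, T v⟫_ℂ ∈ T_ps.NN := by
    obtain ⟨k, hk, hk'⟩ := h6 H M ξ' U' hU'
    have h9 : ∀ v ∈ {v : H | ∃ x : H →L[ℂ] H, x ∈ M ∧ x ξ' = v}, ⟪v, T v⟫_ℂ ∈ T_ps.NN := by
      rintro _ ⟨x, hx, rfl⟩
      exact hcl.mem_of_tendsto (hk' (x ξ')) (Eventually.of_forall fun n => hpos0 _ x (hk n) hx)
    intro v
    exact closure_minimal h9 hcl (hcyc v)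
  have hT1 : ∀ v : H, T v = v := pos_iso T hpos
  have hJJ : J' = J := by
    funext v
    have h9 := hT1 v
    rw [hT, TT_apply] at h9
    rw [← hA.inv (J' v), h9]
  rw [hJJ] at hJ'
  exact ⟨hcyc, hs', hU', hJ'⟩

end Pool.Agent.H255.BC.C_univ
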