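import Pool.Agent.H255.BC.Defs7

set_option autoImplicit false

open MeasureTheory Filter Topology Complex
open scoped InnerProductSpace ENNReal FourierTransform

namespace Pool.Agent.H255.BC.X_str

open Pool.Agent.W662.CB Pool.Agent.H255.BC

section

variable {H : Type} [NormedAddCommGroup H] [InnerProductSpace ℂ H] [CompleteSpace H]
  {M : VonNeumannAlgebra H} {ξ : H} {U : ℝ → H →L[ℂ] H} {J : H → H}

theorem Jnorm (hJ : IsConj M ξ U J) (v : H) : ‖J v‖ = ‖v‖ := by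
  have h := hJ.inner v v
  have h1 : ((‖J v‖ : ℂ)) ^ 2 = ((‖v‖ : ℂ)) ^ 2 := by
    have e1 := inner_self_eq_norm_sq_to_K (𝕜 := ℂ) (J v)
    have e2 := inner_self_eq_norm_sq_to_K (𝕜 := ℂ) v
    rw [e1, e2] at h
    simpa using h
  have h2 : ‖J v‖ ^ 2 = ‖v‖ ^ 2 := by exact_mod_cast h1
  exact (sq_eq_sq₀ (norm_nonneg _) (norm_nonneg _)).1 h2

theorem Jsub (hJ : IsConj M ξ U J) (v w : H) : J (v - w) = J v - J w := by
  have h := hJ.smul (-1) w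
  have h' := hJ.add v ((-1 : ℂ) • w)
  rw [h] at h'
  simpa [sub_eq_add_neg] using h'

theorem uapp {N : VonNeumannAlgebra H} {u : H →L[ℂ] H} (hu : IsUni N u) (v : H) :
    u (star u v) = v := by
  have := congrArg (fun T : H →L[ℂ] H => T v) hu.2.2
  simpa using this

theorem uapp' {N : VonNeumannAlgebra H} {u : H →L[ℂ] H} (hu : IsUni N u) (v : H) :
    star u (u v) = v := by
  have := congrArg (fun T : H →L[ℂ] H => T v) hu.2.1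
  simpa using this

theorem adj (u : H →L[ℂ] H) (v w : H) : ⟪star u v, w⟫_ℂ = ⟪v, u w⟫_ℂ := by
  rw [ContinuousLinearMap.star_eq_adjoint, ContinuousLinearMap.adjoint_inner_left]

theorem unorm {N : VonNeumannAlgebra H} {u : H →L[ℂ] H} (hu : IsUni N u) (v : H) :
    ‖u v‖ = ‖v‖ := by
  have h : ⟪u v, u v⟫_ℂ = ⟪v, v⟫_ℂ := by
    rw [← adj, uapp' hu]
  have h1 : ((‖u v‖ : ℂ)) ^ 2 = ((‖v‖ : ℂ)) ^ 2 := by
    have e1 := inner_self_eq_norm_sq_to_K (𝕜 := ℂ) (u v)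
    have e2 := inner_self_eq_norm_sq_to_K (𝕜 := ℂ) v
    rw [e1, e2] at h
    simpa using h
  have h2 : ‖u v‖ ^ 2 = ‖v‖ ^ 2 := by exact_mod_cast h1
  exact (sq_eq_sq₀ (norm_nonneg _) (norm_nonneg _)).1 h2

theorem ustar {N : VonNeumannAlgebra H} {u : H →L[ℂ] H} (hu : IsUni N u) : IsUni N (star u) :=
  ⟨star_mem hu.1, by rw [star_star]; exact hu.2.2, by rw [star_star]; exact hu.2.1⟩

theorem A1 {N : VonNeumannAlgebra H} (hJ : IsConj M ξ U J) {u : H →L[ℂ] H} (hu : IsUni N u) :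
    ‖J (u ξ) - star u ξ‖ = ‖alf J u ξ - ξ‖ := by
  have : J (u ξ) - star u ξ = star u (alf J u ξ - ξ) := by
    unfold alf
    rw [map_sub, uapp' hu, hJ.fix]
  rw [this, unorm (ustar hu)]

theorem B1 {N : VonNeumannAlgebra H} (hJ : IsConj M ξ U J) {u : H →L[ℂ] H} (hu : IsUni N u) :
    ‖J (star u ξ) - u ξ‖ = ‖alf J u ξ - ξ‖ := by
  rw [← A1 hJ hu, ← Jnorm hJ (J (u ξ) - star u ξ), Jsub hJ, hJ.inv, norm_sub_rev]

theorem D1 {N : VonNeumannAlgebra H} (hJ : IsConj M ξ U J) {u : H →L[ℂ] H} (hu : IsUni N u) :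
    ‖alf J (star u) ξ - ξ‖ = ‖alf J u ξ - ξ‖ := by
  rw [← A1 hJ (ustar hu), star_star, B1 hJ hu]

theorem comm1 (h2 : S_A5) {N : VonNeumannAlgebra H} (hNM : ∀ x : H →L[ℂ] H, x ∈ N → x ∈ M)
    (hξ : ‖ξ‖ = 1) (hJ : IsConj M ξ U J) {u : H →L[ℂ] H} (hu : IsUni N u) :
    commNorm M ξ u ≤ 2 * ‖alf J u ξ - ξ‖ := by
  obtain ⟨-, -, -, h4⟩ := h2 H M ξ hξ
  refine h4 u _ (by positivity) ?_
  intro x hx hx1
  have hsu : star u ∈ M := star_mem (hNM _ hu.1)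
  have e0 : ⟪ξ, x (J (star u ξ))⟫_ℂ = ⟪J (u ξ), x ξ⟫_ℂ := by
    have c := hJ.comm x (star u) hx hsu ξ
    rw [hJ.fix] at c
    rw [c]
    have k1 := hJ.inner ξ (star u (J (x ξ)))
    rw [hJ.fix] at k1
    rw [k1, adj]
    have k2 := hJ.inner (x ξ) (J (u ξ))
    rw [hJ.inv] at k2
    rw [k2]
  have e1 : vst ξ (x * u) - vst ξ (u * x) =
      ⟪ξ, x (u ξ - J (star u ξ))⟫_ℂ + ⟪J (u ξ) - star u ξ, x ξ⟫_ℂ := by
    unfold vst
    rw [map_sub, inner_sub_right, inner_sub_left, e0, adj]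
    simp only [mul_apply_eq_comp]
    ring
  rw [e1]
  have n1 : ‖⟪ξ, x (u ξ - J (star u ξ))⟫_ℂ‖ ≤ ‖alf J u ξ - ξ‖ := by
    calc ‖⟪ξ, x (u ξ - J (star u ξ))⟫_ℂ‖ ≤ ‖ξ‖ * ‖x (u ξ - J (star u ξ))‖ := norm_inner_le_norm _ _
      _ ≤ ‖ξ‖ * (‖x‖ * ‖u ξ - J (star u ξ)‖) := by gcongr; exact x.le_opNorm _
      _ = ‖x‖ * ‖u ξ - J (star u ξ)‖ := by rw [hξ, one_mul]
      _ ≤ 1 * ‖u ξ - J (star u ξ)‖ := by gcongr
      _ = ‖alf J u ξ - ξ‖ := by rw [one_mul, norm_sub_rev, B1 hJ hu]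
  have n2 : ‖⟪J (u ξ) - star u ξ, x ξ⟫_ℂ‖ ≤ ‖alf J u ξ - ξ‖ := by
    calc ‖⟪J (u ξ) - star u ξ, x ξ⟫_ℂ‖ ≤ ‖J (u ξ) - star u ξ‖ * ‖x ξ‖ := norm_inner_le_norm _ _
      _ ≤ ‖J (u ξ) - star u ξ‖ * (‖x‖ * ‖ξ‖) := by gcongr; exact x.le_opNorm _
      _ ≤ ‖J (u ξ) - star u ξ‖ * (1 * ‖ξ‖) := by gcongr
      _ = ‖alf J u ξ - ξ‖ := by rw [hξ, one_mul, mul_one, A1 hJ hu]
  calc _ ≤ ‖⟪ξ, x (u ξ - J (star u ξ))⟫_ℂ‖ + ‖⟪J (u ξ) - star u ξ, x ξ⟫_ℂ‖ := norm_add_le _ _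
    _ ≤ _ := by linarith

theorem alfb {N : VonNeumannAlgebra H} (hNM : ∀ x : H →L[ℂ] H, x ∈ N → x ∈ M)
    (hJ : IsConj M ξ U J) {u b : H →L[ℂ] H} (hu : IsUni N u) (hb : b ∈ M) :
    ‖alf J u (b ξ) - b ξ‖ ≤ ‖b‖ * ‖alf J u ξ - ξ‖ + ‖(star u * b - b * star u) ξ‖ := by
  have c := hJ.comm b u hb (hNM _ hu.1) ξ
  rw [hJ.fix] at c
  have e : alf J u (b ξ) - b ξ =
      u (b (J (u ξ) - star u ξ)) - u ((star u * b - b * star u) ξ) := by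
    unfold alf
    rw [← c]
    simp only [sub_apply, mul_apply_eq_comp, map_sub]
    rw [uapp hu]
    abel
  rw [e]
  calc _ ≤ ‖u (b (J (u ξ) - star u ξ))‖ + ‖u ((star u * b - b * star u) ξ)‖ := norm_sub_le _ _
    _ = ‖b (J (u ξ) - star u ξ)‖ + ‖(star u * b - b * star u) ξ‖ := by
        rw [unorm hu, unorm hu]
    _ ≤ _ := by
        gcongr
        calc ‖b (J (u ξ) - star u ξ)‖ ≤ ‖b‖ * ‖J (u ξ) - star u ξ‖ := b.le_opNorm _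
          _ = _ := by rw [A1 hJ hu]

theorem alfn {N : VonNeumannAlgebra H} (hJ : IsConj M ξ U J) {u : H →L[ℂ] H} (hu : IsUni N u)
    (v : H) : ‖alf J u v‖ = ‖v‖ := by
  unfold alf
  rw [unorm hu, Jnorm hJ, unorm hu, Jnorm hJ]

end

theorem r (h1 : S_Bchar) (h2 : S_A5) : S_str := by
  intro H _ _ _ N M ξ U J E hI b hb hseq
  have hJ := hI.conj
  have hξ := hI.unit
  have hNM := hI.le
  rw [h1 H N M ξ U J E hI b]
  refine ⟨hb, ?_⟩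
  by_contra hK
  have hK' : ∃ a : ℝ, 0 < a ∧ ∀ k : ℝ, 0 ≤ k → ∃ u : H →L[ℂ] H, IsUni N u ∧
      a + k * ‖alf J u ξ - ξ‖ ^ 2 < ‖alf J u (b ξ) - b ξ‖ ^ 2 := by
    have hK2 : ¬ (∀ a : ℝ, 0 < a → ∃ k : ℝ, 0 ≤ k ∧ ∀ u : H →L[ℂ] H, IsUni N u →
      ‖alf J u (b ξ) - b ξ‖ ^ 2 ≤ a + k * ‖alf J u ξ - ξ‖ ^ 2) := hK
    push Not at hK2
    obtain ⟨a, ha, h⟩ := hK2
    exact ⟨a, ha, h⟩
  obtain ⟨a₀, ha₀, hk⟩ := hK'
  choose u hu hlt using fun n : ℕ => hk ((n : ℝ) + 1) (by positivity)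
  have hbd : ∀ n, ‖alf J (u n) (b ξ) - b ξ‖ ≤ 2 * ‖b ξ‖ := by
    intro n
    calc _ ≤ ‖alf J (u n) (b ξ)‖ + ‖b ξ‖ := norm_sub_le _ _
      _ = _ := by rw [alfn hJ (hu n)]; ring
  have hD2 : ∀ n, ‖alf J (u n) ξ - ξ‖ ^ 2 ≤ (4 * ‖b ξ‖ ^ 2) * (1 / ((n : ℝ) + 1)) := by
    intro n
    have h3 : ‖alf J (u n) (b ξ) - b ξ‖ ^ 2 ≤ 4 * ‖b ξ‖ ^ 2 := by
      have := pow_le_pow_left₀ (norm_nonneg _) (hbd n) 2
      nlinarith [this]
    have h4 : ((n : ℝ) + 1) * ‖alf J (u n) ξ - ξ‖ ^ 2 ≤ 4 * ‖b ξ‖ ^ 2 := by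
      have := hlt n
      linarith
    have hp : (0 : ℝ) < (n : ℝ) + 1 := by positivity
    rw [mul_one_div, le_div_iff₀ hp]
    linarith
  have hT2 : Tendsto (fun n => ‖alf J (u n) ξ - ξ‖ ^ 2) atTop (𝓝 0) := by
    refine squeeze_zero (fun n => by positivity) hD2 ?_
    have := (tendsto_one_div_add_atTop_nhds_zero_nat (𝕜 := ℝ)).const_mul (4 * ‖b ξ‖ ^ 2)
    simpa using this
  have hT : Tendsto (fun n => ‖alf J (u n) ξ - ξ‖) atTop (𝓝 0) := by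
    have h5 := (Real.continuous_sqrt.tendsto 0).comp hT2
    rw [Real.sqrt_zero] at h5
    refine h5.congr ?_
    intro n
    exact Real.sqrt_sq (norm_nonneg _)
  have hcn : Tendsto (fun n => commNorm M ξ (star (u n))) atTop (𝓝 0) := by
    refine squeeze_zero (fun n => (h2 H M ξ hξ).1 _) (g := fun n => 2 * ‖alf J (u n) ξ - ξ‖)
      (fun n => ?_) ?_
    · have := comm1 h2 hNM hξ hJ (ustar (hu n))
      rwa [D1 hJ (hu n)] at this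
    · simpa using hT.const_mul 2
  have hs := hseq (fun n => star (u n)) (fun n => (ustar (hu n)).1) ⟨1, fun n => by
    refine ContinuousLinearMap.opNorm_le_bound _ (by norm_num) (fun v => ?_)
    rw [unorm (ustar (hu n)), one_mul]⟩ hcn ξ
  have hs' : Tendsto (fun n => ‖(star (u n) * b - b * star (u n)) ξ‖) atTop (𝓝 0) := by
    simpa using hs.norm
  have hfin : Tendsto (fun n => ‖alf J (u n) (b ξ) - b ξ‖) atTop (𝓝 0) := by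
    refine squeeze_zero (fun n => norm_nonneg _) (fun n => alfb hNM hJ (hu n) hb) ?_
    simpa using (hT.const_mul ‖b‖).add hs'
  have hfin2 : Tendsto (fun n => ‖alf J (u n) (b ξ) - b ξ‖ ^ 2) atTop (𝓝 0) := by
    simpa using hfin.pow 2
  have hge : ∀ n, a₀ ≤ ‖alf J (u n) (b ξ) - b ξ‖ ^ 2 := by
    intro n
    have := hlt n
    have hp : (0 : ℝ) ≤ ((n : ℝ) + 1) * ‖alf J (u n) ξ - ξ‖ ^ 2 := by positivity
    linarith
  have := ge_of_tendsto' hfin2 hge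
  linarith

end Pool.Agent.H255.BC.X_str
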