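import Pool.Agent.H255.BC.All5
import Pool.Agent.H255.BC.C_univ
import Pool.Agent.H255.BC.C_fixp
import Pool.Agent.H255.BC.C_cent
import Pool.Agent.H255.BC.C_cor
import Pool.Agent.H255.BC.C_sp2
import Pool.Agent.H255.BC.C_spi
import Pool.Agent.H255.BC.C_dec
import Pool.Agent.H255.BC.C_con
import Pool.Agent.H255.BC.C_ai
import Pool.Agent.H255.BC.C_sepz
import Pool.Agent.H255.BC.C_pnc
import Pool.Agent.H255.BC.C_exh
import Pool.Agent.H255.BC.C_hom1
import Pool.Agent.H255.BC.C_hom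
import Pool.Agent.H255.BC.X_str

/-!
The Connes–Størmer theorem (assembly, helper255).
-/

set_option autoImplicit false

namespace Pool.Agent.H255.BC

open Pool.Agent.W662.CB

theorem huniv : S_univ := C_univ.r hconj hcomm hTTu hpsi hpsi_mul hpsi_one hphi pA8a
theorem hfixp : S_fixp := C_fixp.r hpsi hpsi_J hpsi_inv
theorem hcent : S_cent := C_cent.r pA2 pA8a
theorem hcor : S_cor := C_cor.r hfixp hpsi
theorem hsp2 : S_sp2 := C_sp2.r hpsi hpsi_mul hpsi_one hphi
theorem hspi : S_spi := C_spi.r hfixp hcor hsp2 hpsi hpsi_mul hpsi_norm hpsi_one hpsi_J hphi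
theorem hdec : S_dec := C_dec.r
theorem hcon : S_con := C_con.r hdec
theorem hai : S_ai := C_ai.r hspi hcon
theorem hsepz : S_sepz := C_sepz.r huniv hTT hpsi hpsi_mul hpsi_one hpsi_J
theorem hpnc : S_pnc := C_pnc.r hsepz
theorem hexh : S_exh := C_exh.r hcomm huniv hTT hai hsepz hpnc
theorem hhom1 : S_hom1 := C_hom1.r hexh hTT hconj hcomm hcent
theorem hhom : S_hom := C_hom.r hhom1
theorem hstr : S_str := X_str.r hBchar pA5

end Pool.Agent.H255.BC
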