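import Pool.Agent.H255.BC.Defs8
import Pool.Agent.H255.BC.R_slice
import Pool.Agent.H255.BC.R_ops
import Pool.Graph.R_pool_sql_team_seeded_f72693b1.W481.WD.KSET

/-!
An element of `KN P₀ X` with slices in the relative bicentralizer (`S_daav`; helper922, stage 8 of
the project BC of helper255).
-/

set_option autoImplicit false

open MeasureTheory Filter Topology Complex
open scoped InnerProductSpace ENNReal

namespace Pool.Agent.H255.BC.D_daav

open Pool.Agent.W662.CB Pool.Agent.W988.WD Pool.Agent.H255.BC Pool.Agent.H321.BC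

section basics

variable {H : Type} [NormedAddCommGroup H] [InnerProductSpace ℂ H] [CompleteSpace H]
variable {N M : VonNeumannAlgebra H} {ξ : H} {U : ℝ → H →L[ℂ] H} {J : H → H}

theorem uni_star {u : H →L[ℂ] H} (h : IsUni N u) : IsUni N (star u) :=
  ⟨star_mem h.1, by rw [star_star]; exact h.2.2, by rw [star_star]; exact h.2.1⟩

theorem uni_one : IsUni N (1 : H →L[ℂ] H) := ⟨one_mem _, by simp, by simp⟩

theorem uni_mul {u u' : H →L[ℂ] H} (h : IsUni N u) (h' : IsUni N u') : IsUni N (u * u') := by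
  refine ⟨mul_mem h.1 h'.1, ?_, ?_⟩
  · rw [star_mul, mul_assoc, ← mul_assoc (star u), h.2.1, one_mul, h'.2.1]
  · rw [star_mul, mul_assoc, ← mul_assoc u', h'.2.2, one_mul, h.2.2]

theorem alf_mul (hJ : IsConj M ξ U J) {u u' : H →L[ℂ] H} (hu : u ∈ M) (hu' : u' ∈ M) (v : H) :
    alf J (u * u') v = alf J u (alf J u' v) := by
  unfold alf
  have h := hJ.comm u' u hu' hu (J (u' (J v)))
  rw [hJ.inv] at h
  change u (u' (J (u (u' (J v))))) = u (J (u (J (u' (J (u' (J v)))))))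
  rw [← h]

theorem alf_sub (hJ : IsConj M ξ U J) (u : H →L[ℂ] H) (v w : H) :
    alf J u (v - w) = alf J u v - alf J u w := by
  unfold alf
  rw [J_sub hJ, map_sub, J_sub hJ, map_sub]

/-- the distance to the asymptotic centralizer -/
theorem d_star (hJ : IsConj M ξ U J) {u : H →L[ℂ] H} (hu : u ∈ M) (h1 : star u * u = 1)
    (h2 : u * star u = 1) : ‖alf J (star u) ξ - ξ‖ = ‖alf J u ξ - ξ‖ := by
  rw [alf_xi hJ hu h1 h2, alf_xi hJ (star_mem hu) (by rw [star_star]; exact h2)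
    (by rw [star_star]; exact h1), star_star, ← J_norm hJ (J (star u ξ) - u ξ), J_sub hJ, hJ.inv,
    norm_sub_rev]

theorem sgm_mul (hU : IsModular M ξ U) (t : ℝ) (x y : H →L[ℂ] H) :
    sgm U t (x * y) = sgm U t x * sgm U t y := by
  unfold sgm
  have h : star (U t) * U t = 1 := by rw [hU.star_eq, ← hU.add, neg_add_cancel, hU.zero]
  calc U t * (x * y) * star (U t) = U t * x * 1 * y * star (U t) := by
        simp only [mul_assoc, mul_one]
    _ = _ := by rw [← h]; simp only [mul_assoc]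

theorem sgm_one (hU : IsModular M ξ U) (t : ℝ) : sgm U t (1 : H →L[ℂ] H) = 1 := by
  unfold sgm
  rw [mul_one, hU.star_eq, ← hU.add, add_neg_cancel, hU.zero]

theorem sig_mul (hU : IsModular M ξ U) {x y : H →L[ℂ] H} {S S' : LR H →L[ℂ] LR H}
    (h : IsSig U x S) (h' : IsSig U y S') : IsSig U (x * y) (S * S') := by
  intro f
  have e : (S * S') f = S (S' f) := rfl
  rw [e]
  filter_upwards [h (S' f), h' f] with s h1 h2
  rw [h1, h2, sgm_mul hU]
  rfl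

theorem sig_one (hU : IsModular M ξ U) : IsSig U (1 : H →L[ℂ] H) (1 : LR H →L[ℂ] LR H) := by
  intro f
  filter_upwards with s
  rw [sgm_one hU]
  rfl

theorem ten_unique {f : ℝ → ℂ} {T T' : H →L[ℂ] LR H} (h : IsTen f T) (h' : IsTen f T') :
    T = T' := by
  ext1 v
  exact Lp.ext ((h v).trans (h' v).symm)

theorem const_unique {x : H →L[ℂ] H} {S S' : LR H →L[ℂ] LR H} (h : IsConst x S)
    (h' : IsConst x S') : S = S' := by
  ext1 f
  exact Lp.ext ((h f).trans (h' f).symm)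

/-- the norm of `e ⊗ v` -/
theorem ten_norm {e : ℝ → ℂ} {T : H →L[ℂ] LR H} (hT : IsTen e T)
    (he : ∫ s : ℝ, starRingEnd ℂ (e s) * e s = 1) (v : H) : ‖T v‖ = ‖v‖ := by
  have h1 : ‖T v‖ ^ 2 = ∫ s, ‖e s‖ ^ 2 * ‖v‖ ^ 2 := by
    rw [LR_norm_sq]
    apply integral_congr_ae
    filter_upwards [hT v] with s hs
    rw [hs, norm_smul, mul_pow]
  have h2 : ∫ s, ‖e s‖ ^ 2 = 1 := by
    have h3 : (∫ s : ℝ, starRingEnd ℂ (e s) * e s) = ((∫ s, ‖e s‖ ^ 2 : ℝ) : ℂ) := by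
      rw [← integral_complex_ofReal]
      congr 1
      ext s
      rw [mul_comm, Complex.mul_conj, Complex.normSq_eq_norm_sq]
    rw [he] at h3
    exact_mod_cast h3.symm
  rw [integral_mul_const, h2, one_mul] at h1
  exact (sq_eq_sq₀ (norm_nonneg _) (norm_nonneg _)).1 h1

end basics

section main

variable {H : Type} [NormedAddCommGroup H] [InnerProductSpace ℂ H] [CompleteSpace H]
variable {N M : VonNeumannAlgebra H} {ξ : H} {U : ℝ → H →L[ℂ] H} {J : H → H}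
  {E : (H →L[ℂ] H) → (H →L[ℂ] H)}

theorem sig_star' (h5 : S_ops) (hU : IsModular M ξ U) {u : H →L[ℂ] H} {R : LR H →L[ℂ] LR H}
    (hR : IsSig U u R) : IsSig U (star u) (star R) := by
  obtain ⟨-, hs, -⟩ := h5 H M ξ U hU
  obtain ⟨S, hS, -, hS'⟩ := hs u
  rwa [R_ops.sig_unique hR hS]

theorem const_star' (h5 : S_ops) (hU : IsModular M ξ U) {u : H →L[ℂ] H} {S : LR H →L[ℂ] LR H}
    (hS : IsConst u S) : IsConst (star u) (star S) := by
  obtain ⟨-, -, hs, -⟩ := h5 H M ξ U hU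
  obtain ⟨S', hS', -, h⟩ := hs u
  rwa [const_unique hS hS']

theorem const_norm' (h5 : S_ops) (hU : IsModular M ξ U) {u : H →L[ℂ] H} {S : LR H →L[ℂ] LR H}
    (hS : IsConst u S) : ‖S‖ ≤ ‖u‖ := by
  obtain ⟨-, -, hs, -⟩ := h5 H M ξ U hU
  obtain ⟨S', hS', h, -⟩ := hs u
  rwa [const_unique hS hS']

/-- the unitaries `π_σ(u)` with `u` near the centralizer -/
def UU (N : VonNeumannAlgebra H) (ξ : H) (U : ℝ → H →L[ℂ] H) (J : H → H) (δ : ℝ) :
    Set (LR H →L[ℂ] LR H) :=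
  {R | ∃ u : H →L[ℂ] H, IsUni N u ∧ ‖alf J u ξ - ξ‖ ≤ δ ∧ IsSig U u R}

theorem UU_uni (h5 : S_ops) (hU : IsModular M ξ U) {u : H →L[ℂ] H} (hu : IsUni N u)
    {R : LR H →L[ℂ] LR H} (hR : IsSig U u R) : star R * R = 1 ∧ R * star R = 1 := by
  have hs := sig_star' h5 hU hR
  constructor
  · have h1 := sig_mul hU hs hR
    rw [hu.2.1] at h1
    exact R_ops.sig_unique h1 (sig_one hU)
  · have h1 := sig_mul hU hR hs
    rw [hu.2.2] at h1
    exact R_ops.sig_unique h1 (sig_one hU)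

theorem op_le_one {K : Type} [NormedAddCommGroup K] [InnerProductSpace ℂ K] [CompleteSpace K]
    {R : K →L[ℂ] K} (h : star R * R = 1) : ‖R‖ ≤ 1 :=
  ContinuousLinearMap.opNorm_le_bound _ zero_le_one fun v => by rw [isom_norm h, one_mul]

/-- `π_σ(u)^* ≈ u^* ⊗ 1` -/
theorem near (h2 : S_dpa) (h5 : S_ops) (hI : Inc N M ξ U J E) (Φ : LR H) {ε : ℝ} (hε : 0 < ε) :
    ∃ δ : ℝ, 0 < δ ∧ ∀ u : H →L[ℂ] H, IsUni N u → ‖alf J u ξ - ξ‖ ≤ δ →
      ∀ R S : LR H →L[ℂ] LR H, IsSig U u R → IsConst (star u) S → ‖star R Φ - S Φ‖ ≤ ε := by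
  obtain ⟨δ, hδ, h⟩ := h2 H N M ξ U J E hI Φ ε hε
  refine ⟨δ, hδ, fun u hu hd R S hR hS => ?_⟩
  refine h (star u) (uni_star hu) ?_ (star R) S (sig_star' h5 hI.modular hR) hS
  rw [d_star hI.conj (hI.le _ hu.1) hu.2.1 hu.2.2]
  exact hd

/-- asymptotic invariance -/
theorem asym (h2 : S_dpa) (h5 : S_ops) (hI : Inc N M ξ U J E) {Y : LR H →L[ℂ] LR H}
    (hY : Y ∈ Amp M) {g : ℝ → ℂ} {T : H →L[ℂ] LR H} (hT : IsTen g T) {ε : ℝ} (hε : 0 < ε) :
    ∃ δ : ℝ, 0 < δ ∧ ∀ w ∈ UU N ξ U J δ, ‖Y (star w (T ξ))‖ ≤ ‖Y (T ξ)‖ + ε := by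
  have hJ := hI.conj
  have hUm := hI.modular
  obtain ⟨-, hsig, hcst, -, -, -⟩ := h5 H M ξ U hUm
  set C : ℝ := ‖Y‖ + ‖Y‖ * ‖T‖ + 1 with hC
  have hC0 : 0 < C := by positivity
  obtain ⟨δ, hδ, h⟩ := near h2 h5 hI (T ξ) (ε := ε / C) (by positivity)
  refine ⟨min δ (ε / C), lt_min hδ (by positivity), ?_⟩
  rintro w ⟨u, hu, hd, hw⟩
  have huM := hI.le _ hu.1
  obtain ⟨S', hS', -, -⟩ := hcst (star u)
  have e1 := h u hu (hd.trans (min_le_left _ _)) w S' hw hS'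
  have e2 : S' (T ξ) = T (star u ξ) := ten_const hT hS' ξ
  -- the operator `J u J`
  have hR := Rop_mem hJ (star_mem huM)
  obtain ⟨S'', hS'', -, -⟩ := hcst (Rop hJ (star u))
  have e3 : Rop hJ (star u) ξ = J (u ξ) := by rw [Rop_xi, star_star]
  have e4 : S'' (T ξ) = T (J (u ξ)) := by rw [ten_const hT hS'' ξ, e3]
  have e5 : Y (T (J (u ξ))) = S'' (Y (T ξ)) := by
    rw [← e4]
    exact DFunLike.congr_fun (hY _ hR S'' hS'') (T ξ)
  have hRn : ‖Rop hJ (star u)‖ ≤ 1 := by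
    refine ContinuousLinearMap.opNorm_le_bound _ zero_le_one fun v => ?_
    rw [Rop_apply, J_norm hJ, star_star, isom_norm hu.2.1, J_norm hJ, one_mul]
  have e6 : ‖Y (T (J (u ξ)))‖ ≤ ‖Y (T ξ)‖ := by
    rw [e5]
    refine (S''.le_opNorm _).trans ?_
    have := (const_norm' h5 hUm hS'').trans hRn
    calc ‖S''‖ * ‖Y (T ξ)‖ ≤ 1 * ‖Y (T ξ)‖ := by gcongr
      _ = _ := one_mul _
  have e7 : ‖star u ξ - J (u ξ)‖ ≤ ε / C := by
    have := d_star hJ huM hu.2.1 hu.2.2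
    rw [alf_xi hJ (star_mem huM) (by rw [star_star]; exact hu.2.2)
      (by rw [star_star]; exact hu.2.1), star_star] at this
    rw [norm_sub_rev, this]
    exact hd.trans (min_le_right _ _)
  have e8 : Y (star w (T ξ)) = Y (star w (T ξ) - S' (T ξ)) + Y (T (star u ξ - J (u ξ))) +
      Y (T (J (u ξ))) := by
    rw [map_sub, map_sub, map_sub, e2]
    abel
  rw [e8]
  have e9 : ‖Y (star w (T ξ) - S' (T ξ))‖ ≤ ‖Y‖ * (ε / C) := (Y.le_opNorm _).trans (by gcongr)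
  have e10 : ‖Y (T (star u ξ - J (u ξ)))‖ ≤ ‖Y‖ * (‖T‖ * (ε / C)) := by
    refine (Y.le_opNorm _).trans ?_
    gcongr
    exact (T.le_opNorm _).trans (by gcongr)
  have e11 : ‖Y‖ * (ε / C) + ‖Y‖ * (‖T‖ * (ε / C)) ≤ ε := by
    have : ‖Y‖ * (ε / C) + ‖Y‖ * (‖T‖ * (ε / C)) = (‖Y‖ + ‖Y‖ * ‖T‖) / C * ε := by
      field_simp
    rw [this]
    have h3 : (‖Y‖ + ‖Y‖ * ‖T‖) / C ≤ 1 := by
      rw [div_le_one hC0]
      linarith
    nlinarith
  calc ‖Y (star w (T ξ) - S' (T ξ)) + Y (T (star u ξ - J (u ξ))) + Y (T (J (u ξ)))‖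
      ≤ ‖Y (star w (T ξ) - S' (T ξ))‖ + ‖Y (T (star u ξ - J (u ξ)))‖ + ‖Y (T (J (u ξ)))‖ :=
        norm_add₃_le
    _ ≤ ‖Y‖ * (ε / C) + ‖Y‖ * (‖T‖ * (ε / C)) + ‖Y (T ξ)‖ := by gcongr
    _ ≤ ‖Y (T ξ)‖ + ε := by linarith

/-- the vectors `e_j ⊗ ξ` are separating -/
theorem sepa (h5 : S_ops) (hI : Inc N M ξ U J E) {e : ℕ → ℝ → ℂ}
    (hb : ∀ (F : LR H), (∀ (k : ℕ) (T : H →L[ℂ] LR H), IsTen (e k) T → ∀ v : H,
      ⟪T v, F⟫_ℂ = 0) → F = 0) {T : ℕ → H →L[ℂ] LR H} (hT : ∀ k, IsTen (e k) (T k))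
    {Y : LR H →L[ℂ] LR H} (hY : Y ∈ Amp M) (h0 : ∀ j, Y (T j ξ) = 0) : Y = 0 := by
  obtain ⟨-, -, hcst, -, -, -⟩ := h5 H M ξ U hI.modular
  have h1 : ∀ j (v : H), Y (T j v) = 0 := by
    intro j
    have hcl : IsClosed {v : H | Y (T j v) = 0} :=
      isClosed_singleton.preimage (Y.continuous.comp (T j).continuous)
    have hsub : {v : H | ∃ y : H →L[ℂ] H, y ∈ M.commutant ∧ y ξ = v} ⊆ {v : H | Y (T j v) = 0} := by
      rintro _ ⟨y, hy, rfl⟩
      obtain ⟨S, hS, -, -⟩ := hcst y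
      change Y (T j (y ξ)) = 0
      rw [← ten_const (hT j) hS]
      have := DFunLike.congr_fun (hY y hy S hS) (T j ξ)
      change Y (S (T j ξ)) = S (Y (T j ξ)) at this
      rw [this, h0, map_zero]
    have h3 := closure_minimal hsub hcl
    rw [(dense_commutant hI.conj hI.cyc).closure_eq] at h3
    exact fun v => h3 (Set.mem_univ v)
  have h2 : ∀ G : LR H, ContinuousLinearMap.adjoint Y G = 0 := by
    intro G
    apply hb
    intro k T' hT' v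
    rw [ten_unique hT' (hT k), ContinuousLinearMap.adjoint_inner_right, h1, inner_zero_left]
  ext1 F
  apply ext_inner_right ℂ
  intro G
  rw [← ContinuousLinearMap.adjoint_inner_right, h2]
  simp

/-- `g ⊗ ξ` is in the closed span of the vectors `e_j ⊗ ξ` -/
theorem span_mem (h5 : S_ops) (hI : Inc N M ξ U J E) {e : ℕ → ℝ → ℂ}
    (hb : ∀ (F : LR H), (∀ (k : ℕ) (T : H →L[ℂ] LR H), IsTen (e k) T → ∀ v : H,
      ⟪T v, F⟫_ℂ = 0) → F = 0) {T : ℕ → H →L[ℂ] LR H} (hT : ∀ k, IsTen (e k) (T k))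
    {g : ℝ → ℂ} {Tg : H →L[ℂ] LR H} (hg : IsTen g Tg) :
    Tg ξ ∈ (Submodule.span ℂ (Set.range fun j => T j ξ)).topologicalClosure := by
  rw [← Submodule.orthogonal_orthogonal_eq_closure, Submodule.mem_orthogonal]
  intro F hF
  rw [Submodule.mem_orthogonal] at hF
  have hF' : ∀ j, ⟪T j ξ, F⟫_ℂ = 0 := fun j => hF _ (Submodule.subset_span ⟨j, rfl⟩)
  obtain ⟨-, -, hcst, -, -, -⟩ := h5 H M ξ U hI.modular
  -- the projection to `ξ`
  set x : H →L[ℂ] H := (innerSL ℂ ξ).smulRight ξ with hx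
  have hxa : ∀ v, x v = ⟪ξ, v⟫_ℂ • ξ := fun v => rfl
  have hxξ : x ξ = ξ := by
    rw [hxa, inner_self_eq_norm_sq_to_K, hI.unit]
    simp
  have hxs : star x = x := by
    rw [ContinuousLinearMap.star_eq_adjoint]
    ext1 v
    apply ext_inner_left ℂ
    intro w
    rw [ContinuousLinearMap.adjoint_inner_right, hxa, hxa, inner_smul_left, inner_smul_right,
      inner_conj_symm]
    ring
  obtain ⟨S, hS, -, -⟩ := hcst x
  have hSs := const_star' h5 hI.modular hS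
  rw [hxs] at hSs
  have hSS : star S = S := const_unique hSs hS
  have hadj : ∀ a b : LR H, ⟪a, S b⟫_ℂ = ⟪S a, b⟫_ℂ := by
    intro a b
    conv_rhs => rw [← hSS]
    rw [ContinuousLinearMap.star_eq_adjoint, ContinuousLinearMap.adjoint_inner_left]
  have h0 : S F = 0 := by
    apply hb
    intro k T' hT' v
    rw [ten_unique hT' (hT k), hadj, ten_const (hT k) hS, hxa, map_smul, inner_smul_left, hF' k,
      mul_zero]
  have h1 : Tg ξ = S (Tg ξ) := by rw [ten_const hg hS, hxξ]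
  rw [h1, hadj, h0, inner_zero_left]

/-- the property of the vectors -/
def Goo (N : VonNeumannAlgebra H) (ξ : H) (U : ℝ → H →L[ℂ] H) (J : H → H)
    (Y : LR H →L[ℂ] LR H) (F : LR H) : Prop :=
  ∀ ε : ℝ, 0 < ε → ∃ δ : ℝ, 0 < δ ∧ ∀ w ∈ UU N ξ U J δ, ‖w (Y (star w F)) - Y F‖ ≤ ε

theorem UU_mono {δ δ' : ℝ} (h : δ ≤ δ') : UU N ξ U J δ ⊆ UU N ξ U J δ' := by
  rintro w ⟨u, hu, hd, hw⟩
  exact ⟨u, hu, hd.trans h, hw⟩

theorem goo_clos (h5 : S_ops) (hI : Inc N M ξ U J E) {Y : LR H →L[ℂ] LR H} {Ω : ℕ → LR H}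
    (hΩ : ∀ j, Goo N ξ U J Y (Ω j)) {F : LR H}
    (hF : F ∈ (Submodule.span ℂ (Set.range Ω)).topologicalClosure) : Goo N ξ U J Y F := by
  have hun : ∀ δ, ∀ w ∈ UU N ξ U J δ, ‖w‖ ≤ 1 ∧ ‖star w‖ ≤ 1 := by
    rintro δ w ⟨u, hu, -, hw⟩
    have h0 := UU_uni h5 hI.modular hu hw
    exact ⟨op_le_one h0.1, op_le_one (by rw [star_star]; exact h0.2)⟩
  let Gs : Submodule ℂ (LR H) :=
    { carrier := {F | Goo N ξ U J Y F}
      zero_mem' := fun ε hε => ⟨1, one_pos, fun w _ => by simp [hε.le]⟩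
      add_mem' := by
        intro F F' h1 h2 ε hε
        obtain ⟨δ, hδ, h3⟩ := h1 (ε / 2) (by positivity)
        obtain ⟨δ', hδ', h4⟩ := h2 (ε / 2) (by positivity)
        refine ⟨min δ δ', lt_min hδ hδ', fun w hw => ?_⟩
        have h5 := h3 w (UU_mono (min_le_left _ _) hw)
        have h6 := h4 w (UU_mono (min_le_right _ _) hw)
        have e : w (Y (star w (F + F'))) - Y (F + F') =
            (w (Y (star w F)) - Y F) + (w (Y (star w F')) - Y F') := by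
          simp only [map_add]
          abel
        rw [e]
        refine (norm_add_le _ _).trans ?_
        linarith
      smul_mem' := by
        intro c F h1 ε hε
        obtain ⟨δ, hδ, h3⟩ := h1 (ε / (‖c‖ + 1)) (by positivity)
        refine ⟨δ, hδ, fun w hw => ?_⟩
        have e : w (Y (star w (c • F))) - Y (c • F) = c • (w (Y (star w F)) - Y F) := by
          simp only [map_smul, smul_sub]
        rw [e, norm_smul]
        calc ‖c‖ * ‖w (Y (star w F)) - Y F‖ ≤ (‖c‖ + 1) * (ε / (‖c‖ + 1)) := by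
              gcongr
              · linarith
              · exact h3 w hw
          _ = ε := by field_simp }
  have hsp : Submodule.span ℂ (Set.range Ω) ≤ Gs := Submodule.span_le.2 (by
    rintro _ ⟨j, rfl⟩
    exact hΩ j)
  intro ε hε
  have hF2 : F ∈ closure (Submodule.span ℂ (Set.range Ω) : Set (LR H)) := hF
  rw [Metric.mem_closure_iff] at hF2
  obtain ⟨F', hF', hd⟩ := hF2 (ε / (4 * (‖Y‖ + 1))) (by positivity)
  rw [dist_eq_norm] at hd
  obtain ⟨δ, hδ, h3⟩ := hsp hF' (ε / 2) (by positivity)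
  refine ⟨δ, hδ, fun w hw => ?_⟩
  obtain ⟨hw1, hw2⟩ := hun δ w hw
  have e : w (Y (star w F)) - Y F = w (Y (star w (F - F'))) + (w (Y (star w F')) - Y F') -
      Y (F - F') := by
    simp only [map_sub]
    abel
  have h4 : ‖w (Y (star w (F - F')))‖ ≤ ‖Y‖ * ‖F - F'‖ := by
    calc ‖w (Y (star w (F - F')))‖ ≤ ‖w‖ * ‖Y (star w (F - F'))‖ := w.le_opNorm _
      _ ≤ 1 * (‖Y‖ * (1 * ‖F - F'‖)) := by
          gcongr
          refine (Y.le_opNorm _).trans ?_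
          gcongr
          exact ((star w).le_opNorm _).trans (by gcongr)
      _ = ‖Y‖ * ‖F - F'‖ := by ring
  have h5' : ‖Y (F - F')‖ ≤ ‖Y‖ * ‖F - F'‖ := Y.le_opNorm _
  have h6 : ‖Y‖ * ‖F - F'‖ ≤ ε / 4 := by
    calc ‖Y‖ * ‖F - F'‖ ≤ (‖Y‖ + 1) * (ε / (4 * (‖Y‖ + 1))) := by
          gcongr
          linarith
      _ = ε / 4 := by field_simp
  rw [e]
  calc ‖w (Y (star w (F - F'))) + (w (Y (star w F')) - Y F') - Y (F - F')‖
      ≤ ‖w (Y (star w (F - F')))‖ + ‖w (Y (star w F')) - Y F'‖ + ‖Y (F - F')‖ :=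
        (norm_sub_le _ _).trans (by gcongr; exact norm_add_le _ _)
    _ ≤ ε / 4 + ε / 2 + ε / 4 := by
        have := h3 w hw
        gcongr <;> linarith
    _ = ε := by ring

/-- the slices commute asymptotically with the asymptotic centralizer -/
theorem slice_near (h2 : S_dpa) (h5 : S_ops) (hI : Inc N M ξ U J E) {Y : LR H →L[ℂ] LR H}
    {f g : ℝ → ℂ} {Tf Tg : H →L[ℂ] LR H} (hf : IsTen f Tf) (hg : IsTen g Tg)
    (hgoo : Goo N ξ U J Y (Tg ξ)) (hb : ContinuousLinearMap.adjoint Tf ∘L Y ∘L Tg ∈ M)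
    {ε : ℝ} (hε : 0 < ε) : ∃ δ : ℝ, 0 < δ ∧ ∀ u : H →L[ℂ] H, IsUni N u → ‖alf J u ξ - ξ‖ ≤ δ →
      ‖alf J u ((ContinuousLinearMap.adjoint Tf ∘L Y ∘L Tg) ξ) -
        (ContinuousLinearMap.adjoint Tf ∘L Y ∘L Tg) ξ‖ ≤ ε := by
  have hJ := hI.conj
  have hUm := hI.modular
  obtain ⟨-, hsig, hcst, -, -, -⟩ := h5 H M ξ U hUm
  set b := ContinuousLinearMap.adjoint Tf ∘L Y ∘L Tg with hbdef
  set A := ContinuousLinearMap.adjoint Tf with hA
  set C : ℝ := ‖b‖ + ‖A‖ * ‖Y‖ + ‖A‖ + ‖A‖ + 1 with hC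
  have hC0 : 0 < C := by positivity
  have hη : 0 < ε / C := by positivity
  obtain ⟨δ₁, hδ₁, n1⟩ := near h2 h5 hI (Tg ξ) hη
  obtain ⟨δ₂, hδ₂, n2⟩ := hgoo (ε / C) hη
  obtain ⟨δ₃, hδ₃, n3⟩ := near h2 h5 hI (Y (Tg ξ)) hη
  refine ⟨min (min δ₁ δ₂) (min δ₃ (ε / C)), by positivity, fun u hu hd => ?_⟩
  have hd1 := hd.trans ((min_le_left _ _).trans (min_le_left _ _))
  have hd2 := hd.trans ((min_le_left _ _).trans (min_le_right _ _))
  have hd3 := hd.trans ((min_le_right _ _).trans (min_le_left _ _))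
  have hd4 := hd.trans ((min_le_right _ _).trans (min_le_right _ _))
  have huM := hI.le _ hu.1
  obtain ⟨R, hR, -, -⟩ := hsig u
  obtain ⟨S, hS, -, -⟩ := hcst (star u)
  have hSs := const_star' h5 hUm hS
  have m1 := n1 u hu hd1 R S hR hS
  have m2 := n2 R ⟨u, hu, hd2, hR⟩
  have m3 := n3 u hu hd3 R S hR hS
  have hRu := UU_uni h5 hUm hu hR
  -- `alf J u (b ξ) = u b (J u ξ)`
  have e1 : alf J u (b ξ) = u (b (J (u ξ))) := by
    unfold alf
    have h := Rop_comm hJ (star_mem huM) hb ξ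
    rw [Rop_apply, Rop_apply, star_star, hJ.fix] at h
    rw [h]
  have e2 : ‖J (u ξ) - star u ξ‖ ≤ ε / C := by
    have := d_star hJ huM hu.2.1 hu.2.2
    rw [alf_xi hJ (star_mem huM) (by rw [star_star]; exact hu.2.2)
      (by rw [star_star]; exact hu.2.1), star_star] at this
    rw [this]
    exact hd4
  have e3 : b (star u ξ) = A (Y (S (Tg ξ))) := by
    rw [ten_const hg hS]
    rfl
  have e4 : A (S (Y (Tg ξ))) = star u (b ξ) := adj_ten_const hf hSs _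
  have e5 : u (star u (b ξ)) = b ξ := by
    change (u * star u) (b ξ) = b ξ
    rw [hu.2.2]
    rfl
  have e6 : Y (star R (Tg ξ)) = star R (R (Y (star R (Tg ξ)))) := by
    change _ = (star R * R) (Y (star R (Tg ξ)))
    rw [hRu.1]
    rfl
  have hRs : ‖star R‖ ≤ 1 := op_le_one (by rw [star_star]; exact hRu.2)
  have e7 : alf J u (b ξ) - b ξ = u (b (J (u ξ) - star u ξ) +
      (A (Y (S (Tg ξ) - star R (Tg ξ))) + (A (star R (R (Y (star R (Tg ξ))) - Y (Tg ξ))) +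
        A (star R (Y (Tg ξ)) - S (Y (Tg ξ)))))) := by
    rw [e1]
    conv_lhs => rw [← e5, ← map_sub]
    congr 1
    rw [← e4]
    simp only [map_sub]
    rw [← e6, e3]
    abel
  rw [e7, isom_norm hu.2.1]
  have f1 : ‖b (J (u ξ) - star u ξ)‖ ≤ ‖b‖ * (ε / C) := (b.le_opNorm _).trans (by gcongr)
  have f2 : ‖A (Y (S (Tg ξ) - star R (Tg ξ)))‖ ≤ ‖A‖ * (‖Y‖ * (ε / C)) := by
    refine (A.le_opNorm _).trans ?_
    gcongr
    refine (Y.le_opNorm _).trans ?_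
    gcongr
    rw [norm_sub_rev]
    exact m1
  have f3 : ‖A (star R (R (Y (star R (Tg ξ))) - Y (Tg ξ)))‖ ≤ ‖A‖ * (1 * (ε / C)) := by
    refine (A.le_opNorm _).trans ?_
    gcongr
    exact ((star R).le_opNorm _).trans (by gcongr)
  have f4 : ‖A (star R (Y (Tg ξ)) - S (Y (Tg ξ)))‖ ≤ ‖A‖ * (ε / C) :=
    (A.le_opNorm _).trans (by gcongr)
  have f5 : ‖b‖ * (ε / C) + (‖A‖ * (‖Y‖ * (ε / C)) + (‖A‖ * (1 * (ε / C)) + ‖A‖ * (ε / C))) ≤ ε := by
    have h1 : ‖b‖ * (ε / C) + (‖A‖ * (‖Y‖ * (ε / C)) + (‖A‖ * (1 * (ε / C)) + ‖A‖ * (ε / C))) =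
        (C - 1) * (ε / C) := by
      rw [hC]
      ring
    have h3 : C * (ε / C) = ε := by field_simp
    rw [h1]
    nlinarith
  refine (norm_add_le _ _).trans ((add_le_add f1 ((norm_add_le _ _).trans (add_le_add f2
    ((norm_add_le _ _).trans (add_le_add f3 f4))))).trans f5)

end main

theorem r (h1 : S_dmin) (h2 : S_dpa) (h3 : S_Bchar) (h4 : S_gen) (h5 : S_ops) (h6 : S_bas) : S_daav := by
  intro H _ _ _ N M ξ U J E hI P₀ M₀ hmod X hX
  have hJ := hI.conj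
  have hUm := hI.modular
  obtain ⟨-, hsig, hcst, hten, -, -⟩ := h5 H M ξ U hUm
  obtain ⟨e, he1, he2, he3⟩ := h6
  have hb := he3 H
  choose T hT _ using fun j => hten (e j) (he1 j)
  obtain ⟨Y, hY, hYinv⟩ := h1 (LR H) P₀ M₀ hmod.le (UU N ξ U J) (fun j => T j ξ)
    (fun δ hδ => ⟨1, uni_one, by
      have : alf J (1 : H →L[ℂ] H) ξ = ξ := by
        change J (J ξ) = ξ
        exact hJ.inv ξ
      rw [this, sub_self, norm_zero]
      exact hδ.le, sig_one hUm⟩)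
    (fun δ δ' _ h => UU_mono h)
    (fun δ _ w hw => by
      obtain ⟨u, hu, -, hw'⟩ := hw
      refine ⟨(hmod.memP w).2 ((h4 H N M ξ U J E hI).1 u hu.1 w hw'), ?_⟩
      exact UU_uni h5 hUm hu hw')
    (fun δ δ' _ _ w hw w' hw' => by
      obtain ⟨u, hu, hd, hs⟩ := hw
      obtain ⟨u', hu', hd', hs'⟩ := hw'
      refine ⟨u * u', uni_mul hu hu', ?_, sig_mul hUm hs hs'⟩
      rw [alf_mul hJ (hI.le _ hu.1) (hI.le _ hu'.1)]
      have e : alf J u (alf J u' ξ) - ξ = alf J u (alf J u' ξ - ξ) + (alf J u ξ - ξ) := by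
        rw [alf_sub hJ]
        abel
      rw [e]
      refine (norm_add_le _ _).trans ?_
      rw [alf_isom hJ hu.2.1]
      linarith)
    (fun j => by
      rw [ten_norm (hT j) (by rw [he2, if_pos rfl]), hI.unit])
    (fun Y hY h0 => sepa h5 hI hb hT ((hmod.memM Y).1 hY) h0)
    (fun Y hY j ε hε => asym h2 h5 hI ((hmod.memM Y).1 hY) (hT j) hε) X hX
  refine ⟨Y, hY, ?_⟩
  intro f g Tf Tg hf hg hTf hTg
  have hYM : Y ∈ M₀ := ((Pool.Agent.W481.WD.p_KSET (LR H) P₀ M₀ hmod.le X hX).2.1 Y hY).1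
  have hYA := (hmod.memM Y).1 hYM
  have hbM := slice_mem hYA hcst hTf hTg
  rw [h3 H N M ξ U J E hI]
  refine ⟨hbM, ?_⟩
  have hgoo : Goo N ξ U J Y (Tg ξ) := goo_clos h5 hI hYinv (span_mem h5 hI hb hT hTg)
  set b := ContinuousLinearMap.adjoint Tf ∘L Y ∘L Tg with hbdef
  intro a ha
  obtain ⟨δ, hδ, hn⟩ := slice_near h2 h5 hI hTf hTg hgoo hbM (Real.sqrt_pos.2 ha)
  refine ⟨4 * ‖b ξ‖ ^ 2 / δ ^ 2, by positivity, fun u hu => ?_⟩
  rcases le_or_gt (‖alf J u ξ - ξ‖) δ with hd | hd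
  · have h7 := hn u hu hd
    have h8 : ‖alf J u (b ξ) - b ξ‖ ^ 2 ≤ a := by
      have := pow_le_pow_left₀ (norm_nonneg _) h7 2
      rwa [Real.sq_sqrt ha.le] at this
    have h9 : 0 ≤ 4 * ‖b ξ‖ ^ 2 / δ ^ 2 * ‖alf J u ξ - ξ‖ ^ 2 := by positivity
    linarith
  · have h7 : ‖alf J u (b ξ) - b ξ‖ ≤ 2 * ‖b ξ‖ := by
      refine (norm_sub_le _ _).trans ?_
      rw [alf_isom hJ hu.2.1]
      linarith
    have h8 : ‖alf J u (b ξ) - b ξ‖ ^ 2 ≤ 4 * ‖b ξ‖ ^ 2 := by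
      have := pow_le_pow_left₀ (norm_nonneg _) h7 2
      rw [mul_pow] at this
      linarith
    have h9 : 4 * ‖b ξ‖ ^ 2 ≤ 4 * ‖b ξ‖ ^ 2 / δ ^ 2 * ‖alf J u ξ - ξ‖ ^ 2 := by
      have h10 : 1 ≤ ‖alf J u ξ - ξ‖ ^ 2 / δ ^ 2 := by
        rw [one_le_div (by positivity)]
        exact pow_le_pow_left₀ hδ.le hd.le 2
      calc 4 * ‖b ξ‖ ^ 2 = 4 * ‖b ξ‖ ^ 2 * 1 := by ring
        _ ≤ 4 * ‖b ξ‖ ^ 2 * (‖alf J u ξ - ξ‖ ^ 2 / δ ^ 2) := by gcongr
        _ = _ := by ring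
    linarith

end Pool.Agent.H255.BC.D_daav
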