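import Pool.Agent.H255.BC.Defs8
import Pool.Graph.R_pool_sql_team_seeded_f72693b1.W196.WD.CPT
import Pool.Graph.R_pool_sql_team_seeded_f72693b1.W978.WD.ZSUM

set_option autoImplicit false

open MeasureTheory Filter Topology Complex
open scoped InnerProductSpace ENNReal

namespace Pool.Agent.H255.BC.D_dcb

open Pool.Agent.W662.CB Pool.Agent.W988.WD Pool.Agent.H255.BC

/-! ### Algebra -/

section alg

variable {A : Type*} [Ring A] [StarRing A]

theorem mul_init (hC : ∀ x : A, star x * x = 0 → x = 0) {a p : A} (hp : star p = p)
    (hpp : p * p = p) (ha : star a * a = p) : a * p = a := by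
  have h : star (a * p - a) * (a * p - a) = 0 := by
    rw [star_sub, star_mul, hp]
    have e : (p * star a - star a) * (a * p - a) =
        p * (star a * a) * p - p * (star a * a) - (star a * a) * p + star a * a := by
      noncomm_ring
    rw [e, ha, hpp, hpp]
    noncomm_ring
  exact sub_eq_zero.1 (hC _ h)

theorem final (hC : ∀ x : A, star x * x = 0 → x = 0) {p r a b e z : A}
    (hp : star p = p) (hpp : p * p = p) (hr : star r = r) (ha : star a * a = p)
    (hra : r * a = a) (hb : star b * b = r) (hpb : p * b = b) (he : star e = e) (hee : e * e = e)
    (hre : r * e = e) (hz : z = r - a * star a)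
    (hc : a * b * e * (star b * star a) = e - z) :
    star (e * star b + a * (p - b * e * star b)) * (e * star b + a * (p - b * e * star b)) = p ∧
    (e * star b + a * (p - b * e * star b)) * star (e * star b + a * (p - b * e * star b)) = r := by
  have hap : a * p = a := mul_init hC hp hpp ha
  have hpa : p * star a = star a := by
    have := congrArg star hap
    rwa [star_mul, hp] at this
  have her : e * r = e := by
    have := congrArg star hre
    rwa [star_mul, he, hr] at this
  have hbp : star b * p = star b := by
    have := congrArg star hpb
    rwa [star_mul, hp] at this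
  set f : A := b * e * star b with hf
  have hfs : star f = f := by
    rw [hf, star_mul, star_mul, star_star, he, mul_assoc]
  have hff : f * f = f := by
    have e1 : f * f = b * (e * (star b * b) * e) * star b := by rw [hf]; noncomm_ring
    rw [e1, hb, her, hee]
  have hpf : p * f = f := by
    rw [hf, ← mul_assoc, ← mul_assoc, hpb]
  have hfp : f * p = f := by
    rw [hf, mul_assoc, hbp]
  have hg : (p - f) * (p - f) = p - f := by
    rw [mul_sub, sub_mul, sub_mul, hpp, hpf, hfp, hff]
    abel
  have hgs : star (p - f) = p - f := by rw [star_sub, hp, hfs]
  set t : A := a * (p - f) with ht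
  have hts : star t = (p - f) * star a := by rw [ht, star_mul, hgs]
  have htt : t * star t = r - e := by
    have e1 : t * star t = a * ((p - f) * (p - f)) * star a := by rw [hts, ht]; noncomm_ring
    rw [e1, hg]
    have e2 : a * (p - f) * star a = a * p * star a - a * b * e * (star b * star a) := by
      rw [hf]; noncomm_ring
    rw [e2, hap, hc, hz]
    abel
  have het : e * t = 0 := by
    have e1 : star (star (e * t)) * star (e * t) = 0 := by
      rw [star_star, star_mul, he]
      have e2 : e * t * (star t * e) = e * (t * star t) * e := by noncomm_ring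
      rw [e2, htt, mul_sub, her, hee, sub_self, zero_mul]
    have := hC _ e1
    rw [← star_star (e * t), this, star_zero]
  have hte : star t * e = 0 := by
    have := congrArg star het
    rwa [star_mul, he, star_zero] at this
  have htb : t * (b * e) = 0 := by
    have e1 : t * (b * e) = a * (p * b * e - b * e * (star b * b) * e) := by
      rw [ht, hf]; noncomm_ring
    rw [e1, hpb, hb, mul_assoc b e r, her, mul_assoc b e e, hee, sub_self, mul_zero]
  have hbt : e * star b * star t = 0 := by
    have := congrArg star htb
    rwa [star_mul, star_mul, he, star_zero] at this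
  have hys : star (e * star b + t) = b * e + star t := by
    rw [star_add, star_mul, star_star, he]
  rw [hys]
  constructor
  · have e1 : (b * e + star t) * (e * star b + t) =
        b * (e * e) * star b + b * (e * t) + star t * e * star b + star t * t := by noncomm_ring
    have e2 : star t * t = (p - f) * (star a * a) * (p - f) := by rw [hts, ht]; noncomm_ring
    rw [e1, het, hte, hee, e2, ha]
    have e3 : (p - f) * p * (p - f) = p - f := by
      rw [sub_mul p f p, hpp, hfp, hg]
    rw [e3, ← hf, mul_zero, zero_mul, add_zero, add_zero]
    abel
  · have e1 : (e * star b + t) * (b * e + star t) =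
        e * (star b * b) * e + e * star b * star t + t * (b * e) + t * star t := by noncomm_ring
    rw [e1, hb, her, hee, hbt, htb, htt, add_zero, add_zero]
    abel

/-- the projections `c^n z c*^n` -/
def en (z c : A) : ℕ → A
  | 0 => z
  | n + 1 => c * en z c n * star c

theorem en_succ (z c : A) (n : ℕ) : en z c (n + 1) = c * en z c n * star c := rfl

variable {z c r : A}

theorem en_star (hz : star z = z) (n : ℕ) : star (en z c n) = en z c n := by
  induction n with
  | zero => exact hz
  | succ n ih => rw [en_succ, star_mul, star_mul, star_star, ih, mul_assoc]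

theorem en_r (hr : star r = r) (hz : z * r = z) (hc : r * c = c) (n : ℕ) :
    en z c n * r = en z c n := by
  cases n with
  | zero => exact hz
  | succ n =>
    have : star c * r = star c := by
      have := congrArg star hc
      rwa [star_mul, hr] at this
    rw [en_succ, mul_assoc, this]

theorem en_mul_c (hr : star r = r) (hz : z * r = z) (hrc : r * c = c) (hc : star c * c = r)
    (n : ℕ) : en z c (n + 1) * c = c * en z c n := by
  rw [en_succ, mul_assoc, hc, mul_assoc, en_r hr hz hrc]

theorem en_idem (hr : star r = r) (hz : z * r = z) (hzz : z * z = z) (hrc : r * c = c)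
    (hc : star c * c = r) (n : ℕ) : en z c n * en z c n = en z c n := by
  induction n with
  | zero => exact hzz
  | succ n ih =>
    have e1 : en z c (n + 1) * en z c (n + 1) = en z c (n + 1) * c * en z c n * star c := by
      rw [en_succ z c n]; noncomm_ring
    rw [e1, en_mul_c hr hz hrc hc, mul_assoc c, ih, en_succ]

theorem en_orth (hr : star r = r) (hz : z * r = z) (hzs : star z = z) (hrc : r * c = c)
    (hc : star c * c = r) (hzc : z * c = 0) :
    ∀ i j : ℕ, i ≠ j → en z c i * en z c j = 0 := by
  have hcz : star c * z = 0 := by
    have := congrArg star hzc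
    rwa [star_mul, hzs, star_zero] at this
  intro i
  induction i with
  | zero =>
    intro j hj
    cases j with
    | zero => exact absurd rfl hj
    | succ j =>
      show z * (c * en z c j * star c) = 0
      rw [← mul_assoc, ← mul_assoc, hzc, zero_mul, zero_mul]
  | succ i ih =>
    intro j hj
    cases j with
    | zero =>
      show c * en z c i * star c * z = 0
      rw [mul_assoc, hcz, mul_zero]
    | succ j =>
      have e1 : en z c (i + 1) * en z c (j + 1) = en z c (i + 1) * c * en z c j * star c := by
        rw [en_succ z c j]; noncomm_ring
      rw [e1, en_mul_c hr hz hrc hc, mul_assoc c, ih j (by omega), mul_zero, zero_mul]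

end alg

theorem r  : S_dcb := by
  intro K _ _ _ P p r a b hp hr hpP hrP haP hbP ha hra hb hpb
  have hC : ∀ x : K →L[ℂ] K, star x * x = 0 → x = 0 := fun x hx =>
    CStarRing.star_mul_self_eq_zero_iff x |>.1 hx
  obtain ⟨hps, hpp⟩ := hp
  obtain ⟨hrs, hrr⟩ := hr
  have hap : a * p = a := mul_init hC hps hpp ha
  have har : star a * r = star a := by
    have := congrArg star hra
    rwa [star_mul, hrs] at this
  set z : K →L[ℂ] K := r - a * star a with hz
  set c : K →L[ℂ] K := a * b with hc
  have hzs : star z = z := by
    rw [hz, star_sub, star_mul, star_star, hrs]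
  have haa : a * star a * (a * star a) = a * star a := by
    have e1 : a * star a * (a * star a) = a * (star a * a) * star a := by noncomm_ring
    rw [e1, ha, hap]
  have hzr : z * r = z := by
    rw [hz, sub_mul, hrr, mul_assoc, har]
  have hzz : z * z = z := by
    rw [hz, mul_sub, sub_mul, sub_mul, hrr, haa, mul_assoc a (star a) r, har, ← mul_assoc r a,
      hra]
    abel
  have hrc : r * c = c := by rw [hc, ← mul_assoc, hra]
  have hcc : star c * c = r := by
    have e1 : star c * c = star b * (star a * a) * b := by rw [hc, star_mul]; noncomm_ring
    rw [e1, ha, mul_assoc, hpb, hb]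
  have hzc : z * c = 0 := by
    have e1 : z * c = r * c - a * (star a * a) * b := by rw [hz, hc]; noncomm_ring
    rw [e1, ha, hap, hrc, hc, sub_self]
  have hcz : star c * z = 0 := by
    have := congrArg star hzc
    rwa [star_mul, hzs, star_zero] at this
  have hcP : c ∈ P := mul_mem haP hbP
  have hzP : z ∈ P := sub_mem hrP (mul_mem haP (star_mem haP))
  have henP : ∀ n, en z c n ∈ P := by
    intro n
    induction n with
    | zero => exact hzP
    | succ n ih => exact mul_mem (mul_mem hcP ih) (star_mem hcP)
  have hens : ∀ n, star (en z c n) = en z c n := en_star hzs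
  have heni : ∀ n, en z c n * en z c n = en z c n := en_idem hrs hzr hzz hrc hcc
  have heno := en_orth hrs hzr hzs hrc hcc hzc
  obtain ⟨V, hVP, hV1, hV2, hV3, hV4, hV5⟩ :=
    Pool.Agent.W978.WD.ZSUM.p_ZSUM Pool.Agent.W196.WD.p_CPT K P ℕ (en z c) henP
      (fun i => by rw [hens, heni, heni]) (fun i j hij => by rw [hens]; exact heno i j hij)
      (fun i j hij => by rw [hens]; exact heno i j hij)
  have hV2' : ∀ n, V * en z c n = en z c n := fun n => by
    have := hV2 n
    rwa [hens, heni] at this
  have hV3' : ∀ n, en z c n * V = en z c n := fun n => by
    have := hV3 n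
    rwa [hens, heni] at this
  -- operators killed by all the `en n` on the left
  have key : ∀ x : K →L[ℂ] K, (∀ n, en z c n * x = 0) → V * x = 0 ∧ star V * x = 0 := by
    intro x hx
    constructor
    · ext ξ
      exact hV4 (x ξ) fun i => by
        have := congrArg (fun T : K →L[ℂ] K => T ξ) (hx i)
        exact this
    · ext ξ
      exact hV5 (x ξ) fun i => by
        rw [hens]
        have := congrArg (fun T : K →L[ℂ] K => T ξ) (hx i)
        exact this
  have hk1 := key (V - 1) fun n => by rw [mul_sub, hV3', mul_one, sub_self]
  have hVV : V * V = V := by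
    have := hk1.1
    rwa [mul_sub, mul_one, sub_eq_zero] at this
  have hVsV : star V * V = star V := by
    have := hk1.2
    rwa [mul_sub, mul_one, sub_eq_zero] at this
  have hVs : star V = V := by
    have := congrArg star hVsV
    rw [star_mul, star_star] at this
    rw [← hVsV, this]
  have hVr : V * r = V := by
    have := (key (1 - r) fun n => by
      rw [mul_sub, mul_one, en_r hrs hzr hrc, sub_self]).1
    rw [mul_sub, mul_one, sub_eq_zero] at this
    exact this.symm
  have hrV : r * V = V := by
    have := congrArg star hVr
    rwa [star_mul, hVs, hrs] at this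
  -- `c V` is below `V`
  have hVc : V * c * V = c * V := by
    have h1 := (key (star (V * c - c)) fun n => by
      have e1 : (V * c - c) * en z c n = 0 := by
        rw [sub_mul, mul_assoc, ← en_mul_c hrs hzr hrc hcc, ← mul_assoc, hV2', sub_self]
      have := congrArg star e1
      rwa [star_mul, hens, star_zero] at this).1
    have h2 := congrArg star h1
    rw [star_mul, star_star, hVs, star_zero, sub_mul, sub_eq_zero] at h2
    exact h2
  have hD : z + c * V * star c = V := by
    have h1 := (key (z + c * V * star c - V) fun n => by
      rw [mul_sub, hV3', mul_add]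
      cases n with
      | zero =>
        show z * z + z * (c * V * star c) - z = 0
        rw [← mul_assoc, ← mul_assoc, hzc, hzz]
        simp
      | succ n =>
        have e1 : en z c (n + 1) * z = 0 := by
          rw [en_succ, mul_assoc, hcz, mul_zero]
        have e2 : en z c (n + 1) * (c * V * star c) = en z c (n + 1) * c * V * star c := by
          noncomm_ring
        rw [e1, e2, en_mul_c hrs hzr hrc hcc, mul_assoc c, hV3', ← en_succ, zero_add, sub_self]).1
    rw [mul_sub, hVV, sub_eq_zero] at h1
    have h2 : V * (z + c * V * star c) = z + c * V * star c := by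
      have e1 : V * (z + c * V * star c) = V * z + V * c * V * star c := by noncomm_ring
      have e2 : V * z = z := hV2' 0
      rw [e1, e2, hVc]
    rw [← h2, h1]
  have hfin := final hC hps hpp hrs ha hra hb hpb hVs hVV hrV hz (by
    have e1 : a * b * V * (star b * star a) = c * V * star c := by rw [hc, star_mul]
    rw [e1, eq_sub_iff_add_eq, add_comm, hD])
  refine ⟨_, ?_, hfin.1, hfin.2⟩
  exact add_mem (mul_mem hVP (star_mem hbP)) (mul_mem haP (sub_mem hpP
    (mul_mem (mul_mem hbP hVP) (star_mem hbP))))

end Pool.Agent.H255.BC.D_dcb
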