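import Pool.Agent.H255.BC.Defs8
import Pool.Agent.H255.BC.R_surj
import Pool.Agent.H255.BC.G_bas
import Pool.Graph.R_pool_sql_team_seeded_f72693b1.W132.CB.E1
import Pool.Graph.R_pool_sql_team_seeded_f72693b1.W227.CB.E2
import Pool.Graph.R_pool_sql_team_seeded_f72693b1.W509.CB.E3

/-!
X9: irreducibility of `B(H) ⊗ 1`, the translations and the characters (helper249, for helper255).

For test functions `φ, ψ, k, l` the integral over `t` of
`⟪φ(· - t) k ⊗ v, X (ψ(· - t) l ⊗ w)⟫` is computed in two ways: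
`(∫ conj φ ψ) ⟪k ⊗ v, X (l ⊗ w)⟫ = (∫ conj k l) ⟪φ ⊗ v, X (ψ ⊗ w)⟫`.
-/

set_option autoImplicit false

open MeasureTheory Filter Topology Complex
open scoped InnerProductSpace ENNReal

namespace Pool.Agent.H255.BC.D_dirr

open Pool.Agent.W662.CB Pool.Agent.W988.WD Pool.Agent.H255.BC
open Pool.Agent.H255.BC.R_surj

/-- Fubini -/
theorem fub {m h : ℝ → ℂ} (hm : Integrable m) (hh : Integrable h) :
    ∫ t : ℝ, ∫ s : ℝ, m (s - t) * h s = (∫ s, m s) * ∫ s, h s := by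
  have h1 := hh.convolution_integrand (ContinuousLinearMap.mul ℂ ℂ) hm.comp_neg
  have h2 : Integrable (Function.uncurry fun (t s : ℝ) => m (s - t) * h s)
      ((volume : Measure ℝ).prod volume) := by
    refine h1.congr (Eventually.of_forall fun p => ?_)
    change h p.2 * m (-(p.1 - p.2)) = m (p.2 - p.1) * h p.2
    rw [neg_sub, mul_comm]
  rw [integral_integral_swap h2]
  have h3 : ∀ s : ℝ, ∫ t : ℝ, m (s - t) * h s = (∫ t, m t) * h s := by
    intro s
    rw [integral_mul_const, integral_sub_left_eq_self m volume s]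
  simp only [h3]
  rw [integral_const_mul]

theorem fub' {m h : ℝ → ℂ} (hm : Integrable m) (hh : Integrable h) :
    ∫ t : ℝ, ∫ s : ℝ, m (s + t) * h s = (∫ s, m s) * ∫ s, h s := by
  rw [← fub hm hh, ← integral_neg_eq_self (fun t : ℝ => ∫ s : ℝ, m (s - t) * h s) volume]
  simp only [sub_neg_eq_add]

theorem tst_mul {φ ψ : ℝ → ℂ} (hφ : Tst φ) (hψ : Tst ψ) :
    Integrable (fun s => starRingEnd ℂ (φ s) * ψ s) := by
  refine Continuous.integrable_of_hasCompactSupport ?_ ?_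
  · exact (Complex.continuous_conj.comp hφ.1.continuous).mul hψ.1.continuous
  · exact hψ.2.mul_left

section

variable {H : Type} [NormedAddCommGroup H] [InnerProductSpace ℂ H] [CompleteSpace H]

theorem KL {A : LR H →L[ℂ] LR H} (hA : CExp A) {a b k l : ℝ → ℂ} (hb : Tst b)
    {Tk Tl Tak Tbl : H →L[ℂ] LR H} (hTk : IsTen k Tk) (hTl : IsTen l Tl)
    (hTak : IsTen (fun p => a p * k p) Tak) (hTbl : IsTen (fun p => b p * l p) Tbl) (v w : H) :
    ⟪Tak v, A (Tbl w)⟫_ℂ =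
      ∫ p : ℝ, (starRingEnd ℂ (a p) * b p) * ⟪(Tk v : ℝ → H) p, (A (Tl w) : ℝ → H) p⟫_ℂ := by
  have h : (Tbl w : ℝ → H) =ᵐ[volume] fun p => b p • (Tl w : ℝ → H) p := by
    filter_upwards [hTbl w, hTl w] with p h1 h2
    rw [h1, h2, mul_smul]
  rw [L2.inner_def]
  refine integral_congr_ae ?_
  filter_upwards [hTak v, hTk v, commute_mul hA hb h] with p h1 h2 h3
  rw [h1, h2, h3, inner_smul_right, mul_smul, inner_smul_left]
  ring

theorem main_id {X : LR H →L[ℂ] LR H} (hA : CExp X)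
    (hS : ∀ (t : ℝ) (S : LR H →L[ℂ] LR H), IsShift t S → S * X = X * S)
    {φ ψ k l : ℝ → ℂ} (hφ : Tst φ) (hψ : Tst ψ) (hk : Tst k) (hl : Tst l)
    {Tφ Tψ Tk Tl : H →L[ℂ] LR H} (hTφ : IsTen φ Tφ) (hTψ : IsTen ψ Tψ) (hTk : IsTen k Tk)
    (hTl : IsTen l Tl) (v w : H) :
    (∫ s, starRingEnd ℂ (φ s) * ψ s) * ⟪Tk v, X (Tl w)⟫_ℂ =
      (∫ s, starRingEnd ℂ (k s) * l s) * ⟪Tφ v, X (Tψ w)⟫_ℂ := by
  obtain ⟨R, hR, hR0, hRadd, hRstar, -⟩ := Pool.Agent.W509.CB.e3 H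
  have tsum : ∀ {f : ℝ → ℂ}, Tst f → ∀ t : ℝ, Tst fun p => f (p + t) := by
    intro f hf t
    have h := tst_shift hf (-t)
    simp only [sub_neg_eq_add] at h
    exact h
  have tm : ∀ {f g : ℝ → ℂ}, Tst f → Tst g → MemLp (fun p => f p * g p) 2 (volume : Measure ℝ) :=
    fun {f g} hf hg => (hf.1.continuous.mul hg.1.continuous).memLp_of_hasCompactSupport
      hf.2.mul_right
  have ex1 : ∀ t : ℝ, ∃ T : H →L[ℂ] LR H, IsTen (fun p => φ (p - t) * k p) T := fun t =>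
    G_bas.exists_ten (tm (tst_shift hφ t) hk)
  have ex2 : ∀ t : ℝ, ∃ T : H →L[ℂ] LR H, IsTen (fun p => ψ (p - t) * l p) T := fun t =>
    G_bas.exists_ten (tm (tst_shift hψ t) hl)
  choose T1 hT1 using ex1
  choose T2 hT2 using ex2
  have hJ1 : ∀ t : ℝ, ⟪T1 t v, X (T2 t w)⟫_ℂ =
      ∫ p : ℝ, (starRingEnd ℂ (φ (p - t)) * ψ (p - t)) *
        ⟪(Tk v : ℝ → H) p, (X (Tl w) : ℝ → H) p⟫_ℂ := fun t =>
    KL hA (tst_shift hψ t) hTk hTl (hT1 t) (hT2 t) v w
  have hJ2 : ∀ t : ℝ, ⟪T1 t v, X (T2 t w)⟫_ℂ =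
      ∫ p : ℝ, (starRingEnd ℂ (k (p + t)) * l (p + t)) *
        ⟪(Tφ v : ℝ → H) p, (X (Tψ w) : ℝ → H) p⟫_ℂ := by
    intro t
    obtain ⟨T3, hT3⟩ := G_bas.exists_ten (H := H) (tm (tsum hk t) hφ)
    obtain ⟨T4, hT4⟩ := G_bas.exists_ten (H := H) (tm (tsum hl t) hψ)
    have e3 : R t ∘L T3 = T1 t := by
      refine ten_unique (shift_ten (hR t) hT3) ?_
      have e : (fun p => k (p - t + t) * φ (p - t)) = fun p => φ (p - t) * k p := by
        funext p
        rw [sub_add_cancel, mul_comm]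
      rw [e]
      exact hT1 t
    have e4 : R t ∘L T4 = T2 t := by
      refine ten_unique (shift_ten (hR t) hT4) ?_
      have e : (fun p => l (p - t + t) * ψ (p - t)) = fun p => ψ (p - t) * l p := by
        funext p
        rw [sub_add_cancel, mul_comm]
      rw [e]
      exact hT2 t
    have hRR : star (R t) * R t = 1 := by
      rw [hRstar, ← hRadd, neg_add_cancel, hR0]
    have e5 : X (R t (T4 w)) = R t (X (T4 w)) :=
      (congrArg (fun A : LR H →L[ℂ] LR H => A (T4 w)) (hS t (R t) (hR t))).symm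
    have e6 : ⟪R t (T3 v), R t (X (T4 w))⟫_ℂ = ⟪T3 v, X (T4 w)⟫_ℂ := by
      rw [← ContinuousLinearMap.adjoint_inner_right]
      change ⟪T3 v, (star (R t) * R t) (X (T4 w))⟫_ℂ = _
      rw [hRR]
      rfl
    rw [← e3, ← e4]
    change ⟪R t (T3 v), X (R t (T4 w))⟫_ℂ = _
    rw [e5, e6]
    exact KL hA (tsum hl t) hTφ hTψ hT3 hT4 v w
  have i1 : ∫ t : ℝ, ⟪T1 t v, X (T2 t w)⟫_ℂ =
      (∫ s, starRingEnd ℂ (φ s) * ψ s) * ⟪Tk v, X (Tl w)⟫_ℂ := by
    simp only [hJ1]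
    rw [L2.inner_def]
    exact fub (m := fun s => starRingEnd ℂ (φ s) * ψ s) (tst_mul hφ hψ)
      (L2.integrable_inner (𝕜 := ℂ) (Tk v) (X (Tl w)))
  have i2 : ∫ t : ℝ, ⟪T1 t v, X (T2 t w)⟫_ℂ =
      (∫ s, starRingEnd ℂ (k s) * l s) * ⟪Tφ v, X (Tψ w)⟫_ℂ := by
    simp only [hJ2]
    rw [L2.inner_def]
    exact fub' (m := fun s => starRingEnd ℂ (k s) * l s) (tst_mul hk hl)
      (L2.integrable_inner (𝕜 := ℂ) (Tφ v) (X (Tψ w)))
  rw [← i1, i2]

/-- operators which commute with `B(H)` -/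
theorem scalar {x0 : H →L[ℂ] H} (h : ∀ x : H →L[ℂ] H, x0 * x = x * x0) {e : H} (he : ‖e‖ = 1) :
    x0 = ⟪e, x0 e⟫_ℂ • (1 : H →L[ℂ] H) := by
  ext1 u
  have h1 := congrArg (fun A : H →L[ℂ] H => A e) (h ((innerSL ℂ e).smulRight u))
  have h2 : x0 (⟪e, e⟫_ℂ • u) = ⟪e, x0 e⟫_ℂ • u := h1
  have h3 : ⟪e, e⟫_ℂ = 1 := by
    rw [inner_self_eq_norm_sq_to_K, he]
    simp
  rw [h3, one_smul] at h2
  exact h2

end

theorem r  : S_dirr := by
  intro H _ _ _ X h1 h2 h3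
  by_cases hH : ∀ v : H, v = 0
  · refine ⟨0, ?_⟩
    ext1 F
    have hF : F = 0 := by
      refine (Lp.eq_zero_iff_ae_eq_zero (f := F)).2 (Eventually.of_forall fun p => ?_)
      exact hH _
    rw [hF, map_zero, map_zero]
  · push Not at hH
    obtain ⟨u, hu⟩ := hH
    obtain ⟨e, he⟩ : ∃ e : H, ‖e‖ = 1 := by
      refine ⟨((‖u‖ : ℂ)⁻¹) • u, ?_⟩
      rw [norm_smul, norm_inv, Complex.norm_real, norm_norm]
      exact inv_mul_cancel₀ (norm_ne_zero_iff.2 hu)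
    have ten : ∀ f : ℝ → ℂ, MemLp f 2 (volume : Measure ℝ) → ∃ T : H →L[ℂ] LR H, IsTen f T :=
      fun f hf => G_bas.exists_ten hf
    have hA : CExp X := by
      intro t
      obtain ⟨T, hT, -⟩ := Pool.Agent.W227.CB.e2 H
        (fun s : ℝ => cexp (-(I * ((s * t : ℝ) : ℂ)))) 1 (by fun_prop) (by
          intro s
          have e1 : -(I * ((s * t : ℝ) : ℂ)) = ((-(s * t) : ℝ) : ℂ) * I := by
            push_cast
            ring
          rw [e1, Complex.norm_exp_ofReal_mul_I])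
      refine ⟨T, hT, fun f => ?_⟩
      have h4 : IsULam (Real.exp t) T := by
        unfold IsULam
        rw [Real.log_exp]
        exact hT
      exact (congrArg (fun A : LR H →L[ℂ] LR H => A f) (h3 _ (Real.exp_pos t) T h4)).symm
    -- the functions `φ`, `ψ`
    obtain ⟨χ, hχ, hχc, hχ1, -, -⟩ := cutoff 1
    have hφ : Tst (fun x => (mo 0 x : ℂ)) := ofReal_tst (mo_smooth 0) (mo_supp 0)
    have hψ : Tst (fun x => (χ x : ℂ)) := ofReal_tst hχ hχc
    obtain ⟨Tφ, hTφ⟩ := ten _ (tst_memLp hφ)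
    obtain ⟨Tψ, hTψ⟩ := ten _ (tst_memLp hψ)
    have hone : ∫ s, starRingEnd ℂ ((mo 0 s : ℝ) : ℂ) * (χ s : ℂ) = 1 := by
      have e1 : ∀ s, starRingEnd ℂ ((mo 0 s : ℝ) : ℂ) * (χ s : ℂ) = ((mo 0 s : ℝ) : ℂ) := by
        intro s
        rw [Complex.conj_ofReal]
        rcases le_or_gt |s| 1 with h | h
        · rw [hχ1 s h, Complex.ofReal_one, mul_one]
        · rw [mo_zero 0 h, Complex.ofReal_zero, zero_mul]
      simp only [e1]
      have e2 := integral_ofReal (𝕜 := ℂ) (μ := (volume : Measure ℝ)) (f := mo 0)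
      rw [mo_integral 0] at e2
      exact e2.trans Complex.ofReal_one
    -- the slice
    set x0 : H →L[ℂ] H := ContinuousLinearMap.adjoint Tφ ∘L X ∘L Tψ with hx0
    obtain ⟨κ, hκ⟩ := Pool.Agent.W132.CB.e1 H
    have hadj : ∀ (x : H →L[ℂ] H) (F : LR H), ContinuousLinearMap.adjoint Tφ (κ x F) =
        x (ContinuousLinearMap.adjoint Tφ F) := by
      intro x F
      refine ext_inner_left ℂ fun v => ?_
      rw [ContinuousLinearMap.adjoint_inner_right, ← ContinuousLinearMap.adjoint_inner_left]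
      have e1 : ContinuousLinearMap.adjoint (κ x) = κ (star x) := (map_star κ x).symm
      rw [e1, ← ten_const hTφ (hκ (star x)) v, ← ContinuousLinearMap.adjoint_inner_right]
      exact ContinuousLinearMap.adjoint_inner_left x _ v
    have hcomm : ∀ x : H →L[ℂ] H, x0 * x = x * x0 := by
      intro x
      ext1 w
      change ContinuousLinearMap.adjoint Tφ (X (Tψ (x w))) =
        x (ContinuousLinearMap.adjoint Tφ (X (Tψ w)))
      rw [ten_const hTψ (hκ x) w, ← hadj x]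
      have e1 : X (κ x (Tψ w)) = κ x (X (Tψ w)) :=
        (congrArg (fun A : LR H →L[ℂ] LR H => A (Tψ w)) (h1 x (κ x) (hκ x))).symm
      rw [e1]
    have hsc := scalar hcomm he
    set c0 : ℂ := ⟪e, x0 e⟫_ℂ with hc0
    have hform : ∀ (k l : ℝ → ℂ), Tst k → Tst l → ∀ Tk Tl : H →L[ℂ] LR H, IsTen k Tk → IsTen l Tl →
        ∀ v w : H, ⟪Tk v, X (Tl w)⟫_ℂ = c0 * ⟪Tk v, Tl w⟫_ℂ := by
      intro k l hk hl Tk Tl hTk hTl v w
      have e1 := main_id hA h2 hφ hψ hk hl hTφ hTψ hTk hTl v w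
      rw [hone, one_mul] at e1
      have e2 : ⟪Tφ v, X (Tψ w)⟫_ℂ = ⟪v, x0 w⟫_ℂ := by
        rw [hx0]
        exact (ContinuousLinearMap.adjoint_inner_right Tφ v (X (Tψ w))).symm
      have e3 : ⟪v, x0 w⟫_ℂ = c0 * ⟪v, w⟫_ℂ := by
        rw [hsc]
        change ⟪v, c0 • w⟫_ℂ = _
        rw [inner_smul_right]
      have e4 : ⟪Tk v, Tl w⟫_ℂ = (∫ s, starRingEnd ℂ (k s) * l s) * ⟪v, w⟫_ℂ := by
        rw [ten_inner hTk, ← integral_mul_const]
        refine integral_congr_ae ?_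
        filter_upwards [hTl w] with p hp
        rw [hp, inner_smul_right]
        ring
      rw [e1, e2, e3, e4]
      ring
    have hval : ∀ l : ℝ → ℂ, Tst l → ∀ Tl : H →L[ℂ] LR H, IsTen l Tl → ∀ w : H,
        (X - c0 • (1 : LR H →L[ℂ] LR H)) (Tl w) = 0 := by
      intro l hl Tl hTl w
      refine total (fun k hk Tk hTk => ?_) ten
      refine ext_inner_left ℂ fun v => ?_
      rw [ContinuousLinearMap.adjoint_inner_right, inner_zero_right]
      change ⟪Tk v, X (Tl w) - c0 • Tl w⟫_ℂ = 0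
      rw [inner_sub_right, inner_smul_right, hform k l hk hl Tk Tl hTk hTl v w, sub_self]
    refine ⟨c0, ?_⟩
    rw [← sub_eq_zero]
    have hz : ContinuousLinearMap.adjoint (X - c0 • (1 : LR H →L[ℂ] LR H)) = 0 := by
      ext1 F
      refine total (fun l hl Tl hTl => ?_) ten
      refine ext_inner_left ℂ fun w => ?_
      rw [ContinuousLinearMap.adjoint_inner_right, ContinuousLinearMap.adjoint_inner_right,
        hval l hl Tl hTl w, inner_zero_left, inner_zero_right]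
    exact (LinearIsometryEquiv.map_eq_zero_iff ContinuousLinearMap.adjoint).1 hz

end Pool.Agent.H255.BC.D_dirr
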