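import Pool.Agent.H255.BC.Defs8
import Pool.Graph.R_pool_sql_team_seeded_f72693b1.W196.WD.CPT
import Pool.Graph.R_pool_sql_team_seeded_f72693b1.W395.WD.LOC
import Pool.Graph.R_pool_sql_team_seeded_f72693b1.W978.WD.ZSUM
import Pool.Graph.R_pool_sql_team_seeded_f72693b1.W67.WD.CMP
import Pool.Graph.R_pool_sql_team_seeded_f72693b1.W85.WDX.ABS
import Pool.Graph.R_pool_sql_team_seeded_f72693b1.W32.WD.MU

set_option autoImplicit false

open MeasureTheory Filter Topology Complex
open scoped InnerProductSpace ENNReal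

namespace Pool.Agent.H255.BC.D_diso

open Pool.Agent.W662.CB Pool.Agent.W988.WD Pool.Agent.H255.BC

section aux

variable {K : Type} [NormedAddCommGroup K] [InnerProductSpace ℂ K] [CompleteSpace K]

theorem star_inner (a : K →L[ℂ] K) (x y : K) : ⟪star a x, y⟫_ℂ = ⟪x, a y⟫_ℂ := by
  rw [ContinuousLinearMap.star_eq_adjoint, ContinuousLinearMap.adjoint_inner_left]

theorem inner_star (a : K →L[ℂ] K) (x y : K) : ⟪x, star a y⟫_ℂ = ⟪a x, y⟫_ℂ := by
  rw [ContinuousLinearMap.star_eq_adjoint, ContinuousLinearMap.adjoint_inner_right]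

theorem prj_norm {p : K →L[ℂ] K} (hp : Prj p) (x : K) : ‖p x‖ ^ 2 = (⟪x, p x⟫_ℂ).re := by
  have h1 : ⟪p x, p x⟫_ℂ = ⟪x, p x⟫_ℂ := by
    rw [← inner_star, hp.1]
    rw [← mul_apply_eq_comp, hp.2]
  rw [← h1]
  have := inner_self_eq_norm_sq (𝕜 := ℂ) (p x)
  exact this.symm

theorem prj_one_sub {p : K →L[ℂ] K} (hp : Prj p) : Prj (1 - p) := by
  refine ⟨by rw [star_sub, star_one, hp.1], ?_⟩
  rw [mul_sub, sub_mul, sub_mul, one_mul, mul_one, one_mul, hp.2]
  abel

theorem iso_norm {w : K →L[ℂ] K} {p : K →L[ℂ] K} (hp : Prj p) (hw : star w * w = p) (x : K) :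
    ‖w x‖ = ‖p x‖ := by
  have h1 : ‖w x‖ ^ 2 = ‖p x‖ ^ 2 := by
    rw [prj_norm hp, ← hw, mul_apply_eq_comp, inner_star]
    have := inner_self_eq_norm_sq (𝕜 := ℂ) (w x)
    exact this.symm
  exact (pow_left_inj₀ (norm_nonneg _) (norm_nonneg _) (by norm_num)).1 h1

theorem mul_prj {w : K →L[ℂ] K} {p : K →L[ℂ] K} (hp : Prj p) (hw : star w * w = p) :
    w * p = w := by
  ext x
  have h1 : ‖w (p x - x)‖ = 0 := by
    rw [iso_norm hp hw, map_sub, ← mul_apply_eq_comp, hp.2, sub_self, norm_zero]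
  rw [norm_eq_zero, map_sub, sub_eq_zero] at h1
  exact h1

variable {P : VonNeumannAlgebra K} {e : K →L[ℂ] K} {g : ℕ → (K →L[ℂ] K)}

/-- the sum of the first `n` copies -/
noncomputable def qq (g : ℕ → (K →L[ℂ] K)) (n : ℕ) : K →L[ℂ] K :=
  ∑ k ∈ Finset.range n, g k * star (g k)

theorem g_e (hg : MUnits P e g) (k : ℕ) : g k * e = g k := mul_prj hg.prj (hg.ini k)

theorem e_g (hg : MUnits P e g) (k : ℕ) : e * star (g k) = star (g k) := by
  have h := congrArg star (g_e hg k)
  rw [star_mul, hg.prj.1] at h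
  exact h

theorem sg_qq (hg : MUnits P e g) {j n : ℕ} (h : j < n) : star (g j) * qq g n = star (g j) := by
  unfold qq
  rw [Finset.mul_sum, Finset.sum_eq_single j]
  · rw [← mul_assoc, hg.ini, e_g hg]
  · intro k _ hk
    rw [← mul_assoc, hg.ort j k (Ne.symm hk), zero_mul]
  · intro hj
    exact absurd (Finset.mem_range.2 h) hj

theorem qq_g (hg : MUnits P e g) {j n : ℕ} (h : n ≤ j) : qq g n * g j = 0 := by
  unfold qq
  rw [Finset.sum_mul]
  apply Finset.sum_eq_zero
  intro k hk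
  have : k ≠ j := by
    have := Finset.mem_range.1 hk
    omega
  rw [mul_assoc, hg.ort k j this, mul_zero]

theorem star_qq (g : ℕ → (K →L[ℂ] K)) (n : ℕ) : star (qq g n) = qq g n := by
  unfold qq
  rw [star_sum]
  apply Finset.sum_congr rfl
  intro k _
  rw [star_mul, star_star]

theorem qq_qq (hg : MUnits P e g) {m n : ℕ} (h : m ≤ n) : qq g m * qq g n = qq g m := by
  conv_lhs => rw [qq, Finset.sum_mul]
  unfold qq
  apply Finset.sum_congr rfl
  intro k hk
  have h1 := sg_qq hg (lt_of_lt_of_le (Finset.mem_range.1 hk) h)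
  unfold qq at h1
  rw [mul_assoc, h1]

theorem qq_qq' (hg : MUnits P e g) {m n : ℕ} (h : m ≤ n) : qq g n * qq g m = qq g m := by
  have h1 := congrArg star (qq_qq hg h)
  rw [star_mul, star_qq, star_qq] at h1
  exact h1

theorem qq_prj (hg : MUnits P e g) (n : ℕ) : Prj (qq g n) := ⟨star_qq g n, qq_qq hg le_rfl⟩

theorem qq_sub_prj (hg : MUnits P e g) {m n : ℕ} (h : m ≤ n) : Prj (qq g n - qq g m) := by
  refine ⟨by rw [star_sub, star_qq, star_qq], ?_⟩
  rw [mul_sub, sub_mul, sub_mul, qq_qq hg le_rfl, qq_qq hg h, qq_qq' hg h, qq_qq hg le_rfl]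
  abel

theorem qq_mem (hg : MUnits P e g) (n : ℕ) : qq g n ∈ P := by
  unfold qq
  apply sum_mem
  intro k _
  exact mul_mem (hg.mem k) (star_mem (hg.mem k))

theorem qq_step (hg : MUnits P e g) {m n : ℕ} (h : m ≤ n) (x : K) :
    ‖qq g n x - qq g m x‖ ^ 2 = ‖qq g n x‖ ^ 2 - ‖qq g m x‖ ^ 2 := by
  have h1 := prj_norm (qq_sub_prj hg h) x
  rw [sub_apply, inner_sub_right, Complex.sub_re,
    ← prj_norm (qq_prj hg n), ← prj_norm (qq_prj hg m)] at h1
  exact h1

theorem qq_tendsto (hg : MUnits P e g) (x : K) :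
    Tendsto (fun n => qq g n x) atTop (𝓝 x) := by
  obtain ⟨a, ha⟩ : ∃ a : ℕ → ℝ, a = fun n => ‖qq g n x‖ ^ 2 := ⟨_, rfl⟩
  have hmono : Monotone a := by
    intro m n h
    have h1 := qq_step hg h x
    have h2 := sq_nonneg ‖qq g n x - qq g m x‖
    rw [ha]
    show ‖qq g m x‖ ^ 2 ≤ ‖qq g n x‖ ^ 2
    linarith
  have hbd : ∀ n, a n ≤ ‖x‖ ^ 2 := by
    intro n
    rw [ha]
    show ‖qq g n x‖ ^ 2 ≤ ‖x‖ ^ 2
    have h1 := prj_norm (prj_one_sub (qq_prj hg n)) x
    rw [sub_apply, inner_sub_right, Complex.sub_re,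
      ← prj_norm (qq_prj hg n), one_apply_eq_self] at h1
    have h2 := inner_self_eq_norm_sq (𝕜 := ℂ) x
    have h3 : (⟪x, x⟫_ℂ).re = ‖x‖ ^ 2 := h2
    rw [h3] at h1
    have h4 := sq_nonneg ‖x - qq g n x‖
    linarith
  have hbdd : BddAbove (Set.range a) := ⟨‖x‖ ^ 2, by
    rintro _ ⟨n, rfl⟩
    exact hbd n⟩
  have hcau : CauchySeq a := (tendsto_atTop_ciSup hmono hbdd).cauchySeq
  have hcau2 : CauchySeq fun n => qq g n x := by
    rw [Metric.cauchySeq_iff]
    intro ε hε
    obtain ⟨N, hN⟩ := Metric.cauchySeq_iff.1 hcau (ε ^ 2) (by positivity)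
    refine ⟨N, ?_⟩
    have key : ∀ m ≥ N, ∀ n ≥ N, m ≤ n → dist (qq g n x) (qq g m x) < ε := by
      intro m hm n hn hmn
      have h1 := hN n hn m hm
      rw [Real.dist_eq, ha] at h1
      rw [dist_eq_norm]
      have h2 : ‖qq g n x - qq g m x‖ ^ 2 < ε ^ 2 := by
        rw [qq_step hg hmn]
        exact (le_abs_self _).trans_lt h1
      exact lt_of_pow_lt_pow_left₀ 2 hε.le h2
    intro m hm n hn
    rcases le_total m n with h | h
    · rw [dist_comm]
      exact key m hm n hn h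
    · exact key n hn m hm h
  obtain ⟨y, hy⟩ := cauchySeq_tendsto_of_complete hcau2
  have hxy : x - y = 0 := by
    apply hg.tot
    intro j
    have h1 : Tendsto (fun n => star (g j) (qq g n x)) atTop (𝓝 (star (g j) y)) :=
      ((star (g j)).continuous.tendsto y).comp hy
    have h2 : Tendsto (fun n => star (g j) (qq g n x)) atTop (𝓝 (star (g j) x)) := by
      apply tendsto_const_nhds.congr'
      filter_upwards [eventually_gt_atTop j] with n hn
      rw [← mul_apply_eq_comp, sg_qq hg hn]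
    rw [map_sub, tendsto_nhds_unique h1 h2, sub_self]
  rw [sub_eq_zero] at hxy
  rw [← hxy] at hy
  exact hy

/-- unitaries close to the isometry `w` -/
theorem exists_unitary [TopologicalSpace.SeparableSpace K] (h1 : S_dcb) (hABS : S_ABS)
    (hF : Factor P) {w : K →L[ℂ] K} (hw : w ∈ P) (hww : star w * w = 1) (hg : MUnits P e g)
    (n : ℕ) : ∃ u : K →L[ℂ] K, u ∈ P ∧ star u * u = 1 ∧ u * star u = 1 ∧
      ∀ x : K, ‖u x - w x‖ ≤ 2 * ‖x - qq g n x‖ := by
  have hq := qq_prj hg n
  have hqP := qq_mem hg n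
  obtain ⟨q, hqdef⟩ : ∃ q, q = qq g n := ⟨_, rfl⟩
  rw [← hqdef] at hq hqP
  obtain ⟨p, hp⟩ : ∃ p, p = 1 - q := ⟨_, rfl⟩
  obtain ⟨r, hr⟩ : ∃ r, r = 1 - w * q * star w := ⟨_, rfl⟩
  have hqw : ∀ j, q * g (n + j) = 0 := fun j => by
    rw [hqdef]
    exact qq_g hg (Nat.le_add_right n j)
  have hpP : p ∈ P := by rw [hp]; exact sub_mem (one_mem P) hqP
  have hsP : w * q * star w ∈ P := mul_mem (mul_mem hw hqP) (star_mem hw)
  have hrP : r ∈ P := by rw [hr]; exact sub_mem (one_mem P) hsP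
  have hs : Prj (w * q * star w) := by
    refine ⟨?_, ?_⟩
    · rw [star_mul, star_mul, star_star, hq.1, mul_assoc]
    · calc w * q * star w * (w * q * star w) = w * q * (star w * w) * q * star w := by
            simp only [mul_assoc]
        _ = w * (q * q) * star w := by rw [hww, mul_one, mul_assoc w q q]
        _ = w * q * star w := by rw [hq.2]
  have hpp : Prj p := by rw [hp]; exact prj_one_sub hq
  have hrp : Prj r := by rw [hr]; exact prj_one_sub hs
  have hpg : ∀ j, p * g (n + j) = g (n + j) := fun j => by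
    rw [hp, sub_mul, one_mul, hqw, sub_zero]
  have hrg : ∀ j, r * (w * g (n + j)) = w * g (n + j) := fun j => by
    have : w * q * star w * (w * g (n + j)) = 0 := by
      calc w * q * star w * (w * g (n + j)) = w * (q * ((star w * w) * g (n + j))) := by
            simp only [mul_assoc]
        _ = 0 := by rw [hww, one_mul, hqw, mul_zero]
    rw [hr, sub_mul, one_mul, this, sub_zero]
  have hePe : e ∈ P := by
    rw [← hg.ini 0]
    exact mul_mem (star_mem (hg.mem 0)) (hg.mem 0)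
  -- `r ≲ p`
  obtain ⟨b, hbP, hb1, hb2⟩ := hABS K P hF p hpP r hrP e hePe hpp hrp hg.prj hg.nz
    (fun j => g (n + j)) (fun j => hg.mem _) (fun j => hg.ini _)
    (fun i j hij => hg.ort _ _ (by omega)) hpg
  -- `p ≲ r`
  obtain ⟨a, haP, ha1, ha2⟩ := hABS K P hF r hrP p hpP e hePe hrp hpp hg.prj hg.nz
    (fun j => w * g (n + j)) (fun j => mul_mem hw (hg.mem _))
    (fun j => by
      show star (w * g (n + j)) * (w * g (n + j)) = e
      rw [star_mul, mul_assoc, ← mul_assoc (star w), hww, one_mul, hg.ini])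
    (fun i j hij => by
      show star (w * g (n + i)) * (w * g (n + j)) = 0
      rw [star_mul, mul_assoc, ← mul_assoc (star w), hww, one_mul, hg.ort _ _ (by omega)]) hrg
  obtain ⟨y, hyP, hy1, hy2⟩ := h1 K P p r a b hpp hrp hpP hrP haP hbP ha1 ha2 hb1 hb2
  have hyp : y * p = y := mul_prj hpp hy1
  have hry : r * y = y := by
    rw [← hy2, mul_assoc, hy1, hyp]
  have hpq : p * q = 0 := by rw [hp, sub_mul, one_mul, hq.2, sub_self]
  have hyq : y * q = 0 := by
    calc y * q = y * p * q := by rw [hyp]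
      _ = 0 := by rw [mul_assoc, hpq, mul_zero]
  have hqy : q * star y = 0 := by
    have := congrArg star hyq
    rw [star_mul, hq.1, star_zero] at this
    exact this
  have hrw : r * (w * q) = 0 := by
    have : w * q * star w * (w * q) = w * q := by
      calc w * q * star w * (w * q) = w * (q * ((star w * w) * q)) := by
            simp only [mul_assoc]
        _ = w * q := by rw [hww, one_mul, hq.2]
    rw [hr, sub_mul, one_mul, this, sub_self]
  have hyw : star y * (w * q) = 0 := by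
    have h5 : star y = star y * r := by
      have := congrArg star hry
      rw [star_mul, hrp.1] at this
      exact this.symm
    rw [h5, mul_assoc, hrw, mul_zero]
  have hwy : q * star w * y = 0 := by
    have := congrArg star hyw
    rw [star_mul, star_mul, star_star, hq.1, star_zero] at this
    exact this
  refine ⟨w * q + y, add_mem (mul_mem hw hqP) hyP, ?_, ?_, ?_⟩
  · rw [star_add, star_mul, hq.1, add_mul, mul_add, mul_add, hyw, hy1, hwy]
    have : q * star w * (w * q) = q := by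
      calc q * star w * (w * q) = q * ((star w * w) * q) := by simp only [mul_assoc]
        _ = q := by rw [hww, one_mul, hq.2]
    rw [this, hp]
    abel
  · rw [star_add, star_mul, hq.1, add_mul, mul_add, mul_add, hy2]
    have e1 : w * q * (q * star w) = w * q * star w := by
      rw [← mul_assoc, mul_assoc w q q, hq.2]
    have e2 : w * q * star y = 0 := by rw [mul_assoc, hqy, mul_zero]
    have e3 : y * (q * star w) = 0 := by rw [← mul_assoc, hyq, zero_mul]
    rw [e1, e2, e3, hr]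
    abel
  · intro x
    have hpx : p x = x - q x := by
      rw [hp]
      rfl
    have hyx : y x = y (p x) := by
      conv_lhs => rw [← hyp]
      rfl
    have e1 : (w * q + y) x - w x = y (p x) - w (p x) := by
      rw [← hyx, hpx, map_sub]
      show w (q x) + y x - w x = y x - (w x - w (q x))
      abel
    have hone : Prj (1 : K →L[ℂ] K) := ⟨star_one _, one_mul _⟩
    have n1 : ‖y (p x)‖ = ‖p x‖ := by
      rw [iso_norm hpp hy1, ← mul_apply_eq_comp, hpp.2]
    have n2 : ‖w (p x)‖ = ‖p x‖ := by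
      rw [iso_norm hone hww, one_apply_eq_self]
    rw [e1, ← hqdef, ← hpx]
    refine (norm_sub_le _ _).trans ?_
    rw [n1, n2]
    linarith

end aux

theorem r' (h1 : S_dcb) (hMU : S_MU) (hABS : S_ABS) : S_diso := by
  intro K _ _ _ _ P hF w hw hww Y
  by_cases hu : w * star w = 1
  · intro n ξ η ε hε
    refine ⟨star w * Y * w, subset_convexHull ℝ _ ?_, fun i => ?_⟩
    · refine ⟨star w, ?_, star_mem hw, by rw [star_star]⟩
      rw [Unitary.mem_iff, star_star]
      exact ⟨hu, hww⟩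
    · rw [sub_self]
      simpa using hε
  · obtain ⟨e, g, hg⟩ := hMU K P hF ⟨w, hw, hww, hu⟩
    intro n ξ η ε hε
    obtain ⟨B, hB⟩ : ∃ B : ℝ, B = ‖Y‖ + 1 := ⟨_, rfl⟩
    have hB0 : 0 < B := by rw [hB]; positivity
    -- small error
    have hlim : ∀ i : Fin n, Tendsto (fun k : ℕ => 2 * ‖η i - qq g k (η i)‖ * (B * ‖ξ i‖) +
        ‖η i‖ * (B * (2 * ‖ξ i - qq g k (ξ i)‖))) atTop (𝓝 0) := by
      intro i
      have h2 : ∀ x : K, Tendsto (fun k : ℕ => ‖x - qq g k x‖) atTop (𝓝 0) := by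
        intro x
        have := ((tendsto_const_nhds (x := x)).sub (qq_tendsto hg x)).norm
        rw [sub_self, norm_zero] at this
        exact this
      have h3 := (((h2 (η i)).const_mul 2).mul_const (B * ‖ξ i‖)).add
        ((((h2 (ξ i)).const_mul 2).const_mul B).const_mul ‖η i‖)
      simpa using h3
    have hev : ∀ᶠ k : ℕ in atTop, ∀ i : Fin n, 2 * ‖η i - qq g k (η i)‖ * (B * ‖ξ i‖) +
        ‖η i‖ * (B * (2 * ‖ξ i - qq g k (ξ i)‖)) < ε := by
      rw [eventually_all]
      intro i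
      exact (hlim i).eventually (gt_mem_nhds hε)
    obtain ⟨k, hk⟩ := hev.exists
    obtain ⟨u, huP, hu1, hu2, hux⟩ := exists_unitary h1 hABS hF hw hww hg k
    refine ⟨star u * Y * u, subset_convexHull ℝ _ ?_, fun i => ?_⟩
    · refine ⟨star u, ?_, star_mem huP, by rw [star_star]⟩
      rw [Unitary.mem_iff, star_star]
      exact ⟨hu2, hu1⟩
    · refine lt_of_le_of_lt ?_ (hk i)
      have e1 : ⟪η i, (star u * Y * u - star w * Y * w) (ξ i)⟫_ℂ =
          ⟪u (η i) - w (η i), Y (u (ξ i))⟫_ℂ + ⟪w (η i), Y (u (ξ i) - w (ξ i))⟫_ℂ := by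
        rw [sub_apply, inner_sub_right]
        have a1 : ⟪η i, (star u * Y * u) (ξ i)⟫_ℂ = ⟪u (η i), Y (u (ξ i))⟫_ℂ := by
          rw [mul_assoc, mul_apply_eq_comp, inner_star]
          rfl
        have a2 : ⟪η i, (star w * Y * w) (ξ i)⟫_ℂ = ⟪w (η i), Y (w (ξ i))⟫_ℂ := by
          rw [mul_assoc, mul_apply_eq_comp, inner_star]
          rfl
        rw [a1, a2, inner_sub_left, map_sub, inner_sub_right]
        ring
      have hone : Prj (1 : K →L[ℂ] K) := ⟨star_one _, one_mul _⟩
      have nu : ∀ x, ‖u x‖ = ‖x‖ := fun x => by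
        rw [iso_norm hone hu1, one_apply_eq_self]
      have nw : ∀ x, ‖w x‖ = ‖x‖ := fun x => by
        rw [iso_norm hone hww, one_apply_eq_self]
      have nY : ∀ x, ‖Y x‖ ≤ B * ‖x‖ := fun x => by
        refine (Y.le_opNorm x).trans ?_
        apply mul_le_mul_of_nonneg_right _ (norm_nonneg x)
        rw [hB]
        linarith
      rw [e1]
      refine (norm_add_le _ _).trans (add_le_add ?_ ?_)
      · refine (norm_inner_le_norm _ _).trans ?_
        apply mul_le_mul (hux _) _ (norm_nonneg _) (by positivity)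
        rw [← nu (ξ i)]
        exact nY _
      · refine (norm_inner_le_norm _ _).trans ?_
        rw [nw]
        apply mul_le_mul_of_nonneg_left _ (norm_nonneg _)
        exact (nY _).trans (mul_le_mul_of_nonneg_left (hux _) hB0.le)

theorem r (h1 : S_dcb) : S_diso := by
  have zsum : S_ZSUM := Pool.Agent.W978.WD.ZSUM.p_ZSUM Pool.Agent.W196.WD.p_CPT
  have cmp : S_CMP := Pool.Agent.W67.WD.p_CMP Pool.Agent.W395.WD.p_LOC zsum
  exact r' h1 (Pool.Agent.W32.WDM.p_MU zsum cmp) (Pool.Agent.W85.WDX.p_ABS zsum cmp)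

end Pool.Agent.H255.BC.D_diso
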