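import Pool.Agent.H255.BC.Defs8
import Pool.Graph.R_pool_sql_team_seeded_f72693b1.W196.WD.CPT
import Pool.Graph.R_pool_sql_team_seeded_f72693b1.W481.WD.KSET

/-!
Stage 8, task dmin: minimal elements.
-/

set_option autoImplicit false
set_option linter.unusedSectionVars false

open MeasureTheory Filter Topology Complex
open scoped InnerProductSpace ENNReal

namespace Pool.Agent.H37.DX

open Pool.Agent.W662.CB Pool.Agent.W988.WD Pool.Agent.H255.BC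

section
variable {K : Type} [NormedAddCommGroup K] [InnerProductSpace ℂ K] [CompleteSpace K]

/-- conjugates of `X` -/
def Dd (𝒲 : Set (K →L[ℂ] K)) (X : K →L[ℂ] K) : Set (K →L[ℂ] K) :=
  {T | ∃ w ∈ 𝒲, T = w * X * star w}

/-- weak closure of the convex hull -/
def WC (D : Set (K →L[ℂ] K)) : Set (K →L[ℂ] K) :=
  {z | ∀ (n : ℕ) (ξ η : Fin n → K) (ε : ℝ), 0 < ε →
    ∃ y ∈ convexHull ℝ D, ∀ i : Fin n, ‖⟪η i, (y - z) (ξ i)⟫_ℂ‖ < ε}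

theorem WC_mono {D D' : Set (K →L[ℂ] K)} (h : D ⊆ D') : WC D ⊆ WC D' := by
  intro z hz n ξ η ε hε
  obtain ⟨y, hy, hi⟩ := hz n ξ η ε hε
  exact ⟨y, convexHull_mono h hy, hi⟩

theorem subset_WC {D : Set (K →L[ℂ] K)} : D ⊆ WC D := by
  intro z hz n ξ η ε hε
  refine ⟨z, subset_convexHull ℝ _ hz, fun i => ?_⟩
  rw [sub_self]
  simpa using hε

theorem WC_convex (D : Set (K →L[ℂ] K)) : Convex ℝ (WC D) := by
  intro z1 h1 z2 h2 a b ha hb hab n ξ η ε hε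
  obtain ⟨y1, hy1, hi1⟩ := h1 n ξ η (ε / 2) (half_pos hε)
  obtain ⟨y2, hy2, hi2⟩ := h2 n ξ η (ε / 2) (half_pos hε)
  refine ⟨a • y1 + b • y2, (convex_convexHull ℝ _) hy1 hy2 ha hb hab, fun i => ?_⟩
  have e : ⟪η i, (a • y1 + b • y2 - (a • z1 + b • z2)) (ξ i)⟫_ℂ =
      (a : ℂ) * ⟪η i, (y1 - z1) (ξ i)⟫_ℂ + (b : ℂ) * ⟪η i, (y2 - z2) (ξ i)⟫_ℂ := by
    have e1 : (a • y1 + b • y2 - (a • z1 + b • z2)) (ξ i) =
        (a : ℂ) • (y1 - z1) (ξ i) + (b : ℂ) • (y2 - z2) (ξ i) := by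
      simp only [_root_.sub_apply, _root_.add_apply,
        _root_.smul_apply, Complex.coe_smul, smul_sub]
      abel
    rw [e1, inner_add_right, inner_smul_right, inner_smul_right]
  rw [e]
  refine (norm_add_le _ _).trans_lt ?_
  rw [norm_mul, norm_mul, Complex.norm_real, Complex.norm_real, Real.norm_of_nonneg ha,
    Real.norm_of_nonneg hb]
  have h3 := mul_le_mul_of_nonneg_left (hi1 i).le ha
  have h4 := mul_le_mul_of_nonneg_left (hi2 i).le hb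
  have h5 : a * (ε / 2) + b * (ε / 2) = ε / 2 := by rw [← add_mul, hab, one_mul]
  linarith

theorem WC_wlim {D : Set (K →L[ℂ] K)} (U : Ultrafilter ℕ) (z : ℕ → (K →L[ℂ] K)) (w : K →L[ℂ] K)
    (hz : ∀ᶠ i in (U : Filter ℕ), z i ∈ WC D) (hw : WLim (U : Filter ℕ) z w) : w ∈ WC D := by
  intro n ξ η ε hε
  have h1 : ∀ᶠ i in (U : Filter ℕ), ∀ j : Fin n, ‖⟪η j, (z i - w) (ξ j)⟫_ℂ‖ < ε / 2 := by
    rw [eventually_all]
    intro j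
    have h2 := (tendsto_iff_norm_sub_tendsto_zero.1 (hw (ξ j) (η j))).eventually
      (gt_mem_nhds (half_pos hε))
    filter_upwards [h2] with i hi
    rw [_root_.sub_apply, inner_sub_right]
    exact hi
  obtain ⟨i, hi, hzi⟩ := (h1.and hz).exists
  obtain ⟨y, hy, hyi⟩ := hzi n ξ η (ε / 2) (half_pos hε)
  refine ⟨y, hy, fun j => ?_⟩
  have e : ⟪η j, (y - w) (ξ j)⟫_ℂ =
      ⟪η j, (y - z i) (ξ j)⟫_ℂ + ⟪η j, (z i - w) (ξ j)⟫_ℂ := by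
    rw [← inner_add_right, ← _root_.add_apply, sub_add_sub_cancel]
  rw [e]
  refine (norm_add_le _ _).trans_lt ?_
  linarith [hi j, hyi j]

theorem hull_conj {D D' : Set (K →L[ℂ] K)} {w : K →L[ℂ] K} (h : ∀ T ∈ D, w * T * star w ∈ D')
    {y : K →L[ℂ] K} (hy : y ∈ convexHull ℝ D) : w * y * star w ∈ convexHull ℝ D' := by
  have hadd : ∀ a b : ℝ, ∀ T1 T2 : K →L[ℂ] K, w * (a • T1 + b • T2) * star w =
      a • (w * T1 * star w) + b • (w * T2 * star w) := by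
    intro a b T1 T2
    rw [mul_add, add_mul, mul_smul_comm, mul_smul_comm, smul_mul_assoc, smul_mul_assoc]
  have hmin : convexHull ℝ D ⊆ {T : K →L[ℂ] K | w * T * star w ∈ convexHull ℝ D'} := by
    refine convexHull_min (fun T hT => subset_convexHull ℝ _ (h T hT)) ?_
    intro T1 h1 T2 h2 a b ha hb hab
    have h3 := (convex_convexHull ℝ D') h1 h2 ha hb hab
    show w * (a • T1 + b • T2) * star w ∈ convexHull ℝ D'
    rw [hadd]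
    exact h3
  exact hmin hy

theorem WC_conj {D D' : Set (K →L[ℂ] K)} {w : K →L[ℂ] K} (h : ∀ T ∈ D, w * T * star w ∈ D')
    {z : K →L[ℂ] K} (hz : z ∈ WC D) : w * z * star w ∈ WC D' := by
  intro n ξ η ε hε
  obtain ⟨y, hy, hi⟩ := hz n (fun i => star w (ξ i)) (fun i => star w (η i)) ε hε
  refine ⟨w * y * star w, hull_conj h hy, fun i => ?_⟩
  have h1 : ‖⟪star w (η i), (y - z) (star w (ξ i))⟫_ℂ‖ < ε := hi i
  rw [Pool.Agent.W481.WD.inn_star] at h1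
  have e : (w * y * star w - w * z * star w) (ξ i) = (w * (y - z)) (star w (ξ i)) := by
    rw [← sub_mul, ← mul_sub]
    rfl
  rw [e]
  exact h1

/-- lower semicontinuity of the norm -/
theorem norm_lsc (U : Ultrafilter ℕ) (z : ℕ → (K →L[ℂ] K)) (w : K →L[ℂ] K)
    (hw : WLim (U : Filter ℕ) z w) (ξ : K) (r : ℝ)
    (h : ∀ ε : ℝ, 0 < ε → ∀ᶠ i in (U : Filter ℕ), ‖z i ξ‖ ≤ r + ε) : ‖w ξ‖ ≤ r := by
  refine le_of_forall_pos_le_add fun ε hε => ?_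
  have h1 : Tendsto (fun i => (⟪w ξ, z i ξ⟫_ℂ).re) (U : Filter ℕ) (𝓝 (⟪w ξ, w ξ⟫_ℂ).re) :=
    (Complex.continuous_re.tendsto _).comp (hw ξ (w ξ))
  have h2 : (⟪w ξ, w ξ⟫_ℂ).re = ‖w ξ‖ * ‖w ξ‖ := by
    have := inner_self_eq_norm_mul_norm (𝕜 := ℂ) (w ξ)
    exact this
  have h3 : (⟪w ξ, w ξ⟫_ℂ).re ≤ ‖w ξ‖ * (r + ε) := by
    refine le_of_tendsto h1 ?_
    filter_upwards [h ε hε] with i hi
    calc (⟪w ξ, z i ξ⟫_ℂ).re ≤ ‖⟪w ξ, z i ξ⟫_ℂ‖ := Complex.re_le_norm _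
      _ ≤ ‖w ξ‖ * ‖z i ξ‖ := norm_inner_le_norm _ _
      _ ≤ ‖w ξ‖ * (r + ε) := mul_le_mul_of_nonneg_left hi (norm_nonneg _)
  rw [h2] at h3
  by_cases h4 : ‖w ξ‖ = 0
  · obtain ⟨i, hi⟩ := (h ε hε).exists
    rw [h4]
    exact (norm_nonneg _).trans hi
  · exact le_of_mul_le_mul_left h3 (lt_of_le_of_ne (norm_nonneg _) (Ne.symm h4))

/-- the strictly convex functional -/
noncomputable def FF (Ω : ℕ → K) (Y : K →L[ℂ] K) : ℝ := ∑' j, (1 / 2 : ℝ) ^ j * ‖Y (Ω j)‖ ^ 2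

theorem FF_summable (Ω : ℕ → K) (hΩ : ∀ j, ‖Ω j‖ ≤ 1) (Y : K →L[ℂ] K) :
    Summable fun j => (1 / 2 : ℝ) ^ j * ‖Y (Ω j)‖ ^ 2 := by
  refine Summable.of_nonneg_of_le (fun j => by positivity) (fun j => ?_)
    (summable_geometric_two.mul_right (‖Y‖ ^ 2))
  refine mul_le_mul_of_nonneg_left ?_ (by positivity)
  have h1 : ‖Y (Ω j)‖ ≤ ‖Y‖ := by
    refine (Y.le_opNorm _).trans ?_
    exact mul_le_of_le_one_right (norm_nonneg _) (hΩ j)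
  exact pow_le_pow_left₀ (norm_nonneg _) h1 2

theorem FF_lsc (Ω : ℕ → K) (hΩ : ∀ j, ‖Ω j‖ ≤ 1) (U : Ultrafilter ℕ) (z : ℕ → (K →L[ℂ] K))
    (w : K →L[ℂ] K) (hw : WLim (U : Filter ℕ) z w) (r : ℝ)
    (h : ∀ ε : ℝ, 0 < ε → ∀ᶠ i in (U : Filter ℕ), FF Ω (z i) ≤ r + ε) : FF Ω w ≤ r := by
  refine le_of_forall_pos_le_add fun ε hε => ?_
  refine Real.tsum_le_of_sum_range_le (fun j => by positivity) fun J => ?_
  set G : (K →L[ℂ] K) → ℝ := fun Y => ∑ j ∈ Finset.range J, (1 / 2 : ℝ) ^ j * ‖Y (Ω j)‖ ^ 2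
    with hG
  show G w ≤ r + ε
  have hGF : ∀ Y, G Y ≤ FF Ω Y := fun Y =>
    (FF_summable Ω hΩ Y).sum_le_tsum _ (fun j _ => by positivity)
  have h1 : Tendsto (fun i => ∑ j ∈ Finset.range J, (1 / 2 : ℝ) ^ j * (⟪w (Ω j), z i (Ω j)⟫_ℂ).re)
      (U : Filter ℕ) (𝓝 (∑ j ∈ Finset.range J, (1 / 2 : ℝ) ^ j * (⟪w (Ω j), w (Ω j)⟫_ℂ).re)) := by
    refine tendsto_finsetSum _ fun j _ => Tendsto.const_mul _ ?_
    exact (Complex.continuous_re.tendsto _).comp (hw (Ω j) (w (Ω j)))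
  have h2 : (∑ j ∈ Finset.range J, (1 / 2 : ℝ) ^ j * (⟪w (Ω j), w (Ω j)⟫_ℂ).re) = G w := by
    refine Finset.sum_congr rfl fun j _ => ?_
    congr 1
    have := inner_self_eq_norm_mul_norm (𝕜 := ℂ) (w (Ω j))
    rw [sq]
    exact this
  rw [h2] at h1
  have h3 : G w ≤ (G w + (r + ε)) / 2 := by
    refine le_of_tendsto h1 ?_
    filter_upwards [h ε hε] with i hi
    have h4 : (∑ j ∈ Finset.range J, (1 / 2 : ℝ) ^ j * (⟪w (Ω j), z i (Ω j)⟫_ℂ).re) ≤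
        (G w + G (z i)) / 2 := by
      rw [hG]
      simp only
      rw [← Finset.sum_add_distrib, Finset.sum_div]
      refine Finset.sum_le_sum fun j _ => ?_
      have h5 : (⟪w (Ω j), z i (Ω j)⟫_ℂ).re ≤ (‖w (Ω j)‖ ^ 2 + ‖z i (Ω j)‖ ^ 2) / 2 := by
        have h6 : (⟪w (Ω j), z i (Ω j)⟫_ℂ).re ≤ ‖w (Ω j)‖ * ‖z i (Ω j)‖ :=
          (Complex.re_le_norm _).trans (norm_inner_le_norm _ _)
        nlinarith [sq_nonneg (‖w (Ω j)‖ - ‖z i (Ω j)‖)]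
      have h7 := mul_le_mul_of_nonneg_left h5 (show (0 : ℝ) ≤ (1 / 2 : ℝ) ^ j by positivity)
      linarith
    have h8 := (hGF (z i)).trans hi
    linarith
  linarith

/-- the parallelogram identity -/
theorem FF_par (Ω : ℕ → K) (hΩ : ∀ j, ‖Ω j‖ ≤ 1) (Y Z : K →L[ℂ] K) :
    FF Ω ((1 / 2 : ℝ) • Y + (1 / 2 : ℝ) • Z) + FF Ω ((1 / 2 : ℝ) • (Y - Z)) =
      (FF Ω Y + FF Ω Z) / 2 := by
  have s1 := FF_summable Ω hΩ ((1 / 2 : ℝ) • Y + (1 / 2 : ℝ) • Z)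
  have s2 := FF_summable Ω hΩ ((1 / 2 : ℝ) • (Y - Z))
  have s3 := FF_summable Ω hΩ Y
  have s4 := FF_summable Ω hΩ Z
  unfold FF
  rw [← s1.tsum_add s2, ← s3.tsum_add s4, ← tsum_div_const]
  refine tsum_congr fun j => ?_
  have e1 : ((1 / 2 : ℝ) • Y + (1 / 2 : ℝ) • Z) (Ω j) = (1 / 2 : ℝ) • (Y (Ω j) + Z (Ω j)) := by
    rw [_root_.add_apply, _root_.smul_apply, _root_.smul_apply, smul_add]
  have e2 : ((1 / 2 : ℝ) • (Y - Z)) (Ω j) = (1 / 2 : ℝ) • (Y (Ω j) - Z (Ω j)) := by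
    rw [_root_.smul_apply, _root_.sub_apply]
  have h1 := parallelogram_law_with_norm ℂ (Y (Ω j)) (Z (Ω j))
  rw [e1, e2, norm_smul, norm_smul]
  have h2 : ‖(1 / 2 : ℝ)‖ = 1 / 2 := by norm_num
  rw [h2]
  have h3 : (1 / 2 * ‖Y (Ω j) + Z (Ω j)‖) ^ 2 + (1 / 2 * ‖Y (Ω j) - Z (Ω j)‖) ^ 2 =
      (‖Y (Ω j)‖ ^ 2 + ‖Z (Ω j)‖ ^ 2) / 2 := by
    linear_combination (1 / 4 : ℝ) * h1
  linear_combination (1 / 2 : ℝ) ^ j * h3

theorem FF_zero (Ω : ℕ → K) (hΩ : ∀ j, ‖Ω j‖ ≤ 1) (Y : K →L[ℂ] K) (h : FF Ω Y ≤ 0) (j : ℕ) :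
    Y (Ω j) = 0 := by
  have h1 := (FF_summable Ω hΩ Y).le_tsum j (fun i _ => by positivity)
  have h2 : (1 / 2 : ℝ) ^ j * ‖Y (Ω j)‖ ^ 2 ≤ 0 := h1.trans h
  have h3 : (0 : ℝ) < (1 / 2 : ℝ) ^ j := by positivity
  have h4 : ‖Y (Ω j)‖ ^ 2 ≤ 0 := by
    by_contra hne
    push Not at hne
    have := mul_pos h3 hne
    linarith
  have h5 : ‖Y (Ω j)‖ = 0 := by
    have := le_antisymm h4 (by positivity)
    exact pow_eq_zero_iff (two_ne_zero) |>.1 this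
  exact norm_eq_zero.1 h5

end

end Pool.Agent.H37.DX

namespace Pool.Agent.H255.BC.D_dmin

open Pool.Agent.W662.CB Pool.Agent.W988.WD Pool.Agent.H255.BC Pool.Agent.H37.DX

theorem r  : S_dmin := by
  intro K _ _ _ P M hPM 𝒰 Ω hone hmono hU hmul hΩ hsep hcont X hX
  set C : ℝ → Set (K →L[ℂ] K) := fun δ => WC (Dd (𝒰 δ) X) with hC
  have hDC : ∀ δ : ℝ, 0 < δ → Dd (𝒰 δ) X ⊆ Conj P X := by
    rintro δ hδ T ⟨w, hw, rfl⟩
    obtain ⟨h1, h2, h3⟩ := hU δ hδ w hw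
    exact ⟨w, Unitary.mem_iff.2 ⟨h2, h3⟩, h1, rfl⟩
  have hCK : ∀ δ : ℝ, 0 < δ → C δ ⊆ KN P X := fun δ hδ => WC_mono (hDC δ hδ)
  have hCmono : ∀ δ δ' : ℝ, 0 < δ → δ ≤ δ' → C δ ⊆ C δ' := by
    intro δ δ' hδ hδ'
    refine WC_mono ?_
    rintro T ⟨w, hw, rfl⟩
    exact ⟨w, hmono δ δ' hδ hδ' hw, rfl⟩
  have hCconj : ∀ δ δ' : ℝ, 0 < δ → 0 < δ' → ∀ w ∈ 𝒰 δ, ∀ z ∈ C δ',
      w * z * star w ∈ C (δ + δ') := by
    intro δ δ' hδ hδ' w hw z hz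
    refine WC_conj ?_ hz
    rintro T ⟨w', hw', rfl⟩
    refine ⟨w * w', hmul δ δ' hδ hδ' w hw w' hw', ?_⟩
    rw [star_mul]
    simp only [mul_assoc]
  obtain ⟨-, hKM, -, -, -⟩ := Pool.Agent.W481.WD.p_KSET K P M hPM X hX
  set K₀ : Set (K →L[ℂ] K) := {z | ∀ δ : ℝ, 0 < δ → z ∈ C δ} with hK₀
  have hXK₀ : X ∈ K₀ := by
    intro δ hδ
    refine subset_WC ⟨1, hone δ hδ, ?_⟩
    simp
  have hK₀KN : K₀ ⊆ KN P X := fun z hz => hCK 1 one_pos (hz 1 one_pos)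
  have hK₀conv : Convex ℝ K₀ := by
    intro z1 h1 z2 h2 a b ha hb hab δ hδ
    exact (WC_convex _) (h1 δ hδ) (h2 δ hδ) ha hb hab
  -- minimizer
  have hFnn : ∀ Y, 0 ≤ FF Ω Y := fun Y => tsum_nonneg fun j => by positivity
  set I : ℝ := sInf (FF Ω '' K₀) with hI
  have hbdd : BddBelow (FF Ω '' K₀) := ⟨0, by rintro _ ⟨Y, -, rfl⟩; exact hFnn Y⟩
  have hIle : ∀ Y ∈ K₀, I ≤ FF Ω Y := fun Y hY => csInf_le hbdd ⟨Y, hY, rfl⟩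
  have hseq : ∀ n : ℕ, ∃ Y ∈ K₀, FF Ω Y < I + 1 / ((n : ℝ) + 1) := by
    intro n
    have hpos : (0 : ℝ) < 1 / ((n : ℝ) + 1) := by positivity
    obtain ⟨_, ⟨Y, hY, rfl⟩, hlt⟩ := exists_lt_of_csInf_lt (s := FF Ω '' K₀)
      ⟨_, X, hXK₀, rfl⟩ (show sInf (FF Ω '' K₀) < I + 1 / ((n : ℝ) + 1) by
        rw [← hI]; linarith)
    exact ⟨Y, hY, hlt⟩
  choose Yn hYnK hYnF using hseq
  set U : Ultrafilter ℕ := hyperfilter ℕ with hUdef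
  have hUle : (U : Filter ℕ) ≤ atTop := by
    rw [hUdef, ← Nat.cofinite_eq_atTop]
    exact hyperfilter_le_cofinite
  obtain ⟨Y, -, hYlim⟩ := (Pool.Agent.W196.WD.p_CPT K ℕ U Yn).1 ‖X‖
    (fun n => (hKM _ (hK₀KN (hYnK n))).2)
  have hYK : Y ∈ K₀ := fun δ hδ =>
    WC_wlim U Yn Y (Eventually.of_forall fun n => hYnK n δ hδ) hYlim
  have hYF : FF Ω Y ≤ I := by
    refine FF_lsc Ω hΩ U Yn Y hYlim I fun ε hε => ?_
    have h1 : ∀ᶠ n : ℕ in atTop, 1 / ((n : ℝ) + 1) < ε :=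
      tendsto_one_div_add_atTop_nhds_zero_nat.eventually (gt_mem_nhds hε)
    filter_upwards [hUle h1] with n hn
    exact (hYnF n).le.trans (by linarith)
  have huniq : ∀ Z ∈ K₀, FF Ω Z ≤ FF Ω Y → Z = Y := by
    intro Z hZ hZF
    have h1 := FF_par Ω hΩ Z Y
    have h2 : I ≤ FF Ω ((1 / 2 : ℝ) • Z + (1 / 2 : ℝ) • Y) :=
      hIle _ (hK₀conv hZ hYK (by norm_num) (by norm_num) (by norm_num))
    have h3 : FF Ω ((1 / 2 : ℝ) • (Z - Y)) ≤ 0 := by linarith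
    have hZM : Z ∈ M := (hKM _ (hK₀KN hZ)).1
    have hYM : Y ∈ M := (hKM _ (hK₀KN hYK)).1
    have h4 : Z - Y = 0 := by
      refine hsep _ (sub_mem hZM hYM) fun j => ?_
      have h5 := FF_zero Ω hΩ _ h3 j
      rw [_root_.smul_apply] at h5
      exact (smul_eq_zero.1 h5).resolve_left (by norm_num)
    exact sub_eq_zero.1 h4
  have hYM : Y ∈ M := (hKM _ (hK₀KN hYK)).1
  refine ⟨Y, hK₀KN hYK, fun j ε hε => ?_⟩
  by_contra hcon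
  push Not at hcon
  have hpos : ∀ n : ℕ, (0 : ℝ) < 1 / ((n : ℝ) + 1) := fun n => by positivity
  choose w hwU hwε using fun n : ℕ => hcon (1 / ((n : ℝ) + 1)) (hpos n)
  set Zn : ℕ → (K →L[ℂ] K) := fun n => w n * Y * star (w n) with hZn
  have hev : ∀ δ : ℝ, 0 < δ → ∀ᶠ n in (U : Filter ℕ), w n ∈ 𝒰 δ := by
    intro δ hδ
    have h1 : ∀ᶠ n : ℕ in atTop, 1 / ((n : ℝ) + 1) < δ :=
      tendsto_one_div_add_atTop_nhds_zero_nat.eventually (gt_mem_nhds hδ)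
    filter_upwards [hUle h1] with n hn
    exact hmono _ _ (hpos n) hn.le (hwU n)
  have huni : ∀ n, w n ∈ unitary (K →L[ℂ] K) := fun n =>
    Unitary.mem_iff.2 (hU _ (hpos n) (w n) (hwU n)).2
  have hZnorm : ∀ n, ‖Zn n‖ ≤ ‖Y‖ := fun n => Pool.Agent.W481.WD.norm_conj (huni n)
  obtain ⟨Z, -, hZlim⟩ := (Pool.Agent.W196.WD.p_CPT K ℕ U Zn).1 ‖Y‖ hZnorm
  have hwnorm : ∀ n (v : K), ‖w n v‖ = ‖v‖ := by
    intro n v
    have h1 := (hU _ (hpos n) (w n) (hwU n)).2.1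
    have h2 : ⟪w n v, w n v⟫_ℂ = ⟪v, v⟫_ℂ := by
      rw [← ContinuousLinearMap.adjoint_inner_right]
      have h3 : ContinuousLinearMap.adjoint (w n) (w n v) = (star (w n) * w n) v := rfl
      rw [h3, h1]
      rfl
    have h3 := congrArg Complex.re h2
    have h4 : (⟪w n v, w n v⟫_ℂ).re = ‖w n v‖ * ‖w n v‖ :=
      inner_self_eq_norm_mul_norm (𝕜 := ℂ) (w n v)
    have h5 : (⟪v, v⟫_ℂ).re = ‖v‖ * ‖v‖ := inner_self_eq_norm_mul_norm (𝕜 := ℂ) v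
    rw [h4, h5] at h3
    exact (mul_self_inj (norm_nonneg _) (norm_nonneg _)).1 h3
  have hZnΩ : ∀ n i, ‖Zn n (Ω i)‖ = ‖Y (star (w n) (Ω i))‖ := fun n i => hwnorm n _
  have hbound : ∀ i : ℕ, ∀ ε' : ℝ, 0 < ε' → ∀ᶠ n in (U : Filter ℕ),
      ‖Zn n (Ω i)‖ ≤ ‖Y (Ω i)‖ + ε' := by
    intro i ε' hε'
    obtain ⟨δ, hδ, h1⟩ := hcont Y hYM i ε' hε'
    filter_upwards [hev δ hδ] with n hn
    rw [hZnΩ]
    exact h1 _ hn
  have hZK : Z ∈ K₀ := by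
    intro δ hδ
    refine WC_wlim U Zn Z ?_ hZlim
    filter_upwards [hev (δ / 2) (half_pos hδ)] with n hn
    have h1 := hCconj (δ / 2) (δ / 2) (half_pos hδ) (half_pos hδ) (w n) hn Y
      (hYK (δ / 2) (half_pos hδ))
    rwa [add_halves] at h1
  have hZle : ∀ i, ‖Z (Ω i)‖ ≤ ‖Y (Ω i)‖ := fun i =>
    norm_lsc U Zn Z hZlim (Ω i) _ (hbound i)
  have hZF : FF Ω Z ≤ FF Ω Y := by
    refine (FF_summable Ω hΩ Z).tsum_le_tsum (fun i => ?_) (FF_summable Ω hΩ Y)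
    exact mul_le_mul_of_nonneg_left (pow_le_pow_left₀ (norm_nonneg _) (hZle i) 2) (by positivity)
  have hZY : Z = Y := huniq Z hZK hZF
  rw [hZY] at hZlim
  -- strong convergence
  set v : K := Y (Ω j) with hv
  have h1 : Tendsto (fun n => (⟪v, Zn n (Ω j)⟫_ℂ).re) (U : Filter ℕ) (𝓝 (⟪v, v⟫_ℂ).re) :=
    (Complex.continuous_re.tendsto _).comp (hZlim (Ω j) v)
  have h2 : (⟪v, v⟫_ℂ).re = ‖v‖ ^ 2 := by
    rw [sq]
    exact inner_self_eq_norm_mul_norm (𝕜 := ℂ) v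
  rw [h2] at h1
  obtain ⟨η, hη, hη2⟩ : ∃ η : ℝ, 0 < η ∧ 2 * ‖v‖ * η + η ^ 2 + 2 * η < ε ^ 2 := by
    have hc : ContinuousAt (fun η : ℝ => 2 * ‖v‖ * η + η ^ 2 + 2 * η) 0 := by fun_prop
    have h3 : ∀ᶠ η : ℝ in 𝓝 0, 2 * ‖v‖ * η + η ^ 2 + 2 * η < ε ^ 2 := by
      refine hc.tendsto.eventually (gt_mem_nhds ?_)
      have : (0 : ℝ) < ε ^ 2 := by positivity
      simpa using this
    obtain ⟨δ, hδ, hb⟩ := Metric.eventually_nhds_iff_ball.1 h3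
    refine ⟨δ / 2, half_pos hδ, hb _ ?_⟩
    rw [mem_ball_zero_iff, Real.norm_of_nonneg (half_pos hδ).le]
    linarith
  have h3 : ∀ᶠ n in (U : Filter ℕ), ‖v‖ ^ 2 - η < (⟪v, Zn n (Ω j)⟫_ℂ).re :=
    h1.eventually (lt_mem_nhds (by linarith))
  obtain ⟨n, hn1, hn2⟩ := (h3.and (hbound j η hη)).exists
  have h4 : ε < ‖Zn n (Ω j) - v‖ := hwε n
  have h5 : ‖Zn n (Ω j) - v‖ ^ 2 = ‖Zn n (Ω j)‖ ^ 2 - 2 * (⟪v, Zn n (Ω j)⟫_ℂ).re + ‖v‖ ^ 2 := by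
    have h6 := @norm_sub_sq ℂ K _ _ _ (Zn n (Ω j)) v
    rw [h6]
    have h7 : RCLike.re ⟪Zn n (Ω j), v⟫_ℂ = (⟪v, Zn n (Ω j)⟫_ℂ).re := by
      rw [inner_re_symm]
      rfl
    rw [h7]
  have h6 : ε ^ 2 < ‖Zn n (Ω j) - v‖ ^ 2 := pow_lt_pow_left₀ h4 hε.le two_ne_zero
  have h7 : ‖Zn n (Ω j)‖ ^ 2 ≤ (‖v‖ + η) ^ 2 := pow_le_pow_left₀ (norm_nonneg _) hn2 2
  nlinarith

end Pool.Agent.H255.BC.D_dmin
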