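import Pool.Agent.H255.BC.Defs8
import Pool.Graph.R_pool_sql_team_seeded_f72693b1.W196.WD.CPT
import Pool.Graph.R_pool_sql_team_seeded_f72693b1.W481.WD.KSET

set_option autoImplicit false

open MeasureTheory Filter Topology Complex
open scoped InnerProductSpace ENNReal

namespace Pool.Agent.H255.BC.D_dmk

open Pool.Agent.W662.CB Pool.Agent.W988.WD Pool.Agent.H255.BC

theorem sum_shift {E : Type} [SeminormedAddCommGroup E] (W : ℕ → E) (R : ℝ)
    (hR : ∀ j, ‖W j‖ ≤ R) (n m : ℕ) :
    ‖∑ j ∈ Finset.range n, W (j + m) - ∑ j ∈ Finset.range n, W j‖ ≤ 2 * m * R := by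
  have h1 := Finset.sum_range_add W n m
  have h2 := Finset.sum_range_add W m n
  have h3 : ∑ j ∈ Finset.range n, W (j + m) - ∑ j ∈ Finset.range n, W j =
      ∑ j ∈ Finset.range m, W (n + j) - ∑ j ∈ Finset.range m, W j := by
    have e1 : ∑ j ∈ Finset.range n, W (j + m) = ∑ j ∈ Finset.range n, W (m + j) :=
      Finset.sum_congr rfl fun j _ => by rw [add_comm]
    rw [e1]
    rw [add_comm n m, h2] at h1
    rw [sub_eq_sub_iff_add_eq_add, add_comm, h1, add_comm]
  rw [h3]
  refine (norm_sub_le _ _).trans ?_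
  have h4 : ‖∑ j ∈ Finset.range m, W (n + j)‖ ≤ m * R := by
    refine (norm_sum_le_of_le _ (fun j _ => hR (n + j))).trans ?_
    rw [Finset.sum_const, Finset.card_range, nsmul_eq_mul]
  have h5 : ‖∑ j ∈ Finset.range m, W j‖ ≤ m * R := by
    refine (norm_sum_le_of_le _ (fun j _ => hR j)).trans ?_
    rw [Finset.sum_const, Finset.card_range, nsmul_eq_mul]
  linarith

section

variable {K : Type} [NormedAddCommGroup K] [InnerProductSpace ℂ K] [CompleteSpace K]

theorem grp_neg {u : ℝ → K →L[ℂ] K} (hu : IsGrp u) (t : ℝ) : u (-t) * u t = 1 := by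
  rw [← hu.add, neg_add_cancel, hu.zero]

theorem grp_neg' {u : ℝ → K →L[ℂ] K} (hu : IsGrp u) (t : ℝ) : u t * u (-t) = 1 := by
  rw [← hu.add, add_neg_cancel, hu.zero]

/-- an operator that commutes with arbitrarily small elements of the group commutes with it -/
theorem comm_all {u : ℝ → K →L[ℂ] K} (hu : IsGrp u) (Z : K →L[ℂ] K)
    (h : ∀ ε : ℝ, 0 < ε → ∃ s : ℝ, 0 < s ∧ s < ε ∧ Z * u s = u s * Z) (κ : ℝ) :
    Z * u κ = u κ * Z := by
  let S : AddSubgroup ℝ :=
    { carrier := {κ | Z * u κ = u κ * Z}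
      zero_mem' := by
        show Z * u 0 = u 0 * Z
        rw [hu.zero, mul_one, one_mul]
      add_mem' := by
        intro a b (ha : Z * u a = u a * Z) (hb : Z * u b = u b * Z)
        show Z * u (a + b) = u (a + b) * Z
        rw [hu.add, ← mul_assoc, ha, mul_assoc, hb, mul_assoc]
      neg_mem' := by
        intro a (ha : Z * u a = u a * Z)
        show Z * u (-a) = u (-a) * Z
        calc Z * u (-a) = u (-a) * u a * (Z * u (-a)) := by rw [grp_neg hu, one_mul]
          _ = u (-a) * (u a * Z) * u (-a) := by simp only [mul_assoc]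
          _ = u (-a) * Z * (u a * u (-a)) := by rw [← ha]; simp only [mul_assoc]
          _ = _ := by rw [grp_neg' hu, mul_one] }
  have hdense : Dense (S : Set ℝ) := AddSubgroup.dense_of_not_isolated_zero S (by
    intro ε hε
    obtain ⟨s, h1, h2, h3⟩ := h ε hε
    exact ⟨s, h3, h1, h2⟩)
  have hclosed : IsClosed (S : Set ℝ) := by
    have e : (S : Set ℝ) = ⋂ v : K, {κ | Z (u κ v) = u κ (Z v)} := by
      ext κ
      rw [Set.mem_iInter]
      constructor
      · intro h v
        exact DFunLike.congr_fun h v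
      · intro h
        exact ContinuousLinearMap.ext h
    rw [e]
    exact isClosed_iInter fun v => isClosed_eq (Z.continuous.comp (hu.cont v)) (hu.cont (Z v))
  have : κ ∈ (S : Set ℝ) := by
    rw [hclosed.closure_eq.symm, hdense.closure_eq]
    trivial
  exact this

end

theorem r  : S_dmk := by
  intro K _ _ _ P M hPM u hu Y hY hV
  obtain ⟨-, hK1, hK2, -, hK3⟩ := Pool.Agent.W481.WD.p_KSET K P M hPM Y hY
  set V : ℝ → K →L[ℂ] K := fun κ => star (u κ) * Y * u κ with hVd
  have hVs : ∀ s κ : ℝ, star (u s) * V κ * u s = V (κ + s) := by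
    intro s κ
    rw [hVd]
    simp only
    rw [hu.add, star_mul]
    simp only [mul_assoc]
  -- the averages
  set c : ℕ → ℝ := fun k => 1 / 8 ^ k with hc
  set A : ℕ → K →L[ℂ] K := fun k =>
    ∑ j ∈ Finset.range (8 ^ k), c k • V (j / 2 ^ k) with hA
  have hAK : ∀ k, A k ∈ KN P Y := by
    intro k
    refine hK2.sum_mem (fun j _ => by positivity) ?_ (fun j _ => hV _ (by positivity))
    rw [Finset.sum_const, Finset.card_range, nsmul_eq_mul, hc]
    push_cast
    field_simp
  have hAn : ∀ k, ‖A k‖ ≤ ‖Y‖ := fun k => (hK1 _ (hAK k)).2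
  have hVn : ∀ κ : ℝ, 0 ≤ κ → ‖V κ‖ ≤ ‖Y‖ := fun κ hκ => (hK1 _ (hV κ hκ)).2
  obtain ⟨Z, -, hZ⟩ := (Pool.Agent.W196.WD.p_CPT K ℕ (hyperfilter ℕ) A).1 ‖Y‖ hAn
  have hZK : Z ∈ KN P Y := hK3 ℕ (hyperfilter ℕ) A Z hAK hZ
  have hle : ((hyperfilter ℕ : Ultrafilter ℕ) : Filter ℕ) ≤ atTop := Nat.hyperfilter_le_atTop
  refine ⟨Z, hZK, ?_, ?_⟩
  · -- invariance
    apply comm_all hu
    intro ε hε
    obtain ⟨k0, hk0⟩ := exists_pow_lt_of_lt_one hε (by norm_num : (1 / 2 : ℝ) < 1)
    refine ⟨(1 / 2) ^ k0, by positivity, hk0, ?_⟩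
    set s : ℝ := (1 / 2) ^ k0 with hs
    -- the difference
    have hd : ∀ k, k0 ≤ k → ‖star (u s) * A k * u s - A k‖ ≤ 2 * ‖Y‖ * (1 / 4) ^ k := by
      intro k hk
      obtain ⟨i, rfl⟩ := Nat.exists_eq_add_of_le hk
      set k := k0 + i with hkd
      have e1 : star (u s) * A k * u s - A k =
          c k • (∑ j ∈ Finset.range (8 ^ k), V (((j + 2 ^ i : ℕ) : ℝ) / 2 ^ k) -
            ∑ j ∈ Finset.range (8 ^ k), V ((j : ℝ) / 2 ^ k)) := by
        rw [hA]
        simp only
        rw [smul_sub, Finset.smul_sum, Finset.smul_sum, Finset.mul_sum, Finset.sum_mul]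
        congr 1
        refine Finset.sum_congr rfl fun j _ => ?_
        rw [mul_smul_comm, smul_mul_assoc, hVs]
        congr 2
        rw [hs, hkd]
        push_cast
        rw [pow_add, one_div_pow]
        field_simp
      rw [e1, norm_smul]
      have h1 := sum_shift (fun j : ℕ => V ((j : ℝ) / 2 ^ k)) ‖Y‖
        (fun j => hVn _ (by positivity)) (8 ^ k) (2 ^ i)
      have h2 : ‖c k‖ = 1 / 8 ^ k := by
        rw [hc, Real.norm_of_nonneg (by positivity)]
      rw [h2]
      calc 1 / 8 ^ k * ‖∑ j ∈ Finset.range (8 ^ k), V (((j + 2 ^ i : ℕ) : ℝ) / 2 ^ k) -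
            ∑ j ∈ Finset.range (8 ^ k), V ((j : ℝ) / 2 ^ k)‖
          ≤ 1 / 8 ^ k * (2 * ((2 ^ i : ℕ) : ℝ) * ‖Y‖) := by gcongr
        _ ≤ 1 / 8 ^ k * (2 * (2 ^ k) * ‖Y‖) := by
            push_cast
            have : (2 : ℝ) ^ i ≤ 2 ^ k := pow_le_pow_right₀ (by norm_num) (by omega)
            gcongr
        _ = _ := by
            have : (8 : ℝ) ^ k = 2 ^ k * 4 ^ k := by rw [← mul_pow]; norm_num
            rw [this, one_div_pow]
            field_simp
    have ht : Tendsto (fun k : ℕ => 2 * ‖Y‖ * (1 / 4 : ℝ) ^ k) atTop (𝓝 0) := by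
      have := (tendsto_pow_atTop_nhds_zero_of_lt_one (by norm_num : (0:ℝ) ≤ 1 / 4)
        (by norm_num)).const_mul (2 * ‖Y‖)
      simpa using this
    have key : star (u s) * Z * u s = Z := by
      ext ξ
      refine ext_inner_left ℂ fun η => ?_
      have g1 : Tendsto (fun k => ⟪η, (star (u s) * A k * u s) ξ⟫_ℂ)
          ((hyperfilter ℕ : Ultrafilter ℕ) : Filter ℕ) (𝓝 ⟪η, (star (u s) * Z * u s) ξ⟫_ℂ) := by
        have h3 := hZ (u s ξ) (u s η)
        have e : ∀ X : K →L[ℂ] K, ⟪η, (star (u s) * X * u s) ξ⟫_ℂ = ⟪u s η, X (u s ξ)⟫_ℂ := by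
          intro X
          rw [mul_apply_eq_comp, mul_apply_eq_comp,
            ContinuousLinearMap.star_eq_adjoint, ContinuousLinearMap.adjoint_inner_right]
        simp_rw [e]
        exact h3
      have g2 : Tendsto (fun k => ⟪η, (star (u s) * A k * u s - A k) ξ⟫_ℂ)
          ((hyperfilter ℕ : Ultrafilter ℕ) : Filter ℕ) (𝓝 0) := by
        have h4 : Tendsto (fun k : ℕ => ‖η‖ * (2 * ‖Y‖ * (1 / 4 : ℝ) ^ k * ‖ξ‖)) atTop (𝓝 0) := by
          have := (ht.mul_const ‖ξ‖).const_mul ‖η‖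
          simpa using this
        refine squeeze_zero_norm' ?_ (h4.mono_left hle)
        filter_upwards [hle (eventually_ge_atTop k0)] with k hk
        calc ‖⟪η, (star (u s) * A k * u s - A k) ξ⟫_ℂ‖
            ≤ ‖η‖ * ‖(star (u s) * A k * u s - A k) ξ‖ := norm_inner_le_norm _ _
          _ ≤ ‖η‖ * (‖star (u s) * A k * u s - A k‖ * ‖ξ‖) := by
              gcongr
              exact ContinuousLinearMap.le_opNorm _ _
          _ ≤ _ := by
              gcongr
              exact hd k hk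
      have g3 := g1.sub g2
      rw [sub_zero] at g3
      have g4 : (fun k => ⟪η, (star (u s) * A k * u s) ξ⟫_ℂ -
          ⟪η, (star (u s) * A k * u s - A k) ξ⟫_ℂ) = fun k => ⟪η, A k ξ⟫_ℂ := by
        funext k
        rw [← inner_sub_right, ← sub_apply, sub_sub_cancel]
      rw [g4] at g3
      exact tendsto_nhds_unique g3 (hZ ξ η)
    have h5 : u s * star (u s) = 1 := by rw [hu.star_eq, grp_neg' hu]
    calc Z * u s = u s * star (u s) * (Z * u s) := by rw [h5, one_mul]
      _ = u s * (star (u s) * Z * u s) := by simp only [mul_assoc]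
      _ = _ := by rw [key]
  · intro T hT
    have hTA : ∀ k, T * A k = A k * T := by
      intro k
      rw [hA]
      simp only
      rw [Finset.mul_sum, Finset.sum_mul]
      refine Finset.sum_congr rfl fun j _ => ?_
      rw [mul_smul_comm, smul_mul_assoc]
      congr 1
      exact hT _ (by positivity)
    ext ξ
    refine ext_inner_left ℂ fun η => ?_
    have h1 := hZ ξ (ContinuousLinearMap.adjoint T η)
    have h2 := hZ (T ξ) η
    have h3 : (fun k => ⟪ContinuousLinearMap.adjoint T η, A k ξ⟫_ℂ) =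
        fun k => ⟪η, A k (T ξ)⟫_ℂ := by
      funext k
      rw [ContinuousLinearMap.adjoint_inner_left]
      have h5 : T (A k ξ) = A k (T ξ) := DFunLike.congr_fun (hTA k) ξ
      rw [h5]
    rw [h3] at h1
    have h4 := tendsto_nhds_unique h1 h2
    rw [ContinuousLinearMap.adjoint_inner_left] at h4
    exact h4

end Pool.Agent.H255.BC.D_dmk
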