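import Pool.Agent.H255.BC.Defs8
import Pool.Agent.H255.BC.R_slice
import Pool.Agent.H255.BC.R_ops
import Pool.Agent.H255.BC.R_opmul

set_option autoImplicit false

open MeasureTheory Filter Topology Complex
open scoped InnerProductSpace ENNReal

namespace Pool.Agent.H255.BC.D_dpa

open Pool.Agent.W662.CB Pool.Agent.W988.WD Pool.Agent.H255.BC
open Pool.Agent.H321.BC (sig_null isom_norm alf_xi)

section

variable {H : Type} [NormedAddCommGroup H] [InnerProductSpace ℂ H] [CompleteSpace H]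

theorem sig_unique {U : ℝ → H →L[ℂ] H} {x : H →L[ℂ] H} {S S' : LR H →L[ℂ] LR H}
    (h : IsSig U x S) (h' : IsSig U x S') : S = S' := by
  ext1 f
  apply Lp.ext
  filter_upwards [h f, h' f] with s h1 h2
  rw [h1, h2]

theorem const_unique {x : H →L[ℂ] H} {S S' : LR H →L[ℂ] LR H}
    (h : IsConst x S) (h' : IsConst x S') : S = S' := by
  ext1 f
  apply Lp.ext
  filter_upwards [h f, h' f] with s h1 h2
  rw [h1, h2]

end

theorem r (h1 : S_near) : S_dpa := by
  intro H _ _ _ N M ξ U J E hI Φ ε hε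
  obtain ⟨-, hsig, hcst, hten, -, -⟩ :=
    (Pool.Agent.H255.BC.R_ops.r Pool.Agent.H255.BC.R_opmul.r) H M ξ U hI.modular
  have hJ := hI.conj
  by_contra hcon
  push Not at hcon
  have hpos : ∀ k : ℕ, (0 : ℝ) < 1 / ((k : ℝ) + 1) := fun k => by positivity
  choose u huni hu S K hS hK hSK using fun k : ℕ => hcon (1 / ((k : ℝ) + 1)) (hpos k)
  have huM : ∀ k, u k ∈ M := fun k => hI.le _ (huni k).1
  have hun : ∀ k, ‖u k‖ ≤ 1 := fun k =>
    ContinuousLinearMap.opNorm_le_bound _ zero_le_one fun v => by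
      rw [isom_norm (huni k).2.1, one_mul]
  have hal : Tendsto (fun k => ‖alf J (u k) ξ - ξ‖) atTop (𝓝 0) :=
    squeeze_zero (fun k => norm_nonneg _) hu tendsto_one_div_add_atTop_nhds_zero_nat
  have hJu : Tendsto (fun k => J (star (u k) ξ) - u k ξ) atTop (𝓝 0) := by
    rw [tendsto_zero_iff_norm_tendsto_zero]
    refine hal.congr fun k => ?_
    rw [alf_xi hJ (huM k) (huni k).2.1 (huni k).2.2]
  have hnear := (h1 H M ξ U J hI.modular hJ u 0 huM ⟨1 * ‖ξ‖, fun k =>
    ((u k).le_opNorm _).trans (by gcongr; exact hun k)⟩ (by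
      refine hJu.congr fun k => ?_
      simp)).1
  have hSn : ∀ k, ‖S k‖ ≤ ‖u k‖ := by
    intro k
    obtain ⟨S', hS', hn, -⟩ := hsig (u k)
    rw [sig_unique (hS k) hS']
    exact hn
  have hKn : ∀ k, ‖K k‖ ≤ ‖u k‖ := by
    intro k
    obtain ⟨K', hK', hn, -⟩ := hcst (u k)
    rw [const_unique (hK k) hK']
    exact hn
  have hone : IsMulOp (H := H) (fun s : ℝ => cexp (-(I * ((s * 0 : ℝ) : ℂ)))) 1 := by
    intro F
    filter_upwards with s
    simp
  have hnull : Tendsto (fun k => (S k - K k) Φ) atTop (𝓝 0) := by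
    have := sig_null hI.modular hJ hI.cyc hten u huM 1 hun 0 hnear S K hS hSn hK hKn 1 hone Φ
    simpa only [mul_one] using this
  have h2 := (tendsto_zero_iff_norm_tendsto_zero.1 hnull).eventually (gt_mem_nhds hε)
  obtain ⟨k, hk⟩ := h2.exists
  exact absurd (hSK k) (not_lt.2 hk.le)

end Pool.Agent.H255.BC.D_dpa
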