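import Pool.Agent.H255.BC.Defs8
import Pool.Agent.H255.BC.R_slbeta

/-! S_dscl (subtask 5308, for helper255). -/

set_option autoImplicit false

open MeasureTheory Filter Topology Complex
open scoped InnerProductSpace ENNReal

namespace Pool.Agent.H255.BC.D_dscl

open Pool.Agent.W662.CB Pool.Agent.W988.WD Pool.Agent.H255.BC Pool.Agent.H255.BC.R_slbeta

theorem sep_LR (H : Type) [NormedAddCommGroup H] [InnerProductSpace ℂ H] [CompleteSpace H]
    [TopologicalSpace.SeparableSpace H] : TopologicalSpace.SeparableSpace (LR H) := by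
  haveI : Fact ((2 : ℝ≥0∞) ≠ ∞) := ⟨by norm_num⟩
  haveI : SecondCountableTopology (LR H) :=
    inferInstanceAs (SecondCountableTopology (Lp H 2 (volume : Measure ℝ)))
  infer_instance

/-- closedness of `KN` under weak limits of sequences -/
theorem kn_closed {K : Type} [NormedAddCommGroup K] [InnerProductSpace ℂ K] [CompleteSpace K]
    (P : VonNeumannAlgebra K) (x : K →L[ℂ] K) (z : ℕ → K →L[ℂ] K) (w : K →L[ℂ] K)
    (hz : ∀ k, z k ∈ KN P x)
    (hw : ∀ a b : K, Tendsto (fun k => ⟪b, z k a⟫_ℂ) atTop (𝓝 ⟪b, w a⟫_ℂ)) : w ∈ KN P x := by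
  intro n ξ η ε hε
  have h1 : ∀ᶠ i in atTop, ∀ j : Fin n, ‖⟪η j, (z i - w) (ξ j)⟫_ℂ‖ < ε / 2 := by
    rw [eventually_all]
    intro j
    have h2 := (tendsto_iff_norm_sub_tendsto_zero.1 (hw (ξ j) (η j))).eventually
      (gt_mem_nhds (half_pos hε))
    filter_upwards [h2] with i hi
    rw [ContinuousLinearMap.sub_apply, inner_sub_right]
    exact hi
  obtain ⟨i, hi⟩ := h1.exists
  obtain ⟨y, hy, hyi⟩ := hz i n ξ η (ε / 2) (half_pos hε)
  refine ⟨y, hy, fun j => ?_⟩
  have e : ⟪η j, (y - w) (ξ j)⟫_ℂ =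
      ⟪η j, (y - z i) (ξ j)⟫_ℂ + ⟪η j, (z i - w) (ξ j)⟫_ℂ := by
    rw [← inner_add_right, ← ContinuousLinearMap.add_apply, sub_add_sub_cancel]
  rw [e]
  refine (norm_add_le _ _).trans_lt ?_
  linarith [hi j, hyi j]

/-- `⟪P_k a, Y (P_k b)⟫ → ⟪S a, Y (S b)⟫` if `P_k - K_k S → 0` strongly, `K_k` isometries
commuting with `Y` -/
theorem lim_inner {K : Type} [NormedAddCommGroup K] [InnerProductSpace ℂ K] [CompleteSpace K]
    (P C : ℕ → K →L[ℂ] K) (S Y : K →L[ℂ] K)
    (hP : ∀ F : K, Tendsto (fun k => P k F - C k (S F)) atTop (𝓝 0))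
    (hC : ∀ k, star (C k) * C k = 1) (hY : ∀ k, C k * Y = Y * C k) (hPn : ∀ k, ‖P k‖ ≤ 1)
    (a b : K) :
    Tendsto (fun k => ⟪a, (star (P k) * Y * P k) b⟫_ℂ) atTop (𝓝 ⟪a, (star S * Y * S) b⟫_ℂ) := by
  have hCn : ∀ k (w : K), ‖C k w‖ = ‖w‖ := fun k w => iso_norm _ (hC k) w
  have e1 : ∀ k, ⟪a, (star (P k) * Y * P k) b⟫_ℂ = ⟪a, (star S * Y * S) b⟫_ℂ +
      (⟪P k a - C k (S a), Y (P k b)⟫_ℂ + ⟪C k (S a), Y (P k b - C k (S b))⟫_ℂ) := by
    intro k
    have a1 : ⟪a, (star (P k) * Y * P k) b⟫_ℂ = ⟪P k a, Y (P k b)⟫_ℂ := by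
      rw [mul_assoc, mul_apply_eq_comp, ContinuousLinearMap.star_eq_adjoint,
        ContinuousLinearMap.adjoint_inner_right, mul_apply_eq_comp]
    have a2 : ⟪a, (star S * Y * S) b⟫_ℂ = ⟪S a, Y (S b)⟫_ℂ := by
      rw [mul_assoc, mul_apply_eq_comp, ContinuousLinearMap.star_eq_adjoint,
        ContinuousLinearMap.adjoint_inner_right, mul_apply_eq_comp]
    have a3 : ⟪C k (S a), Y (C k (S b))⟫_ℂ = ⟪S a, Y (S b)⟫_ℂ := by
      rw [← mul_apply_eq_comp Y, ← hY k, mul_apply_eq_comp,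
        ← ContinuousLinearMap.adjoint_inner_right, ← ContinuousLinearMap.star_eq_adjoint,
        ← mul_apply_eq_comp (star (C k)), hC k, one_apply_eq_self]
    rw [a1, a2, ← a3, inner_sub_left, map_sub, inner_sub_right]
    ring
  simp only [e1]
  have t1 : Tendsto (fun k => ⟪P k a - C k (S a), Y (P k b)⟫_ℂ) atTop (𝓝 0) := by
    refine squeeze_zero_norm (a := fun k => ‖P k a - C k (S a)‖ * (‖Y‖ * ‖b‖)) (fun k => ?_) ?_
    · refine (norm_inner_le_norm _ _).trans (mul_le_mul_of_nonneg_left ?_ (norm_nonneg _))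
      refine (Y.le_opNorm _).trans (mul_le_mul_of_nonneg_left ?_ (norm_nonneg _))
      exact ((P k).le_opNorm _).trans (by nlinarith [hPn k, norm_nonneg b])
    · have := (hP a).norm.mul_const (‖Y‖ * ‖b‖)
      rwa [norm_zero, zero_mul] at this
  have t2 : Tendsto (fun k => ⟪C k (S a), Y (P k b - C k (S b))⟫_ℂ) atTop (𝓝 0) := by
    refine squeeze_zero_norm (a := fun k => ‖S a‖ * (‖Y‖ * ‖P k b - C k (S b)‖)) (fun k => ?_) ?_
    · refine (norm_inner_le_norm _ _).trans ?_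
      rw [hCn]
      exact mul_le_mul_of_nonneg_left (Y.le_opNorm _) (norm_nonneg _)
    · have := ((hP b).norm.const_mul ‖Y‖).const_mul ‖S a‖
      rwa [norm_zero, mul_zero, mul_zero] at this
  have := (t1.add t2).const_add ⟪a, (star S * Y * S) b⟫_ℂ
  rwa [add_zero, add_zero] at this

theorem r (h1 : S_diso) (h2 : S_near) (h3 : S_gen) (h4 : S_ops) : S_dscl := by
  intro H _ _ _ _ N M ξ U J E hI P₀ M₀ hmod hfac Y hYM hYc lam hl0 hl1 S hS
  haveI := sep_LR H
  have hU := hI.modular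
  have hJ := hI.conj
  choose v hv using fun k : ℕ => hI.scal lam (1 / ((k : ℝ) + 1)) hl0 hl1 (by positivity)
  have hvN : ∀ k, v k ∈ N := fun k => (hv k).1
  have hvM : ∀ k, v k ∈ M := fun k => hI.le _ (hvN k)
  have hvi : ∀ k, star (v k) * v k = 1 := fun k => (hv k).2.1
  have hve : Tendsto (fun k => J (star (v k) ξ) - ((Real.sqrt lam : ℝ) : ℂ) • v k ξ) atTop
      (𝓝 0) := by
    refine squeeze_zero_norm (fun k => (hv k).2.2) ?_
    exact tendsto_one_div_add_atTop_nhds_zero_nat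
  obtain ⟨_, hops2, hops3, _, _, _⟩ := h4 H M ξ U hU
  choose P hP hPn hPs using fun k => hops2 (v k)
  choose C hC hCn hCs using fun k => hops3 (v k)
  have hB := lemB h2 hU hJ hI.cyc lam hl0 v hvM hvi hve S hS P C hP hC
  -- the operators are isometries
  have hPi : ∀ k, star (P k) * P k = 1 := by
    intro k
    refine ContinuousLinearMap.ext fun f => Lp.ext ?_
    filter_upwards [hPs k (P k f), hP k f] with s b1 b2
    rw [mul_apply_eq_comp, b1, b2, one_apply_eq_self]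
    have e1 : sgm U (-s) (star (v k)) (sgm U (-s) (v k) (f s)) =
        (sgm U (-s) (star (v k)) * sgm U (-s) (v k)) (f s) := rfl
    rw [e1]
    have e2 : sgm U (-s) (star (v k)) * sgm U (-s) (v k) = 1 := by
      simp only [sgm]
      have e3 : star (U (-s)) * U (-s) = 1 := by
        rw [hU.star_eq, ← hU.add]
        simp [hU.zero]
      have e4 : U (-s) * star (U (-s)) = 1 := by
        rw [hU.star_eq, ← hU.add]
        simp [hU.zero]
      calc U (-s) * star (v k) * star (U (-s)) * (U (-s) * v k * star (U (-s)))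
          = U (-s) * star (v k) * (star (U (-s)) * U (-s)) * v k * star (U (-s)) := by
            simp only [mul_assoc]
        _ = U (-s) * (star (v k) * v k) * star (U (-s)) := by
            rw [e3]; simp only [mul_assoc, one_mul]
        _ = 1 := by rw [hvi, mul_one, e4]
    rw [e2, one_apply_eq_self]
  have hCi : ∀ k, star (C k) * C k = 1 := by
    intro k
    refine ContinuousLinearMap.ext fun f => Lp.ext ?_
    filter_upwards [hCs k (C k f), hC k f] with s b1 b2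
    rw [mul_apply_eq_comp, b1, b2, one_apply_eq_self, ← mul_apply_eq_comp, hvi,
      one_apply_eq_self]
  have hPmem : ∀ k, P k ∈ P₀ := fun k =>
    (hmod.memP _).2 ((h3 H N M ξ U J E hI.toInc).1 (v k) (hvN k) (P k) (hP k))
  have hPn1 : ∀ k, ‖P k‖ ≤ 1 := fun k => iso_opnorm _ (hPi k)
  refine kn_closed P₀ Y (fun k => star (P k) * Y * P k) _ (fun k => ?_) (fun a b => ?_)
  · exact h1 (LR H) P₀ hfac (P k) (hPmem k) (hPi k) Y
  · exact lim_inner P C S Y hB hCi (fun k => hYc (v k) (C k) (hC k)) hPn1 b a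

end Pool.Agent.H255.BC.D_dscl
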