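import Pool.Agent.H255.BC.Defs2

set_option autoImplicit false

open MeasureTheory Filter Topology Complex
open scoped InnerProductSpace ENNReal FourierTransform

namespace Pool.Agent.H255.BC.R_D2

open Pool.Agent.W662.CB Pool.Agent.H255.BC

/-- the commutant of a set of operators (and of their adjoints) -/
noncomputable def vnComm {K : Type} [NormedAddCommGroup K] [InnerProductSpace ℂ K] [CompleteSpace K]
    (S : Set (K →L[ℂ] K)) : VonNeumannAlgebra K where
  __ := StarSubalgebra.centralizer ℂ S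
  centralizer_centralizer' := Set.centralizer_centralizer_centralizer _

theorem mem_vnComm {K : Type} [NormedAddCommGroup K] [InnerProductSpace ℂ K] [CompleteSpace K]
    (S : Set (K →L[ℂ] K)) (hS : ∀ g ∈ S, star g ∈ S) (Y : K →L[ℂ] K) :
    Y ∈ vnComm S ↔ ∀ g ∈ S, g * Y = Y * g := by
  have h0 : Y ∈ vnComm S ↔ Y ∈ StarSubalgebra.centralizer ℂ S := Iff.rfl
  rw [h0, StarSubalgebra.mem_centralizer_iff]
  constructor
  · intro h g hg
    exact (h g hg).1
  · intro h g hg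
    exact ⟨h g hg, h _ (hS g hg)⟩

section

variable {H : Type} [NormedAddCommGroup H] [InnerProductSpace ℂ H] [CompleteSpace H]

theorem const_unique (y : H →L[ℂ] H) (S S' : LR H →L[ℂ] LR H) (h : IsConst y S)
    (h' : IsConst y S') : S = S' := by
  ext1 f
  exact Lp.ext ((h f).trans (h' f).symm)

theorem dual_unique (U : ℝ → H →L[ℂ] H) (t : ℝ) (S S' : LR H →L[ℂ] LR H) (h : IsDual U t S)
    (h' : IsDual U t S') : S = S' := by
  ext1 f
  exact Lp.ext ((h f).trans (h' f).symm)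

theorem const_star (h13 : S_ops) (M : VonNeumannAlgebra H) (ξ : H) (U : ℝ → H →L[ℂ] H)
    (hmod : IsModular M ξ U) (y : H →L[ℂ] H) (S : LR H →L[ℂ] LR H) (h : IsConst y S) :
    IsConst (star y) (star S) := by
  obtain ⟨S0, hS0, -, hS1⟩ := (h13 H M ξ U hmod).2.2.1 y
  rw [const_unique y S S0 h hS0]
  exact hS1

theorem dual_star (h13 : S_ops) (M : VonNeumannAlgebra H) (ξ : H) (U : ℝ → H →L[ℂ] H)
    (hmod : IsModular M ξ U) (t : ℝ) (S : LR H →L[ℂ] LR H) (h : IsDual U t S) :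
    IsDual U (-t) (star S) := by
  obtain ⟨S0, hS0, -, -, hS1⟩ := (h13 H M ξ U hmod).1 t
  rw [dual_unique U t S S0 h hS0]
  exact hS1

theorem star_comm_of {K : Type} [NormedAddCommGroup K] [InnerProductSpace ℂ K] [CompleteSpace K]
    (X S : K →L[ℂ] K) (h : X * star S = star S * X) : star X * S = S * star X := by
  have := congrArg star h
  rw [star_mul, star_mul, star_star] at this
  exact this.symm

theorem cen_star (h13 : S_ops) (N M : VonNeumannAlgebra H) (ξ : H) (U : ℝ → H →L[ℂ] H)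
    (hmod : IsModular M ξ U) (X : LR H →L[ℂ] LR H) (hX : X ∈ Cen N U) : star X ∈ Cen N U := by
  refine ⟨?_, ?_⟩
  · intro y hy S hS
    exact star_comm_of X S (hX.1 (star y) (star_mem hy) (star S) (const_star h13 M ξ U hmod y S hS))
  · intro t S hS
    exact star_comm_of X S (hX.2 (-t) (star S) (dual_star h13 M ξ U hmod t S hS))

/-- `RC` is a von Neumann algebra -/
theorem rc_vn (h13 : S_ops) (N M : VonNeumannAlgebra H) (ξ : H) (U : ℝ → H →L[ℂ] H)
    (hmod : IsModular M ξ U) : ∃ C : VonNeumannAlgebra (LR H),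
      ∀ Y : LR H →L[ℂ] LR H, Y ∈ C ↔ Y ∈ RC N M U := by
  refine ⟨vnComm ({S | ∃ y : H →L[ℂ] H, y ∈ M.commutant ∧ IsConst y S} ∪ Cen N U), ?_⟩
  intro Y
  rw [mem_vnComm]
  · constructor
    · intro h
      refine ⟨?_, ?_⟩
      · intro y hy S hS
        exact (h S (Or.inl ⟨y, hy, hS⟩)).symm
      · intro X hX
        exact h X (Or.inr hX)
    · intro h g hg
      rcases hg with ⟨y, hy, hS⟩ | hg
      · exact (h.1 y hy g hS).symm
      · exact h.2 g hg
  · intro g hg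
    rcases hg with ⟨y, hy, hS⟩ | hg
    · exact Or.inl ⟨star y, star_mem hy, const_star h13 M ξ U hmod y g hS⟩
    · exact Or.inr (cen_star h13 N M ξ U hmod g hg)

end

theorem r (h1 : S_inc2) (h2 : S_conj) (h3 : S_Bvn) (h4 : S_pi) (h5 : S_piE) (h6 : S_pin) (h7 : S_ext) (h8 : S_DT) (h9 : S_surj) (h10 : S_gen) (h11 : S_fou) (h12 : S_A8) (h13 : S_ops) (h14 : S_betaE) (h15 : S_bic) : S_D2 := by
  intro H _ _ _ N M ξ U E β hle hunit hcyc hsep hmod hE hinv hIII hβ
  obtain ⟨J, hJ⟩ := h2 H M ξ U hmod hcyc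
  have hInc : Inc N M ξ U J E :=
    ⟨hle, hunit, hcyc, hsep, hmod, hJ, hE, hinv, h12 H M N ξ U E hle hcyc hsep hmod hE hinv⟩
  have hInc2 : Inc2 N M ξ U J E := h1 H N M ξ U J E hInc hIII
  obtain ⟨W, hW⟩ := h11 H
  obtain ⟨B, hB⟩ := h3 H N M ξ U J E hInc
  obtain ⟨C, hC⟩ := rc_vn h13 N M ξ U hmod
  obtain ⟨hp1, hp2, hp3⟩ := h4 H N M ξ U J E β W hInc2 hβ hW
  obtain ⟨hg1, hg2⟩ := h10 H N M ξ U J E hInc
  -- uniqueness of `π(c)`
  have huniq : ∀ c ∈ relBicentralizer N M ξ, ∀ T T' : LR H →L[ℂ] LR H,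
      IsPi W β c T → IsPi W β c T' → T = T' := by
    intro c hc T T' hT hT'
    obtain ⟨T0, -, -, -, hu, -, -⟩ := hp1 c hc
    rw [hu T hT, hu T' hT']
  -- injectivity
  have hinj : ∀ c ∈ relBicentralizer N M ξ, ∀ d ∈ relBicentralizer N M ξ,
      ∀ T : LR H →L[ℂ] LR H, IsPi W β c T → IsPi W β d T → c = d := by
    intro c hc d hd T hcT hdT
    have hcB : c ∈ B := (hB c).2 hc
    have hdB : d ∈ B := (hB d).2 hd
    have hd1 : (-1 : ℂ) • d ∈ relBicentralizer N M ξ :=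
      (hB _).1 (B.toStarSubalgebra.smul_mem hdB (-1 : ℂ))
    have hcd : c + (-1 : ℂ) • d ∈ relBicentralizer N M ξ :=
      (hB _).1 (B.toStarSubalgebra.add_mem hcB ((hB _).2 hd1))
    have e1 : IsPi W β ((-1 : ℂ) • d) ((-1 : ℂ) • T) := (hp2 d hd d hd T T hdT hdT).2.2 (-1)
    have e2 : IsPi W β (c + (-1 : ℂ) • d) (T + (-1 : ℂ) • T) :=
      (hp2 c hc _ hd1 T _ hcT e1).1
    obtain ⟨T0, -, -, -, hu, -, h0⟩ := hp1 _ hcd
    have e3 : T0 = 0 := by
      rw [← hu _ e2]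
      rw [neg_one_smul, add_neg_cancel]
    have e4 := h0 e3
    rw [neg_one_smul] at e4
    exact eq_of_sub_eq_zero (by rw [sub_eq_add_neg]; exact e4)
  -- the operators `π(c)` lie in the relative commutant
  have hmem : ∀ c ∈ relBicentralizer N M ξ, ∀ T : LR H →L[ℂ] LR H, IsPi W β c T →
      T ∈ RC N M U := by
    intro c hc T hT
    obtain ⟨T0, -, hA, hsh, hu, -, -⟩ := hp1 c hc
    rw [← hu T hT] at hA hsh
    refine ⟨hA, ?_⟩
    have hext : ∀ n : H →L[ℂ] H, n ∈ N → ∀ R : LR H →L[ℂ] LR H, IsSig U n R → T * R = R * T :=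
      h7 H N M ξ U J E hInc2 T hA (h6 H N M ξ U J E β W hInc2 hβ hW c hc T hT)
    exact h8 H N M ξ U hmod hle hInc.mod T hext hsh
  -- surjectivity
  have hsurj : ∀ Y : LR H →L[ℂ] LR H, Y ∈ RC N M U → ∃ c ∈ relBicentralizer N M ξ,
      IsPi W β c Y := by
    intro Y hY
    refine h9 H N M ξ U J E β W hInc2 hβ hW Y hY.1 ?_ ?_
    · intro x hx S hS
      exact (hY.2 S (hg1 x hx S hS)).symm
    · intro t S hS
      exact (hY.2 S (hg2 t S hS)).symm
  -- the maps
  have hex : ∀ x : B.toStarSubalgebra, ∃ T : LR H →L[ℂ] LR H, IsPi W β (x : H →L[ℂ] H) T := by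
    intro x
    obtain ⟨T0, hT0, -⟩ := hp1 x ((hB x).1 x.2)
    exact ⟨T0, hT0⟩
  choose F hF using hex
  have hex' : ∀ Y : C.toStarSubalgebra, ∃ c : H →L[ℂ] H, c ∈ relBicentralizer N M ξ ∧
      IsPi W β c (Y : LR H →L[ℂ] LR H) := by
    intro Y
    obtain ⟨c, hc, hcY⟩ := hsurj Y ((hC Y).1 Y.2)
    exact ⟨c, hc, hcY⟩
  choose G hG1 hG2 using hex'
  have hxr : ∀ x : B.toStarSubalgebra, (x : H →L[ℂ] H) ∈ relBicentralizer N M ξ :=
    fun x => (hB x).1 x.2
  have hFC : ∀ x : B.toStarSubalgebra, F x ∈ C.toStarSubalgebra :=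
    fun x => (hC _).2 (hmem x (hxr x) (F x) (hF x))
  have hGB : ∀ Y : C.toStarSubalgebra, G Y ∈ B.toStarSubalgebra := fun Y => (hB _).2 (hG1 Y)
  let π : B.toStarSubalgebra ≃⋆ₐ[ℂ] C.toStarSubalgebra :=
    { toFun := fun x => ⟨F x, hFC x⟩
      invFun := fun Y => ⟨G Y, hGB Y⟩
      left_inv := by
        intro x
        apply Subtype.ext
        exact hinj _ (hG1 _) _ (hxr x) (F x) (hG2 ⟨F x, hFC x⟩) (hF x)
      right_inv := by
        intro Y
        apply Subtype.ext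
        exact huniq _ (hG1 Y) _ _ (hF ⟨G Y, hGB Y⟩) (hG2 Y)
      map_mul' := by
        intro x y
        apply Subtype.ext
        exact huniq _ (hxr (x * y)) _ _ (hF (x * y))
          (hp2 _ (hxr x) _ (hxr y) _ _ (hF x) (hF y)).2.1
      map_add' := by
        intro x y
        apply Subtype.ext
        exact huniq _ (hxr (x + y)) _ _ (hF (x + y))
          (hp2 _ (hxr x) _ (hxr y) _ _ (hF x) (hF y)).1
      map_star' := by
        intro x
        apply Subtype.ext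
        have e : IsPi W β (star (x : H →L[ℂ] H)) (star (F x)) := by
          obtain ⟨T0, -, -, -, hu, hs, -⟩ := hp1 x (hxr x)
          rw [hu _ (hF x)]
          exact hs
        exact huniq _ (hxr (star x)) _ _ (hF (star x)) e
      map_smul' := by
        intro z x
        apply Subtype.ext
        exact huniq _ (hxr (z • x)) _ _ (hF (z • x))
          ((hp2 _ (hxr x) _ (hxr x) _ _ (hF x) (hF x)).2.2 z) }
  refine ⟨B, C, π, hB, hC, ?_, ?_⟩
  · intro lam hlam x y hxy S hS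
    have e1 : IsPi W β (y : H →L[ℂ] H) (S * F x * star S) := by
      rw [hxy]
      exact hp3 _ (hxr x) _ (hF x) lam hlam S hS
    exact huniq _ (hxr y) _ _ (hF y) e1
  · intro x f g Tf Tg hf hg hTf hTg
    have e1 := (h5 H N M ξ U J E β W hInc2 hβ hW x (hxr x) (F x) (hF x) f g Tf Tg hf hg hTf hTg).2
    have e2 : vst ξ (E (x : H →L[ℂ] H)) = vst ξ (x : H →L[ℂ] H) := hinv _ (hxr x).1
    rw [e2]
    exact e1

end Pool.Agent.H255.BC.R_D2
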