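import Pool.Agent.H255.BC.Defs8
import Pool.Agent.H255.BC.R_D2

set_option autoImplicit false

open MeasureTheory Filter Topology Complex
open scoped InnerProductSpace ENNReal

namespace Pool.Agent.H255.BC.D_dvn

open Pool.Agent.W662.CB Pool.Agent.W988.WD Pool.Agent.H255.BC Pool.Agent.H255.BC.R_D2

theorem r (h1 : S_ops) : S_dvn := by
  intro H _ _ _ N M ξ U J E hinc
  have hmod := hinc.modular
  have hcomm : ∀ y : H →L[ℂ] H, y ∈ M.commutant → y ∈ N.commutant := by
    intro y hy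
    rw [VonNeumannAlgebra.mem_commutant_iff] at hy ⊢
    intro g hg
    exact hy g (hinc.le g hg)
  have hA : ∀ X : LR H →L[ℂ] LR H,
      X ∈ vnComm {S : LR H →L[ℂ] LR H | ∃ y : H →L[ℂ] H, y ∈ M.commutant ∧ IsConst y S} ↔
        X ∈ Amp M := by
    intro X
    rw [mem_vnComm]
    · constructor
      · intro h y hy S hS
        exact (h S ⟨y, hy, hS⟩).symm
      · rintro h g ⟨y, hy, hS⟩
        exact (h y hy g hS).symm
    · rintro g ⟨y, hy, hS⟩
      exact ⟨star y, star_mem hy, const_star h1 M ξ U hmod y g hS⟩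
  have hC : ∀ X : LR H →L[ℂ] LR H,
      X ∈ vnComm ({S : LR H →L[ℂ] LR H | ∃ y : H →L[ℂ] H, y ∈ N.commutant ∧ IsConst y S} ∪
        {S : LR H →L[ℂ] LR H | ∃ t : ℝ, IsDual U t S}) ↔ X ∈ Cen N U := by
    intro X
    rw [mem_vnComm]
    · constructor
      · intro h
        refine ⟨?_, ?_⟩
        · intro y hy S hS
          exact (h S (Or.inl ⟨y, hy, hS⟩)).symm
        · intro t S hS
          exact (h S (Or.inr ⟨t, hS⟩)).symm
      · intro h g hg
        rcases hg with ⟨y, hy, hS⟩ | ⟨t, hS⟩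
        · exact (h.1 y hy g hS).symm
        · exact (h.2 t g hS).symm
    · intro g hg
      rcases hg with ⟨y, hy, hS⟩ | ⟨t, hS⟩
      · exact Or.inl ⟨star y, star_mem hy, const_star h1 M ξ U hmod y g hS⟩
      · exact Or.inr ⟨-t, dual_star h1 M ξ U hmod t g hS⟩
  refine ⟨_, _, ⟨hC, hA, ?_⟩⟩
  intro X hX
  rw [hA]
  have hX' := (hC X).1 hX
  intro y hy S hS
  exact hX'.1 y (hcomm y hy) S hS

end Pool.Agent.H255.BC.D_dvn
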