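import Pool.Agent.H255.BC.Defs2

/-!
Existence and uniqueness of the relative bicentralizer flow: interfaces (helper255).
-/

set_option autoImplicit false

open MeasureTheory Filter Topology Complex
open scoped InnerProductSpace ENNReal FourierTransform

namespace Pool.Agent.H255.BC

open Pool.Agent.W662.CB

noncomputable section

variable {H : Type} [NormedAddCommGroup H] [InnerProductSpace ℂ H] [CompleteSpace H]

/-- a finite family of partial isometries of scale `t` (up to `ε`) with orthogonal ranges of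
sum `1` -/
structure IsFam (N : VonNeumannAlgebra H) (ξ : H) (J : H → H) (t ε : ℝ) (m : ℕ)
    (w : Fin m → H →L[ℂ] H) : Prop where
  mem : ∀ j, w j ∈ N
  pi : ∀ j, w j * star (w j) * w j = w j
  orth : ∀ i j, i ≠ j → star (w i) * w j = 0
  sum : ∑ j, w j * star (w j) = 1
  scal : ∀ j, ‖J (star (w j) ξ) - ((Real.sqrt t : ℝ) : ℂ) • w j ξ‖ ≤ ε

/-- F1: families of isometries of prescribed scales -/
def S_fam : Prop := ∀ (H : Type) [NormedAddCommGroup H] [InnerProductSpace ℂ H] [CompleteSpace H]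
  (M : VonNeumannAlgebra H) (ξ : H) (U : ℝ → H →L[ℂ] H) (J : H → H), ‖ξ‖ = 1 →
  IsModular M ξ U → IsCyclic M ξ → IsConj M ξ U J → IsTypeIII1 M →
  ∀ (m : ℕ) (c : Fin m → ℝ), (∀ j, 0 < c j) → ∑ j, c j = 1 → ∀ ε : ℝ, 0 < ε →
  ∃ s : Fin m → H →L[ℂ] H, (∀ j, IsScal M ξ J (c j) ε (s j)) ∧ ∑ j, s j * star (s j) = 1

/-- F2: the same for `N ⊂ M` -/
def S_famN : Prop := ∀ (H : Type) [NormedAddCommGroup H] [InnerProductSpace ℂ H] [CompleteSpace H]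
  (N M : VonNeumannAlgebra H) (ξ : H) (U : ℝ → H →L[ℂ] H) (J : H → H)
  (E : (H →L[ℂ] H) → (H →L[ℂ] H)), Inc N M ξ U J E → IsTypeIII1 N →
  ∀ (m : ℕ) (c : Fin m → ℝ), (∀ j, 0 < c j) → ∑ j, c j = 1 → ∀ ε : ℝ, 0 < ε →
  ∃ s : Fin m → H →L[ℂ] H, (∀ j, IsScal N ξ J (c j) ε (s j)) ∧ ∑ j, s j * star (s j) = 1

/-- standing assumptions with the families -/
structure Inc3 (N M : VonNeumannAlgebra H) (ξ : H) (U : ℝ → H →L[ℂ] H) (J : H → H)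
    (E : (H →L[ℂ] H) → (H →L[ℂ] H)) : Prop extends Inc2 N M ξ U J E where
  fam : ∀ t : ℝ, 0 < t → t < 1 → ∃ m : ℕ, ∀ ε : ℝ, 0 < ε →
    ∃ w : Fin m → H →L[ℂ] H, IsFam N ξ J t ε m w

/-- F3 -/
def S_inc3 : Prop := ∀ (H : Type) [NormedAddCommGroup H] [InnerProductSpace ℂ H] [CompleteSpace H]
  (N M : VonNeumannAlgebra H) (ξ : H) (U : ℝ → H →L[ℂ] H) (J : H → H)
  (E : (H →L[ℂ] H) → (H →L[ℂ] H)), Inc N M ξ U J E → IsTypeIII1 N → Inc3 N M ξ U J E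

/-- F4: the automorphism `β_t`, `0 < t < 1`, on the bicentralizer -/
def S_bt : Prop := ∀ (H : Type) [NormedAddCommGroup H] [InnerProductSpace ℂ H] [CompleteSpace H]
  (N M : VonNeumannAlgebra H) (ξ : H) (U : ℝ → H →L[ℂ] H) (J : H → H)
  (E : (H →L[ℂ] H) → (H →L[ℂ] H)), Inc3 N M ξ U J E →
  ∃ b : ℝ → (H →L[ℂ] H) → (H →L[ℂ] H), ∀ t : ℝ, 0 < t → t < 1 →
    ∀ x ∈ relBicentralizer N M ξ, b t x ∈ relBicentralizer N M ξ ∧
      (∀ v : ℕ → H →L[ℂ] H, (∀ k : ℕ, IsScal N ξ J t (1 / ((k : ℝ) + 1)) (v k)) → ∀ u : H,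
        Tendsto (fun k => star (v k) (x (v k (u)))) atTop (𝓝 (b t x u))) ∧
      ∀ y ∈ relBicentralizer N M ξ, b t (x + y) = b t x + b t y ∧ b t (x * y) = b t x * b t y ∧
        (∀ c : ℂ, b t (c • x) = c • b t x) ∧ b t (star x) = star (b t x) ∧
        ⟪b t x ξ, b t y ξ⟫_ℂ = ⟪x ξ, y ξ⟫_ℂ ∧ ‖b t x‖ ≤ ‖x‖ ∧
        ∀ s : ℝ, 0 < s → s < 1 → b (s * t) x = b s (b t x)

/-- F5: the inverse of `β_t` -/
def S_binv : Prop := ∀ (H : Type) [NormedAddCommGroup H] [InnerProductSpace ℂ H] [CompleteSpace H]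
  (N M : VonNeumannAlgebra H) (ξ : H) (U : ℝ → H →L[ℂ] H) (J : H → H)
  (E : (H →L[ℂ] H) → (H →L[ℂ] H)), Inc3 N M ξ U J E → ∀ t : ℝ, 0 < t → t < 1 →
  ∀ y ∈ relBicentralizer N M ξ, ∃ x ∈ relBicentralizer N M ξ,
    (∀ v : ℕ → H →L[ℂ] H, (∀ k : ℕ, IsScal N ξ J t (1 / ((k : ℝ) + 1)) (v k)) → ∀ u : H,
      Tendsto (fun k => star (v k) (x (v k (u)))) atTop (𝓝 (y u))) ∧
    ∀ (m : ℕ) (w : ℕ → Fin m → H →L[ℂ] H),
      (∀ k : ℕ, IsFam N ξ J t (1 / ((k : ℝ) + 1)) m (w k)) → ∀ u : H,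
      Tendsto (fun k => ∑ j, (w k j) (y (star (w k j) u))) atTop (𝓝 (x u))

/-- F6: the characteristic property of the flow for `lam > 1` and `lam < 1` -/
def S_blim : Prop := ∀ (H : Type) [NormedAddCommGroup H] [InnerProductSpace ℂ H] [CompleteSpace H]
  (N M : VonNeumannAlgebra H) (ξ : H) (U : ℝ → H →L[ℂ] H) (J : H → H)
  (E : (H →L[ℂ] H) → (H →L[ℂ] H)), Inc3 N M ξ U J E → ∀ t : ℝ, 0 < t → t < 1 →
  ∀ x ∈ relBicentralizer N M ξ, ∀ y ∈ relBicentralizer N M ξ,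
  (∀ v : ℕ → H →L[ℂ] H, (∀ k : ℕ, IsScal N ξ J t (1 / ((k : ℝ) + 1)) (v k)) → ∀ u : H,
    Tendsto (fun k => star (v k) (x (v k (u)))) atTop (𝓝 (y u))) →
  ∀ a : ℕ → H →L[ℂ] H, (∀ n, a n ∈ N) → (∃ C : ℝ, ∀ n, ‖a n‖ ≤ C) →
    (Tendsto (fun n => twNorm M ξ t (a n)) atTop (𝓝 0) → ∀ v : H,
      Tendsto (fun n => (a n * x - y * a n) v) atTop (𝓝 0)) ∧
    (Tendsto (fun n => twNorm M ξ t⁻¹ (a n)) atTop (𝓝 0) → ∀ v : H,
      Tendsto (fun n => (a n * y - x * a n) v) atTop (𝓝 0))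

/-- F7: existence and uniqueness of the relative bicentralizer flow -/
def S_flow : Prop := ∀ (H : Type) [NormedAddCommGroup H] [InnerProductSpace ℂ H] [CompleteSpace H]
  (N M : VonNeumannAlgebra H) (ξ : H) (U : ℝ → H →L[ℂ] H) (J : H → H)
  (E : (H →L[ℂ] H) → (H →L[ℂ] H)), Inc3 N M ξ U J E →
  (∃ β : ℝ → (H →L[ℂ] H) → (H →L[ℂ] H), IsBicFlow N M ξ β) ∧
  ∀ β β' : ℝ → (H →L[ℂ] H) → (H →L[ℂ] H), IsBicFlow N M ξ β → IsBicFlow N M ξ β' →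
    ∀ lam : ℝ, 0 < lam → ∀ x ∈ relBicentralizer N M ξ, β lam x = β' lam x

end

end Pool.Agent.H255.BC
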