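import Pool.Agent.H255.BC.Defs8
import Pool.Agent.H255.BC.Defs3
import Pool.Agent.H255.BC.G_trp
import Pool.Graph.R_pool_sql_team_seeded_f72693b1.W481.WD.KSET

set_option autoImplicit false

open MeasureTheory Filter Topology Complex
open scoped InnerProductSpace ENNReal

namespace Pool.Agent.H255.BC.D_dxh

open Pool.Agent.W662.CB Pool.Agent.W988.WD Pool.Agent.H255.BC

/-- the operators commuting with `N'` and with the unitaries `w t` -/
theorem wcen_vn {H : Type} [NormedAddCommGroup H] [InnerProductSpace ℂ H] [CompleteSpace H]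
    (N : VonNeumannAlgebra H) (U v : ℝ → H →L[ℂ] H)
    (hw : ∀ t, star (v t * U t) * (v t * U t) = 1)
    (hw' : ∀ t, (v t * U t) * star (v t * U t) = 1) :
    ∃ P : VonNeumannAlgebra H, ∀ x : H →L[ℂ] H, x ∈ P ↔ x ∈ wCen N U v := by
  set S : Set (H →L[ℂ] H) := {g | g ∈ N.commutant ∨ ∃ t : ℝ, g = v t * U t ∨ g = star (v t * U t)}
    with hS
  have hSs : ∀ g ∈ S, star g ∈ S := by
    rintro g (hg | ⟨t, rfl | rfl⟩)
    · exact Or.inl (star_mem hg)
    · exact Or.inr ⟨t, Or.inr rfl⟩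
    · exact Or.inr ⟨t, Or.inl (star_star _)⟩
  refine ⟨G_trp.vnComm S, fun x => ?_⟩
  rw [G_trp.mem_vnComm S hSs]
  have hN : x ∈ N ↔ ∀ y : H →L[ℂ] H, y ∈ N.commutant → y * x = x * y := by
    conv_lhs => rw [← N.commutant_commutant]
    rw [VonNeumannAlgebra.mem_commutant_iff]
  constructor
  · intro h
    refine ⟨hN.2 fun y hy => h y (Or.inl hy), fun t => ?_⟩
    have h1 := (G_trp.sgw_iff hw hw' t x 1).2
      (by rw [one_smul]; exact h _ (Or.inr ⟨t, Or.inl rfl⟩))
    rwa [one_smul] at h1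
  · rintro ⟨h1, h2⟩ g (hg | ⟨t, rfl | rfl⟩)
    · exact hN.1 h1 g hg
    · have h3 := (G_trp.sgw_iff hw hw' t x 1).1 (by rw [one_smul]; exact h2 t)
      rwa [one_smul] at h3
    · have h3 := (G_trp.sgw_iff hw hw' t x 1).1 (by rw [one_smul]; exact h2 t)
      rw [one_smul] at h3
      have h4 := hw t
      have h5 := hw' t
      generalize v t * U t = w at h3 h4 h5
      calc star w * x = star w * x * (w * star w) := by rw [h5, mul_one]
        _ = star w * (x * w) * star w := by simp only [mul_assoc]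
        _ = star w * (w * x) * star w := by rw [h3]
        _ = (star w * w) * x * star w := by simp only [mul_assoc]
        _ = x * star w := by rw [h4, one_mul]

/-- transport of `KN` by a unitary -/
theorem kn_trans {H K : Type} [NormedAddCommGroup H] [InnerProductSpace ℂ H] [CompleteSpace H]
    [NormedAddCommGroup K] [InnerProductSpace ℂ K] [CompleteSpace K] (W : H ≃ₗᵢ[ℂ] K)
    (P : VonNeumannAlgebra H) (P₀ : VonNeumannAlgebra K)
    (hP : ∀ x : H →L[ℂ] H, W.conjStarAlgEquiv x ∈ P₀ → x ∈ P) (x : H →L[ℂ] H) (c : ℂ)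
    (h : c • (1 : K →L[ℂ] K) ∈ KN P₀ (W.conjStarAlgEquiv x)) :
    c • (1 : H →L[ℂ] H) ∈ KN P x := by
  intro n ζ η ε hε
  obtain ⟨y, hy, hyi⟩ := h n (fun i => W (ζ i)) (fun i => W (η i)) ε hε
  let L : (K →L[ℂ] K) →ₗ[ℝ] (H →L[ℂ] H) :=
    { toFun := fun T => W.conjStarAlgEquiv.symm T
      map_add' := fun a b => map_add _ a b
      map_smul' := fun r a => by
        have e1 : (r • a : K →L[ℂ] K) = ((r : ℂ)) • a := by
          ext1 w
          exact (Complex.coe_smul r (a w)).symm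
        have e2 : (r • (W.conjStarAlgEquiv.symm a) : H →L[ℂ] H) =
            ((r : ℂ)) • (W.conjStarAlgEquiv.symm a) := by
          ext1 w
          exact (Complex.coe_smul r _).symm
        rw [RingHom.id_apply, e2, e1, map_smul] }
  have hL : L y ∈ convexHull ℝ (Conj P x) := by
    have h1 : L y ∈ L '' convexHull ℝ (Conj P₀ (W.conjStarAlgEquiv x)) := ⟨y, hy, rfl⟩
    rw [LinearMap.image_convexHull] at h1
    refine convexHull_mono ?_ h1
    rintro _ ⟨_, ⟨u, hu, huP, rfl⟩, rfl⟩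
    refine ⟨W.conjStarAlgEquiv.symm u, ?_, ?_, ?_⟩
    · rw [Unitary.mem_iff] at hu ⊢
      rw [← map_star, ← map_mul, ← map_mul, hu.1, hu.2, map_one]
      exact ⟨rfl, rfl⟩
    · apply hP
      rwa [StarAlgEquiv.apply_symm_apply]
    · change W.conjStarAlgEquiv.symm (u * W.conjStarAlgEquiv x * star u) = _
      rw [map_mul, map_mul, StarAlgEquiv.symm_apply_apply, map_star]
  refine ⟨L y, hL, fun i => ?_⟩
  have h2 := hyi i
  have h3 : W ((L y - c • (1 : H →L[ℂ] H)) (ζ i)) = (y - c • (1 : K →L[ℂ] K)) (W (ζ i)) := by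
    have h4 : W ((W.conjStarAlgEquiv.symm y) (ζ i)) = y (W (ζ i)) := by
      have h5 := LinearIsometryEquiv.conjStarAlgEquiv_apply_apply W (W.conjStarAlgEquiv.symm y)
        (W (ζ i))
      rw [StarAlgEquiv.apply_symm_apply, W.symm_apply_apply] at h5
      exact h5.symm
    change W ((W.conjStarAlgEquiv.symm y) (ζ i) - c • ζ i) = y (W (ζ i)) - c • W (ζ i)
    rw [map_sub, h4, map_smul]
  rw [← W.inner_map_map, h3]
  exact h2

theorem r (h1 : S_dxm) (h2 : S_spat) (h3 : S_trp) (h4 : S_flow) (h5 : S_inc3) (h6 : S_inc2) (h7 : S_dvn) (h8 : S_ops) : S_dxh := by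
  intro H _ _ _ _ N M ξ U J E v hInc hIII hdom hirr
  obtain ⟨W, hW⟩ := h2 H N M ξ U J E v hInc hdom
  obtain ⟨P₀, M₀, hmod⟩ := h7 H N M ξ U J E hInc
  obtain ⟨o1, -, o3, o4, -, o6⟩ := h8 H M ξ U hInc.modular
  have hops : ∀ x : H →L[ℂ] H, ∃ S : LR H →L[ℂ] LR H, IsConst x S := fun x => by
    obtain ⟨S, hS, -⟩ := o3 x
    exact ⟨S, hS⟩
  have hops' : ∀ t : ℝ, ∃ S : LR H →L[ℂ] LR H, IsDual U t S := fun t => by
    obtain ⟨S, hS, -⟩ := o1 t
    exact ⟨S, hS⟩
  have hU : ∀ t, star (U t) * U t = 1 := fun t => by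
    rw [hInc.modular.star_eq, ← hInc.modular.add, neg_add_cancel, hInc.modular.zero]
  have hU' : ∀ t, U t * star (U t) = 1 := fun t => by
    rw [hInc.modular.star_eq, ← hInc.modular.add, add_neg_cancel, hInc.modular.zero]
  have hw : ∀ t, star (v t * U t) * (v t * U t) = 1 := fun t => by
    rw [star_mul, mul_assoc, ← mul_assoc (star (v t)), hdom.star_mul, one_mul, hU]
  have hw' : ∀ t, (v t * U t) * star (v t * U t) = 1 := fun t => by
    rw [star_mul, mul_assoc, ← mul_assoc (U t), hU', one_mul, hdom.mul_star]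
  have hK : ∀ y : H →L[ℂ] H, y ∈ M.commutant → y ∈ N.commutant := by
    intro y hy
    rw [VonNeumannAlgebra.mem_commutant_iff] at hy ⊢
    exact fun g hg => hy g (hInc.le g hg)
  have hcen := G_trp.cen_iff hops hops' hw hw' hW
  obtain ⟨P, hP⟩ := wcen_vn N U v hw hw'
  have hPP : ∀ x : H →L[ℂ] H, W.conjStarAlgEquiv x ∈ P₀ ↔ x ∈ wCen N U v := fun x => by
    rw [hmod.memP, hcen]
  -- `P₀` is a factor
  have hfac : Factor P₀ := by
    intro z hz hzy
    obtain ⟨z', rfl⟩ := EquivLike.surjective W.conjStarAlgEquiv z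
    have hz' := (hPP z').1 hz
    obtain ⟨c, hc⟩ := hirr z' (hInc.le _ hz'.1) (by
      intro y hy
      have h9 := hzy _ ((hPP y).2 hy)
      rw [← map_mul, ← map_mul] at h9
      exact (EquivLike.injective W.conjStarAlgEquiv) h9)
    exact ⟨c, by rw [hc, map_smul, map_one]⟩
  -- the bicentralizer is trivial
  have htriv : ∀ b : H →L[ℂ] H, b ∈ relBicentralizer N M ξ → ∃ c : ℂ, b = c • (1 : H →L[ℂ] H) := by
    intro b hb
    obtain ⟨⟨β, hβ⟩, -⟩ := h4 H N M ξ U J E (h5 H N M ξ U J E hInc hIII)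
    obtain ⟨B, C, π, hπ⟩ := h3 H N M ξ U J E β v W hInc hIII hβ hdom.toIsCocycle hW
    have hbB : b ∈ B.toStarSubalgebra := (hπ.memB b).2 hb
    have h9 := (hπ.memC _).1 (π ⟨b, hbB⟩).2
    obtain ⟨c, hc⟩ := hirr _ h9.1 h9.2
    refine ⟨c, ?_⟩
    have h10 : π ⟨b, hbB⟩ = π (c • (1 : B.toStarSubalgebra)) := by
      rw [map_smul, map_one]
      exact Subtype.ext hc
    exact congrArg (fun a : B.toStarSubalgebra => (a : H →L[ℂ] H))
      ((EquivLike.injective π) h10)
  refine ⟨P, hP, fun x hx => ?_⟩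
  obtain ⟨c, hc⟩ := h1 H N M ξ U J E (h6 H N M ξ U J E hInc hIII) P₀ M₀ hmod hfac htriv
    (W.conjStarAlgEquiv x) ((hmod.memM _).2 ((G_trp.amp_iff hops hW M hK x).2 hx))
  exact ⟨c, kn_trans W P P₀ (fun y hy => (hP y).2 ((hPP y).1 hy)) x c hc⟩

end Pool.Agent.H255.BC.D_dxh
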