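import Pool.Agent.H255.BC.Defs2

/-!
Basic lemmas for the slices (helper321, stage 2 of the project BC of helper255): the right
multiplications `R(a) v = J a^* J v`, and operators on `L²(ℝ; H)`.
-/

set_option autoImplicit false

open MeasureTheory Filter Topology Complex
open scoped InnerProductSpace ENNReal FourierTransform

namespace Pool.Agent.H321.BC

open Pool.Agent.W662.CB Pool.Agent.H255.BC

section J

variable {H : Type} [NormedAddCommGroup H] [InnerProductSpace ℂ H] [CompleteSpace H]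
variable {M : VonNeumannAlgebra H} {ξ : H} {U : ℝ → H →L[ℂ] H} {J : H → H}

lemma J_norm (hJ : IsConj M ξ U J) (v : H) : ‖J v‖ = ‖v‖ := by
  have h := hJ.inner v v
  rw [inner_self_eq_norm_sq_to_K, inner_self_eq_norm_sq_to_K] at h
  have h2 : ‖J v‖ ^ 2 = ‖v‖ ^ 2 := by exact_mod_cast h
  exact (sq_eq_sq₀ (norm_nonneg _) (norm_nonneg _)).1 h2

lemma J_sub (hJ : IsConj M ξ U J) (v w : H) : J (v - w) = J v - J w := by
  have h := hJ.add (v - w) w
  rw [sub_add_cancel] at h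
  rw [h, add_sub_cancel_right]

lemma J_zero (hJ : IsConj M ξ U J) : J 0 = 0 := by
  have := J_sub hJ 0 0
  simpa using this

lemma J_cont (hJ : IsConj M ξ U J) : Continuous J := by
  have h : LipschitzWith 1 J := LipschitzWith.of_dist_le_mul fun x y => by
    rw [dist_eq_norm, dist_eq_norm, ← J_sub hJ, J_norm hJ]
    simp
  exact h.continuous

/-- The right multiplication by `a`, as an operator. -/
noncomputable def Rop (hJ : IsConj M ξ U J) (a : H →L[ℂ] H) : H →L[ℂ] H :=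
  LinearMap.mkContinuous
    { toFun := fun v => J (star a (J v))
      map_add' := fun v w => by rw [hJ.add, map_add, hJ.add]
      map_smul' := fun c v => by rw [hJ.smul, map_smul, hJ.smul, Complex.conj_conj]; rfl } ‖a‖
    (fun v => by
      show ‖J (star a (J v))‖ ≤ ‖a‖ * ‖v‖
      rw [J_norm hJ]
      calc ‖star a (J v)‖ ≤ ‖star a‖ * ‖J v‖ := (star a).le_opNorm _
        _ = ‖a‖ * ‖v‖ := by rw [norm_star, J_norm hJ])

lemma Rop_apply (hJ : IsConj M ξ U J) (a : H →L[ℂ] H) (v : H) : Rop hJ a v = J (star a (J v)) :=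
  rfl

lemma Rop_xi (hJ : IsConj M ξ U J) (a : H →L[ℂ] H) : Rop hJ a ξ = J (star a ξ) := by
  rw [Rop_apply, hJ.fix]

lemma Rop_mem (hJ : IsConj M ξ U J) {a : H →L[ℂ] H} (ha : a ∈ M) : Rop hJ a ∈ M.commutant := by
  rw [VonNeumannAlgebra.mem_commutant_iff]
  intro g hg
  ext v
  exact hJ.comm g (star a) hg (star_mem ha) v

lemma Rop_comm (hJ : IsConj M ξ U J) {a x : H →L[ℂ] H} (ha : a ∈ M) (hx : x ∈ M) (v : H) :
    x (Rop hJ a v) = Rop hJ a (x v) := hJ.comm x (star a) hx (star_mem ha) v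

lemma isom_norm {u : H →L[ℂ] H} (hu : star u * u = 1) (v : H) : ‖u v‖ = ‖v‖ := by
  have h : ⟪u v, u v⟫_ℂ = ⟪v, v⟫_ℂ := by
    rw [← ContinuousLinearMap.adjoint_inner_right, ← ContinuousLinearMap.star_eq_adjoint]
    show ⟪v, (star u * u) v⟫_ℂ = _
    rw [hu]; rfl
  rw [inner_self_eq_norm_sq_to_K, inner_self_eq_norm_sq_to_K] at h
  have h2 : ‖u v‖ ^ 2 = ‖v‖ ^ 2 := by exact_mod_cast h
  exact (sq_eq_sq₀ (norm_nonneg _) (norm_nonneg _)).1 h2

/-- `‖α_u v - v‖ = ‖u v - v u‖` -/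
lemma alf_norm (hJ : IsConj M ξ U J) {u : H →L[ℂ] H} (hu : u ∈ M) (h1 : star u * u = 1)
    (h2 : u * star u = 1) (v : H) : ‖alf J u v - v‖ = ‖u v - Rop hJ u v‖ := by
  have h3 : ∀ w : H, ‖Rop hJ u w‖ = ‖w‖ := by
    intro w
    rw [Rop_apply, J_norm hJ, isom_norm (u := star u) (by rw [star_star]; exact h2), J_norm hJ]
  have h4 : Rop hJ u (alf J u v) = u v := by
    unfold alf
    rw [← Rop_comm hJ hu hu, Rop_apply, hJ.inv]
    congr 1
    have : star u (u (J v)) = J v := by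
      show (star u * u) (J v) = J v
      rw [h1]; rfl
    rw [this, hJ.inv]
  rw [← h3 (alf J u v - v), map_sub, h4]

lemma alf_xi (hJ : IsConj M ξ U J) {u : H →L[ℂ] H} (hu : u ∈ M) (h1 : star u * u = 1)
    (h2 : u * star u = 1) : ‖alf J u ξ - ξ‖ = ‖J (star u ξ) - u ξ‖ := by
  rw [alf_norm hJ hu h1 h2, Rop_xi, norm_sub_rev]

lemma alf_isom (hJ : IsConj M ξ U J) {u : H →L[ℂ] H} (h1 : star u * u = 1) (v : H) :
    ‖alf J u v‖ = ‖v‖ := by
  unfold alf
  rw [isom_norm h1, J_norm hJ, isom_norm h1, J_norm hJ]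

/-- the vectors `y ξ`, `y ∈ M'`, are dense -/
lemma dense_commutant (hJ : IsConj M ξ U J) (hc : IsCyclic M ξ) :
    Dense {v : H | ∃ y : H →L[ℂ] H, y ∈ M.commutant ∧ y ξ = v} := by
  intro v
  have h1 := hc (J v)
  rw [Metric.mem_closure_iff] at h1 ⊢
  intro ε hε
  obtain ⟨w, ⟨a, ha, rfl⟩, hw⟩ := h1 ε hε
  refine ⟨J (a ξ), ⟨Rop hJ (star a), Rop_mem hJ (star_mem ha), ?_⟩, ?_⟩
  · rw [Rop_xi, star_star]
  · rw [dist_eq_norm] at hw ⊢
    rwa [← hJ.inv v, ← J_sub hJ, J_norm hJ]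

end J

section LR

variable {H : Type} [NormedAddCommGroup H] [InnerProductSpace ℂ H] [CompleteSpace H]

lemma LR_norm_sq (F : LR H) : ‖F‖ ^ 2 = ∫ s, ‖(F : ℝ → H) s‖ ^ 2 := by
  have h1 : ⟪F, F⟫_ℂ = ∫ s, ⟪(F : ℝ → H) s, (F : ℝ → H) s⟫_ℂ := L2.inner_def F F
  have h2 : (∫ s, ⟪(F : ℝ → H) s, (F : ℝ → H) s⟫_ℂ) = ((∫ s, ‖(F : ℝ → H) s‖ ^ 2 : ℝ) : ℂ) := by
    rw [← integral_complex_ofReal]
    congr 1
    ext s
    rw [inner_self_eq_norm_sq_to_K]
    norm_cast
  rw [h2, inner_self_eq_norm_sq_to_K] at h1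
  apply Complex.ofReal_injective
  rw [← h1]
  push_cast
  rfl

lemma ten_const {g : ℝ → ℂ} {T : H →L[ℂ] LR H} (hT : IsTen g T) {y : H →L[ℂ] H}
    {S : LR H →L[ℂ] LR H} (hS : IsConst y S) (v : H) : S (T v) = T (y v) := by
  apply Lp.ext
  filter_upwards [hS (T v), hT v, hT (y v)] with s h1 h2 h3
  rw [h1, h2, h3, map_smul]

lemma adj_ten_const {g : ℝ → ℂ} {T : H →L[ℂ] LR H} (hT : IsTen g T) {y : H →L[ℂ] H}
    {S : LR H →L[ℂ] LR H} (hS' : IsConst (star y) (star S)) (F : LR H) :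
    ContinuousLinearMap.adjoint T (S F) = y (ContinuousLinearMap.adjoint T F) := by
  refine ext_inner_left ℂ fun w => ?_
  rw [ContinuousLinearMap.adjoint_inner_right]
  have h1 : ⟪T w, S F⟫_ℂ = ⟪star S (T w), F⟫_ℂ := by
    rw [ContinuousLinearMap.star_eq_adjoint, ContinuousLinearMap.adjoint_inner_left]
  rw [h1, ten_const hT hS', ← ContinuousLinearMap.adjoint_inner_right,
    ContinuousLinearMap.star_eq_adjoint, ContinuousLinearMap.adjoint_inner_left]

/-- the slices of an element of `M ⊗ B(L²)` are in `M` -/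
lemma slice_mem {M : VonNeumannAlgebra H} {Y : LR H →L[ℂ] LR H} (hY : Y ∈ Amp M)
    (hcst : ∀ x : H →L[ℂ] H, ∃ S : LR H →L[ℂ] LR H, IsConst x S ∧ ‖S‖ ≤ ‖x‖ ∧
      IsConst (star x) (star S))
    {f g : ℝ → ℂ} {Tf Tg : H →L[ℂ] LR H} (hf : IsTen f Tf) (hg : IsTen g Tg) :
    ContinuousLinearMap.adjoint Tf ∘L Y ∘L Tg ∈ M := by
  rw [← VonNeumannAlgebra.commutant_commutant M, VonNeumannAlgebra.mem_commutant_iff]
  intro y hy
  obtain ⟨S, hS, -, hS'⟩ := hcst y
  have h1 := hY y hy S hS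
  ext v
  show y (ContinuousLinearMap.adjoint Tf (Y (Tg v))) = ContinuousLinearMap.adjoint Tf (Y (Tg (y v)))
  rw [← adj_ten_const hf hS', ← ten_const hg hS]
  congr 1
  exact (DFunLike.congr_fun h1 (Tg v)).symm

/-- the set of the vectors on which a bounded sequence of operators tends to zero is closed -/
lemma closed_null {E F : Type*} [NormedAddCommGroup E] [NormedSpace ℂ E] [NormedAddCommGroup F]
    [NormedSpace ℂ F] (A : ℕ → E →L[ℂ] F) (C : ℝ) (hA : ∀ k, ‖A k‖ ≤ C) :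
    IsClosed {v : E | Tendsto (fun k => A k v) atTop (𝓝 0)} := by
  rw [← closure_subset_iff_isClosed]
  intro v hv
  rw [Metric.mem_closure_iff] at hv
  show Tendsto (fun k => A k v) atTop (𝓝 0)
  rw [Metric.tendsto_atTop]
  intro ε hε
  have hC : 0 ≤ C := (norm_nonneg _).trans (hA 0)
  obtain ⟨w, hw, hvw⟩ := hv (ε / (2 * (C + 1))) (by positivity)
  obtain ⟨n, hn⟩ := (Metric.tendsto_atTop.1 hw) (ε / 2) (by positivity)
  refine ⟨n, fun k hk => ?_⟩
  have h1 := hn k hk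
  rw [dist_zero_right] at h1 ⊢
  rw [dist_eq_norm] at hvw
  have h2 : A k v = A k (v - w) + A k w := by rw [map_sub, sub_add_cancel]
  rw [h2]
  calc ‖A k (v - w) + A k w‖ ≤ ‖A k (v - w)‖ + ‖A k w‖ := norm_add_le _ _
    _ ≤ C * ‖v - w‖ + ‖A k w‖ := by
        gcongr
        exact ((A k).le_opNorm _).trans (by gcongr; exact hA k)
    _ < ε / 2 + ε / 2 := by
        have h3 : C * ‖v - w‖ ≤ ε / 2 := by
          calc C * ‖v - w‖ ≤ (C + 1) * (ε / (2 * (C + 1))) := by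
                gcongr
                linarith
            _ = ε / 2 := by field_simp
        linarith
    _ = ε := by ring

/-- Let a bounded sequence of operators on `L²(ℝ; H)` tend to zero on the vectors `f ⊗ v`, `v` in
a dense set; then it tends to zero strongly. -/
lemma null_of_ten (A : ℕ → LR H →L[ℂ] LR H) (C : ℝ) (hA : ∀ k, ‖A k‖ ≤ C)
    (hten : ∀ f : ℝ → ℂ, MemLp f 2 (volume : Measure ℝ) → ∃ T : H →L[ℂ] LR H, IsTen f T ∧
      ‖T‖ ≤ (eLpNorm f 2 (volume : Measure ℝ)).toReal)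
    (D : Set H) (hD : Dense D)
    (h : ∀ f : ℝ → ℂ, MemLp f 2 (volume : Measure ℝ) → ∀ T : H →L[ℂ] LR H, IsTen f T →
      ∀ v ∈ D, Tendsto (fun k => A k (T v)) atTop (𝓝 0)) (F : LR H) :
    Tendsto (fun k => A k F) atTop (𝓝 0) := by
  have hcl := closed_null A C hA
  have hv : ∀ f : ℝ → ℂ, MemLp f 2 (volume : Measure ℝ) → ∀ T : H →L[ℂ] LR H, IsTen f T →
      ∀ v : H, Tendsto (fun k => A k (T v)) atTop (𝓝 0) := by
    intro f hf T hT v
    have h1 : IsClosed {v : H | Tendsto (fun k => A k (T v)) atTop (𝓝 0)} :=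
      hcl.preimage T.continuous
    have h2 : D ⊆ {v : H | Tendsto (fun k => A k (T v)) atTop (𝓝 0)} := fun v hv => h f hf T hT v hv
    have h3 := closure_minimal h2 h1
    rw [hD.closure_eq] at h3
    exact h3 (Set.mem_univ v)
  refine Lp.induction (by norm_num) (motive := fun F : LR H =>
    Tendsto (fun k => A k F) atTop (𝓝 0)) ?_ ?_ hcl F
  · intro c s hs hμs
    have hm : MemLp (s.indicator (fun _ => (1 : ℂ))) 2 (volume : Measure ℝ) :=
      memLp_indicator_const 2 hs 1 (Or.inr hμs.ne)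
    obtain ⟨T, hT, -⟩ := hten _ hm
    have h1 : (Lp.simpleFunc.indicatorConst 2 hs hμs.ne c : LR H) = T c := by
      apply Lp.ext
      rw [Lp.simpleFunc.coe_indicatorConst]
      filter_upwards [indicatorConstLp_coeFn (p := 2) (hs := hs) (hμs := hμs.ne) (c := c),
        hT c] with x h2 h3
      rw [h2, h3]
      by_cases hx : x ∈ s <;> simp [hx]
    rw [h1]
    exact hv _ hm T hT c
  · intro f g hf hg _ h1 h2
    have h3 := h1.add h2
    rw [add_zero] at h3
    refine h3.congr fun k => ?_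
    rw [map_add]

end LR

end Pool.Agent.H321.BC
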