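import Pool.Agent.H255.BC.Defs8
import Pool.Agent.H255.BC.R_slicebase
import Pool.Graph.R_pool_sql_team_seeded_f72693b1.W509.CB.E3
import Pool.Graph.R_pool_sql_team_seeded_f72693b1.W481.WD.KSET

/-!
# The weak relative Dixmier property in the model (by helper894, for helper255)
-/

set_option autoImplicit false

open MeasureTheory Filter Topology Complex
open scoped InnerProductSpace ENNReal

namespace Pool.Agent.H255.BC.D_dxm

open Pool.Agent.W662.CB Pool.Agent.W988.WD Pool.Agent.H255.BC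

noncomputable section

/-! ### The sets `KN` -/

section KNsets

variable {K : Type} [NormedAddCommGroup K] [InnerProductSpace ℂ K] [CompleteSpace K]

lemma KN_trans (P M : VonNeumannAlgebra K) (hPM : ∀ a ∈ P, a ∈ M) {X Y Z : K →L[ℂ] K}
    (hX : X ∈ M) (hY : Y ∈ KN P X) (hZ : Z ∈ KN P Y) : Z ∈ KN P X := by
  obtain ⟨-, -, hconv, hconj, -⟩ := Pool.Agent.W481.WD.p_KSET K P M hPM X hX
  have h1 : Conj P Y ⊆ KN P X := by
    rintro _ ⟨u, hu, huP, rfl⟩
    exact hconj u hu huP Y hY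
  have h2 : convexHull ℝ (Conj P Y) ⊆ KN P X := convexHull_min h1 hconv
  intro n ξ η ε hε
  obtain ⟨y, hy, hyZ⟩ := hZ n ξ η (ε / 2) (by positivity)
  obtain ⟨y', hy', hyy⟩ := h2 hy n ξ η (ε / 2) (by positivity)
  refine ⟨y', hy', fun i => ?_⟩
  have h3 : ⟪η i, (y' - Z) (ξ i)⟫_ℂ = ⟪η i, (y' - y) (ξ i)⟫_ℂ + ⟪η i, (y - Z) (ξ i)⟫_ℂ := by
    rw [← inner_add_right, ← add_apply, sub_add_sub_cancel]
  rw [h3]
  calc ‖⟪η i, (y' - y) (ξ i)⟫_ℂ + ⟪η i, (y - Z) (ξ i)⟫_ℂ‖
      ≤ ‖⟪η i, (y' - y) (ξ i)⟫_ℂ‖ + ‖⟪η i, (y - Z) (ξ i)⟫_ℂ‖ := norm_add_le _ _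
    _ < ε / 2 + ε / 2 := add_lt_add (hyy i) (hyZ i)
    _ = ε := by ring

end KNsets

variable {H : Type} [NormedAddCommGroup H] [InnerProductSpace ℂ H] [CompleteSpace H]

/-! ### Operators with vanishing slices -/

lemma zero_of_slices
    (hten : ∀ f : ℝ → ℂ, MemLp f 2 (volume : Measure ℝ) → ∃ T : H →L[ℂ] LR H, IsTen f T ∧
      ‖T‖ ≤ (eLpNorm f 2 (volume : Measure ℝ)).toReal)
    (D : LR H →L[ℂ] LR H)
    (h : ∀ (f g : ℝ → ℂ) (Tf Tg : H →L[ℂ] LR H), MemLp f 2 (volume : Measure ℝ) →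
      MemLp g 2 (volume : Measure ℝ) → IsTen f Tf → IsTen g Tg →
      ∀ v : H, ContinuousLinearMap.adjoint Tf (D (Tg v)) = 0) : D = 0 := by
  have h1 : ∀ w : LR H, (∀ (f : ℝ → ℂ) (Tf : H →L[ℂ] LR H), MemLp f 2 (volume : Measure ℝ) →
      IsTen f Tf → ContinuousLinearMap.adjoint Tf w = 0) → w = 0 := by
    intro w hw
    set A : LR H →L[ℂ] LR H := (innerSL ℂ w).smulRight w with hA
    have h2 := Pool.Agent.H321.BC.null_of_ten (fun _ : ℕ => A) ‖A‖ (fun _ => le_rfl) hten Set.univ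
      dense_univ (by
        intro f hf T hT v _
        have h3 : A (T v) = 0 := by
          rw [hA, ContinuousLinearMap.smulRight_apply, innerSL_apply_apply,
            ← ContinuousLinearMap.adjoint_inner_left, hw f T hf hT, inner_zero_left, zero_smul]
        rw [h3]
        exact tendsto_const_nhds) w
    have h4 : A w = 0 := tendsto_nhds_unique tendsto_const_nhds h2
    rw [hA, ContinuousLinearMap.smulRight_apply, innerSL_apply_apply] at h4
    rcases smul_eq_zero.1 h4 with h5 | h5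
    · exact inner_self_eq_zero.1 h5
    · exact h5
  have h3 : ∀ F : LR H, D F = 0 := by
    intro F
    have h2 := Pool.Agent.H321.BC.null_of_ten (fun _ : ℕ => D) ‖D‖ (fun _ => le_rfl) hten Set.univ
      dense_univ (by
        intro g hg T hT v _
        have h4 : D (T v) = 0 := h1 _ fun f Tf hf hTf => h f g Tf T hf hg hTf hT v
        rw [h4]
        exact tendsto_const_nhds) F
    exact tendsto_nhds_unique tendsto_const_nhds h2
  ext1 F
  exact h3 F

/-! ### The translations -/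

/-- the translations -/
def R (t : ℝ) : LR H →L[ℂ] LR H := (Pool.Agent.W509.CB.Rt H t).toContinuousLinearMap

lemma R_shift (t : ℝ) : IsShift t (R (H := H) t) := Pool.Agent.W509.CB.Rt_shift t

lemma R_cont (F : LR H) : Continuous fun t : ℝ => R t F := by
  have h : Continuous fun t : ℝ => Lp.compMeasurePreserving
      ((fun t : ℝ => (⟨fun s : ℝ => s - t, by fun_prop⟩ : C(ℝ, ℝ))) t)
      (measurePreserving_sub_right volume t) F := by
    refine Continuous.compMeasurePreservingLp (continuous_const (y := F)) ?_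
      (fun t => measurePreserving_sub_right volume t) (by norm_num)
    exact ContinuousMap.continuous_of_continuous_uncurry _ (by
      change Continuous fun p : ℝ × ℝ => p.2 - p.1
      fun_prop)
  exact h

lemma R_zero : R (H := H) 0 = 1 :=
  Pool.Agent.W509.CB.shift_unique (R_shift 0) Pool.Agent.W509.CB.shift_one

lemma R_add (s t : ℝ) : R (H := H) (s + t) = R s * R t :=
  Pool.Agent.W509.CB.shift_unique (R_shift (s + t))
    (Pool.Agent.W509.CB.shift_mul (R_shift s) (R_shift t))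

lemma R_star (t : ℝ) : star (R (H := H) t) = R (-t) := by
  have hone : (R (H := H) t) * (R (-t)) = 1 := by
    rw [← R_add, add_neg_cancel, R_zero]
  ext1 v
  apply ext_inner_right ℂ
  intro w
  rw [ContinuousLinearMap.star_eq_adjoint, ContinuousLinearMap.adjoint_inner_left]
  have h2 : v = (R t) ((R (-t)) v) := by
    have := congrArg (fun S : LR H →L[ℂ] LR H => S v) hone
    simpa using this.symm
  conv_lhs => rw [h2]
  exact (Pool.Agent.W509.CB.Rt H t).inner_map_map _ _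

lemma R_grp : IsGrp (R (H := H)) := ⟨R_zero, R_add, R_star, R_cont⟩

lemma R_const {x : H →L[ℂ] H} {S : LR H →L[ℂ] LR H} (hS : IsConst x S) (t : ℝ) :
    S * R t = R t * S := by
  ext1 f
  apply Lp.ext
  have h1 : (R t (S f) : ℝ → H) =ᵐ[volume] fun s => x (f (s - t)) :=
    (R_shift t (S f)).trans (Pool.Agent.W509.CB.shift_ae t (hS f))
  have h2 : (S (R t f) : ℝ → H) =ᵐ[volume] fun s => x (f (s - t)) := by
    refine (hS _).trans ?_
    filter_upwards [R_shift t f] with s hs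
    rw [hs]
  exact h2.trans h1.symm

/-! ### The characters -/

lemma mul_unique {g : ℝ → ℂ} {S S' : LR H →L[ℂ] LR H} (h : IsMulOp g S) (h' : IsMulOp g S') :
    S = S' := by
  ext1 f
  exact Lp.ext ((h f).trans (h' f).symm)

lemma mul_mul {g g' : ℝ → ℂ} {S S' : LR H →L[ℂ] LR H} (h : IsMulOp g S) (h' : IsMulOp g' S') :
    IsMulOp (fun s => g s * g' s) (S * S') := by
  intro f
  filter_upwards [h (S' f), h' f] with s h1 h2
  change (S (S' f) : ℝ → H) s = _
  rw [h1, h2, smul_smul]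

lemma mul_const {g : ℝ → ℂ} {S S' : LR H →L[ℂ] LR H} (h : IsMulOp g S) {x : H →L[ℂ] H}
    (h' : IsConst x S') : S' * S = S * S' := by
  ext1 f
  apply Lp.ext
  filter_upwards [h (S' f), h' f, h f, h' (S f)] with s h1 h2 h3 h4
  change (S' (S f) : ℝ → H) s = (S (S' f) : ℝ → H) s
  rw [h1, h2, h4, h3, map_smul]

/-- the character -/
def ch (κ s : ℝ) : ℂ := cexp (I * ((s * κ : ℝ) : ℂ))

lemma ch_ulam (lam : ℝ) : (fun s : ℝ => cexp (-(I * ((s * Real.log lam : ℝ) : ℂ)))) =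
    ch (-Real.log lam) := by
  funext s
  unfold ch
  congr 1
  push_cast
  ring

lemma ch_norm (κ s : ℝ) : ‖ch κ s‖ = 1 := by
  unfold ch
  rw [Complex.norm_exp]
  simp

lemma ch_cont (F : LR H) (u : ℝ → LR H →L[ℂ] LR H) (hu : ∀ κ, IsMulOp (ch κ) (u κ)) :
    Continuous fun κ : ℝ => u κ F := by
  have hn : ∀ κ, ‖u κ F‖ = ‖F‖ := by
    intro κ
    rw [Lp.norm_def, Lp.norm_def]
    congr 1
    refine eLpNorm_congr_norm_ae ?_
    filter_upwards [hu κ F] with s hs
    rw [hs, norm_smul, ch_norm, one_mul]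
  have hint : Integrable (fun s : ℝ => ‖(F : ℝ → H) s‖ ^ 2) := (Lp.memLp F).integrable_norm_pow
    (by norm_num)
  have hin : ∀ κ₀ κ : ℝ, ⟪u κ₀ F, u κ F⟫_ℂ =
      ∫ s : ℝ, ch (κ - κ₀) s * ((‖(F : ℝ → H) s‖ ^ 2 : ℝ) : ℂ) := by
    intro κ₀ κ
    rw [L2.inner_def]
    refine integral_congr_ae ?_
    filter_upwards [hu κ₀ F, hu κ F] with s h1 h2
    rw [h1, h2, inner_smul_left, inner_smul_right, inner_self_eq_norm_sq_to_K, ← mul_assoc]
    congr 1
    · unfold ch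
      rw [← Complex.exp_conj, ← Complex.exp_add]
      congr 1
      simp only [map_mul, Complex.conj_I, Complex.conj_ofReal]
      push_cast
      ring
    · push_cast
      rfl
  rw [continuous_iff_continuousAt]
  intro κ₀
  have h1 : Continuous fun κ : ℝ => ∫ s : ℝ, ch (κ - κ₀) s * ((‖(F : ℝ → H) s‖ ^ 2 : ℝ) : ℂ) := by
    refine continuous_of_dominated (bound := fun s => ‖(F : ℝ → H) s‖ ^ 2) ?_ ?_ hint ?_
    · intro κ
      refine AEStronglyMeasurable.mul ?_ ?_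
      · refine Continuous.aestronglyMeasurable ?_
        unfold ch
        fun_prop
      · exact hint.ofReal.aestronglyMeasurable
    · intro κ
      refine Eventually.of_forall fun s => ?_
      rw [norm_mul, ch_norm, one_mul, Complex.norm_real, Real.norm_of_nonneg (by positivity)]
    · refine Eventually.of_forall fun s => ?_
      unfold ch
      fun_prop
  have h2 : Tendsto (fun κ => 2 * ‖F‖ ^ 2 - 2 * (⟪u κ₀ F, u κ F⟫_ℂ).re) (𝓝 κ₀)
      (𝓝 (2 * ‖F‖ ^ 2 - 2 * (⟪u κ₀ F, u κ₀ F⟫_ℂ).re)) := by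
    have h3 : Continuous fun κ => (⟪u κ₀ F, u κ F⟫_ℂ).re := by
      simp only [hin κ₀]
      exact Complex.continuous_re.comp h1
    exact (continuous_const.sub (h3.const_mul 2)).tendsto κ₀
  have h4 : 2 * ‖F‖ ^ 2 - 2 * (⟪u κ₀ F, u κ₀ F⟫_ℂ).re = 0 := by
    have e1 : (⟪u κ₀ F, u κ₀ F⟫_ℂ).re = ‖F‖ ^ 2 := by
      have e2 := inner_self_eq_norm_sq (𝕜 := ℂ) (u κ₀ F)
      rw [hn] at e2
      exact e2
    rw [e1]
    ring
  rw [h4] at h2
  have h5 : ∀ κ, ‖u κ F - u κ₀ F‖ ^ 2 = 2 * ‖F‖ ^ 2 - 2 * (⟪u κ₀ F, u κ F⟫_ℂ).re := by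
    intro κ
    rw [norm_sub_sq (𝕜 := ℂ), hn, hn]
    have h6 : RCLike.re ⟪u κ F, u κ₀ F⟫_ℂ = (⟪u κ₀ F, u κ F⟫_ℂ).re :=
      inner_re_symm (𝕜 := ℂ) (u κ F) (u κ₀ F)
    rw [h6]
    ring
  unfold ContinuousAt
  rw [tendsto_iff_norm_sub_tendsto_zero]
  have h7 : Tendsto (fun κ => ‖u κ F - u κ₀ F‖ ^ 2) (𝓝 κ₀) (𝓝 0) := by
    simp only [h5]
    exact h2
  have h8 := h7.sqrt
  rw [Real.sqrt_zero] at h8
  refine h8.congr fun κ => ?_
  rw [Real.sqrt_sq (norm_nonneg _)]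

lemma ch_shift {κ : ℝ} {S : LR H →L[ℂ] LR H} (hS : IsMulOp (ch κ) S) (t : ℝ) :
    R t * S = ch κ (-t) • (S * R t) := by
  ext1 f
  apply Lp.ext
  have h1 : (R t (S f) : ℝ → H) =ᵐ[volume] fun s => ch κ (s - t) • f (s - t) :=
    (R_shift t (S f)).trans (Pool.Agent.W509.CB.shift_ae t (hS f))
  have h2 : ((ch κ (-t) • (S * R t) : LR H →L[ℂ] LR H) f : ℝ → H) =ᵐ[volume] fun s => ch κ (s - t) • f (s - t) := by
    change ((ch κ (-t) • (S (R t f)) : LR H) : ℝ → H) =ᵐ[volume] _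
    filter_upwards [Lp.coeFn_smul (ch κ (-t)) (S (R t f)), hS (R t f), R_shift t f] with s h3 h4 h5
    rw [h3, Pi.smul_apply, h4, h5, smul_smul]
    congr 1
    unfold ch
    rw [← Complex.exp_add]
    congr 1
    push_cast
    ring
  exact h1.trans h2.symm

theorem r (h1 : S_daav) (h2 : S_dmk) (h3 : S_dscl) (h4 : S_dirr) (h5 : S_gen) (h6 : S_ops) : S_dxm := by
  intro H _ _ _ _ N M ξ U J E hI P₀ M₀ hmod hfac hB X hX
  obtain ⟨-, -, hcst, hten, -, hlam⟩ := h6 H M ξ U hI.modular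
  have hle : ∀ a ∈ P₀, a ∈ M₀ := hmod.le
  have KS := fun (Y : LR H →L[ℂ] LR H) (hY : Y ∈ M₀) =>
    Pool.Agent.W481.WD.p_KSET (LR H) P₀ M₀ hle Y hY
  -- step 1
  obtain ⟨Y₂, hY₂, hsl⟩ := h1 H N M ξ U J E hI.toInc P₀ M₀ hmod X hX
  have hY₂M : Y₂ ∈ M₀ := ((KS X hX).2.1 Y₂ hY₂).1
  have c2 : ∀ (x : H →L[ℂ] H) (S : LR H →L[ℂ] LR H), IsConst x S → S * Y₂ = Y₂ * S := by
    intro x S hS
    obtain ⟨S', hS', -, hS'2⟩ := hcst x
    have hSS : S = S' := by
      ext1 f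
      exact Lp.ext ((hS f).trans (hS' f).symm)
    rw [← hSS] at hS'2
    refine sub_eq_zero.1 (zero_of_slices hten _ ?_)
    intro f g Tf Tg hf hg hTf hTg v
    obtain ⟨c, hc⟩ := hB _ (hsl f g Tf Tg hf hg hTf hTg)
    have e1 : ∀ v : H, ContinuousLinearMap.adjoint Tf (Y₂ (Tg v)) = c • v := fun v =>
      congrArg (fun A : H →L[ℂ] H => A v) hc
    change ContinuousLinearMap.adjoint Tf (S (Y₂ (Tg v)) - Y₂ (S (Tg v))) = 0
    rw [map_sub, Pool.Agent.H321.BC.adj_ten_const hTf hS'2, e1,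
      Pool.Agent.H321.BC.ten_const hTg hS, e1, map_smul, sub_self]
  -- step 2
  have hRP : ∀ t : ℝ, R (H := H) t ∈ P₀ := fun t =>
    (hmod.memP _).2 ((h5 H N M ξ U J E hI.toInc).2 t _ (R_shift t))
  have hRu : ∀ t : ℝ, R (H := H) t ∈ unitary (LR H →L[ℂ] LR H) := by
    intro t
    rw [Unitary.mem_iff, R_star, ← R_add, ← R_add, neg_add_cancel, add_neg_cancel, R_zero]
    exact ⟨rfl, rfl⟩
  obtain ⟨Y₃, hY₃, hY₃R, hY₃c⟩ := h2 (LR H) P₀ M₀ hle R R_grp Y₂ hY₂M (by
    intro κ _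
    have e1 := (KS Y₂ hY₂M).2.2.2.1 (R (-κ)) (hRu _) (hRP _) Y₂ (KS Y₂ hY₂M).1
    rw [← R_star, star_star] at e1
    exact e1)
  have hY₃M : Y₃ ∈ M₀ := ((KS Y₂ hY₂M).2.1 Y₃ hY₃).1
  have c3 : ∀ (x : H →L[ℂ] H) (S : LR H →L[ℂ] LR H), IsConst x S → S * Y₃ = Y₃ * S := by
    intro x S hS
    refine hY₃c S fun κ _ => ?_
    rw [R_star]
    have e1 := c2 x S hS
    have e2 := R_const hS κ
    have e3 := R_const hS (-κ)
    calc S * (R (-κ) * Y₂ * R κ) = (S * R (-κ)) * Y₂ * R κ := by simp only [mul_assoc]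
      _ = R (-κ) * (S * Y₂) * R κ := by rw [e3]; simp only [mul_assoc]
      _ = R (-κ) * Y₂ * (S * R κ) := by rw [e1]; simp only [mul_assoc]
      _ = R (-κ) * Y₂ * R κ * S := by rw [e2]; simp only [mul_assoc]
  -- step 3
  have hex : ∀ κ : ℝ, ∃ S : LR H →L[ℂ] LR H, IsMulOp (ch κ) S ∧ IsMulOp (ch (-κ)) (star S) ∧
      IsULam (Real.exp (-κ)) S := by
    intro κ
    obtain ⟨S, e1, -, -, e2⟩ := hlam (Real.exp (-κ)) (Real.exp_pos _)
    refine ⟨S, ?_, ?_, e1⟩
    · unfold IsULam at e1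
      rw [ch_ulam, Real.log_exp, neg_neg] at e1
      exact e1
    · unfold IsULam at e2
      rw [ch_ulam, Real.log_inv, Real.log_exp, neg_neg] at e2
      exact e2
  choose u hu hu' hul using hex
  have hu0 : u 0 = 1 := by
    refine mul_unique (hu 0) ?_
    intro f
    refine Eventually.of_forall fun s => ?_
    simp [ch]
  have hustar : ∀ t : ℝ, star (u t) = u (-t) := fun t => mul_unique (hu' t) (hu (-t))
  have hugrp : IsGrp u := by
    refine ⟨hu0, ?_, hustar, fun F => ch_cont F u hu⟩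
    intro s t
    have e1 := mul_mul (hu s) (hu t)
    have e2 : (fun x => ch s x * ch t x) = ch (s + t) := by
      funext x
      unfold ch
      rw [← Complex.exp_add]
      congr 1
      push_cast
      ring
    rw [e2] at e1
    exact mul_unique (hu _) e1
  obtain ⟨Y₄, hY₄, hY₄u, hY₄c⟩ := h2 (LR H) P₀ M₀ hle u hugrp Y₃ hY₃M (by
    intro κ hκ
    rcases hκ.eq_or_lt with h | h
    · rw [← h, hu0, star_one, one_mul, mul_one]
      exact (KS Y₃ hY₃M).1
    · exact h3 H N M ξ U J E hI P₀ M₀ hmod hfac Y₃ hY₃M c3 (Real.exp (-κ)) (Real.exp_pos _)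
        (by
          have e1 := Real.exp_lt_exp.2 (show -κ < 0 by linarith)
          rwa [Real.exp_zero] at e1) (u κ) (hul κ))
  have c4 : ∀ (x : H →L[ℂ] H) (S : LR H →L[ℂ] LR H), IsConst x S → S * Y₄ = Y₄ * S := by
    intro x S hS
    refine hY₄c S fun κ _ => ?_
    have e1 := c3 x S hS
    have e2 := mul_const (hu κ) hS
    have e3 := mul_const (hu' κ) hS
    calc S * (star (u κ) * Y₃ * u κ) = (S * star (u κ)) * Y₃ * u κ := by simp only [mul_assoc]
      _ = star (u κ) * (S * Y₃) * u κ := by rw [e3]; simp only [mul_assoc]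
      _ = star (u κ) * Y₃ * (S * u κ) := by rw [e1]; simp only [mul_assoc]
      _ = star (u κ) * Y₃ * u κ * S := by rw [e2]; simp only [mul_assoc]
  have c5 : ∀ t : ℝ, R t * Y₄ = Y₄ * R t := by
    intro t
    refine hY₄c (R t) fun κ _ => ?_
    have e1 : R t * Y₃ = Y₃ * R t := (hY₃R t).symm
    have e2 := ch_shift (hu κ) t
    have e3 := ch_shift (hu' κ) t
    have e4 : ch (-κ) (-t) * ch κ (-t) = 1 := by
      unfold ch
      rw [← Complex.exp_add, ← Complex.exp_zero]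
      congr 1
      push_cast
      ring
    calc R t * (star (u κ) * Y₃ * u κ) = (R t * star (u κ)) * Y₃ * u κ := by
          simp only [mul_assoc]
      _ = ch (-κ) (-t) • (star (u κ) * (R t * Y₃) * u κ) := by
          rw [e3]
          simp only [smul_mul_assoc, mul_assoc]
      _ = ch (-κ) (-t) • (star (u κ) * Y₃ * (R t * u κ)) := by
          rw [e1]
          simp only [mul_assoc]
      _ = (ch (-κ) (-t) * ch κ (-t)) • (star (u κ) * Y₃ * u κ * R t) := by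
          rw [e2]
          simp only [mul_smul_comm, smul_smul, mul_assoc]
      _ = star (u κ) * Y₃ * u κ * R t := by rw [e4, one_smul]
  -- step 4
  obtain ⟨c, hc⟩ := h4 H Y₄ c4 (by
    intro t S hS
    rw [Pool.Agent.W509.CB.shift_unique hS (R_shift t)]
    exact c5 t) (by
    intro lam hl S hS
    unfold IsULam at hS
    rw [ch_ulam] at hS
    rw [mul_unique hS (hu (-Real.log lam))]
    exact (hY₄u _).symm)
  refine ⟨c, ?_⟩
  rw [← hc]
  exact KN_trans P₀ M₀ hle hX hY₂ (KN_trans P₀ M₀ hle hY₂M hY₃ hY₄)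

end

end Pool.Agent.H255.BC.D_dxm
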