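import Pool.Agent.H255.BC.All5
import Pool.Agent.H255.BC.D_dvn
import Pool.Agent.H255.BC.D_dmk
import Pool.Agent.H255.BC.D_dcb
import Pool.Agent.H255.BC.D_diso
import Pool.Agent.H255.BC.D_dmin
import Pool.Agent.H255.BC.D_dpa
import Pool.Agent.H255.BC.D_daav
import Pool.Agent.H255.BC.D_dscl
import Pool.Agent.H255.BC.D_dirr
import Pool.Agent.H255.BC.D_dxm
import Pool.Agent.H255.BC.D_dxh

/-!
The weak relative Dixmier property (assembly, helper255).
-/

set_option autoImplicit false

namespace Pool.Agent.H255.BC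

open Pool.Agent.W662.CB

theorem hdvn : S_dvn := D_dvn.r hops
theorem hdmk : S_dmk := D_dmk.r
theorem hdcb : S_dcb := D_dcb.r
theorem hdiso : S_diso := D_diso.r hdcb
theorem hdmin : S_dmin := D_dmin.r
theorem hdpa : S_dpa := D_dpa.r hnear
theorem hdaav : S_daav := D_daav.r hdmin hdpa hBchar hgen hops hbas
theorem hdscl : S_dscl := D_dscl.r hdiso hnear hgen hops
theorem hdirr : S_dirr := D_dirr.r
theorem hdxm : S_dxm := D_dxm.r hdaav hdmk hdscl hdirr hgen hops
theorem hdxh : S_dxh := D_dxh.r hdxm hspat htrp hflow hinc3 hinc2 hdvn hops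

end Pool.Agent.H255.BC
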