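import Pool.Agent.H255.BC.Defs9
import Pool.Agent.H255.BC.D_dscl
import Pool.Agent.H255.BC.D_dxm
import Pool.Graph.R_pool_sql_team_seeded_f72693b1.W196.WD.CPT

set_option autoImplicit false

open MeasureTheory Filter Topology Complex
open scoped InnerProductSpace ENNReal

namespace Pool.Agent.H255.BC.E_eact

open Pool.Agent.W662.CB Pool.Agent.W988.WD Pool.Agent.H255.BC

open Pool.Agent.H255.BC.R_slbeta (lemB iso_norm iso_opnorm)
open Pool.Agent.H255.BC.D_dscl (sep_LR)
open Pool.Agent.H255.BC.D_dxm (R R_shift R_add R_star R_zero mul_unique mul_const ch ch_ulam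
  ch_norm ch_shift zero_of_slices)

section

variable {H K : Type} [NormedAddCommGroup K] [InnerProductSpace ℂ K] [CompleteSpace K]
  [NormedAddCommGroup H] [InnerProductSpace ℂ H] [CompleteSpace H]

theorem comm_aux (A : K →L[ℂ] H) (V Z : K →L[ℂ] K) (T : H →L[ℂ] K) (h : V * Z = Z * V) :
    (A ∘L V) ∘L Z ∘L T = A ∘L Z ∘L V ∘L T := by
  ext z
  exact congrArg (fun B : K →L[ℂ] K => A (B (T z))) h

theorem slice_inner (Tf Tg : H →L[ℂ] K) (D : K →L[ℂ] K) (u w : H) :
    ⟪u, (ContinuousLinearMap.adjoint Tf ∘L D ∘L Tg) w⟫_ℂ = ⟪Tf u, D (Tg w)⟫_ℂ := by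
  change ⟪u, ContinuousLinearMap.adjoint Tf (D (Tg w))⟫_ℂ = _
  rw [ContinuousLinearMap.adjoint_inner_right]

theorem slice_inner2 (Tf Tg : H →L[ℂ] K) (S Y : K →L[ℂ] K) (u w : H) :
    ⟪u, (ContinuousLinearMap.adjoint Tf ∘L (star S * Y * S) ∘L Tg) w⟫_ℂ =
      ⟪S (Tf u), Y (S (Tg w))⟫_ℂ := by
  rw [slice_inner]
  change ⟪Tf u, star S (Y (S (Tg w)))⟫_ℂ = _
  rw [ContinuousLinearMap.star_eq_adjoint, ContinuousLinearMap.adjoint_inner_right]

theorem slice_conj (Tf Tg : H →L[ℂ] K) (S Y : K →L[ℂ] K) :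
    ContinuousLinearMap.adjoint (S ∘L Tf) ∘L Y ∘L (S ∘L Tg) =
      ContinuousLinearMap.adjoint Tf ∘L (star S * Y * S) ∘L Tg := by
  rw [ContinuousLinearMap.adjoint_comp, ← ContinuousLinearMap.star_eq_adjoint S]
  rfl

theorem slice_comm (Tf Tg : H →L[ℂ] K) (D V : K →L[ℂ] K)
    (h : ContinuousLinearMap.adjoint Tf ∘L D ∘L (V ∘L Tg) =
      (ContinuousLinearMap.adjoint Tf ∘L V) ∘L D ∘L Tg) (w : H) :
    ContinuousLinearMap.adjoint Tf ((D * V - V * D) (Tg w)) = 0 := by
  have a4 := DFunLike.congr_fun h w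
  change ContinuousLinearMap.adjoint Tf (D (V (Tg w)) - V (D (Tg w))) = 0
  rw [map_sub]
  exact sub_eq_zero.2 a4

end

/-- limits of the matrix entries -/
theorem lim_inner2 {K : Type} [NormedAddCommGroup K] [InnerProductSpace ℂ K] [CompleteSpace K]
    (P : ℕ → K →L[ℂ] K) (Y : K →L[ℂ] K) (a b : K) (ca cb : ℕ → K) (r : ℝ) (L : ℂ)
    (ha : Tendsto (fun k => P k a - ca k) atTop (𝓝 0))
    (hb : Tendsto (fun k => P k b - cb k) atTop (𝓝 0)) (hca : ∀ k, ‖ca k‖ ≤ r)
    (hPn : ∀ k, ‖P k‖ ≤ 1) (hL : Tendsto (fun k => ⟪ca k, Y (cb k)⟫_ℂ) atTop (𝓝 L)) :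
    Tendsto (fun k => ⟪a, (star (P k) * Y * P k) b⟫_ℂ) atTop (𝓝 L) := by
  have e1 : ∀ k, ⟪a, (star (P k) * Y * P k) b⟫_ℂ = ⟪ca k, Y (cb k)⟫_ℂ +
      (⟪P k a - ca k, Y (P k b)⟫_ℂ + ⟪ca k, Y (P k b - cb k)⟫_ℂ) := by
    intro k
    have a1 : ⟪a, (star (P k) * Y * P k) b⟫_ℂ = ⟪P k a, Y (P k b)⟫_ℂ := by
      rw [mul_assoc, mul_apply_eq_comp, ContinuousLinearMap.star_eq_adjoint,
        ContinuousLinearMap.adjoint_inner_right, mul_apply_eq_comp]
    rw [a1, inner_sub_left, map_sub, inner_sub_right]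
    ring
  simp only [e1]
  have t1 : Tendsto (fun k => ⟪P k a - ca k, Y (P k b)⟫_ℂ) atTop (𝓝 0) := by
    refine squeeze_zero_norm (a := fun k => ‖P k a - ca k‖ * (‖Y‖ * ‖b‖)) (fun k => ?_) ?_
    · refine (norm_inner_le_norm _ _).trans (mul_le_mul_of_nonneg_left ?_ (norm_nonneg _))
      refine (Y.le_opNorm _).trans (mul_le_mul_of_nonneg_left ?_ (norm_nonneg _))
      exact ((P k).le_opNorm _).trans (by nlinarith [hPn k, norm_nonneg b])
    · have := ha.norm.mul_const (‖Y‖ * ‖b‖)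
      rwa [norm_zero, zero_mul] at this
  have t2 : Tendsto (fun k => ⟪ca k, Y (P k b - cb k)⟫_ℂ) atTop (𝓝 0) := by
    refine squeeze_zero_norm (a := fun k => r * (‖Y‖ * ‖P k b - cb k‖)) (fun k => ?_) ?_
    · refine (norm_inner_le_norm _ _).trans ?_
      exact mul_le_mul (hca k) (Y.le_opNorm _) (norm_nonneg _) ((norm_nonneg _).trans (hca k))
    · have := (hb.norm.const_mul ‖Y‖).const_mul r
      rwa [norm_zero, mul_zero, mul_zero] at this
  have := hL.add (t1.add t2)
  rwa [add_zero, add_zero] at this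

section

variable {H : Type} [NormedAddCommGroup H] [InnerProductSpace ℂ H] [CompleteSpace H]

theorem ten_mul {g f : ℝ → ℂ} {S : LR H →L[ℂ] LR H} {T : H →L[ℂ] LR H} (hS : IsMulOp g S)
    (hT : IsTen f T) : IsTen (fun s => g s * f s) (S ∘L T) := by
  intro v
  change (S (T v) : ℝ → H) =ᵐ[volume] _
  filter_upwards [hS (T v), hT v] with s h1 h2
  rw [h1, h2, smul_smul]

theorem ten_shift {t : ℝ} {f : ℝ → ℂ} {S : LR H →L[ℂ] LR H} {T : H →L[ℂ] LR H}
    (hS : IsShift t S) (hT : IsTen f T) : IsTen (fun s => f (s - t)) (S ∘L T) := by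
  intro v
  exact (hS (T v)).trans (Pool.Agent.W509.CB.shift_ae t (hT v))

theorem memLp_ch {f : ℝ → ℂ} (hf : MemLp f 2 (volume : Measure ℝ)) (κ : ℝ) :
    MemLp (fun s => ch κ s * f s) 2 (volume : Measure ℝ) := by
  refine hf.of_le ?_ (Eventually.of_forall fun s => ?_)
  · refine AEStronglyMeasurable.mul (Continuous.aestronglyMeasurable ?_) hf.1
    unfold ch
    fun_prop
  · rw [norm_mul, ch_norm, one_mul]

theorem memLp_shift {f : ℝ → ℂ} (hf : MemLp f 2 (volume : Measure ℝ)) (t : ℝ) :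
    MemLp (fun s => f (s - t)) 2 (volume : Measure ℝ) :=
  hf.comp_measurePreserving (measurePreserving_sub_right volume t)

end

theorem r (h1 : S_eblv) (h2 : S_diso) (h3 : S_near) (h4 : S_gen) (h5 : S_ops) : S_eact := by
  intro H _ _ _ _ N M ξ U J E β hI hβ P₀ M₀ hmod hfac Y hYM hYS hYsh lam hl0 hl1
  have := sep_LR H
  have hU := hI.modular
  have hJ := hI.conj
  choose v hv using fun k : ℕ => hI.scal lam (1 / ((k : ℝ) + 1)) hl0 hl1 (by positivity)
  have hvN : ∀ k, v k ∈ N := fun k => (hv k).1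
  have hvM : ∀ k, v k ∈ M := fun k => hI.le _ (hvN k)
  have hvi : ∀ k, star (v k) * v k = 1 := fun k => (hv k).2.1
  have hve : Tendsto (fun k => J (star (v k) ξ) - ((Real.sqrt lam : ℝ) : ℂ) • v k ξ) atTop
      (𝓝 0) := by
    refine squeeze_zero_norm (fun k => (hv k).2.2) ?_
    exact tendsto_one_div_add_atTop_nhds_zero_nat
  obtain ⟨-, hops2, hops3, hten, -, hlam⟩ := h5 H M ξ U hU
  choose P hP hPn hPs using fun k => hops2 (v k)
  choose C hC hCn hCs using fun k => hops3 (v k)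
  obtain ⟨S, hS, hSi, hSi', hSs⟩ := hlam lam hl0
  have hB := lemB h3 hU hJ hI.cyc lam hl0 v hvM hvi hve S hS P C hP hC
  -- the characters
  set κ : ℝ := -Real.log lam with hκ
  have hSc : IsMulOp (ch κ) S := by
    unfold IsULam at hS
    rw [ch_ulam] at hS
    exact hS
  have hSc' : IsMulOp (ch (-κ)) (star S) := by
    unfold IsULam at hSs
    rw [ch_ulam, Real.log_inv] at hSs
    exact hSs
  -- the operators are isometries
  have hPi : ∀ k, star (P k) * P k = 1 := by
    intro k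
    refine ContinuousLinearMap.ext fun f => Lp.ext ?_
    filter_upwards [hPs k (P k f), hP k f] with s b1 b2
    rw [mul_apply_eq_comp, b1, b2, one_apply_eq_self]
    have e1 : sgm U (-s) (star (v k)) (sgm U (-s) (v k) (f s)) =
        (sgm U (-s) (star (v k)) * sgm U (-s) (v k)) (f s) := rfl
    rw [e1]
    have e2 : sgm U (-s) (star (v k)) * sgm U (-s) (v k) = 1 := by
      simp only [sgm]
      have e3 : star (U (-s)) * U (-s) = 1 := by
        rw [hU.star_eq, ← hU.add]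
        simp [hU.zero]
      have e4 : U (-s) * star (U (-s)) = 1 := by
        rw [hU.star_eq, ← hU.add]
        simp [hU.zero]
      calc U (-s) * star (v k) * star (U (-s)) * (U (-s) * v k * star (U (-s)))
          = U (-s) * star (v k) * (star (U (-s)) * U (-s)) * v k * star (U (-s)) := by
            simp only [mul_assoc]
        _ = U (-s) * (star (v k) * v k) * star (U (-s)) := by
            rw [e3]; simp only [mul_assoc, one_mul]
        _ = 1 := by rw [hvi, mul_one, e4]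
    rw [e2, one_apply_eq_self]
  have hPmem : ∀ k, P k ∈ P₀ := fun k =>
    (hmod.memP _).2 ((h4 H N M ξ U J E hI.toInc).1 (v k) (hvN k) (P k) (hP k))
  have hPn1 : ∀ k, ‖P k‖ ≤ 1 := fun k => iso_opnorm _ (hPi k)
  have hKN : ∀ k, star (P k) * Y * P k ∈ KN P₀ Y := fun k =>
    h2 (LR H) P₀ hfac (P k) (hPmem k) (hPi k) Y
  obtain ⟨-, hK2, -, -, hK5⟩ := Pool.Agent.W481.WD.p_KSET (LR H) P₀ M₀ hmod.le Y hYM
  -- the limit
  obtain ⟨D, -, hD⟩ := Pool.Agent.W196.WD.exists_wlim (Filter.hyperfilter ℕ)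
    (fun k => star (P k) * Y * P k) ‖Y‖ (fun k => (hK2 _ (hKN k)).2)
  have hDK : D ∈ KN P₀ Y := hK5 ℕ (Filter.hyperfilter ℕ) _ D hKN hD
  -- the slices of the limit
  have hsl : ∀ (f g : ℝ → ℂ) (Tf Tg : H →L[ℂ] LR H), MemLp f 2 (volume : Measure ℝ) →
      MemLp g 2 (volume : Measure ℝ) → IsTen f Tf → IsTen g Tg →
      ContinuousLinearMap.adjoint Tf ∘L D ∘L Tg =
        β lam (ContinuousLinearMap.adjoint Tf ∘L (star S * Y * S) ∘L Tg) := by
    intro f g Tf Tg hf hg hTf hTg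
    have hX : ContinuousLinearMap.adjoint Tf ∘L (star S * Y * S) ∘L Tg ∈
        relBicentralizer N M ξ := by
      have e := hYS _ _ _ _ (memLp_ch hf κ) (memLp_ch hg κ) (ten_mul hSc hTf) (ten_mul hSc hTg)
      rw [slice_conj] at e
      exact e
    set X : H →L[ℂ] H := ContinuousLinearMap.adjoint Tf ∘L (star S * Y * S) ∘L Tg with hXd
    have hlimX := h1 H N M ξ U J E β hI.toInc hβ lam v hl0 hl1 hv X hX
    ext w
    refine ext_inner_left ℂ fun u => ?_
    have t1 : Tendsto (fun k => ⟪Tf u, (star (P k) * Y * P k) (Tg w)⟫_ℂ) atTop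
        (𝓝 ⟪u, β lam X w⟫_ℂ) := by
      refine lim_inner2 P Y (Tf u) (Tg w) (fun k => C k (S (Tf u))) (fun k => C k (S (Tg w)))
        (‖S (Tf u)‖) _ (hB (Tf u)) (hB (Tg w)) (fun k => ?_) hPn1 ?_
      · refine ((C k).le_opNorm _).trans ?_
        refine mul_le_of_le_one_left (norm_nonneg _) ((hCn k).trans (iso_opnorm _ (hvi k)))
      · have e : ∀ k, ⟪C k (S (Tf u)), Y (C k (S (Tg w)))⟫_ℂ =
            ⟪u, star (v k) (X (v k w))⟫_ℂ := by
          intro k
          have c1 : ∀ F : LR H, C k (S F) = S (C k F) := fun F =>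
            DFunLike.congr_fun (mul_const hSc (hC k)) F
          rw [c1, c1, Pool.Agent.H321.BC.ten_const hTf (hC k),
            Pool.Agent.H321.BC.ten_const hTg (hC k), ContinuousLinearMap.star_eq_adjoint (v k),
            ContinuousLinearMap.adjoint_inner_right]
          rw [hXd, slice_inner2]
        simp only [e]
        exact tendsto_const_nhds.inner (hlimX w)
    have t2 : Tendsto (fun k => ⟪Tf u, (star (P k) * Y * P k) (Tg w)⟫_ℂ)
        (Filter.hyperfilter ℕ : Filter ℕ) (𝓝 ⟪Tf u, D (Tg w)⟫_ℂ) := hD (Tg w) (Tf u)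
    have t3 := tendsto_nhds_unique (t1.mono_left Nat.hyperfilter_le_atTop) t2
    rw [slice_inner, ← t3]
  -- `star S * Y * S` commutes with the translations
  have hcom : ∀ t : ℝ, R t * (star S * Y * S) = (star S * Y * S) * R t := by
    intro t
    have e1 : R t * Y = Y * R t := (hYsh t (R t) (R_shift t)).symm
    have e2 := ch_shift hSc t
    have e3 := ch_shift hSc' t
    have e4 : ch (-κ) (-t) * ch κ (-t) = 1 := by
      unfold ch
      rw [← Complex.exp_add, ← Complex.exp_zero]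
      congr 1
      push_cast
      ring
    calc R t * (star S * Y * S) = (R t * star S) * Y * S := by
          simp only [mul_assoc]
      _ = ch (-κ) (-t) • (star S * (R t * Y) * S) := by
          rw [e3]
          simp only [smul_mul_assoc, mul_assoc]
      _ = ch (-κ) (-t) • (star S * Y * (R t * S)) := by
          rw [e1]
          simp only [mul_assoc]
      _ = (ch (-κ) (-t) * ch κ (-t)) • (star S * Y * S * R t) := by
          rw [e2]
          simp only [mul_smul_comm, smul_smul, mul_assoc]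
      _ = star S * Y * S * R t := by rw [e4, one_smul]
  refine ⟨D, hDK, ?_, ?_⟩
  · intro t S₀ hS₀
    rw [Pool.Agent.W509.CB.shift_unique hS₀ (R_shift t)]
    refine sub_eq_zero.1 (zero_of_slices hten _ ?_)
    intro f g Tf Tg hf hg hTf hTg w
    have a1 := hsl _ _ Tf (R t ∘L Tg) hf (memLp_shift hg t) hTf (ten_shift (R_shift t) hTg)
    have a2 := hsl _ _ (R (-t) ∘L Tf) Tg (memLp_shift hf (-t)) hg
      (ten_shift (R_shift (-t)) hTf) hTg
    have e0 : ContinuousLinearMap.adjoint (R (H := H) (-t)) = R t := by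
      rw [← ContinuousLinearMap.star_eq_adjoint, R_star, neg_neg]
    rw [ContinuousLinearMap.adjoint_comp, e0] at a2
    rw [comm_aux _ _ _ _ (hcom t)] at a2
    exact slice_comm Tf Tg D (R t) (a1.trans a2.symm) w
  · intro S' hS' f g Tf Tg hf hg hTf hTg
    rw [mul_unique hS' hS]
    exact hsl f g Tf Tg hf hg hTf hTg

end Pool.Agent.H255.BC.E_eact
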