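import Pool.Agent.H255.BC.Defs9
import Pool.Agent.H255.BC.D_dxm
import Pool.Agent.H255.BC.D_dmk
import Pool.Agent.H255.BC.R_slbeta
set_option autoImplicit false

open MeasureTheory Filter Topology Complex
open scoped InnerProductSpace ENNReal

namespace Pool.Agent.H255.BC.E_eavg

open Pool.Agent.W662.CB Pool.Agent.W988.WD Pool.Agent.H255.BC

noncomputable section

variable {H : Type} [NormedAddCommGroup H] [InnerProductSpace ℂ H] [CompleteSpace H]

lemma rsmul {K : Type} [NormedAddCommGroup K] [InnerProductSpace ℂ K] [CompleteSpace K]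
    (c : ℝ) (x : K →L[ℂ] K) : c • x = ((c : ℝ) : ℂ) • x := (Complex.coe_smul c x).symm

/-- the slice -/
def sl (A B : H →L[ℂ] LR H) (X : LR H →L[ℂ] LR H) : H →L[ℂ] H :=
  ContinuousLinearMap.adjoint A ∘L X ∘L B

lemma sl_inner (A B : H →L[ℂ] LR H) (X : LR H →L[ℂ] LR H) (v w : H) :
    ⟪v, sl A B X w⟫_ℂ = ⟪A v, X (B w)⟫_ℂ := by
  show ⟪v, ContinuousLinearMap.adjoint A (X (B w))⟫_ℂ = _
  rw [ContinuousLinearMap.adjoint_inner_right]

lemma sl_sum (A B : H →L[ℂ] LR H) (s : Finset ℕ) (c : ℂ) (X : ℕ → LR H →L[ℂ] LR H) :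
    sl A B (∑ i ∈ s, c • X i) = ∑ i ∈ s, c • sl A B (X i) := by
  refine ContinuousLinearMap.ext fun v => ext_inner_left ℂ fun w => ?_
  rw [sl_inner, sum_apply, sum_apply, inner_sum, inner_sum]
  refine Finset.sum_congr rfl fun i _ => ?_
  rw [smul_apply, smul_apply, inner_smul_right,
    inner_smul_right, sl_inner]

lemma sl_comp (A B : H →L[ℂ] LR H) (S T X : LR H →L[ℂ] LR H) :
    sl (S ∘L A) (T ∘L B) X = sl A B (star S * X * T) := by
  refine ContinuousLinearMap.ext fun v => ext_inner_left ℂ fun w => ?_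
  rw [sl_inner, sl_inner, mul_assoc]
  show ⟪S (A w), X (T (B v))⟫_ℂ = ⟪A w, star S (X (T (B v)))⟫_ℂ
  rw [ContinuousLinearMap.star_eq_adjoint, ContinuousLinearMap.adjoint_inner_right]

lemma sl_norm (A B : H →L[ℂ] LR H) (X : LR H →L[ℂ] LR H) (v : H) :
    ‖sl A B X v‖ ≤ ‖A‖ * (‖X‖ * (‖B‖ * ‖v‖)) := by
  show ‖ContinuousLinearMap.adjoint A (X (B v))‖ ≤ _
  refine (ContinuousLinearMap.le_opNorm _ _).trans ?_
  rw [LinearIsometryEquiv.norm_map]
  gcongr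
  refine (ContinuousLinearMap.le_opNorm _ _).trans ?_
  gcongr
  exact ContinuousLinearMap.le_opNorm _ _

lemma beta_sum {N M : VonNeumannAlgebra H} {ξ : H} {β : ℝ → (H →L[ℂ] H) → (H →L[ℂ] H)}
    (hβ : IsBicFlow N M ξ β) {B : VonNeumannAlgebra H}
    (hB : ∀ b : H →L[ℂ] H, b ∈ B ↔ b ∈ relBicentralizer N M ξ) {lam : ℝ} (hl : 0 < lam) (c : ℂ)
    (x : ℕ → H →L[ℂ] H) (hx : ∀ i, x i ∈ relBicentralizer N M ξ) (s : Finset ℕ) :
    (∑ i ∈ s, c • x i) ∈ relBicentralizer N M ξ ∧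
      β lam (∑ i ∈ s, c • x i) = ∑ i ∈ s, c • β lam (x i) := by
  classical
  induction s using Finset.induction_on with
  | empty =>
    have h0 : (0 : H →L[ℂ] H) ∈ relBicentralizer N M ξ := (hB _).1 (zero_mem B)
    refine ⟨by simpa using h0, ?_⟩
    rw [Finset.sum_empty, Finset.sum_empty]
    have := hβ.smul lam hl 0 0 h0
    rwa [zero_smul, zero_smul] at this
  | insert a s ha ih =>
    have h1 : c • x a ∈ relBicentralizer N M ξ :=
      (hB _).1 (B.toStarSubalgebra.smul_mem ((hB _).2 (hx a)) c)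
    rw [Finset.sum_insert ha, Finset.sum_insert ha]
    refine ⟨(hB _).1 (add_mem ((hB _).2 h1) ((hB _).2 ih.1)), ?_⟩
    rw [hβ.add lam hl _ h1 _ ih.1, ih.2, hβ.smul lam hl c _ (hx a)]

theorem r (h1 : S_Bvn) (h2 : S_betaE) (h3 : S_ops) : S_eavg := by
  intro H _ _ _ N M ξ U J E β hI hβ P₀ M₀ hmod Y hYM hYs hD
  obtain ⟨B, hB⟩ := h1 H N M ξ U J E hI.toInc
  have hE : ∀ lam : ℝ, 0 < lam → ∀ b ∈ relBicentralizer N M ξ, ∀ c ∈ relBicentralizer N M ξ,
      ⟪β lam b ξ, β lam c ξ⟫_ℂ = ⟪b ξ, c ξ⟫_ℂ := fun lam hl b hb =>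
    ((h2 H N M ξ U J E β hI hβ).2 lam hl b hb).2
  obtain ⟨-, -, -, -, -, hlam⟩ := h3 H M ξ U hI.modular
  have hex : ∀ κ : ℝ, ∃ S : LR H →L[ℂ] LR H, IsMulOp (D_dxm.ch κ) S ∧
      IsMulOp (D_dxm.ch (-κ)) (star S) ∧ IsULam (Real.exp (-κ)) S := by
    intro κ
    obtain ⟨S, e1, -, -, e2⟩ := hlam (Real.exp (-κ)) (Real.exp_pos _)
    refine ⟨S, ?_, ?_, e1⟩
    · unfold IsULam at e1
      rw [D_dxm.ch_ulam, Real.log_exp, neg_neg] at e1
      exact e1
    · unfold IsULam at e2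
      rw [D_dxm.ch_ulam, Real.log_inv, Real.log_exp, neg_neg] at e2
      exact e2
  choose V hV hV' hVl using hex
  have hV0 : V 0 = 1 := by
    refine D_dxm.mul_unique (hV 0) ?_
    intro f
    refine Eventually.of_forall fun s => ?_
    simp [D_dxm.ch]
  have hVstar : ∀ t : ℝ, star (V t) = V (-t) := fun t => D_dxm.mul_unique (hV' t) (hV (-t))
  have hVadd : ∀ s t : ℝ, V (s + t) = V s * V t := by
    intro s t
    have e1 := D_dxm.mul_mul (hV s) (hV t)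
    have e2 : (fun x => D_dxm.ch s x * D_dxm.ch t x) = D_dxm.ch (s + t) := by
      funext x
      unfold D_dxm.ch
      rw [← Complex.exp_add]
      congr 1
      push_cast
      ring
    rw [e2] at e1
    exact D_dxm.mul_unique (hV _) e1
  have hVu : ∀ (κ : ℝ) (S : LR H →L[ℂ] LR H), IsULam (Real.exp (-κ)) S → S = V κ :=
    fun κ S hS => R_slbeta.ulam_unique hS (hVl κ)
  have hVi : ∀ κ : ℝ, star (V κ) * V κ = 1 := by
    intro κ
    rw [hVstar, ← hVadd, neg_add_cancel, hV0]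
  have hVn : ∀ κ : ℝ, ‖V κ‖ ≤ 1 := fun κ =>
    ContinuousLinearMap.opNorm_le_bound _ zero_le_one fun w => by
      have h : ⟪V κ w, V κ w⟫_ℂ = ⟪w, w⟫_ℂ := by
        rw [← ContinuousLinearMap.adjoint_inner_right, ← ContinuousLinearMap.star_eq_adjoint]
        show ⟪w, (star (V κ) * V κ) w⟫_ℂ = _
        rw [hVi]
        rfl
      rw [inner_self_eq_norm_sq_to_K, inner_self_eq_norm_sq_to_K] at h
      have h2 : ‖V κ w‖ ^ 2 = ‖w‖ ^ 2 := by exact_mod_cast h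
      rw [one_mul]
      exact ((sq_eq_sq₀ (norm_nonneg _) (norm_nonneg _)).1 h2).le
  have hVY : ∀ κ : ℝ, ‖star (V κ) * Y * V κ‖ ≤ ‖Y‖ := by
    intro κ
    calc ‖star (V κ) * Y * V κ‖ ≤ ‖star (V κ)‖ * ‖Y‖ * ‖V κ‖ :=
          (norm_mul_le _ _).trans (by gcongr; exact norm_mul_le _ _)
      _ ≤ 1 * ‖Y‖ * 1 := by
          rw [hVstar]
          gcongr
          · exact hVn (-κ)
          · exact hVn κ
      _ = ‖Y‖ := by ring
  -- tensors
  have hVten : ∀ (κ : ℝ) (f : ℝ → ℂ) (T : H →L[ℂ] LR H), IsTen f T →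
      IsTen (fun s => D_dxm.ch κ s * f s) (V κ ∘L T) := by
    intro κ f T hT v
    filter_upwards [hV κ (T v), hT v] with s e1 e2
    show (V κ (T v) : ℝ → H) s = _
    rw [e1, e2, smul_smul]
  have hVLp : ∀ (κ : ℝ) (f : ℝ → ℂ), MemLp f 2 (volume : Measure ℝ) →
      MemLp (fun s => D_dxm.ch κ s * f s) 2 (volume : Measure ℝ) := by
    intro κ f hf
    refine hf.of_le ?_ ?_
    · refine AEStronglyMeasurable.mul ?_ hf.1
      refine Continuous.aestronglyMeasurable ?_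
      unfold D_dxm.ch
      fun_prop
    · refine Eventually.of_forall fun s => ?_
      rw [norm_mul, D_dxm.ch_norm, one_mul]
  have hymem : ∀ (κ : ℝ) (f g : ℝ → ℂ) (Tf Tg : H →L[ℂ] LR H), MemLp f 2 (volume : Measure ℝ) →
      MemLp g 2 (volume : Measure ℝ) → IsTen f Tf → IsTen g Tg →
      sl Tf Tg (star (V κ) * Y * V κ) ∈ relBicentralizer N M ξ := by
    intro κ f g Tf Tg hf hg hTf hTg
    rw [← sl_comp]
    exact hYs _ _ _ _ (hVLp κ f hf) (hVLp κ g hg) (hVten κ f Tf hTf) (hVten κ g Tg hTg)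
  -- the averages
  have hlt : ∀ n i : ℕ, 0 < ((i : ℝ) + 1) / 2 ^ n := fun n i => by positivity
  have hD' : ∀ n i : ℕ, ∃ D : LR H →L[ℂ] LR H, D ∈ KN P₀ Y ∧ ShCom D ∧
      SlAct β (Real.exp (-(((i : ℝ) + 1) / 2 ^ n))) Y D := fun n i =>
    hD _ (Real.exp_pos _) (by
      have e1 := Real.exp_lt_exp.2 (show -(((i : ℝ) + 1) / 2 ^ n) < 0 by linarith [hlt n i])
      rwa [Real.exp_zero] at e1)
  choose D hDK hDS hDA using hD'
  obtain ⟨-, hK1, hK2, -, hK3⟩ := Pool.Agent.W481.WD.p_KSET (LR H) P₀ M₀ hmod.le Y hYM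
  set c : ℕ → ℝ := fun n => 1 / 4 ^ n with hc
  set A : ℕ → LR H →L[ℂ] LR H := fun n => ∑ i ∈ Finset.range (4 ^ n), c n • D n i with hA
  have hAK : ∀ n, A n ∈ KN P₀ Y := by
    intro n
    refine hK2.sum_mem (fun j _ => by positivity) ?_ (fun j _ => hDK n j)
    rw [Finset.sum_const, Finset.card_range, nsmul_eq_mul, hc]
    push_cast
    field_simp
  have hAn : ∀ n, ‖A n‖ ≤ ‖Y‖ := fun n => (hK1 _ (hAK n)).2
  obtain ⟨Z, -, hZ⟩ := (Pool.Agent.W196.WD.p_CPT (LR H) ℕ (hyperfilter ℕ) A).1 ‖Y‖ hAn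
  have hZK : Z ∈ KN P₀ Y := hK3 ℕ (hyperfilter ℕ) A Z hAK hZ
  have hle : ((hyperfilter ℕ : Ultrafilter ℕ) : Filter ℕ) ≤ atTop := Nat.hyperfilter_le_atTop
  have hAc : ∀ n, A n = ∑ i ∈ Finset.range (4 ^ n), ((c n : ℝ) : ℂ) • D n i := by
    intro n
    rw [hA]
    exact Finset.sum_congr rfl fun i _ => rsmul _ _
  have hslA : ∀ (n : ℕ) (f g : ℝ → ℂ) (Tf Tg : H →L[ℂ] LR H), MemLp f 2 (volume : Measure ℝ) →
      MemLp g 2 (volume : Measure ℝ) → IsTen f Tf → IsTen g Tg →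
      sl Tf Tg (A n) = ∑ i ∈ Finset.range (4 ^ n), ((c n : ℝ) : ℂ) •
        β (Real.exp (-(((i : ℝ) + 1) / 2 ^ n)))
          (sl Tf Tg (star (V (((i : ℝ) + 1) / 2 ^ n)) * Y * V (((i : ℝ) + 1) / 2 ^ n))) := by
    intro n f g Tf Tg hf hg hTf hTg
    rw [hAc, sl_sum]
    refine Finset.sum_congr rfl fun i _ => ?_
    congr 1
    exact hDA n i (V _) (hVl _) f g Tf Tg hf hg hTf hTg
  have hslmem : ∀ (n : ℕ) (f g : ℝ → ℂ) (Tf Tg : H →L[ℂ] LR H), MemLp f 2 (volume : Measure ℝ) →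
      MemLp g 2 (volume : Measure ℝ) → IsTen f Tf → IsTen g Tg →
      sl Tf Tg (A n) ∈ relBicentralizer N M ξ := by
    intro n f g Tf Tg hf hg hTf hTg
    rw [hslA n f g Tf Tg hf hg hTf hTg]
    exact (beta_sum hβ hB one_pos _ _ (fun i => hβ.mem _ (Real.exp_pos _) _
      (hymem _ f g Tf Tg hf hg hTf hTg)) _).1
  have hslim : ∀ (Tf Tg : H →L[ℂ] LR H) (v w : H),
      Tendsto (fun n => ⟪w, sl Tf Tg (A n) v⟫_ℂ) ((hyperfilter ℕ : Ultrafilter ℕ) : Filter ℕ)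
        (𝓝 ⟪w, sl Tf Tg Z v⟫_ℂ) := by
    intro Tf Tg v w
    simp only [sl_inner]
    exact hZ (Tg v) (Tf w)
  have hZs : SliceIn N M ξ Z := by
    intro f g Tf Tg hf hg hTf hTg
    exact (hB _).1 ((Pool.Agent.W196.WD.p_CPT H ℕ (hyperfilter ℕ)
      (fun n => sl Tf Tg (A n))).2 (sl Tf Tg Z) (fun v w => hslim Tf Tg v w) B
      (fun n => (hB _).2 (hslmem n f g Tf Tg hf hg hTf hTg)))
  refine ⟨Z, hZK, hZs, ?_, ?_⟩
  · -- translations
    intro t S hS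
    have hAS : ∀ n, A n * S = S * A n := by
      intro n
      rw [hAc, Finset.sum_mul, Finset.mul_sum]
      refine Finset.sum_congr rfl fun i _ => ?_
      rw [smul_mul_assoc, mul_smul_comm, hDS n i t S hS]
    refine ContinuousLinearMap.ext fun v => ext_inner_left ℂ fun w => ?_
    have g1 : Tendsto (fun n => ⟪w, (A n * S) v⟫_ℂ) ((hyperfilter ℕ : Ultrafilter ℕ) : Filter ℕ)
        (𝓝 ⟪w, (Z * S) v⟫_ℂ) := hZ (S v) w
    have g2 : Tendsto (fun n => ⟪w, (S * A n) v⟫_ℂ) ((hyperfilter ℕ : Ultrafilter ℕ) : Filter ℕ)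
        (𝓝 ⟪w, (S * Z) v⟫_ℂ) := by
      have h4 := hZ v (star S w)
      have e : ∀ X : LR H →L[ℂ] LR H, ⟪w, (S * X) v⟫_ℂ = ⟪star S w, X v⟫_ℂ := by
        intro X
        show ⟪w, S (X v)⟫_ℂ = _
        rw [ContinuousLinearMap.star_eq_adjoint, ContinuousLinearMap.adjoint_inner_left]
      simp_rw [e]
      exact h4
    simp only [hAS] at g1
    exact tendsto_nhds_unique g1 g2
  · -- equivariance
    intro m j f g Tf Tg hf hg hTf hTg S hS
    set μ : ℝ := (m : ℝ) / 2 ^ j with hμ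
    have hSV : S = V μ := hVu μ S hS
    rw [hSV]
    have hfp := hVLp (-μ) f hf
    have hgp := hVLp (-μ) g hg
    have hTfp := hVten (-μ) f Tf hTf
    have hTgp := hVten (-μ) g Tg hTg
    have hrhs : ContinuousLinearMap.adjoint Tf ∘L (V μ * Z * star (V μ)) ∘L Tg =
        sl (V (-μ) ∘L Tf) (V (-μ) ∘L Tg) Z := by
      rw [sl_comp, hVstar, hVstar, neg_neg]
      rfl
    rw [hrhs]
    show β (Real.exp (-μ)) (sl Tf Tg Z) = _
    set Tf' : H →L[ℂ] LR H := V (-μ) ∘L Tf with hTf'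
    set Tg' : H →L[ℂ] LR H := V (-μ) ∘L Tg with hTg'
    set lam : ℝ := Real.exp (-μ) with hlamd
    have hl : 0 < lam := Real.exp_pos _
    have ha : sl Tf Tg Z ∈ relBicentralizer N M ξ := hZs f g Tf Tg hf hg hTf hTg
    have hb : sl Tf' Tg' Z ∈ relBicentralizer N M ξ := hZs _ _ Tf' Tg' hfp hgp hTfp hTgp
    -- norms
    have hnorm : ∀ lam : ℝ, 0 < lam → ∀ x ∈ relBicentralizer N M ξ, ‖β lam x ξ‖ = ‖x ξ‖ := by
      intro lam hl x hx
      have h := hE lam hl x hx x hx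
      rw [inner_self_eq_norm_sq_to_K, inner_self_eq_norm_sq_to_K] at h
      have h2 : ‖β lam x ξ‖ ^ 2 = ‖x ξ‖ ^ 2 := by exact_mod_cast h
      exact (sq_eq_sq₀ (norm_nonneg _) (norm_nonneg _)).1 h2
    set F : ℝ → H →L[ℂ] H := fun τ => β (Real.exp (-τ)) (sl Tf' Tg' (star (V τ) * Y * V τ)) with hF
    have hymem' : ∀ τ : ℝ, sl Tf' Tg' (star (V τ) * Y * V τ) ∈ relBicentralizer N M ξ := fun τ =>
      hymem τ _ _ Tf' Tg' hfp hgp hTfp hTgp
    set C : ℝ := ‖Tf'‖ * (‖Y‖ * (‖Tg'‖ * ‖ξ‖)) with hC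
    have hFn : ∀ τ : ℝ, ‖F τ ξ‖ ≤ C := by
      intro τ
      rw [hF]
      simp only
      rw [hnorm _ (Real.exp_pos _) _ (hymem' τ)]
      refine (sl_norm _ _ _ _).trans ?_
      rw [hC]
      gcongr
      exact hVY τ
    have hshift : ∀ τ : ℝ, β lam (β (Real.exp (-τ)) (sl Tf Tg (star (V τ) * Y * V τ))) =
        F (μ + τ) := by
      intro τ
      have e1 : sl Tf' Tg' (star (V (μ + τ)) * Y * V (μ + τ)) =
          sl Tf Tg (star (V τ) * Y * V τ) := by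
        rw [hTf', hTg', sl_comp]
        congr 1
        have e2 : V (μ + τ) * V (-μ) = V τ := by
          rw [← hVadd]
          congr 1
          ring
        calc star (V (-μ)) * (star (V (μ + τ)) * Y * V (μ + τ)) * V (-μ)
            = star (V (μ + τ) * V (-μ)) * Y * (V (μ + τ) * V (-μ)) := by
              rw [star_mul]
              simp only [mul_assoc]
          _ = _ := by rw [e2]
      rw [hF]
      simp only
      rw [e1, ← hβ.comp lam _ hl (Real.exp_pos _) _ (hymem τ f g Tf Tg hf hg hTf hTg), hlamd,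
        ← Real.exp_add]
      congr 2
      ring
    -- the difference
    have hdiff : ∀ n, j ≤ n → ‖β lam (sl Tf Tg (A n)) ξ - sl Tf' Tg' (A n) ξ‖ ≤
        2 * m * C * (1 / 2) ^ n := by
      intro n hn
      have e1 : β lam (sl Tf Tg (A n)) = ∑ i ∈ Finset.range (4 ^ n), ((c n : ℝ) : ℂ) •
          F (μ + ((i : ℝ) + 1) / 2 ^ n) := by
        rw [hslA n f g Tf Tg hf hg hTf hTg, (beta_sum hβ hB hl _ _ (fun i => hβ.mem _
          (Real.exp_pos _) _ (hymem _ f g Tf Tg hf hg hTf hTg)) _).2]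
        exact Finset.sum_congr rfl fun i _ => by rw [hshift]
      have e2 : sl Tf' Tg' (A n) = ∑ i ∈ Finset.range (4 ^ n), ((c n : ℝ) : ℂ) •
          F (((i : ℝ) + 1) / 2 ^ n) := hslA n _ _ Tf' Tg' hfp hgp hTfp hTgp
      obtain ⟨k, rfl⟩ := Nat.exists_eq_add_of_le hn
      have e3 : ∀ i : ℕ, μ + ((i : ℝ) + 1) / 2 ^ (j + k) =
          (((i + m * 2 ^ k : ℕ) : ℝ) + 1) / 2 ^ (j + k) := by
        intro i
        rw [hμ]
        push_cast
        rw [pow_add]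
        field_simp
        ring
      have e4 : β lam (sl Tf Tg (A (j + k))) ξ - sl Tf' Tg' (A (j + k)) ξ = ((c (j + k) : ℝ) : ℂ) •
          (∑ i ∈ Finset.range (4 ^ (j + k)), F ((((i + m * 2 ^ k : ℕ) : ℝ) + 1) / 2 ^ (j + k)) ξ -
            ∑ i ∈ Finset.range (4 ^ (j + k)), F (((i : ℝ) + 1) / 2 ^ (j + k)) ξ) := by
        rw [e1, e2, sum_apply, sum_apply, smul_sub, Finset.smul_sum, Finset.smul_sum]
        congr 1
        exact Finset.sum_congr rfl fun i _ => by rw [smul_apply, e3]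
      rw [e4, norm_smul]
      have h4 := D_dmk.sum_shift (fun i : ℕ => F (((i : ℝ) + 1) / 2 ^ (j + k)) ξ) C
        (fun i => hFn _) (4 ^ (j + k)) (m * 2 ^ k)
      have h5 : ‖((c (j + k) : ℝ) : ℂ)‖ = 1 / 4 ^ (j + k) := by
        rw [Complex.norm_real, hc, Real.norm_of_nonneg (by positivity)]
      rw [h5]
      have hC0 : 0 ≤ C := (norm_nonneg _).trans (hFn 0)
      calc 1 / 4 ^ (j + k) * ‖∑ i ∈ Finset.range (4 ^ (j + k)),
            F ((((i + m * 2 ^ k : ℕ) : ℝ) + 1) / 2 ^ (j + k)) ξ -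
            ∑ i ∈ Finset.range (4 ^ (j + k)), F (((i : ℝ) + 1) / 2 ^ (j + k)) ξ‖
          ≤ 1 / 4 ^ (j + k) * (2 * ((m * 2 ^ k : ℕ) : ℝ) * C) := by gcongr
        _ ≤ 1 / 4 ^ (j + k) * (2 * (m * 2 ^ (j + k)) * C) := by
            push_cast
            have : (2 : ℝ) ^ k ≤ 2 ^ (j + k) := pow_le_pow_right₀ (by norm_num) (by omega)
            gcongr
        _ = _ := by
            have : (4 : ℝ) ^ (j + k) = 2 ^ (j + k) * 2 ^ (j + k) := by rw [← mul_pow]; norm_num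
            rw [this, one_div_pow]
            field_simp
    have ht : Tendsto (fun n : ℕ => 2 * m * C * (1 / 2 : ℝ) ^ n) atTop (𝓝 0) := by
      have := (tendsto_pow_atTop_nhds_zero_of_lt_one (by norm_num : (0:ℝ) ≤ 1 / 2)
        (by norm_num)).const_mul (2 * (m : ℝ) * C)
      simpa using this
    have hkey : ∀ x ∈ relBicentralizer N M ξ,
        ⟪x ξ, β lam (sl Tf Tg Z) ξ⟫_ℂ = ⟪x ξ, sl Tf' Tg' Z ξ⟫_ℂ := by
      intro x hx
      have hx' : β lam⁻¹ x ∈ relBicentralizer N M ξ := hβ.mem _ (inv_pos.2 hl) x hx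
      have hxx : β lam (β lam⁻¹ x) = x := by
        rw [← hβ.comp lam lam⁻¹ hl (inv_pos.2 hl) x hx, mul_inv_cancel₀ hl.ne', hβ.one x hx]
      have g1 : Tendsto (fun n => ⟪x ξ, β lam (sl Tf Tg (A n)) ξ⟫_ℂ)
          ((hyperfilter ℕ : Ultrafilter ℕ) : Filter ℕ) (𝓝 ⟪x ξ, β lam (sl Tf Tg Z) ξ⟫_ℂ) := by
        have e : ∀ y ∈ relBicentralizer N M ξ, ⟪x ξ, β lam y ξ⟫_ℂ = ⟪β lam⁻¹ x ξ, y ξ⟫_ℂ := by
          intro y hy
          rw [← hE lam hl _ hx' y hy, hxx]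
        rw [e _ ha]
        have e' : (fun n => ⟪x ξ, β lam (sl Tf Tg (A n)) ξ⟫_ℂ) =
            fun n => ⟪β lam⁻¹ x ξ, sl Tf Tg (A n) ξ⟫_ℂ := by
          funext n
          exact e _ (hslmem n f g Tf Tg hf hg hTf hTg)
        rw [e']
        exact hslim Tf Tg ξ _
      have g2 := hslim Tf' Tg' ξ (x ξ)
      have g3 : Tendsto (fun n => ⟪x ξ, β lam (sl Tf Tg (A n)) ξ - sl Tf' Tg' (A n) ξ⟫_ℂ)
          ((hyperfilter ℕ : Ultrafilter ℕ) : Filter ℕ) (𝓝 0) := by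
        have h4 : Tendsto (fun n : ℕ => ‖x ξ‖ * (2 * m * C * (1 / 2 : ℝ) ^ n)) atTop (𝓝 0) := by
          have := ht.const_mul ‖x ξ‖
          simpa using this
        refine squeeze_zero_norm' ?_ (h4.mono_left hle)
        filter_upwards [hle (eventually_ge_atTop j)] with n hn
        refine (norm_inner_le_norm _ _).trans ?_
        gcongr
        exact hdiff n hn
      have g4 := g1.sub g3
      rw [sub_zero] at g4
      have g5 : (fun n => ⟪x ξ, β lam (sl Tf Tg (A n)) ξ⟫_ℂ -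
          ⟪x ξ, β lam (sl Tf Tg (A n)) ξ - sl Tf' Tg' (A n) ξ⟫_ℂ) =
          fun n => ⟪x ξ, sl Tf' Tg' (A n) ξ⟫_ℂ := by
        funext n
        rw [← inner_sub_right, sub_sub_cancel]
      rw [g5] at g4
      exact tendsto_nhds_unique g4 g2
    have hd : β lam (sl Tf Tg Z) - sl Tf' Tg' Z ∈ relBicentralizer N M ξ :=
      (hB _).1 (sub_mem ((hB _).2 (hβ.mem lam hl _ ha)) ((hB _).2 hb))
    have h0 : (β lam (sl Tf Tg Z) - sl Tf' Tg' Z) ξ = 0 := by
      have e := hkey _ hd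
      have e2 : ⟪(β lam (sl Tf Tg Z) - sl Tf' Tg' Z) ξ,
          (β lam (sl Tf Tg Z) - sl Tf' Tg' Z) ξ⟫_ℂ = 0 := by
        conv_lhs => rw [sub_apply (β lam (sl Tf Tg Z)) (sl Tf' Tg' Z) ξ]
        rw [inner_sub_right]
        rw [sub_apply] at e
        rw [e, sub_self]
      exact inner_self_eq_zero.1 e2
    exact sub_eq_zero.1 (hI.sep _ hd.1 h0)

end

end Pool.Agent.H255.BC.E_eavg
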