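import Pool.Agent.H255.BC.Defs9
import Pool.Agent.H255.BC.F_flow
import Pool.Agent.H255.BC.D_dscl

/-! `β_t` and the isometries of scale `t` (helper255). -/

set_option autoImplicit false

open MeasureTheory Filter Topology Complex
open scoped InnerProductSpace ENNReal

namespace Pool.Agent.H255.BC.E_eblv

open Pool.Agent.W662.CB Pool.Agent.H255.BC

theorem r (h1 : S_bic) : S_eblv := by
  intro H _ _ _ N M ξ U J E β hI hβ t v ht0 ht1 hv x hx u
  have hxs : star x ∈ relBicentralizer N M ξ := (h1 H M N ξ U J hI.le hI.unit hI.conj x hx).1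
  have hvN : ∀ k, v k ∈ N := fun k => (hv k).1
  have hvi : ∀ k, star (v k) * v k = 1 := fun k => (hv k).2.1
  have hvn : ∀ k, ‖v k‖ ≤ 1 := fun k => R_slbeta.iso_opnorm _ (hvi k)
  have hsn : ∀ k, ‖star (v k)‖ ≤ 1 := fun k => by rw [norm_star]; exact hvn k
  have htw : Tendsto (fun n => twNorm M ξ t (star (v n))) atTop (𝓝 0) := by
    have h1 : Tendsto (fun n : ℕ => 2 * (1 / ((n : ℝ) + 1))) atTop (𝓝 0) := by
      have := (tendsto_one_div_add_atTop_nhds_zero_nat (𝕜 := ℝ)).const_mul 2
      rwa [mul_zero] at this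
    exact squeeze_zero (fun n => F_flow.twNorm_nonneg _ _ _ _)
      (fun n => F_flow.twNorm_scal hI ht0 ht1 (by positivity) (hv n)) h1
  have h2 := (hβ.lim (fun n => star (v n)) (fun n => star_mem (hvN n)) ⟨1, hsn⟩ t ht0 htw
    (star x) hxs u).2
  have h3 : Tendsto (fun n => (x * v n - v n * β t x) u) atTop (𝓝 0) := by
    refine h2.congr fun n => ?_
    rw [star_sub, star_mul, star_mul, star_star, star_star, hβ.star_eq t ht0 x hx, star_star]
  have h4 : Tendsto (fun n => star (v n) ((x * v n - v n * β t x) u)) atTop (𝓝 0) := by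
    refine squeeze_zero_norm (fun n => ?_) (by simpa using h3.norm)
    refine ((star (v n)).le_opNorm _).trans ?_
    have := mul_le_mul_of_nonneg_right (hsn n) (norm_nonneg ((x * v n - v n * β t x) u))
    rwa [one_mul] at this
  have h5 := h4.add_const (β t x u)
  rw [zero_add] at h5
  refine h5.congr fun n => ?_
  have e1 : star (v n) ((v n * β t x) u) = β t x u := by
    have := congrArg (fun A : H →L[ℂ] H => A (β t x u)) (hvi n)
    simpa using this
  rw [ContinuousLinearMap.sub_apply, map_sub, e1, sub_add_cancel]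
  rfl

end Pool.Agent.H255.BC.E_eblv
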