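import Pool.Agent.H255.BC.Defs9
import Pool.Agent.H255.BC.D_dxm
set_option autoImplicit false

open MeasureTheory Filter Topology Complex
open scoped InnerProductSpace ENNReal

namespace Pool.Agent.H255.BC.E_edya

open Pool.Agent.W662.CB Pool.Agent.W988.WD Pool.Agent.H255.BC
open Pool.Agent.H255.BC.D_dxm (ch ch_ulam ch_norm ch_cont mul_unique)

variable {H : Type} [NormedAddCommGroup H] [InnerProductSpace ℂ H] [CompleteSpace H]

/-- the product with a character -/
lemma memLp_ch {f : ℝ → ℂ} (hf : MemLp f 2 (volume : Measure ℝ)) (κ : ℝ) :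
    MemLp (fun s => ch κ s * f s) 2 (volume : Measure ℝ) := by
  have hm : AEStronglyMeasurable (fun s => ch κ s * f s) (volume : Measure ℝ) := by
    refine AEStronglyMeasurable.mul ?_ hf.1
    refine Continuous.aestronglyMeasurable ?_
    unfold ch
    fun_prop
  refine hf.of_le hm (Eventually.of_forall fun s => ?_)
  rw [norm_mul, ch_norm, one_mul]

lemma ten_ch {f : ℝ → ℂ} {T : H →L[ℂ] LR H} (hT : IsTen f T) {κ : ℝ} {S : LR H →L[ℂ] LR H}
    (hS : IsMulOp (ch κ) S) : IsTen (fun s => ch κ s * f s) (S ∘L T) := by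
  intro v
  filter_upwards [hS (T v), hT v] with s h1 h2
  change (S (T v) : ℝ → H) s = _
  rw [h1, h2, smul_smul]

lemma adj_conj (A B : H →L[ℂ] LR H) (S X : LR H →L[ℂ] LR H) :
    ContinuousLinearMap.adjoint (star S ∘L A) ∘L X ∘L (star S ∘L B) =
      ContinuousLinearMap.adjoint A ∘L (S * X * star S) ∘L B := by
  rw [ContinuousLinearMap.adjoint_comp, ContinuousLinearMap.star_eq_adjoint,
    ContinuousLinearMap.adjoint_adjoint]
  rfl

theorem r (h3 : S_ops) : S_edya := by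
  intro H _ _ _ N M ξ U J E β hI hβ Z hZ hdy
  obtain ⟨-, -, -, -, -, hlam⟩ := h3 H M ξ U hI.modular
  have hex : ∀ κ : ℝ, ∃ S : LR H →L[ℂ] LR H, IsMulOp (ch κ) S ∧ IsMulOp (ch (-κ)) (star S) ∧
      IsULam (Real.exp (-κ)) S ∧ star S * S = 1 ∧ S * star S = 1 := by
    intro κ
    obtain ⟨S, e1, e3, e4, e2⟩ := hlam (Real.exp (-κ)) (Real.exp_pos _)
    refine ⟨S, ?_, ?_, e1, e3, e4⟩
    · unfold IsULam at e1
      rw [ch_ulam, Real.log_exp, neg_neg] at e1
      exact e1
    · unfold IsULam at e2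
      rw [ch_ulam, Real.log_inv, Real.log_exp, neg_neg] at e2
      exact e2
  choose u hu hu' hul hus hsu using hex
  have hustar : ∀ t : ℝ, star (u t) = u (-t) := fun t => mul_unique (hu' t) (hu (-t))
  -- step 1
  have step1 : ∀ (f g : ℝ → ℂ) (Tf Tg : H →L[ℂ] LR H), MemLp f 2 (volume : Measure ℝ) →
      MemLp g 2 (volume : Measure ℝ) → IsTen f Tf → IsTen g Tg → ∀ κ : ℝ, 0 ≤ κ →
      β (Real.exp (-κ)) (ContinuousLinearMap.adjoint Tf ∘L Z ∘L Tg) =
        ContinuousLinearMap.adjoint Tf ∘L (u κ * Z * star (u κ)) ∘L Tg := by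
    intro f g Tf Tg hf hg hTf hTg κ hκ
    ext1 v
    apply ext_inner_left ℂ
    intro w
    set x := ContinuousLinearMap.adjoint Tf ∘L Z ∘L Tg with hx
    have hxB : x ∈ relBicentralizer N M ξ := hZ f g Tf Tg hf hg hTf hTg
    have c1 : Continuous fun κ : ℝ => ⟪w, β (Real.exp (-κ)) x v⟫_ℂ :=
      continuous_const.inner ((hβ.cont x hxB v).comp continuous_neg)
    have e2 : ∀ κ : ℝ, ⟪w, (ContinuousLinearMap.adjoint Tf ∘L (u κ * Z * star (u κ)) ∘L Tg) v⟫_ℂ =
        ⟪u (-κ) (Tf w), Z (u (-κ) (Tg v))⟫_ℂ := by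
      intro κ
      change ⟪w, ContinuousLinearMap.adjoint Tf (u κ (Z (star (u κ) (Tg v))))⟫_ℂ = _
      rw [ContinuousLinearMap.adjoint_inner_right, ← hustar, ContinuousLinearMap.star_eq_adjoint,
        ContinuousLinearMap.adjoint_inner_left]
    have cu : ∀ F : LR H, Continuous fun κ : ℝ => u (-κ) F := fun F =>
      (ch_cont F u hu).comp continuous_neg
    have c2 : Continuous fun κ : ℝ =>
        ⟪w, (ContinuousLinearMap.adjoint Tf ∘L (u κ * Z * star (u κ)) ∘L Tg) v⟫_ℂ := by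
      simp only [e2]
      exact (cu _).inner (Z.continuous.comp (cu _))
    have hcl : IsClosed {κ : ℝ | ⟪w, β (Real.exp (-κ)) x v⟫_ℂ =
        ⟪w, (ContinuousLinearMap.adjoint Tf ∘L (u κ * Z * star (u κ)) ∘L Tg) v⟫_ℂ} :=
      isClosed_eq c1 c2
    have hlim : Tendsto (fun j : ℕ => ((⌊κ * (2 : ℝ) ^ j⌋₊ : ℕ) : ℝ) / (2 : ℝ) ^ j) atTop (𝓝 κ) :=
      (tendsto_nat_floor_mul_div_atTop hκ).comp
        (tendsto_pow_atTop_atTop_of_one_lt (by norm_num : (1 : ℝ) < 2))
    refine hcl.mem_of_tendsto hlim (Eventually.of_forall fun j => ?_)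
    have h4 := hdy ⌊κ * (2 : ℝ) ^ j⌋₊ j f g Tf Tg hf hg hTf hTg _ (hul _)
    change ⟪w, β (Real.exp (-(((⌊κ * (2 : ℝ) ^ j⌋₊ : ℕ) : ℝ) / (2 : ℝ) ^ j))) x v⟫_ℂ = _
    rw [h4]
  intro f g Tf Tg hf hg hTf hTg lam hl S hS
  have hSu : S = u (-Real.log lam) := by
    unfold IsULam at hS
    rw [ch_ulam] at hS
    exact mul_unique hS (hu _)
  rcases le_total lam 1 with h1 | h1
  · have h2 := step1 f g Tf Tg hf hg hTf hTg (-Real.log lam)
      (by linarith [Real.log_nonpos hl.le h1])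
    rw [neg_neg, Real.exp_log hl] at h2
    rw [h2, hSu]
  · set κ := Real.log lam with hκ
    have hκ0 : 0 ≤ κ := Real.log_nonneg h1
    have hSs : star S = u κ := by rw [hSu, hustar, neg_neg]
    have hSS : S = star (u κ) := by rw [hustar, hSu]
    have hmf := memLp_ch hf κ
    have hmg := memLp_ch hg κ
    have htf : IsTen (fun s => ch κ s * f s) (star S ∘L Tf) := by
      rw [hSs]
      exact ten_ch hTf (hu κ)
    have htg : IsTen (fun s => ch κ s * g s) (star S ∘L Tg) := by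
      rw [hSs]
      exact ten_ch hTg (hu κ)
    have h2 := step1 _ _ _ _ hmf hmg htf htg κ hκ0
    have hy := hZ _ _ _ _ hmf hmg htf htg
    rw [adj_conj] at hy
    rw [adj_conj, adj_conj] at h2
    have h5 : S * (u κ * Z * star (u κ)) * star S = Z := by
      have e1 : S * u κ = 1 := by rw [hSS]; exact hus κ
      have e2 : star (u κ) * star S = 1 := by rw [← star_mul, e1, star_one]
      calc S * (u κ * Z * star (u κ)) * star S = (S * u κ) * Z * (star (u κ) * star S) := by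
            simp only [mul_assoc]
        _ = Z := by rw [e1, e2, one_mul, mul_one]
    rw [h5] at h2
    rw [← h2, ← hβ.comp lam (Real.exp (-κ)) hl (Real.exp_pos _) _ hy]
    have h6 : lam * Real.exp (-κ) = 1 := by
      rw [Real.exp_neg, hκ, Real.exp_log hl, mul_inv_cancel₀ hl.ne']
    rw [h6, hβ.one _ hy]

end Pool.Agent.H255.BC.E_edya
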