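import Pool.Agent.H255.BC.Defs9
import Pool.Agent.H255.BC.D_dxm
set_option autoImplicit false

/-! S_efac (by helper389, for helper255). -/

open MeasureTheory Filter Topology Complex
open scoped InnerProductSpace ENNReal

namespace Pool.Agent.H255.BC.E_efac

open Pool.Agent.W662.CB Pool.Agent.W988.WD Pool.Agent.H255.BC

theorem adj_ten {H : Type} [NormedAddCommGroup H] [InnerProductSpace ℂ H] [CompleteSpace H]
    {f g : ℝ → ℂ} {Tf Tg : H →L[ℂ] LR H} (hTf : IsTen f Tf) (hTg : IsTen g Tg) (v : H) :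
    ContinuousLinearMap.adjoint Tf (Tg v) =
      (∫ s : ℝ, starRingEnd ℂ (f s) * g s) • v := by
  refine ext_inner_left ℂ fun w => ?_
  rw [ContinuousLinearMap.adjoint_inner_right, L2.inner_def, inner_smul_right]
  have h : (∫ s : ℝ, ⟪(Tf w : ℝ → H) s, (Tg v : ℝ → H) s⟫_ℂ) =
      ∫ s : ℝ, (starRingEnd ℂ (f s) * g s) * ⟪w, v⟫_ℂ := by
    refine integral_congr_ae ?_
    filter_upwards [hTf w, hTg v] with s h1 h2
    rw [h1, h2, inner_smul_left, inner_smul_right, mul_assoc]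
  rw [h, integral_mul_const]

theorem r (h1 : S_surj) (h2 : S_fou) (h3 : S_piE) (h4 : S_gen) (h5 : S_ops) : S_efac := by
  intro H _ _ _ N M ξ U J E β hI hβ P₀ M₀ hmod z hz hzc
  obtain ⟨-, -, hcst, hten, -, -⟩ := h5 H M ξ U hI.modular
  obtain ⟨W, hW⟩ := h2 H
  have hzC : z ∈ Cen N U := (hmod.memP z).1 hz
  have hzM : z ∈ Amp M := (hmod.memM z).1 (hmod.le z hz)
  obtain ⟨c, hc, hcz⟩ := h1 H N M ξ U J E β W hI hβ hW z hzM
    (fun x hx S hS => hzc S ((hmod.memP S).2 ((h4 H N M ξ U J E hI.toInc).1 x hx S hS)))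
    (fun t S hS => hzc S ((hmod.memP S).2 ((h4 H N M ξ U J E hI.toInc).2 t S hS)))
  refine ⟨vst ξ c, ?_⟩
  refine sub_eq_zero.1 (Pool.Agent.H255.BC.D_dxm.zero_of_slices hten _ ?_)
  intro f g Tf Tg hf hg hTf hTg v
  have e1 := (h3 H N M ξ U J E β W hI hβ hW c hc z hcz f g Tf Tg hf hg hTf hTg).2
  have e2 : ContinuousLinearMap.adjoint Tf ∘L z ∘L Tg ∈ N :=
    Pool.Agent.H321.BC.slice_mem hzC.1 hcst hTf hTg
  rw [hI.exp.proj _ e2] at e1
  have e3 : ContinuousLinearMap.adjoint Tf (z (Tg v)) =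
      (vst ξ c * ∫ s : ℝ, starRingEnd ℂ (f s) * g s) • v :=
    congrArg (fun A : H →L[ℂ] H => A v) e1
  change ContinuousLinearMap.adjoint Tf (z (Tg v) - vst ξ c • Tg v) = 0
  rw [map_sub, map_smul, adj_ten hTf hTg, e3, smul_smul, sub_self]

end Pool.Agent.H255.BC.E_efac
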