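import Pool.Agent.H255.BC.Defs9
import Pool.Agent.H255.BC.D_dxm

/-! The weak relative Dixmier property in the model, without irreducibility (helper255). -/

set_option autoImplicit false

open MeasureTheory Filter Topology Complex
open scoped InnerProductSpace ENNReal

namespace Pool.Agent.H255.BC.E_emod

open Pool.Agent.W662.CB Pool.Agent.W988.WD Pool.Agent.H255.BC

theorem r (h1 : S_daav) (h2 : S_eshf) (h3 : S_eact) (h4 : S_eavg) (h5 : S_edya) (h6 : S_esurj)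
    (h7 : S_fou) (h8 : S_pin) (h9 : S_ext) (h10 : S_DT) (h11 : S_efac) : S_emod := by
  intro H _ _ _ _ N M ξ U J E β hI hβ P₀ M₀ hmod X hX
  have hle : ∀ a ∈ P₀, a ∈ M₀ := hmod.le
  have KS := fun (Y : LR H →L[ℂ] LR H) (hY : Y ∈ M₀) =>
    Pool.Agent.W481.WD.p_KSET (LR H) P₀ M₀ hle Y hY
  have hfac : Factor P₀ := h11 H N M ξ U J E β hI hβ P₀ M₀ hmod
  obtain ⟨Y₁, hY₁, hs₁⟩ := h1 H N M ξ U J E hI.toInc P₀ M₀ hmod X hX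
  have hY₁M : Y₁ ∈ M₀ := ((KS X hX).2.1 Y₁ hY₁).1
  obtain ⟨Y₂, hY₂, hs₂, hc₂⟩ := h2 H N M ξ U J E hI.toInc P₀ M₀ hmod Y₁ hY₁M hs₁
  have hY₂M : Y₂ ∈ M₀ := ((KS Y₁ hY₁M).2.1 Y₂ hY₂).1
  obtain ⟨Z, hZ, hs, hc, hd⟩ := h4 H N M ξ U J E β hI hβ P₀ M₀ hmod Y₂ hY₂M hs₂
    (fun lam hl0 hl1 => h3 H N M ξ U J E β hI hβ P₀ M₀ hmod hfac Y₂ hY₂M hs₂ hc₂ lam hl0 hl1)
  have hZM : Z ∈ M₀ := ((KS Y₂ hY₂M).2.1 Z hZ).1
  have he : SlEqv β Z := h5 H N M ξ U J E β hI hβ Z hs hd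
  obtain ⟨W, hW⟩ := h7 H
  have hZA : Z ∈ Amp M := (hmod.memM Z).1 hZM
  obtain ⟨c, hcB, hpi⟩ := h6 H N M ξ U J E β W hI hβ hW Z hZA hs hc he
  have h12 := h9 H N M ξ U J E hI Z hZA
    (fun n hn R hR => h8 H N M ξ U J E β W hI hβ hW c hcB Z hpi n hn R hR)
  refine ⟨Z, D_dxm.KN_trans P₀ M₀ hle hX hY₁ (D_dxm.KN_trans P₀ M₀ hle hY₁M hY₂ hZ), fun A hA => ?_⟩
  exact h10 H N M ξ U hI.modular hI.le hI.mod Z (fun x hx S hS => h12 x hx S hS)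
    (fun t S hS => hc t S hS) A ((hmod.memP A).1 hA)

end Pool.Agent.H255.BC.E_emod
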