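import Pool.Agent.H255.BC.Defs9
import Pool.Agent.H255.BC.D_dxm
set_option autoImplicit false

open MeasureTheory Filter Topology Complex
open scoped InnerProductSpace ENNReal

namespace Pool.Agent.H255.BC.E_eshf

open Pool.Agent.W662.CB Pool.Agent.W988.WD Pool.Agent.H255.BC
open Pool.Agent.H255.BC.D_dxm

theorem r (h1 : S_dmk) (h2 : S_Bvn) (h3 : S_gen) (h4 : S_ops) : S_eshf := by
  intro H _ _ _ N M ξ U J E hI P₀ M₀ hmod Y hY hsl
  obtain ⟨-, -, hcst, hten, -, -⟩ := h4 H M ξ U hI.modular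
  obtain ⟨B, hB⟩ := h2 H N M ξ U J E hI
  have hle : ∀ a ∈ P₀, a ∈ M₀ := hmod.le
  have KS := Pool.Agent.W481.WD.p_KSET (LR H) P₀ M₀ hle Y hY
  have hRP : ∀ t : ℝ, R (H := H) t ∈ P₀ := fun t =>
    (hmod.memP _).2 ((h3 H N M ξ U J E hI).2 t _ (R_shift t))
  have hRu : ∀ t : ℝ, R (H := H) t ∈ unitary (LR H →L[ℂ] LR H) := by
    intro t
    rw [Unitary.mem_iff, R_star, ← R_add, ← R_add, neg_add_cancel, add_neg_cancel, R_zero]
    exact ⟨rfl, rfl⟩
  -- `b ⊗ 1`, `b ∈ B'`, commutes with `Y`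
  have c2 : ∀ (x : H →L[ℂ] H), x ∈ B.commutant → ∀ (S : LR H →L[ℂ] LR H), IsConst x S →
      S * Y = Y * S := by
    intro x hx S hS
    obtain ⟨S', hS', -, hS'2⟩ := hcst x
    have hSS : S = S' := by
      ext1 f
      exact Lp.ext ((hS f).trans (hS' f).symm)
    rw [← hSS] at hS'2
    refine sub_eq_zero.1 (zero_of_slices hten _ ?_)
    intro f g Tf Tg hf hg hTf hTg v
    have e0 := (VonNeumannAlgebra.mem_commutant_iff.1 hx) _
      ((hB _).2 (hsl f g Tf Tg hf hg hTf hTg))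
    have e1 : ContinuousLinearMap.adjoint Tf (Y (Tg (x v))) =
        x (ContinuousLinearMap.adjoint Tf (Y (Tg v))) :=
      congrArg (fun A : H →L[ℂ] H => A v) e0
    change ContinuousLinearMap.adjoint Tf (S (Y (Tg v)) - Y (S (Tg v))) = 0
    rw [map_sub, Pool.Agent.H321.BC.adj_ten_const hTf hS'2, Pool.Agent.H321.BC.ten_const hTg hS,
      e1, sub_self]
  obtain ⟨Z, hZ, hZR, hZc⟩ := h1 (LR H) P₀ M₀ hle R R_grp Y hY (by
    intro κ _
    have e1 := KS.2.2.2.1 (R (-κ)) (hRu _) (hRP _) Y KS.1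
    rw [← R_star, star_star] at e1
    exact e1)
  have c3 : ∀ (x : H →L[ℂ] H), x ∈ B.commutant → ∀ (S : LR H →L[ℂ] LR H), IsConst x S →
      S * Z = Z * S := by
    intro x hx S hS
    refine hZc S fun κ _ => ?_
    rw [R_star]
    have e1 := c2 x hx S hS
    have e2 := R_const hS κ
    have e3 := R_const hS (-κ)
    calc S * (R (-κ) * Y * R κ) = (S * R (-κ)) * Y * R κ := by simp only [mul_assoc]
      _ = R (-κ) * (S * Y) * R κ := by rw [e3]; simp only [mul_assoc]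
      _ = R (-κ) * Y * (S * R κ) := by rw [e1]; simp only [mul_assoc]
      _ = R (-κ) * Y * R κ * S := by rw [e2]; simp only [mul_assoc]
  refine ⟨Z, hZ, ?_, ?_⟩
  · intro f g Tf Tg hf hg hTf hTg
    rw [← hB, ← VonNeumannAlgebra.commutant_commutant B, VonNeumannAlgebra.mem_commutant_iff]
    intro y hy
    obtain ⟨S, hS, -, hS'⟩ := hcst y
    have e1 := c3 y hy S hS
    ext v
    show y (ContinuousLinearMap.adjoint Tf (Z (Tg v))) =
      ContinuousLinearMap.adjoint Tf (Z (Tg (y v)))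
    rw [← Pool.Agent.H321.BC.adj_ten_const hTf hS', ← Pool.Agent.H321.BC.ten_const hTg hS]
    congr 1
    exact DFunLike.congr_fun e1 (Tg v)
  · intro t S hS
    rw [Pool.Agent.W509.CB.shift_unique hS (R_shift t)]
    exact hZR t

end Pool.Agent.H255.BC.E_eshf
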