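import Pool.Agent.H255.BC.Defs9
import Pool.Agent.H255.BC.R_surj

/-! Surjectivity of `π`, from the slices (helper255). -/

set_option autoImplicit false

open MeasureTheory Filter Topology Complex
open scoped InnerProductSpace ENNReal FourierTransform

namespace Pool.Agent.H255.BC.E_esurj

open Pool.Agent.W662.CB Pool.Agent.H255.BC Pool.Agent.H255.BC.R_surj

noncomputable section

theorem cov' {H : Type} [NormedAddCommGroup H] [InnerProductSpace ℂ H] [CompleteSpace H]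
    (h4 : S_ops) {N M : VonNeumannAlgebra H} {ξ : H}
    {U : ℝ → H →L[ℂ] H} {J : H → H} {E : (H →L[ℂ] H) → (H →L[ℂ] H)}
    {β : ℝ → (H →L[ℂ] H) → (H →L[ℂ] H)} {W : LR H ≃ₗᵢ[ℂ] LR H} (hI : Inc2 N M ξ U J E)
    (hW : IsFou W) {Y : LR H →L[ℂ] LR H} (hYe : SlEqv β Y)
    {k l : ℝ → ℂ} (hk : Continuous k) (hkc : HasCompactSupport k) (hl : Continuous l)
    (hlc : HasCompactSupport l) {Tk Tl Tk' Tl' : H →L[ℂ] LR H} (hTk : IsTen k Tk)
    (hTl : IsTen l Tl) (a : ℝ) (hTk' : IsTen (fun p => k (p - a)) Tk')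
    (hTl' : IsTen (fun p => l (p - a)) Tl') :
    β (Real.exp a) (xx W Y Tk Tl) = xx W Y Tk' Tl' := by
  obtain ⟨-, -, -, -, o5, o6⟩ := h4 H M ξ U hI.modular
  obtain ⟨S, hS, -, -, -⟩ := o6 (Real.exp a) (Real.exp_pos a)
  obtain ⟨R, hR, -, -, hR'⟩ := o5 (-a)
  rw [neg_neg] at hR'
  have e1 : ∀ f : LR H, S (W f) = W (R f) := fun f => by
    refine W_ulam hW hS ?_ f
    rwa [Real.log_exp]
  have e2 : ∀ f : LR H, star S (W f) = W (star R f) := fun f => W_star e1 f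
  have e3 : star R ∘L Tk = Tk' := ten_unique (shift_ten hR' hTk) hTk'
  have e4 : star R ∘L Tl = Tl' := ten_unique (shift_ten hR' hTl) hTl'
  have f1 := W_ten hW hk hkc hTk
  have f2 := W_ten hW hl hlc hTl
  have key := hYe _ _ (Wc W ∘L Tk) (Wc W ∘L Tl)
    (ten_memLp f1 hI.unit) (ten_memLp f2 hI.unit) f1 f2 (Real.exp a) (Real.exp_pos a) S hS
  have g1 : star S ∘L (Wc W ∘L Tl) = Wc W ∘L Tl' := by
    rw [← e4]
    ext1 v
    exact e2 (Tl v)
  have g2 : ContinuousLinearMap.adjoint (Wc W ∘L Tk) ∘L S =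
      ContinuousLinearMap.adjoint (Wc W ∘L Tk') := by
    have g3 : star S ∘L (Wc W ∘L Tk) = Wc W ∘L Tk' := by
      rw [← e3]
      ext1 v
      exact e2 (Tk v)
    rw [← g3, ContinuousLinearMap.star_eq_adjoint,
      ContinuousLinearMap.adjoint_comp (ContinuousLinearMap.adjoint S),
      ContinuousLinearMap.adjoint_adjoint]
  unfold xx
  rw [key, ← g1, ← g2]
  ext1 v
  rfl

theorem slice_mem' {H : Type} [NormedAddCommGroup H] [InnerProductSpace ℂ H] [CompleteSpace H]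
    {N M : VonNeumannAlgebra H} {ξ : H}
    {U : ℝ → H →L[ℂ] H} {J : H → H} {E : (H →L[ℂ] H) → (H →L[ℂ] H)}
    {W : LR H ≃ₗᵢ[ℂ] LR H} (hI : Inc2 N M ξ U J E)
    (hW : IsFou W) {Y : LR H →L[ℂ] LR H} (hYs : SliceIn N M ξ Y)
    {k l : ℝ → ℂ} (hk : Continuous k) (hkc : HasCompactSupport k) (hl : Continuous l)
    (hlc : HasCompactSupport l) {Tk Tl : H →L[ℂ] LR H} (hTk : IsTen k Tk)
    (hTl : IsTen l Tl) : xx W Y Tk Tl ∈ relBicentralizer N M ξ := by
  have f1 := W_ten hW hk hkc hTk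
  have f2 := W_ten hW hl hlc hTl
  exact hYs _ _ (Wc W ∘L Tk) (Wc W ∘L Tl)
    (ten_memLp f1 hI.unit) (ten_memLp f2 hI.unit) f1 f2

theorem r (h3 : S_pi) (h4 : S_ops) (h5 : S_betaE) (h6 : S_Bchar) (h7 : S_KK) : S_esurj := by
  intro H _ _ _ N M ξ U J E β W hI hβ hW Y hY hYs hYt hYe
  obtain ⟨-, -, o3, o4, o5, o6⟩ := h4 H M ξ U hI.modular
  have ten : ∀ f : ℝ → ℂ, MemLp f 2 (volume : Measure ℝ) → ∃ T : H →L[ℂ] LR H, IsTen f T := by
    intro f hf
    obtain ⟨T, hT, -⟩ := o4 f hf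
    exact ⟨T, hT⟩
  have exx : ∀ Tk Tl : H →L[ℂ] LR H,
      ContinuousLinearMap.adjoint Tk ∘L hat W Y ∘L Tl = xx W Y Tk Tl := by
    intro Tk Tl
    ext1 v
    rw [xx_apply]
    rfl
  obtain ⟨K, hK, hKc, -, -, -⟩ := h7 H M N ξ U J hI.le hI.modular hI.conj hI.mod
  have good : Good N M ξ U J E β (hat W Y) := by
    refine ⟨hI, hβ, ten, ?_, ?_, ?_, ?_, ?_⟩
    · intro t
      obtain ⟨T, hT, -⟩ := o6 (Real.exp t) (Real.exp_pos t)
      unfold IsULam at hT
      rw [Real.log_exp] at hT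
      obtain ⟨S, hS, -⟩ := o5 t
      exact ⟨T, hT, fun f => hat_exp hW hS (hYt t S hS) hT f⟩
    · intro k l hk hl Tk Tl hTk hTl
      rw [exx]
      exact slice_mem' hI hW hYs hk.1.continuous hk.2 hl.1.continuous hl.2 hTk hTl
    · intro k l hk hl Tk Tl Tk' Tl' hTk hTl a hTk' hTl'
      rw [exx, exx]
      exact cov' h4 hI hW hYe hk.1.continuous hk.2 hl.1.continuous hl.2 hTk hTl a hTk' hTl'
    · intro b hb c hc a
      have h8 := (h5 H N M ξ U J E β hI hβ).2 (Real.exp a) (Real.exp_pos a)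
      have e1 := (h8 b hb).2 b hb
      have e2 := (h8 b hb).2 c hc
      have e3 := (h8 c hc).2 b hb
      have e4 := (h8 c hc).2 c hc
      have e5 : ⟪β (Real.exp a) b ξ - β (Real.exp a) c ξ, β (Real.exp a) b ξ - β (Real.exp a) c ξ⟫_ℂ
          = ⟪b ξ - c ξ, b ξ - c ξ⟫_ℂ := by
        simp only [inner_sub_left, inner_sub_right, e1, e2, e3, e4]
      rw [inner_self_eq_norm_sq_to_K, inner_self_eq_norm_sq_to_K] at e5
      have e6 : ‖β (Real.exp a) b ξ - β (Real.exp a) c ξ‖ ^ 2 = ‖b ξ - c ξ‖ ^ 2 := by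
        exact_mod_cast e5
      exact (pow_left_inj₀ (norm_nonneg _) (norm_nonneg _) two_ne_zero).1 e6
    · intro x hx c hc hlim
      rw [h6 H N M ξ U J E hI.toInc c]
      refine ⟨hc, ?_⟩
      rw [← hK]
      refine hKc.mem_of_tendsto hlim (Eventually.of_forall fun n => ?_)
      rw [hK]
      exact ((h6 H N M ξ U J E hI.toInc (x n)).1 (hx n)).2
  obtain ⟨c, hcB, hc⟩ := main good
  refine ⟨c, hcB, ?_⟩
  obtain ⟨T, ⟨A, hA, hT⟩, -⟩ := (h3 H N M ξ U J E β W hI hβ hW).1 c hcB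
  refine ⟨A, hA, ?_⟩
  -- `hat W Y = A`
  have step1 : ∀ l : ℝ → ℂ, Tst l → ∀ T : H →L[ℂ] LR H, IsTen l T →
      hat W Y ∘L T = A ∘L T := by
    intro l hl T hT
    have h8 : ∀ y : H →L[ℂ] H, y ∈ M.commutant → hat W Y (T (y ξ)) = A (T (y ξ)) := by
      intro y hy
      obtain ⟨S, hS, -⟩ := o3 y
      rw [ten_const hT hS, hat_const hW hS (hY y hy S hS)]
      apply Lp.ext
      filter_upwards [hS (hat W Y (T ξ)), hc l hl T hT, hA (S (T ξ)), hS (T ξ), hT ξ]
        with p a1 a2 a3 a4 a5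
      rw [a1, a2, a3, a4, a5, map_smul, map_smul, map_smul]
      have := VonNeumannAlgebra.mem_commutant_iff.1 hy (β (Real.exp p) c)
        (hβ.mem _ (Real.exp_pos p) c hcB).1
      congr 1
      exact (congrArg (fun B : H →L[ℂ] H => B ξ) this).symm
    have h9 : (hat W Y ∘L T : H → LR H) = (A ∘L T : H →L[ℂ] LR H) := by
      refine Continuous.ext_on (comm_dense hI.conj hI.cyc) (hat W Y ∘L T).continuous
        (A ∘L T).continuous ?_
      rintro v ⟨y, hy, rfl⟩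
      exact h8 y hy
    ext1 v
    exact congrFun h9 v
  have step2 : hat W Y = A := by
    have h8 : ContinuousLinearMap.adjoint (hat W Y - A) = 0 := by
      ext1 G
      refine total (fun l hl T hT => ?_) ten
      have h9 := step1 l hl T hT
      have h10 : (hat W Y - A) ∘L T = 0 := by
        rw [ContinuousLinearMap.sub_comp, h9, sub_self]
      have h11 := congrArg ContinuousLinearMap.adjoint h10
      rw [ContinuousLinearMap.adjoint_comp, map_zero] at h11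
      exact congrArg (fun B : LR H →L[ℂ] H => B G) h11
    have h9 := congrArg ContinuousLinearMap.adjoint h8
    rw [ContinuousLinearMap.adjoint_adjoint, map_zero] at h9
    exact sub_eq_zero.1 h9
  intro f
  rw [← step2, W_hat]

end

end Pool.Agent.H255.BC.E_esurj
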