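import Pool.Agent.H255.BC.Defs9
import Pool.Agent.H255.BC.D_dxh
set_option autoImplicit false

open MeasureTheory Filter Topology Complex
open scoped InnerProductSpace ENNReal

namespace Pool.Agent.H255.BC.E_etrp

open Pool.Agent.W662.CB Pool.Agent.W988.WD Pool.Agent.H255.BC

/-- transport of `KN` by a unitary -/
theorem kn_trans {H K : Type} [NormedAddCommGroup H] [InnerProductSpace ℂ H] [CompleteSpace H]
    [NormedAddCommGroup K] [InnerProductSpace ℂ K] [CompleteSpace K] (W : H ≃ₗᵢ[ℂ] K)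
    (P : VonNeumannAlgebra H) (P₀ : VonNeumannAlgebra K)
    (hP : ∀ x : H →L[ℂ] H, W.conjStarAlgEquiv x ∈ P₀ → x ∈ P) (x y₀ : H →L[ℂ] H)
    (h : W.conjStarAlgEquiv y₀ ∈ KN P₀ (W.conjStarAlgEquiv x)) :
    y₀ ∈ KN P x := by
  intro n ζ η ε hε
  obtain ⟨y, hy, hyi⟩ := h n (fun i => W (ζ i)) (fun i => W (η i)) ε hε
  let L : (K →L[ℂ] K) →ₗ[ℝ] (H →L[ℂ] H) :=
    { toFun := fun T => W.conjStarAlgEquiv.symm T
      map_add' := fun a b => map_add _ a b
      map_smul' := fun r a => by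
        have e1 : (r • a : K →L[ℂ] K) = ((r : ℂ)) • a := by
          ext1 w
          exact (Complex.coe_smul r (a w)).symm
        have e2 : (r • (W.conjStarAlgEquiv.symm a) : H →L[ℂ] H) =
            ((r : ℂ)) • (W.conjStarAlgEquiv.symm a) := by
          ext1 w
          exact (Complex.coe_smul r _).symm
        rw [RingHom.id_apply, e2, e1, map_smul] }
  have hL : L y ∈ convexHull ℝ (Conj P x) := by
    have h1 : L y ∈ L '' convexHull ℝ (Conj P₀ (W.conjStarAlgEquiv x)) := ⟨y, hy, rfl⟩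
    rw [LinearMap.image_convexHull] at h1
    refine convexHull_mono ?_ h1
    rintro _ ⟨_, ⟨u, hu, huP, rfl⟩, rfl⟩
    refine ⟨W.conjStarAlgEquiv.symm u, ?_, ?_, ?_⟩
    · rw [Unitary.mem_iff] at hu ⊢
      rw [← map_star, ← map_mul, ← map_mul, hu.1, hu.2, map_one]
      exact ⟨rfl, rfl⟩
    · apply hP
      rwa [StarAlgEquiv.apply_symm_apply]
    · change W.conjStarAlgEquiv.symm (u * W.conjStarAlgEquiv x * star u) = _
      rw [map_mul, map_mul, StarAlgEquiv.symm_apply_apply, map_star]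
  refine ⟨L y, hL, fun i => ?_⟩
  have h2 := hyi i
  have h3 : W ((L y - y₀) (ζ i)) = (y - W.conjStarAlgEquiv y₀) (W (ζ i)) := by
    have h4 : W ((W.conjStarAlgEquiv.symm y) (ζ i)) = y (W (ζ i)) := by
      have h5 := LinearIsometryEquiv.conjStarAlgEquiv_apply_apply W (W.conjStarAlgEquiv.symm y)
        (W (ζ i))
      rw [StarAlgEquiv.apply_symm_apply, W.symm_apply_apply] at h5
      exact h5.symm
    have h6 : W (y₀ (ζ i)) = (W.conjStarAlgEquiv y₀) (W (ζ i)) := by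
      have h5 := LinearIsometryEquiv.conjStarAlgEquiv_apply_apply W y₀ (W (ζ i))
      rw [W.symm_apply_apply] at h5
      exact h5.symm
    change W ((W.conjStarAlgEquiv.symm y) (ζ i) - y₀ (ζ i)) =
      y (W (ζ i)) - (W.conjStarAlgEquiv y₀) (W (ζ i))
    rw [map_sub, h4, h6]
  rw [← W.inner_map_map, h3]
  exact h2

theorem r (h1 : S_emod) (h2 : S_spat) (h3 : S_flow) (h4 : S_inc3) (h5 : S_inc2) (h6 : S_dvn) (h7 : S_ops) : S_etrp := by
  intro H _ _ _ _ N M ξ U J E v hInc hIII hdom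
  obtain ⟨W, hW⟩ := h2 H N M ξ U J E v hInc hdom
  obtain ⟨P₀, M₀, hmod⟩ := h6 H N M ξ U J E hInc
  obtain ⟨o1, -, o3, o4, -, o6⟩ := h7 H M ξ U hInc.modular
  have hops : ∀ x : H →L[ℂ] H, ∃ S : LR H →L[ℂ] LR H, IsConst x S := fun x => by
    obtain ⟨S, hS, -⟩ := o3 x
    exact ⟨S, hS⟩
  have hops' : ∀ t : ℝ, ∃ S : LR H →L[ℂ] LR H, IsDual U t S := fun t => by
    obtain ⟨S, hS, -⟩ := o1 t
    exact ⟨S, hS⟩
  have hU : ∀ t, star (U t) * U t = 1 := fun t => by
    rw [hInc.modular.star_eq, ← hInc.modular.add, neg_add_cancel, hInc.modular.zero]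
  have hU' : ∀ t, U t * star (U t) = 1 := fun t => by
    rw [hInc.modular.star_eq, ← hInc.modular.add, add_neg_cancel, hInc.modular.zero]
  have hw : ∀ t, star (v t * U t) * (v t * U t) = 1 := fun t => by
    rw [star_mul, mul_assoc, ← mul_assoc (star (v t)), hdom.star_mul, one_mul, hU]
  have hw' : ∀ t, (v t * U t) * star (v t * U t) = 1 := fun t => by
    rw [star_mul, mul_assoc, ← mul_assoc (U t), hU', one_mul, hdom.mul_star]
  have hK : ∀ y : H →L[ℂ] H, y ∈ M.commutant → y ∈ N.commutant := by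
    intro y hy
    rw [VonNeumannAlgebra.mem_commutant_iff] at hy ⊢
    exact fun g hg => hy g (hInc.le g hg)
  have hcen := G_trp.cen_iff hops hops' hw hw' hW
  obtain ⟨P, hP⟩ := D_dxh.wcen_vn N U v hw hw'
  have hPP : ∀ x : H →L[ℂ] H, W.conjStarAlgEquiv x ∈ P₀ ↔ x ∈ wCen N U v := fun x => by
    rw [hmod.memP, hcen]
  obtain ⟨⟨β, hβ⟩, -⟩ := h3 H N M ξ U J E (h4 H N M ξ U J E hInc hIII)
  refine ⟨P, hP, fun x hx => ?_⟩
  obtain ⟨Z, hZ, hZc⟩ := h1 H N M ξ U J E β (h5 H N M ξ U J E hInc hIII) hβ P₀ M₀ hmod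
    (W.conjStarAlgEquiv x) ((hmod.memM _).2 ((G_trp.amp_iff hops hW M hK x).2 hx))
  obtain ⟨y, rfl⟩ := EquivLike.surjective W.conjStarAlgEquiv Z
  refine ⟨y, kn_trans W P P₀ (fun y hy => (hP y).2 ((hPP y).1 hy)) x y hZ, fun z hz => ?_⟩
  have h9 := hZc _ ((hPP z).2 ((hP z).1 hz))
  rw [← map_mul, ← map_mul] at h9
  exact (EquivLike.injective W.conjStarAlgEquiv) h9

end Pool.Agent.H255.BC.E_etrp
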