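import Pool.Agent.H255.BC.All8
import Pool.Agent.H255.BC.E_eblv
import Pool.Agent.H255.BC.E_efac
import Pool.Agent.H255.BC.E_eact
import Pool.Agent.H255.BC.E_eavg
import Pool.Agent.H255.BC.E_edya
import Pool.Agent.H255.BC.E_eshf
import Pool.Agent.H255.BC.E_esurj
import Pool.Agent.H255.BC.E_emod
import Pool.Agent.H255.BC.E_etrp

/-!
The weak relative Dixmier property without irreducibility (assembly, helper255).
-/

set_option autoImplicit false

namespace Pool.Agent.H255.BC

theorem heblv : S_eblv := E_eblv.r hbic
theorem hefac : S_efac := E_efac.r hsurj hfou hpiE hgen hops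
theorem heact : S_eact := E_eact.r heblv hdiso hnear hgen hops
theorem heavg : S_eavg := E_eavg.r hBvn hbetaE hops
theorem hedya : S_edya := E_edya.r hops
theorem heshf : S_eshf := E_eshf.r hdmk hBvn hgen hops
theorem hesurj : S_esurj := E_esurj.r hpi hops hbetaE hBchar hKK
theorem hemod : S_emod := E_emod.r hdaav heshf heact heavg hedya hesurj hfou hpin hext hDT hefac
theorem hetrp : S_etrp := E_etrp.r hemod hspat hflow hinc3 hinc2 hdvn hops

end Pool.Agent.H255.BC
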