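import Pool.Agent.H255.BC.Defs

/-!
Tomita–Takesaki theory for a cyclic and separating vector, by bounded operators
(Rieffel–van Daele): interfaces (helper255).
-/

set_option autoImplicit false

open MeasureTheory Filter Topology Complex
open scoped InnerProductSpace ENNReal

namespace Pool.Agent.H255.BC

open Pool.Agent.W662.CB

noncomputable section

variable {H : Type} [NormedAddCommGroup H] [InnerProductSpace ℂ H] [CompleteSpace H]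

/-- `R = P + Q`, `D = P - Q`, where `P`, `Q` are the real orthogonal projections onto
`K = closure (M_sa ξ)` and `iK` -/
structure IsTT (M : VonNeumannAlgebra H) (ξ : H) (R : H →L[ℂ] H) (D : H → H) : Prop where
  sa : star R = R
  pos : ∀ v : H, 0 ≤ (⟪v, R v⟫_ℂ).re
  le : ∀ v : H, (⟪v, R v⟫_ℂ).re ≤ 2 * ‖v‖ ^ 2
  inj : ∀ v : H, R v = 0 → v = 0
  inj' : ∀ v : H, R v = (2 : ℂ) • v → v = 0
  add : ∀ v w : H, D (v + w) = D v + D w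
  smul : ∀ (c : ℂ) (v : H), D (c • v) = (starRingEnd ℂ c) • D v
  sq : ∀ v : H, D (D v) = R ((2 : ℂ) • v - R v)
  comm : ∀ v : H, D (R v) = (2 : ℂ) • D v - R (D v)
  symm : ∀ v w : H, ⟪D v, w⟫_ℂ = ⟪D w, v⟫_ℂ
  fix : R ξ = ξ
  fixD : D ξ = ξ
  app : ∀ z : H →L[ℂ] H, z ∈ M → D (z ξ) = (2 : ℂ) • star z ξ - R (star z ξ)
  approx : ∀ u : H, ∃ z : ℕ → H →L[ℂ] H, (∀ n, z n ∈ M) ∧
    Tendsto (fun n => star (z n) ξ) atTop (𝓝 (R u)) ∧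
    Tendsto (fun n => z n ξ) atTop (𝓝 (D u))

/-- bounded continuous functions on `(0, 2)` -/
def BC (f : ℝ → ℂ) : Prop :=
  ContinuousOn f (Set.Ioo 0 2) ∧ ∃ C : ℝ, ∀ x ∈ Set.Ioo (0 : ℝ) 2, ‖f x‖ ≤ C

/-- functional calculus of `R` (`0 ≤ R ≤ 2`, `R` and `2 - R` injective) for the bounded
continuous functions on `(0, 2)` -/
structure IsFC (R : H →L[ℂ] H) (Φ : (ℝ → ℂ) → (H →L[ℂ] H)) : Prop where
  add : ∀ f g : ℝ → ℂ, BC f → BC g → Φ (fun x => f x + g x) = Φ f + Φ g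
  mul : ∀ f g : ℝ → ℂ, BC f → BC g → Φ (fun x => f x * g x) = Φ f * Φ g
  smul : ∀ (c : ℂ) (f : ℝ → ℂ), BC f → Φ (fun x => c * f x) = c • Φ f
  star_eq : ∀ f : ℝ → ℂ, BC f → star (Φ f) = Φ (fun x => starRingEnd ℂ (f x))
  one : Φ (fun _ => 1) = 1
  id : Φ (fun x => (x : ℂ)) = R
  congr : ∀ f g : ℝ → ℂ, BC f → (∀ x ∈ Set.Ioo (0 : ℝ) 2, f x = g x) → Φ f = Φ g
  norm : ∀ (f : ℝ → ℂ) (C : ℝ), BC f → 0 ≤ C → (∀ x ∈ Set.Ioo (0 : ℝ) 2, ‖f x‖ ≤ C) → ‖Φ f‖ ≤ C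
  lim : ∀ (f : ℕ → ℝ → ℂ) (g : ℝ → ℂ) (C : ℝ), (∀ n, BC (f n)) → BC g →
    (∀ n, ∀ x ∈ Set.Ioo (0 : ℝ) 2, ‖f n x‖ ≤ C) →
    (∀ a b : ℝ, 0 < a → b < 2 → TendstoUniformlyOn f g atTop (Set.Icc a b)) →
    ∀ v : H, Tendsto (fun n => Φ (f n) v) atTop (𝓝 (Φ g v))
  comm : ∀ f : ℝ → ℂ, BC f → ∀ S : H →L[ℂ] H, S * R = R * S → S * Φ f = Φ f * S
  anti : ∀ f : ℝ → ℂ, BC f → ∀ D : H → H, (∀ v w : H, D (v + w) = D v + D w) →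
    (∀ (c : ℂ) (v : H), D (c • v) = (starRingEnd ℂ c) • D v) → (∃ C : ℝ, ∀ v, ‖D v‖ ≤ C * ‖v‖) →
    (∀ v : H, D (R v) = (2 : ℂ) • D v - R (D v)) →
    ∀ v : H, D (Φ f v) = Φ (fun x => starRingEnd ℂ (f (2 - x))) (D v)

/-- `((2 - x) / x)^{it}` -/
def uf (t : ℝ) (x : ℝ) : ℂ := cexp (I * ((t * Real.log ((2 - x) / x) : ℝ) : ℂ))

/-- `(x (2 - x))^{1/2}` -/
def tf (x : ℝ) : ℂ := ((Real.sqrt (x * (2 - x)) : ℝ) : ℂ)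

/-- `J` -/
structure IsJJ (ξ : H) (D : H → H) (Φ : (ℝ → ℂ) → (H →L[ℂ] H)) (J : H → H) : Prop where
  add : ∀ v w : H, J (v + w) = J v + J w
  smul : ∀ (c : ℂ) (v : H), J (c • v) = (starRingEnd ℂ c) • J v
  inv : ∀ v : H, J (J v) = v
  inner : ∀ v w : H, ⟪J v, J w⟫_ℂ = ⟪w, v⟫_ℂ
  fix : J ξ = ξ
  eq : ∀ v : H, D v = J (Φ tf v)
  eq' : ∀ v : H, D v = Φ tf (J v)
  anti : ∀ f : ℝ → ℂ, BC f → ∀ v : H, J (Φ f v) = Φ (fun x => starRingEnd ℂ (f (2 - x))) (J v)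

/-- V1: geometry -/
def S_V1 : Prop := ∀ (H : Type) [NormedAddCommGroup H] [InnerProductSpace ℂ H] [CompleteSpace H]
  (M : VonNeumannAlgebra H) (ξ : H), IsCyclic M ξ → IsSeparating M ξ →
  ∃ (R : H →L[ℂ] H) (D : H → H), IsTT M ξ R D ∧ IsTT M.commutant ξ ((2 : ℂ) • 1 - R) D

/-- V2: the linear Radon–Nikodym theorem -/
def S_V2 : Prop := ∀ (H : Type) [NormedAddCommGroup H] [InnerProductSpace ℂ H] [CompleteSpace H]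
  (M : VonNeumannAlgebra H) (ξ : H), IsCyclic M ξ → IsSeparating M ξ →
  ∀ (a : H →L[ℂ] H) (lam : ℂ), a ∈ M.commutant → 0 ≤ a → a ≤ 1 → 1 ≤ 2 * lam.re →
  ∃ x : H →L[ℂ] H, x ∈ M ∧ star x = x ∧ ∀ y : H →L[ℂ] H, y ∈ M →
    ⟪a ξ, y ξ⟫_ℂ = lam * ⟪ξ, x (y ξ)⟫_ℂ + starRingEnd ℂ lam * ⟪ξ, y (x ξ)⟫_ℂ

/-- V3: the fundamental identity -/
def S_V3 : Prop := ∀ (H : Type) [NormedAddCommGroup H] [InnerProductSpace ℂ H] [CompleteSpace H]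
  (M : VonNeumannAlgebra H) (ξ : H) (R : H →L[ℂ] H) (D : H → H), IsCyclic M ξ →
  IsSeparating M ξ → IsTT M ξ R D →
  ∀ (a x : H →L[ℂ] H) (lam : ℂ), a ∈ M.commutant → star a = a → x ∈ M → star x = x →
  (∀ y : H →L[ℂ] H, y ∈ M →
    ⟪a ξ, y ξ⟫_ℂ = lam * ⟪ξ, x (y ξ)⟫_ℂ + starRingEnd ℂ lam * ⟪ξ, y (x ξ)⟫_ℂ) →
  ∀ v : H, D (a (D v)) = lam • ((2 : ℂ) • x (R v) - R (x (R v))) +
    starRingEnd ℂ lam • R (x ((2 : ℂ) • v - R v))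

/-- V4: the functional calculus -/
def S_V4 : Prop := ∀ (H : Type) [NormedAddCommGroup H] [InnerProductSpace ℂ H] [CompleteSpace H]
  (R : H →L[ℂ] H), star R = R → (∀ v : H, 0 ≤ (⟪v, R v⟫_ℂ).re) →
  (∀ v : H, (⟪v, R v⟫_ℂ).re ≤ 2 * ‖v‖ ^ 2) → (∀ v : H, R v = 0 → v = 0) →
  (∀ v : H, R v = (2 : ℂ) • v → v = 0) → ∃ Φ : (ℝ → ℂ) → (H →L[ℂ] H), IsFC R Φ

/-- V5: the conjugation -/
def S_V5 : Prop := ∀ (H : Type) [NormedAddCommGroup H] [InnerProductSpace ℂ H] [CompleteSpace H]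
  (M : VonNeumannAlgebra H) (ξ : H) (R : H →L[ℂ] H) (D : H → H) (Φ : (ℝ → ℂ) → (H →L[ℂ] H)),
  IsTT M ξ R D → IsFC R Φ → ∃ J : H → H, IsJJ ξ D Φ J

/-- V6: the unitary group -/
def S_V6 : Prop := ∀ (H : Type) [NormedAddCommGroup H] [InnerProductSpace ℂ H] [CompleteSpace H]
  (ξ : H) (R : H →L[ℂ] H) (Φ : (ℝ → ℂ) → (H →L[ℂ] H)), IsFC R Φ → R ξ = ξ →
  Φ (uf 0) = 1 ∧ (∀ s t : ℝ, Φ (uf (s + t)) = Φ (uf s) * Φ (uf t)) ∧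
  (∀ t : ℝ, star (Φ (uf t)) = Φ (uf (-t))) ∧ (∀ v : H, Continuous fun t : ℝ => Φ (uf t) v) ∧
  (∀ t : ℝ, Φ (uf t) ξ = ξ) ∧ ∀ t : ℝ, BC (uf t)

/-- V7: the integral formula -/
def S_V7 : Prop := ∀ (H : Type) [NormedAddCommGroup H] [InnerProductSpace ℂ H] [CompleteSpace H]
  (R : H →L[ℂ] H) (Φ : (ℝ → ℂ) → (H →L[ℂ] H)), IsFC R Φ → ∀ (B x : H →L[ℂ] H) (θ : ℝ),
  |θ| < Real.pi →
  (∀ v : H, Φ tf (B (Φ tf v)) =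
    cexp (I * θ / 2) • ((2 : ℂ) • x (R v) - R (x (R v))) +
    cexp (-(I * θ / 2)) • R (x ((2 : ℂ) • v - R v))) →
  ∀ v w : H, ⟪v, x w⟫_ℂ = ∫ t : ℝ, ((Real.exp (-θ * t) / (2 * Real.cosh (Real.pi * t)) : ℝ) : ℂ) *
    ⟪v, Φ (uf t) (B (Φ (uf (-t)) w))⟫_ℂ

/-- V8: uniqueness -/
def S_V8 : Prop := ∀ g : ℝ → ℂ, Continuous g → (∃ C : ℝ, ∀ t, ‖g t‖ ≤ C) →
  (∀ θ : ℝ, |θ| < Real.pi →
    ∫ t : ℝ, ((Real.exp (-θ * t) / (2 * Real.cosh (Real.pi * t)) : ℝ) : ℂ) * g t = 0) →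
  ∀ t : ℝ, g t = 0

/-- V9: one half of Tomita's theorem -/
def S_V9 : Prop := ∀ (H : Type) [NormedAddCommGroup H] [InnerProductSpace ℂ H] [CompleteSpace H]
  (M : VonNeumannAlgebra H) (ξ : H) (R : H →L[ℂ] H) (D : H → H) (Φ : (ℝ → ℂ) → (H →L[ℂ] H))
  (J : H → H), IsCyclic M ξ → IsSeparating M ξ → IsTT M ξ R D → IsFC R Φ → IsJJ ξ D Φ J →
  ∀ (a : H →L[ℂ] H) (t : ℝ), a ∈ M.commutant → ∃ b : H →L[ℂ] H, b ∈ M ∧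
    ∀ v : H, b v = Φ (uf t) (J (a (J (Φ (uf (-t)) v))))

/-- V10: the KMS condition -/
def S_V10 : Prop := ∀ (H : Type) [NormedAddCommGroup H] [InnerProductSpace ℂ H] [CompleteSpace H]
  (M : VonNeumannAlgebra H) (ξ : H) (R : H →L[ℂ] H) (D : H → H) (Φ : (ℝ → ℂ) → (H →L[ℂ] H))
  (J : H → H), IsTT M ξ R D → IsFC R Φ → IsJJ ξ D Φ J →
  ∀ a b : H →L[ℂ] H, a ∈ M → b ∈ M → ∃ F : ℂ → ℂ,
    ContinuousOn F {z : ℂ | 0 ≤ z.im ∧ z.im ≤ 1} ∧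
    DifferentiableOn ℂ F {z : ℂ | 0 < z.im ∧ z.im < 1} ∧
    (∃ C : ℝ, ∀ z : ℂ, 0 ≤ z.im → z.im ≤ 1 → ‖F z‖ ≤ C) ∧
    ∀ t : ℝ, F t = ⟪star a ξ, Φ (uf (-t)) (b ξ)⟫_ℂ ∧ F (t + I) = ⟪star b ξ, Φ (uf t) (a ξ)⟫_ℂ

/-- V11: Tomita–Takesaki: existence of the modular group -/
def S_TT : Prop := ∀ (H : Type) [NormedAddCommGroup H] [InnerProductSpace ℂ H] [CompleteSpace H]
  (M : VonNeumannAlgebra H) (ξ : H), IsCyclic M ξ → IsSeparating M ξ →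
  ∃ U : ℝ → H →L[ℂ] H, IsModular M ξ U

/-- V12: uniqueness of the modular group -/
def S_TTu : Prop := ∀ (H : Type) [NormedAddCommGroup H] [InnerProductSpace ℂ H] [CompleteSpace H]
  (M : VonNeumannAlgebra H) (ξ : H) (U U' : ℝ → H →L[ℂ] H), IsCyclic M ξ →
  IsModular M ξ U → IsModular M ξ U' → U = U'

end

end Pool.Agent.H255.BC
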