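import Pool.Agent.H255.BC.Defs2
import Pool.Agent.H255.BC.Defs4

/-!
The Connes–Størmer theorem from `S(M) = [0, ∞)`: definitions and interfaces (helper255).
-/

set_option autoImplicit false

open MeasureTheory Filter Topology Complex
open scoped InnerProductSpace ENNReal FourierTransform

namespace Pool.Agent.H255.BC

open Pool.Agent.W662.CB

noncomputable section

variable {H : Type} [NormedAddCommGroup H] [InnerProductSpace ℂ H] [CompleteSpace H]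

/-- `Sp(Δ) = [0, ∞)`, where `U_t = Δ^{it}`: every `e^κ`, `κ ∈ ℝ`, is an approximate eigenvalue of
`Δ`. -/
def FullSpec (U : ℝ → H →L[ℂ] H) : Prop :=
  ∀ κ T ε : ℝ, 0 < ε → ∃ ζ : H, ‖ζ‖ = 1 ∧
    ∀ t : ℝ, |t| ≤ T → ‖U t ζ - cexp (I * ((t * κ : ℝ) : ℂ)) • ζ‖ ≤ ε

/-- `N` is a (σ-finite) factor of type III₁: `N ≠ ℂ`, every non-zero projection of `N` is
equivalent to `1` (σ-finite factor of type III), and `S(N) = [0, ∞)`: for every faithful normal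
state of `N`, given by a `*`-isomorphism `ρ` of `N` onto a von Neumann algebra `N₁` and a cyclic
and separating unit vector `η` of `N₁`, the modular operator has the spectrum `[0, ∞)`. -/
structure IsTypeIIIone (N : VonNeumannAlgebra H) : Prop where
  nontriv : ∃ p : H →L[ℂ] H, p ∈ N ∧ p * p = p ∧ star p = p ∧ p ≠ 0 ∧ p ≠ 1
  equiv : ∀ p : H →L[ℂ] H, p ∈ N → p * p = p → star p = p → p ≠ 0 →
    ∃ v : H →L[ℂ] H, v ∈ N ∧ star v * v = 1 ∧ v * star v = p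
  spec : ∀ (K : Type) [NormedAddCommGroup K] [InnerProductSpace ℂ K] [CompleteSpace K]
    (N₁ : VonNeumannAlgebra K) (_ρ : N.toStarSubalgebra ≃⋆ₐ[ℂ] N₁.toStarSubalgebra) (η : K)
    (U : ℝ → K →L[ℂ] K), ‖η‖ = 1 → IsCyclic N₁ η → IsSeparating N₁ η → IsModular N₁ η U →
    FullSpec U

/-- modular data of a cyclic and separating vector -/
structure Mod (M : VonNeumannAlgebra H) (ξ : H) (U : ℝ → H →L[ℂ] H) (J : H → H) : Prop where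
  cyc : IsCyclic M ξ
  sep : IsSeparating M ξ
  modular : IsModular M ξ U
  conj : IsConj M ξ U J

/-- projections of `M` -/
structure IsPr (M : VonNeumannAlgebra H) (p : H →L[ℂ] H) : Prop where
  mem : p ∈ M
  idem : p * p = p
  sa : star p = p

/-- C1: universality of the conjugation -/
def S_univ : Prop := ∀ (H : Type) [NormedAddCommGroup H] [InnerProductSpace ℂ H] [CompleteSpace H]
  (M : VonNeumannAlgebra H) (ξ : H) (U : ℝ → H →L[ℂ] H) (J : H → H), Mod M ξ U J →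
  ∀ (ξ' : H) (U' : ℝ → H →L[ℂ] H), ξ' ∈ cone M ξ J → IsSeparating M ξ' → IsModular M ξ' U' →
  Mod M ξ' U' J

/-- C2: projections of the centralizer -/
def S_fixp : Prop := ∀ (H : Type) [NormedAddCommGroup H] [InnerProductSpace ℂ H] [CompleteSpace H]
  (M : VonNeumannAlgebra H) (ξ : H) (U : ℝ → H →L[ℂ] H) (J : H → H), Mod M ξ U J →
  ∀ p : H →L[ℂ] H, IsPr M p → (J (p ξ) = p ξ ↔ ∀ t : ℝ, sgm U t p = p)

/-- C2b: projections commuting with the state -/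
def S_cent : Prop := ∀ (H : Type) [NormedAddCommGroup H] [InnerProductSpace ℂ H] [CompleteSpace H]
  (M : VonNeumannAlgebra H) (ξ : H) (U : ℝ → H →L[ℂ] H) (J : H → H), Mod M ξ U J →
  ∀ p : H →L[ℂ] H, IsPr M p → (∀ x : H →L[ℂ] H, x ∈ M → vst ξ (p * x) = vst ξ (x * p)) →
  J (p ξ) = p ξ

/-- C3: the spectrum of the corners -/
def S_cor : Prop := ∀ (H : Type) [NormedAddCommGroup H] [InnerProductSpace ℂ H] [CompleteSpace H]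
  (M : VonNeumannAlgebra H) (ξ : H) (U : ℝ → H →L[ℂ] H) (J : H → H), Mod M ξ U J →
  IsTypeIIIone M → ∀ e : H →L[ℂ] H, IsPr M e → e ≠ 0 → J (e ξ) = e ξ →
  ∀ h : ℝ → ℂ, Tst h → (∃ κ : ℝ, h κ ≠ 0) →
  ∃ a : H →L[ℂ] H, a ∈ M ∧ e * a * e = a ∧ psi U h (a ξ) ≠ 0

/-- C4: the spectrum of products -/
def S_sp2 : Prop := ∀ (H : Type) [NormedAddCommGroup H] [InnerProductSpace ℂ H] [CompleteSpace H]
  (M : VonNeumannAlgebra H) (ξ : H) (U : ℝ → H →L[ℂ] H) (J : H → H), Mod M ξ U J →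
  ∀ (h₀ h₁ h₂ : ℝ → ℂ) (A A' B B' δ : ℝ), Tst h₀ → Tst h₁ → Tst h₂ → 0 < δ →
  (∀ κ, κ < A → h₀ κ = 0) → (∀ κ, A' < κ → h₀ κ = 0) → (∀ κ, κ < B → h₁ κ = 0) →
  (∀ κ, B' < κ → h₁ κ = 0) → (∀ κ, A + B - δ ≤ κ → κ ≤ A' + B' + δ → h₂ κ = 1) →
  ∀ a b x y : H →L[ℂ] H, a ∈ M → b ∈ M → x ∈ M → y ∈ M → x ξ = psi U h₀ (a ξ) →
  y ξ = psi U h₁ (b ξ) → psi U h₂ ((x * y) ξ) = (x * y) ξ

/-- C5: elements between two projections of the centralizer, of spectrum near `0` -/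
def S_spi : Prop := ∀ (H : Type) [NormedAddCommGroup H] [InnerProductSpace ℂ H] [CompleteSpace H]
  (M : VonNeumannAlgebra H) (ξ : H) (U : ℝ → H →L[ℂ] H) (J : H → H), Mod M ξ U J →
  IsTypeIIIone M → ∀ e f : H →L[ℂ] H, IsPr M e → IsPr M f → e ≠ 0 → f ≠ 0 → J (e ξ) = e ξ →
  J (f ξ) = f ξ → ∀ δ : ℝ, 0 < δ → ∃ z : H →L[ℂ] H, z ∈ M ∧ z ≠ 0 ∧ f * z * e = z ∧
    ‖J (star z ξ) - z ξ‖ ≤ δ * ‖z ξ‖

/-- C6: approximation by finite sums of orthogonal partial isometries -/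
def S_dec : Prop := ∀ (H : Type) [NormedAddCommGroup H] [InnerProductSpace ℂ H] [CompleteSpace H]
  (M : VonNeumannAlgebra H) (x : H →L[ℂ] H), x ∈ M → ∀ ε : ℝ, 0 < ε →
  ∃ (n : ℕ) (w : Fin n → H →L[ℂ] H) (l : Fin n → ℝ), (∀ j, w j ∈ M) ∧ (∀ j, 0 < l j) ∧
    StrictMono l ∧ (∀ j, w j * star (w j) * w j = w j) ∧
    (∀ i j, i ≠ j → star (w i) * w j = 0 ∧ w i * star (w j) = 0) ∧
    ‖x - ∑ j, ((l j : ℝ) : ℂ) • w j‖ ≤ ε ∧
    ∀ e f : H →L[ℂ] H, e * e = e → star e = e → f * f = f → star f = f → f * x * e = x →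
      ∀ j, f * w j * e = w j

/-- C7: Connes' trick -/
def S_con : Prop := ∀ (H : Type) [NormedAddCommGroup H] [InnerProductSpace ℂ H] [CompleteSpace H]
  (M : VonNeumannAlgebra H) (ξ : H) (U : ℝ → H →L[ℂ] H) (J : H → H), Mod M ξ U J →
  ∀ e f : H →L[ℂ] H, IsPr M e → IsPr M f → e * f = 0 → J (e ξ) = e ξ → J (f ξ) = f ξ →
  ∀ (x : H →L[ℂ] H) (δ : ℝ), x ∈ M → x ≠ 0 → f * x * e = x → 0 < δ → δ ≤ 1 / 8 →
  ‖J (star x ξ) - x ξ‖ ≤ δ * ‖x ξ‖ →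
  ∃ w : H →L[ℂ] H, w ∈ M ∧ w ≠ 0 ∧ f * w * e = w ∧ w * star w * w = w ∧
    ‖J (star w ξ) - w ξ‖ ^ 2 ≤ 16 * δ * ‖w ξ‖ ^ 2

/-- C8: approximately intertwining partial isometries -/
def S_ai : Prop := ∀ (H : Type) [NormedAddCommGroup H] [InnerProductSpace ℂ H] [CompleteSpace H]
  (M : VonNeumannAlgebra H) (ξ : H) (U : ℝ → H →L[ℂ] H) (J : H → H), Mod M ξ U J →
  IsTypeIIIone M → ∀ e f : H →L[ℂ] H, IsPr M e → IsPr M f → e * f = 0 → e ≠ 0 → f ≠ 0 →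
  J (e ξ) = e ξ → J (f ξ) = f ξ → ∀ δ : ℝ, 0 < δ → ∃ w : H →L[ℂ] H, w ∈ M ∧ w ≠ 0 ∧
    f * w * e = w ∧ w * star w * w = w ∧ ‖J (star w ξ) - w ξ‖ ≤ δ * ‖w ξ‖

/-- C8b: corners of a separating vector of the cone -/
def S_sepz : Prop := ∀ (H : Type) [NormedAddCommGroup H] [InnerProductSpace ℂ H] [CompleteSpace H]
  (M : VonNeumannAlgebra H) (ξ : H) (U : ℝ → H →L[ℂ] H) (J : H → H), Mod M ξ U J →
  ∀ ζ : H, ζ ∈ cone M ξ J → IsSeparating M ζ → ∀ z x : H →L[ℂ] H, IsPr M z → x ∈ M →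
  x (z (J (z (J ζ)))) = 0 → x * z = 0

/-- C9: pinching of vectors of the cone -/
def S_pnc : Prop := ∀ (H : Type) [NormedAddCommGroup H] [InnerProductSpace ℂ H] [CompleteSpace H]
  (M : VonNeumannAlgebra H) (ξ : H) (U : ℝ → H →L[ℂ] H) (J : H → H), Mod M ξ U J →
  ∀ ζ : H, ζ ∈ cone M ξ J → IsSeparating M ζ → ∀ p q r : H →L[ℂ] H, IsPr M p → IsPr M q →
  IsPr M r → p * q = 0 → p * r = 0 → q * r = 0 → p + q + r = 1 → ∀ ζ' : H,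
  ζ' = p (J (p (J ζ))) + q (J (q (J ζ))) + r (J (r (J ζ))) →
    ζ' ∈ cone M ξ J ∧ IsSeparating M ζ' ∧ J (p ζ') = p ζ' ∧ J (q ζ') = q ζ' ∧ J (r ζ') = r ζ' ∧
    ‖ζ - ζ'‖ ^ 2 + ‖ζ'‖ ^ 2 = ‖ζ‖ ^ 2 ∧
    ∀ z : H →L[ℂ] H, IsPr M z → z * p = p * z → z * q = q * z → z * r = r * z →
      J (z ζ) = z ζ → J (z ζ') = z ζ'

/-- C10: exhaustion -/
def S_exh : Prop := ∀ (H : Type) [NormedAddCommGroup H] [InnerProductSpace ℂ H] [CompleteSpace H]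
  (M : VonNeumannAlgebra H) (ξ : H) (U : ℝ → H →L[ℂ] H) (J : H → H), Mod M ξ U J →
  IsTypeIIIone M → ‖ξ‖ = 1 → ∀ e f : H →L[ℂ] H, IsPr M e → IsPr M f → e * f = 0 → e + f = 1 →
  J (e ξ) = e ξ → ‖e ξ‖ = ‖f ξ‖ → ∀ ε : ℝ, 0 < ε → ∃ w : H →L[ℂ] H, w ∈ M ∧
    f * w * e = w ∧ w * star w * w = w ∧ ‖J (star w ξ) - w ξ‖ ≤ ε ∧
    ‖e ξ - star w (w ξ)‖ ≤ ε ∧ ‖f ξ - w (star w ξ)‖ ≤ ε

/-- C11: homogeneity of the state space in the standard representation -/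
def S_hom1 : Prop := ∀ (H : Type) [NormedAddCommGroup H] [InnerProductSpace ℂ H] [CompleteSpace H]
  (M : VonNeumannAlgebra H) (ξ : H), IsCyclic M ξ → IsSeparating M ξ → IsTypeIIIone M →
  ∀ η ζ : H, ‖η‖ = 1 → ‖ζ‖ = 1 → ∀ ε : ℝ, 0 < ε →
    ∃ u : H →L[ℂ] H, u ∈ M ∧ star u * u = 1 ∧ u * star u = 1 ∧
      ∀ x : H →L[ℂ] H, x ∈ M → ‖x‖ ≤ 1 → ‖⟪u η, x (u η)⟫_ℂ - ⟪ζ, x ζ⟫_ℂ‖ ≤ ε

/-- C12: the Connes–Størmer theorem -/
def S_hom : Prop := ∀ (H : Type) [NormedAddCommGroup H] [InnerProductSpace ℂ H] [CompleteSpace H]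
  (N : VonNeumannAlgebra H) (ξ : H), ‖ξ‖ = 1 → IsSeparating N ξ → IsTypeIIIone N → IsTypeIII1 N

end

end Pool.Agent.H255.BC
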