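import Pool.Agent.H255.BC.Defs2

/-!
Strong convergence suffices in the definition of the relative bicentralizer (helper255).
-/

set_option autoImplicit false

open MeasureTheory Filter Topology Complex
open scoped InnerProductSpace ENNReal FourierTransform

namespace Pool.Agent.H255.BC

open Pool.Agent.W662.CB

/-- in the definition of the relative bicentralizer strong convergence suffices -/
def S_str : Prop := ∀ (H : Type) [NormedAddCommGroup H] [InnerProductSpace ℂ H] [CompleteSpace H]
  (N M : VonNeumannAlgebra H) (ξ : H) (U : ℝ → H →L[ℂ] H) (J : H → H)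
  (E : (H →L[ℂ] H) → (H →L[ℂ] H)), Inc N M ξ U J E →
  ∀ b : H →L[ℂ] H, b ∈ M → (∀ a : ℕ → H →L[ℂ] H, (∀ n, a n ∈ N) → (∃ C : ℝ, ∀ n, ‖a n‖ ≤ C) →
    Tendsto (fun n => commNorm M ξ (a n)) atTop (𝓝 0) →
    ∀ v : H, Tendsto (fun n => (a n * b - b * a n) v) atTop (𝓝 0)) → b ∈ relBicentralizer N M ξ

end Pool.Agent.H255.BC
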