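import Mathlib

/-!
The relative bicentralizer flow and the relative flow of weights: the notions used in the
statements of the theorems (helper255).

`N ⊂ M` are von Neumann algebras on the Hilbert space `H`, `ξ ∈ H` is a unit vector which is
cyclic and separating for `M`, and `φ(x) = ⟨ξ, x ξ⟩`.
-/

set_option autoImplicit false

open Filter Topology Complex
open scoped InnerProductSpace

namespace Pool.Agent.H255.BC.Main

noncomputable section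

variable {H : Type} [NormedAddCommGroup H] [InnerProductSpace ℂ H] [CompleteSpace H]

/-- The vector state `φ(x) = ⟨ξ, x ξ⟩`. -/
def st (ξ : H) (x : H →L[ℂ] H) : ℂ := ⟪ξ, x ξ⟫_ℂ

/-- `ξ` is cyclic for `M`. -/
def Cyclic (M : VonNeumannAlgebra H) (ξ : H) : Prop :=
  Dense {v : H | ∃ x : H →L[ℂ] H, x ∈ M ∧ x ξ = v}

/-- `ξ` is separating for `M`. -/
def Separating (M : VonNeumannAlgebra H) (ξ : H) : Prop :=
  ∀ x : H →L[ℂ] H, x ∈ M → x ξ = 0 → x = 0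

/-- `σ_t(x) = U_t x U_t^*`. -/
def sig (U : ℝ → H →L[ℂ] H) (t : ℝ) (x : H →L[ℂ] H) : H →L[ℂ] H := U t * x * star (U t)

/-- `U_t = Δ^{it}` is the modular group of `(M, ξ)`: a strongly continuous one-parameter group of
unitaries fixing `ξ` such that `σ_t = Ad U_t` leaves `M` invariant and `φ` satisfies the modular
(KMS) condition. -/
structure Modular (M : VonNeumannAlgebra H) (ξ : H) (U : ℝ → H →L[ℂ] H) : Prop where
  zero : U 0 = 1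
  add : ∀ s t : ℝ, U (s + t) = U s * U t
  star_eq : ∀ t : ℝ, star (U t) = U (-t)
  cont : ∀ v : H, Continuous fun t : ℝ => U t v
  fix : ∀ t : ℝ, U t ξ = ξ
  mem : ∀ (t : ℝ) (x : H →L[ℂ] H), x ∈ M → sig U t x ∈ M
  kms : ∀ a b : H →L[ℂ] H, a ∈ M → b ∈ M → ∃ F : ℂ → ℂ,
    ContinuousOn F {z : ℂ | 0 ≤ z.im ∧ z.im ≤ 1} ∧
    DifferentiableOn ℂ F {z : ℂ | 0 < z.im ∧ z.im < 1} ∧
    (∃ C : ℝ, ∀ z : ℂ, 0 ≤ z.im → z.im ≤ 1 → ‖F z‖ ≤ C) ∧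
    ∀ t : ℝ, F t = st ξ (sig U t a * b) ∧ F (t + I) = st ξ (b * sig U t a)

/-- `E` is a conditional expectation of `M` onto `N`. -/
structure CondExp (M N : VonNeumannAlgebra H) (E : (H →L[ℂ] H) → (H →L[ℂ] H)) : Prop where
  mem : ∀ x : H →L[ℂ] H, x ∈ M → E x ∈ N
  proj : ∀ x : H →L[ℂ] H, x ∈ N → E x = x
  add : ∀ x y : H →L[ℂ] H, x ∈ M → y ∈ M → E (x + y) = E x + E y
  smul : ∀ (c : ℂ) (x : H →L[ℂ] H), x ∈ M → E (c • x) = c • E x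
  star_eq : ∀ x : H →L[ℂ] H, x ∈ M → E (star x) = star (E x)
  pos : ∀ x : H →L[ℂ] H, x ∈ M → 0 ≤ x → 0 ≤ E x
  left : ∀ a x : H →L[ℂ] H, a ∈ N → x ∈ M → E (a * x) = a * E x
  right : ∀ a x : H →L[ℂ] H, a ∈ N → x ∈ M → E (x * a) = E x * a

/-- The inclusion `N ⊂ M` with the vector `ξ` and the conditional expectation `E`, `φ ∘ E = φ`. -/
structure Inclusion (N M : VonNeumannAlgebra H) (ξ : H) (E : (H →L[ℂ] H) → (H →L[ℂ] H)) :
    Prop where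
  le : ∀ x : H →L[ℂ] H, x ∈ N → x ∈ M
  unit : ‖ξ‖ = 1
  cyc : Cyclic M ξ
  sep : Separating M ξ
  exp : CondExp M N E
  inv : ∀ x : H →L[ℂ] H, x ∈ M → st ξ (E x) = st ξ x

/-- The spectrum of `Δ` is `[0, ∞)`, where `U_t = Δ^{it}`: for every `κ ∈ ℝ` the number `e^κ` is an
approximate eigenvalue of `Δ`. -/
def FullSpectrum (U : ℝ → H →L[ℂ] H) : Prop :=
  ∀ κ T ε : ℝ, 0 < ε → ∃ ζ : H, ‖ζ‖ = 1 ∧
    ∀ t : ℝ, |t| ≤ T → ‖U t ζ - cexp (I * ((t * κ : ℝ) : ℂ)) • ζ‖ ≤ ε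

/-- `ρ` is a `*`-isomorphism of `N` onto `N₁`. -/
structure StarIso {K : Type} [NormedAddCommGroup K] [InnerProductSpace ℂ K] [CompleteSpace K]
    (N : VonNeumannAlgebra H) (N₁ : VonNeumannAlgebra K) (ρ : (H →L[ℂ] H) → K →L[ℂ] K) :
    Prop where
  mem : ∀ x : H →L[ℂ] H, x ∈ N → ρ x ∈ N₁
  inj : ∀ x y : H →L[ℂ] H, x ∈ N → y ∈ N → ρ x = ρ y → x = y
  surj : ∀ y : K →L[ℂ] K, y ∈ N₁ → ∃ x : H →L[ℂ] H, x ∈ N ∧ ρ x = y
  add : ∀ x y : H →L[ℂ] H, x ∈ N → y ∈ N → ρ (x + y) = ρ x + ρ y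
  smul : ∀ (c : ℂ) (x : H →L[ℂ] H), x ∈ N → ρ (c • x) = c • ρ x
  mul : ∀ x y : H →L[ℂ] H, x ∈ N → y ∈ N → ρ (x * y) = ρ x * ρ y
  star_eq : ∀ x : H →L[ℂ] H, x ∈ N → ρ (star x) = star (ρ x)

/-- `N` is a σ-finite factor of type III₁: `N ≠ ℂ`, every non-zero projection of `N` is equivalent
to `1` (σ-finite factor of type III), and `S(N) = [0, ∞)`: for every faithful normal state of `N`,
given by a `*`-isomorphism of `N` onto a von Neumann algebra `N₁` and a cyclic and separating unit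
vector `η` of `N₁`, the modular operator has the spectrum `[0, ∞)`. -/
structure TypeIIIone (N : VonNeumannAlgebra H) : Prop where
  nontriv : ∃ p : H →L[ℂ] H, p ∈ N ∧ p * p = p ∧ star p = p ∧ p ≠ 0 ∧ p ≠ 1
  equiv : ∀ p : H →L[ℂ] H, p ∈ N → p * p = p → star p = p → p ≠ 0 →
    ∃ v : H →L[ℂ] H, v ∈ N ∧ star v * v = 1 ∧ v * star v = p
  spec : ∀ (K : Type) [NormedAddCommGroup K] [InnerProductSpace ℂ K] [CompleteSpace K]
    (N₁ : VonNeumannAlgebra K) (ρ : (H →L[ℂ] H) → K →L[ℂ] K) (η : K) (U : ℝ → K →L[ℂ] K),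
    StarIso N N₁ ρ → ‖η‖ = 1 → Cyclic N₁ η → Separating N₁ η → Modular N₁ η U →
    FullSpectrum U

/-- The norm of the functional `aφ - lam φa` on `N`, where `aφ = φ(· a)`, `φa = φ(a ·)`. -/
def twNorm (N : VonNeumannAlgebra H) (ξ : H) (lam : ℝ) (a : H →L[ℂ] H) : ℝ :=
  sSup {r : ℝ | ∃ x : H →L[ℂ] H, x ∈ N ∧ ‖x‖ ≤ 1 ∧ r = ‖st ξ (x * a) - (lam : ℂ) * st ξ (a * x)‖}

/-- The relative bicentralizer `B(N ⊂ M, φ)`: all `x ∈ M` with `a_n x - x a_n → 0` strongly for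
every bounded sequence `(a_n)` in `N` with `‖a_n φ - φ a_n‖ → 0`. -/
def Bic (N M : VonNeumannAlgebra H) (ξ : H) : Set (H →L[ℂ] H) :=
  {x | x ∈ M ∧ ∀ a : ℕ → H →L[ℂ] H, (∀ n, a n ∈ N) → (∃ C : ℝ, ∀ n, ‖a n‖ ≤ C) →
    Tendsto (fun n => twNorm N ξ 1 (a n)) atTop (𝓝 0) →
    ∀ v : H, Tendsto (fun n => (a n * x - x * a n) v) atTop (𝓝 0)}

/-- `β` is the relative bicentralizer flow: a continuous action of `ℝ*₊` on `B(N ⊂ M, φ)` by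
automorphisms such that `a_n x - β_lam(x) a_n → 0` *-strongly whenever `(a_n)` is a bounded
sequence in `N` with `‖a_n φ - lam φ a_n‖ → 0`. -/
structure BicFlow (N M : VonNeumannAlgebra H) (ξ : H)
    (β : ℝ → (H →L[ℂ] H) → (H →L[ℂ] H)) : Prop where
  mem : ∀ lam : ℝ, 0 < lam → ∀ x ∈ Bic N M ξ, β lam x ∈ Bic N M ξ
  one : ∀ x ∈ Bic N M ξ, β 1 x = x
  comp : ∀ lam mu : ℝ, 0 < lam → 0 < mu → ∀ x ∈ Bic N M ξ, β (lam * mu) x = β lam (β mu x)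
  add : ∀ lam : ℝ, 0 < lam → ∀ x ∈ Bic N M ξ, ∀ y ∈ Bic N M ξ, β lam (x + y) = β lam x + β lam y
  smul : ∀ lam : ℝ, 0 < lam → ∀ (c : ℂ), ∀ x ∈ Bic N M ξ, β lam (c • x) = c • β lam x
  mul : ∀ lam : ℝ, 0 < lam → ∀ x ∈ Bic N M ξ, ∀ y ∈ Bic N M ξ, β lam (x * y) = β lam x * β lam y
  star_eq : ∀ lam : ℝ, 0 < lam → ∀ x ∈ Bic N M ξ, β lam (star x) = star (β lam x)
  cont : ∀ x ∈ Bic N M ξ, ∀ v : H, Continuous fun p : ℝ => β (Real.exp p) x v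
  lim : ∀ a : ℕ → H →L[ℂ] H, (∀ n, a n ∈ N) → (∃ C : ℝ, ∀ n, ‖a n‖ ≤ C) → ∀ lam : ℝ, 0 < lam →
    Tendsto (fun n => twNorm N ξ lam (a n)) atTop (𝓝 0) → ∀ x ∈ Bic N M ξ, ∀ v : H,
      Tendsto (fun n => (a n * x - β lam x * a n) v) atTop (𝓝 0) ∧
      Tendsto (fun n => star (a n * x - β lam x * a n) v) atTop (𝓝 0)

/-- A strongly continuous unitary `σ^φ`-cocycle in `N`: the Connes cocycle `v_t = (Dψ : Dφ)_t` of a
faithful normal semifinite weight `ψ` on `N` (by Connes' theorem every cocycle is the Connes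
cocycle of exactly one such weight). -/
structure Cocycle (N : VonNeumannAlgebra H) (U v : ℝ → H →L[ℂ] H) : Prop where
  mem : ∀ t : ℝ, v t ∈ N
  star_mul : ∀ t : ℝ, star (v t) * v t = 1
  mul_star : ∀ t : ℝ, v t * star (v t) = 1
  cont : ∀ ζ : H, Continuous fun t : ℝ => v t ζ
  cocycle : ∀ s t : ℝ, v (s + t) = v s * sig U s (v t)

/-- `σ^ψ_t(x) = v_t σ^φ_t(x) v_t^*` -/
def sigw (U v : ℝ → H →L[ℂ] H) (t : ℝ) (x : H →L[ℂ] H) : H →L[ℂ] H := v t * sig U t x * star (v t)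

/-- The centralizer `N_ψ` of `ψ`: the fixed points of `σ^ψ` in `N`. -/
def Centralizer (N : VonNeumannAlgebra H) (U v : ℝ → H →L[ℂ] H) : Set (H →L[ℂ] H) :=
  {x | x ∈ N ∧ ∀ t : ℝ, sigw U v t x = x}

/-- `u` is a unitary of `N` with `u ψ u^* = lam ψ`, i.e. `σ^ψ_t(u) = lam^{-it} u`. -/
def Scales (N : VonNeumannAlgebra H) (U v : ℝ → H →L[ℂ] H) (lam : ℝ) (u : H →L[ℂ] H) : Prop :=
  u ∈ N ∧ star u * u = 1 ∧ u * star u = 1 ∧
    ∀ t : ℝ, sigw U v t u = cexp (-(I * ((t * Real.log lam : ℝ) : ℂ))) • u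

/-- `ψ` is a dominant weight: `N_ψ` is properly infinite (it contains two isometries whose range
projections have sum `1`) and for every `lam > 0` there is a unitary `u ∈ N` with
`u ψ u^* = lam ψ`. -/
structure Dominant (N : VonNeumannAlgebra H) (U v : ℝ → H →L[ℂ] H) : Prop extends
    Cocycle N U v where
  inf : ∃ s r : H →L[ℂ] H, s ∈ Centralizer N U v ∧ r ∈ Centralizer N U v ∧ star s * s = 1 ∧
    star r * r = 1 ∧ s * star s + r * star r = 1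
  scale : ∀ lam : ℝ, 0 < lam → ∃ u : H →L[ℂ] H, Scales N U v lam u

/-- `π` is a `*`-isomorphism of `B = B(N ⊂ M, φ)` onto `C = (N_ψ)' ∩ M` with
`π ∘ β_lam = θ^ψ_lam ∘ π`, `θ^ψ_lam = Ad u` for any unitary `u ∈ N` with `u ψ u^* = lam ψ`, and
`E(π(x)) = φ(E(x)) 1`. -/
structure FlowIso (N M : VonNeumannAlgebra H) (ξ : H) (U : ℝ → H →L[ℂ] H)
    (E : (H →L[ℂ] H) → (H →L[ℂ] H)) (β : ℝ → (H →L[ℂ] H) → (H →L[ℂ] H)) (v : ℝ → H →L[ℂ] H)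
    (B C : VonNeumannAlgebra H) (π : B.toStarSubalgebra ≃⋆ₐ[ℂ] C.toStarSubalgebra) : Prop where
  memB : ∀ x : H →L[ℂ] H, x ∈ B ↔ x ∈ Bic N M ξ
  memC : ∀ x : H →L[ℂ] H, x ∈ C ↔ (x ∈ M ∧ ∀ y ∈ Centralizer N U v, x * y = y * x)
  flow : ∀ lam : ℝ, 0 < lam → ∀ x y : B.toStarSubalgebra, (y : H →L[ℂ] H) = β lam x →
    ∀ u : H →L[ℂ] H, Scales N U v lam u → (π y : H →L[ℂ] H) = u * (π x : H →L[ℂ] H) * star u
  exp : ∀ x : B.toStarSubalgebra, E (π x : H →L[ℂ] H) = st ξ (E x) • (1 : H →L[ℂ] H)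

end

end Pool.Agent.H255.BC.Main
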