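import Pool.Agent.H255.BC.Defs5
import Pool.Agent.H255.BC.Defs6
import Pool.Agent.H255.BC.Defs7
import Pool.Agent.H255.BC.Statement
import Pool.Agent.H255.BC.R_inc2

/-!
The notions of `Statement.lean` agree with those used in the proofs (helper255).
-/

set_option autoImplicit false

open Filter Topology Complex
open scoped InnerProductSpace

namespace Pool.Agent.H255.BC.Bridge

open Pool.Agent.W662.CB Pool.Agent.H255.BC

variable {H : Type} [NormedAddCommGroup H] [InnerProductSpace ℂ H] [CompleteSpace H]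
variable {M N : VonNeumannAlgebra H} {ξ : H} {U v : ℝ → H →L[ℂ] H}
variable {E : (H →L[ℂ] H) → (H →L[ℂ] H)} {β : ℝ → (H →L[ℂ] H) → (H →L[ℂ] H)}

theorem modular_iff : Main.Modular M ξ U ↔ IsModular M ξ U :=
  ⟨fun h => ⟨h.zero, h.add, h.star_eq, h.cont, h.fix, h.mem, h.kms⟩,
    fun h => ⟨h.zero, h.add, h.star_eq, h.cont, h.fix, h.mem, h.kms⟩⟩

theorem condExp_iff : Main.CondExp M N E ↔ IsCondExp M N E :=
  ⟨fun h => ⟨h.mem, h.proj, h.add, h.smul, h.star_eq, h.pos, h.left, h.right⟩,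
    fun h => ⟨h.mem, h.proj, h.add, h.smul, h.star_eq, h.pos, h.left, h.right⟩⟩

theorem twNorm_one (a : H →L[ℂ] H) : Main.twNorm M ξ 1 a = commNorm M ξ a := by
  have h : ∀ x : H →L[ℂ] H, ‖Main.st ξ (x * a) - ((1 : ℝ) : ℂ) * Main.st ξ (a * x)‖ =
      ‖vst ξ (x * a) - vst ξ (a * x)‖ := by
    intro x
    rw [Complex.ofReal_one, one_mul]
    rfl
  unfold Main.twNorm commNorm
  simp only [h]

/-- for `a ∈ N` the norms of `aφ - lam φa` on `N` and on `M` agree -/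
theorem twNorm_eq {J : H → H} (hI : Inc N M ξ U J E) (lam : ℝ) {a : H →L[ℂ] H} (ha : a ∈ N) :
    Main.twNorm N ξ lam a = Main.twNorm M ξ lam a := by
  unfold Main.twNorm
  congr 1
  ext r
  constructor
  · rintro ⟨x, hx, h1, h2⟩
    exact ⟨x, hI.le x hx, h1, h2⟩
  · rintro ⟨x, hx, h1, h2⟩
    refine ⟨E x, hI.exp.mem x hx, (R_inc2.exp_norm hI.le hI.exp x hx).trans h1, ?_⟩
    have haM := hI.le a ha
    have e1 : Main.st ξ (E x * a) = Main.st ξ (x * a) := by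
      rw [← hI.exp.right a x ha hx]
      exact hI.inv _ (mul_mem hx haM)
    have e2 : Main.st ξ (a * E x) = Main.st ξ (a * x) := by
      rw [← hI.exp.left a x ha hx]
      exact hI.inv _ (mul_mem haM hx)
    rw [h2, e1, e2]

theorem bic_eq {J : H → H} (hstr : S_str) (hI : Inc N M ξ U J E) :
    Main.Bic N M ξ = relBicentralizer N M ξ := by
  ext b
  constructor
  · intro hb
    refine hstr H N M ξ U J E hI b hb.1 fun a h1 h2 h3 v => hb.2 a h1 h2 ?_ v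
    simpa only [twNorm_eq hI 1 (h1 _), twNorm_one] using h3
  · intro hb
    refine ⟨hb.1, fun a h1 h2 h3 v => (hb.2 a h1 h2 ?_ v).1⟩
    simpa only [twNorm_eq hI 1 (h1 _), twNorm_one] using h3

theorem bicFlow_iff {J : H → H} (hI : Inc N M ξ U J E)
    (e : Main.Bic N M ξ = relBicentralizer N M ξ) :
    Main.BicFlow N M ξ β ↔ IsBicFlow N M ξ β := by
  constructor
  · intro h
    exact ⟨by rw [← e]; exact h.mem, by rw [← e]; exact h.one, by rw [← e]; exact h.comp,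
      by rw [← e]; exact h.add, by rw [← e]; exact h.smul, by rw [← e]; exact h.mul,
      by rw [← e]; exact h.star_eq, by rw [← e]; exact h.cont, by
        rw [← e]
        intro a h1 h2 lam hlam h3
        refine h.lim a h1 h2 lam hlam ?_
        simp only [twNorm_eq hI lam (h1 _)]
        exact h3⟩
  · intro h
    exact ⟨by rw [e]; exact h.mem, by rw [e]; exact h.one, by rw [e]; exact h.comp,
      by rw [e]; exact h.add, by rw [e]; exact h.smul, by rw [e]; exact h.mul,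
      by rw [e]; exact h.star_eq, by rw [e]; exact h.cont, by
        rw [e]
        intro a h1 h2 lam hlam h3
        refine h.lim a h1 h2 lam hlam ?_
        simp only [twNorm_eq hI lam (h1 _)] at h3
        exact h3⟩

/-- the trivial inclusion -/
theorem inc_self {J : H → H} (h1 : ‖ξ‖ = 1) (h2 : IsCyclic M ξ) (h3 : IsSeparating M ξ)
    (h4 : IsModular M ξ U) (h5 : IsConj M ξ U J) : Inc M M ξ U J id where
  le := fun _ h => h
  unit := h1
  cyc := h2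
  sep := h3
  modular := h4
  conj := h5
  exp := ⟨fun _ h => h, fun _ _ => rfl, fun _ _ _ _ => rfl, fun _ _ _ => rfl, fun _ _ => rfl,
    fun _ _ h => h, fun _ _ _ _ => rfl, fun _ _ _ _ => rfl⟩
  inv := fun _ _ => rfl
  mod := fun t x hx => h4.mem t x hx

theorem si_star {K : Type} [NormedAddCommGroup K] [InnerProductSpace ℂ K] [CompleteSpace K]
    (N : StarSubalgebra ℂ (H →L[ℂ] H)) (N₁ : StarSubalgebra ℂ (K →L[ℂ] K))
    (ρ : N ≃⋆ₐ[ℂ] N₁) (x : H →L[ℂ] H) (hx : x ∈ N) (hx' : star x ∈ N) :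
    ((ρ ⟨star x, hx'⟩ : N₁) : K →L[ℂ] K) = star ((ρ ⟨x, hx⟩ : N₁) : K →L[ℂ] K) := by
  have h3 : (⟨star x, hx'⟩ : N) = star (⟨x, hx⟩ : N) := rfl
  rw [h3, map_star]
  rfl
theorem si_mul {K : Type} [NormedAddCommGroup K] [InnerProductSpace ℂ K] [CompleteSpace K]
    (N : StarSubalgebra ℂ (H →L[ℂ] H)) (N₁ : StarSubalgebra ℂ (K →L[ℂ] K))
    (ρ : N ≃⋆ₐ[ℂ] N₁) (x y : H →L[ℂ] H) (hx : x ∈ N) (hy : y ∈ N) (hx' : x * y ∈ N) :
    ((ρ ⟨x * y, hx'⟩ : N₁) : K →L[ℂ] K) =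
      ((ρ ⟨x, hx⟩ : N₁) : K →L[ℂ] K) * ((ρ ⟨y, hy⟩ : N₁) : K →L[ℂ] K) := by
  have h3 : (⟨x * y, hx'⟩ : N) = (⟨x, hx⟩ : N) * ⟨y, hy⟩ := rfl
  rw [h3, map_mul]
  rfl
theorem si_add {K : Type} [NormedAddCommGroup K] [InnerProductSpace ℂ K] [CompleteSpace K]
    (N : StarSubalgebra ℂ (H →L[ℂ] H)) (N₁ : StarSubalgebra ℂ (K →L[ℂ] K))
    (ρ : N ≃⋆ₐ[ℂ] N₁) (x y : H →L[ℂ] H) (hx : x ∈ N) (hy : y ∈ N) (hx' : x + y ∈ N) :
    ((ρ ⟨x + y, hx'⟩ : N₁) : K →L[ℂ] K) =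
      ((ρ ⟨x, hx⟩ : N₁) : K →L[ℂ] K) + ((ρ ⟨y, hy⟩ : N₁) : K →L[ℂ] K) := by
  have h3 : (⟨x + y, hx'⟩ : N) = (⟨x, hx⟩ : N) + ⟨y, hy⟩ := rfl
  rw [h3, map_add]
  rfl
theorem si_smul {K : Type} [NormedAddCommGroup K] [InnerProductSpace ℂ K] [CompleteSpace K]
    (N : StarSubalgebra ℂ (H →L[ℂ] H)) (N₁ : StarSubalgebra ℂ (K →L[ℂ] K))
    (ρ : N ≃⋆ₐ[ℂ] N₁) (c : ℂ) (x : H →L[ℂ] H) (hx : x ∈ N) (hx' : c • x ∈ N) :
    ((ρ ⟨c • x, hx'⟩ : N₁) : K →L[ℂ] K) = c • ((ρ ⟨x, hx⟩ : N₁) : K →L[ℂ] K) := by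
  have h3 : (⟨c • x, hx'⟩ : N) = c • (⟨x, hx⟩ : N) := rfl
  rw [h3, map_smul]
  rfl

open Classical in
theorem starIso' {K : Type} [NormedAddCommGroup K] [InnerProductSpace ℂ K] [CompleteSpace K]
    (N : VonNeumannAlgebra H) (N₁ : VonNeumannAlgebra K)
    (ρ : N.toStarSubalgebra ≃⋆ₐ[ℂ] N₁.toStarSubalgebra) (r : (H →L[ℂ] H) → K →L[ℂ] K)
    (hr : ∀ (x : H →L[ℂ] H) (hx : x ∈ N.toStarSubalgebra),
      r x = ((ρ ⟨x, hx⟩ : N₁.toStarSubalgebra) : K →L[ℂ] K)) : Main.StarIso N N₁ r where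
  mem := by
    intro x hx
    have hx' : x ∈ N.toStarSubalgebra := hx
    rw [hr x hx']
    exact (ρ ⟨x, hx'⟩).2
  inj := by
    intro x y hx hy h
    have hx' : x ∈ N.toStarSubalgebra := hx
    have hy' : y ∈ N.toStarSubalgebra := hy
    rw [hr x hx', hr y hy'] at h
    have h2 := ρ.injective (Subtype.ext h)
    exact congrArg Subtype.val h2
  surj := by
    intro y hy
    have hy' : y ∈ N₁.toStarSubalgebra := hy
    obtain ⟨x, hx⟩ := ρ.surjective ⟨y, hy'⟩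
    refine ⟨x.1, x.2, ?_⟩
    rw [hr x.1 x.2]
    exact congrArg Subtype.val hx
  add := by
    intro x y hx hy
    have hx' : x ∈ N.toStarSubalgebra := hx
    have hy' : y ∈ N.toStarSubalgebra := hy
    have hxy : x + y ∈ N.toStarSubalgebra := add_mem hx' hy'
    rw [hr x hx', hr y hy', hr (x + y) hxy]
    exact si_add N.toStarSubalgebra N₁.toStarSubalgebra ρ x y hx' hy' hxy
  smul := by
    intro c x hx
    have hx' : x ∈ N.toStarSubalgebra := hx
    have hcx : c • x ∈ N.toStarSubalgebra := N.toStarSubalgebra.smul_mem hx' c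
    rw [hr x hx', hr (c • x) hcx]
    exact si_smul N.toStarSubalgebra N₁.toStarSubalgebra ρ c x hx' hcx
  mul := by
    intro x y hx hy
    have hx' : x ∈ N.toStarSubalgebra := hx
    have hy' : y ∈ N.toStarSubalgebra := hy
    have hxy : x * y ∈ N.toStarSubalgebra := mul_mem hx' hy'
    rw [hr x hx', hr y hy', hr (x * y) hxy]
    exact si_mul N.toStarSubalgebra N₁.toStarSubalgebra ρ x y hx' hy' hxy
  star_eq := by
    intro x hx
    have hx' : x ∈ N.toStarSubalgebra := hx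
    have hsx : star x ∈ N.toStarSubalgebra := star_mem hx'
    rw [hr x hx', hr (star x) hsx]
    exact si_star N.toStarSubalgebra N₁.toStarSubalgebra ρ x hx' hsx

open Classical in
theorem starIso {K : Type} [NormedAddCommGroup K] [InnerProductSpace ℂ K] [CompleteSpace K]
    (N : VonNeumannAlgebra H) (N₁ : VonNeumannAlgebra K)
    (ρ : N.toStarSubalgebra ≃⋆ₐ[ℂ] N₁.toStarSubalgebra) :
    ∃ r : (H →L[ℂ] H) → K →L[ℂ] K, Main.StarIso N N₁ r :=
  ⟨fun x => if h : x ∈ N.toStarSubalgebra then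
    ((ρ ⟨x, h⟩ : N₁.toStarSubalgebra) : K →L[ℂ] K) else 0,
    starIso' N N₁ ρ _ fun _ hx => dif_pos hx⟩

theorem type_imp (h : Main.TypeIIIone N) : IsTypeIIIone N :=
  ⟨h.nontriv, h.equiv, fun K _ _ _ N₁ ρ η U h1 h2 h3 h4 => by
    obtain ⟨r, hr⟩ := starIso N N₁ ρ
    exact h.spec K N₁ r η U hr h1 h2 h3 (modular_iff.2 h4)⟩

theorem dominant_iff : Main.Dominant N U v ↔ IsDominant N U v :=
  ⟨fun h => ⟨⟨h.toCocycle.mem, h.toCocycle.star_mul, h.toCocycle.mul_star, h.toCocycle.cont,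
      h.toCocycle.cocycle⟩, h.inf, h.scale⟩,
    fun h => ⟨⟨h.toIsCocycle.mem, h.toIsCocycle.star_mul, h.toIsCocycle.mul_star,
      h.toIsCocycle.cont, h.toIsCocycle.cocycle⟩, h.inf, h.scale⟩⟩

theorem iso_imp {B C : VonNeumannAlgebra H} {π : B.toStarSubalgebra ≃⋆ₐ[ℂ] C.toStarSubalgebra}
    (e : Main.Bic N M ξ = relBicentralizer N M ξ) (h : IsWeightIso N M ξ U E β v B C π) : Main.FlowIso N M ξ U E β v B C π :=
  ⟨fun x => by rw [e]; exact h.memB x, h.memC, h.flow, h.exp⟩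

end Pool.Agent.H255.BC.Bridge
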