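import Pool.Agent.H255.BC.Defs6
import Pool.Agent.H255.BC.R_red

set_option autoImplicit false

open MeasureTheory Filter Topology Complex
open scoped InnerProductSpace ENNReal FourierTransform

namespace Pool.Agent.H255.BC.C_hom

open Pool.Agent.W662.CB Pool.Agent.H255.BC Pool.Agent.H255.BC.R_red

section

variable {H : Type} [NormedAddCommGroup H] [InnerProductSpace ℂ H] [CompleteSpace H]

theorem redgen (N : VonNeumannAlgebra H) (ξ : H) (hsep : IsSeparating N ξ) :
    ∃ (K : Submodule ℂ H) (_ : CompleteSpace K) (N₁ : VonNeumannAlgebra K) (hξK : ξ ∈ K),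
      (∀ x ∈ N, ∀ v ∈ K, x v ∈ K) ∧
      (∀ v : H, v ∈ closure {v : H | ∃ y : H →L[ℂ] H, y ∈ N.commutant ∧ y ξ = v}) ∧
      (∀ x ∈ N, rh K x ∈ N₁) ∧ (∀ T ∈ N₁, ∃ x ∈ N, rh K x = T) ∧
      IsCyclic N₁ ⟨ξ, hξK⟩ ∧ IsSeparating N₁ ⟨ξ, hξK⟩ ∧ K.starProjection ∈ N.commutant := by
  -- membership in `N` by commutation
  have hNc : ∀ x : H →L[ℂ] H, (∀ y ∈ N.commutant, y * x = x * y) → x ∈ N := by
    intro x hx
    rw [← VonNeumannAlgebra.commutant_commutant N, VonNeumannAlgebra.mem_commutant_iff]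
    exact hx
  have hNc' : ∀ x ∈ N, ∀ y ∈ N.commutant, x * y = y * x := by
    intro x hx y hy
    exact VonNeumannAlgebra.mem_commutant_iff.1 hy x hx
  have hNstar : ∀ x ∈ N, star x ∈ N := fun x hx => star_mem hx
  have hN'star : ∀ x ∈ N.commutant, star x ∈ N.commutant := fun x hx => star_mem hx
  have hN'mul : ∀ x ∈ N.commutant, ∀ y ∈ N.commutant, x * y ∈ N.commutant :=
    fun x hx y hy => mul_mem hx hy
  -- the subspace
  let S : Submodule ℂ H :=
    { carrier := {v | ∃ x : H →L[ℂ] H, x ∈ N ∧ x ξ = v}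
      add_mem' := by
        rintro v w ⟨x, hx, rfl⟩ ⟨y, hy, rfl⟩
        exact ⟨x + y, add_mem hx hy, rfl⟩
      zero_mem' := ⟨0, zero_mem N, rfl⟩
      smul_mem' := by
        rintro c v ⟨x, hx, rfl⟩
        exact ⟨c • x, N.toStarSubalgebra.smul_mem hx c, rfl⟩ }
  let K : Submodule ℂ H := S.topologicalClosure
  have hKcl : IsClosed (K : Set H) := S.isClosed_topologicalClosure
  have : CompleteSpace K := hKcl.completeSpace_coe
  have hSK : ∀ x ∈ N, x ξ ∈ K := fun x hx => S.le_topologicalClosure ⟨x, hx, rfl⟩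
  have hξK : ξ ∈ K := by
    have := hSK 1 (one_mem N)
    simpa using this
  -- operators mapping `S` into `K` map `K` into `K`
  have hmap : ∀ T : H →L[ℂ] H, (∀ x ∈ N, T (x ξ) ∈ K) → ∀ v ∈ K, T v ∈ K := by
    intro T hT v hv
    have hv' : v ∈ closure (S : Set H) := hv
    have h1 : Set.MapsTo T (S : Set H) (K : Set H) := by
      rintro w ⟨x, hx, rfl⟩
      exact hT x hx
    have h2 := h1.closure T.continuous
    rw [hKcl.closure_eq] at h2
    exact h2 hv'
  have hNK : ∀ y ∈ N, ∀ v ∈ K, y v ∈ K := by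
    intro y hy
    apply hmap
    intro x hx
    exact hSK (y * x) (mul_mem hy hx)
  -- `ξ` is cyclic for `N'`
  let S' : Submodule ℂ H :=
    { carrier := {v | ∃ y : H →L[ℂ] H, y ∈ N.commutant ∧ y ξ = v}
      add_mem' := by
        rintro v w ⟨x, hx, rfl⟩ ⟨y, hy, rfl⟩
        exact ⟨x + y, add_mem hx hy, rfl⟩
      zero_mem' := ⟨0, zero_mem N.commutant, rfl⟩
      smul_mem' := by
        rintro c v ⟨x, hx, rfl⟩
        exact ⟨c • x, N.commutant.toStarSubalgebra.smul_mem hx c, rfl⟩ }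
  have hdense : Dense (S' : Set H) := by
    set K' : Submodule ℂ H := S'.topologicalClosure with hK'
    have hK'cl : IsClosed (K' : Set H) := S'.isClosed_topologicalClosure
    have : CompleteSpace K' := hK'cl.completeSpace_coe
    have hyK' : ∀ y ∈ N.commutant, ∀ v ∈ K', y v ∈ K' := by
      intro y hy v hv
      have hv' : v ∈ closure (S' : Set H) := hv
      have h1 : Set.MapsTo y (S' : Set H) (K' : Set H) := by
        rintro w ⟨x, hx, rfl⟩
        exact S'.le_topologicalClosure ⟨y * x, hN'mul y hy x hx, rfl⟩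
      have h2 := h1.closure y.continuous
      rw [hK'cl.closure_eq] at h2
      exact h2 hv'
    have hq : K'.starProjection ∈ N := by
      apply hNc
      intro y hy
      have h3 : ∀ z ∈ N.commutant, K'.starProjection * z * K'.starProjection = z * K'.starProjection := by
        intro z hz
        ext v
        change K'.starProjection (z (K'.starProjection v)) = z (K'.starProjection v)
        rw [Submodule.starProjection_eq_self_iff]
        exact hyK' z hz _ (Submodule.starProjection_apply_mem K' v)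
      have hsa : star K'.starProjection = K'.starProjection :=
        (isSelfAdjoint_starProjection K').star_eq
      have h4 := h3 y hy
      have h5 := congrArg star (h3 (star y) (hN'star y hy))
      rw [star_mul, star_mul, star_mul, star_star, hsa] at h5
      exact (h4.symm.trans (mul_assoc _ _ _)).trans h5
    have hqξ : (1 - K'.starProjection) ξ = 0 := by
      have h6 : ξ ∈ K' := S'.le_topologicalClosure ⟨1, one_mem N.commutant, rfl⟩
      have h7 : K'.starProjection ξ = ξ := Submodule.starProjection_eq_self_iff.2 h6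
      rw [sub_apply, h7]
      simp
    have h8 : (1 - K'.starProjection : H →L[ℂ] H) = 0 :=
      hsep _ (sub_mem (one_mem N) hq) hqξ
    have h9 : K' = ⊤ := by
      rw [eq_top_iff]
      intro v _
      have h10 := congrArg (fun T : H →L[ℂ] H => T v) h8
      have h11 : K'.starProjection v = v := by
        have h12 : v - K'.starProjection v = 0 := h10
        exact (sub_eq_zero.1 h12).symm
      rw [← h11]
      exact Submodule.starProjection_apply_mem K' v
    rw [dense_iff_closure_eq]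
    have h13 : closure (S' : Set H) = (K' : Set H) := rfl
    rw [h13, h9]
    rfl
  -- the compression
  have hρmul : ∀ x ∈ N, ∀ y ∈ N.commutant, rh K y * rh K x = rh K x * rh K y := by
    intro x hx y hy
    have h1 : rh K y * rh K x = rh K (y * x) := rh_mul K (hNK x hx)
    have h2 : rh K x * rh K y = rh K (x * y) := rh_mul' K (hNK _ (hNstar x hx))
    rw [h1, h2, hNc' x hx y hy]
  let N₁ : VonNeumannAlgebra K :=
    { __ := StarSubalgebra.centralizer ℂ {T : K →L[ℂ] K | ∃ y ∈ N.commutant, T = rh K y}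
      centralizer_centralizer' := Set.centralizer_centralizer_centralizer _ }
  have hN₁ : ∀ T : K →L[ℂ] K, T ∈ N₁ ↔ ∀ y ∈ N.commutant, rh K y * T = T * rh K y := by
    intro T
    have h0 : T ∈ N₁ ↔ T ∈ StarSubalgebra.centralizer ℂ {T : K →L[ℂ] K | ∃ y ∈ N.commutant, T = rh K y} :=
      Iff.rfl
    rw [h0, StarSubalgebra.mem_centralizer_iff]
    constructor
    · intro h y hy
      exact (h _ ⟨y, hy, rfl⟩).1
    · rintro h _ ⟨y, hy, rfl⟩
      refine ⟨h y hy, ?_⟩
      rw [star_rh]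
      exact h _ (hN'star y hy)
  -- the bound
  have hbound : ∀ T ∈ N₁, ∀ y ∈ N.commutant, ‖y ((T ⟨ξ, hξK⟩ : K) : H)‖ ≤ ‖T‖ * ‖y ξ‖ := by
    intro T hT y hy
    set B : K →L[ℂ] H := y ∘L K.subtypeL with hB
    have h1 : rh K (star y * y) = ContinuousLinearMap.adjoint B ∘L B := by
      rw [hB, ContinuousLinearMap.adjoint_comp]
      rfl
    have hpos : 0 ≤ rh K (star y * y) := by
      rw [h1, ContinuousLinearMap.nonneg_iff_isPositive]
      exact ContinuousLinearMap.isPositive_adjoint_comp_self B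
    have hcomm : Commute (rh K (star y * y)) T :=
      (hN₁ T).1 hT _ (hN'mul _ (hN'star y hy) _ hy)
    have h2 := comm_pos hpos hcomm ⟨ξ, hξK⟩
    have h3 : ∀ w : K, (⟪w, rh K (star y * y) w⟫_ℂ).re = ‖y (w : H)‖ ^ 2 := by
      intro w
      rw [inner_rh]
      have h4 : (star y * y) (w : H) = star y (y w) := rfl
      rw [h4, ContinuousLinearMap.star_eq_adjoint, ContinuousLinearMap.adjoint_inner_right,
        inner_self_eq_norm_sq_to_K]
      norm_cast
    rw [h3, h3, ← mul_pow] at h2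
    exact le_of_sq_le_sq h2 (by positivity)
  -- extension by density
  let e : N.commutant.toStarSubalgebra →ₗ[ℂ] H :=
    { toFun := fun y => (y : H →L[ℂ] H) ξ
      map_add' := fun x y => rfl
      map_smul' := fun c y => rfl }
  have hed : DenseRange e := by
    have h1 : Set.range e = (S' : Set H) := by
      ext v
      constructor
      · rintro ⟨y, rfl⟩
        exact ⟨y, y.2, rfl⟩
      · rintro ⟨y, hy, rfl⟩
        exact ⟨⟨y, hy⟩, rfl⟩
    unfold DenseRange
    rw [h1]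
    exact hdense
  set ξ₁ : K := ⟨ξ, hξK⟩ with hξ₁
  have hext : ∀ T ∈ N₁, ∃ x : H →L[ℂ] H, x ∈ N ∧ rh K x = T := by
    intro T hT
    let f : N.commutant.toStarSubalgebra →ₗ[ℂ] H :=
      { toFun := fun y => (y : H →L[ℂ] H) ((T ξ₁ : K) : H)
        map_add' := fun x y => rfl
        map_smul' := fun c y => rfl }
    have hb : ∃ C : ℝ, ∀ y, ‖f y‖ ≤ C * ‖e y‖ := ⟨‖T‖, fun y => hbound T hT y y.2⟩
    let X : H →L[ℂ] H := f.extendOfNorm e
    have hX : ∀ y ∈ N.commutant, X (y ξ) = y ((T ξ₁ : K) : H) := fun y hy =>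
      LinearMap.extendOfNorm_eq hed hb ⟨y, hy⟩
    have hXN : X ∈ N := by
      apply hNc
      intro y hy
      have h1 : (fun v => (y * X) v) = (fun v => (X * y) v) := by
        refine hed.equalizer (y * X).continuous (X * y).continuous ?_
        funext z
        have h2 : (X * y) (e z) = X ((y * (z : H →L[ℂ] H)) ξ) := rfl
        have h3 : (y * X) (e z) = y (X ((z : H →L[ℂ] H) ξ)) := rfl
        change (y * X) (e z) = (X * y) (e z)
        rw [h2, h3, hX _ z.2, hX _ (hN'mul y hy _ z.2)]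
        rfl
      ext v
      exact congrFun h1 v
    refine ⟨X, hXN, ?_⟩
    let P : H →L[ℂ] K := ContinuousLinearMap.adjoint K.subtypeL
    have h1 : (fun v => (T ∘L P) v) = (fun v => (P ∘L X) v) := by
      refine hed.equalizer (T ∘L P).continuous (P ∘L X).continuous ?_
      funext z
      have h2 : (T ∘L P) (e z) = (T * rh K (z : H →L[ℂ] H)) ξ₁ := rfl
      have h3 : (P ∘L X) (e z) = P (X ((z : H →L[ℂ] H) ξ)) := rfl
      change (T ∘L P) (e z) = (P ∘L X) (e z)
      rw [h2, h3, hX _ z.2, ← (hN₁ T).1 hT _ z.2]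
      rfl
    ext v
    have h4 := congrFun h1 (v : H)
    have h5 : (T ∘L P) (v : H) = T v := by
      change T (P (v : H)) = T v
      rw [adj_coe]
    have h6 : (P ∘L X) (v : H) = rh K X v := rfl
    have h7 : T v = rh K X v := by
      rw [← h5, ← h6]
      exact h4
    rw [h7]
  have hrhN : ∀ x ∈ N, rh K x ∈ N₁ := fun x hx => (hN₁ _).2 (fun y hy => hρmul x hx y hy)
  have hPK : K.starProjection ∈ N.commutant := by
    rw [VonNeumannAlgebra.mem_commutant_iff]
    intro y hy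
    have h3 : ∀ z ∈ N, K.starProjection * z * K.starProjection = z * K.starProjection := by
      intro z hz
      ext v
      change K.starProjection (z (K.starProjection v)) = z (K.starProjection v)
      rw [Submodule.starProjection_eq_self_iff]
      exact hNK z hz _ (Submodule.starProjection_apply_mem K v)
    have hsa : star K.starProjection = K.starProjection :=
      (isSelfAdjoint_starProjection K).star_eq
    have h4 := h3 y hy
    have h5 := congrArg star (h3 (star y) (hNstar y hy))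
    rw [star_mul, star_mul, star_mul, star_star, hsa] at h5
    exact (h4.symm.trans (mul_assoc _ _ _)).trans h5
  refine ⟨K, inferInstance, N₁, hξK, hNK, fun v => hdense v, hrhN, hext, ?_, ?_, hPK⟩
  · intro v
    rw [closure_subtype]
    have hv : (v : H) ∈ closure (S : Set H) := v.2
    refine closure_mono ?_ hv
    rintro w ⟨x, hx, rfl⟩
    exact ⟨rh K x ξ₁, ⟨rh K x, hrhN x hx, rfl⟩, rh_apply K (hNK x hx) ξ₁⟩
  · intro T hT h0
    obtain ⟨x, hx, rfl⟩ := hext T hT
    have h1 : x ξ = 0 := by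
      have h2 := rh_apply K (hNK x hx) ξ₁
      have h3 : rh K x ξ₁ = 0 := h0
      rw [h3] at h2
      exact h2.symm
    have h3 := hsep x hx h1
    rw [h3]
    ext v
    rw [rh_apply K (fun v _ => K.zero_mem)]
    rfl

/-- membership in the commutant from commutation -/
theorem mem_comm {N : VonNeumannAlgebra H} {y : H →L[ℂ] H} (h : ∀ x ∈ N, x * y = y * x) :
    y ∈ N.commutant := VonNeumannAlgebra.mem_commutant_iff.2 h

/-- vector states of `N` are approximated by vector states given by vectors of `K` -/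
theorem approx {N : VonNeumannAlgebra H} {ξ : H} {K : Submodule ℂ H} [CompleteSpace K]
    (hξK : ξ ∈ K) (hNK : ∀ x ∈ N, ∀ v ∈ K, x v ∈ K)
    (hd : ∀ v : H, v ∈ closure {v : H | ∃ y : H →L[ℂ] H, y ∈ N.commutant ∧ y ξ = v})
    (hP : K.starProjection ∈ N.commutant) (η : H) (hη : ‖η‖ = 1) (δ : ℝ) (hδ : 0 < δ) :
    ∃ η' : H, η' ∈ K ∧ ‖η'‖ = 1 ∧
      ∀ x : H →L[ℂ] H, x ∈ N → ‖⟪η, x η⟫_ℂ - ⟪η', x η'⟫_ℂ‖ ≤ δ * ‖x‖ := by
  -- the vector `a ξ`
  obtain ⟨a, ha, ha1, haδ⟩ : ∃ a : H →L[ℂ] H, a ∈ N.commutant ∧ ‖a ξ‖ = 1 ∧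
      ‖η - a ξ‖ ≤ δ / 2 := by
    have hm : 0 < min (1 / 2 : ℝ) (δ / 4) := lt_min (by norm_num) (by linarith)
    obtain ⟨v, ⟨y, hy, rfl⟩, hv⟩ := Metric.mem_closure_iff.1 (hd η) _ hm
    rw [dist_eq_norm, lt_min_iff] at hv
    have h1 : 1 / 2 < ‖y ξ‖ := by
      have := norm_sub_norm_le η (y ξ)
      linarith [hv.1]
    have h0 : ‖y ξ‖ ≠ 0 := by positivity
    refine ⟨((‖y ξ‖⁻¹ : ℝ) : ℂ) • y, ?_, ?_, ?_⟩
    · exact N.commutant.toStarSubalgebra.smul_mem hy _
    · rw [smul_apply, norm_smul, Complex.norm_real, norm_inv, norm_norm, inv_mul_cancel₀ h0]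
    · have h2 : ‖y ξ - ((‖y ξ‖⁻¹ : ℝ) : ℂ) • y ξ‖ = |‖y ξ‖ - 1| := by
        have h3 : y ξ - ((‖y ξ‖⁻¹ : ℝ) : ℂ) • y ξ = (((1 - ‖y ξ‖⁻¹ : ℝ)) : ℂ) • y ξ := by
          rw [Complex.ofReal_sub, Complex.ofReal_one, sub_smul, one_smul]
        rw [h3, norm_smul, Complex.norm_real, Real.norm_eq_abs]
        conv_lhs => rw [← abs_of_nonneg (norm_nonneg (y ξ)), ← abs_mul]
        rw [abs_of_nonneg (norm_nonneg (y ξ)), sub_mul, inv_mul_cancel₀ h0, one_mul]
      have h4 : |‖y ξ‖ - 1| ≤ ‖η - y ξ‖ := by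
        rw [← hη, abs_sub_comm]
        exact abs_norm_sub_norm_le η (y ξ)
      have h5 : η - ((‖y ξ‖⁻¹ : ℝ) : ℂ) • y ξ = (η - y ξ) + (y ξ - ((‖y ξ‖⁻¹ : ℝ) : ℂ) • y ξ) := by
        abel
      rw [smul_apply, h5]
      calc _ ≤ ‖η - y ξ‖ + ‖y ξ - ((‖y ξ‖⁻¹ : ℝ) : ℂ) • y ξ‖ := norm_add_le _ _
        _ ≤ δ / 2 := by rw [h2]; linarith [hv.2]
  set P : H →L[ℂ] H := K.starProjection with hPdef
  have hPs : star P = P := (isSelfAdjoint_starProjection K).star_eq
  have hPP : P * P = P := by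
    ext v
    change K.starProjection (K.starProjection v) = K.starProjection v
    rw [Submodule.starProjection_eq_self_iff]
    exact Submodule.starProjection_apply_mem K v
  have hPK : ∀ v ∈ K, P v = v := fun v hv => Submodule.starProjection_eq_self_iff.2 hv
  set b : H →L[ℂ] H := a * P with hb
  have hbN : b ∈ N.commutant := mul_mem ha hP
  set h : H →L[ℂ] H := star b * b with hh
  have hh0 : 0 ≤ h := star_mul_self_nonneg b
  have hhN : h ∈ N.commutant := mul_mem (star_mem hbN) hbN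
  set c : H →L[ℂ] H := CFC.sqrt h with hc
  have hc0 : 0 ≤ c := CFC.sqrt_nonneg h
  have hcc : c * c = h := CFC.sqrt_mul_sqrt_self h hh0
  have hcs : star c = c := (IsSelfAdjoint.of_nonneg hc0).star_eq
  have hcomm : ∀ x ∈ N, c * x = x * c := by
    intro x hx
    have h1 : Commute h x := (VonNeumannAlgebra.mem_commutant_iff.1 hhN x hx).symm
    exact (h1.cfcₙ_nnreal _ : Commute c x).eq
  -- `c` maps into `K`
  have hcP : c * (1 - P) = 0 := by
    have h1 : star (c * (1 - P)) * (c * (1 - P)) = 0 := by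
      have h2 : h * (1 - P) = 0 := by
        rw [hh, hb, mul_assoc, mul_assoc, mul_sub, mul_one, hPP, sub_self, mul_zero, mul_zero]
      rw [star_mul, hcs, mul_assoc, ← mul_assoc c c, hcc, h2, mul_zero]
    exact CStarRing.star_mul_self_eq_zero_iff _ |>.1 h1
  have hPc : P * c = c := by
    have h1 := congrArg star hcP
    rw [star_mul, hcs, star_sub, star_one, hPs, star_zero, sub_mul, one_mul, sub_eq_zero] at h1
    exact h1.symm
  have hcK : ∀ v : H, c v ∈ K := by
    intro v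
    have h1 : c v = P (c v) := by
      have := congrArg (fun T : H →L[ℂ] H => T v) hPc
      exact this.symm
    rw [h1]
    exact Submodule.starProjection_apply_mem K _
  have key : ∀ x : H →L[ℂ] H, x ∈ N → ⟪c ξ, x (c ξ)⟫_ℂ = ⟪a ξ, x (a ξ)⟫_ℂ := by
    intro x hx
    have e1 : x (c ξ) = c (x ξ) := by
      have := congrArg (fun T : H →L[ℂ] H => T ξ) (hcomm x hx)
      exact this.symm
    have e2 : x (a ξ) = a (x ξ) := by
      have := congrArg (fun T : H →L[ℂ] H => T ξ) (VonNeumannAlgebra.mem_commutant_iff.1 ha x hx)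
      exact this
    have e3 : ∀ v w : H, ⟪c v, c w⟫_ℂ = ⟪v, h w⟫_ℂ := by
      intro v w
      have : h w = star c (c w) := by rw [hcs, ← hcc]; rfl
      rw [this, ContinuousLinearMap.star_eq_adjoint, ContinuousLinearMap.adjoint_inner_right]
    have e4 : ∀ v w : H, ⟪v, h w⟫_ℂ = ⟪b v, b w⟫_ℂ := by
      intro v w
      have : h w = star b (b w) := rfl
      rw [this, ContinuousLinearMap.star_eq_adjoint, ContinuousLinearMap.adjoint_inner_right]
    have e5 : b ξ = a ξ := by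
      change a (P ξ) = a ξ
      rw [hPK ξ hξK]
    have e6 : b (x ξ) = a (x ξ) := by
      change a (P (x ξ)) = a (x ξ)
      rw [hPK _ (hNK x hx ξ hξK)]
    rw [e1, e2, e3, e4, e5, e6]
  have hn : ‖c ξ‖ = 1 := by
    have h1 := key 1 (one_mem N)
    have h2 : ‖c ξ‖ ^ 2 = ‖a ξ‖ ^ 2 := by
      have h3 : ⟪c ξ, c ξ⟫_ℂ = ⟪a ξ, a ξ⟫_ℂ := h1
      rw [inner_self_eq_norm_sq_to_K, inner_self_eq_norm_sq_to_K] at h3
      exact_mod_cast h3
    rw [ha1, one_pow] at h2
    nlinarith [norm_nonneg (c ξ)]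
  refine ⟨c ξ, hcK ξ, hn, fun x hx => ?_⟩
  rw [key x hx]
  have h1 : ⟪η, x η⟫_ℂ - ⟪a ξ, x (a ξ)⟫_ℂ = ⟪η - a ξ, x η⟫_ℂ + ⟪a ξ, x (η - a ξ)⟫_ℂ := by
    rw [inner_sub_left, map_sub, inner_sub_right]
    ring
  rw [h1]
  calc _ ≤ ‖⟪η - a ξ, x η⟫_ℂ‖ + ‖⟪a ξ, x (η - a ξ)⟫_ℂ‖ := norm_add_le _ _
    _ ≤ ‖η - a ξ‖ * (‖x‖ * ‖η‖) + ‖a ξ‖ * (‖x‖ * ‖η - a ξ‖) := by
        refine add_le_add ?_ ?_
        · exact (norm_inner_le_norm _ _).trans
            (mul_le_mul_of_nonneg_left (x.le_opNorm _) (norm_nonneg _))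
        · exact (norm_inner_le_norm _ _).trans
            (mul_le_mul_of_nonneg_left (x.le_opNorm _) (norm_nonneg _))
    _ = 2 * ‖η - a ξ‖ * ‖x‖ := by rw [hη, ha1]; ring
    _ ≤ δ * ‖x‖ := by
        refine mul_le_mul_of_nonneg_right (by linarith) (norm_nonneg _)

end

theorem r (h : S_hom1) : S_hom := by
  intro H _ _ _ N ξ hξ hsep hN
  refine ⟨hN.nontriv, hN.equiv, ?_⟩
  intro η ζ hη hζ ε hε
  obtain ⟨K, hKc, N₁, hξK, hNK, hd, hrh, hext, hcyc, hsep₁, hP⟩ := redgen N ξ hsep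
  -- `ρ`
  have hsub : ∀ x ∈ N, ∀ y ∈ N, rh K x = rh K y → x = y := by
    intro x hx y hy hxy
    have h1 : (x - y) ξ = 0 := by
      change x ξ - y ξ = 0
      have e1 := rh_apply K (hNK x hx) ⟨ξ, hξK⟩
      have e2 := rh_apply K (hNK y hy) ⟨ξ, hξK⟩
      rw [hxy, e2] at e1
      rw [sub_eq_zero]
      exact e1.symm
    exact sub_eq_zero.1 (hsep _ (sub_mem hx hy) h1)
  have hz : rh K 0 = 0 := by
    ext v
    rw [rh_apply K (hNK 0 (zero_mem N))]
    rfl
  have hmul : ∀ x : H →L[ℂ] H, ∀ y ∈ N, rh K (x * y) = rh K x * rh K y :=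
    fun x y hy => (rh_mul K (hNK y hy)).symm
  let ρ₀ : N.toStarSubalgebra →⋆ₐ[ℂ] N₁.toStarSubalgebra :=
    { toFun := fun x => ⟨rh K (x : H →L[ℂ] H), hrh x x.2⟩
      map_one' := Subtype.ext (rh_one K)
      map_mul' := fun x y => Subtype.ext (hmul x y y.2)
      map_zero' := Subtype.ext hz
      map_add' := fun x y => Subtype.ext (by
        ext v
        change ((rh K ((x : H →L[ℂ] H) + y) v : K) : H) = (rh K (x : H →L[ℂ] H) v : K) + (rh K (y : H →L[ℂ] H) v : K)
        rw [rh_apply K (hNK _ (add_mem x.2 y.2)), rh_apply K (hNK _ x.2), rh_apply K (hNK _ y.2)]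
        rfl)
      commutes' := fun c => Subtype.ext (by
        ext v
        change ((rh K (algebraMap ℂ (H →L[ℂ] H) c) v : K) : H) = (algebraMap ℂ (K →L[ℂ] K) c v : K)
        rw [rh_apply K (fun v hv => by
          rw [Algebra.algebraMap_eq_smul_one]
          exact K.smul_mem c hv)]
        rw [Algebra.algebraMap_eq_smul_one, Algebra.algebraMap_eq_smul_one]
        rfl)
      map_star' := fun x => Subtype.ext (star_rh K _).symm }
  have hbij : Function.Bijective ρ₀ := by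
    constructor
    · intro x y hxy
      have h1 : rh K (x : H →L[ℂ] H) = rh K (y : H →L[ℂ] H) := congrArg Subtype.val hxy
      exact Subtype.ext (hsub x x.2 y y.2 h1)
    · rintro ⟨T, hT⟩
      obtain ⟨x, hx, rfl⟩ := hext T hT
      exact ⟨⟨x, hx⟩, rfl⟩
  let ρ : N.toStarSubalgebra ≃⋆ₐ[ℂ] N₁.toStarSubalgebra := StarAlgEquiv.ofBijective ρ₀ hbij
  have hN₁ : IsTypeIIIone N₁ := by
    refine ⟨?_, ?_, ?_⟩
    · obtain ⟨p, hp, hpp, hps, hp0, hp1⟩ := hN.nontriv
      refine ⟨rh K p, hrh p hp, by rw [← hmul p p hp, hpp], by rw [star_rh, hps], ?_, ?_⟩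
      · intro h0
        rw [← hz] at h0
        exact hp0 (hsub p hp 0 (zero_mem N) h0)
      · intro h0
        rw [← rh_one K] at h0
        exact hp1 (hsub p hp 1 (one_mem N) h0)
    · intro p₁ hp₁ hpp hps hp0
      obtain ⟨p, hp, rfl⟩ := hext p₁ hp₁
      have h1 : p * p = p := hsub _ (mul_mem hp hp) _ hp (by rw [hmul p p hp, hpp])
      have h2 : star p = p := hsub _ (star_mem hp) _ hp (by rw [← star_rh, hps])
      have h3 : p ≠ 0 := by
        rintro rfl
        exact hp0 hz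
      obtain ⟨v, hv, hv1, hv2⟩ := hN.equiv p hp h1 h2 h3
      refine ⟨rh K v, hrh v hv, ?_, ?_⟩
      · rw [star_rh, ← hmul _ v hv, hv1, rh_one]
      · rw [star_rh, ← hmul v _ (star_mem hv), hv2]
    · intro K' _ _ _ N₂ ρ₁ η₁ U h1 h2 h3 h4
      exact hN.spec K' N₂ (ρ.trans ρ₁) η₁ U h1 h2 h3 h4
  obtain ⟨η', hη'K, hη'1, hη'⟩ := approx hξK hNK hd hP η hη (ε / 3) (by linarith)
  obtain ⟨ζ', hζ'K, hζ'1, hζ'⟩ := approx hξK hNK hd hP ζ hζ (ε / 3) (by linarith)
  obtain ⟨u₁, hu₁, hu1, hu2, hu₁'⟩ := h K N₁ ⟨ξ, hξK⟩ hcyc hsep₁ hN₁ ⟨η', hη'K⟩ ⟨ζ', hζ'K⟩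
    hη'1 hζ'1 (ε / 3) (by linarith)
  obtain ⟨u, hu, rfl⟩ := hext u₁ hu₁
  have hsu : star u * u = 1 := by
    refine hsub _ (mul_mem (star_mem hu) hu) _ (one_mem N) ?_
    rw [hmul _ u hu, ← star_rh, hu1, rh_one]
  have hus : u * star u = 1 := by
    refine hsub _ (mul_mem hu (star_mem hu)) _ (one_mem N) ?_
    rw [hmul u _ (star_mem hu), ← star_rh, hu2, rh_one]
  refine ⟨u, hu, hsu, hus, fun x hx hx1 => ?_⟩
  have hux : ∀ v : H, ⟪u v, x (u v)⟫_ℂ = ⟪v, (star u * x * u) v⟫_ℂ := by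
    intro v
    have : (star u * x * u) v = star u (x (u v)) := rfl
    rw [this, ContinuousLinearMap.star_eq_adjoint, ContinuousLinearMap.adjoint_inner_right]
  have hmem : star u * x * u ∈ N := mul_mem (mul_mem (star_mem hu) hx) hu
  have hun : ‖u‖ ≤ 1 := by
    refine ContinuousLinearMap.opNorm_le_bound _ zero_le_one fun v => ?_
    have h1 : ‖u v‖ ^ 2 = ‖v‖ ^ 2 := by
      have h2 : ⟪u v, u v⟫_ℂ = ⟪v, v⟫_ℂ := by
        have h3 : ⟪u v, u v⟫_ℂ = ⟪v, (star u * u) v⟫_ℂ := by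
          have : (star u * u) v = star u (u v) := rfl
          rw [this, ContinuousLinearMap.star_eq_adjoint, ContinuousLinearMap.adjoint_inner_right]
        rw [h3, hsu]
        rfl
      rw [inner_self_eq_norm_sq_to_K, inner_self_eq_norm_sq_to_K] at h2
      exact_mod_cast h2
    rw [one_mul]
    exact le_of_sq_le_sq h1.le (norm_nonneg v)
  have hnorm : ‖star u * x * u‖ ≤ 1 := by
    have h1 : ‖star u‖ ≤ 1 := by rw [norm_star]; exact hun
    calc ‖star u * x * u‖ ≤ ‖star u * x‖ * ‖u‖ := norm_mul_le _ _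
      _ ≤ (‖star u‖ * ‖x‖) * ‖u‖ := mul_le_mul_of_nonneg_right (norm_mul_le _ _) (norm_nonneg _)
      _ ≤ (1 * 1) * 1 := by
          refine mul_le_mul (mul_le_mul h1 hx1 (norm_nonneg _) zero_le_one) hun (norm_nonneg _)
            (by norm_num)
      _ = 1 := by norm_num
  have e1 := hη' (star u * x * u) hmem
  rw [← hux, ← hux] at e1
  have e2 := hu₁' (rh K x) (hrh x hx) ((norm_rh_le K x (hNK x hx)).trans hx1)
  have e2' : ‖⟪u η', x (u η')⟫_ℂ - ⟪ζ', x ζ'⟫_ℂ‖ ≤ ε / 3 := by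
    rw [inner_rh, inner_rh, rh_apply K (hNK u hu)] at e2
    exact e2
  have e3 := hζ' x hx
  have h1 : ⟪u η, x (u η)⟫_ℂ - ⟪ζ, x ζ⟫_ℂ = (⟪u η, x (u η)⟫_ℂ - ⟪u η', x (u η')⟫_ℂ) +
      (⟪u η', x (u η')⟫_ℂ - ⟪ζ', x ζ'⟫_ℂ) - (⟪ζ, x ζ⟫_ℂ - ⟪ζ', x ζ'⟫_ℂ) := by ring
  rw [h1]
  have e4 : ε / 3 * ‖star u * x * u‖ ≤ ε / 3 * 1 :=
    mul_le_mul_of_nonneg_left hnorm (by linarith)
  have e5 : ε / 3 * ‖x‖ ≤ ε / 3 * 1 := mul_le_mul_of_nonneg_left hx1 (by linarith)
  refine (norm_sub_le _ _).trans ?_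
  refine (add_le_add_left (norm_add_le _ _) _).trans ?_
  linarith

end Pool.Agent.H255.BC.C_hom
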