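import Pool.Graph.R_pool_sql_team_seeded_f72693b1.W662.CB.Stmts

/-!
Connes' bicentralizer problem: definitions and interfaces (helper255).
The base notions (`vst`, `IsCyclic`, `IsSeparating`, `sgm`, `IsModular`, `commNorm`,
`relBicentralizer`, `IsAn`, `KM`) are those of the library module `W662.CB`.
-/

set_option autoImplicit false

open MeasureTheory Filter Topology Complex
open scoped InnerProductSpace ENNReal FourierTransform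

namespace Pool.Agent.H255.BC

open Pool.Agent.W662.CB

noncomputable section

variable {H : Type} [NormedAddCommGroup H] [InnerProductSpace ℂ H] [CompleteSpace H]

/-- `M` is a factor of type III₁: `M ≠ ℂ`, every non-zero projection is equivalent to `1`
(σ-finite factor of type III) and the space of the normal states is homogeneous: any two vector
states on `M` are approximately unitarily equivalent (Connes–Størmer). -/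
structure IsTypeIII1 (M : VonNeumannAlgebra H) : Prop where
  nontriv : ∃ p : H →L[ℂ] H, p ∈ M ∧ p * p = p ∧ star p = p ∧ p ≠ 0 ∧ p ≠ 1
  equiv : ∀ p : H →L[ℂ] H, p ∈ M → p * p = p → star p = p → p ≠ 0 →
    ∃ v : H →L[ℂ] H, v ∈ M ∧ star v * v = 1 ∧ v * star v = p
  homog : ∀ η ζ : H, ‖η‖ = 1 → ‖ζ‖ = 1 → ∀ ε : ℝ, 0 < ε →
    ∃ u : H →L[ℂ] H, u ∈ M ∧ star u * u = 1 ∧ u * star u = 1 ∧
      ∀ x : H →L[ℂ] H, x ∈ M → ‖x‖ ≤ 1 → ‖⟪u η, x (u η)⟫_ℂ - ⟪ζ, x ζ⟫_ℂ‖ ≤ ε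

/-- `J` is the modular conjugation of `(M, ξ)`. -/
structure IsConj (M : VonNeumannAlgebra H) (ξ : H) (U : ℝ → H →L[ℂ] H) (J : H → H) : Prop where
  add : ∀ v w : H, J (v + w) = J v + J w
  smul : ∀ (c : ℂ) (v : H), J (c • v) = (starRingEnd ℂ c) • J v
  inv : ∀ v : H, J (J v) = v
  inner : ∀ v w : H, ⟪J v, J w⟫_ℂ = ⟪w, v⟫_ℂ
  fix : J ξ = ξ
  modular : ∀ (t : ℝ) (v : H), J (U t v) = U t (J v)
  comm : ∀ x y : H →L[ℂ] H, x ∈ M → y ∈ M → ∀ v : H, x (J (y (J v))) = J (y (J (x v)))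
  an : ∀ F : ℂ → H →L[ℂ] H, IsAn M U F → J (F 0 ξ) = star (F (I / 2)) ξ

/-- test functions -/
def Tst (h : ℝ → ℂ) : Prop := ContDiff ℝ (⊤ : ℕ∞) h ∧ HasCompactSupport h

/-- `h(K) v`, where `U t = exp (i t K)`: the integral of `(𝓕 h)(s) U(2πs) v`. -/
def psi (U : ℝ → H →L[ℂ] H) (h : ℝ → ℂ) (v : H) : H :=
  ∫ s : ℝ, (𝓕 h s) • U (2 * Real.pi * s) v

/-- the smoothed element `∫ (𝓕 h)(s) σ_{2πs}(b) ds`, applied to `v` -/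
def phi (U : ℝ → H →L[ℂ] H) (h : ℝ → ℂ) (b : H →L[ℂ] H) (v : H) : H :=
  ∫ s : ℝ, (𝓕 h s) • sgm U (2 * Real.pi * s) b v

/-- the natural cone of `(M, ξ)`: the closed convex cone generated by the `a J a J ξ`, `a ∈ M` -/
def cone (M : VonNeumannAlgebra H) (ξ : H) (J : H → H) : Set H :=
  closure {ζ : H | ∃ (k : ℕ) (a : Fin k → H →L[ℂ] H), (∀ i, a i ∈ M) ∧
    ζ = ∑ i, (a i) (J ((a i) (J ξ)))}

/-- `v` is an isometry of `M` which is, up to `ε`, of scale `t`: `ξ v ≈ t^{1/2} v ξ`. -/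
def IsScal (M : VonNeumannAlgebra H) (ξ : H) (J : H → H) (t ε : ℝ) (v : H →L[ℂ] H) : Prop :=
  v ∈ M ∧ star v * v = 1 ∧ ‖J (star v ξ) - ((Real.sqrt t : ℝ) : ℂ) • v ξ‖ ≤ ε

/-- unitaries of `N` -/
def IsUni (N : VonNeumannAlgebra H) (u : H →L[ℂ] H) : Prop :=
  u ∈ N ∧ star u * u = 1 ∧ u * star u = 1

/-- `α_u = u J u J` -/
def alf (J : H → H) (u : H →L[ℂ] H) (v : H) : H := u (J (u (J v)))

/-- the commutator `z ζ - ζ z`, where `ζ z = J z^* J ζ` -/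
def cm (J : H → H) (z : H →L[ℂ] H) (v : H) : H := z v - J (star z (J v))

/-- `𝒦`: the vectors commuting asymptotically with the asymptotic centralizer of `N` -/
def KK (N : VonNeumannAlgebra H) (ξ : H) (J : H → H) : Set H :=
  {η : H | ∀ a : ℝ, 0 < a → ∃ b : ℝ, 0 ≤ b ∧ ∀ u : H →L[ℂ] H, IsUni N u →
    ‖alf J u η - η‖ ^ 2 ≤ a + b * ‖alf J u ξ - ξ‖ ^ 2}

/-- abstract version of `𝒦` for a unitary representation -/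
def KA {G : Type} [Group G] (α : G →* (H →L[ℂ] H)) (ξ : H) : Set H :=
  {η : H | ∀ a : ℝ, 0 < a → ∃ b : ℝ, 0 ≤ b ∧ ∀ g : G,
    ‖α g η - η‖ ^ 2 ≤ a + b * ‖α g ξ - ξ‖ ^ 2}

/-- `q` is the sequence of the Fourier coefficients of a smooth function `≥ c > 1` -/
structure IsQ (q : ℤ → ℂ) (c : ℝ) : Prop where
  one : 1 < c
  summable : Summable (fun k : ℤ => (1 + |(k : ℝ)|) * ‖q k‖)
  real : ∀ θ : ℝ, ∃ y : ℝ, c ≤ y ∧ HasSum (fun k : ℤ => q k * cexp (I * ((k : ℝ) * θ))) (y : ℂ)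

/-! ### The tasks -/

/-- T2a: `psi` is given by bounded operators -/
def S_psi : Prop := ∀ (H : Type) [NormedAddCommGroup H] [InnerProductSpace ℂ H] [CompleteSpace H]
  (M : VonNeumannAlgebra H) (ξ : H) (U : ℝ → H →L[ℂ] H), IsModular M ξ U →
  ∀ h : ℝ → ℂ, Tst h →
    (∃ P : H →L[ℂ] H, ∀ v : H, P v = psi U h v) ∧
    (∀ v w : H, ⟪v, psi U h w⟫_ℂ = ⟪psi U (fun κ => starRingEnd ℂ (h κ)) v, w⟫_ℂ) ∧
    (∀ (t : ℝ) (v : H), U t (psi U h v) = psi U h (U t v)) ∧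
    (∀ (t : ℝ) (v : H), U t (psi U h v) = psi U (fun κ => cexp (I * t * κ) * h κ) v)

/-- T2b: absolutely convergent trigonometric series -/
def S_psi_sum : Prop := ∀ (H : Type) [NormedAddCommGroup H] [InnerProductSpace ℂ H]
  [CompleteSpace H] (M : VonNeumannAlgebra H) (ξ : H) (U : ℝ → H →L[ℂ] H), IsModular M ξ U →
  ∀ h h' : ℝ → ℂ, Tst h → Tst h' → ∀ (τ : ℝ) (q : ℤ → ℂ), Summable (fun k => ‖q k‖) →
  (∀ κ : ℝ, h' κ = (∑' k : ℤ, q k * cexp (I * ((k : ℝ) * τ * κ))) * h κ) →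
  ∀ v : H, HasSum (fun k : ℤ => q k • U ((k : ℝ) * τ) (psi U h v)) (psi U h' v)

/-- T2c: approximate unit -/
def S_psi_one : Prop := ∀ (H : Type) [NormedAddCommGroup H] [InnerProductSpace ℂ H]
  [CompleteSpace H] (M : VonNeumannAlgebra H) (ξ : H) (U : ℝ → H →L[ℂ] H), IsModular M ξ U →
  ∃ h : ℕ → ℝ → ℂ, (∀ n, Tst (h n)) ∧ ∀ v : H, Tendsto (fun n => psi U (h n) v) atTop (𝓝 v)

/-- T2d: a vector without spectrum outside `0` is invariant -/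
def S_psi_inv : Prop := ∀ (H : Type) [NormedAddCommGroup H] [InnerProductSpace ℂ H]
  [CompleteSpace H] (M : VonNeumannAlgebra H) (ξ : H) (U : ℝ → H →L[ℂ] H), IsModular M ξ U →
  ∀ v : H, (∀ h : ℝ → ℂ, Tst h → (∃ c : ℝ, 0 < c ∧ ∀ κ, κ < c → h κ = 0) → psi U h v = 0) →
  (∀ h : ℝ → ℂ, Tst h → (∃ c : ℝ, 0 < c ∧ ∀ κ, -c < κ → h κ = 0) → psi U h v = 0) →
  ∀ t : ℝ, U t v = v

/-- T2e: smoothed elements are analytic -/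
def S_phi : Prop := ∀ (H : Type) [NormedAddCommGroup H] [InnerProductSpace ℂ H] [CompleteSpace H]
  (M : VonNeumannAlgebra H) (ξ : H) (U : ℝ → H →L[ℂ] H), IsModular M ξ U →
  ∀ h : ℝ → ℂ, Tst h → ∀ b : H →L[ℂ] H, b ∈ M → ∃ F : ℂ → H →L[ℂ] H, IsAn M U F ∧
    (∀ z : ℂ, F z ξ = psi U (fun κ => cexp (I * z * κ) * h κ) (b ξ)) ∧
    (∀ z : ℂ, star (F z) ξ =
      psi U (fun κ => starRingEnd ℂ (cexp (I * z * ((-κ : ℝ) : ℂ)) * h (-κ))) (star b ξ))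

/-- T3: the modular conjugation -/
def S_conj : Prop := ∀ (H : Type) [NormedAddCommGroup H] [InnerProductSpace ℂ H] [CompleteSpace H]
  (M : VonNeumannAlgebra H) (ξ : H) (U : ℝ → H →L[ℂ] H), IsModular M ξ U → IsCyclic M ξ →
  ∃ J : H → H, IsConj M ξ U J

/-- T4: the commutation theorem -/
def S_comm : Prop := ∀ (H : Type) [NormedAddCommGroup H] [InnerProductSpace ℂ H] [CompleteSpace H]
  (M : VonNeumannAlgebra H) (ξ : H) (U : ℝ → H →L[ℂ] H) (J : H → H), IsModular M ξ U →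
  IsCyclic M ξ → IsConj M ξ U J → ∀ T : H →L[ℂ] H,
  (∀ y : H →L[ℂ] H, y ∈ M → ∀ v : H, T (J (y (J v))) = J (y (J (T v)))) → T ∈ M

/-- T5: the Powers–Størmer–Araki inequality -/
def S_ps : Prop := ∀ (H : Type) [NormedAddCommGroup H] [InnerProductSpace ℂ H] [CompleteSpace H]
  (M : VonNeumannAlgebra H) (ξ : H) (U : ℝ → H →L[ℂ] H) (J : H → H), IsModular M ξ U →
  IsCyclic M ξ → IsConj M ξ U J → ∀ (ζ : H) (ε : ℝ), ζ ∈ cone M ξ J →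
  (∀ x : H →L[ℂ] H, x ∈ M → ‖x‖ ≤ 1 → ‖⟪ζ, x ζ⟫_ℂ - ⟪ξ, x ξ⟫_ℂ‖ ≤ ε) → ‖ζ - ξ‖ ^ 2 ≤ ε

/-- T6: isometries of scale `t`; isometries onto a projection of the centralizer -/
def S_scal : Prop := ∀ (H : Type) [NormedAddCommGroup H] [InnerProductSpace ℂ H] [CompleteSpace H]
  (M : VonNeumannAlgebra H) (ξ : H) (U : ℝ → H →L[ℂ] H) (J : H → H), ‖ξ‖ = 1 →
  IsModular M ξ U → IsCyclic M ξ → IsConj M ξ U J → IsTypeIII1 M →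
  (∀ t ε : ℝ, 0 < t → t < 1 → 0 < ε → ∃ v, IsScal M ξ J t ε v) ∧
  (∀ p : H →L[ℂ] H, p ∈ M → p * p = p → star p = p → p ≠ 0 → J (p ξ) = p ξ →
    ∀ ε : ℝ, 0 < ε → ∃ v, IsScal M ξ J (‖p ξ‖ ^ 2) ε v ∧ v * star v = p)

/-- T8: a smooth periodic function equal to `e^{κ/2}` on an interval -/
def S_q : Prop := ∀ κ₁ κ₂ : ℝ, 0 < κ₁ → κ₁ < κ₂ → ∃ (τ c : ℝ) (q : ℤ → ℂ), 0 < τ ∧ IsQ q c ∧
  (∀ κ : ℝ, κ₁ ≤ κ → κ ≤ κ₂ →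
    HasSum (fun k : ℤ => q k * cexp (I * ((k : ℝ) * τ * κ))) (Real.exp (κ / 2) : ℂ))

/-- T10: the fixed points in the bicentralizer are the scalars -/
def S_fix : Prop := ∀ (H : Type) [NormedAddCommGroup H] [InnerProductSpace ℂ H] [CompleteSpace H]
  (M : VonNeumannAlgebra H) (ξ : H) (U : ℝ → H →L[ℂ] H) (J : H → H), ‖ξ‖ = 1 →
  IsModular M ξ U → IsCyclic M ξ → IsSeparating M ξ → IsConj M ξ U J → IsTypeIII1 M →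
  (∀ t ε : ℝ, 0 < t → t < 1 → 0 < ε → ∃ v, IsScal M ξ J t ε v) →
  (∀ p : H →L[ℂ] H, p ∈ M → p * p = p → star p = p → p ≠ 0 → J (p ξ) = p ξ →
    ∀ ε : ℝ, 0 < ε → ∃ v, IsScal M ξ J (‖p ξ‖ ^ 2) ε v ∧ v * star v = p) →
  ∀ b : H →L[ℂ] H, b ∈ relBicentralizer M M ξ → (∀ t : ℝ, U t (b ξ) = b ξ) →
    ∃ c : ℂ, b = c • (1 : H →L[ℂ] H)

/-- T1: the random walk argument for a unitary representation `α` of a group -/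
def S_AE : Prop := ∀ (G : Type) [Group G] (H : Type) [NormedAddCommGroup H]
  [InnerProductSpace ℂ H] [CompleteSpace H] (α : G →* (H →L[ℂ] H)),
  (∀ g : G, star (α g) = α g⁻¹) → ∀ ξ η : H, η ∈ KA α ξ → ∀ a : ℝ, 0 < a →
  ∃ b : ℝ, 0 ≤ b ∧ ∀ (p : ℕ) (u : Fin p → ℕ → G) (s x : ℝ), 0 ≤ s → 0 < x →
    (∀ δ : ℝ, 0 < δ → ∀ᶠ k in atTop, ∑ i, ‖α (u i k) ξ - ξ‖ ^ 2 ≤ s + δ) →
    ∃ η' : H, η' ∈ KA α ξ ∧ ‖η'‖ ≤ ‖η‖ ∧ ‖η - η'‖ ^ 2 ≤ a + b * (x * s) ∧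
      ∀ δ : ℝ, 0 < δ → ∃ᶠ k in atTop,
        ∑ i, ‖α (u i k) η' - η'‖ ^ 2 ≤ ‖η‖ ^ 2 / (2 * x) + δ

/-- T11: the Cayley transform -/
def S_cay : Prop := ∀ (H : Type) [NormedAddCommGroup H] [InnerProductSpace ℂ H] [CompleteSpace H]
  (M N : VonNeumannAlgebra H) (ξ : H) (U : ℝ → H →L[ℂ] H) (J : H → H),
  (∀ x : H →L[ℂ] H, x ∈ N → x ∈ M) → IsConj M ξ U J →
  ∀ (z : H →L[ℂ] H) (κ : ℝ), z ∈ N → 0 < κ → ‖z‖ ≤ κ →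
  ∃ u : Fin 2 → H →L[ℂ] H, (∀ j, IsUni N (u j)) ∧
    (∀ v : H, ‖cm J z v‖ ^ 2 ≤ 2 * κ ^ 2 * ∑ j, ‖alf J (u j) v - v‖ ^ 2) ∧
    (∀ v : H, J v = v → κ ^ 2 * ∑ j, ‖alf J (u j) v - v‖ ^ 2 ≤ 4 * ‖cm J z v‖ ^ 2)

/-- T12a: the modulus of a vector of `𝒦` on bounded elements -/
def S_mod : Prop := ∀ (H : Type) [NormedAddCommGroup H] [InnerProductSpace ℂ H] [CompleteSpace H]
  (M N : VonNeumannAlgebra H) (ξ : H) (U : ℝ → H →L[ℂ] H) (J : H → H),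
  (∀ x : H →L[ℂ] H, x ∈ N → x ∈ M) → IsConj M ξ U J →
  ∀ η : H, η ∈ KK N ξ J → ∀ L a : ℝ, 0 < L → 0 < a → ∃ b : ℝ, 0 ≤ b ∧
    ∀ z : H →L[ℂ] H, z ∈ N → ‖z‖ ≤ L → ‖cm J z η‖ ^ 2 ≤ a + b * ‖cm J z ξ‖ ^ 2

/-- T12b: `𝒦` is a closed invariant subspace -/
def S_KK : Prop := ∀ (H : Type) [NormedAddCommGroup H] [InnerProductSpace ℂ H] [CompleteSpace H]
  (M N : VonNeumannAlgebra H) (ξ : H) (U : ℝ → H →L[ℂ] H) (J : H → H),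
  (∀ x : H →L[ℂ] H, x ∈ N → x ∈ M) → IsModular M ξ U → IsConj M ξ U J →
  (∀ (t : ℝ) (x : H →L[ℂ] H), x ∈ N → sgm U t x ∈ N) →
  ∃ K : Submodule ℂ H, (K : Set H) = KK N ξ J ∧ IsClosed (K : Set H) ∧ ξ ∈ K ∧
    (∀ (t : ℝ) (v : H), v ∈ K → U t v ∈ K) ∧ (∀ v : H, v ∈ K → J v ∈ K)

/-- T12c: the bicentralizer and `𝒦` -/
def S_bic : Prop := ∀ (H : Type) [NormedAddCommGroup H] [InnerProductSpace ℂ H] [CompleteSpace H]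
  (M N : VonNeumannAlgebra H) (ξ : H) (U : ℝ → H →L[ℂ] H) (J : H → H),
  (∀ x : H →L[ℂ] H, x ∈ N → x ∈ M) → ‖ξ‖ = 1 → IsConj M ξ U J →
  ∀ b : H →L[ℂ] H, b ∈ relBicentralizer N M ξ →
    star b ∈ relBicentralizer N M ξ ∧ b ξ ∈ KK N ξ J ∧ star b ξ ∈ KK N ξ J

/-- T13: the contractions `Q_t ζ = lim v_k^* ζ v_k` on `𝒦`, `v_k` isometries of scale `t` -/
def S_Q : Prop := ∀ (H : Type) [NormedAddCommGroup H] [InnerProductSpace ℂ H] [CompleteSpace H]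
  (M N : VonNeumannAlgebra H) (ξ : H) (U : ℝ → H →L[ℂ] H) (J : H → H),
  (∀ x : H →L[ℂ] H, x ∈ N → x ∈ M) → IsModular M ξ U → IsConj M ξ U J →
  (∀ (t : ℝ) (x : H →L[ℂ] H), x ∈ N → sgm U t x ∈ N) →
  ∀ (t : ℝ) (v : ℕ → H →L[ℂ] H), 0 < t → t < 1 → (∀ k : ℕ, IsScal N ξ J t (1 / ((k : ℝ) + 1)) (v k)) →
  ∃ Q : H → H, ∀ ζ : H, ζ ∈ KK N ξ J → Q ζ ∈ KK N ξ J ∧ ‖Q ζ‖ ≤ ‖ζ‖ ∧
    Tendsto (fun k => star (v k) (J (star (v k) (J ζ)))) atTop (𝓝 (Q ζ)) ∧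
    (∀ ζ' : H, ζ' ∈ KK N ξ J → ∀ c : ℂ, Q (ζ + c • ζ') = Q ζ + c • Q ζ') ∧
    ∀ s : ℝ, Q (U s ζ) = U s (Q ζ)

/-- T9a: windows -/
def S_split : Prop := ∀ (H : Type) [NormedAddCommGroup H] [InnerProductSpace ℂ H]
  [CompleteSpace H] (M N : VonNeumannAlgebra H) (ξ : H) (U : ℝ → H →L[ℂ] H) (J : H → H),
  (∀ x : H →L[ℂ] H, x ∈ N → x ∈ M) → IsModular M ξ U → IsConj M ξ U J →
  (∀ (t : ℝ) (x : H →L[ℂ] H), x ∈ N → sgm U t x ∈ N) →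
  ∀ (τ c : ℝ) (q : ℤ → ℂ), IsQ q c → ∃ C : ℝ, 0 ≤ C ∧ ∀ r : ℕ, 2 ≤ r →
  ∃ (θ t : Fin r → ℝ) (P : Fin r → H →L[ℂ] H) (e : Fin r → ℕ → ℂ),
    (∀ i, 0 < t i ∧ t i < 1 ∧ Real.sqrt (t i) * c ≤ 1) ∧
    (∀ i, HasSum (fun k : ℤ => q k * cexp (I * ((k : ℝ) * θ i))) (((Real.sqrt (t i))⁻¹ : ℝ) : ℂ)) ∧
    (∀ i, P i = ∑ k ∈ Finset.range r, e i k • U ((k : ℝ) * τ)) ∧
    (∀ v : H, ∑ i, ‖P i v‖ ^ 2 = ‖v‖ ^ 2) ∧
    (∀ v : H, ∑ i, ‖P i (U τ v - cexp (I * θ i) • v)‖ ^ 2 ≤ C * ‖v‖ ^ 2 / (r : ℝ) ^ 2) ∧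
    ∀ n : H →L[ℂ] H, n ∈ N → ∃ m : Fin r → H →L[ℂ] H,
      (∀ i, m i ∈ N ∧ ‖m i‖ ≤ ‖n‖) ∧ ∑ i, m i = n ∧
      (∀ i, m i ξ = star (P i) (P i (n ξ))) ∧
      (∀ i, J (star (m i) ξ) = star (P i) (P i (J (star n ξ)))) ∧
      (HasSum (fun k : ℤ => q k • U ((k : ℝ) * τ) (n ξ)) (J (star n ξ)) →
        ∑ i, ‖m i ξ - ((Real.sqrt (t i) : ℝ) : ℂ) • J (star (m i) ξ)‖ ^ 2 ≤
          C * ‖n ξ‖ ^ 2 / (r : ℝ) ^ 2)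

/-- T9b: the pairing -/
def S_pair : Prop := ∀ (H : Type) [NormedAddCommGroup H] [InnerProductSpace ℂ H] [CompleteSpace H]
  (M : VonNeumannAlgebra H) (ξ : H) (U : ℝ → H →L[ℂ] H) (J : H → H),
  IsModular M ξ U → IsConj M ξ U J → ∀ (τ : ℝ) (r : ℕ) (P : Fin r → H →L[ℂ] H)
  (e : Fin r → ℕ → ℂ), (∀ i, P i = ∑ k ∈ Finset.range r, e i k • U ((k : ℝ) * τ)) →
  (∀ v : H, ∑ i, ‖P i v‖ ^ 2 = ‖v‖ ^ 2) →
  ∀ (K : Submodule ℂ H) (Q : Fin r → H → H), (∀ (s : ℝ) (v : H), v ∈ K → U s v ∈ K) →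
  (∀ i, ∀ v : H, v ∈ K → ‖Q i v‖ ≤ ‖v‖) →
  (∀ i, ∀ v : H, v ∈ K → ∀ w : H, w ∈ K → ∀ c : ℂ, Q i (v + c • w) = Q i v + c • Q i w) →
  (∀ i, ∀ (s : ℝ) (v : H), v ∈ K → Q i (U s v) = U s (Q i v)) →
  ∀ y v : H, v ∈ K → ‖∑ i, ⟪J (star (P i) (P i y)), Q i v⟫_ℂ‖ ≤ ‖y‖ * ‖v‖

/-- T14: the main inequality -/
def S_main : Prop := ∀ (H : Type) [NormedAddCommGroup H] [InnerProductSpace ℂ H] [CompleteSpace H]
  (M N : VonNeumannAlgebra H) (ξ : H) (U : ℝ → H →L[ℂ] H) (J : H → H),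
  (∀ x : H →L[ℂ] H, x ∈ N → x ∈ M) → IsModular M ξ U → IsConj M ξ U J →
  (∀ (t : ℝ) (x : H →L[ℂ] H), x ∈ N → sgm U t x ∈ N) →
  (∀ t ε : ℝ, 0 < t → t < 1 → 0 < ε → ∃ v, IsScal N ξ J t ε v) →
  ∀ (τ c : ℝ) (q : ℤ → ℂ), IsQ q c → ∀ n : H →L[ℂ] H, n ∈ N →
  HasSum (fun k : ℤ => q k • U ((k : ℝ) * τ) (n ξ)) (J (star n ξ)) →
  ∀ η : H, η ∈ KK N ξ J → ‖⟪star n ξ, η⟫_ℂ‖ ≤ ‖n ξ‖ * ‖η‖

/-- T14b: the lower bound -/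
def S_low : Prop := ∀ (H : Type) [NormedAddCommGroup H] [InnerProductSpace ℂ H] [CompleteSpace H]
  (M N : VonNeumannAlgebra H) (ξ : H) (U : ℝ → H →L[ℂ] H) (J : H → H),
  (∀ x : H →L[ℂ] H, x ∈ N → x ∈ M) → IsModular M ξ U → IsConj M ξ U J →
  (∀ (t : ℝ) (x : H →L[ℂ] H), x ∈ N → sgm U t x ∈ N) →
  ∀ (τ c : ℝ) (q : ℤ → ℂ), IsQ q c → ∀ n : H →L[ℂ] H, n ∈ N →
  HasSum (fun k : ℤ => q k • U ((k : ℝ) * τ) (n ξ)) (J (star n ξ)) →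
  c * ‖n ξ‖ ≤ ‖star n ξ‖

/-- T15: the bicentralizer is contained in the centralizer -/
def S_inv : Prop := ∀ (H : Type) [NormedAddCommGroup H] [InnerProductSpace ℂ H] [CompleteSpace H]
  (M : VonNeumannAlgebra H) (ξ : H) (U : ℝ → H →L[ℂ] H) (J : H → H),
  ‖ξ‖ = 1 → IsModular M ξ U → IsConj M ξ U J →
  (∀ t ε : ℝ, 0 < t → t < 1 → 0 < ε → ∃ v, IsScal M ξ J t ε v) →
  ∀ b : H →L[ℂ] H, b ∈ relBicentralizer M M ξ → ∀ t : ℝ, U t (b ξ) = b ξ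

/-- Connes' bicentralizer problem -/
def S_D1 : Prop := ∀ (H : Type) [NormedAddCommGroup H] [InnerProductSpace ℂ H] [CompleteSpace H]
  (M : VonNeumannAlgebra H) (ξ : H) (U : ℝ → H →L[ℂ] H),
  ‖ξ‖ = 1 → IsCyclic M ξ → IsSeparating M ξ → IsModular M ξ U → IsTypeIII1 M →
  ∀ b : H →L[ℂ] H, b ∈ relBicentralizer M M ξ → ∃ c : ℂ, b = c • (1 : H →L[ℂ] H)

end

end Pool.Agent.H255.BC
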