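import Pool.Agent.H255.BC.Defs

/-!
The relative bicentralizer flow and the relative flow of weights: definitions and interfaces
(helper255).  Model of the dominant weight: `N₀ = N ⊗ B(L²(ℝ))` on `L²(ℝ; H)`,
`ψ = φ ⊗ Tr(h ·)` with `h^{it}` the translations, so that `σ^ψ_t = Ad V_t`,
`(V_t f)(s) = U_t f (s + t)`.
-/

set_option autoImplicit false

open MeasureTheory Filter Topology Complex
open scoped InnerProductSpace ENNReal FourierTransform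

namespace Pool.Agent.H255.BC

open Pool.Agent.W662.CB

noncomputable section

variable {H : Type} [NormedAddCommGroup H] [InnerProductSpace ℂ H] [CompleteSpace H]

/-- The norm of the functional `aφ - lam φa` on `M`, where `aφ = φ(· a)`, `φa = φ(a ·)`. -/
def twNorm (M : VonNeumannAlgebra H) (ξ : H) (lam : ℝ) (a : H →L[ℂ] H) : ℝ :=
  sSup {r : ℝ | ∃ x : H →L[ℂ] H, x ∈ M ∧ ‖x‖ ≤ 1 ∧
    r = ‖vst ξ (x * a) - (lam : ℂ) * vst ξ (a * x)‖}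

/-- `β` is the relative bicentralizer flow of `N ⊂ M` and `φ = ω_ξ`: a continuous action of
`ℝ*₊` on `B(N ⊂ M, φ)` by automorphisms such that `a_n x - β_lam(x) a_n → 0` *-strongly whenever
`(a_n)` is a bounded sequence in `N` with `‖a_n φ - lam φ a_n‖ → 0`. -/
structure IsBicFlow (N M : VonNeumannAlgebra H) (ξ : H)
    (β : ℝ → (H →L[ℂ] H) → (H →L[ℂ] H)) : Prop where
  mem : ∀ lam : ℝ, 0 < lam → ∀ x ∈ relBicentralizer N M ξ, β lam x ∈ relBicentralizer N M ξ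
  one : ∀ x ∈ relBicentralizer N M ξ, β 1 x = x
  comp : ∀ lam mu : ℝ, 0 < lam → 0 < mu → ∀ x ∈ relBicentralizer N M ξ,
    β (lam * mu) x = β lam (β mu x)
  add : ∀ lam : ℝ, 0 < lam → ∀ x ∈ relBicentralizer N M ξ, ∀ y ∈ relBicentralizer N M ξ,
    β lam (x + y) = β lam x + β lam y
  smul : ∀ lam : ℝ, 0 < lam → ∀ (c : ℂ), ∀ x ∈ relBicentralizer N M ξ, β lam (c • x) = c • β lam x
  mul : ∀ lam : ℝ, 0 < lam → ∀ x ∈ relBicentralizer N M ξ, ∀ y ∈ relBicentralizer N M ξ,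
    β lam (x * y) = β lam x * β lam y
  star_eq : ∀ lam : ℝ, 0 < lam → ∀ x ∈ relBicentralizer N M ξ, β lam (star x) = star (β lam x)
  cont : ∀ x ∈ relBicentralizer N M ξ, ∀ v : H, Continuous fun p : ℝ => β (Real.exp p) x v
  lim : ∀ a : ℕ → H →L[ℂ] H, (∀ n, a n ∈ N) → (∃ C : ℝ, ∀ n, ‖a n‖ ≤ C) → ∀ lam : ℝ, 0 < lam →
    Tendsto (fun n => twNorm M ξ lam (a n)) atTop (𝓝 0) → ∀ x ∈ relBicentralizer N M ξ, ∀ v : H,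
      Tendsto (fun n => (a n * x - β lam x * a n) v) atTop (𝓝 0) ∧
      Tendsto (fun n => star (a n * x - β lam x * a n) v) atTop (𝓝 0)

/-! ### Operators on `L²(ℝ; H)` -/

/-- `V_t = U_t ⊗ ρ_t` -/
def IsDual (U : ℝ → H →L[ℂ] H) (t : ℝ) (S : LR H →L[ℂ] LR H) : Prop :=
  ∀ f : LR H, (S f : ℝ → H) =ᵐ[volume] fun s => U t (f (s + t))

/-- `π_σ(x)` -/
def IsSig (U : ℝ → H →L[ℂ] H) (x : H →L[ℂ] H) (S : LR H →L[ℂ] LR H) : Prop :=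
  ∀ f : LR H, (S f : ℝ → H) =ᵐ[volume] fun s => sgm U (-s) x (f s)

/-- `ζ ↦ f ⊗ ζ` -/
def IsTen (f : ℝ → ℂ) (T : H →L[ℂ] LR H) : Prop :=
  ∀ v : H, (T v : ℝ → H) =ᵐ[volume] fun s => f s • v

/-- `N ⊗ B(L²(ℝ))`: the operators which commute with `y ⊗ 1`, `y ∈ N'`. -/
def Amp (N : VonNeumannAlgebra H) : Set (LR H →L[ℂ] LR H) :=
  {X | ∀ y : H →L[ℂ] H, y ∈ N.commutant → ∀ S : LR H →L[ℂ] LR H, IsConst y S → X * S = S * X}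

/-- The centralizer `N_ψ` of the dominant weight `ψ = φ ⊗ Tr(h ·)` on `N ⊗ B(L²(ℝ))`: the fixed
points of `σ^ψ_t = Ad(U_t ⊗ ρ_t)`. -/
def Cen (N : VonNeumannAlgebra H) (U : ℝ → H →L[ℂ] H) : Set (LR H →L[ℂ] LR H) :=
  {X | X ∈ Amp N ∧ ∀ (t : ℝ) (S : LR H →L[ℂ] LR H), IsDual U t S → X * S = S * X}

/-- The relative commutant of `N_ψ` in `M ⊗ B(L²(ℝ))`. -/
def RC (N M : VonNeumannAlgebra H) (U : ℝ → H →L[ℂ] H) : Set (LR H →L[ℂ] LR H) :=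
  {Y | Y ∈ Amp M ∧ ∀ X ∈ Cen N U, X * Y = Y * X}

/-- the unitary `u_lam ∈ N ⊗ B(L²(ℝ))` with `u ψ u^* = lam ψ`, i.e. `σ^ψ_t(u) = lam^{-it} u` -/
def IsULam (lam : ℝ) (S : LR H →L[ℂ] LR H) : Prop :=
  IsMulOp (fun s : ℝ => cexp (-(I * ((s * Real.log lam : ℝ) : ℂ)))) S

/-- the Fourier transform `(W G)(s) = (2π)^{-1/2} ∫ e^{isp} G(p) dp` -/
def IsFou (W : LR H ≃ₗᵢ[ℂ] LR H) : Prop :=
  ∀ G : ℝ → H, Continuous G → HasCompactSupport G → ∀ F : LR H, (F : ℝ → H) =ᵐ[volume] G →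
    (W F : ℝ → H) =ᵐ[volume] fun s =>
      ((((Real.sqrt (2 * Real.pi))⁻¹ : ℝ)) : ℂ) • ∫ p : ℝ, cexp (I * ((s * p : ℝ) : ℂ)) • G p

/-- pointwise application of an operator valued function -/
def IsOpMul (Y : ℝ → H →L[ℂ] H) (S : LR H →L[ℂ] LR H) : Prop :=
  ∀ f : LR H, (S f : ℝ → H) =ᵐ[volume] fun p => Y p (f p)

/-- `T = π(c)`: in the Fourier picture `π(c)` is the multiplication by `p ↦ β_{e^p}(c)` -/
def IsPi (W : LR H ≃ₗᵢ[ℂ] LR H) (β : ℝ → (H →L[ℂ] H) → (H →L[ℂ] H)) (c : H →L[ℂ] H)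
    (T : LR H →L[ℂ] LR H) : Prop :=
  ∃ S : LR H →L[ℂ] LR H, IsOpMul (fun p => β (Real.exp p) c) S ∧ ∀ f : LR H, T (W f) = W (S f)

/-! ### Standing assumptions -/

/-- the inclusion -/
structure Inc (N M : VonNeumannAlgebra H) (ξ : H) (U : ℝ → H →L[ℂ] H) (J : H → H)
    (E : (H →L[ℂ] H) → (H →L[ℂ] H)) : Prop where
  le : ∀ x : H →L[ℂ] H, x ∈ N → x ∈ M
  unit : ‖ξ‖ = 1
  cyc : IsCyclic M ξ
  sep : IsSeparating M ξ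
  modular : IsModular M ξ U
  conj : IsConj M ξ U J
  exp : IsCondExp M N E
  inv : ∀ x : H →L[ℂ] H, x ∈ M → vst ξ (E x) = vst ξ x
  mod : ∀ (t : ℝ) (x : H →L[ℂ] H), x ∈ N → sgm U t x ∈ N

/-- the consequences of `N` being of type III₁ -/
structure Inc2 (N M : VonNeumannAlgebra H) (ξ : H) (U : ℝ → H →L[ℂ] H) (J : H → H)
    (E : (H →L[ℂ] H) → (H →L[ℂ] H)) : Prop extends Inc N M ξ U J E where
  scal : ∀ t ε : ℝ, 0 < t → t < 1 → 0 < ε → ∃ v, IsScal N ξ J t ε v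
  triv : ∀ b : H →L[ℂ] H, b ∈ N → b ∈ relBicentralizer N M ξ →
    ∃ c : ℂ, b = c • (1 : H →L[ℂ] H)

/-- the elements of `N` with spectrum in a compact subset of `(0, ∞)` -/
def Npos (N : VonNeumannAlgebra H) (ξ : H) (U : ℝ → H →L[ℂ] H) : Set (H →L[ℂ] H) :=
  {n | n ∈ N ∧ ∃ a : H →L[ℂ] H, a ∈ N ∧ ∃ h : ℝ → ℂ, Tst h ∧
    (∃ c : ℝ, 0 < c ∧ ∀ κ, κ < c → h κ = 0) ∧ n ξ = psi U h (a ξ)}

/-- the contraction `Q_t` of `𝒦` -/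
def IsQop (N : VonNeumannAlgebra H) (ξ : H) (J : H → H) (t : ℝ) (Q : H → H) : Prop :=
  ∃ v : ℕ → H →L[ℂ] H, (∀ k : ℕ, IsScal N ξ J t (1 / ((k : ℝ) + 1)) (v k)) ∧
    ∀ ζ : H, ζ ∈ KK N ξ J → Q ζ ∈ KK N ξ J ∧ ‖Q ζ‖ ≤ ‖ζ‖ ∧
      Tendsto (fun k => star (v k) (J (star (v k) (J ζ)))) atTop (𝓝 (Q ζ))

/-- windows -/
structure Win (N : VonNeumannAlgebra H) (ξ : H) (J : H → H) (C : ℝ) (n : H →L[ℂ] H) (r : ℕ)
    (t : Fin r → ℝ) (m P : Fin r → H →L[ℂ] H) : Prop where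
  tpos : ∀ i, 0 < t i ∧ t i < 1
  mem : ∀ i, m i ∈ N
  norm : ∀ i, ‖m i‖ ≤ ‖n‖
  sum : ∑ i, m i = n
  psum : ∀ v : H, ∑ i, ‖P i v‖ ^ 2 = ‖v‖ ^ 2
  m1 : ∀ i, m i ξ = star (P i) (P i (n ξ))
  m2 : ∀ i, J (star (m i) ξ) = star (P i) (P i (J (star n ξ)))
  err : ∑ i, ‖m i ξ - ((Real.sqrt (t i) : ℝ) : ℂ) • J (star (m i) ξ)‖ ^ 2 ≤ C / (r : ℝ) ^ 2

/-! ### The tasks of stage 2 -/

/-- R1: multiplicativity of `psi` -/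
def S_psi_mul : Prop := ∀ (H : Type) [NormedAddCommGroup H] [InnerProductSpace ℂ H]
  [CompleteSpace H] (M : VonNeumannAlgebra H) (ξ : H) (U : ℝ → H →L[ℂ] H), IsModular M ξ U →
  ∀ h h' : ℝ → ℂ, Tst h → Tst h' → ∀ v : H,
    psi U (fun κ => h κ * h' κ) v = psi U h (psi U h' v)

/-- R2: the norm of `psi` -/
def S_psi_norm : Prop := ∀ (H : Type) [NormedAddCommGroup H] [InnerProductSpace ℂ H]
  [CompleteSpace H] (M : VonNeumannAlgebra H) (ξ : H) (U : ℝ → H →L[ℂ] H), IsModular M ξ U →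
  ∀ h : ℝ → ℂ, Tst h → ∀ C : ℝ, (∀ κ, ‖h κ‖ ≤ C) → ∀ v : H, ‖psi U h v‖ ≤ C * ‖v‖

/-- R3: `psi`, `J` and `Δ^{1/2}` -/
def S_psi_J : Prop := ∀ (H : Type) [NormedAddCommGroup H] [InnerProductSpace ℂ H] [CompleteSpace H]
  (M : VonNeumannAlgebra H) (ξ : H) (U : ℝ → H →L[ℂ] H) (J : H → H), IsModular M ξ U →
  IsConj M ξ U J → ∀ h : ℝ → ℂ, Tst h →
    (∀ v : H, J (psi U h v) = psi U (fun κ => starRingEnd ℂ (h (-κ))) (J v)) ∧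
    ∀ a : H →L[ℂ] H, a ∈ M →
      psi U (fun κ => cexp (κ / 2) * h κ) (a ξ) = psi U h (J (star a ξ))

/-- R4: approximate eigenvectors -/
def S_near : Prop := ∀ (H : Type) [NormedAddCommGroup H] [InnerProductSpace ℂ H] [CompleteSpace H]
  (M : VonNeumannAlgebra H) (ξ : H) (U : ℝ → H →L[ℂ] H) (J : H → H), IsModular M ξ U →
  IsConj M ξ U J → ∀ (x : ℕ → H →L[ℂ] H) (κ₀ : ℝ), (∀ k, x k ∈ M) → (∃ C : ℝ, ∀ k, ‖x k ξ‖ ≤ C) →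
  Tendsto (fun k => J (star (x k) ξ) - cexp (κ₀ / 2) • x k ξ) atTop (𝓝 0) →
    (∀ s : ℝ, Tendsto (fun k => U s (x k ξ) - cexp (I * ((s * κ₀ : ℝ) : ℂ)) • x k ξ)
      atTop (𝓝 0)) ∧
    ∀ h : ℝ → ℂ, Tst h → (∀ᶠ κ in 𝓝 κ₀, h κ = 1) →
      Tendsto (fun k => psi U h (x k ξ) - x k ξ) atTop (𝓝 0)

/-- R5: `‖aξ - ξa‖² ≤ 8 ‖a‖ ‖aφ - φa‖` -/
def S_psa2 : Prop := ∀ (H : Type) [NormedAddCommGroup H] [InnerProductSpace ℂ H] [CompleteSpace H]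
  (M : VonNeumannAlgebra H) (ξ : H) (U : ℝ → H →L[ℂ] H) (J : H → H), ‖ξ‖ = 1 →
  IsModular M ξ U → IsCyclic M ξ → IsConj M ξ U J → ∀ a : H →L[ℂ] H, a ∈ M →
    ‖cm J a ξ‖ ^ 2 ≤ 8 * ‖a‖ * commNorm M ξ a

/-- R6: description of the bicentralizer by `𝒦` -/
def S_Bchar : Prop := ∀ (H : Type) [NormedAddCommGroup H] [InnerProductSpace ℂ H] [CompleteSpace H]
  (N M : VonNeumannAlgebra H) (ξ : H) (U : ℝ → H →L[ℂ] H) (J : H → H)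
  (E : (H →L[ℂ] H) → (H →L[ℂ] H)), Inc N M ξ U J E →
  ∀ b : H →L[ℂ] H, b ∈ relBicentralizer N M ξ ↔ (b ∈ M ∧ b ξ ∈ KK N ξ J)

/-- R7: the bicentralizer is a von Neumann algebra -/
def S_Bvn : Prop := ∀ (H : Type) [NormedAddCommGroup H] [InnerProductSpace ℂ H] [CompleteSpace H]
  (N M : VonNeumannAlgebra H) (ξ : H) (U : ℝ → H →L[ℂ] H) (J : H → H)
  (E : (H →L[ℂ] H) → (H →L[ℂ] H)), Inc N M ξ U J E →
  ∃ B : VonNeumannAlgebra H, ∀ b : H →L[ℂ] H, b ∈ B ↔ b ∈ relBicentralizer N M ξ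

/-- R8: reduction of `N` to the closure of `N ξ` -/
def S_red : Prop := ∀ (H : Type) [NormedAddCommGroup H] [InnerProductSpace ℂ H] [CompleteSpace H]
  (N M : VonNeumannAlgebra H) (ξ : H) (U : ℝ → H →L[ℂ] H) (J : H → H)
  (E : (H →L[ℂ] H) → (H →L[ℂ] H)), Inc N M ξ U J E →
  ∃ (K : Type) (_ : NormedAddCommGroup K) (_ : InnerProductSpace ℂ K) (_ : CompleteSpace K)
    (N₁ : VonNeumannAlgebra K) (ξ₁ : K) (U₁ : ℝ → K →L[ℂ] K) (j : K →ₗᵢ[ℂ] H)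
    (ρ : (H →L[ℂ] H) → (K →L[ℂ] K)),
    j ξ₁ = ξ ∧ (∀ (t : ℝ) (v : K), j (U₁ t v) = U t (j v)) ∧
    (∀ x : H →L[ℂ] H, x ∈ N → ρ x ∈ N₁ ∧ ‖ρ x‖ = ‖x‖ ∧ ∀ v : K, j (ρ x v) = x (j v)) ∧
    (∀ y : K →L[ℂ] K, y ∈ N₁ → ∃ x : H →L[ℂ] H, x ∈ N ∧ ρ x = y) ∧
    IsModular N₁ ξ₁ U₁ ∧ IsCyclic N₁ ξ₁ ∧ IsSeparating N₁ ξ₁

/-- R9: the standing assumptions from type III₁ -/
def S_inc2 : Prop := ∀ (H : Type) [NormedAddCommGroup H] [InnerProductSpace ℂ H] [CompleteSpace H]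
  (N M : VonNeumannAlgebra H) (ξ : H) (U : ℝ → H →L[ℂ] H) (J : H → H)
  (E : (H →L[ℂ] H) → (H →L[ℂ] H)), Inc N M ξ U J E → IsTypeIII1 N → Inc2 N M ξ U J E

/-- R10: `⟨ζ, x ζ'⟩ = φ(x) ⟨ζ, ζ'⟩` on `𝒦` -/
def S_prodK : Prop := ∀ (H : Type) [NormedAddCommGroup H] [InnerProductSpace ℂ H] [CompleteSpace H]
  (N M : VonNeumannAlgebra H) (ξ : H) (U : ℝ → H →L[ℂ] H) (J : H → H)
  (E : (H →L[ℂ] H) → (H →L[ℂ] H)), Inc2 N M ξ U J E →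
  ∀ x : H →L[ℂ] H, x ∈ N → ∀ ζ ζ' : H, ζ ∈ KK N ξ J → ζ' ∈ KK N ξ J →
    ⟪ζ, x ζ'⟫_ℂ = vst ξ x * ⟪ζ, ζ'⟫_ℂ ∧ ⟪ζ, J (star x (J ζ'))⟫_ℂ = vst ξ x * ⟪ζ, ζ'⟫_ℂ

/-- R11: the twisted commutation on `𝒦`: `n η = lim ∑ (Q_i η) m_i` -/
def S_vec : Prop := ∀ (H : Type) [NormedAddCommGroup H] [InnerProductSpace ℂ H] [CompleteSpace H]
  (N M : VonNeumannAlgebra H) (ξ : H) (U : ℝ → H →L[ℂ] H) (J : H → H)
  (E : (H →L[ℂ] H) → (H →L[ℂ] H)), Inc2 N M ξ U J E →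
  ∀ (n : H →L[ℂ] H) (C : ℝ) (η : H), n ∈ N → 0 ≤ C → η ∈ KK N ξ J → ∀ ε : ℝ, 0 < ε →
  ∃ r₀ : ℕ, ∀ r : ℕ, r₀ ≤ r → ∀ (t : Fin r → ℝ) (m P : Fin r → H →L[ℂ] H), Win N ξ J C n r t m P →
  ∀ Q : Fin r → H → H, (∀ i, IsQop N ξ J (t i) (Q i)) →
    ‖n η - ∑ i, J (star (m i) (J (Q i η)))‖ ≤ ε

/-- R12: the flow and the operators `Q_t` -/
def S_betaQ : Prop := ∀ (H : Type) [NormedAddCommGroup H] [InnerProductSpace ℂ H] [CompleteSpace H]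
  (N M : VonNeumannAlgebra H) (ξ : H) (U : ℝ → H →L[ℂ] H) (J : H → H)
  (E : (H →L[ℂ] H) → (H →L[ℂ] H)) (β : ℝ → (H →L[ℂ] H) → (H →L[ℂ] H)), Inc2 N M ξ U J E →
  IsBicFlow N M ξ β → ∀ (t : ℝ) (v : ℕ → H →L[ℂ] H), 0 < t → t < 1 →
  (∀ k : ℕ, IsScal N ξ J t (1 / ((k : ℝ) + 1)) (v k)) → ∀ b ∈ relBicentralizer N M ξ,
  Tendsto (fun k => star (v k) (J (star (v k) (J (b ξ))))) atTop
    (𝓝 (((Real.sqrt t : ℝ) : ℂ) • β t b ξ))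

/-- R13: the expectation and the state on the bicentralizer -/
def S_betaE : Prop := ∀ (H : Type) [NormedAddCommGroup H] [InnerProductSpace ℂ H] [CompleteSpace H]
  (N M : VonNeumannAlgebra H) (ξ : H) (U : ℝ → H →L[ℂ] H) (J : H → H)
  (E : (H →L[ℂ] H) → (H →L[ℂ] H)) (β : ℝ → (H →L[ℂ] H) → (H →L[ℂ] H)), Inc2 N M ξ U J E →
  IsBicFlow N M ξ β →
  (∀ b ∈ relBicentralizer N M ξ, E b = vst ξ b • (1 : H →L[ℂ] H)) ∧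
  ∀ lam : ℝ, 0 < lam → ∀ b ∈ relBicentralizer N M ξ, vst ξ (β lam b) = vst ξ b ∧
    ∀ c ∈ relBicentralizer N M ξ, ⟪β lam b ξ, β lam c ξ⟫_ℂ = ⟪b ξ, c ξ⟫_ℂ

/-- R13b: the automorphisms `β_lam` are contractive -/
def S_betan : Prop := ∀ (H : Type) [NormedAddCommGroup H] [InnerProductSpace ℂ H] [CompleteSpace H]
  (N M : VonNeumannAlgebra H) (ξ : H) (U : ℝ → H →L[ℂ] H) (J : H → H)
  (E : (H →L[ℂ] H) → (H →L[ℂ] H)) (β : ℝ → (H →L[ℂ] H) → (H →L[ℂ] H)), Inc N M ξ U J E →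
  IsBicFlow N M ξ β → ∀ lam : ℝ, 0 < lam → ∀ b ∈ relBicentralizer N M ξ, ‖β lam b‖ ≤ ‖b‖

/-- R14: periodization -/
def S_per : Prop := ∀ (τ : ℝ) (G : ℝ → ℂ), 0 < τ → Tst G → ∃ g : ℤ → ℂ,
  Summable (fun k : ℤ => (1 + |(k : ℝ)|) * ‖g k‖) ∧
  ∀ θ : ℝ, HasSum (fun k : ℤ => g k * cexp (I * ((k : ℝ) * θ)))
    (∑' m : ℤ, G ((θ + 2 * Real.pi * m) / τ))

/-- R15: windows for elements with positive spectrum -/
def S_win2 : Prop := ∀ (H : Type) [NormedAddCommGroup H] [InnerProductSpace ℂ H] [CompleteSpace H]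
  (N M : VonNeumannAlgebra H) (ξ : H) (U : ℝ → H →L[ℂ] H) (J : H → H)
  (E : (H →L[ℂ] H) → (H →L[ℂ] H)), Inc N M ξ U J E →
  ∀ n ∈ Npos N ξ U, ∃ (C D : ℝ) (Cs : ℝ → ℝ), 0 ≤ C ∧ ∀ r : ℕ, 2 ≤ r →
  ∃ (t : Fin r → ℝ) (m P : Fin r → H →L[ℂ] H), Win N ξ J C n r t m P ∧
    (∀ (i : Fin r) (s : ℝ), P i * U s = U s * P i) ∧ (∀ i, -Real.log (t i) ≤ D) ∧
    ∀ s : ℝ, ∑ i, ‖P i (U s (n ξ) - cexp (-(I * ((s * Real.log (t i) : ℝ) : ℂ))) • n ξ)‖ ^ 2 ≤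
      Cs s / (r : ℝ) ^ 2

/-- R16: the twisted commutation relation for elements of the bicentralizer -/
def S_TR3 : Prop := ∀ (H : Type) [NormedAddCommGroup H] [InnerProductSpace ℂ H] [CompleteSpace H]
  (N M : VonNeumannAlgebra H) (ξ : H) (U : ℝ → H →L[ℂ] H) (J : H → H)
  (E : (H →L[ℂ] H) → (H →L[ℂ] H)) (β : ℝ → (H →L[ℂ] H) → (H →L[ℂ] H)), Inc2 N M ξ U J E →
  IsBicFlow N M ξ β → ∀ c ∈ relBicentralizer N M ξ, ∀ n ∈ Npos N ξ U, ∀ h : ℝ → ℂ, Tst h →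
  n (∫ p : ℝ, h p • β (Real.exp p) c ξ) =
    ∫ p : ℝ, β (Real.exp p) c (psi U (fun κ => h (p + κ)) (n ξ))

/-- R17: the Fourier transform on `L²(ℝ; H)` -/
def S_fou : Prop := ∀ (H : Type) [NormedAddCommGroup H] [InnerProductSpace ℂ H] [CompleteSpace H],
  ∃ W : LR H ≃ₗᵢ[ℂ] LR H, IsFou W

/-- R18: operator valued multiplications -/
def S_opmul : Prop := ∀ (H : Type) [NormedAddCommGroup H] [InnerProductSpace ℂ H] [CompleteSpace H]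
  (Y : ℝ → H →L[ℂ] H) (C : ℝ), (∀ v : H, Continuous fun p => Y p v) → (∀ p, ‖Y p‖ ≤ C) →
  ∃ S : LR H →L[ℂ] LR H, IsOpMul Y S ∧ ‖S‖ ≤ C

/-- R19: basic operators on `L²(ℝ; H)` exist: `V_t`, `π_σ(x)`, `f ⊗ ·`, constants, `u_lam` -/
def S_ops : Prop := ∀ (H : Type) [NormedAddCommGroup H] [InnerProductSpace ℂ H] [CompleteSpace H]
  (M : VonNeumannAlgebra H) (ξ : H) (U : ℝ → H →L[ℂ] H), IsModular M ξ U →
  (∀ t : ℝ, ∃ S : LR H →L[ℂ] LR H, IsDual U t S ∧ star S * S = 1 ∧ S * star S = 1 ∧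
    IsDual U (-t) (star S)) ∧
  (∀ x : H →L[ℂ] H, ∃ S : LR H →L[ℂ] LR H, IsSig U x S ∧ ‖S‖ ≤ ‖x‖ ∧ IsSig U (star x) (star S)) ∧
  (∀ x : H →L[ℂ] H, ∃ S : LR H →L[ℂ] LR H, IsConst x S ∧ ‖S‖ ≤ ‖x‖ ∧ IsConst (star x) (star S)) ∧
  (∀ f : ℝ → ℂ, MemLp f 2 (volume : Measure ℝ) → ∃ T : H →L[ℂ] LR H, IsTen f T ∧
    ‖T‖ ≤ (eLpNorm f 2 (volume : Measure ℝ)).toReal) ∧
  (∀ t : ℝ, ∃ S : LR H →L[ℂ] LR H, IsShift t S ∧ star S * S = 1 ∧ S * star S = 1 ∧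
    IsShift (-t) (star S)) ∧
  ∀ lam : ℝ, 0 < lam → ∃ S : LR H →L[ℂ] LR H, IsULam lam S ∧ star S * S = 1 ∧ S * star S = 1 ∧
    IsULam lam⁻¹ (star S)

/-- R20: the generators of the core lie in the centralizer of the dominant weight -/
def S_gen : Prop := ∀ (H : Type) [NormedAddCommGroup H] [InnerProductSpace ℂ H] [CompleteSpace H]
  (N M : VonNeumannAlgebra H) (ξ : H) (U : ℝ → H →L[ℂ] H) (J : H → H)
  (E : (H →L[ℂ] H) → (H →L[ℂ] H)), Inc N M ξ U J E →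
  (∀ x : H →L[ℂ] H, x ∈ N → ∀ S : LR H →L[ℂ] LR H, IsSig U x S → S ∈ Cen N U) ∧
  ∀ (t : ℝ) (S : LR H →L[ℂ] LR H), IsShift t S → S ∈ Cen N U

/-- R21: the operators `π(c)` -/
def S_pi : Prop := ∀ (H : Type) [NormedAddCommGroup H] [InnerProductSpace ℂ H] [CompleteSpace H]
  (N M : VonNeumannAlgebra H) (ξ : H) (U : ℝ → H →L[ℂ] H) (J : H → H)
  (E : (H →L[ℂ] H) → (H →L[ℂ] H)) (β : ℝ → (H →L[ℂ] H) → (H →L[ℂ] H)) (W : LR H ≃ₗᵢ[ℂ] LR H),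
  Inc2 N M ξ U J E → IsBicFlow N M ξ β → IsFou W →
  (∀ c ∈ relBicentralizer N M ξ, ∃ T : LR H →L[ℂ] LR H, IsPi W β c T ∧ T ∈ Amp M ∧
    (∀ (t : ℝ) (S : LR H →L[ℂ] LR H), IsShift t S → T * S = S * T) ∧
    (∀ T' : LR H →L[ℂ] LR H, IsPi W β c T' → T' = T) ∧ IsPi W β (star c) (star T) ∧
    (T = 0 → c = 0)) ∧
  (∀ c ∈ relBicentralizer N M ξ, ∀ d ∈ relBicentralizer N M ξ, ∀ T T' : LR H →L[ℂ] LR H,
    IsPi W β c T → IsPi W β d T' → IsPi W β (c + d) (T + T') ∧ IsPi W β (c * d) (T * T') ∧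
    ∀ z : ℂ, IsPi W β (z • c) (z • T)) ∧
  (∀ c ∈ relBicentralizer N M ξ, ∀ T : LR H →L[ℂ] LR H, IsPi W β c T →
    ∀ lam : ℝ, 0 < lam → ∀ S : LR H →L[ℂ] LR H, IsULam lam S → IsPi W β (β lam c) (S * T * star S))

/-- R22: the expectation of the slices of `π(c)` -/
def S_piE : Prop := ∀ (H : Type) [NormedAddCommGroup H] [InnerProductSpace ℂ H] [CompleteSpace H]
  (N M : VonNeumannAlgebra H) (ξ : H) (U : ℝ → H →L[ℂ] H) (J : H → H)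
  (E : (H →L[ℂ] H) → (H →L[ℂ] H)) (β : ℝ → (H →L[ℂ] H) → (H →L[ℂ] H)) (W : LR H ≃ₗᵢ[ℂ] LR H),
  Inc2 N M ξ U J E → IsBicFlow N M ξ β → IsFou W →
  ∀ c ∈ relBicentralizer N M ξ, ∀ T : LR H →L[ℂ] LR H, IsPi W β c T →
  ∀ (f g : ℝ → ℂ) (Tf Tg : H →L[ℂ] LR H), MemLp f 2 (volume : Measure ℝ) →
    MemLp g 2 (volume : Measure ℝ) → IsTen f Tf → IsTen g Tg →
    ContinuousLinearMap.adjoint Tf ∘L T ∘L Tg ∈ M ∧
    E (ContinuousLinearMap.adjoint Tf ∘L T ∘L Tg) =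
      (vst ξ c * ∫ s : ℝ, starRingEnd ℂ (f s) * g s) • (1 : H →L[ℂ] H)

/-- R23: `π(c)` commutes with `π_σ(n)`, `n` with positive spectrum -/
def S_pin : Prop := ∀ (H : Type) [NormedAddCommGroup H] [InnerProductSpace ℂ H] [CompleteSpace H]
  (N M : VonNeumannAlgebra H) (ξ : H) (U : ℝ → H →L[ℂ] H) (J : H → H)
  (E : (H →L[ℂ] H) → (H →L[ℂ] H)) (β : ℝ → (H →L[ℂ] H) → (H →L[ℂ] H)) (W : LR H ≃ₗᵢ[ℂ] LR H),
  Inc2 N M ξ U J E → IsBicFlow N M ξ β → IsFou W →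
  ∀ c ∈ relBicentralizer N M ξ, ∀ T : LR H →L[ℂ] LR H, IsPi W β c T →
  ∀ n ∈ Npos N ξ U, ∀ R : LR H →L[ℂ] LR H, IsSig U n R → T * R = R * T

/-- R24: products and the spectrum -/
def S_prodsp : Prop := ∀ (H : Type) [NormedAddCommGroup H] [InnerProductSpace ℂ H]
  [CompleteSpace H] (N M : VonNeumannAlgebra H) (ξ : H) (U : ℝ → H →L[ℂ] H) (J : H → H)
  (E : (H →L[ℂ] H) → (H →L[ℂ] H)), Inc N M ξ U J E →
  ∀ (h₀ h₁ : ℝ → ℂ) (A B : ℝ), Tst h₀ → Tst h₁ → (∀ κ, κ < A → h₀ κ = 0) →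
  (∀ κ, κ < B → h₁ κ = 0) → 0 < A + B → ∀ a b x w : H →L[ℂ] H, a ∈ N → b ∈ N → x ∈ N → w ∈ N →
  x ξ = psi U h₀ (a ξ) → w ξ = psi U h₁ (b ξ) → x * w ∈ Npos N ξ U

/-- R25: from `Npos` to `N` -/
def S_ext : Prop := ∀ (H : Type) [NormedAddCommGroup H] [InnerProductSpace ℂ H] [CompleteSpace H]
  (N M : VonNeumannAlgebra H) (ξ : H) (U : ℝ → H →L[ℂ] H) (J : H → H)
  (E : (H →L[ℂ] H) → (H →L[ℂ] H)), Inc2 N M ξ U J E →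
  ∀ T : LR H →L[ℂ] LR H, T ∈ Amp M →
  (∀ n ∈ Npos N ξ U, ∀ R : LR H →L[ℂ] LR H, IsSig U n R → T * R = R * T) →
  ∀ n : H →L[ℂ] H, n ∈ N → ∀ R : LR H →L[ℂ] LR H, IsSig U n R → T * R = R * T

/-- R26: Digernes–Takesaki: an operator commuting with `π_σ(N)` and with the translations
commutes with the centralizer of the dominant weight -/
def S_DT : Prop := ∀ (H : Type) [NormedAddCommGroup H] [InnerProductSpace ℂ H] [CompleteSpace H]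
  (N M : VonNeumannAlgebra H) (ξ : H) (U : ℝ → H →L[ℂ] H), IsModular M ξ U →
  (∀ x : H →L[ℂ] H, x ∈ N → x ∈ M) →
  (∀ (t : ℝ) (x : H →L[ℂ] H), x ∈ N → sgm U t x ∈ N) → ∀ Y : LR H →L[ℂ] LR H,
  (∀ x : H →L[ℂ] H, x ∈ N → ∀ S : LR H →L[ℂ] LR H, IsSig U x S → Y * S = S * Y) →
  (∀ (t : ℝ) (S : LR H →L[ℂ] LR H), IsShift t S → Y * S = S * Y) →
  ∀ X ∈ Cen N U, X * Y = Y * X

/-- R27: the slices of the elements of the relative commutant lie in the bicentralizer -/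
def S_slice : Prop := ∀ (H : Type) [NormedAddCommGroup H] [InnerProductSpace ℂ H] [CompleteSpace H]
  (N M : VonNeumannAlgebra H) (ξ : H) (U : ℝ → H →L[ℂ] H) (J : H → H)
  (E : (H →L[ℂ] H) → (H →L[ℂ] H)), Inc N M ξ U J E → ∀ Y : LR H →L[ℂ] LR H, Y ∈ Amp M →
  (∀ x : H →L[ℂ] H, x ∈ N → ∀ S : LR H →L[ℂ] LR H, IsSig U x S → Y * S = S * Y) →
  ∀ (f g : ℝ → ℂ) (Tf Tg : H →L[ℂ] LR H), MemLp f 2 (volume : Measure ℝ) →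
    MemLp g 2 (volume : Measure ℝ) → IsTen f Tf → IsTen g Tg →
    ContinuousLinearMap.adjoint Tf ∘L Y ∘L Tg ∈ relBicentralizer N M ξ

/-- R28: the flow on the slices -/
def S_slbeta : Prop := ∀ (H : Type) [NormedAddCommGroup H] [InnerProductSpace ℂ H]
  [CompleteSpace H] (N M : VonNeumannAlgebra H) (ξ : H) (U : ℝ → H →L[ℂ] H) (J : H → H)
  (E : (H →L[ℂ] H) → (H →L[ℂ] H)) (β : ℝ → (H →L[ℂ] H) → (H →L[ℂ] H)), Inc2 N M ξ U J E →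
  IsBicFlow N M ξ β → ∀ Y : LR H →L[ℂ] LR H, Y ∈ Amp M →
  (∀ x : H →L[ℂ] H, x ∈ N → ∀ S : LR H →L[ℂ] LR H, IsSig U x S → Y * S = S * Y) →
  ∀ (f g : ℝ → ℂ) (Tf Tg : H →L[ℂ] LR H), MemLp f 2 (volume : Measure ℝ) →
    MemLp g 2 (volume : Measure ℝ) → IsTen f Tf → IsTen g Tg →
    ∀ lam : ℝ, 0 < lam → ∀ S : LR H →L[ℂ] LR H, IsULam lam S →
    β lam (ContinuousLinearMap.adjoint Tf ∘L Y ∘L Tg) =
      ContinuousLinearMap.adjoint Tf ∘L (S * Y * star S) ∘L Tg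

/-- R29: surjectivity -/
def S_surj : Prop := ∀ (H : Type) [NormedAddCommGroup H] [InnerProductSpace ℂ H] [CompleteSpace H]
  (N M : VonNeumannAlgebra H) (ξ : H) (U : ℝ → H →L[ℂ] H) (J : H → H)
  (E : (H →L[ℂ] H) → (H →L[ℂ] H)) (β : ℝ → (H →L[ℂ] H) → (H →L[ℂ] H)) (W : LR H ≃ₗᵢ[ℂ] LR H),
  Inc2 N M ξ U J E → IsBicFlow N M ξ β → IsFou W → ∀ Y : LR H →L[ℂ] LR H, Y ∈ Amp M →
  (∀ x : H →L[ℂ] H, x ∈ N → ∀ S : LR H →L[ℂ] LR H, IsSig U x S → Y * S = S * Y) →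
  (∀ (t : ℝ) (S : LR H →L[ℂ] LR H), IsShift t S → Y * S = S * Y) →
  ∃ c ∈ relBicentralizer N M ξ, IsPi W β c Y

/-- The full theorem (Q1): the relative bicentralizer flow is the relative flow of weights. -/
def S_D2 : Prop := ∀ (H : Type) [NormedAddCommGroup H] [InnerProductSpace ℂ H] [CompleteSpace H]
  (N M : VonNeumannAlgebra H) (ξ : H) (U : ℝ → H →L[ℂ] H)
  (E : (H →L[ℂ] H) → (H →L[ℂ] H)) (β : ℝ → (H →L[ℂ] H) → (H →L[ℂ] H)),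
  (∀ x : H →L[ℂ] H, x ∈ N → x ∈ M) → ‖ξ‖ = 1 → IsCyclic M ξ → IsSeparating M ξ →
  IsModular M ξ U → IsCondExp M N E → (∀ x : H →L[ℂ] H, x ∈ M → vst ξ (E x) = vst ξ x) →
  IsTypeIII1 N → IsBicFlow N M ξ β →
  ∃ (B : VonNeumannAlgebra H) (C : VonNeumannAlgebra (LR H))
    (π : B.toStarSubalgebra ≃⋆ₐ[ℂ] C.toStarSubalgebra),
    (∀ x : H →L[ℂ] H, x ∈ B ↔ x ∈ relBicentralizer N M ξ) ∧
    (∀ Y : LR H →L[ℂ] LR H, Y ∈ C ↔ Y ∈ RC N M U) ∧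
    (∀ lam : ℝ, 0 < lam → ∀ x y : B.toStarSubalgebra, (y : H →L[ℂ] H) = β lam x →
      ∀ S : LR H →L[ℂ] LR H, IsULam lam S →
        (π y : LR H →L[ℂ] LR H) = S * (π x : LR H →L[ℂ] LR H) * star S) ∧
    ∀ (x : B.toStarSubalgebra) (f g : ℝ → ℂ) (Tf Tg : H →L[ℂ] LR H),
      MemLp f 2 (volume : Measure ℝ) → MemLp g 2 (volume : Measure ℝ) → IsTen f Tf → IsTen g Tg →
      E (ContinuousLinearMap.adjoint Tf ∘L (π x : LR H →L[ℂ] LR H) ∘L Tg) =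
        (vst ξ (E x) * ∫ s : ℝ, starRingEnd ℂ (f s) * g s) • (1 : H →L[ℂ] H)

end

end Pool.Agent.H255.BC
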