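import Pool.Agent.H255.BC.Fin

/-!
Dominant weights on `N` itself (through their Connes cocycles) and the final form of the theorem
(helper255): definitions and interfaces.
-/

set_option autoImplicit false

open MeasureTheory Filter Topology Complex
open scoped InnerProductSpace ENNReal

namespace Pool.Agent.H255.BC

open Pool.Agent.W662.CB

noncomputable section

variable {H : Type} [NormedAddCommGroup H] [InnerProductSpace ℂ H] [CompleteSpace H]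

/-- A strongly continuous unitary `σ^φ`-cocycle in `N`: the Connes cocycle `v_t = (Dψ : Dφ)_t` of a
faithful normal semifinite weight `ψ` on `N` (by Connes' theorem every cocycle is the Connes
cocycle of exactly one such weight). -/
structure IsCocycle (N : VonNeumannAlgebra H) (U v : ℝ → H →L[ℂ] H) : Prop where
  mem : ∀ t : ℝ, v t ∈ N
  star_mul : ∀ t : ℝ, star (v t) * v t = 1
  mul_star : ∀ t : ℝ, v t * star (v t) = 1
  cont : ∀ ζ : H, Continuous fun t : ℝ => v t ζ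
  cocycle : ∀ s t : ℝ, v (s + t) = v s * sgm U s (v t)

/-- `σ^ψ_t(x) = v_t σ^φ_t(x) v_t^*` -/
def sgw (U v : ℝ → H →L[ℂ] H) (t : ℝ) (x : H →L[ℂ] H) : H →L[ℂ] H := v t * sgm U t x * star (v t)

/-- The centralizer `N_ψ` of `ψ`: the fixed points of `σ^ψ` in `N`. -/
def wCen (N : VonNeumannAlgebra H) (U v : ℝ → H →L[ℂ] H) : Set (H →L[ℂ] H) :=
  {x | x ∈ N ∧ ∀ t : ℝ, sgw U v t x = x}

/-- `u` is a unitary of `N` with `u ψ u^* = lam ψ`, i.e. `σ^ψ_t(u) = lam^{-it} u`. -/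
def wScale (N : VonNeumannAlgebra H) (U v : ℝ → H →L[ℂ] H) (lam : ℝ) (u : H →L[ℂ] H) : Prop :=
  u ∈ N ∧ star u * u = 1 ∧ u * star u = 1 ∧
    ∀ t : ℝ, sgw U v t u = cexp (-(I * ((t * Real.log lam : ℝ) : ℂ))) • u

/-- `ψ` is a dominant weight: `N_ψ` is properly infinite and for every `lam > 0` there is a unitary
`u ∈ N` with `u ψ u^* = lam ψ`. -/
structure IsDominant (N : VonNeumannAlgebra H) (U v : ℝ → H →L[ℂ] H) : Prop extends
    IsCocycle N U v where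
  inf : ∃ s r : H →L[ℂ] H, s ∈ wCen N U v ∧ r ∈ wCen N U v ∧ star s * s = 1 ∧ star r * r = 1 ∧
    s * star s + r * star r = 1
  scale : ∀ lam : ℝ, 0 < lam → ∃ u : H →L[ℂ] H, wScale N U v lam u

/-- `π` is a `*`-isomorphism of `B = B(N ⊂ M, φ)` onto `C = (N_ψ)' ∩ M` with
`π ∘ β_lam = θ^ψ_lam ∘ π`, `θ^ψ_lam = Ad u` for any unitary `u ∈ N` with `u ψ u^* = lam ψ`, and
`E(π(x)) = φ(E(x)) 1`. -/
structure IsWeightIso (N M : VonNeumannAlgebra H) (ξ : H) (U : ℝ → H →L[ℂ] H)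
    (E : (H →L[ℂ] H) → (H →L[ℂ] H)) (β : ℝ → (H →L[ℂ] H) → (H →L[ℂ] H)) (v : ℝ → H →L[ℂ] H)
    (B C : VonNeumannAlgebra H) (π : B.toStarSubalgebra ≃⋆ₐ[ℂ] C.toStarSubalgebra) : Prop where
  memB : ∀ x : H →L[ℂ] H, x ∈ B ↔ x ∈ relBicentralizer N M ξ
  memC : ∀ x : H →L[ℂ] H, x ∈ C ↔ (x ∈ M ∧ ∀ y ∈ wCen N U v, x * y = y * x)
  flow : ∀ lam : ℝ, 0 < lam → ∀ x y : B.toStarSubalgebra, (y : H →L[ℂ] H) = β lam x →
    ∀ u : H →L[ℂ] H, wScale N U v lam u → (π y : H →L[ℂ] H) = u * (π x : H →L[ℂ] H) * star u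
  exp : ∀ x : B.toStarSubalgebra, E (π x : H →L[ℂ] H) = vst ξ (E x) • (1 : H →L[ℂ] H)

/-! ### Auxiliary notions -/

/-- `W` intertwines `N'` with `N' ⊗ 1` and `v_t U_t` with `U_t ⊗ ρ_t` -/
structure IsSpat (N : VonNeumannAlgebra H) (U v : ℝ → H →L[ℂ] H) (W : H ≃ₗᵢ[ℂ] LR H) : Prop where
  comm : ∀ y : H →L[ℂ] H, y ∈ N.commutant → ∀ S : LR H →L[ℂ] LR H, IsConst y S →
    ∀ ζ : H, W (y ζ) = S (W ζ)
  dual : ∀ (t : ℝ) (S : LR H →L[ℂ] LR H), IsDual U t S → ∀ ζ : H, W (v t (U t ζ)) = S (W ζ)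

/-- `x ⊗ e^{itp}` -/
def IsChar (x : H →L[ℂ] H) (t : ℝ) (S : LR H →L[ℂ] LR H) : Prop :=
  ∀ f : LR H, (S f : ℝ → H) =ᵐ[volume] fun p => cexp (I * ((t * p : ℝ) : ℂ)) • x (f p)

/-- `x ⊗ ρ_t` -/
def IsTrans (x : H →L[ℂ] H) (t : ℝ) (S : LR H →L[ℂ] LR H) : Prop :=
  ∀ f : LR H, (S f : ℝ → H) =ᵐ[volume] fun s => x (f (s + t))

/-- a sequence of isometries with orthogonal ranges of sum `1` -/
structure IsCuntz (w : ℕ → H →L[ℂ] H) : Prop where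
  iso : ∀ k, star (w k) * w k = 1
  orth : ∀ i j, i ≠ j → star (w i) * w j = 0
  sum : ∀ ζ : H, HasSum (fun k => w k (star (w k) ζ)) ζ

/-! ### The tasks of stage 5 -/

/-- G1: an infinite sequence of isometries from a pair -/
def S_cun : Prop := ∀ (H : Type) [NormedAddCommGroup H] [InnerProductSpace ℂ H] [CompleteSpace H]
  (N : VonNeumannAlgebra H) (ξ : H) (s r : H →L[ℂ] H), IsSeparating N ξ → s ∈ N → r ∈ N →
  star s * s = 1 → star r * r = 1 → s * star s + r * star r = 1 →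
  ∃ w : ℕ → H →L[ℂ] H, IsCuntz w ∧ ∀ k, w k ∈ Submonoid.closure ({s, r} : Set (H →L[ℂ] H))

/-- G2: an orthonormal basis of `L²(ℝ)` -/
def S_bas : Prop := ∃ e : ℕ → ℝ → ℂ, (∀ k, MemLp (e k) 2 (volume : Measure ℝ)) ∧
  (∀ i j, ∫ s : ℝ, starRingEnd ℂ (e i s) * e j s = if i = j then 1 else 0) ∧
  ∀ (H : Type) [NormedAddCommGroup H] [InnerProductSpace ℂ H] [CompleteSpace H] (F : LR H),
    (∀ (k : ℕ) (T : H →L[ℂ] LR H), IsTen (e k) T → ∀ v : H, ⟪T v, F⟫_ℂ = 0) → F = 0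

/-- G3: the unitary `ζ ↦ ∑ e_k ⊗ w_k^* ζ` -/
def S_Z0 : Prop := ∀ (H : Type) [NormedAddCommGroup H] [InnerProductSpace ℂ H] [CompleteSpace H]
  (w : ℕ → H →L[ℂ] H), IsCuntz w → ∃ Z : H ≃ₗᵢ[ℂ] LR H, ∀ x : H →L[ℂ] H,
    (∀ k, x * w k = w k * x) → (∀ k, star x * w k = w k * star x) →
    ∀ S : LR H →L[ℂ] LR H, IsConst x S → ∀ ζ : H, Z (x ζ) = S (Z ζ)

/-- G4: existence of a dominant weight -/
def S_dex : Prop := ∀ (H : Type) [NormedAddCommGroup H] [InnerProductSpace ℂ H] [CompleteSpace H]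
  (N M : VonNeumannAlgebra H) (ξ : H) (U : ℝ → H →L[ℂ] H) (J : H → H)
  (E : (H →L[ℂ] H) → (H →L[ℂ] H)), Inc N M ξ U J E → IsTypeIII1 N →
  ∃ (v : ℝ → H →L[ℂ] H) (W : H ≃ₗᵢ[ℂ] LR H), IsDominant N U v ∧ IsSpat N U v W

/-- G5: the transport of the theorem to `N` -/
def S_trp : Prop := ∀ (H : Type) [NormedAddCommGroup H] [InnerProductSpace ℂ H] [CompleteSpace H]
  (N M : VonNeumannAlgebra H) (ξ : H) (U : ℝ → H →L[ℂ] H) (J : H → H)
  (E : (H →L[ℂ] H) → (H →L[ℂ] H)) (β : ℝ → (H →L[ℂ] H) → (H →L[ℂ] H)) (v : ℝ → H →L[ℂ] H)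
  (W : H ≃ₗᵢ[ℂ] LR H), Inc N M ξ U J E → IsTypeIII1 N → IsBicFlow N M ξ β → IsCocycle N U v →
  IsSpat N U v W → ∃ (B C : VonNeumannAlgebra H)
    (π : B.toStarSubalgebra ≃⋆ₐ[ℂ] C.toStarSubalgebra), IsWeightIso N M ξ U E β v B C π

/-- `w` is an isometry of `N` with `σ^ψ_t(w) = lam^{-it} w` -/
def wIso (N : VonNeumannAlgebra H) (U v : ℝ → H →L[ℂ] H) (lam : ℝ) (w : H →L[ℂ] H) : Prop :=
  w ∈ N ∧ star w * w = 1 ∧
    ∀ t : ℝ, sgw U v t w = cexp (-(I * ((t * Real.log lam : ℝ) : ℂ))) • w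

/-- G6a: openness (Baire category) -/
def S_opn : Prop := ∀ (H : Type) [NormedAddCommGroup H] [InnerProductSpace ℂ H] [CompleteSpace H]
  [TopologicalSpace.SeparableSpace H] (N : VonNeumannAlgebra H) (U v : ℝ → H →L[ℂ] H),
  (∀ t, star (U t) * U t = 1) → (∀ t, U t * star (U t) = 1) → IsDominant N U v →
  ∀ (F : Finset H) (ε : ℝ), 0 < ε → ∃ δ : ℝ, 0 < δ ∧ ∀ p : ℝ, |p| < δ →
    ∃ w : H →L[ℂ] H, wIso N U v (Real.exp p) w ∧ ∀ ζ ∈ F, ‖w ζ - ζ‖ < ε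

/-- G6b: measurable choice of isometries -/
def S_mis : Prop := ∀ (H : Type) [NormedAddCommGroup H] [InnerProductSpace ℂ H] [CompleteSpace H]
  [TopologicalSpace.SeparableSpace H] (N : VonNeumannAlgebra H) (U v : ℝ → H →L[ℂ] H),
  (∀ t, star (U t) * U t = 1) → (∀ t, U t * star (U t) = 1) → IsDominant N U v →
  ∃ b : ℝ → H →L[ℂ] H, (∀ p : ℝ, wIso N U v (Real.exp p) (b p)) ∧
    ∀ ζ : H, StronglyMeasurable fun p : ℝ => b p ζ

/-- G6: measurable choice of the unitaries `u_lam` -/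
def S_sel : Prop := ∀ (H : Type) [NormedAddCommGroup H] [InnerProductSpace ℂ H] [CompleteSpace H]
  [TopologicalSpace.SeparableSpace H] (N : VonNeumannAlgebra H) (U v : ℝ → H →L[ℂ] H),
  (∀ t, star (U t) * U t = 1) → (∀ t, U t * star (U t) = 1) → IsDominant N U v →
  ∃ u : ℝ → H →L[ℂ] H, (∀ p : ℝ, wScale N U v (Real.exp p) (u p)) ∧
    ∀ ζ : H, StronglyMeasurable fun p : ℝ => u p ζ

/-- G7: multiplication by measurable operator valued functions -/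
def S_mop : Prop := ∀ (H : Type) [NormedAddCommGroup H] [InnerProductSpace ℂ H] [CompleteSpace H]
  [TopologicalSpace.SeparableSpace H] (Y : ℝ → H →L[ℂ] H) (C : ℝ),
  (∀ ζ : H, StronglyMeasurable fun p : ℝ => Y p ζ) → (∀ p, ‖Y p‖ ≤ C) →
  ∃ S : LR H →L[ℂ] LR H, IsOpMul Y S

/-- G8: step 1 -/
def S_st1 : Prop := ∀ (H : Type) [NormedAddCommGroup H] [InnerProductSpace ℂ H] [CompleteSpace H]
  [TopologicalSpace.SeparableSpace H] (N : VonNeumannAlgebra H) (U v : ℝ → H →L[ℂ] H),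
  (∀ t, star (U t) * U t = 1) → (∀ t, U t * star (U t) = 1) → IsDominant N U v →
  ∃ W : LR H ≃ₗᵢ[ℂ] LR H,
    (∀ y : H →L[ℂ] H, y ∈ N.commutant → ∀ S : LR H →L[ℂ] LR H, IsConst y S →
      ∀ f : LR H, W (S f) = S (W f)) ∧
    ∀ (t : ℝ) (S S' : LR H →L[ℂ] LR H), IsConst (v t * U t) S → IsChar (v t * U t) t S' →
      ∀ f : LR H, W (S f) = S' (W f)

/-- G9: step 2 -/
def S_st2 : Prop := ∀ (H : Type) [NormedAddCommGroup H] [InnerProductSpace ℂ H] [CompleteSpace H]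
  (W : LR H ≃ₗᵢ[ℂ] LR H), IsFou W → ∀ (x : H →L[ℂ] H) (t : ℝ) (S S' : LR H →L[ℂ] LR H),
  IsChar x t S → IsTrans x t S' → ∀ f : LR H, W (S f) = S' (W f)

/-- G10: step 3 -/
def S_st3 : Prop := ∀ (H : Type) [NormedAddCommGroup H] [InnerProductSpace ℂ H] [CompleteSpace H]
  (N : VonNeumannAlgebra H) (U v : ℝ → H →L[ℂ] H), U 0 = 1 →
  (∀ s t, U (s + t) = U s * U t) → (∀ t, star (U t) = U (-t)) → IsCocycle N U v →
  ∃ W : LR H ≃ₗᵢ[ℂ] LR H,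
    (∀ y : H →L[ℂ] H, y ∈ N.commutant → ∀ S : LR H →L[ℂ] LR H, IsConst y S →
      ∀ f : LR H, W (S f) = S (W f)) ∧
    ∀ (t : ℝ) (S S' : LR H →L[ℂ] LR H), IsTrans (v t * U t) t S → IsTrans (U t) t S' →
      ∀ f : LR H, W (S f) = S' (W f)

/-- G11: every dominant weight is unitarily equivalent to the model -/
def S_spat : Prop := ∀ (H : Type) [NormedAddCommGroup H] [InnerProductSpace ℂ H] [CompleteSpace H]
  [TopologicalSpace.SeparableSpace H] (N M : VonNeumannAlgebra H) (ξ : H) (U : ℝ → H →L[ℂ] H)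
  (J : H → H) (E : (H →L[ℂ] H) → (H →L[ℂ] H)) (v : ℝ → H →L[ℂ] H), Inc N M ξ U J E →
  IsDominant N U v → ∃ W : H ≃ₗᵢ[ℂ] LR H, IsSpat N U v W

end

end Pool.Agent.H255.BC
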