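import Pool.Agent.H255.BC.Defs5
import Pool.Graph.R_pool_sql_team_seeded_f72693b1.W988.WD.Defs

/-!
The weak relative Dixmier property for the centralizer of a dominant weight: definitions and
interfaces (helper255).  `KN P x` (library module `W988.WD.Defs`) is the weak operator closure of
the convex hull of the conjugates `u x u^*`, `u` a unitary of `P`.
-/

set_option autoImplicit false

open MeasureTheory Filter Topology Complex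
open scoped InnerProductSpace ENNReal

namespace Pool.Agent.H255.BC

open Pool.Agent.W662.CB Pool.Agent.W988.WD

noncomputable section

/-- a strongly continuous one-parameter group of unitaries -/
structure IsGrp {K : Type} [NormedAddCommGroup K] [InnerProductSpace ℂ K] [CompleteSpace K]
    (u : ℝ → K →L[ℂ] K) : Prop where
  zero : u 0 = 1
  add : ∀ s t : ℝ, u (s + t) = u s * u t
  star_eq : ∀ t : ℝ, star (u t) = u (-t)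
  cont : ∀ v : K, Continuous fun t : ℝ => u t v

/-- `P₀` is the von Neumann algebra `Cen N U` and `M₀` is the von Neumann algebra `Amp M` -/
structure IsModel {H : Type} [NormedAddCommGroup H] [InnerProductSpace ℂ H] [CompleteSpace H]
    (N M : VonNeumannAlgebra H) (U : ℝ → H →L[ℂ] H) (P₀ M₀ : VonNeumannAlgebra (LR H)) :
    Prop where
  memP : ∀ X : LR H →L[ℂ] LR H, X ∈ P₀ ↔ X ∈ Cen N U
  memM : ∀ X : LR H →L[ℂ] LR H, X ∈ M₀ ↔ X ∈ Amp M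
  le : ∀ X : LR H →L[ℂ] LR H, X ∈ P₀ → X ∈ M₀

/-- all slices of `X` lie in the relative bicentralizer -/
def SliceIn {H : Type} [NormedAddCommGroup H] [InnerProductSpace ℂ H] [CompleteSpace H]
    (N M : VonNeumannAlgebra H) (ξ : H) (X : LR H →L[ℂ] LR H) : Prop :=
  ∀ (f g : ℝ → ℂ) (Tf Tg : H →L[ℂ] LR H), MemLp f 2 (volume : Measure ℝ) →
    MemLp g 2 (volume : Measure ℝ) → IsTen f Tf → IsTen g Tg →
    ContinuousLinearMap.adjoint Tf ∘L X ∘L Tg ∈ relBicentralizer N M ξ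

/-! ### The tasks of stage 8 -/

/-- X1: the von Neumann algebras of the model -/
def S_dvn : Prop := ∀ (H : Type) [NormedAddCommGroup H] [InnerProductSpace ℂ H] [CompleteSpace H]
  (N M : VonNeumannAlgebra H) (ξ : H) (U : ℝ → H →L[ℂ] H) (J : H → H)
  (E : (H →L[ℂ] H) → (H →L[ℂ] H)), Inc N M ξ U J E →
  ∃ P₀ M₀ : VonNeumannAlgebra (LR H), IsModel N M U P₀ M₀

/-- X2: averages over a one-parameter group -/
def S_dmk : Prop := ∀ (K : Type) [NormedAddCommGroup K] [InnerProductSpace ℂ K] [CompleteSpace K]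
  (P M : VonNeumannAlgebra K), (∀ a : K →L[ℂ] K, a ∈ P → a ∈ M) → ∀ u : ℝ → K →L[ℂ] K, IsGrp u →
  ∀ Y : K →L[ℂ] K, Y ∈ M → (∀ κ : ℝ, 0 ≤ κ → star (u κ) * Y * u κ ∈ KN P Y) →
  ∃ Z : K →L[ℂ] K, Z ∈ KN P Y ∧ (∀ κ : ℝ, Z * u κ = u κ * Z) ∧
    ∀ T : K →L[ℂ] K, (∀ κ : ℝ, 0 ≤ κ → T * (star (u κ) * Y * u κ) = star (u κ) * Y * u κ * T) →
      T * Z = Z * T

/-- X3: Cantor–Bernstein for projections: `p ≲ r` and `r ≲ p` imply `p ~ r` -/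
def S_dcb : Prop := ∀ (K : Type) [NormedAddCommGroup K] [InnerProductSpace ℂ K] [CompleteSpace K]
  (P : VonNeumannAlgebra K) (p r a b : K →L[ℂ] K), Prj p → Prj r → p ∈ P → r ∈ P → a ∈ P → b ∈ P →
  star a * a = p → r * a = a → star b * b = r → p * b = b →
  ∃ y : K →L[ℂ] K, y ∈ P ∧ star y * y = p ∧ y * star y = r

/-- X4: conjugates under isometries of a factor -/
def S_diso : Prop := ∀ (K : Type) [NormedAddCommGroup K] [InnerProductSpace ℂ K] [CompleteSpace K]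
  [TopologicalSpace.SeparableSpace K] (P : VonNeumannAlgebra K), Factor P →
  ∀ w : K →L[ℂ] K, w ∈ P → star w * w = 1 → ∀ Y : K →L[ℂ] K, star w * Y * w ∈ KN P Y

/-- X5: minimal elements -/
def S_dmin : Prop := ∀ (K : Type) [NormedAddCommGroup K] [InnerProductSpace ℂ K] [CompleteSpace K]
  (P M : VonNeumannAlgebra K), (∀ a : K →L[ℂ] K, a ∈ P → a ∈ M) →
  ∀ (𝒰 : ℝ → Set (K →L[ℂ] K)) (Ω : ℕ → K),
  (∀ δ : ℝ, 0 < δ → (1 : K →L[ℂ] K) ∈ 𝒰 δ) →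
  (∀ δ δ' : ℝ, 0 < δ → δ ≤ δ' → 𝒰 δ ⊆ 𝒰 δ') →
  (∀ δ : ℝ, 0 < δ → ∀ w ∈ 𝒰 δ, w ∈ P ∧ star w * w = 1 ∧ w * star w = 1) →
  (∀ δ δ' : ℝ, 0 < δ → 0 < δ' → ∀ w ∈ 𝒰 δ, ∀ w' ∈ 𝒰 δ', w * w' ∈ 𝒰 (δ + δ')) →
  (∀ j, ‖Ω j‖ ≤ 1) → (∀ Y : K →L[ℂ] K, Y ∈ M → (∀ j, Y (Ω j) = 0) → Y = 0) →
  (∀ Y : K →L[ℂ] K, Y ∈ M → ∀ (j : ℕ) (ε : ℝ), 0 < ε → ∃ δ : ℝ, 0 < δ ∧ ∀ w ∈ 𝒰 δ,
    ‖Y (star w (Ω j))‖ ≤ ‖Y (Ω j)‖ + ε) →
  ∀ X : K →L[ℂ] K, X ∈ M → ∃ Y : K →L[ℂ] K, Y ∈ KN P X ∧ ∀ (j : ℕ) (ε : ℝ), 0 < ε →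
    ∃ δ : ℝ, 0 < δ ∧ ∀ w ∈ 𝒰 δ, ‖w (Y (star w (Ω j))) - Y (Ω j)‖ ≤ ε

/-- X6: `π_σ(u)` and `u ⊗ 1` agree asymptotically if `u` commutes asymptotically with `φ` -/
def S_dpa : Prop := ∀ (H : Type) [NormedAddCommGroup H] [InnerProductSpace ℂ H] [CompleteSpace H]
  (N M : VonNeumannAlgebra H) (ξ : H) (U : ℝ → H →L[ℂ] H) (J : H → H)
  (E : (H →L[ℂ] H) → (H →L[ℂ] H)), Inc N M ξ U J E → ∀ (Φ : LR H) (ε : ℝ), 0 < ε →
  ∃ δ : ℝ, 0 < δ ∧ ∀ u : H →L[ℂ] H, IsUni N u → ‖alf J u ξ - ξ‖ ≤ δ →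
    ∀ R S : LR H →L[ℂ] LR H, IsSig U u R → IsConst u S → ‖R Φ - S Φ‖ ≤ ε

/-- X7: an element of `KN P₀ X` with slices in the relative bicentralizer -/
def S_daav : Prop := ∀ (H : Type) [NormedAddCommGroup H] [InnerProductSpace ℂ H] [CompleteSpace H]
  (N M : VonNeumannAlgebra H) (ξ : H) (U : ℝ → H →L[ℂ] H) (J : H → H)
  (E : (H →L[ℂ] H) → (H →L[ℂ] H)), Inc N M ξ U J E → ∀ P₀ M₀ : VonNeumannAlgebra (LR H),
  IsModel N M U P₀ M₀ → ∀ X : LR H →L[ℂ] LR H, X ∈ M₀ →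
  ∃ Y : LR H →L[ℂ] LR H, Y ∈ KN P₀ X ∧ SliceIn N M ξ Y

/-- X8: conjugation by the characters: `Y` commutes with `B(H) ⊗ 1` -/
def S_dscl : Prop := ∀ (H : Type) [NormedAddCommGroup H] [InnerProductSpace ℂ H] [CompleteSpace H]
  [TopologicalSpace.SeparableSpace H]
  (N M : VonNeumannAlgebra H) (ξ : H) (U : ℝ → H →L[ℂ] H) (J : H → H)
  (E : (H →L[ℂ] H) → (H →L[ℂ] H)), Inc2 N M ξ U J E → ∀ P₀ M₀ : VonNeumannAlgebra (LR H),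
  IsModel N M U P₀ M₀ → Factor P₀ → ∀ Y : LR H →L[ℂ] LR H, Y ∈ M₀ →
  (∀ (x : H →L[ℂ] H) (S : LR H →L[ℂ] LR H), IsConst x S → S * Y = Y * S) →
  ∀ lam : ℝ, 0 < lam → lam < 1 → ∀ S : LR H →L[ℂ] LR H, IsULam lam S →
    star S * Y * S ∈ KN P₀ Y

/-- X9: irreducibility of `B(H) ⊗ 1`, the translations and the characters -/
def S_dirr : Prop := ∀ (H : Type) [NormedAddCommGroup H] [InnerProductSpace ℂ H] [CompleteSpace H]
  (X : LR H →L[ℂ] LR H),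
  (∀ (x : H →L[ℂ] H) (S : LR H →L[ℂ] LR H), IsConst x S → S * X = X * S) →
  (∀ (t : ℝ) (S : LR H →L[ℂ] LR H), IsShift t S → S * X = X * S) →
  (∀ lam : ℝ, 0 < lam → ∀ S : LR H →L[ℂ] LR H, IsULam lam S → S * X = X * S) →
  ∃ c : ℂ, X = c • (1 : LR H →L[ℂ] LR H)

/-- X10: the weak relative Dixmier property in the model -/
def S_dxm : Prop := ∀ (H : Type) [NormedAddCommGroup H] [InnerProductSpace ℂ H] [CompleteSpace H]
  [TopologicalSpace.SeparableSpace H]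
  (N M : VonNeumannAlgebra H) (ξ : H) (U : ℝ → H →L[ℂ] H) (J : H → H)
  (E : (H →L[ℂ] H) → (H →L[ℂ] H)), Inc2 N M ξ U J E → ∀ P₀ M₀ : VonNeumannAlgebra (LR H),
  IsModel N M U P₀ M₀ → Factor P₀ →
  (∀ b : H →L[ℂ] H, b ∈ relBicentralizer N M ξ → ∃ c : ℂ, b = c • (1 : H →L[ℂ] H)) →
  ∀ X : LR H →L[ℂ] LR H, X ∈ M₀ → ∃ c : ℂ, c • (1 : LR H →L[ℂ] LR H) ∈ KN P₀ X

/-- X11: transport to a dominant weight of `N` -/
def S_dxh : Prop := ∀ (H : Type) [NormedAddCommGroup H] [InnerProductSpace ℂ H] [CompleteSpace H]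
  [TopologicalSpace.SeparableSpace H]
  (N M : VonNeumannAlgebra H) (ξ : H) (U : ℝ → H →L[ℂ] H) (J : H → H)
  (E : (H →L[ℂ] H) → (H →L[ℂ] H)) (v : ℝ → H →L[ℂ] H), Inc N M ξ U J E → IsTypeIII1 N →
  IsDominant N U v → (∀ x : H →L[ℂ] H, x ∈ M → (∀ y ∈ wCen N U v, x * y = y * x) →
    ∃ c : ℂ, x = c • (1 : H →L[ℂ] H)) →
  ∃ P : VonNeumannAlgebra H, (∀ x : H →L[ℂ] H, x ∈ P ↔ x ∈ wCen N U v) ∧
    ∀ x : H →L[ℂ] H, x ∈ M → ∃ c : ℂ, c • (1 : H →L[ℂ] H) ∈ KN P x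

end

end Pool.Agent.H255.BC
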