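import Pool.Agent.H255.BC.Defs8
import Pool.Agent.H255.BC.Defs3

/-!
The weak relative Dixmier property for the centralizer of a dominant weight, without
irreducibility: interfaces (helper255).
-/

set_option autoImplicit false

open MeasureTheory Filter Topology Complex
open scoped InnerProductSpace ENNReal

namespace Pool.Agent.H255.BC

open Pool.Agent.W662.CB Pool.Agent.W988.WD

noncomputable section

/-- the slices of `Z` are equivariant -/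
def SlEqv {H : Type} [NormedAddCommGroup H] [InnerProductSpace ℂ H] [CompleteSpace H]
    (β : ℝ → (H →L[ℂ] H) → (H →L[ℂ] H)) (Z : LR H →L[ℂ] LR H) : Prop :=
  ∀ (f g : ℝ → ℂ) (Tf Tg : H →L[ℂ] LR H), MemLp f 2 (volume : Measure ℝ) →
    MemLp g 2 (volume : Measure ℝ) → IsTen f Tf → IsTen g Tg →
    ∀ lam : ℝ, 0 < lam → ∀ S : LR H →L[ℂ] LR H, IsULam lam S →
    β lam (ContinuousLinearMap.adjoint Tf ∘L Z ∘L Tg) =
      ContinuousLinearMap.adjoint Tf ∘L (S * Z * star S) ∘L Tg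

/-- the slices of `Z` are equivariant under `β_lam` -/
def SlEqvAt {H : Type} [NormedAddCommGroup H] [InnerProductSpace ℂ H] [CompleteSpace H]
    (β : ℝ → (H →L[ℂ] H) → (H →L[ℂ] H)) (lam : ℝ) (Z : LR H →L[ℂ] LR H) : Prop :=
  ∀ (f g : ℝ → ℂ) (Tf Tg : H →L[ℂ] LR H), MemLp f 2 (volume : Measure ℝ) →
    MemLp g 2 (volume : Measure ℝ) → IsTen f Tf → IsTen g Tg →
    ∀ S : LR H →L[ℂ] LR H, IsULam lam S →
    β lam (ContinuousLinearMap.adjoint Tf ∘L Z ∘L Tg) =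
      ContinuousLinearMap.adjoint Tf ∘L (S * Z * star S) ∘L Tg

/-- `Z` commutes with the translations -/
def ShCom {H : Type} [NormedAddCommGroup H] [InnerProductSpace ℂ H] [CompleteSpace H]
    (Z : LR H →L[ℂ] LR H) : Prop :=
  ∀ (t : ℝ) (S : LR H →L[ℂ] LR H), IsShift t S → Z * S = S * Z

/-- `D` is the image of `Y` under `Ad(u_lam^*) ∘ (β_lam ⊗ 1)` -/
def SlAct {H : Type} [NormedAddCommGroup H] [InnerProductSpace ℂ H] [CompleteSpace H]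
    (β : ℝ → (H →L[ℂ] H) → (H →L[ℂ] H)) (lam : ℝ) (Y D : LR H →L[ℂ] LR H) : Prop :=
  ∀ S : LR H →L[ℂ] LR H, IsULam lam S → ∀ (f g : ℝ → ℂ) (Tf Tg : H →L[ℂ] LR H),
    MemLp f 2 (volume : Measure ℝ) → MemLp g 2 (volume : Measure ℝ) → IsTen f Tf → IsTen g Tg →
    ContinuousLinearMap.adjoint Tf ∘L D ∘L Tg =
      β lam (ContinuousLinearMap.adjoint Tf ∘L (star S * Y * S) ∘L Tg)

/-- E1: `β_t` and the isometries of scale `t` -/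
def S_eblv : Prop := ∀ (H : Type) [NormedAddCommGroup H] [InnerProductSpace ℂ H] [CompleteSpace H]
  (N M : VonNeumannAlgebra H) (ξ : H) (U : ℝ → H →L[ℂ] H) (J : H → H)
  (E : (H →L[ℂ] H) → (H →L[ℂ] H)) (β : ℝ → (H →L[ℂ] H) → (H →L[ℂ] H)), Inc N M ξ U J E →
  IsBicFlow N M ξ β → ∀ (t : ℝ) (v : ℕ → H →L[ℂ] H), 0 < t → t < 1 →
  (∀ k : ℕ, IsScal N ξ J t (1 / ((k : ℝ) + 1)) (v k)) → ∀ x ∈ relBicentralizer N M ξ, ∀ u : H,
  Tendsto (fun k => star (v k) (x (v k u))) atTop (𝓝 (β t x u))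

/-- E2: the centralizer of the dominant weight is a factor -/
def S_efac : Prop := ∀ (H : Type) [NormedAddCommGroup H] [InnerProductSpace ℂ H] [CompleteSpace H]
  (N M : VonNeumannAlgebra H) (ξ : H) (U : ℝ → H →L[ℂ] H) (J : H → H)
  (E : (H →L[ℂ] H) → (H →L[ℂ] H)) (β : ℝ → (H →L[ℂ] H) → (H →L[ℂ] H)), Inc2 N M ξ U J E →
  IsBicFlow N M ξ β → ∀ P₀ M₀ : VonNeumannAlgebra (LR H), IsModel N M U P₀ M₀ → Factor P₀

/-- E3: the isometries of scale `lam` act on the elements of `B ⊗ B(L²(ℝ))` -/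
def S_eact : Prop := ∀ (H : Type) [NormedAddCommGroup H] [InnerProductSpace ℂ H] [CompleteSpace H]
  [TopologicalSpace.SeparableSpace H]
  (N M : VonNeumannAlgebra H) (ξ : H) (U : ℝ → H →L[ℂ] H) (J : H → H)
  (E : (H →L[ℂ] H) → (H →L[ℂ] H)) (β : ℝ → (H →L[ℂ] H) → (H →L[ℂ] H)), Inc2 N M ξ U J E →
  IsBicFlow N M ξ β → ∀ P₀ M₀ : VonNeumannAlgebra (LR H),
  IsModel N M U P₀ M₀ → Factor P₀ → ∀ Y : LR H →L[ℂ] LR H, Y ∈ M₀ → SliceIn N M ξ Y → ShCom Y →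
  ∀ lam : ℝ, 0 < lam → lam < 1 → ∃ D : LR H →L[ℂ] LR H, D ∈ KN P₀ Y ∧ ShCom D ∧ SlAct β lam Y D

/-- E4: averaging over the action, dyadic part -/
def S_eavg : Prop := ∀ (H : Type) [NormedAddCommGroup H] [InnerProductSpace ℂ H] [CompleteSpace H]
  (N M : VonNeumannAlgebra H) (ξ : H) (U : ℝ → H →L[ℂ] H) (J : H → H)
  (E : (H →L[ℂ] H) → (H →L[ℂ] H)) (β : ℝ → (H →L[ℂ] H) → (H →L[ℂ] H)), Inc2 N M ξ U J E →
  IsBicFlow N M ξ β → ∀ P₀ M₀ : VonNeumannAlgebra (LR H),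
  IsModel N M U P₀ M₀ → ∀ Y : LR H →L[ℂ] LR H, Y ∈ M₀ → SliceIn N M ξ Y →
  (∀ lam : ℝ, 0 < lam → lam < 1 → ∃ D : LR H →L[ℂ] LR H, D ∈ KN P₀ Y ∧ ShCom D ∧
    SlAct β lam Y D) →
  ∃ Z : LR H →L[ℂ] LR H, Z ∈ KN P₀ Y ∧ SliceIn N M ξ Z ∧ ShCom Z ∧
    ∀ m j : ℕ, SlEqvAt β (Real.exp (-((m : ℝ) / 2 ^ j))) Z

/-- E4b: from dyadic parameters to all `lam > 0` -/
def S_edya : Prop := ∀ (H : Type) [NormedAddCommGroup H] [InnerProductSpace ℂ H] [CompleteSpace H]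
  (N M : VonNeumannAlgebra H) (ξ : H) (U : ℝ → H →L[ℂ] H) (J : H → H)
  (E : (H →L[ℂ] H) → (H →L[ℂ] H)) (β : ℝ → (H →L[ℂ] H) → (H →L[ℂ] H)), Inc2 N M ξ U J E →
  IsBicFlow N M ξ β → ∀ Z : LR H →L[ℂ] LR H, SliceIn N M ξ Z →
  (∀ m j : ℕ, SlEqvAt β (Real.exp (-((m : ℝ) / 2 ^ j))) Z) → SlEqv β Z

/-- E5: surjectivity of `π` -/
def S_esurj : Prop := ∀ (H : Type) [NormedAddCommGroup H] [InnerProductSpace ℂ H] [CompleteSpace H]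
  (N M : VonNeumannAlgebra H) (ξ : H) (U : ℝ → H →L[ℂ] H) (J : H → H)
  (E : (H →L[ℂ] H) → (H →L[ℂ] H)) (β : ℝ → (H →L[ℂ] H) → (H →L[ℂ] H)) (W : LR H ≃ₗᵢ[ℂ] LR H),
  Inc2 N M ξ U J E → IsBicFlow N M ξ β → IsFou W → ∀ Y : LR H →L[ℂ] LR H, Y ∈ Amp M →
  SliceIn N M ξ Y → ShCom Y → SlEqv β Y → ∃ c ∈ relBicentralizer N M ξ, IsPi W β c Y

/-- E6: averaging over the translations -/
def S_eshf : Prop := ∀ (H : Type) [NormedAddCommGroup H] [InnerProductSpace ℂ H] [CompleteSpace H]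
  (N M : VonNeumannAlgebra H) (ξ : H) (U : ℝ → H →L[ℂ] H) (J : H → H)
  (E : (H →L[ℂ] H) → (H →L[ℂ] H)), Inc N M ξ U J E → ∀ P₀ M₀ : VonNeumannAlgebra (LR H),
  IsModel N M U P₀ M₀ → ∀ Y : LR H →L[ℂ] LR H, Y ∈ M₀ → SliceIn N M ξ Y →
  ∃ Z : LR H →L[ℂ] LR H, Z ∈ KN P₀ Y ∧ SliceIn N M ξ Z ∧ ShCom Z

/-- E7: the weak relative Dixmier property in the model -/
def S_emod : Prop := ∀ (H : Type) [NormedAddCommGroup H] [InnerProductSpace ℂ H] [CompleteSpace H]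
  [TopologicalSpace.SeparableSpace H]
  (N M : VonNeumannAlgebra H) (ξ : H) (U : ℝ → H →L[ℂ] H) (J : H → H)
  (E : (H →L[ℂ] H) → (H →L[ℂ] H)) (β : ℝ → (H →L[ℂ] H) → (H →L[ℂ] H)), Inc2 N M ξ U J E →
  IsBicFlow N M ξ β → ∀ P₀ M₀ : VonNeumannAlgebra (LR H),
  IsModel N M U P₀ M₀ → ∀ X : LR H →L[ℂ] LR H, X ∈ M₀ →
  ∃ Z : LR H →L[ℂ] LR H, Z ∈ KN P₀ X ∧ ∀ A : LR H →L[ℂ] LR H, A ∈ P₀ → A * Z = Z * A

/-- E8: transport to a dominant weight of `N` -/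
def S_etrp : Prop := ∀ (H : Type) [NormedAddCommGroup H] [InnerProductSpace ℂ H] [CompleteSpace H]
  [TopologicalSpace.SeparableSpace H]
  (N M : VonNeumannAlgebra H) (ξ : H) (U : ℝ → H →L[ℂ] H) (J : H → H)
  (E : (H →L[ℂ] H) → (H →L[ℂ] H)) (v : ℝ → H →L[ℂ] H), Inc N M ξ U J E → IsTypeIII1 N →
  IsDominant N U v → ∃ P : VonNeumannAlgebra H, (∀ x : H →L[ℂ] H, x ∈ P ↔ x ∈ wCen N U v) ∧
    ∀ x : H →L[ℂ] H, x ∈ M → ∃ y : H →L[ℂ] H, y ∈ KN P x ∧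
      ∀ z : H →L[ℂ] H, z ∈ P → z * y = y * z

end

end Pool.Agent.H255.BC
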