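import Pool.Agent.H255.BC.Defs2

/-!
The relative bicentralizer flow and the relative flow of weights: the final statement (helper255).
-/

set_option autoImplicit false

open MeasureTheory
open scoped InnerProductSpace

namespace Pool.Agent.H255.BC

open Pool.Agent.W662.CB

variable {H : Type} [NormedAddCommGroup H] [InnerProductSpace ℂ H] [CompleteSpace H]

/-- The inclusion `N ⊂ M` of von Neumann algebras on `H` with the cyclic and separating unit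
vector `ξ` of `M` (`φ = ω_ξ`), its modular unitaries `U_t = Δ^{it}` and the conditional
expectation `E : M → N`, `φ ∘ E = φ`. -/
structure IsInclusion (N M : VonNeumannAlgebra H) (ξ : H) (U : ℝ → H →L[ℂ] H)
    (E : (H →L[ℂ] H) → (H →L[ℂ] H)) : Prop where
  le : ∀ x : H →L[ℂ] H, x ∈ N → x ∈ M
  unit : ‖ξ‖ = 1
  cyc : IsCyclic M ξ
  sep : IsSeparating M ξ
  modular : IsModular M ξ U
  exp : IsCondExp M N E
  inv : ∀ x : H →L[ℂ] H, x ∈ M → vst ξ (E x) = vst ξ x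

/-- The relative bicentralizer flow exists and is unique. -/
def UniqueFlow (N M : VonNeumannAlgebra H) (ξ : H) : Prop :=
  (∃ β : ℝ → (H →L[ℂ] H) → (H →L[ℂ] H), IsBicFlow N M ξ β) ∧
    ∀ β β' : ℝ → (H →L[ℂ] H) → (H →L[ℂ] H), IsBicFlow N M ξ β → IsBicFlow N M ξ β' →
      ∀ lam : ℝ, 0 < lam → ∀ x ∈ relBicentralizer N M ξ, β lam x = β' lam x

/-- `(E ⊗ id)(Y) = c 1`: every slice `y = (f ⊗ 1)^* Y (g ⊗ 1)` has `E y = c ⟨f, g⟩ 1`. -/
def ExpEq (E : (H →L[ℂ] H) → (H →L[ℂ] H)) (Y : LR H →L[ℂ] LR H) (c : ℂ) : Prop :=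
  ∀ (f g : ℝ → ℂ) (Tf Tg : H →L[ℂ] LR H), MemLp f 2 (volume : Measure ℝ) →
    MemLp g 2 (volume : Measure ℝ) → IsTen f Tf → IsTen g Tg →
    E (ContinuousLinearMap.adjoint Tf ∘L Y ∘L Tg) =
      (c * ∫ s : ℝ, starRingEnd ℂ (f s) * g s) • (1 : H →L[ℂ] H)

/-- `π` is a `*`-isomorphism of `B = B(N ⊂ M, φ)` onto `C = (N_ψ)' ∩ M` (in the stabilised model)
with `π ∘ β_lam = Ad u_lam ∘ π` and `E(π(x)) = φ(E(x)) 1`. -/
structure IsFlowIso (N M : VonNeumannAlgebra H) (ξ : H) (U : ℝ → H →L[ℂ] H)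
    (E : (H →L[ℂ] H) → (H →L[ℂ] H)) (β : ℝ → (H →L[ℂ] H) → (H →L[ℂ] H))
    (B : VonNeumannAlgebra H) (C : VonNeumannAlgebra (LR H))
    (π : B.toStarSubalgebra ≃⋆ₐ[ℂ] C.toStarSubalgebra) : Prop where
  memB : ∀ x : H →L[ℂ] H, x ∈ B ↔ x ∈ relBicentralizer N M ξ
  memC : ∀ Y : LR H →L[ℂ] LR H, Y ∈ C ↔ Y ∈ RC N M U
  flow : ∀ lam : ℝ, 0 < lam → ∀ x y : B.toStarSubalgebra, (y : H →L[ℂ] H) = β lam x →
    ∀ S : LR H →L[ℂ] LR H, IsULam lam S →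
      (π y : LR H →L[ℂ] LR H) = S * (π x : LR H →L[ℂ] LR H) * star S
  exp : ∀ x : B.toStarSubalgebra, ExpEq E (π x : LR H →L[ℂ] LR H) (vst ξ (E x))

end Pool.Agent.H255.BC
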