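import Pool.Agent.H255.BC.Defs

set_option autoImplicit false
set_option linter.deprecated false
set_option linter.unusedSectionVars false

open MeasureTheory Filter Topology Complex
open scoped InnerProductSpace ENNReal FourierTransform

namespace Pool.Agent.H255.BC.T_cay

open Pool.Agent.W662.CB Pool.Agent.H255.BC

noncomputable section

variable {H : Type} [NormedAddCommGroup H] [InnerProductSpace ℂ H] [CompleteSpace H]

/-- right multiplication -/
def R (J : H → H) (a : H →L[ℂ] H) (v : H) : H := J (star a (J v))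

structure JJ (J : H → H) : Prop where
  add : ∀ v w : H, J (v + w) = J v + J w
  smul : ∀ (c : ℂ) (v : H), J (c • v) = (starRingEnd ℂ c) • J v
  inv : ∀ v : H, J (J v) = v
  inner : ∀ v w : H, ⟪J v, J w⟫_ℂ = ⟪w, v⟫_ℂ

variable {J : H → H}

lemma J_norm (hJ : JJ J) (v : H) : ‖J v‖ = ‖v‖ := by
  have h1 : ‖J v‖ ^ 2 = ‖v‖ ^ 2 := by
    have h := hJ.inner v v
    rw [inner_self_eq_norm_sq_to_K, inner_self_eq_norm_sq_to_K] at h
    exact_mod_cast h
  exact (pow_left_inj₀ (norm_nonneg _) (norm_nonneg _) two_ne_zero).1 h1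

lemma J_neg (hJ : JJ J) (v : H) : J (-v) = -J v := by
  have := hJ.smul (-1) v
  simpa using this

lemma J_sub (hJ : JJ J) (v w : H) : J (v - w) = J v - J w := by
  rw [sub_eq_add_neg, hJ.add, J_neg hJ, sub_eq_add_neg]

lemma R_add (hJ : JJ J) (a : H →L[ℂ] H) (v w : H) : R J a (v + w) = R J a v + R J a w := by
  simp only [R, hJ.add, map_add]

lemma R_sub (hJ : JJ J) (a : H →L[ℂ] H) (v w : H) : R J a (v - w) = R J a v - R J a w := by
  simp only [R, J_sub hJ, map_sub]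

lemma R_smul (hJ : JJ J) (a : H →L[ℂ] H) (c : ℂ) (v : H) : R J a (c • v) = c • R J a v := by
  simp only [R, hJ.smul, map_smul, starRingEnd_self_apply]

lemma R_mul (hJ : JJ J) (a b : H →L[ℂ] H) (v : H) : R J (a * b) v = R J b (R J a v) := by
  simp only [R, star_mul, ContinuousLinearMap.mul_apply, hJ.inv]

lemma R_one (hJ : JJ J) (v : H) : R J 1 v = v := by
  simp only [R, star_one, ContinuousLinearMap.one_apply, hJ.inv]

lemma R_adda (hJ : JJ J) (a b : H →L[ℂ] H) (v : H) : R J (a + b) v = R J a v + R J b v := by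
  simp only [R, star_add, ContinuousLinearMap.add_apply, hJ.add]

lemma R_suba (hJ : JJ J) (a b : H →L[ℂ] H) (v : H) : R J (a - b) v = R J a v - R J b v := by
  simp only [R, star_sub, ContinuousLinearMap.sub_apply, J_sub hJ]

lemma R_smula (hJ : JJ J) (a : H →L[ℂ] H) (c : ℂ) (v : H) : R J (c • a) v = c • R J a v := by
  simp only [R, star_smul, ContinuousLinearMap.smul_apply, hJ.smul]
  congr 1
  simp

lemma R_norm (hJ : JJ J) (a : H →L[ℂ] H) (c : ℝ) (h : ∀ v, ‖star a v‖ ≤ c * ‖v‖) (v : H) :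
    ‖R J a v‖ ≤ c * ‖v‖ := by
  rw [R, J_norm hJ]
  have := h (J v)
  rwa [J_norm hJ] at this

lemma cm_eq (z : H →L[ℂ] H) (v : H) : cm J z v = z v - R J z v := rfl

/-- `‖(1 + c h) v‖² = ‖v‖² + ‖h v‖²` for `c = ± i` -/
lemma norm_one_add (h : H →L[ℂ] H) (hh : star h = h) (c : ℂ) (hc : c.re = 0) (hc1 : ‖c‖ = 1)
    (v : H) : ‖v + c • h v‖ ^ 2 = ‖v‖ ^ 2 + ‖h v‖ ^ 2 := by
  have h1 := norm_add_sq (𝕜 := ℂ) v (c • h v)
  rw [h1, norm_smul, hc1, one_mul]
  have h2 : (⟪v, h v⟫_ℂ).im = 0 := by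
    have e : ⟪v, h v⟫_ℂ = starRingEnd ℂ ⟪v, h v⟫_ℂ := by
      rw [inner_conj_symm]
      have : ⟪h v, v⟫_ℂ = ⟪v, (ContinuousLinearMap.adjoint h) v⟫_ℂ := by
        rw [ContinuousLinearMap.adjoint_inner_right]
      rw [this]
      have hs : ContinuousLinearMap.adjoint h = h := hh
      rw [hs]
    have := congrArg Complex.im e
    rw [Complex.conj_im] at this
    linarith
  have h3 : RCLike.re ⟪v, c • h v⟫_ℂ = 0 := by
    rw [inner_smul_right]
    show (c * ⟪v, h v⟫_ℂ).re = 0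
    rw [Complex.mul_re, hc, h2]
    ring
  rw [h3]
  ring

lemma vsmul (N : VonNeumannAlgebra H) (c : ℂ) (x : H →L[ℂ] H) (hx : x ∈ N) : c • x ∈ N :=
  N.toStarSubalgebra.smul_mem hx c

lemma mem_of_inv (N : VonNeumannAlgebra H) (a g : H →L[ℂ] H) (ha : a ∈ N) (h1 : a * g = 1)
    (h2 : g * a = 1) : g ∈ N := by
  have hN : g ∈ N.commutant.commutant := by
    rw [VonNeumannAlgebra.mem_commutant_iff]
    intro m hm
    rw [VonNeumannAlgebra.mem_commutant_iff] at hm
    have h3 := hm a ha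
    calc m * g = (g * a) * (m * g) := by rw [h2, one_mul]
      _ = g * (a * m) * g := by simp only [mul_assoc]
      _ = g * (m * a) * g := by rw [h3]
      _ = g * m * (a * g) := by simp only [mul_assoc]
      _ = g * m := by rw [h1, mul_one]
  rwa [VonNeumannAlgebra.commutant_commutant] at hN

lemma one_step (M N : VonNeumannAlgebra H) (hNM : ∀ x : H →L[ℂ] H, x ∈ N → x ∈ M)
    (hJ : JJ J) (hcomm : ∀ x y : H →L[ℂ] H, x ∈ M → y ∈ M → ∀ v : H,
      x (J (y (J v))) = J (y (J (x v))))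
    (h : H →L[ℂ] H) (hN : h ∈ N) (hh : star h = h) (hn : ‖h‖ ≤ 1) :
    ∃ u : H →L[ℂ] H, IsUni N u ∧ (∀ v, ‖alf J u v - v‖ ≤ 2 * ‖cm J h v‖) ∧
      ∀ v, ‖cm J h v‖ ≤ ‖alf J u v - v‖ := by
  -- commutation of left and right
  have hR : ∀ x y : H →L[ℂ] H, x ∈ N → y ∈ N → ∀ v, x (R J y v) = R J y (x v) := by
    intro x y hx hy v
    exact hcomm x (star y) (hNM x hx) (hNM _ (star_mem hy)) v
  set A : H →L[ℂ] H := 1 - (I : ℂ) • h with hA
  set B : H →L[ℂ] H := 1 + (I : ℂ) • h with hB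
  have hAs : star A = B := by
    rw [hA, hB, star_sub, star_one, star_smul, hh]
    have : star (I : ℂ) = -I := by simp
    rw [this]
    simp [sub_eq_add_neg]
  have hBs : star B = A := by rw [← hAs, star_star]
  have hAN : A ∈ N := by
    rw [hA]
    exact sub_mem (one_mem _) (vsmul N _ _ hN)
  have hBN : B ∈ N := by rw [← hAs]; exact star_mem hAN
  have hAB : A + B = (2 : ℂ) • (1 : H →L[ℂ] H) := by
    rw [hA, hB, two_smul]
    abel
  -- invertibility
  have hsa : IsSelfAdjoint h := hh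
  have hunit : IsUnit A := by
    have h1 : (-I : ℂ) ∉ spectrum ℂ h := by
      intro hc
      have := hsa.mem_spectrum_eq_re hc
      have h2 := congrArg Complex.im this
      simp at h2
    rw [spectrum.notMem_iff] at h1
    have h3 : algebraMap ℂ (H →L[ℂ] H) (-I) - h = (-I : ℂ) • A := by
      rw [hA, Algebra.algebraMap_eq_smul_one, smul_sub, smul_smul]
      simp
    rw [h3] at h1
    have h4 : IsUnit ((I : ℂ) • ((-I : ℂ) • A)) := by
      have h5 : IsUnit (algebraMap ℂ (H →L[ℂ] H) I) :=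
        (IsUnit.mk0 I I_ne_zero).map (algebraMap ℂ (H →L[ℂ] H))
      have h6 := h5.mul h1
      rwa [Algebra.algebraMap_eq_smul_one, smul_one_mul] at h6
    rw [smul_smul] at h4
    simpa using h4
  obtain ⟨U0, hU0⟩ := hunit
  set g : H →L[ℂ] H := ((U0⁻¹ : (H →L[ℂ] H)ˣ) : H →L[ℂ] H) with hg
  have hAg : A * g = 1 := by rw [← hU0, hg]; exact U0.mul_inv
  have hgA : g * A = 1 := by rw [← hU0, hg]; exact U0.inv_mul
  have hgN : g ∈ N := mem_of_inv N A g hAN hAg hgA
  have hsB : star g * B = 1 := by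
    rw [← hAs, ← star_mul, hAg, star_one]
  have hBs' : B * star g = 1 := by
    rw [← hAs, ← star_mul, hgA, star_one]
  -- bounds
  have nA : ∀ v, ‖A v‖ ^ 2 = ‖v‖ ^ 2 + ‖h v‖ ^ 2 := by
    intro v
    have := norm_one_add h hh (-I) (by simp) (by simp) v
    rw [← this, hA]
    simp [sub_eq_add_neg]
  have nB : ∀ v, ‖B v‖ ^ 2 = ‖v‖ ^ 2 + ‖h v‖ ^ 2 := by
    intro v
    have := norm_one_add h hh I (by simp) (by simp) v
    rw [← this, hB]
    simp
  have hhv : ∀ v, ‖h v‖ ≤ ‖v‖ := by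
    intro v
    calc ‖h v‖ ≤ ‖h‖ * ‖v‖ := h.le_opNorm v
      _ ≤ 1 * ‖v‖ := by gcongr
      _ = ‖v‖ := one_mul _
  have bA : ∀ v, ‖A v‖ ≤ Real.sqrt 2 * ‖v‖ := by
    intro v
    have h1 : ‖A v‖ ^ 2 ≤ (Real.sqrt 2 * ‖v‖) ^ 2 := by
      rw [nA, mul_pow, Real.sq_sqrt (by norm_num)]
      nlinarith [hhv v, norm_nonneg (h v), norm_nonneg v]
    exact le_of_sq_le_sq h1 (by positivity)
  have bB : ∀ v, ‖B v‖ ≤ Real.sqrt 2 * ‖v‖ := by
    intro v
    have h1 : ‖B v‖ ^ 2 ≤ (Real.sqrt 2 * ‖v‖) ^ 2 := by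
      rw [nB, mul_pow, Real.sq_sqrt (by norm_num)]
      nlinarith [hhv v, norm_nonneg (h v), norm_nonneg v]
    exact le_of_sq_le_sq h1 (by positivity)
  have bg : ∀ v, ‖g v‖ ≤ ‖v‖ := by
    intro v
    have h1 : A (g v) = v := by
      rw [← ContinuousLinearMap.mul_apply, hAg, ContinuousLinearMap.one_apply]
    have h2 := nA (g v)
    rw [h1] at h2
    have h3 : ‖g v‖ ^ 2 ≤ ‖v‖ ^ 2 := by nlinarith [sq_nonneg ‖h (g v)‖]
    exact le_of_sq_le_sq h3 (norm_nonneg _)
  have bgs : ∀ v, ‖star g v‖ ≤ 1 * ‖v‖ := by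
    intro v
    have h1 : B (star g v) = v := by
      rw [← ContinuousLinearMap.mul_apply, hBs', ContinuousLinearMap.one_apply]
    have h2 := nB (star g v)
    rw [h1] at h2
    have h3 : ‖star g v‖ ^ 2 ≤ ‖v‖ ^ 2 := by nlinarith [sq_nonneg ‖h (star g v)‖]
    rw [one_mul]
    exact le_of_sq_le_sq h3 (norm_nonneg _)
  -- the unitary
  set u : H →L[ℂ] H := (2 : ℂ) • g - 1 with hu
  have huN : u ∈ N := by
    rw [hu]
    exact sub_mem (vsmul N _ _ hgN) (one_mem _)
  have hus : star u = (2 : ℂ) • star g - 1 := by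
    rw [hu, star_sub, star_one, star_smul]
    simp
  have key1 : star g + g = (2 : ℂ) • (star g * g) := by
    have : star g * (A + B) * g = star g + g := by
      rw [mul_add, add_mul, mul_assoc, hAg, mul_one, hsB, one_mul]
    rw [← this, hAB]
    simp
  have key2 : star g + g = (2 : ℂ) • (g * star g) := by
    have : g * (A + B) * star g = star g + g := by
      rw [mul_add, add_mul, hgA, one_mul, mul_assoc, hBs', mul_one]
    rw [← this, hAB]
    simp
  have hu1 : star u * u = 1 := by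
    rw [hus, hu, sub_mul, mul_sub, one_mul, mul_one, smul_mul_smul_comm]
    have : (2 * 2 : ℂ) • (star g * g) = (2 : ℂ) • (star g + g) := by
      rw [key1, smul_smul]
    rw [this, smul_add]
    abel
  have hu2 : u * star u = 1 := by
    rw [hus, hu, sub_mul, mul_sub, one_mul, mul_one, smul_mul_smul_comm]
    have : (2 * 2 : ℂ) • (g * star g) = (2 : ℂ) • (star g + g) := by
      rw [key2, smul_smul]
    rw [this, smul_add]
    abel
  have huni : ∀ v, ‖star u v‖ = ‖v‖ := by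
    intro v
    have h1 : ‖star u v‖ ^ 2 = ‖v‖ ^ 2 := by
      have e1 : ⟪star u v, star u v⟫_ℂ = ⟪v, v⟫_ℂ := by
        have : star u = ContinuousLinearMap.adjoint u := rfl
        nth_rw 1 [this]
        rw [ContinuousLinearMap.adjoint_inner_left, ← ContinuousLinearMap.mul_apply, hu2,
          ContinuousLinearMap.one_apply]
      rw [inner_self_eq_norm_sq_to_K, inner_self_eq_norm_sq_to_K] at e1
      exact_mod_cast e1
    exact (pow_left_inj₀ (norm_nonneg _) (norm_nonneg _) two_ne_zero).1 h1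
  -- ‖alf u v - v‖ = ‖cm u v‖
  have half : ∀ v, ‖alf J u v - v‖ = ‖cm J u v‖ := by
    intro v
    have e1 : alf J u v = u (R J (star u) v) := by
      rw [alf, R, star_star]
    have e2 : R J u (alf J u v) = u v := by
      rw [e1, ← hR u u huN huN, ← R_mul hJ, hu1, R_one hJ]
    have e3 : ‖R J u (alf J u v - v)‖ = ‖alf J u v - v‖ := by
      rw [R, J_norm hJ, huni, J_norm hJ]
    rw [← e3, R_sub hJ, e2, cm_eq]
  -- formula for cm u
  have hRA : ∀ v, R J A v - A v = (I : ℂ) • cm J h v := by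
    intro v
    rw [hA, R_suba hJ, R_one hJ, R_smula hJ, cm_eq, ContinuousLinearMap.sub_apply,
      ContinuousLinearMap.one_apply, ContinuousLinearMap.smul_apply, smul_sub]
    abel
  have hcu : ∀ v, cm J u v = (2 : ℂ) • (g v - R J g v) := by
    intro v
    rw [cm_eq, hu, R_suba hJ, R_smula hJ, R_one hJ, ContinuousLinearMap.sub_apply,
      ContinuousLinearMap.one_apply, ContinuousLinearMap.smul_apply, smul_sub]
    abel
  have hgv : ∀ v, g v - R J g v = g (R J g (R J A v - A v)) := by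
    intro v
    rw [R_sub hJ, map_sub, ← R_mul hJ, hAg, R_one hJ, hR g g hgN hgN,
      ← ContinuousLinearMap.mul_apply, hgA, ContinuousLinearMap.one_apply]
  have hAv : ∀ v, R J A v - A v = A (R J A (g v - R J g v)) := by
    intro v
    rw [R_sub hJ, map_sub, ← R_mul hJ, hgA, R_one hJ, hR A A hAN hAN,
      ← ContinuousLinearMap.mul_apply, hAg, ContinuousLinearMap.one_apply]
  refine ⟨u, ⟨huN, hu1, hu2⟩, ?_, ?_⟩
  · intro v
    rw [half, hcu, hgv, hRA, norm_smul]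
    have h1 : ‖(2 : ℂ)‖ = 2 := by norm_num
    rw [h1]
    have h2 : ‖g (R J g ((I : ℂ) • cm J h v))‖ ≤ ‖cm J h v‖ := by
      calc ‖g (R J g ((I : ℂ) • cm J h v))‖ ≤ ‖R J g ((I : ℂ) • cm J h v)‖ := bg _
        _ ≤ 1 * ‖(I : ℂ) • cm J h v‖ := R_norm hJ g 1 bgs _
        _ = ‖cm J h v‖ := by rw [norm_smul, Complex.norm_I, one_mul, one_mul]
    linarith
  · intro v
    have h1 : ‖cm J h v‖ = ‖R J A v - A v‖ := by
      rw [hRA, norm_smul, Complex.norm_I, one_mul]
    have h2 : ‖alf J u v - v‖ = 2 * ‖g v - R J g v‖ := by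
      rw [half, hcu, norm_smul]
      norm_num
    rw [h1, h2, hAv]
    have h3 : ‖R J A (g v - R J g v)‖ ≤ Real.sqrt 2 * ‖g v - R J g v‖ :=
      R_norm hJ A _ (by rw [hAs]; exact bB) _
    calc ‖A (R J A (g v - R J g v))‖ ≤ Real.sqrt 2 * ‖R J A (g v - R J g v)‖ := bA _
      _ ≤ Real.sqrt 2 * (Real.sqrt 2 * ‖g v - R J g v‖) := by gcongr
      _ = 2 * ‖g v - R J g v‖ := by
        rw [← mul_assoc, Real.mul_self_sqrt (by norm_num)]

end

theorem cay_thm : S_cay := by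
  intro H _ _ _ M N ξ U J hNM hC z κ hz hκ hzn
  have hJ : JJ J := ⟨hC.add, hC.smul, hC.inv, hC.inner⟩
  set h₁ : H →L[ℂ] H := ((1 / (2 * κ) : ℝ) : ℂ) • (z + star z) with hh1
  set h₂ : H →L[ℂ] H := (((1 / (2 * κ) : ℝ) : ℂ) * (-I)) • (z - star z) with hh2
  have hzs : ‖star z‖ ≤ κ := by rw [norm_star]; exact hzn
  have hsN : star z ∈ N := star_mem hz
  have s1 : star h₁ = h₁ := by
    rw [hh1, star_smul, star_add, star_star, add_comm (star z)]
    congr 1
    simp
  have s2 : star h₂ = h₂ := by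
    rw [hh2, star_smul, star_sub, star_star]
    have : star (((1 / (2 * κ) : ℝ) : ℂ) * (-I)) = -(((1 / (2 * κ) : ℝ) : ℂ) * (-I)) := by
      simp
    rw [this, neg_smul, ← smul_neg, neg_sub]
  have n1 : ‖h₁‖ ≤ 1 := by
    rw [hh1, norm_smul]
    have e1 : ‖((1 / (2 * κ) : ℝ) : ℂ)‖ = 1 / (2 * κ) := by
      rw [Complex.norm_real, Real.norm_of_nonneg (by positivity)]
    rw [e1]
    calc 1 / (2 * κ) * ‖z + star z‖ ≤ 1 / (2 * κ) * (κ + κ) := by
          gcongr
          exact (norm_add_le _ _).trans (add_le_add hzn hzs)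
      _ = 1 := by field_simp; ring
  have n2 : ‖h₂‖ ≤ 1 := by
    rw [hh2, norm_smul]
    have e1 : ‖((1 / (2 * κ) : ℝ) : ℂ) * (-I)‖ = 1 / (2 * κ) := by
      rw [norm_mul, Complex.norm_real, Real.norm_of_nonneg (by positivity)]
      simp
    rw [e1]
    calc 1 / (2 * κ) * ‖z - star z‖ ≤ 1 / (2 * κ) * (κ + κ) := by
          gcongr
          exact (norm_sub_le _ _).trans (add_le_add hzn hzs)
      _ = 1 := by field_simp; ring
  have m1 : h₁ ∈ N := vsmul N _ _ (add_mem hz hsN)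
  have m2 : h₂ ∈ N := vsmul N _ _ (sub_mem hz hsN)
  obtain ⟨u₁, U1, a1, b1⟩ := one_step M N hNM hJ hC.comm h₁ m1 s1 n1
  obtain ⟨u₂, U2, a2, b2⟩ := one_step M N hNM hJ hC.comm h₂ m2 s2 n2
  -- z = κ (h₁ + i h₂)
  have hκ' : (κ : ℂ) ≠ 0 := by exact_mod_cast hκ.ne'
  have ez : z = (κ : ℂ) • (h₁ + (I : ℂ) • h₂) := by
    rw [hh1, hh2, smul_smul, smul_add, smul_smul, smul_smul]
    have e1 : (κ : ℂ) * ((1 / (2 * κ) : ℝ) : ℂ) = 1 / 2 := by
      push_cast; field_simp
    have e2 : (κ : ℂ) * (I * (((1 / (2 * κ) : ℝ) : ℂ) * (-I))) = 1 / 2 := by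
      push_cast
      field_simp
      simp
    rw [e1, e2, smul_add, smul_sub]
    have : z = (1 / 2 : ℂ) • z + (1 / 2 : ℂ) • z := by
      rw [← add_smul]; norm_num
    nth_rw 1 [this]
    abel
  clear_value h₁ h₂
  have ezs : star z = (κ : ℂ) • (h₁ - (I : ℂ) • h₂) := by
    nth_rw 1 [ez]
    rw [star_smul, star_add, star_smul, s1, s2]
    have e1 : star (κ : ℂ) = (κ : ℂ) := by simp
    have e2 : star (I : ℂ) = -I := by simp
    rw [e1, e2, neg_smul, sub_eq_add_neg]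
  have cz : ∀ v, cm J z v = (κ : ℂ) • (cm J h₁ v + (I : ℂ) • cm J h₂ v) := by
    intro v
    nth_rw 1 [ez]
    simp only [cm_eq, R_smula hJ, R_adda hJ, ContinuousLinearMap.smul_apply,
      ContinuousLinearMap.add_apply, smul_sub, smul_add]
    abel
  have czs : ∀ v, cm J (star z) v = (κ : ℂ) • (cm J h₁ v - (I : ℂ) • cm J h₂ v) := by
    intro v
    nth_rw 1 [ezs]
    simp only [cm_eq, R_smula hJ, R_suba hJ, ContinuousLinearMap.smul_apply,
      ContinuousLinearMap.sub_apply, smul_sub]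
    abel
  have hkn : ‖(κ : ℂ)‖ = κ := by rw [Complex.norm_real, Real.norm_of_nonneg hκ.le]
  refine ⟨![u₁, u₂], ?_, ?_, ?_⟩
  · intro j
    fin_cases j
    · exact U1
    · exact U2
  · intro v
    rw [Fin.sum_univ_two]
    simp only [Matrix.cons_val_zero, Matrix.cons_val_one]
    rw [cz v, norm_smul, hkn, mul_pow]
    have h1 : ‖cm J h₁ v + (I : ℂ) • cm J h₂ v‖ ≤ ‖cm J h₁ v‖ + ‖cm J h₂ v‖ := by
      refine (norm_add_le _ _).trans ?_
      rw [norm_smul, Complex.norm_I, one_mul]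
    have h2 := b1 v
    have h3 := b2 v
    have h4 : ‖cm J h₁ v + (I : ℂ) • cm J h₂ v‖ ^ 2 ≤
        2 * (‖alf J u₁ v - v‖ ^ 2 + ‖alf J u₂ v - v‖ ^ 2) := by
      have h5 : ‖cm J h₁ v + (I : ℂ) • cm J h₂ v‖ ≤ ‖alf J u₁ v - v‖ + ‖alf J u₂ v - v‖ := by
        linarith
      have h6 := pow_le_pow_left₀ (norm_nonneg _) h5 2
      nlinarith [sq_nonneg (‖alf J u₁ v - v‖ - ‖alf J u₂ v - v‖)]
    nlinarith [sq_nonneg κ]
  · intro v hv
    rw [Fin.sum_univ_two]
    simp only [Matrix.cons_val_zero, Matrix.cons_val_one]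
    have h1 : ‖cm J (star z) v‖ = ‖cm J z v‖ := by
      have e1 : cm J (star z) v = -J (cm J z v) := by
        simp only [cm, star_star, J_sub hJ, hJ.inv, hv]
        abel
      rw [e1, norm_neg, J_norm hJ]
    have h2 : ‖cm J z v‖ ^ 2 + ‖cm J (star z) v‖ ^ 2 =
        2 * κ ^ 2 * (‖cm J h₁ v‖ ^ 2 + ‖cm J h₂ v‖ ^ 2) := by
      rw [cz v, czs v, norm_smul, norm_smul, hkn, mul_pow, mul_pow]
      have h3 := parallelogram_law_with_norm ℂ (cm J h₁ v) ((I : ℂ) • cm J h₂ v)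
      rw [norm_smul I, Complex.norm_I, one_mul] at h3
      nlinarith
    rw [h1] at h2
    have h3 := pow_le_pow_left₀ (norm_nonneg _) (a1 v) 2
    have h4 := pow_le_pow_left₀ (norm_nonneg _) (a2 v) 2
    have h5 : 0 ≤ κ ^ 2 := sq_nonneg κ
    nlinarith [mul_le_mul_of_nonneg_left h3 h5, mul_le_mul_of_nonneg_left h4 h5]

end Pool.Agent.H255.BC.T_cay
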