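import Pool.Agent.H255.BC.Defs

set_option autoImplicit false

open MeasureTheory Filter Topology Complex
open scoped InnerProductSpace ENNReal FourierTransform

namespace Pool.Agent.H255.BC.T_conj

open Pool.Agent.W662.CB Pool.Agent.H255.BC

section Basic

variable {H : Type} [NormedAddCommGroup H] [InnerProductSpace ℂ H] [CompleteSpace H]
  {M : VonNeumannAlgebra H} {ξ : H} {U : ℝ → H →L[ℂ] H}

/-- identity theorem for entire functions agreeing on the real line -/
theorem eq_of_real {E : Type} [NormedAddCommGroup E] [NormedSpace ℂ E] [CompleteSpace E]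
    {f g : ℂ → E} (hf : Differentiable ℂ f)
    (hg : Differentiable ℂ g) (h : ∀ t : ℝ, f t = g t) : f = g := by
  have hf' : AnalyticOnNhd ℂ f Set.univ := fun z _ => hf.analyticAt z
  have hg' : AnalyticOnNhd ℂ g Set.univ := fun z _ => hg.analyticAt z
  refine AnalyticOnNhd.eq_of_frequently_eq (z₀ := 0) hf' hg' ?_
  have hseq : Tendsto (fun n : ℕ => ((1 / ((n : ℝ) + 1) : ℝ) : ℂ)) atTop (𝓝[≠] (0 : ℂ)) := by
    rw [tendsto_nhdsWithin_iff]
    constructor
    · have h1 : Tendsto (fun n : ℕ => (1 / ((n : ℝ) + 1) : ℝ)) atTop (𝓝 0) :=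
        tendsto_one_div_add_atTop_nhds_zero_nat
      have h2 := (Complex.continuous_ofReal.tendsto 0).comp h1
      rw [Complex.ofReal_zero] at h2
      exact h2
    · refine Eventually.of_forall fun n => ?_
      simp only [Set.mem_compl_iff, Set.mem_singleton_iff]
      rw [Complex.ofReal_eq_zero]
      positivity
  exact hseq.frequently (Frequently.of_forall fun n => h _)

/-- differentiability of `z ↦ F z (g z)` -/
theorem diff_apply {F : ℂ → H →L[ℂ] H} {g : ℂ → H} (hF : ∀ v : H, Differentiable ℂ fun z => F z v)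
    (hb : ∀ R : ℝ, ∃ C : ℝ, ∀ z : ℂ, |z.im| ≤ R → ‖F z‖ ≤ C) (hg : Differentiable ℂ g) :
    Differentiable ℂ fun z => F z (g z) := by
  intro z0
  have h1 := (hF (g z0) z0).hasDerivAt
  have h2 := (hg z0).hasDerivAt
  obtain ⟨C, hC⟩ := hb (|z0.im| + 1)
  have hC0 : 0 ≤ C := (norm_nonneg _).trans (hC z0 (by linarith))
  set D1 := deriv (fun z => F z (g z0)) z0 with hD1
  set D2 := deriv g z0 with hD2
  refine (HasDerivAt.differentiableAt (f' := D1 + F z0 D2) ?_)
  rw [hasDerivAt_iff_tendsto_slope] at h1 h2 ⊢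
  -- the second factor
  have hcont : Tendsto (fun z => F z D2) (𝓝[≠] z0) (𝓝 (F z0 D2)) :=
    ((hF D2).continuous.tendsto z0).mono_left nhdsWithin_le_nhds
  have hbd : ∀ᶠ z in 𝓝[≠] z0, ‖F z‖ ≤ C := by
    have h3 : ∀ᶠ z in 𝓝 z0, |z.im| < |z0.im| + 1 := by
      have h4 : Continuous fun z : ℂ => |z.im| := Complex.continuous_im.abs
      exact h4.tendsto z0 (isOpen_Iio.mem_nhds (by show |z0.im| < |z0.im| + 1; linarith))
    filter_upwards [nhdsWithin_le_nhds h3] with z hz
    exact hC z hz.le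
  have h5 : Tendsto (fun z => F z (slope g z0 z)) (𝓝[≠] z0) (𝓝 (F z0 D2)) := by
    have h6 : Tendsto (fun z => F z (slope g z0 z) - F z D2) (𝓝[≠] z0) (𝓝 0) := by
      have h7 : Tendsto (fun z => C * ‖slope g z0 z - D2‖) (𝓝[≠] z0) (𝓝 0) := by
        have h8 : Tendsto (fun z => slope g z0 z - D2) (𝓝[≠] z0) (𝓝 0) := by
          have := h2.sub_const D2
          simpa using this
        simpa using (h8.norm.const_mul C)
      refine squeeze_zero_norm' ?_ h7
      filter_upwards [hbd] with z hz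
      rw [← map_sub]
      exact ((F z).le_opNorm _).trans (mul_le_mul_of_nonneg_right hz (norm_nonneg _))
    have h9 := h6.add hcont
    simpa using h9
  have h10 := h1.add h5
  refine h10.congr' ?_
  filter_upwards with z
  rw [slope_def_module, slope_def_module, slope_def_module, ContinuousLinearMap.map_smul, map_sub,
    ← smul_add]
  congr 1
  abel

theorem isom (hm : IsModular M ξ U) (t : ℝ) (v w : H) : ⟪U t v, U t w⟫_ℂ = ⟪v, w⟫_ℂ := by
  rw [← ContinuousLinearMap.adjoint_inner_right, ← ContinuousLinearMap.star_eq_adjoint, hm.star_eq]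
  have h1 : U (-t) (U t w) = w := by
    have h2 := hm.add (-t) t
    rw [neg_add_cancel, hm.zero] at h2
    have h3 := congrArg (fun T : H →L[ℂ] H => T w) h2
    simpa using h3.symm
  rw [h1]

theorem star_mul_U (hm : IsModular M ξ U) (t : ℝ) : star (U t) * U t = 1 := by
  rw [hm.star_eq, ← hm.add, neg_add_cancel, hm.zero]

theorem sgm_apply_xi (hm : IsModular M ξ U) (t : ℝ) (x : H →L[ℂ] H) :
    sgm U t x ξ = U t (x ξ) := by
  show U t (x (star (U t) ξ)) = U t (x ξ)
  rw [hm.star_eq, hm.fix]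

theorem sgm_mul (hm : IsModular M ξ U) (t : ℝ) (x y : H →L[ℂ] H) :
    sgm U t (x * y) = sgm U t x * sgm U t y := by
  unfold sgm
  calc U t * (x * y) * star (U t) = U t * x * 1 * y * star (U t) := by
        simp only [mul_assoc, one_mul]
    _ = U t * x * (star (U t) * U t) * y * star (U t) := by rw [star_mul_U hm]
    _ = _ := by simp only [mul_assoc]

theorem sgm_star (t : ℝ) (x : H →L[ℂ] H) : sgm U t (star x) = star (sgm U t x) := by
  unfold sgm
  rw [star_mul, star_mul, star_star, mul_assoc]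

theorem sgm_add (hm : IsModular M ξ U) (s t : ℝ) (x : H →L[ℂ] H) :
    sgm U (s + t) x = sgm U s (sgm U t x) := by
  unfold sgm
  rw [hm.add, star_mul]
  simp only [mul_assoc]

/-! ### Analytic families -/

theorem A2a (hm : IsModular M ξ U) {F : ℂ → H →L[ℂ] H} (hF : IsAn M U F) (t : ℝ) (z : ℂ) :
    F (t + z) = sgm U t (F z) := by
  ext v
  have h1 : (fun z : ℂ => F (t + z) v) = fun z : ℂ => sgm U t (F z) v := by
    apply eq_of_real
    · exact (hF.diff v).comp (by fun_prop)
    · have h2 : Differentiable ℂ fun z : ℂ => U t (F z (star (U t) v)) :=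
        (U t).differentiable.comp (hF.diff (star (U t) v))
      exact h2
    · intro s
      have h3 : F ((t : ℂ) + (s : ℂ)) = sgm U t (F s) := by
        rw [← Complex.ofReal_add, hF.ext, hF.ext, sgm_add hm]
      show F ((t : ℂ) + (s : ℂ)) v = sgm U t (F s) v
      rw [h3]
  exact congrFun h1 z

theorem an_star {F : ℂ → H →L[ℂ] H} (hF : IsAn M U F) :
    IsAn M U fun z => star (F (starRingEnd ℂ z)) where
  mem z := star_mem (hF.mem _)
  diff v := hF.diff' v
  diff' v := by
    simp only [Complex.conj_conj, star_star]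
    exact hF.diff v
  ext t := by
    simp only [Complex.conj_ofReal, map_zero]
    rw [hF.ext, sgm_star]
  bdd R := by
    obtain ⟨C, hC⟩ := hF.bdd R
    refine ⟨C, fun z hz => ?_⟩
    rw [norm_star]
    apply hC
    rw [Complex.conj_im, abs_neg]
    exact hz

theorem an_mul (hm : IsModular M ξ U) {F G : ℂ → H →L[ℂ] H} (hF : IsAn M U F) (hG : IsAn M U G) :
    IsAn M U fun z => F z * G z where
  mem z := mul_mem (hF.mem _) (hG.mem _)
  diff v := by
    have h1 := diff_apply (F := F) (g := fun z => G z v) hF.diff hF.bdd (hG.diff v)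
    exact h1
  diff' v := by
    simp only [star_mul]
    have h1 := diff_apply (F := fun z => star (G (starRingEnd ℂ z)))
      (g := fun z => star (F (starRingEnd ℂ z)) v) (an_star hG).diff (an_star hG).bdd (hF.diff' v)
    exact h1
  ext t := by
    rw [hF.ext, hG.ext, sgm_mul hm]
  bdd R := by
    obtain ⟨C, hC⟩ := hF.bdd R
    obtain ⟨C', hC'⟩ := hG.bdd R
    refine ⟨C * C', fun z hz => ?_⟩
    exact (norm_mul_le _ _).trans
      (mul_le_mul (hC z hz) (hC' z hz) (norm_nonneg _) ((norm_nonneg _).trans (hC z hz)))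

theorem an_shift (hm : IsModular M ξ U) {F : ℂ → H →L[ℂ] H} (hF : IsAn M U F) (w : ℂ) :
    IsAn M U fun z => F (z + w) where
  mem z := hF.mem _
  diff v := (hF.diff v).comp (by fun_prop)
  diff' v := by
    have h1 : (fun z : ℂ => star (F (starRingEnd ℂ z + w)) v) =
        (fun z : ℂ => star (F (starRingEnd ℂ z)) v) ∘ fun z => z + starRingEnd ℂ w := by
      funext z
      simp only [Function.comp_apply, map_add, Complex.conj_conj]
    rw [h1]
    exact (hF.diff' v).comp (by fun_prop)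
  ext t := by
    rw [A2a hm hF, zero_add]
  bdd R := by
    obtain ⟨C, hC⟩ := hF.bdd (R + |w.im|)
    refine ⟨C, fun z hz => hC _ ?_⟩
    rw [Complex.add_im]
    exact (abs_add_le _ _).trans (by linarith)

theorem smul_mem' (c : ℂ) {x : H →L[ℂ] H} (hx : x ∈ M) : c • x ∈ M := by
  have h1 : x ∈ M.toStarSubalgebra := hx
  exact M.toStarSubalgebra.smul_mem h1 c

theorem an_lin (hm : IsModular M ξ U) {F G : ℂ → H →L[ℂ] H} (hF : IsAn M U F) (hG : IsAn M U G)
    (c : ℂ) : IsAn M U fun z => F z + c • G z where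
  mem z := add_mem (hF.mem _) (smul_mem' c (hG.mem _))
  diff v := by
    have h1 := (hF.diff v).add ((hG.diff v).const_smul c)
    exact h1
  diff' v := by
    simp only [star_add, star_smul]
    have h1 := (hF.diff' v).add ((hG.diff' v).const_smul (star c))
    exact h1
  ext t := by
    rw [hF.ext, hG.ext]
    unfold sgm
    simp only [mul_add, add_mul, mul_smul_comm, smul_mul_assoc]
  bdd R := by
    obtain ⟨C, hC⟩ := hF.bdd R
    obtain ⟨C', hC'⟩ := hG.bdd R
    refine ⟨C + ‖c‖ * C', fun z hz => ?_⟩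
    refine (norm_add_le _ _).trans (add_le_add (hC z hz) ?_)
    rw [norm_smul]
    exact mul_le_mul_of_nonneg_left (hC' z hz) (norm_nonneg _)

theorem an_one (hm : IsModular M ξ U) : IsAn M U fun _ => (1 : H →L[ℂ] H) where
  mem z := one_mem M
  diff v := differentiable_const _
  diff' v := differentiable_const _
  ext t := by
    unfold sgm
    rw [mul_one]
    have h1 := star_mul_U hm (-t)
    rw [hm.star_eq, neg_neg] at h1
    rw [hm.star_eq, h1]
  bdd R := ⟨‖(1 : H →L[ℂ] H)‖, fun z _ => le_rfl⟩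

/-- constancy of the pairing -/
theorem pair_const (hm : IsModular M ξ U) {F G : ℂ → H →L[ℂ] H} (hF : IsAn M U F)
    (hG : IsAn M U G) (z w : ℂ) :
    ⟪G (starRingEnd ℂ z) ξ, F (z + w) ξ⟫_ℂ = ⟪G 0 ξ, F w ξ⟫_ℂ := by
  have h1 : (fun z : ℂ => ⟪ξ, star (G (starRingEnd ℂ z)) (F (z + w) ξ)⟫_ℂ) =
      fun _ => ⟪G 0 ξ, F w ξ⟫_ℂ := by
    apply eq_of_real
    · have h2 : Differentiable ℂ fun z : ℂ => star (G (starRingEnd ℂ z)) (F (z + w) ξ) :=
        diff_apply (an_star hG).diff (an_star hG).bdd ((an_shift hm hF w).diff ξ)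
      exact (innerSL ℂ ξ).differentiable.comp h2
    · exact differentiable_const _
    · intro t
      show ⟪ξ, star (G (starRingEnd ℂ (t : ℂ))) (F (t + w) ξ)⟫_ℂ = _
      rw [Complex.conj_ofReal, ContinuousLinearMap.star_eq_adjoint,
        ContinuousLinearMap.adjoint_inner_right, hG.ext, A2a hm hF, sgm_apply_xi hm,
        sgm_apply_xi hm, isom hm]
  have h3 := congrFun h1 z
  simp only [ContinuousLinearMap.star_eq_adjoint, ContinuousLinearMap.adjoint_inner_right] at h3
  exact h3

/-- the fundamental identity -/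
theorem fund (hA2 : S_A2) (hm : IsModular M ξ U) {F G : ℂ → H →L[ℂ] H} (hF : IsAn M U F)
    (hG : IsAn M U G) :
    ⟪star (F (I / 2)) ξ, star (G (I / 2)) ξ⟫_ℂ = ⟪G 0 ξ, F 0 ξ⟫_ℂ := by
  have h1 := hA2 H M ξ U hm F hF (I / 2) (star (G (I / 2))) (star_mem (hG.mem _))
  unfold vst at h1
  rw [mul_apply_eq_comp, mul_apply_eq_comp] at h1
  have h2 : ⟪star (F (I / 2)) ξ, star (G (I / 2)) ξ⟫_ℂ =
      ⟪ξ, F (I / 2) (star (G (I / 2)) ξ)⟫_ℂ := by
    rw [ContinuousLinearMap.star_eq_adjoint (F (I / 2)), ContinuousLinearMap.adjoint_inner_left]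
  rw [h2, h1, ContinuousLinearMap.star_eq_adjoint, ContinuousLinearMap.adjoint_inner_right]
  have h3 := pair_const hm hF hG (-(I / 2)) 0
  have h4 : starRingEnd ℂ (-(I / 2)) = I / 2 := by
    rw [map_neg, map_div₀, Complex.conj_I]
    have : starRingEnd ℂ (2 : ℂ) = 2 := Complex.conj_ofNat 2
    rw [this]
    ring
  rw [h4, add_zero] at h3
  have h5 : I / 2 - I = -(I / 2) := by ring
  rw [h5, h3]

end Basic

section Ext

variable {H : Type} [NormedAddCommGroup H] [InnerProductSpace ℂ H] [CompleteSpace H]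

/-- isometric extension from a dense range -/
theorem exists_ext {T : Type} (e j : T → H) (hd : DenseRange e)
    (hj : ∀ a b, ‖j a - j b‖ = ‖e a - e b‖) :
    ∃ J : H → H, Continuous J ∧ ∀ a, J (e a) = j a := by
  have h1 : ∀ v : H, ∃ y : H, ∀ a, ‖y - j a‖ = ‖v - e a‖ := by
    intro v
    have h2 : ∀ n : ℕ, ∃ a : T, ‖e a - v‖ < 1 / ((n : ℝ) + 1) := by
      intro n
      have h3 := hd.exists_dist_lt v (ε := 1 / ((n : ℝ) + 1)) (by positivity)
      obtain ⟨a, ha⟩ := h3
      exact ⟨a, by rwa [dist_comm, dist_eq_norm] at ha⟩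
    choose a ha using h2
    have hlim : Tendsto (fun n => e (a n)) atTop (𝓝 v) := by
      rw [tendsto_iff_norm_sub_tendsto_zero]
      exact squeeze_zero (fun n => norm_nonneg _) (fun n => (ha n).le)
        tendsto_one_div_add_atTop_nhds_zero_nat
    have hc : CauchySeq (fun n => j (a n)) := by
      have h4 := hlim.cauchySeq
      rw [Metric.cauchySeq_iff] at h4 ⊢
      intro ε hε
      obtain ⟨N, hN⟩ := h4 ε hε
      refine ⟨N, fun m hm n hn => ?_⟩
      have h5 := hN m hm n hn
      rw [dist_eq_norm] at h5 ⊢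
      rwa [hj]
    obtain ⟨y, hy⟩ := cauchySeq_tendsto_of_complete hc
    refine ⟨y, fun b => ?_⟩
    have h6 : Tendsto (fun n => ‖j (a n) - j b‖) atTop (𝓝 ‖y - j b‖) := (hy.sub_const _).norm
    have h7 : Tendsto (fun n => ‖j (a n) - j b‖) atTop (𝓝 ‖v - e b‖) := by
      simp only [hj]
      exact (hlim.sub_const _).norm
    exact tendsto_nhds_unique h6 h7
  choose J hJ using h1
  refine ⟨J, ?_, fun a => ?_⟩
  · have hL : LipschitzWith 1 J := by
      apply LipschitzWith.of_dist_le_mul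
      intro v w
      rw [NNReal.coe_one, one_mul, dist_eq_norm, dist_eq_norm]
      apply le_of_forall_pos_le_add
      intro ε hε
      obtain ⟨a, ha⟩ := hd.exists_dist_lt w (ε := ε / 2) (by positivity)
      rw [dist_eq_norm] at ha
      calc ‖J v - J w‖ = ‖(J v - j a) - (J w - j a)‖ := by congr 1; abel
        _ ≤ ‖J v - j a‖ + ‖J w - j a‖ := norm_sub_le _ _
        _ = ‖v - e a‖ + ‖w - e a‖ := by rw [hJ, hJ]
        _ = ‖(v - w) + (w - e a)‖ + ‖w - e a‖ := by congr 2; abel
        _ ≤ ‖v - w‖ + ‖w - e a‖ + ‖w - e a‖ := by gcongr; exact norm_add_le _ _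
        _ ≤ ‖v - w‖ + ε := by linarith
    exact hL.continuous
  · have h1 := hJ (e a) a
    rw [sub_self, norm_zero, norm_eq_zero, sub_eq_zero] at h1
    exact h1

end Ext

theorem conj_thm (hA2 : S_A2) (hA8a : S_A8a) : S_conj := by
  intro H _ _ _ M ξ U hm hcyc
  -- the analytic families
  let T : Type := {F : ℂ → H →L[ℂ] H // IsAn M U F}
  let e : T → H := fun F => F.1 0 ξ
  let j : T → H := fun F => star (F.1 (I / 2)) ξ
  have hd : DenseRange e := by
    intro v
    rw [Metric.mem_closure_iff]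
    intro ε hε
    obtain ⟨y, ⟨x, hx, hxy⟩, hy⟩ := Metric.mem_closure_iff.1 (hcyc v) (ε / 2) (by positivity)
    obtain ⟨F, hF, hlim⟩ := hA8a H M ξ U hm x hx
    have h1 := Metric.tendsto_atTop.1 (hlim ξ) (ε / 2) (by positivity)
    obtain ⟨N, hN⟩ := h1
    refine ⟨e ⟨F N, hF N⟩, ⟨⟨F N, hF N⟩, rfl⟩, ?_⟩
    have h2 := hN N le_rfl
    rw [dist_comm] at h2
    calc dist v (e ⟨F N, hF N⟩) ≤ dist v y + dist y (e ⟨F N, hF N⟩) := dist_triangle _ _ _
      _ < ε / 2 + ε / 2 := by
        apply add_lt_add hy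
        rw [← hxy]
        exact h2
      _ = ε := by ring
  have hinner : ∀ F G : T, ⟪j F, j G⟫_ℂ = ⟪e G, e F⟫_ℂ := fun F G => fund hA2 hm F.2 G.2
  -- linear combinations
  let lc : T → ℂ → T → T := fun F c G => ⟨fun z => F.1 z + c • G.1 z, an_lin hm F.2 G.2 c⟩
  have he_lc : ∀ F c G, e (lc F c G) = e F + c • e G := fun F c G => rfl
  have hj_lc : ∀ F c G, j (lc F c G) = j F + (starRingEnd ℂ c) • j G := by
    intro F c G
    show star (F.1 (I / 2) + c • G.1 (I / 2)) ξ = _
    rw [star_add, star_smul]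
    rfl
  have hnorm : ∀ F : T, ‖j F‖ = ‖e F‖ := by
    intro F
    have h1 := hinner F F
    rw [inner_self_eq_norm_sq_to_K, inner_self_eq_norm_sq_to_K] at h1
    have h2 : ‖j F‖ ^ 2 = ‖e F‖ ^ 2 := by exact_mod_cast h1
    exact (pow_left_inj₀ (norm_nonneg _) (norm_nonneg _) two_ne_zero).1 h2
  have hj : ∀ F G : T, ‖j F - j G‖ = ‖e F - e G‖ := by
    intro F G
    have h1 : j (lc F (-1) G) = j F - j G := by
      rw [hj_lc, map_neg, map_one, neg_smul, one_smul, sub_eq_add_neg]
    have h2 : e (lc F (-1) G) = e F - e G := by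
      rw [he_lc, neg_smul, one_smul, sub_eq_add_neg]
    rw [← h1, ← h2, hnorm]
  obtain ⟨J, hJc, hJ⟩ := exists_ext e j hd hj
  -- the companion family
  have hconj2 : starRingEnd ℂ (I / 2) = -(I / 2) := by
    rw [map_div₀, Complex.conj_I]
    have : starRingEnd ℂ (2 : ℂ) = 2 := Complex.conj_ofNat 2
    rw [this]
    ring
  let co : T → T := fun F => ⟨fun z => star (F.1 (starRingEnd ℂ (z + -(I / 2)))),
    an_shift hm (an_star F.2) (-(I / 2))⟩
  have hco0 : ∀ F : T, (co F).1 0 = star (F.1 (I / 2)) := by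
    intro F
    show star (F.1 (starRingEnd ℂ (0 + -(I / 2)))) = _
    rw [zero_add, map_neg, hconj2, neg_neg]
  have hco1 : ∀ F : T, star ((co F).1 (I / 2)) = F.1 0 := by
    intro F
    show star (star (F.1 (starRingEnd ℂ (I / 2 + -(I / 2))))) = _
    rw [add_neg_cancel, map_zero, star_star]
  have heco : ∀ F : T, e (co F) = j F := by
    intro F
    show (co F).1 0 ξ = _
    rw [hco0]
  have hjco : ∀ F : T, j (co F) = e F := by
    intro F
    show star ((co F).1 (I / 2)) ξ = _
    rw [hco1]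
  -- product
  let mu : T → T → T := fun F G => ⟨fun z => F.1 z * G.1 z, an_mul hm F.2 G.2⟩
  have hmu : ∀ F G : T, e (mu F G) = F.1 0 (e G) := fun F G => rfl
  have hJmu : ∀ Y F : T, J (Y.1 0 (J (e F))) = F.1 0 (star (Y.1 (I / 2)) ξ) := by
    intro Y F
    rw [hJ, ← heco, ← hmu, hJ]
    show star (Y.1 (I / 2) * (co F).1 (I / 2)) ξ = _
    rw [star_mul, hco1]
    rfl
  refine ⟨J, ?_, ?_, ?_, ?_, ?_, ?_, ?_, ?_⟩
  · -- add
    intro v w
    refine hd.induction_on₂ (p := fun v w => J (v + w) = J v + J w) ?_ ?_ v w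
    · exact isClosed_eq (hJc.comp (continuous_fst.add continuous_snd))
        ((hJc.comp continuous_fst).add (hJc.comp continuous_snd))
    · intro F G
      have h1 : e F + e G = e (lc F 1 G) := by rw [he_lc, one_smul]
      rw [h1, hJ, hj_lc, map_one, one_smul, hJ, hJ]
  · -- smul
    intro c v
    refine hd.induction_on (p := fun v => J (c • v) = (starRingEnd ℂ c) • J v) v ?_ ?_
    · exact isClosed_eq (hJc.comp (continuous_const.smul continuous_id)) (hJc.const_smul _)
    · intro F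
      have hz : e (lc F (-1) F) = 0 := by rw [he_lc, neg_smul, one_smul, add_neg_cancel]
      have hzj : j (lc F (-1) F) = 0 := by
        rw [hj_lc, map_neg, map_one, neg_smul, one_smul, add_neg_cancel]
      have h1 : c • e F = e (lc (lc F (-1) F) c F) := by rw [he_lc, hz, zero_add]
      rw [h1, hJ, hj_lc, hzj, zero_add, hJ]
  · -- inv
    intro v
    refine hd.induction_on (p := fun v => J (J v) = v) v ?_ ?_
    · exact isClosed_eq (hJc.comp hJc) continuous_id
    · intro F
      rw [hJ, ← heco, hJ, hjco]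
  · -- inner
    intro v w
    refine hd.induction_on₂ (p := fun v w => ⟪J v, J w⟫_ℂ = ⟪w, v⟫_ℂ) ?_ ?_ v w
    · exact isClosed_eq ((hJc.comp continuous_fst).inner (hJc.comp continuous_snd))
        (continuous_snd.inner continuous_fst)
    · intro F G
      rw [hJ, hJ, hinner]
  · -- fix
    have h1 : e ⟨fun _ => 1, an_one hm⟩ = ξ := rfl
    have h2 : j ⟨fun _ => 1, an_one hm⟩ = ξ := by
      show star (1 : H →L[ℂ] H) ξ = ξ
      rw [star_one]
      rfl
    have h3 := hJ ⟨fun _ => 1, an_one hm⟩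
    rwa [h1, h2] at h3
  · -- modular
    intro t v
    refine hd.induction_on (p := fun v => J (U t v) = U t (J v)) v ?_ ?_
    · exact isClosed_eq (hJc.comp (U t).continuous) ((U t).continuous.comp hJc)
    · intro F
      let Ft : T := ⟨fun z => F.1 (z + t), an_shift hm F.2 t⟩
      have h1 : e Ft = U t (e F) := by
        show F.1 (0 + t) ξ = U t (F.1 0 ξ)
        rw [zero_add, F.2.ext, sgm_apply_xi hm]
      have h2 : j Ft = U t (j F) := by
        show star (F.1 (I / 2 + t)) ξ = U t (star (F.1 (I / 2)) ξ)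
        rw [add_comm, A2a hm F.2, ← sgm_star, sgm_apply_xi hm]
      rw [← h1, hJ, h2, hJ]
  · -- comm
    have step : ∀ (X Y : T) (v : H),
        X.1 0 (J (Y.1 0 (J v))) = J (Y.1 0 (J (X.1 0 v))) := by
      intro X Y v
      refine hd.induction_on (p := fun v => X.1 0 (J (Y.1 0 (J v))) =
        J (Y.1 0 (J (X.1 0 v)))) v ?_ ?_
      · exact isClosed_eq ((X.1 0).continuous.comp (hJc.comp ((Y.1 0).continuous.comp hJc)))
          (hJc.comp ((Y.1 0).continuous.comp (hJc.comp (X.1 0).continuous)))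
      · intro F
        rw [hJmu, ← hmu, hJmu]
        rfl
    intro x y hx hy v
    obtain ⟨X, hX, hXlim⟩ := hA8a H M ξ U hm x hx
    obtain ⟨Y, hY, hYlim⟩ := hA8a H M ξ U hm y hy
    have step2 : ∀ (X : T) (v : H), X.1 0 (J (y (J v))) = J (y (J (X.1 0 v))) := by
      intro X v
      have h1 : Tendsto (fun n => X.1 0 (J (Y n 0 (J v)))) atTop (𝓝 (X.1 0 (J (y (J v))))) :=
        ((X.1 0).continuous.tendsto _).comp ((hJc.tendsto _).comp (hYlim _))
      have h2 : Tendsto (fun n => J (Y n 0 (J (X.1 0 v)))) atTop (𝓝 (J (y (J (X.1 0 v))))) :=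
        (hJc.tendsto _).comp (hYlim _)
      have h3 : (fun n => X.1 0 (J (Y n 0 (J v)))) = fun n => J (Y n 0 (J (X.1 0 v))) := by
        funext n
        exact step X ⟨Y n, hY n⟩ v
      rw [h3] at h1
      exact tendsto_nhds_unique h1 h2
    have h1 : Tendsto (fun n => X n 0 (J (y (J v)))) atTop (𝓝 (x (J (y (J v))))) := hXlim _
    have h2 : Tendsto (fun n => J (y (J (X n 0 v)))) atTop (𝓝 (J (y (J (x v))))) :=
      (hJc.tendsto _).comp ((y.continuous.tendsto _).comp ((hJc.tendsto _).comp (hXlim _)))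
    have h3 : (fun n => X n 0 (J (y (J v)))) = fun n => J (y (J (X n 0 v))) := by
      funext n
      exact step2 ⟨X n, hX n⟩ v
    rw [h3] at h1
    exact tendsto_nhds_unique h1 h2
  · -- an
    intro F hF
    exact hJ ⟨F, hF⟩

end Pool.Agent.H255.BC.T_conj
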