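import Pool.Agent.H255.BC.Defs2

set_option autoImplicit false

open MeasureTheory Filter Topology Complex
open scoped InnerProductSpace ENNReal FourierTransform

namespace Pool.Agent.H255.BC.R_psinorm

open Pool.Agent.W662.CB Pool.Agent.H255.BC

theorem ft_eq (h : ℝ → ℂ) (s : ℝ) :
    𝓕 h s = ∫ κ : ℝ, cexp (-(2 * Real.pi * I * s * κ)) * h κ := by
  rw [Real.fourier_real_eq_integral_exp_smul]
  congr 1
  funext κ
  rw [smul_eq_mul]
  congr 2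
  push_cast
  ring

theorem ft_cont (h : ℝ → ℂ) (hh : Tst h) : Continuous (𝓕 h) := by
  have h1 : 𝓕 h = (𝓕 (hh.2.toSchwartzMap hh.1) : SchwartzMap ℝ ℂ) := by
    rw [SchwartzMap.fourier_coe]
    rfl
  rw [h1]
  exact SchwartzMap.continuous _

theorem ft_int (h : ℝ → ℂ) (hh : Tst h) : Integrable (𝓕 h) := by
  have h1 : 𝓕 h = (𝓕 (hh.2.toSchwartzMap hh.1) : SchwartzMap ℝ ℂ) := by
    rw [SchwartzMap.fourier_coe]
    rfl
  rw [h1]
  exact SchwartzMap.integrable _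

theorem exp_int (h : ℝ → ℂ) (hh : Tst h) (s : ℝ) :
    Integrable fun κ : ℝ => cexp (-(2 * Real.pi * I * s * κ)) * h κ := by
  have hc : Continuous h := hh.1.continuous
  refine Continuous.integrable_of_hasCompactSupport (by fun_prop) ?_
  exact hh.2.mul_left

theorem ft_add (h k : ℝ → ℂ) (hh : Tst h) (hk : Tst k) (s : ℝ) :
    𝓕 (fun κ => h κ + k κ) s = 𝓕 h s + 𝓕 k s := by
  rw [ft_eq, ft_eq, ft_eq, ← integral_add (exp_int h hh s) (exp_int k hk s)]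
  congr 1
  funext κ
  ring

theorem ft_smul (h : ℝ → ℂ) (c : ℂ) (s : ℝ) :
    𝓕 (fun κ => c * h κ) s = c * 𝓕 h s := by
  rw [ft_eq, ft_eq, ← integral_const_mul]
  congr 1
  funext κ
  ring

section

variable {H : Type} [NormedAddCommGroup H] [InnerProductSpace ℂ H] [CompleteSpace H]
  {M : VonNeumannAlgebra H} {ξ : H} {U : ℝ → H →L[ℂ] H}

theorem U_inner (hU : IsModular M ξ U) (t : ℝ) (v w : H) : ⟪v, U t w⟫_ℂ = ⟪U (-t) v, w⟫_ℂ := by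
  rw [← hU.star_eq, ContinuousLinearMap.star_eq_adjoint, ContinuousLinearMap.adjoint_inner_left]

theorem U_add (hU : IsModular M ξ U) (s t : ℝ) (v : H) : U s (U t v) = U (s + t) v := by
  rw [hU.add]
  rfl

theorem U_norm (hU : IsModular M ξ U) (t : ℝ) (v : H) : ‖U t v‖ = ‖v‖ := by
  have h1 : ⟪U t v, U t v⟫_ℂ = ⟪v, v⟫_ℂ := by
    rw [U_inner hU, U_add hU, neg_add_cancel, hU.zero]
    rfl
  rw [inner_self_eq_norm_sq_to_K, inner_self_eq_norm_sq_to_K] at h1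
  have h2 : ‖U t v‖ ^ 2 = ‖v‖ ^ 2 := by exact_mod_cast h1
  exact (pow_left_inj₀ (norm_nonneg _) (norm_nonneg _) two_ne_zero).1 h2

theorem psi_cont (hU : IsModular M ξ U) (h : ℝ → ℂ) (hh : Tst h) (v : H) :
    Continuous fun s : ℝ => (𝓕 h s) • U (2 * Real.pi * s) v :=
  (ft_cont h hh).smul ((hU.cont v).comp (continuous_const.mul continuous_id))

theorem psi_int (hU : IsModular M ξ U) (h : ℝ → ℂ) (hh : Tst h) (v : H) :
    Integrable fun s : ℝ => (𝓕 h s) • U (2 * Real.pi * s) v := by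
  refine ((ft_int h hh).norm.mul_const ‖v‖).mono' (psi_cont hU h hh v).aestronglyMeasurable
    (Eventually.of_forall fun s => ?_)
  rw [norm_smul, U_norm hU]

theorem psi_addf (hU : IsModular M ξ U) (h k : ℝ → ℂ) (hh : Tst h) (hk : Tst k) (v : H) :
    psi U (fun κ => h κ + k κ) v = psi U h v + psi U k v := by
  unfold psi
  rw [← integral_add (psi_int hU h hh v) (psi_int hU k hk v)]
  congr 1
  funext s
  rw [ft_add h k hh hk, add_smul]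

omit [CompleteSpace H] in
theorem psi_smulf (h : ℝ → ℂ) (c : ℂ) (v : H) :
    psi U (fun κ => c * h κ) v = c • psi U h v := by
  unfold psi
  rw [← integral_smul]
  congr 1
  funext s
  rw [ft_smul, mul_smul]

theorem tst_conj {h : ℝ → ℂ} (hh : Tst h) : Tst (fun κ => starRingEnd ℂ (h κ)) := by
  constructor
  · exact (Complex.conjCLE.contDiff.of_le le_top).comp hh.1
  · exact hh.2.comp_left (map_zero _)

theorem tst_mul {h k : ℝ → ℂ} (hh : Tst h) (hk : Tst k) : Tst (fun κ => h κ * k κ) :=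
  ⟨hh.1.mul hk.1, hh.2.mul_right⟩

theorem tst_ofReal {χ : ℝ → ℝ} (h1 : ContDiff ℝ (⊤ : ℕ∞) χ) (h2 : HasCompactSupport χ) :
    Tst (fun κ => (χ κ : ℂ)) := by
  constructor
  · exact (Complex.ofRealCLM.contDiff).comp h1
  · exact h2.comp_left (g := fun x : ℝ => (x : ℂ)) Complex.ofReal_zero

theorem psi_nsq (h1 : S_psi) (h2 : S_psi_mul) (hU : IsModular M ξ U) (h : ℝ → ℂ) (hh : Tst h)
    (v : H) : ⟪psi U h v, psi U h v⟫_ℂ = ⟪psi U (fun κ => starRingEnd ℂ (h κ) * h κ) v, v⟫_ℂ := by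
  rw [h2 H M ξ U hU _ _ (tst_conj hh) hh v]
  exact (h1 H M ξ U hU h hh).2.1 (psi U h v) v

/-- step 1 -/
theorem step1 (h1 : S_psi) (h2 : S_psi_mul) (hU : IsModular M ξ U) (h : ℝ → ℂ) (hh : Tst h)
    (C : ℝ) (hC0 : 0 ≤ C) (hC : ∀ κ, ‖h κ‖ < C) (χ : ℝ → ℝ) (c1 : ContDiff ℝ (⊤ : ℕ∞) χ)
    (c2 : HasCompactSupport χ) (hχ : ∀ κ, h κ ≠ 0 → χ κ = 1) (v : H) :
    ‖psi U h v‖ ≤ C * ‖psi U (fun κ => (χ κ : ℂ)) v‖ := by
  have hpos : ∀ κ, 0 < C ^ 2 - ‖h κ‖ ^ 2 := by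
    intro κ
    have := hC κ
    have h0 := norm_nonneg (h κ)
    nlinarith
  have hk1 : ContDiff ℝ (⊤ : ℕ∞) (fun κ => χ κ * Real.sqrt (C ^ 2 - ‖h κ‖ ^ 2)) := by
    refine c1.mul (ContDiff.sqrt (contDiff_const.sub (hh.1.norm_sq ℝ)) ?_)
    intro κ
    exact (hpos κ).ne'
  have hk2 : HasCompactSupport (fun κ => χ κ * Real.sqrt (C ^ 2 - ‖h κ‖ ^ 2)) := c2.mul_right
  have tk := tst_ofReal hk1 hk2
  have tc := tst_ofReal c1 c2
  have e1 := psi_nsq h1 h2 hU h hh v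
  have e2 := psi_nsq h1 h2 hU _ tk v
  have e3 := psi_nsq h1 h2 hU _ tc v
  have e4 : psi U (fun κ => starRingEnd ℂ (h κ) * h κ) v +
      psi U (fun κ => starRingEnd ℂ ((χ κ * Real.sqrt (C ^ 2 - ‖h κ‖ ^ 2) : ℝ) : ℂ) *
        ((χ κ * Real.sqrt (C ^ 2 - ‖h κ‖ ^ 2) : ℝ) : ℂ)) v =
      ((C ^ 2 : ℝ) : ℂ) • psi U (fun κ => starRingEnd ℂ (χ κ : ℂ) * (χ κ : ℂ)) v := by
    rw [← psi_addf hU _ _ (tst_mul (tst_conj hh) hh) (tst_mul (tst_conj tk) tk), ← psi_smulf]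
    congr 1
    funext κ
    rw [Complex.conj_ofReal, Complex.conj_ofReal, ← Complex.ofReal_mul, ← Complex.ofReal_mul,
      ← Complex.ofReal_mul, Complex.conj_mul', ← Complex.ofReal_pow, ← Complex.ofReal_add]
    congr 1
    have hs := Real.mul_self_sqrt (hpos κ).le
    have : χ κ * √(C ^ 2 - ‖h κ‖ ^ 2) * (χ κ * √(C ^ 2 - ‖h κ‖ ^ 2)) =
        χ κ * χ κ * (C ^ 2 - ‖h κ‖ ^ 2) := by
      rw [← hs]
      rw [hs]
      calc _ = χ κ * χ κ * (√(C ^ 2 - ‖h κ‖ ^ 2) * √(C ^ 2 - ‖h κ‖ ^ 2)) := by ring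
        _ = _ := by rw [hs]
    rw [this]
    by_cases h0 : h κ = 0
    · rw [h0, norm_zero]
      ring
    · rw [hχ κ h0]
      ring
  have e5 : ⟪psi U h v, psi U h v⟫_ℂ +
      ⟪psi U (fun κ => ((χ κ * Real.sqrt (C ^ 2 - ‖h κ‖ ^ 2) : ℝ) : ℂ)) v,
        psi U (fun κ => ((χ κ * Real.sqrt (C ^ 2 - ‖h κ‖ ^ 2) : ℝ) : ℂ)) v⟫_ℂ =
      ((C ^ 2 : ℝ) : ℂ) *
        ⟪psi U (fun κ => (χ κ : ℂ)) v, psi U (fun κ => (χ κ : ℂ)) v⟫_ℂ := by
    rw [e1, e2, e3, ← inner_add_left, e4, inner_smul_left, Complex.conj_ofReal]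
  rw [inner_self_eq_norm_sq_to_K, inner_self_eq_norm_sq_to_K, inner_self_eq_norm_sq_to_K] at e5
  have e6 : ‖psi U h v‖ ^ 2 +
      ‖psi U (fun κ => ((χ κ * Real.sqrt (C ^ 2 - ‖h κ‖ ^ 2) : ℝ) : ℂ)) v‖ ^ 2 =
      C ^ 2 * ‖psi U (fun κ => (χ κ : ℂ)) v‖ ^ 2 := by
    have e8 : ((‖psi U h v‖ ^ 2 +
      ‖psi U (fun κ => ((χ κ * Real.sqrt (C ^ 2 - ‖h κ‖ ^ 2) : ℝ) : ℂ)) v‖ ^ 2 : ℝ) : ℂ) =
      ((C ^ 2 * ‖psi U (fun κ => (χ κ : ℂ)) v‖ ^ 2 : ℝ) : ℂ) := by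
      rw [Complex.ofReal_add, Complex.ofReal_mul, Complex.ofReal_pow (‖psi U h v‖),
        Complex.ofReal_pow (‖psi U (fun κ => (χ κ : ℂ)) v‖), Complex.ofReal_pow
          (‖psi U (fun κ => ((χ κ * Real.sqrt (C ^ 2 - ‖h κ‖ ^ 2) : ℝ) : ℂ)) v‖)]
      exact e5
    exact Complex.ofReal_injective e8
  have e7 : ‖psi U h v‖ ^ 2 ≤ (C * ‖psi U (fun κ => (χ κ : ℂ)) v‖) ^ 2 := by
    rw [mul_pow]
    nlinarith [sq_nonneg ‖psi U (fun κ => ((χ κ * Real.sqrt (C ^ 2 - ‖h κ‖ ^ 2) : ℝ) : ℂ)) v‖]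
  exact le_of_sq_le_sq e7 (by positivity)

end

theorem bump (R : ℝ) (hR : 0 < R) : ∃ χ : ℝ → ℝ, ContDiff ℝ (⊤ : ℕ∞) χ ∧ HasCompactSupport χ ∧
    (∀ κ, 0 ≤ χ κ) ∧ (∀ κ, χ κ ≤ 1) ∧ (∀ κ, |κ| ≤ R → χ κ = 1) ∧
    ∀ κ, R + 1 < |κ| → χ κ = 0 := by
  let f : ContDiffBump (0 : ℝ) := ⟨R, R + 1, hR, by linarith⟩
  refine ⟨f, f.contDiff, f.hasCompactSupport, fun κ => f.nonneg, fun κ => f.le_one, ?_, ?_⟩
  · intro κ hκ
    apply f.one_of_mem_closedBall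
    rw [mem_closedBall_zero_iff, Real.norm_eq_abs]
    exact hκ
  · intro κ hκ
    apply f.zero_of_le_dist
    rw [dist_zero_right, Real.norm_eq_abs]
    exact hκ.le

theorem supp_bd {h : ℝ → ℂ} (hh : Tst h) : ∃ R : ℝ, 0 < R ∧ ∀ κ, h κ ≠ 0 → |κ| ≤ R := by
  obtain ⟨R, hR⟩ := hh.2.isBounded.subset_closedBall (0 : ℝ)
  refine ⟨max R 1, by positivity, fun κ hκ => ?_⟩
  have := hR (subset_tsupport _ hκ)
  rw [mem_closedBall_zero_iff, Real.norm_eq_abs] at this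
  exact this.trans (le_max_left _ _)

section

variable {H : Type} [NormedAddCommGroup H] [InnerProductSpace ℂ H] [CompleteSpace H]
  {M : VonNeumannAlgebra H} {ξ : H} {U : ℝ → H →L[ℂ] H}

theorem tst_pow {χ : ℝ → ℝ} (c1 : ContDiff ℝ (⊤ : ℕ∞) χ) (c2 : HasCompactSupport χ) (n : ℕ) :
    Tst (fun κ => (χ κ : ℂ) ^ (n + 1)) := by
  have h := tst_ofReal c1 c2
  induction n with
  | zero => simpa using h
  | succ n ih =>
    have := tst_mul ih h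
    simpa [pow_succ] using this

theorem step2 (h1 : S_psi) (h2 : S_psi_mul) (hU : IsModular M ξ U) (χ : ℝ → ℝ)
    (c1 : ContDiff ℝ (⊤ : ℕ∞) χ) (c2 : HasCompactSupport χ) (h0 : ∀ κ, 0 ≤ χ κ)
    (h1' : ∀ κ, χ κ ≤ 1) (v : H) : ‖psi U (fun κ => (χ κ : ℂ)) v‖ ≤ ‖v‖ := by
  have tc := tst_ofReal c1 c2
  obtain ⟨⟨A, hA⟩, hadj, -, -⟩ := h1 H M ξ U hU _ tc
  have hsa : IsSelfAdjoint A := by
    rw [ContinuousLinearMap.isSelfAdjoint_iff_isSymmetric]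
    intro x y
    have := hadj x y
    rw [← hA] at this
    simp only [Complex.conj_ofReal] at this
    rw [← hA x] at this
    exact this.symm
  have hpow : ∀ n : ℕ, ∀ v : H, (A ^ (n + 1)) v = psi U (fun κ => (χ κ : ℂ) ^ (n + 1)) v := by
    intro n
    induction n with
    | zero =>
      intro v
      simp only [zero_add, pow_one]
      exact hA v
    | succ n ih =>
      intro v
      rw [pow_succ, mul_apply_eq_comp, ih, hA,
        ← h2 H M ξ U hU _ _ (tst_pow c1 c2 n) tc v]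
      congr 1
  obtain ⟨R, hR, hR'⟩ := supp_bd tc
  obtain ⟨χ₂, d1, d2, d3, d4, d5, -⟩ := bump R hR
  obtain ⟨⟨B, hB⟩, -, -, -⟩ := h1 H M ξ U hU _ (tst_ofReal d1 d2)
  have hb : ∀ n : ℕ, ‖A ^ (n + 1)‖ ≤ 2 * ‖B‖ := by
    intro n
    refine ContinuousLinearMap.opNorm_le_bound _ (by positivity) fun v => ?_
    rw [hpow]
    have hs := step1 h1 h2 hU _ (tst_pow c1 c2 n) 2 (by norm_num) (fun κ => by
      rw [norm_pow, Complex.norm_real, Real.norm_eq_abs, abs_of_nonneg (h0 κ)]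
      exact lt_of_le_of_lt (pow_le_one₀ (h0 κ) (h1' κ)) (by norm_num)) χ₂ d1 d2 (fun κ hκ => by
        refine d5 κ (hR' κ ?_)
        intro h
        exact hκ (by rw [h]; simp)) v
    refine hs.trans ?_
    rw [← hB, mul_assoc]
    exact mul_le_mul_of_nonneg_left (B.le_opNorm v) (by norm_num)
  have hA1 : ‖A‖ ≤ 1 := by
    by_contra hlt
    push Not at hlt
    obtain ⟨n, hn⟩ := pow_unbounded_of_one_lt (2 * ‖B‖) hlt
    have e1 := hsa.nnnorm_pow_two_pow n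
    have e2 : ‖A ^ 2 ^ n‖ = ‖A‖ ^ 2 ^ n := by
      have := congrArg NNReal.toReal e1
      simpa using this
    have e3 : ‖A‖ ^ n ≤ ‖A‖ ^ 2 ^ n := pow_le_pow_right₀ hlt.le (Nat.lt_two_pow_self).le
    have e4 := hb (2 ^ n - 1)
    rw [Nat.sub_add_cancel Nat.one_le_two_pow, e2] at e4
    linarith
  rw [← hA]
  calc ‖A v‖ ≤ ‖A‖ * ‖v‖ := A.le_opNorm v
    _ ≤ 1 * ‖v‖ := mul_le_mul_of_nonneg_right hA1 (norm_nonneg _)
    _ = ‖v‖ := one_mul _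

end

theorem r (h1 : S_psi) (h2 : S_psi_mul) (_h3 : S_psi_one) : S_psi_norm := by
  intro H _ _ _ M ξ U hU h hh C hC v
  have hC0 : 0 ≤ C := (norm_nonneg _).trans (hC 0)
  obtain ⟨R, hR, hR'⟩ := supp_bd hh
  obtain ⟨χ, d1, d2, d3, d4, d5, -⟩ := bump R hR
  refine le_of_forall_pos_le_add fun ε hε => ?_
  have hv := norm_nonneg v
  have hδ : 0 < ε / (‖v‖ + 1) := by positivity
  have hs := step1 h1 h2 hU h hh (C + ε / (‖v‖ + 1)) (by positivity)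
    (fun κ => by linarith [hC κ]) χ d1 d2 (fun κ hκ => d5 κ (hR' κ hκ)) v
  have hs2 := step2 h1 h2 hU χ d1 d2 d3 d4 v
  refine hs.trans ((mul_le_mul_of_nonneg_left hs2 (by positivity)).trans ?_)
  rw [add_mul]
  have : ε / (‖v‖ + 1) * ‖v‖ ≤ ε := by
    rw [div_mul_eq_mul_div, div_le_iff₀ (by positivity)]
    nlinarith
  linarith

end Pool.Agent.H255.BC.R_psinorm
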